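import Pool.Agent.Lib.MP_3029eb_ag.CompDefs

/-!
# C6: valuations with values in a lexicographic group `ℤ^r` are composed of at most `r` discrete
rank-one valuations (helper35)
-/

set_option autoImplicit false

open IsLocalRing

namespace Pool.Agent.Lib.MP_3029eb_ag

namespace C6

/-- the first coordinate -/
def first (r : ℕ) : Lex (Fin (r + 1) → ℤ) →+ ℤ where
  toFun x := ofLex x 0
  map_zero' := rfl
  map_add' _ _ := rfl

/-- the other coordinates -/
def tail (r : ℕ) : Lex (Fin (r + 1) → ℤ) →+ Lex (Fin r → ℤ) where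
  toFun x := toLex fun i => ofLex x i.succ
  map_zero' := rfl
  map_add' _ _ := rfl

theorem lt_zero_iff {r : ℕ} (x : Lex (Fin (r + 1) → ℤ)) :
    x < 0 ↔ first r x < 0 ∨ (first r x = 0 ∧ tail r x < 0) := by
  constructor
  · rintro ⟨i, hi, hi'⟩
    revert hi hi'
    refine Fin.cases ?_ (fun i => ?_) i
    · intro _ h
      exact Or.inl h
    · intro hi hi'
      right
      refine ⟨hi 0 (Fin.succ_pos i), i, fun j hj => ?_, hi'⟩
      exact hi j.succ (Fin.succ_lt_succ_iff.2 hj)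
  · rintro (h | ⟨h, i, hi, hi'⟩)
    · exact ⟨0, fun j hj => absurd hj (Fin.not_lt_zero j), h⟩
    · refine ⟨i.succ, ?_, hi'⟩
      intro j
      refine Fin.cases ?_ (fun j => ?_) j
      · intro _
        exact h
      · intro hj
        exact hi j (Fin.succ_lt_succ_iff.1 hj)

theorem eq_zero_iff {r : ℕ} (x : Lex (Fin (r + 1) → ℤ)) :
    x = 0 ↔ first r x = 0 ∧ tail r x = 0 := by
  constructor
  · rintro rfl
    exact ⟨rfl, rfl⟩
  · rintro ⟨h1, h2⟩
    funext i
    refine Fin.cases ?_ (fun i => ?_) i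
    · exact h1
    · exact congrFun h2 i

theorem le_zero_iff {r : ℕ} (x : Lex (Fin (r + 1) → ℤ)) :
    x ≤ 0 ↔ first r x < 0 ∨ (first r x = 0 ∧ tail r x ≤ 0) := by
  constructor
  · intro h
    rcases h.lt_or_eq with h | h
    · rcases (lt_zero_iff x).1 h with h | ⟨h1, h2⟩
      · exact Or.inl h
      · exact Or.inr ⟨h1, le_of_lt h2⟩
    · obtain ⟨h1, h2⟩ := (eq_zero_iff x).1 h
      exact Or.inr ⟨h1, h2.le⟩
  · rintro (h | ⟨h1, h2⟩)
    · exact le_of_lt ((lt_zero_iff x).2 (Or.inl h))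
    · rcases h2.lt_or_eq with h | h
      · exact le_of_lt ((lt_zero_iff x).2 (Or.inr ⟨h1, h⟩))
      · exact le_of_eq ((eq_zero_iff x).2 ⟨h1, h⟩)

/-- `V` is given by the homomorphism `φ` -/
def Giv {r : ℕ} {K : Type} [Field K] (V : ValuationSubring K)
    (φ : Kˣ →* Multiplicative (Lex (Fin r → ℤ))) : Prop :=
  ∀ z : Kˣ, (z : K) ∈ V ↔ (φ z).toAdd ≤ 0

theorem discRank_succ : ∀ (r : ℕ) (K : Type) [Field K] (V : ValuationSubring K),
    DiscRank r K V → DiscRank (r + 1) K V := by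
  intro r
  induction r with
  | zero =>
    intro K _ V h
    exact Or.inl h
  | succ r ih =>
    intro K _ V h
    rcases h with h | ⟨V1, h1, h2, h3⟩
    · exact Or.inl h
    · exact Or.inr ⟨V1, h1, h2, ih _ _ h3⟩

section

variable {r : ℕ} {K : Type} [Field K] (V : ValuationSubring K)
  (φ : Kˣ →* Multiplicative (Lex (Fin (r + 1) → ℤ))) (hφ : Giv V φ)

/-- the first coordinate of `φ` -/
def φ1 : Kˣ →* Multiplicative ℤ := (first r).toMultiplicative.comp φ

/-- the other coordinates of `φ` -/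
def φ2 : Kˣ →* Multiplicative (Lex (Fin r → ℤ)) := (tail r).toMultiplicative.comp φ

include hφ in
theorem mem_iff (z : Kˣ) : (z : K) ∈ V ↔ (φ1 φ z).toAdd < 0 ∨
    ((φ1 φ z).toAdd = 0 ∧ (φ2 φ z).toAdd ≤ 0) := by
  rw [hφ, le_zero_iff]
  rfl

/-- the coarser valuation ring -/
def V1 : ValuationSubring K where
  carrier := {z | ∀ h : z ≠ 0, (φ1 φ (Units.mk0 z h)).toAdd ≤ 0}
  mul_mem' := by
    intro a b ha hb h
    have ha0 : a ≠ 0 := left_ne_zero_of_mul h
    have hb0 : b ≠ 0 := right_ne_zero_of_mul h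
    have e : Units.mk0 (a * b) h = Units.mk0 a ha0 * Units.mk0 b hb0 := Units.ext rfl
    rw [e, map_mul, toAdd_mul]
    exact add_nonpos (ha ha0) (hb hb0)
  one_mem' := by
    intro h
    have e : Units.mk0 (1 : K) h = 1 := Units.ext rfl
    rw [e, map_one, toAdd_one]
  add_mem' := by
    have key : ∀ a b : K, (∀ h : b ≠ 0, (φ1 φ (Units.mk0 b h)).toAdd ≤ 0) → b ≠ 0 → a / b ∈ V →
        ∀ h : a + b ≠ 0, (φ1 φ (Units.mk0 (a + b) h)).toAdd ≤ 0 := by
      intro a b hb hb0 hab h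
      have e1 : (a + b) / b = a / b + 1 := by field_simp
      have e2 : (a + b) / b ≠ 0 := div_ne_zero h hb0
      have e3 : (a + b) / b ∈ V := by
        rw [e1]
        exact add_mem hab (one_mem V)
      have e4 := (mem_iff V φ hφ (Units.mk0 _ e2)).1 e3
      have e5 : Units.mk0 (a + b) h = Units.mk0 _ e2 * Units.mk0 b hb0 := by
        apply Units.ext
        simp only [Units.val_mk0, Units.val_mul]
        field_simp
      rw [e5, map_mul, toAdd_mul]
      refine add_nonpos ?_ (hb hb0)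
      rcases e4 with e4 | e4
      · exact e4.le
      · exact e4.1.le
    intro a b ha hb h
    by_cases ha0 : a = 0
    · subst ha0
      have e : Units.mk0 (0 + b) h = Units.mk0 b (by simpa using h) := by
        apply Units.ext
        simp
      rw [e]
      exact hb _
    by_cases hb0 : b = 0
    · subst hb0
      have e : Units.mk0 (a + 0) h = Units.mk0 a (by simpa using h) := by
        apply Units.ext
        simp
      rw [e]
      exact ha _
    rcases V.mem_or_inv_mem (a / b) with hab | hab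
    · exact key a b hb hb0 hab h
    · rw [inv_div] at hab
      have h' : b + a ≠ 0 := by rwa [add_comm]
      have e : Units.mk0 (a + b) h = Units.mk0 (b + a) h' := by
        apply Units.ext
        simp [add_comm]
      rw [e]
      exact key b a ha ha0 hab h'
  zero_mem' := fun h => absurd rfl h
  neg_mem' := by
    intro a ha h
    have ha0 : a ≠ 0 := neg_ne_zero.1 h
    have e : Units.mk0 (-a) h = (-1) * Units.mk0 a ha0 := by
      apply Units.ext
      simp
    have e1 : (φ1 φ (-1)).toAdd + (φ1 φ (-1)).toAdd = 0 := by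
      rw [← toAdd_mul, ← map_mul]
      simp
    have e2 : (φ1 φ (-1)).toAdd = 0 := by omega
    rw [e, map_mul, toAdd_mul, e2, zero_add]
    exact ha ha0
  mem_or_inv_mem' := by
    intro a
    by_cases h0 : a = 0
    · left
      intro h
      exact absurd h0 h
    · rcases le_total (φ1 φ (Units.mk0 a h0)).toAdd 0 with h | h
      · left
        intro _
        exact h
      · right
        intro h1
        have e : Units.mk0 a⁻¹ h1 = (Units.mk0 a h0)⁻¹ := Units.ext rfl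
        rw [e, map_inv, toAdd_inv]
        omega

theorem mem_V1 (z : Kˣ) : (z : K) ∈ V1 V φ hφ ↔ (φ1 φ z).toAdd ≤ 0 := by
  constructor
  · intro h
    have := h z.ne_zero
    rwa [Units.mk0_val] at this
  · intro h h'
    rwa [Units.mk0_val]

theorem le_V1 : V ≤ V1 V φ hφ := by
  intro z hz h
  have := (mem_iff V φ hφ (Units.mk0 z h)).1 hz
  rcases this with h1 | h1
  · exact h1.le
  · exact h1.1.le

theorem isUnit_V1 (z : V1 V φ hφ) (hz : (z : K) ≠ 0) :
    IsUnit z ↔ (φ1 φ (Units.mk0 (z : K) hz)).toAdd = 0 := by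
  rw [(V1 V φ hφ).valuation_eq_one_iff]
  have h1 := (mem_V1 V φ hφ (Units.mk0 (z : K) hz)).1 z.2
  constructor
  · intro h
    have h2 : (z : K)⁻¹ ∈ V1 V φ hφ := by
      rw [← ValuationSubring.valuation_le_one_iff, map_inv₀, h, inv_one]
    have h3 := (mem_V1 V φ hφ (Units.mk0 (z : K) hz)⁻¹).1 (by simpa using h2)
    rw [map_inv, toAdd_inv] at h3
    omega
  · intro h
    have h2 : ((Units.mk0 (z : K) hz)⁻¹ : Kˣ).1 ∈ V1 V φ hφ := by
      rw [mem_V1, map_inv, toAdd_inv, h]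
      simp
    have h3 : (z : K)⁻¹ ∈ V1 V φ hφ := by simpa using h2
    have h4 : IsUnit z := by
      refine IsUnit.of_mul_eq_one ⟨(z : K)⁻¹, h3⟩ ?_
      apply Subtype.ext
      exact mul_inv_cancel₀ hz
    exact ((V1 V φ hφ).valuation_eq_one_iff z).1 h4

/-- the maximal ideal of `V1` is contained in `V` -/
theorem max_le (z : V1 V φ hφ) (hz : ¬ IsUnit z) : (z : K) ∈ V := by
  by_cases h0 : (z : K) = 0
  · rw [h0]
    exact zero_mem V
  rw [isUnit_V1 V φ hφ z h0] at hz
  have h1 := (mem_V1 V φ hφ (Units.mk0 (z : K) h0)).1 z.2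
  have h2 := (mem_iff V φ hφ (Units.mk0 (z : K) h0)).2 (Or.inl (lt_of_le_of_ne h1 hz))
  exact h2

theorem dvr_V1 (h1 : ∃ z, φ1 φ z ≠ 1) : IsDiscreteValuationRing (V1 V φ hφ) := by
  classical
  -- the least positive value
  have hex : ∃ n : ℕ, 0 < n ∧ ∃ z : Kˣ, (φ1 φ z).toAdd = -(n : ℤ) := by
    obtain ⟨z, hz⟩ := h1
    have hz' : (φ1 φ z).toAdd ≠ 0 := fun h => hz (by rw [← ofAdd_toAdd (φ1 φ z), h]; rfl)
    rcases lt_or_gt_of_ne hz' with h | h
    · exact ⟨(-(φ1 φ z).toAdd).toNat, by omega, z, by omega⟩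
    · refine ⟨((φ1 φ z).toAdd).toNat, by omega, z⁻¹, ?_⟩
      rw [map_inv, toAdd_inv]
      omega
  set n := Nat.find hex with hn
  obtain ⟨hn0, ϖ, hϖ⟩ := Nat.find_spec hex
  have hmin : ∀ m : ℕ, m < n → ¬ (0 < m ∧ ∃ z : Kˣ, (φ1 φ z).toAdd = -(m : ℤ)) :=
    fun m hm => Nat.find_min hex hm
  rw [← hn] at hn0 hϖ
  -- all values are multiples
  have hdvd : ∀ z : Kˣ, (n : ℤ) ∣ (φ1 φ z).toAdd := by
    intro z
    rw [Int.dvd_iff_emod_eq_zero]
    by_contra hne
    have h2 : 0 ≤ (φ1 φ z).toAdd % (n : ℤ) := Int.emod_nonneg _ (by omega)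
    have h3 : (φ1 φ z).toAdd % (n : ℤ) < n := Int.emod_lt_of_pos _ (by omega)
    have h4 := Int.emod_add_mul_ediv (φ1 φ z).toAdd (n : ℤ)
    set q := (φ1 φ z).toAdd / (n : ℤ)
    set m := (φ1 φ z).toAdd % (n : ℤ)
    apply hmin m.toNat (by omega)
    refine ⟨by omega, (z * ϖ ^ q)⁻¹, ?_⟩
    rw [map_inv, toAdd_inv, map_mul, toAdd_mul, map_zpow, toAdd_zpow, hϖ, smul_eq_mul]
    have h5 : ((m.toNat : ℕ) : ℤ) = m := by omega
    rw [h5]
    linarith [h4, mul_comm (n : ℤ) q]
  have hϖV : (ϖ : K) ∈ V1 V φ hφ := by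
    rw [mem_V1, hϖ]
    omega
  set p : V1 V φ hφ := ⟨(ϖ : K), hϖV⟩ with hp
  have hp0 : (p : K) ≠ 0 := ϖ.ne_zero
  have hval : ∀ z : V1 V φ hφ, z ≠ 0 → ∃ h : (z : K) ≠ 0, ∃ k : ℕ,
      (φ1 φ (Units.mk0 (z : K) h)).toAdd = -((n : ℤ) * k) := by
    intro z hz
    have h : (z : K) ≠ 0 := fun h => hz (Subtype.ext h)
    obtain ⟨c, hc⟩ := hdvd (Units.mk0 (z : K) h)
    have h2 := (mem_V1 V φ hφ (Units.mk0 (z : K) h)).1 z.2
    have h3 : c ≤ 0 := by
      by_contra hcon
      push Not at hcon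
      have : 0 < (n : ℤ) * c := mul_pos (by omega) hcon
      omega
    refine ⟨h, (-c).toNat, ?_⟩
    have h4 : (((-c).toNat : ℕ) : ℤ) = -c := by omega
    rw [hc, h4]
    ring
  apply IsDiscreteValuationRing.ofHasUnitMulPowIrreducibleFactorization
  refine ⟨p, ?_, ?_⟩
  · rw [irreducible_iff]
    have hp1 : Units.mk0 (p : K) hp0 = ϖ := Units.ext rfl
    constructor
    · rw [isUnit_V1 V φ hφ p hp0, hp1, hϖ]
      omega
    · intro a b hab
      have hab0 : a ≠ 0 ∧ b ≠ 0 := by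
        constructor
        · rintro rfl
          rw [zero_mul] at hab
          exact hp0 (congrArg Subtype.val hab)
        · rintro rfl
          rw [mul_zero] at hab
          exact hp0 (congrArg Subtype.val hab)
      obtain ⟨ha, k, hk⟩ := hval a hab0.1
      obtain ⟨hb, l, hl⟩ := hval b hab0.2
      have e : ϖ = Units.mk0 (a : K) ha * Units.mk0 (b : K) hb := by
        apply Units.ext
        exact congrArg Subtype.val hab
      have e1 : (φ1 φ ϖ).toAdd = -((n : ℤ) * k) + -((n : ℤ) * l) := by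
        rw [← hk, ← hl, ← toAdd_mul, ← map_mul, ← e]
      rw [hϖ] at e1
      have e2 : (n : ℤ) * (k + l) = n * 1 := by linarith
      have e3 : (k : ℤ) + l = 1 := mul_left_cancel₀ (by omega) e2
      have e4 : k = 0 ∨ l = 0 := by omega
      rcases e4 with rfl | rfl
      · left
        rw [isUnit_V1 V φ hφ a ha, hk]
        simp
      · right
        rw [isUnit_V1 V φ hφ b hb, hl]
        simp
  · intro z hz
    obtain ⟨h, k, hk⟩ := hval z hz
    refine ⟨k, ?_⟩
    have hu : ((Units.mk0 (z : K) h * (ϖ ^ k)⁻¹ : Kˣ) : K) ∈ V1 V φ hφ := by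
      rw [mem_V1, map_mul, toAdd_mul, map_inv, toAdd_inv, map_pow, toAdd_pow, hϖ, hk]
      simp [mul_comm]
    have hu0 : ((⟨_, hu⟩ : V1 V φ hφ) : K) ≠ 0 :=
      Units.ne_zero (Units.mk0 (z : K) h * (ϖ ^ k)⁻¹)
    have hu' : IsUnit (⟨_, hu⟩ : V1 V φ hφ) := by
      rw [isUnit_V1 V φ hφ _ hu0]
      have : Units.mk0 ((⟨_, hu⟩ : V1 V φ hφ) : K) hu0 = Units.mk0 (z : K) h * (ϖ ^ k)⁻¹ :=
        Units.ext rfl
      rw [this, map_mul, toAdd_mul, map_inv, toAdd_inv, map_pow, toAdd_pow, hϖ, hk]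
      simp [mul_comm]
    refine ⟨hu'.unit, ?_⟩
    apply Subtype.ext
    change (p : K) ^ k * ((Units.mk0 (z : K) h * (ϖ ^ k)⁻¹ : Kˣ) : K) = z
    have e : (p : K) ^ k = ((ϖ ^ k : Kˣ) : K) := by
      rw [Units.val_pow_eq_pow_val]
    rw [e, ← Units.val_mul, mul_comm (Units.mk0 (z : K) h), mul_inv_cancel_left]
    rfl

/-- the values of the units of `V1`, without the first coordinate -/
def ψ : (V1 V φ hφ)ˣ →* Multiplicative (Lex (Fin r → ℤ)) :=
  (φ2 φ).comp (Units.map ((V1 V φ hφ).subtype : V1 V φ hφ →* K))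

/-- the residue map on units -/
noncomputable def res : (V1 V φ hφ)ˣ →* (ResidueField (V1 V φ hφ))ˣ :=
  Units.map (residue (V1 V φ hφ) : V1 V φ hφ →* ResidueField (V1 V φ hφ))

theorem res_surj : Function.Surjective (res V φ hφ) := by
  intro y
  obtain ⟨u, hu⟩ := residue_surjective (y : ResidueField (V1 V φ hφ))
  have h1 : IsUnit u := by
    by_contra h
    have h2 : residue (V1 V φ hφ) u = 0 := by
      rw [residue_eq_zero_iff, mem_maximalIdeal]
      exact h
    rw [hu] at h2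
    exact y.ne_zero h2
  exact ⟨h1.unit, Units.ext hu⟩

theorem unit_φ1 (u : (V1 V φ hφ)ˣ) :
    (φ1 φ (Units.map ((V1 V φ hφ).subtype : V1 V φ hφ →* K) u)).toAdd = 0 := by
  have h1 := (isUnit_V1 V φ hφ (u : V1 V φ hφ)
    (Units.ne_zero (Units.map ((V1 V φ hφ).subtype : V1 V φ hφ →* K) u))).1 u.isUnit
  have e : Units.mk0 ((u : V1 V φ hφ) : K)
      (Units.ne_zero (Units.map ((V1 V φ hφ).subtype : V1 V φ hφ →* K) u)) =
      Units.map ((V1 V φ hφ).subtype : V1 V φ hφ →* K) u := Units.ext rfl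
  rw [e] at h1
  exact h1

theorem unit_mem (u : (V1 V φ hφ)ˣ) :
    ((u : V1 V φ hφ) : K) ∈ V ↔ (ψ V φ hφ u).toAdd ≤ 0 := by
  have h1 := mem_iff V φ hφ (Units.map ((V1 V φ hφ).subtype : V1 V φ hφ →* K) u)
  have h2 := unit_φ1 V φ hφ u
  rw [h2] at h1
  have h3 : ((u : V1 V φ hφ) : K) ∈ V ↔ (0 : ℤ) < 0 ∨ ((0 : ℤ) = 0 ∧
    (φ2 φ (Units.map ((V1 V φ hφ).subtype : V1 V φ hφ →* K) u)).toAdd ≤ 0) := h1
  rw [h3]
  constructor
  · rintro (h | h)
    · exact absurd h (lt_irrefl _)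
    · exact h.2
  · intro h
    exact Or.inr ⟨rfl, h⟩

theorem mem_of_residue_eq (u w : V1 V φ hφ)
    (h : residue (V1 V φ hφ) u = residue (V1 V φ hφ) w) (hw : (w : K) ∈ V) : (u : K) ∈ V := by
  rw [← sub_eq_zero, ← map_sub, residue_eq_zero_iff, mem_maximalIdeal] at h
  have h1 := max_le V φ hφ _ h
  have e : (u : K) = ((u - w : V1 V φ hφ) : K) + w := by
    push_cast
    ring
  rw [e]
  exact add_mem h1 hw

theorem ker_le : (res V φ hφ).ker ≤ (ψ V φ hφ).ker := by
  have key : ∀ u : (V1 V φ hφ)ˣ, res V φ hφ u = 1 → (ψ V φ hφ u).toAdd ≤ 0 := by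
    intro u hu
    rw [← unit_mem]
    apply mem_of_residue_eq V φ hφ u 1
    · exact congrArg Units.val hu
    · exact one_mem V
  intro u hu
  rw [MonoidHom.mem_ker] at hu ⊢
  have h1 := key u hu
  have h2 := key u⁻¹ (by rw [map_inv, hu, inv_one])
  rw [map_inv, toAdd_inv] at h2
  have h3 : (ψ V φ hφ u).toAdd = 0 := le_antisymm h1 (by simpa using h2)
  rw [← ofAdd_toAdd (ψ V φ hφ u), h3]
  rfl

/-- the valuation of the residue field -/
noncomputable def φbar : (ResidueField (V1 V φ hφ))ˣ →* Multiplicative (Lex (Fin r → ℤ)) :=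
  (res V φ hφ).liftOfSurjective (res_surj V φ hφ) ⟨ψ V φ hφ, ker_le V φ hφ⟩

theorem φbar_res (u : (V1 V φ hφ)ˣ) : φbar V φ hφ (res V φ hφ u) = ψ V φ hφ u :=
  (res V φ hφ).liftOfRightInverse_comp_apply _
    (Function.rightInverse_surjInv (res_surj V φ hφ)) ⟨ψ V φ hφ, ker_le V φ hφ⟩ u

theorem giv_res : Giv (resV V (V1 V φ hφ) (le_V1 V φ hφ)) (φbar V φ hφ) := by
  intro y
  obtain ⟨u, rfl⟩ := res_surj V φ hφ y
  rw [φbar_res, ← unit_mem]
  constructor
  · rintro ⟨w, hw⟩
    exact mem_of_residue_eq V φ hφ u (ValuationSubring.inclusion V _ (le_V1 V φ hφ) w) hw.symm w.2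
  · intro h
    exact ⟨⟨_, h⟩, rfl⟩

end

theorem main : ∀ (r : ℕ) (K : Type) [Field K] (V : ValuationSubring K)
    (φ : Kˣ →* Multiplicative (Lex (Fin r → ℤ))), Giv V φ → DiscRank r K V := by
  intro r
  induction r with
  | zero =>
    intro K _ V φ hφ
    change V = ⊤
    rw [eq_top_iff]
    intro z _
    by_cases h0 : z = 0
    · rw [h0]
      exact zero_mem V
    · have h1 := (hφ (Units.mk0 z h0)).2 (le_of_eq (Subsingleton.elim _ _))
      exact h1
  | succ r ih =>
    intro K _ V φ hφ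
    by_cases h1 : ∃ z, φ1 φ z ≠ 1
    · exact Or.inr ⟨V1 V φ hφ, le_V1 V φ hφ, dvr_V1 V φ hφ h1,
        ih _ _ (φbar V φ hφ) (giv_res V φ hφ)⟩
    · push Not at h1
      apply discRank_succ
      apply ih K V (φ2 φ)
      intro z
      rw [mem_iff V φ hφ, h1]
      constructor
      · rintro (h | h)
        · exact absurd h (lt_irrefl _)
        · exact h.2
      · intro h
        exact Or.inr ⟨rfl, h⟩

end C6

theorem discRank_of_lex (r : ℕ) (K : Type) [Field K]
    (v : Valuation K (WithZero (Multiplicative (Lex (Fin r → ℤ))))) :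
    DiscRank r K v.valuationSubring := by
  apply C6.main r K _ (WithZero.unitsWithZeroEquiv.toMonoidHom.comp (Units.map (v : K →* _)))
  intro z
  rw [Valuation.mem_valuationSubring_iff]
  have h1 : v (z : K) = ((WithZero.unitsWithZeroEquiv (Units.map (v : K →* _) z) :
      Multiplicative (Lex (Fin r → ℤ))) : WithZero (Multiplicative (Lex (Fin r → ℤ)))) := by
    rw [WithZero.coe_unitsWithZeroEquiv_eq_units_val]
    rfl
  rw [h1, ← WithZero.coe_one, WithZero.coe_le_coe]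
  rfl

end Pool.Agent.Lib.MP_3029eb_ag
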