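import Pool.Agent.Lib.MP_3029eb_ag.CompDefs

/-!
Module C2 of the composite valuation part: adjoining in steps, and fractions.
-/

open IsLocalRing
open scoped TensorProduct

namespace Pool.Agent.Lib.MP_3029eb_ag

section C2

variable {K : Type} [Field K]

theorem C2_val_one_iff (V : ValuationSubring K) (z : K) :
    V.valuation z = 1 ↔ z ∈ V ∧ z⁻¹ ∈ V ∧ z ≠ 0 := by
  constructor
  · intro h
    have hz : z ≠ 0 := by rintro rfl; rw [map_zero] at h; exact zero_ne_one h
    refine ⟨(V.valuation_le_one_iff z).1 h.le, (V.valuation_le_one_iff _).1 ?_, hz⟩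
    rw [map_inv₀, h, inv_one]
  · rintro ⟨h1, h2, hz⟩
    have h3 := (V.valuation_le_one_iff z).2 h1
    have h4 := (V.valuation_le_one_iff _).2 h2
    rw [map_inv₀] at h4
    refine le_antisymm h3 ?_
    have h6 : V.valuation z ≠ 0 := by simpa using hz
    calc (1 : _) = V.valuation z * (V.valuation z)⁻¹ := (mul_inv_cancel₀ h6).symm
      _ ≤ V.valuation z * 1 := by gcongr
      _ = _ := mul_one _

theorem C2_locV_mono (V : ValuationSubring K) {A B : Subring K} (h : A ≤ B) :
    locV V A ≤ locV V B := by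
  rintro z ⟨a, ha, b, hb, hb1, hz⟩
  exact ⟨a, h ha, b, h hb, hb1, hz⟩

theorem C2_le_locV (V : ValuationSubring K) (A : Subring K) : A ≤ locV V A :=
  fun z hz => ⟨z, hz, 1, one_mem _, map_one _, mul_one z⟩

theorem C2_locV_locV (V : ValuationSubring K) (A : Subring K) :
    locV V (locV V A) = locV V A := by
  refine le_antisymm ?_ (C2_le_locV V _)
  rintro z ⟨a, ⟨a1, ha1, a2, ha2, ha3, ha4⟩, b, ⟨b1, hb1, b2, hb2, hb3, hb4⟩, hb5, hz⟩
  refine ⟨a1 * b2, mul_mem ha1 hb2, b1 * a2, mul_mem hb1 ha2, ?_, ?_⟩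
  · rw [map_mul, ha3, mul_one, ← hb4, map_mul, hb5, hb3, one_mul]
  · rw [← ha4, ← hb4, ← hz]; ring

theorem C2_locV_closure_locV (V : ValuationSubring K) (A : Subring K) (t : Set K) :
    locV V (Subring.closure ((locV V A : Set K) ∪ t)) =
      locV V (Subring.closure ((A : Set K) ∪ t)) := by
  apply le_antisymm
  · rw [← C2_locV_locV V (Subring.closure ((A : Set K) ∪ t))]
    refine C2_locV_mono V ?_
    rw [Subring.closure_le]
    rintro z (hz | hz)
    · exact C2_locV_mono V (fun a ha => Subring.subset_closure (Or.inl ha)) hz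
    · exact C2_le_locV V _ (Subring.subset_closure (Or.inr hz))
  · exact C2_locV_mono V (Subring.closure_mono
      (Set.union_subset_union_left _ (C2_le_locV V A)))

/-- the fractions of `A` in `K` -/
def C2_frac (A : Subring K) : Subring K where
  carrier := {z | ∃ a ∈ A, ∃ b ∈ A, b ≠ 0 ∧ z * b = a}
  mul_mem' := by
    rintro z w ⟨a, ha, b, hb, hb1, h⟩ ⟨a', ha', b', hb', hb1', h'⟩
    exact ⟨a * a', mul_mem ha ha', b * b', mul_mem hb hb', mul_ne_zero hb1 hb1',
      by rw [← h, ← h']; ring⟩
  one_mem' := ⟨1, one_mem _, 1, one_mem _, one_ne_zero, by rw [one_mul]⟩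
  add_mem' := by
    rintro z w ⟨a, ha, b, hb, hb1, h⟩ ⟨a', ha', b', hb', hb1', h'⟩
    exact ⟨a * b' + a' * b, add_mem (mul_mem ha hb') (mul_mem ha' hb), b * b', mul_mem hb hb',
      mul_ne_zero hb1 hb1', by rw [← h, ← h']; ring⟩
  zero_mem' := ⟨0, zero_mem _, 1, one_mem _, one_ne_zero, by rw [zero_mul]⟩
  neg_mem' := by
    rintro z ⟨a, ha, b, hb, hb1, h⟩
    exact ⟨-a, neg_mem ha, b, hb, hb1, by rw [← h]; ring⟩

theorem C2_le_frac (A : Subring K) : A ≤ C2_frac A := fun a ha =>
  ⟨a, ha, 1, one_mem _, one_ne_zero, mul_one a⟩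

theorem C2_div_mem_frac {A : Subring K} {z a b : K} (ha : a ∈ C2_frac A) (hb : b ∈ C2_frac A)
    (hb0 : b ≠ 0) (h : z * b = a) : z ∈ C2_frac A := by
  obtain ⟨a1, ha1, a2, ha2, ha3, ha4⟩ := ha
  obtain ⟨b1, hb1, b2, hb2, hb3, hb4⟩ := hb
  refine ⟨a1 * b2, mul_mem ha1 hb2, b1 * a2, mul_mem hb1 ha2, mul_ne_zero ?_ ha3, ?_⟩
  · rw [← hb4]; exact mul_ne_zero hb0 hb3
  · rw [← ha4, ← hb4, ← h]; ring

theorem C2_locV_le_frac (V : ValuationSubring K) {A B : Subring K} (h : B ≤ C2_frac A) :
    locV V B ≤ C2_frac A := by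
  rintro z ⟨a, ha, b, hb, hb1, hz⟩
  refine C2_div_mem_frac (h ha) (h hb) ?_ hz
  rintro rfl
  rw [map_zero] at hb1
  exact zero_ne_one hb1

theorem LUF_trans (V : ValuationSubring K) (A : Subring K) (s : Finset K)
    (hs : ∀ z ∈ s, z ∈ V ∧ ∃ a ∈ A, ∃ b ∈ A, b ≠ 0 ∧ z * b = a)
    (h : LUF V (locV V (Subring.closure ((A : Set K) ∪ (s : Set K))))) : LUF V A := by
  classical
  obtain ⟨t, ht, hreg⟩ := h
  refine ⟨s ∪ t, ?_, ?_⟩
  · intro z hz
    rcases Finset.mem_union.1 hz with hz | hz
    · exact hs z hz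
    · obtain ⟨h1, a, ha, b, hb, hb0, hz2⟩ := ht z hz
      have h2 : Subring.closure ((A : Set K) ∪ (s : Set K)) ≤ C2_frac A := by
        rw [Subring.closure_le]
        rintro w (hw | hw)
        · exact C2_le_frac A hw
        · exact (hs w hw).2
      have h3 := C2_locV_le_frac V h2
      exact ⟨h1, C2_div_mem_frac (h3 ha) (h3 hb) hb0 hz2⟩
  · rw [C2_locV_closure_locV] at hreg
    have h1 : Subring.closure ((Subring.closure ((A : Set K) ∪ (s : Set K)) : Set K) ∪
        (t : Set K)) = Subring.closure ((A : Set K) ∪ ((s ∪ t : Finset K) : Set K)) := by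
      apply le_antisymm
      · rw [Subring.closure_le]
        rintro z (hz | hz)
        · refine Subring.closure_mono (Set.union_subset_union_right _ ?_) hz
          exact Finset.coe_subset.2 Finset.subset_union_left
        · exact Subring.subset_closure (Or.inr (Finset.mem_coe.2 (Finset.mem_union_right _ hz)))
      · rw [Subring.closure_le]
        rintro z (hz | hz)
        · exact Subring.subset_closure (Or.inl (Subring.subset_closure (Or.inl hz)))
        · rcases Finset.mem_union.1 (Finset.mem_coe.1 hz) with hz | hz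
          · exact Subring.subset_closure (Or.inl (Subring.subset_closure (Or.inr hz)))
          · exact Subring.subset_closure (Or.inr hz)
    rw [h1] at hreg
    exact hreg

theorem C2_comap_val_one {F : Type} [Field F] (V : ValuationSubring K) (φ : F →+* K) (b : F) :
    (V.comap φ).valuation b = 1 ↔ V.valuation (φ b) = 1 := by
  rw [C2_val_one_iff, C2_val_one_iff, ValuationSubring.mem_comap, ValuationSubring.mem_comap,
    map_inv₀, map_ne_zero]

theorem C2_locV_map {F : Type} [Field F] (V : ValuationSubring K) (φ : F →+* K)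
    (B : Subring F) : locV V (B.map φ) = (locV (V.comap φ) B).map φ := by
  ext z
  constructor
  · rintro ⟨_, ⟨a, ha, rfl⟩, _, ⟨b, hb, rfl⟩, hb1, hz⟩
    have hb0 : b ≠ 0 := by
      rintro rfl
      rw [map_zero, map_zero] at hb1
      exact zero_ne_one hb1
    refine ⟨a * b⁻¹, ⟨a, ha, b, hb, (C2_comap_val_one V φ b).2 hb1, ?_⟩, ?_⟩
    · rw [mul_assoc, inv_mul_cancel₀ hb0, mul_one]
    · rw [map_mul, ← hz, mul_assoc, ← map_mul, mul_inv_cancel₀ hb0, map_one, mul_one]
  · rintro ⟨w, ⟨a, ha, b, hb, hb1, hw⟩, rfl⟩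
    exact ⟨φ a, ⟨a, ha, rfl⟩, φ b, ⟨b, hb, rfl⟩, (C2_comap_val_one V φ b).1 hb1,
      by rw [← map_mul, hw]⟩

/-- transport from the fraction field -/
theorem LUF_of_fractionRing (V : ValuationSubring K) (R : Type) [CommRing R] [IsDomain R]
    (j : R →+* K) (hj : Function.Injective j)
    (h : LU (V.comap (IsFractionRing.lift hj : FractionRing R →+* K))
      (algebraMap R (FractionRing R)).range) : LUF V j.range := by
  classical
  obtain ⟨s, hs, hreg⟩ := h
  set φ : FractionRing R →+* K := IsFractionRing.lift hj with hφ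
  have hφj : ∀ r, φ (algebraMap R _ r) = j r := fun r => IsFractionRing.lift_algebraMap hj r
  have hφinj : Function.Injective φ := φ.injective
  have hrange : j.range = (algebraMap R (FractionRing R)).range.map φ := by
    ext z
    constructor
    · rintro ⟨r, rfl⟩
      exact ⟨algebraMap R _ r, ⟨r, rfl⟩, hφj r⟩
    · rintro ⟨_, ⟨r, rfl⟩, rfl⟩
      exact ⟨r, (hφj r).symm⟩
  refine ⟨s.image φ, ?_, ?_⟩
  · intro z hz
    obtain ⟨w, hw, rfl⟩ := Finset.mem_image.1 hz
    refine ⟨hs w hw, ?_⟩
    obtain ⟨⟨a, b⟩, hab⟩ := IsLocalization.surj (nonZeroDivisors R) w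
    refine ⟨j a, ⟨a, rfl⟩, j b, ⟨b, rfl⟩, ?_, ?_⟩
    · intro h0
      exact nonZeroDivisors.ne_zero b.2 (hj (by rw [h0, map_zero]))
    · rw [← hφj, ← hφj, ← map_mul]
      exact congrArg φ hab
  · have h1 : Subring.closure ((j.range : Set K) ∪ ((s.image φ : Finset K) : Set K)) =
        (Subring.closure (((algebraMap R (FractionRing R)).range : Set (FractionRing R)) ∪
          (s : Set (FractionRing R)))).map φ := by
      rw [RingHom.map_closure, Set.image_union, Finset.coe_image, hrange, Subring.coe_map]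
    rw [h1, C2_locV_map]
    exact IsRegularLocalRing.of_ringEquiv (Subring.equivMapOfInjective _ φ hφinj)

/-- the restriction of a discrete valuation ring to a subfield is a discrete valuation ring or
the whole subfield -/
theorem C2_dvr_or_top {F : Type} [Field F] (V : ValuationSubring K) [IsDiscreteValuationRing V]
    (φ : F →+* K) : V.comap φ = ⊤ ∨ IsDiscreteValuationRing (V.comap φ) := by
  let ψ : (V.comap φ) →+* V :=
    { toFun := fun x => ⟨φ x, x.2⟩
      map_one' := Subtype.ext (map_one φ)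
      map_mul' := fun a b => Subtype.ext (map_mul φ _ _)
      map_zero' := Subtype.ext (map_zero φ)
      map_add' := fun a b => Subtype.ext (map_add φ _ _) }
  have hψ : ∀ x, (ψ x : K) = φ x := fun _ => rfl
  have hψ0 : ∀ x, ψ x = 0 ↔ x = 0 := by
    intro x
    constructor
    · intro h
      have h1 : φ x = 0 := congrArg Subtype.val h
      exact Subtype.ext ((map_eq_zero φ).1 h1)
    · rintro rfl
      exact map_zero ψ
  have hψu : ∀ x, IsUnit (ψ x) → IsUnit x := by
    intro x hx
    obtain ⟨y, hy⟩ := hx.exists_right_inv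
    have hy' : φ x * (y : K) = 1 := congrArg Subtype.val hy
    have hx0 : φ x ≠ 0 := left_ne_zero_of_mul_eq_one hy'
    have hx0' : (x : F) ≠ 0 := fun h => hx0 (by rw [h, map_zero])
    have hy2 : (y : K) = φ ((x : F)⁻¹) := by
      rw [map_inv₀]
      exact eq_inv_of_mul_eq_one_right hy'
    have hmem : (x : F)⁻¹ ∈ V.comap φ := by
      show φ ((x : F)⁻¹) ∈ V
      rw [← hy2]
      exact y.2
    exact IsUnit.of_mul_eq_one (⟨(x : F)⁻¹, hmem⟩ : V.comap φ)
      (Subtype.ext (mul_inv_cancel₀ hx0'))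
  have hdvd : ∀ a b : V.comap φ, a ≠ 0 → ψ a ∣ ψ b → a ∣ b := by
    rintro a b ha ⟨c, hc⟩
    have ha0 : (a : F) ≠ 0 := fun h => ha (Subtype.ext h)
    have hc' : φ b = φ a * (c : K) := congrArg Subtype.val hc
    have hφa : φ a ≠ 0 := (map_ne_zero φ).2 ha0
    have hc2 : φ ((b : F) * (a : F)⁻¹) = c := by
      rw [map_mul, map_inv₀, hc', mul_comm (φ a), mul_assoc, mul_inv_cancel₀ hφa, mul_one]
    have hmem : (b : F) * (a : F)⁻¹ ∈ V.comap φ := by
      show φ ((b : F) * (a : F)⁻¹) ∈ V
      rw [hc2]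
      exact c.2
    refine ⟨⟨_, hmem⟩, Subtype.ext ?_⟩
    show (b : F) = (a : F) * ((b : F) * (a : F)⁻¹)
    rw [mul_comm (b : F), ← mul_assoc, mul_inv_cancel₀ ha0, one_mul]
  by_cases h : ∃ x : V.comap φ, x ≠ 0 ∧ ¬ IsUnit x
  · right
    have hfin : ∀ x : V.comap φ, x ≠ 0 →
        ∃ n : ℕ, IsDiscreteValuationRing.addVal V (ψ x) = n := by
      intro x hx
      have h1 : IsDiscreteValuationRing.addVal V (ψ x) ≠ ⊤ := fun h2 =>
        hx ((hψ0 x).1 (IsDiscreteValuationRing.addVal_eq_top_iff.1 h2))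
      exact ⟨_, (ENat.natCast_toNat h1).symm⟩
    have hex : ∃ n : ℕ, ∃ x : V.comap φ, x ≠ 0 ∧ ¬ IsUnit x ∧
        IsDiscreteValuationRing.addVal V (ψ x) = n := by
      obtain ⟨x, hx0, hxu⟩ := h
      obtain ⟨n, hn⟩ := hfin x hx0
      exact ⟨n, x, hx0, hxu, hn⟩
    classical
    obtain ⟨π, hπ0, hπu, hπn⟩ := Nat.find_spec hex
    set n := Nat.find hex with hn
    have hmin : ∀ x : V.comap φ, x ≠ 0 → ¬ IsUnit x → ∀ m : ℕ,
        IsDiscreteValuationRing.addVal V (ψ x) = m → n ≤ m := by
      intro x hx0 hxu m hm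
      exact Nat.find_min' hex ⟨x, hx0, hxu, hm⟩
    have hn1 : 1 ≤ n := by
      rcases Nat.eq_zero_or_pos n with h0 | h0
      · rw [h0] at hπn
        exact absurd (hψu π (IsDiscreteValuationRing.addVal_eq_zero_iff.1 hπn)) hπu
      · exact h0
    refine IsDiscreteValuationRing.ofHasUnitMulPowIrreducibleFactorization ⟨π, ⟨hπu, ?_⟩, ?_⟩
    · intro a b hab
      by_contra hcon
      push Not at hcon
      have ha0 : a ≠ 0 := by rintro rfl; exact hπ0 (by rw [hab, zero_mul])
      have hb0 : b ≠ 0 := by rintro rfl; exact hπ0 (by rw [hab, mul_zero])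
      obtain ⟨na, hna⟩ := hfin a ha0
      obtain ⟨nb, hnb⟩ := hfin b hb0
      have h1 := hmin a ha0 hcon.1 na hna
      have h2 := hmin b hb0 hcon.2 nb hnb
      rw [hab, map_mul, IsDiscreteValuationRing.addVal_mul, hna, hnb] at hπn
      have h3 : na + nb = n := by exact_mod_cast hπn
      omega
    · have key : ∀ m : ℕ, ∀ x : V.comap φ, x ≠ 0 →
          IsDiscreteValuationRing.addVal V (ψ x) = m → ∃ k : ℕ, Associated (π ^ k) x := by
        intro m
        induction m using Nat.strong_induction_on with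
        | _ m ih =>
          intro x hx0 hxm
          by_cases hxu : IsUnit x
          · exact ⟨0, by rw [pow_zero]; exact (associated_one_iff_isUnit.2 hxu).symm⟩
          · have h1 := hmin x hx0 hxu m hxm
            have h2 : ψ π ∣ ψ x := by
              rw [← IsDiscreteValuationRing.addVal_le_iff_dvd, hπn, hxm]
              exact_mod_cast h1
            obtain ⟨y, hy⟩ := hdvd π x hπ0 h2
            have hy0 : y ≠ 0 := by rintro rfl; exact hx0 (by rw [hy, mul_zero])
            obtain ⟨my, hmy⟩ := hfin y hy0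
            have h3 : n + my = m := by
              rw [hy, map_mul, IsDiscreteValuationRing.addVal_mul, hmy, hπn] at hxm
              exact_mod_cast hxm
            obtain ⟨k, hk⟩ := ih my (by omega) y hy0 hmy
            refine ⟨k + 1, ?_⟩
            rw [hy, pow_succ']
            exact Associated.mul_left π hk
      intro x hx0
      obtain ⟨m, hm⟩ := hfin x hx0
      exact key m x hx0 hm
  · left
    push Not at h
    rw [eq_top_iff]
    intro z _
    rcases (V.comap φ).mem_or_inv_mem z with hz | hz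
    · exact hz
    · by_cases hz0 : z = 0
      · rw [hz0]; exact zero_mem _
      · have h1 : (⟨z⁻¹, hz⟩ : V.comap φ) ≠ 0 := fun h2 =>
          inv_ne_zero hz0 (congrArg Subtype.val h2)
        obtain ⟨y, hy⟩ := (h _ h1).exists_right_inv
        have hy' : z⁻¹ * (y : F) = 1 := congrArg Subtype.val hy
        have h3 : (y : F) = z := by
          have := eq_inv_of_mul_eq_one_right hy'
          rwa [inv_inv] at this
        rw [← h3]
        exact y.2

theorem C2_LU_top {F : Type} [Field F] (V : ValuationSubring F) (hV : V = ⊤) (R : Type)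
    [CommRing R] [IsDomain R] [IsLocalRing R] (j : R →+* F) (hj : Function.Injective j)
    (hjm : ∀ r, V.valuation (j r) = 1 ↔ IsUnit r) : LU V j.range := by
  have hval : ∀ z : F, z ≠ 0 → V.valuation z = 1 := by
    intro z hz
    rw [C2_val_one_iff, hV]
    exact ⟨ValuationSubring.mem_top z, ValuationSubring.mem_top _, hz⟩
  have hfield : IsField R := by
    refine ⟨⟨0, 1, zero_ne_one⟩, mul_comm, fun {a} ha => ?_⟩
    have : j a ≠ 0 := fun h0 => ha (hj (by rw [h0, map_zero]))
    obtain ⟨u, rfl⟩ := (hjm a).1 (hval _ this)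
    exact ⟨((u⁻¹ : Rˣ) : R), Units.mul_inv u⟩
  have hreg : IsRegularLocalRing R := by
    have : IsPrincipalIdealRing R := by
      let := hfield.toField
      infer_instance
    infer_instance
  refine ⟨∅, by simp, ?_⟩
  have e1 : Subring.closure ((j.range : Set F) ∪ ((∅ : Finset F) : Set F)) = j.range := by
    rw [Finset.coe_empty, Set.union_empty, Subring.closure_eq]
  have e2 : locV V j.range = j.range := by
    apply le_antisymm
    · rintro z ⟨a, ⟨a', rfl⟩, b, ⟨b', rfl⟩, hb1, hz⟩
      obtain ⟨u, rfl⟩ := (hjm b').1 hb1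
      refine ⟨a' * ((u⁻¹ : Rˣ) : R), ?_⟩
      rw [map_mul, ← hz, mul_assoc, ← map_mul, Units.mul_inv, map_one, mul_one]
    · exact C2_le_locV V _
  rw [e1, e2]
  exact IsRegularLocalRing.of_ringEquiv (RingEquiv.ofBijective j.rangeRestrict
    ⟨fun a b hab => hj (congrArg Subtype.val hab), RingHom.rangeRestrict_surjective _⟩)

/-- the discrete rank-one case in a field containing the fraction field; the hypothesis `hlu` is
the main theorem `lu_discrete` -/
theorem LUF_dvr
    (hlu : ∀ (R : Type) [CommRing R] [IsDomain R] [IsNoetherianRing R] [IsLocalRing R]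
      (_ : GFR R) (V : ValuationSubring (FractionRing R)) [IsDiscreteValuationRing V]
      (_ : ∀ r : R, algebraMap R (FractionRing R) r ∈ V)
      (_ : ∀ r : R, r ∈ maximalIdeal R ↔ V.valuation (algebraMap R (FractionRing R) r) < 1),
      LU V (algebraMap R (FractionRing R)).range)
    (V : ValuationSubring K) [IsDiscreteValuationRing V]
    (R : Type) [CommRing R] [IsDomain R] [IsNoetherianRing R] [IsLocalRing R] (hR : GFR R)
    (j : R →+* K) (hj : Function.Injective j) (hjV : ∀ r, j r ∈ V)
    (hjm : ∀ r, V.valuation (j r) = 1 ↔ IsUnit r) : LUF V j.range := by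
  refine LUF_of_fractionRing V R j hj ?_
  have hφj : ∀ r, (IsFractionRing.lift hj : FractionRing R →+* K) (algebraMap R _ r) = j r :=
    fun r => IsFractionRing.lift_algebraMap hj r
  have hval : ∀ r : R, (V.comap (IsFractionRing.lift hj : FractionRing R →+* K)).valuation
      (algebraMap R (FractionRing R) r) = 1 ↔ IsUnit r := by
    intro r
    rw [C2_comap_val_one, hφj, hjm]
  have hmem : ∀ r : R, algebraMap R (FractionRing R) r ∈
      V.comap (IsFractionRing.lift hj : FractionRing R →+* K) := by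
    intro r
    rw [ValuationSubring.mem_comap, hφj]
    exact hjV r
  rcases C2_dvr_or_top V (IsFractionRing.lift hj : FractionRing R →+* K) with htop | hdvr
  · exact C2_LU_top _ htop R (algebraMap R (FractionRing R))
      (IsFractionRing.injective R (FractionRing R)) hval
  · refine hlu R hR _ hmem fun r => ?_
    rw [mem_maximalIdeal, mem_nonunits_iff, ← hval r]
    have h1 := ((V.comap (IsFractionRing.lift hj : FractionRing R →+* K)).valuation_le_one_iff
      (algebraMap R (FractionRing R) r)).2 (hmem r)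
    exact ⟨fun h2 => lt_of_le_of_ne h1 h2, fun h2 => h2.ne⟩

end C2

end Pool.Agent.Lib.MP_3029eb_ag
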