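import Mathlib

/-!
# Module RB: basics on regular local rings

Regular local rings are domains; quotients by part of a regular system of parameters;
regular systems of parameters containing a given element.
-/

set_option autoImplicit false

open IsLocalRing

namespace Pool.Agent.Lib.MP_3029eb_ag

/-- Elements of the maximal ideal which are independent modulo its square extend to a minimal
system of generators of the maximal ideal. -/
theorem RB_extend {A : Type} [CommRing A] [IsLocalRing A] [IsNoetherianRing A] {c : ℕ}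
    (f : Fin c → A) (hf : ∀ i, f i ∈ maximalIdeal A)
    (hind : ∀ a : Fin c → A, (∑ i, a i * f i) ∈ maximalIdeal A ^ 2 → ∀ i, a i ∈ maximalIdeal A) :
    ∃ (n : ℕ) (y : Fin n → A), (∀ i, y i ∈ maximalIdeal A) ∧
      maximalIdeal A = Ideal.span (Set.range f ∪ Set.range y) ∧
      Module.finrank (ResidueField A) (CotangentSpace A) = c + n := by
  classical
  let v : Fin c → CotangentSpace A := fun i => (maximalIdeal A).toCotangent ⟨f i, hf i⟩
  have hv : LinearIndependent (ResidueField A) v := by
    rw [Fintype.linearIndependent_iff]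
    intro g hg i
    choose a ha using fun i => IsLocalRing.residue_surjective (g i)
    have h1 : (maximalIdeal A).toCotangent (∑ i, a i • ⟨f i, hf i⟩) = 0 := by
      rw [map_sum]
      refine Eq.trans (Finset.sum_congr rfl fun i _ => ?_) hg
      rw [map_smul, ← ha i]
      rfl
    rw [Ideal.toCotangent_eq_zero] at h1
    have h2 : (∑ i, a i * f i) ∈ maximalIdeal A ^ 2 := by
      have e : ((∑ i, a i • (⟨f i, hf i⟩ : maximalIdeal A) : maximalIdeal A) : A)
          = ∑ i, a i * f i := by
        rw [Submodule.coe_sum]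
        rfl
      rw [← e]
      exact h1
    rw [← ha i]
    exact (residue_eq_zero_iff _).mpr (hind a h2 i)
  let b := Module.Basis.sumExtend hv
  have hbl : ∀ i, b (Sum.inl i) = v i := fun i => by
    simp only [b, Module.Basis.sumExtend, Module.Basis.reindex_apply,
      Module.Basis.extend_apply_self]
    rfl
  let κ := Module.Basis.sumExtendIndex hv
  have hfinι : Finite (Fin c ⊕ κ) := Module.Finite.finite_basis b
  have hfinκ : Finite κ := Finite.of_injective (Sum.inr : κ → Fin c ⊕ κ) Sum.inr_injective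
  obtain ⟨n, ⟨e⟩⟩ := Finite.exists_equiv_fin κ
  choose y hy using fun i : Fin n => (maximalIdeal A).toCotangent_surjective (b (Sum.inr (e.symm i)))
  refine ⟨n, fun i => (y i : A), fun i => (y i).2, ?_, ?_⟩
  · let s : Set (maximalIdeal A) := Set.range (fun i => (⟨f i, hf i⟩ : maximalIdeal A)) ∪
      Set.range y
    have hs : Submodule.span A s = ⊤ := by
      rw [← CotangentSpace.span_image_eq_top_iff]
      rw [eq_top_iff, ← b.span_eq]
      refine Submodule.span_mono ?_
      rintro _ ⟨i, rfl⟩
      rcases i with i | i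
      · refine ⟨⟨f i, hf i⟩, Or.inl ⟨i, rfl⟩, ?_⟩
        rw [hbl]
      · refine ⟨y (e i), Or.inr ⟨_, rfl⟩, ?_⟩
        rw [hy, Equiv.symm_apply_apply]
    have h2 := congrArg (Submodule.map (maximalIdeal A).subtype) hs
    rw [Submodule.map_span, Submodule.map_top, Submodule.range_subtype] at h2
    refine h2.symm.trans (congrArg (Submodule.span A) ?_)
    ext z
    constructor
    · rintro ⟨w, hw | hw, rfl⟩
      · obtain ⟨i, rfl⟩ := hw
        exact Or.inl ⟨i, rfl⟩
      · obtain ⟨i, rfl⟩ := hw
        exact Or.inr ⟨i, rfl⟩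
    · rintro (⟨i, rfl⟩ | ⟨i, rfl⟩)
      · exact ⟨⟨f i, hf i⟩, Or.inl ⟨i, rfl⟩, rfl⟩
      · exact ⟨y i, Or.inr ⟨i, rfl⟩, rfl⟩
  · rw [Module.finrank_eq_nat_card_basis b, Nat.card_sum, Nat.card_fin, Nat.card_congr e,
      Nat.card_fin]

theorem RB_spanFinrank_eq {A : Type} [CommRing A] [IsRegularLocalRing A] :
    ringKrullDim A = (Module.finrank (ResidueField A) (CotangentSpace A) : WithBot ℕ∞) :=
  ((IsRegularLocalRing.iff_finrank_cotangentSpace A).mp inferInstance).symm

theorem RB_dim_nat (B : Type) [CommRing B] [IsLocalRing B] [IsNoetherianRing B] :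
    ∃ m : ℕ, ringKrullDim B = m := by
  have h1 := ringKrullDim_le_spanFinrank_maximalIdeal B
  have h0 : 0 ≤ ringKrullDim B := ringKrullDim_nonneg_of_nontrivial
  generalize ringKrullDim B = d at h0 h1
  cases d with
  | bot => simp at h0
  | coe d =>
    cases d with
    | top =>
      have h2 : (⊤ : ℕ∞) ≤ ((maximalIdeal B).spanFinrank : ℕ∞) := by exact_mod_cast h1
      exact absurd h2 (by simp)
    | coe m => exact ⟨m, rfl⟩

/-- the quotient by part of a regular system of parameters is a regular local ring -/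
theorem RB_quot_regular {A : Type} [CommRing A] [IsRegularLocalRing A] {c : ℕ} (f : Fin c → A)
    (hf : ∀ i, f i ∈ maximalIdeal A)
    (hind : ∀ a : Fin c → A, (∑ i, a i * f i) ∈ maximalIdeal A ^ 2 → ∀ i, a i ∈ maximalIdeal A) :
    IsRegularLocalRing (A ⧸ Ideal.span (Set.range f)) ∧
      ringKrullDim A = ringKrullDim (A ⧸ Ideal.span (Set.range f)) + c := by
  classical
  obtain ⟨n, y, hy, hspan, hfin⟩ := RB_extend f hf hind
  set J := Ideal.span (Set.range f) with hJ
  have hJle : J ≤ maximalIdeal A := by
    rw [hJ, Ideal.span_le]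
    rintro _ ⟨i, rfl⟩
    exact hf i
  have hJtop : J ≠ ⊤ := fun h => by
    rw [h, top_le_iff] at hJle
    exact (maximalIdeal.isMaximal A).ne_top hJle
  have : Nontrivial (A ⧸ J) := Ideal.Quotient.nontrivial_iff.mpr hJtop
  have : IsLocalRing (A ⧸ J) :=
    IsLocalRing.of_surjective' (Ideal.Quotient.mk J) Ideal.Quotient.mk_surjective
  have hmax : maximalIdeal (A ⧸ J) = Ideal.span (Set.range fun i => Ideal.Quotient.mk J (y i)) := by
    have h1 : maximalIdeal (A ⧸ J) = (maximalIdeal A).map (Ideal.Quotient.mk J) :=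
      (IsLocalRing.map_maximalIdeal_of_surjective (Ideal.Quotient.mk J)
        Ideal.Quotient.mk_surjective).symm
    rw [h1, hspan, Ideal.map_span, Set.image_union, Ideal.span_union, ← Set.range_comp,
      ← Set.range_comp]
    have h2 : Ideal.span (Set.range (⇑(Ideal.Quotient.mk J) ∘ f)) = ⊥ := by
      rw [Ideal.span_eq_bot]
      rintro _ ⟨i, rfl⟩
      exact Ideal.Quotient.eq_zero_iff_mem.mpr (Ideal.subset_span ⟨i, rfl⟩)
    rw [h2, bot_sup_eq]
    rfl
  have hle1 : (maximalIdeal (A ⧸ J)).spanFinrank ≤ n := by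
    rw [hmax]
    refine (Submodule.spanFinrank_span_le_ncard_of_finite (Set.finite_range _)).trans ?_
    rw [← Set.image_univ]
    refine (Set.ncard_image_le Set.finite_univ).trans ?_
    rw [Set.ncard_univ, Nat.card_fin]
  have hdimA := RB_spanFinrank_eq (A := A)
  have hdim : ringKrullDim A ≤ ringKrullDim (A ⧸ J) + c := by
    refine (ringKrullDim_le_ringKrullDim_quotient_add_encard (Set.range f) ?_).trans ?_
    · rintro _ ⟨i, rfl⟩
      rw [IsLocalRing.ringJacobson_eq_maximalIdeal]
      exact hf i
    · gcongr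
      rw [← Set.image_univ]
      have := (Set.encard_image_le f Set.univ)
      rw [Set.encard_univ, ENat.card_eq_coe_fintype_card, Fintype.card_fin] at this
      exact_mod_cast this
  have hnle : (n : WithBot ℕ∞) ≤ ringKrullDim (A ⧸ J) := by
    rw [hdimA, hfin] at hdim
    obtain ⟨m, hm⟩ := RB_dim_nat (A ⧸ J)
    rw [hm] at hdim ⊢
    have : c + n ≤ m + c := by exact_mod_cast hdim
    have : n ≤ m := by omega
    exact_mod_cast this
  have hreg : IsRegularLocalRing (A ⧸ J) :=
    IsRegularLocalRing.of_spanFinrank_maximalIdeal_le _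
      (le_trans (by exact_mod_cast hle1) hnle)
  refine ⟨hreg, le_antisymm hdim ?_⟩
  have h3 : ringKrullDim (A ⧸ J) ≤ n := by
    rw [← hreg.spanFinrank_maximalIdeal]
    exact_mod_cast hle1
  rw [hdimA, hfin]
  push_cast
  rw [add_comm]
  gcongr

theorem RB_single {A : Type} [CommRing A] [IsLocalRing A] {x : A}
    (hx' : x ∉ maximalIdeal A ^ 2) (a : Fin 1 → A)
    (h : (∑ i, a i * (fun _ : Fin 1 => x) i) ∈ maximalIdeal A ^ 2) (i : Fin 1) :
    a i ∈ maximalIdeal A := by
  rw [Fin.sum_univ_one] at h
  by_contra hc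
  have hi : i = 0 := Subsingleton.elim _ _
  rw [hi, mem_maximalIdeal, mem_nonunits_iff, not_not] at hc
  obtain ⟨u, hu⟩ := hc
  apply hx'
  have := Ideal.mul_mem_left _ (↑u⁻¹ : A) h
  rw [← hu, ← mul_assoc, Units.inv_mul, one_mul] at this
  exact this

theorem RB_isDomain_aux (d : ℕ) : ∀ (A : Type) [CommRing A] [IsRegularLocalRing A],
    ringKrullDim A = d → IsDomain A := by
  classical
  induction d with
  | zero =>
    intro A _ _ hd
    rw [RB_spanFinrank_eq] at hd
    have h0 : Module.finrank (ResidueField A) (CotangentSpace A) = 0 := by exact_mod_cast hd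
    rw [finrank_cotangentSpace_eq_zero_iff] at h0
    exact h0.isDomain
  | succ d ih =>
    intro A _ _ hd
    -- the maximal ideal is not a minimal prime and differs from its square
    have hmin : ∀ p ∈ minimalPrimes A, ¬ maximalIdeal A ≤ p := by
      intro p hp hle
      have hpp : p.IsPrime := hp.1.1
      have he : p = maximalIdeal A := le_antisymm (le_maximalIdeal hpp.ne_top) hle
      rw [he] at hp
      have h1 := maximalIdeal_height_eq_ringKrullDim (R := A)
      have h2 : (maximalIdeal A).height = 0 := by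
        rw [Ideal.height_eq_zero_iff]
        exact hp
      rw [h2, hd] at h1
      have : (0 : ℕ) = d + 1 := by exact_mod_cast h1
      omega
    have hsq : ¬ maximalIdeal A ≤ maximalIdeal A ^ 2 := by
      intro hle
      have h1 : maximalIdeal A = ⊥ := by
        refine Submodule.eq_bot_of_le_smul_of_le_jacobson_bot (maximalIdeal A) (maximalIdeal A)
          (IsNoetherian.noetherian _) ?_ (jacobson_eq_maximalIdeal _ bot_ne_top).ge
        rw [smul_eq_mul, ← pow_two]
        exact hle
      obtain ⟨p, hp⟩ := Ideal.nonempty_minimalPrimes (I := (⊥ : Ideal A)) bot_ne_top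
      exact hmin p hp (h1 ▸ bot_le)
    obtain ⟨f, hf, hf2, hfmin⟩ : ∃ f ∈ maximalIdeal A, f ∉ maximalIdeal A ^ 2 ∧
        ∀ p ∈ minimalPrimes A, f ∉ p := by
      have hfin : (minimalPrimes A).Finite := minimalPrimes.finite_of_isNoetherianRing A
      by_contra hcon
      push Not at hcon
      have hsub : ((maximalIdeal A : Ideal A) : Set A) ⊆
          ⋃ i ∈ (↑(insert (maximalIdeal A ^ 2) hfin.toFinset) : Set (Ideal A)),
            ((id i : Ideal A) : Set A) := by
        intro f hf
        rw [Set.mem_iUnion₂]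
        by_cases h : f ∈ maximalIdeal A ^ 2
        · exact ⟨maximalIdeal A ^ 2, by simp, h⟩
        · obtain ⟨p, hp, hfp⟩ := hcon f hf h
          exact ⟨p, by simp [hp], hfp⟩
      rw [Ideal.subset_union_prime (maximalIdeal A ^ 2) (maximalIdeal A ^ 2)] at hsub
      · obtain ⟨i, hi, hle⟩ := hsub
        rw [Finset.mem_insert, Set.Finite.mem_toFinset] at hi
        rcases hi with rfl | hi
        · exact hsq hle
        · exact hmin i hi hle
      · intro i hi hne _
        rw [Finset.mem_insert, Set.Finite.mem_toFinset] at hi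
        rcases hi with rfl | hi
        · exact absurd rfl hne
        · exact hi.1.1
    obtain ⟨hreg, hdim⟩ := RB_quot_regular (fun _ : Fin 1 => f) (fun _ => hf) (RB_single hf2)
    have hrange : Set.range (fun _ : Fin 1 => f) = {f} := Set.range_const
    rw [hrange] at hreg hdim
    obtain ⟨m, hm⟩ := RB_dim_nat (A ⧸ Ideal.span {f})
    rw [hd, hm] at hdim
    have hmd : m = d := by
      have : d + 1 = m + 1 := by exact_mod_cast hdim
      omega
    rw [hmd] at hm
    have hdom : IsDomain (A ⧸ Ideal.span {f}) := ih _ hm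
    have hprime : (Ideal.span {f}).IsPrime := (Ideal.Quotient.isDomain_iff_prime _).mp hdom
    obtain ⟨q, hq, hqle⟩ := Ideal.exists_minimalPrimes_le (I := ⊥) (J := Ideal.span {f}) bot_le
    have hqp : q.IsPrime := hq.1.1
    have hfq : f ∉ q := hfmin q hq
    have hq0 : q = ⊥ := by
      refine Submodule.eq_bot_of_le_smul_of_le_jacobson_bot (Ideal.span {f}) q
        (IsNoetherian.noetherian _) ?_ ?_
      · intro z hz
        obtain ⟨a, rfl⟩ := Ideal.mem_span_singleton'.mp (hqle hz)
        have ha : a ∈ q := (hqp.mem_or_mem hz).resolve_right hfq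
        rw [mul_comm]
        exact Ideal.mul_mem_mul (Ideal.mem_span_singleton_self f) ha
      · rw [jacobson_eq_maximalIdeal _ bot_ne_top, Ideal.span_singleton_le_iff_mem]
        exact hf
    rw [hq0] at hqp
    exact IsDomain.of_bot_isPrime A

theorem isDomain_of_isRegularLocalRing (A : Type) [CommRing A] [IsRegularLocalRing A] :
    IsDomain A := by
  obtain ⟨m, hm⟩ := RB_dim_nat A
  exact RB_isDomain_aux m A hm

theorem RB_height {A : Type} [CommRing A] [IsRegularLocalRing A] (c : ℕ) : ∀ (f : Fin c → A)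
    (_ : ∀ i, f i ∈ maximalIdeal A)
    (_ : ∀ a : Fin c → A, (∑ i, a i * f i) ∈ maximalIdeal A ^ 2 → ∀ i, a i ∈ maximalIdeal A),
    (Ideal.span (Set.range f)).IsPrime ∧ (c : ℕ∞) ≤ (Ideal.span (Set.range f)).height := by
  induction c with
  | zero =>
    intro f hf hind
    have hr := (RB_quot_regular f hf hind).1
    have hd := isDomain_of_isRegularLocalRing (A ⧸ Ideal.span (Set.range f))
    exact ⟨(Ideal.Quotient.isDomain_iff_prime _).mp hd, by simp⟩
  | succ c ih =>
    intro f hf hind
    have hr := (RB_quot_regular f hf hind).1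
    have hd := isDomain_of_isRegularLocalRing (A ⧸ Ideal.span (Set.range f))
    have hp : (Ideal.span (Set.range f)).IsPrime := (Ideal.Quotient.isDomain_iff_prime _).mp hd
    refine ⟨hp, ?_⟩
    obtain ⟨hp', hh⟩ := ih (fun i => f i.castSucc) (fun i => hf _) (fun a ha i => by
      have := hind (Fin.snoc a 0) (by
        rw [Fin.sum_univ_castSucc]
        simpa using ha) i.castSucc
      simpa using this)
    have hlt : Ideal.span (Set.range fun i : Fin c => f i.castSucc) < Ideal.span (Set.range f) := by
      refine lt_of_le_of_ne (Ideal.span_mono ?_) ?_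
      · rintro _ ⟨i, rfl⟩
        exact ⟨_, rfl⟩
      · intro he
        have h1 : f (Fin.last c) ∈ Ideal.span (Set.range fun i : Fin c => f i.castSucc) := by
          rw [he]
          exact Ideal.subset_span ⟨_, rfl⟩
        rw [Ideal.mem_span_range_iff_exists_fun] at h1
        obtain ⟨a, ha⟩ := h1
        have h2 := hind (Fin.snoc (fun i => - a i) 1) (by
          rw [Fin.sum_univ_castSucc]
          simp only [Fin.snoc_castSucc, Fin.snoc_last, one_mul, neg_mul, Finset.sum_neg_distrib]
          rw [ha, neg_add_cancel]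
          exact Ideal.zero_mem _) (Fin.last c)
        rw [Fin.snoc_last] at h2
        exact (Ideal.ne_top_iff_one _).mp (maximalIdeal.isMaximal A).ne_top h2
    calc ((c + 1 : ℕ) : ℕ∞) = (c : ℕ∞) + 1 := by push_cast; rfl
      _ ≤ (Ideal.span (Set.range fun i : Fin c => f i.castSucc)).height + 1 := by gcongr
      _ ≤ (Ideal.span (Set.range f)).height := Ideal.height_add_one_le_of_lt_of_isPrime hlt

theorem reg_quot {A : Type} [CommRing A] [IsRegularLocalRing A] {c : ℕ} (f : Fin c → A)
    (hf : ∀ i, f i ∈ maximalIdeal A)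
    (hind : ∀ a : Fin c → A, (∑ i, a i * f i) ∈ maximalIdeal A ^ 2 → ∀ i, a i ∈ maximalIdeal A) :
    (Ideal.span (Set.range f)).IsPrime ∧ (c : ℕ∞) ≤ (Ideal.span (Set.range f)).height ∧
      IsRegularLocalRing (A ⧸ Ideal.span (Set.range f)) :=
  ⟨(RB_height c f hf hind).1, (RB_height c f hf hind).2, (RB_quot_regular f hf hind).1⟩

theorem exists_gens {A : Type} [CommRing A] [IsRegularLocalRing A] {x : A}
    (hx : x ∈ maximalIdeal A) (hx' : x ∉ maximalIdeal A ^ 2) :
    ∃ (n : ℕ) (y : Fin n → A), maximalIdeal A = Ideal.span (insert x (Set.range y)) ∧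
      ringKrullDim A = ((n + 1 : ℕ) : WithBot ℕ∞) := by
  obtain ⟨n, y, hy, hspan, hfin⟩ := RB_extend (fun _ : Fin 1 => x) (fun _ => hx) (RB_single hx')
  refine ⟨n, y, ?_, ?_⟩
  · rw [hspan, Set.range_const, Set.singleton_union]
  · rw [RB_spanFinrank_eq, hfin, add_comm]

end Pool.Agent.Lib.MP_3029eb_ag
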