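import Pool.Agent.Lib.MP_3029eb_ag.CompDefs
import Pool.Agent.Lib.MP_3029eb_ag.RB

/-!
Module C3: gluing regularity along a composite valuation.
-/

set_option autoImplicit false

open IsLocalRing

namespace Pool.Agent.Lib.MP_3029eb_ag

namespace C3

variable {K : Type} [Field K]

theorem val_one_of_le {V V1 : ValuationSubring K} (h : V ≤ V1) {z : K}
    (hz : V.valuation z = 1) : V1.valuation z = 1 := by
  have hz0 : z ≠ 0 := by
    rintro rfl
    rw [map_zero] at hz
    exact zero_ne_one hz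
  have h1 : z ∈ V := (V.valuation_le_one_iff z).1 hz.le
  have h2 : z⁻¹ ∈ V := (V.valuation_le_one_iff _).1 (by rw [map_inv₀, hz, inv_one])
  have h3 := (V1.valuation_le_one_iff z).2 (h h1)
  have h4 := (V1.valuation_le_one_iff _).2 (h h2)
  refine le_antisymm h3 ?_
  rw [map_inv₀] at h4
  exact (inv_le_one₀ (zero_lt_iff.2 ((V1.valuation.ne_zero_iff).2 hz0))).1 h4

theorem val_lt_of_lt {V V1 : ValuationSubring K} (h : V ≤ V1) {z : K}
    (hz : V1.valuation z < 1) : V.valuation z < 1 := by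
  by_contra hcon
  rw [not_lt] at hcon
  have hz0 : z ≠ 0 := by
    rintro rfl
    rw [map_zero] at hcon
    exact absurd hcon (not_le.2 zero_lt_one)
  have h2 : z⁻¹ ∈ V := (V.valuation_le_one_iff _).1 (by
    rw [map_inv₀]
    exact (inv_le_one₀ (zero_lt_iff.2 ((V.valuation.ne_zero_iff).2 hz0))).2 hcon)
  have h4 := (V1.valuation_le_one_iff _).2 (h h2)
  rw [map_inv₀] at h4
  have h5 := (inv_le_one₀ (zero_lt_iff.2 ((V1.valuation.ne_zero_iff).2 hz0))).1 h4
  exact absurd hz (not_lt.2 h5)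

theorem le_loc (V : ValuationSubring K) (A : Subring K) : A ≤ locV V A :=
  fun z hz => ⟨z, hz, 1, one_mem _, map_one _, mul_one z⟩

theorem loc_mono (V : ValuationSubring K) {A B : Subring K} (h : A ≤ B) :
    locV V A ≤ locV V B := by
  rintro z ⟨a, ha, b, hb, hb1, hz⟩
  exact ⟨a, h ha, b, h hb, hb1, hz⟩

theorem loc_le (V : ValuationSubring K) {A : Subring K} (h : A ≤ V.toSubring) :
    locV V A ≤ V.toSubring := by
  rintro z ⟨a, ha, b, hb, hb1, hz⟩
  have h1 : V.valuation z ≤ 1 := by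
    have h2 : V.valuation a ≤ 1 := (V.valuation_le_one_iff a).2 (h ha)
    rw [← hz, map_mul, hb1, mul_one] at h2
    exact h2
  exact (V.valuation_le_one_iff z).1 h1

/-- localizing first at the centre of the smaller ring changes nothing -/
theorem loc_loc {V V1 : ValuationSubring K} (h : V ≤ V1) (A : Subring K) :
    locV V1 (locV V A) = locV V1 A := by
  refine le_antisymm ?_ (loc_mono V1 (le_loc V A))
  rintro z ⟨a, ⟨a1, ha1, a2, ha2, ha3, ha4⟩, b, ⟨b1, hb1, b2, hb2, hb3, hb4⟩, hb5, hz⟩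
  refine ⟨a1 * b2, mul_mem ha1 hb2, b1 * a2, mul_mem hb1 ha2, ?_, ?_⟩
  · rw [map_mul, val_one_of_le h ha3, mul_one, ← hb4, map_mul, hb5, val_one_of_le h hb3, one_mul]
  · rw [← ha4, ← hb4, ← hz]; ring

theorem inv_mem_loc (V : ValuationSubring K) (A : Subring K) {z : K} (hz : z ∈ locV V A)
    (h1 : V.valuation z = 1) : z⁻¹ ∈ locV V A := by
  obtain ⟨a, ha, b, hb, hb1, hab⟩ := hz
  have hz0 : z ≠ 0 := by
    rintro rfl
    rw [map_zero] at h1
    exact zero_ne_one h1
  refine ⟨b, hb, a, ha, ?_, ?_⟩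
  · rw [← hab, map_mul, h1, hb1, one_mul]
  · rw [← hab, ← mul_assoc, inv_mul_cancel₀ hz0, one_mul]

theorem isUnit_iff (V : ValuationSubring K) {A : Subring K} (h : A ≤ V.toSubring)
    (z : locV V A) : IsUnit z ↔ V.valuation (z : K) = 1 := by
  constructor
  · rintro ⟨u, rfl⟩
    have h1 : V.valuation ((u : locV V A) : K) ≤ 1 :=
      (V.valuation_le_one_iff _).2 (loc_le V h (u : locV V A).2)
    have h2 : V.valuation ((↑u⁻¹ : locV V A) : K) ≤ 1 :=
      (V.valuation_le_one_iff _).2 (loc_le V h (↑u⁻¹ : locV V A).2)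
    have h3 : ((u : locV V A) : K) * ((↑u⁻¹ : locV V A) : K) = 1 := by
      have := congrArg Subtype.val u.mul_inv
      exact this
    refine le_antisymm h1 ?_
    calc (1 : V.ValueGroup) = V.valuation (((u : locV V A) : K) * ((↑u⁻¹ : locV V A) : K)) := by
          rw [h3, map_one]
      _ = V.valuation ((u : locV V A) : K) * V.valuation ((↑u⁻¹ : locV V A) : K) := map_mul _ _ _
      _ ≤ V.valuation ((u : locV V A) : K) * 1 := by gcongr
      _ = V.valuation ((u : locV V A) : K) := mul_one _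
  · intro h1
    have hz0 : (z : K) ≠ 0 := by
      intro h0
      rw [h0, map_zero] at h1
      exact zero_ne_one h1
    refine IsUnit.of_mul_eq_one (⟨(z : K)⁻¹, inv_mem_loc V A z.2 h1⟩ : locV V A) ?_
    exact Subtype.ext (mul_inv_cancel₀ hz0)

theorem not_unit_iff (V : ValuationSubring K) {A : Subring K} (h : A ≤ V.toSubring)
    (z : locV V A) : ¬ IsUnit z ↔ V.valuation (z : K) < 1 := by
  rw [isUnit_iff V h]
  have h1 : V.valuation (z : K) ≤ 1 := (V.valuation_le_one_iff _).2 (loc_le V h z.2)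
  exact ⟨fun hne => lt_of_le_of_ne h1 hne, fun hlt => ne_of_lt hlt⟩

theorem isLocal (V : ValuationSubring K) {A : Subring K} (h : A ≤ V.toSubring) :
    IsLocalRing (locV V A) := by
  refine IsLocalRing.of_nonunits_add fun a b ha hb => ?_
  rw [mem_nonunits_iff, not_unit_iff V h] at ha hb ⊢
  exact V.valuation.map_add_lt ha hb

/-- the centre of `V` on a subring -/
noncomputable def cen (V : ValuationSubring K) {A : Subring K} (h : A ≤ V.toSubring) : Ideal A :=
  (maximalIdeal V).comap (Subring.inclusion h)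

instance (V : ValuationSubring K) {A : Subring K} (h : A ≤ V.toSubring) : (cen V h).IsPrime :=
  Ideal.comap_isPrime _ _

theorem mem_cen (V : ValuationSubring K) {A : Subring K} (h : A ≤ V.toSubring) (z : A) :
    z ∈ cen V h ↔ V.valuation (z : K) < 1 := by
  rw [cen, Ideal.mem_comap]
  exact V.valuation_lt_one_iff _

theorem isLocalization (V : ValuationSubring K) {A : Subring K} (h : A ≤ V.toSubring) :
    @IsLocalization.AtPrime A _ (locV V A) _ (Subring.inclusion (le_loc V A)).toAlgebra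
      (cen V h) _ := by
  let := (Subring.inclusion (le_loc V A)).toAlgebra
  have hmem : ∀ z : (cen V h).primeCompl, V.valuation ((z : A) : K) = 1 := by
    intro z
    have h1 : ¬ V.valuation ((z : A) : K) < 1 := fun hlt => z.2 ((mem_cen V h _).2 hlt)
    exact le_antisymm ((V.valuation_le_one_iff _).2 (h (z : A).2)) (not_lt.1 h1)
  refine ⟨⟨fun z => ?_, fun z => ?_, fun {x y} hxy => ⟨1, ?_⟩⟩⟩
  · exact (isUnit_iff V h _).2 (hmem z)
  · obtain ⟨a, ha, b, hb, hb1, hab⟩ := z.2
    refine ⟨(⟨a, ha⟩, ⟨⟨b, hb⟩, ?_⟩), Subtype.ext hab⟩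
    intro hc
    have := (mem_cen V h _).1 hc
    rw [hb1] at this
    exact lt_irrefl _ this
  · have := congrArg (Subtype.val) hxy
    rw [Subtype.ext (show (x : K) = y from this)]

theorem isNoetherian_loc (V : ValuationSubring K) {A : Subring K} (h : A ≤ V.toSubring)
    [IsNoetherianRing A] : IsNoetherianRing (locV V A) := by
  let := (Subring.inclusion (le_loc V A)).toAlgebra
  have := isLocalization V h
  exact IsLocalization.isNoetherianRing (cen V h).primeCompl (locV V A) inferInstance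

theorem isNoetherian_closure {A : Subring K} [IsNoetherianRing A] (s : Finset K) :
    IsNoetherianRing (Subring.closure ((A : Set K) ∪ (s : Set K))) := by
  have h1 : (Algebra.adjoin A (s : Set K)).toSubring =
      Subring.closure ((A : Set K) ∪ (s : Set K)) := by
    rw [Algebra.adjoin_eq_ring_closure]
    congr 2
    ext z
    exact ⟨fun ⟨a, ha⟩ => ha ▸ a.2, fun hz => ⟨⟨z, hz⟩, rfl⟩⟩
  rw [← h1]
  have h2 : Algebra.FiniteType A (Algebra.adjoin A (s : Set K)) :=
    (Subalgebra.fg_iff_finiteType _).1 (Subalgebra.fg_adjoin_finset s)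
  exact Algebra.FiniteType.isNoetherianRing A (Algebra.adjoin A (s : Set K))

/-- common denominators -/
theorem exists_denom (V1 : ValuationSubring K) (A : Subring K) (s : Finset K)
    (hs : ∀ r ∈ s, r ∈ locV V1 A) :
    ∃ b ∈ A, V1.valuation b = 1 ∧ ∀ r ∈ s, r * b ∈ A := by
  classical
  induction s using Finset.induction_on with
  | empty => exact ⟨1, one_mem _, map_one _, fun r hr => absurd hr (Finset.notMem_empty r)⟩
  | insert z s hz ih =>
    obtain ⟨b, hb, hb1, hbs⟩ := ih fun r hr => hs r (Finset.mem_insert_of_mem hr)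
    obtain ⟨a, ha, c, hc, hc1, hac⟩ := hs z (Finset.mem_insert_self z s)
    refine ⟨b * c, mul_mem hb hc, by rw [map_mul, hb1, hc1, one_mul], fun r hr => ?_⟩
    rcases Finset.mem_insert.1 hr with rfl | hr
    · have : r * (b * c) = b * a := by rw [← hac]; ring
      rw [this]
      exact mul_mem hb ha
    · rw [← mul_assoc]
      exact mul_mem (hbs r hr) hc

/-- height plus coheight is at most the dimension -/
theorem height_add_le {R : Type} [CommRing R] (p : Ideal R) [p.IsPrime] :
    (p.height : WithBot ℕ∞) + ringKrullDim (R ⧸ p) ≤ ringKrullDim R := by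
  let P : PrimeSpectrum R := ⟨p, inferInstance⟩
  have h1 : (p.height : WithBot ℕ∞) = Order.height P := by
    rw [← PrimeSpectrum.height_eq_orderHeight P]
  have h2 : ringKrullDim (R ⧸ p) = (Order.coheight P : WithBot ℕ∞) := by
    rw [ringKrullDim_quotient, Order.coheight_eq_krullDim_Ici]
    rfl
  have : Nonempty (PrimeSpectrum R) := ⟨P⟩
  rw [h1, h2, ringKrullDim, Order.krullDim_eq_iSup_height_add_coheight_of_nonempty,
    ← WithBot.coe_add, WithBot.coe_le_coe]
  exact le_iSup (fun a : PrimeSpectrum R => Order.height a + Order.coheight a) P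

/-- a regular local ring has a regular system of parameters -/
theorem exists_params (B : Type) [CommRing B] [IsRegularLocalRing B] :
    ∃ (n : ℕ) (y : Fin n → B), maximalIdeal B = Ideal.span (Set.range y) ∧
      ringKrullDim B = (n : WithBot ℕ∞) := by
  obtain ⟨n, y, hy, hspan, hfin⟩ := RB_extend (A := B) (c := 0) (fun i => i.elim0)
    (fun i => i.elim0) (fun _ _ i => i.elim0)
  refine ⟨n, y, ?_, ?_⟩
  · rw [hspan, Set.range_eq_empty, Set.empty_union]
  · rw [RB_spanFinrank_eq, hfin, Nat.zero_add]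

theorem mem_im {V1 : ValuationSubring K} {A : Subring K} {w : ResidueField V1} (hw : w ∈ im V1 A) :
    ∃ u ∈ A, ∃ hu : u ∈ V1, residue V1 ⟨u, hu⟩ = w := by
  obtain ⟨x, hx, rfl⟩ := hw
  exact ⟨(x : K), hx, x.2, rfl⟩

theorem residue_mem_im {V1 : ValuationSubring K} {A : Subring K} {u : K} (hu : u ∈ A)
    (hu1 : u ∈ V1) : residue V1 ⟨u, hu1⟩ ∈ im V1 A :=
  ⟨⟨u, hu1⟩, hu, rfl⟩

theorem residue_eq_zero {V1 : ValuationSubring K} {u : K} (hu1 : u ∈ V1) :
    residue V1 ⟨u, hu1⟩ = 0 ↔ V1.valuation u < 1 := by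
  rw [residue_eq_zero_iff]
  exact V1.valuation_lt_one_iff _

/-- an element of the maximal ideal, modulo the centre of the coarser ring -/
theorem lift_max {V V1 : ValuationSubring K} (h : V ≤ V1) (A : Subring K)
    (hA : A ≤ V.toSubring) [IsLocalRing (im V1 A)] {d : ℕ} (ub : Fin d → im V1 A)
    (hub : maximalIdeal (im V1 A) = Ideal.span (Set.range ub)) (u : Fin d → K)
    (hu1 : ∀ k, u k ∈ V1)
    (huu : ∀ k, residue V1 ⟨u k, hu1 k⟩ = (ub k : ResidueField V1))
    (a : K) (ha : a ∈ A) (hav : V.valuation a < 1) :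
    ∃ c : Fin d → K, (∀ k, c k ∈ A) ∧ V1.valuation (a - ∑ k, c k * u k) < 1 := by
  have ha1 : a ∈ V1 := h (hA ha)
  have hmax : (⟨residue V1 ⟨a, ha1⟩, residue_mem_im ha ha1⟩ : im V1 A) ∈
      maximalIdeal (im V1 A) := by
    rw [mem_maximalIdeal, mem_nonunits_iff]
    intro hun
    obtain ⟨w, hw⟩ := isUnit_iff_exists_inv.1 hun
    obtain ⟨t, ht, ht1, htw⟩ := mem_im w.2
    have h3 : residue V1 ⟨a, ha1⟩ * (w : ResidueField V1) = 1 := congrArg Subtype.val hw
    rw [← htw, ← map_mul, ← sub_eq_zero, ← map_one (residue V1), ← map_sub] at h3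
    have h4 : V1.valuation (a * t - 1) < 1 :=
      (residue_eq_zero (sub_mem (mul_mem ha1 ht1) (one_mem _))).1 h3
    have h5 : V.valuation (a * t - 1) < 1 := val_lt_of_lt h h4
    have h6 : V.valuation (a * t) < 1 := by
      rw [map_mul]
      exact mul_lt_one_of_nonneg_of_lt_one_left zero_le hav
        ((V.valuation_le_one_iff _).2 (hA ht))
    have h7 : V.valuation (a * t - (a * t - 1)) < 1 := V.valuation.map_sub_lt h6 h5
    rw [sub_sub_cancel, map_one] at h7
    exact lt_irrefl _ h7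
  rw [hub, Ideal.mem_span_range_iff_exists_fun] at hmax
  obtain ⟨cb, hcb⟩ := hmax
  choose c hc hc1 hcc using fun k => mem_im (cb k).2
  refine ⟨c, hc, ?_⟩
  have hsum : (∑ k, c k * u k) ∈ V1 := sum_mem fun k _ => mul_mem (hc1 k) (hu1 k)
  rw [← residue_eq_zero (sub_mem ha1 hsum)]
  have h8 : (⟨a - ∑ k, c k * u k, sub_mem ha1 hsum⟩ : V1) =
      ⟨a, ha1⟩ - ∑ k, (⟨c k, hc1 k⟩ : V1) * ⟨u k, hu1 k⟩ := by
    apply Subtype.ext
    push_cast
    rfl
  rw [h8, map_sub, map_sum, sub_eq_zero]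
  have h9 := congrArg Subtype.val hcb
  refine h9.symm.trans ?_
  push_cast
  refine Finset.sum_congr rfl fun k _ => ?_
  rw [map_mul, huu, hcc]

/-- adapted parameters of the localization at the centre of the coarser ring -/
theorem exists_w {V1 : ValuationSubring K} (A : Subring K) (hA1 : A ≤ V1.toSubring)
    [IsNoetherianRing A] [IsLocalRing (locV V1 A)] {n : ℕ} (y : Fin n → locV V1 A)
    (hy : maximalIdeal (locV V1 A) = Ideal.span (Set.range y)) :
    ∃ w : Fin n → K, (∀ j, w j ∈ locV V1 A) ∧ (∀ j, V1.valuation (w j) < 1) ∧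
      ∀ a ∈ A, V1.valuation a < 1 → ∃ e : Fin n → K, (∀ j, e j ∈ A) ∧ a = ∑ j, e j * w j := by
  classical
  obtain ⟨Z, hZ⟩ := (isNoetherianRing_iff_ideal_fg A).1 inferInstance (cen V1 hA1)
  have hZm : ∀ z ∈ Z, V1.valuation (z : K) < 1 := fun z hz =>
    (mem_cen V1 hA1 z).1 (by rw [← hZ]; exact Ideal.subset_span hz)
  have hex : ∀ z : Z, ∃ r : Fin n → locV V1 A,
      ∑ j, r j * y j = ⟨((z : A) : K), le_loc V1 A (z : A).2⟩ := by
    intro z
    have h1 : (⟨((z : A) : K), le_loc V1 A (z : A).2⟩ : locV V1 A) ∈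
        maximalIdeal (locV V1 A) := by
      rw [mem_maximalIdeal, mem_nonunits_iff, not_unit_iff V1 hA1]
      exact hZm z z.2
    rw [hy, Ideal.mem_span_range_iff_exists_fun] at h1
    exact h1
  choose r hr using hex
  obtain ⟨b, hb, hb1, hbr⟩ := exists_denom V1 A
    ((Finset.univ : Finset (Z × Fin n)).image fun q => ((r q.1 q.2 : locV V1 A) : K)) (by
      intro t ht
      obtain ⟨q, _, rfl⟩ := Finset.mem_image.1 ht
      exact (r q.1 q.2).2)
  have hb0 : b ≠ 0 := by
    rintro rfl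
    rw [map_zero] at hb1
    exact zero_ne_one hb1
  have hbinv : b⁻¹ ∈ locV V1 A := inv_mem_loc V1 A (le_loc V1 A hb) hb1
  refine ⟨fun j => (y j : K) * b⁻¹, fun j => mul_mem (y j).2 hbinv, fun j => ?_, ?_⟩
  · have h1 : y j ∈ maximalIdeal (locV V1 A) := by
      rw [hy]; exact Ideal.subset_span ⟨j, rfl⟩
    rw [mem_maximalIdeal, mem_nonunits_iff, not_unit_iff V1 hA1] at h1
    rw [map_mul, map_inv₀, hb1, inv_one, mul_one]
    exact h1
  · intro a ha hav
    -- the ideal of good elements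
    let I : Ideal A :=
      { carrier := {x | ∃ e : Fin n → K, (∀ j, e j ∈ A) ∧ (x : K) = ∑ j, e j * ((y j : K) * b⁻¹)}
        add_mem' := by
          rintro x x' ⟨e, he, hx⟩ ⟨e', he', hx'⟩
          refine ⟨fun j => e j + e' j, fun j => add_mem (he j) (he' j), ?_⟩
          push_cast
          rw [hx, hx', ← Finset.sum_add_distrib]
          exact Finset.sum_congr rfl fun j _ => by ring
        zero_mem' := ⟨fun _ => 0, fun _ => zero_mem _, by simp⟩
        smul_mem' := by
          rintro c x ⟨e, he, hx⟩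
          refine ⟨fun j => (c : K) * e j, fun j => mul_mem c.2 (he j), ?_⟩
          rw [smul_eq_mul]
          push_cast
          rw [hx, Finset.mul_sum]
          exact Finset.sum_congr rfl fun j _ => by ring }
    have hle : cen V1 hA1 ≤ I := by
      rw [← hZ, Ideal.span_le]
      intro z hz
      refine ⟨fun j => ((r ⟨z, hz⟩ j : locV V1 A) : K) * b, fun j => ?_, ?_⟩
      · exact hbr _ (Finset.mem_image.2 ⟨(⟨z, hz⟩, j), Finset.mem_univ _, rfl⟩)
      · have h2 := congrArg Subtype.val (hr ⟨z, hz⟩)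
        refine h2.symm.trans ?_
        push_cast
        refine Finset.sum_congr rfl fun j _ => ?_
        field_simp
    have hmem : (⟨a, ha⟩ : A) ∈ I := hle ((mem_cen V1 hA1 _).2 hav)
    exact hmem

end C3

open C3 in
theorem glue {K : Type} [Field K] {V V1 : ValuationSubring K} (h : V ≤ V1) (A : Subring K)
    (hA : A ≤ V.toSubring) [IsNoetherianRing A] (hloc : locV V A = A)
    (h1 : IsRegularLocalRing (locV V1 A)) (h2 : IsRegularLocalRing (im V1 A)) : LUF V A := by
  classical
  have hA1 : A ≤ V1.toSubring := fun z hz => h (hA hz)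
  obtain ⟨n, y, hy, hdim1⟩ := exists_params (locV V1 A)
  obtain ⟨d, ub, hub, hdim2⟩ := exists_params (im V1 A)
  choose u hu hu1 huu using fun k => mem_im (ub k).2
  obtain ⟨w, hw1, hwv1, hwp⟩ := exists_w A hA1 y hy
  have hwv : ∀ j, V.valuation (w j) < 1 := fun j => val_lt_of_lt h (hwv1 j)
  have hwV : ∀ j, w j ∈ V := fun j => (V.valuation_le_one_iff _).1 (hwv j).le
  let s : Finset K := Finset.univ.image w
  have hs : ∀ z, z ∈ (s : Set K) ↔ ∃ j, w j = z := by
    intro z
    simp [s]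
  refine ⟨s, ?_, ?_⟩
  · intro z hz
    obtain ⟨j, rfl⟩ := (hs z).1 hz
    refine ⟨hwV j, ?_⟩
    obtain ⟨a, ha, b, hb, hb1, hab⟩ := hw1 j
    refine ⟨a, ha, b, hb, ?_, hab⟩
    rintro rfl
    rw [map_zero] at hb1
    exact zero_ne_one hb1
  set A' := Subring.closure ((A : Set K) ∪ (s : Set K)) with hA'def
  have hAA' : A ≤ A' := fun z hz => Subring.subset_closure (Or.inl hz)
  have hwA' : ∀ j, w j ∈ A' := fun j => Subring.subset_closure (Or.inr ((hs _).2 ⟨j, rfl⟩))
  have hA'V : A' ≤ V.toSubring := by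
    rw [hA'def, Subring.closure_le]
    rintro z (hz | hz)
    · exact hA hz
    · obtain ⟨j, rfl⟩ := (hs z).1 hz
      exact hwV j
  have hnoe' : IsNoetherianRing A' := isNoetherian_closure s
  have hnoe : IsNoetherianRing (locV V A') := isNoetherian_loc V hA'V
  have hlocal : IsLocalRing (locV V A') := isLocal V hA'V
  have hA3V : locV V A' ≤ V.toSubring := loc_le V hA'V
  have hA3V1 : locV V A' ≤ V1.toSubring := fun z hz => h (hA3V hz)
  have hA'3 : A' ≤ locV V A' := le_loc V A'
  have hA3 : A ≤ locV V A' := hAA'.trans hA'3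
  -- elements of `A'` modulo the centre of `V1`
  have hmod1 : ∀ x ∈ A', ∃ a ∈ A, V1.valuation (x - a) < 1 := by
    intro x hx
    have hle : A' ≤ ((im V1 A).comap (residue V1)).map V1.toSubring.subtype := by
      rw [hA'def, Subring.closure_le]
      rintro z (hz | hz)
      · exact ⟨⟨z, hA1 hz⟩, residue_mem_im hz (hA1 hz), rfl⟩
      · obtain ⟨j, rfl⟩ := (hs z).1 hz
        refine ⟨⟨w j, h (hwV j)⟩, ?_, rfl⟩
        show residue V1 ⟨w j, h (hwV j)⟩ ∈ im V1 A
        rw [(residue_eq_zero (h (hwV j))).2 (hwv1 j)]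
        exact zero_mem _
    obtain ⟨t, ht, rfl⟩ := hle hx
    obtain ⟨a, ha, ha1, hat⟩ := mem_im (ht : residue V1 t ∈ im V1 A)
    refine ⟨a, ha, ?_⟩
    have h3 : residue V1 (t - ⟨a, ha1⟩) = 0 := by rw [map_sub, hat, sub_self]
    exact (residue_eq_zero (V1 := V1) (sub_mem t.2 ha1)).1 h3
  -- the maximal ideal
  let J : Ideal (locV V A') := Ideal.span
    ((Set.range fun j => (⟨w j, hA'3 (hwA' j)⟩ : locV V A')) ∪
      Set.range fun k => (⟨u k, hA3 (hu k)⟩ : locV V A'))
  have hu_lt : ∀ k, V.valuation (u k) < 1 := by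
    intro k
    by_contra hcon
    have h3 : V.valuation (u k) = 1 :=
      le_antisymm ((V.valuation_le_one_iff _).2 (hA (hu k))) (not_lt.1 hcon)
    have h4 : (u k)⁻¹ ∈ A := by
      rw [← hloc]
      exact inv_mem_loc V A (le_loc V A (hu k)) h3
    have h5 : u k ≠ 0 := by
      intro h0
      rw [h0, map_zero] at h3
      exact zero_ne_one h3
    have h6 : ub k ∈ maximalIdeal (im V1 A) := by
      rw [hub]; exact Ideal.subset_span ⟨k, rfl⟩
    refine h6 (IsUnit.of_mul_eq_one
      (⟨residue V1 ⟨(u k)⁻¹, hA1 h4⟩, residue_mem_im h4 (hA1 h4)⟩ : im V1 A) ?_)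
    apply Subtype.ext
    show (ub k : ResidueField V1) * residue V1 ⟨(u k)⁻¹, hA1 h4⟩ = 1
    rw [← huu, ← map_mul]
    have h7 : (⟨u k, hu1 k⟩ : V1) * ⟨(u k)⁻¹, hA1 h4⟩ = 1 := Subtype.ext (mul_inv_cancel₀ h5)
    rw [h7, map_one]
  have hJle : ∀ z ∈ J, V.valuation (z : K) < 1 := by
    have hJm : J ≤ maximalIdeal (locV V A') := by
      rw [Ideal.span_le]
      rintro z (⟨j, rfl⟩ | ⟨k, rfl⟩)
      · exact (not_unit_iff V hA'V _).2 (hwv j)
      · exact (not_unit_iff V hA'V _).2 (hu_lt k)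
    intro z hz
    exact (not_unit_iff V hA'V _).1 (hJm hz)
  have hAJ : ∀ a (ha : a ∈ A), V.valuation a < 1 → (⟨a, hA3 ha⟩ : locV V A') ∈ J := by
    intro a ha hav
    have := h2.toIsLocalRing
    obtain ⟨c, hc, hcv⟩ := lift_max h A hA ub hub u hu1 huu a ha hav
    have hsumA : (∑ k, c k * u k) ∈ A := sum_mem fun k _ => mul_mem (hc k) (hu k)
    obtain ⟨e, he, hea⟩ := hwp _ (sub_mem ha hsumA) hcv
    have h3 : (⟨a, hA3 ha⟩ : locV V A') =
        ∑ j, (⟨e j, hA3 (he j)⟩ : locV V A') * ⟨w j, hA'3 (hwA' j)⟩ +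
          ∑ k, (⟨c k, hA3 (hc k)⟩ : locV V A') * ⟨u k, hA3 (hu k)⟩ := by
      apply Subtype.ext
      push_cast
      rw [← hea]
      ring
    rw [h3]
    refine add_mem (sum_mem fun j _ => Ideal.mul_mem_left _ _ (Ideal.subset_span (Or.inl ⟨j, rfl⟩)))
      (sum_mem fun k _ => Ideal.mul_mem_left _ _ (Ideal.subset_span (Or.inr ⟨k, rfl⟩)))
  have hmodJ : ∀ x (hx : x ∈ A'), ∃ a, ∃ ha : a ∈ A,
      (⟨x, hA'3 hx⟩ : locV V A') - ⟨a, hA3 ha⟩ ∈ J := by
    intro x hx
    have hle : Subring.closure ((A : Set K) ∪ (s : Set K)) ≤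
        (((Ideal.Quotient.mk J).comp (Subring.inclusion hA3)).range.comap
        (Ideal.Quotient.mk J)).map (locV V A').subtype := by
      rw [Subring.closure_le]
      rintro z (hz | hz)
      · exact ⟨⟨z, hA3 hz⟩, ⟨⟨z, hz⟩, rfl⟩, rfl⟩
      · obtain ⟨j, rfl⟩ := (hs z).1 hz
        refine ⟨⟨w j, hA'3 (hwA' j)⟩, ⟨0, ?_⟩, rfl⟩
        rw [map_zero, eq_comm, Ideal.Quotient.eq_zero_iff_mem]
        exact Ideal.subset_span (Or.inl ⟨j, rfl⟩)
    obtain ⟨t, ⟨a, hat⟩, htx⟩ := hle hx
    refine ⟨a, a.2, ?_⟩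
    have h3 : t = ⟨x, hA'3 hx⟩ := Subtype.ext htx
    rw [← h3, ← Ideal.Quotient.eq]
    exact hat.symm
  have hmaxJ : maximalIdeal (locV V A') ≤ J := by
    intro z hz
    have hzv : V.valuation (z : K) < 1 := (not_unit_iff V hA'V z).1 hz
    obtain ⟨x, hx, t, ht, ht1, hxt⟩ := z.2
    have hxv : V.valuation x < 1 := by rw [← hxt, map_mul, ht1, mul_one]; exact hzv
    obtain ⟨a, ha, haJ⟩ := hmodJ x hx
    have hav : V.valuation a < 1 := by
      have h3 := hJle _ haJ
      have h4 : V.valuation (x - (x - a)) < 1 := V.valuation.map_sub_lt hxv h3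
      rwa [sub_sub_cancel] at h4
    have hxJ : (⟨x, hA'3 hx⟩ : locV V A') ∈ J := by
      have := add_mem haJ (hAJ a ha hav)
      rwa [sub_add_cancel] at this
    have htu : IsUnit (⟨t, hA'3 ht⟩ : locV V A') := (isUnit_iff V hA'V _).2 ht1
    obtain ⟨t', ht'⟩ := isUnit_iff_exists_inv.1 htu
    have h5 : z = ⟨x, hA'3 hx⟩ * t' := by
      have h6 : z * ⟨t, hA'3 ht⟩ = ⟨x, hA'3 hx⟩ := Subtype.ext hxt
      rw [← h6, mul_assoc, ht', mul_one]
    rw [h5]
    exact Ideal.mul_mem_right _ _ hxJ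
  have hmax : maximalIdeal (locV V A') = J := by
    refine le_antisymm hmaxJ ?_
    intro z hz
    exact (not_unit_iff V hA'V z).2 (hJle z hz)
  -- the dimension
  have hlocloc : locV V1 (locV V A') = locV V1 A := by
    rw [loc_loc h]
    refine le_antisymm ?_ (loc_mono V1 hAA')
    have hle : A' ≤ locV V1 A := by
      rw [hA'def, Subring.closure_le]
      rintro z (hz | hz)
      · exact le_loc V1 A hz
      · obtain ⟨j, rfl⟩ := (hs z).1 hz
        exact hw1 j
    calc locV V1 A' ≤ locV V1 (locV V1 A) := loc_mono V1 hle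
      _ = locV V1 A := loc_loc le_rfl A
  have hheight : ((cen V1 hA3V1).height : WithBot ℕ∞) = n := by
    let := (Subring.inclusion (le_loc V1 (locV V A'))).toAlgebra
    have := isLocalization V1 hA3V1
    rw [← IsLocalization.AtPrime.ringKrullDim_eq_height (cen V1 hA3V1) (locV V1 (locV V A')),
      hlocloc, hdim1]
  have hquot : ringKrullDim (locV V A' ⧸ cen V1 hA3V1) = d := by
    let ψ : locV V A' →+* ResidueField V1 := (residue V1).comp (Subring.inclusion hA3V1)
    have hker : RingHom.ker ψ = cen V1 hA3V1 := by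
      ext z
      rw [RingHom.mem_ker, mem_cen]
      exact residue_eq_zero (hA3V1 z.2)
    have hrange : ψ.range = im V1 A := by
      refine le_antisymm ?_ ?_
      · rintro _ ⟨z, rfl⟩
        obtain ⟨x, hx, t, ht, ht1, hxt⟩ := z.2
        obtain ⟨a, ha, hax⟩ := hmod1 x hx
        obtain ⟨b, hb, hbt⟩ := hmod1 t ht
        have hbv : V.valuation b = 1 := by
          have h3 : V.valuation (t - b) < 1 := val_lt_of_lt h hbt
          refine le_antisymm ((V.valuation_le_one_iff _).2 (hA hb)) (not_lt.1 fun h4 => ?_)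
          have h5 : V.valuation (t - b + b) < 1 := V.valuation.map_add_lt h3 h4
          rw [sub_add_cancel, ht1] at h5
          exact lt_irrefl _ h5
        have hb0 : b ≠ 0 := by
          intro h0
          rw [h0, map_zero] at hbv
          exact zero_ne_one hbv
        have hbinv : b⁻¹ ∈ A := by
          rw [← hloc]
          exact inv_mem_loc V A (le_loc V A hb) hbv
        have h6 : ψ z = residue V1 ⟨a * b⁻¹, hA1 (mul_mem ha hbinv)⟩ := by
          rw [← sub_eq_zero]
          show residue V1 ⟨(z : K), hA3V1 z.2⟩ - _ = 0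
          rw [← map_sub]
          refine (residue_eq_zero (V1 := V1)
            (sub_mem (hA3V1 z.2) (hA1 (mul_mem ha hbinv)))).2 ?_
          have h7 : (z : K) - a * b⁻¹ = ((x - a) - z * (t - b)) * b⁻¹ := by
            rw [← hxt]
            field_simp
            ring
          rw [h7, map_mul, map_inv₀, val_one_of_le h hbv, inv_one, mul_one]
          refine V1.valuation.map_sub_lt hax ?_
          rw [map_mul, mul_comm]
          exact mul_lt_one_of_nonneg_of_lt_one_left zero_le hbt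
            ((V1.valuation_le_one_iff _).2 (hA3V1 z.2))
        rw [h6]
        exact residue_mem_im (mul_mem ha hbinv) _
      · intro q hq
        obtain ⟨a, ha, ha1, rfl⟩ := mem_im hq
        exact ⟨⟨a, hA3 ha⟩, rfl⟩
    have e1 : (locV V A' ⧸ cen V1 hA3V1) ≃+* ψ.range :=
      (Ideal.quotEquivOfEq hker.symm).trans (RingHom.quotientKerEquivRange ψ)
    rw [ringKrullDim_eq_of_ringEquiv e1, hrange, hdim2]
  have hdim : ((n + d : ℕ) : WithBot ℕ∞) ≤ ringKrullDim (locV V A') := by
    have h3 := height_add_le (cen V1 hA3V1)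
    rw [hheight, hquot] at h3
    push_cast
    exact h3
  apply IsRegularLocalRing.of_spanFinrank_maximalIdeal_le
  refine le_trans ?_ hdim
  rw [hmax]
  have h3 : (Ideal.span
    ((Set.range fun j => (⟨w j, hA'3 (hwA' j)⟩ : locV V A')) ∪
      Set.range fun k => (⟨u k, hA3 (hu k)⟩ : locV V A'))).spanFinrank ≤ n + d := by
    refine (Submodule.spanFinrank_span_le_ncard_of_finite
      ((Set.finite_range _).union (Set.finite_range _))).trans ?_
    refine (Set.ncard_union_le _ _).trans (add_le_add ?_ ?_)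
    · rw [← Set.image_univ]
      exact (Set.ncard_image_le Set.finite_univ).trans (by simp [Set.ncard_univ])
    · rw [← Set.image_univ]
      exact (Set.ncard_image_le Set.finite_univ).trans (by simp [Set.ncard_univ])
  exact_mod_cast h3

end Pool.Agent.Lib.MP_3029eb_ag
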