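import Pool.Agent.Lib.MP_3029eb_ag.CompDefs

/-!
Module C4 of the composite valuation part: homomorphisms essentially of finite type.
-/

open IsLocalRing
open scoped TensorProduct

namespace Pool.Agent.Lib.MP_3029eb_ag

variable {K : Type} [Field K]

theorem EFT_comp {Rb B C : Type} [CommRing Rb] [CommRing B] [CommRing C]
    (f : Rb →+* B) (g : B →+* C) (hf : EFT f) (hg : EFT g) : EFT (g.comp f) := by
  let i1 := f.toAlgebra
  let i2 := g.toAlgebra
  let i3 := (g.comp f).toAlgebra
  have : IsScalarTower Rb B C := .of_algebraMap_eq fun _ => rfl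
  have h1 : Algebra.EssFiniteType Rb B := hf
  have h2 : Algebra.EssFiniteType B C := hg
  exact Algebra.EssFiniteType.comp Rb B C

theorem EFT_comp_surjective {Rb B C : Type} [CommRing Rb] [CommRing B] [CommRing C]
    (f : Rb →+* B) (g : B →+* C) (hf : EFT f) (hg : Function.Surjective g) :
    EFT (g.comp f) := by
  refine EFT_comp f g hf ?_
  let i2 := g.toAlgebra
  show Algebra.EssFiniteType B C
  exact Algebra.EssFiniteType.of_surjective (Algebra.ofId B C) hg

open Classical in
/-- the localization at the centre of a ring generated by finitely many elements -/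
theorem EFT_locV_aux (V : ValuationSubring K) (A B : Subring K) (s : Finset K)
    (hs : (s : Set K) ⊆ B) (hB : B ≤ Subring.closure ((A : Set K) ∪ (s : Set K)))
    (g : A →+* locV V B) (hg : ∀ a, (g a : K) = a) : EFT g := by
  let i1 := g.toAlgebra
  show Algebra.EssFiniteType A (locV V B)
  have hBL : B ≤ locV V B := fun z hz => ⟨z, hz, 1, one_mem _, map_one _, mul_one z⟩
  rw [Algebra.essFiniteType_iff]
  refine ⟨Finset.univ.image (fun z : s => (⟨z.1, hBL (hs z.2)⟩ : locV V B)), ?_⟩
  set σ : Finset (locV V B) := Finset.univ.image (fun z : s => (⟨z.1, hBL (hs z.2)⟩ : locV V B))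
    with hσ
  have key : ∀ c : locV V B, (c : K) ∈ B → c ∈ Algebra.adjoin A (σ : Set (locV V B)) := by
    have h1 : B ≤ (Algebra.adjoin A (σ : Set (locV V B))).toSubring.map (locV V B).subtype := by
      refine hB.trans ?_
      rw [Subring.closure_le]
      rintro z (hz | hz)
      · refine ⟨g ⟨z, hz⟩, ?_, hg ⟨z, hz⟩⟩
        exact Subalgebra.algebraMap_mem (Algebra.adjoin A (σ : Set (locV V B))) ⟨z, hz⟩
      · refine ⟨⟨z, hBL (hs hz)⟩, ?_, rfl⟩
        refine Algebra.subset_adjoin (Finset.mem_coe.2 ?_)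
        rw [hσ]
        exact Finset.mem_image.2 ⟨⟨z, Finset.mem_coe.1 hz⟩, Finset.mem_univ _, rfl⟩
    intro c hc
    obtain ⟨d, hd, hdc⟩ := h1 hc
    have : d = c := Subtype.ext hdc
    rw [← this]
    exact hd
  rintro ⟨z, a, ha, b, hb, hb1, hz⟩
  have hb0 : b ≠ 0 := by rintro rfl; rw [map_zero] at hb1; exact zero_ne_one hb1
  have hbinv : b⁻¹ ∈ locV V B := ⟨1, one_mem _, b, hb, hb1, inv_mul_cancel₀ hb0⟩
  refine ⟨⟨b, hBL hb⟩, key _ hb, ?_, key _ ?_⟩
  · refine IsUnit.of_mul_eq_one ⟨b⁻¹, hbinv⟩ (Subtype.ext ?_)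
    exact mul_inv_cancel₀ hb0
  · show z * b ∈ B
    rw [hz]
    exact ha

theorem EFT_locV {Rb : Type} [CommRing Rb] (V : ValuationSubring K) (A : Subring K)
    (f : Rb →+* A) (hf : EFT f) (s : Finset K)
    (g : A →+* locV V (Subring.closure ((A : Set K) ∪ (s : Set K))))
    (hg : ∀ a, (g a : K) = a) : EFT (g.comp f) :=
  EFT_comp f g hf (EFT_locV_aux V A _ s
    (fun _ hz => Subring.subset_closure (Or.inr hz)) le_rfl g hg)

theorem EFT_locV' {Rb : Type} [CommRing Rb] (V : ValuationSubring K) (A : Subring K)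
    (f : Rb →+* A) (hf : EFT f)
    (g : A →+* locV V A)
    (hg : ∀ a, (g a : K) = a) : EFT (g.comp f) :=
  EFT_comp f g hf (EFT_locV_aux V A A ∅ (by simp)
    (fun _ hz => Subring.subset_closure (Or.inl hz)) g hg)

end Pool.Agent.Lib.MP_3029eb_ag
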