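import Pool.Agent.Lib.MP_3029eb_ag.Comp1
import Pool.Agent.Lib.MP_3029eb_ag.Comp2
import Pool.Agent.Lib.MP_3029eb_ag.Comp3
import Pool.Agent.Lib.MP_3029eb_ag.Comp4

open IsLocalRing
open scoped TensorProduct

namespace Pool.Agent.Lib.MP_3029eb_ag

/-- the base case: `V = ⊤` -/
theorem LUF_top {K : Type} [Field K] (V : ValuationSubring K) (hV : V = ⊤) (R : Type)
    [CommRing R] [IsDomain R] [IsLocalRing R] (j : R →+* K) (hj : Function.Injective j)
    (hjm : ∀ r, V.valuation (j r) = 1 ↔ IsUnit r) : LUF V j.range := by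
  have hval : ∀ z : K, z ≠ 0 → V.valuation z = 1 := by
    intro z hz
    have h1 : z ∈ V := by rw [hV]; exact ValuationSubring.mem_top z
    have h2 : z⁻¹ ∈ V := by rw [hV]; exact ValuationSubring.mem_top _
    have h3 := (V.valuation_le_one_iff z).2 h1
    have h4 := (V.valuation_le_one_iff _).2 h2
    rw [map_inv₀] at h4
    refine le_antisymm h3 ?_
    have h6 : V.valuation z ≠ 0 := by simpa using hz
    calc (1 : _) = V.valuation z * (V.valuation z)⁻¹ := (mul_inv_cancel₀ h6).symm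
      _ ≤ V.valuation z * 1 := by gcongr
      _ = _ := mul_one _
  have hfield : IsField R := by
    refine ⟨⟨0, 1, zero_ne_one⟩, mul_comm, fun {a} ha => ?_⟩
    have : j a ≠ 0 := fun h0 => ha (hj (by rw [h0, map_zero]))
    obtain ⟨u, rfl⟩ := (hjm a).1 (hval _ this)
    exact ⟨((u⁻¹ : Rˣ) : R), Units.mul_inv u⟩
  have hreg : IsRegularLocalRing R := by
    have : IsPrincipalIdealRing R := by
      let := hfield.toField
      infer_instance
    infer_instance
  refine ⟨∅, by simp, ?_⟩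
  have e1 : Subring.closure ((j.range : Set K) ∪ ((∅ : Finset K) : Set K)) = j.range := by
    rw [Finset.coe_empty, Set.union_empty, Subring.closure_eq]
  have e2 : locV V j.range = j.range := by
    apply le_antisymm
    · rintro z ⟨a, ⟨a', rfl⟩, b, ⟨b', rfl⟩, hb1, hz⟩
      obtain ⟨u, rfl⟩ := (hjm b').1 hb1
      refine ⟨a' * ((u⁻¹ : Rˣ) : R), ?_⟩
      rw [map_mul, ← hz, mul_assoc, ← map_mul, Units.mul_inv, map_one, mul_one]
    · exact le_locV V _
  rw [e1, e2]
  exact IsRegularLocalRing.of_ringEquiv (RingEquiv.ofBijective j.rangeRestrict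
    ⟨fun a b hab => hj (congrArg Subtype.val hab), RingHom.rangeRestrict_surjective _⟩)

theorem valuation_eq_one_iff_inv {K : Type} [Field K] (V : ValuationSubring K) (z : K) :
    V.valuation z = 1 ↔ z ∈ V ∧ z⁻¹ ∈ V ∧ z ≠ 0 := by
  constructor
  · intro h
    have hz : z ≠ 0 := by rintro rfl; rw [map_zero] at h; exact zero_ne_one h
    refine ⟨(V.valuation_le_one_iff z).1 h.le, (V.valuation_le_one_iff _).1 ?_, hz⟩
    rw [map_inv₀, h, inv_one]
  · rintro ⟨h1, h2, hz⟩
    have h3 := (V.valuation_le_one_iff z).2 h1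
    have h4 := (V.valuation_le_one_iff _).2 h2
    rw [map_inv₀] at h4
    refine le_antisymm h3 ?_
    have h6 : V.valuation z ≠ 0 := by simpa using hz
    calc (1 : _) = V.valuation z * (V.valuation z)⁻¹ := (mul_inv_cancel₀ h6).symm
      _ ≤ V.valuation z * 1 := by gcongr
      _ = _ := mul_one _

theorem valuation_one_of_le {K : Type} [Field K] {V V1 : ValuationSubring K} (h : V ≤ V1) {z : K}
    (hz : V.valuation z = 1) : V1.valuation z = 1 := by
  rw [valuation_eq_one_iff_inv] at hz ⊢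
  exact ⟨h hz.1, h hz.2.1, hz.2.2⟩

/-- elements of `m_{V1}` lie in `V` -/
theorem mem_of_valuation_lt {K : Type} [Field K] {V V1 : ValuationSubring K} (h : V ≤ V1) {z : K}
    (hz : V1.valuation z < 1) : z ∈ V := by
  by_contra hcon
  have hne : z ≠ 0 := by intro h0; rw [h0] at hcon; exact hcon (zero_mem V)
  have h4 := (V.mem_or_inv_mem z).resolve_left hcon
  have h5 := (V1.valuation_le_one_iff _).2 (h h4)
  rw [map_inv₀] at h5
  have h6 : V1.valuation z ≠ 0 := by simpa using hne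
  exact absurd hz (not_lt.2 ((inv_le_one₀ (zero_lt_iff.2 h6)).1 h5))

open Classical in
/-- replace the adjoined elements by elements of the smaller valuation ring -/
theorem exists_replace {K : Type} [Field K] {V V1 : ValuationSubring K} (hVV1 : V ≤ V1)
    (A : Subring K) (s : Finset K)
    (hs : ∀ z ∈ s, z ∈ V1 ∧ ∃ a ∈ locV V1 A, ∃ b ∈ locV V1 A, b ≠ 0 ∧ z * b = a) :
    ∃ s' : Finset K, (∀ z ∈ s', z ∈ V ∧ ∃ a ∈ A, ∃ b ∈ A, b ≠ 0 ∧ z * b = a) ∧
      locV V1 (Subring.closure ((A : Set K) ∪ (s' : Set K))) =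
        locV V1 (Subring.closure ((A : Set K) ∪ (s : Set K))) := by
  refine ⟨s.image (fun z => if z ∈ V then z else z⁻¹), ?_, ?_⟩
  · intro w hw
    obtain ⟨z, hz, rfl⟩ := Finset.mem_image.1 hw
    obtain ⟨hzV, a, ha, b, hb, hb0, hzab⟩ := hs z hz
    obtain ⟨a1, ha1, a2, ha2, ha3, ha4⟩ := ha
    obtain ⟨b1, hb1, b2, hb2, hb3, hb4⟩ := hb
    have ha20 : a2 ≠ 0 := by rintro rfl; rw [map_zero] at ha3; exact zero_ne_one ha3
    have hb20 : b2 ≠ 0 := by rintro rfl; rw [map_zero] at hb3; exact zero_ne_one hb3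
    have hb10 : b1 ≠ 0 := by rw [← hb4]; exact mul_ne_zero hb0 hb20
    have hfrac : z * (b1 * a2) = a1 * b2 := by
      rw [← hb4, ← ha4, ← hzab]; ring
    by_cases hzV' : z ∈ V
    · rw [if_pos hzV']
      exact ⟨hzV', a1 * b2, mul_mem ha1 hb2, b1 * a2, mul_mem hb1 ha2, mul_ne_zero hb10 ha20,
        hfrac⟩
    · rw [if_neg hzV']
      have hz0 : z ≠ 0 := by rintro rfl; exact hzV' (zero_mem V)
      have ha10 : a1 * b2 ≠ 0 := by
        rw [← hfrac]; exact mul_ne_zero hz0 (mul_ne_zero hb10 ha20)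
      refine ⟨(V.mem_or_inv_mem z).resolve_left hzV', b1 * a2, mul_mem hb1 ha2, a1 * b2,
        mul_mem ha1 hb2, ha10, ?_⟩
      rw [← hfrac, ← mul_assoc, inv_mul_cancel₀ hz0, one_mul]
  · set s' : Finset K := s.image (fun z => if z ∈ V then z else z⁻¹) with hs'
    have hAs : A ≤ Subring.closure ((A : Set K) ∪ (s : Set K)) := fun a ha =>
      Subring.subset_closure (Or.inl ha)
    have hAs' : A ≤ Subring.closure ((A : Set K) ∪ (s' : Set K)) := fun a ha =>
      Subring.subset_closure (Or.inl ha)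
    have key : ∀ z ∈ s, z ∉ V → V1.valuation z = 1 := by
      intro z hz hzV
      have hz0 : z ≠ 0 := by rintro rfl; exact hzV (zero_mem V)
      rw [valuation_eq_one_iff_inv]
      exact ⟨(hs z hz).1, hVV1 ((V.mem_or_inv_mem z).resolve_left hzV), hz0⟩
    apply le_antisymm
    · rw [← locV_closure_of_subset V1 (Subring.closure ((A : Set K) ∪ (s : Set K)))
        (s' : Set K)]
      · exact locV_mono V1 (Subring.closure_mono (Set.union_subset_union_left _ hAs))
      · intro w hw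
        obtain ⟨z, hz, rfl⟩ := Finset.mem_image.1 (Finset.mem_coe.1 hw)
        have hzs : z ∈ Subring.closure ((A : Set K) ∪ (s : Set K)) :=
          Subring.subset_closure (Or.inr hz)
        show (if z ∈ V then z else z⁻¹) ∈ _
        by_cases hzV : z ∈ V
        · rw [if_pos hzV]; exact le_locV V1 _ hzs
        · rw [if_neg hzV]
          have hz0 : z ≠ 0 := by rintro rfl; exact hzV (zero_mem V)
          exact ⟨1, one_mem _, z, hzs, key z hz hzV, inv_mul_cancel₀ hz0⟩
    · rw [← locV_closure_of_subset V1 (Subring.closure ((A : Set K) ∪ (s' : Set K)))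
        (s : Set K)]
      · exact locV_mono V1 (Subring.closure_mono (Set.union_subset_union_left _ hAs'))
      · intro z hz
        have hz1 : (if z ∈ V then z else z⁻¹) ∈ Subring.closure ((A : Set K) ∪ (s' : Set K)) :=
          Subring.subset_closure (Or.inr (Finset.mem_coe.2 (Finset.mem_image_of_mem _ hz)))
        by_cases hzV : z ∈ V
        · rw [if_pos hzV] at hz1; exact le_locV V1 _ hz1
        · rw [if_neg hzV] at hz1
          have hz0 : z ≠ 0 := by rintro rfl; exact hzV (zero_mem V)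
          refine ⟨1, one_mem _, z⁻¹, hz1, ?_, mul_inv_cancel₀ hz0⟩
          rw [map_inv₀, key z hz hzV, inv_one]

/-- lifting an element of the residue field -/
theorem exists_lift_res {K : Type} [Field K] {V V1 : ValuationSubring K} (hVV1 : V ≤ V1)
    (A1 : Subring K) (w : ResidueField V1)
    (hw : w ∈ resV V V1 hVV1 ∧ ∃ a ∈ im V1 A1, ∃ b ∈ im V1 A1, b ≠ 0 ∧ w * b = a) :
    ∃ z : K, ∃ hz : z ∈ V1, z ∈ V ∧ z ∈ locV V1 A1 ∧
        (∃ a ∈ A1, ∃ b ∈ A1, b ≠ 0 ∧ z * b = a) ∧ residue V1 ⟨z, hz⟩ = w := by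
  obtain ⟨hwV, a, ⟨⟨a', ha1⟩, ha2, rfl⟩, b, ⟨⟨b', hb1⟩, hb2, rfl⟩, hb0, hwab⟩ := hw
  have hbu : IsUnit (⟨b', hb1⟩ : V1) := by
    by_contra hcon
    exact hb0 ((residue_eq_zero_iff _).2 ((mem_maximalIdeal _).2 hcon))
  have hbval : V1.valuation b' = 1 := (V1.valuation_eq_one_iff ⟨b', hb1⟩).1 hbu
  have hb'0 : b' ≠ 0 := by rintro rfl; rw [map_zero] at hbval; exact zero_ne_one hbval
  have hzmem : a' * b'⁻¹ ∈ V1 := by
    have h1 := (valuation_eq_one_iff_inv V1 b').1 hbval
    exact mul_mem ha1 h1.2.1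
  have hzres : residue V1 ⟨a' * b'⁻¹, hzmem⟩ = w := by
    have h1 : residue V1 ⟨a' * b'⁻¹, hzmem⟩ * residue V1 ⟨b', hb1⟩ =
        residue V1 ⟨a', ha1⟩ := by
      rw [← map_mul]
      congr 1
      apply Subtype.ext
      show a' * b'⁻¹ * b' = a'
      rw [mul_assoc, inv_mul_cancel₀ hb'0, mul_one]
    exact mul_right_cancel₀ hb0 (h1.trans hwab.symm)
  refine ⟨a' * b'⁻¹, hzmem, ?_, ⟨a', ha2, b', hb2, hbval, ?_⟩,
    ⟨a', ha2, b', hb2, hb'0, ?_⟩, hzres⟩
  · obtain ⟨⟨v, hv⟩, hv'⟩ := hwV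
    have h1 : residue V1 ⟨v, hVV1 hv⟩ = residue V1 ⟨a' * b'⁻¹, hzmem⟩ := by
      rw [hzres]; exact hv'
    rw [← sub_eq_zero, ← map_sub, residue_eq_zero_iff] at h1
    have h2 : V1.valuation (v - a' * b'⁻¹) < 1 :=
      (V1.valuation_lt_one_iff _).1 h1
    have h3 : v - a' * b'⁻¹ ∈ V := mem_of_valuation_lt hVV1 h2
    have h4 : a' * b'⁻¹ = v - (v - a' * b'⁻¹) := by ring
    rw [h4]
    exact sub_mem hv h3
  · rw [mul_assoc, inv_mul_cancel₀ hb'0, mul_one]
  · rw [mul_assoc, inv_mul_cancel₀ hb'0, mul_one]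

/-- the image of a subring of `V` in the residue field, as a homomorphism -/
noncomputable def toIm {K : Type} [Field K] (V1 : ValuationSubring K) (A : Subring K)
    (hA : A ≤ V1.toSubring) : A →+* im V1 A where
  toFun a := ⟨residue V1 ⟨a, hA a.2⟩, ⟨⟨a, hA a.2⟩, a.2, rfl⟩⟩
  map_one' := Subtype.ext (map_one (residue V1))
  map_mul' a b := Subtype.ext (map_mul (residue V1) ⟨a, hA a.2⟩ ⟨b, hA b.2⟩)
  map_zero' := Subtype.ext (map_zero (residue V1))
  map_add' a b := Subtype.ext (map_add (residue V1) ⟨a, hA a.2⟩ ⟨b, hA b.2⟩)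

theorem toIm_surjective {K : Type} [Field K] (V1 : ValuationSubring K) (A : Subring K)
    (hA : A ≤ V1.toSubring) : Function.Surjective (toIm V1 A hA) := by
  rintro ⟨_, ⟨⟨u, hu⟩, hu', rfl⟩⟩
  exact ⟨⟨u, hu'⟩, rfl⟩

/-- the second half of the composite step: from local uniformization of the image in the residue
field -/
theorem LUF_of_im {K : Type} [Field K] {V V1 : ValuationSubring K} (hVV1 : V ≤ V1)
    (A1 : Subring K) (hA1V : A1 ≤ V.toSubring) [IsNoetherianRing A1]
    (hA1reg : IsRegularLocalRing (locV V1 A1))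
    (hB : LUF (resV V V1 hVV1) (im V1 A1)) : LUF V A1 := by
  classical
  obtain ⟨t, ht, htreg⟩ := hB
  have hlift := fun w hw => exists_lift_res hVV1 A1 w (ht w hw)
  choose! ζ hζ1 hζV hζloc hζfrac hζres using hlift
  let t' : Finset K := t.image ζ
  have ht'V : ∀ z ∈ t', z ∈ V ∧ ∃ a ∈ A1, ∃ b ∈ A1, b ≠ 0 ∧ z * b = a := by
    intro z hz
    obtain ⟨w, hw, rfl⟩ := Finset.mem_image.1 hz
    exact ⟨hζV w hw, hζfrac w hw⟩
  refine LUF_trans V A1 t' ht'V ?_
  have hcl2 : Subring.closure ((A1 : Set K) ∪ (t' : Set K)) ≤ V.toSubring := by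
    rw [Subring.closure_le]
    rintro z (hz | hz)
    · exact hA1V hz
    · exact (ht'V z hz).1
  have hn1 : IsNoetherianRing (Subring.closure ((A1 : Set K) ∪ (t' : Set K))) :=
    isNoetherianRing_closure t'
  have hn2 : IsNoetherianRing (locV V (Subring.closure ((A1 : Set K) ∪ (t' : Set K)))) :=
    isNoetherianRing_locV V
  refine glue hVV1 _ (locV_le V hcl2) (locV_locV_le le_rfl _) ?_ ?_
  · rw [locV_locV_le hVV1, locV_closure_of_subset]
    · exact hA1reg
    · intro z hz
      obtain ⟨w, hw, rfl⟩ := Finset.mem_image.1 (Finset.mem_coe.1 hz)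
      exact hζloc w hw
  · rw [im_locV hVV1 _ hcl2, im_closure V1 A1 (hA1V.trans hVV1) (t' : Set K)
      (fun z hz => hVV1 (ht'V z hz).1)]
    have : {w | ∃ (z : K) (hz : z ∈ (t' : Set K)),
        residue V1 ⟨z, (fun z hz => hVV1 (ht'V z hz).1 : ∀ z ∈ (t' : Set K), z ∈ V1) z hz⟩ = w} =
        (t : Set (ResidueField V1)) := by
      ext w
      constructor
      · rintro ⟨z, hz, rfl⟩
        obtain ⟨w, hw, rfl⟩ := Finset.mem_image.1 (Finset.mem_coe.1 hz)
        rw [hζres w hw]; exact hw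
      · intro hw
        exact ⟨ζ w, Finset.mem_coe.2 (Finset.mem_image_of_mem _ hw), hζres w hw⟩
    rw [this]
    exact htreg

section

variable (Rb : Type) [CommRing Rb] [IsNoetherianRing Rb]
  (hRb : ∀ (R : Type) [CommRing R] [IsDomain R] [IsLocalRing R] [IsNoetherianRing R]
    (f : Rb →+* R), EFT f → GFR R)
  (hlu : ∀ (R : Type) [CommRing R] [IsDomain R] [IsNoetherianRing R] [IsLocalRing R]
      (_ : GFR R) (V : ValuationSubring (FractionRing R)) [IsDiscreteValuationRing V]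
      (_ : ∀ r : R, algebraMap R (FractionRing R) r ∈ V)
      (_ : ∀ r : R, r ∈ maximalIdeal R ↔ V.valuation (algebraMap R (FractionRing R) r) < 1),
      LU V (algebraMap R (FractionRing R)).range)

theorem LUF_top' {K : Type} [Field K] (V : ValuationSubring K) (hV : V = ⊤) (A : Subring K)
    (hA : A ≤ V.toSubring) (hloc : locV V A = A) : LUF V A := by
  have : IsLocalRing A := by
    have h1 := isLocalRing_locV V hA
    rwa [hloc] at h1
  have := LUF_top V hV A A.subtype Subtype.val_injective (fun a => by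
    have h1 := isUnit_locV_iff V hA
    rw [hloc] at h1
    exact (h1 a).symm)
  rwa [Subring.range_subtype] at this

include hRb hlu in
theorem LUF_rank_one {K : Type} [Field K] (V1 : ValuationSubring K)
    [IsDiscreteValuationRing V1] (A : Subring K) (hAV1 : A ≤ V1.toSubring)
    (f : Rb →+* A) (hf : EFT f) : LUF V1 (locV V1 A) := by
  have hAn : IsNoetherianRing A := hf.isNoetherianRing
  have iL1 : IsLocalRing (locV V1 A) := isLocalRing_locV V1 hAV1
  have iN1 : IsNoetherianRing (locV V1 A) := isNoetherianRing_locV V1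
  have hG : GFR (locV V1 A) := hRb _ ((Subring.inclusion (le_locV V1 A)).comp f)
    (EFT_locV' V1 A f hf _ (fun a => rfl))
  have := LUF_dvr hlu V1 (locV V1 A) hG (locV V1 A).subtype Subtype.val_injective
    (fun r => locV_le V1 hAV1 r.2) (fun r => (isUnit_locV_iff V1 hAV1 r).symm)
  rwa [Subring.range_subtype] at this

include hRb hlu in
theorem LUF_discRank : ∀ (r : ℕ) (K : Type) [Field K] (V : ValuationSubring K)
    (_ : DiscRank r K V) (A : Subring K) (_ : A ≤ V.toSubring) (_ : locV V A = A)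
    (f : Rb →+* A) (_ : EFT f), LUF V A := by
  intro r
  induction r with
  | zero =>
    intro K _ V hV A hA hloc f hf
    exact LUF_top' V hV A hA hloc
  | succ r ih =>
    intro K _ V hV A hA hloc f hf
    rcases hV with hV | ⟨V1, hVV1, hdvr, hV2⟩
    · exact LUF_top' V hV A hA hloc
    obtain ⟨s, hs, hsreg⟩ := LUF_rank_one Rb hRb hlu V1 A (hA.trans hVV1) f hf
    rw [locV_closure_locV le_rfl] at hsreg
    obtain ⟨s', hs'V, hs'reg⟩ := exists_replace hVV1 A s hs
    rw [← hs'reg] at hsreg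
    have hcl1 : Subring.closure ((A : Set K) ∪ (s' : Set K)) ≤ V.toSubring := by
      rw [Subring.closure_le]
      rintro z (hz | hz)
      · exact hA hz
      · exact (hs'V z hz).1
    refine LUF_trans V A s' hs'V ?_
    have hA1V : locV V (Subring.closure ((A : Set K) ∪ (s' : Set K))) ≤ V.toSubring :=
      locV_le V hcl1
    have hAA1 : A ≤ locV V (Subring.closure ((A : Set K) ∪ (s' : Set K))) :=
      fun a ha => le_locV V _ (Subring.subset_closure (Or.inl ha))
    have hf1 : EFT ((Subring.inclusion hAA1).comp f) :=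
      EFT_locV V A f hf s' (Subring.inclusion hAA1) (fun a => rfl)
    have hA1n := hf1.isNoetherianRing
    refine LUF_of_im hVV1 _ hA1V (by rw [locV_locV_le hVV1]; exact hsreg) ?_
    refine ih (ResidueField V1) (resV V V1 hVV1) hV2 _ ?_ ?_
      ((toIm V1 _ (hA1V.trans hVV1)).comp ((Subring.inclusion hAA1).comp f))
      (EFT_comp_surjective _ _ hf1 (toIm_surjective V1 _ _))
    · rintro _ ⟨⟨u, hu⟩, hu', rfl⟩
      exact ⟨⟨u, hA1V hu'⟩, rfl⟩
    · rw [← im_locV hVV1 _ hA1V, locV_locV_le le_rfl]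

end

end Pool.Agent.Lib.MP_3029eb_ag
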