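import Pool.Agent.Lib.MP_3029eb_ag.H44Final
import Pool.Agent.Lib.MP_3029eb_ag.H44Comp
import Pool.Agent.Lib.MP_3029eb_ag.Comp6

open IsLocalRing
open scoped TensorProduct

namespace Pool.Agent.Lib.MP_3029eb_ag

theorem LU_of_LUF {K : Type} [Field K] {V : ValuationSubring K} {A : Subring K}
    (h : LUF V A) : LU V A := by
  obtain ⟨s, hs, hreg⟩ := h
  exact ⟨s, fun z hz => (hs z hz).1, hreg⟩

/-- Local uniformization for valuations composed of discrete rank-one valuations. -/
theorem lu_discRank (R : Type) [CommRing R] [IsDomain R] [IsNoetherianRing R] [IsLocalRing R]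
    (K : Type) [Field K] [Algebra R K] (hinj : Function.Injective (algebraMap R K))
    (H : ∀ (B : Type) [CommRing B] [IsDomain B] [IsNoetherianRing B] [IsLocalRing B] [Algebra R B]
      [Algebra.EssFiniteType R B], GFR B)
    (r : ℕ) (V : ValuationSubring K) (hV : DiscRank r K V)
    (hRV : ∀ r : R, algebraMap R K r ∈ V)
    (hRm : ∀ r : R, r ∈ maximalIdeal R ↔ V.valuation (algebraMap R K r) < 1) :
    LU V (algebraMap R K).range := by
  have hRb : ∀ (B : Type) [CommRing B] [IsDomain B] [IsLocalRing B] [IsNoetherianRing B]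
      (f : R →+* B), EFT f → GFR B := by
    intro B _ _ _ _ f hf
    let := f.toAlgebra
    have : Algebra.EssFiniteType R B := hf
    exact H B
  have hlu : ∀ (R : Type) [CommRing R] [IsDomain R] [IsNoetherianRing R] [IsLocalRing R]
      (_ : GFR R) (V : ValuationSubring (FractionRing R)) [IsDiscreteValuationRing V]
      (_ : ∀ r : R, algebraMap R (FractionRing R) r ∈ V)
      (_ : ∀ r : R, r ∈ maximalIdeal R ↔ V.valuation (algebraMap R (FractionRing R) r) < 1),
      LU V (algebraMap R (FractionRing R)).range := by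
    intro R _ _ _ _ hG V _ h1 h2
    exact lu_discrete_gfr R (FractionRing R) hG V h1 h2
  have hle : (algebraMap R K).range ≤ V.toSubring := by
    rintro _ ⟨r, rfl⟩; exact hRV r
  refine LU_of_LUF (LUF_discRank R hRb hlu r K V hV (algebraMap R K).range hle ?_
    (algebraMap R K).rangeRestrict ?_)
  · apply le_antisymm
    · rintro z ⟨a, ⟨a', rfl⟩, b, ⟨b', rfl⟩, hb1, hz⟩
      have hu : IsUnit b' := by
        by_contra hcon
        have := (hRm b').1 ((mem_maximalIdeal _).2 hcon)
        exact this.ne hb1
      obtain ⟨u, rfl⟩ := hu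
      refine ⟨a' * ((u⁻¹ : Rˣ) : R), ?_⟩
      rw [map_mul, ← hz, mul_assoc, ← map_mul, Units.mul_inv, map_one, mul_one]
    · exact le_locV V _
  · have h1 : EFT (RingHom.id R) := by
      have : Algebra.EssFiniteType R R := inferInstance
      exact this
    exact EFT_comp_surjective (RingHom.id R) (algebraMap R K).rangeRestrict h1
      (RingHom.rangeRestrict_surjective (algebraMap R K))

end Pool.Agent.Lib.MP_3029eb_ag
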