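import Pool.Agent.Lib.MP_3029eb_ag.AbhAll
import Pool.Agent.Lib.MP_3029eb_ag.H44Lex

open IsLocalRing

namespace Pool.Agent.Lib.MP_3029eb_ag.Abh

open Classical in
/-- Local uniformization at Abhyankar valuations, in terms of a ring `R` with a homomorphism to the
field. -/
theorem lu_abhyankar (R : Type) [CommRing R] [IsDomain R] [IsNoetherianRing R] [IsLocalRing R]
    (K : Type) [Field K] [Algebra R K] [IsFractionRing R K]
    (H : ∀ (B : Type) [CommRing B] [IsDomain B] [IsNoetherianRing B] [IsLocalRing B] [Algebra R B]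
      [Algebra.EssFiniteType R B], GFR B)
    (V : ValuationSubring K) (hRV : ∀ a : R, algebraMap R K a ∈ V)
    (hRm : ∀ a : R, a ∈ maximalIdeal R ↔ V.valuation (algebraMap R K a) < 1)
    (r s : ℕ) (x : Fin r → K) (y : Fin s → K) (hx0 : ∀ i, x i ≠ 0)
    (hx : ∀ m : Fin r → ℤ, V.valuation (∏ i, x i ^ m i) = 1 → m = 0)
    (hyV : ∀ j, y j ∈ V)
    (hy : ∀ p : MvPolynomial (Fin s) R, V.valuation (MvPolynomial.aeval y p) < 1 →
      ∀ m, MvPolynomial.coeff m p ∈ maximalIdeal R)
    (hdim : ringKrullDim R ≤ r + s) : LU V (algebraMap R K).range := by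
  have hRb : ∀ (B : Type) [CommRing B] [IsDomain B] [IsLocalRing B] [IsNoetherianRing B]
      (f : R →+* B), EFT f → GFR B := by
    intro B _ _ _ _ f hf
    let := f.toAlgebra
    have : Algebra.EssFiniteType R B := hf
    exact H B
  have hinj : Function.Injective (algebraMap R K) := IsFractionRing.injective R K
  have hsurj : Function.Surjective (algebraMap R K).rangeRestrict :=
    (algebraMap R K).rangeRestrict_surjective
  have hle : (algebraMap R K).range ≤ V.toSubring := by
    rintro _ ⟨r, rfl⟩; exact hRV r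
  have hloc : locV V (algebraMap R K).range = (algebraMap R K).range := by
    apply le_antisymm
    · rintro z ⟨a, ⟨a', rfl⟩, b, ⟨b', rfl⟩, hb1, hz⟩
      have hu : IsUnit b' := by
        by_contra hcon
        have := (hRm b').1 ((mem_maximalIdeal _).2 hcon)
        exact this.ne hb1
      obtain ⟨u, rfl⟩ := hu
      refine ⟨a' * ((u⁻¹ : Rˣ) : R), ?_⟩
      rw [map_mul, ← hz, mul_assoc, ← map_mul, Units.mul_inv, map_one, mul_one]
    · exact le_locV V _
  have hid : EFT (RingHom.id R) := by
    have : Algebra.EssFiniteType R R := inferInstance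
    exact this
  have hf : EFT ((algebraMap R K).rangeRestrict.comp (RingHom.id R)) :=
    EFT_comp_surjective (RingHom.id R) (algebraMap R K).rangeRestrict hid hsurj
  have nA : IsNoetherianRing (algebraMap R K).range :=
    isNoetherianRing_of_surjective _ _ _ hsurj
  have hfrac : ∀ z : K, ∃ a ∈ (algebraMap R K).range, ∃ b ∈ (algebraMap R K).range,
      b ≠ 0 ∧ z * b = a := by
    intro z
    obtain ⟨⟨a, b⟩, hab⟩ := IsLocalization.surj (nonZeroDivisors R) z
    refine ⟨_, ⟨a, rfl⟩, _, ⟨b, rfl⟩, ?_, hab⟩
    intro h0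
    exact nonZeroDivisors.ne_zero b.2 (hinj (by rw [h0, map_zero]))
  have hres : ResIndep V (algebraMap R K).range y := by
    intro p hp m
    obtain ⟨p', rfl⟩ := MvPolynomial.map_surjective _ hsurj p
    have h1 : MvPolynomial.eval₂ (algebraMap R K).range.subtype y
        (MvPolynomial.map (algebraMap R K).rangeRestrict p') = MvPolynomial.aeval y p' := by
      rw [MvPolynomial.eval₂_map, MvPolynomial.aeval_def]
      rfl
    rw [h1] at hp
    rw [MvPolynomial.coeff_map]
    exact (hRm _).1 (hy p' hp m)
  have hdimA : ringKrullDim (algebraMap R K).range = ringKrullDim R :=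
    (ringKrullDim_eq_of_ringEquiv (RingEquiv.ofBijective (algebraMap R K).rangeRestrict
      ⟨fun a b h => hinj (congrArg Subtype.val h), hsurj⟩)).symm
  have hdrop := krullDim_resIndep V (algebraMap R K).range hle hloc y
    (fun i => ⟨hyV i, hfrac _⟩) hres
  have hset : (Set.range y) = ((Finset.univ.image y : Finset K) : Set K) := by
    rw [Finset.coe_image, Finset.coe_univ, Set.image_univ]
  rw [hset] at hdrop
  have hg : ∀ t ∈ Finset.univ.image y, t ∈ V ∧ ∃ a ∈ (algebraMap R K).range,
      ∃ b ∈ (algebraMap R K).range, b ≠ 0 ∧ t * b = a := by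
    intro t ht
    obtain ⟨i, -, rfl⟩ := Finset.mem_image.1 ht
    exact ⟨hyV i, hfrac _⟩
  refine LU_of_LUF (LUF_trans V _ (Finset.univ.image y) hg ?_)
  have hcl : Subring.closure (((algebraMap R K).range : Set K) ∪
      ((Finset.univ.image y : Finset K) : Set K)) ≤ V.toSubring :=
    closure_le_val V _ hle _ fun t ht => (hg t ht).1
  have hAA' : (algebraMap R K).range ≤ locV V (Subring.closure (((algebraMap R K).range : Set K) ∪
      ((Finset.univ.image y : Finset K) : Set K))) :=
    fun a ha => le_locV _ _ (Subring.subset_closure (Or.inl ha))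
  have n1 : IsNoetherianRing (Subring.closure (((algebraMap R K).range : Set K) ∪
      ((Finset.univ.image y : Finset K) : Set K))) := isNoetherianRing_closure _
  have n2 : IsNoetherianRing (locV V (Subring.closure (((algebraMap R K).range : Set K) ∪
      ((Finset.univ.image y : Finset K) : Set K)))) := isNoetherianRing_locV _
  refine lufAt R hRb r K V _ (locV_le _ hcl) (locV_locV _ _) _
    (EFT_locV V _ _ hf _ (Subring.inclusion hAA') (fun a => rfl)) x ⟨hx0, hx⟩ (fun i => ?_) ?_
  · obtain ⟨a, ha, b, hb, hb0, h⟩ := hfrac (x i)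
    exact ⟨a, hAA' ha, b, hAA' hb, hb0, h⟩
  · obtain ⟨n, hn⟩ := exists_nat_dim V (locV V (Subring.closure
      (((algebraMap R K).range : Set K) ∪ ((Finset.univ.image y : Finset K) : Set K))))
      (locV_le _ hcl) (locV_locV _ _)
    rw [hn, hdimA] at hdrop
    have h1 := hdrop.trans hdim
    rw [hn]
    have h2 : n + s ≤ r + s := by exact_mod_cast h1
    have h3 : n ≤ r := by omega
    exact_mod_cast h3

end Pool.Agent.Lib.MP_3029eb_ag.Abh
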