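import Pool.Agent.Lib.MP_3029eb_ag.H44Defs

/-!
Lifting homomorphisms to the completion, for a target complete with respect to an arbitrary ideal
containing the image of the maximal ideal (adapted from module HA).
-/

open IsLocalRing

namespace Pool.Agent.Lib.MP_3029eb_ag

theorem exists_lift_completion' (R : Type) [CommRing R] [IsLocalRing R] [IsNoetherianRing R]
    (W : Type) [CommRing W] [IsLocalRing W] (J : Ideal W) [IsAdicComplete J W]
    (hJ : J ≤ maximalIdeal W) (θ : R →+* W) (hle : maximalIdeal R ≤ J.comap θ) :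
    ∃ φ : AdicCompletion (maximalIdeal R) R →+* W, IsLocalHom φ ∧
      φ.comp (algebraMap R (AdicCompletion (maximalIdeal R) R)) = θ := by
  have key : ∀ k : ℕ, maximalIdeal R ^ k ≤ (J ^ k).comap θ := fun k =>
    (Ideal.pow_right_mono hle k).trans (Ideal.le_comap_pow _ k)
  let f : (k : ℕ) → AdicCompletion (maximalIdeal R) R →+* W ⧸ J ^ k := fun k =>
    (Ideal.quotientMap (J ^ k) θ (key k)).comp
      (AdicCompletion.evalₐ (maximalIdeal R) k : AdicCompletion (maximalIdeal R) R →+* _)
  have hf : ∀ {a b : ℕ} (hab : a ≤ b),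
      (Ideal.Quotient.factorPow J hab).comp (f b) = f a := by
    intro a b hab
    ext t
    obtain ⟨x, rfl⟩ := AdicCompletion.mk_surjective (maximalIdeal R) R t
    have h1 : x.val a - x.val b ∈ maximalIdeal R ^ a := by
      have := x.2 hab
      rw [SModEq.sub_mem] at this
      simpa using this
    simp only [f, RingHom.comp_apply, RingHom.coe_coe, AdicCompletion.evalₐ_mk,
      Ideal.quotientMap_mk]
    refine (Ideal.Quotient.mk_eq_mk_iff_sub_mem _ _).2 ?_
    rw [← map_sub, ← neg_sub, map_neg]
    exact neg_mem (key a h1)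
  set φ := IsAdicComplete.liftRingHom J f hf with hφ
  have hφk : ∀ k t, Ideal.Quotient.mk (J ^ k) (φ t) = f k t := fun k t =>
    IsAdicComplete.mk_liftRingHom J f hf k t
  have hcomp : ∀ r, φ (algebraMap R (AdicCompletion (maximalIdeal R) R) r) = θ r := by
    intro r
    refine IsHausdorff.eq_iff_smodEq (I := J) |>.2 fun k => ?_
    rw [SModEq.sub_mem]
    have h3 : Ideal.Quotient.mk (J ^ k)
        (φ (algebraMap R (AdicCompletion (maximalIdeal R) R) r)) =
        Ideal.Quotient.mk (J ^ k) (θ r) := by
      rw [hφk]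
      have h4 : AdicCompletion.evalₐ (maximalIdeal R) k
          (algebraMap R (AdicCompletion (maximalIdeal R) R) r) = Ideal.Quotient.mk _ r := by
        exact (AdicCompletion.evalₐ (maximalIdeal R) k).commutes r
      simp only [f, RingHom.comp_apply, RingHom.coe_coe, h4, Ideal.quotientMap_mk]
    rw [Ideal.Quotient.mk_eq_mk_iff_sub_mem] at h3
    simpa using h3
  refine ⟨φ, ?_, RingHom.ext hcomp⟩
  refine ((IsLocalRing.local_hom_TFAE φ).out 0 2).2 ?_
  rw [AdicCompletion.maximalIdeal_eq_map, Ideal.map_map, Ideal.map_le_iff_le_comap]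
  intro r hr
  rw [Ideal.mem_comap, RingHom.comp_apply, hcomp]
  exact hJ (hle hr)

end Pool.Agent.Lib.MP_3029eb_ag
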