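import Pool.Agent.Lib.MP_3029eb_ag.H44Defs

/-!
Module K2: the relation `SameCompletion` is preserved by quadratic transforms.
-/

open IsLocalRing

namespace Pool.Agent.Lib.MP_3029eb_ag

theorem SameCompletion.approxN {R T : Type} [CommRing R] [CommRing T] [IsLocalRing R]
    [IsLocalRing T] {ι : R →+* T} (hι : SameCompletion ι) (N n : ℕ) {t : T}
    (ht : t ∈ maximalIdeal T ^ N) :
    ∃ r ∈ maximalIdeal R ^ N, t - ι r ∈ maximalIdeal T ^ (N + n) := by
  induction n with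
  | zero => exact ⟨0, zero_mem _, by simpa using ht⟩
  | succ n ih =>
    obtain ⟨r, hr, hr'⟩ := ih
    obtain ⟨r1, hr1, hr1'⟩ := hι.approx (N + n) _ hr'
    refine ⟨r + r1, Ideal.add_mem _ hr (Ideal.pow_le_pow_right (Nat.le_add_right N n) hr1), ?_⟩
    have e : t - ι (r + r1) = t - ι r - ι r1 := by rw [map_add]; ring
    rw [e]
    exact hr1'

section K2

variable {R T W : Type} [CommRing R] [CommRing T] [IsLocalRing R] [IsLocalRing T]
    [CommRing W] [IsDomain W] [IsLocalRing W] {φR : R →+* W} {φT : T →+* W} {ι : R →+* T}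

theorem QTData.phi_x_mem {φ : R →+* W} {x : R} (h : QTData φ x) : φ x ∈ maximalIdeal W := by
  rw [mem_maximalIdeal, mem_nonunits_iff]
  intro h1
  have := h.local_hom
  have h2 : IsUnit x := isUnit_of_map_unit φ x h1
  exact (mem_maximalIdeal x).1 h.x_mem h2

theorem sig_approx (hφ : φT.comp ι = φR) {x : R} (hT : QTData φT (ι x)) {N k : ℕ} {s : T} {s' : R}
    (hs' : Associated (φT s) (φT (ι x) ^ N)) (hd : s - ι s' ∈ maximalIdeal T ^ (N + (k + 1))) :
    Associated (φR s') (φR x ^ N) := by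
  obtain ⟨c, hc⟩ := hT.dvd_pow _ hd
  obtain ⟨u, hu⟩ := hs'.symm
  have e1 : φR s' = φT (ι x) ^ N * (↑u - φT (ι x) ^ (k + 1) * c) := by
    have : φR s' = φT s - φT (s - ι s') := by
      rw [map_sub, ← hφ]; simp
    rw [this, hc, ← hu, pow_add]; ring
  have hx : φR x = φT (ι x) := by rw [← hφ]; rfl
  have hunit : IsUnit ((u : W) - φT (ι x) ^ (k + 1) * c) := by
    by_contra hn
    have h1 : (u : W) - φT (ι x) ^ (k + 1) * c ∈ maximalIdeal W := (mem_maximalIdeal _).2 hn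
    have h2 : φT (ι x) ^ (k + 1) * c ∈ maximalIdeal W := by
      refine Ideal.mul_mem_right _ _ ?_
      rw [pow_succ]
      exact Ideal.mul_mem_left _ _ hT.phi_x_mem
    have h3 := Ideal.add_mem _ h1 h2
    rw [sub_add_cancel] at h3
    exact (mem_maximalIdeal _).1 h3 u.isUnit
  rw [e1, hx]
  obtain ⟨v, hv⟩ := hunit
  rw [← hv]
  exact (associated_mul_unit_left _ _ v.isUnit)

theorem QT_approx (hι : SameCompletion ι) (hφ : φT.comp ι = φR) {x : R}
    (hT : QTData φT (ι x)) (k : ℕ) (z : QT φT (ι x)) :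
    ∃ (r : QT φR x) (w : QT φT (ι x)),
      z = QT.map (y := ι x) ι hι.map_mem hφ rfl r + QT.of φT (ι x) (ι x) ^ k * w := by
  obtain ⟨N, b, s, hb, hs, hs', rfl⟩ := z.exists_rep
  obtain ⟨b1, hb1, hb1'⟩ := hι.approxN N (k + 1) hb
  obtain ⟨s1, hs1, hs1'⟩ := hι.approxN N (k + 1) hs
  have hsA : Associated (φR s1) (φR x ^ N) := sig_approx hφ hT hs' hs1'
  have hsA' : Associated (φT (ι s1)) (φT (ι x) ^ N) := by
    subst hφ; exact hsA
  have hnum : b * ι s1 - s * ι b1 ∈ maximalIdeal T ^ (N + N + k) := by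
    have e : b * ι s1 - s * ι b1 = (b - ι b1) * ι s1 - (s - ι s1) * ι b1 := by ring
    rw [e]
    refine Ideal.sub_mem _ ?_ ?_
    · have h1 := Ideal.mul_mem_mul hb1' (pow_map hι.map_mem hs1)
      rw [← pow_add] at h1
      exact Ideal.pow_le_pow_right (by omega) h1
    · have h1 := Ideal.mul_mem_mul hs1' (pow_map hι.map_mem hb1)
      rw [← pow_add] at h1
      exact Ideal.pow_le_pow_right (by omega) h1
  have hden : s * ι s1 * (ι x) ^ k ∈ maximalIdeal T ^ (N + N + k) := by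
    rw [pow_add, pow_add]
    exact Ideal.mul_mem_mul (Ideal.mul_mem_mul hs (pow_map hι.map_mem hs1))
      (Ideal.pow_mem_pow hT.x_mem k)
  have hdenA : Associated (φT (s * ι s1 * (ι x) ^ k)) (φT (ι x) ^ (N + N + k)) := by
    rw [map_mul, map_mul, map_pow, pow_add, pow_add]
    exact (hs'.mul_mul hsA').mul_mul (Associated.refl _)
  refine ⟨QT.mk φR x N b1 s1 hb1 hs1 hsA,
    QT.mk φT (ι x) (N + N + k) (b * ι s1 - s * ι b1) (s * ι s1 * (ι x) ^ k) hnum hden hdenA, ?_⟩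
  refine QT.of_mul_cancel (s := s * ι s1) (mul_mem ⟨N, hs, hs'⟩
    ⟨N, pow_map hι.map_mem hs1, hsA'⟩) ?_
  rw [QT.map_mk ι hι.map_mem hφ rfl hb1 hs1 hsA hsA']
  have e1 := QT.of_mul_mk φT (ι x) N b s hb hs hs'
  have e2 := QT.of_mul_mk φT (ι x) N (ι b1) (ι s1) (pow_map hι.map_mem hb1)
    (pow_map hι.map_mem hs1) hsA'
  have e3 := QT.of_mul_mk φT (ι x) (N + N + k) (b * ι s1 - s * ι b1) (s * ι s1 * (ι x) ^ k)
    hnum hden hdenA
  rw [mul_add]
  have e4 : QT.of φT (ι x) (s * ι s1) * QT.mk φT (ι x) N b s hb hs hs' =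
      QT.of φT (ι x) (ι s1) * QT.of φT (ι x) b := by
    rw [← e1, map_mul]; ring
  have e5 : QT.of φT (ι x) (s * ι s1) * QT.mk φT (ι x) N (ι b1) (ι s1)
      (pow_map hι.map_mem hb1) (pow_map hι.map_mem hs1) hsA' =
      QT.of φT (ι x) s * QT.of φT (ι x) (ι b1) := by
    rw [← e2, map_mul]; ring
  have e6 : QT.of φT (ι x) (s * ι s1) * (QT.of φT (ι x) (ι x) ^ k *
      QT.mk φT (ι x) (N + N + k) (b * ι s1 - s * ι b1) (s * ι s1 * (ι x) ^ k)
        hnum hden hdenA) = QT.of φT (ι x) (b * ι s1 - s * ι b1) := by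
    rw [← e3, map_mul _ (s * ι s1) ((ι x) ^ k), map_pow]; ring
  rw [e4, e5, e6, map_sub, map_mul, map_mul]
  ring

theorem QT_contract (hι : SameCompletion ι) (hφ : φT.comp ι = φR) {x : R} (hR : QTData φR x)
    (hT : QTData φT (ι x)) (k : ℕ) (r : QT φR x) (w : QT φT (ι x))
    (hw : QT.map (y := ι x) ι hι.map_mem hφ rfl r = QT.of φT (ι x) (ι x) ^ k * w) :
    ∃ r' : QT φR x, r = QT.of φR x x ^ k * r' := by
  obtain ⟨N, b, s, hb, hs, hs', rfl⟩ := r.exists_rep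
  obtain ⟨N', c, t, hc, ht, ht', rfl⟩ := w.exists_rep
  have h1 : QT.of φT (ι x) (t * ι b) = QT.of φT (ι x) (ι s * (ι x) ^ k * c) := by
    have e1 : QT.of φT (ι x) (ι b) = QT.of φT (ι x) (ι s) *
        QT.map (y := ι x) ι hι.map_mem hφ rfl (QT.mk φR x N b s hb hs hs') := by
      rw [← QT.map_of ι hι.map_mem hφ rfl, ← QT.map_of ι hι.map_mem hφ rfl, ← map_mul,
        QT.of_mul_mk]
    have e2 := QT.of_mul_mk φT (ι x) N' c t hc ht ht'
    rw [map_mul, e1, hw, map_mul, map_mul, map_pow, ← e2]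
    ring
  rw [QT.of_eq_of_iff] at h1
  obtain ⟨σ, ⟨N'', hσ, hσ'⟩, h2⟩ := h1
  have hτ : σ * t ∈ maximalIdeal T ^ (N'' + N') := by
    rw [pow_add]; exact Ideal.mul_mem_mul hσ ht
  have hτA : Associated (φT (σ * t)) (φT (ι x) ^ (N'' + N')) := by
    rw [map_mul, pow_add]; exact hσ'.mul_mul ht'
  obtain ⟨τ, hτ1, hτ1'⟩ := hι.approxN (N'' + N') (k + 1) hτ
  have hτ2 : Associated (φR τ) (φR x ^ (N'' + N')) := sig_approx hφ hT hτA hτ1'
  have h3 : ι (τ * b) ∈ maximalIdeal T ^ (N'' + N' + N + k) := by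
    have e : ι (τ * b) = σ * (ι s * (ι x) ^ k * c) - (σ * t - ι τ) * ι b := by
      rw [← h2, map_mul]; ring
    rw [e]
    refine Ideal.sub_mem _ ?_ ?_
    · have h4 := Ideal.mul_mem_mul hσ (Ideal.mul_mem_mul (Ideal.mul_mem_mul
        (pow_map hι.map_mem hs) (Ideal.pow_mem_pow hT.x_mem k)) hc)
      rw [← pow_add, ← pow_add, ← pow_add] at h4
      exact Ideal.pow_le_pow_right (by omega) h4
    · have h4 := Ideal.mul_mem_mul hτ1' (pow_map hι.map_mem hb)
      rw [← pow_add] at h4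
      exact Ideal.pow_le_pow_right (by omega) h4
  have h5 : τ * b ∈ maximalIdeal R ^ (N'' + N' + N + k) := hι.comap_pow _ _ h3
  have hden : τ * s * x ^ k ∈ maximalIdeal R ^ (N'' + N' + N + k) := by
    rw [pow_add _ (N'' + N' + N) k, pow_add _ (N'' + N') N]
    exact Ideal.mul_mem_mul (Ideal.mul_mem_mul hτ1 hs) (Ideal.pow_mem_pow hR.x_mem k)
  have hdenA : Associated (φR (τ * s * x ^ k)) (φR x ^ (N'' + N' + N + k)) := by
    rw [map_mul, map_mul, map_pow, pow_add _ (N'' + N' + N) k, pow_add _ (N'' + N') N]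
    exact (hτ2.mul_mul hs').mul_mul (Associated.refl _)
  refine ⟨QT.mk φR x (N'' + N' + N + k) (τ * b) (τ * s * x ^ k) h5 hden hdenA, ?_⟩
  refine QT.of_mul_cancel (s := τ * s) (mul_mem ⟨_, hτ1, hτ2⟩ ⟨_, hs, hs'⟩) ?_
  have e1 := QT.of_mul_mk φR x N b s hb hs hs'
  have e2 := QT.of_mul_mk φR x (N'' + N' + N + k) (τ * b) (τ * s * x ^ k) h5 hden hdenA
  have e3 : QT.of φR x (τ * s) * QT.mk φR x N b s hb hs hs' = QT.of φR x (τ * b) := by
    rw [map_mul, map_mul, ← e1]; ring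
  have e4 : QT.of φR x (τ * s) * (QT.of φR x x ^ k *
      QT.mk φR x (N'' + N' + N + k) (τ * b) (τ * s * x ^ k) h5 hden hdenA) =
      QT.of φR x (τ * b) := by
    rw [← e2, map_mul _ (τ * s) (x ^ k), map_pow]; ring
  rw [e3, e4]

end K2

theorem QT_sameCompletion {R T W : Type} [CommRing R] [CommRing T] [IsLocalRing R] [IsLocalRing T]
    [CommRing W] [IsDomain W] [IsLocalRing W] {φR : R →+* W} {φT : T →+* W} {ι : R →+* T}
    (hι : SameCompletion ι) (hφ : φT.comp ι = φR) {x : R} (hR : QTData φR x)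
    (hT : QTData φT (ι x)) :
    haveI := hR.isLocalRing
    haveI := hT.isLocalRing
    SameCompletion (QT.map (y := ι x) ι hι.map_mem hφ rfl) := by
  have := hR.isLocalRing
  have := hT.isLocalRing
  set μ : QT φR x →+* QT φT (ι x) := QT.map (y := ι x) ι hι.map_mem hφ rfl with hμ
  have hunit : ∀ r : QT φR x, IsUnit (μ r) ↔ IsUnit r := by
    intro r
    rw [hT.isUnit_iff, hR.isUnit_iff, hμ, QT.toW_map ι hι.map_mem hφ rfl hR hT]
  have hmax : ∀ r : QT φR x, μ r ∈ maximalIdeal (QT φT (ι x)) ↔ r ∈ maximalIdeal (QT φR x) := by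
    intro r
    rw [mem_maximalIdeal, mem_maximalIdeal, mem_nonunits_iff, mem_nonunits_iff, hunit]
  have hX : QT.of φR x x ∈ maximalIdeal (QT φR x) := by
    rw [mem_maximalIdeal, mem_nonunits_iff, hR.isUnit_iff, hR.toW_of]
    exact (mem_maximalIdeal _).1 hR.phi_x_mem
  have hY : QT.of φT (ι x) (ι x) ∈ maximalIdeal (QT φT (ι x)) := by
    rw [mem_maximalIdeal, mem_nonunits_iff, hT.isUnit_iff, hT.toW_of]
    exact (mem_maximalIdeal _).1 hT.phi_x_mem
  have hXY : μ (QT.of φR x x) = QT.of φT (ι x) (ι x) := by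
    rw [hμ, QT.map_of]
  -- approximation of elements of the maximal ideal
  have key1 : ∀ (n : ℕ) (z : QT φT (ι x)), z ∈ maximalIdeal (QT φT (ι x)) →
      ∃ r ∈ maximalIdeal (QT φR x), ∃ w, z = μ r + QT.of φT (ι x) (ι x) ^ (n + 1) * w := by
    intro n z hz
    obtain ⟨r, w, hrw⟩ := QT_approx hι hφ hT (n + 1) z
    refine ⟨r, ?_, w, hrw⟩
    rw [← hmax]
    have e : μ r = z - QT.of φT (ι x) (ι x) ^ (n + 1) * w := by rw [hrw]; ring
    rw [e]
    refine Ideal.sub_mem _ hz (Ideal.mul_mem_right _ _ ?_)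
    rw [pow_succ]
    exact Ideal.mul_mem_left _ _ hY
  have key2 : ∀ (n k : ℕ) (z : QT φT (ι x)), z ∈ maximalIdeal (QT φT (ι x)) ^ k →
      ∃ r ∈ maximalIdeal (QT φR x) ^ k, ∃ w, z = μ r + QT.of φT (ι x) (ι x) ^ (n + 1) * w := by
    intro n k
    induction k with
    | zero =>
      intro z _
      obtain ⟨r, w, hrw⟩ := QT_approx hι hφ hT (n + 1) z
      exact ⟨r, by simp, w, hrw⟩
    | succ k ih =>
      intro z hz
      rw [pow_succ] at hz
      refine Submodule.mul_induction_on hz ?_ ?_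
      · intro a ha b hb
        obtain ⟨r1, hr1, w1, e1⟩ := ih a ha
        obtain ⟨r2, hr2, w2, e2⟩ := key1 n b hb
        refine ⟨r1 * r2, ?_, w1 * μ r2 + w2 * μ r1 +
          QT.of φT (ι x) (ι x) ^ (n + 1) * w1 * w2, ?_⟩
        · rw [pow_succ]; exact Ideal.mul_mem_mul hr1 hr2
        · rw [e1, e2, map_mul]; ring
      · intro a b ha hb
        obtain ⟨r1, hr1, w1, e1⟩ := ha
        obtain ⟨r2, hr2, w2, e2⟩ := hb
        refine ⟨r1 + r2, Ideal.add_mem _ hr1 hr2, w1 + w2, ?_⟩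
        rw [e1, e2, map_add]; ring
  refine ⟨fun r hr => (hmax r).2 hr, ?_, ?_⟩
  · intro k r hr
    obtain ⟨r1, hr1, w, e⟩ := key2 k k _ hr
    have e1 : μ (r - r1) = QT.of φT (ι x) (ι x) ^ (k + 1) * w := by
      rw [map_sub, e]; ring
    obtain ⟨r2, hr2⟩ := QT_contract hι hφ hR hT (k + 1) (r - r1) w e1
    have e2 : r = r1 + QT.of φR x x ^ (k + 1) * r2 := by rw [← hr2]; ring
    rw [e2]
    refine Ideal.add_mem _ hr1 (Ideal.mul_mem_right _ _ ?_)
    rw [pow_succ]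
    exact Ideal.mul_mem_right _ _ (Ideal.pow_mem_pow hX k)
  · intro k t ht
    obtain ⟨r, hr, w, e⟩ := key2 k k t ht
    refine ⟨r, hr, ?_⟩
    have e1 : t - μ r = QT.of φT (ι x) (ι x) ^ (k + 1) * w := by rw [e]; ring
    rw [e1]
    exact Ideal.mul_mem_right _ _ (Ideal.pow_mem_pow hY (k + 1))

end Pool.Agent.Lib.MP_3029eb_ag
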