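import Pool.Agent.Lib.MP_3029eb_ag.H44Defs

/-!
Module K2b: regularity descends along a homomorphism inducing isomorphisms on all quotients by
powers of the maximal ideals.
-/

open IsLocalRing

namespace Pool.Agent.Lib.MP_3029eb_ag

/-- the residual approximation for arbitrary elements -/
theorem SameCompletion.approx0 {R T : Type} [CommRing R] [CommRing T] [IsLocalRing R]
    [IsLocalRing T] {ι : R →+* T} (hι : SameCompletion ι) (t : T) :
    ∃ r : R, t - ι r ∈ maximalIdeal T := by
  obtain ⟨r, -, hr⟩ := hι.approx 0 t (by simp)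
  exact ⟨r, by simpa using hr⟩

theorem spanFinrank_le_of_sameCompletion {R T : Type} [CommRing R] [CommRing T] [IsLocalRing R]
    [IsNoetherianRing R] [IsLocalRing T] [IsNoetherianRing T] {ι : R →+* T}
    (hι : SameCompletion ι) :
    (maximalIdeal R).spanFinrank ≤ (maximalIdeal T).spanFinrank := by
  classical
  obtain ⟨s, hs, hspan⟩ := Submodule.FG.exists_span_finset_card_eq_spanFinrank
    (IsNoetherian.noetherian (maximalIdeal T))
  have hmem : ∀ t : s, ∃ r ∈ maximalIdeal R, (t : T) - ι r ∈ maximalIdeal T ^ 2 := by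
    intro t
    have ht : (t : T) ∈ maximalIdeal T ^ 1 := by
      rw [pow_one, ← hspan]
      exact Submodule.subset_span t.2
    obtain ⟨r, hr, hr'⟩ := hι.approx 1 t ht
    exact ⟨r, by simpa using hr, hr'⟩
  choose f hf hf' using hmem
  have key : maximalIdeal R ≤ Ideal.span (Set.range f) := by
    refine Submodule.le_of_le_smul_of_le_jacobson_bot (I := maximalIdeal R)
      (IsNoetherian.noetherian (maximalIdeal R)) (IsLocalRing.maximalIdeal_le_jacobson _) ?_
    intro r hr
    have h1 : ι r ∈ Submodule.span T (s : Set T) := by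
      rw [hspan]; exact hι.map_mem r hr
    rw [← Set.image_id (s : Set T)] at h1
    obtain ⟨c, hc⟩ := (Submodule.mem_span_image_finset_iff_exists_fun T).1 h1
    choose g hg using hι.approx0
    set w : R := ∑ t : s, g (c t) * f t with hw
    have hw1 : w ∈ Ideal.span (Set.range f) := by
      refine Ideal.sum_mem _ (fun t _ => Ideal.mul_mem_left _ _ (Ideal.subset_span ⟨t, rfl⟩))
    have h2 : ι (r - w) ∈ maximalIdeal T ^ 2 := by
      have e1 : ι r = ∑ t : s, c t * (t : T) := by
        rw [← hc]
        rfl
      rw [map_sub, e1, hw, map_sum, ← Finset.sum_sub_distrib]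
      refine Ideal.sum_mem _ (fun t _ => ?_)
      have e2 : c t * (t : T) - ι (g (c t) * f t) =
          (c t - ι (g (c t))) * (t : T) + ι (g (c t)) * ((t : T) - ι (f t)) := by
        rw [map_mul]; ring
      rw [e2]
      refine Ideal.add_mem _ ?_ (Ideal.mul_mem_left _ _ (hf' t))
      rw [pow_two]
      refine Ideal.mul_mem_mul (hg _) ?_
      rw [← hspan]
      exact Submodule.subset_span t.2
    have h3 := hι.comap_pow 2 _ h2
    have e3 : r = w + (r - w) := by ring
    rw [e3]
    refine Submodule.add_mem_sup hw1 ?_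
    rw [pow_two] at h3
    exact h3
  have key2 : maximalIdeal R = Ideal.span (Set.range f) := by
    refine le_antisymm key ?_
    rw [Ideal.span_le]
    rintro _ ⟨t, rfl⟩
    exact hf t
  rw [key2, ← hs]
  have h4 := Submodule.spanFinrank_span_le_ncard_of_finite (R := R) (Set.finite_range f)
  refine le_trans h4 ?_
  have h5 : (Set.range f).ncard ≤ Nat.card s := by
    have := Set.ncard_le_ncard (s := Set.range f) (t := f '' Set.univ) (by simp)
      (Set.toFinite _)
    refine le_trans this (le_trans (Set.ncard_image_le (Set.toFinite _)) ?_)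
    rw [Set.ncard_univ]
  refine le_trans h5 ?_
  simp

theorem ringKrullDim_le_of_sameCompletion {R T : Type} [CommRing R] [CommRing T] [IsLocalRing R]
    [IsNoetherianRing R] [IsLocalRing T] [IsNoetherianRing T] {ι : R →+* T}
    (hι : SameCompletion ι) : ringKrullDim T ≤ ringKrullDim R := by
  classical
  rw [← maximalIdeal_height_eq_ringKrullDim, ← maximalIdeal_height_eq_ringKrullDim]
  obtain ⟨s, hs, hcard⟩ := Ideal.exists_finset_card_eq_height_of_isNoetherianRing (maximalIdeal R)
  rw [← hcard]
  have hrad : maximalIdeal R ≤ (Ideal.span (s : Set R)).radical := by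
    rw [Ideal.radical_eq_sInf]
    refine le_sInf ?_
    rintro J ⟨hJ1, hJ2⟩
    exact hs.2 ⟨hJ2, hJ1⟩ (IsLocalRing.le_maximalIdeal hJ2.ne_top)
  obtain ⟨k, hk⟩ := Ideal.exists_pow_le_of_le_radical_of_fg hrad
    (IsNoetherian.noetherian (maximalIdeal R))
  have h1 : maximalIdeal T ^ k ≤ Ideal.span ((s.image ι : Finset T) : Set T) := by
    refine Submodule.le_of_le_smul_of_le_jacobson_bot (I := maximalIdeal T)
      (IsNoetherian.noetherian _) (IsLocalRing.maximalIdeal_le_jacobson _) ?_
    intro t ht
    obtain ⟨r, hr, hr'⟩ := hι.approx k t ht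
    have e : t = ι r + (t - ι r) := by ring
    rw [e]
    refine Submodule.add_mem_sup ?_ ?_
    · have h2 := Ideal.mem_map_of_mem ι (hk hr)
      rw [Ideal.map_span] at h2
      rw [Finset.coe_image]
      exact h2
    · rw [smul_eq_mul, ← pow_succ']
      exact hr'
  have h3 : maximalIdeal T ∈ (Ideal.span ((s.image ι : Finset T) : Set T)).minimalPrimes := by
    refine ⟨⟨inferInstance, ?_⟩, ?_⟩
    · rw [Ideal.span_le]
      intro t ht
      rw [Finset.coe_image] at ht
      obtain ⟨r, hr, rfl⟩ := ht
      exact hι.map_mem r (hs.1.2 (Ideal.subset_span hr))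
    · rintro J ⟨hJ1, hJ2⟩ _
      exact hJ1.le_of_pow_le (h1.trans hJ2)
  refine WithBot.coe_le_coe.2 ?_
  refine le_trans (Ideal.height_le_card_of_mem_minimalPrimes_span_finset h3) ?_
  exact_mod_cast Finset.card_image_le

/-- regularity descends -/
theorem regular_of_sameCompletion {R T : Type} [CommRing R] [CommRing T] [IsLocalRing R]
    [IsNoetherianRing R] [IsRegularLocalRing T] {ι : R →+* T} (hι : SameCompletion ι) :
    IsRegularLocalRing R := by
  refine IsRegularLocalRing.of_spanFinrank_maximalIdeal_le R ?_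
  have h1 := spanFinrank_le_of_sameCompletion hι
  have h2 := ringKrullDim_le_of_sameCompletion hι
  rw [← IsRegularLocalRing.spanFinrank_maximalIdeal (R := T)] at h2
  refine le_trans ?_ h2
  exact_mod_cast h1

end Pool.Agent.Lib.MP_3029eb_ag
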