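import Pool.Agent.Lib.MP_3029eb_ag.HB
import Pool.Agent.Lib.MP_3029eb_ag.K2
import Pool.Agent.Lib.MP_3029eb_ag.K2b
import Pool.Agent.Lib.MP_3029eb_ag.H6Lift

/-!
Completions of isomorphic local rings.
-/

open IsLocalRing

namespace Pool.Agent.Lib.MP_3029eb_ag.Imp
open Pool.Agent.Lib.MP_3029eb_ag

/-- endomorphisms of the completion over the ring are trivial -/
theorem completion_end (R : Type) [CommRing R] [IsLocalRing R] [IsNoetherianRing R]
    (f : AdicCompletion (maximalIdeal R) R →+* AdicCompletion (maximalIdeal R) R)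
    (hf : IsLocalHom f)
    (h : ∀ r : R, f (algebraMap R (AdicCompletion (maximalIdeal R) R) r) =
      algebraMap R (AdicCompletion (maximalIdeal R) R) r) (t : AdicCompletion (maximalIdeal R) R) :
    f t = t := by
  have hfm : ∀ n : ℕ, ∀ x ∈ maximalIdeal (AdicCompletion (maximalIdeal R) R) ^ n,
      f x ∈ maximalIdeal (AdicCompletion (maximalIdeal R) R) ^ n := by
    intro n x hx
    have h1 := Ideal.mem_map_of_mem f hx
    rw [Ideal.map_pow] at h1
    refine Ideal.pow_right_mono ?_ n h1
    rw [Ideal.map_le_iff_le_comap]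
    intro y hy
    rw [Ideal.mem_comap, mem_maximalIdeal, mem_nonunits_iff]
    intro hu
    exact (mem_nonunits_iff.1 ((mem_maximalIdeal _).1 hy)) (isUnit_of_map_unit f y hu)
  have hhaus : IsHausdorff (maximalIdeal (AdicCompletion (maximalIdeal R) R))
      (AdicCompletion (maximalIdeal R) R) := inferInstance
  rw [← sub_eq_zero]
  refine hhaus.haus _ fun n => ?_
  rw [SModEq.zero, smul_eq_mul, Ideal.mul_top]
  obtain ⟨a, -, ha⟩ := (sameCompletion_adicCompletion R).approxN 0 n (t := t) (by
    rw [pow_zero, Ideal.one_eq_top]; trivial)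
  rw [Nat.zero_add] at ha
  have h2 : f t - t = f (t - algebraMap R (AdicCompletion (maximalIdeal R) R) a) -
      (t - algebraMap R (AdicCompletion (maximalIdeal R) R) a) := by
    rw [map_sub, h]; ring
  rw [h2]
  exact sub_mem (hfm n _ ha) ha

/-- completions of isomorphic local rings are isomorphic -/
theorem exists_completion_equiv {R A : Type} [CommRing R] [IsLocalRing R] [IsNoetherianRing R]
    [CommRing A] [IsLocalRing A] [IsNoetherianRing A] (e : R ≃+* A) :
    ∃ E : AdicCompletion (maximalIdeal R) R ≃+* AdicCompletion (maximalIdeal A) A,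
      ∀ r, E (algebraMap R (AdicCompletion (maximalIdeal R) R) r) =
        algebraMap A (AdicCompletion (maximalIdeal A) A) (e r) := by
  have key : ∀ (R A : Type) [CommRing R] [IsLocalRing R] [IsNoetherianRing R]
      [CommRing A] [IsLocalRing A] [IsNoetherianRing A] (e : R ≃+* A),
      ∃ E : AdicCompletion (maximalIdeal R) R →+* AdicCompletion (maximalIdeal A) A,
        IsLocalHom E ∧ ∀ r, E (algebraMap R (AdicCompletion (maximalIdeal R) R) r) =
          algebraMap A (AdicCompletion (maximalIdeal A) A) (e r) := by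
    intro R A _ _ _ _ _ _ e
    obtain ⟨E, hE, hE'⟩ := exists_lift_completion' R (AdicCompletion (maximalIdeal A) A)
      (maximalIdeal _) le_rfl
      ((algebraMap A (AdicCompletion (maximalIdeal A) A)).comp (e : R →+* A)) (by
        intro a ha
        have h1 : maximalIdeal (AdicCompletion (maximalIdeal A) A) =
            (maximalIdeal A).map (algebraMap A (AdicCompletion (maximalIdeal A) A)) :=
          AdicCompletion.maximalIdeal_eq_map
        rw [Ideal.mem_comap, h1, RingHom.comp_apply]
        refine Ideal.mem_map_of_mem _ ?_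
        rw [mem_maximalIdeal, mem_nonunits_iff] at ha ⊢
        intro hu
        exact ha ((MulEquiv.isUnit_map e).1 hu))
    exact ⟨E, hE, fun r => by rw [← RingHom.comp_apply, hE']; rfl⟩
  obtain ⟨E, hE, hE'⟩ := key R A e
  obtain ⟨G, hG, hG'⟩ := key A R e.symm
  have h1 : ∀ t, G (E t) = t := by
    have : IsLocalHom (G.comp E) := RingHom.isLocalHom_comp _ _
    refine completion_end R (G.comp E) this fun r => ?_
    rw [RingHom.comp_apply, hE', hG', e.symm_apply_apply]
  have h2 : ∀ t, E (G t) = t := by
    have : IsLocalHom (E.comp G) := RingHom.isLocalHom_comp _ _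
    refine completion_end A (E.comp G) this fun r => ?_
    rw [RingHom.comp_apply, hG', hE', e.apply_symm_apply]
  exact ⟨RingEquiv.ofRingHom E G (RingHom.ext h2) (RingHom.ext h1), hE'⟩

end Pool.Agent.Lib.MP_3029eb_ag.Imp
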