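import Pool.Agent.Lib.MP_3029eb_ag.ImpRank
import Pool.Agent.Lib.MP_3029eb_ag.ImpComplIso
import Pool.Agent.Lib.MP_3029eb_ag.AbhResult

/-!
The rank one theorem with the implicit prime, in terms of a local domain `R` and its field of
fractions `K`.
-/

open IsLocalRing

namespace Pool.Agent.Lib.MP_3029eb_ag.Imp
open Pool.Agent.Lib.MP_3029eb_ag
open Pool.Agent.Lib.MP_3029eb_ag.Abh

/-- the ideal of the completion generated by the elements of value at least the value of `d` -/
noncomputable def implAt (R K : Type) [CommRing R] [IsLocalRing R] [Field K] [Algebra R K]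
    (V : ValuationSubring K) (d : R) : Ideal (AdicCompletion (maximalIdeal R) R) :=
  Ideal.span (algebraMap R (AdicCompletion (maximalIdeal R) R) ''
    {a : R | V.valuation (algebraMap R K a) ≤ V.valuation (algebraMap R K d)})

theorem emb2_ball (R : Type) [CommRing R] [IsDomain R] [IsNoetherianRing R] [IsLocalRing R]
    (K : Type) [NontriviallyNormedField K] [IsUltrametricDist K] [Algebra R K]
    [IsFractionRing R K]
    (H : ∀ (Q : Ideal (AdicCompletion (maximalIdeal R) R)) [Q.IsPrime],
      (∀ a : R, algebraMap R (AdicCompletion (maximalIdeal R) R) a ∈ Q → a = 0) →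
        IsRegularLocalRing (Localization.AtPrime Q))
    (hRV : ∀ a : R, algebraMap R K a ∈ ball K)
    (hRm : ∀ a : R, a ∈ maximalIdeal R ↔ (ball K).valuation (algebraMap R K a) < 1)
    (r s : ℕ) (hr : 0 < r) (x : Fin r → K) (y : Fin s → K) (hx : IndV (ball K) x)
    (hyV : ∀ j, y j ∈ ball K)
    (hy : ∀ p : MvPolynomial (Fin s) R, (ball K).valuation (MvPolynomial.aeval y p) < 1 →
      ∀ m, MvPolynomial.coeff m p ∈ maximalIdeal R)
    (I : Ideal (AdicCompletion (maximalIdeal R) R))
    (hI : ∀ d : R, d ≠ 0 → I ≤ implAt R K (ball K) d)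
    (hdim : ringKrullDim (AdicCompletion (maximalIdeal R) R ⧸ I) ≤ ((r + s : ℕ) : WithBot ℕ∞)) :
    ∃ h, EMB2 (ball K) (algebraMap R K).range r h := by
  classical
  have hinj : Function.Injective (algebraMap R K) := IsFractionRing.injective R K
  have hsurj : Function.Surjective (algebraMap R K).rangeRestrict :=
    (algebraMap R K).rangeRestrict_surjective
  set A := (algebraMap R K).range with hA
  have hle : A ≤ (ball K).toSubring := by
    rintro _ ⟨r, rfl⟩; exact hRV r
  have hloc : locV (ball K) A = A := by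
    apply le_antisymm
    · rintro z ⟨a, ⟨a', rfl⟩, b, ⟨b', rfl⟩, hb1, hz⟩
      have hu : IsUnit b' := by
        by_contra hcon
        have := (hRm b').1 ((mem_maximalIdeal _).2 hcon)
        exact this.ne hb1
      obtain ⟨u, rfl⟩ := hu
      refine ⟨a' * ((u⁻¹ : Rˣ) : R), ?_⟩
      rw [map_mul, ← hz, mul_assoc, ← map_mul, Units.mul_inv, map_one, mul_one]
    · exact le_locV _ _
  have nA : IsNoetherianRing A := isNoetherianRing_of_surjective _ _ _ hsurj
  have lA : IsLocalRing A := IsLocalRing.of_surjective' _ hsurj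
  have hfrac : ∀ z : K, ∃ a ∈ A, ∃ b ∈ A, b ≠ 0 ∧ z * b = a := by
    intro z
    obtain ⟨⟨a, b⟩, hab⟩ := IsLocalization.surj (nonZeroDivisors R) z
    refine ⟨_, ⟨a, rfl⟩, _, ⟨b, rfl⟩, ?_, hab⟩
    intro h0
    exact nonZeroDivisors.ne_zero b.2 (hinj (by rw [h0, map_zero]))
  have hres : ResIndep (ball K) A y := by
    intro p hp m
    obtain ⟨p', rfl⟩ := MvPolynomial.map_surjective _ hsurj p
    have h1 : MvPolynomial.eval₂ A.subtype y
        (MvPolynomial.map (algebraMap R K).rangeRestrict p') = MvPolynomial.aeval y p' := by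
      rw [MvPolynomial.eval₂_map, MvPolynomial.aeval_def]
      rfl
    rw [h1] at hp
    rw [MvPolynomial.coeff_map]
    exact (hRm _).1 (hy p' hp m)
  let e : R ≃+* A := RingEquiv.ofBijective (algebraMap R K).rangeRestrict
    ⟨fun a b h => hinj (congrArg Subtype.val h), hsurj⟩
  have he : ∀ a, ((e a : A) : K) = algebraMap R K a := fun a => rfl
  obtain ⟨E, hE⟩ := exists_completion_equiv e
  obtain ⟨L, iL1, iL2, iL3, κ, hκ, hκd⟩ := exists_completion_field K
  have hdomA : Dom A.subtype := dom_subtype A hle hloc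
  obtain ⟨φ, hφ, hφA⟩ := exists_lift_subring κ hκ A hdomA
  have iP : (RingHom.ker φ).IsPrime := RingHom.ker_isPrime φ
  -- the prime of the completion of `R`
  let Q : Ideal (AdicCompletion (maximalIdeal R) R) := (RingHom.ker φ).comap E
  have hQ0 : ∀ a : R, algebraMap R (AdicCompletion (maximalIdeal R) R) a ∈ Q → a = 0 := by
    intro a ha
    have h1 : φ (E (algebraMap R (AdicCompletion (maximalIdeal R) R) a)) = 0 := ha
    rw [hE, hφA, map_eq_zero, he] at h1
    exact hinj (by rw [h1, map_zero])
  have hQreg := H Q hQ0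
  have hreg : IsRegularLocalRing (Localization.AtPrime (RingHom.ker φ)) := by
    have hM : Q.primeCompl.map (E : AdicCompletion (maximalIdeal R) R →*
        AdicCompletion (maximalIdeal A) A) = (RingHom.ker φ).primeCompl := by
      ext t
      constructor
      · rintro ⟨t', ht', rfl⟩
        exact ht'
      · intro ht
        refine ⟨E.symm t, ?_, E.apply_symm_apply t⟩
        intro h
        apply ht
        have h1 : E (E.symm t) ∈ RingHom.ker φ := h
        rwa [E.apply_symm_apply] at h1
    exact IsRegularLocalRing.of_ringEquiv (IsLocalization.ringEquivOfRingEquiv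
      (Localization.AtPrime Q) (Localization.AtPrime (RingHom.ker φ)) E hM)
  -- the dimension
  have hIle : ∀ t ∈ I, φ (E t) = 0 := by
    intro t ht
    by_contra hne
    have hpos : 0 < ‖φ (E t)‖ := norm_pos_iff.2 hne
    -- a small element of `R`
    obtain ⟨z, hz0, hz1⟩ := NormedField.exists_norm_lt_one K
    obtain ⟨a, ⟨a', rfl⟩, b, ⟨b', rfl⟩, hb0, hzb⟩ := hfrac z
    have ha0 : a' ≠ 0 := by
      rintro rfl
      rw [map_zero] at hzb
      rcases mul_eq_zero.1 hzb with h | h
      · exact (norm_pos_iff.1 hz0) h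
      · exact hb0 h
    have ha1 : ‖algebraMap R K a'‖ < 1 := by
      rw [← hzb, norm_mul]
      exact (mul_le_of_le_one_right (norm_nonneg _) (hRV b')).trans_lt hz1
    obtain ⟨N, hN⟩ := exists_pow_lt_of_lt_one hpos ha1
    have h1 := hI (a' ^ N) (pow_ne_zero _ ha0) ht
    have h2 : implAt R K (ball K) (a' ^ N) ≤ (
        { carrier := {t | ‖φ (E t)‖ ≤ ‖algebraMap R K a'‖ ^ N}
          add_mem' := fun {a b} ha hb => by
            show ‖φ (E (a + b))‖ ≤ _
            rw [map_add, map_add]
            exact (IsUltrametricDist.norm_add_le_max _ _).trans (max_le ha hb)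
          zero_mem' := by
            show ‖φ (E 0)‖ ≤ _
            rw [map_zero, map_zero, norm_zero]; positivity
          smul_mem' := fun c a ha => by
            show ‖φ (E (c * a))‖ ≤ _
            rw [map_mul, map_mul, norm_mul]
            exact (mul_le_of_le_one_left (norm_nonneg _) (hφ _).1).trans ha } :
          Ideal (AdicCompletion (maximalIdeal R) R)) := by
      rw [implAt, Ideal.span_le]
      rintro _ ⟨c, hc, rfl⟩
      show ‖φ (E (algebraMap R (AdicCompletion (maximalIdeal R) R) c))‖ ≤ _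
      rw [hE, hφA, hκ, he, ← norm_pow, ← map_pow]
      have hc' : (ball K).valuation (algebraMap R K c) ≤
        (ball K).valuation (algebraMap R K (a' ^ N)) := hc
      have hd0 : algebraMap R K (a' ^ N) ≠ 0 := by
        intro h0
        exact pow_ne_zero N ha0 (hinj (by rw [h0, map_zero]))
      have h3 : (ball K).valuation (algebraMap R K c / algebraMap R K (a' ^ N)) ≤ 1 := by
        rw [map_div₀]
        exact div_le_one_of_le₀ hc' zero_le
      rw [ValuationSubring.valuation_le_one_iff, mem_ball, norm_div,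
        div_le_one (norm_pos_iff.2 hd0)] at h3
      exact h3
    have h3 : ‖φ (E t)‖ ≤ ‖algebraMap R K a'‖ ^ N := h2 h1
    exact absurd h3 (not_le.2 hN)
  have hdim' : ringKrullDim (AdicCompletion (maximalIdeal A) A ⧸ RingHom.ker φ) ≤
      ((r + s : ℕ) : WithBot ℕ∞) := by
    refine le_trans ?_ hdim
    let q : (AdicCompletion (maximalIdeal R) R ⧸ I) →+*
        (AdicCompletion (maximalIdeal A) A ⧸ RingHom.ker φ) :=
      Ideal.Quotient.lift I ((Ideal.Quotient.mk (RingHom.ker φ)).comp
        (E : AdicCompletion (maximalIdeal R) R →+* AdicCompletion (maximalIdeal A) A))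
        (fun t ht => Ideal.Quotient.eq_zero_iff_mem.2 (hIle t ht))
    refine ringKrullDim_le_of_surjective q ?_
    intro t
    obtain ⟨t, rfl⟩ := Ideal.Quotient.mk_surjective t
    refine ⟨Ideal.Quotient.mk _ (E.symm t), ?_⟩
    show Ideal.Quotient.mk _ (E (E.symm t)) = _
    rw [E.apply_symm_apply]
  exact imp_ball A hle hloc hfrac hr κ hκ hκd φ hφ hφA hreg hdim' x hx y hyV hres

/-- the theorem for a valuation ring of rank one -/
theorem emb2_imp (R : Type) [CommRing R] [IsDomain R] [IsNoetherianRing R] [IsLocalRing R]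
    (K : Type) [Field K] [Algebra R K] [IsFractionRing R K]
    (H : ∀ (Q : Ideal (AdicCompletion (maximalIdeal R) R)) [Q.IsPrime],
      (∀ a : R, algebraMap R (AdicCompletion (maximalIdeal R) R) a ∈ Q → a = 0) →
        IsRegularLocalRing (Localization.AtPrime Q))
    (V : ValuationSubring K)
    (harch : ∀ a b : K, a ≠ 0 → V.valuation b < 1 →
      ∃ n : ℕ, V.valuation (b ^ n) ≤ V.valuation a)
    (hRV : ∀ a : R, algebraMap R K a ∈ V)
    (hRm : ∀ a : R, a ∈ maximalIdeal R ↔ V.valuation (algebraMap R K a) < 1)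
    (r s : ℕ) (hr : 0 < r) (x : Fin r → K) (y : Fin s → K) (hx0 : ∀ i, x i ≠ 0)
    (hx : ∀ m : Fin r → ℤ, V.valuation (∏ i, x i ^ m i) = 1 → m = 0)
    (hyV : ∀ j, y j ∈ V)
    (hy : ∀ p : MvPolynomial (Fin s) R, V.valuation (MvPolynomial.aeval y p) < 1 →
      ∀ m, MvPolynomial.coeff m p ∈ maximalIdeal R)
    (I : Ideal (AdicCompletion (maximalIdeal R) R))
    (hI : ∀ d : R, d ≠ 0 → I ≤ implAt R K V d)
    (hdim : ringKrullDim (AdicCompletion (maximalIdeal R) R ⧸ I) ≤ ((r + s : ℕ) : WithBot ℕ∞)) :
    ∃ h, EMB2 V (algebraMap R K).range r h := by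
  have hV : V ≠ ⊤ := by
    rintro rfl
    have h1 : ∀ z : K, z ≠ 0 → (⊤ : ValuationSubring K).valuation z = 1 := by
      intro z hz
      rw [C1_val_one_iff]
      exact ⟨ValuationSubring.mem_top _, ValuationSubring.mem_top _, hz⟩
    have h2 := hx (fun _ => 1) (h1 _ (Finset.prod_ne_zero_iff.2 fun i _ =>
      zpow_ne_zero _ (hx0 i)))
    have h3 := congrFun h2 ⟨0, hr⟩
    exact one_ne_zero h3
  obtain ⟨v, hna, hnt, hVv⟩ := exists_absval V hV harch
  let iN : NormedField K := v.toNormedField
  have hnorm : ∀ z : K, ‖z‖ = v z := fun z => rfl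
  let iNN : NontriviallyNormedField K :=
    { v.toNormedField with
      non_trivial := by
        obtain ⟨y, hy0, hy⟩ := hnt
        refine ⟨y⁻¹, ?_⟩
        have h1 : v y⁻¹ = (v y)⁻¹ := map_inv₀ v y
        show 1 < v y⁻¹
        rw [h1]
        exact (one_lt_inv₀ (v.pos hy0)).2 hy }
  have iU : IsUltrametricDist K :=
    IsUltrametricDist.isUltrametricDist_of_forall_norm_add_le_max_norm hna
  have hVb : V = ball K := by
    ext z
    rw [hVv, mem_ball]
    exact Iff.rfl
  subst hVb
  exact emb2_ball R K H hRV hRm r s hr x y ⟨hx0, hx⟩ hyV hy I hI hdim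

end Pool.Agent.Lib.MP_3029eb_ag.Imp
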