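import Pool.Agent.Lib.MP_3029eb_ag.H44QT

/-!
Definitions shared by the modules of the discrete rank-one local uniformization project.
-/

open IsLocalRing

namespace Pool.Agent.Lib.MP_3029eb_ag

/-- `ι : R → T` induces isomorphisms `R / M_R ^ k ≃ T / M_T ^ k` for all `k`
(for instance the completion map of a noetherian local ring). -/
structure SameCompletion {R T : Type} [CommRing R] [CommRing T] [IsLocalRing R] [IsLocalRing T]
    (ι : R →+* T) : Prop where
  map_mem : ∀ r ∈ maximalIdeal R, ι r ∈ maximalIdeal T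
  comap_pow : ∀ (k : ℕ) (r : R), ι r ∈ maximalIdeal T ^ k → r ∈ maximalIdeal R ^ k
  approx : ∀ (k : ℕ) (t : T), t ∈ maximalIdeal T ^ k →
    ∃ r ∈ maximalIdeal R ^ k, t - ι r ∈ maximalIdeal T ^ (k + 1)

/-- For a subring `A` of a field `K` with a valuation ring `V`: the subring of fractions `a / b`
with `a, b ∈ A` and `b` of value one (the localization of `A` at the centre of `V`, if
`A ⊆ V`). -/
def locV {K : Type} [Field K] (V : ValuationSubring K) (A : Subring K) : Subring K where
  carrier := {z | ∃ a ∈ A, ∃ b ∈ A, V.valuation b = 1 ∧ z * b = a}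
  mul_mem' := by
    rintro z w ⟨a, ha, b, hb, hb1, h⟩ ⟨a', ha', b', hb', hb1', h'⟩
    exact ⟨a * a', mul_mem ha ha', b * b', mul_mem hb hb', by rw [map_mul, hb1, hb1', one_mul],
      by rw [← h, ← h']; ring⟩
  one_mem' := ⟨1, one_mem _, 1, one_mem _, map_one _, by rw [one_mul]⟩
  add_mem' := by
    rintro z w ⟨a, ha, b, hb, hb1, h⟩ ⟨a', ha', b', hb', hb1', h'⟩
    exact ⟨a * b' + a' * b, add_mem (mul_mem ha hb') (mul_mem ha' hb), b * b', mul_mem hb hb',
      by rw [map_mul, hb1, hb1', one_mul], by rw [← h, ← h']; ring⟩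
  zero_mem' := ⟨0, zero_mem _, 1, one_mem _, map_one _, by rw [zero_mul]⟩
  neg_mem' := by
    rintro z ⟨a, ha, b, hb, hb1, h⟩
    exact ⟨-a, neg_mem ha, b, hb, hb1, by rw [← h]; ring⟩

/-- Local uniformization of the subring `R0` of `K` along `V`: after adjoining finitely many
elements of `V`, the localization at the centre of `V` is a regular local ring. -/
def LU {K : Type} [Field K] (V : ValuationSubring K) (R0 : Subring K) : Prop :=
  ∃ s : Finset K, (∀ z ∈ s, z ∈ V) ∧
    IsRegularLocalRing (locV V (Subring.closure ((R0 : Set K) ∪ (s : Set K))))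

section Lattice

variable (W KW : Type) [CommRing W] [Field KW] [Algebra W KW] (c : ℕ)

/-- The standard lattice `W ^ c` in `KW ^ c`. -/
def L0 : Submodule W (Fin c → KW) where
  carrier := {v | ∀ i, v i ∈ (algebraMap W KW).range}
  add_mem' := fun ha hb i => add_mem (ha i) (hb i)
  zero_mem' := fun _ => zero_mem _
  smul_mem' := fun a v hv i => by
    rw [Pi.smul_apply, Algebra.smul_def]
    exact mul_mem ⟨a, rfl⟩ (hv i)

variable {W KW c}

/-- The lattice spanned by the values of a derivation on an ideal. -/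
def Espan {S : Type} [CommRing S] (I : Ideal S) (Φ : S →+* TrivSqZeroExt KW (Fin c → KW)) :
    Submodule W (Fin c → KW) :=
  Submodule.span W ((fun s => (Φ s).snd) '' (I : Set S))

/-- The colength of a submodule of the standard lattice. -/
noncomputable def colen (E : Submodule W (Fin c → KW)) : ℕ∞ :=
  Module.length W (↥(L0 W KW c) ⧸ E.comap (L0 W KW c).subtype)

end Lattice

end Pool.Agent.Lib.MP_3029eb_ag
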