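import Pool.Agent.Lib.MP_3029eb_ag.AbhE10

/-!
Module E11: embedded local uniformization at Abhyankar valuations of arbitrary rank.
-/

open IsLocalRing

namespace Pool.Agent.Lib.MP_3029eb_ag.Abh
open Pool.Agent.Lib.MP_3029eb_ag

open Classical in
/-- composition of embedded local uniformizations -/
theorem EMB_comp {K : Type} [Field K] {V V1 : ValuationSubring K} (h : V ≤ V1) (A : Subring K)
    (hA : A ≤ V.toSubring) [IsNoetherianRing A] {r1 r2 : ℕ} (h1 : EMB V1 (locV V1 A) r1)
    (h2 : ∀ g1 : Finset K, (∀ t ∈ g1, t ∈ V ∧ ∃ a ∈ A, ∃ b ∈ A, b ≠ 0 ∧ t * b = a) →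
      EMB (resV V V1 h) (im V1 (locV V (Subring.closure ((A : Set K) ∪ (g1 : Set K))))) r2) :
    EMB V A (r1 + r2) := by
  intro s hs
  have hAV1 : A ≤ V1.toSubring := fun z hz => h (hA hz)
  obtain ⟨g, x, hg, hG, hM⟩ := h1 s (by
    intro f hf
    obtain ⟨h1, h2, a, ha, b, hb, hb0, h3⟩ := hs f hf
    exact ⟨h1, h h2, a, le_locV _ _ ha, b, le_locV _ _ hb, hb0, h3⟩)
  set B1 := locV V1 (Subring.closure ((locV V1 A : Set K) ∪ (g : Set K))) with hB1
  obtain ⟨g1, hg1, hg1e⟩ := exists_replace h A g (by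
    intro t ht
    refine ⟨hg t ht, ?_⟩
    obtain ⟨D, hD, hDm, hDt⟩ := hG.den t (le_locV _ _ (Subring.subset_closure (Or.inr ht)))
    exact ⟨D * t, hDt, D, hD, hDm.ne hG.ind.ne, mul_comm _ _⟩)
  set C1 := Subring.closure ((A : Set K) ∪ (g1 : Set K)) with hC1
  set A1 := locV V C1 with hA1
  have hAC : A ≤ C1 := fun z hz => Subring.subset_closure (Or.inl hz)
  have hC1V : C1 ≤ V.toSubring := closure_le_val V A hA _ fun t ht => (hg1 t ht).1
  have hCA : C1 ≤ A1 := le_locV _ _
  have hAA1 : A ≤ A1 := hAC.trans hCA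
  have hA1V : A1 ≤ V.toSubring := locV_le _ hC1V
  have hA1V1 : A1 ≤ V1.toSubring := fun z hz => h (hA1V hz)
  have n1 : IsNoetherianRing C1 := isNoetherianRing_closure g1
  have n2 : IsNoetherianRing A1 := isNoetherianRing_locV _
  have hBe : B1 = locV V1 A1 := by
    rw [hB1, locV_closure_locV (le_refl V1), ← hg1e, hA1, locV_locV_le h]
  rw [hBe] at hG hM
  have hlocB : locV V1 (locV V1 A1) = locV V1 A1 := locV_locV _ _
  -- clear the denominators of the parameters
  have hxe : ∀ i, ∃ b ∈ A1, V1.valuation b = 1 ∧ x i * b ∈ A1 := by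
    intro i
    obtain ⟨a, ha, b, hb, hb1, hab⟩ := hG.mem i
    exact ⟨b, hb, hb1, by rw [hab]; exact ha⟩
  choose b hb hb1 hxb using hxe
  obtain ⟨hG', hM'⟩ := E6_scale hlocB hG b fun i => ⟨le_locV _ _ (hb i), hb1 i⟩
  -- denominators of the elements of `g1`
  have hde : ∀ t : K, ∃ D : K, t ∈ g1 → D ∈ A ∧ D * t ∈ A ∧
      MonV V1 (locV V1 A1) (fun i => x i * b i) D := by
    intro t
    by_cases ht : t ∈ g1
    · have htB : t ∈ locV V1 A1 :=
        le_locV _ _ (hCA (Subring.subset_closure (Or.inr ht)))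
      obtain ⟨D, ⟨p, hp, q, hq, hq1, hpq⟩, hDm, ⟨p', hp', q', hq', hq1', hpq'⟩⟩ := hG'.den t htB
      refine ⟨D * q * q', fun _ => ⟨?_, ?_, ?_⟩⟩
      · rw [hpq]; exact mul_mem hp hq'
      · have : D * q * q' * t = q * (D * t * q') := by ring
        rw [this, hpq']
        exact mul_mem hq hp'
      · exact (hDm.mul (MonV.of_unit (le_locV _ _ (hAA1 hq)) hq1)).mul
          (MonV.of_unit (le_locV _ _ (hAA1 hq')) hq1')
    · exact ⟨0, fun h' => absurd h' ht⟩
  choose D hD using hde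
  obtain ⟨g3, u, A3, hg3, hA3, hmem, hlt, hind, hgen, hLm, hden⟩ := E7_comp h A A1 hA1V
    (fun i => x i * b i) hG' hxb (h2 g1 hg1) (s ∪ g1.image D) (by
      intro f hf
      rcases Finset.mem_union.1 hf with hf | hf
      · exact ⟨(hs f hf).2.1, hM' f (hM f hf)⟩
      · obtain ⟨t, ht, rfl⟩ := Finset.mem_image.1 hf
        obtain ⟨h3, h4, h5⟩ := hD t ht
        exact ⟨hA h3, h5⟩)
  have hset : A3 = locV V (Subring.closure ((A : Set K) ∪ ((g1 ∪ g3 : Finset K) : Set K))) := by
    rw [hA3, hA1, locV_closure_locV (le_refl V), hC1, A2_closure_closure, Finset.coe_union]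
  have hA13 : A1 ≤ A3 := by
    rw [hA3]
    exact fun z hz => le_locV _ _ (Subring.subset_closure (Or.inl hz))
  refine ⟨g1 ∪ g3, u, ?_, ?_, ?_⟩
  · intro t ht
    rcases Finset.mem_union.1 ht with ht | ht
    · exact (hg1 t ht).1
    · exact hg3 t ht
  · rw [← hset]
    refine ⟨hind, hmem, hlt, hgen, hden ?_⟩
    refine locV_le_denRing ?_ (hCA.trans hA13)
    rw [hC1, Subring.closure_le]
    rintro t (ht | ht)
    · exact Den.of_mem ht
    · obtain ⟨h3, h4, h5⟩ := hD t ht
      exact ⟨D t, h3, hLm _ (Finset.mem_union_right _ (Finset.mem_image_of_mem _ ht)), h4⟩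
  · rw [← hset]
    intro f hf
    exact hLm f (Finset.mem_union_left _ hf)

section

variable (Rb : Type) [CommRing Rb] [IsNoetherianRing Rb]

/-- the statement of embedded local uniformization for rational rank `r` -/
def EMBAt (r : ℕ) : Prop :=
  ∀ (K : Type) [Field K] (V : ValuationSubring K) (A : Subring K)
    (_ : A ≤ V.toSubring) (_ : locV V A = A) (f : Rb →+* A) (_ : EFT f) (x : Fin r → K)
    (_ : IndV V x) (_ : ∀ i, ∃ a ∈ A, ∃ b ∈ A, b ≠ 0 ∧ x i * b = a)
    (_ : ringKrullDim A ≤ r), EMB V A r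

variable (hRb : ∀ (B : Type) [CommRing B] [IsDomain B] [IsLocalRing B] [IsNoetherianRing B]
    (f : Rb →+* B), EFT f → AnUnr B)

include hRb in
theorem embAt_frac (r : ℕ) (ih : ∀ r' < r, EMBAt Rb r') {K : Type} [Field K]
    (V : ValuationSubring K) (A : Subring K)
    (hA : A ≤ V.toSubring) (hloc : locV V A = A) (f : Rb →+* A) (hf : EFT f)
    (hfrac : ∀ z : K, ∃ a ∈ A, ∃ b ∈ A, b ≠ 0 ∧ z * b = a) (x : Fin r → K)
    (hx : IndV V x) (hdim : ringKrullDim A ≤ r) : EMB V A r := by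
  classical
  by_cases hVtop : V = ⊤
  · have h0 := hx.eq_zero_of_top hVtop
    subst h0
    exact EMB_top V hVtop A hloc
  by_cases harch : ∀ a b : K, a ≠ 0 → V.valuation b < 1 →
      ∃ n : ℕ, V.valuation (b ^ n) ≤ V.valuation a
  · obtain ⟨v, hna, hnt, hv⟩ := exists_absval V hVtop harch
    exact EMB_absval Rb hRb V v hna hnt hv A hA hloc f hf hfrac x hx hdim
  push Not at harch
  obtain ⟨a, b, ha0, hb, hab⟩ := harch
  have hb0 : b ≠ 0 := by
    rintro rfl
    have := hab 1
    rw [pow_one, map_zero] at this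
    exact not_lt_zero this
  obtain ⟨V1, V2, hVV2, hV21, hV1b, -, hV1, -⟩ := exists_coarse V b hb0 hb
  have hVV1 := hVV2.trans hV21
  have hV1top : V1 ≠ ⊤ := by
    intro h
    obtain ⟨n, hn⟩ := (hV1 a⁻¹).1 (by rw [h]; exact ValuationSubring.mem_top _)
    have h1 := (V.valuation_le_one_iff _).2 hn
    rw [map_mul, map_inv₀] at h1
    have h2 : V.valuation a ≠ 0 := by simpa using ha0
    have h3 : V.valuation (b ^ n) ≤ V.valuation a := by
      calc V.valuation (b ^ n) = V.valuation a * ((V.valuation a)⁻¹ * V.valuation (b ^ n)) := by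
            rw [← mul_assoc, mul_inv_cancel₀ h2, one_mul]
        _ ≤ V.valuation a * 1 := by gcongr
        _ = V.valuation a := mul_one _
    exact absurd (hab n) (not_lt.2 h3)
  -- adjoin elements to split the independent family
  obtain ⟨g, r1, r2, x1, y2, hr, hg, hx1, hy2, hy2m⟩ := split_step hVV1 A hfrac x hx
  refine EMB_trans V A g hg ?_ hA
  have nA : IsNoetherianRing A := hf.isNoetherianRing
  have hcl : Subring.closure ((A : Set K) ∪ (g : Set K)) ≤ V.toSubring :=
    closure_le_val V A hA _ fun t ht => (hg t ht).1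
  have hdim' := (krullDim_adjoin V A hA hloc g hg).trans hdim
  have hA' : locV V (Subring.closure ((A : Set K) ∪ (g : Set K))) ≤ V.toSubring :=
    locV_le _ hcl
  have hloc' := locV_locV V (Subring.closure ((A : Set K) ∪ (g : Set K)))
  have hAA' : A ≤ locV V (Subring.closure ((A : Set K) ∪ (g : Set K))) :=
    fun a ha => le_locV _ _ (Subring.subset_closure (Or.inl ha))
  have hf' : ∃ f' : Rb →+* locV V (Subring.closure ((A : Set K) ∪ (g : Set K))), EFT f' :=
    ⟨_, EFT_locV V A f hf g (Subring.inclusion hAA') (fun a => rfl)⟩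
  generalize locV V (Subring.closure ((A : Set K) ∪ (g : Set K))) = A' at *
  obtain ⟨f', hf'⟩ := hf'
  have nA' : IsNoetherianRing A' := hf'.isNoetherianRing
  have hfrac' : ∀ z : K, ∃ a ∈ A', ∃ b ∈ A', b ≠ 0 ∧ z * b = a := by
    intro z
    obtain ⟨a, ha, b, hb, hb0, h⟩ := hfrac z
    exact ⟨a, hAA' ha, b, hAA' hb, hb0, h⟩
  -- the facts used for all rings containing `A'`
  have facts : ∀ B : Subring K, A' ≤ B → B ≤ V.toSubring → IsNoetherianRing B →
      ((r1 : WithBot ℕ∞) ≤ ringKrullDim (locV V1 B) ∧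
        (r2 : WithBot ℕ∞) ≤ ringKrullDim (im V1 (locV V B))) := by
    intro B hA'B hBV nB
    have n1 : IsNoetherianRing (locV V1 B) := isNoetherianRing_locV _
    have n2 : IsNoetherianRing (locV V B) := isNoetherianRing_locV _
    have hBV1 : B ≤ V1.toSubring := hBV.trans hVV1
    have hLB : locV V B ≤ V.toSubring := locV_le _ hBV
    have n3 : IsNoetherianRing (im V1 (locV V B)) := isNoetherianRing_im _ (hLB.trans hVV1)
    refine ⟨ineq V1 _ (locV_le _ hBV1) (locV_locV _ _) x1 hx1 fun i => ?_,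
      ineq (resV V V1 hVV1) _ (im_le_resV hVV1 _ hLB) (locV_im hVV1 _ hLB (locV_locV _ _)) y2
        hy2 fun i => ⟨y2 i, ?_, 1, one_mem _, one_ne_zero, mul_one _⟩⟩
    · obtain ⟨a, ha, b, hb, hb0, h⟩ := hfrac' (x1 i)
      exact ⟨a, le_locV _ _ (hA'B ha), b, le_locV _ _ (hA'B hb), hb0, h⟩
    · obtain ⟨u, hu, hu'⟩ := hy2m i
      exact ⟨u, le_locV _ _ (hA'B hu), hu'⟩
  have hr1r : r1 < r := by
    have h1 := ineq V A' hA' hloc' _ (IndV_cons hVV1 hx1 hV1b hb.ne) (fun i => hfrac' _)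
    have h2 := h1.trans hdim'
    have h3 : r1 + 1 ≤ r := by exact_mod_cast h2
    omega
  have hr2r : r2 < r := by
    obtain ⟨h1, h2⟩ := facts A' le_rfl hA' nA'
    rw [hloc'] at h2
    have n1 : IsNoetherianRing (locV V1 A') := isNoetherianRing_locV _
    have h3 : 1 ≤ ringKrullDim (locV V1 A') := by
      have hle : locV V1 A' ≤ V1.toSubring := locV_le _ (hA'.trans hVV1)
      rw [one_le_dim_iff V1 _ hle (locV_locV _ _)]
      refine exists_mem_of_ne_top V1 hV1top _ hle fun z => ?_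
      obtain ⟨a, ha, b, hb, hb0, h⟩ := hfrac' z
      exact ⟨a, le_locV _ _ ha, b, le_locV _ _ hb, hb0, h⟩
    have h4 := (add_le_of_nat (m := 1) (by exact_mod_cast h3) h2
      (dim_split hVV1 A' hA')).trans hdim'
    have h5 : 1 + r2 ≤ r := by exact_mod_cast h4
    omega
  -- dimensions
  have dims : ∀ B : Subring K, A' ≤ B → B ≤ V.toSubring → locV V B = B →
      IsNoetherianRing B → ringKrullDim B ≤ r →
      ringKrullDim (locV V1 B) ≤ r1 ∧ ringKrullDim (im V1 B) ≤ r2 := by
    intro B hA'B hBV hBl nB hBd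
    obtain ⟨h1, h2⟩ := facts B hA'B hBV nB
    rw [hBl] at h2
    have n1 : IsNoetherianRing (locV V1 B) := isNoetherianRing_locV _
    have n3 : IsNoetherianRing (im V1 B) := isNoetherianRing_im _ (hBV.trans hVV1)
    obtain ⟨m1, hm1⟩ := exists_nat_dim V1 (locV V1 B) (locV_le _ (hBV.trans hVV1))
      (locV_locV _ _)
    obtain ⟨m2, hm2⟩ := exists_nat_dim (resV V V1 hVV1) (im V1 B) (im_le_resV hVV1 _ hBV)
      (locV_im hVV1 _ hBV hBl)
    have h3 := (dim_split hVV1 B hBV).trans hBd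
    rw [hm1, hm2] at h3
    rw [hm1] at h1 ⊢
    rw [hm2] at h2 ⊢
    have h4 : m1 + m2 ≤ r := by exact_mod_cast h3
    have h5 : r1 ≤ m1 := by exact_mod_cast h1
    have h6 : r2 ≤ m2 := by exact_mod_cast h2
    constructor
    · have : m1 ≤ r1 := by omega
      exact_mod_cast this
    · have : m2 ≤ r2 := by omega
      exact_mod_cast this
  have hA'V1 : A' ≤ V1.toSubring := hA'.trans hVV1
  rw [← hr]
  refine EMB_comp hVV1 A' hA' ?_ ?_
  · -- the coarser valuation
    exact ih r1 hr1r K V1 (locV V1 A') (locV_le _ hA'V1) (locV_locV _ _)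
      _ (EFT_locV' V1 A' f' hf' (Subring.inclusion (le_locV V1 A')) (fun a => rfl)) x1 hx1
      (fun i => by
        obtain ⟨a, ha, b, hb, hb0, h⟩ := hfrac' (x1 i)
        exact ⟨a, le_locV _ _ ha, b, le_locV _ _ hb, hb0, h⟩)
      (dims A' le_rfl hA' hloc' nA' hdim').1
  · -- the residual valuation
    intro s' hs'V
    have hcl1 : Subring.closure ((A' : Set K) ∪ (s' : Set K)) ≤ V.toSubring :=
      closure_le_val V A' hA' _ fun t ht => (hs'V t ht).1
    have hA1V : locV V (Subring.closure ((A' : Set K) ∪ (s' : Set K))) ≤ V.toSubring :=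
      locV_le V hcl1
    have hAA1 : A' ≤ locV V (Subring.closure ((A' : Set K) ∪ (s' : Set K))) :=
      fun a ha => le_locV V _ (Subring.subset_closure (Or.inl ha))
    have hf1 : EFT ((Subring.inclusion hAA1).comp f') :=
      EFT_locV V A' f' hf' s' (Subring.inclusion hAA1) (fun a => rfl)
    have hA1n := hf1.isNoetherianRing
    have hA1d := (krullDim_adjoin V A' hA' hloc' s' hs'V).trans hdim'
    have hA1l := locV_locV V (Subring.closure ((A' : Set K) ∪ (s' : Set K)))
    refine ih r2 hr2r (ResidueField V1) (resV V V1 hVV1) _ (im_le_resV hVV1 _ hA1V)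
      (locV_im hVV1 _ hA1V hA1l)
      ((toIm V1 _ (hA1V.trans hVV1)).comp ((Subring.inclusion hAA1).comp f'))
      (EFT_comp_surjective _ _ hf1 (toIm_surjective V1 _ _)) y2 hy2 (fun i => ?_)
      (dims _ hAA1 hA1V hA1l hA1n hA1d).2
    obtain ⟨u, hu, hu'⟩ := hy2m i
    exact ⟨y2 i, ⟨u, hAA1 hu, hu'⟩, 1, one_mem _, one_ne_zero, mul_one _⟩

include hRb in
/-- **Embedded local uniformization at Abhyankar valuations of arbitrary rank.** -/
theorem embAt (r : ℕ) : EMBAt Rb r := by
  induction r using Nat.strong_induction_on with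
  | _ r ih =>
    intro K _ V A hA hloc f hf x hx hxA hdim
    have nA : IsNoetherianRing A := hf.isNoetherianRing
    obtain ⟨K0, _, φ, V0, A0, e, hV0, hV0u, he, hfrac, hsurj, hA0, hloc0, -⟩ :=
      exists_restrict V A hA hloc
    have hmap : A0.map φ = A := by
      ext z
      constructor
      · rintro ⟨a, ha, rfl⟩
        obtain ⟨a', ha'⟩ := e.surjective ⟨a, ha⟩
        have h1 := he a'
        rw [ha'] at h1
        rw [h1]
        exact a'.2
      · intro hz
        exact ⟨_, (e ⟨z, hz⟩).2, he ⟨z, hz⟩⟩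
    refine EMB_map φ V V0 hV0 hV0u A A0 hmap hfrac hsurj ?_
    have hx0 := fun i => hsurj (x i) (hxA i)
    choose x0 hx0 using hx0
    have hdim0 : ringKrullDim A0 = ringKrullDim A := (ringKrullDim_eq_of_ringEquiv e).symm
    have hx0' : IndV V0 x0 := by
      refine ⟨fun i h => hx.ne i (by rw [← hx0, h, map_zero]), fun δ hδ => hx.indep δ ?_⟩
      rw [hV0u, map_monF] at hδ
      simpa only [hx0] using hδ
    exact embAt_frac Rb hRb r ih V0 A0 hA0 hloc0 ((e : A →+* A0).comp f)
      (EFT_comp_surjective _ _ hf e.surjective) hfrac x0 hx0' (by rw [hdim0]; exact hdim)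

end

end Pool.Agent.Lib.MP_3029eb_ag.Abh
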