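import Pool.Agent.Lib.MP_3029eb_ag.H44Defs

/-!
Definitions for composite valuations.
-/

open IsLocalRing
open scoped TensorProduct

namespace Pool.Agent.Lib.MP_3029eb_ag

/-- The image of a valuation ring `V ≤ V1` in the residue field of `V1`. -/
noncomputable def resV {K : Type} [Field K] (V V1 : ValuationSubring K) (h : V ≤ V1) :
    ValuationSubring (ResidueField V1) :=
  { ((residue V1).comp (ValuationSubring.inclusion V V1 h)).range with
    mem_or_inv_mem' := by
      intro x
      obtain ⟨u, rfl⟩ := residue_surjective x
      rcases V.mem_or_inv_mem (u : K) with hu | hu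
      · exact Or.inl ⟨⟨u, hu⟩, rfl⟩
      · right
        by_cases h0 : residue V1 u = 0
        · exact ⟨0, by rw [map_zero, h0, inv_zero]⟩
        · refine ⟨⟨(u : K)⁻¹, hu⟩, ?_⟩
          have hu0 : (u : K) ≠ 0 := by
            intro hz
            apply h0
            have : u = 0 := Subtype.ext hz
            rw [this, map_zero]
          rw [eq_comm, inv_eq_iff_eq_inv, eq_comm, inv_eq_of_mul_eq_one_right]
          rw [RingHom.comp_apply, ← map_mul]
          have : (ValuationSubring.inclusion V V1 h) ⟨(u : K)⁻¹, hu⟩ * u = 1 := by
            apply Subtype.ext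
            show (u : K)⁻¹ * (u : K) = 1
            exact inv_mul_cancel₀ hu0
          rw [this, map_one] }

/-- `V` is composed of at most `r` discrete rank-one valuation rings. -/
def DiscRank : ℕ → ∀ (K : Type) [Field K], ValuationSubring K → Prop
  | 0, _, _, V => V = ⊤
  | r + 1, K, _, V => V = ⊤ ∨ ∃ (V1 : ValuationSubring K) (h : V ≤ V1),
      IsDiscreteValuationRing V1 ∧ DiscRank r (ResidueField V1) (resV V V1 h)

/-- Local uniformization by elements of `V` which are fractions of `R0`. -/
def LUF {K : Type} [Field K] (V : ValuationSubring K) (R0 : Subring K) : Prop :=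
  ∃ s : Finset K, (∀ z ∈ s, z ∈ V ∧ ∃ a ∈ R0, ∃ b ∈ R0, b ≠ 0 ∧ z * b = a) ∧
    IsRegularLocalRing (locV V (Subring.closure ((R0 : Set K) ∪ (s : Set K))))

/-- The image in the residue field of `V1` of (the elements in `V1` of) a subring of `K`. -/
def im {K : Type} [Field K] (V1 : ValuationSubring K) (A : Subring K) :
    Subring (ResidueField V1) :=
  (A.comap V1.toSubring.subtype).map (residue V1)

/-- The generic formal fibre of `R` is regular: the localizations of the completion at primes
lying over zero are regular local rings. -/
def GFR (R : Type) [CommRing R] [IsLocalRing R] : Prop :=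
  ∀ (Q : Ideal (AdicCompletion (maximalIdeal R) R)) [Q.IsPrime],
    Q.comap (algebraMap R (AdicCompletion (maximalIdeal R) R)) = ⊥ →
      IsRegularLocalRing (Localization.AtPrime Q)

/-- `B` is essentially of finite type over `Rb` through the homomorphism `f`. -/
def EFT {Rb B : Type} [CommRing Rb] [CommRing B] (f : Rb →+* B) : Prop :=
  @Algebra.EssFiniteType Rb B _ _ f.toAlgebra

theorem EFT.isNoetherianRing {Rb B : Type} [CommRing Rb] [CommRing B] [IsNoetherianRing Rb]
    {f : Rb →+* B} (hf : EFT f) : IsNoetherianRing B := by
  let := f.toAlgebra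
  have : Algebra.EssFiniteType Rb B := hf
  exact Algebra.EssFiniteType.isNoetherianRing Rb B

end Pool.Agent.Lib.MP_3029eb_ag
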