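import Pool.Agent.Lib.MP_3029eb_ag.H44Defs

/-!
Module K3: local uniformization transfers from the quadratic transform.
-/

open IsLocalRing

namespace Pool.Agent.Lib.MP_3029eb_ag

theorem locV_mono {K : Type} [Field K] (V : ValuationSubring K) {A B : Subring K} (h : A ≤ B) :
    locV V A ≤ locV V B := by
  rintro z ⟨a, ha, b, hb, hb1, hz⟩
  exact ⟨a, h ha, b, h hb, hb1, hz⟩

theorem le_locV {K : Type} [Field K] (V : ValuationSubring K) (A : Subring K) : A ≤ locV V A :=
  fun z hz => ⟨z, hz, 1, one_mem _, map_one _, mul_one z⟩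

theorem locV_locV {K : Type} [Field K] (V : ValuationSubring K) (A : Subring K) :
    locV V (locV V A) = locV V A := by
  refine le_antisymm ?_ (le_locV V _)
  rintro z ⟨a, ⟨a1, ha1, a2, ha2, ha3, ha4⟩, b, ⟨b1, hb1, b2, hb2, hb3, hb4⟩, hb5, hz⟩
  refine ⟨a1 * b2, mul_mem ha1 hb2, b1 * a2, mul_mem hb1 ha2, ?_, ?_⟩
  · rw [map_mul, ha3, mul_one, ← hb4, map_mul, hb5, hb3, one_mul]
  · rw [← ha4, ← hb4, ← hz]; ring

/-- The ideal of elements `b` of `R` such that `j b / (j x) ^ N` is in `B`. -/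
def ratioIdeal {K : Type} [Field K] {R : Type} [CommRing R] (j : R →+* K) (B : Subring K)
    (hB : j.range ≤ B) (x : R) (N : ℕ) : Ideal R where
  carrier := {b | ∃ β ∈ B, j b = β * j x ^ N}
  add_mem' := by
    rintro a b ⟨β, hβ, h⟩ ⟨γ, hγ, h'⟩
    exact ⟨β + γ, add_mem hβ hγ, by rw [map_add, h, h']; ring⟩
  zero_mem' := ⟨0, zero_mem _, by rw [map_zero, zero_mul]⟩
  smul_mem' := by
    rintro c b ⟨β, hβ, h⟩
    exact ⟨j c * β, mul_mem (hB ⟨c, rfl⟩) hβ, by rw [smul_eq_mul, map_mul, h]; ring⟩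

theorem ratioIdeal_pow {K : Type} [Field K] {R : Type} [CommRing R] (j : R →+* K)
    (B : Subring K) (hB : j.range ≤ B) (x : R) (M : Ideal R) (hM : M ≤ ratioIdeal j B hB x 1)
    (N : ℕ) : M ^ N ≤ ratioIdeal j B hB x N := by
  induction N with
  | zero =>
    intro b _
    exact ⟨j b, hB ⟨b, rfl⟩, by rw [pow_zero, mul_one]⟩
  | succ N ih =>
    rw [pow_succ, Ideal.mul_le]
    intro a ha b hb
    obtain ⟨β, hβ, h⟩ := ih ha
    obtain ⟨γ, hγ, h'⟩ := hM hb
    exact ⟨β * γ, mul_mem hβ hγ, by rw [map_mul, h, h']; ring⟩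

theorem LU_of_QT {K : Type} [Field K] (V : ValuationSubring K) {R W : Type} [CommRing R]
    [IsLocalRing R] [IsNoetherianRing R] [CommRing W] [IsDomain W] [IsLocalRing W]
    {φ : R →+* W} {x : R} (h : QTData φ x) (j : R →+* K) (hj : Function.Injective j)
    (j1 : QT φ x →+* K) (hj1 : ∀ r, j1 (QT.of φ x r) = j r)
    (hV : ∀ z : QT φ x, j1 z ∈ V) (hV1 : ∀ z : QT φ x, V.valuation (j1 z) = 1 ↔ IsUnit z)
    (hLU : LU V j1.range) : LU V j.range := by
  classical
  obtain ⟨s, hs, hreg⟩ := hLU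
  have hx0 : j x ≠ 0 := by
    intro h0
    have : x = 0 := hj (by rw [h0, map_zero])
    exact h.x_ne (by rw [this, map_zero])
  obtain ⟨Y, hY⟩ := (isNoetherianRing_iff_ideal_fg R).1 inferInstance (maximalIdeal R)
  have hYm : ∀ y ∈ Y, y ∈ maximalIdeal R := fun y hy => by
    rw [← hY]; exact Ideal.subset_span hy
  have hxx : Associated (φ x) (φ x ^ 1) := by rw [pow_one]
  have hx1 : x ∈ maximalIdeal R ^ 1 := by rw [pow_one]; exact h.x_mem
  have hfrac : ∀ y (hy : y ∈ maximalIdeal R ^ 1),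
      j1 (QT.mk φ x 1 y x hy hx1 hxx) * j x = j y := by
    intro y hy
    rw [← hj1 x, ← map_mul, mul_comm, QT.of_mul_mk, hj1]
  let t : Finset K := Y.image (fun y => j y / j x)
  have ht : ∀ z ∈ t, z ∈ j1.range := by
    intro z hz
    obtain ⟨y, hy, rfl⟩ := Finset.mem_image.1 hz
    have hy1 : y ∈ maximalIdeal R ^ 1 := by rw [pow_one]; exact hYm y hy
    refine ⟨QT.mk φ x 1 y x hy1 hx1 hxx, ?_⟩
    rw [eq_div_iff hx0]
    exact hfrac y hy1
  refine ⟨s ∪ t, ?_, ?_⟩
  · intro z hz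
    rcases Finset.mem_union.1 hz with hz | hz
    · exact hs z hz
    · obtain ⟨w, rfl⟩ := ht z hz
      exact hV w
  · set B := Subring.closure ((j.range : Set K) ∪ ((s ∪ t : Finset K) : Set K)) with hBdef
    set C := Subring.closure ((j1.range : Set K) ∪ (s : Set K)) with hCdef
    have hjj : j.range ≤ j1.range := by
      rintro _ ⟨r, rfl⟩
      exact ⟨QT.of φ x r, hj1 r⟩
    have hjB : j.range ≤ B := fun z hz => Subring.subset_closure (Or.inl hz)
    have hsB : ∀ z ∈ s ∪ t, z ∈ B := fun z hz => Subring.subset_closure (Or.inr hz)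
    have hBC : B ≤ C := by
      rw [hBdef, Subring.closure_le]
      rintro z (hz | hz)
      · exact Subring.subset_closure (Or.inl (hjj hz))
      · rcases Finset.mem_union.1 (Finset.mem_coe.1 hz) with hz | hz
        · exact Subring.subset_closure (Or.inr hz)
        · exact Subring.subset_closure (Or.inl (ht z hz))
    have hM : maximalIdeal R ≤ ratioIdeal j B hjB x 1 := by
      rw [← hY, Ideal.span_le]
      intro y hy
      refine ⟨j y / j x, hsB _ (Finset.mem_union_right _ (Finset.mem_image_of_mem _ hy)), ?_⟩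
      rw [pow_one, div_mul_cancel₀ _ hx0]
    have hpow := ratioIdeal_pow j B hjB x (maximalIdeal R) hM
    have hj1B : j1.range ≤ locV V B := by
      rintro _ ⟨z, rfl⟩
      obtain ⟨N, b, s0, hb, hs0, hs0', rfl⟩ := z.exists_rep
      obtain ⟨β, hβ, hβ'⟩ := hpow N hb
      obtain ⟨σ, hσ, hσ'⟩ := hpow N hs0
      have hxN : x ^ N ∈ maximalIdeal R ^ N := Ideal.pow_mem_pow h.x_mem N
      have hxN' : Associated (φ (x ^ N)) (φ x ^ N) := by rw [map_pow]
      have hz' : j1 (QT.mk φ x N s0 (x ^ N) hs0 hxN hxN') = σ := by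
        have h1 : j1 (QT.mk φ x N s0 (x ^ N) hs0 hxN hxN') * j (x ^ N) = j s0 := by
          rw [← hj1 (x ^ N), ← map_mul, mul_comm, QT.of_mul_mk, hj1]
        rw [hσ', map_pow] at h1
        exact mul_right_cancel₀ (pow_ne_zero N hx0) h1
      have hunit : IsUnit (QT.mk φ x N s0 (x ^ N) hs0 hxN hxN') := by
        rw [h.isUnit_iff]
        have h1 := h.toW_mk hs0 hxN hxN'
        rw [map_pow] at h1
        obtain ⟨u, hu⟩ := hs0'
        have h2 : h.toW (QT.mk φ x N s0 (x ^ N) hs0 hxN hxN') * u = 1 := by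
          apply mul_left_cancel₀ (pow_ne_zero N h.x_ne)
          rw [← mul_assoc, h1, hu, mul_one]
        exact IsUnit.of_mul_eq_one _ h2
      refine ⟨β, hβ, σ, hσ, ?_, ?_⟩
      · rw [← hz']; exact (hV1 _).2 hunit
      · have h1 : j1 (QT.mk φ x N b s0 hb hs0 hs0') * j s0 = j b := by
          rw [← hj1 s0, ← map_mul, mul_comm, QT.of_mul_mk, hj1]
        rw [hβ', hσ', ← mul_assoc] at h1
        exact mul_right_cancel₀ (pow_ne_zero N hx0) h1
    have hCB : C ≤ locV V B := by
      rw [hCdef, Subring.closure_le]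
      rintro z (hz | hz)
      · exact hj1B hz
      · exact le_locV V B (hsB z (Finset.mem_union_left _ hz))
    have heq : locV V B = locV V C := by
      refine le_antisymm (locV_mono V hBC) ?_
      rw [← locV_locV V B]
      exact locV_mono V hCB
    rw [heq]
    exact hreg

theorem LU_of_regular {K : Type} [Field K] (V : ValuationSubring K) {R : Type} [CommRing R]
    [IsRegularLocalRing R] (j : R →+* K) (hj : Function.Injective j)
    (hV : ∀ r, j r ∈ V) (hV1 : ∀ r, V.valuation (j r) = 1 ↔ IsUnit r) : LU V j.range := by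
  refine ⟨∅, fun z hz => absurd hz (Finset.notMem_empty z), ?_⟩
  have h1 : Subring.closure ((j.range : Set K) ∪ ((∅ : Finset K) : Set K)) = j.range := by
    rw [Finset.coe_empty, Set.union_empty, Subring.closure_eq]
  rw [h1]
  have h2 : locV V j.range = j.range := by
    refine le_antisymm ?_ (le_locV V _)
    rintro z ⟨_, ⟨a, rfl⟩, _, ⟨b, rfl⟩, hb, hz⟩
    obtain ⟨u, rfl⟩ := (hV1 b).1 hb
    refine ⟨a * (↑u⁻¹ : R), ?_⟩
    rw [map_mul, ← hz, mul_assoc, ← map_mul, Units.mul_inv, map_one, mul_one]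
  rw [h2]
  exact IsRegularLocalRing.of_ringEquiv
    (RingEquiv.ofBijective j.rangeRestrict ⟨fun _ _ hab => hj (congrArg Subtype.val hab),
      RingHom.rangeRestrict_surjective _⟩)

end Pool.Agent.Lib.MP_3029eb_ag
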