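import Pool.Agent.Lib.MP_3029eb_ag.CompDefs
import Pool.Agent.Lib.MP_3029eb_ag.K3

/-!
Module C1 : calculus of `locV` and `im` (`le_locV`, `locV_mono` are in `K3`).
-/

open IsLocalRing
open scoped TensorProduct

namespace Pool.Agent.Lib.MP_3029eb_ag

variable {K : Type} [Field K]

theorem C1_val_one_iff (V : ValuationSubring K) (z : K) :
    V.valuation z = 1 ↔ z ∈ V ∧ z⁻¹ ∈ V ∧ z ≠ 0 := by
  constructor
  · intro h
    have hz : z ≠ 0 := by rintro rfl; rw [map_zero] at h; exact zero_ne_one h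
    refine ⟨(V.valuation_le_one_iff z).1 h.le, (V.valuation_le_one_iff _).1 ?_, hz⟩
    rw [map_inv₀, h, inv_one]
  · rintro ⟨h1, h2, hz⟩
    have h3 := (V.valuation_le_one_iff z).2 h1
    have h4 := (V.valuation_le_one_iff _).2 h2
    rw [map_inv₀] at h4
    refine le_antisymm h3 ?_
    have h6 : V.valuation z ≠ 0 := by simpa using hz
    calc (1 : _) = V.valuation z * (V.valuation z)⁻¹ := (mul_inv_cancel₀ h6).symm
      _ ≤ V.valuation z * 1 := by gcongr
      _ = _ := mul_one _

theorem C1_val_one_of_le {V V1 : ValuationSubring K} (h : V ≤ V1) {z : K}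
    (hz : V.valuation z = 1) : V1.valuation z = 1 := by
  rw [C1_val_one_iff] at hz ⊢
  exact ⟨h hz.1, h hz.2.1, hz.2.2⟩

/-- two elements of value at most one with a product of value one have value one -/
theorem C1_val_one_of_mul (V : ValuationSubring K) {z w : K} (hz : V.valuation z ≤ 1)
    (hw : V.valuation w ≤ 1) (h : V.valuation (z * w) = 1) : V.valuation z = 1 := by
  refine le_antisymm hz ?_
  rw [← h, map_mul]
  calc V.valuation z * V.valuation w ≤ V.valuation z * 1 := by gcongr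
    _ = _ := mul_one _

theorem locV_le (V : ValuationSubring K) {A : Subring K} (h : A ≤ V.toSubring) :
    locV V A ≤ V.toSubring := by
  rintro z ⟨a, ha, b, hb, hb1, hz⟩
  have h1 : V.valuation a ≤ 1 := (V.valuation_le_one_iff a).2 (h ha)
  rw [← hz, map_mul, hb1, mul_one] at h1
  exact (V.valuation_le_one_iff z).1 h1

theorem C1_locV_le_locV {V V1 : ValuationSubring K} (h : V ≤ V1) (A : Subring K) :
    locV V A ≤ locV V1 A := by
  rintro z ⟨a, ha, b, hb, hb1, hz⟩
  exact ⟨a, ha, b, hb, C1_val_one_of_le h hb1, hz⟩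

/-- localizing first at the centre of the smaller ring changes nothing -/
theorem locV_locV_le {V V1 : ValuationSubring K} (h : V ≤ V1) (A : Subring K) :
    locV V1 (locV V A) = locV V1 A := by
  refine le_antisymm ?_ (locV_mono V1 (le_locV V A))
  calc locV V1 (locV V A) ≤ locV V1 (locV V1 A) := locV_mono V1 (C1_locV_le_locV h A)
    _ = locV V1 A := locV_locV V1 A

theorem locV_closure_locV {V V1 : ValuationSubring K} (h : V ≤ V1) (A : Subring K) (s : Set K) :
    locV V1 (Subring.closure ((locV V A : Set K) ∪ s)) =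
      locV V1 (Subring.closure ((A : Set K) ∪ s)) := by
  refine le_antisymm ?_ (locV_mono V1 (Subring.closure_mono
    (Set.union_subset_union_left s (le_locV V A))))
  rw [← locV_locV V1 (Subring.closure ((A : Set K) ∪ s))]
  apply locV_mono
  rw [Subring.closure_le]
  rintro z (hz | hz)
  · refine locV_mono V1 ?_ (C1_locV_le_locV h A hz)
    intro w hw
    exact Subring.subset_closure (Or.inl hw)
  · exact le_locV V1 _ (Subring.subset_closure (Or.inr hz))

/-- elements of the localization may be adjoined for free -/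
theorem locV_closure_of_subset (V : ValuationSubring K) (A : Subring K) (s : Set K)
    (hs : s ⊆ locV V A) : locV V (Subring.closure ((A : Set K) ∪ s)) = locV V A := by
  refine le_antisymm ?_ (locV_mono V fun w hw => Subring.subset_closure (Or.inl hw))
  rw [← locV_locV V A]
  apply locV_mono
  rw [Subring.closure_le]
  rintro z (hz | hz)
  · exact le_locV V _ hz
  · exact hs hz

theorem C1_mem_im (V1 : ValuationSubring K) (A : Subring K) (w : ResidueField V1) :
    w ∈ im V1 A ↔ ∃ u : V1, (u : K) ∈ A ∧ residue V1 u = w := by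
  constructor
  · rintro ⟨u, hu, hw⟩
    exact ⟨u, hu, hw⟩
  · rintro ⟨u, hu, hw⟩
    exact ⟨u, hu, hw⟩

theorem C1_mem_resV {V V1 : ValuationSubring K} (h : V ≤ V1) (w : ResidueField V1) :
    w ∈ resV V V1 h ↔ ∃ u : V1, (u : K) ∈ V ∧ residue V1 u = w := by
  constructor
  · rintro ⟨u, hw⟩
    exact ⟨ValuationSubring.inclusion V V1 h u, u.2, hw⟩
  · rintro ⟨u, hu, hw⟩
    exact ⟨⟨u, hu⟩, hw⟩

theorem C1_lt_of_lt {V V1 : ValuationSubring K} (h : V ≤ V1) {z : K}
    (hz : V1.valuation z < 1) : V.valuation z < 1 := by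
  by_contra hcon
  push Not at hcon
  rcases eq_or_ne z 0 with rfl | hz0
  · rw [map_zero] at hcon
    exact absurd hcon (not_le.2 zero_lt_one)
  · have h1 : V.valuation z⁻¹ ≤ 1 := by
      rw [map_inv₀]
      exact inv_le_one_of_one_le₀ hcon
    have h2 : z⁻¹ ∈ V1 := h ((V.valuation_le_one_iff _).1 h1)
    have h3 := (V1.valuation_le_one_iff _).2 h2
    rw [map_inv₀] at h3
    have h4 : V1.valuation z ≠ 0 := by simpa using hz0
    have h5 : (1 : _) ≤ V1.valuation z := by
      rwa [inv_le_one₀ (zero_lt_iff.2 h4)] at h3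
    exact absurd h5 (not_le.2 hz)

/-- for `u` in `V`: `u` has value one iff its residue has value one -/
theorem C1_resV_val {V V1 : ValuationSubring K} (h : V ≤ V1) (u : V1) (hu : (u : K) ∈ V) :
    (resV V V1 h).valuation (residue V1 u) = 1 ↔ V.valuation (u : K) = 1 := by
  constructor
  · intro h1
    rw [C1_val_one_iff] at h1
    obtain ⟨_, h2, h3⟩ := h1
    obtain ⟨w, hw, hw'⟩ := (C1_mem_resV h _).1 h2
    have h4 : residue V1 (u * w - 1) = 0 := by
      rw [map_sub, map_mul, hw', map_one, mul_inv_cancel₀ h3, sub_self]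
    rw [residue_eq_zero_iff] at h4
    have h5 : V1.valuation ((u * w - 1 : V1) : K) < 1 :=
      (ValuationSubring.valuation_lt_one_iff V1 _).1 h4
    have h6 := C1_lt_of_lt h h5
    have h7 : V.valuation ((u : K) * (w : K)) = 1 := by
      have h8 : (u : K) * (w : K) = ((u * w - 1 : V1) : K) + 1 := by
        push_cast
        ring
      rw [h8]
      have h9 := Valuation.map_add_eq_of_lt_right V.valuation (x := ((u * w - 1 : V1) : K))
        (y := (1 : K)) (by rw [map_one]; exact h6)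
      rw [h9, map_one]
    exact C1_val_one_of_mul V ((V.valuation_le_one_iff _).2 hu) ((V.valuation_le_one_iff _).2 hw) h7
  · intro h1
    obtain ⟨h2, h3, h4⟩ := (C1_val_one_iff V _).1 h1
    rw [C1_val_one_iff]
    have h5 : u * (⟨(u : K)⁻¹, h h3⟩ : V1) = 1 := Subtype.ext (mul_inv_cancel₀ h4)
    have h6 : residue V1 u * residue V1 ⟨(u : K)⁻¹, h h3⟩ = 1 := by
      rw [← map_mul, h5, map_one]
    have h7 : residue V1 u ≠ 0 := left_ne_zero_of_mul_eq_one h6
    refine ⟨(C1_mem_resV h _).2 ⟨u, hu, rfl⟩, ?_, h7⟩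
    rw [inv_eq_of_mul_eq_one_right h6]
    exact (C1_mem_resV h _).2 ⟨⟨(u : K)⁻¹, h h3⟩, h3, rfl⟩

theorem im_locV {V V1 : ValuationSubring K} (h : V ≤ V1) (A : Subring K)
    (hA : A ≤ V.toSubring) : im V1 (locV V A) = locV (resV V V1 h) (im V1 A) := by
  apply le_antisymm
  · intro w hw
    obtain ⟨u, ⟨a, ha, b, hb, hb1, hz⟩, rfl⟩ := (C1_mem_im _ _ _).1 hw
    have haV : a ∈ V := hA ha
    have hbV : b ∈ V := hA hb
    refine ⟨residue V1 ⟨a, h haV⟩, (C1_mem_im _ _ _).2 ⟨_, ha, rfl⟩, residue V1 ⟨b, h hbV⟩,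
      (C1_mem_im _ _ _).2 ⟨_, hb, rfl⟩, (C1_resV_val h ⟨b, h hbV⟩ hbV).2 hb1, ?_⟩
    rw [← map_mul]
    congr 1
    exact Subtype.ext hz
  · rintro w ⟨α, hα, β, hβ, hβ1, hw⟩
    obtain ⟨a, ha, rfl⟩ := (C1_mem_im _ _ _).1 hα
    obtain ⟨b, hb, rfl⟩ := (C1_mem_im _ _ _).1 hβ
    have hb1 : V.valuation (b : K) = 1 := (C1_resV_val h b (hA hb)).1 hβ1
    obtain ⟨h2, h3, h4⟩ := (C1_val_one_iff V _).1 hb1
    have hz : (a : K) * (b : K)⁻¹ ∈ V1 := V1.mul_mem _ _ a.2 (h h3)
    refine (C1_mem_im _ _ _).2 ⟨⟨(a : K) * (b : K)⁻¹, hz⟩, ⟨a, ha, b, hb, hb1, ?_⟩, ?_⟩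
    · rw [mul_assoc, inv_mul_cancel₀ h4, mul_one]
    · have h5 : residue V1 b ≠ 0 := by
        intro h6
        rw [h6, map_zero] at hβ1
        exact zero_ne_one hβ1
      apply mul_right_cancel₀ h5
      rw [hw, ← map_mul]
      congr 1
      apply Subtype.ext
      show (a : K) * (b : K)⁻¹ * (b : K) = a
      rw [mul_assoc, inv_mul_cancel₀ h4, mul_one]

theorem im_closure (V1 : ValuationSubring K) (A : Subring K) (hA : A ≤ V1.toSubring)
    (s : Set K) (hs : ∀ z ∈ s, z ∈ V1) :
    im V1 (Subring.closure ((A : Set K) ∪ s)) =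
      Subring.closure ((im V1 A : Set (ResidueField V1)) ∪
        {w | ∃ (z : K) (hz : z ∈ s), residue V1 ⟨z, hs z hz⟩ = w}) := by
  set RHS := Subring.closure ((im V1 A : Set (ResidueField V1)) ∪
        {w | ∃ (z : K) (hz : z ∈ s), residue V1 ⟨z, hs z hz⟩ = w}) with hR
  apply le_antisymm
  · intro w hw
    obtain ⟨u, hu, rfl⟩ := (C1_mem_im _ _ _).1 hw
    have key : ∀ x ∈ Subring.closure ((A : Set K) ∪ s), ∃ hx : x ∈ V1,
        residue V1 ⟨x, hx⟩ ∈ RHS := by
      intro x hx
      induction hx using Subring.closure_induction with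
      | mem x hx =>
        rcases hx with hx | hx
        · exact ⟨hA hx, Subring.subset_closure (Or.inl ((C1_mem_im _ _ _).2 ⟨⟨x, hA hx⟩, hx, rfl⟩))⟩
        · exact ⟨hs x hx, Subring.subset_closure (Or.inr ⟨x, hx, rfl⟩)⟩
      | zero =>
        refine ⟨V1.zero_mem, ?_⟩
        have : residue V1 ⟨0, V1.zero_mem⟩ = 0 := map_zero (residue V1)
        rw [this]
        exact zero_mem _
      | one =>
        refine ⟨V1.one_mem, ?_⟩
        have : residue V1 ⟨1, V1.one_mem⟩ = 1 := map_one (residue V1)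
        rw [this]
        exact one_mem _
      | add x y _ _ hx hy =>
        obtain ⟨hx1, hx2⟩ := hx
        obtain ⟨hy1, hy2⟩ := hy
        refine ⟨V1.add_mem _ _ hx1 hy1, ?_⟩
        have : residue V1 ⟨x + y, V1.add_mem _ _ hx1 hy1⟩ =
            residue V1 ⟨x, hx1⟩ + residue V1 ⟨y, hy1⟩ := by
          rw [← map_add]; rfl
        rw [this]
        exact add_mem hx2 hy2
      | neg x _ hx =>
        obtain ⟨hx1, hx2⟩ := hx
        refine ⟨V1.neg_mem _ hx1, ?_⟩
        have : residue V1 ⟨-x, V1.neg_mem _ hx1⟩ = - residue V1 ⟨x, hx1⟩ := by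
          rw [← map_neg]; rfl
        rw [this]
        exact neg_mem hx2
      | mul x y _ _ hx hy =>
        obtain ⟨hx1, hx2⟩ := hx
        obtain ⟨hy1, hy2⟩ := hy
        refine ⟨V1.mul_mem _ _ hx1 hy1, ?_⟩
        have : residue V1 ⟨x * y, V1.mul_mem _ _ hx1 hy1⟩ =
            residue V1 ⟨x, hx1⟩ * residue V1 ⟨y, hy1⟩ := by
          rw [← map_mul]; rfl
        rw [this]
        exact mul_mem hx2 hy2
    exact (key u hu).2
  · rw [hR, Subring.closure_le]
    rintro w (hw | ⟨z, hz, rfl⟩)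
    · obtain ⟨u, hu, rfl⟩ := (C1_mem_im _ _ _).1 hw
      exact (C1_mem_im _ _ _).2 ⟨u, Subring.subset_closure (Or.inl hu), rfl⟩
    · exact (C1_mem_im _ _ _).2 ⟨⟨z, hs z hz⟩, Subring.subset_closure (Or.inr hz), rfl⟩

theorem isUnit_locV_iff (V : ValuationSubring K) {A : Subring K} (h : A ≤ V.toSubring)
    (z : locV V A) : IsUnit z ↔ V.valuation (z : K) = 1 := by
  constructor
  · intro hz
    obtain ⟨w, hw⟩ := hz.exists_right_inv
    have h1 : V.valuation (z : K) ≤ 1 := (V.valuation_le_one_iff _).2 (locV_le V h z.2)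
    have h2 : V.valuation (w : K) ≤ 1 := (V.valuation_le_one_iff _).2 (locV_le V h w.2)
    refine C1_val_one_of_mul V h1 h2 ?_
    have h3 : (z : K) * (w : K) = 1 := by
      rw [← Subring.coe_mul, hw, Subring.coe_one]
    rw [h3, map_one]
  · intro hz
    obtain ⟨a, ha, b, hb, hb1, hab⟩ := z.2
    have hz0 : (z : K) ≠ 0 := ((C1_val_one_iff V _).1 hz).2.2
    have ha1 : V.valuation a = 1 := by rw [← hab, map_mul, hz, hb1, one_mul]
    have hmem : (z : K)⁻¹ ∈ locV V A := by
      refine ⟨b, hb, a, ha, ha1, ?_⟩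
      rw [← hab, ← mul_assoc, inv_mul_cancel₀ hz0, one_mul]
    exact IsUnit.of_mul_eq_one ⟨(z : K)⁻¹, hmem⟩ (Subtype.ext (mul_inv_cancel₀ hz0))

theorem isLocalRing_locV (V : ValuationSubring K) {A : Subring K} (h : A ≤ V.toSubring) :
    IsLocalRing (locV V A) := by
  apply IsLocalRing.of_nonunits_add
  intro a b ha hb
  rw [mem_nonunits_iff, isUnit_locV_iff V h] at ha hb ⊢
  have h1 : V.valuation (a : K) < 1 :=
    lt_of_le_of_ne ((V.valuation_le_one_iff _).2 (locV_le V h a.2)) ha
  have h2 : V.valuation (b : K) < 1 :=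
    lt_of_le_of_ne ((V.valuation_le_one_iff _).2 (locV_le V h b.2)) hb
  rw [Subring.coe_add]
  exact (Valuation.map_add_lt _ h1 h2).ne

theorem isNoetherianRing_locV (V : ValuationSubring K) {A : Subring K} [IsNoetherianRing A] :
    IsNoetherianRing (locV V A) := by
  let M : Submonoid A :=
    { carrier := {b | V.valuation (b : K) = 1}
      one_mem' := map_one _
      mul_mem' := by
        intro a b ha hb
        rw [Set.mem_ofPred_eq] at ha hb ⊢
        rw [Subring.coe_mul, map_mul, ha, hb, one_mul] }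
  let : Algebra A (locV V A) := (Subring.inclusion (le_locV V A)).toAlgebra
  have hmap : ∀ a : A, ((algebraMap A (locV V A) a : locV V A) : K) = a := fun a => rfl
  have : IsLocalization M (locV V A) :=
    { map_units := by
        rintro ⟨b, hb⟩
        have hb' : V.valuation (b : K) = 1 := hb
        have hb0 : (b : K) ≠ 0 := ((C1_val_one_iff V _).1 hb').2.2
        have hmem : (b : K)⁻¹ ∈ locV V A :=
          ⟨1, one_mem _, b, b.2, hb', inv_mul_cancel₀ hb0⟩
        exact IsUnit.of_mul_eq_one ⟨(b : K)⁻¹, hmem⟩ (Subtype.ext (mul_inv_cancel₀ hb0))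
      surj := by
        rintro ⟨z, a, ha, b, hb, hb1, hab⟩
        exact ⟨(⟨a, ha⟩, ⟨⟨b, hb⟩, hb1⟩), Subtype.ext hab⟩
      exists_of_eq := by
        intro x y hxy
        refine ⟨1, ?_⟩
        have : (x : K) = y := by
          rw [← hmap x, ← hmap y, hxy]
        rw [Subtype.ext this] }
  exact IsLocalization.isNoetherianRing M (locV V A) inferInstance

theorem isNoetherianRing_closure {A : Subring K} [IsNoetherianRing A] (s : Finset K) :
    IsNoetherianRing (Subring.closure ((A : Set K) ∪ (s : Set K))) := by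
  have h1 : (Algebra.adjoin A (s : Set K)).toSubring =
      Subring.closure ((A : Set K) ∪ (s : Set K)) := by
    rw [Algebra.adjoin_eq_ring_closure]
    congr 2
    ext z
    constructor
    · rintro ⟨a, rfl⟩
      exact a.2
    · intro hz
      exact ⟨⟨z, hz⟩, rfl⟩
  rw [← h1]
  have h2 : (Algebra.adjoin A (s : Set K)).FG := ⟨s, rfl⟩
  exact isNoetherianRing_of_fg h2

end Pool.Agent.Lib.MP_3029eb_ag
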