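import Pool.Agent.Lib.MP_3029eb_ag.AbhDefs
import Pool.Agent.Lib.MP_3029eb_ag.Comp1
import Pool.Agent.Lib.MP_3029eb_ag.Comp2

/-!
Basic facts on unit balls, used in the assembly of the Abhyankar part.
-/

open IsLocalRing

namespace Pool.Agent.Lib.MP_3029eb_ag.Abh

section

variable {K : Type} [NormedField K] [IsUltrametricDist K]

theorem ball_val_eq_one (z : K) : (ball K).valuation z = 1 ↔ ‖z‖ = 1 := by
  rw [C1_val_one_iff, mem_ball, mem_ball, norm_inv]
  constructor
  · rintro ⟨h1, h2, h3⟩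
    have h4 : 0 < ‖z‖ := norm_pos_iff.2 h3
    refine le_antisymm h1 ?_
    have := (inv_le_one₀ h4).1 h2
    exact this
  · intro h
    have h3 : z ≠ 0 := by
      rintro rfl; rw [norm_zero] at h; exact zero_ne_one h
    exact ⟨h.le, by rw [h, inv_one], h3⟩

theorem ball_val_lt_one (z : K) : (ball K).valuation z < 1 ↔ ‖z‖ < 1 := by
  rw [lt_iff_le_and_ne, lt_iff_le_and_ne, Ne, Ne, ball_val_eq_one,
    ValuationSubring.valuation_le_one_iff, mem_ball]

/-- the inclusion of a local subring closed under localization dominates -/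
theorem dom_subtype (A : Subring K) (hA : A ≤ (ball K).toSubring) (hloc : locV (ball K) A = A)
    [IsLocalRing A] : Dom A.subtype := by
  have hu : ∀ a : A, IsUnit a ↔ ‖(a : K)‖ = 1 := by
    intro a
    have h1 := isUnit_locV_iff (ball K) hA
    rw [hloc] at h1
    rw [h1, ball_val_eq_one]
  intro a
  have ha : ‖(a : K)‖ ≤ 1 := hA a.2
  refine ⟨ha, ?_⟩
  rw [mem_maximalIdeal, mem_nonunits_iff, hu]
  exact ⟨fun h => lt_of_le_of_ne ha h, fun h => h.ne⟩

theorem dom_locV (B : Subring K) (hB : B ≤ (ball K).toSubring)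
    [IsLocalRing (locV (ball K) B)] : Dom (locV (ball K) B).subtype :=
  dom_subtype _ (locV_le _ hB) (locV_locV _ _)

theorem closure_le_ball (A : Subring K) (hA : A ≤ (ball K).toSubring) (s : Set K)
    (hs : ∀ z ∈ s, ‖z‖ ≤ 1) :
    Subring.closure ((A : Set K) ∪ s) ≤ (ball K).toSubring := by
  rw [Subring.closure_le]
  rintro z (hz | hz)
  · exact hA hz
  · exact hs z hz

end

section

variable {L : Type} [NormedField L]

theorem monN_mem {R : Type} [CommRing R] {r : ℕ} (x : Fin r → R) (β : Fin r → ℕ)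
    (hβ : β ≠ 0) : monN x β ∈ Ideal.span (Set.range x) := by
  obtain ⟨i, hi⟩ := Function.ne_iff.1 hβ
  rw [Pi.zero_apply] at hi
  have h1 : monN x β = x i * (x i ^ (β i - 1) * ∏ j ∈ Finset.univ.erase i, x j ^ β j) := by
    rw [monN, ← Finset.mul_prod_erase _ _ (Finset.mem_univ i), ← mul_assoc, ← pow_succ']
    congr 2
    omega
  rw [h1]
  exact Ideal.mul_mem_right _ _ (Ideal.subset_span ⟨i, rfl⟩)

theorem map_monN {R R' : Type} [CommRing R] [CommRing R'] (f : R →+* R') {r : ℕ}
    (x : Fin r → R) (β : Fin r → ℕ) : f (monN x β) = monN (fun i => f (x i)) β := by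
  simp only [monN, map_prod, map_pow]

theorem monN_add {R : Type} [CommMonoid R] {r : ℕ} (x : Fin r → R) (a b : Fin r → ℕ) :
    monN x (a + b) = monN x a * monN x b := by
  simp only [monN, Pi.add_apply, pow_add, Finset.prod_mul_distrib]

theorem monN_zero {R : Type} [CommMonoid R] {r : ℕ} (x : Fin r → R) :
    monN x (0 : Fin r → ℕ) = 1 := by
  simp only [monN, Pi.zero_apply, pow_zero, Finset.prod_const_one]

theorem map_mon {K : Type} [Field K] (f : K →+* L) {r : ℕ} (x : Fin r → K) (δ : Fin r → ℤ) :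
    f (mon x δ) = mon (fun i => f (x i)) δ := by
  simp only [mon, map_prod, map_zpow₀]

theorem Indep.map {K : Type} [NormedField K] (f : K →+* L) (hf : ∀ z, ‖f z‖ = ‖z‖) {r : ℕ}
    {x : Fin r → K} (hx : Indep x) : Indep (fun i => f (x i)) := by
  refine ⟨fun i => ?_, fun i => ?_, fun δ hδ => ?_⟩
  · rw [Ne, map_eq_zero]; exact hx.ne i
  · rw [hf]; exact hx.lt i
  · apply hx.indep
    rw [← hf, map_mon]; exact hδ

end

end Pool.Agent.Lib.MP_3029eb_ag.Abh
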