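import Pool.Agent.Lib.MP_3029eb_ag.AbhE13

/-!
Module E14: a noetherian local domain with regular generic formal fibre is analytically
unramified.
-/

open IsLocalRing

namespace Pool.Agent.Lib.MP_3029eb_ag.Abh
open Pool.Agent.Lib.MP_3029eb_ag

/-- A noetherian local domain with regular generic formal fibre is analytically unramified. -/
theorem anUnr_of_GFR (B : Type) [CommRing B] [IsDomain B] [IsNoetherianRing B] [IsLocalRing B]
    (h : GFR B) : AnUnr B := by
  have hN : IsNoetherianRing (AdicCompletion (maximalIdeal B) B) := noetherian_adicCompletion B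
  have hflat : Module.Flat B (AdicCompletion (maximalIdeal B) B) :=
    AdicCompletion.flat_of_isNoetherian _
  refine (isReduced_iff _).2 fun x hx => ?_
  by_contra hx0
  obtain ⟨Q, ⟨hQ, y, hy⟩, hxQ⟩ := exists_le_isAssociatedPrime_of_isNoetherianRing
    (AdicCompletion (maximalIdeal B) B) x hx0
  have hy0 : y ≠ 0 := by
    rintro rfl
    apply hQ.ne_top
    rw [hy, Ideal.eq_top_iff_one]
    exact Ideal.le_radical (by simp [Submodule.mem_colon_singleton])
  have hQB : Q.comap (algebraMap B (AdicCompletion (maximalIdeal B) B)) = ⊥ := by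
    rw [eq_bot_iff]
    intro b hb
    by_contra hb0
    have h2 : algebraMap B (AdicCompletion (maximalIdeal B) B) b ∈ Q := hb
    rw [hy] at h2
    obtain ⟨n, hn⟩ := h2
    rw [Submodule.mem_colon_singleton, Submodule.mem_bot, ← map_pow, smul_eq_mul,
      ← Algebra.smul_def] at hn
    have h3 : b ^ n ≠ 0 := pow_ne_zero n hb0
    have h4 := Module.Flat.isSMulRegular_of_nonZeroDivisors (M := AdicCompletion (maximalIdeal B) B)
      (mem_nonZeroDivisors_of_ne_zero h3)
    exact hy0 (h4 (by simpa using hn))
  have hreg := h Q hQB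
  have hdom : IsDomain (Localization.AtPrime Q) := isDomain_of_isRegularLocalRing _
  have h1 : algebraMap _ (Localization.AtPrime Q) x = 0 :=
    (hx.map (algebraMap _ (Localization.AtPrime Q))).eq_zero
  obtain ⟨⟨s, hs⟩, hsx⟩ := (IsLocalization.map_eq_zero_iff Q.primeCompl _ x).1 h1
  exact hs (hxQ (by rw [Submodule.mem_colon_singleton]; simpa using hsx))

end Pool.Agent.Lib.MP_3029eb_ag.Abh
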