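import Mathlib
import Pool.Agent.Lib.MP_1ce8ed_ag.RL3

/-!
Module GR-GA1 (helper2): flat descent of regularity for local rings.
-/

open IsLocalRing
open scoped TensorProduct

namespace Pool.Agent.Lib.MP_3029eb_ag.GR

open Pool.Agent.Lib.MP_1ce8ed_ag

/-- finiteness of the projective dimension descends along flat local homomorphisms -/
theorem GA1_pd (A B : Type) [CommRing A] [CommRing B] [IsLocalRing A] [IsLocalRing B]
    [IsNoetherianRing A] [Algebra A B] [Module.Flat A B] [IsLocalHom (algebraMap A B)] (k : ℕ) :
    ∀ (M : Type) [AddCommGroup M] [Module A M] [Module.Finite A M],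
      PD B k (B ⊗[A] M) → PD A k M := by
  have hff : Module.FaithfullyFlat A B := Module.FaithfullyFlat.of_flat_of_isLocalHom
  induction k with
  | zero =>
    intro M _ _ _ h
    rw [pd_zero_iff] at h ⊢
    have h1 : Module.Flat B (B ⊗[A] M) := @Module.Flat.of_projective _ _ _ _ _ h
    have h2 : Module.Flat A M := Module.Flat.of_flat_tensorProduct A M B
    have h3 : Module.Free A M := Module.free_of_flat_of_isLocalRing
    exact Module.Projective.of_free
  | succ k ih =>
    intro M _ _ _ h
    obtain ⟨m, f, hf⟩ := Module.Finite.exists_fin' A M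
    rw [pd_succ_iff f hf]
    refine ih (LinearMap.ker f) ?_
    have hs : Function.Surjective (TensorProduct.AlgebraTensorModule.lTensor B B f) :=
      LinearMap.lTensor_surjective B hf
    have h1 := (pd_succ_iff (TensorProduct.AlgebraTensorModule.lTensor B B f) hs k).1 h
    exact pd_of_equiv (LinearMap.tensorKerEquiv B B f).symm h1

/-- GA1 -/
theorem regularLocal_of_flat (A B : Type) [CommRing A] [CommRing B] [IsLocalRing A]
    [IsNoetherianRing A] [IsRegularLocalRing B] [Algebra A B] [Module.Flat A B]
    [IsLocalHom (algebraMap A B)] : IsRegularLocalRing A := by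
  have hfin : Module.Finite A (ResidueField A) :=
    Module.Finite.of_surjective (Algebra.linearMap A (ResidueField A)) residue_surjective
  obtain ⟨k, hk⟩ := exists_pd B (B ⊗[A] ResidueField A)
  exact abs_aux _ A le_rfl ⟨k, GA1_pd A B k (ResidueField A) hk⟩

end Pool.Agent.Lib.MP_3029eb_ag.GR
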