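import Pool.Agent.Lib.MP_1ce8ed_ag.RL4
import Pool.Agent.Lib.MP_3029eb_ag.GRA1

/-!
Module GR-GA2: regular rings, localizations and faithfully flat descent.
-/

open IsLocalRing
open scoped TensorProduct

namespace Pool.Agent.Lib.MP_3029eb_ag.GR


/-- GA2a -/
theorem isRegularRing_of_regularLocal (A : Type) [CommRing A] [IsRegularLocalRing A] :
    IsRegularRing A :=
  isRegularRing_iff.2 fun p _ => Pool.Agent.Lib.MP_1ce8ed_ag.regular_localization p

/-- GA2b -/
theorem isRegularRing_of_isLocalization (A : Type) [CommRing A] [IsRegularRing A]
    (M : Submonoid A) (B : Type) [CommRing B] [Algebra A B] [IsLocalization M B] :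
    IsRegularRing B := by
  have : IsNoetherianRing B := IsLocalization.isNoetherianRing M B inferInstance
  rw [isRegularRing_iff]
  intro p hp
  have h1 : IsLocalization.AtPrime (Localization.AtPrime p) (p.comap (algebraMap A B)) :=
    IsLocalization.isLocalization_isLocalization_atPrime_isLocalization M
      (Localization.AtPrime p) p
  exact IsRegularLocalRing.of_ringEquiv
    (IsLocalization.algEquiv (p.comap (algebraMap A B)).primeCompl
      (Localization.AtPrime (p.comap (algebraMap A B))) (Localization.AtPrime p)).toRingEquiv

/-- GA2c -/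
theorem isRegularRing_of_faithfullyFlat (A B : Type) [CommRing A] [CommRing B]
    [IsNoetherianRing A] [IsRegularRing B] [Algebra A B] [Module.FaithfullyFlat A B] :
    IsRegularRing A := by
  rw [isRegularRing_iff]
  intro p hp
  obtain ⟨q, hq⟩ := PrimeSpectrum.comap_surjective_of_faithfullyFlat (A := A) (B := B) ⟨p, hp⟩
  have hqp : p = q.asIdeal.comap (algebraMap A B) := (congrArg PrimeSpectrum.asIdeal hq).symm
  have hflat : (algebraMap A B).Flat := by
    rw [RingHom.flat_algebraMap_iff]
    infer_instance
  have h1 := hflat.localRingHom q.asIdeal p hqp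
  have h2 : IsLocalHom (Localization.localRingHom p q.asIdeal (algebraMap A B) hqp) :=
    Localization.isLocalHom_localRingHom p q.asIdeal (algebraMap A B) hqp
  let := (Localization.localRingHom p q.asIdeal (algebraMap A B) hqp).toAlgebra
  have h3 : Module.Flat (Localization.AtPrime p) (Localization.AtPrime q.asIdeal) := h1
  have h4 : IsLocalHom (algebraMap (Localization.AtPrime p) (Localization.AtPrime q.asIdeal)) := h2
  have h5 : IsNoetherianRing (Localization.AtPrime p) :=
    IsLocalization.isNoetherianRing p.primeCompl _ inferInstance
  exact regularLocal_of_flat (Localization.AtPrime p) (Localization.AtPrime q.asIdeal)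

end Pool.Agent.Lib.MP_3029eb_ag.GR
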