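import Mathlib
import Pool.Agent.Lib.MP_1ce8ed_ag.RL1

open IsLocalRing
open scoped TensorProduct

namespace Pool.Agent.Lib.MP_3029eb_ag.GR

/-- the derivation argument -/
theorem GA3_notMem (A : Type) [CommRing A] (g : Polynomial A) (hg : g.Separable)
    (P : Ideal (Polynomial A)) [P.IsPrime] (hgP : g ∈ P) :
    algebraMap (Polynomial A) (Localization.AtPrime P) g ∉
      maximalIdeal (Localization.AtPrime P) ^ 2 := by
  intro h
  rw [← Localization.AtPrime.map_eq_maximalIdeal, ← Ideal.map_pow,
    IsLocalization.algebraMap_mem_map_algebraMap_iff P.primeCompl] at h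
  obtain ⟨s, hs, h⟩ := h
  have hder : ∀ x ∈ P ^ 2, Polynomial.derivative x ∈ P := by
    intro x hx
    rw [pow_two] at hx
    refine Submodule.mul_induction_on hx ?_ ?_
    · intro a ha b hb
      rw [Polynomial.derivative_mul]
      exact P.add_mem (P.mul_mem_left _ hb) (P.mul_mem_right _ ha)
    · intro a b ha hb
      rw [Polynomial.derivative_add]
      exact P.add_mem ha hb
  have h1 := hder _ h
  rw [Polynomial.derivative_mul] at h1
  have h2 : s * Polynomial.derivative g ∈ P :=
    (P.add_mem_iff_right (P.mul_mem_left _ hgP)).1 h1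
  have h3 : Polynomial.derivative g ∈ P :=
    (Ideal.IsPrime.mem_or_mem inferInstance h2).resolve_left hs
  obtain ⟨a, b, hab⟩ := hg
  have h4 : (1 : Polynomial A) ∈ P := by
    rw [← hab]
    exact P.add_mem (P.mul_mem_left _ hgP) (P.mul_mem_left _ h3)
  exact (Ideal.ne_top_iff_one P).1 (Ideal.IsPrime.ne_top inferInstance) h4

/-- localizations of quotients -/
theorem GA3_localize (B C : Type) [CommRing B] [CommRing C] (π : B →+* C)
    (hπ : Function.Surjective π) (Q : Ideal C) [Q.IsPrime] (P : Ideal B) [P.IsPrime]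
    (hP : Q.comap π = P) (T : Type) [CommRing T] [IsRegularLocalRing T]
    (ψ : Localization.AtPrime P →+* T) (hψ : Function.Surjective ψ)
    (hker : RingHom.ker ψ = (RingHom.ker π).map (algebraMap B (Localization.AtPrime P))) :
    IsRegularLocalRing (Localization.AtPrime Q) := by
  let ψ' : B →+* T := ψ.comp (algebraMap B (Localization.AtPrime P))
  have hle : RingHom.ker π ≤ RingHom.ker ψ' := by
    intro a ha
    have h1 : algebraMap B (Localization.AtPrime P) a ∈ RingHom.ker ψ := by
      rw [hker]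
      exact Ideal.mem_map_of_mem _ ha
    exact h1
  let φ : C →+* T := RingHom.liftOfSurjective π hπ ⟨ψ', hle⟩
  have hφ : φ.comp π = ψ' := RingHom.liftOfRightInverse_comp _ _ _ _
  let _ : Algebra C T := φ.toAlgebra
  have hloc : IsLocalization (P.primeCompl.map π) T := by
    refine IsLocalization.of_surjective P.primeCompl (Localization.AtPrime P) π hπ ψ hψ ?_
      (le_of_eq hker)
    exact hφ.symm
  have hM : P.primeCompl.map π = Q.primeCompl := by
    ext y
    constructor
    · rintro ⟨z, hz, rfl⟩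
      have hz' : z ∉ P := hz
      rw [← hP] at hz'
      exact hz'
    · intro hy
      obtain ⟨z, rfl⟩ := hπ y
      refine ⟨z, ?_, rfl⟩
      change z ∉ P
      rw [← hP]
      exact hy
  rw [hM] at hloc
  have e := IsLocalization.algEquiv Q.primeCompl T (Localization.AtPrime Q)
  exact IsRegularLocalRing.of_ringEquiv e.toRingEquiv

theorem GA3_adjoinRoot (A : Type) [CommRing A] [IsRegularRing A] (g : Polynomial A)
    (hg : g.Separable) : IsRegularRing (AdjoinRoot g) := by
  have hnoeth : IsNoetherianRing (AdjoinRoot g) :=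
    isNoetherianRing_of_surjective (Polynomial A) (AdjoinRoot g) (AdjoinRoot.mk g)
      AdjoinRoot.mk_surjective
  refine isRegularRing_iff.2 fun Q hQ => ?_
  have hP : (Q.comap (AdjoinRoot.mk g)).IsPrime := Ideal.IsPrime.comap _
  have hgP : g ∈ Q.comap (AdjoinRoot.mk g) := by
    change AdjoinRoot.mk g g ∈ Q
    rw [AdjoinRoot.mk_self]
    exact Q.zero_mem
  have hx : algebraMap (Polynomial A) (Localization.AtPrime (Q.comap (AdjoinRoot.mk g))) g ∈
      maximalIdeal (Localization.AtPrime (Q.comap (AdjoinRoot.mk g))) := by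
    rw [← Localization.AtPrime.map_eq_maximalIdeal]
    exact Ideal.mem_map_of_mem _ hgP
  obtain ⟨hr, -⟩ := Pool.Agent.Lib.MP_1ce8ed_ag.regular_quotient hx
    (GA3_notMem A g hg (Q.comap (AdjoinRoot.mk g)) hgP)
  refine GA3_localize (Polynomial A) (AdjoinRoot g) (AdjoinRoot.mk g) AdjoinRoot.mk_surjective Q
    (Q.comap (AdjoinRoot.mk g)) rfl
    (Localization.AtPrime (Q.comap (AdjoinRoot.mk g)) ⧸ Ideal.span {algebraMap (Polynomial A)
      (Localization.AtPrime (Q.comap (AdjoinRoot.mk g))) g})
    (Ideal.Quotient.mk _) Ideal.Quotient.mk_surjective ?_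
  have h1 : RingHom.ker (AdjoinRoot.mk g) = Ideal.span {g} := Ideal.mk_ker
  rw [Ideal.mk_ker, h1, Ideal.map_span, Set.image_singleton]

/-- GA3 -/
theorem isRegularRing_tensor_separable (k K E : Type) [Field k] [Field K] [Algebra k K]
    [FiniteDimensional k K] [Algebra.IsSeparable k K] [CommRing E] [Algebra k E]
    [IsRegularRing E] : IsRegularRing (K ⊗[k] E) := by
  obtain ⟨α, hα⟩ := Field.exists_primitive_element k K
  have hint : IsIntegral k α := IsIntegral.of_finite k α
  have hsep : (minpoly k α).Separable := Algebra.IsSeparable.isSeparable k α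
  let e1 : AdjoinRoot (minpoly k α) ≃ₐ[k] K :=
    ((IntermediateField.adjoinRootEquivAdjoin k hint).trans
      (IntermediateField.equivOfEq hα)).trans IntermediateField.topEquiv
  have hE' : IsRegularRing (E ⊗[k] k) :=
    IsRegularRing.of_ringEquiv (Algebra.TensorProduct.rid k k E).symm.toRingEquiv
  let q : Polynomial (E ⊗[k] k) :=
    (minpoly k α).map (Algebra.TensorProduct.includeRight : k →ₐ[k] E ⊗[k] k).toRingHom
  have hq : q.Separable := hsep.map
  have hreg : IsRegularRing (AdjoinRoot q) := GA3_adjoinRoot _ q hq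
  let e2 : E ⊗[k] AdjoinRoot (minpoly k α) ≃ₐ[E] AdjoinRoot q :=
    AdjoinRoot.tensorAlgEquiv (minpoly k α) q rfl
  let e3 : K ⊗[k] E ≃ₐ[k] E ⊗[k] K := Algebra.TensorProduct.comm k K E
  let e4 : E ⊗[k] K ≃ₐ[k] E ⊗[k] AdjoinRoot (minpoly k α) :=
    Algebra.TensorProduct.congr AlgEquiv.refl e1.symm
  exact IsRegularRing.of_ringEquiv
    ((e2.toRingEquiv.symm.trans e4.toRingEquiv.symm).trans e3.toRingEquiv.symm)

end Pool.Agent.Lib.MP_3029eb_ag.GR
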