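import Mathlib

open IsLocalRing
open scoped TensorProduct

namespace Pool.Agent.Lib.MP_3029eb_ag.GR

/-- roots of polynomials in the variables -/
theorem GA4_root (F Ω : Type) [Field F] [Field Ω] [Algebra F Ω] (q : ℕ) [ExpChar Ω q] (N : ℕ)
    (n : ℕ) (t s : Fin n → Ω) (hs : ∀ i, s i ^ q ^ N = t i) (ρ : F → Ω)
    (hρ : ∀ a, ρ a ^ q ^ N = algebraMap F Ω a) (F' : IntermediateField F Ω)
    (P : MvPolynomial (Fin n) F) (hP : ∀ m ∈ P.support, ρ (P.coeff m) ∈ F') :
    ∃ y ∈ IntermediateField.adjoin F' (Set.range s), y ^ q ^ N = MvPolynomial.aeval t P := by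
  refine ⟨∑ m ∈ P.support, ρ (P.coeff m) * ∏ i, s i ^ m i, ?_, ?_⟩
  · refine sum_mem fun m hm => mul_mem ?_ (prod_mem fun i _ => pow_mem ?_ _)
    · exact IntermediateField.algebraMap_mem _ (⟨ρ (P.coeff m), hP m hm⟩ : F')
    · exact IntermediateField.subset_adjoin _ _ (Set.mem_range_self i)
  · rw [← iterateFrobenius_def, map_sum, MvPolynomial.aeval_def, MvPolynomial.eval₂_eq']
    refine Finset.sum_congr rfl fun m hm => ?_
    rw [map_mul, map_prod, iterateFrobenius_def, hρ]
    congr 1
    refine Finset.prod_congr rfl fun i _ => ?_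
    rw [map_pow, iterateFrobenius_def, hs]

theorem GA4_core (F Ω : Type) [Field F] [Field Ω] [Algebra F Ω] [IsAlgClosed Ω] (q : ℕ)
    [ExpChar Ω q] (n : ℕ) (t : Fin n → Ω) (ht : AlgebraicIndependent F t) (C : Finset Ω)
    (hC : ∀ c ∈ C, ∃ m : ℕ, c ^ q ^ m ∈ IntermediateField.adjoin F (Set.range t)) :
    ∃ (F' : IntermediateField F Ω) (s : Fin n → Ω), FiniteDimensional F F' ∧
      AlgebraicIndependent F' s ∧
      (∀ i, t i ∈ IntermediateField.adjoin F' (Set.range s)) ∧
      ∀ c ∈ C, c ∈ IntermediateField.adjoin F' (Set.range s) := by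
  classical
  have hq0 : 0 < q := expChar_pos Ω q
  choose! m hm using hC
  obtain ⟨N, hN⟩ : ∃ N, ∀ c ∈ C, m c ≤ N := ⟨C.sup m, fun c hc => Finset.le_sup hc⟩
  have hC' : ∀ c ∈ C, c ^ q ^ N ∈ IntermediateField.adjoin F (Set.range t) := by
    intro c hc
    have h1 : c ^ q ^ N = (c ^ q ^ m c) ^ q ^ (N - m c) := by
      rw [← pow_mul, ← pow_add, Nat.add_sub_cancel' (hN c hc)]
    rw [h1]
    exact pow_mem (hm c hc) _
  have hAB : ∀ c ∈ C, ∃ A B : MvPolynomial (Fin n) F,
      c ^ q ^ N = MvPolynomial.aeval t A / MvPolynomial.aeval t B := by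
    intro c hc
    have := (IntermediateField.mem_adjoin_range_iff F t (c ^ q ^ N)).1 (hC' c hc)
    obtain ⟨A, B, h⟩ := this
    exact ⟨A, B, h⟩
  choose! A B hAB using hAB
  have hpow : 0 < q ^ N := pow_pos hq0 N
  have hroot : ∀ x : Ω, ∃ y : Ω, y ^ q ^ N = x := fun x => IsAlgClosed.exists_pow_nat_eq x hpow
  choose r hr using hroot
  let ρ : F → Ω := fun a => r (algebraMap F Ω a)
  let s : Fin n → Ω := fun i => r (t i)
  have hs : ∀ i, s i ^ q ^ N = t i := fun i => hr _
  have hρ : ∀ a, ρ a ^ q ^ N = algebraMap F Ω a := fun a => hr _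
  let S : Finset Ω := C.biUnion fun c => ((A c).support.image fun m => ρ ((A c).coeff m)) ∪
    ((B c).support.image fun m => ρ ((B c).coeff m))
  let F' : IntermediateField F Ω := IntermediateField.adjoin F (S : Set Ω)
  have hint : ∀ x ∈ (S : Set Ω), IsIntegral F x := by
    intro x hx
    have : ∃ a : F, x = ρ a := by
      simp only [S, Finset.coe_biUnion, Set.mem_iUnion, Finset.coe_union, Finset.coe_image,
        Set.mem_union, Set.mem_image] at hx
      obtain ⟨c, hc, h | h⟩ := hx
      · obtain ⟨m, _, h⟩ := h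
        exact ⟨_, h.symm⟩
      · obtain ⟨m, _, h⟩ := h
        exact ⟨_, h.symm⟩
    obtain ⟨a, rfl⟩ := this
    refine IsIntegral.of_pow hpow ?_
    rw [hρ]
    exact isIntegral_algebraMap
  have hfin : FiniteDimensional F F' :=
    IntermediateField.finiteDimensional_adjoin hint
  have hS : ∀ c ∈ C, (∀ m ∈ (A c).support, ρ ((A c).coeff m) ∈ F') ∧
      ∀ m ∈ (B c).support, ρ ((B c).coeff m) ∈ F' := by
    intro c hc
    constructor
    · intro m hm
      refine IntermediateField.subset_adjoin F _ ?_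
      refine Finset.mem_coe.2 (Finset.mem_biUnion.2 ⟨c, hc, Finset.mem_union_left _ ?_⟩)
      exact Finset.mem_image_of_mem _ hm
    · intro m hm
      refine IntermediateField.subset_adjoin F _ ?_
      refine Finset.mem_coe.2 (Finset.mem_biUnion.2 ⟨c, hc, Finset.mem_union_right _ ?_⟩)
      exact Finset.mem_image_of_mem _ hm
  have hinj : Function.Injective (iterateFrobenius Ω q N) := (iterateFrobenius Ω q N).injective
  have hexp : ExpChar F' q := RingHom.expChar (algebraMap F' Ω) (algebraMap F' Ω).injective q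
  refine ⟨F', s, hfin, ?_, ?_, ?_⟩
  · have htF : AlgebraicIndependent F' t := by
      have halg : Algebra.IsAlgebraic F F' := inferInstance
      exact ht.extendScalars F'
    have h2 : AlgebraicIndependent F' ((iterateFrobenius Ω q N) ∘ s) := by
      have : (iterateFrobenius Ω q N) ∘ s = t := by
        funext i
        simp only [Function.comp, iterateFrobenius_def]
        exact hs i
      rw [this]
      exact htF
    refine AlgebraicIndependent.of_ringHom_of_comp_eq (iterateFrobenius F' q N)
      (iterateFrobenius Ω q N) h2 (iterateFrobenius F' q N).injective ?_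
    refine RingHom.ext fun x => ?_
    change algebraMap F' Ω (iterateFrobenius F' q N x) =
      iterateFrobenius Ω q N (algebraMap F' Ω x)
    rw [iterateFrobenius_def, iterateFrobenius_def, map_pow]
  · intro i
    rw [← hs i]
    have h1 : s i ∈ IntermediateField.adjoin F' (Set.range s) :=
      IntermediateField.subset_adjoin _ _ (Set.mem_range_self i)
    exact pow_mem h1 _
  · intro c hc
    obtain ⟨y, hy, hyA⟩ := GA4_root F Ω q N n t s hs ρ hρ F' (A c) (hS c hc).1
    obtain ⟨z, hz, hzB⟩ := GA4_root F Ω q N n t s hs ρ hρ F' (B c) (hS c hc).2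
    have : c = y / z := by
      apply hinj
      rw [iterateFrobenius_def, iterateFrobenius_def, div_pow, hyA, hzB]
      exact hAB c hc
    rw [this]
    exact div_mem hy hz

/-- GA4 -/
theorem exists_separating (F Ω : Type) [Field F] [Field Ω] [Algebra F Ω] [IsAlgClosed Ω]
    (n : ℕ) (t : Fin n → Ω) (ht : AlgebraicIndependent F t) (a : Finset Ω)
    (ha : ∀ x ∈ a, IsAlgebraic (IntermediateField.adjoin F (Set.range t)) x) :
    ∃ (F' : IntermediateField F Ω) (s : Fin n → Ω), FiniteDimensional F F' ∧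
      AlgebraicIndependent F' s ∧
      (∀ i, t i ∈ IntermediateField.adjoin F' (Set.range s)) ∧
      ∀ x ∈ a, IsIntegral (IntermediateField.adjoin F' (Set.range s)) x ∧
        IsSeparable (IntermediateField.adjoin F' (Set.range s)) x := by
  classical
  obtain ⟨q, hq⟩ := ExpChar.exists Ω
  let K0 := IntermediateField.adjoin F (Set.range t)
  have hexp : ExpChar K0 q := RingHom.expChar (algebraMap K0 Ω) (algebraMap K0 Ω).injective q
  let P := perfectClosure K0 Ω
  have hperf : PerfectField P := inferInstance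
  let f : Ω → Polynomial P := fun x => minpoly P x
  let C : Finset Ω := a.biUnion fun x => (f x).support.image fun j =>
    algebraMap P Ω ((f x).coeff j)
  obtain ⟨F', s, hfin, hs, htm, hCm⟩ := GA4_core F Ω q n t ht C (by
    intro c hc
    simp only [C, Finset.mem_biUnion, Finset.mem_image] at hc
    obtain ⟨x, hx, j, hj, rfl⟩ := hc
    have h1 : algebraMap P Ω ((f x).coeff j) ∈ perfectClosure K0 Ω := ((f x).coeff j).2
    obtain ⟨m, hm⟩ := (mem_perfectClosure_iff_pow_mem q).1 h1
    refine ⟨m, ?_⟩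
    obtain ⟨z, hz⟩ := hm
    rw [← hz]
    exact z.2)
  refine ⟨F', s, hfin, hs, htm, ?_⟩
  intro x hx
  let L := IntermediateField.adjoin F' (Set.range s)
  have hxP : IsIntegral P x := ((ha x hx).isIntegral).tower_top
  have hfm : (f x).Monic := minpoly.monic hxP
  have hsep : (f x).Separable := PerfectField.separable_of_irreducible (minpoly.irreducible hxP)
  have hlift : (f x).map (algebraMap P Ω) ∈ Polynomial.lifts (algebraMap L Ω) := by
    rw [Polynomial.lifts_iff_coeff_lifts]
    intro j
    rw [Polynomial.coeff_map]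
    by_cases hj : (f x).coeff j = 0
    · rw [hj, map_zero]
      exact ⟨0, map_zero _⟩
    · have : algebraMap P Ω ((f x).coeff j) ∈ C := by
        refine Finset.mem_biUnion.2 ⟨x, hx, Finset.mem_image.2 ⟨j, ?_, rfl⟩⟩
        exact Polynomial.mem_support_iff.2 hj
      exact ⟨⟨_, hCm _ this⟩, rfl⟩
  obtain ⟨g, hg, -, hgm⟩ := Polynomial.lifts_and_degree_eq_and_monic hlift (hfm.map _)
  have hroot : Polynomial.aeval x g = 0 := by
    have h1 : Polynomial.aeval x g = Polynomial.eval x (g.map (algebraMap L Ω)) := by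
      rw [Polynomial.eval_map, Polynomial.aeval_def]
    rw [h1, hg, Polynomial.eval_map, ← Polynomial.aeval_def]
    exact minpoly.aeval P x
  have hgs : g.Separable := by
    have h1 : (g.map (algebraMap L Ω)).Separable := by
      rw [hg]
      exact hsep.map
    exact (Polynomial.separable_map (algebraMap L Ω)).1 h1
  refine ⟨⟨g, hgm, ?_⟩, ?_⟩
  · rw [← Polynomial.aeval_def]
    exact hroot
  · exact hgs.of_dvd (minpoly.dvd L x hroot)

end Pool.Agent.Lib.MP_3029eb_ag.GR
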