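import Pool.Agent.Lib.MP_3029eb_ag.GRA2

/-!
# Module GA5: base change of regular rings to rational function fields
-/

set_option autoImplicit false

open scoped TensorProduct

namespace Pool.Agent.Lib.MP_3029eb_ag.GR
open Pool.Agent.Lib.MP_3029eb_ag

/-- GA5 -/
theorem isRegularRing_tensor_ratfunc (F M E : Type) [Field F] [Field M] [Algebra F M] (n : ℕ)
    (s : Fin n → M) (hs : AlgebraicIndependent F s)
    (hgen : IntermediateField.adjoin F (Set.range s) = ⊤) [CommRing E] [Algebra F E]
    [IsRegularRing E] : IsRegularRing (M ⊗[F] E) := by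
  let : Algebra (MvPolynomial (Fin n) F) M := (MvPolynomial.aeval s).toRingHom.toAlgebra
  have hmap : ∀ p : MvPolynomial (Fin n) F, algebraMap (MvPolynomial (Fin n) F) M p =
      MvPolynomial.aeval s p := fun _ => rfl
  have htower : IsScalarTower F (MvPolynomial (Fin n) F) M := by
    refine IsScalarTower.of_algebraMap_eq fun x => ?_
    rw [hmap, MvPolynomial.algebraMap_eq, MvPolynomial.aeval_C]
  have hinj : FaithfulSMul (MvPolynomial (Fin n) F) M := by
    rw [faithfulSMul_iff_algebraMap_injective]
    exact hs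
  have hfrac : IsFractionRing (MvPolynomial (Fin n) F) M := by
    refine IsFractionRing.of_field _ _ fun z => ?_
    have hz : z ∈ IntermediateField.adjoin F (Set.range s) := by
      rw [hgen]
      trivial
    rw [IntermediateField.mem_adjoin_range_iff] at hz
    exact hz
  have hreg : IsRegularRing (E ⊗[F] MvPolynomial (Fin n) F) :=
    IsRegularRing.of_ringEquiv (MvPolynomial.algebraTensorAlgEquiv (σ := Fin n) F E).symm.toRingEquiv
  let alg2 : Algebra (E ⊗[F] MvPolynomial (Fin n) F) (E ⊗[F] M) :=
    (Algebra.TensorProduct.map (AlgHom.id F E)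
      (IsScalarTower.toAlgHom F (MvPolynomial (Fin n) F) M)).toRingHom.toAlgebra
  have h1 : ∀ x, algebraMap (E ⊗[F] MvPolynomial (Fin n) F) (E ⊗[F] M) x =
    (Algebra.TensorProduct.map (AlgHom.id F E)
      (IsScalarTower.toAlgHom F (MvPolynomial (Fin n) F) M)) x := fun _ => rfl
  have htower2 : IsScalarTower E (E ⊗[F] MvPolynomial (Fin n) F) (E ⊗[F] M) := by
    refine IsScalarTower.of_algebraMap_eq (R := E) (S := E ⊗[F] MvPolynomial (Fin n) F)
      (A := E ⊗[F] M) fun x => ?_
    rw [h1]
    simp
  have hloc := IsLocalization.tensorProduct_tensorProduct_right F E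
    (nonZeroDivisors (MvPolynomial (Fin n) F)) M (by
      refine RingHom.ext fun x => ?_
      show (Algebra.TensorProduct.map (AlgHom.id F E)
        (IsScalarTower.toAlgHom F (MvPolynomial (Fin n) F) M)) (1 ⊗ₜ[F] x) = _
      rw [Algebra.TensorProduct.map_tmul]
      rfl)
  have hreg2 : IsRegularRing (E ⊗[F] M) :=
    @isRegularRing_of_isLocalization (E ⊗[F] MvPolynomial (Fin n) F) _ hreg _ (E ⊗[F] M) _ alg2
      hloc
  exact IsRegularRing.of_ringEquiv (Algebra.TensorProduct.comm F E M).toRingEquiv

end Pool.Agent.Lib.MP_3029eb_ag.GR
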