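import Pool.Agent.Lib.MP_3029eb_ag.GRA1
import Pool.Agent.Lib.MP_3029eb_ag.GRA2
import Pool.Agent.Lib.MP_3029eb_ag.GRA3
import Pool.Agent.Lib.MP_3029eb_ag.GRA4
import Pool.Agent.Lib.MP_3029eb_ag.GRA5

/-!
Module GR-GA6: regularity of fibres after finite extensions of residue fields implies regularity
after field extensions essentially of finite type.
-/

open IsLocalRing
open scoped TensorProduct

namespace Pool.Agent.Lib.MP_3029eb_ag.GR
open Pool.Agent.Lib.MP_3029eb_ag

theorem GRA6_chain (R A F' M N K : Type) [CommRing R] [CommRing A] [Algebra R A]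
    [IsNoetherianRing A] [Field F'] [Field M] [Field N] [Field K] [Algebra R F'] [Algebra F' M]
    [Algebra R M] [IsScalarTower R F' M] [Algebra M N] [Algebra R N] [IsScalarTower R M N]
    [Algebra R K] [Algebra K N] [IsScalarTower R K N] [Algebra.EssFiniteType R K] (n : ℕ)
    (s : Fin n → M) (hs : AlgebraicIndependent F' s)
    (hgen : IntermediateField.adjoin F' (Set.range s) = ⊤) [FiniteDimensional M N]
    [Algebra.IsSeparable M N] (hE : IsRegularRing (F' ⊗[R] A)) : IsRegularRing (K ⊗[R] A) := by
  have h1 : IsRegularRing (M ⊗[F'] (F' ⊗[R] A)) :=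
    isRegularRing_tensor_ratfunc F' M _ n s hs hgen
  have h2 : IsRegularRing (M ⊗[R] A) :=
    IsRegularRing.of_ringEquiv (Algebra.TensorProduct.cancelBaseChange R F' M M A).toRingEquiv
  have h3 : IsRegularRing (N ⊗[M] (M ⊗[R] A)) := isRegularRing_tensor_separable M N _
  have h4 : IsRegularRing (N ⊗[R] A) :=
    IsRegularRing.of_ringEquiv (Algebra.TensorProduct.cancelBaseChange R M N N A).toRingEquiv
  have h5 : IsRegularRing (N ⊗[K] (K ⊗[R] A)) :=
    IsRegularRing.of_ringEquiv (Algebra.TensorProduct.cancelBaseChange R K N N A).symm.toRingEquiv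
  have h6 : IsRegularRing ((K ⊗[R] A) ⊗[K] N) :=
    IsRegularRing.of_ringEquiv (Algebra.TensorProduct.comm K N (K ⊗[R] A)).toRingEquiv
  have h7 : IsNoetherianRing (A ⊗[R] K) := Algebra.EssFiniteType.isNoetherianRing A (A ⊗[R] K)
  have h8 : IsNoetherianRing (K ⊗[R] A) :=
    isNoetherianRing_of_ringEquiv _ (Algebra.TensorProduct.comm R A K).toRingEquiv
  exact isRegularRing_of_faithfullyFlat (K ⊗[R] A) ((K ⊗[R] A) ⊗[K] N)

theorem GRA6_basis (F K : Type) [Field F] [Field K] [Algebra F K] [Algebra.EssFiniteType F K] :
    ∃ (S : Finset K) (n : ℕ) (t : Fin n → K), IntermediateField.adjoin F (S : Set K) = ⊤ ∧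
      AlgebraicIndependent F t ∧ Algebra.IsAlgebraic (IntermediateField.adjoin F (Set.range t)) K := by
  have h1 : (⊤ : IntermediateField F K).FG := by
    rw [← IntermediateField.essFiniteType_iff]
    exact Algebra.EssFiniteType.of_surjective (IntermediateField.topEquiv (F := F) (E := K)).symm.toAlgHom
      (IntermediateField.topEquiv (F := F) (E := K)).symm.surjective
  obtain ⟨S, hS⟩ := h1
  have h2 : Algebra.IsAlgebraic (Algebra.adjoin F (S : Set K)) K := by
    rw [← IntermediateField.isAlgebraic_adjoin_iff_top]
    refine ⟨fun x => ?_⟩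
    have hx : x ∈ IntermediateField.adjoin F (S : Set K) := by
      rw [hS]
      exact IntermediateField.mem_top
    exact isAlgebraic_algebraMap (⟨x, hx⟩ : IntermediateField.adjoin F (S : Set K))
  obtain ⟨T, hTS, hT⟩ := exists_isTranscendenceBasis_subset (R := F) (S : Set K)
  have hTf : T.Finite := S.finite_toSet.subset hTS
  have : Finite T := hTf
  obtain ⟨n, ⟨e⟩⟩ := Finite.exists_equiv_fin T
  refine ⟨S, n, fun i => (e.symm i : K), hS, ?_, ?_⟩
  · exact hT.1.comp _ e.symm.injective
  · have h3 : Set.range (fun i => (e.symm i : K)) = Set.range (Subtype.val : T → K) :=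
      e.symm.surjective.range_comp _
    rw [h3]
    exact hT.isAlgebraic_field

theorem GRA6_field (R A : Type) [CommRing R] [CommRing A] [Algebra R A]
    [IsNoetherianRing A] (F : Type) [Field F] [Algebra R F]
    (H : ∀ (L : Type) [Field L] [Algebra R L] [Algebra F L] [IsScalarTower R F L]
      [FiniteDimensional F L], IsRegularRing (L ⊗[R] A))
    (K : Type) [Field K] [Algebra R K] [Algebra F K] [IsScalarTower R F K]
    [Algebra.EssFiniteType R K] :
    IsRegularRing (K ⊗[R] A) := by
  have hess : Algebra.EssFiniteType F K := Algebra.EssFiniteType.of_comp R F K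
  obtain ⟨S, n, t, hS, ht, halg⟩ := GRA6_basis F K
  classical
  let f : K →ₐ[F] AlgebraicClosure K := IsScalarTower.toAlgHom F K (AlgebraicClosure K)
  have hinj : Function.Injective f := (algebraMap K (AlgebraicClosure K)).injective
  have ht' : AlgebraicIndependent F (f ∘ t) := ht.map' hinj
  obtain ⟨F', s, hfin, hs, hts, ha⟩ := exists_separating F (AlgebraicClosure K) n _ ht'
    (S.image f) (by
      intro x hx
      obtain ⟨y, -, rfl⟩ := Finset.mem_image.1 hx
      have hmem : ∀ z : IntermediateField.adjoin F (Set.range t),
          f z ∈ IntermediateField.adjoin F (Set.range (f ∘ t)) := by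
        intro z
        have h1 : f z ∈ (IntermediateField.adjoin F (Set.range t)).map f :=
          ⟨z, z.2, rfl⟩
        rw [IntermediateField.adjoin_map, ← Set.range_comp] at h1
        exact h1
      let φ : IntermediateField.adjoin F (Set.range t) →+*
          IntermediateField.adjoin F (Set.range (f ∘ t)) :=
        ((f : K →+* AlgebraicClosure K).comp
          (algebraMap (IntermediateField.adjoin F (Set.range t)) K)).codRestrict
          (IntermediateField.adjoin F (Set.range (f ∘ t))) hmem
      exact (halg.isAlgebraic y).ringHom_of_comp_eq φ (f : K →+* AlgebraicClosure K)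
        φ.injective rfl)
  let M : IntermediateField F' (AlgebraicClosure K) := IntermediateField.adjoin F' (Set.range s)
  let N : IntermediateField M (AlgebraicClosure K) :=
    IntermediateField.adjoin M ((S.image f : Finset (AlgebraicClosure K)) : Set _)
  have hNfin : FiniteDimensional M N :=
    IntermediateField.finiteDimensional_adjoin fun x hx => (ha x hx).1
  have hNsep : Algebra.IsSeparable M N :=
    (IntermediateField.isSeparable_adjoin_iff_isSeparable M (AlgebraicClosure K)).2
      fun x hx => (ha x hx).2
  have hFN : ∀ a : F, f (algebraMap F K a) ∈ N := by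
    intro a
    rw [f.commutes]
    have h1 : algebraMap F (AlgebraicClosure K) a ∈ F' := F'.algebraMap_mem a
    have h2 : algebraMap F (AlgebraicClosure K) a ∈ M :=
      M.algebraMap_mem ⟨_, h1⟩
    exact N.algebraMap_mem ⟨_, h2⟩
  have hKN : ∀ y : K, f y ∈ N := by
    intro y
    have hy : y ∈ IntermediateField.adjoin F (S : Set K) := by
      rw [hS]
      exact IntermediateField.mem_top
    induction hy using IntermediateField.adjoin_induction with
    | mem x hx =>
      exact IntermediateField.subset_adjoin _ _ (Finset.mem_coe.2 (Finset.mem_image_of_mem f hx))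
    | algebraMap x => exact hFN x
    | add x z hx hz h1 h2 =>
      rw [map_add]
      exact add_mem h1 h2
    | inv x hx h1 =>
      rw [map_inv₀]
      exact inv_mem h1
    | mul x z hx hz h1 h2 =>
      rw [map_mul]
      exact mul_mem h1 h2
  let j : K →+* N := (f : K →+* AlgebraicClosure K).codRestrict N hKN
  let : Algebra K N := j.toAlgebra
  let : Algebra R M := ((algebraMap F' M).comp (algebraMap R F')).toAlgebra
  have : IsScalarTower R F' M := IsScalarTower.of_algebraMap_eq' rfl
  let : Algebra R N := ((algebraMap M N).comp (algebraMap R M)).toAlgebra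
  have : IsScalarTower R M N := IsScalarTower.of_algebraMap_eq' rfl
  have : IsScalarTower R K N := by
    refine IsScalarTower.of_algebraMap_eq fun r => ?_
    apply Subtype.ext
    have h0 : ((algebraMap R N r : N) : AlgebraicClosure K) =
        ((algebraMap R F' r : F') : AlgebraicClosure K) := rfl
    have h1 : ((algebraMap R N r : N) : AlgebraicClosure K) =
        algebraMap F (AlgebraicClosure K) (algebraMap R F r) := by
      rw [h0, IsScalarTower.algebraMap_apply R F F']
      rfl
    have h2 : ((algebraMap K N (algebraMap R K r) : N) : AlgebraicClosure K) =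
        f (algebraMap R K r) := rfl
    rw [h1, h2, IsScalarTower.algebraMap_apply R F K, f.commutes]
  let s' : Fin n → M := fun i => ⟨s i, IntermediateField.subset_adjoin _ _ (Set.mem_range_self i)⟩
  have hs' : AlgebraicIndependent F' s' := AlgebraicIndependent.of_comp M.val hs
  have hgen : IntermediateField.adjoin F' (Set.range s') = ⊤ := by
    apply IntermediateField.lift_injective M
    rw [IntermediateField.lift_adjoin, IntermediateField.lift_top, ← Set.range_comp]
    rfl
  have hE : IsRegularRing (F' ⊗[R] A) := H F'
  exact GRA6_chain R A F' M N K n s' hs' hgen hE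

/-- GA6 -/
theorem isRegularRing_tensor_fg (R A : Type) [CommRing R] [CommRing A] [Algebra R A]
    [IsNoetherianRing A]
    (H : ∀ (p : Ideal R) [p.IsPrime] (L : Type) [Field L] [Algebra R L]
      [Algebra p.ResidueField L] [IsScalarTower R p.ResidueField L]
      [FiniteDimensional p.ResidueField L], IsRegularRing (L ⊗[R] A))
    (K : Type) [Field K] [Algebra R K] [Algebra.EssFiniteType R K] :
    IsRegularRing (K ⊗[R] A) := by
  have hp : (RingHom.ker (algebraMap R K)).IsPrime := RingHom.ker_isPrime _
  let : Algebra (RingHom.ker (algebraMap R K)).ResidueField K :=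
    (Ideal.ResidueField.lift (RingHom.ker (algebraMap R K)) (algebraMap R K) le_rfl (by
      intro x hx
      exact (isUnit_iff_ne_zero.2 fun h => hx h))).toAlgebra
  have : IsScalarTower R (RingHom.ker (algebraMap R K)).ResidueField K := by
    refine IsScalarTower.of_algebraMap_eq fun r => ?_
    exact (Ideal.ResidueField.lift_algebraMap _ _ _ _ _).symm
  exact GRA6_field R A (RingHom.ker (algebraMap R K)).ResidueField
    (fun L => H (RingHom.ker (algebraMap R K)) L) K

end Pool.Agent.Lib.MP_3029eb_ag.GR
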