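import Mathlib

/-!
# The local criterion of flatness, with quotients by powers (module GB1)
-/

set_option autoImplicit false

open IsLocalRing

namespace Pool.Agent.Lib.MP_3029eb_ag.GR

/-- A vector with entries in `I` lies in `I • ⊤`. -/
theorem GB1_mem_smul_top {C : Type} [CommRing C] {l : ℕ} (I : Ideal C) (v : Fin l → C)
    (h : ∀ i, v i ∈ I) : v ∈ (I • ⊤ : Submodule C (Fin l → C)) := by
  classical
  have h1 : v = ∑ i, v i • (Pi.single i (1 : C) : Fin l → C) := by
    funext j
    simp [Finset.sum_apply, Pi.single_apply]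
  rw [h1]
  exact Submodule.sum_mem _ fun i _ => Submodule.smul_mem_smul (h i) trivial

/-- The equational criterion for a flat ring homomorphism. -/
theorem GB1_trivial {A C : Type} [CommRing A] [CommRing C] (φ : A →+* C) (hφ : φ.Flat) {l : ℕ}
    (f : Fin l → A) (x : Fin l → C) (h : ∑ i, φ (f i) * x i = 0) :
    ∃ (k : ℕ) (a : Fin l → Fin k → A) (y : Fin k → C),
      (∀ i, x i = ∑ j, φ (a i j) * y j) ∧ ∀ j, ∑ i, f i * a i j = 0 := by
  letI : Algebra A C := φ.toAlgebra
  haveI : Module.Flat A C := hφ
  exact Module.Flat.isTrivialRelation_of_sum_smul_eq_zero (f := f) (x := x) h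

/-- GB1: the local criterion of flatness, in the form with quotients by powers -/
theorem flat_of_quotients (A C : Type) [CommRing A] [IsNoetherianRing A] [CommRing C]
    [IsNoetherianRing C] [IsLocalRing C] [Algebra A C] (I : Ideal A)
    (hI : I.map (algebraMap A C) ≤ maximalIdeal C)
    (h : ∀ n : ℕ, (Ideal.quotientMap ((I ^ n).map (algebraMap A C)) (algebraMap A C)
      Ideal.le_comap_map).Flat) : Module.Flat A C := by
  classical
  rw [Module.Flat.iff_forall_isTrivialRelation]
  intro l f x hx
  set S : Set (Fin l → C) := {v | ∃ a : Fin l → A, ∑ i, f i * a i = 0 ∧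
    v = fun i => algebraMap A C (a i)} with hS
  set KC : Submodule C (Fin l → C) := Submodule.span C S with hKC
  have hpow : ∀ n : ℕ, (I ^ n).map (algebraMap A C) ≤ maximalIdeal C ^ n := by
    intro n
    rw [Ideal.map_pow]
    exact Ideal.pow_right_mono hI n
  -- approximation
  have happ : ∀ n : ℕ, ∃ u ∈ KC, ∀ i, x i - u i ∈ maximalIdeal C ^ n := by
    intro n
    obtain ⟨k, hk⟩ := Ideal.exists_pow_inf_eq_pow_smul I (Ideal.span (Set.range f))
    set N : ℕ := n + k with hN
    set φ := Ideal.quotientMap ((I ^ N).map (algebraMap A C)) (algebraMap A C)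
      (Ideal.le_comap_map (I := I ^ N)) with hφ
    have hφm : ∀ a : A, φ (Ideal.Quotient.mk (I ^ N) a) =
        Ideal.Quotient.mk ((I ^ N).map (algebraMap A C)) (algebraMap A C a) := fun a => rfl
    have hrel : ∑ i, φ (Ideal.Quotient.mk (I ^ N) (f i)) *
        (Ideal.Quotient.mk ((I ^ N).map (algebraMap A C)) (x i)) = 0 := by
      simp only [hφm, ← map_mul]
      rw [← map_sum]
      have h1 : ∑ i, algebraMap A C (f i) * x i = 0 := by
        rw [← hx]
        exact Finset.sum_congr rfl fun i _ => (Algebra.smul_def _ _).symm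
      rw [h1, map_zero]
    obtain ⟨m, a', y', ha', hfa'⟩ := GB1_trivial φ (h N) _ _ hrel
    choose a ha using fun i j => Ideal.Quotient.mk_surjective (a' i j)
    choose y hy using fun j => Ideal.Quotient.mk_surjective (y' j)
    -- the relations hold modulo `I ^ N`
    have hmem : ∀ j, ∑ i, f i * a i j ∈ I ^ N := by
      intro j
      rw [← Ideal.Quotient.eq_zero_iff_mem, map_sum, ← hfa' j]
      refine Finset.sum_congr rfl fun i _ => ?_
      rw [map_mul, ha]
    have hx2 : ∀ i, x i - ∑ j, algebraMap A C (a i j) * y j ∈ (I ^ N).map (algebraMap A C) := by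
      intro i
      rw [← Ideal.Quotient.eq_zero_iff_mem, map_sub, map_sum, ha' i, sub_eq_zero]
      refine Finset.sum_congr rfl fun j _ => ?_
      rw [← ha, ← hy, hφm, map_mul]
    -- Artin-Rees
    have hb : ∀ j, ∃ b : Fin l → A, (∀ i, b i ∈ I ^ n) ∧ ∑ i, f i * b i = ∑ i, f i * a i j := by
      intro j
      have h1 : ∑ i, f i * a i j ∈ (I ^ N • ⊤ ⊓ Ideal.span (Set.range f) : Submodule A A) := by
        refine ⟨?_, ?_⟩
        · rw [smul_eq_mul, Ideal.mul_top]
          exact hmem j
        · exact Ideal.sum_mem _ fun i _ =>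
            Ideal.mul_mem_right _ _ (Ideal.subset_span ⟨i, rfl⟩)
      rw [hk N (by omega), show N - k = n by omega] at h1
      have h2 : ∑ i, f i * a i j ∈ (I ^ n • Submodule.span A (Set.range f) : Submodule A A) :=
        (Submodule.smul_mono le_rfl inf_le_right) h1
      rw [Submodule.mem_ideal_smul_span_iff_exists_sum] at h2
      obtain ⟨b, hb, hsum⟩ := h2
      refine ⟨fun i => b i, hb, ?_⟩
      rw [← hsum, Finsupp.sum_fintype b (fun i c => c • f i) (fun i => zero_smul _ _)]
      exact Finset.sum_congr rfl fun i _ => by rw [smul_eq_mul, mul_comm]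
    choose b hbI hbs using hb
    refine ⟨∑ j, y j • fun i => algebraMap A C (a i j - b j i), ?_, ?_⟩
    · refine Submodule.sum_mem _ fun j _ => Submodule.smul_mem _ _ (Submodule.subset_span ?_)
      refine ⟨fun i => a i j - b j i, ?_, rfl⟩
      simp only [mul_sub]
      rw [Finset.sum_sub_distrib, hbs, sub_self]
    · intro i
      have h1 : x i - (∑ j, y j • fun i => algebraMap A C (a i j - b j i)) i =
          (x i - ∑ j, algebraMap A C (a i j) * y j) +
            ∑ j, algebraMap A C (b j i) * y j := by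
        simp only [Finset.sum_apply, Pi.smul_apply, smul_eq_mul, map_sub, mul_sub]
        rw [Finset.sum_sub_distrib]
        rw [Finset.sum_congr rfl fun j _ => mul_comm (y j) (algebraMap A C (a i j)),
          Finset.sum_congr rfl fun j _ => mul_comm (y j) (algebraMap A C (b j i))]
        ring
      rw [h1]
      refine Ideal.add_mem _ ?_ (Ideal.sum_mem _ fun j _ => Ideal.mul_mem_right _ _ ?_)
      · exact Ideal.pow_le_pow_right (by omega) (hpow N (hx2 i))
      · exact hpow n (Ideal.mem_map_of_mem _ (hbI j i))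
  -- Krull
  have hxK : x ∈ KC := by
    rw [← Submodule.Quotient.mk_eq_zero, ← Submodule.mem_bot C,
      ← Ideal.iInf_pow_smul_eq_bot_of_isLocalRing (M := (Fin l → C) ⧸ KC) (maximalIdeal C)
        (Ideal.IsPrime.ne_top inferInstance), Submodule.mem_iInf]
    intro n
    obtain ⟨u, hu, hxu⟩ := happ n
    have h1 : (Submodule.Quotient.mk x : (Fin l → C) ⧸ KC) = KC.mkQ (x - u) := by
      rw [map_sub, Submodule.mkQ_apply, Submodule.mkQ_apply,
        (Submodule.Quotient.mk_eq_zero KC).mpr hu, sub_zero]
    rw [h1]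
    have h2 : (maximalIdeal C ^ n • ⊤ : Submodule C ((Fin l → C) ⧸ KC)) =
        (maximalIdeal C ^ n • ⊤ : Submodule C (Fin l → C)).map KC.mkQ := by
      rw [Submodule.map_smul'', Submodule.map_top, Submodule.range_mkQ]
    rw [h2]
    exact Submodule.mem_map_of_mem (GB1_mem_smul_top _ _ hxu)
  -- conclusion
  rw [hKC, Submodule.mem_span_set'] at hxK
  obtain ⟨m, c, g, hg⟩ := hxK
  choose a ha1 ha2 using fun j => (g j).2
  refine ⟨m, fun i j => a j i, c, fun i => ?_, fun j => ha1 j⟩
  rw [← hg, Finset.sum_apply]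
  refine Finset.sum_congr rfl fun j _ => ?_
  rw [Pi.smul_apply, ha2 j, smul_eq_mul, Algebra.smul_def, mul_comm]

end Pool.Agent.Lib.MP_3029eb_ag.GR
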