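import Pool.Agent.Lib.MP_3029eb_ag.H44Defs

open IsLocalRing

namespace Pool.Agent.Lib.MP_3029eb_ag

section HBaux

variable (R : Type) [CommRing R] [IsLocalRing R] [IsNoetherianRing R]

theorem HB_mem_pow_iff (k : ℕ) (t : AdicCompletion (maximalIdeal R) R) :
    t ∈ maximalIdeal (AdicCompletion (maximalIdeal R) R) ^ k ↔ t.val k = 0 := by
  have h := AdicCompletion.pow_smul_top_eq_ker_eval (M := R) (n := k)
    (maximalIdeal R).fg_of_isNoetherianRing
  rw [AdicCompletion.maximalIdeal_eq_map, ← Ideal.map_pow, ← Submodule.restrictScalars_mem R,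
    ← Ideal.smul_top_eq_map, h]
  rfl

omit [IsNoetherianRing R] in
theorem HB_algebraMap_val (k : ℕ) (r : R) :
    (algebraMap R (AdicCompletion (maximalIdeal R) R) r).val k = 0 ↔ r ∈ maximalIdeal R ^ k := by
  rw [AdicCompletion.algebraMap_apply]
  constructor
  · intro h
    have h' : Submodule.Quotient.mk (p := (maximalIdeal R ^ k • ⊤ : Submodule R R)) r = 0 := by
      simpa using h
    rw [Submodule.Quotient.mk_eq_zero] at h'
    simpa using h'
  · intro h
    have h' : Submodule.Quotient.mk (p := (maximalIdeal R ^ k • ⊤ : Submodule R R)) r = 0 := by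
      rw [Submodule.Quotient.mk_eq_zero]
      simpa using h
    simpa using h'

end HBaux

theorem sameCompletion_adicCompletion (R : Type) [CommRing R] [IsLocalRing R]
    [IsNoetherianRing R] :
    SameCompletion (algebraMap R (AdicCompletion (maximalIdeal R) R)) := by
  have hc : ∀ (k : ℕ) (r : R), algebraMap R (AdicCompletion (maximalIdeal R) R) r ∈
      maximalIdeal (AdicCompletion (maximalIdeal R) R) ^ k ↔ r ∈ maximalIdeal R ^ k := by
    intro k r
    rw [HB_mem_pow_iff, HB_algebraMap_val]
  refine ⟨?_, ?_, ?_⟩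
  · intro r hr
    have := (hc 1 r).2 (by rwa [pow_one])
    rwa [pow_one] at this
  · intro k r h
    exact (hc k r).1 h
  · intro k t ht
    obtain ⟨r, hr⟩ := Submodule.Quotient.mk_surjective _ (t.val (k + 1))
    have h1 : t - algebraMap R (AdicCompletion (maximalIdeal R) R) r ∈
        maximalIdeal (AdicCompletion (maximalIdeal R) R) ^ (k + 1) := by
      rw [HB_mem_pow_iff]
      have : (t - algebraMap R (AdicCompletion (maximalIdeal R) R) r).val (k + 1) =
          t.val (k + 1) - (algebraMap R (AdicCompletion (maximalIdeal R) R) r).val (k + 1) := rfl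
      rw [this, ← hr]
      exact sub_self _
    refine ⟨r, ?_, h1⟩
    rw [← hc k r]
    have h2 := Ideal.pow_le_pow_right (Nat.le_succ k) h1
    have h3 := sub_mem ht h2
    rwa [sub_sub_cancel] at h3

section ev

variable {R T : Type} [CommRing R] [CommRing T] [IsLocalRing T] {n : ℕ}

theorem HBev_key (g : R →+* T) (t : Fin n → T) (ht : ∀ i, t i ∈ maximalIdeal T) (k : ℕ) :
    MvPolynomial.idealOfVars (Fin n) R ^ k ≤
      (maximalIdeal T ^ k).comap (MvPolynomial.eval₂Hom g t) := by
  have h1 : MvPolynomial.idealOfVars (Fin n) R ≤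
    (maximalIdeal T).comap (MvPolynomial.eval₂Hom g t) := by
    rw [MvPolynomial.idealOfVars, Ideal.span_le]
    rintro _ ⟨i, rfl⟩
    simpa using ht i
  exact (Ideal.pow_right_mono h1 k).trans (Ideal.le_comap_pow _ k)

variable [IsAdicComplete (maximalIdeal T) T]

omit [IsAdicComplete (maximalIdeal T) T] in
theorem HBev_compat (g : R →+* T) (t : Fin n → T) (ht : ∀ i, t i ∈ maximalIdeal T) {a b : ℕ}
    (hab : a ≤ b) : (Ideal.Quotient.factorPow (maximalIdeal T) hab).comp
      ((Ideal.quotientMap (maximalIdeal T ^ b) (MvPolynomial.eval₂Hom g t)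
        (HBev_key g t ht b)).comp
      (MvPowerSeries.truncTotalAlgHom (Fin n) R b : MvPowerSeries (Fin n) R →+* _)) =
      ((Ideal.quotientMap (maximalIdeal T ^ a) (MvPolynomial.eval₂Hom g t)
        (HBev_key g t ht a)).comp
      (MvPowerSeries.truncTotalAlgHom (Fin n) R a : MvPowerSeries (Fin n) R →+* _)) := by
  ext p
  have h2 := HBev_key g t ht a (MvPowerSeries.truncTotal_sub_truncTotal_mem_pow_idealOfVars
    (n := a) hab le_rfl p)
  rw [Ideal.mem_comap, map_sub] at h2
  simp only [RingHom.comp_apply, RingHom.coe_coe, MvPowerSeries.truncTotalAlgHom_apply,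
    Ideal.quotientMap_mk]
  exact (Ideal.Quotient.mk_eq_mk_iff_sub_mem _ _).2 h2

/-- evaluation of power series at elements of the maximal ideal of a complete local ring -/
noncomputable def HBev (g : R →+* T) (t : Fin n → T) (ht : ∀ i, t i ∈ maximalIdeal T) :
    MvPowerSeries (Fin n) R →+* T :=
  IsAdicComplete.liftRingHom (maximalIdeal T)
    (fun k => (Ideal.quotientMap (maximalIdeal T ^ k) (MvPolynomial.eval₂Hom g t)
      (HBev_key g t ht k)).comp
      (MvPowerSeries.truncTotalAlgHom (Fin n) R k : MvPowerSeries (Fin n) R →+* _))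
    (fun hab => HBev_compat g t ht hab)

theorem HBev_coe (g : R →+* T) (t : Fin n → T) (ht : ∀ i, t i ∈ maximalIdeal T)
    (p : MvPolynomial (Fin n) R) :
    HBev g t ht (p : MvPowerSeries (Fin n) R) = MvPolynomial.eval₂Hom g t p := by
  refine IsHausdorff.eq_iff_smodEq (I := maximalIdeal T) |>.2 fun k => ?_
  rw [SModEq.sub_mem]
  have h3 : Ideal.Quotient.mk (maximalIdeal T ^ k) (HBev g t ht (p : MvPowerSeries (Fin n) R)) =
      Ideal.Quotient.mk (maximalIdeal T ^ k) (MvPolynomial.eval₂Hom g t p) := by
    unfold HBev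
    rw [IsAdicComplete.mk_liftRingHom (hf := fun hab => HBev_compat g t ht hab)]
    have h4 : (MvPowerSeries.truncTotalAlgHom (Fin n) R k) (p : MvPowerSeries (Fin n) R) =
        Ideal.Quotient.mk _ p :=
      (MvPowerSeries.truncTotalAlgHom (Fin n) R k).commutes p
    rw [RingHom.comp_apply, RingHom.coe_coe, h4, Ideal.quotientMap_mk]
  rw [Ideal.Quotient.mk_eq_mk_iff_sub_mem] at h3
  simpa using h3

end ev

theorem noetherian_adicCompletion (R : Type) [CommRing R] [IsLocalRing R] [IsNoetherianRing R] :
    IsNoetherianRing (AdicCompletion (maximalIdeal R) R) := by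
  obtain ⟨n, x, hx⟩ := Submodule.fg_iff_exists_fin_generating_family.1
    (maximalIdeal R).fg_of_isNoetherianRing
  set ι := algebraMap R (AdicCompletion (maximalIdeal R) R) with hι
  have hmap : maximalIdeal (AdicCompletion (maximalIdeal R) R) =
      Ideal.span (Set.range fun i => ι (x i)) := by
    rw [AdicCompletion.maximalIdeal_eq_map]
    have : Ideal.map ι (maximalIdeal R) = Ideal.map ι (Ideal.span (Set.range x)) :=
      congrArg (Ideal.map ι) hx.symm
    rw [this, Ideal.map_span, ← Set.range_comp]
    rfl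
  have ht : ∀ i, ι (x i) ∈ maximalIdeal (AdicCompletion (maximalIdeal R) R) := by
    intro i
    rw [hmap]
    exact Ideal.subset_span ⟨i, rfl⟩
  set f := HBev ι (fun i => ι (x i)) ht with hf
  have hI : (Ideal.span (Set.range (MvPowerSeries.X : Fin n → MvPowerSeries (Fin n) R))).map f =
      maximalIdeal (AdicCompletion (maximalIdeal R) R) := by
    rw [Ideal.map_span, ← Set.range_comp, hmap]
    congr 1
    congr 1
    funext i
    have := HBev_coe ι (fun i => ι (x i)) ht (MvPolynomial.X i)
    simpa using this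
  have hsurj : Function.Surjective f := by
    refine surjective_of_mk_map_comp_surjective
      (I := Ideal.span (Set.range (MvPowerSeries.X : Fin n → MvPowerSeries (Fin n) R)))
      (haus := ?_) f ?_
    · rw [hI]
      infer_instance
    · rw [hI]
      intro y
      obtain ⟨t, rfl⟩ := Ideal.Quotient.mk_surjective y
      obtain ⟨r, -, hr⟩ := (sameCompletion_adicCompletion R).approx 0 t (by simp)
      refine ⟨MvPowerSeries.C r, ?_⟩
      have := HBev_coe ι (fun i => ι (x i)) ht (MvPolynomial.C r)
      simp only [MvPolynomial.coe_C, MvPolynomial.coe_eval₂Hom, MvPolynomial.eval₂_C] at this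
      rw [RingHom.comp_apply, hf, this]
      refine (Ideal.Quotient.mk_eq_mk_iff_sub_mem _ _).2 ?_
      rw [← neg_sub]
      refine neg_mem ?_
      simpa using hr
  exact isNoetherianRing_of_surjective _ _ f hsurj

end Pool.Agent.Lib.MP_3029eb_ag
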