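import Pool.Agent.Lib.MP_3029eb_ag.HA
import Pool.Agent.Lib.MP_3029eb_ag.HB
import Pool.Agent.Lib.MP_3029eb_ag.GRB1

/-!
# Module GB2: flatness of the map of completions of a flat local homomorphism
-/

set_option autoImplicit false

open IsLocalRing

namespace Pool.Agent.Lib.MP_3029eb_ag.GR
open Pool.Agent.Lib.MP_3029eb_ag

theorem GB2_quot {A B : Type} [CommRing A] [CommRing B] (f : A →+* B) (hf : f.Flat)
    (I : Ideal A) (J : Ideal B) (hJ : J = I.map f) (h : I ≤ J.comap f) :
    (Ideal.quotientMap J f h).Flat := by
  subst hJ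
  algebraize [f]
  have h1 : Module.Flat (A ⧸ I) (B ⧸ I.map (algebraMap A B)) :=
    Module.Flat.of_linearEquiv
      (Algebra.TensorProduct.quotIdealMapEquivQuotTensor B I).toLinearEquiv
  rw [← RingHom.flat_algebraMap_iff] at h1
  have h2 : algebraMap (A ⧸ I) (B ⧸ I.map (algebraMap A B)) = Ideal.quotientMap (I.map f) f h := by
    refine Ideal.Quotient.ringHom_ext (RingHom.ext fun a => ?_)
    rfl
  rw [h2] at h1
  exact h1

theorem exists_flat_completion (B T : Type) [CommRing B] [CommRing T] [IsLocalRing B]
    [IsLocalRing T] [IsNoetherianRing B] [IsNoetherianRing T] [Algebra B T] [Module.Flat B T]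
    [IsLocalHom (algebraMap B T)] :
    ∃ φ : AdicCompletion (maximalIdeal B) B →+* AdicCompletion (maximalIdeal T) T,
      φ.comp (algebraMap B (AdicCompletion (maximalIdeal B) B)) =
        (algebraMap T (AdicCompletion (maximalIdeal T) T)).comp (algebraMap B T) ∧
      IsLocalHom φ ∧ φ.Flat := by
  have hT1 : IsAdicComplete (maximalIdeal (AdicCompletion (maximalIdeal T) T))
      (AdicCompletion (maximalIdeal T) T) := inferInstance
  have hθ : IsLocalHom ((algebraMap T (AdicCompletion (maximalIdeal T) T)).comp
      (algebraMap B T)) := inferInstance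
  obtain ⟨φ, hφ, hc⟩ := exists_lift_completion B (AdicCompletion (maximalIdeal T) T)
    ((algebraMap T (AdicCompletion (maximalIdeal T) T)).comp (algebraMap B T)) hθ
  refine ⟨φ, hc, hφ, ?_⟩
  have hnB := noetherian_adicCompletion B
  have hnT := noetherian_adicCompletion T
  have hflat : ((algebraMap T (AdicCompletion (maximalIdeal T) T)).comp (algebraMap B T)).Flat := by
    refine RingHom.Flat.comp ?_ ?_
    · rw [RingHom.flat_algebraMap_iff]
      infer_instance
    · rw [RingHom.flat_algebraMap_iff]
      infer_instance
  let := φ.toAlgebra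
  have key := flat_of_quotients (AdicCompletion (maximalIdeal B) B)
    (AdicCompletion (maximalIdeal T) T) (maximalIdeal (AdicCompletion (maximalIdeal B) B)) ?_ ?_
  · exact key
  · rw [Ideal.map_le_iff_le_comap]
    intro r hr
    exact map_nonunit φ r hr
  · intro n
    have hpow : maximalIdeal (AdicCompletion (maximalIdeal B) B) ^ n =
        (maximalIdeal B ^ n).map (algebraMap B (AdicCompletion (maximalIdeal B) B)) := by
      rw [AdicCompletion.maximalIdeal_eq_map, Ideal.map_pow]
    have hle : maximalIdeal B ^ n ≤ (maximalIdeal (AdicCompletion (maximalIdeal B) B) ^ n).comap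
        (algebraMap B (AdicCompletion (maximalIdeal B) B)) := by
      rw [hpow]
      exact Ideal.le_comap_map
    have hbij : Function.Bijective (Ideal.quotientMap
        (maximalIdeal (AdicCompletion (maximalIdeal B) B) ^ n)
        (algebraMap B (AdicCompletion (maximalIdeal B) B)) hle) := by
      constructor
      · rw [injective_iff_map_eq_zero]
        intro a ha
        obtain ⟨r, rfl⟩ := Ideal.Quotient.mk_surjective a
        rw [Ideal.quotientMap_mk, Ideal.Quotient.eq_zero_iff_mem, HB_mem_pow_iff,
          HB_algebraMap_val] at ha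
        exact Ideal.Quotient.eq_zero_iff_mem.2 ha
      · intro b
        obtain ⟨t, rfl⟩ := Ideal.Quotient.mk_surjective b
        obtain ⟨r, hr⟩ := Submodule.Quotient.mk_surjective _ (t.val n)
        refine ⟨Ideal.Quotient.mk _ r, ?_⟩
        rw [Ideal.quotientMap_mk, Ideal.Quotient.mk_eq_mk_iff_sub_mem, HB_mem_pow_iff]
        have h1 : (algebraMap B (AdicCompletion (maximalIdeal B) B) r - t).val n =
            (algebraMap B (AdicCompletion (maximalIdeal B) B) r).val n - t.val n := rfl
        rw [h1, ← hr]
        exact sub_self _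
    rw [← RingHom.Flat.comp_iff_of_bijective_right hbij]
    have hle2 : maximalIdeal B ^ n ≤ ((maximalIdeal (AdicCompletion (maximalIdeal B) B) ^ n).map
        φ).comap ((algebraMap T (AdicCompletion (maximalIdeal T) T)).comp (algebraMap B T)) := by
      rw [← hc, ← Ideal.comap_comap]
      exact hle.trans (Ideal.comap_mono Ideal.le_comap_map)
    have h3 := GB2_quot _ hflat (maximalIdeal B ^ n)
      ((maximalIdeal (AdicCompletion (maximalIdeal B) B) ^ n).map φ)
      (by rw [hpow, Ideal.map_map, hc]) hle2
    have h4 : (Ideal.quotientMap ((maximalIdeal (AdicCompletion (maximalIdeal B) B) ^ n).map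
        φ) φ Ideal.le_comap_map).comp (Ideal.quotientMap
        (maximalIdeal (AdicCompletion (maximalIdeal B) B) ^ n)
        (algebraMap B (AdicCompletion (maximalIdeal B) B)) hle) =
        Ideal.quotientMap ((maximalIdeal (AdicCompletion (maximalIdeal B) B) ^ n).map φ)
        ((algebraMap T (AdicCompletion (maximalIdeal T) T)).comp (algebraMap B T)) hle2 := by
      refine Ideal.Quotient.ringHom_ext (RingHom.ext fun a => ?_)
      simp only [RingHom.comp_apply, Ideal.quotientMap_mk]
      exact congrArg _ (RingHom.congr_fun hc a)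
    rw [← h4] at h3
    exact h3

end Pool.Agent.Lib.MP_3029eb_ag.GR
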