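import Mathlib

/-! Definition of bounded derivations (modules BD0, BDP, J). -/

open IsLocalRing

namespace Pool.Agent.Lib.MP_3029eb_ag

/-- There is a derivation `S → 𝔔 S_𝔔 / 𝔔² S_𝔔` which is the canonical map on `𝔔` and has values
in a finitely generated `S`-submodule. -/
def BddDer (S : Type) [CommRing S] (𝔔 : Ideal S) [𝔔.IsPrime] : Prop :=
  ∃ D : S → CotangentSpace (Localization.AtPrime 𝔔),
    (∀ a b, D (a + b) = D a + D b) ∧ (∀ a b, D (a * b) = a • D b + b • D a) ∧
    (∀ (f : S) (_ : f ∈ 𝔔) (hf : algebraMap S (Localization.AtPrime 𝔔) f ∈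
      maximalIdeal (Localization.AtPrime 𝔔)), D f = Ideal.toCotangent _ ⟨_, hf⟩) ∧
    ∃ G : Set (CotangentSpace (Localization.AtPrime 𝔔)), G.Finite ∧
      ∀ s, D s ∈ Submodule.span S G

end Pool.Agent.Lib.MP_3029eb_ag
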