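import Pool.Agent.Lib.MP_3029eb_ag.GoodDef
import Pool.Agent.Lib.MP_3029eb_ag.BddDef

open IsLocalRing

namespace Pool.Agent.Lib.MP_3029eb_ag

/-- the residue map `O / M² → O / M` -/
noncomputable def BD_rho (O : Type) [CommRing O] [IsLocalRing O] :
    O ⧸ (maximalIdeal O ^ 2) →+* ResidueField O :=
  Ideal.Quotient.lift (maximalIdeal O ^ 2) (residue O) (fun a ha =>
    (residue_eq_zero_iff a).2 (Ideal.pow_le_self two_ne_zero ha))

theorem BD_rho_mk (O : Type) [CommRing O] [IsLocalRing O] (a : O) :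
    BD_rho O (Ideal.Quotient.mk _ a) = residue O a := Ideal.Quotient.lift_mk _ _ _

theorem BD_rho_surjective (O : Type) [CommRing O] [IsLocalRing O] :
    Function.Surjective (BD_rho O) := by
  intro x
  obtain ⟨a, rfl⟩ := residue_surjective x
  exact ⟨_, BD_rho_mk O a⟩

theorem BD_rho_ker (O : Type) [CommRing O] [IsLocalRing O] (x y : O ⧸ (maximalIdeal O ^ 2))
    (hx : BD_rho O x = 0) (hy : BD_rho O y = 0) : x * y = 0 := by
  obtain ⟨a, rfl⟩ := Ideal.Quotient.mk_surjective x
  obtain ⟨b, rfl⟩ := Ideal.Quotient.mk_surjective y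
  rw [BD_rho_mk, residue_eq_zero_iff] at hx hy
  rw [← map_mul, Ideal.Quotient.eq_zero_iff_mem, pow_two]
  exact Ideal.mul_mem_mul hx hy

/-- a section of `O / M² → O / M` over a subring that is cofinite modulo `𝔔` gives a bounded
derivation -/
theorem BD_assemble {S : Type} [CommRing S] [IsNoetherianRing S] (𝔔 : Ideal S) [𝔔.IsPrime]
    (σ : ResidueField (Localization.AtPrime 𝔔) →+*
      Localization.AtPrime 𝔔 ⧸ (maximalIdeal (Localization.AtPrime 𝔔) ^ 2))
    (hσ : ∀ x, BD_rho (Localization.AtPrime 𝔔) (σ x) = x)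
    {R0 : Type} [CommRing R0] (i0 : R0 →+* S)
    (hfin : ((Ideal.Quotient.mk 𝔔).comp i0).Finite)
    (hσi : ∀ c : R0, σ (residue _ (algebraMap S (Localization.AtPrime 𝔔) (i0 c))) =
      Ideal.Quotient.mk _ (algebraMap S (Localization.AtPrime 𝔔) (i0 c))) : BddDer S 𝔔 := by
  classical
  have hex : ∀ s : S, ∃ n : CotangentSpace (Localization.AtPrime 𝔔),
      (maximalIdeal (Localization.AtPrime 𝔔)).cotangentToQuotientSquare n =
        Ideal.Quotient.mk _ (algebraMap S (Localization.AtPrime 𝔔) s) -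
          σ (residue _ (algebraMap S (Localization.AtPrime 𝔔) s)) := by
    intro s
    have h1 : BD_rho (Localization.AtPrime 𝔔)
        (Ideal.Quotient.mk _ (algebraMap S (Localization.AtPrime 𝔔) s) -
          σ (residue _ (algebraMap S (Localization.AtPrime 𝔔) s))) = 0 := by
      rw [map_sub, hσ, BD_rho_mk, sub_self]
    obtain ⟨a, ha⟩ := Ideal.Quotient.mk_surjective
      (Ideal.Quotient.mk (maximalIdeal (Localization.AtPrime 𝔔) ^ 2)
        (algebraMap S (Localization.AtPrime 𝔔) s) -
          σ (residue _ (algebraMap S (Localization.AtPrime 𝔔) s)))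
    rw [← ha, BD_rho_mk, residue_eq_zero_iff] at h1
    exact ⟨Ideal.toCotangent _ ⟨a, h1⟩, ha⟩
  choose D hD using hex
  have hinj := (maximalIdeal (Localization.AtPrime 𝔔)).cotangentToQuotientSquare_injective
  have hsmul : ∀ (a : S) (n : CotangentSpace (Localization.AtPrime 𝔔)),
      (maximalIdeal (Localization.AtPrime 𝔔)).cotangentToQuotientSquare (a • n) =
        Ideal.Quotient.mk _ (algebraMap S (Localization.AtPrime 𝔔) a) *
        (maximalIdeal (Localization.AtPrime 𝔔)).cotangentToQuotientSquare n := by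
    intro a n
    rw [← algebraMap_smul (Localization.AtPrime 𝔔) a n, map_smul, Algebra.smul_def]
    rfl
  have hadd : ∀ a b, D (a + b) = D a + D b := by
    intro a b
    apply hinj
    rw [map_add, hD, hD, hD, map_add, map_add, map_add, map_add]
    ring
  have hmul : ∀ a b, D (a * b) = a • D b + b • D a := by
    intro a b
    apply hinj
    rw [map_add, hsmul, hsmul, hD, hD, hD, map_mul, map_mul, map_mul, map_mul]
    have h := BD_rho_ker (Localization.AtPrime 𝔔)
      (Ideal.Quotient.mk _ (algebraMap S (Localization.AtPrime 𝔔) a) -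
          σ (residue _ (algebraMap S (Localization.AtPrime 𝔔) a)))
      (Ideal.Quotient.mk _ (algebraMap S (Localization.AtPrime 𝔔) b) -
          σ (residue _ (algebraMap S (Localization.AtPrime 𝔔) b)))
      (by rw [map_sub, hσ, BD_rho_mk, sub_self]) (by rw [map_sub, hσ, BD_rho_mk, sub_self])
    linear_combination -h
  have hQ : ∀ (f : S) (_ : f ∈ 𝔔) (hf : algebraMap S (Localization.AtPrime 𝔔) f ∈
      maximalIdeal (Localization.AtPrime 𝔔)), D f = Ideal.toCotangent _ ⟨_, hf⟩ := by
    intro f _ hf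
    apply hinj
    rw [hD, (residue_eq_zero_iff _).2 hf, map_zero, sub_zero]
    rfl
  have hzero : D 0 = 0 := by
    have := hadd 0 0
    rw [add_zero] at this
    exact left_eq_add.1 this
  have hsum : ∀ (n : ℕ) (g : Fin n → S), D (∑ k, g k) = ∑ k, D (g k) := by
    intro n g
    let D' : S →+ CotangentSpace (Localization.AtPrime 𝔔) :=
      { toFun := D, map_zero' := hzero, map_add' := hadd }
    exact map_sum D' g Finset.univ
  have hkill : ∀ (f : S) (_ : f ∈ 𝔔) (n : CotangentSpace (Localization.AtPrime 𝔔)),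
      f • n = 0 := by
    intro f hf n
    rw [← algebraMap_smul (Localization.AtPrime 𝔔) f n]
    exact Ideal.Cotangent.smul_eq_zero_of_mem
      ((IsLocalization.AtPrime.to_map_mem_maximal_iff _ 𝔔 f).2 hf) n
  have hi0 : ∀ c : R0, D (i0 c) = 0 := by
    intro c
    apply hinj
    rw [hD, hσi, sub_self, map_zero]
  -- generators
  let _ : Algebra R0 (S ⧸ 𝔔) := ((Ideal.Quotient.mk 𝔔).comp i0).toAlgebra
  have hfin' : Module.Finite R0 (S ⧸ 𝔔) := hfin
  obtain ⟨m, g, hg⟩ := Module.Finite.exists_fin (R := R0) (M := S ⧸ 𝔔)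
  choose s hs using fun k => Ideal.Quotient.mk_surjective (g k)
  obtain ⟨T, hT⟩ := (inferInstance : IsNoetherianRing S).noetherian 𝔔
  refine ⟨D, hadd, hmul, hQ, Set.range (fun k => D (s k)) ∪ D '' (T : Set S),
    (Set.finite_range _).union (T.finite_toSet.image _), ?_⟩
  have hTspan : ∀ q ∈ 𝔔, D q ∈ Submodule.span S (Set.range (fun k => D (s k)) ∪ D '' (T : Set S)) := by
    intro q hq
    rw [← hT] at hq
    induction hq using Submodule.span_induction with
    | mem x hx => exact Submodule.subset_span (Or.inr ⟨x, hx, rfl⟩)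
    | zero =>
      rw [hzero]
      exact zero_mem _
    | add x y _ _ hx hy =>
      rw [hadd]
      exact add_mem hx hy
    | smul a x hx hx' =>
      rw [smul_eq_mul, hmul, hkill x (by rw [← hT]; exact hx), add_zero]
      exact Submodule.smul_mem _ _ hx'
  intro x
  obtain ⟨c, hc⟩ := (Submodule.mem_span_range_iff_exists_fun R0).1
      (show Ideal.Quotient.mk 𝔔 x ∈ Submodule.span R0 (Set.range g) by
        rw [hg]; exact Submodule.mem_top)
  have h1 : x - ∑ k, i0 (c k) * s k ∈ 𝔔 := by
    rw [← Ideal.Quotient.eq, map_sum, ← hc]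
    refine Finset.sum_congr rfl fun k _ => ?_
    rw [map_mul, hs, Algebra.smul_def]
    rfl
  have h2 : D x = ∑ k, D (i0 (c k) * s k) + D (x - ∑ k, i0 (c k) * s k) := by
    rw [← hsum, ← hadd]
    congr 1
    ring
  rw [h2]
  refine add_mem (sum_mem fun k _ => ?_) (hTspan _ h1)
  rw [hmul, hi0, smul_zero, add_zero]
  exact Submodule.smul_mem _ _ (Submodule.subset_span (Or.inl ⟨k, rfl⟩))

end Pool.Agent.Lib.MP_3029eb_ag
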