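import Mathlib

open scoped TensorProduct

namespace Pool.Agent.Lib.MP_3029eb_ag

/-- linear independence over a subfield, in explicit form -/
def BDP_Ind {F L : Type} [Field F] [Field L] (a : F →+* L) (K : Subfield F) {n : ℕ}
    (v : Fin n → L) : Prop :=
  ∀ c : Fin n → F, (∀ j, c j ∈ K) → ∑ j, a (c j) * v j = 0 → ∀ j, c j = 0

theorem BDP_ind_family {F L ι : Type} [Field F] [Field L] (a : F →+* L) [Nonempty ι]
    (K : ι → Subfield F) (hdir : ∀ i j, ∃ k, K k ≤ K i ∧ K k ≤ K j) :
    ∀ {n : ℕ} (v : Fin n → L), (∀ i, ¬ BDP_Ind a (K i) v) →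
      ∃ c : Fin n → F, (∀ j i, c j ∈ K i) ∧ (∃ j, c j ≠ 0) ∧ ∑ j, a (c j) * v j = 0 := by
  intro n
  induction n with
  | zero =>
    intro v h
    obtain ⟨i⟩ := ‹Nonempty ι›
    exact absurd (fun c _ _ j => j.elim0) (h i)
  | succ n ih =>
    intro v h
    by_cases h1 : ∀ i, ¬ BDP_Ind a (K i) (fun j => v (Fin.castSucc j))
    · obtain ⟨c, hc1, ⟨j0, hj0⟩, hc3⟩ := ih _ h1
      refine ⟨Fin.snoc c 0, ?_, ⟨Fin.castSucc j0, ?_⟩, ?_⟩
      · intro j i
        refine Fin.lastCases ?_ (fun j => ?_) j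
        · rw [Fin.snoc_last]
          exact zero_mem _
        · rw [Fin.snoc_castSucc]
          exact hc1 j i
      · rw [Fin.snoc_castSucc]
        exact hj0
      · rw [Fin.sum_univ_castSucc, Fin.snoc_last, map_zero, zero_mul, add_zero]
        rw [← hc3]
        refine Finset.sum_congr rfl fun j _ => ?_
        rw [Fin.snoc_castSucc]
    · push Not at h1
      obtain ⟨i0, hi0⟩ := h1
      have key : ∀ i, K i ≤ K i0 → ∃ d : Fin (n + 1) → F, (∀ j, d j ∈ K i) ∧
          d (Fin.last n) = 1 ∧ ∑ j, a (d j) * v j = 0 := by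
        intro i hi
        have h2 := h i
        unfold BDP_Ind at h2
        push Not at h2
        obtain ⟨c, hc1, hc2, j0, hj0⟩ := h2
        have hlast : c (Fin.last n) ≠ 0 := by
          intro h0
          have h3 : ∀ j : Fin n, c (Fin.castSucc j) = 0 := by
            refine hi0 (fun j => c (Fin.castSucc j)) (fun j => hi (hc1 _)) ?_
            rw [Fin.sum_univ_castSucc, h0, map_zero, zero_mul, add_zero] at hc2
            exact hc2
          apply hj0
          refine Fin.lastCases ?_ (fun j => ?_) j0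
          · exact h0
          · exact h3 j
        refine ⟨fun j => (c (Fin.last n))⁻¹ * c j, fun j => mul_mem (inv_mem (hc1 _)) (hc1 _),
          inv_mul_cancel₀ hlast, ?_⟩
        have : ∑ j, a ((c (Fin.last n))⁻¹ * c j) * v j =
            a (c (Fin.last n))⁻¹ * ∑ j, a (c j) * v j := by
          rw [Finset.mul_sum]
          refine Finset.sum_congr rfl fun j _ => ?_
          rw [map_mul]
          ring
        rw [this, hc2, mul_zero]
      have uniq : ∀ d d' : Fin (n + 1) → F, (∀ j, d j ∈ K i0) → (∀ j, d' j ∈ K i0) →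
          d (Fin.last n) = 1 → d' (Fin.last n) = 1 → ∑ j, a (d j) * v j = 0 →
          ∑ j, a (d' j) * v j = 0 → d = d' := by
        intro d d' h2 h3 h4 h5 h6 h7
        have h8 : ∀ j : Fin n, d (Fin.castSucc j) - d' (Fin.castSucc j) = 0 := by
          refine hi0 (fun j => d (Fin.castSucc j) - d' (Fin.castSucc j))
            (fun j => sub_mem (h2 _) (h3 _)) ?_
          rw [Fin.sum_univ_castSucc, h4] at h6
          rw [Fin.sum_univ_castSucc, h5] at h7
          have : ∑ j : Fin n, a (d (Fin.castSucc j) - d' (Fin.castSucc j)) * v (Fin.castSucc j) =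
              ∑ j : Fin n, a (d (Fin.castSucc j)) * v (Fin.castSucc j) -
              ∑ j : Fin n, a (d' (Fin.castSucc j)) * v (Fin.castSucc j) := by
            rw [← Finset.sum_sub_distrib]
            refine Finset.sum_congr rfl fun j _ => ?_
            rw [map_sub, sub_mul]
          rw [this]
          linear_combination h6 - h7
        funext j
        refine Fin.lastCases ?_ (fun j => ?_) j
        · rw [h4, h5]
        · exact sub_eq_zero.1 (h8 j)
      obtain ⟨d, hd1, hd2, hd3⟩ := key i0 (le_refl _)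
      refine ⟨d, ?_, ⟨Fin.last n, by rw [hd2]; exact one_ne_zero⟩, hd3⟩
      intro j i
      obtain ⟨k, hk1, hk2⟩ := hdir i i0
      obtain ⟨d', hd'1, hd'2, hd'3⟩ := key k hk2
      have := uniq d d' hd1 (fun j => hk2 (hd'1 j)) hd2 hd'2 hd3 hd'3
      rw [this]
      exact hk1 (hd'1 j)

/-- gluing of the Frobenius section and of a section on a subfield -/
theorem BDP_glue (p : ℕ) [Fact p.Prime] {F K L E : Type} [Field F] [Field K] [Field L]
    [CommRing E]
    (fr : F →+* K) (aF : F →+* L) (aK : K →+* L) (ψ : L →+* E) (jK : K →+* E) (ρ : E →+* L)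
    (hψ : ∀ w, ρ (ψ w) = w ^ p) (hjK : ∀ x, ρ (jK x) = aK x)
    (hcomp : ∀ x, jK (fr x) = ψ (aF x)) {n : ℕ} (b : Fin n → L)
    (hspan : ∀ w : L, ∃ c : Fin n → F, w = ∑ j, aF (c j) * b j)
    (hind : ∀ c : Fin n → K, ∑ j, aK (c j) * b j ^ p = 0 → ∀ j, c j = 0) :
    ∃ (K0 : Subfield L) (s : K0 →+* E), (∀ x, ρ (s x) = x) ∧
      (∀ w : L, ∃ h : w ^ p ∈ K0, s ⟨w ^ p, h⟩ = ψ w) ∧
      (∀ x : K, ∃ h : aK x ∈ K0, s ⟨aK x, h⟩ = jK x) := by
  let _ : Algebra F K := fr.toAlgebra
  let _ : Algebra F L := aF.toAlgebra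
  let _ : Algebra F E := (jK.comp fr).toAlgebra
  let f1 : K →ₐ[F] E := { jK with commutes' := fun r => rfl }
  let f2 : L →ₐ[F] E := { ψ with commutes' := fun r => (hcomp r).symm }
  let ν : K ⊗[F] L →ₐ[F] E := Algebra.TensorProduct.lift f1 f2 (fun _ _ => Commute.all _ _)
  have hν : ∀ k w, ν (k ⊗ₜ w) = jK k * ψ w := fun k w => Algebra.TensorProduct.lift_tmul _ _ _ _ _
  let μ : K ⊗[F] L →+* L := ρ.comp (ν : K ⊗[F] L →+* E)
  have hμ : ∀ k w, μ (k ⊗ₜ w) = aK k * w ^ p := by
    intro k w
    change ρ (ν (k ⊗ₜ w)) = _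
    rw [hν, map_mul, hjK, hψ]
  have hrep : ∀ t : K ⊗[F] L, ∃ c : Fin n → K, t = ∑ j, c j ⊗ₜ[F] b j := by
    intro t
    induction t using TensorProduct.induction_on with
    | zero =>
      refine ⟨fun _ => 0, ?_⟩
      simp
    | tmul k w =>
      obtain ⟨c, hc⟩ := hspan w
      refine ⟨fun j => k * fr (c j), ?_⟩
      rw [hc, TensorProduct.tmul_sum]
      refine Finset.sum_congr rfl fun j _ => ?_
      have h1 : aF (c j) * b j = c j • b j := (Algebra.smul_def (c j) (b j)).symm
      have h2 : k * fr (c j) = c j • k := by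
        rw [mul_comm]
        exact (Algebra.smul_def (c j) k).symm
      change k ⊗ₜ[F] (aF (c j) * b j) = (k * fr (c j)) ⊗ₜ[F] b j
      rw [h1, h2, TensorProduct.tmul_smul, TensorProduct.smul_tmul']
    | add t t' ht ht' =>
      obtain ⟨c, hc⟩ := ht
      obtain ⟨c', hc'⟩ := ht'
      refine ⟨fun j => c j + c' j, ?_⟩
      rw [hc, hc', ← Finset.sum_add_distrib]
      refine Finset.sum_congr rfl fun j _ => ?_
      rw [TensorProduct.add_tmul]
  have hinj : Function.Injective μ := by
    rw [injective_iff_map_eq_zero]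
    intro t ht
    obtain ⟨c, rfl⟩ := hrep t
    have h0 : ∀ j, c j = 0 := by
      apply hind
      rw [map_sum] at ht
      rw [← ht]
      exact Finset.sum_congr rfl fun j _ => (hμ _ _).symm
    refine Finset.sum_eq_zero fun j _ => ?_
    rw [h0 j, TensorProduct.zero_tmul]
  have hpow : ∀ w : L, w ^ p ∈ μ.range := fun w => ⟨1 ⊗ₜ w, by rw [hμ, map_one, one_mul]⟩
  have hp0 : p ≠ 0 := (Fact.out : p.Prime).ne_zero
  let K0 : Subfield L :=
    { μ.range with
      inv_mem' := by
        intro x hx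
        by_cases hx0 : x = 0
        · rw [hx0, inv_zero]
          exact zero_mem μ.range
        · have h1 : x⁻¹ = (x⁻¹) ^ p * x ^ (p - 1) := by
            obtain ⟨m, hm⟩ := Nat.exists_eq_succ_of_ne_zero hp0
            rw [hm, Nat.succ_sub_one, pow_succ, mul_comm ((x⁻¹) ^ m), mul_assoc, ← mul_pow,
              inv_mul_cancel₀ hx0, one_pow, mul_one]
          rw [h1]
          exact mul_mem (hpow _) (pow_mem hx _) }
  have hK0 : ∀ x, x ∈ K0 ↔ x ∈ μ.range := fun x => Iff.rfl
  let eq : K ⊗[F] L ≃+* μ.range := RingEquiv.ofBijective μ.rangeRestrict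
    ⟨fun x y h => hinj (congrArg Subtype.val h), μ.rangeRestrict_surjective⟩
  let inc : K0 →+* μ.range :=
    { toFun := fun x => ⟨x.1, (hK0 _).1 x.2⟩
      map_one' := rfl
      map_mul' := fun _ _ => rfl
      map_zero' := rfl
      map_add' := fun _ _ => rfl }
  let s : K0 →+* E := ((ν : K ⊗[F] L →+* E).comp (eq.symm : μ.range →+* K ⊗[F] L)).comp inc
  have hs : ∀ (t : K ⊗[F] L) (h : μ t ∈ K0), s ⟨μ t, h⟩ = ν t := by
    intro t h
    change ν (eq.symm ⟨μ t, _⟩) = ν t
    congr 1
    rw [RingEquiv.symm_apply_eq]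
    rfl
  have hμK0 : ∀ t, μ t ∈ K0 := fun t => ⟨t, rfl⟩
  refine ⟨K0, s, ?_, ?_, ?_⟩
  · rintro ⟨x, t, rfl⟩
    have h1 : s ⟨μ t, ⟨t, rfl⟩⟩ = ν t := hs t _
    rw [h1]
    rfl
  · intro w
    have h1 : μ (1 ⊗ₜ w) = w ^ p := by rw [hμ, map_one, one_mul]
    have h2 : w ^ p ∈ K0 := h1 ▸ hμK0 _
    refine ⟨h2, ?_⟩
    have h3 := hs (1 ⊗ₜ w) (hμK0 _)
    rw [hν, map_one, one_mul] at h3
    rw [← h3]
    congr 1
    exact Subtype.ext h1.symm
  · intro x
    have h1 : μ (x ⊗ₜ 1) = aK x := by rw [hμ, one_pow, mul_one]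
    have h2 : aK x ∈ K0 := h1 ▸ hμK0 _
    refine ⟨h2, ?_⟩
    have h3 := hs (x ⊗ₜ 1) (hμK0 _)
    rw [hν, map_one, mul_one] at h3
    rw [← h3]
    congr 1
    exact Subtype.ext h1.symm


theorem BDP_extend (p : ℕ) [Fact p.Prime] {L E : Type} [Field L] [CommRing E] [CharP L p]
    (ρ : E →+* L) (hρ : Function.Surjective ρ) (ψ : L →+* E) (hψ : ∀ e, ψ (ρ e) = e ^ p)
    (K0 : Subfield L) (s : K0 →+* E) (hs : ∀ x, ρ (s x) = x)
    (hsp : ∀ w : L, ∃ h : w ^ p ∈ K0, s ⟨w ^ p, h⟩ = ψ w) [FiniteDimensional K0 L] :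
    ∃ σ : L →+* E, (∀ x, ρ (σ x) = x) ∧ ∀ x : K0, σ x = s x := by
  let _ : Algebra K0 E := s.toAlgebra
  have hpp : p.Prime := Fact.out
  have key : ∀ K' : IntermediateField K0 L, ∃ f : K' →ₐ[K0] E, ∀ x, ρ (f x) = x := by
    intro K'
    refine IntermediateField.induction_on_adjoin
      (fun K' : IntermediateField K0 L => ∃ f : K' →ₐ[K0] E, ∀ x, ρ (f x) = x) ?_ ?_ K'
    · refine ⟨(Algebra.ofId K0 E).comp (IntermediateField.botEquiv K0 L).toAlgHom, ?_⟩
      intro x
      have h1 : (x : L) = ((IntermediateField.botEquiv K0 L x : K0) : L) := by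
        obtain ⟨y, rfl⟩ := (IntermediateField.botEquiv K0 L).symm.surjective x
        rw [AlgEquiv.apply_symm_apply]
        rfl
      rw [h1]
      exact hs _
    · rintro K' x ⟨f, hf⟩
      let _ : Algebra K' E := f.toRingHom.toAlgebra
      have htow : IsScalarTower K0 K' E := IsScalarTower.of_algebraMap_eq fun y =>
        (f.commutes y).symm
      have hint : IsIntegral K' x := IsIntegral.of_finite K' x
      let pb := IntermediateField.adjoin.powerBasis hint
      have hgen : pb.gen = IntermediateField.AdjoinSimple.gen K' x := rfl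
      have hmin : minpoly K' pb.gen = minpoly K' x := by
        rw [hgen, IntermediateField.minpoly_gen]
      obtain ⟨e, he, hee⟩ : ∃ e : E, ρ e = x ∧ Polynomial.aeval e (minpoly K' x) = 0 := by
        by_cases hx : x ∈ K'
        · refine ⟨f ⟨x, hx⟩, hf _, ?_⟩
          have h1 : minpoly K' x = Polynomial.X - Polynomial.C (⟨x, hx⟩ : K') :=
            minpoly.eq_X_sub_C L (⟨x, hx⟩ : K')
          rw [h1, map_sub, Polynomial.aeval_X, Polynomial.aeval_C]
          exact sub_self _
        · obtain ⟨e, he⟩ := hρ x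
          refine ⟨e, he, ?_⟩
          obtain ⟨hxp, hxs⟩ := hsp x
          have h1 : minpoly K' x = Polynomial.X ^ p - Polynomial.C (algebraMap K0 K' ⟨x ^ p, hxp⟩) := by
            symm
            refine minpoly.eq_of_irreducible_of_monic ?_ ?_ ?_
            · refine X_pow_sub_C_irreducible_of_prime hpp ?_
              intro b hb
              apply hx
              have h2 : (b : L) ^ p = x ^ p := congrArg (fun z : K' => (z : L)) hb
              have h3 : (b : L) = x := frobenius_inj L p h2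
              rw [← h3]
              exact b.2
            · rw [map_sub, map_pow, Polynomial.aeval_X, Polynomial.aeval_C]
              exact sub_self _
            · exact Polynomial.monic_X_pow_sub_C _ hpp.ne_zero
          rw [h1, map_sub, map_pow, Polynomial.aeval_X, Polynomial.aeval_C,
            ← IsScalarTower.algebraMap_apply]
          have h4 : algebraMap K0 E ⟨x ^ p, hxp⟩ = e ^ p := by
            change s ⟨x ^ p, hxp⟩ = e ^ p
            rw [hxs, ← he, hψ]
          rw [h4]
          exact sub_self _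
      let g : IntermediateField.adjoin K' {x} →ₐ[K'] E := pb.lift e (by rw [hmin]; exact hee)
      refine ⟨g.restrictScalars K0, ?_⟩
      let ρ' : E →ₐ[K'] L := { ρ with commutes' := fun r => hf r }
      have h5 : ρ'.comp g = (IntermediateField.adjoin K' {x}).val := by
        refine pb.algHom_ext ?_
        change ρ (g pb.gen) = (pb.gen : L)
        rw [PowerBasis.lift_gen, he]
        rfl
      intro z
      exact DFunLike.congr_fun h5 z
  obtain ⟨f, hf⟩ := key ⊤
  refine ⟨(f : (⊤ : IntermediateField K0 L) →+* E).comp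
    (IntermediateField.topEquiv (F := K0) (E := L)).symm.toRingEquiv.toRingHom, ?_, ?_⟩
  · intro x
    exact hf _
  · intro x
    exact f.commutes x

end Pool.Agent.Lib.MP_3029eb_ag
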