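import Pool.Agent.Lib.MP_3029eb_ag.GoodDef
import Pool.Agent.Lib.MP_3029eb_ag.BDPa

open IsLocalRing

namespace Pool.Agent.Lib.MP_3029eb_ag

theorem BDP_isUnit {L E : Type} [Field L] [CommRing E] (ρ : E →+* L)
    (hρ : Function.Surjective ρ) (hker : ∀ x y, ρ x = 0 → ρ y = 0 → x * y = 0) {e : E}
    (he : ρ e ≠ 0) : IsUnit e := by
  obtain ⟨e', he'⟩ := hρ (ρ e)⁻¹
  have h1 : ρ (e * e' - 1) = 0 := by
    rw [map_sub, map_mul, he', mul_inv_cancel₀ he, map_one, sub_self]
  have h2 := hker _ _ h1 h1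
  refine IsUnit.of_mul_eq_one (e' * (1 - (e * e' - 1))) ?_
  linear_combination -h2

theorem BDP_section (p : ℕ) [Fact p.Prime] {Λ L E : Type} [CommRing Λ] [IsDomain Λ] [CharP Λ p]
    (hgood : Good p Λ) [Field L] [CommRing E] (ρ : E →+* L) (hρ : Function.Surjective ρ)
    (hker : ∀ x y, ρ x = 0 → ρ y = 0 → x * y = 0) (j0 : Λ →+* E)
    (hj0 : Function.Injective (ρ.comp j0))
    (hspan : ∃ (m : ℕ) (t : Fin m → L), ∀ w : L, ∃ (c : Fin m → Λ) (d : Λ), d ≠ 0 ∧
      ρ (j0 d) * w = ∑ k, ρ (j0 (c k)) * t k) :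
    ∃ F0 : Subring Λ, Module.Finite F0 Λ ∧ ∃ σ : L →+* E, (∀ x, ρ (σ x) = x) ∧
      ∀ c ∈ F0, σ (ρ (j0 c)) = j0 c := by
  classical
  have hpp : p.Prime := Fact.out
  obtain ⟨ι, Fam, hne, hdir, hpowF, hfinF, hclF, hintF⟩ := hgood
  have hj0inj : Function.Injective j0 := fun x y h => hj0 (congrArg ρ h)
  have hcharL : CharP L p := charP_of_injective_ringHom hj0 p
  have hcharE : CharP E p := charP_of_injective_ringHom hj0inj p
  have hAinj : Function.Injective (algebraMap Λ (FractionRing Λ)) :=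
    IsFractionRing.injective Λ (FractionRing Λ)
  have hcharF : CharP (FractionRing Λ) p := charP_of_injective_ringHom hAinj p
  -- the two maps of the fraction field
  let aF : FractionRing Λ →+* L := IsFractionRing.lift hj0
  have haF : ∀ x : Λ, aF (algebraMap Λ (FractionRing Λ) x) = ρ (j0 x) := fun x =>
    IsFractionRing.lift_algebraMap hj0 x
  have hunit : ∀ y : nonZeroDivisors Λ, IsUnit (j0 y) := by
    intro y
    refine BDP_isUnit ρ hρ hker ?_
    intro h
    have h1 : (ρ.comp j0) (y : Λ) = (ρ.comp j0) 0 := by rw [map_zero]; exact h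
    exact nonZeroDivisors.coe_ne_zero y (hj0 h1)
  let jF : FractionRing Λ →+* E := IsLocalization.lift hunit
  have hjF : ∀ x : Λ, jF (algebraMap Λ (FractionRing Λ) x) = j0 x := fun x =>
    IsLocalization.lift_eq hunit x
  have hρjF : ∀ x, ρ (jF x) = aF x := by
    have h1 : ρ.comp jF = aF := by
      refine IsLocalization.ringHom_ext (nonZeroDivisors Λ) ?_
      ext x
      change ρ (jF (algebraMap Λ (FractionRing Λ) x)) = aF (algebraMap Λ (FractionRing Λ) x)
      rw [hjF, haF]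
    exact fun x => DFunLike.congr_fun h1 x
  -- Frobenius
  have hkerF : RingHom.ker ρ ≤ RingHom.ker (frobenius E p) := by
    intro n hn
    rw [RingHom.mem_ker] at hn ⊢
    rw [frobenius_def]
    obtain ⟨m, hm⟩ := Nat.exists_eq_add_of_le hpp.two_le
    rw [hm, pow_add, pow_two, hker n n hn hn, zero_mul]
  let ψ : L →+* E := RingHom.liftOfSurjective ρ hρ ⟨frobenius E p, hkerF⟩
  have hψ : ∀ e, ψ (ρ e) = e ^ p := fun e =>
    RingHom.liftOfSurjective_comp_apply ρ hρ ⟨frobenius E p, hkerF⟩ e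
  have hψ2 : ∀ w, ρ (ψ w) = w ^ p := by
    intro w
    obtain ⟨e, rfl⟩ := hρ w
    rw [hψ, map_pow]
  -- the subfields
  let K : ι → Subfield (FractionRing Λ) := fun i =>
    Subfield.closure (((Fam i).map (algebraMap Λ (FractionRing Λ)) : Subring (FractionRing Λ)) :
      Set (FractionRing Λ))
  have hmemK : ∀ i x, x ∈ K i ↔ ∃ u ∈ Fam i, ∃ v ∈ Fam i,
      algebraMap Λ (FractionRing Λ) u / algebraMap Λ (FractionRing Λ) v = x := by
    intro i x
    change x ∈ Subfield.closure _ ↔ _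
    rw [Subfield.mem_closure_iff, Subring.closure_eq]
    constructor
    · rintro ⟨y, ⟨u, hu, rfl⟩, z, ⟨v, hv, rfl⟩, h⟩
      exact ⟨u, hu, v, hv, h⟩
    · rintro ⟨u, hu, v, hv, h⟩
      exact ⟨_, ⟨u, hu, rfl⟩, _, ⟨v, hv, rfl⟩, h⟩
  have hKdir : ∀ i j, ∃ k, K k ≤ K i ∧ K k ≤ K j := by
    intro i j
    obtain ⟨k, hk1, hk2⟩ := hdir i j
    refine ⟨k, ?_, ?_⟩
    · intro x hx
      rw [hmemK] at hx ⊢
      obtain ⟨u, hu, v, hv, h⟩ := hx
      exact ⟨u, hk1 hu, v, hk1 hv, h⟩
    · intro x hx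
      rw [hmemK] at hx ⊢
      obtain ⟨u, hu, v, hv, h⟩ := hx
      exact ⟨u, hk2 hu, v, hk2 hv, h⟩
  have hpowK : ∀ i (x : FractionRing Λ), x ^ p ∈ K i := by
    intro i x
    obtain ⟨a, b, _, rfl⟩ := IsFractionRing.div_surjective (A := Λ) x
    rw [hmemK]
    exact ⟨a ^ p, hpowF i a, b ^ p, hpowF i b, by rw [map_pow, map_pow, div_pow]⟩
  have hintK : ∀ x : FractionRing Λ, (∀ i, x ∈ K i) → ∃ y, y ^ p = x := by
    intro x hx
    by_cases hx0 : x = 0
    · exact ⟨0, by rw [hx0, zero_pow hpp.ne_zero]⟩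
    obtain ⟨a, b, hb, hxab⟩ := IsFractionRing.div_surjective (A := Λ) x
    have hb0 : b ≠ 0 := nonZeroDivisors.ne_zero hb
    have hb0' : algebraMap Λ (FractionRing Λ) b ≠ 0 := by
      rw [Ne, map_eq_zero_iff _ hAinj]
      exact hb0
    obtain ⟨m, hm⟩ := Nat.exists_eq_succ_of_ne_zero hpp.ne_zero
    have hc : ∀ i, a * b ^ m ∈ Fam i := by
      intro i
      obtain ⟨u, hu, v, hv, huv⟩ := (hmemK i x).1 (hx i)
      have hv0 : v ≠ 0 := by
        rintro rfl
        rw [map_zero, div_zero] at huv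
        exact hx0 huv.symm
      have hv0' : algebraMap Λ (FractionRing Λ) v ≠ 0 := by
        rw [Ne, map_eq_zero_iff _ hAinj]
        exact hv0
      refine hclF i v hv _ hv0 ?_
      have h1 : v * (a * b ^ m) = u * b ^ p := by
        apply hAinj
        have h2 : algebraMap Λ (FractionRing Λ) a * algebraMap Λ (FractionRing Λ) v =
            algebraMap Λ (FractionRing Λ) u * algebraMap Λ (FractionRing Λ) b := by
          rw [← hxab] at huv
          rw [div_eq_div_iff hv0' hb0'] at huv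
          rw [← huv]
        rw [hm, pow_succ]
        simp only [map_mul, map_pow]
        linear_combination (algebraMap Λ (FractionRing Λ) b) ^ m * h2
      rw [h1]
      exact mul_mem hu (hpowF i b)
    obtain ⟨e, he⟩ := hintF _ hc
    refine ⟨algebraMap Λ (FractionRing Λ) e / algebraMap Λ (FractionRing Λ) b, ?_⟩
    rw [div_pow, ← map_pow, he, ← hxab, div_eq_div_iff (pow_ne_zero _ hb0') hb0', hm, pow_succ,
      map_mul, map_pow]
    ring
  -- finite dimension and a basis
  let _ : Algebra (FractionRing Λ) L := aF.toAlgebra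
  have hfdL : FiniteDimensional (FractionRing Λ) L := by
    obtain ⟨m, t, ht⟩ := hspan
    refine Module.Finite.of_surjective (Fintype.linearCombination (FractionRing Λ) t) ?_
    intro w
    obtain ⟨c, d, hd, h⟩ := ht w
    have hd' : aF (algebraMap Λ (FractionRing Λ) d) ≠ 0 := by
      rw [Ne, map_eq_zero_iff _ aF.injective, map_eq_zero_iff _ hAinj]
      exact hd
    refine ⟨fun k => algebraMap Λ (FractionRing Λ) (c k) / algebraMap Λ (FractionRing Λ) d, ?_⟩
    rw [Fintype.linearCombination_apply]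
    have h1 : ∀ k, (algebraMap Λ (FractionRing Λ) (c k) / algebraMap Λ (FractionRing Λ) d) • t k =
        (aF (algebraMap Λ (FractionRing Λ) d))⁻¹ * (ρ (j0 (c k)) * t k) := by
      intro k
      rw [Algebra.smul_def]
      change aF _ * t k = _
      rw [map_div₀, haF (c k)]
      field_simp
    rw [Finset.sum_congr rfl (fun k _ => h1 k), ← Finset.mul_sum, ← h, ← haF,
      inv_mul_cancel_left₀ hd']
  let b := Module.finBasis (FractionRing Λ) L
  have hbspan : ∀ w : L, ∃ c : Fin (Module.finrank (FractionRing Λ) L) → FractionRing Λ,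
      w = ∑ j, aF (c j) * b j := by
    intro w
    refine ⟨fun j => b.repr w j, ?_⟩
    conv_lhs => rw [← b.sum_repr w]
    exact Finset.sum_congr rfl fun j _ => Algebra.smul_def _ _
  -- independence
  obtain ⟨i, hi⟩ : ∃ i, BDP_Ind aF (K i) (fun j => b j ^ p) := by
    by_contra hcon
    push Not at hcon
    obtain ⟨c, hc1, ⟨j0', hj0'⟩, hc3⟩ := BDP_ind_family aF K hKdir _ hcon
    choose y hy using fun j => hintK (c j) (hc1 j)
    have h1 : (∑ j, aF (y j) * b j) ^ p = 0 := by
      rw [sum_pow_char, ← hc3]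
      refine Finset.sum_congr rfl fun j _ => ?_
      rw [mul_pow, ← map_pow, hy]
    have h2 : ∑ j, y j • b j = 0 := by
      rw [← pow_eq_zero_iff hpp.ne_zero, ← h1]
      congr 1
    have h3 := Fintype.linearIndependent_iff.1 b.linearIndependent y h2 j0'
    rw [← hy, h3, zero_pow hpp.ne_zero] at hj0'
    exact hj0' rfl
  -- gluing
  let fr : FractionRing Λ →+* K i := (frobenius (FractionRing Λ) p).codRestrict (K i) (hpowK i)
  obtain ⟨K0, s, hs1, hs2, hs3⟩ := BDP_glue p fr aF (aF.comp (K i).subtype) ψ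
    (jF.comp (K i).subtype) ρ hψ2 (fun x => hρjF _) (fun x => by
      change jF (x ^ p) = ψ (aF x)
      rw [map_pow, ← hρjF, hψ]) (fun j => b j) hbspan (fun c hc j => by
      have := hi (fun j => (c j : FractionRing Λ)) (fun j => (c j).2) hc j
      exact Subtype.ext this)
  -- finiteness over `K0`
  have hfinK : Module.Finite (K i) (FractionRing Λ) := by
    have := hfinF i
    obtain ⟨m, g, hg⟩ := Module.Finite.exists_fin (R := Fam i) (M := Λ)
    refine Module.Finite.of_surjective (Fintype.linearCombination (K i)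
      (fun l => algebraMap Λ (FractionRing Λ) (g l))) ?_
    intro x
    obtain ⟨a, b', hb', hxab⟩ := IsFractionRing.div_surjective (A := Λ) x
    have hb0 : b' ≠ 0 := nonZeroDivisors.ne_zero hb'
    have hb0' : algebraMap Λ (FractionRing Λ) b' ≠ 0 := by
      rw [Ne, map_eq_zero_iff _ hAinj]
      exact hb0
    obtain ⟨q, hq⟩ := Nat.exists_eq_succ_of_ne_zero hpp.ne_zero
    obtain ⟨c, hc⟩ := (Submodule.mem_span_range_iff_exists_fun (Fam i)).1
      (show a * b' ^ q ∈ Submodule.span (Fam i) (Set.range g) by rw [hg]; exact Submodule.mem_top)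
    have hc' : a * b' ^ q = ∑ l, (c l : Λ) * g l := hc.symm
    have hmem : ∀ l, algebraMap Λ (FractionRing Λ) (c l) / algebraMap Λ (FractionRing Λ) (b' ^ p) ∈
        K i := by
      intro l
      rw [hmemK]
      exact ⟨c l, (c l).2, b' ^ p, hpowF i b', rfl⟩
    refine ⟨fun l => ⟨_, hmem l⟩, ?_⟩
    rw [Fintype.linearCombination_apply]
    have h1 : ∀ l, (⟨_, hmem l⟩ : K i) • algebraMap Λ (FractionRing Λ) (g l) =
        algebraMap Λ (FractionRing Λ) ((c l : Λ) * g l) /
          algebraMap Λ (FractionRing Λ) (b' ^ p) := by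
      intro l
      change (algebraMap Λ (FractionRing Λ) (c l) / algebraMap Λ (FractionRing Λ) (b' ^ p)) *
        algebraMap Λ (FractionRing Λ) (g l) = _
      rw [map_mul]
      ring
    rw [Finset.sum_congr rfl (fun l _ => h1 l), ← Finset.sum_div, ← map_sum, ← hc', ← hxab,
      hq, pow_succ, map_mul, map_mul, map_pow]
    field_simp
  have hfinKL : Module.Finite (K i) L := Module.Finite.trans (FractionRing Λ) L
  have hfin0 : FiniteDimensional K0 L := by
    let g0 : K i →+* K0 := (aF.comp (K i).subtype).codRestrict K0 (fun x => (hs3 x).1)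
    let _ : Algebra (K i) K0 := g0.toAlgebra
    have htow : IsScalarTower (K i) K0 L := IsScalarTower.of_algebraMap_eq fun x => rfl
    exact Module.Finite.of_restrictScalars_finite (K i) K0 L
  obtain ⟨σ, hσ1, hσ2⟩ := BDP_extend p ρ hρ ψ hψ K0 s hs1 hs2
  refine ⟨Fam i, hfinF i, σ, hσ1, ?_⟩
  intro c hc
  have hcK : algebraMap Λ (FractionRing Λ) c ∈ K i := by
    rw [hmemK]
    exact ⟨c, hc, 1, one_mem _, by rw [map_one, div_one]⟩
  obtain ⟨h1, h2⟩ := hs3 ⟨_, hcK⟩
  have h3 := hσ2 ⟨_, h1⟩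
  rw [h2] at h3
  have h4 : (aF.comp (K i).subtype) ⟨_, hcK⟩ = ρ (j0 c) := haF c
  have h5 : (jF.comp (K i).subtype) ⟨_, hcK⟩ = j0 c := hjF c
  rw [h5] at h3
  rw [← h4]
  exact h3

end Pool.Agent.Lib.MP_3029eb_ag
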