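import Mathlib
import Pool.Agent.Lib.MP_3029eb_ag.BDPb
import Pool.Agent.Lib.MP_3029eb_ag.BDAssemble

/-! GC1: bounded derivations for algebras essentially of finite type, algebraic case. -/

open IsLocalRing
open scoped TensorProduct

namespace Pool.Agent.Lib.MP_3029eb_ag.GR
open Pool.Agent.Lib.MP_3029eb_ag

/-- a section of `O / M² → O / M` over a ring `R0` such that `S0 / (𝔔 ∩ S0)` is finite over `R0`
gives a bounded derivation -/
theorem GC1_assemble {S0 S : Type} [CommRing S0] [IsNoetherianRing S0] [CommRing S]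
    [Algebra S0 S] [Algebra.EssFiniteType S0 S] (𝔔 : Ideal S) [𝔔.IsPrime]
    (σ : ResidueField (Localization.AtPrime 𝔔) →+*
      Localization.AtPrime 𝔔 ⧸ (maximalIdeal (Localization.AtPrime 𝔔) ^ 2))
    (hσ : ∀ x, BD_rho (Localization.AtPrime 𝔔) (σ x) = x)
    {R0 : Type} [CommRing R0] (i0 : R0 →+* S0)
    (hfin : ((Ideal.Quotient.mk (𝔔.comap (algebraMap S0 S))).comp i0).Finite)
    (hσi : ∀ c : R0, σ (residue _ (algebraMap S (Localization.AtPrime 𝔔)
        (algebraMap S0 S (i0 c)))) =
      Ideal.Quotient.mk _ (algebraMap S (Localization.AtPrime 𝔔) (algebraMap S0 S (i0 c)))) :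
    BddDer S 𝔔 := by
  classical
  have hex : ∀ s : S, ∃ n : CotangentSpace (Localization.AtPrime 𝔔),
      (maximalIdeal (Localization.AtPrime 𝔔)).cotangentToQuotientSquare n =
        Ideal.Quotient.mk _ (algebraMap S (Localization.AtPrime 𝔔) s) -
          σ (residue _ (algebraMap S (Localization.AtPrime 𝔔) s)) := by
    intro s
    have h1 : BD_rho (Localization.AtPrime 𝔔)
        (Ideal.Quotient.mk _ (algebraMap S (Localization.AtPrime 𝔔) s) -
          σ (residue _ (algebraMap S (Localization.AtPrime 𝔔) s))) = 0 := by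
      rw [map_sub, hσ, BD_rho_mk, sub_self]
    obtain ⟨a, ha⟩ := Ideal.Quotient.mk_surjective
      (Ideal.Quotient.mk (maximalIdeal (Localization.AtPrime 𝔔) ^ 2)
        (algebraMap S (Localization.AtPrime 𝔔) s) -
          σ (residue _ (algebraMap S (Localization.AtPrime 𝔔) s)))
    rw [← ha, BD_rho_mk, residue_eq_zero_iff] at h1
    exact ⟨Ideal.toCotangent _ ⟨a, h1⟩, ha⟩
  choose D hD using hex
  have hinj := (maximalIdeal (Localization.AtPrime 𝔔)).cotangentToQuotientSquare_injective
  have hsmul : ∀ (a : S) (n : CotangentSpace (Localization.AtPrime 𝔔)),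
      (maximalIdeal (Localization.AtPrime 𝔔)).cotangentToQuotientSquare (a • n) =
        Ideal.Quotient.mk _ (algebraMap S (Localization.AtPrime 𝔔) a) *
        (maximalIdeal (Localization.AtPrime 𝔔)).cotangentToQuotientSquare n := by
    intro a n
    rw [← algebraMap_smul (Localization.AtPrime 𝔔) a n, map_smul, Algebra.smul_def]
    rfl
  have hadd : ∀ a b, D (a + b) = D a + D b := by
    intro a b
    apply hinj
    rw [map_add, hD, hD, hD, map_add, map_add, map_add, map_add]
    ring
  have hmul : ∀ a b, D (a * b) = a • D b + b • D a := by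
    intro a b
    apply hinj
    rw [map_add, hsmul, hsmul, hD, hD, hD, map_mul, map_mul, map_mul, map_mul]
    have h := BD_rho_ker (Localization.AtPrime 𝔔)
      (Ideal.Quotient.mk _ (algebraMap S (Localization.AtPrime 𝔔) a) -
          σ (residue _ (algebraMap S (Localization.AtPrime 𝔔) a)))
      (Ideal.Quotient.mk _ (algebraMap S (Localization.AtPrime 𝔔) b) -
          σ (residue _ (algebraMap S (Localization.AtPrime 𝔔) b)))
      (by rw [map_sub, hσ, BD_rho_mk, sub_self]) (by rw [map_sub, hσ, BD_rho_mk, sub_self])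
    linear_combination -h
  have hQ : ∀ (f : S) (_ : f ∈ 𝔔) (hf : algebraMap S (Localization.AtPrime 𝔔) f ∈
      maximalIdeal (Localization.AtPrime 𝔔)), D f = Ideal.toCotangent _ ⟨_, hf⟩ := by
    intro f _ hf
    apply hinj
    rw [hD, (residue_eq_zero_iff _).2 hf, map_zero, sub_zero]
    rfl
  have hzero : D 0 = 0 := by
    have := hadd 0 0
    rw [add_zero] at this
    exact left_eq_add.1 this
  have hsum : ∀ (n : ℕ) (g : Fin n → S), D (∑ k, g k) = ∑ k, D (g k) := by
    intro n g
    let D' : S →+ CotangentSpace (Localization.AtPrime 𝔔) :=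
      { toFun := D, map_zero' := hzero, map_add' := hadd }
    exact map_sum D' g Finset.univ
  have hkill : ∀ (f : S) (_ : f ∈ 𝔔) (n : CotangentSpace (Localization.AtPrime 𝔔)),
      f • n = 0 := by
    intro f hf n
    rw [← algebraMap_smul (Localization.AtPrime 𝔔) f n]
    exact Ideal.Cotangent.smul_eq_zero_of_mem
      ((IsLocalization.AtPrime.to_map_mem_maximal_iff _ 𝔔 f).2 hf) n
  have hi0 : ∀ c : R0, D (algebraMap S0 S (i0 c)) = 0 := by
    intro c
    apply hinj
    rw [hD, hσi, sub_self, map_zero]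
  -- generators of the image of `S0`
  set 𝔮 : Ideal S0 := 𝔔.comap (algebraMap S0 S) with h𝔮
  let _ : Algebra R0 (S0 ⧸ 𝔮) := ((Ideal.Quotient.mk 𝔮).comp i0).toAlgebra
  have hfin' : Module.Finite R0 (S0 ⧸ 𝔮) := hfin
  obtain ⟨m, g, hg⟩ := Module.Finite.exists_fin (R := R0) (M := S0 ⧸ 𝔮)
  choose s hs using fun k => Ideal.Quotient.mk_surjective (g k)
  obtain ⟨T, hT⟩ := (inferInstance : IsNoetherianRing S0).noetherian 𝔮
  obtain ⟨W, hW⟩ := (Algebra.essFiniteType_iff S0 S).1 inferInstance
  set G : Set (CotangentSpace (Localization.AtPrime 𝔔)) :=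
    Set.range (fun k => D (algebraMap S0 S (s k))) ∪
      (D '' (algebraMap S0 S '' (T : Set S0)) ∪ D '' (W : Set S)) with hG
  refine ⟨D, hadd, hmul, hQ, G, (Set.finite_range _).union
    (((T.finite_toSet.image _).image _).union (W.finite_toSet.image _)), ?_⟩
  have hTspan : ∀ q ∈ 𝔮, D (algebraMap S0 S q) ∈ Submodule.span S G := by
    intro q hq
    rw [← hT] at hq
    induction hq using Submodule.span_induction with
    | mem x hx => exact Submodule.subset_span (Or.inr (Or.inl ⟨_, ⟨x, hx, rfl⟩, rfl⟩))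
    | zero =>
      rw [map_zero, hzero]
      exact zero_mem _
    | add x y _ _ hx hy =>
      rw [map_add, hadd]
      exact add_mem hx hy
    | smul a x hx hx' =>
      have hxq : algebraMap S0 S x ∈ 𝔔 := by
        have : x ∈ 𝔮 := by rw [← hT]; exact hx
        exact this
      rw [smul_eq_mul, map_mul, hmul, hkill _ hxq, add_zero]
      exact Submodule.smul_mem _ _ hx'
  have hS0 : ∀ x : S0, D (algebraMap S0 S x) ∈ Submodule.span S G := by
    intro x
    obtain ⟨c, hc⟩ := (Submodule.mem_span_range_iff_exists_fun R0).1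
        (show Ideal.Quotient.mk 𝔮 x ∈ Submodule.span R0 (Set.range g) by
          rw [hg]; exact Submodule.mem_top)
    have h1 : x - ∑ k, i0 (c k) * s k ∈ 𝔮 := by
      rw [← Ideal.Quotient.eq, map_sum, ← hc]
      refine Finset.sum_congr rfl fun k _ => ?_
      rw [map_mul, hs, Algebra.smul_def]
      rfl
    have h2 : D (algebraMap S0 S x) = ∑ k, D (algebraMap S0 S (i0 (c k)) *
        algebraMap S0 S (s k)) + D (algebraMap S0 S (x - ∑ k, i0 (c k) * s k)) := by
      rw [← hsum, ← hadd]
      congr 1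
      rw [map_sub, map_sum]
      simp only [map_mul]
      ring
    rw [h2]
    refine add_mem (sum_mem fun k _ => ?_) (hTspan _ h1)
    rw [hmul, hi0, smul_zero, add_zero]
    exact Submodule.smul_mem _ _ (Submodule.subset_span (Or.inl ⟨k, rfl⟩))
  have hadj : ∀ y ∈ Algebra.adjoin S0 (W : Set S), D y ∈ Submodule.span S G := by
    intro y hy
    induction hy using Algebra.adjoin_induction with
    | mem x hx => exact Submodule.subset_span (Or.inr (Or.inr ⟨x, hx, rfl⟩))
    | algebraMap r => exact hS0 r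
    | add x y _ _ hx hy =>
      rw [hadd]
      exact add_mem hx hy
    | mul x y _ _ hx hy =>
      rw [hmul]
      exact add_mem (Submodule.smul_mem _ _ hy) (Submodule.smul_mem _ _ hx)
  intro x
  obtain ⟨t, ht, htu, hxt⟩ := hW x
  have h1 := hadj _ hxt
  have h2 := hadj _ ht
  rw [hmul] at h1
  have h3 : t • D x ∈ Submodule.span S G := by
    have h4 := sub_mem h1 (Submodule.smul_mem _ x h2)
    rwa [add_sub_cancel_left] at h4
  obtain ⟨u, hu⟩ := htu
  have h5 : D x = ((u⁻¹ : Sˣ) : S) • (t • D x) := by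
    rw [smul_smul, ← hu, Units.inv_mul, one_smul]
  rw [h5]
  exact Submodule.smul_mem _ _ h3

/-- the residue field is algebraic over the fraction field of `Λ` -/
theorem GC1_isAlgebraic {Λ S : Type} [CommRing Λ] [IsDomain Λ] [CommRing S] (𝔔 : Ideal S)
    [𝔔.IsPrime] (j : Λ →+* S)
    (halg : ∀ x : S, ∃ f : Polynomial Λ, f ≠ 0 ∧ f.eval₂ j x ∈ 𝔔) (F : Type) [Field F]
    [Algebra Λ F] [IsFractionRing Λ F] [Algebra F 𝔔.ResidueField]
    (ha : ∀ c : Λ, algebraMap F 𝔔.ResidueField (algebraMap Λ F c) =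
      algebraMap S 𝔔.ResidueField (j c)) : Algebra.IsAlgebraic F 𝔔.ResidueField := by
  have hs : ∀ s : S, IsAlgebraic F (algebraMap S 𝔔.ResidueField s) := by
    intro s
    obtain ⟨f, hf, hfs⟩ := halg s
    refine ⟨f.map (algebraMap Λ F), ?_, ?_⟩
    · rwa [Ne, Polynomial.map_eq_zero_iff (IsFractionRing.injective Λ F)]
    · rw [Polynomial.aeval_def, Polynomial.eval₂_map]
      have h1 : (algebraMap F 𝔔.ResidueField).comp (algebraMap Λ F) =
          (algebraMap S 𝔔.ResidueField).comp j := by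
        ext c
        exact ha c
      rw [h1, ← Polynomial.hom_eval₂]
      exact Ideal.algebraMap_residueField_eq_zero.2 hfs
  refine ⟨fun w => ?_⟩
  obtain ⟨a, b, hb, rfl⟩ := IsFractionRing.div_surjective (A := S ⧸ 𝔔) w
  obtain ⟨a, rfl⟩ := Ideal.Quotient.mk_surjective a
  obtain ⟨b, rfl⟩ := Ideal.Quotient.mk_surjective b
  rw [Ideal.algebraMap_quotient_residueField_mk, Ideal.algebraMap_quotient_residueField_mk,
    div_eq_mul_inv]
  exact (hs a).mul (hs b).inv

/-- the residue field is finite over the fraction field of `Λ` -/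
theorem GC1_finite {S0 S : Type} [CommRing S0] [CommRing S]
    [Algebra S0 S] [Algebra.EssFiniteType S0 S] {Λ : Type} [CommRing Λ] [IsDomain Λ]
    (i : Λ →+* S0) (𝔔 : Ideal S) [𝔔.IsPrime]
    (hfin : ((Ideal.Quotient.mk (𝔔.comap (algebraMap S0 S))).comp i).Finite)
    (halg : ∀ x : S, ∃ f : Polynomial Λ, f ≠ 0 ∧ f.eval₂ ((algebraMap S0 S).comp i) x ∈ 𝔔)
    (F : Type) [Field F] [Algebra Λ F] [IsFractionRing Λ F] [Algebra F 𝔔.ResidueField]
    (ha : ∀ c : Λ, algebraMap F 𝔔.ResidueField (algebraMap Λ F c) =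
      algebraMap S 𝔔.ResidueField (algebraMap S0 S (i c))) :
    Module.Finite F 𝔔.ResidueField := by
  have hAlg : Algebra.IsAlgebraic F 𝔔.ResidueField := GC1_isAlgebraic 𝔔 _ halg F ha
  set 𝔮 : Ideal S0 := 𝔔.comap (algebraMap S0 S) with h𝔮
  let u : S0 ⧸ 𝔮 →+* 𝔔.ResidueField :=
    Ideal.Quotient.lift 𝔮 ((algebraMap S 𝔔.ResidueField).comp (algebraMap S0 S))
      (fun x hx => Ideal.algebraMap_residueField_eq_zero.2 hx)
  have hu : u.comp (Ideal.Quotient.mk 𝔮) =
      (algebraMap S 𝔔.ResidueField).comp (algebraMap S0 S) :=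
    RingHom.ext fun x => rfl
  have h1 : (algebraMap S0 S).EssFiniteType := by
    rw [RingHom.essFiniteType_algebraMap]
    infer_instance
  have h2 : (algebraMap S 𝔔.ResidueField).EssFiniteType := by
    rw [RingHom.essFiniteType_algebraMap]
    infer_instance
  have h3 : (u.comp (Ideal.Quotient.mk 𝔮)).EssFiniteType := by
    rw [hu]
    exact h1.comp h2
  have h4 : u.EssFiniteType := RingHom.EssFiniteType.of_comp _ h3
  have h5 : ((Ideal.Quotient.mk 𝔮).comp i).EssFiniteType :=
    (RingHom.Finite.finiteType hfin).essFiniteType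
  have h6 : (u.comp ((Ideal.Quotient.mk 𝔮).comp i)).EssFiniteType := h5.comp h4
  have h7 : u.comp ((Ideal.Quotient.mk 𝔮).comp i) =
      (algebraMap F 𝔔.ResidueField).comp (algebraMap Λ F) := by
    rw [← RingHom.comp_assoc, hu]
    ext c
    exact (ha c).symm
  rw [h7] at h6
  have h8 : (algebraMap F 𝔔.ResidueField).EssFiniteType := RingHom.EssFiniteType.of_comp _ h6
  rw [RingHom.essFiniteType_algebraMap] at h8
  obtain ⟨W, hW⟩ := IntermediateField.fg_top F 𝔔.ResidueField
  have h9 : FiniteDimensional F (IntermediateField.adjoin F (W : Set 𝔔.ResidueField)) := by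
    have : Finite (W : Set 𝔔.ResidueField) := W.finite_toSet
    exact IntermediateField.finiteDimensional_adjoin fun x _ =>
      (hAlg.isAlgebraic x).isIntegral
  rw [hW] at h9
  exact Module.Finite.equiv (IntermediateField.topEquiv (F := F)
    (E := 𝔔.ResidueField)).toLinearEquiv

theorem GC1_mk {S0 S : Type} [CommRing S0] [CommRing S] [Algebra S0 S] {Λ : Type} [CommRing Λ]
    (i : Λ →+* S0) (𝔔 : Ideal S) [𝔔.IsPrime] (z : Λ) : algebraMap (S ⧸ 𝔔) 𝔔.ResidueField
      (((Ideal.Quotient.mk 𝔔).comp ((algebraMap S0 S).comp i)) z) =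
        algebraMap S 𝔔.ResidueField (algebraMap S0 S (i z)) :=
  Ideal.algebraMap_quotient_residueField_mk _ _

theorem GC1_spanning {S0 S : Type} [CommRing S0] [CommRing S]
    [Algebra S0 S] [Algebra.EssFiniteType S0 S] {Λ : Type} [CommRing Λ] [IsDomain Λ]
    (i : Λ →+* S0) (𝔔 : Ideal S) [𝔔.IsPrime]
    (hinj : Function.Injective ((Ideal.Quotient.mk 𝔔).comp ((algebraMap S0 S).comp i)))
    (hfin : ((Ideal.Quotient.mk (𝔔.comap (algebraMap S0 S))).comp i).Finite)
    (halg : ∀ x : S, ∃ f : Polynomial Λ, f ≠ 0 ∧ f.eval₂ ((algebraMap S0 S).comp i) x ∈ 𝔔) :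
    ∃ (m : ℕ) (t : Fin m → 𝔔.ResidueField), ∀ w : 𝔔.ResidueField, ∃ (c : Fin m → Λ) (d : Λ),
      d ≠ 0 ∧ algebraMap S 𝔔.ResidueField (algebraMap S0 S (i d)) * w =
        ∑ k, algebraMap S 𝔔.ResidueField (algebraMap S0 S (i (c k))) * t k := by
  classical
  have hinj' : Function.Injective
      (((algebraMap S 𝔔.ResidueField).comp (algebraMap S0 S)).comp i) := by
    intro x y hxy
    apply hinj
    apply 𝔔.injective_algebraMap_quotient_residueField
    rw [GC1_mk, GC1_mk]
    exact hxy
  let aF : FractionRing Λ →+* 𝔔.ResidueField := IsFractionRing.lift hinj'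
  have haF : ∀ x : Λ, aF (algebraMap Λ (FractionRing Λ) x) =
      algebraMap S 𝔔.ResidueField (algebraMap S0 S (i x)) := fun x =>
    IsFractionRing.lift_algebraMap hinj' x
  let _ : Algebra (FractionRing Λ) 𝔔.ResidueField := aF.toAlgebra
  have hfd : Module.Finite (FractionRing Λ) 𝔔.ResidueField :=
    GC1_finite i 𝔔 hfin halg (FractionRing Λ) haF
  let b := Module.finBasis (FractionRing Λ) 𝔔.ResidueField
  refine ⟨_, b, fun w => ?_⟩
  obtain ⟨d, hd⟩ := IsLocalization.exist_integer_multiples_of_finite (nonZeroDivisors Λ)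
    (fun k => b.repr w k)
  choose c hc using hd
  refine ⟨c, d, nonZeroDivisors.coe_ne_zero d, ?_⟩
  rw [← haF]
  have hw : w = ∑ k, aF (b.repr w k) * b k := by
    conv_lhs => rw [← b.sum_repr w]
    exact Finset.sum_congr rfl fun k _ => Algebra.smul_def _ _
  rw [hw, Finset.mul_sum]
  refine Finset.sum_congr rfl fun k _ => ?_
  rw [← haF, hc k, Algebra.smul_def, map_mul, mul_assoc]

/-- GC1 -/
theorem bddDer_of_algebraic (S0 S : Type) [CommRing S0] [IsNoetherianRing S0] [CommRing S]
    [Algebra S0 S] [Algebra.EssFiniteType S0 S] (Λ : Type) [CommRing Λ] [IsDomain Λ]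
    (i : Λ →+* S0) (𝔔 : Ideal S) [𝔔.IsPrime]
    (hinj : Function.Injective ((Ideal.Quotient.mk 𝔔).comp ((algebraMap S0 S).comp i)))
    (hfin : ((Ideal.Quotient.mk (𝔔.comap (algebraMap S0 S))).comp i).Finite)
    (halg : ∀ x : S, ∃ f : Polynomial Λ, f ≠ 0 ∧ f.eval₂ ((algebraMap S0 S).comp i) x ∈ 𝔔)
    (hchar : CharZero Λ ∨ ∃ p : ℕ, Fact p.Prime ∧ CharP Λ p ∧ Good p Λ) : BddDer S 𝔔 := by
  classical
  rcases hchar with hchar0 | ⟨p, hp, hcp, hgood⟩
  · -- characteristic zero
    let O := Localization.AtPrime 𝔔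
    let M := maximalIdeal O
    let F := FractionRing Λ
    let mk2 : O →+* O ⧸ M ^ 2 := Ideal.Quotient.mk (M ^ 2)
    let t : Λ →+* O ⧸ M ^ 2 := mk2.comp ((algebraMap S O).comp ((algebraMap S0 S).comp i))
    have ht : ∀ x : Λ, x ≠ 0 → IsUnit (t x) := by
      intro x hx
      refine RingHom.isUnit_map mk2 ?_
      have h1 : algebraMap S0 S (i x) ∉ 𝔔 := by
        intro h
        apply hx
        apply hinj
        rw [map_zero]
        exact Ideal.Quotient.eq_zero_iff_mem.mpr h
      exact IsLocalization.map_units O (⟨algebraMap S0 S (i x), h1⟩ : 𝔔.primeCompl)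
    let τ : F →+* O ⧸ M ^ 2 := IsLocalization.lift (M := nonZeroDivisors Λ) (g := t)
      (fun y => ht y (nonZeroDivisors.ne_zero y.2))
    have hτ : ∀ x : Λ, τ (algebraMap Λ F x) = t x := fun x => IsLocalization.lift_eq _ x
    let _ : Algebra F (O ⧸ M ^ 2) := τ.toAlgebra
    let _ : Algebra F (ResidueField O) := ((BD_rho O).comp τ).toAlgebra
    have hchF : CharZero F := charZero_of_injective_algebraMap (IsFractionRing.injective Λ F)
    have hbase : ∀ c : Λ, algebraMap F (ResidueField O) (algebraMap Λ F c) =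
        residue O (algebraMap S O (algebraMap S0 S (i c))) := fun c => by
      show BD_rho O (τ (algebraMap Λ F c)) = _
      rw [hτ]
      exact BD_rho_mk O _
    have hAlg : Algebra.IsAlgebraic F (ResidueField O) :=
      GC1_isAlgebraic 𝔔 _ halg F (fun c => by
        rw [IsScalarTower.algebraMap_apply S (Localization.AtPrime 𝔔) 𝔔.ResidueField]
        exact hbase c)
    have hSep : Algebra.IsSeparable F (ResidueField O) := inferInstance
    have hEt : Algebra.FormallyEtale F (ResidueField O) :=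
      Algebra.FormallyEtale.of_isSeparable F _
    let gA : (O ⧸ M ^ 2) →ₐ[F] ResidueField O := { BD_rho O with commutes' := fun _ => rfl }
    have hgsurj : Function.Surjective gA := BD_rho_surjective O
    have hnil : IsNilpotent (RingHom.ker (gA : O ⧸ M ^ 2 →+* ResidueField O)) := by
      refine ⟨2, ?_⟩
      rw [Ideal.zero_eq_bot, eq_bot_iff, pow_two (RingHom.ker (gA : O ⧸ M ^ 2 →+* ResidueField O)),
        Ideal.mul_le]
      intro a ha b hb
      rw [Ideal.mem_bot]
      exact BD_rho_ker O a b ha hb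
    let σ : ResidueField O →ₐ[F] O ⧸ M ^ 2 :=
      Algebra.FormallySmooth.liftOfSurjective (AlgHom.id F _) gA hgsurj hnil
    have hσ : ∀ x, gA (σ x) = x := fun x =>
      Algebra.FormallySmooth.liftOfSurjective_apply _ _ _ _ x
    refine GC1_assemble (S0 := S0) 𝔔 σ.toRingHom hσ i hfin ?_
    intro c
    rw [← hbase c]
    exact (σ.commutes (algebraMap Λ F c)).trans (hτ c)
  · -- characteristic p
    have hρj : ∀ x : Λ, BD_rho (Localization.AtPrime 𝔔)
        (Ideal.Quotient.mk _ (algebraMap S (Localization.AtPrime 𝔔) (algebraMap S0 S (i x)))) =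
          algebraMap S 𝔔.ResidueField (algebraMap S0 S (i x)) := by
      intro x
      rw [BD_rho_mk, IsScalarTower.algebraMap_apply S (Localization.AtPrime 𝔔) 𝔔.ResidueField]
      rfl
    obtain ⟨F0, hF0, σ, hσ, hσi⟩ := BDP_section p hgood (BD_rho (Localization.AtPrime 𝔔))
      (BD_rho_surjective _) (BD_rho_ker _)
      (((Ideal.Quotient.mk (maximalIdeal (Localization.AtPrime 𝔔) ^ 2)).comp
        (algebraMap S (Localization.AtPrime 𝔔))).comp ((algebraMap S0 S).comp i)) (by
          intro x y hxy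
          have hxy' : algebraMap S 𝔔.ResidueField (algebraMap S0 S (i x)) =
              algebraMap S 𝔔.ResidueField (algebraMap S0 S (i y)) := by
            rw [← hρj, ← hρj]
            exact hxy
          apply hinj
          apply 𝔔.injective_algebraMap_quotient_residueField
          rw [GC1_mk, GC1_mk]
          exact hxy') (by
          obtain ⟨m, t, ht⟩ := GC1_spanning i 𝔔 hinj hfin halg
          refine ⟨m, t, fun w => ?_⟩
          obtain ⟨c, d, hd, h⟩ := ht w
          refine ⟨c, d, hd, ?_⟩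
          simp only [RingHom.comp_apply, hρj]
          exact h)
    have hF0' : F0.subtype.Finite := hF0
    refine GC1_assemble (S0 := S0) 𝔔 σ hσ (i.comp F0.subtype) ?_ ?_
    · rw [← RingHom.comp_assoc]
      exact hfin.comp hF0'
    · intro c
      have h := hσi c c.2
      simp only [RingHom.comp_apply, BD_rho_mk] at h
      exact h

end Pool.Agent.Lib.MP_3029eb_ag.GR
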