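import Mathlib

/-!
Definition shared by the modules G1, G2, BDP of the discrete rank-one local uniformization project.
-/

namespace Pool.Agent.Lib.MP_3029eb_ag

/-- `Λ` (of characteristic `p`) has a directed family of cofinite subrings containing all
`p`-th powers, closed in `Λ`, with intersection the ring of `p`-th powers. -/
def Good (p : ℕ) (Λ : Type) [CommRing Λ] : Prop :=
  ∃ (ι : Type) (F : ι → Subring Λ), Nonempty ι ∧ (∀ i j, ∃ k, F k ≤ F i ∧ F k ≤ F j) ∧
    (∀ i a, a ^ p ∈ F i) ∧ (∀ i, Module.Finite (F i) Λ) ∧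
    (∀ i, ∀ v ∈ F i, ∀ z, v ≠ 0 → v * z ∈ F i → z ∈ F i) ∧
    (∀ a, (∀ i, a ∈ F i) → ∃ b, b ^ p = a)

end Pool.Agent.Lib.MP_3029eb_ag
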