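import Mathlib
import Pool.Agent.Lib.MP_3029eb_ag.GoodDef

/-!
# Module GC2 : good families for polynomial rings
-/

open Polynomial

namespace Pool.Agent.Lib.MP_3029eb_ag.GR
open Pool.Agent.Lib.MP_3029eb_ag

section

variable (p : ℕ) [Fact p.Prime] {A : Type} [CommRing A] [CharP A p]

/-- the coefficients of a `p`-th power -/
theorem GC2_coeff_pow (f : A[X]) (n : ℕ) :
    (f ^ p).coeff n = if p ∣ n then (f.coeff (n / p)) ^ p else 0 := by
  have hp : p.Prime := Fact.out
  rw [← Polynomial.map_frobenius_expand, Polynomial.coeff_map, Polynomial.coeff_expand hp.pos]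
  split_ifs with h
  · rfl
  · exact map_zero _

omit [Fact p.Prime] [CharP A p] in
/-- polynomials in `X ^ p` with coefficients in `F` -/
def GC2_F (F : Subring A) : Subring A[X] where
  carrier := {f | ∀ n, f.coeff n ∈ F ∧ (¬ p ∣ n → f.coeff n = 0)}
  mul_mem' := by
    intro f g hf hg n
    rw [Polynomial.coeff_mul]
    refine ⟨sum_mem fun x _ => mul_mem (hf x.1).1 (hg x.2).1, fun hn => ?_⟩
    refine Finset.sum_eq_zero fun x hx => ?_
    rw [Finset.HasAntidiagonal.mem_antidiagonal] at hx
    change f.coeff x.1 * g.coeff x.2 = 0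
    by_cases h1 : p ∣ x.1
    · have h2 : ¬ p ∣ x.2 := fun h2 => hn (hx ▸ dvd_add h1 h2)
      rw [(hg x.2).2 h2, mul_zero]
    · rw [(hf x.1).2 h1, zero_mul]
  one_mem' := by
    intro n
    rw [Polynomial.coeff_one]
    refine ⟨?_, fun hn => ?_⟩
    · split_ifs
      · exact one_mem _
      · exact zero_mem _
    · rw [if_neg]
      rintro rfl
      exact hn (dvd_zero p)
  add_mem' := by
    intro f g hf hg n
    rw [Polynomial.coeff_add]
    exact ⟨add_mem (hf n).1 (hg n).1, fun hn => by rw [(hf n).2 hn, (hg n).2 hn, add_zero]⟩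
  zero_mem' := by
    intro n
    rw [Polynomial.coeff_zero]
    exact ⟨zero_mem _, fun _ => rfl⟩
  neg_mem' := by
    intro f hf n
    rw [Polynomial.coeff_neg]
    exact ⟨neg_mem (hf n).1, fun hn => by rw [(hf n).2 hn, neg_zero]⟩

omit [CharP A p] in
theorem GC2_finite (F : Subring A) (hF : Module.Finite F A) :
    Module.Finite (GC2_F p F) A[X] := by
  classical
  have hp : p.Prime := Fact.out
  obtain ⟨s, hs⟩ := hF.fg_top
  refine ⟨⟨(Finset.range p ×ˢ s).image (fun x => C x.2 * X ^ x.1), ?_⟩⟩
  rw [eq_top_iff]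
  intro f _
  induction f using Polynomial.induction_on' with
  | add f g hf hg => exact Submodule.add_mem _ (hf trivial) (hg trivial)
  | monomial n a =>
    have ha : a ∈ Submodule.span F (s : Set A) := by rw [hs]; trivial
    obtain ⟨c, hc⟩ := Submodule.mem_span_finset.1 ha
    have ha' : a = ∑ x ∈ s, (c x : A) * x := hc.2.symm
    have hn : p * (n / p) + n % p = n := Nat.div_add_mod n p
    have key : Polynomial.monomial n a = ∑ x ∈ s, (Polynomial.monomial (p * (n / p)) (c x : A)) *
        (C x * X ^ (n % p)) := by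
      conv_lhs => rw [ha', map_sum]
      refine Finset.sum_congr rfl fun x _ => ?_
      rw [Polynomial.C_mul_X_pow_eq_monomial, Polynomial.monomial_mul_monomial, hn]
    rw [key]
    refine Submodule.sum_mem _ fun x hx => ?_
    have hmem : Polynomial.monomial (p * (n / p)) (c x : A) ∈ GC2_F p F := by
      intro m
      rw [Polynomial.coeff_monomial]
      constructor
      · split_ifs
        · exact (c x).2
        · exact zero_mem _
      · intro hm
        rw [if_neg]
        rintro rfl
        exact hm (dvd_mul_right p _)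
    exact Submodule.smul_mem _ (⟨_, hmem⟩ : GC2_F p F)
      (Submodule.subset_span (by
        rw [Finset.coe_image]
        exact ⟨(n % p, x), Finset.mem_coe.2 (Finset.mem_product.2
          ⟨Finset.mem_range.2 (Nat.mod_lt n hp.pos), hx⟩), rfl⟩))

end

theorem good_polynomial (p : ℕ) [Fact p.Prime] (A : Type) [CommRing A] [IsDomain A] [CharP A p]
    (h : Good p A) : Good p A[X] := by
  classical
  have hp : p.Prime := Fact.out
  obtain ⟨ι, F, ⟨i0⟩, hdir, hpow, hfin, hcl, hint⟩ := h
  refine ⟨ι, fun i => GC2_F p (F i), ⟨i0⟩, ?_, ?_, ?_, ?_, ?_⟩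
  · intro i j
    obtain ⟨k, hki, hkj⟩ := hdir i j
    exact ⟨k, fun f hf n => ⟨hki (hf n).1, (hf n).2⟩, fun f hf n => ⟨hkj (hf n).1, (hf n).2⟩⟩
  · intro i f n
    rw [GC2_coeff_pow]
    refine ⟨?_, fun hn => if_neg hn⟩
    split_ifs
    · exact hpow i _
    · exact zero_mem _
  · intro i
    exact GC2_finite p (F i) (hfin i)
  · intro i v hv z hv0 hvz
    -- the lowest coefficient of `v`
    have hex : ∃ n, v.coeff n ≠ 0 := by
      by_contra hcon
      push Not at hcon
      exact hv0 (by ext n; rw [hcon n, Polynomial.coeff_zero])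
    set m := Nat.find hex with hm
    have hvm : v.coeff m ≠ 0 := Nat.find_spec hex
    have hlt : ∀ j, j < m → v.coeff j = 0 := fun j hj => by
      by_contra hne
      exact Nat.find_min hex hj hne
    have hpm : p ∣ m := by
      by_contra hne
      exact hvm ((hv m).2 hne)
    intro n
    induction n using Nat.strong_induction_on with
    | _ n ih =>
    have hsum : (v * z).coeff (m + n) = v.coeff m * z.coeff n +
        ∑ x ∈ (Finset.HasAntidiagonal.antidiagonal (m + n)).filter (fun x => x.2 < n),
          v.coeff x.1 * z.coeff x.2 := by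
      rw [Polynomial.coeff_mul, ← Finset.sum_filter_add_sum_filter_not
        (Finset.HasAntidiagonal.antidiagonal (m + n)) (fun x => x.2 < n), add_comm]
      congr 1
      rw [Finset.sum_eq_single (m, n)]
      · rintro ⟨x, y⟩ hx hne
        rw [Finset.mem_filter, Finset.HasAntidiagonal.mem_antidiagonal] at hx
        simp only at hx ⊢
        have h1 : x < m := by
          rcases Nat.lt_or_ge x m with h | h
          · exact h
          · exfalso
            apply hne
            have : x = m ∧ y = n := by omega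
            rw [this.1, this.2]
        rw [hlt x h1, zero_mul]
      · intro h
        exfalso
        apply h
        rw [Finset.mem_filter]
        exact ⟨Finset.HasAntidiagonal.mem_antidiagonal.2 rfl, lt_irrefl n⟩
    have hlow : ∀ x ∈ (Finset.HasAntidiagonal.antidiagonal (m + n)).filter (fun x => x.2 < n),
        v.coeff x.1 * z.coeff x.2 ∈ F i ∧ (¬ p ∣ n → v.coeff x.1 * z.coeff x.2 = 0) := by
      intro x hx
      rw [Finset.mem_filter, Finset.HasAntidiagonal.mem_antidiagonal] at hx
      have h1 := ih x.2 hx.2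
      refine ⟨mul_mem (hv x.1).1 h1.1, fun hn => ?_⟩
      by_cases h2 : p ∣ x.2
      · have h3 : ¬ p ∣ x.1 := by
          intro h3
          have h4 : p ∣ m + n := hx.1 ▸ dvd_add h3 h2
          exact hn ((Nat.dvd_add_right hpm).1 h4)
        rw [(hv x.1).2 h3, zero_mul]
      · rw [h1.2 h2, mul_zero]
    have hzn : z.coeff n ∈ F i := by
      refine hcl i (v.coeff m) (hv m).1 (z.coeff n) hvm ?_
      have h1 : v.coeff m * z.coeff n = (v * z).coeff (m + n) -
          ∑ x ∈ (Finset.HasAntidiagonal.antidiagonal (m + n)).filter (fun x => x.2 < n),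
            v.coeff x.1 * z.coeff x.2 := by
        rw [hsum]; ring
      rw [h1]
      exact sub_mem (hvz (m + n)).1 (sum_mem fun x hx => (hlow x hx).1)
    refine ⟨hzn, fun hn => ?_⟩
    have h1 : ¬ p ∣ m + n := fun h => hn ((Nat.dvd_add_right hpm).1 h)
    have h2 : v.coeff m * z.coeff n = 0 := by
      rw [(hvz (m + n)).2 h1, Finset.sum_eq_zero (fun x hx => (hlow x hx).2 hn), add_zero] at hsum
      exact hsum.symm
    exact (mul_eq_zero.1 h2).resolve_left hvm
  · intro f hf
    have h1 : ∀ n, ∃ b, b ^ p = f.coeff (p * n) := fun n => hint _ fun i => (hf i (p * n)).1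
    choose b hb using h1
    refine ⟨∑ n ∈ Finset.range (f.natDegree + 1), Polynomial.monomial n (b n), ?_⟩
    have hbc : ∀ k, (∑ n ∈ Finset.range (f.natDegree + 1), Polynomial.monomial n (b n)).coeff k ^ p =
        f.coeff (p * k) := by
      intro k
      rw [Polynomial.finsetSum_coeff]
      simp only [Polynomial.coeff_monomial]
      rw [Finset.sum_ite_eq' (Finset.range (f.natDegree + 1)) k b]
      split_ifs with hk
      · exact hb k
      · rw [zero_pow hp.ne_zero]
        rw [Finset.mem_range, not_lt] at hk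
        symm
        apply Polynomial.coeff_eq_zero_of_natDegree_lt
        have : k ≤ p * k := Nat.le_mul_of_pos_left k hp.pos
        omega
    ext n
    rw [GC2_coeff_pow]
    split_ifs with hn
    · obtain ⟨m, rfl⟩ := hn
      rw [Nat.mul_div_cancel_left m hp.pos, hbc]
    · exact ((hf i0 n).2 hn).symm

theorem good_of_ringEquiv (p : ℕ) {A B : Type} [CommRing A] [CommRing B] (e : A ≃+* B)
    (h : Good p A) : Good p B := by
  classical
  obtain ⟨ι, F, ⟨i0⟩, hdir, hpow, hfin, hcl, hint⟩ := h
  refine ⟨ι, fun i => (F i).comap (e.symm : B →+* A), ⟨i0⟩, ?_, ?_, ?_, ?_, ?_⟩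
  · intro i j
    obtain ⟨k, hki, hkj⟩ := hdir i j
    exact ⟨k, fun f hf => hki hf, fun f hf => hkj hf⟩
  · intro i a
    change e.symm (a ^ p) ∈ F i
    rw [map_pow]
    exact hpow i _
  · intro i
    obtain ⟨s, hs⟩ := (hfin i).fg_top
    refine ⟨⟨s.image e, ?_⟩⟩
    rw [eq_top_iff]
    intro b _
    have ha : e.symm b ∈ Submodule.span (F i) (s : Set A) := by rw [hs]; trivial
    obtain ⟨c, hc⟩ := Submodule.mem_span_finset.1 ha
    have hb : b = ∑ x ∈ s, e (c x : A) * e x := by
      have h1 : b = e (e.symm b) := (e.apply_symm_apply b).symm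
      rw [h1, ← hc.2, map_sum]
      refine Finset.sum_congr rfl fun x _ => ?_
      exact map_mul e _ _
    rw [hb]
    refine Submodule.sum_mem _ fun x hx => ?_
    have hmem : e (c x : A) ∈ (F i).comap (e.symm : B →+* A) := by
      change e.symm (e (c x : A)) ∈ F i
      rw [e.symm_apply_apply]
      exact (c x).2
    exact Submodule.smul_mem _ (⟨_, hmem⟩ : (F i).comap (e.symm : B →+* A))
      (Submodule.subset_span (by
        rw [Finset.coe_image]
        exact ⟨x, hx, rfl⟩))
  · intro i v hv z hv0 hvz
    change e.symm z ∈ F i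
    refine hcl i (e.symm v) hv (e.symm z) ?_ ?_
    · intro h0
      exact hv0 ((map_eq_zero_iff e.symm e.symm.injective).1 h0)
    · rw [← map_mul]
      exact hvz
  · intro a ha
    obtain ⟨b, hb⟩ := hint (e.symm a) ha
    refine ⟨e b, ?_⟩
    rw [← map_pow, hb, e.apply_symm_apply]

/-- GC2 -/
theorem good_mvPolynomial (p : ℕ) [Fact p.Prime] (Λ : Type) [CommRing Λ] [IsDomain Λ] [CharP Λ p]
    (h : Good p Λ) (n : ℕ) : Good p (MvPolynomial (Fin n) Λ) := by
  induction n with
  | zero => exact good_of_ringEquiv p (MvPolynomial.isEmptyRingEquiv Λ (Fin 0)).symm h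
  | succ n ih =>
    exact good_of_ringEquiv p (MvPolynomial.finSuccEquiv Λ n).symm.toRingEquiv
      (good_polynomial p _ ih)

end Pool.Agent.Lib.MP_3029eb_ag.GR
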