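import Mathlib
import Pool.Agent.Lib.MP_3029eb_ag.BddDef
import Pool.Agent.Lib.MP_3029eb_ag.GoodDef
import Pool.Agent.Lib.MP_3029eb_ag.GRC1
import Pool.Agent.Lib.MP_3029eb_ag.GRC2

/-! GC3: bounded derivations for algebras essentially of finite type (helper35). -/

open IsLocalRing

namespace Pool.Agent.Lib.MP_3029eb_ag.GR
open Pool.Agent.Lib.MP_3029eb_ag

/-- a domain essentially of finite type over an integral domain has a finite transcendence basis -/
theorem GC3_exists_basis (Λ D : Type) [CommRing Λ] [IsDomain Λ] [CommRing D] [IsDomain D]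
    [Algebra Λ D] [Algebra.EssFiniteType Λ D]
    (hinj : Function.Injective (algebraMap Λ D)) :
    ∃ (m : ℕ) (x : Fin m → D), IsTranscendenceBasis Λ x := by
  obtain ⟨σ, hσ⟩ := (Algebra.EssFiniteType.cond (R := Λ) (S := D))
  have hf : FaithfulSMul Λ D := (faithfulSMul_iff_algebraMap_injective Λ D).2 hinj
  have hnt : Nontrivial (Algebra.adjoin Λ (σ : Set D)) := inferInstance
  have halg : Algebra.IsAlgebraic (Algebra.adjoin Λ (σ : Set D)) D :=
    IsLocalization.isAlgebraic D
      ((IsUnit.submonoid D).comap (algebraMap (Algebra.adjoin Λ (σ : Set D)) D))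
  obtain ⟨t, ht1, ht2⟩ := exists_isTranscendenceBasis_subset (R := Λ) (A := D) (σ : Set D)
  have hfin : Finite t := (σ.finite_toSet.subset ht1)
  obtain ⟨m, ⟨e⟩⟩ := Finite.exists_equiv_fin t
  exact ⟨m, (fun j => ((e.symm j : t) : D)), (isTranscendenceBasis_equiv e.symm).2 ht2⟩

/-- the quotient of `S` by `𝔔` is essentially of finite type over `Λ` -/
theorem GC3_essFinite (S0 S : Type) [CommRing S0] [CommRing S]
    [Algebra S0 S] [Algebra.EssFiniteType S0 S] (Λ : Type) [CommRing Λ]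
    (i : Λ →+* S0) (𝔔 : Ideal S)
    (hfin : ((Ideal.Quotient.mk (𝔔.comap (algebraMap S0 S))).comp i).Finite)
    [Algebra Λ (S ⧸ 𝔔)]
    (hal : algebraMap Λ (S ⧸ 𝔔) = (Ideal.Quotient.mk 𝔔).comp ((algebraMap S0 S).comp i)) :
    Algebra.EssFiniteType Λ (S ⧸ 𝔔) := by
  let q := 𝔔.comap (algebraMap S0 S)
  let _ : Algebra Λ (S0 ⧸ q) := ((Ideal.Quotient.mk q).comp i).toAlgebra
  let _ : Algebra (S0 ⧸ q) (S ⧸ 𝔔) := (Ideal.quotientMap 𝔔 (algebraMap S0 S) le_rfl).toAlgebra
  have h1 : Module.Finite Λ (S0 ⧸ q) := hfin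
  have h2 : Algebra.EssFiniteType S (S ⧸ 𝔔) := inferInstance
  have h3 : Algebra.EssFiniteType S0 (S ⧸ 𝔔) := Algebra.EssFiniteType.comp S0 S (S ⧸ 𝔔)
  have t1 : IsScalarTower S0 (S0 ⧸ q) (S ⧸ 𝔔) := by
    refine IsScalarTower.of_algebraMap_eq (fun s => ?_)
    rfl
  have h4 : Algebra.EssFiniteType (S0 ⧸ q) (S ⧸ 𝔔) := Algebra.EssFiniteType.of_comp S0 _ _
  have t2 : IsScalarTower Λ (S0 ⧸ q) (S ⧸ 𝔔) := by
    refine IsScalarTower.of_algebraMap_eq (fun s => ?_)
    rw [hal]
    rfl
  have h5 : Algebra.FiniteType Λ (S0 ⧸ q) := inferInstance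
  exact Algebra.EssFiniteType.comp Λ (S0 ⧸ q) (S ⧸ 𝔔)

/-- finiteness after adjoining variables -/
theorem GC3_finite (S0 S : Type) [CommRing S0] [CommRing S]
    [Algebra S0 S] (Λ : Type) [CommRing Λ]
    (i : Λ →+* S0) (𝔔 : Ideal S) (m : ℕ) (g : MvPolynomial (Fin m) S0 →+* S)
    (hg : g.comp MvPolynomial.C = algebraMap S0 S)
    (hfin : ((Ideal.Quotient.mk (𝔔.comap (algebraMap S0 S))).comp i).Finite) :
    ((Ideal.Quotient.mk (𝔔.comap g)).comp (MvPolynomial.map i : MvPolynomial (Fin m) Λ →+*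
      MvPolynomial (Fin m) S0)).Finite := by
  let q := 𝔔.comap (algebraMap S0 S)
  let q' := 𝔔.comap g
  let f' := (Ideal.Quotient.mk q').comp (MvPolynomial.map i : MvPolynomial (Fin m) Λ →+*
      MvPolynomial (Fin m) S0)
  have hle : q ≤ q'.comap (MvPolynomial.C : S0 →+* MvPolynomial (Fin m) S0) := by
    intro s hs
    have h1 : algebraMap S0 S s ∈ 𝔔 := hs
    rw [← hg] at h1
    exact h1
  let c : S0 ⧸ q →+* MvPolynomial (Fin m) S0 ⧸ q' := Ideal.quotientMap q' MvPolynomial.C hle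
  have hc : f'.comp MvPolynomial.C = c.comp ((Ideal.Quotient.mk q).comp i) := by
    ext s
    simp only [f', c, RingHom.comp_apply, MvPolynomial.map_C, Ideal.quotientMap_mk]
  have hint0 : ∀ s : S0, f'.IsIntegralElem (Ideal.Quotient.mk q' (MvPolynomial.C s)) := by
    intro s
    have h1 : ((Ideal.Quotient.mk q).comp i).IsIntegralElem (Ideal.Quotient.mk q s) :=
      hfin.to_isIntegral _
    have h2 := h1.map c
    rw [← hc] at h2
    have h3 := h2.of_comp
    simpa [c] using h3
  rw [RingHom.finite_iff_isIntegral_and_finiteType]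
  refine ⟨?_, ?_⟩
  · intro y
    obtain ⟨p, rfl⟩ := Ideal.Quotient.mk_surjective y
    induction p using MvPolynomial.induction_on with
    | C s => exact hint0 s
    | add p1 p2 h1 h2 => rw [map_add]; exact RingHom.IsIntegralElem.add _ h1 h2
    | mul_X p1 j h1 =>
      rw [map_mul]
      refine RingHom.IsIntegralElem.mul _ h1 ?_
      have : Ideal.Quotient.mk q' (MvPolynomial.X j) = f' (MvPolynomial.X j) := by
        simp [f']
      rw [this]
      exact RingHom.isIntegralElem_map _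
  · have hX : Function.Surjective (MvPolynomial.eval₂Hom c
        (fun j : Fin m => Ideal.Quotient.mk q' (MvPolynomial.X j))) := by
      intro y
      obtain ⟨p, rfl⟩ := Ideal.Quotient.mk_surjective y
      refine ⟨MvPolynomial.map (Ideal.Quotient.mk q) p, ?_⟩
      have : (MvPolynomial.eval₂Hom c
        (fun j : Fin m => Ideal.Quotient.mk q' (MvPolynomial.X j))).comp
          (MvPolynomial.map (Ideal.Quotient.mk q)) = Ideal.Quotient.mk q' := by
        ext s
        · simp [c]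
        · simp
      rw [← RingHom.comp_apply, this]
    have h5 : (MvPolynomial.C : S0 ⧸ q →+* MvPolynomial (Fin m) (S0 ⧸ q)).FiniteType := by
      have h0 : Algebra.FiniteType (S0 ⧸ q) (MvPolynomial (Fin m) (S0 ⧸ q)) := inferInstance
      exact (RingHom.finiteType_algebraMap (A := S0 ⧸ q)
        (B := MvPolynomial (Fin m) (S0 ⧸ q))).2 h0
    have h6 : c.FiniteType := by
      have h7 := (RingHom.FiniteType.of_surjective _ hX).comp h5
      have h8 : (MvPolynomial.eval₂Hom c
        (fun j : Fin m => Ideal.Quotient.mk q' (MvPolynomial.X j))).comp MvPolynomial.C = c := by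
        ext s; simp
      rwa [h8] at h7
    have h9 : (f'.comp MvPolynomial.C).FiniteType := by
      rw [hc]
      exact h6.comp hfin.to_finiteType
    exact h9.of_comp_finiteType

theorem bddDer_essFinite (S0 S : Type) [CommRing S0] [IsNoetherianRing S0] [CommRing S]
    [Algebra S0 S] [Algebra.EssFiniteType S0 S] (Λ : Type) [CommRing Λ] [IsDomain Λ]
    (i : Λ →+* S0) (𝔔 : Ideal S) [𝔔.IsPrime]
    (hinj : Function.Injective ((Ideal.Quotient.mk 𝔔).comp ((algebraMap S0 S).comp i)))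
    (hfin : ((Ideal.Quotient.mk (𝔔.comap (algebraMap S0 S))).comp i).Finite)
    (hchar : CharZero Λ ∨ ∃ p : ℕ, Fact p.Prime ∧ CharP Λ p ∧ Good p Λ) : BddDer S 𝔔 := by
  let _ : Algebra Λ (S ⧸ 𝔔) := ((Ideal.Quotient.mk 𝔔).comp ((algebraMap S0 S).comp i)).toAlgebra
  have hess : Algebra.EssFiniteType Λ (S ⧸ 𝔔) := GC3_essFinite S0 S Λ i 𝔔 hfin rfl
  obtain ⟨m, x, hx⟩ := GC3_exists_basis Λ (S ⧸ 𝔔) hinj
  choose Y hY using fun j => Ideal.Quotient.mk_surjective (I := 𝔔) (x j)
  let g : MvPolynomial (Fin m) S0 →+* S := MvPolynomial.eval₂Hom (algebraMap S0 S) Y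
  have hg : g.comp MvPolynomial.C = algebraMap S0 S := by
    ext s; simp [g]
  let _ : Algebra (MvPolynomial (Fin m) S0) S := g.toAlgebra
  have htow : IsScalarTower S0 (MvPolynomial (Fin m) S0) S := by
    refine IsScalarTower.of_algebraMap_eq (fun s => ?_)
    exact (RingHom.congr_fun hg s).symm
  have hess' : Algebra.EssFiniteType (MvPolynomial (Fin m) S0) S :=
    Algebra.EssFiniteType.of_comp S0 _ _
  let i' : MvPolynomial (Fin m) Λ →+* MvPolynomial (Fin m) S0 := MvPolynomial.map i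
  have hcomp : (Ideal.Quotient.mk 𝔔).comp (g.comp i') =
      (MvPolynomial.aeval x : MvPolynomial (Fin m) Λ →ₐ[Λ] (S ⧸ 𝔔)).toRingHom := by
    refine MvPolynomial.ringHom_ext (fun r => ?_) (fun j => ?_)
    · simp only [i', g, RingHom.comp_apply, MvPolynomial.map_C, MvPolynomial.coe_eval₂Hom,
        MvPolynomial.eval₂_C, AlgHom.toRingHom_eq_coe, RingHom.coe_coe, MvPolynomial.aeval_C]
      rfl
    · simp only [i', g, RingHom.comp_apply, MvPolynomial.map_X, MvPolynomial.coe_eval₂Hom,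
        MvPolynomial.eval₂_X, AlgHom.toRingHom_eq_coe, RingHom.coe_coe, MvPolynomial.aeval_X]
      exact hY j
  refine bddDer_of_algebraic (MvPolynomial (Fin m) S0) S (MvPolynomial (Fin m) Λ) i' 𝔔 ?_ ?_ ?_ ?_
  · have h1 : Function.Injective ((Ideal.Quotient.mk 𝔔).comp (g.comp i')) := by
      rw [hcomp]
      exact hx.1
    exact h1
  · exact GC3_finite S0 S Λ i 𝔔 m g hg hfin
  · intro s
    have halg := hx.isAlgebraic
    obtain ⟨f, hf0, hf⟩ := halg.isAlgebraic (Ideal.Quotient.mk 𝔔 s)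
    let e := hx.1.aevalEquiv
    refine ⟨f.map (e.symm : Algebra.adjoin Λ (Set.range x) →+* MvPolynomial (Fin m) Λ), ?_, ?_⟩
    · rw [Ne, Polynomial.map_eq_zero_iff e.symm.injective]
      exact hf0
    · rw [← Ideal.Quotient.eq_zero_iff_mem, Polynomial.hom_eval₂, Polynomial.eval₂_map]
      rw [Polynomial.aeval_def] at hf
      have h2 : ((Ideal.Quotient.mk 𝔔).comp ((algebraMap (MvPolynomial (Fin m) S0) S).comp i')).comp
          (e.symm : Algebra.adjoin Λ (Set.range x) →+* MvPolynomial (Fin m) Λ) =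
          algebraMap (Algebra.adjoin Λ (Set.range x)) (S ⧸ 𝔔) := by
        have h3 : (Ideal.Quotient.mk 𝔔).comp ((algebraMap (MvPolynomial (Fin m) S0) S).comp i') =
          (MvPolynomial.aeval x : MvPolynomial (Fin m) Λ →ₐ[Λ] (S ⧸ 𝔔)).toRingHom := hcomp
        rw [h3]
        ext y
        obtain ⟨z, rfl⟩ := e.surjective y
        simp only [RingHom.comp_apply, RingHom.coe_coe, AlgEquiv.symm_apply_apply,
          AlgHom.toRingHom_eq_coe]
        exact (hx.1.algebraMap_aevalEquiv z).symm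
      rw [h2]
      exact hf
  · rcases hchar with h | ⟨p, hp, hcp, hgood⟩
    · exact Or.inl inferInstance
    · exact Or.inr ⟨p, hp, inferInstance, good_mvPolynomial p Λ hgood m⟩

end Pool.Agent.Lib.MP_3029eb_ag.GR
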