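import Pool.Agent.Lib.MP_3029eb_ag.H44Defs
import Pool.Agent.Lib.MP_3029eb_ag.HB

/-!
Module GD0: uniqueness of continuous extensions to the completion, completeness of quotients, and
the completion of a regular local ring is regular.
-/

open IsLocalRing

namespace Pool.Agent.Lib.MP_3029eb_ag.GR
open Pool.Agent.Lib.MP_3029eb_ag

theorem GRD0_approx (R : Type) [CommRing R] [IsLocalRing R] [IsNoetherianRing R] (k : ℕ)
    (t : AdicCompletion (maximalIdeal R) R) :
    ∃ r : R, t - algebraMap R (AdicCompletion (maximalIdeal R) R) r ∈
      maximalIdeal (AdicCompletion (maximalIdeal R) R) ^ k := by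
  induction k with
  | zero => exact ⟨0, by simp⟩
  | succ k ih =>
    obtain ⟨r, hr⟩ := ih
    obtain ⟨r', -, hr'⟩ := (sameCompletion_adicCompletion R).approx k _ hr
    refine ⟨r + r', ?_⟩
    rw [map_add, ← sub_sub]
    exact hr'

theorem GRD0_map_pow {A B : Type} [CommRing A] [CommRing B] [IsLocalRing A] [IsLocalRing B]
    (f : A →+* B) (hf : IsLocalHom f) (k : ℕ) {x : A} (hx : x ∈ maximalIdeal A ^ k) :
    f x ∈ maximalIdeal B ^ k := by
  have hle : maximalIdeal A ≤ (maximalIdeal B).comap f := by
    intro r hr
    exact (mem_maximalIdeal _).2 (map_nonunit f r hr)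
  exact ((Ideal.pow_right_mono hle k).trans (Ideal.le_comap_pow _ k)) hx

/-- GD0a: uniqueness of continuous extensions to the completion -/
theorem completion_hom_ext (R : Type) [CommRing R] [IsLocalRing R] [IsNoetherianRing R]
    (W : Type) [CommRing W] [IsLocalRing W] [IsHausdorff (maximalIdeal W) W]
    (f g : AdicCompletion (maximalIdeal R) R →+* W) (hf : IsLocalHom f) (hg : IsLocalHom g)
    (h : f.comp (algebraMap R (AdicCompletion (maximalIdeal R) R)) =
      g.comp (algebraMap R (AdicCompletion (maximalIdeal R) R))) : f = g := by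
  refine RingHom.ext fun t => ?_
  refine IsHausdorff.eq_iff_smodEq (I := maximalIdeal W) |>.2 fun k => ?_
  rw [SModEq.sub_mem]
  obtain ⟨r, hr⟩ := GRD0_approx R k t
  have h1 := GRD0_map_pow f hf k hr
  have h2 := GRD0_map_pow g hg k hr
  rw [map_sub] at h1 h2
  have h3 : f (algebraMap R (AdicCompletion (maximalIdeal R) R) r) =
      g (algebraMap R (AdicCompletion (maximalIdeal R) R) r) := RingHom.congr_fun h r
  rw [h3] at h1
  have h4 := sub_mem h1 h2
  rw [sub_sub_sub_cancel_right] at h4
  simpa using h4

/-- GD0b: quotients of complete noetherian local rings are complete -/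
theorem isAdicComplete_quotient (T : Type) [CommRing T] [IsLocalRing T] [IsNoetherianRing T]
    [IsAdicComplete (maximalIdeal T) T] (T' : Type) [CommRing T'] [IsLocalRing T']
    (π : T →+* T') (hπ : Function.Surjective π) :
    IsNoetherianRing T' ∧ IsAdicComplete (maximalIdeal T') T' := by
  have hN : IsNoetherianRing T' := isNoetherianRing_of_surjective T T' π hπ
  refine ⟨hN, ?_⟩
  have hloc : IsLocalHom π := IsLocalHom.of_surjective π hπ
  have hmax : maximalIdeal T' = (maximalIdeal T).map π := by
    refine le_antisymm ?_ ?_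
    · intro y hy
      obtain ⟨x, rfl⟩ := hπ y
      refine Ideal.mem_map_of_mem π ?_
      rw [mem_maximalIdeal] at hy ⊢
      exact fun hx => hy (hx.map π)
    · rw [Ideal.map_le_iff_le_comap]
      intro r hr
      exact (mem_maximalIdeal _).2 (map_nonunit π r hr)
  have hmap : ∀ k, ∀ y ∈ maximalIdeal T' ^ k, ∃ x ∈ maximalIdeal T ^ k, π x = y := by
    intro k y hy
    rw [hmax, ← Ideal.map_pow] at hy
    exact (Ideal.mem_map_iff_of_surjective π hπ).1 hy
  have hH : IsHausdorff (maximalIdeal T') T' := inferInstance
  have hP : IsPrecomplete (maximalIdeal T') T' := by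
    refine ⟨fun f hf => ?_⟩
    have hf' : ∀ n, f (n + 1) - f n ∈ maximalIdeal T' ^ n := by
      intro n
      have h1 := (hf (Nat.le_succ n)).symm
      rw [SModEq.sub_mem] at h1
      simpa using h1
    choose d hd hd' using fun n => hmap n _ (hf' n)
    obtain ⟨x0, hx0⟩ := hπ (f 0)
    set F : ℕ → T := fun n => x0 + ∑ i ∈ Finset.range n, d i with hF
    have hF1 : ∀ n, π (F n) = f n := by
      intro n
      induction n with
      | zero => simp [hF, hx0]
      | succ n ih =>
        have : F (n + 1) = F n + d n := by
          simp only [hF, Finset.sum_range_succ]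
          ring
        rw [this, map_add, ih, hd']
        ring
    have hF2 : ∀ {m n : ℕ}, m ≤ n → F m ≡ F n [SMOD (maximalIdeal T ^ m • ⊤ : Submodule T T)] := by
      intro m n hmn
      induction n, hmn using Nat.le_induction with
      | base => exact SModEq.rfl
      | succ n hmn ih =>
        refine ih.trans ?_
        refine SModEq.symm ?_
        rw [SModEq.sub_mem]
        have : F (n + 1) - F n = d n := by
          simp only [hF, Finset.sum_range_succ]
          ring
        rw [this]
        have h2 : d n ∈ maximalIdeal T ^ m := Ideal.pow_le_pow_right hmn (hd n)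
        simpa using h2
    obtain ⟨L, hL⟩ := IsPrecomplete.prec' (I := maximalIdeal T) F hF2
    refine ⟨π L, fun n => ?_⟩
    rw [SModEq.sub_mem]
    have h3 := hL n
    rw [SModEq.sub_mem] at h3
    have h4 : F n - L ∈ maximalIdeal T ^ n := by simpa using h3
    have h5 := GRD0_map_pow π hloc n h4
    rw [map_sub, hF1] at h5
    simpa using h5
  exact { haus' := hH.haus', prec' := hP.prec' }

/-- GD0c: the completion of a regular local ring is regular -/
theorem isRegularLocalRing_completion (S : Type) [CommRing S] [IsRegularLocalRing S] :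
    IsRegularLocalRing (AdicCompletion (maximalIdeal S) S) := by
  have hN : IsNoetherianRing (AdicCompletion (maximalIdeal S) S) := noetherian_adicCompletion S
  refine IsRegularLocalRing.of_spanFinrank_maximalIdeal_le _ ?_
  rw [AdicCompletion.spanFinrank_maximalIdeal_eq]
  rw [IsRegularLocalRing.spanFinrank_maximalIdeal (R := S)]
  have hflat : Module.Flat S (AdicCompletion (maximalIdeal S) S) :=
    AdicCompletion.flat_of_isNoetherian _
  have hgd : Algebra.HasGoingDown S (AdicCompletion (maximalIdeal S) S) :=
    Algebra.HasGoingDown.of_flat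
  have hlo : (maximalIdeal (AdicCompletion (maximalIdeal S) S)).LiesOver (maximalIdeal S) := by
    refine ⟨?_⟩
    refine (maximalIdeal.isMaximal S).eq_of_le ?_ ?_
    · exact (Ideal.IsPrime.under S (maximalIdeal (AdicCompletion (maximalIdeal S) S))).ne_top
    · intro r hr
      exact (sameCompletion_adicCompletion S).map_mem r hr
  have h1 := Ideal.height_eq_height_add_of_liesOver_of_hasGoingDown (maximalIdeal S)
    (maximalIdeal (AdicCompletion (maximalIdeal S) S))
  rw [← maximalIdeal_height_eq_ringKrullDim, ← maximalIdeal_height_eq_ringKrullDim, h1]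
  exact_mod_cast le_self_add

end Pool.Agent.Lib.MP_3029eb_ag.GR
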