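import Mathlib
import Pool.Agent.Lib.MP_3029eb_ag.HB

/-! GD1: derivations into complete rings extend to the completion. -/

open IsLocalRing
open scoped TensorProduct

namespace Pool.Agent.Lib.MP_3029eb_ag.GR
open Pool.Agent.Lib.MP_3029eb_ag

section GD1aux

variable {S : Type} [CommRing S] [IsLocalRing S] [IsNoetherianRing S]
  {C : Type} [CommRing C] [IsLocalRing C]
  (θ : AdicCompletion (maximalIdeal S) S →+* C) (D : S → C)

omit [IsLocalRing S] [IsNoetherianRing S] [IsLocalRing C] in
private theorem GD1_zero (hadd : ∀ a b, D (a + b) = D a + D b) : D 0 = 0 := by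
  have h := hadd 0 0
  rw [add_zero] at h
  exact left_eq_add.mp h

omit [IsLocalRing S] [IsNoetherianRing S] [IsLocalRing C] in
private theorem GD1_sub (hadd : ∀ a b, D (a + b) = D a + D b) (a b : S) :
    D (a - b) = D a - D b := by
  have h := hadd (a - b) b
  rw [sub_add_cancel] at h
  rw [h]; ring

private theorem GD1_θ_pow (hθ : IsLocalHom θ) (k : ℕ)
    (x : AdicCompletion (maximalIdeal S) S)
    (hx : x ∈ maximalIdeal (AdicCompletion (maximalIdeal S) S) ^ k) :
    θ x ∈ maximalIdeal C ^ k := by
  have h1 : maximalIdeal (AdicCompletion (maximalIdeal S) S) ≤ (maximalIdeal C).comap θ := by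
    intro y hy
    rw [Ideal.mem_comap, mem_maximalIdeal, mem_nonunits_iff]
    intro hu
    exact (mem_nonunits_iff.mp ((mem_maximalIdeal y).mp hy)) (hθ.map_nonunit y hu)
  have h2 : maximalIdeal (AdicCompletion (maximalIdeal S) S) ^ k ≤
      ((maximalIdeal C) ^ k).comap θ :=
    (Ideal.pow_right_mono h1 k).trans (Ideal.le_comap_pow _ k)
  exact h2 hx

private theorem GD1_ι_pow (k : ℕ) (s : S) (hs : s ∈ maximalIdeal S ^ k) :
    algebraMap S (AdicCompletion (maximalIdeal S) S) s ∈
      maximalIdeal (AdicCompletion (maximalIdeal S) S) ^ k := by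
  rw [HB_mem_pow_iff, HB_algebraMap_val]
  exact hs

private theorem GD1_D_pow (hθ : IsLocalHom θ)
    (hadd : ∀ a b, D (a + b) = D a + D b)
    (hmul : ∀ a b, D (a * b) = θ (algebraMap S _ a) * D b + θ (algebraMap S _ b) * D a)
    (k : ℕ) : ∀ s ∈ maximalIdeal S ^ (k + 1), D s ∈ maximalIdeal C ^ k := by
  induction k with
  | zero => intro s _; simp
  | succ k ih =>
    intro s hs
    rw [pow_succ'] at hs
    refine Submodule.mul_induction_on hs ?_ ?_
    · intro a ha b hb
      rw [hmul]
      refine add_mem ?_ ?_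
      · rw [pow_succ']
        refine Ideal.mul_mem_mul ?_ (ih b hb)
        have h1 := GD1_θ_pow θ hθ 1 _ (GD1_ι_pow 1 a (by simpa using ha))
        simpa using h1
      · have h1 := GD1_θ_pow θ hθ (k + 1) _ (GD1_ι_pow (k + 1) b hb)
        exact Ideal.mul_mem_right _ _ h1
    · intro a b ha hb
      rw [hadd]
      exact add_mem ha hb

private theorem GD1_approx (x : AdicCompletion (maximalIdeal S) S) (n : ℕ) :
    ∃ s : S, x - algebraMap S (AdicCompletion (maximalIdeal S) S) s ∈
      maximalIdeal (AdicCompletion (maximalIdeal S) S) ^ (n + 1) := by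
  have hsc := sameCompletion_adicCompletion S
  induction n with
  | zero =>
    obtain ⟨r, -, hr⟩ := hsc.approx 0 x (by simp)
    exact ⟨r, hr⟩
  | succ n ih =>
    obtain ⟨s, hs⟩ := ih
    obtain ⟨r, -, hr⟩ := hsc.approx (n + 1) _ hs
    refine ⟨s + r, ?_⟩
    rw [map_add, ← sub_sub]
    exact hr

end GD1aux

/-- GD1: derivations into complete rings extend to the completion -/
theorem exists_der_ext (S : Type) [CommRing S] [IsLocalRing S] [IsNoetherianRing S]
    (C : Type) [CommRing C] [IsLocalRing C] [IsAdicComplete (maximalIdeal C) C]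
    (θ : AdicCompletion (maximalIdeal S) S →+* C) (hθ : IsLocalHom θ) (D : S → C)
    (hadd : ∀ a b, D (a + b) = D a + D b)
    (hmul : ∀ a b, D (a * b) = θ (algebraMap S _ a) * D b + θ (algebraMap S _ b) * D a) :
    ∃ D' : AdicCompletion (maximalIdeal S) S → C, (∀ s : S, D' (algebraMap S _ s) = D s) ∧
      (∀ a b, D' (a + b) = D' a + D' b) ∧
      (∀ a b, D' (a * b) = θ a * D' b + θ b * D' a) := by
  have hD0 := GD1_zero D hadd
  have hDsub := GD1_sub D hadd
  -- membership transfer
  have hclose : ∀ (x : AdicCompletion (maximalIdeal S) S) (n : ℕ) (s t : S),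
      x - algebraMap S _ s ∈ maximalIdeal (AdicCompletion (maximalIdeal S) S) ^ (n + 1) →
      x - algebraMap S _ t ∈ maximalIdeal (AdicCompletion (maximalIdeal S) S) ^ (n + 1) →
      D s - D t ∈ maximalIdeal C ^ n := by
    intro x n s t hs ht
    rw [← hDsub]
    apply GD1_D_pow θ D hθ hadd hmul n
    have h1 : algebraMap S (AdicCompletion (maximalIdeal S) S) (s - t) ∈
        maximalIdeal (AdicCompletion (maximalIdeal S) S) ^ (n + 1) := by
      have h2 := sub_mem ht hs
      rw [map_sub]
      have h3 : (x - algebraMap S (AdicCompletion (maximalIdeal S) S) t) -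
          (x - algebraMap S (AdicCompletion (maximalIdeal S) S) s) =
          algebraMap S (AdicCompletion (maximalIdeal S) S) s -
          algebraMap S (AdicCompletion (maximalIdeal S) S) t := by ring
      rwa [h3] at h2
    rw [HB_mem_pow_iff, HB_algebraMap_val] at h1
    exact h1
  -- existence of limits
  have hex : ∀ x : AdicCompletion (maximalIdeal S) S, ∃ y : C, ∀ (n : ℕ) (s : S),
      x - algebraMap S _ s ∈ maximalIdeal (AdicCompletion (maximalIdeal S) S) ^ (n + 1) →
      y - D s ∈ maximalIdeal C ^ n := by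
    intro x
    choose sn hsn using GD1_approx x
    have hcauchy : ∀ {m n : ℕ}, m ≤ n → D (sn m) ≡ D (sn n) [SMOD (maximalIdeal C ^ m • ⊤ :
        Submodule C C)] := by
      intro m n hmn
      rw [SModEq.sub_mem, smul_eq_mul, Ideal.mul_top]
      exact hclose x m _ _ (hsn m) (Ideal.pow_le_pow_right (by omega) (hsn n))
    obtain ⟨y, hy⟩ := IsPrecomplete.prec' (I := maximalIdeal C) (M := C) (fun n => D (sn n))
      hcauchy
    refine ⟨y, fun n s hs => ?_⟩
    have h1 := hy n
    rw [SModEq.sub_mem, smul_eq_mul, Ideal.mul_top] at h1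
    have h2 := hclose x n s (sn n) hs (hsn n)
    have h3 : y - D s = -((D (sn n)) - y) - (D s - D (sn n)) := by ring
    rw [h3]
    exact sub_mem (neg_mem h1) h2
  choose D' hD' using hex
  -- uniqueness
  have huniq : ∀ y z : C, (∀ n, y - z ∈ maximalIdeal C ^ n) → y = z := by
    intro y z h
    refine IsHausdorff.eq_iff_smodEq (I := maximalIdeal C) |>.2 fun n => ?_
    rw [SModEq.sub_mem, smul_eq_mul, Ideal.mul_top]
    exact h n
  refine ⟨D', ?_, ?_, ?_⟩
  · intro s
    apply huniq
    intro n
    apply hD'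
    rw [sub_self]
    exact zero_mem _
  · intro a b
    apply huniq
    intro n
    obtain ⟨s, hs⟩ := GD1_approx a n
    obtain ⟨t, ht⟩ := GD1_approx b n
    have h1 := hD' a n s hs
    have h2 := hD' b n t ht
    have h3 := hD' (a + b) n (s + t) (by
      rw [map_add]
      have : a + b - (algebraMap S (AdicCompletion (maximalIdeal S) S) s +
          algebraMap S (AdicCompletion (maximalIdeal S) S) t) =
          (a - algebraMap S (AdicCompletion (maximalIdeal S) S) s) +
          (b - algebraMap S (AdicCompletion (maximalIdeal S) S) t) := by ring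
      rw [this]
      exact add_mem hs ht)
    rw [hadd] at h3
    have h4 : D' (a + b) - (D' a + D' b) =
        (D' (a + b) - (D s + D t)) - (D' a - D s) - (D' b - D t) := by ring
    rw [h4]
    exact sub_mem (sub_mem h3 h1) h2
  · intro a b
    apply huniq
    intro n
    obtain ⟨s, hs⟩ := GD1_approx a n
    obtain ⟨t, ht⟩ := GD1_approx b n
    have h1 := hD' a n s hs
    have h2 := hD' b n t ht
    have h3 := hD' (a * b) n (s * t) (by
      rw [map_mul]
      have : a * b - algebraMap S (AdicCompletion (maximalIdeal S) S) s *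
          algebraMap S (AdicCompletion (maximalIdeal S) S) t =
          a * (b - algebraMap S (AdicCompletion (maximalIdeal S) S) t) +
          algebraMap S (AdicCompletion (maximalIdeal S) S) t *
          (a - algebraMap S (AdicCompletion (maximalIdeal S) S) s) := by ring
      rw [this]
      exact add_mem (Ideal.mul_mem_left _ _ ht) (Ideal.mul_mem_left _ _ hs))
    rw [hmul] at h3
    have hs' := Ideal.pow_le_pow_right (Nat.le_succ n) (GD1_θ_pow θ hθ (n + 1) _ hs)
    have ht' := Ideal.pow_le_pow_right (Nat.le_succ n) (GD1_θ_pow θ hθ (n + 1) _ ht)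
    rw [map_sub] at hs' ht'
    set ιs := θ (algebraMap S (AdicCompletion (maximalIdeal S) S) s)
    set ιt := θ (algebraMap S (AdicCompletion (maximalIdeal S) S) t)
    have h4 : D' (a * b) - (θ a * D' b + θ b * D' a) =
        (D' (a * b) - (ιs * D t + ιt * D s)) - (D' b * (θ a - ιs) + ιs * (D' b - D t)) -
          (D' a * (θ b - ιt) + ιt * (D' a - D s)) := by ring
    rw [h4]
    refine sub_mem (sub_mem h3 ?_) ?_
    · exact add_mem (Ideal.mul_mem_left _ _ hs') (Ideal.mul_mem_left _ _ h2)
    · exact add_mem (Ideal.mul_mem_left _ _ ht') (Ideal.mul_mem_left _ _ h1)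

end Pool.Agent.Lib.MP_3029eb_ag.GR
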