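import Pool.Agent.Lib.MP_3029eb_ag.RB

/-!
# Module GD2: generators of an ideal with regular quotient in a regular local ring
-/

set_option autoImplicit false

open IsLocalRing

namespace Pool.Agent.Lib.MP_3029eb_ag.GR
open Pool.Agent.Lib.MP_3029eb_ag

/-- GD2 -/
theorem exists_regular_gens (O : Type) [CommRing O] [IsRegularLocalRing O] (X : Set O)
    (hX : X ⊆ maximalIdeal O) (hreg : IsRegularLocalRing (O ⧸ Ideal.span X)) :
    ∃ (h : ℕ) (g : Fin h → O), (∀ j, g j ∈ X) ∧ Ideal.span (Set.range g) = Ideal.span X ∧
      ∀ a : Fin h → O, (∑ j, a j * g j) ∈ maximalIdeal O ^ 2 → ∀ j, a j ∈ maximalIdeal O := by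
  classical
  let v : X → CotangentSpace O := fun x => (maximalIdeal O).toCotangent ⟨x, hX x.2⟩
  obtain ⟨κ, a0, ha0, hspan0, hli0⟩ := exists_linearIndependent' (ResidueField O) v
  have hfinκ : Finite κ := hli0.finite
  obtain ⟨h, ⟨e⟩⟩ := Finite.exists_equiv_fin κ
  let a1 : Fin h → X := fun i => a0 (e.symm i)
  have hli : LinearIndependent (ResidueField O) (fun i => v (a1 i)) :=
    hli0.comp (fun i => e.symm i) e.symm.injective
  have hspan : Submodule.span (ResidueField O) (Set.range fun i => v (a1 i)) =
      Submodule.span (ResidueField O) (Set.range v) := by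
    rw [← hspan0]
    apply congrArg
    ext z
    constructor
    · rintro ⟨i, rfl⟩
      exact ⟨e.symm i, rfl⟩
    · rintro ⟨k, rfl⟩
      refine ⟨e k, ?_⟩
      show v (a0 (e.symm (e k))) = v (a0 k)
      rw [Equiv.symm_apply_apply]
  let g : Fin h → O := fun i => a1 i
  have hgX : ∀ j, g j ∈ X := fun j => (a1 j).2
  have hgm : ∀ j, g j ∈ maximalIdeal O := fun j => hX (hgX j)
  have hind : ∀ a : Fin h → O, (∑ j, a j * g j) ∈ maximalIdeal O ^ 2 →
      ∀ j, a j ∈ maximalIdeal O := by
    intro a ha j
    have h1 : ∑ j, residue O (a j) • v (a1 j) = 0 := by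
      have h2 : (maximalIdeal O).toCotangent (∑ i, a i • ⟨g i, hgm i⟩) = 0 := by
        rw [Ideal.toCotangent_eq_zero]
        have e : ((∑ i, a i • (⟨g i, hgm i⟩ : maximalIdeal O) : maximalIdeal O) : O)
            = ∑ i, a i * g i := by
          rw [Submodule.coe_sum]
          rfl
        rw [e]
        exact ha
      rw [map_sum] at h2
      refine Eq.trans (Finset.sum_congr rfl fun i _ => ?_) h2
      rw [map_smul]
      rfl
    have h3 := Fintype.linearIndependent_iff.1 hli _ h1 j
    exact (residue_eq_zero_iff _).1 h3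
  refine ⟨h, g, hgX, ?_, hind⟩
  -- the dimension count
  obtain ⟨hregg, hdim⟩ := RB_quot_regular g hgm hind
  have hdom := isDomain_of_isRegularLocalRing (O ⧸ Ideal.span (Set.range g))
  have hle : Ideal.span (Set.range g) ≤ Ideal.span X := by
    apply Ideal.span_mono
    rintro _ ⟨j, rfl⟩
    exact hgX j
  set N := O ⧸ Ideal.span X with hN
  obtain ⟨s, hscard, hsspan⟩ := Submodule.FG.exists_span_finset_card_eq_spanFinrank
    (maximalIdeal N).fg_of_isNoetherianRing
  have hlift : ∀ y : s, ∃ z : maximalIdeal O, Ideal.Quotient.mk (Ideal.span X) (z : O) = (y : N) := by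
    intro y
    obtain ⟨z, hz⟩ := Ideal.Quotient.mk_surjective (y : N)
    refine ⟨⟨z, ?_⟩, hz⟩
    have hy : (y : N) ∈ maximalIdeal N := by
      rw [← hsspan]
      exact Submodule.subset_span y.2
    rw [← hz] at hy
    rw [mem_maximalIdeal, mem_nonunits_iff] at hy ⊢
    intro hu
    exact hy (hu.map _)
  choose z hz using hlift
  let w : s → CotangentSpace O := fun y => (maximalIdeal O).toCotangent (z y)
  have htop : Submodule.span (ResidueField O)
      (Set.range (Sum.elim (fun i => v (a1 i)) w)) = ⊤ := by
    rw [eq_top_iff]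
    intro t _
    obtain ⟨m, rfl⟩ := (maximalIdeal O).toCotangent_surjective t
    rw [Set.Sum.elim_range, Submodule.span_union, hspan]
    have h1 : Ideal.Quotient.mk (Ideal.span X) (m : O) ∈ Submodule.span N (s : Set N) := by
      have h2 : Submodule.span N (s : Set N) = maximalIdeal N := hsspan
      rw [h2, ← IsLocalRing.map_maximalIdeal_of_surjective (Ideal.Quotient.mk (Ideal.span X))
        Ideal.Quotient.mk_surjective]
      exact Ideal.mem_map_of_mem _ m.2
    rw [Submodule.mem_span_finset'] at h1
    obtain ⟨c, hc⟩ := h1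
    choose c' hc' using fun y => Ideal.Quotient.mk_surjective (c y)
    have h2 : (m : O) - ∑ y, c' y * (z y : O) ∈ Ideal.span X := by
      rw [← Ideal.Quotient.eq_zero_iff_mem, map_sub, map_sum, sub_eq_zero, ← hc]
      refine Finset.sum_congr rfl fun y _ => ?_
      rw [map_mul, hc', hz, smul_eq_mul]
    have h3 : ∀ u : maximalIdeal O, (u : O) ∈ Ideal.span X →
        (maximalIdeal O).toCotangent u ∈ Submodule.span (ResidueField O) (Set.range v) := by
      intro u hu
      rw [Ideal.span, Submodule.mem_span_set'] at hu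
      obtain ⟨k, b, x, hbx⟩ := hu
      have h4 : u = ∑ i, b i • (⟨(x i : O), hX (x i).2⟩ : maximalIdeal O) := by
        apply Subtype.ext
        rw [Submodule.coe_sum]
        exact hbx.symm
      rw [h4, map_sum]
      refine Submodule.sum_mem _ fun i _ => ?_
      rw [map_smul]
      have h5 : v (x i) ∈ Submodule.span (ResidueField O) (Set.range v) :=
        Submodule.subset_span (Set.mem_range_self (x i))
      exact Submodule.smul_mem _ (residue O (b i)) h5
    have h5 : m = (m - ∑ y, c' y • z y) + ∑ y, c' y • z y := by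
      rw [sub_add_cancel]
    rw [h5, map_add]
    refine Submodule.add_mem_sup (h3 _ ?_) ?_
    · have e : ((m - ∑ y, c' y • z y : maximalIdeal O) : O) = (m : O) - ∑ y, c' y * (z y : O) := by
        rw [Submodule.coe_sub, Submodule.coe_sum]
        rfl
      rw [e]
      exact h2
    · rw [map_sum]
      refine Submodule.sum_mem _ fun y _ => ?_
      rw [map_smul]
      have h6 : w y ∈ Submodule.span (ResidueField O) (Set.range w) :=
        Submodule.subset_span (Set.mem_range_self y)
      exact Submodule.smul_mem _ (residue O (c' y)) h6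
  have hcard : Module.finrank (ResidueField O) (CotangentSpace O) ≤ h + s.card := by
    have h1 := finrank_range_le_card (R := ResidueField O) (Sum.elim (fun i => v (a1 i)) w)
    rw [Set.finrank, htop, finrank_top] at h1
    refine h1.trans ?_
    rw [Fintype.card_sum, Fintype.card_fin, Fintype.card_coe]
  have hdimN : ringKrullDim N = (s.card : WithBot ℕ∞) := by
    rw [← hreg.spanFinrank_maximalIdeal, hscard]
  have hdimO := RB_spanFinrank_eq (A := O)
  by_contra hne
  obtain ⟨x, hxX, hxg⟩ : ∃ x, x ∈ Ideal.span X ∧ x ∉ Ideal.span (Set.range g) := by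
    by_contra hcon
    push Not at hcon
    exact hne (le_antisymm hle hcon)
  have h6 := ringKrullDim_succ_le_of_surjective (Ideal.Quotient.factor hle)
    (Ideal.Quotient.factor_surjective hle)
    (r := Ideal.Quotient.mk (Ideal.span (Set.range g)) x)
    (mem_nonZeroDivisors_of_ne_zero (fun h0 => hxg (Ideal.Quotient.eq_zero_iff_mem.1 h0)))
    (by
      rw [Ideal.Quotient.factor_mk]
      exact Ideal.Quotient.eq_zero_iff_mem.2 hxX)
  obtain ⟨k, hk⟩ := RB_dim_nat (O ⧸ Ideal.span (Set.range g))
  have h7 : ringKrullDim (O ⧸ Ideal.span X) = (s.card : WithBot ℕ∞) := hdimN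
  rw [h7, hk] at h6
  rw [hdimO, hk] at hdim
  have h8 : s.card + 1 ≤ k := by exact_mod_cast h6
  have h9 : Module.finrank (ResidueField O) (CotangentSpace O) = k + h := by exact_mod_cast hdim
  omega

end Pool.Agent.Lib.MP_3029eb_ag.GR
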