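import Mathlib
import Pool.Agent.Lib.MP_3029eb_ag.BddDef

/-!
# Module GR-GD3: bounded derivations dual to given elements
-/

open IsLocalRing

namespace Pool.Agent.Lib.MP_3029eb_ag.GR
open Pool.Agent.Lib.MP_3029eb_ag

/-- GD3: bounded derivations dual to given elements -/
theorem exists_dual_derivations (S : Type) [CommRing S] [IsNoetherianRing S] (𝔔 : Ideal S)
    [𝔔.IsPrime] (hbdd : BddDer S 𝔔) (h : ℕ) (g : Fin h → S) (hg : ∀ j, g j ∈ 𝔔)
    (hind : ∀ a : Fin h → Localization.AtPrime 𝔔,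
      (∑ j, a j * algebraMap S (Localization.AtPrime 𝔔) (g j)) ∈
        maximalIdeal (Localization.AtPrime 𝔔) ^ 2 →
      ∀ j, a j ∈ maximalIdeal (Localization.AtPrime 𝔔)) :
    ∃ (c : S) (D : Fin h → S → S ⧸ 𝔔), c ∉ 𝔔 ∧ (∀ i a b, D i (a + b) = D i a + D i b) ∧
      (∀ i a b, D i (a * b) = Ideal.Quotient.mk 𝔔 a * D i b + Ideal.Quotient.mk 𝔔 b * D i a) ∧
      ∀ i j, D i (g j) = if i = j then Ideal.Quotient.mk 𝔔 c else 0 := by
  classical
  obtain ⟨δ, hadd, hmul, hcan, G, hGfin, hG⟩ := hbdd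
  set O := Localization.AtPrime 𝔔 with hO
  have hmem : ∀ j, algebraMap S O (g j) ∈ maximalIdeal O := fun j =>
    (IsLocalization.AtPrime.to_map_mem_maximal_iff O 𝔔 (g j)).2 (hg j)
  let v : Fin h → CotangentSpace O := fun j => Ideal.toCotangent _ ⟨_, hmem j⟩
  have hv : ∀ j, δ (g j) = v j := fun j => hcan _ (hg j) (hmem j)
  -- independence
  have hres : ∀ (a : O) (x : CotangentSpace O), (residue O a) • x = a • x := by
    intro a x
    exact algebraMap_smul (ResidueField O) a x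
  have hli : LinearMap.ker (Fintype.linearCombination (ResidueField O) v) = ⊥ := by
    rw [LinearMap.ker_eq_bot']
    intro m hm
    choose a ha using fun j => residue_surjective (m j)
    have h1 : Ideal.toCotangent (maximalIdeal O)
        ⟨∑ j, a j * algebraMap S O (g j), Ideal.sum_mem _ fun j _ =>
          Ideal.mul_mem_left _ _ (hmem j)⟩ = 0 := by
      have h2 : (⟨∑ j, a j * algebraMap S O (g j), Ideal.sum_mem _ fun j _ =>
          Ideal.mul_mem_left _ _ (hmem j)⟩ : maximalIdeal O) =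
            ∑ j, a j • (⟨_, hmem j⟩ : maximalIdeal O) := by
        apply Subtype.ext
        rw [AddSubmonoidClass.coe_finsetSum]
        rfl
      rw [h2, map_sum]
      rw [Fintype.linearCombination_apply] at hm
      rw [← hm]
      refine Finset.sum_congr rfl fun j _ => ?_
      rw [map_smul, ← ha j, hres]
    rw [Ideal.toCotangent_eq_zero] at h1
    funext j
    rw [← ha j, Pi.zero_apply, residue_eq_zero_iff]
    exact hind a h1 j
  obtain ⟨ℓ, hℓ⟩ := LinearMap.exists_leftInverse_of_injective _ hli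
  have hℓv : ∀ i j, ℓ (v j) i = if i = j then 1 else 0 := by
    intro i j
    have h1 := LinearMap.congr_fun hℓ (Pi.single j 1)
    rw [LinearMap.comp_apply, Fintype.linearCombination_apply_single, one_smul] at h1
    rw [h1, LinearMap.id_apply, Pi.single_apply]
  -- the map from `S ⧸ 𝔔` to the residue field
  let ψ : S ⧸ 𝔔 →+* ResidueField O := algebraMap (S ⧸ 𝔔) 𝔔.ResidueField
  have hψ : ∀ s : S, ψ (Ideal.Quotient.mk 𝔔 s) = residue O (algebraMap S O s) := fun s => rfl
  have hψinj : Function.Injective ψ := IsFractionRing.injective (S ⧸ 𝔔) 𝔔.ResidueField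
  -- common denominators
  have hden : ∀ T : Finset (CotangentSpace O), ∃ c : S, c ∉ 𝔔 ∧ ∀ x ∈ T, ∀ i,
      ∃ y, ψ y = ψ (Ideal.Quotient.mk 𝔔 c) * ℓ x i := by
    intro T
    have hone : ∀ z : ResidueField O, ∃ c : S, c ∉ 𝔔 ∧ ∃ y, ψ y = ψ (Ideal.Quotient.mk 𝔔 c) * z := by
      intro z
      obtain ⟨x, y, hy, hxy⟩ := IsFractionRing.div_surjective (A := S ⧸ 𝔔) (K := 𝔔.ResidueField) z
      obtain ⟨c, rfl⟩ := Ideal.Quotient.mk_surjective y
      have hc : c ∉ 𝔔 := by
        intro hc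
        rw [Ideal.Quotient.eq_zero_iff_mem.2 hc] at hy
        exact zero_notMem_nonZeroDivisors hy
      refine ⟨c, hc, x, ?_⟩
      rw [← hxy]
      have h0 : ψ (Ideal.Quotient.mk 𝔔 c) ≠ 0 := by
        intro h0
        rw [← map_zero ψ] at h0
        exact hc (Ideal.Quotient.eq_zero_iff_mem.1 (hψinj h0))
      exact (mul_div_cancel₀ (ψ x) h0).symm
    have hfin : ∀ (x : CotangentSpace O) (I : Finset (Fin h)), ∃ c : S, c ∉ 𝔔 ∧ ∀ i ∈ I,
        ∃ y, ψ y = ψ (Ideal.Quotient.mk 𝔔 c) * ℓ x i := by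
      intro x I
      induction I using Finset.induction_on with
      | empty => exact ⟨1, (Ideal.ne_top_iff_one 𝔔).1 (Ideal.IsPrime.ne_top ‹_›), by simp⟩
      | insert i I _ ih =>
        obtain ⟨c, hc, h1⟩ := ih
        obtain ⟨c', hc', y', h2⟩ := hone (ℓ x i)
        refine ⟨c * c', fun hcc => ((‹𝔔.IsPrime›).mem_or_mem hcc).elim hc hc', ?_⟩
        intro j hj
        rw [map_mul, map_mul]
        rcases Finset.mem_insert.1 hj with rfl | hj
        · exact ⟨Ideal.Quotient.mk 𝔔 c * y', by rw [map_mul, h2, mul_assoc]⟩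
        · obtain ⟨y, hy⟩ := h1 j hj
          exact ⟨Ideal.Quotient.mk 𝔔 c' * y, by rw [map_mul, hy]; ring⟩
    induction T using Finset.induction_on with
    | empty => exact ⟨1, (Ideal.ne_top_iff_one 𝔔).1 (Ideal.IsPrime.ne_top ‹_›), by simp⟩
    | insert x T _ ih =>
      obtain ⟨c, hc, h1⟩ := ih
      obtain ⟨c', hc', h2⟩ := hfin x Finset.univ
      refine ⟨c * c', fun hcc => ((‹𝔔.IsPrime›).mem_or_mem hcc).elim hc hc', ?_⟩
      intro z hz i
      rw [map_mul, map_mul]
      rcases Finset.mem_insert.1 hz with rfl | hz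
      · obtain ⟨y, hy⟩ := h2 i (Finset.mem_univ i)
        exact ⟨Ideal.Quotient.mk 𝔔 c * y, by rw [map_mul, hy]; ring⟩
      · obtain ⟨y, hy⟩ := h1 z hz i
        exact ⟨Ideal.Quotient.mk 𝔔 c' * y, by rw [map_mul, hy]; ring⟩
  obtain ⟨c, hc, hcG⟩ := hden hGfin.toFinset
  have hSsmul : ∀ (s : S) (x : CotangentSpace O), s • x = residue O (algebraMap S O s) • x := by
    intro s x
    rw [hres]
    exact (algebraMap_smul O s x).symm
  have hex : ∀ (i : Fin h) (s : S), ∃ y, ψ y = ψ (Ideal.Quotient.mk 𝔔 c) * ℓ (δ s) i := by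
    intro i s
    have key : ∀ x ∈ Submodule.span S G, ∃ y, ψ y = ψ (Ideal.Quotient.mk 𝔔 c) * ℓ x i := by
      intro x hx
      induction hx using Submodule.span_induction with
      | mem x hx => exact hcG x (hGfin.mem_toFinset.2 hx) i
      | zero => exact ⟨0, by rw [map_zero, map_zero, Pi.zero_apply, mul_zero]⟩
      | add x y _ _ hx hy =>
        obtain ⟨a, ha⟩ := hx
        obtain ⟨b, hb⟩ := hy
        exact ⟨a + b, by rw [map_add, map_add, Pi.add_apply, ha, hb, mul_add]⟩
      | smul a x _ hx =>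
        obtain ⟨b, hb⟩ := hx
        refine ⟨Ideal.Quotient.mk 𝔔 a * b, ?_⟩
        rw [map_mul, hb, hSsmul, map_smul, Pi.smul_apply, smul_eq_mul, hψ a]
        ring
    exact key _ (hG s)
  choose D hD using hex
  refine ⟨c, D, hc, ?_, ?_, ?_⟩
  · intro i a b
    apply hψinj
    rw [map_add, hD, hD, hD, hadd, map_add, Pi.add_apply, mul_add]
  · intro i a b
    apply hψinj
    rw [map_add, map_mul, map_mul, hD, hD, hD, hmul, map_add, Pi.add_apply, hSsmul, hSsmul,
      map_smul, map_smul, Pi.smul_apply, Pi.smul_apply, smul_eq_mul, smul_eq_mul, hψ a, hψ b]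
    ring
  · intro i j
    apply hψinj
    rw [hD, hv, hℓv]
    split_ifs
    · rw [mul_one]
    · rw [mul_zero, map_zero]

end Pool.Agent.Lib.MP_3029eb_ag.GR
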