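import Mathlib
import Pool.Agent.Lib.MP_3029eb_ag.RB

/-!
# Module GR-GD4: Jacobian criterion with dual derivations
-/

set_option autoImplicit false

open IsLocalRing

namespace Pool.Agent.Lib.MP_3029eb_ag.GR
open Pool.Agent.Lib.MP_3029eb_ag

section GD4

variable {S : Type} [CommRing S] {P : Ideal S} (D : S → S ⧸ P)
  (hadd : ∀ a b, D (a + b) = D a + D b)
  (hmul : ∀ a b, D (a * b) = Ideal.Quotient.mk P a * D b + Ideal.Quotient.mk P b * D a)

include hadd in
theorem GD4_zero : D 0 = 0 := by
  have h := hadd 0 0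
  rw [add_zero] at h
  exact (left_eq_add.mp h)

include hadd in
theorem GD4_sum {ι : Type} (u : Finset ι) (x : ι → S) : D (∑ j ∈ u, x j) = ∑ j ∈ u, D (x j) := by
  classical
  induction u using Finset.induction_on with
  | empty => simpa using GD4_zero D hadd
  | insert a s ha ih => rw [Finset.sum_insert ha, Finset.sum_insert ha, hadd, ih]

include hadd hmul in
theorem GD4_sq {x : S} (hx : x ∈ P ^ 2) : D x = 0 := by
  rw [pow_two] at hx
  refine Submodule.mul_induction_on hx ?_ ?_
  · intro a ha b hb
    rw [hmul, Ideal.Quotient.eq_zero_iff_mem.mpr ha, Ideal.Quotient.eq_zero_iff_mem.mpr hb]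
    ring
  · intro a b ha hb
    rw [hadd, ha, hb, add_zero]

end GD4

/-- GD4: Jacobian criterion -/
theorem regular_of_dual_derivations (S : Type) [CommRing S] [IsRegularRing S] (P : Ideal S)
    [P.IsPrime] (h : ℕ) (g : Fin h → S) (hg : ∀ j, g j ∈ P) (c : S) (hc : c ∉ P)
    (D : Fin h → S → S ⧸ P) (hadd : ∀ i a b, D i (a + b) = D i a + D i b)
    (hmul : ∀ i a b, D i (a * b) = Ideal.Quotient.mk P a * D i b + Ideal.Quotient.mk P b * D i a)
    (hD : ∀ i j, D i (g j) = if i = j then Ideal.Quotient.mk P c else 0) (J : Ideal S)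
    (hJP : J ≤ P) (hgJ : ∀ j, g j ∈ J)
    (hJ : ∀ x ∈ J, ∃ s, s ∉ P ∧ s * x ∈ Ideal.span (Set.range g))
    (T : Type) [CommRing T] (π : S →+* T) (hπ : Function.Surjective π) (hker : RingHom.ker π = J)
    (Q : Ideal T) [Q.IsPrime] (hQ : Q.comap π = P) :
    IsRegularLocalRing (Localization.AtPrime Q) := by
  classical
  let A := Localization.AtPrime P
  have hA : IsRegularLocalRing A := inferInstance
  let f : Fin h → A := fun j => algebraMap S A (g j)
  have hf : ∀ j, f j ∈ maximalIdeal A := fun j =>
    (IsLocalization.AtPrime.to_map_mem_maximal_iff A P (g j)).2 (hg j)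
  have hmax : maximalIdeal A = P.map (algebraMap S A) :=
    (IsLocalization.AtPrime.map_eq_maximalIdeal P A).symm
  have hind : ∀ a : Fin h → A, (∑ i, a i * f i) ∈ maximalIdeal A ^ 2 →
      ∀ i, a i ∈ maximalIdeal A := by
    intro a ha i
    obtain ⟨s, hs⟩ := IsLocalization.exist_integer_multiples_of_finite P.primeCompl a
    choose b hb using hs
    have h1 : algebraMap S A (∑ j, b j * g j) ∈ (P ^ 2).map (algebraMap S A) := by
      rw [Ideal.map_pow, ← hmax, map_sum]
      have h2 : ∑ j, algebraMap S A (b j * g j) = algebraMap S A s * ∑ j, a j * f j := by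
        rw [Finset.mul_sum]
        refine Finset.sum_congr rfl fun j _ => ?_
        rw [map_mul, hb j, Algebra.smul_def, mul_assoc]
      rw [h2]
      exact Ideal.mul_mem_left _ _ ha
    rw [IsLocalization.algebraMap_mem_map_algebraMap_iff P.primeCompl] at h1
    obtain ⟨t, ht, h3⟩ := h1
    have h4 := GD4_sq (D i) (hadd i) (hmul i) h3
    have h5 : D i (∑ j, b j * g j) = Ideal.Quotient.mk P (b i * c) := by
      rw [GD4_sum (D i) (hadd i)]
      have h6 : ∀ j, D i (b j * g j) = if i = j then Ideal.Quotient.mk P (b i * c) else 0 := by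
        intro j
        rw [hmul, hD, Ideal.Quotient.eq_zero_iff_mem.mpr (hg j), zero_mul, add_zero]
        by_cases hij : i = j
        · subst hij
          simp
        · simp [hij]
      simp only [h6]
      simp
    have h7 : Ideal.Quotient.mk P (∑ j, b j * g j) = 0 :=
      Ideal.Quotient.eq_zero_iff_mem.mpr (Ideal.sum_mem _ fun j _ => Ideal.mul_mem_left _ _ (hg j))
    rw [hmul, h5, h7, zero_mul, add_zero, ← map_mul, Ideal.Quotient.eq_zero_iff_mem] at h4
    have hbi : b i ∈ P := by
      rcases Ideal.IsPrime.mem_or_mem inferInstance h4 with h8 | h8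
      · exact absurd h8 ht
      · rcases Ideal.IsPrime.mem_or_mem inferInstance h8 with h9 | h9
        · exact h9
        · exact absurd h9 hc
    have h10 : algebraMap S A (b i) ∈ maximalIdeal A :=
      (IsLocalization.AtPrime.to_map_mem_maximal_iff A P (b i)).2 hbi
    rw [hb i, Algebra.smul_def] at h10
    rcases Ideal.IsPrime.mem_or_mem (maximalIdeal.isMaximal A).isPrime h10 with h11 | h11
    · exact absurd ((IsLocalization.AtPrime.to_map_mem_maximal_iff A P (s : S)).1 h11) s.2
    · exact h11
  have hreg := (RB_quot_regular f hf hind).1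
  -- the map `S_P → T_Q`
  let φ : A →+* Localization.AtPrime Q := Localization.localRingHom P Q π hQ.symm
  have hφmap : ∀ x : S, φ (algebraMap S A x) = algebraMap T (Localization.AtPrime Q) (π x) :=
    fun x => Localization.localRingHom_to_map P Q π hQ.symm x
  have hmemP : ∀ x : S, x ∈ P ↔ π x ∈ Q := fun x => by rw [← hQ, Ideal.mem_comap]
  have hφmk : ∀ (x : S) (y : P.primeCompl), ∀ z : A, z * algebraMap S A y = algebraMap S A x →
      φ z * algebraMap T (Localization.AtPrime Q) (π y) =
        algebraMap T (Localization.AtPrime Q) (π x) := by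
    intro x y z hz
    rw [← hφmap, ← hφmap, ← map_mul, hz]
  have hφ : Function.Surjective φ := by
    intro w
    obtain ⟨⟨x, u⟩, hw⟩ := IsLocalization.surj Q.primeCompl w
    obtain ⟨a, rfl⟩ := hπ x
    obtain ⟨b, hb⟩ := hπ u
    have hbP : b ∉ P := fun h0 => u.2 (by rw [← hb]; exact (hmemP b).1 h0)
    refine ⟨IsLocalization.mk' A a (⟨b, hbP⟩ : P.primeCompl), ?_⟩
    have h1 := hφmk a ⟨b, hbP⟩ (IsLocalization.mk' A a (⟨b, hbP⟩ : P.primeCompl))
      (IsLocalization.mk'_spec A a _)
    have h2 : IsUnit (algebraMap T (Localization.AtPrime Q) (π b)) := by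
      rw [hb]
      exact IsLocalization.map_units _ u
    refine h2.mul_right_cancel ?_
    rw [h1, hb]
    exact hw.symm
  have hkerφ : RingHom.ker φ = Ideal.span (Set.range f) := by
    apply le_antisymm
    · intro z hz
      obtain ⟨⟨x, u⟩, hx⟩ := IsLocalization.surj P.primeCompl z
      have h1 := hφmk x u z hx
      rw [RingHom.mem_ker.mp hz, zero_mul] at h1
      have h2 := (IsLocalization.map_eq_zero_iff Q.primeCompl (Localization.AtPrime Q) (π x)).1
        h1.symm
      obtain ⟨v, hv⟩ := h2
      obtain ⟨w, hw⟩ := hπ v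
      have hwP : w ∉ P := fun h0 => v.2 (by rw [← hw]; exact (hmemP w).1 h0)
      have h3 : w * x ∈ J := by
        rw [← hker, RingHom.mem_ker, map_mul, hw]
        exact hv
      obtain ⟨s, hs, h4⟩ := hJ _ h3
      have h5 : algebraMap S A (s * (w * x)) ∈ Ideal.span (Set.range f) := by
        have h6 := Ideal.mem_map_of_mem (algebraMap S A) h4
        rw [Ideal.map_span, ← Set.range_comp] at h6
        exact h6
      rw [map_mul, map_mul] at h5
      have hsu : IsUnit (algebraMap S A s) := IsLocalization.map_units A (⟨s, hs⟩ : P.primeCompl)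
      have hwu : IsUnit (algebraMap S A w) := IsLocalization.map_units A (⟨w, hwP⟩ : P.primeCompl)
      have huu : IsUnit (algebraMap S A u) := IsLocalization.map_units A u
      have h7 := (Ideal.unit_mul_mem_iff_mem _ hwu).1 ((Ideal.unit_mul_mem_iff_mem _ hsu).1 h5)
      have h8 : z * algebraMap S A u ∈ Ideal.span (Set.range f) := by
        have h9 : z * algebraMap S A u = algebraMap S A x := hx
        rw [h9]
        exact h7
      exact (Ideal.mul_unit_mem_iff_mem _ huu).1 h8
    · rw [Ideal.span_le]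
      rintro _ ⟨j, rfl⟩
      rw [SetLike.mem_coe, RingHom.mem_ker]
      have h1 : φ (f j) = algebraMap T (Localization.AtPrime Q) (π (g j)) := hφmap (g j)
      have h2 : π (g j) = 0 := by
        rw [← RingHom.mem_ker, hker]
        exact hgJ j
      rw [h1, h2, map_zero]
  have e1 : (A ⧸ Ideal.span (Set.range f)) ≃+* (A ⧸ RingHom.ker φ) :=
    Ideal.quotEquivOfEq hkerφ.symm
  have e2 : (A ⧸ RingHom.ker φ) ≃+* Localization.AtPrime Q :=
    RingHom.quotientKerEquivOfSurjective hφ
  exact IsRegularLocalRing.of_ringEquiv (e1.trans e2)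

end Pool.Agent.Lib.MP_3029eb_ag.GR
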