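import Pool.Agent.Lib.MP_3029eb_ag.H44Defs

open IsLocalRing

namespace Pool.Agent.Lib.MP_3029eb_ag

theorem exists_lift_completion (R : Type) [CommRing R] [IsLocalRing R] [IsNoetherianRing R]
    (W : Type) [CommRing W] [IsLocalRing W] [IsAdicComplete (maximalIdeal W) W]
    (θ : R →+* W) (hθ : IsLocalHom θ) :
    ∃ φ : AdicCompletion (maximalIdeal R) R →+* W, IsLocalHom φ ∧
      φ.comp (algebraMap R (AdicCompletion (maximalIdeal R) R)) = θ := by
  have hle : maximalIdeal R ≤ (maximalIdeal W).comap θ := by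
    intro r hr
    exact (mem_maximalIdeal _).2 (map_nonunit θ r hr)
  have key : ∀ k : ℕ, maximalIdeal R ^ k ≤ (maximalIdeal W ^ k).comap θ := fun k =>
    (Ideal.pow_right_mono hle k).trans (Ideal.le_comap_pow _ k)
  let f : (k : ℕ) → AdicCompletion (maximalIdeal R) R →+* W ⧸ maximalIdeal W ^ k := fun k =>
    (Ideal.quotientMap (maximalIdeal W ^ k) θ (key k)).comp
      (AdicCompletion.evalₐ (maximalIdeal R) k : AdicCompletion (maximalIdeal R) R →+* _)
  have hf : ∀ {a b : ℕ} (hab : a ≤ b),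
      (Ideal.Quotient.factorPow (maximalIdeal W) hab).comp (f b) = f a := by
    intro a b hab
    ext t
    obtain ⟨x, rfl⟩ := AdicCompletion.mk_surjective (maximalIdeal R) R t
    have h1 : x.val a - x.val b ∈ maximalIdeal R ^ a := by
      have := x.2 hab
      rw [SModEq.sub_mem] at this
      simpa using this
    simp only [f, RingHom.comp_apply, RingHom.coe_coe, AdicCompletion.evalₐ_mk,
      Ideal.quotientMap_mk]
    refine (Ideal.Quotient.mk_eq_mk_iff_sub_mem _ _).2 ?_
    rw [← map_sub, ← neg_sub, map_neg]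
    exact neg_mem (key a h1)
  set φ := IsAdicComplete.liftRingHom (maximalIdeal W) f hf with hφ
  have hφk : ∀ k t, Ideal.Quotient.mk (maximalIdeal W ^ k) (φ t) = f k t := fun k t =>
    IsAdicComplete.mk_liftRingHom (maximalIdeal W) f hf k t
  have hcomp : ∀ r, φ (algebraMap R (AdicCompletion (maximalIdeal R) R) r) = θ r := by
    intro r
    refine IsHausdorff.eq_iff_smodEq (I := maximalIdeal W) |>.2 fun k => ?_
    rw [SModEq.sub_mem]
    have h3 : Ideal.Quotient.mk (maximalIdeal W ^ k)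
        (φ (algebraMap R (AdicCompletion (maximalIdeal R) R) r)) =
        Ideal.Quotient.mk (maximalIdeal W ^ k) (θ r) := by
      rw [hφk]
      have h4 : AdicCompletion.evalₐ (maximalIdeal R) k
          (algebraMap R (AdicCompletion (maximalIdeal R) R) r) = Ideal.Quotient.mk _ r := by
        exact (AdicCompletion.evalₐ (maximalIdeal R) k).commutes r
      simp only [f, RingHom.comp_apply, RingHom.coe_coe, h4, Ideal.quotientMap_mk]
    rw [Ideal.Quotient.mk_eq_mk_iff_sub_mem] at h3
    simpa using h3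
  refine ⟨φ, ?_, RingHom.ext hcomp⟩
  refine ((IsLocalRing.local_hom_TFAE φ).out 0 2).2 ?_
  rw [AdicCompletion.maximalIdeal_eq_map, Ideal.map_map, Ideal.map_le_iff_le_comap]
  intro r hr
  rw [Ideal.mem_comap, RingHom.comp_apply, hcomp]
  exact hle hr

theorem HA_factor {W : Type} [CommRing W] [IsLocalRing W] [IsHausdorff (maximalIdeal W) W]
    {ϖ : W} (hϖ : maximalIdeal W = Ideal.span {ϖ}) {x : W} (hx : x ≠ 0) :
    ∃ (n : ℕ) (u : Wˣ), x = ϖ ^ n * u := by
  classical
  have h1 : ∃ n : ℕ, x ∉ maximalIdeal W ^ n := by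
    by_contra hcon
    push Not at hcon
    apply hx
    refine IsHausdorff.haus' (I := maximalIdeal W) x fun n => ?_
    rw [SModEq.sub_mem]
    simpa using hcon n
  have h2 := Nat.find_spec h1
  have h3 : Nat.find h1 ≠ 0 := by
    intro h0
    rw [h0] at h2
    apply h2
    rw [pow_zero, Ideal.one_eq_top]
    trivial
  obtain ⟨n, hn⟩ := Nat.exists_eq_succ_of_ne_zero h3
  have h4 : x ∈ maximalIdeal W ^ n := by
    have := Nat.find_min h1 (m := n) (by omega)
    push Not at this
    exact this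
  rw [hϖ, Ideal.span_singleton_pow, Ideal.mem_span_singleton] at h4
  obtain ⟨u, rfl⟩ := h4
  have h5 : IsUnit u := by
    by_contra hu
    have hu' : u ∈ maximalIdeal W := (mem_maximalIdeal u).2 hu
    rw [hϖ, Ideal.mem_span_singleton] at hu'
    obtain ⟨w, rfl⟩ := hu'
    apply h2
    rw [hn, hϖ, Ideal.span_singleton_pow, Ideal.mem_span_singleton]
    exact ⟨w, by rw [pow_succ]; ring⟩
  obtain ⟨u, rfl⟩ := h5
  exact ⟨n, u, rfl⟩

theorem HA_isDomain {W : Type} [CommRing W] [IsLocalRing W] [IsHausdorff (maximalIdeal W) W]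
    {ϖ : W} (hϖ : maximalIdeal W = Ideal.span {ϖ}) (h0 : ∀ n : ℕ, ϖ ^ n ≠ 0) : IsDomain W := by
  have : NoZeroDivisors W := by
    refine ⟨fun {a b} hab => ?_⟩
    by_contra hcon
    push Not at hcon
    obtain ⟨n, u, hu⟩ := HA_factor hϖ hcon.1
    obtain ⟨m, v, hv⟩ := HA_factor hϖ hcon.2
    apply h0 (n + m)
    have h1 : ϖ ^ (n + m) * (u * v : Wˣ) = 0 := by
      rw [← hab, hu, hv]
      push_cast
      ring
    exact (Units.mul_left_eq_zero _).1 h1
  exact NoZeroDivisors.to_isDomain W

theorem HA_dvr {W : Type} [CommRing W] [IsDomain W] [IsLocalRing W]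
    [IsHausdorff (maximalIdeal W) W]
    {ϖ : W} (hϖ : maximalIdeal W = Ideal.span {ϖ}) (h0 : ϖ ≠ 0) :
    IsDiscreteValuationRing W := by
  have hmem : ϖ ∈ maximalIdeal W := by
    rw [hϖ]
    exact Ideal.mem_span_singleton_self ϖ
  refine IsDiscreteValuationRing.ofHasUnitMulPowIrreducibleFactorization ⟨ϖ, ?_, ?_⟩
  · refine ⟨(mem_maximalIdeal _).1 hmem, ?_⟩
    intro a b hab
    by_contra hcon
    push Not at hcon
    have ha : a ∈ maximalIdeal W := (mem_maximalIdeal _).2 hcon.1
    have hb : b ∈ maximalIdeal W := (mem_maximalIdeal _).2 hcon.2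
    rw [hϖ, Ideal.mem_span_singleton] at ha hb
    obtain ⟨c, rfl⟩ := ha
    obtain ⟨d, rfl⟩ := hb
    have h1 : ϖ * (1 - ϖ * (c * d)) = 0 := by
      rw [mul_sub, mul_one, sub_eq_zero]
      nth_rw 1 [hab]
      ring
    rcases mul_eq_zero.1 h1 with h2 | h2
    · exact h0 h2
    · apply (mem_maximalIdeal _).1 hmem
      rw [sub_eq_zero] at h2
      exact IsUnit.of_mul_eq_one _ h2.symm
  · intro x hx
    obtain ⟨n, u, hu⟩ := HA_factor hϖ hx
    exact ⟨n, u, hu.symm⟩

theorem exists_complete_dvr (V : Type) [CommRing V] [IsDomain V] [IsDiscreteValuationRing V] :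
    ∃ (W : Type) (_ : CommRing W) (_ : IsDomain W) (_ : IsDiscreteValuationRing W)
      (_ : IsAdicComplete (maximalIdeal W) W) (θ : V →+* W),
      IsLocalHom θ ∧ Function.Injective θ := by
  obtain ⟨π, hπ⟩ := IsDiscreteValuationRing.exists_irreducible V
  have hmax : maximalIdeal V = Ideal.span {π} := hπ.maximalIdeal_eq
  set θ := algebraMap V (AdicCompletion (maximalIdeal V) V) with hθ
  have hinj : Function.Injective θ := by
    rw [hθ]
    exact AdicCompletion.of_injective (maximalIdeal V) V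
  have hϖ : maximalIdeal (AdicCompletion (maximalIdeal V) V) = Ideal.span {θ π} := by
    rw [AdicCompletion.maximalIdeal_eq_map]
    have : Ideal.map θ (maximalIdeal V) = Ideal.map θ (Ideal.span {π}) :=
      congrArg (Ideal.map θ) hmax
    rw [this, Ideal.map_span, Set.image_singleton]
  have h0 : ∀ n : ℕ, θ π ^ n ≠ 0 := by
    intro n hn
    rw [← map_pow, map_eq_zero_iff θ hinj] at hn
    exact hπ.ne_zero (eq_zero_of_pow_eq_zero hn)
  have hD : IsDomain (AdicCompletion (maximalIdeal V) V) := HA_isDomain hϖ h0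
  have hV : IsDiscreteValuationRing (AdicCompletion (maximalIdeal V) V) :=
    HA_dvr hϖ (by simpa using h0 1)
  exact ⟨AdicCompletion (maximalIdeal V) V, inferInstance, hD, hV, inferInstance, θ,
    inferInstance, hinj⟩

end Pool.Agent.Lib.MP_3029eb_ag
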