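import Mathlib
import Pool.Agent.Lib.MP_3029eb_ag.HA
import Pool.Agent.Lib.MP_3029eb_ag.HB
import Pool.Agent.Lib.MP_3029eb_ag.GRD0

/-! Module GR-GD5: the completion of a quotient. -/

open IsLocalRing

namespace Pool.Agent.Lib.MP_3029eb_ag.GR
open Pool.Agent.Lib.MP_3029eb_ag

theorem GD5_isLocalHom_algebraMap (S : Type) [CommRing S] [IsLocalRing S] [IsNoetherianRing S] :
    IsLocalHom (algebraMap S (AdicCompletion (maximalIdeal S) S)) := by
  refine ((IsLocalRing.local_hom_TFAE _).out 0 2).2 ?_
  rw [AdicCompletion.maximalIdeal_eq_map]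

/-- GD5: the completion of a quotient -/
theorem exists_completion_quotient (S T : Type) [CommRing S] [IsLocalRing S] [IsNoetherianRing S]
    [CommRing T] [IsLocalRing T] [IsNoetherianRing T] (π : S →+* T)
    (hπ : Function.Surjective π) :
    ∃ π' : AdicCompletion (maximalIdeal S) S →+* AdicCompletion (maximalIdeal T) T,
      Function.Surjective π' ∧
      π'.comp (algebraMap S (AdicCompletion (maximalIdeal S) S)) =
        (algebraMap T (AdicCompletion (maximalIdeal T) T)).comp π ∧
      RingHom.ker π' =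
        (RingHom.ker π).map (algebraMap S (AdicCompletion (maximalIdeal S) S)) := by
  have hSl := GD5_isLocalHom_algebraMap S
  have hSn := noetherian_adicCompletion S
  have hTl := GD5_isLocalHom_algebraMap T
  have hπl : IsLocalHom π := IsLocalHom.of_surjective π hπ
  set J : Ideal (AdicCompletion (maximalIdeal S) S) :=
    (RingHom.ker π).map (algebraMap S (AdicCompletion (maximalIdeal S) S)) with hJ
  have hkerle : RingHom.ker π ≤ maximalIdeal S :=
    IsLocalRing.le_maximalIdeal (RingHom.ker_ne_top π)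
  have hJle : J ≤ maximalIdeal _ := by
    rw [hJ, AdicCompletion.maximalIdeal_eq_map]
    exact Ideal.map_mono hkerle
  have hJtop : J ≠ ⊤ := fun h => (maximalIdeal.isMaximal
    (AdicCompletion (maximalIdeal S) S)).ne_top (top_le_iff.1 (h ▸ hJle))
  have hnt : Nontrivial (AdicCompletion (maximalIdeal S) S ⧸ J) :=
    Ideal.Quotient.nontrivial_iff.2 hJtop
  have hWl : IsLocalRing (AdicCompletion (maximalIdeal S) S ⧸ J) :=
    IsLocalRing.of_surjective' (Ideal.Quotient.mk J) Ideal.Quotient.mk_surjective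
  have hmkl : IsLocalHom (Ideal.Quotient.mk J) :=
    IsLocalHom.of_surjective _ Ideal.Quotient.mk_surjective
  obtain ⟨hWn, hWc⟩ := isAdicComplete_quotient (AdicCompletion (maximalIdeal S) S)
    (AdicCompletion (maximalIdeal S) S ⧸ J) (Ideal.Quotient.mk J) Ideal.Quotient.mk_surjective
  -- the map `T → W`
  let ρ : T →+* AdicCompletion (maximalIdeal S) S ⧸ J :=
    RingHom.liftOfSurjective π hπ ⟨(Ideal.Quotient.mk J).comp
      (algebraMap S (AdicCompletion (maximalIdeal S) S)), by
        intro s hs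
        rw [RingHom.mem_ker, RingHom.comp_apply, Ideal.Quotient.eq_zero_iff_mem]
        exact Ideal.mem_map_of_mem _ hs⟩
  have hρ : ∀ s, ρ (π s) = Ideal.Quotient.mk J (algebraMap S _ s) := fun s =>
    RingHom.liftOfSurjective_comp_apply π hπ _ s
  have hρl : IsLocalHom ρ := by
    constructor
    intro t ht
    obtain ⟨s, rfl⟩ := hπ t
    rw [hρ] at ht
    exact (isUnit_of_map_unit _ s (isUnit_of_map_unit _ _ ht)).map π
  obtain ⟨ψ, hψl, hψ⟩ := exists_lift_completion T _ ρ hρl
  have hcl : IsLocalHom ((algebraMap T (AdicCompletion (maximalIdeal T) T)).comp π) :=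
    RingHom.isLocalHom_comp _ _
  obtain ⟨π', hπ'l, hπ'⟩ := exists_lift_completion S (AdicCompletion (maximalIdeal T) T)
    ((algebraMap T (AdicCompletion (maximalIdeal T) T)).comp π) hcl
  have hkill : ∀ x ∈ J, π' x = 0 := by
    have : J ≤ RingHom.ker π' := by
      rw [hJ, Ideal.map_le_iff_le_comap]
      intro s hs
      rw [Ideal.mem_comap, RingHom.mem_ker, ← RingHom.comp_apply, hπ', RingHom.comp_apply,
        RingHom.mem_ker.1 hs, map_zero]
    exact fun x hx => this hx
  let π2 : AdicCompletion (maximalIdeal S) S ⧸ J →+* AdicCompletion (maximalIdeal T) T :=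
    Ideal.Quotient.lift J π' hkill
  have h1 : ψ.comp π' = Ideal.Quotient.mk J := by
    refine completion_hom_ext S _ _ _ (RingHom.isLocalHom_comp _ _) hmkl ?_
    rw [RingHom.comp_assoc, hπ', ← RingHom.comp_assoc, hψ]
    exact RingHom.ext hρ
  have hπ2l : IsLocalHom π2 := by
    constructor
    intro x hx
    obtain ⟨y, rfl⟩ := Ideal.Quotient.mk_surjective x
    have : π2 (Ideal.Quotient.mk J y) = π' y := rfl
    rw [this] at hx
    exact (isUnit_of_map_unit π' y hx).map _
  have h2 : π2.comp ψ = RingHom.id _ := by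
    refine completion_hom_ext T _ _ _ (RingHom.isLocalHom_comp _ _) (isLocalHom_id _) ?_
    rw [RingHom.comp_assoc, hψ, RingHom.id_comp]
    refine RingHom.ext fun t => ?_
    obtain ⟨s, rfl⟩ := hπ t
    rw [RingHom.comp_apply, hρ]
    exact RingHom.congr_fun hπ' s
  refine ⟨π', ?_, hπ', le_antisymm ?_ ?_⟩
  · intro t
    obtain ⟨y, hy⟩ := Ideal.Quotient.mk_surjective (ψ t)
    refine ⟨y, ?_⟩
    have : π2 (Ideal.Quotient.mk J y) = π' y := rfl
    rw [← this, hy]
    exact RingHom.congr_fun h2 t
  · intro x hx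
    rw [← Ideal.Quotient.eq_zero_iff_mem, ← h1, RingHom.comp_apply, RingHom.mem_ker.1 hx, map_zero]
  · exact fun x hx => hkill x hx

end Pool.Agent.Lib.MP_3029eb_ag.GR
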