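import Mathlib
import Pool.Agent.Lib.MP_3029eb_ag.HA
import Pool.Agent.Lib.MP_3029eb_ag.HB
import Pool.Agent.Lib.MP_3029eb_ag.GRA2
import Pool.Agent.Lib.MP_3029eb_ag.GRD0
import Pool.Agent.Lib.MP_3029eb_ag.GRD1
import Pool.Agent.Lib.MP_3029eb_ag.GRD2
import Pool.Agent.Lib.MP_3029eb_ag.GRD3
import Pool.Agent.Lib.MP_3029eb_ag.GRD4
import Pool.Agent.Lib.MP_3029eb_ag.GRD5

/-! Module GR-GD6: regularity of formal fibres by derivations. -/

open IsLocalRing

namespace Pool.Agent.Lib.MP_3029eb_ag.GR
open Pool.Agent.Lib.MP_3029eb_ag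

/-- the localization of a quotient as a quotient of the localization -/
theorem GD6_quot (S T : Type) [CommRing S] [CommRing T] (π : S →+* T)
    (hπ : Function.Surjective π) (𝔮 : Ideal T) [𝔮.IsPrime]
    (hreg : IsRegularLocalRing (Localization.AtPrime 𝔮)) :
    IsRegularLocalRing (Localization.AtPrime (𝔮.comap π) ⧸
      Ideal.span ((algebraMap S (Localization.AtPrime (𝔮.comap π))) '' (RingHom.ker π : Set S))) := by
  let f : Localization.AtPrime (𝔮.comap π) →+* Localization.AtPrime 𝔮 :=
    Localization.localRingHom (𝔮.comap π) 𝔮 π rfl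
  have hf : Function.Surjective f := by
    intro z
    obtain ⟨t, s, rfl⟩ := IsLocalization.exists_mk'_eq 𝔮.primeCompl z
    obtain ⟨a, rfl⟩ := hπ t
    obtain ⟨s, hs⟩ := s
    obtain ⟨b, rfl⟩ := hπ s
    have hb : b ∈ (𝔮.comap π).primeCompl := hs
    exact ⟨IsLocalization.mk' _ a ⟨b, hb⟩, Localization.localRingHom_mk' _ _ _ _ _ _⟩
  have hker : RingHom.ker f = Ideal.span ((algebraMap S (Localization.AtPrime (𝔮.comap π))) ''
      (RingHom.ker π : Set S)) := by
    apply le_antisymm
    · intro z hz
      obtain ⟨a, s, rfl⟩ := IsLocalization.exists_mk'_eq (𝔮.comap π).primeCompl z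
      have h0 : f (IsLocalization.mk' _ a s) = 0 := hz
      have h1 : f (algebraMap S _ a) = 0 := by
        rw [← IsLocalization.mk'_spec _ a s, map_mul, h0, zero_mul]
      have h2 : algebraMap T (Localization.AtPrime 𝔮) (π a) = 0 := by
        rw [← h1]
        exact (Localization.localRingHom_to_map _ _ _ _ _).symm
      obtain ⟨⟨u, hu⟩, hu0⟩ := (IsLocalization.map_eq_zero_iff 𝔮.primeCompl _ _).1 h2
      obtain ⟨v, rfl⟩ := hπ u
      have hv : v ∈ (𝔮.comap π).primeCompl := hu
      have h3 : v * a ∈ RingHom.ker π := by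
        rw [RingHom.mem_ker, map_mul]
        exact hu0
      have h4 : algebraMap S (Localization.AtPrime (𝔮.comap π)) (v * a) ∈
          Ideal.span ((algebraMap S (Localization.AtPrime (𝔮.comap π))) ''
            (RingHom.ker π : Set S)) := Ideal.subset_span ⟨_, h3, rfl⟩
      have h5 : algebraMap S (Localization.AtPrime (𝔮.comap π)) a ∈
          Ideal.span ((algebraMap S (Localization.AtPrime (𝔮.comap π))) ''
            (RingHom.ker π : Set S)) := by
        have hu : IsUnit (algebraMap S (Localization.AtPrime (𝔮.comap π)) v) :=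
          IsLocalization.map_units _ (⟨v, hv⟩ : (𝔮.comap π).primeCompl)
        rw [map_mul] at h4
        exact (Ideal.unit_mul_mem_iff_mem _ hu).1 h4
      have hs : IsUnit (algebraMap S (Localization.AtPrime (𝔮.comap π)) s) :=
        IsLocalization.map_units _ s
      rw [← Ideal.unit_mul_mem_iff_mem _ hs, mul_comm, IsLocalization.mk'_spec]
      exact h5
    · rw [Ideal.span_le]
      rintro _ ⟨x, hx, rfl⟩
      change f _ = 0
      have : f (algebraMap S _ x) = algebraMap T _ (π x) :=
        Localization.localRingHom_to_map _ _ _ _ _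
      rw [this, (RingHom.mem_ker).1 hx, map_zero]
  rw [← hker]
  exact IsRegularLocalRing.of_ringEquiv (RingHom.quotientKerEquivOfSurjective hf).symm

/-- clearing denominators in a span -/
theorem GD6_clear (S : Type) [CommRing S] (P : Ideal S) [P.IsPrime] (h : ℕ) (g : Fin h → S)
    (y : S) (hy : algebraMap S (Localization.AtPrime P) y ∈
      Ideal.span (Set.range fun j => algebraMap S (Localization.AtPrime P) (g j))) :
    ∃ s, s ∉ P ∧ s * y ∈ Ideal.span (Set.range g) := by
  have h1 : Ideal.span (Set.range fun j => algebraMap S (Localization.AtPrime P) (g j)) =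
      (Ideal.span (Set.range g)).map (algebraMap S (Localization.AtPrime P)) := by
    rw [Ideal.map_span, ← Set.range_comp]
    rfl
  rw [h1, ← IsLocalization.mk'_one (M := P.primeCompl),
    IsLocalization.mk'_mem_map_algebraMap_iff P.primeCompl] at hy
  obtain ⟨s, hs, hs'⟩ := hy
  exact ⟨s, hs, hs'⟩

/-- GD6: regularity of formal fibres by derivations -/
theorem regular_formal_fibre (S : Type) [CommRing S] [IsRegularLocalRing S] (T : Type)
    [CommRing T] [IsLocalRing T] [IsNoetherianRing T] (π : S →+* T) (hπ : Function.Surjective π)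
    (𝔮 : Ideal T) [𝔮.IsPrime] (hreg : IsRegularLocalRing (Localization.AtPrime 𝔮))
    (hbdd : BddDer S (𝔮.comap π)) (Q : Ideal (AdicCompletion (maximalIdeal T) T)) [Q.IsPrime]
    (hQ : Q.comap (algebraMap T (AdicCompletion (maximalIdeal T) T)) = 𝔮) :
    IsRegularLocalRing (Localization.AtPrime Q) := by
  classical
  have hSreg : IsRegularRing S := isRegularRing_of_regularLocal S
  have hO : IsRegularLocalRing (Localization.AtPrime (𝔮.comap π)) :=
    IsRegularRing.isRegularLocalRing_localization _
  set O := Localization.AtPrime (𝔮.comap π) with hOdef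
  set X : Set O := (algebraMap S O) '' (RingHom.ker π : Set S) with hX
  have hkerle : RingHom.ker π ≤ 𝔮.comap π := by
    intro s hs
    rw [Ideal.mem_comap, (RingHom.mem_ker).1 hs]
    exact 𝔮.zero_mem
  have hXm : X ⊆ maximalIdeal O := by
    rintro _ ⟨x, hx, rfl⟩
    have h2 : Ideal.map (algebraMap S O) (𝔮.comap π) = maximalIdeal O :=
      Localization.AtPrime.map_eq_maximalIdeal
    rw [← h2]
    exact Ideal.mem_map_of_mem _ (hkerle hx)
  have hXreg : IsRegularLocalRing (O ⧸ Ideal.span X) := GD6_quot S T π hπ 𝔮 hreg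
  obtain ⟨h, g, hgX, hgspan, hgind⟩ := exists_regular_gens O X hXm hXreg
  choose g' hg'k hg' using hgX
  have hgfun : g = fun j => algebraMap S O (g' j) := funext fun j => (hg' j).symm
  have hg'k' : ∀ j, g' j ∈ RingHom.ker π := hg'k
  obtain ⟨c, D, hc, hadd, hmul, hD⟩ := exists_dual_derivations S (𝔮.comap π) hbdd h g'
    (fun j => hkerle (hg'k' j)) (fun a ha => hgind a (by simpa only [hgfun] using ha))
  obtain ⟨π', hπ's, hπ'c, hπ'k⟩ := exists_completion_quotient S T π hπ
  have hSc : IsRegularLocalRing (AdicCompletion (maximalIdeal S) S) :=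
    isRegularLocalRing_completion S
  have hScr : IsRegularRing (AdicCompletion (maximalIdeal S) S) :=
    isRegularRing_of_regularLocal _
  set P := Q.comap π' with hP
  have hPp : P.IsPrime := Ideal.comap_isPrime π' Q
  have hPS : P.comap (algebraMap S (AdicCompletion (maximalIdeal S) S)) = 𝔮.comap π := by
    rw [hP, Ideal.comap_comap, hπ'c, ← Ideal.comap_comap, hQ]
  have hnt : Nontrivial (AdicCompletion (maximalIdeal S) S ⧸ P) :=
    Ideal.Quotient.nontrivial_iff.2 hPp.ne_top
  have hCl : IsLocalRing (AdicCompletion (maximalIdeal S) S ⧸ P) :=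
    IsLocalRing.of_surjective' (Ideal.Quotient.mk P) Ideal.Quotient.mk_surjective
  have hmkl : IsLocalHom (Ideal.Quotient.mk P) :=
    IsLocalHom.of_surjective _ Ideal.Quotient.mk_surjective
  obtain ⟨hCn, hCc⟩ := isAdicComplete_quotient (AdicCompletion (maximalIdeal S) S)
    (AdicCompletion (maximalIdeal S) S ⧸ P) (Ideal.Quotient.mk P) Ideal.Quotient.mk_surjective
  let ι : S ⧸ 𝔮.comap π →+* AdicCompletion (maximalIdeal S) S ⧸ P :=
    Ideal.quotientMap P (algebraMap S (AdicCompletion (maximalIdeal S) S)) (ge_of_eq hPS)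
  have hι : ∀ s : S, ι (Ideal.Quotient.mk _ s) = Ideal.Quotient.mk P (algebraMap S _ s) :=
    fun s => Ideal.quotientMap_mk
  have hext : ∀ i : Fin h, ∃ D' : AdicCompletion (maximalIdeal S) S →
      AdicCompletion (maximalIdeal S) S ⧸ P,
      (∀ s : S, D' (algebraMap S _ s) = ι (D i s)) ∧
      (∀ a b, D' (a + b) = D' a + D' b) ∧
      (∀ a b, D' (a * b) = Ideal.Quotient.mk P a * D' b + Ideal.Quotient.mk P b * D' a) := by
    intro i
    refine exists_der_ext S _ (Ideal.Quotient.mk P) hmkl (fun s => ι (D i s)) ?_ ?_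
    · intro a b
      simp only [hadd, map_add]
    · intro a b
      simp only [hmul, map_add, map_mul, hι]
  choose D' hD'S hD'add hD'mul using hext
  refine regular_of_dual_derivations (AdicCompletion (maximalIdeal S) S) P h
    (fun j => algebraMap S _ (g' j)) ?_ (algebraMap S _ c) ?_ D' hD'add hD'mul ?_
    (RingHom.ker π') ?_ ?_ ?_ (AdicCompletion (maximalIdeal T) T) π' hπ's rfl Q rfl
  · intro j
    have : g' j ∈ P.comap (algebraMap S (AdicCompletion (maximalIdeal S) S)) := by
      rw [hPS]
      exact hkerle (hg'k' j)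
    exact this
  · intro hcP
    apply hc
    rw [← hPS]
    exact hcP
  · intro i j
    rw [hD'S, hD]
    split_ifs
    · exact hι c
    · exact map_zero ι
  · intro x hx
    rw [hP, Ideal.mem_comap, (RingHom.mem_ker).1 hx]
    exact Q.zero_mem
  · intro j
    rw [hπ'k]
    exact Ideal.mem_map_of_mem _ (hg'k' j)
  · intro x hx
    rw [hπ'k] at hx
    have hspanmap : ∀ z ∈ Ideal.span (Set.range g'), algebraMap S (AdicCompletion (maximalIdeal S) S) z ∈
        Ideal.span (Set.range fun j => algebraMap S (AdicCompletion (maximalIdeal S) S) (g' j)) := by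
      intro z hz
      have h1 : Ideal.span (Set.range fun j =>
          algebraMap S (AdicCompletion (maximalIdeal S) S) (g' j)) =
          (Ideal.span (Set.range g')).map (algebraMap S (AdicCompletion (maximalIdeal S) S)) := by
        rw [Ideal.map_span, ← Set.range_comp]
        rfl
      rw [h1]
      exact Ideal.mem_map_of_mem _ hz
    refine Submodule.span_induction (p := fun x _ => ∃ s, s ∉ P ∧ s * x ∈ Ideal.span
      (Set.range fun j => algebraMap S (AdicCompletion (maximalIdeal S) S) (g' j))) ?_ ?_ ?_ ?_ hx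
    · rintro _ ⟨y, hy, rfl⟩
      have hyO : algebraMap S O y ∈ Ideal.span (Set.range fun j => algebraMap S O (g' j)) := by
        rw [← hgfun, hgspan]
        exact Ideal.subset_span ⟨y, hy, rfl⟩
      obtain ⟨s, hs, hsy⟩ := GD6_clear S (𝔮.comap π) h g' y hyO
      refine ⟨algebraMap S _ s, ?_, ?_⟩
      · intro hsP
        apply hs
        rw [← hPS]
        exact hsP
      · rw [← map_mul]
        exact hspanmap _ hsy
    · refine ⟨1, fun h1 => hPp.ne_top ((Ideal.eq_top_iff_one _).2 h1), ?_⟩
      rw [mul_zero]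
      exact Ideal.zero_mem _
    · rintro a b _ _ ⟨s, hs, hsa⟩ ⟨t, ht, htb⟩
      refine ⟨s * t, fun hst => (hPp.mem_or_mem hst).elim hs ht, ?_⟩
      have h1 : s * t * (a + b) = t * (s * a) + s * (t * b) := by ring
      rw [h1]
      exact Ideal.add_mem _ (Ideal.mul_mem_left _ _ hsa) (Ideal.mul_mem_left _ _ htb)
    · rintro a b _ ⟨s, hs, hsb⟩
      refine ⟨s, hs, ?_⟩
      have h1 : s * (a • b) = a * (s * b) := by
        rw [smul_eq_mul]
        ring
      rw [h1]
      exact Ideal.mul_mem_left _ _ hsb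

end Pool.Agent.Lib.MP_3029eb_ag.GR
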