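import Mathlib
import Pool.Agent.Lib.MP_1ce8ed_ag.RL4

/-! GE1: presentations of local rings essentially of finite type over a regular local ring
(helper35). -/

open IsLocalRing

namespace Pool.Agent.Lib.MP_3029eb_ag.GR

theorem GE1_isRegularRing (A : Type) [CommRing A] [IsRegularLocalRing A] :
    IsRegularRing A :=
  isRegularRing_iff.2 (fun p _ => Pool.Agent.Lib.MP_1ce8ed_ag.regular_localization p)

theorem exists_local_presentation (S0 T : Type) [CommRing S0] [IsRegularLocalRing S0] [CommRing T]
    [IsLocalRing T] [Algebra S0 T] [Algebra.EssFiniteType S0 T] :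
    ∃ (S : Type) (_ : CommRing S) (_ : IsRegularLocalRing S) (_ : Algebra S0 S)
      (_ : Algebra.EssFiniteType S0 S) (π : S →+* T), Function.Surjective π ∧
      π.comp (algebraMap S0 S) = algebraMap S0 T := by
  obtain ⟨σ, hσ⟩ := (Algebra.essFiniteType_iff (R := S0) (S := T)).1 inferInstance
  have hS0 : IsRegularRing S0 := GE1_isRegularRing S0
  let P := MvPolynomial σ S0
  let φ : P →ₐ[S0] T := MvPolynomial.aeval (fun s : σ => (s : T))
  have hrange : Algebra.adjoin S0 (σ : Set T) = φ.range := by
    have h := Algebra.adjoin_range_eq_range_aeval S0 (fun s : σ => (s : T))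
    have h2 : Set.range (fun s : σ => (s : T)) = (σ : Set T) := by
      ext x; simp
    rw [h2] at h
    exact h
  let m : Ideal P := (maximalIdeal T).comap φ.toRingHom
  have hm : m.IsPrime := Ideal.comap_isPrime _ _
  have hunit : ∀ y : m.primeCompl, IsUnit (φ.toRingHom y) := by
    intro y
    have hy : φ.toRingHom y ∉ maximalIdeal T := y.2
    simpa [mem_maximalIdeal, mem_nonunits_iff] using hy
  let π : Localization.AtPrime m →+* T := IsLocalization.lift hunit
  have hπ : π.comp (algebraMap P (Localization.AtPrime m)) = φ.toRingHom :=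
    IsLocalization.lift_comp hunit
  have hPreg : IsRegularRing P := inferInstance
  have hft : Algebra.EssFiniteType S0 P := inferInstance
  have hloc : Algebra.EssFiniteType P (Localization.AtPrime m) :=
    Algebra.EssFiniteType.of_isLocalization _ m.primeCompl
  refine ⟨Localization.AtPrime m, inferInstance, hPreg.isRegularLocalRing_localization m,
    inferInstance, Algebra.EssFiniteType.comp S0 P (Localization.AtPrime m), π, ?_, ?_⟩
  · intro t
    obtain ⟨u, hu, huu, htu⟩ := hσ t
    rw [hrange] at hu htu
    obtain ⟨g, hg⟩ := hu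
    obtain ⟨f, hf⟩ := htu
    have hg' : φ.toRingHom g = u := hg
    have hf' : φ.toRingHom f = t * u := hf
    have hgm : g ∈ m.primeCompl := by
      intro hgm
      have h1 : φ.toRingHom g ∈ maximalIdeal T := hgm
      rw [hg'] at h1
      exact (mem_maximalIdeal _).1 h1 huu
    refine ⟨IsLocalization.mk' (Localization.AtPrime m) f ⟨g, hgm⟩, ?_⟩
    have h2 : π (IsLocalization.mk' (Localization.AtPrime m) f ⟨g, hgm⟩) * u = t * u := by
      rw [← hf', ← hg']
      have h3 : φ.toRingHom g = π (algebraMap P (Localization.AtPrime m) g) := by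
        rw [← hπ]; rfl
      have h4 : φ.toRingHom f = π (algebraMap P (Localization.AtPrime m) f) := by
        rw [← hπ]; rfl
      rw [h3, h4, ← map_mul]
      congr 1
      exact IsLocalization.mk'_spec (Localization.AtPrime m) f ⟨g, hgm⟩
    exact huu.mul_right_cancel h2
  · ext s
    have h5 : algebraMap S0 (Localization.AtPrime m) s =
        algebraMap P (Localization.AtPrime m) (algebraMap S0 P s) := by
      rw [← IsScalarTower.algebraMap_apply]
    rw [RingHom.comp_apply, h5, ← RingHom.comp_apply, hπ]
    exact φ.commutes s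

end Pool.Agent.Lib.MP_3029eb_ag.GR
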