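import Mathlib
import Pool.Agent.Lib.MP_3029eb_ag.HB

/-! Module GE2 of Theorem G: the hypothesis of the frozen statement gives regular rings. -/

open IsLocalRing
open scoped TensorProduct

namespace Pool.Agent.Lib.MP_3029eb_ag.GR
open Pool.Agent.Lib.MP_3029eb_ag

/-- A ring essentially of finite type over a noetherian ring is noetherian. -/
theorem GE2_noetherian (A B : Type) [CommRing A] [CommRing B] [Algebra A B] [IsNoetherianRing A]
    [Algebra.EssFiniteType A B] : IsNoetherianRing B := by
  have h1 : IsNoetherianRing (Algebra.EssFiniteType.subalgebra A B) :=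
    Algebra.FiniteType.isNoetherianRing A _
  exact IsLocalization.isNoetherianRing (Algebra.EssFiniteType.submonoid A B) B h1

/-- GE2: the hypothesis of the frozen statement, for all finite extensions of residue fields -/
theorem isRegularRing_of_frozen (R : Type) [CommRing R] [IsNoetherianRing R] [IsLocalRing R]
    (H : ∀ (p : Ideal R) [p.IsPrime] (L : Type) [Field L] [Algebra R L]
      [Algebra p.ResidueField L] [IsScalarTower R p.ResidueField L]
      [FiniteDimensional p.ResidueField L]
      (Q : Ideal (L ⊗[R] AdicCompletion (maximalIdeal R) R)) [Q.IsPrime],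
      IsNoetherianRing (Localization.AtPrime Q) ∧
        ringKrullDim (Localization.AtPrime Q) =
          (((Module.finrank (ResidueField (Localization.AtPrime Q))
              (CotangentSpace (Localization.AtPrime Q)) : ℕ) : ℕ∞) : WithBot ℕ∞))
    (p : Ideal R) [p.IsPrime] (L : Type) [Field L] [Algebra R L]
    [Algebra p.ResidueField L] [IsScalarTower R p.ResidueField L]
    [FiniteDimensional p.ResidueField L] :
    IsRegularRing (L ⊗[R] AdicCompletion (maximalIdeal R) R) := by
  have h1 : IsNoetherianRing (AdicCompletion (maximalIdeal R) R) := noetherian_adicCompletion R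
  have h2 : Algebra.EssFiniteType R p.ResidueField := inferInstance
  have h3 : Algebra.EssFiniteType R L := Algebra.EssFiniteType.comp R p.ResidueField L
  have h4 : Algebra.EssFiniteType (AdicCompletion (maximalIdeal R) R)
      (AdicCompletion (maximalIdeal R) R ⊗[R] L) := inferInstance
  have h5 : IsNoetherianRing (AdicCompletion (maximalIdeal R) R ⊗[R] L) :=
    GE2_noetherian (AdicCompletion (maximalIdeal R) R) _
  have h6 : IsNoetherianRing (L ⊗[R] AdicCompletion (maximalIdeal R) R) :=
    isNoetherianRing_of_ringEquiv _
      (Algebra.TensorProduct.comm R (AdicCompletion (maximalIdeal R) R) L).toRingEquiv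
  rw [isRegularRing_iff]
  intro Q hQ
  have h7 := H p L Q
  rw [IsRegularLocalRing.iff_finrank_cotangentSpace, h7.2]
  rfl

end Pool.Agent.Lib.MP_3029eb_ag.GR
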