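import Mathlib
import Pool.Agent.Lib.MP_3029eb_ag.BddDef

/-!
# Module BD0: bounded derivations in characteristic zero
-/

set_option autoImplicit false

open IsLocalRing

namespace Pool.Agent.Lib.MP_3029eb_ag

/-- general form of `bddDer_of_section` -/
theorem bddDer_aux {S O : Type} [CommRing S] [IsNoetherianRing S] [CommRing O] [IsLocalRing O]
    [Algebra S O] (𝔔 : Ideal S) (hloc : ∀ f ∈ 𝔔, algebraMap S O f ∈ maximalIdeal O)
    (M : Ideal O) (hM : M = maximalIdeal O)
    (σ : ResidueField O →+* O ⧸ M ^ 2)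
    (hσ : ∀ (x : ResidueField O) (o : O), σ x = Ideal.Quotient.mk _ o → residue _ o = x)
    {ι : Type} (hι : Finite ι) (e : ι → S) (C : Set S)
    (hC : ∀ c ∈ C, σ (residue _ (algebraMap S O c)) = Ideal.Quotient.mk _ (algebraMap S O c))
    (hgen : ∀ s : S, ∃ l : ι →₀ S, (∀ j, l j ∈ C) ∧ s - (l.sum fun j c => c * e j) ∈ 𝔔) :
    ∃ D : S → M.Cotangent,
      (∀ a b, D (a + b) = D a + D b) ∧ (∀ a b, D (a * b) = a • D b + b • D a) ∧
      (∀ (f : S) (_ : f ∈ 𝔔) (hf : algebraMap S O f ∈ M), D f = Ideal.toCotangent _ ⟨_, hf⟩) ∧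
      ∃ G : Set M.Cotangent, G.Finite ∧ ∀ s, D s ∈ Submodule.span S G := by
  classical
  let mk2 : O →+* O ⧸ M ^ 2 := Ideal.Quotient.mk (M ^ 2)
  let κ := M.cotangentToQuotientSquare
  have hκ : Function.Injective κ := M.cotangentToQuotientSquare_injective
  have hκx : ∀ x : M, κ (M.toCotangent x) = mk2 x := fun x => rfl
  have hκsmul : ∀ (a : S) (x : M.Cotangent), κ (a • x) = mk2 (algebraMap S O a) * κ x := by
    intro a x
    rw [← algebraMap_smul O a x, map_smul, Algebra.smul_def]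
    rfl
  let δ : S → O ⧸ M ^ 2 := fun s =>
    mk2 (algebraMap S O s) - σ (residue O (algebraMap S O s))
  have hex : ∀ s : S, ∃ x : M, mk2 x = δ s := by
    intro s
    obtain ⟨o, ho⟩ := Ideal.Quotient.mk_surjective (δ s)
    have h1 : σ (residue O (algebraMap S O s)) = mk2 (algebraMap S O s - o) := by
      rw [map_sub, show mk2 o = δ s from ho]
      simp only [δ]
      ring
    have h2 := hσ _ _ h1
    rw [map_sub, sub_eq_self] at h2
    exact ⟨⟨o, hM ▸ (residue_eq_zero_iff o).mp h2⟩, ho⟩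
  choose ξ hξ using hex
  let D : S → M.Cotangent := fun s => M.toCotangent (ξ s)
  have hD : ∀ s, κ (D s) = δ s := fun s => (hκx _).trans (hξ s)
  have hmulzero : ∀ a b : M, mk2 a * mk2 b = 0 := by
    intro a b
    rw [← map_mul]
    refine Ideal.Quotient.eq_zero_iff_mem.mpr ?_
    rw [pow_two]
    exact Ideal.mul_mem_mul a.2 b.2
  have hadd : ∀ a b, D (a + b) = D a + D b := by
    intro a b
    apply hκ
    rw [map_add, hD, hD, hD]
    simp only [δ, map_add]
    ring
  have hmul : ∀ a b, D (a * b) = a • D b + b • D a := by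
    intro a b
    apply hκ
    rw [map_add, hκsmul, hκsmul, hD, hD, hD]
    have h0 := hmulzero (ξ a) (ξ b)
    rw [hξ, hξ] at h0
    simp only [δ, map_mul] at h0 ⊢
    linear_combination -h0
  have hQ : ∀ (f : S) (_ : f ∈ 𝔔) (hf : algebraMap S O f ∈ M), D f = M.toCotangent ⟨_, hf⟩ := by
    intro f hfQ hf
    apply hκ
    rw [hD, hκx]
    simp only [δ]
    rw [(residue_eq_zero_iff (algebraMap S O f)).mpr (hM ▸ hf), map_zero, sub_zero]
  have hQsmul : ∀ (f : S) (_ : f ∈ 𝔔) (x : M.Cotangent), f • x = 0 := by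
    intro f hf x
    have hfM : algebraMap S O f ∈ M := by
      rw [hM]
      exact hloc f hf
    obtain ⟨y, rfl⟩ := M.toCotangent_surjective x
    apply hκ
    rw [hκsmul, hκx, map_zero]
    exact hmulzero ⟨_, hfM⟩ y
  have hC0 : ∀ c ∈ C, D c = 0 := by
    intro c hc
    apply hκ
    rw [hD, map_zero]
    simp only [δ]
    rw [hC c hc]
    exact sub_self _
  obtain ⟨q, hq⟩ := IsNoetherian.noetherian 𝔔
  refine ⟨D, hadd, hmul, hQ, Set.range (fun j => D (e j)) ∪ D '' (q : Set S),
    (Set.finite_range _).union (q.finite_toSet.image _), ?_⟩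
  set N := Submodule.span S (Set.range (fun j => D (e j)) ∪ D '' (q : Set S)) with hN
  have hD0 : D 0 = 0 := by
    have := hadd 0 0
    rw [add_zero] at this
    exact left_eq_add.mp this
  have hNQ : ∀ f ∈ 𝔔, D f ∈ N := by
    intro f hf
    rw [← hq] at hf
    refine Submodule.span_induction (p := fun f _ => D f ∈ N) ?_ ?_ ?_ ?_ hf
    · intro x hx
      exact Submodule.subset_span (Or.inr ⟨x, hx, rfl⟩)
    · rw [hD0]
      exact N.zero_mem
    · intro x y _ _ hx hy
      rw [hadd]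
      exact N.add_mem hx hy
    · intro a x hx' hx
      rw [smul_eq_mul, hmul, hQsmul x (by rw [← hq]; exact hx'), add_zero]
      exact N.smul_mem _ hx
  intro s
  obtain ⟨l, hl, hs⟩ := hgen s
  have e1 : s = (l.sum fun j c => c * e j) + (s - (l.sum fun j c => c * e j)) := by ring
  rw [e1, hadd]
  refine N.add_mem ?_ (hNQ _ hs)
  have hsum : ∀ (T : Finset ι), D (∑ j ∈ T, l j * e j) ∈ N := by
    intro T
    induction T using Finset.induction_on with
    | empty => rw [Finset.sum_empty, hD0]; exact N.zero_mem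
    | insert j T hj ih =>
      rw [Finset.sum_insert hj, hadd]
      refine N.add_mem ?_ ih
      rw [hmul, hC0 _ (hl j), smul_zero, add_zero]
      exact N.smul_mem _ (Submodule.subset_span (Or.inl ⟨j, rfl⟩))
  exact hsum l.support

/-- A section of `O / M² → O / M` (`O = S_𝔔`) which is the identity on a set `C` of constants
over which `S / 𝔔` is finite gives a bounded derivation. -/
theorem bddDer_of_section {S : Type} [CommRing S] [IsNoetherianRing S] (𝔔 : Ideal S) [𝔔.IsPrime]
    (σ : ResidueField (Localization.AtPrime 𝔔) →+*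
      Localization.AtPrime 𝔔 ⧸ maximalIdeal (Localization.AtPrime 𝔔) ^ 2)
    (hσ : ∀ (x : ResidueField (Localization.AtPrime 𝔔)) (o : Localization.AtPrime 𝔔),
      σ x = Ideal.Quotient.mk _ o → residue _ o = x)
    {ι : Type} (hι : Finite ι) (e : ι → S) (C : Set S)
    (hC : ∀ c ∈ C, σ (residue _ (algebraMap S (Localization.AtPrime 𝔔) c)) =
      Ideal.Quotient.mk _ (algebraMap S (Localization.AtPrime 𝔔) c))
    (hgen : ∀ s : S, ∃ l : ι →₀ S, (∀ j, l j ∈ C) ∧ s - (l.sum fun j c => c * e j) ∈ 𝔔) :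
    BddDer S 𝔔 :=
  bddDer_aux 𝔔 (fun f hf =>
    (IsLocalization.AtPrime.to_map_mem_maximal_iff (Localization.AtPrime 𝔔) 𝔔 f).mpr hf)
    _ rfl σ hσ hι e C hC hgen

theorem bddDer_charZero (Λ S : Type) [CommRing Λ] [IsDomain Λ] [CharZero Λ] [CommRing S]
    [IsNoetherianRing S] (𝔔 : Ideal S) [𝔔.IsPrime] (i : Λ →+* S)
    (hinj : Function.Injective ((Ideal.Quotient.mk 𝔔).comp i))
    (hfin : ((Ideal.Quotient.mk 𝔔).comp i).Finite) : BddDer S 𝔔 := by
  classical
  let O := Localization.AtPrime 𝔔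
  let M := maximalIdeal O
  let F := FractionRing Λ
  let mk2 : O →+* O ⧸ M ^ 2 := Ideal.Quotient.mk (M ^ 2)
  let g : O ⧸ M ^ 2 →+* ResidueField O :=
    Ideal.Quotient.lift (M ^ 2) (residue O) (fun a ha =>
      (residue_eq_zero_iff a).mpr (Ideal.pow_le_self two_ne_zero ha))
  have hg : ∀ o, g (mk2 o) = residue O o := fun o => Ideal.Quotient.lift_mk _ _ _
  -- the structure map of the fraction field
  let t : Λ →+* O ⧸ M ^ 2 := mk2.comp ((algebraMap S O).comp i)
  have ht : ∀ x : Λ, x ≠ 0 → IsUnit (t x) := by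
    intro x hx
    refine RingHom.isUnit_map mk2 ?_
    have h1 : i x ∉ 𝔔 := by
      intro h
      apply hx
      apply hinj
      rw [map_zero]
      exact Ideal.Quotient.eq_zero_iff_mem.mpr h
    exact IsLocalization.map_units O (⟨i x, h1⟩ : 𝔔.primeCompl)
  let τ : F →+* O ⧸ M ^ 2 := IsLocalization.lift (M := nonZeroDivisors Λ) (g := t)
    (fun y => ht y (nonZeroDivisors.ne_zero y.2))
  have hτ : ∀ x : Λ, τ (algebraMap Λ F x) = t x := fun x => IsLocalization.lift_eq _ x
  let _ : Algebra F (O ⧸ M ^ 2) := τ.toAlgebra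
  let _ : Algebra F (ResidueField O) := (g.comp τ).toAlgebra
  have : CharZero F := charZero_of_injective_algebraMap (IsFractionRing.injective Λ F)
  -- the residue field is algebraic over `F`
  have hbase : ∀ c : Λ, algebraMap F (ResidueField O) (algebraMap Λ F c) =
      residue O (algebraMap S O (i c)) := fun c => by
    show g (τ (algebraMap Λ F c)) = _
    rw [hτ]
    exact hg _
  have hint : ∀ s : S, IsIntegral F (residue O (algebraMap S O s)) := by
    intro s
    obtain ⟨p, hp, hp0⟩ := hfin.to_isIntegral (Ideal.Quotient.mk 𝔔 s)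
    let ρ : S ⧸ 𝔔 →+* ResidueField O :=
      Ideal.Quotient.lift 𝔔 ((residue O).comp (algebraMap S O)) (fun a ha =>
        (residue_eq_zero_iff _).mpr
          ((IsLocalization.AtPrime.to_map_mem_maximal_iff O 𝔔 a).mpr ha))
    have hρ : ∀ a, ρ (Ideal.Quotient.mk 𝔔 a) = residue O (algebraMap S O a) :=
      fun a => Ideal.Quotient.lift_mk _ _ _
    refine ⟨p.map (algebraMap Λ F), hp.map _, ?_⟩
    rw [Polynomial.eval₂_map]
    have h1 : (algebraMap F (ResidueField O)).comp (algebraMap Λ F) =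
        ρ.comp ((Ideal.Quotient.mk 𝔔).comp i) := by
      ext c
      exact (hbase c).trans (hρ (i c)).symm
    rw [h1, ← hρ, ← Polynomial.hom_eval₂, hp0, map_zero]
  have : Algebra.IsAlgebraic F (ResidueField O) := by
    refine ⟨fun x => ?_⟩
    obtain ⟨o, rfl⟩ := residue_surjective x
    obtain ⟨⟨a, b⟩, h⟩ := IsLocalization.surj 𝔔.primeCompl o
    have hb : residue O (algebraMap S O b) ≠ 0 := by
      intro h0
      have h1 : IsUnit (algebraMap S O b) := IsLocalization.map_units O b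
      exact (residue_ne_zero_iff_isUnit _).mpr h1 h0
    have h2 : residue O o = residue O (algebraMap S O a) * (residue O (algebraMap S O b))⁻¹ := by
      rw [eq_mul_inv_iff_mul_eq₀ hb, ← map_mul]
      exact congrArg _ h
    rw [h2]
    exact ((hint a).mul (hint b).inv).isAlgebraic
  have : Algebra.IsSeparable F (ResidueField O) := inferInstance
  have : Algebra.FormallyEtale F (ResidueField O) := Algebra.FormallyEtale.of_isSeparable F _
  let gA : (O ⧸ M ^ 2) →ₐ[F] ResidueField O := { g with commutes' := fun _ => rfl }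
  have hgsurj : Function.Surjective gA := by
    intro x
    obtain ⟨o, rfl⟩ := residue_surjective x
    exact ⟨mk2 o, hg o⟩
  have hnil : IsNilpotent (RingHom.ker (gA : O ⧸ M ^ 2 →+* ResidueField O)) := by
    refine ⟨2, ?_⟩
    rw [Ideal.zero_eq_bot, eq_bot_iff, pow_two (RingHom.ker (gA : O ⧸ M ^ 2 →+* ResidueField O)),
      Ideal.mul_le]
    intro a ha b hb
    obtain ⟨a, rfl⟩ := Ideal.Quotient.mk_surjective a
    obtain ⟨b, rfl⟩ := Ideal.Quotient.mk_surjective b
    have ha' : a ∈ M := (residue_eq_zero_iff a).mp ((hg a).symm.trans ha)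
    have hb' : b ∈ M := (residue_eq_zero_iff b).mp ((hg b).symm.trans hb)
    rw [← map_mul, Ideal.mem_bot]
    refine Ideal.Quotient.eq_zero_iff_mem.mpr ?_
    rw [pow_two]
    exact Ideal.mul_mem_mul ha' hb'
  let σ : ResidueField O →ₐ[F] O ⧸ M ^ 2 :=
    Algebra.FormallySmooth.liftOfSurjective (AlgHom.id F _) gA hgsurj hnil
  have hσ : ∀ x, gA (σ x) = x := fun x =>
    Algebra.FormallySmooth.liftOfSurjective_apply _ _ _ _ x
  obtain ⟨G, hG⟩ : ∃ G : Finset (S ⧸ 𝔔), ∀ z : S ⧸ 𝔔, ∃ l : G → Λ,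
      z = ∑ j, Ideal.Quotient.mk 𝔔 (i (l j)) * j := by
    let _ : Algebra Λ (S ⧸ 𝔔) := ((Ideal.Quotient.mk 𝔔).comp i).toAlgebra
    have hF : Module.Finite Λ (S ⧸ 𝔔) := hfin
    obtain ⟨G, hG⟩ := hF.fg_top
    refine ⟨G, fun z => ?_⟩
    have hz : z ∈ Submodule.span Λ (G : Set (S ⧸ 𝔔)) := by rw [hG]; trivial
    rw [Submodule.mem_span_finset'] at hz
    obtain ⟨l, hl⟩ := hz
    refine ⟨l, hl.symm.trans (Finset.sum_congr rfl fun j _ => ?_)⟩
    rw [Algebra.smul_def]
    rfl
  choose e he using fun j : G => Ideal.Quotient.mk_surjective (j : S ⧸ 𝔔)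
  refine bddDer_of_section 𝔔 σ.toRingHom ?_ (ι := G) inferInstance e (Set.range i) ?_ ?_
  · intro x o h
    have h1 := hσ x
    have h2 : σ x = mk2 o := h
    rw [h2] at h1
    exact (hg o).symm.trans h1
  · rintro _ ⟨c, rfl⟩
    rw [← hbase c]
    exact (σ.commutes (algebraMap Λ F c)).trans (hτ c)
  · intro s
    obtain ⟨l, hl⟩ := hG (Ideal.Quotient.mk 𝔔 s)
    refine ⟨Finsupp.equivFunOnFinite.symm (fun j => i (l j)), fun j => ⟨l j, rfl⟩, ?_⟩
    rw [Finsupp.sum_fintype _ _ (fun j => zero_mul _), ← Ideal.Quotient.eq, hl, map_sum]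
    refine Finset.sum_congr rfl fun j _ => ?_
    rw [map_mul, he]
    rfl

end Pool.Agent.Lib.MP_3029eb_ag
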