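import Pool.Agent.Lib.MP_3029eb_ag.BDPb
import Pool.Agent.Lib.MP_3029eb_ag.BDAssemble

open IsLocalRing

namespace Pool.Agent.Lib.MP_3029eb_ag

theorem BDP_spanning {Λ S : Type} [CommRing Λ] [IsDomain Λ] [CommRing S] (𝔔 : Ideal S)
    [𝔔.IsPrime] (i : Λ →+* S)
    (hinj : Function.Injective ((Ideal.Quotient.mk 𝔔).comp i))
    (hfin : ((Ideal.Quotient.mk 𝔔).comp i).Finite) :
    ∃ (m : ℕ) (t : Fin m → 𝔔.ResidueField), ∀ w : 𝔔.ResidueField, ∃ (c : Fin m → Λ) (d : Λ),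
      d ≠ 0 ∧ algebraMap S 𝔔.ResidueField (i d) * w =
        ∑ k, algebraMap S 𝔔.ResidueField (i (c k)) * t k := by
  classical
  let _ : Algebra Λ (S ⧸ 𝔔) := ((Ideal.Quotient.mk 𝔔).comp i).toAlgebra
  have hmap : ∀ c : Λ, algebraMap Λ (S ⧸ 𝔔) c = Ideal.Quotient.mk 𝔔 (i c) := fun _ => rfl
  have hfin' : Module.Finite Λ (S ⧸ 𝔔) := hfin
  have hint : Algebra.IsIntegral Λ (S ⧸ 𝔔) := inferInstance
  have hfaith : FaithfulSMul Λ (S ⧸ 𝔔) := (faithfulSMul_iff_algebraMap_injective _ _).2 hinj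
  have halg : Algebra.IsAlgebraic Λ (S ⧸ 𝔔) := hint.isAlgebraic
  obtain ⟨m, g, hg⟩ := Module.Finite.exists_fin (R := Λ) (M := S ⧸ 𝔔)
  refine ⟨m, fun k => algebraMap (S ⧸ 𝔔) 𝔔.ResidueField (g k), fun w => ?_⟩
  obtain ⟨a, b, hb, rfl⟩ := IsFractionRing.div_surjective (A := S ⧸ 𝔔) w
  have hb0 : b ≠ 0 := nonZeroDivisors.ne_zero hb
  obtain ⟨e, d, hd, he⟩ := Algebra.IsAlgebraic.exists_smul_eq_mul Λ (1 : S ⧸ 𝔔) hb0
  obtain ⟨c, hc⟩ := (Submodule.mem_span_range_iff_exists_fun Λ).1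
      (show a * e ∈ Submodule.span Λ (Set.range g) by
        rw [hg]; exact Submodule.mem_top)
  have hb1 : algebraMap (S ⧸ 𝔔) 𝔔.ResidueField b ≠ 0 := by
    intro h
    exact hb0 (𝔔.injective_algebraMap_quotient_residueField (by rw [h, map_zero]))
  refine ⟨c, d, hd, ?_⟩
  have h1 : Ideal.Quotient.mk 𝔔 (i d) = b * e := by
    rw [← hmap, ← he, Algebra.smul_def, mul_one]
  have h2 : algebraMap S 𝔔.ResidueField (i d) =
      algebraMap (S ⧸ 𝔔) 𝔔.ResidueField b * algebraMap (S ⧸ 𝔔) 𝔔.ResidueField e := by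
    rw [← Ideal.algebraMap_quotient_residueField_mk, h1, map_mul]
  have h3 : ∑ k, algebraMap S 𝔔.ResidueField (i (c k)) *
      algebraMap (S ⧸ 𝔔) 𝔔.ResidueField (g k) = algebraMap (S ⧸ 𝔔) 𝔔.ResidueField (a * e) := by
    rw [← hc, map_sum]
    refine Finset.sum_congr rfl fun k _ => ?_
    rw [Algebra.smul_def, map_mul, hmap, Ideal.algebraMap_quotient_residueField_mk]
  rw [h3, h2, map_mul]
  field_simp

theorem bddDer_charP (p : ℕ) [Fact p.Prime] (Λ S : Type) [CommRing Λ] [IsDomain Λ] [CharP Λ p]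
    (hgood : Good p Λ) [CommRing S] [IsNoetherianRing S] (𝔔 : Ideal S) [𝔔.IsPrime] (i : Λ →+* S)
    (hinj : Function.Injective ((Ideal.Quotient.mk 𝔔).comp i))
    (hfin : ((Ideal.Quotient.mk 𝔔).comp i).Finite) : BddDer S 𝔔 := by
  classical
  have hρj : ∀ x : Λ, BD_rho (Localization.AtPrime 𝔔)
      (Ideal.Quotient.mk _ (algebraMap S (Localization.AtPrime 𝔔) (i x))) =
        algebraMap S 𝔔.ResidueField (i x) := by
    intro x
    rw [BD_rho_mk, IsScalarTower.algebraMap_apply S (Localization.AtPrime 𝔔) 𝔔.ResidueField]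
    rfl
  obtain ⟨F0, hF0, σ, hσ, hσi⟩ := BDP_section p hgood (BD_rho (Localization.AtPrime 𝔔))
    (BD_rho_surjective _) (BD_rho_ker _)
    (((Ideal.Quotient.mk (maximalIdeal (Localization.AtPrime 𝔔) ^ 2)).comp
      (algebraMap S (Localization.AtPrime 𝔔))).comp i) (by
        intro x y hxy
        have hxy' : algebraMap S 𝔔.ResidueField (i x) = algebraMap S 𝔔.ResidueField (i y) := by
          rw [← hρj, ← hρj]
          exact hxy
        apply hinj
        apply 𝔔.injective_algebraMap_quotient_residueField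
        rw [RingHom.comp_apply, RingHom.comp_apply, Ideal.algebraMap_quotient_residueField_mk,
          Ideal.algebraMap_quotient_residueField_mk]
        exact hxy') (by
        obtain ⟨m, t, ht⟩ := BDP_spanning 𝔔 i hinj hfin
        refine ⟨m, t, fun w => ?_⟩
        obtain ⟨c, d, hd, h⟩ := ht w
        refine ⟨c, d, hd, ?_⟩
        simp only [RingHom.comp_apply, hρj]
        exact h)
  have hF0' : F0.subtype.Finite := hF0
  refine BD_assemble 𝔔 σ hσ (i.comp F0.subtype) ?_ ?_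
  · rw [← RingHom.comp_assoc]
    exact hfin.comp hF0'
  · intro c
    have h := hσi c c.2
    simp only [RingHom.comp_apply, BD_rho_mk] at h
    exact h

end Pool.Agent.Lib.MP_3029eb_ag
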