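import Mathlib

set_option autoImplicit false

/-! # Module FS: formal smoothness of arbitrary extensions of perfect fields -/

namespace Pool.Agent.Lib.MP_3029eb_ag

open MvPolynomial KaehlerDifferential

/-- the canonical presentation of a field as an algebra over a subfield -/
noncomputable abbrev fsEv (K0 L : Type) [Field K0] [Field L] [Algebra K0 L] :
    MvPolynomial L K0 →ₐ[K0] L := MvPolynomial.aeval (id : L → L)

lemma fs_key (K0 L : Type) [Field K0] [Field L] [Algebra K0 L] :
    Subsingleton (Algebra.H1Cotangent K0 L) ↔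
      ∀ f : MvPolynomial L K0, fsEv K0 L f = 0 → (∀ i, fsEv K0 L (pderiv i f) = 0) →
        f ∈ (RingHom.ker (fsEv K0 L).toRingHom) ^ 2 := by
  let _ : Algebra (MvPolynomial L K0) L := (fsEv K0 L).toRingHom.toAlgebra
  have hmap : ∀ x : MvPolynomial L K0, algebraMap (MvPolynomial L K0) L x = fsEv K0 L x :=
    fun _ => rfl
  have : IsScalarTower K0 (MvPolynomial L K0) L := IsScalarTower.of_algebraMap_eq (by
    intro x
    rw [hmap, MvPolynomial.algebraMap_eq, fsEv, MvPolynomial.aeval_C])
  have hsurj : Function.Surjective (algebraMap (MvPolynomial L K0) L) := by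
    intro x
    exact ⟨X x, by rw [hmap]; simp [fsEv]⟩
  rw [← Algebra.FormallySmooth.kerCotangentToTensor_injective_iff (P := MvPolynomial L K0) hsurj,
    injective_iff_map_eq_zero]
  have hzero : ∀ x : MvPolynomial L K0,
      (1 : L) ⊗ₜ[MvPolynomial L K0] (D K0 (MvPolynomial L K0) x) = 0 ↔
        ∀ i, fsEv K0 L (pderiv i x) = 0 := by
    intro x
    set b := (mvPolynomialBasis K0 L).baseChange L with hb
    rw [← b.repr.map_eq_zero_iff, Finsupp.ext_iff]
    refine forall_congr' fun i => ?_
    rw [hb, Module.Basis.baseChange_repr_tmul, mvPolynomialBasis_repr_apply, Finsupp.coe_zero,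
      Pi.zero_apply, Algebra.smul_def, hmap, mul_one]
  constructor
  · intro h f hf hd
    have := h (Ideal.toCotangent _ (⟨f, hf⟩ : RingHom.ker (algebraMap (MvPolynomial L K0) L)))
      (by rw [kerCotangentToTensor_toCotangent]; exact (hzero f).2 hd)
    rw [Ideal.toCotangent_eq_zero] at this
    exact this
  · intro h x hx
    obtain ⟨⟨f, hf⟩, rfl⟩ := Ideal.toCotangent_surjective _ x
    rw [kerCotangentToTensor_toCotangent] at hx
    rw [Ideal.toCotangent_eq_zero]
    exact h f hf ((hzero f).1 hx)

theorem formallySmooth_of_perfectField (K0 k : Type) [Field K0] [PerfectField K0] [Field k]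
    [Algebra K0 k] : Algebra.FormallySmooth K0 k := by
  refine ⟨inferInstance, (fs_key K0 k).2 ?_⟩
  intro f hf hd
  set k0 := IntermediateField.adjoin K0 ((f.vars : Finset k) : Set k) with hk0
  have : Algebra.EssFiniteType K0 k0 :=
    IntermediateField.essFiniteType_iff.2 (IntermediateField.fg_adjoin_finset _)
  have hsm : Algebra.FormallySmooth K0 k0 := inferInstance
  have h0 := (fs_key K0 k0).1 hsm.subsingleton_h1Cotangent
  obtain ⟨f0, hf0⟩ := exists_rename_eq_of_vars_subset_range f (Subtype.val : k0 → k)
    Subtype.val_injective (by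
      intro x hx
      rw [Subtype.range_coe]
      exact IntermediateField.subset_adjoin K0 _ hx)
  have hev : ∀ g : MvPolynomial k0 K0, fsEv K0 k (rename Subtype.val g) = (fsEv K0 k0 g : k) := by
    intro g
    have h5 : (fsEv K0 k).comp (rename (R := K0) (Subtype.val : k0 → k)) =
        (k0.val : k0 →ₐ[K0] k).comp (fsEv K0 k0) := by
      apply MvPolynomial.algHom_ext
      intro i
      simp [fsEv]
    exact DFunLike.congr_fun h5 g
  have hmem := h0 f0 (by
      have := hev f0
      rw [hf0, hf] at this
      exact_mod_cast this.symm) (by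
      intro i
      have h1 := hd i
      rw [← hf0, pderiv_rename Subtype.val_injective, hev] at h1
      exact_mod_cast h1)
  have h2 := Ideal.mem_map_of_mem (rename (R := K0) (Subtype.val : k0 → k)).toRingHom hmem
  rw [Ideal.map_pow] at h2
  have h3 : (Ideal.map (rename (R := K0) (Subtype.val : k0 → k)).toRingHom
      (RingHom.ker (fsEv K0 k0).toRingHom)) ≤ RingHom.ker (fsEv K0 k).toRingHom := by
    rw [Ideal.map_le_iff_le_comap]
    intro g hg
    rw [Ideal.mem_comap, RingHom.mem_ker]
    have hg' : fsEv K0 k0 g = 0 := hg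
    change fsEv K0 k (rename Subtype.val g) = 0
    rw [hev, hg']
    rfl
  have h4 := Ideal.pow_right_mono h3 2 h2
  rw [← hf0]
  exact h4

end Pool.Agent.Lib.MP_3029eb_ag
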