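import Mathlib
import Pool.Agent.Lib.MP_3029eb_ag.FS

set_option autoImplicit false

/-! # Module CL: coefficient fields and coefficient maps -/

namespace Pool.Agent.Lib.MP_3029eb_ag

open IsLocalRing

theorem exists_coefficient_field (K0 : Type) [Field K0] [PerfectField K0] (T : Type) [CommRing T]
    [IsLocalRing T] [IsAdicComplete (maximalIdeal T) T] [Algebra K0 T] :
    ∃ g : ResidueField T →+* T, (residue T).comp g = RingHom.id _ := by
  have hfs : Algebra.FormallySmooth K0 (ResidueField T) :=
    formallySmooth_of_perfectField K0 (ResidueField T)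
  let f : ResidueField T →ₐ[K0] T ⧸ maximalIdeal T :=
    { toRingHom := RingHom.id (ResidueField T)
      commutes' := fun r => rfl }
  obtain ⟨g, hg⟩ := Algebra.FormallySmooth.exists_mkₐ_comp_eq_of_isAdicComplete f
  refine ⟨g.toRingHom, ?_⟩
  ext x
  exact DFunLike.congr_fun hg x

/-- the infinitesimal lifting step -/
lemma cl_step (p : ℕ) [Fact p.Prime] (C : Type) [CommRing C] [IsDomain C]
    [IsDiscreteValuationRing C] [CharZero C]
    (hC : maximalIdeal C = Ideal.span {(p : C)}) (R R' : Type) [CommRing R] [CommRing R']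
    (π : R' →+* R) (hπ : Function.Surjective π)
    (hJ2 : ∀ a b : R', π a = 0 → π b = 0 → a * b = 0) (hpJ : ∀ a : R', π a = 0 → (p : R') * a = 0)
    (f : C →+* R) : ∃ f' : C →+* R', π.comp f' = f := by
  classical
  have hp0 : (p : C) ≠ 0 := by
    exact_mod_cast (Fact.out : p.Prime).ne_zero
  let E : Subring (C × R') := RingHom.eqLocus (f.comp (RingHom.fst C R')) (π.comp (RingHom.snd C R'))
  have hE : ∀ x : C × R', x ∈ E ↔ f x.1 = π x.2 := fun x => Iff.rfl
  let φ : E →+* C := (RingHom.fst C R').comp E.subtype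
  let ρ : E →+* R' := (RingHom.snd C R').comp E.subtype
  have hφρ : ∀ e : E, f (φ e) = π (ρ e) := fun e => (hE e.1).1 e.2
  let I : Ideal E := Ideal.span {(p : E)}
  let Q := E ⧸ I
  let ψ0 : E →+* ResidueField C := (residue C).comp φ
  have hres : (residue C) (p : C) = 0 := by
    rw [residue_eq_zero_iff, hC]
    exact Ideal.mem_span_singleton_self _
  have hI : ∀ a ∈ I, ψ0 a = 0 := by
    intro a ha
    obtain ⟨b, rfl⟩ := Ideal.mem_span_singleton'.1 ha
    have : ψ0 (p : E) = 0 := by
      rw [map_natCast, ← map_natCast (residue C) p]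
      exact hres
    rw [map_mul, this, mul_zero]
  let ψ : Q →+* ResidueField C := Ideal.Quotient.lift I ψ0 hI
  have hφs : Function.Surjective φ := by
    intro c
    obtain ⟨r, hr⟩ := hπ (f c)
    exact ⟨⟨(c, r), (hE _).2 hr.symm⟩, rfl⟩
  have hψs : Function.Surjective ψ := by
    intro y
    obtain ⟨c, rfl⟩ := residue_surjective y
    obtain ⟨e, rfl⟩ := hφs c
    exact ⟨Ideal.Quotient.mk I e, rfl⟩
  -- elements of the kernel are classes of (0, j)
  have hker : ∀ y : Q, ψ y = 0 → ∃ j : E, φ j = 0 ∧ Ideal.Quotient.mk I j = y := by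
    intro y hy
    obtain ⟨e, rfl⟩ := Ideal.Quotient.mk_surjective y
    have h1 : residue C (φ e) = 0 := hy
    rw [residue_eq_zero_iff, hC] at h1
    obtain ⟨c, hc⟩ := Ideal.mem_span_singleton'.1 h1
    obtain ⟨d, hd⟩ := hφs c
    refine ⟨e - d * (p : E), ?_, ?_⟩
    · rw [map_sub, map_mul, map_natCast, hd, hc, sub_self]
    · rw [map_sub, sub_eq_self, Ideal.Quotient.eq_zero_iff_mem]
      exact Ideal.mem_span_singleton'.2 ⟨d, rfl⟩
  have hj : ∀ j : E, φ j = 0 → π (ρ j) = 0 := by
    intro j hj0
    rw [← hφρ, hj0, map_zero]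
  have hinj : ∀ j : E, φ j = 0 → Ideal.Quotient.mk I j = 0 → j = 0 := by
    intro j hj0 hjI
    rw [Ideal.Quotient.eq_zero_iff_mem] at hjI
    obtain ⟨b, hb⟩ := Ideal.mem_span_singleton'.1 hjI
    have h1 : φ b = 0 := by
      have : φ b * (p : C) = 0 := by
        rw [← hj0, ← hb, map_mul, map_natCast]
      rcases mul_eq_zero.1 this with h | h
      · exact h
      · exact absurd h hp0
    have h2 : ρ j = 0 := by
      rw [← hb, map_mul, map_natCast, mul_comm]
      exact hpJ _ (hj b h1)
    exact Subtype.ext (Prod.ext hj0 h2)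
  have hnil : IsNilpotent (RingHom.ker ψ) := by
    have h2 : RingHom.ker ψ ^ 2 = RingHom.ker ψ * RingHom.ker ψ := by
      rw [Submodule.pow_succ, Submodule.pow_one]
    refine ⟨2, h2.trans ?_⟩
    refine eq_bot_iff.2 (Ideal.mul_le.2 ?_)
    intro a ha b hb
    obtain ⟨j, hj0, rfl⟩ := hker a ha
    obtain ⟨j', hj0', rfl⟩ := hker b hb
    rw [← map_mul]
    have : j * j' = 0 := by
      refine Subtype.ext (Prod.ext ?_ ?_)
      · change φ (j * j') = 0
        rw [map_mul, hj0, zero_mul]
      · change ρ (j * j') = 0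
        rw [map_mul]
        exact hJ2 _ _ (hj j hj0) (hj j' hj0')
    rw [this, map_zero]
    exact Submodule.zero_mem _
  have hpQ : (p : Q) = 0 := by
    rw [← map_natCast (Ideal.Quotient.mk I) p, Ideal.Quotient.eq_zero_iff_mem]
    exact Ideal.mem_span_singleton_self _
  have hpk : (p : ResidueField C) = 0 := by
    rw [← map_natCast (residue C) p]
    exact hres
  have hntQ : Nontrivial Q := ψ.domain_nontrivial
  have hcQ : CharP Q p := (CharP.charP_iff_prime_eq_zero Fact.out).2 hpQ
  have hck : CharP (ResidueField C) p := (CharP.charP_iff_prime_eq_zero Fact.out).2 hpk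
  let _ : Algebra (ZMod p) Q := ZMod.algebra Q p
  let _ : Algebra (ZMod p) (ResidueField C) := ZMod.algebra (ResidueField C) p
  have hfs : Algebra.FormallySmooth (ZMod p) (ResidueField C) :=
    formallySmooth_of_perfectField (ZMod p) (ResidueField C)
  let ψa : Q →ₐ[ZMod p] ResidueField C :=
    { toRingHom := ψ
      commutes' := fun r => by
        have : ψ.comp (algebraMap (ZMod p) Q) = algebraMap (ZMod p) (ResidueField C) :=
          Subsingleton.elim _ _
        exact DFunLike.congr_fun this r }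
  let s : ResidueField C →ₐ[ZMod p] Q :=
    Algebra.FormallySmooth.liftOfSurjective (AlgHom.id (ZMod p) (ResidueField C)) ψa hψs hnil
  have hs : ∀ x, ψ (s x) = x := fun x =>
    Algebra.FormallySmooth.liftOfSurjective_apply (AlgHom.id (ZMod p) (ResidueField C)) ψa hψs hnil x
  -- for each c there is a unique e with φ e = c and class of e equal to s (residue c)
  have hex : ∀ c : C, ∃ e : E, φ e = c ∧ Ideal.Quotient.mk I e = s (residue C c) := by
    intro c
    obtain ⟨e, he⟩ := hφs c
    have h1 : ψ (Ideal.Quotient.mk I e - s (residue C c)) = 0 := by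
      rw [map_sub, hs, sub_eq_zero]
      change residue C (φ e) = _
      rw [he]
    obtain ⟨j, hj0, hj1⟩ := hker _ h1
    refine ⟨e - j, ?_, ?_⟩
    · rw [map_sub, hj0, sub_zero, he]
    · rw [map_sub, hj1, sub_sub_cancel]
  have huniq : ∀ e e' : E, φ e = φ e' → Ideal.Quotient.mk I e = Ideal.Quotient.mk I e' → e = e' := by
    intro e e' h1 h2
    rw [← sub_eq_zero]
    refine hinj _ ?_ ?_
    · rw [map_sub, h1, sub_self]
    · rw [map_sub, h2, sub_self]
  choose g hg1 hg2 using hex
  let G : C →+* E :=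
    { toFun := g
      map_one' := huniq _ _ (by rw [hg1, map_one]) (by rw [hg2, map_one, map_one, map_one])
      map_zero' := huniq _ _ (by rw [hg1, map_zero]) (by rw [hg2, map_zero, map_zero, map_zero])
      map_mul' := fun x y => huniq _ _ (by rw [hg1, map_mul, hg1, hg1])
        (by rw [hg2, map_mul, map_mul, map_mul, hg2, hg2])
      map_add' := fun x y => huniq _ _ (by rw [hg1, map_add, hg1, hg1])
        (by rw [hg2, map_add, map_add, map_add, hg2, hg2]) }
  refine ⟨ρ.comp G, ?_⟩
  ext c
  change π (ρ (g c)) = f c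
  rw [← hφρ, hg1]

theorem exists_coefficient_map (p : ℕ) [Fact p.Prime] (T : Type) [CommRing T]
    [IsLocalRing T] [IsAdicComplete (maximalIdeal T) T] (hp : (p : T) ∈ maximalIdeal T)
    (C : Type) [CommRing C] [IsDomain C] [IsDiscreteValuationRing C] [CharZero C]
    (hC : maximalIdeal C = Ideal.span {(p : C)}) (q : C →+* ResidueField T) :
    ∃ g : C →+* T, (residue T).comp g = q := by
  classical
  set M := maximalIdeal T with hM
  have hstep : ∀ (n : ℕ) (f : C →+* T ⧸ M ^ (n + 1)), ∃ f' : C →+* T ⧸ M ^ (n + 2),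
      (Ideal.Quotient.factorPow M (Nat.le_succ (n + 1))).comp f' = f := by
    intro n f
    have hk : ∀ a : T, Ideal.Quotient.factorPow M (Nat.le_succ (n + 1))
        (Ideal.Quotient.mk (M ^ (n + 2)) a) = 0 → a ∈ M ^ (n + 1) := by
      intro a ha
      exact Ideal.Quotient.eq_zero_iff_mem.1 ha
    refine cl_step p C hC _ _ _ ?_ ?_ ?_ f
    · intro y
      obtain ⟨a, rfl⟩ := Ideal.Quotient.mk_surjective y
      exact ⟨Ideal.Quotient.mk _ a, rfl⟩
    · intro a b ha hb
      obtain ⟨a, rfl⟩ := Ideal.Quotient.mk_surjective a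
      obtain ⟨b, rfl⟩ := Ideal.Quotient.mk_surjective b
      rw [← map_mul, Ideal.Quotient.eq_zero_iff_mem]
      have := Ideal.mul_mem_mul (hk a ha) (hk b hb)
      rw [← pow_add] at this
      exact Ideal.pow_le_pow_right (by omega) this
    · intro a ha
      obtain ⟨a, rfl⟩ := Ideal.Quotient.mk_surjective a
      rw [← map_natCast (Ideal.Quotient.mk (M ^ (n + 2))) p, ← map_mul,
        Ideal.Quotient.eq_zero_iff_mem]
      have := Ideal.mul_mem_mul hp (hk a ha)
      rw [← pow_succ'] at this
      exact this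
  choose S hS using hstep
  let q0 : C →+* T ⧸ M ^ (0 + 1) :=
    (Ideal.quotEquivOfEq (show M = M ^ (0 + 1) by rw [zero_add, pow_one])).toRingHom.comp q
  let F : (n : ℕ) → (C →+* T ⧸ M ^ (n + 1)) := fun n => Nat.rec q0 (fun n f => S n f) n
  have hF : ∀ n, (Ideal.Quotient.factorPow M (Nat.le_succ (n + 1))).comp (F (n + 1)) = F n := by
    intro n
    exact hS n (F n)
  have ha : StrictMono (fun n : ℕ => n + 1) := fun a b h => Nat.succ_lt_succ h
  refine ⟨IsAdicComplete.StrictMono.liftRingHom M ha F (fun {m} => hF m), ?_⟩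
  ext c
  have h0 := IsAdicComplete.StrictMono.mk_liftRingHom M ha F (fun {m} => hF m) (n := 0) c
  obtain ⟨b, hb⟩ := residue_surjective (q c)
  have h1 : F 0 c = Ideal.Quotient.mk (M ^ (0 + 1)) b := by
    change (Ideal.quotEquivOfEq (show M = M ^ (0 + 1) by rw [zero_add, pow_one])) (q c) = _
    rw [← hb]
    rfl
  rw [h1, Ideal.Quotient.eq, zero_add, pow_one] at h0
  rw [← hb]
  exact Ideal.Quotient.eq.2 h0

end Pool.Agent.Lib.MP_3029eb_ag
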