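import Mathlib

/-!
# Existence of Cohen rings (module CR)

For every field `k` of characteristic `p` there is a complete discrete valuation ring of
characteristic zero with maximal ideal `(p)` and residue field `k`.  Proof: Zorn's lemma in a
valuation ring of an algebraically closed field whose residue field contains `k`, then completion.
-/

set_option autoImplicit false

open IsLocalRing Polynomial

namespace Pool.Agent.Lib.MP_3029eb_ag.CR

/-- roots of monic polynomials in a valuation ring of an algebraically closed field -/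
theorem root_of_monic {L : Type} [Field L] [IsAlgClosed L] (V : ValuationSubring L) :
    ∀ (n : ℕ) (f : V[X]), f.natDegree = n → f.Monic → ∀ c : V, residue V (f.eval c) = 0 →
      ∃ r : V, f.eval r = 0 ∧ residue V r = residue V c := by
  intro n
  induction n with
  | zero =>
    intro f hn hf c hc
    have : f = 1 := Polynomial.eq_one_of_monic_natDegree_zero hf hn
    rw [this] at hc
    simp at hc
  | succ n ih =>
    intro f hn hf c hc
    have hd : (f.map (algebraMap V L)).degree ≠ 0 := by
      rw [hf.degree_map, Polynomial.degree_eq_natDegree hf.ne_zero, hn]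
      exact_mod_cast Nat.succ_ne_zero n
    obtain ⟨x, hx⟩ := IsAlgClosed.exists_root _ hd
    have hint : IsIntegral V x := ⟨f, hf, by rw [← Polynomial.eval_map]; exact hx⟩
    obtain ⟨y, hy⟩ := IsIntegrallyClosed.isIntegral_iff.1 hint
    have hy0 : f.eval y = 0 := by
      have h1 : (f.map (algebraMap V L)).eval (algebraMap V L y) = 0 := by rw [hy]; exact hx
      rw [Polynomial.eval_map, Polynomial.eval₂_at_apply] at h1
      exact (IsFractionRing.injective V L) (by rw [h1, map_zero])
    have hfac := Polynomial.mul_divByMonic_eq_iff_isRoot.2 (show f.IsRoot y from hy0)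
    set g := f /ₘ (X - C y) with hg
    have hgm : g.Monic := by
      have h2 : ((X - C y) * g).Monic := by rw [hfac]; exact hf
      exact (Polynomial.monic_X_sub_C y).of_mul_monic_left h2
    have hgn : g.natDegree = n := by
      have h3 := congrArg Polynomial.natDegree hfac
      rw [(Polynomial.monic_X_sub_C y).natDegree_mul hgm, Polynomial.natDegree_X_sub_C, hn] at h3
      omega
    have hc' : residue V (c - y) * residue V (g.eval c) = 0 := by
      rw [← map_mul]
      have : (c - y) * g.eval c = f.eval c := by rw [← hfac]; simp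
      rw [this]; exact hc
    rcases mul_eq_zero.1 hc' with h | h
    · refine ⟨y, hy0, ?_⟩
      rw [map_sub] at h
      exact (sub_eq_zero.1 h).symm
    · obtain ⟨r, hr, hr'⟩ := ih g hgn hgm c h
      refine ⟨r, ?_, hr'⟩
      rw [← hfac, Polynomial.eval_mul, hr, mul_zero]

theorem exists_big (k : Type) [Field k] :
    ∃ (O : Type) (_ : CommRing O) (_ : IsDomain O) (_ : CharZero O) (κ : Type) (_ : Field κ)
      (ρ : O →+* κ) (_ : k →+* κ), Function.Surjective ρ ∧ (∀ s, ρ s ≠ 0 → IsUnit s) ∧
      (∀ f : O[X], f.Monic → ∀ c : O, ρ (f.eval c) = 0 → ∃ r : O, f.eval r = 0 ∧ ρ r = ρ c) := by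
  classical
  let A0 := MvPolynomial k ℤ
  let f : A0 →+* k := MvPolynomial.eval₂Hom (Int.castRingHom k) id
  have hf : Function.Surjective f := fun a => ⟨MvPolynomial.X a, MvPolynomial.eval₂Hom_X' _ _ a⟩
  let L := AlgebraicClosure (FractionRing A0)
  let j : A0 →+* L := (algebraMap (FractionRing A0) L).comp (algebraMap A0 (FractionRing A0))
  have hj : Function.Injective j :=
    (algebraMap (FractionRing A0) L).injective.comp (IsFractionRing.injective A0 (FractionRing A0))
  let e : A0 ≃+* j.range := RingEquiv.ofBijective j.rangeRestrict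
    ⟨fun a b h => hj (congrArg Subtype.val h), j.rangeRestrict_surjective⟩
  let I : Ideal j.range := (RingHom.ker f).comap e.symm.toRingHom
  have hI : I ≠ ⊤ := by
    rw [Ne, Ideal.eq_top_iff_one, Ideal.mem_comap, map_one, RingHom.mem_ker, map_one]
    exact one_ne_zero
  obtain ⟨V, hV, hV'⟩ := Ideal.image_subset_nonunits_valuationSubring I hI
  let jV : A0 →+* V := j.codRestrict V.toSubring (fun a => hV ⟨a, rfl⟩)
  have hker : ∀ a, f a = 0 → residue V (jV a) = 0 := by
    intro a ha
    rw [residue_eq_zero_iff, V.valuation_lt_one_iff]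
    have h1 : (j a : L) ∈ V.nonunits := hV' ⟨e a, by
      show e a ∈ I
      rw [Ideal.mem_comap]
      show f (e.symm (e a)) = 0
      rw [e.symm_apply_apply]; exact ha, rfl⟩
    exact V.mem_nonunits_iff.1 h1
  have hchar : CharZero V := by
    have h1 : CharZero A0 := inferInstance
    refine ⟨fun a b hab => ?_⟩
    have h2 : (j (a : A0)) = j (b : A0) := by
      have := congrArg (Subtype.val : V → L) hab
      simpa using this
    exact_mod_cast hj h2
  refine ⟨V, inferInstance, inferInstance, hchar, ResidueField V, inferInstance, residue V,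
    f.liftOfSurjective hf ⟨(residue V).comp jV, fun a ha => hker a ha⟩, residue_surjective, ?_, ?_⟩
  · intro s hs
    by_contra h
    exact hs ((residue_eq_zero_iff s).2 h)
  · intro g hg c hc
    exact root_of_monic V _ g rfl hg c hc

section Z

variable {O κ k : Type} [CommRing O] [Field κ] [Field k] (p : ℕ) (ρ : O →+* κ) (ι : k →+* κ)

/-- admissible subrings -/
def Adm (D : Subring O) : Prop :=
  (∀ d ∈ D, ρ d = 0 → ∃ e ∈ D, d = p * e) ∧ (∀ d ∈ D, ∃ a : k, ρ d = ι a)

theorem exists_max [Fact p.Prime] [CharP k p] :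
    ∃ D : Subring O, Adm p ρ ι D ∧ ∀ D', Adm p ρ ι D' → D ≤ D' → D' ≤ D := by
  have h0 : Adm p ρ ι (⊥ : Subring O) := by
    constructor
    · intro d hd h
      obtain ⟨n, rfl⟩ := Subring.mem_bot.1 hd
      rw [map_intCast] at h
      have h1 : ι (n : k) = 0 := by rw [map_intCast]; exact h
      have h2 : (n : k) = 0 := ι.injective (by rw [h1, map_zero])
      rw [CharP.intCast_eq_zero_iff k p] at h2
      obtain ⟨m, hm⟩ := h2
      exact ⟨(m : O), Subring.mem_bot.2 ⟨m, rfl⟩, by rw [hm]; push_cast; rfl⟩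
    · intro d hd
      obtain ⟨n, rfl⟩ := Subring.mem_bot.1 hd
      exact ⟨(n : k), by rw [map_intCast, map_intCast]⟩
  obtain ⟨D, -, hD⟩ := zorn_le_nonempty₀ {D : Subring O | Adm p ρ ι D} (by
    intro c hc hchain y hy
    have hdir : DirectedOn (· ≤ ·) c := hchain.directedOn
    refine ⟨sSup c, ?_, fun z hz => le_sSup hz⟩
    constructor
    · intro d hd h
      obtain ⟨E, hE, hdE⟩ := (Subring.mem_sSup_of_directedOn ⟨y, hy⟩ hdir).1 hd
      obtain ⟨e, he, hde⟩ := (hc hE).1 d hdE h
      exact ⟨e, (le_sSup hE) he, hde⟩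
    · intro d hd
      obtain ⟨E, hE, hdE⟩ := (Subring.mem_sSup_of_directedOn ⟨y, hy⟩ hdir).1 hd
      exact (hc hE).2 d hdE) ⊥ h0
  exact ⟨D, hD.prop, fun D' h1 h2 => hD.le_of_ge h1 h2⟩

variable {p ρ ι}

theorem max_unit {D : Subring O} (hD : Adm p ρ ι D)
    (hmax : ∀ D', Adm p ρ ι D' → D ≤ D' → D' ≤ D) (hu : ∀ s, ρ s ≠ 0 → IsUnit s)
    (s : O) (hs : s ∈ D) (hs' : ρ s ≠ 0) : ∃ e ∈ D, s * e = 1 := by
  obtain ⟨u, hsu⟩ := isUnit_iff_exists_inv.1 (hu s hs')
  let D' : Subring O :=
    { carrier := {x | ∃ s ∈ D, ρ s ≠ 0 ∧ s * x ∈ D}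
      mul_mem' := by
        rintro a b ⟨s, hs, hs', h⟩ ⟨t, ht, ht', h'⟩
        refine ⟨s * t, D.mul_mem hs ht, by rw [map_mul]; exact mul_ne_zero hs' ht', ?_⟩
        have : s * t * (a * b) = (s * a) * (t * b) := by ring
        rw [this]; exact D.mul_mem h h'
      one_mem' := ⟨1, D.one_mem, by rw [map_one]; exact one_ne_zero, by
        rw [one_mul]; exact D.one_mem⟩
      add_mem' := by
        rintro a b ⟨s, hs, hs', h⟩ ⟨t, ht, ht', h'⟩
        refine ⟨s * t, D.mul_mem hs ht, by rw [map_mul]; exact mul_ne_zero hs' ht', ?_⟩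
        have : s * t * (a + b) = t * (s * a) + s * (t * b) := by ring
        rw [this]; exact D.add_mem (D.mul_mem ht h) (D.mul_mem hs h')
      zero_mem' := ⟨1, D.one_mem, by rw [map_one]; exact one_ne_zero, by
        rw [mul_zero]; exact D.zero_mem⟩
      neg_mem' := by
        rintro a ⟨s, hs, hs', h⟩
        refine ⟨s, hs, hs', ?_⟩
        rw [mul_neg]; exact D.neg_mem h }
  have h1 : D ≤ D' := fun x hx => ⟨1, D.one_mem, by rw [map_one]; exact one_ne_zero, by
    rw [one_mul]; exact hx⟩
  have h2 : Adm p ρ ι D' := by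
    constructor
    · rintro x ⟨s, hs, hs', h⟩ hx
      obtain ⟨e, he, hse⟩ := hD.1 (s * x) h (by rw [map_mul, hx, mul_zero])
      obtain ⟨v, hsv⟩ := isUnit_iff_exists_inv.1 (hu s hs')
      refine ⟨v * e, ⟨s, hs, hs', ?_⟩, ?_⟩
      · rw [← mul_assoc, hsv, one_mul]; exact he
      · have : x = v * (s * x) := by rw [← mul_assoc, mul_comm v s, hsv, one_mul]
        rw [this, hse]; ring
    · rintro x ⟨s, hs, hs', h⟩
      obtain ⟨a, ha⟩ := hD.2 _ h
      obtain ⟨b, hb⟩ := hD.2 _ hs
      refine ⟨a / b, ?_⟩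
      rw [map_div₀, ← ha, ← hb, map_mul]
      field_simp
  exact ⟨u, hmax D' h2 h1 ⟨s, hs, hs', by rw [hsu]; exact D.one_mem⟩, hsu⟩

/-- adjoining a good element -/
theorem max_mem {D : Subring O} (hD : Adm p ρ ι D)
    (hmax : ∀ D', Adm p ρ ι D' → D ≤ D' → D' ≤ D) (r : O) (c : k) (hr : ρ r = ι c)
    (H : ∀ g : D[X], ρ (g.eval₂ D.subtype r) = 0 → ∃ h : D[X],
      g.eval₂ D.subtype r = p * h.eval₂ D.subtype r) : r ∈ D := by
  let D' : Subring O := (Polynomial.eval₂RingHom D.subtype r).range
  have h1 : D ≤ D' := fun x hx => ⟨C ⟨x, hx⟩, by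
    show (C (⟨x, hx⟩ : D)).eval₂ D.subtype r = x
    rw [Polynomial.eval₂_C]; rfl⟩
  have h2 : Adm p ρ ι D' := by
    constructor
    · rintro x ⟨g, rfl⟩ hx
      obtain ⟨h, hh⟩ := H g hx
      exact ⟨h.eval₂ D.subtype r, ⟨h, rfl⟩, hh⟩
    · rintro x ⟨g, rfl⟩
      show ∃ a : k, ρ (g.eval₂ D.subtype r) = ι a
      induction g using Polynomial.induction_on' with
      | add f g hf hg =>
        obtain ⟨a, ha⟩ := hf
        obtain ⟨b, hb⟩ := hg
        exact ⟨a + b, by rw [Polynomial.eval₂_add, map_add, map_add, ha, hb]⟩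
      | monomial n d =>
        obtain ⟨a, ha⟩ := hD.2 _ d.2
        exact ⟨a * c ^ n, by
          rw [Polynomial.eval₂_monomial, map_mul, map_mul, map_pow, map_pow, hr, ← ha]; rfl⟩
  exact hmax D' h2 h1 ⟨X, by
    show (X : D[X]).eval₂ D.subtype r = r
    rw [Polynomial.eval₂_X]⟩

theorem max_surj {D : Subring O} (hD : Adm p ρ ι D)
    (hmax : ∀ D', Adm p ρ ι D' → D ≤ D' → D' ≤ D) (hu : ∀ s, ρ s ≠ 0 → IsUnit s)
    (hsurj : Function.Surjective ρ)
    (hroot : ∀ f : O[X], f.Monic → ∀ c : O, ρ (f.eval c) = 0 → ∃ r : O, f.eval r = 0 ∧ ρ r = ρ c)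
    (c : k) : ∃ d ∈ D, ρ d = ι c := by
  classical
  obtain ⟨c', hc'⟩ := hsurj (ι c)
  let ρD : D →+* κ := ρ.comp D.subtype
  let θ : D[X] →+* κ := Polynomial.eval₂RingHom ρD (ι c)
  have hθ : ∀ (g : D[X]) (r : O), ρ r = ι c → ρ (g.eval₂ D.subtype r) = θ g := by
    intro g r hr
    show _ = g.eval₂ ρD (ι c)
    rw [Polynomial.hom_eval₂, hr]
  -- polynomials with all coefficients in the kernel are divisible by `p`
  have hdiv : ∀ g : D[X], g.map ρD = 0 → ∀ r : O, ∃ h : D[X],
      g.eval₂ D.subtype r = p * h.eval₂ D.subtype r := by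
    intro g hg r
    have h1 : ∀ n, ∃ e : D, g.coeff n = p * e := by
      intro n
      have h2 : ρ (g.coeff n : O) = 0 := by
        have := congrArg (fun q => Polynomial.coeff q n) hg
        simpa [ρD] using this
      obtain ⟨e, he, hde⟩ := hD.1 _ (g.coeff n).2 h2
      exact ⟨⟨e, he⟩, Subtype.ext (by simpa using hde)⟩
    choose e he using h1
    refine ⟨∑ n ∈ Finset.range (g.natDegree + 1), Polynomial.monomial n (e n), ?_⟩
    have h3 : g = (p : D[X]) * ∑ n ∈ Finset.range (g.natDegree + 1), Polynomial.monomial n (e n) := by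
      conv_lhs => rw [g.as_sum_range]
      rw [Finset.mul_sum]
      refine Finset.sum_congr rfl (fun n _ => ?_)
      rw [he n, ← Polynomial.C_eq_natCast, Polynomial.C_mul_monomial]
    conv_lhs => rw [h3]
    rw [Polynomial.eval₂_mul]
    congr 1
    simp
  by_cases hcase : ∀ g : D[X], θ g = 0 → g.map ρD = 0
  · refine ⟨c', max_mem hD hmax c' c hc' (fun g hg => ?_), hc'⟩
    rw [hθ g c' hc'] at hg
    exact hdiv g (hcase g hg) c'
  · push Not at hcase
    have hex : ∃ n : ℕ, ∃ g : D[X], θ g = 0 ∧ g.map ρD ≠ 0 ∧ g.natDegree = n := by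
      obtain ⟨g, h1, h2⟩ := hcase
      exact ⟨_, g, h1, h2, rfl⟩
    obtain ⟨g, hg1, hg2, hgn⟩ := Nat.find_spec hex
    have hmin : ∀ g' : D[X], θ g' = 0 → g'.natDegree < g.natDegree → g'.map ρD = 0 := by
      intro g' h1 h2
      by_contra h3
      exact Nat.find_min hex (by rw [← hgn]; exact h2) ⟨g', h1, h3, rfl⟩
    have hlc : ρD g.leadingCoeff ≠ 0 := by
      intro h
      have h1 := g.eraseLead_add_C_mul_X_pow
      have h2 : g.eraseLead.map ρD = g.map ρD := by
        conv_rhs => rw [← h1]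
        rw [Polynomial.map_add, Polynomial.map_mul, Polynomial.map_C, h]
        simp
      have h3 : θ g.eraseLead = 0 := by
        have h4 : θ g = θ g.eraseLead + θ (C g.leadingCoeff * X ^ g.natDegree) := by
          rw [← map_add, h1]
        have h5 : θ (C g.leadingCoeff * X ^ g.natDegree) = 0 := by
          rw [map_mul]
          have : θ (C g.leadingCoeff) = ρD g.leadingCoeff := Polynomial.eval₂_C _ _
          rw [this, h, zero_mul]
        rw [h5, add_zero] at h4
        rw [← h4]; exact hg1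
      rcases g.eraseLead_natDegree_lt_or_eraseLead_eq_zero with h4 | h4
      · exact hg2 (by rw [← h2]; exact hmin _ h3 h4)
      · exact hg2 (by rw [← h2, h4, Polynomial.map_zero])
    obtain ⟨e, he, hge⟩ := max_unit hD hmax hu (g.leadingCoeff : O) (g.leadingCoeff).2 hlc
    have hge' : g.leadingCoeff * (⟨e, he⟩ : D) = 1 := Subtype.ext hge
    set f : D[X] := C (⟨e, he⟩ : D) * g with hf
    have hfm : f.Monic := Polynomial.monic_C_mul_of_mul_leadingCoeff_eq_one (by
      rw [mul_comm]; exact hge')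
    have hfθ : θ f = 0 := by rw [hf, map_mul, hg1, mul_zero]
    have hfn : f.natDegree = g.natDegree := by
      have h1 : g = C g.leadingCoeff * f := by
        rw [hf, ← mul_assoc, ← Polynomial.C_mul, hge', Polynomial.C_1, one_mul]
      apply le_antisymm
      · exact Polynomial.natDegree_C_mul_le _ _
      · conv_lhs => rw [h1]
        exact Polynomial.natDegree_C_mul_le _ _
    obtain ⟨r, hr, hr'⟩ := hroot (f.map D.subtype) (hfm.map _) c' (by
      rw [Polynomial.eval_map, hθ f c' hc', hfθ])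
    rw [Polynomial.eval_map] at hr
    rw [hc'] at hr'
    refine ⟨r, max_mem hD hmax r c hr' (fun q hq => ?_), hr'⟩
    rw [hθ q r hr'] at hq
    have h1 := Polynomial.modByMonic_add_div q f
    have h2 : θ (q %ₘ f) = 0 := by
      have h3 : θ q = θ (q %ₘ f) + θ f * θ (q /ₘ f) := by rw [← map_mul, ← map_add, h1]
      rw [hq, hfθ, zero_mul, add_zero] at h3
      exact h3.symm
    have h4 : (q %ₘ f).map ρD = 0 := by
      rcases eq_or_ne f 1 with h5 | h5
      · rw [h5, Polynomial.modByMonic_one, Polynomial.map_zero]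
      · exact hmin _ h2 (by rw [← hfn]; exact Polynomial.natDegree_modByMonic_lt q hfm h5)
    obtain ⟨h, hh⟩ := hdiv _ h4 r
    refine ⟨h, ?_⟩
    rw [← hh]
    conv_lhs => rw [← h1]
    rw [Polynomial.eval₂_add, Polynomial.eval₂_mul, hr, zero_mul, add_zero]

end Z

/-- completion of a local domain with maximal ideal `(p)` -/
theorem complete_dvr (p : ℕ) [Fact p.Prime] (k : Type) [Field k] (D : Type) [CommRing D]
    [IsDomain D] [CharZero D] [IsLocalRing D] (hm : maximalIdeal D = Ideal.span {(p : D)})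
    (q0 : D →+* k) (hq0 : Function.Surjective q0) (hq1 : q0 (p : D) = 0) :
    ∃ (C : Type) (_ : CommRing C) (_ : IsDomain C) (_ : IsDiscreteValuationRing C)
      (_ : IsAdicComplete (maximalIdeal C) C) (_ : CharZero C) (q : C →+* k),
      maximalIdeal C = Ideal.span {(p : C)} ∧ Function.Surjective q := by
  have hp : p.Prime := Fact.out
  have fg : (maximalIdeal D).FG := ⟨{(p : D)}, by rw [hm]; simp⟩
  let C := AdicCompletion (maximalIdeal D) D
  have : IsLocalRing C := AdicCompletion.isLocalRing_of_fg fg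
  have hC : maximalIdeal C = Ideal.span {(p : C)} := by
    rw [AdicCompletion.maximalIdeal_eq_map_of_fg fg]
    refine (congrArg (Ideal.map (algebraMap D C)) hm).trans ?_
    rw [Ideal.map_span]
    simp
  have hcomp : IsAdicComplete (maximalIdeal C) C := AdicCompletion.isAdicComplete_of_fg fg
  -- powers of `p` do not vanish
  have hpow : ∀ n : ℕ, (p : C) ^ n ≠ 0 := by
    intro n h
    have h1 : (algebraMap D C) ((p : D) ^ n) = 0 := by rw [map_pow, map_natCast]; exact h
    have h2 : AdicCompletion.evalₐ (maximalIdeal D) (n + 1) ((algebraMap D C) ((p : D) ^ n)) = 0 := by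
      rw [h1, map_zero]
    have h3 : AdicCompletion.evalₐ (maximalIdeal D) (n + 1) ((algebraMap D C) ((p : D) ^ n)) =
        Ideal.Quotient.mk (maximalIdeal D ^ (n + 1)) ((p : D) ^ n) := by
      rw [AlgHom.commutes]; rfl
    rw [h3, Ideal.Quotient.eq_zero_iff_mem, hm, Ideal.span_singleton_pow,
      Ideal.mem_span_singleton] at h2
    obtain ⟨e, he⟩ := h2
    have hp0 : (p : D) ≠ 0 := by exact_mod_cast hp.ne_zero
    have h4 : (p : D) ^ n * ((p : D) * e) = (p : D) ^ n * 1 := by
      rw [mul_one, ← mul_assoc, ← pow_succ]; exact he.symm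
    have h5 := mul_left_cancel₀ (pow_ne_zero n hp0) h4
    have h6 : (p : D) ∈ maximalIdeal D := by rw [hm]; exact Ideal.mem_span_singleton_self _
    exact h6 (IsUnit.of_mul_eq_one _ h5)
  -- every nonzero element is a unit times a power of `p`
  have hfac : ∀ x : C, x ≠ 0 → ∃ (n : ℕ) (u : C), IsUnit u ∧ x = (p : C) ^ n * u := by
    classical
    intro x hx
    have h1 : ∃ n, x ∉ maximalIdeal C ^ n := by
      by_contra h
      push Not at h
      apply hx
      refine IsHausdorff.haus hcomp.toIsHausdorff x (fun n => ?_)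
      rw [SModEq.zero, smul_eq_mul, Ideal.mul_top]
      exact h n
    have h2 := Nat.find_spec h1
    have h3 : Nat.find h1 ≠ 0 := by
      intro h
      rw [h] at h2
      simp at h2
    obtain ⟨n, hn⟩ := Nat.exists_eq_succ_of_ne_zero h3
    have h4 : x ∈ maximalIdeal C ^ n := by
      by_contra h
      exact Nat.find_min h1 (by rw [hn]; exact Nat.lt_succ_self n) h
    rw [hn] at h2
    rw [hC, Ideal.span_singleton_pow, Ideal.mem_span_singleton] at h4
    obtain ⟨u, hu⟩ := h4
    refine ⟨n, u, ?_, hu⟩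
    by_contra hnu
    have h5 : u ∈ maximalIdeal C := hnu
    rw [hC, Ideal.mem_span_singleton] at h5
    obtain ⟨v, hv⟩ := h5
    apply h2
    rw [hC, Ideal.span_singleton_pow, Ideal.mem_span_singleton]
    exact ⟨v, by rw [hu, hv, Nat.succ_eq_add_one, pow_succ, mul_assoc]⟩
  have : Nontrivial C := inferInstance
  have hdom : IsDomain C := by
    have : NoZeroDivisors C := ⟨by
      intro x y hxy
      by_contra h
      push Not at h
      obtain ⟨n, u, hu, hx⟩ := hfac x h.1
      obtain ⟨m, v, hv, hy⟩ := hfac y h.2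
      have h1 : (p : C) ^ (n + m) * (u * v) = 0 := by
        rw [← hxy, hx, hy]; ring
      exact hpow (n + m) ((hu.mul hv).mul_left_eq_zero.1 h1)⟩
    exact NoZeroDivisors.to_isDomain C
  have hpirr : Irreducible (p : C) := by
    refine ⟨fun h => ?_, fun a b hab => ?_⟩
    · have h6 : (p : C) ∈ maximalIdeal C := by rw [hC]; exact Ideal.mem_span_singleton_self _
      exact h6 h
    · by_contra h
      push Not at h
      have ha : a ∈ maximalIdeal C := h.1
      have hb : b ∈ maximalIdeal C := h.2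
      rw [hC, Ideal.mem_span_singleton] at ha hb
      obtain ⟨a', ha'⟩ := ha
      obtain ⟨b', hb'⟩ := hb
      have h1 : (p : C) * ((p : C) * (a' * b')) = (p : C) * 1 := by
        rw [mul_one]
        conv_rhs => rw [hab, ha', hb']
        ring
      have hp0 : (p : C) ≠ 0 := by simpa using hpow 1
      have h2 := mul_left_cancel₀ hp0 h1
      have h6 : (p : C) ∈ maximalIdeal C := by rw [hC]; exact Ideal.mem_span_singleton_self _
      exact h6 (IsUnit.of_mul_eq_one _ h2)
  have hdvr : IsDiscreteValuationRing C :=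
    IsDiscreteValuationRing.ofHasUnitMulPowIrreducibleFactorization ⟨(p : C), hpirr, by
      intro x hx
      obtain ⟨n, u, hu, h⟩ := hfac x hx
      obtain ⟨w, hw⟩ := hu
      exact ⟨n, w, by rw [h, hw]⟩⟩
  have hchar : CharZero C := by
    refine charZero_of_inj_zero (fun n hn => ?_)
    by_contra h0
    obtain ⟨e, m, hm1, hm2⟩ := Nat.exists_eq_pow_mul_and_not_dvd h0 p hp.ne_one
    have h1 : IsUnit (m : C) := by
      by_contra h2
      have h3 : (m : C) ∈ maximalIdeal C := h2
      have h4 : (p : C) ∈ maximalIdeal C := by rw [hC]; exact Ideal.mem_span_singleton_self _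
      have h5 : IsCoprime (m : ℤ) (p : ℤ) := by
        rw [Nat.isCoprime_iff_coprime]
        exact (Nat.Prime.coprime_iff_not_dvd hp).2 hm1 |>.symm
      obtain ⟨a, b, hab⟩ := h5
      have h6 : (a : C) * (m : C) + (b : C) * (p : C) = 1 := by
        have h8 := congrArg (Int.castRingHom C) hab
        rw [map_add, map_mul, map_mul, map_natCast, map_natCast, map_one] at h8
        exact h8
      have h7 : (1 : C) ∈ maximalIdeal C := by
        rw [← h6]
        exact Ideal.add_mem _ (Ideal.mul_mem_left _ _ h3) (Ideal.mul_mem_left _ _ h4)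
      exact h7 isUnit_one
    rw [hm2, Nat.cast_mul, Nat.cast_pow] at hn
    exact hpow e (h1.mul_left_eq_zero.1 hn)
  refine ⟨C, inferInstance, hdom, hdvr, hcomp, hchar,
    (Ideal.Quotient.lift (maximalIdeal D) q0 (by
      intro a ha
      rw [hm, Ideal.mem_span_singleton] at ha
      obtain ⟨b, rfl⟩ := ha
      rw [map_mul, hq1, zero_mul])).comp (AdicCompletion.evalOneₐ (maximalIdeal D)).toRingHom,
    hC, ?_⟩
  intro c
  obtain ⟨d, hd⟩ := hq0 c
  refine ⟨algebraMap D C d, ?_⟩
  rw [← hd]
  rfl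

end Pool.Agent.Lib.MP_3029eb_ag.CR

namespace Pool.Agent.Lib.MP_3029eb_ag

open CR

theorem exists_cohen_ring (p : ℕ) [Fact p.Prime] (k : Type) [Field k] [CharP k p] :
    ∃ (C : Type) (_ : CommRing C) (_ : IsDomain C) (_ : IsDiscreteValuationRing C)
      (_ : IsAdicComplete (maximalIdeal C) C) (_ : CharZero C) (q : C →+* k),
      maximalIdeal C = Ideal.span {(p : C)} ∧ Function.Surjective q := by
  have hp : p.Prime := Fact.out
  obtain ⟨O, _, _, _, κ, _, ρ, ι, hsurj, hu, hroot⟩ := exists_big k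
  obtain ⟨D, hD, hmax⟩ := exists_max (O := O) p ρ ι
  have hunit := max_unit hD hmax hu
  have hDs := max_surj hD hmax hu hsurj hroot
  have hρp : ρ (p : O) = 0 := by
    rw [map_natCast, ← map_natCast ι p, CharP.cast_eq_zero, map_zero]
  have hiff : ∀ d : D, IsUnit d ↔ ρ (d : O) ≠ 0 := by
    intro d
    constructor
    · intro h
      exact ((h.map D.subtype).map ρ).ne_zero
    · intro h
      obtain ⟨e, he, hde⟩ := hunit d d.2 h
      exact IsUnit.of_mul_eq_one (⟨e, he⟩ : D) (Subtype.ext hde)
  have hloc : IsLocalRing D := IsLocalRing.of_nonunits_add (by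
    intro a b ha hb
    rw [mem_nonunits_iff, hiff, not_not] at ha hb ⊢
    rw [Subring.coe_add, map_add, ha, hb, add_zero])
  have hm : maximalIdeal D = Ideal.span {(p : D)} := by
    ext d
    rw [mem_maximalIdeal, mem_nonunits_iff, hiff, not_not, Ideal.mem_span_singleton]
    constructor
    · intro h
      obtain ⟨e, he, hde⟩ := hD.1 d d.2 h
      exact ⟨⟨e, he⟩, Subtype.ext (by simpa using hde)⟩
    · rintro ⟨e, rfl⟩
      rw [Subring.coe_mul, map_mul]
      have : ρ ((p : D) : O) = 0 := by simpa using hρp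
      rw [this, zero_mul]
  let r1 : D →+* ι.range := (ρ.comp D.subtype).codRestrict ι.range (fun d => by
    obtain ⟨a, ha⟩ := hD.2 d d.2
    exact ⟨a, ha.symm⟩)
  let e : k ≃+* ι.range := RingEquiv.ofBijective ι.rangeRestrict
    ⟨fun a b h => ι.injective (congrArg Subtype.val h), ι.rangeRestrict_surjective⟩
  have hch : CharZero D := inferInstance
  refine complete_dvr p k D hm (e.symm.toRingHom.comp r1) ?_ ?_
  · intro c
    obtain ⟨d, hd, hdc⟩ := hDs c
    refine ⟨⟨d, hd⟩, ?_⟩
    show e.symm (r1 ⟨d, hd⟩) = c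
    rw [RingEquiv.symm_apply_eq]
    exact Subtype.ext hdc
  · show e.symm (r1 (p : D)) = 0
    rw [map_natCast, map_natCast, CharP.cast_eq_zero]

end Pool.Agent.Lib.MP_3029eb_ag
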