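import Mathlib
import Pool.Agent.Lib.MP_3029eb_ag.GoodDef

/-!
# Module G1 : `p`-bases give good families of subfields
-/

open Polynomial

namespace Pool.Agent.Lib.MP_3029eb_ag


section exchange

variable {F E : Type} [Field F] [Field E] [Algebra F E]

/-- the exchange property -/
private lemma exchange1 (p : ℕ) [Fact p.Prime] [CharP E p] {a b : E}
    (hb : ∃ c : F, algebraMap F E c = b ^ p)
    (ha : a ∈ IntermediateField.adjoin F {b}) (ha' : ∀ c : F, algebraMap F E c ≠ a) :
    b ∈ IntermediateField.adjoin F {a} := by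
  by_contra hcon
  obtain ⟨c, hc⟩ := hb
  have hp : p.Prime := Fact.out
  have hp0 : p ≠ 0 := hp.ne_zero
  -- the monic polynomial `X ^ p - c`
  have hmon : (X ^ p - C c : F[X]).Monic := monic_X_pow_sub_C c hp0
  have hroot : aeval b (X ^ p - C c : F[X]) = 0 := by
    simp [hc]
  have halg : IsAlgebraic F b := ⟨X ^ p - C c, hmon.ne_zero, hroot⟩
  -- `a` is a polynomial in `b`
  have ha2 : a ∈ (IntermediateField.adjoin F {b}).toSubalgebra := ha
  rw [IntermediateField.adjoin_simple_toSubalgebra_of_isAlgebraic halg,
    Algebra.adjoin_singleton_eq_range_aeval] at ha2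
  obtain ⟨g, hg⟩ := ha2
  have hg : aeval b g = a := hg
  set g' := g %ₘ (X ^ p - C c) with hg'
  have hg'a : aeval b g' = a := by
    rw [hg', ← hg]
    have h1 := congrArg (aeval b) (modByMonic_add_div g (X ^ p - C c))
    rw [map_add, map_mul, hroot, zero_mul, add_zero] at h1
    exact h1
  have hdeg : g'.degree < p := by
    have h1 := degree_modByMonic_lt g hmon
    rw [degree_X_pow_sub_C hp.pos] at h1
    exact h1
  -- over `L = F(a)`
  set L := IntermediateField.adjoin F {a} with hL
  have haL : a ∈ L := IntermediateField.mem_adjoin_simple_self F a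
  have hirr : Irreducible (X ^ p - C (algebraMap F L c) : L[X]) := by
    refine X_pow_sub_C_irreducible_of_prime hp fun x hx => hcon ?_
    have h1 : (x : E) ^ p = b ^ p := by
      rw [← hc]
      have := congrArg (algebraMap L E) hx
      simpa using this
    have h2 : (x : E) = b := by
      have : ExpChar E p := ExpChar.prime hp
      exact frobenius_inj E p h1
    rw [← h2]
    exact x.2
  have hminp : minpoly L b = X ^ p - C (algebraMap F L c) := by
    refine (minpoly.eq_of_irreducible_of_monic hirr ?_ (monic_X_pow_sub_C _ hp0)).symm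
    rw [map_sub, map_pow, aeval_X, aeval_C, ← hc, ← IsScalarTower.algebraMap_apply, sub_self]
  set h : L[X] := g'.map (algebraMap F L) - C ⟨a, haL⟩ with hh
  have hhb : aeval b h = 0 := by
    rw [hh, map_sub, aeval_map_algebraMap, aeval_C, hg'a]
    exact sub_self a
  have hh0 : h = 0 := by
    by_contra hne
    have h1 := minpoly.degree_le_of_ne_zero L b hne hhb
    rw [hminp, degree_X_pow_sub_C hp.pos] at h1
    have h2 : h.degree < p := by
      rw [hh]
      refine lt_of_le_of_lt (degree_sub_le _ _) (max_lt ?_ ?_)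
      · rw [degree_map]
        exact hdeg
      · refine lt_of_le_of_lt degree_C_le ?_
        exact_mod_cast hp.pos
    exact absurd h1 (not_le.2 h2)
  have h1 : g'.map (algebraMap F L) = C ⟨a, haL⟩ := sub_eq_zero.1 hh0
  have h2 := congrArg (fun q : L[X] => (q.coeff 0 : E)) h1
  simp only [coeff_map, coeff_C_zero] at h2
  exact ha' (g'.coeff 0) (by rw [← h2]; rfl)

end exchange

section pbasis

variable (p : ℕ) [Fact p.Prime] (k : Type) [Field k] [CharP k p]

/-- the subfield of `p`-th powers -/
private noncomputable def K0 : Subfield k := (frobenius k p).fieldRange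

variable {k}

private lemma pow_mem_K0 (a : k) : a ^ p ∈ K0 p k := ⟨a, rfl⟩

private lemma exchange2 {S : Set k} {a b : k}
    (ha : a ∈ IntermediateField.adjoin (K0 p k) (S ∪ {b}))
    (ha' : a ∉ IntermediateField.adjoin (K0 p k) S) :
    b ∈ IntermediateField.adjoin (K0 p k) (S ∪ {a}) := by
  rw [← IntermediateField.adjoin_adjoin_left, IntermediateField.mem_restrictScalars] at ha ⊢
  have h1 : ∃ c : IntermediateField.adjoin (K0 p k) S,
      algebraMap (IntermediateField.adjoin (K0 p k) S) k c = b ^ p :=
    ⟨algebraMap (K0 p k) _ ⟨b ^ p, pow_mem_K0 p b⟩, rfl⟩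
  have h2 : ∀ c : IntermediateField.adjoin (K0 p k) S,
      algebraMap (IntermediateField.adjoin (K0 p k) S) k c ≠ a := by
    intro c hc
    apply ha'
    rw [← hc]
    exact c.2
  exact exchange1 (F := IntermediateField.adjoin (K0 p k) S) p h1 ha h2

/-- `p`-independence -/
private def PIndep (S : Set k) : Prop :=
  ∀ b ∈ S, b ∉ IntermediateField.adjoin (K0 p k) (S \ {b})

private lemma exists_pbasis : ∃ B : Set k, PIndep p B ∧
    IntermediateField.adjoin (K0 p k) B = ⊤ := by
  obtain ⟨B, hB⟩ := zorn_subset {S : Set k | PIndep p S} (by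
    intro c hc hchain
    rcases c.eq_empty_or_nonempty with rfl | hne
    · exact ⟨∅, fun b hb => absurd hb (Set.notMem_empty b), by simp⟩
    refine ⟨⋃₀ c, ?_, fun s hs => Set.subset_sUnion_of_mem hs⟩
    intro b hb hmem
    obtain ⟨T, hT, hbT⟩ := IntermediateField.exists_finset_of_mem_adjoin hmem
    obtain ⟨S, hS, hsub⟩ := hchain.directedOn.exists_mem_subset_of_finite_of_subset_sUnion hne
      (s := insert b (T : Set k)) (T.finite_toSet.insert b) (by
        intro x hx
        rcases hx with rfl | hx
        · exact hb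
        · exact (hT hx).1)
    refine hc hS b (hsub (Set.mem_insert _ _)) ?_
    refine IntermediateField.adjoin.mono _ _ _ ?_ hbT
    intro x hx
    exact ⟨hsub (Set.mem_insert_of_mem _ hx), (hT hx).2⟩)
  refine ⟨B, hB.prop, ?_⟩
  by_contra hne
  obtain ⟨x, hx⟩ : ∃ x, x ∉ IntermediateField.adjoin (K0 p k) B := by
    by_contra hcon
    push Not at hcon
    exact hne (eq_top_iff.2 fun x _ => hcon x)
  have hxB : x ∉ B := fun h => hx (IntermediateField.subset_adjoin _ _ h)
  have hind : PIndep p (insert x B) := by
    intro b hb hmem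
    rcases hb with rfl | hb
    · rw [Set.insert_sdiff_of_mem _ (Set.mem_singleton _), Set.sdiff_singleton_eq_self hxB] at hmem
      exact hx hmem
    · have hbx : b ≠ x := fun h => hxB (h ▸ hb)
      have h1 : insert x B \ {b} = (B \ {b}) ∪ {x} := by
        ext y
        simp only [Set.mem_sdiff, Set.mem_insert_iff, Set.mem_singleton_iff, Set.mem_union]
        constructor
        · rintro ⟨rfl | h, h2⟩
          · exact Or.inr rfl
          · exact Or.inl ⟨h, h2⟩
        · rintro (⟨h, h2⟩ | rfl)
          · exact ⟨Or.inr h, h2⟩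
          · exact ⟨Or.inl rfl, hbx.symm⟩
      rw [h1] at hmem
      have h2 := exchange2 p hmem (hB.prop b hb)
      apply hx
      refine IntermediateField.adjoin.mono _ _ _ ?_ h2
      intro y hy
      rcases hy with hy | rfl
      · exact hy.1
      · exact hb
  exact hxB (hB.le_of_ge hind (Set.subset_insert x B) (Set.mem_insert x B))

private lemma finite_transfer {A : Type} [CommRing A] (R : Subring A) {K : Type} [Field K]
    [Algebra K A] (h : ∀ c : K, algebraMap K A c ∈ R) (hfin : Module.Finite K A) :
    Module.Finite R A := by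
  obtain ⟨s, hs⟩ := hfin.fg_top
  refine ⟨⟨s, ?_⟩⟩
  rw [eq_top_iff]
  intro x _
  have hx : x ∈ Submodule.span K (s : Set A) := by rw [hs]; trivial
  refine Submodule.span_induction (p := fun x _ => x ∈ Submodule.span R (s : Set A))
    (fun y hy => Submodule.subset_span hy) (Submodule.zero_mem _)
    (fun y z _ _ hy hz => Submodule.add_mem _ hy hz) (fun a y _ hy => ?_) hx
  have h1 := Submodule.smul_mem (Submodule.span R (s : Set A)) (⟨algebraMap K A a, h a⟩ : R) hy
  rw [Algebra.smul_def]
  exact h1

private lemma finite_fα {B : Set k} (htop : IntermediateField.adjoin (K0 p k) B = ⊤)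
    (α : Finset k) :
    Module.Finite (IntermediateField.adjoin (K0 p k) (B \ (α : Set k))) k := by
  classical
  set Fα := IntermediateField.adjoin (K0 p k) (B \ (α : Set k)) with hFα
  have hfd : FiniteDimensional Fα (IntermediateField.adjoin Fα (α : Set k)) := by
    refine IntermediateField.finiteDimensional_adjoin fun x _ => ?_
    refine ⟨X ^ p - C ⟨x ^ p, IntermediateField.algebraMap_mem _ (⟨x ^ p, pow_mem_K0 p x⟩ : K0 p k)⟩,
      monic_X_pow_sub_C _ (Fact.out : p.Prime).ne_zero, ?_⟩
    simp only [eval₂_sub, eval₂_X_pow, eval₂_C]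
    exact sub_self _
  have htop2 : IntermediateField.adjoin Fα (α : Set k) = ⊤ := by
    rw [eq_top_iff]
    intro x _
    have h1 : x ∈ (IntermediateField.adjoin Fα (α : Set k)).restrictScalars (K0 p k) := by
      rw [hFα, IntermediateField.adjoin_adjoin_left]
      have h2 : x ∈ IntermediateField.adjoin (K0 p k) B := by
        rw [htop]
        exact IntermediateField.mem_top
      refine IntermediateField.adjoin.mono _ _ _ ?_ h2
      intro y hy
      by_cases hyα : y ∈ (α : Set k)
      · exact Or.inr hyα
      · exact Or.inl ⟨hy, hyα⟩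
    exact h1
  rw [htop2] at hfd
  exact Module.Finite.equiv (IntermediateField.topEquiv (F := Fα) (E := k)).toLinearEquiv

theorem good_field (p : ℕ) [Fact p.Prime] (k : Type) [Field k] [CharP k p] : Good p k := by
  classical
  obtain ⟨B, hB, htop⟩ := exists_pbasis p (k := k)
  refine ⟨Finset k, fun α => (IntermediateField.adjoin (K0 p k) (B \ (α : Set k))).toSubfield.toSubring,
    ⟨∅⟩, ?_, ?_, ?_, ?_, ?_⟩
  · intro α β
    refine ⟨α ∪ β, ?_, ?_⟩
    · intro x hx
      refine IntermediateField.adjoin.mono (K0 p k) _ _ ?_ hx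
      intro y hy
      exact ⟨hy.1, fun h => hy.2 (by simpa using Or.inl h)⟩
    · intro x hx
      refine IntermediateField.adjoin.mono (K0 p k) _ _ ?_ hx
      intro y hy
      exact ⟨hy.1, fun h => hy.2 (by simpa using Or.inr h)⟩
  · intro α a
    exact IntermediateField.algebraMap_mem _ (⟨a ^ p, pow_mem_K0 p a⟩ : K0 p k)
  · intro α
    exact finite_transfer _ (fun c => c.2) (finite_fα p htop α)
  · intro α v hv z hv0 hvz
    have hv' : v ∈ IntermediateField.adjoin (K0 p k) (B \ (α : Set k)) := hv
    have hvz' : v * z ∈ IntermediateField.adjoin (K0 p k) (B \ (α : Set k)) := hvz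
    have h1 := mul_mem (inv_mem hv') hvz'
    rw [← mul_assoc, inv_mul_cancel₀ hv0, one_mul] at h1
    exact h1
  · intro a ha
    have ha' : ∀ α : Finset k, a ∈ IntermediateField.adjoin (K0 p k) (B \ (α : Set k)) := ha
    have hex : ∃ n : ℕ, ∃ T : Finset k, (T : Set k) ⊆ B ∧
        a ∈ IntermediateField.adjoin (K0 p k) (T : Set k) ∧ T.card = n := by
      have h1 : a ∈ IntermediateField.adjoin (K0 p k) B := by rw [htop]; trivial
      obtain ⟨T, hT, haT⟩ := IntermediateField.exists_finset_of_mem_adjoin h1
      exact ⟨_, T, hT, haT, rfl⟩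
    obtain ⟨T, hTB, haT, hcard⟩ := Nat.find_spec hex
    have hmin : ∀ T' : Finset k, (T' : Set k) ⊆ B → T'.card < T.card →
        a ∉ IntermediateField.adjoin (K0 p k) (T' : Set k) := by
      intro T' hT' hlt hmem
      rw [hcard] at hlt
      exact Nat.find_min hex hlt ⟨T', hT', hmem, rfl⟩
    have hTe : T = ∅ := by
      by_contra hne
      obtain ⟨b, hb⟩ := Finset.nonempty_iff_ne_empty.2 hne
      have h1 : a ∉ IntermediateField.adjoin (K0 p k) ((T.erase b : Finset k) : Set k) :=
        hmin _ (fun x hx => hTB (Finset.mem_of_mem_erase (by exact_mod_cast hx)))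
          (Finset.card_erase_lt_of_mem hb)
      have h2 : a ∈ IntermediateField.adjoin (K0 p k) (((T.erase b : Finset k) : Set k) ∪ {b}) := by
        refine IntermediateField.adjoin.mono _ _ _ ?_ haT
        intro x hx
        by_cases hxb : x = b
        · exact Or.inr hxb
        · exact Or.inl (by exact_mod_cast Finset.mem_erase.2 ⟨hxb, hx⟩)
      have h3 := exchange2 p h2 h1
      refine hB b (hTB hb) ?_
      have h4 : IntermediateField.adjoin (K0 p k) (((T.erase b : Finset k) : Set k) ∪ {a}) ≤
          IntermediateField.adjoin (K0 p k) (B \ {b}) := by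
        rw [IntermediateField.adjoin_le_iff]
        intro x hx
        rcases hx with hx | hx
        · have hx' : x ∈ T.erase b := by exact_mod_cast hx
          exact IntermediateField.subset_adjoin _ _ ⟨hTB (Finset.mem_of_mem_erase hx'),
            Finset.ne_of_mem_erase hx'⟩
        · rw [Set.mem_singleton_iff] at hx
          rw [hx]
          refine IntermediateField.adjoin.mono _ _ _ ?_ (ha' T)
          intro y hy
          exact ⟨hy.1, fun h => hy.2 (by rw [Set.mem_singleton_iff] at h; rw [h]; exact hb)⟩
      exact h4 h3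
    rw [hTe, Finset.coe_empty, IntermediateField.adjoin_empty, IntermediateField.mem_bot] at haT
    obtain ⟨⟨c, b, hbc⟩, hc⟩ := haT
    exact ⟨b, by rw [← hc]; exact hbc⟩

end pbasis

end Pool.Agent.Lib.MP_3029eb_ag
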