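import Mathlib
import Pool.Agent.Lib.MP_3029eb_ag.GoodDef

/-!
# Module G2 : good families for power series rings
-/

open PowerSeries

namespace Pool.Agent.Lib.MP_3029eb_ag


section

variable (p : ℕ) [Fact p.Prime] {A : Type} [CommRing A] [CharP A p]

/-- the coefficients of a `p`-th power -/
private lemma coeff_pow_char (f : A⟦X⟧) (n : ℕ) :
    coeff n (f ^ p) = if p ∣ n then (coeff (n / p) f) ^ p else 0 := by
  have hp : p.Prime := Fact.out
  have h1 : coeff n (f ^ p) = ((trunc (n + 1) f) ^ p).coeff n := by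
    have h2 : trunc (n + 1) (((trunc (n + 1) f : Polynomial A) : A⟦X⟧) ^ p) = trunc (n + 1) (f ^ p) :=
      trunc_trunc_pow f (n + 1) p
    have h3 := congrArg (fun q => q.coeff n) h2
    simp only [coeff_trunc, if_pos (Nat.lt_succ_self n)] at h3
    rw [← h3, ← Polynomial.coe_pow, Polynomial.coeff_coe]
  rw [h1, ← Polynomial.map_frobenius_expand, Polynomial.coeff_map, Polynomial.coeff_expand hp.pos]
  split_ifs with h
  · rw [coeff_trunc, if_pos (lt_of_le_of_lt (Nat.div_le_self n p) (Nat.lt_succ_self n))]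
    rfl
  · exact map_zero _

/-- power series in `X ^ p` with coefficients in `F` -/
private def F' (F : Subring A) : Subring A⟦X⟧ where
  carrier := {f | ∀ n, coeff n f ∈ F ∧ (¬ p ∣ n → coeff n f = 0)}
  mul_mem' := by
    intro f g hf hg n
    rw [coeff_mul]
    refine ⟨sum_mem fun x _ => mul_mem (hf x.1).1 (hg x.2).1, fun hn => ?_⟩
    refine Finset.sum_eq_zero fun x hx => ?_
    rw [Finset.HasAntidiagonal.mem_antidiagonal] at hx
    change coeff x.1 f * coeff x.2 g = 0
    by_cases h1 : p ∣ x.1
    · have h2 : ¬ p ∣ x.2 := fun h2 => hn (hx ▸ dvd_add h1 h2)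
      rw [(hg x.2).2 h2, mul_zero]
    · rw [(hf x.1).2 h1, zero_mul]
  one_mem' := by
    intro n
    rw [coeff_one]
    refine ⟨?_, fun hn => ?_⟩
    · split_ifs
      · exact one_mem _
      · exact zero_mem _
    · rw [if_neg]
      rintro rfl
      exact hn (dvd_zero p)
  add_mem' := by
    intro f g hf hg n
    rw [map_add]
    exact ⟨add_mem (hf n).1 (hg n).1, fun hn => by rw [(hf n).2 hn, (hg n).2 hn, add_zero]⟩
  zero_mem' := by
    intro n
    rw [map_zero]
    exact ⟨zero_mem _, fun _ => rfl⟩
  neg_mem' := by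
    intro f hf n
    rw [map_neg]
    exact ⟨neg_mem (hf n).1, fun hn => by rw [(hf n).2 hn, neg_zero]⟩

private lemma mem_F' {F : Subring A} {f : A⟦X⟧} :
    f ∈ F' p F ↔ ∀ n, coeff n f ∈ F ∧ (¬ p ∣ n → coeff n f = 0) := Iff.rfl

private lemma finite_F' (F : Subring A) (hF : Module.Finite F A) :
    Module.Finite (F' p F) A⟦X⟧ := by
  classical
  have hp : p.Prime := Fact.out
  obtain ⟨s, hs⟩ := hF.fg_top
  refine ⟨⟨(Finset.range p ×ˢ s).image (fun x => C x.2 * X ^ x.1), ?_⟩⟩
  rw [eq_top_iff]
  intro f _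
  -- coefficients
  have hex : ∀ a : A, ∃ c : A → F, a = ∑ x ∈ s, (c x : A) * x := by
    intro a
    have ha : a ∈ Submodule.span F (s : Set A) := by rw [hs]; trivial
    obtain ⟨c, hc⟩ := Submodule.mem_span_finset.1 ha
    refine ⟨fun x => c x, ?_⟩
    rw [← hc.2]
    rfl
  choose c hc using hex
  have key : f = ∑ x ∈ Finset.range p ×ˢ s,
      (PowerSeries.mk (fun n => if p ∣ n then ((c (coeff (n + x.1) f) x.2 : F) : A) else 0)) *
        (C x.2 * X ^ x.1) := by
    ext n
    rw [map_sum, Finset.sum_product]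
    rw [Finset.sum_eq_single (n % p)]
    · conv_lhs => rw [hc (coeff n f)]
      refine Finset.sum_congr rfl fun x _ => ?_
      simp only
      have h1 : n - n % p + n % p = n := Nat.sub_add_cancel (Nat.mod_le n p)
      rw [← mul_assoc, coeff_mul_X_pow', if_pos (Nat.mod_le n p), coeff_mul_C, coeff_mk,
        if_pos (Nat.dvd_sub_mod n), h1]
    · intro r hr hne
      refine Finset.sum_eq_zero fun x _ => ?_
      simp only
      rw [← mul_assoc, coeff_mul_X_pow']
      split_ifs with hrn
      · rw [coeff_mul_C, coeff_mk, if_neg, zero_mul]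
        intro hdvd
        apply hne
        have h1 : r % p = n % p := (Nat.modEq_iff_dvd' hrn).2 hdvd
        rw [← h1, Nat.mod_eq_of_lt (Finset.mem_range.1 hr)]
      · rfl
    · intro h
      exact absurd (Finset.mem_range.2 (Nat.mod_lt n hp.pos)) h
  rw [key]
  refine Submodule.sum_mem _ fun x hx => ?_
  have hmem : PowerSeries.mk (fun n => if p ∣ n then ((c (coeff (n + x.1) f) x.2 : F) : A) else 0) ∈
      F' p F := by
    intro n
    rw [coeff_mk]
    refine ⟨?_, fun hn => if_neg hn⟩
    split_ifs
    · exact (c _ _).2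
    · exact zero_mem _
  exact Submodule.smul_mem _ (⟨_, hmem⟩ : F' p F)
    (Submodule.subset_span (by
      rw [Finset.coe_image]
      exact ⟨x, hx, rfl⟩))

end

theorem good_powerSeries (p : ℕ) [Fact p.Prime] (A : Type) [CommRing A] [IsDomain A] [CharP A p]
    (h : Good p A) : Good p A⟦X⟧ := by
  classical
  have hp : p.Prime := Fact.out
  obtain ⟨ι, F, ⟨i0⟩, hdir, hpow, hfin, hcl, hint⟩ := h
  refine ⟨ι, fun i => F' p (F i), ⟨i0⟩, ?_, ?_, ?_, ?_, ?_⟩
  · intro i j
    obtain ⟨k, hki, hkj⟩ := hdir i j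
    exact ⟨k, fun f hf n => ⟨hki (hf n).1, (hf n).2⟩, fun f hf n => ⟨hkj (hf n).1, (hf n).2⟩⟩
  · intro i f n
    rw [coeff_pow_char]
    refine ⟨?_, fun hn => if_neg hn⟩
    split_ifs
    · exact hpow i _
    · exact zero_mem _
  · intro i
    exact finite_F' p (F i) (hfin i)
  · intro i v hv z hv0 hvz
    -- the lowest coefficient of `v`
    have hex : ∃ n, coeff n v ≠ 0 := by
      by_contra hcon
      push Not at hcon
      exact hv0 (by ext n; rw [hcon n, map_zero])
    set m := Nat.find hex with hm
    have hvm : coeff m v ≠ 0 := Nat.find_spec hex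
    have hlt : ∀ j, j < m → coeff j v = 0 := fun j hj => by
      by_contra hne
      exact Nat.find_min hex hj hne
    have hpm : p ∣ m := by
      by_contra hne
      exact hvm ((hv m).2 hne)
    intro n
    induction n using Nat.strong_induction_on with
    | _ n ih =>
    have hsum : coeff (m + n) (v * z) = coeff m v * coeff n z +
        ∑ x ∈ (Finset.HasAntidiagonal.antidiagonal (m + n)).filter (fun x => x.2 < n), coeff x.1 v * coeff x.2 z := by
      rw [coeff_mul, ← Finset.sum_filter_add_sum_filter_not (Finset.HasAntidiagonal.antidiagonal (m + n))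
        (fun x => x.2 < n), add_comm]
      congr 1
      rw [Finset.sum_eq_single (m, n)]
      · rintro ⟨x, y⟩ hx hne
        rw [Finset.mem_filter, Finset.HasAntidiagonal.mem_antidiagonal] at hx
        simp only at hx ⊢
        have h1 : x < m := by
          rcases Nat.lt_or_ge x m with h | h
          · exact h
          · exfalso
            apply hne
            have : x = m ∧ y = n := by omega
            rw [this.1, this.2]
        rw [hlt x h1, zero_mul]
      · intro h
        exfalso
        apply h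
        rw [Finset.mem_filter]
        exact ⟨Finset.HasAntidiagonal.mem_antidiagonal.2 rfl, lt_irrefl n⟩
    have hlow : ∀ x ∈ (Finset.HasAntidiagonal.antidiagonal (m + n)).filter (fun x => x.2 < n),
        coeff x.1 v * coeff x.2 z ∈ F i ∧ (¬ p ∣ n → coeff x.1 v * coeff x.2 z = 0) := by
      intro x hx
      rw [Finset.mem_filter, Finset.HasAntidiagonal.mem_antidiagonal] at hx
      have h1 := ih x.2 hx.2
      refine ⟨mul_mem (hv x.1).1 h1.1, fun hn => ?_⟩
      by_cases h2 : p ∣ x.2
      · have h3 : ¬ p ∣ x.1 := by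
          intro h3
          have h4 : p ∣ m + n := hx.1 ▸ dvd_add h3 h2
          exact hn ((Nat.dvd_add_right hpm).1 h4)
        rw [(hv x.1).2 h3, zero_mul]
      · rw [h1.2 h2, mul_zero]
    have hzn : coeff n z ∈ F i := by
      refine hcl i (coeff m v) (hv m).1 (coeff n z) hvm ?_
      have h1 : coeff m v * coeff n z = coeff (m + n) (v * z) -
          ∑ x ∈ (Finset.HasAntidiagonal.antidiagonal (m + n)).filter (fun x => x.2 < n),
            coeff x.1 v * coeff x.2 z := by
        rw [hsum]; ring
      rw [h1]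
      exact sub_mem (hvz (m + n)).1 (sum_mem fun x hx => (hlow x hx).1)
    refine ⟨hzn, fun hn => ?_⟩
    have h1 : ¬ p ∣ m + n := fun h => hn ((Nat.dvd_add_right hpm).1 h)
    have h2 : coeff m v * coeff n z = 0 := by
      rw [(hvz (m + n)).2 h1, Finset.sum_eq_zero (fun x hx => (hlow x hx).2 hn), add_zero] at hsum
      exact hsum.symm
    exact (mul_eq_zero.1 h2).resolve_left hvm
  · intro f hf
    have h1 : ∀ n, ∃ b, b ^ p = coeff (p * n) f := fun n => hint _ fun i => (hf i (p * n)).1
    choose b hb using h1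
    refine ⟨PowerSeries.mk b, ?_⟩
    ext n
    rw [coeff_pow_char]
    split_ifs with hn
    · obtain ⟨m, rfl⟩ := hn
      rw [Nat.mul_div_cancel_left m hp.pos, coeff_mk, hb]
    · exact ((hf i0 n).2 hn).symm

end Pool.Agent.Lib.MP_3029eb_ag
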