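import Pool.Agent.Lib.MP_3029eb_ag.K1bT
import Pool.Agent.Lib.MP_3029eb_ag.RB

/-!
Regularity of quadratic transforms of regular local rings.
-/

open IsLocalRing

namespace Pool.Agent.Lib.MP_3029eb_ag

/-- A quotient of `C` by `n` elements which make `y_i` a multiple of `x`. -/
theorem regular_quot_of_tower {A C : Type} [CommRing A] [IsLocalRing A] [IsNoetherianRing A]
    [CommRing C] [IsLocalRing C] [IsNoetherianRing C] (f : A →+* C) {n m : ℕ} (x : A)
    (y : Fin n → A) (t : Fin n → C) (g : Fin m → C)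
    (hA : maximalIdeal A = Ideal.span (insert x (Set.range y)))
    (hdA : ringKrullDim A = ((n + 1 : ℕ) : WithBot ℕ∞))
    (hC : maximalIdeal C = (maximalIdeal A).map f ⊔ Ideal.span (Set.range g))
    (hdC : ringKrullDim A + m ≤ ringKrullDim C) :
    IsRegularLocalRing (C ⧸ Ideal.span (Set.range fun i => f x * t i - f (y i))) ∧
      Ideal.Quotient.mk (Ideal.span (Set.range fun i => f x * t i - f (y i))) (f x) ≠ 0 := by
  classical
  set I : Ideal C := Ideal.span (Set.range fun i => f x * t i - f (y i)) with hI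
  have hxA : x ∈ maximalIdeal A := by
    rw [hA]; exact Ideal.subset_span (Set.mem_insert _ _)
  have hyA : ∀ i, y i ∈ maximalIdeal A := fun i => by
    rw [hA]; exact Ideal.subset_span (Or.inr ⟨i, rfl⟩)
  have hfC : ∀ a ∈ maximalIdeal A, f a ∈ maximalIdeal C := fun a ha => by
    rw [hC]; exact Ideal.mem_sup_left (Ideal.mem_map_of_mem f ha)
  have hIle : I ≤ maximalIdeal C := by
    rw [hI, Ideal.span_le]
    rintro _ ⟨i, rfl⟩
    exact sub_mem (Ideal.mul_mem_right _ _ (hfC x hxA)) (hfC _ (hyA i))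
  have hItop : I ≠ ⊤ := fun h => (maximalIdeal.isMaximal C).ne_top (top_le_iff.1 (h ▸ hIle))
  have : Nontrivial (C ⧸ I) := Ideal.Quotient.nontrivial_iff.2 hItop
  have : IsLocalRing (C ⧸ I) :=
    IsLocalRing.of_surjective' (Ideal.Quotient.mk I) Ideal.Quotient.mk_surjective
  -- the dimension of the quotient
  have hIfin : I.spanFinrank ≤ n := by
    have h1 := Submodule.spanFinrank_span_le_ncard_of_finite (R := C)
      (Set.finite_range fun i => f x * t i - f (y i))
    refine h1.trans ?_
    rw [← Set.image_univ]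
    refine (Set.ncard_image_le Set.finite_univ).trans ?_
    rw [Set.ncard_univ, Nat.card_eq_fintype_card, Fintype.card_fin]
  have hdim1 : ringKrullDim C ≤ ringKrullDim (C ⧸ I) + I.spanFinrank := by
    apply ringKrullDim_le_ringKrullDim_quotient_add_spanFinrank
    rw [IsLocalRing.ringJacobson_eq_maximalIdeal]
    exact hIle
  obtain ⟨d, hd⟩ := RB_dim_nat (C ⧸ I)
  have hdim : m + 1 ≤ d := by
    have h2 : ((n + 1 : ℕ) : WithBot ℕ∞) + m ≤ (d : WithBot ℕ∞) + I.spanFinrank := by
      rw [← hdA, ← hd]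
      exact hdC.trans hdim1
    have h3 : n + 1 + m ≤ d + I.spanFinrank := by exact_mod_cast h2
    omega
  -- generators of the maximal ideal of the quotient
  have hmapmax : ∀ c, Ideal.Quotient.mk I c ∈ maximalIdeal (C ⧸ I) ↔ c ∈ maximalIdeal C := by
    intro c
    rw [mem_maximalIdeal, mem_maximalIdeal, mem_nonunits_iff, mem_nonunits_iff]
    constructor
    · exact fun h hc => h (hc.map _)
    · intro h hc
      obtain ⟨b, hb⟩ := Ideal.Quotient.mk_surjective (I := I) (hc.unit⁻¹ : (C ⧸ I)ˣ).1
      have h4 : Ideal.Quotient.mk I (c * b - 1) = 0 := by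
        rw [map_sub, map_mul, hb, map_one, sub_eq_zero]
        exact hc.mul_val_inv
      have h5 : c * b - 1 ∈ maximalIdeal C := hIle (Ideal.Quotient.eq_zero_iff_mem.1 h4)
      have h6 : (1 : C) ∈ maximalIdeal C := by
        have := sub_mem (Ideal.mul_mem_right b _ ((mem_maximalIdeal c).2 h)) h5
        rwa [sub_sub_cancel] at this
      exact (Ideal.ne_top_iff_one _).1 (maximalIdeal.isMaximal C).ne_top h6
  have hfy : ∀ i, Ideal.Quotient.mk I (f (y i)) =
      Ideal.Quotient.mk I (f x) * Ideal.Quotient.mk I (t i) := by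
    intro i
    rw [← map_mul, eq_comm, Ideal.Quotient.mk_eq_mk_iff_sub_mem]
    exact Ideal.subset_span ⟨i, rfl⟩
  have hgens : maximalIdeal (C ⧸ I) = Ideal.span (insert (Ideal.Quotient.mk I (f x))
      (Set.range fun i => Ideal.Quotient.mk I (g i))) := by
    apply le_antisymm
    · intro z hz
      obtain ⟨c, rfl⟩ := Ideal.Quotient.mk_surjective z
      rw [hmapmax] at hz
      have h7 : maximalIdeal C ≤ (Ideal.span (insert (Ideal.Quotient.mk I (f x))
          (Set.range fun i => Ideal.Quotient.mk I (g i)))).comap (Ideal.Quotient.mk I) := by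
        rw [hC, hA, Ideal.map_span, sup_le_iff, Ideal.span_le, Ideal.span_le]
        constructor
        · rintro _ ⟨a, ha, rfl⟩
          rcases ha with rfl | ⟨i, rfl⟩
          · exact Ideal.subset_span (Set.mem_insert _ _)
          · rw [SetLike.mem_coe, Ideal.mem_comap, hfy]
            exact Ideal.mul_mem_right _ _ (Ideal.subset_span (Set.mem_insert _ _))
        · rintro _ ⟨i, rfl⟩
          exact Ideal.subset_span (Or.inr ⟨i, rfl⟩)
      exact h7 hz
    · rw [Ideal.span_le]
      rintro _ (rfl | ⟨i, rfl⟩)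
      · exact (hmapmax _).2 (hfC x hxA)
      · refine (hmapmax _).2 ?_
        rw [hC]
        exact Ideal.mem_sup_right (Ideal.subset_span ⟨i, rfl⟩)
  have hgcard : (Set.range fun i => Ideal.Quotient.mk I (g i)).ncard ≤ m := by
    rw [← Set.image_univ]
    refine (Set.ncard_image_le Set.finite_univ).trans ?_
    rw [Set.ncard_univ, Nat.card_eq_fintype_card, Fintype.card_fin]
  have hgfin : (Set.range fun i => Ideal.Quotient.mk I (g i)).Finite := Set.finite_range _
  refine ⟨IsRegularLocalRing.of_spanFinrank_maximalIdeal_le _ ?_, fun h0 => ?_⟩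
  · rw [hd, Nat.cast_le, hgens]
    refine (Submodule.spanFinrank_span_le_ncard_of_finite (hgfin.insert _)).trans ?_
    refine (Set.ncard_insert_le _ _).trans ?_
    omega
  · have h8 := ringKrullDim_le_spanFinrank_maximalIdeal (C ⧸ I)
    rw [hd, Nat.cast_le, hgens, h0] at h8
    have h9 : Ideal.span (insert (0 : C ⧸ I) (Set.range fun i => Ideal.Quotient.mk I (g i))) =
        Ideal.span (Set.range fun i => Ideal.Quotient.mk I (g i)) := by
      rw [Ideal.span_insert, Ideal.span_singleton_eq_bot.2 rfl, bot_sup_eq]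
    rw [h9] at h8
    have h10 := h8.trans (Submodule.spanFinrank_span_le_ncard_of_finite hgfin)
    omega

theorem QT_regular {A W : Type} [CommRing A] [IsRegularLocalRing A]
    [CommRing W] [IsDomain W] [IsLocalRing W] {φ : A →+* W} {x : A} (h : QTData φ x) :
    IsRegularLocalRing (QT φ x) := by
  have hφloc := h.local_hom
  have hdomA : IsDomain A := isDomain_of_isRegularLocalRing A
  have hxx : x ∉ maximalIdeal A ^ 2 := by
    intro hx2
    have h1 := h.dvd_pow 2 hx2
    obtain ⟨c, hc⟩ := h1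
    have h2 : φ x * c = 1 := by
      apply mul_left_cancel₀ h.x_ne
      rw [mul_one, ← mul_assoc, ← pow_two, ← hc]
    have h3 : IsUnit (φ x) := IsUnit.of_mul_eq_one _ h2
    have h4 : IsUnit x := isUnit_of_map_unit φ x h3
    exact (mem_nonunits_iff.1 ((mem_maximalIdeal x).1 h.x_mem)) h4
  obtain ⟨n, y, hM, hdA⟩ := exists_gens h.x_mem hxx
  have := h.isLocalRing
  have hofloc := h.isLocalHom_of
  have hyA : ∀ i, y i ∈ maximalIdeal A := fun i => by
    rw [hM]; exact Ideal.subset_span (Or.inr ⟨i, rfl⟩)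
  have hx1 : Associated (φ x) (φ x ^ 1) := by rw [pow_one]
  let v : Fin n → QT φ x := fun i => QT.mk φ x 1 (y i) x (by rw [pow_one]; exact hyA i)
    (by rw [pow_one]; exact h.x_mem) hx1
  have hv : ∀ i, QT.of φ x x * v i = QT.of φ x (y i) := fun i => QT.of_mul_mk ..
  obtain ⟨C, _, _, _, f, H, t, hHloc, hcomp, ht, ⟨m, g, hg, hdim⟩, hfrac⟩ :=
    tower (QT.of φ x) n v
  have hHf : ∀ a, H (f a) = QT.of φ x a := fun a => by rw [← hcomp]; rfl
  obtain ⟨hreg, hx0⟩ := regular_quot_of_tower f x y t g hM hdA hg hdim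
  set I : Ideal C := Ideal.span (Set.range fun i => f x * t i - f (y i)) with hI
  have hdomB : IsDomain (C ⧸ I) := isDomain_of_isRegularLocalRing (C ⧸ I)
  have hIker : ∀ a ∈ I, H a = 0 := by
    have : I ≤ RingHom.ker H := by
      rw [hI, Ideal.span_le]
      rintro _ ⟨i, rfl⟩
      change H _ = 0
      rw [map_sub, map_mul, hHf, hHf, ht, hv, sub_self]
    exact fun a ha => this ha
  let Hb : C ⧸ I →+* QT φ x := Ideal.Quotient.lift I H hIker
  -- surjectivity
  have hsurj : Function.Surjective Hb := by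
    intro z
    have hxc : ∀ a, QT.of φ x a ∈ H.range := fun a => ⟨f a, hHf a⟩
    have hy' : maximalIdeal A ≤ Ideal.span (Set.range (fun i : Option (Fin n) => i.elim x y)) := by
      rw [hM]
      refine Ideal.span_mono ?_
      rintro _ (rfl | ⟨i, rfl⟩)
      · exact ⟨none, rfl⟩
      · exact ⟨some i, rfl⟩
    obtain ⟨_, ⟨F, rfl⟩, _, ⟨G, rfl⟩, hGu, hz⟩ := QT.exists_quot h
      (fun i : Option (Fin n) => i.elim x y) hy'
      (fun i : Option (Fin n) => i.elim 1 v)
      (by
        rintro (_ | i)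
        · exact mul_one _
        · exact hv i) H.range hxc
      (by
        rintro (_ | i)
        · exact one_mem _
        · exact ⟨t i, ht i⟩) z
    have hG : IsUnit G := isUnit_of_map_unit H G hGu
    obtain ⟨G', hG'⟩ := hG.exists_right_inv
    refine ⟨Ideal.Quotient.mk I (G' * F), ?_⟩
    change H (G' * F) = z
    rw [map_mul, ← hz, ← mul_assoc, ← map_mul, mul_comm G', hG', map_one, one_mul]
  -- reduction to `A`
  have hred : ∀ w ∈ Subring.closure (Set.range f ∪ Set.range t), ∃ (N : ℕ) (s : A),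
      f x ^ N * w - f s ∈ I := by
    intro w hw
    induction hw using Subring.closure_induction with
    | mem w hw =>
      rcases hw with ⟨a, rfl⟩ | ⟨i, rfl⟩
      · exact ⟨0, a, by rw [pow_zero, one_mul, sub_self]; exact zero_mem _⟩
      · exact ⟨1, y i, by rw [pow_one]; exact Ideal.subset_span ⟨i, rfl⟩⟩
    | zero => exact ⟨0, 0, by rw [pow_zero, one_mul, map_zero, sub_self]; exact zero_mem _⟩
    | one => exact ⟨0, 1, by rw [pow_zero, one_mul, map_one, sub_self]; exact zero_mem _⟩
    | add a b _ _ ha hb =>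
      obtain ⟨N, s, hs⟩ := ha
      obtain ⟨N', s', hs'⟩ := hb
      refine ⟨N + N', x ^ N' * s + x ^ N * s', ?_⟩
      have : f x ^ (N + N') * (a + b) - f (x ^ N' * s + x ^ N * s') =
          f x ^ N' * (f x ^ N * a - f s) + f x ^ N * (f x ^ N' * b - f s') := by
        rw [map_add, map_mul, map_mul, map_pow, map_pow]
        ring
      rw [this]
      exact add_mem (Ideal.mul_mem_left _ _ hs) (Ideal.mul_mem_left _ _ hs')
    | neg a _ ha =>
      obtain ⟨N, s, hs⟩ := ha
      refine ⟨N, -s, ?_⟩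
      have : f x ^ N * -a - f (-s) = -(f x ^ N * a - f s) := by
        rw [map_neg]; ring
      rw [this]
      exact neg_mem hs
    | mul a b _ _ ha hb =>
      obtain ⟨N, s, hs⟩ := ha
      obtain ⟨N', s', hs'⟩ := hb
      refine ⟨N + N', s * s', ?_⟩
      have : f x ^ (N + N') * (a * b) - f (s * s') =
          f x ^ N' * b * (f x ^ N * a - f s) + f s * (f x ^ N' * b - f s') := by
        rw [map_mul]
        ring
      rw [this]
      exact add_mem (Ideal.mul_mem_left _ _ hs) (Ideal.mul_mem_left _ _ hs')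
  -- injectivity
  have hinj : Function.Injective Hb := by
    rw [injective_iff_map_eq_zero]
    intro z hz
    obtain ⟨a, rfl⟩ := Ideal.Quotient.mk_surjective z
    have hHa : H a = 0 := hz
    obtain ⟨u, -, huu, hua⟩ := hfrac a
    obtain ⟨N, s, hs⟩ := hred _ hua
    have h1 : H (f x ^ N * (u * a) - f s) = 0 := hIker _ hs
    rw [map_sub, map_mul, map_mul, hHa, mul_zero, mul_zero, zero_sub, neg_eq_zero, hHf] at h1
    have h2 : QT.of φ x s = QT.of φ x 0 := by rw [h1, map_zero]
    obtain ⟨c, hc, hcs⟩ := QT.of_eq_of_iff.1 h2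
    rw [mul_zero] at hcs
    have hc0 : c ≠ 0 := fun h0 => h.sig_ne hc (by rw [h0, map_zero])
    have hs0 : s = 0 := (mul_eq_zero.1 hcs).resolve_left hc0
    rw [hs0, map_zero, sub_zero] at hs
    have h3 : Ideal.Quotient.mk I (f x) ^ N * (Ideal.Quotient.mk I u * Ideal.Quotient.mk I a) =
        0 := by
      rw [← map_pow, ← map_mul, ← map_mul]
      exact Ideal.Quotient.eq_zero_iff_mem.2 hs
    have h4 : IsUnit (Ideal.Quotient.mk I u) := huu.map _
    exact (mul_eq_zero.1 ((mul_eq_zero.1 h3).resolve_left (pow_ne_zero N hx0))).resolve_left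
      h4.ne_zero
  exact IsRegularLocalRing.of_ringEquiv (RingEquiv.ofBijective Hb ⟨hinj, hsurj⟩)

end Pool.Agent.Lib.MP_3029eb_ag
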