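import Pool.Agent.Lib.MP_3029eb_ag.H44Defs

open IsLocalRing

namespace Pool.Agent.Lib.MP_3029eb_ag

/-- the transform of an ideal -/
noncomputable def tr {A W : Type} [CommRing A] [IsLocalRing A] [CommRing W] (φ : A →+* W) (x : A)
    (𝔟 : Ideal A) : Ideal (QT φ x) :=
  (𝔟.map (algebraMap A (Localization (sig φ x)))).comap (QTsub φ x).subtype

theorem disjoint_sig {A W : Type} [CommRing A] [IsLocalRing A] [CommRing W] [IsDomain W]
    {φ : A →+* W} {x : A} (h : QTData φ x) (𝔟 : Ideal A) (hb : 𝔟 ≤ RingHom.ker φ) :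
    Disjoint (sig φ x : Set A) (𝔟 : Set A) := by
  rw [Set.disjoint_left]
  intro s hs hs'
  exact h.sig_ne hs (hb hs')

theorem map_isPrime {A W : Type} [CommRing A] [IsLocalRing A] [CommRing W] [IsDomain W]
    {φ : A →+* W} {x : A} (h : QTData φ x) (𝔟 : Ideal A) [h𝔟 : 𝔟.IsPrime]
    (hb : 𝔟 ≤ RingHom.ker φ) : (𝔟.map (algebraMap A (Localization (sig φ x)))).IsPrime :=
  IsLocalization.isPrime_of_isPrime_disjoint (sig φ x) _ 𝔟 h𝔟 (disjoint_sig h 𝔟 hb)

theorem tr_isPrime {A W : Type} [CommRing A] [IsLocalRing A] [CommRing W] [IsDomain W]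
    {φ : A →+* W} {x : A} (h : QTData φ x) (𝔟 : Ideal A) [𝔟.IsPrime] (hb : 𝔟 ≤ RingHom.ker φ) :
    (tr φ x 𝔟).IsPrime := by
  have := map_isPrime h 𝔟 hb
  exact Ideal.comap_isPrime _ _

/-- membership in the transform -/
theorem mk_mem_tr {A W : Type} [CommRing A] [IsLocalRing A] [CommRing W] [IsDomain W]
    {φ : A →+* W} {x : A} (h : QTData φ x) (𝔟 : Ideal A) [h𝔟 : 𝔟.IsPrime]
    (hb : 𝔟 ≤ RingHom.ker φ)
    {N : ℕ} {b s : A} (hb' : b ∈ maximalIdeal A ^ N) (hs : s ∈ maximalIdeal A ^ N)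
    (hs' : Associated (φ s) (φ x ^ N)) :
    QT.mk φ x N b s hb' hs hs' ∈ tr φ x 𝔟 ↔ b ∈ 𝔟 := by
  rw [tr, Ideal.mem_comap, Subring.subtype_apply, QT.coe_mk, IsLocalization.mk'_mem_iff]
  have e := IsLocalization.under_map_of_isPrime_disjoint (sig φ x) (Localization (sig φ x)) h𝔟
    (disjoint_sig h 𝔟 hb)
  conv_rhs => rw [← e]
  rfl

theorem tr_height {A W : Type} [CommRing A] [IsLocalRing A] [CommRing W] [IsDomain W]
    {φ : A →+* W} {x : A} (h : QTData φ x) (𝔟 : Ideal A) [h𝔟 : 𝔟.IsPrime]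
    (hb : 𝔟 ≤ RingHom.ker φ) :
    (tr φ x 𝔟).height = 𝔟.height := by
  have hp := map_isPrime h 𝔟 hb
  let : Algebra (QT φ x) (Localization (sig φ x)) := (QTsub φ x).subtype.toAlgebra
  let M : Submonoid (QT φ x) := (sig φ x).map (QT.of φ x)
  have hloc : IsLocalization M (Localization (sig φ x)) := by
    refine ⟨?_, ?_, ?_⟩
    · rintro ⟨_, s, hs, rfl⟩
      exact IsLocalization.map_units (Localization (sig φ x)) ⟨s, hs⟩
    · intro z
      obtain ⟨a, s, rfl⟩ := IsLocalization.exists_mk'_eq (sig φ x) z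
      exact ⟨(QT.of φ x a, ⟨QT.of φ x s, s, s.2, rfl⟩), IsLocalization.mk'_spec _ a s⟩
    · intro a b hab
      exact ⟨1, by rw [Subtype.ext hab]⟩
  have e1 := IsLocalization.height_under M (𝔟.map (algebraMap A (Localization (sig φ x))))
  have e2 := IsLocalization.height_under (sig φ x)
    (𝔟.map (algebraMap A (Localization (sig φ x))))
  rw [IsLocalization.under_map_of_isPrime_disjoint (sig φ x) _ h𝔟 (disjoint_sig h 𝔟 hb)] at e2
  rw [e2, ← e1]
  rfl

theorem tr_le_ker {A W : Type} [CommRing A] [IsLocalRing A] [CommRing W] [IsDomain W]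
    [IsLocalRing W] {φ : A →+* W} {x : A} (h : QTData φ x) (𝔟 : Ideal A)
    (hb : 𝔟 ≤ RingHom.ker φ) : tr φ x 𝔟 ≤ RingHom.ker h.toW := by
  intro z hz
  rw [tr, Ideal.mem_comap] at hz
  have h1 : 𝔟.map (algebraMap A (Localization (sig φ x))) ≤ RingHom.ker h.toFrac := by
    rw [Ideal.map_le_iff_le_comap]
    intro a ha
    rw [Ideal.mem_comap, RingHom.mem_ker, h.toFrac_algebraMap, RingHom.mem_ker.1 (hb ha),
      map_zero]
  have h2 := RingHom.mem_ker.1 (h1 hz)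
  rw [RingHom.mem_ker]
  apply IsFractionRing.injective W (FractionRing W)
  rw [h.algebraMap_toW, map_zero]
  exact h2

theorem exists_lift_pow {S T : Type} [CommRing S] [CommRing T] [IsLocalRing S] [IsLocalRing T]
    {π : S →+* T} (hπ : Function.Surjective π) (N : ℕ) {b : T} (hb : b ∈ maximalIdeal T ^ N) :
    ∃ a ∈ maximalIdeal S ^ N, π a = b := by
  have h1 : (maximalIdeal S).map π = maximalIdeal T := by
    have hloc : IsLocalHom π := hπ.isLocalHom
    apply le_antisymm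
    · rw [Ideal.map_le_iff_le_comap]
      intro a ha
      rw [Ideal.mem_comap, mem_maximalIdeal, mem_nonunits_iff]
      exact fun hu => ((mem_maximalIdeal _).1 ha) (isUnit_of_map_unit π a hu)
    · intro t ht
      obtain ⟨a, rfl⟩ := hπ t
      apply Ideal.mem_map_of_mem
      rw [mem_maximalIdeal, mem_nonunits_iff]
      exact fun hu => ((mem_maximalIdeal _).1 ht) (hu.map π)
  rw [← h1, ← Ideal.map_pow] at hb
  exact (Ideal.mem_map_iff_of_surjective π hπ).1 hb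

theorem QT_map_surjective {S T W : Type} [CommRing S] [CommRing T] [IsLocalRing S] [IsLocalRing T]
    [CommRing W] {φS : S →+* W} {φT : T →+* W} {π : S →+* T} (hπ : Function.Surjective π)
    (hm : ∀ a ∈ maximalIdeal S, π a ∈ maximalIdeal T) (hφ : φT.comp π = φS) {x : S} {y : T}
    (hxy : π x = y) : Function.Surjective (QT.map (y := y) π hm hφ hxy) := by
  intro z
  obtain ⟨N, b, s, hb, hs, hs', rfl⟩ := QT.exists_rep z
  obtain ⟨b', hb', rfl⟩ := exists_lift_pow hπ N hb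
  obtain ⟨s', hs1, rfl⟩ := exists_lift_pow hπ N hs
  have hs2 : Associated (φS s') (φS x ^ N) := by subst hφ; subst hxy; exact hs'
  exact ⟨QT.mk φS x N b' s' hb' hs1 hs2, QT.map_mk π hm hφ hxy hb' hs1 hs2 hs'⟩

theorem ker_map_le_tr {S T W : Type} [CommRing S] [CommRing T] [IsLocalRing S] [IsLocalRing T]
    [CommRing W] [IsDomain W] [IsLocalRing W] {φS : S →+* W} {φT : T →+* W} {π : S →+* T}
    (hπ : Function.Surjective π)
    (hm : ∀ a ∈ maximalIdeal S, π a ∈ maximalIdeal T) (hφ : φT.comp π = φS) {x : S} {y : T}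
    (hxy : π x = y) (hS : QTData φS x) (_hT : QTData φT y)
    (𝔟 : Ideal S) [h𝔟 : 𝔟.IsPrime] (hb : 𝔟 ≤ RingHom.ker φS) (hk : RingHom.ker π ≤ 𝔟) :
    RingHom.ker (QT.map (y := y) π hm hφ hxy) ≤ tr φS x 𝔟 := by
  intro z hz
  rw [RingHom.mem_ker] at hz
  obtain ⟨N, b, s, hb1, hs, hs', rfl⟩ := QT.exists_rep z
  rw [mk_mem_tr hS 𝔟 hb]
  have e1 : QT.of φT y (π b) = 0 := by
    rw [← QT.map_of π hm hφ hxy, ← QT.of_mul_mk φS x N b s hb1 hs hs', map_mul, hz, mul_zero]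
  rw [← map_zero (QT.of φT y), QT.of_eq_of_iff] at e1
  obtain ⟨c, hc, hc'⟩ := e1
  obtain ⟨N', hcN, hcA⟩ := hc
  obtain ⟨c', hc1, rfl⟩ := exists_lift_pow hπ N' hcN
  rw [mul_zero, ← map_mul] at hc'
  have h1 : c' * b ∈ 𝔟 := hk hc'
  refine (h𝔟.mem_or_mem h1).resolve_left (fun hc2 => ?_)
  have h2 : φS c' = 0 := hb hc2
  refine hS.sig_ne (s := c') ⟨N', hc1, ?_⟩ h2
  subst hφ; subst hxy; exact hcA

end Pool.Agent.Lib.MP_3029eb_ag
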