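import Pool.Agent.Lib.MP_3029eb_ag.H44Defs

open IsLocalRing

namespace Pool.Agent.Lib.MP_3029eb_ag

section K5

variable {S W KW : Type} [CommRing S] [IsLocalRing S] [CommRing W] [IsDomain W] [IsLocalRing W]
  [Field KW] [Algebra W KW] [IsFractionRing W KW] {c : ℕ}

/-- derivations send `M ^ (N+1)` into `(φ x) ^ N • L0`. -/
theorem snd_mem_of_pow {φ : S →+* W} {x : S} (h : QTData φ x)
    (Φ : S →+* TrivSqZeroExt KW (Fin c → KW)) (hΦ1 : ∀ s, (Φ s).fst = algebraMap W KW (φ s))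
    (hΦ2 : ∀ s, (Φ s).snd ∈ L0 W KW c) (N : ℕ) :
    ∀ b ∈ maximalIdeal S ^ (N + 1), ∃ v ∈ L0 W KW c, (Φ b).snd = (φ x) ^ N • v := by
  induction N with
  | zero => intro b _; exact ⟨(Φ b).snd, hΦ2 b, by rw [pow_zero, one_smul]⟩
  | succ N ih =>
    intro b hb
    rw [pow_succ (maximalIdeal S) (N + 1)] at hb
    refine Submodule.mul_induction_on hb ?_ ?_
    · intro m hm n hn
      obtain ⟨v, hv, hv'⟩ := ih m hm
      obtain ⟨a, ha⟩ := h.x_dvd n hn
      obtain ⟨a', ha'⟩ := h.dvd_pow (N + 1) hm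
      refine ⟨a • v + a' • (Φ n).snd, add_mem (Submodule.smul_mem _ _ hv)
        (Submodule.smul_mem _ _ (hΦ2 n)), ?_⟩
      rw [map_mul, TrivSqZeroExt.snd_mul, hΦ1, hΦ1, hv', ha, ha']
      rw [op_smul_eq_smul, smul_add, algebraMap_smul, algebraMap_smul, smul_smul, smul_smul,
        smul_smul, add_comm]
      congr 2
      ring
    · rintro y z ⟨v, hv, hv'⟩ ⟨w, hw, hw'⟩
      exact ⟨v + w, add_mem hv hw, by
        rw [map_add, TrivSqZeroExt.snd_add, hv', hw', smul_add]⟩

theorem exists_Phi1 {φ : S →+* W} {x : S} (h : QTData φ x)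
    (Φ : S →+* TrivSqZeroExt KW (Fin c → KW)) (hΦ1 : ∀ s, (Φ s).fst = algebraMap W KW (φ s))
    (hΦ2 : ∀ s, (Φ s).snd ∈ L0 W KW c) :
    ∃ Φ1 : QT φ x →+* TrivSqZeroExt KW (Fin c → KW),
      (∀ z, (Φ1 z).fst = algebraMap W KW (h.toW z)) ∧
      (∀ z, (Φ1 z).snd ∈ L0 W KW c) ∧
      (∀ (N : ℕ) (b : S), 1 ≤ N → φ b = 0 →
        ∀ z : QT φ x, QT.of φ x (x ^ N) * z = QT.of φ x b →
          (φ x) ^ (N - 1) • (Φ1 z).snd = (Φ b).snd) := by
  have hinj := IsFractionRing.injective W KW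
  have hne : ∀ w : W, w ≠ 0 → algebraMap W KW w ≠ 0 := fun w hw h0 =>
    hw (hinj (by rw [h0, map_zero]))
  have hunit : ∀ s ∈ sig φ x, IsUnit (Φ s) := by
    intro s hs
    rw [TrivSqZeroExt.isUnit_iff_isUnit_fst, hΦ1, isUnit_iff_ne_zero]
    exact hne _ (h.sig_ne hs)
  let Ψ : QT φ x →+* TrivSqZeroExt KW (Fin c → KW) := QT.lift Φ hunit
  have hΨfst : ∀ z, (Ψ z).fst = algebraMap W KW (h.toW z) := by
    intro z
    obtain ⟨N, b, s, hb, hs, hs', rfl⟩ := QT.exists_rep z
    have e1 := h.toW_mk hb hs hs'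
    have e2 := congrArg TrivSqZeroExt.fst (QT.lift_mk Φ hunit hb hs hs')
    rw [TrivSqZeroExt.fst_mul, hΦ1, hΦ1, ← e1, map_mul] at e2
    exact mul_left_cancel₀ (hne _ (h.sig_ne (s := s) ⟨N, hs, hs'⟩)) e2
  -- scaling
  let sc : TrivSqZeroExt KW (Fin c → KW) →+* TrivSqZeroExt KW (Fin c → KW) :=
    { toFun := fun a => (a.fst, algebraMap W KW (φ x) • a.snd)
      map_one' := by
        apply TrivSqZeroExt.ext
        · rfl
        · show algebraMap W KW (φ x) • (0 : Fin c → KW) = 0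
          rw [smul_zero]
      map_mul' := fun a b => by
        apply TrivSqZeroExt.ext
        · rfl
        · show algebraMap W KW (φ x) • (a.fst • b.snd + MulOpposite.op b.fst • a.snd) =
            a.fst • (algebraMap W KW (φ x) • b.snd) +
            MulOpposite.op b.fst • (algebraMap W KW (φ x) • a.snd)
          rw [smul_add, op_smul_eq_smul, op_smul_eq_smul, smul_comm a.fst, smul_comm b.fst]
      map_zero' := by
        apply TrivSqZeroExt.ext
        · rfl
        · show algebraMap W KW (φ x) • (0 : Fin c → KW) = 0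
          rw [smul_zero]
      map_add' := fun a b => by
        apply TrivSqZeroExt.ext
        · rfl
        · show algebraMap W KW (φ x) • (a.snd + b.snd) = _
          rw [smul_add]; rfl }
  have hsc1 : ∀ a, (sc a).fst = a.fst := fun a => rfl
  have hsc2 : ∀ a, (sc a).snd = (φ x) • a.snd := fun a => by
    show algebraMap W KW (φ x) • a.snd = _
    rw [algebraMap_smul]
  refine ⟨sc.comp Ψ, fun z => ?_, fun z => ?_, ?_⟩
  · rw [RingHom.comp_apply, hsc1, hΨfst]
  · rw [RingHom.comp_apply, hsc2]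
    obtain ⟨N, b, s, hb, hs, hs', rfl⟩ := QT.exists_rep z
    have e1 := h.toW_mk hb hs hs'
    have e2 := congrArg TrivSqZeroExt.snd (QT.lift_mk Φ hunit hb hs hs')
    rw [TrivSqZeroExt.snd_mul, hΦ1, op_smul_eq_smul, hΨfst, algebraMap_smul, algebraMap_smul] at e2
    -- φ s • snd Ψ z + toW z • snd Φ s = snd Φ b
    cases N with
    | zero =>
      have hu : IsUnit (φ s) := by
        rw [pow_zero] at hs'
        exact hs'.symm.isUnit isUnit_one
      obtain ⟨u, hu⟩ := hu
      have e3 : (φ s) • (Ψ (QT.mk φ x 0 b s hb hs hs')).snd ∈ L0 W KW c := by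
        have : (φ s) • (Ψ (QT.mk φ x 0 b s hb hs hs')).snd =
            (Φ b).snd - h.toW (QT.mk φ x 0 b s hb hs hs') • (Φ s).snd := by
          rw [← e2]; exact (add_sub_cancel_right _ _).symm
        rw [this]
        exact sub_mem (hΦ2 b) (Submodule.smul_mem _ _ (hΦ2 s))
      refine Submodule.smul_mem _ _ ?_
      have e4 := Submodule.smul_mem _ ((u⁻¹ : Wˣ) : W) e3
      rw [smul_smul, ← hu, Units.inv_mul, one_smul] at e4
      exact e4
    | succ N =>
      obtain ⟨v, hv, hv'⟩ := snd_mem_of_pow h Φ hΦ1 hΦ2 N b hb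
      obtain ⟨w, hw, hw'⟩ := snd_mem_of_pow h Φ hΦ1 hΦ2 N s hs
      obtain ⟨u, hu⟩ := hs'
      -- φ s * u = φ x ^ (N+1)
      set ψ := (Ψ (QT.mk φ x (N + 1) b s hb hs ⟨u, hu⟩)).snd with hψ
      set t := h.toW (QT.mk φ x (N + 1) b s hb hs ⟨u, hu⟩) with ht
      have e5 : φ x ^ N • (φ x • ψ) = φ x ^ N • ((u : W) • (v - t • w)) := by
        have : φ x ^ N • (φ x • ψ) = (u : W) • (φ s • ψ) := by
          rw [smul_smul, smul_smul, ← pow_succ, ← hu, mul_comm]
        rw [this]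
        have e6 : φ s • ψ = φ x ^ N • (v - t • w) := by
          rw [smul_sub, ← hv', smul_comm _ t, ← hw', ← e2]
          exact (add_sub_cancel_right _ _).symm
        rw [e6, smul_comm]
      have e7 : φ x • ψ = (u : W) • (v - t • w) := by
        have hN : algebraMap W KW (φ x ^ N) ≠ 0 := hne _ (pow_ne_zero _ h.x_ne)
        have e8 : algebraMap W KW (φ x ^ N) • (φ x • ψ) =
            algebraMap W KW (φ x ^ N) • ((u : W) • (v - t • w)) := by
          rw [algebraMap_smul, algebraMap_smul]; exact e5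
        exact smul_right_injective _ hN e8
      rw [e7]
      exact Submodule.smul_mem _ _ (sub_mem hv (Submodule.smul_mem _ _ hw))
  · intro N b hN hb0 z hz
    rw [RingHom.comp_apply, hsc2]
    have e1 : h.toW z = 0 := by
      have := congrArg h.toW hz
      rw [map_mul, h.toW_of, h.toW_of, hb0, map_pow] at this
      exact (mul_eq_zero.1 this).resolve_left (pow_ne_zero _ h.x_ne)
    have e2 := congrArg (fun z => (Ψ z).snd) hz
    simp only [map_mul] at e2
    have e3 : Ψ (QT.of φ x (x ^ N)) = Φ (x ^ N) := QT.lift_of Φ hunit _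
    have e4 : Ψ (QT.of φ x b) = Φ b := QT.lift_of Φ hunit _
    rw [e3, e4, TrivSqZeroExt.snd_mul, hΦ1, hΨfst, e1, map_zero, MulOpposite.op_zero, zero_smul,
      add_zero, algebraMap_smul, map_pow] at e2
    rw [smul_smul, ← pow_succ, Nat.sub_add_cancel hN, e2]

end K5

end Pool.Agent.Lib.MP_3029eb_ag
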