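import Pool.Agent.Lib.MP_3029eb_ag.H44Defs
import Pool.Agent.Lib.MP_3029eb_ag.RB

/-!
Module K6: lattices in `KW ^ c` and the regularity criterion.
-/

open IsLocalRing

namespace Pool.Agent.Lib.MP_3029eb_ag

theorem K6_extract {W M ι : Type} [CommRing W] [IsLocalRing W] [AddCommGroup M] [Module W M]
    [Module.Finite W M] (v : ι → M) (hv : Submodule.span W (Set.range v) = ⊤) :
    ∃ (n : ℕ) (a : Fin n → ι), Submodule.span W (Set.range (v ∘ a)) = ⊤ ∧
      ∀ w : Fin n → W, (∑ i, w i • v (a i)) ∈ (maximalIdeal W • ⊤ : Submodule W M) →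
        ∀ i, w i ∈ maximalIdeal W := by
  classical
  let _ : Field (W ⧸ maximalIdeal W) := Ideal.Quotient.field (maximalIdeal W)
  set P : Submodule W M := maximalIdeal W • ⊤ with hP
  obtain ⟨κ, a, -, hspan, hli⟩ := exists_linearIndependent' (W ⧸ maximalIdeal W)
    (fun i => (P.mkQ (v i) : M ⧸ P))
  have hsp : ⊤ ≤ Submodule.span (W ⧸ maximalIdeal W)
      (Set.range ((fun i => (P.mkQ (v i) : M ⧸ P)) ∘ a)) := by
    rw [hspan]
    rintro z -
    obtain ⟨m, rfl⟩ := P.mkQ_surjective z
    have hm : m ∈ Submodule.span W (Set.range v) := by rw [hv]; trivial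
    have h2 : P.mkQ m ∈ Submodule.span W (Set.range (fun i => (P.mkQ (v i) : M ⧸ P))) := by
      have := Submodule.mem_map_of_mem (f := P.mkQ) hm
      rw [Submodule.map_span, ← Set.range_comp] at this
      exact this
    exact Submodule.span_le_restrictScalars W (W ⧸ maximalIdeal W) _ h2
  have hfinV : Module.Finite (W ⧸ maximalIdeal W) (M ⧸ P) :=
    Module.Finite.of_restrictScalars_finite W _ _
  have hκ : Finite κ := Module.Finite.finite_basis (Module.Basis.mk hli hsp)
  obtain ⟨n, ⟨e⟩⟩ := Finite.exists_equiv_fin κ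
  refine ⟨n, a ∘ e.symm, ?_, ?_⟩
  · rw [← IsLocalRing.map_mkQ_eq_top, Submodule.map_span, ← Set.range_comp, eq_top_iff]
    rintro z -
    have hz : z ∈ Submodule.span (W ⧸ maximalIdeal W)
      (Set.range ((fun i => (P.mkQ (v i) : M ⧸ P)) ∘ a)) := hsp trivial
    have hrange : Set.range ((fun i => (P.mkQ (v i) : M ⧸ P)) ∘ a) =
        Set.range (P.mkQ ∘ v ∘ a ∘ e.symm) := by
      ext y
      constructor
      · rintro ⟨k, rfl⟩; exact ⟨e k, by simp⟩
      · rintro ⟨k, rfl⟩; exact ⟨e.symm k, by simp⟩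
    rw [hrange] at hz
    induction hz using Submodule.span_induction with
    | mem x hx => exact Submodule.subset_span hx
    | zero => exact zero_mem _
    | add x y _ _ hx hy => exact add_mem hx hy
    | smul r x _ hx =>
      obtain ⟨r, rfl⟩ := Ideal.Quotient.mk_surjective r
      exact Submodule.smul_mem _ r hx
  · intro w hw i
    have hfk : Fintype κ := Fintype.ofFinite κ
    rw [Fintype.linearIndependent_iff] at hli
    have h1 := hli (fun k => Ideal.Quotient.mk (maximalIdeal W) (w (e k))) (by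
      have h2 : P.mkQ (∑ i, w i • v ((a ∘ e.symm) i)) = 0 := by
        rw [Submodule.mkQ_apply, Submodule.Quotient.mk_eq_zero]; exact hw
      rw [map_sum] at h2
      rw [← h2]
      refine Fintype.sum_equiv e _ _ (fun k => ?_)
      simp only [Function.comp_apply, Equiv.symm_apply_apply]
      rfl) (e.symm i)
    rw [Ideal.Quotient.eq_zero_iff_mem, Equiv.apply_symm_apply] at h1
    exact h1

section K6

variable {W KW : Type} [CommRing W] [IsDomain W] [IsDiscreteValuationRing W]
  [Field KW] [Algebra W KW] [IsFractionRing W KW] {c : ℕ}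

theorem colen_lt {E E1 : Submodule W (Fin c → KW)} (h : E ≤ E1) (h1 : E1 ≤ L0 W KW c)
    {w : Fin c → KW} (hw : w ∈ E1) (hw' : w ∉ E) (hfin : colen E ≠ ⊤) : colen E1 < colen E := by
  set A := E.comap (L0 W KW c).subtype with hA
  set B := E1.comap (L0 W KW c).subtype with hB
  have hAB : A ≤ B := Submodule.comap_mono h
  let g : (↥(L0 W KW c) ⧸ A) →ₗ[W] (↥(L0 W KW c) ⧸ B) := Submodule.factor hAB
  have hg : Function.Surjective g := Submodule.factor_surjective hAB
  have hex := Module.length_eq_add_of_exact (LinearMap.ker g).subtype g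
    (Submodule.subtype_injective _) hg (LinearMap.exact_subtype_ker_map g)
  have hnt : Nontrivial (LinearMap.ker g) := by
    refine ⟨⟨⟨A.mkQ ⟨w, h1 hw⟩, ?_⟩, 0, ?_⟩⟩
    · rw [LinearMap.mem_ker]
      change Submodule.factor hAB (Submodule.Quotient.mk _) = 0
      rw [← Submodule.mkQ_apply, Submodule.factor_mk, Submodule.mkQ_apply,
        Submodule.Quotient.mk_eq_zero]
      exact hw
    · intro h0
      have h0' := congrArg Subtype.val h0
      simp only [Submodule.mkQ_apply, ZeroMemClass.coe_zero, Submodule.Quotient.mk_eq_zero] at h0'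
      exact hw' h0'
  have hpos : 0 < Module.length W (LinearMap.ker g) := Module.length_pos_iff.2 hnt
  change Module.length W (↥(L0 W KW c) ⧸ B) < Module.length W (↥(L0 W KW c) ⧸ A)
  have hfin' : Module.length W (↥(L0 W KW c) ⧸ A) ≠ ⊤ := hfin
  rw [hex] at hfin' ⊢
  have hBfin : Module.length W (↥(L0 W KW c) ⧸ B) ≠ ⊤ := by
    intro h0; rw [h0, add_top] at hfin'; exact hfin' rfl
  calc Module.length W (↥(L0 W KW c) ⧸ B) < Module.length W (↥(L0 W KW c) ⧸ B) +
        Module.length W (LinearMap.ker g) := by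
        conv_lhs => rw [← add_zero (Module.length W (↥(L0 W KW c) ⧸ B))]
        exact (ENat.add_lt_add_iff_left hBfin).2 hpos
    _ = _ := add_comm _ _

omit [IsDomain W] [IsDiscreteValuationRing W] [IsFractionRing W KW] in
theorem K6_L0_fg : (L0 W KW c).FG := by
  have h : L0 W KW c = LinearMap.range (LinearMap.pi (fun i : Fin c =>
      (Algebra.linearMap W KW) ∘ₗ (LinearMap.proj i : (Fin c → W) →ₗ[W] W))) := by
    ext v
    constructor
    · intro hv
      choose w hw using hv
      exact ⟨w, funext hw⟩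
    · rintro ⟨w, rfl⟩ i
      exact ⟨w i, rfl⟩
  rw [h, LinearMap.range_eq_map]
  exact Submodule.FG.map _ Module.Finite.fg_top

omit [IsDomain W] [IsDiscreteValuationRing W] [IsFractionRing W KW] in
theorem K6_single_mem (i : Fin c) : (Pi.single i (1 : KW) : Fin c → KW) ∈ L0 W KW c := by
  intro j
  by_cases hij : j = i
  · subst hij; rw [Pi.single_eq_same]; exact one_mem _
  · rw [Pi.single_eq_of_ne hij]; exact zero_mem _

omit [IsFractionRing W KW] in
theorem K6_exists_smul_mem {E : Submodule W (Fin c → KW)} (hfin : colen E ≠ ⊤)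
    {v : Fin c → KW} (hv : v ∈ L0 W KW c) : ∃ w : W, w ≠ 0 ∧ w • v ∈ E := by
  obtain ⟨ϖ, hϖ⟩ := IsDiscreteValuationRing.exists_irreducible W
  set A := E.comap (L0 W KW c).subtype with hA
  have hfl : IsFiniteLength W (↥(L0 W KW c) ⧸ A) := Module.length_ne_top_iff.1 hfin
  have hAr : IsArtinian W (↥(L0 W KW c) ⧸ A) := (isFiniteLength_iff_isNoetherian_isArtinian.1 hfl).2
  set x : ↥(L0 W KW c) ⧸ A := A.mkQ ⟨v, hv⟩ with hx
  obtain ⟨n, y, hy⟩ := IsArtinian.exists_pow_succ_smul_dvd ϖ
    (⟨x, Submodule.mem_span_singleton_self x⟩ : Submodule.span W {x})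
  obtain ⟨y, hy0⟩ := y
  rw [Submodule.mem_span_singleton] at hy0
  obtain ⟨r, rfl⟩ := hy0
  have hy1 := congrArg Subtype.val hy
  simp only [Submodule.coe_smul] at hy1
  refine ⟨ϖ ^ n - ϖ ^ (n + 1) * r, ?_, ?_⟩
  · have h1 : ϖ ^ n - ϖ ^ (n + 1) * r = ϖ ^ n * (1 - ϖ * r) := by ring
    rw [h1]
    refine mul_ne_zero (pow_ne_zero _ hϖ.ne_zero) ?_
    intro h0
    apply hϖ.not_isUnit
    exact IsUnit.of_mul_eq_one r (by rw [sub_eq_zero] at h0; exact h0.symm)
  · have h2 : A.mkQ ((ϖ ^ n - ϖ ^ (n + 1) * r) • ⟨v, hv⟩) = 0 := by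
      rw [map_smul, ← hx, sub_smul, mul_smul, hy1, sub_self]
    rw [Submodule.mkQ_apply, Submodule.Quotient.mk_eq_zero] at h2
    exact h2

theorem K6_rank {E : Submodule W (Fin c → KW)} (hfin : colen E ≠ ⊤)
    {n : ℕ} (u : Fin n → (Fin c → KW)) (hu : E ≤ Submodule.span W (Set.range u)) : c ≤ n := by
  have hle : (Submodule.span W (Set.range u) : Set (Fin c → KW)) ⊆
      (Submodule.span KW (Set.range u)) := Submodule.span_subset_span W KW _
  have htop : Submodule.span KW (Set.range u) = ⊤ := by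
    rw [eq_top_iff, ← (Pi.basisFun KW (Fin c)).span_eq, Submodule.span_le]
    rintro _ ⟨i, rfl⟩
    rw [Pi.basisFun_apply]
    obtain ⟨w, hw, hwE⟩ := K6_exists_smul_mem hfin (K6_single_mem (W := W) (KW := KW) i)
    have h1 : w • (Pi.single i (1 : KW) : Fin c → KW) ∈ Submodule.span KW (Set.range u) :=
      hle (hu hwE)
    have hw' : algebraMap W KW w ≠ 0 := by
      intro h0
      exact hw (IsFractionRing.injective W KW (by rw [h0, map_zero]))
    rw [← algebraMap_smul KW w] at h1
    exact (Submodule.smul_mem_iff _ hw').1 h1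
  have h2 := finrank_range_le_card (R := KW) u
  unfold Set.finrank at h2
  rw [htop, finrank_top, Module.finrank_fin_fun, Fintype.card_fin] at h2
  exact h2

theorem reg_crit {S T : Type} [CommRing S] [IsRegularLocalRing S] [CommRing T] [IsLocalRing T]
    (π : S →+* T) (hπ : Function.Surjective π) (φ : T →+* W) (_hφ : IsLocalHom φ)
    (𝔟 : Ideal S) [𝔟.IsPrime] (h1 : RingHom.ker π ≤ 𝔟) (h3 : 𝔟.height ≤ c)
    (_h2 : 𝔟 ≤ RingHom.ker (φ.comp π))
    (Φ : S →+* TrivSqZeroExt KW (Fin c → KW))
    (hΦ1 : ∀ s, (Φ s).fst = algebraMap W KW (φ (π s)))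
    (hΦ2 : ∀ s, (Φ s).snd ∈ L0 W KW c)
    (hfin : colen (Espan (RingHom.ker π) Φ : Submodule W (Fin c → KW)) ≠ ⊤)
    (ϖ : W) (hϖ : ϖ ∈ maximalIdeal W)
    (hg : ∀ g ∈ RingHom.ker π, g ∈ maximalIdeal S ^ 2 →
      ∃ e ∈ (Espan (RingHom.ker π) Φ : Submodule W (Fin c → KW)), (Φ g).snd = ϖ • e) :
    IsRegularLocalRing T := by
  classical
  set E : Submodule W (Fin c → KW) := Espan (RingHom.ker π) Φ with hE
  have hEL : E ≤ L0 W KW c := by
    rw [hE, Espan, Submodule.span_le]
    rintro _ ⟨s, -, rfl⟩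
    exact hΦ2 s
  have hLn : IsNoetherian W (L0 W KW c) :=
    isNoetherian_of_fg_of_noetherian _ K6_L0_fg
  have hEn : IsNoetherian W E := isNoetherian_of_le hEL
  -- the generating family
  let v : RingHom.ker π → E := fun s => ⟨(Φ (s : S)).snd, Submodule.subset_span ⟨s, s.2, rfl⟩⟩
  have hv : Submodule.span W (Set.range v) = ⊤ := by
    rw [eq_top_iff]
    rintro ⟨z, hz⟩ -
    have key : ∀ z (hz : z ∈ E), (⟨z, hz⟩ : E) ∈ Submodule.span W (Set.range v) := by
      intro z hz
      rw [hE, Espan] at hz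
      induction hz using Submodule.span_induction with
      | mem x hx =>
        obtain ⟨s, hs, rfl⟩ := hx
        exact Submodule.subset_span ⟨⟨s, hs⟩, rfl⟩
      | zero => exact zero_mem _
      | add x y hx hy h1 h2 => exact add_mem (h1 hx) (h2 hy)
      | smul r x hx h1 => exact Submodule.smul_mem _ r (h1 hx)
    exact key z hz
  obtain ⟨n, a, hspan, hind⟩ := K6_extract v hv
  have hcn : c ≤ n := by
    refine K6_rank hfin (fun i => ((v (a i) : E) : Fin c → KW)) ?_
    intro z hz
    have h0 : (⟨z, hz⟩ : E) ∈ Submodule.span W (Set.range (v ∘ a)) := by rw [hspan]; trivial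
    have h0' := Submodule.mem_map_of_mem (f := E.subtype) h0
    rw [Submodule.map_span, ← Set.range_comp] at h0'
    exact h0'
  -- the elements
  let f : Fin c → S := fun i => (a (Fin.castLE hcn i) : S)
  have hfk : ∀ i, π (f i) = 0 := fun i => (a (Fin.castLE hcn i)).2
  have hfM : ∀ i, f i ∈ maximalIdeal S := by
    intro i
    rw [mem_maximalIdeal, mem_nonunits_iff]
    intro hu
    have := hu.map π
    rw [hfk i] at this
    exact not_isUnit_zero this
  have hfind : ∀ b : Fin c → S, (∑ i, b i * f i) ∈ maximalIdeal S ^ 2 →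
      ∀ i, b i ∈ maximalIdeal S := by
    intro b hb i
    by_contra hbi
    have hbu : IsUnit (b i) := by
      rw [mem_maximalIdeal, mem_nonunits_iff, not_not] at hbi; exact hbi
    obtain ⟨e, he, hge⟩ := hg (∑ i, b i * f i) (by
      rw [RingHom.mem_ker, map_sum]
      exact Finset.sum_eq_zero (fun i _ => by rw [map_mul, hfk, mul_zero])) hb
    have hsnd : (Φ (∑ i, b i * f i)).snd =
        ∑ i, φ (π (b i)) • ((v (a (Fin.castLE hcn i)) : E) : Fin c → KW) := by
      rw [map_sum, TrivSqZeroExt.snd_sum]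
      refine Finset.sum_congr rfl (fun i _ => ?_)
      rw [map_mul, TrivSqZeroExt.snd_mul, hΦ1, hΦ1, hfk, map_zero, map_zero]
      rw [MulOpposite.op_zero, zero_smul, add_zero, algebraMap_smul]
    have hmem : (∑ j, (Function.extend (Fin.castLE hcn) (fun i => φ (π (b i))) 0 j) • v (a j)) ∈
        (maximalIdeal W • ⊤ : Submodule W E) := by
      have heq : (∑ j, (Function.extend (Fin.castLE hcn) (fun i => φ (π (b i))) 0 j) • v (a j)) =
          ϖ • (⟨e, he⟩ : E) := by
        apply Subtype.ext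
        rw [Submodule.coe_smul, ← hge, hsnd, AddSubmonoidClass.coe_finsetSum]
        symm
        have hinj : Function.Injective (Fin.castLE hcn) := Fin.castLE_injective hcn
        rw [← Finset.sum_subset (Finset.subset_univ (Finset.univ.image (Fin.castLE hcn)))]
        · rw [Finset.sum_image (fun x _ y _ hxy => hinj hxy)]
          refine Finset.sum_congr rfl (fun i _ => ?_)
          rw [hinj.extend_apply, Submodule.coe_smul]
        · intro j _ hj
          rw [Function.extend_apply', Pi.zero_apply, zero_smul, ZeroMemClass.coe_zero]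
          rintro ⟨i, rfl⟩
          exact hj (Finset.mem_image_of_mem _ (Finset.mem_univ i))
      rw [heq]
      exact Submodule.smul_mem_smul hϖ trivial
    have := hind _ hmem (Fin.castLE hcn i)
    rw [(Fin.castLE_injective hcn).extend_apply] at this
    exact (mem_nonunits_iff.1 ((mem_maximalIdeal _).1 this)) ((hbu.map π).map φ)
  obtain ⟨hprime, hht, hreg⟩ := reg_quot f hfM hfind
  have hpk : Ideal.span (Set.range f) ≤ RingHom.ker π := by
    rw [Ideal.span_le]
    rintro _ ⟨i, rfl⟩
    exact hfk i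
  have heq : Ideal.span (Set.range f) = RingHom.ker π := by
    refine le_antisymm hpk ?_
    by_contra hlt
    have hlt' : Ideal.span (Set.range f) < 𝔟 := by
      refine lt_of_le_of_ne (hpk.trans h1) ?_
      intro h0
      exact hlt (h0 ▸ h1)
    have h4 := Ideal.height_strict_mono_of_isPrime_of_isPrime hlt'
    exact absurd (h3.trans hht) (not_le.2 h4)
  exact IsRegularLocalRing.of_ringEquiv ((Ideal.quotEquivOfEq heq).trans
    (RingHom.quotientKerEquivOfSurjective hπ))

end K6

end Pool.Agent.Lib.MP_3029eb_ag
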