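import Pool.Agent.Lib.MP_3029eb_ag.K1a
import Pool.Agent.Lib.MP_3029eb_ag.K1b
import Pool.Agent.Lib.MP_3029eb_ag.K2
import Pool.Agent.Lib.MP_3029eb_ag.K2b
import Pool.Agent.Lib.MP_3029eb_ag.K3
import Pool.Agent.Lib.MP_3029eb_ag.K4
import Pool.Agent.Lib.MP_3029eb_ag.K5
import Pool.Agent.Lib.MP_3029eb_ag.K6

open IsLocalRing

namespace Pool.Agent.Lib.MP_3029eb_ag

section

variable {K : Type} [Field K] (V : ValuationSubring K)
  {W KW : Type} [CommRing W] [IsDomain W] [IsDiscreteValuationRing W]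
  [Field KW] [Algebra W KW] [IsFractionRing W KW] (τ : K →+* KW)

theorem valuation_eq_one_iff (hV : ∀ z : K, z ∈ V ↔ τ z ∈ (algebraMap W KW).range)
    {z : K} {w : W} (h : algebraMap W KW w = τ z) : V.valuation z = 1 ↔ IsUnit w := by
  have hinj := IsFractionRing.injective W KW
  have hz : z ∈ V := (hV z).2 ⟨w, h⟩
  constructor
  · intro h1
    have hz0 : z ≠ 0 := by
      intro h0; rw [h0, map_zero] at h1; exact zero_ne_one h1
    have h2 : z⁻¹ ∈ V := by
      rw [← V.valuation_le_one_iff, map_inv₀, h1, inv_one]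
    obtain ⟨w', hw'⟩ := (hV _).1 h2
    refine IsUnit.of_mul_eq_one w' (hinj ?_)
    rw [map_mul, h, hw', ← map_mul, mul_inv_cancel₀ hz0, map_one, map_one]
  · rintro ⟨u, rfl⟩
    have h3 : τ z⁻¹ = algebraMap W KW (↑u⁻¹) := by
      rw [map_inv₀, ← h]
      refine inv_eq_of_mul_eq_one_right ?_
      rw [← map_mul, Units.mul_inv, map_one]
    have h2 : z⁻¹ ∈ V := (hV _).2 ⟨_, h3.symm⟩
    have hz0 : z ≠ 0 := by
      rintro rfl
      rw [map_zero] at h
      exact u.ne_zero (hinj (by rw [h, map_zero]))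
    have h4 := (V.valuation_le_one_iff z).2 hz
    have h5 := (V.valuation_le_one_iff _).2 h2
    rw [map_inv₀] at h5
    refine le_antisymm h4 ?_
    have h6 : V.valuation z ≠ 0 := by simpa using hz0
    calc (1 : _) = V.valuation z * (V.valuation z)⁻¹ := (mul_inv_cancel₀ h6).symm
      _ ≤ V.valuation z * 1 := by gcongr
      _ = _ := mul_one _

theorem exists_min_value {R : Type} [CommRing R] [IsLocalRing R] (φ : R →+* W)
    (h : ∃ y ∈ maximalIdeal R, φ y ≠ 0) :
    ∃ x ∈ maximalIdeal R, φ x ≠ 0 ∧ ∀ y ∈ maximalIdeal R, φ x ∣ φ y := by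
  let v := IsDiscreteValuationRing.addVal W
  obtain ⟨y0, hy0, hy0'⟩ := h
  have hne : (Set.image (fun y => v (φ y)) (maximalIdeal R : Set R)).Nonempty :=
    ⟨_, y0, hy0, rfl⟩
  obtain ⟨x, hx, hx'⟩ := WellFounded.min_mem (r := (· < · : ℕ∞ → ℕ∞ → Prop)) wellFounded_lt _ hne
  have hmin : ∀ y ∈ maximalIdeal R, v (φ x) ≤ v (φ y) := by
    intro y hy
    have := WellFounded.not_lt_min (r := (· < · : ℕ∞ → ℕ∞ → Prop)) wellFounded_lt
      (s := (Set.image (fun y => v (φ y)) (maximalIdeal R : Set R))) (x := v (φ y)) ⟨y, hy, rfl⟩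
    simp only at hx'
    rw [← hx'] at this
    exact not_lt.1 this
  refine ⟨x, hx, ?_, fun y hy => ?_⟩
  · intro h0
    have := hmin y0 hy0
    rw [h0, (IsDiscreteValuationRing.addVal_eq_top_iff).2 rfl, top_le_iff,
      IsDiscreteValuationRing.addVal_eq_top_iff] at this
    exact hy0' this
  · exact (IsDiscreteValuationRing.addVal_le_iff_dvd).1 (hmin y hy)

theorem QTData_of_sameCompletion {R T : Type} [CommRing R] [CommRing T] [IsLocalRing R]
    [IsLocalRing T] {ι : R →+* T} (hι : SameCompletion ι) (φ : T →+* W) (hφ : IsLocalHom φ)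
    {x : R} (h : QTData (φ.comp ι) x) : QTData φ (ι x) := by
  refine ⟨hφ, hι.map_mem x h.x_mem, h.x_ne, fun t ht => ?_⟩
  -- φ t is divisible by φ (ι x) modulo arbitrarily high powers of the maximal ideal of W
  have key : ∀ k : ℕ, 1 ≤ k → ∃ r ∈ maximalIdeal R, t - ι r ∈ maximalIdeal T ^ k := by
    intro k hk
    induction k, hk using Nat.le_induction with
    | base => exact ⟨0, zero_mem _, by simpa using ht⟩
    | succ k hk ih =>
      obtain ⟨r, hr, hr'⟩ := ih
      obtain ⟨r', hr1, hr1'⟩ := hι.approx k _ hr'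
      refine ⟨r + r', add_mem hr (Ideal.pow_le_self (by omega) hr1), ?_⟩
      rw [map_add, ← sub_sub]; exact hr1'
  obtain ⟨ϖ, hϖ⟩ := IsDiscreteValuationRing.exists_irreducible W
  obtain ⟨n, hn⟩ := IsDiscreteValuationRing.associated_pow_irreducible h.x_ne hϖ
  obtain ⟨r, hr, hr'⟩ := key (n + 1) (by omega)
  have h1 : φ (t - ι r) ∈ maximalIdeal W ^ (n + 1) := by
    have : (maximalIdeal T).map φ ≤ maximalIdeal W := by
      rw [Ideal.map_le_iff_le_comap]
      intro a ha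
      exact (IsLocalRing.local_hom_TFAE φ).out 0 4 |>.1 hφ ▸ ha
    exact Ideal.pow_right_mono this _ (by rw [← Ideal.map_pow]; exact Ideal.mem_map_of_mem _ hr')
  rw [hϖ.maximalIdeal_eq, Ideal.span_singleton_pow, Ideal.mem_span_singleton] at h1
  have h2 : φ (ι x) ∣ φ (t - ι r) :=
    (hn.dvd.trans (pow_dvd_pow _ (Nat.le_succ n))).trans h1
  have h3 := h.x_dvd r hr
  have : φ t = φ (t - ι r) + φ (ι r) := by rw [← map_add]; congr 1; ring
  rw [this]
  exact dvd_add h2 h3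

theorem main_induction (hV : ∀ z : K, z ∈ V ↔ τ z ∈ (algebraMap W KW).range) (c : ℕ) :
    ∀ (n : ℕ) (R T S : Type) [CommRing R] [CommRing T] [CommRing S] [IsNoetherianRing R]
      [IsLocalRing R] [IsLocalRing T] [IsRegularLocalRing S]
      (j : R →+* K) (_hj : Function.Injective j) (ι : R →+* T) (_hι : SameCompletion ι)
      (π : S →+* T) (_hπ : Function.Surjective π) (φ : T →+* W) (_hφ : IsLocalHom φ)
      (_hcomp : ∀ r, algebraMap W KW (φ (ι r)) = τ (j r))
      (𝔟 : Ideal S) [𝔟.IsPrime] (_h1 : RingHom.ker π ≤ 𝔟) (_h2 : 𝔟 ≤ RingHom.ker (φ.comp π))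
      (_h3 : 𝔟.height ≤ c) (Φ : S →+* TrivSqZeroExt KW (Fin c → KW))
      (_hΦ1 : ∀ s, (Φ s).fst = algebraMap W KW (φ (π s)))
      (_hΦ2 : ∀ s, (Φ s).snd ∈ L0 W KW c)
      (_hcol : colen (Espan (RingHom.ker π) Φ : Submodule W (Fin c → KW)) = n),
      LU V j.range := by
  intro n
  induction n using Nat.strong_induction_on with
  | _ n IH =>
  intro R T S _ _ _ _ _ _ _ j hj ι hι π hπ φ hφ hcomp 𝔟 _ h1 h2 h3 Φ hΦ1 hΦ2 hcol
  have hinj := IsFractionRing.injective W KW
  have hjV : ∀ r, j r ∈ V := fun r => (hV _).2 ⟨_, hcomp r⟩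
  have hιloc : ∀ r, r ∈ maximalIdeal R ↔ ¬ IsUnit (φ (ι r)) := by
    intro r
    constructor
    · intro hr hu
      have := hι.map_mem r hr
      rw [mem_maximalIdeal, mem_nonunits_iff] at this
      exact this (isUnit_of_map_unit φ _ hu)
    · intro hr
      rw [mem_maximalIdeal, mem_nonunits_iff]
      exact fun hu => hr ((hu.map ι).map φ)
  by_cases hreg : IsRegularLocalRing R
  · refine LU_of_regular V j hj hjV (fun r => ?_)
    rw [valuation_eq_one_iff V τ hV (hcomp r), iff_comm]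
    constructor
    · exact fun hu => (hu.map ι).map φ
    · intro hu
      by_contra hn
      exact (hιloc r).1 ((mem_maximalIdeal r).2 hn) hu
  -- `R` is not a field
  have hdom : IsDomain R := hj.isDomain
  have hex : ∃ y ∈ maximalIdeal R, (φ.comp ι) y ≠ 0 := by
    by_contra hcon
    push Not at hcon
    apply hreg
    have hbot : maximalIdeal R = ⊥ := by
      rw [eq_bot_iff]
      intro y hy
      have := hcomp y
      have h0 : φ (ι y) = 0 := hcon y hy
      rw [h0, map_zero, eq_comm, map_eq_zero, map_eq_zero_iff j hj] at this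
      exact this
    have hf : IsField R := IsLocalRing.isField_iff_maximalIdeal_eq.2 hbot
    have : IsPrincipalIdealRing R := by
      let := hf.toField
      infer_instance
    infer_instance
  obtain ⟨x, hx, hx0, hxmin⟩ := exists_min_value (φ.comp ι) hex
  have hφι : IsLocalHom (φ.comp ι) := by
    refine ⟨fun r hr => ?_⟩
    by_contra hn
    exact (hιloc r).1 ((mem_maximalIdeal r).2 hn) hr
  have hR : QTData (φ.comp ι) x := ⟨hφι, hx, hx0, hxmin⟩
  have hT : QTData φ (ι x) := QTData_of_sameCompletion hι φ hφ hR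
  obtain ⟨y, hy⟩ := hπ (ι x)
  have hπloc : IsLocalHom π := hπ.isLocalHom
  have hπm : ∀ a ∈ maximalIdeal S, π a ∈ maximalIdeal T := by
    intro a ha
    rw [mem_maximalIdeal, mem_nonunits_iff] at ha ⊢
    exact fun hu => ha (isUnit_of_map_unit π a hu)
  have hS : QTData (φ.comp π) y := by
    refine ⟨inferInstance, ?_, ?_, ?_⟩
    · rw [mem_maximalIdeal, mem_nonunits_iff]
      intro hu
      have := hu.map π
      rw [hy] at this
      exact (mem_nonunits_iff.1 ((mem_maximalIdeal _).1 hT.x_mem)) this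
    · rw [RingHom.comp_apply, hy]; exact hT.x_ne
    · intro a ha
      rw [RingHom.comp_apply, hy]
      exact hT.x_dvd _ (hπm a ha)
  have hkerm : RingHom.ker π ≤ maximalIdeal S := IsLocalRing.le_maximalIdeal (by
    rw [Ne, Ideal.eq_top_iff_one, RingHom.mem_ker, map_one]
    exact one_ne_zero)
  by_cases hg : ∀ g ∈ RingHom.ker π, g ∈ maximalIdeal S ^ 2 →
      ∃ e ∈ (Espan (RingHom.ker π) Φ : Submodule W (Fin c → KW)), (Φ g).snd = φ (ι x) • e
  · exfalso
    apply hreg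
    have hTreg : IsRegularLocalRing T := by
      refine reg_crit (c := c) (KW := KW) π hπ φ hφ 𝔟 h1 h3 h2 Φ hΦ1 hΦ2 ?_ (φ (ι x)) ?_ hg
      · rw [hcol]; exact ENat.natCast_ne_top n
      · rw [mem_maximalIdeal, mem_nonunits_iff]
        exact (hιloc x).1 hx
    exact regular_of_sameCompletion hι
  push Not at hg
  obtain ⟨g, hgk, hg2, hgE⟩ := hg
  -- the quadratic transforms
  have iR := hR.isLocalRing
  have iT := hT.isLocalRing
  have iS := hS.isLocalRing
  have iRn : IsNoetherianRing (QT (φ.comp ι) x) := QT_noetherian hR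
  have iSr : IsRegularLocalRing (QT (φ.comp π) y) := QT_regular hS
  obtain ⟨Φ1, hΦ11, hΦ12, hΦ13⟩ := exists_Phi1 (c := c) (KW := KW) hS Φ (fun s => by
    rw [hΦ1]; rfl) hΦ2
  let ι1 := QT.map (y := ι x) ι hι.map_mem (rfl : φ.comp ι = φ.comp ι) (rfl : ι x = ι x)
  let π1 := QT.map (y := ι x) π hπm (rfl : φ.comp π = φ.comp π) hy
  have hjs : ∀ s ∈ sig (φ.comp ι) x, IsUnit (j s) := by
    intro s hs
    rw [isUnit_iff_ne_zero]
    intro h0
    have := hcomp s
    rw [h0, map_zero] at this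
    exact hR.sig_ne hs (hinj (by rw [map_zero]; exact this))
  let j1 : QT (φ.comp ι) x →+* K := QT.lift j hjs
  have hj1 : ∀ r, j1 (QT.of _ _ r) = j r := fun r => QT.lift_of j hjs r
  have hcomp1' : ∀ z, algebraMap W KW (hR.toW z) = τ (j1 z) := by
    intro z
    obtain ⟨N, b, s, hb, hs, hs', rfl⟩ := QT.exists_rep z
    have e1 := hR.toW_mk hb hs hs'
    have e2 := QT.lift_mk j hjs hb hs hs'
    have e3 : algebraMap W KW ((φ.comp ι) s) ≠ 0 := by
      intro h0
      exact hR.sig_ne (s := s) ⟨N, hs, hs'⟩ (hinj (by rw [map_zero]; exact h0))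
    apply mul_left_cancel₀ e3
    rw [← map_mul, e1, RingHom.comp_apply, RingHom.comp_apply, hcomp, hcomp, ← map_mul, ← e2]
  have hι1W : ∀ z, hT.toW (ι1 z) = hR.toW z := fun z =>
    QT.toW_map (y := ι x) ι hι.map_mem rfl rfl hR hT z
  have hπ1W : ∀ z, hT.toW (π1 z) = hS.toW z := fun z =>
    QT.toW_map (y := ι x) π hπm rfl hy hS hT z
  have hj1inj : Function.Injective j1 := by
    rw [injective_iff_map_eq_zero]
    intro z hz
    obtain ⟨N, b, s, hb, hs, hs', rfl⟩ := QT.exists_rep z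
    have e2 := QT.lift_mk j hjs hb hs hs'
    have e3 : j b = 0 := by rw [← e2]; exact mul_eq_zero_of_right _ hz
    have e4 : b = 0 := hj (by rw [e3, map_zero])
    symm
    rw [QT.mk_eq_iff, e4, map_zero, mul_zero]
  have hcomp1 : ∀ z, algebraMap W KW (hT.toW (ι1 z)) = τ (j1 z) := fun z => by
    rw [hι1W, hcomp1']
  have hker1 : RingHom.ker π1 ≤ tr (φ.comp π) y 𝔟 :=
    ker_map_le_tr hπ hπm rfl hy hS hT 𝔟 h2 h1
  have hπ1 : Function.Surjective π1 := QT_map_surjective hπ hπm rfl hy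
  have htr2 : tr (φ.comp π) y 𝔟 ≤ RingHom.ker (hT.toW.comp π1) := by
    intro z hz
    have := tr_le_ker hS 𝔟 h2 hz
    rw [RingHom.mem_ker] at this ⊢
    rw [RingHom.comp_apply, hπ1W, this]
  have iP : (tr (φ.comp π) y 𝔟).IsPrime := tr_isPrime hS 𝔟 h2
  have hΦ11' : ∀ s, (Φ1 s).fst = algebraMap W KW (hT.toW (π1 s)) := fun s => by
    rw [hΦ11, hπ1W]
  -- the two lattices
  set E : Submodule W (Fin c → KW) := Espan (RingHom.ker π) Φ with hE
  set E1 : Submodule W (Fin c → KW) := Espan (RingHom.ker π1) Φ1 with hE1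
  have hsmall : ∀ f ∈ RingHom.ker π, ∀ N : ℕ, 1 ≤ N → f ∈ maximalIdeal S ^ N →
      ∃ z ∈ RingHom.ker π1, (φ (ι x)) ^ (N - 1) • (Φ1 z).snd = (Φ f).snd := by
    intro f hf N hN hfN
    have hy' : Associated ((φ.comp π) (y ^ N)) ((φ.comp π) y ^ N) := by rw [map_pow]
    refine ⟨QT.mk _ _ N f (y ^ N) hfN (Ideal.pow_mem_pow hS.x_mem N) hy', ?_, ?_⟩
    · rw [RingHom.mem_ker]
      refine QT.of_mul_cancel (s := ι x ^ N) (x := ι x) (φ := φ) ?_ ?_
      · exact ⟨N, Ideal.pow_mem_pow hT.x_mem N, by rw [map_pow]⟩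
      · have e5 : QT.of φ (ι x) (ι x ^ N) = π1 (QT.of _ _ (y ^ N)) := by
          rw [QT.map_of, map_pow π, hy]
        rw [mul_zero, e5, ← map_mul, QT.of_mul_mk, QT.map_of, RingHom.mem_ker.1 hf, map_zero]
    · have e6 := hΦ13 N f hN (by rw [RingHom.comp_apply, RingHom.mem_ker.1 hf, map_zero])
        (QT.mk _ _ N f (y ^ N) hfN (Ideal.pow_mem_pow hS.x_mem N) hy') (QT.of_mul_mk ..)
      rw [RingHom.comp_apply, hy] at e6
      exact e6
  have hEE1 : E ≤ E1 := by
    rw [hE, Espan, Submodule.span_le]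
    rintro _ ⟨f, hf, rfl⟩
    obtain ⟨z, hz, hz'⟩ := hsmall f hf 1 le_rfl (by rw [pow_one]; exact hkerm hf)
    rw [Nat.sub_self, pow_zero, one_smul] at hz'
    show (Φ f).snd ∈ E1
    rw [← hz']
    exact Submodule.subset_span ⟨z, hz, rfl⟩
  have hE1L : E1 ≤ L0 W KW c := by
    rw [hE1, Espan, Submodule.span_le]
    rintro _ ⟨f, -, rfl⟩
    exact hΦ12 f
  obtain ⟨z, hz, hz'⟩ := hsmall g hgk 2 (by omega) hg2
  have hw : (Φ1 z).snd ∈ E1 := Submodule.subset_span ⟨z, hz, rfl⟩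
  have hw' : (Φ1 z).snd ∉ E := by
    intro hmem
    refine hgE _ hmem ?_
    rw [← hz', pow_one]
  have hlt : colen E1 < colen E := colen_lt hEE1 hE1L hw hw' (by
    rw [hcol]; exact ENat.natCast_ne_top n)
  rw [hcol] at hlt
  obtain ⟨m, hm⟩ := ENat.ne_top_iff_exists.1 hlt.ne_top
  have hmn : m < n := by rw [← hm] at hlt; exact_mod_cast hlt
  have hLU1 : LU V j1.range :=
    IH m hmn (QT (φ.comp ι) x) (QT φ (ι x)) (QT (φ.comp π) y) j1 hj1inj ι1
      (QT_sameCompletion hι rfl hR hT) π1 hπ1 hT.toW hT.isLocalHom hcomp1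
      (tr (φ.comp π) y 𝔟) hker1 htr2 (by rw [tr_height hS 𝔟 h2]; exact h3) Φ1 hΦ11' hΦ12 hm.symm
  refine LU_of_QT V hR j hj j1 hj1 (fun z => (hV _).2 ⟨_, hcomp1' z⟩) (fun z => ?_) hLU1
  rw [valuation_eq_one_iff V τ hV (hcomp1' z), hR.isUnit_iff]

end

end Pool.Agent.Lib.MP_3029eb_ag
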