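import Mathlib

/-!
Module HC: regularity of the generic fibre in terms of localizations of the top ring.
-/

open IsLocalRing
open scoped TensorProduct

namespace Pool.Agent.Lib.MP_3029eb_ag

attribute [local instance] Algebra.TensorProduct.rightAlgebra in
theorem regular_generic_fibre (R : Type) [CommRing R] [IsDomain R] [IsLocalRing R]
    [IsNoetherianRing R] (K : Type) [Field K] [Algebra R K] [IsFractionRing R K]
    (T : Type) [CommRing T] [Algebra R T]
    (H : ∀ (Q : Ideal (K ⊗[R] T)) [Q.IsPrime], IsRegularLocalRing (Localization.AtPrime Q))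
    (P : Ideal T) [P.IsPrime] (hP : P.comap (algebraMap R T) = ⊥) :
    IsRegularLocalRing (Localization.AtPrime P) := by
  have hloc : IsLocalization (Algebra.algebraMapSubmonoid T (nonZeroDivisors R)) (K ⊗[R] T) :=
    IsLocalization.tensorRight K (nonZeroDivisors R)
  have hdisj : Disjoint ((Algebra.algebraMapSubmonoid T (nonZeroDivisors R) : Submonoid T) : Set T)
      (P : Set T) := by
    rw [Set.disjoint_left]
    rintro _ ⟨r, hr, rfl⟩ hrP
    have h1 : r ∈ P.comap (algebraMap R T) := hrP
    rw [hP, Ideal.mem_bot] at h1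
    exact nonZeroDivisors.ne_zero hr h1
  let Q : Ideal (K ⊗[R] T) := P.map (algebraMap T (K ⊗[R] T))
  have hQ : Q.IsPrime := IsLocalization.isPrime_of_isPrime_disjoint
    (Algebra.algebraMapSubmonoid T (nonZeroDivisors R)) (K ⊗[R] T) P inferInstance hdisj
  have hcomap : Q.comap (algebraMap T (K ⊗[R] T)) = P :=
    IsLocalization.under_map_of_isPrime_disjoint
      (Algebra.algebraMapSubmonoid T (nonZeroDivisors R)) (K ⊗[R] T) inferInstance hdisj
  have h1 : IsLocalization.AtPrime (Localization.AtPrime Q) (Q.comap (algebraMap T (K ⊗[R] T))) :=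
    IsLocalization.isLocalization_isLocalization_atPrime_isLocalization
      (Algebra.algebraMapSubmonoid T (nonZeroDivisors R)) (Localization.AtPrime Q) Q
  have h2 : IsLocalization P.primeCompl (Localization.AtPrime Q) := by
    have h3 : (Q.comap (algebraMap T (K ⊗[R] T))).primeCompl = P.primeCompl := by
      ext z
      change z ∉ Q.comap (algebraMap T (K ⊗[R] T)) ↔ z ∉ P
      rw [hcomap]
    rw [← h3]
    exact h1
  have := H Q
  exact IsRegularLocalRing.of_ringEquiv
    (IsLocalization.algEquiv P.primeCompl (Localization.AtPrime Q)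
      (Localization.AtPrime P)).toRingEquiv

end Pool.Agent.Lib.MP_3029eb_ag
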