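import Pool.Agent.Lib.MP_3029eb_ag.H44Defs
import Pool.Agent.Lib.MP_3029eb_ag.BddDef
import Pool.Agent.Lib.MP_3029eb_ag.RB

/-!
Module J of the discrete rank-one local uniformization project: the initial state.
-/

open IsLocalRing

namespace Pool.Agent.Lib.MP_3029eb_ag

theorem init_height_add_dim_le {R : Type} [CommRing R] (p : Ideal R) [hp : p.IsPrime] :
    (p.height : WithBot ℕ∞) + ringKrullDim (R ⧸ p) ≤ ringKrullDim R := by
  have : Nonempty (PrimeSpectrum R) := ⟨⟨p, hp⟩⟩
  have h1 : ringKrullDim (R ⧸ p) = ((Order.coheight (⟨p, hp⟩ : PrimeSpectrum R) : ℕ∞) : WithBot ℕ∞) := by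
    rw [Order.coheight_eq_krullDim_Ici, ringKrullDim_quotient]
    rfl
  have h2 : (p.height : ℕ∞) = Order.height (⟨p, hp⟩ : PrimeSpectrum R) :=
    PrimeSpectrum.height_eq_orderHeight (⟨p, hp⟩ : PrimeSpectrum R)
  rw [h1, h2, ringKrullDim, Order.krullDim_eq_iSup_height_add_coheight_of_nonempty]
  rw [← WithBot.coe_add, WithBot.coe_le_coe]
  exact le_iSup (fun a : PrimeSpectrum R => Order.height a + Order.coheight a) ⟨p, hp⟩

/-- If `O → T'` is surjective with prime kernel and `T'` is regular then the height of the kernel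
is at most the dimension of any subspace of the cotangent space containing its image. -/
theorem init_height_le {O T' : Type} [CommRing O] [IsLocalRing O] [IsNoetherianRing O]
    [CommRing T'] [IsRegularLocalRing T'] (f : O →+* T') (hf : Function.Surjective f)
    [(RingHom.ker f).IsPrime] (U : Submodule (ResidueField O) (CotangentSpace O))
    (hU : ∀ (a : O) (_ : f a = 0) (ha : a ∈ maximalIdeal O), (maximalIdeal O).toCotangent ⟨a, ha⟩ ∈ U) :
    (RingHom.ker f).height ≤ Module.finrank (ResidueField O) U := by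
  classical
  have hloc : IsLocalHom f := IsLocalHom.of_surjective f hf
  -- generators of the maximal ideal of T'
  obtain ⟨d, hd⟩ : ∃ d : ℕ, (maximalIdeal T').spanFinrank = d := ⟨_, rfl⟩
  have hdim : ringKrullDim T' = (d : WithBot ℕ∞) := by
    rw [← hd, IsRegularLocalRing.spanFinrank_maximalIdeal]
  have hfg : (maximalIdeal T').FG := (maximalIdeal T').fg_of_isNoetherianRing
  obtain ⟨s, hs, hs'⟩ : ∃ s : Finset T', s.card = d ∧ Ideal.span (s : Set T') = maximalIdeal T' := by
    have := Submodule.FG.exists_span_finset_card_eq_spanFinrank hfg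
    obtain ⟨s, hs, hs'⟩ := this
    exact ⟨s, hs.trans hd, hs'⟩
  choose g hg using hf
  have hgm : ∀ t ∈ s, g t ∈ maximalIdeal O := by
    intro t ht
    rw [mem_maximalIdeal, mem_nonunits_iff]
    intro hu
    have h1 : t ∈ maximalIdeal T' := by rw [← hs']; exact Ideal.subset_span ht
    rw [mem_maximalIdeal, mem_nonunits_iff] at h1
    exact h1 (by rw [← hg t]; exact hu.map f)
  let Y : Finset (CotangentSpace O) :=
    s.attach.image (fun t : {t // t ∈ s} => (maximalIdeal O).toCotangent ⟨g t, hgm t t.2⟩)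
  have hYcard : Y.card ≤ d := by
    refine Finset.card_image_le.trans ?_
    rw [Finset.card_attach, hs]
  have htop : (⊤ : Submodule (ResidueField O) (CotangentSpace O)) ≤
      U ⊔ Submodule.span (ResidueField O) (Y : Set (CotangentSpace O)) := by
    intro w _
    obtain ⟨⟨x, hx⟩, rfl⟩ := (maximalIdeal O).toCotangent_surjective w
    have hfx : f x ∈ Ideal.span (s : Set T') := by
      rw [hs', mem_maximalIdeal, mem_nonunits_iff]
      intro hu
      exact (mem_nonunits_iff.1 ((mem_maximalIdeal _).1 hx)) (isUnit_of_map_unit f x hu)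
    rw [Ideal.span, Submodule.mem_span_finset'] at hfx
    obtain ⟨c, hc⟩ := hfx
    have hsum : (∑ t : s, g (c t) * g t) ∈ maximalIdeal O :=
      Ideal.sum_mem _ (fun t _ => Ideal.mul_mem_left _ _ (hgm t t.2))
    have hz : x - ∑ t : s, g (c t) * g t ∈ maximalIdeal O := Ideal.sub_mem _ hx hsum
    have hz0 : f (x - ∑ t : s, g (c t) * g t) = 0 := by
      rw [map_sub, map_sum, ← hc, sub_eq_zero]
      refine Finset.sum_congr rfl (fun t _ => ?_)
      rw [map_mul, hg, hg, smul_eq_mul]
    have heq : (maximalIdeal O).toCotangent ⟨x, hx⟩ =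
        (maximalIdeal O).toCotangent ⟨x - ∑ t : s, g (c t) * g t, hz⟩ +
          ∑ t : s, g (c t) • (maximalIdeal O).toCotangent ⟨g t, hgm t t.2⟩ := by
      rw [← sub_eq_iff_eq_add']
      have h1 : ∑ t : s, g (c t) • (maximalIdeal O).toCotangent ⟨g t, hgm t t.2⟩ =
          (maximalIdeal O).toCotangent (∑ t : s, g (c t) • (⟨g t, hgm t t.2⟩ : maximalIdeal O)) := by
        rw [map_sum]
        refine Finset.sum_congr rfl (fun t _ => ?_)
        rw [map_smul]
      rw [h1, ← map_sub]
      congr 1
      apply Subtype.ext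
      simp
    rw [heq]
    refine Submodule.add_mem_sup (hU _ hz0 hz) ?_
    refine Submodule.sum_mem _ (fun t _ => ?_)
    rw [← IsScalarTower.algebraMap_smul (ResidueField O) (g (c t))]
    refine Submodule.smul_mem _ _ (Submodule.subset_span ?_)
    exact Finset.mem_coe.2 (Finset.mem_image.2 ⟨t, Finset.mem_attach _ _, rfl⟩)
  have hfin : Module.finrank (ResidueField O) (CotangentSpace O) ≤
      Module.finrank (ResidueField O) U + d := by
    rw [← finrank_top (ResidueField O) (CotangentSpace O)]
    refine (Submodule.finrank_mono htop).trans ?_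
    refine (Submodule.finrank_add_le_finrank_add_finrank _ _).trans ?_
    exact Nat.add_le_add_left ((finrank_span_finset_le_card Y).trans hYcard) _
  have h1 := init_height_add_dim_le (RingHom.ker f)
  have h2 : ringKrullDim (O ⧸ RingHom.ker f) = (d : WithBot ℕ∞) := by
    rw [← hdim]
    exact ringKrullDim_eq_of_ringEquiv
      (RingHom.quotientKerEquivOfSurjective (f := f) (fun t => ⟨g t, hg t⟩))
  have h3 : ringKrullDim O ≤ ((Module.finrank (ResidueField O) (CotangentSpace O) : ℕ) : WithBot ℕ∞) := by
    rw [← spanFinrank_maximalIdeal_eq_finrank_cotangentSpace]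
    exact ringKrullDim_le_spanFinrank_maximalIdeal O
  rw [h2] at h1
  have h4 : ((RingHom.ker f).height : WithBot ℕ∞) + ((d : ℕ∞) : WithBot ℕ∞) ≤
      (((Module.finrank (ResidueField O) U : ℕ∞) + (d : ℕ∞) : ℕ∞) : WithBot ℕ∞) := by
    refine h1.trans (h3.trans ?_)
    have := hfin
    norm_cast
  rw [← WithBot.coe_add, WithBot.coe_le_coe] at h4
  exact (ENat.add_le_add_iff_right (ENat.natCast_ne_top d)).1 h4

theorem init_colen {W KW : Type} [CommRing W] [IsDomain W] [IsDiscreteValuationRing W]
    [Field KW] [Algebra W KW] [IsFractionRing W KW] {c : ℕ} (E : Submodule W (Fin c → KW))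
    (h : ∀ i : Fin c, ∃ w : W, w ≠ 0 ∧ w • (Pi.single i 1 : Fin c → KW) ∈ E) :
    colen E ≠ ⊤ := by
  classical
  choose w hw0 hw using h
  have hei : ∀ i : Fin c, (Pi.single i 1 : Fin c → KW) ∈ L0 W KW c := by
    intro i j
    by_cases hij : j = i
    · subst hij; rw [Pi.single_eq_same]; exact ⟨1, map_one _⟩
    · rw [Pi.single_eq_of_ne hij]; exact ⟨0, map_zero _⟩
  let N : Submodule W ↥(L0 W KW c) := E.comap (L0 W KW c).subtype
  let P : W := ∏ i, w i
  have hP : P ≠ 0 := Finset.prod_ne_zero_iff.2 (fun i _ => hw0 i)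
  let m : Fin c → (↥(L0 W KW c) ⧸ N) := fun i => Submodule.Quotient.mk ⟨Pi.single i 1, hei i⟩
  have hm : ∀ i, P • m i = 0 := by
    intro i
    have h1 : w i • m i = 0 := by
      change w i • Submodule.Quotient.mk _ = _
      rw [← Submodule.Quotient.mk_smul, Submodule.Quotient.mk_eq_zero]
      exact hw i
    have h2 : P = (∏ j ∈ Finset.univ.erase i, w j) * w i :=
      (Finset.prod_erase_mul _ _ (Finset.mem_univ i)).symm
    rw [h2, mul_smul, h1, smul_zero]
  let F : (Fin c → W ⧸ Ideal.span {P}) →ₗ[W] (↥(L0 W KW c) ⧸ N) :=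
    ∑ i, (Submodule.liftQ (Ideal.span {P}) (LinearMap.toSpanSingleton W _ (m i)) (by
      rw [Ideal.span, Submodule.span_le, Set.singleton_subset_iff]
      exact hm i)).comp (LinearMap.proj i)
  have hF : Function.Surjective F := by
    intro z
    obtain ⟨⟨v, hv⟩, rfl⟩ := Submodule.Quotient.mk_surjective _ z
    have hv' := hv
    choose u hu using hv'
    refine ⟨fun i => Submodule.Quotient.mk (u i), ?_⟩
    have h1 : F (fun i => Submodule.Quotient.mk (u i)) = ∑ i, u i • m i := by
      simp only [F, LinearMap.sum_apply, LinearMap.comp_apply, LinearMap.proj_apply]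
      refine Finset.sum_congr rfl (fun i _ => ?_)
      exact Submodule.liftQ_apply _ _ _
    rw [h1]
    have h2 : (⟨v, hv⟩ : ↥(L0 W KW c)) = ∑ i, u i • (⟨Pi.single i 1, hei i⟩ : ↥(L0 W KW c)) := by
      apply Subtype.ext
      rw [Submodule.coe_sum]
      funext j
      rw [Finset.sum_apply, Finset.sum_eq_single j]
      · simp only [Submodule.coe_smul, Pi.smul_apply, Pi.single_eq_same, Algebra.smul_def, mul_one]
        exact (hu j).symm
      · intro i _ hij
        simp only [Submodule.coe_smul, Pi.smul_apply]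
        rw [Pi.single_eq_of_ne (Ne.symm hij), smul_zero]
      · intro hj; exact absurd (Finset.mem_univ j) hj
    rw [h2]
    change _ = N.mkQ _
    rw [map_sum]
    refine Finset.sum_congr rfl (fun i _ => ?_)
    rw [map_smul]
    rfl
  have hfl : IsFiniteLength W (Fin c → W ⧸ Ideal.span {P}) := by
    have h1 : IsFiniteLength W (W ⧸ Ideal.span {P}) :=
      isFiniteLength_quotient_span_singleton W (mem_nonZeroDivisors_of_ne_zero hP)
    rw [isFiniteLength_iff_isNoetherian_isArtinian] at h1 ⊢
    obtain ⟨h2, h3⟩ := h1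
    exact ⟨inferInstance, inferInstance⟩
  exact Module.length_ne_top_iff.2 (hfl.of_surjective hF)

theorem init_clear {W KW : Type} [CommRing W] [IsDomain W]
    [Field KW] [Algebra W KW] [IsFractionRing W KW] {c : ℕ} (X : Set (Fin c → KW))
    (v : Fin c → KW) (hv : v ∈ Submodule.span KW X) :
    ∃ w : W, w ≠ 0 ∧ w • v ∈ Submodule.span W X := by
  induction hv using Submodule.span_induction with
  | mem x hx => exact ⟨1, one_ne_zero, by rw [one_smul]; exact Submodule.subset_span hx⟩
  | zero => exact ⟨1, one_ne_zero, by rw [smul_zero]; exact Submodule.zero_mem _⟩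
  | add x y _ _ hx hy =>
    obtain ⟨a, ha, ha'⟩ := hx
    obtain ⟨b, hb, hb'⟩ := hy
    refine ⟨a * b, mul_ne_zero ha hb, ?_⟩
    rw [smul_add]
    refine Submodule.add_mem _ ?_ ?_
    · rw [mul_comm, mul_smul]; exact Submodule.smul_mem _ _ ha'
    · rw [mul_smul]; exact Submodule.smul_mem _ _ hb'
  | smul k x _ hx =>
    obtain ⟨a, ha, ha'⟩ := hx
    obtain ⟨⟨n, ⟨d, hd⟩⟩, hnd⟩ := IsLocalization.surj (nonZeroDivisors W) k
    have hd0 : d ≠ 0 := nonZeroDivisors.ne_zero hd
    refine ⟨d * a, mul_ne_zero hd0 ha, ?_⟩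
    have : (d * a) • k • x = n • (a • x) := by
      funext i
      simp only [Pi.smul_apply, smul_eq_mul]
      simp only [Algebra.smul_def, map_mul]
      have h1 : k * algebraMap W KW d = algebraMap W KW n := hnd
      rw [← h1]; ring
    rw [this]
    exact Submodule.smul_mem _ _ ha'

theorem init_Phi {W KW S L V0 : Type} [CommRing W] [IsDomain W] [IsDiscreteValuationRing W]
    [Field KW] [Algebra W KW] [IsFractionRing W KW] [CommRing S] [Field L] [AddCommGroup V0]
    [Module L V0] [FiniteDimensional L V0] [Module S V0] (σ : S →+* L)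
    (hσ : ∀ (a : S) (v : V0), a • v = σ a • v) (ψ : S →+* W) (j : L →+* KW)
    (hj : ∀ a, j (σ a) = algebraMap W KW (ψ a)) (D : S → V0)
    (hadd : ∀ a b, D (a + b) = D a + D b) (hmul : ∀ a b, D (a * b) = a • D b + b • D a)
    (G : Set V0) (hG : G.Finite) (hG' : ∀ s, D s ∈ Submodule.span S G) (I : Ideal S)
    (U : Submodule L V0) (hU : U = Submodule.span L (D '' (I : Set S))) :
    ∃ Φ : S →+* TrivSqZeroExt KW (Fin (Module.finrank L U) → KW),
      (∀ s, (Φ s).fst = algebraMap W KW (ψ s)) ∧
      (∀ s, (Φ s).snd ∈ L0 W KW (Module.finrank L U)) ∧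
      colen (Espan I Φ : Submodule W (Fin (Module.finrank L U) → KW)) ≠ ⊤ := by
  classical
  obtain ⟨c, hc⟩ : ∃ c : ℕ, Module.finrank L U = c := ⟨_, rfl⟩
  rw [hc]
  let b : Module.Basis (Fin c) L U := Module.finBasisOfFinrankEq L U hc
  obtain ⟨p, hp⟩ := U.subtype.exists_leftInverse_of_injective
    (LinearMap.ker_eq_bot.2 U.injective_subtype)
  let co : V0 →ₗ[L] (Fin c → L) := b.equivFun.toLinearMap ∘ₗ p
  let J : V0 → (Fin c → KW) := fun v i => j (co v i)
  have hJadd : ∀ v w, J (v + w) = J v + J w := by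
    intro v w; funext i; simp only [J, map_add, Pi.add_apply]
  have hJsmul : ∀ (l : L) (v : V0), J (l • v) = j l • J v := by
    intro l v; funext i; simp only [J, map_smul, Pi.smul_apply, smul_eq_mul, map_mul]
  have hJ0 : J 0 = 0 := by funext i; simp only [J, map_zero, Pi.zero_apply]
  -- common denominator
  let Y : Finset KW := (hG.toFinset ×ˢ (Finset.univ : Finset (Fin c))).image
    (fun q : V0 × Fin c => J q.1 q.2)
  obtain ⟨⟨d, hd⟩, hdY⟩ := IsLocalization.exist_integer_multiples_of_finset
    (nonZeroDivisors W) Y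
  have hd0 : d ≠ 0 := nonZeroDivisors.ne_zero hd
  have hdK : algebraMap W KW d ≠ 0 := by
    rw [Ne, IsFractionRing.to_map_eq_zero_iff]; exact hd0
  have hint : ∀ v ∈ Submodule.span S G, algebraMap W KW d • J v ∈ L0 W KW c := by
    intro v hv
    induction hv using Submodule.span_induction with
    | mem x hx =>
      intro i
      obtain ⟨y, hy⟩ := hdY (J x i) (Finset.mem_image.2 ⟨(x, i),
        Finset.mem_product.2 ⟨hG.mem_toFinset.2 hx, Finset.mem_univ _⟩, rfl⟩)
      refine ⟨y, ?_⟩
      rw [hy, Pi.smul_apply, smul_eq_mul]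
      exact Algebra.smul_def _ _
    | zero => rw [hJ0, smul_zero]; exact Submodule.zero_mem _
    | add x y _ _ hx hy => rw [hJadd, smul_add]; exact Submodule.add_mem _ hx hy
    | smul a x _ hx =>
      rw [hσ, hJsmul, hj, smul_comm, algebraMap_smul]
      exact Submodule.smul_mem _ _ hx
  have hD0 : D 0 = 0 := by
    have := hadd 0 0
    rw [add_zero] at this
    exact left_eq_add.1 this
  have hD1 : D 1 = 0 := by
    have := hmul 1 1
    rw [mul_one, one_smul] at this
    exact left_eq_add.1 this
  let Φ : S →+* TrivSqZeroExt KW (Fin c → KW) :=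
    { toFun := fun s => (algebraMap W KW (ψ s), algebraMap W KW d • J (D s))
      map_one' := by
        refine TrivSqZeroExt.ext ?_ ?_
        · change algebraMap W KW (ψ 1) = 1
          rw [map_one, map_one]
        · change algebraMap W KW d • J (D 1) = 0
          rw [hD1, hJ0, smul_zero]
      map_mul' := fun x y => by
        refine TrivSqZeroExt.ext ?_ ?_
        · change algebraMap W KW (ψ (x * y)) = algebraMap W KW (ψ x) * algebraMap W KW (ψ y)
          rw [map_mul, map_mul]
        · change algebraMap W KW d • J (D (x * y)) =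
            algebraMap W KW (ψ x) • (algebraMap W KW d • J (D y)) +
            MulOpposite.op (algebraMap W KW (ψ y)) • (algebraMap W KW d • J (D x))
          rw [op_smul_eq_smul, hmul, hJadd, hσ, hσ, hJsmul, hJsmul, hj, hj, smul_add,
            smul_comm (algebraMap W KW d), smul_comm (algebraMap W KW d)]
      map_zero' := by
        refine TrivSqZeroExt.ext ?_ ?_
        · change algebraMap W KW (ψ 0) = 0
          rw [map_zero, map_zero]
        · change algebraMap W KW d • J (D 0) = 0
          rw [hD0, hJ0, smul_zero]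
      map_add' := fun x y => by
        refine TrivSqZeroExt.ext ?_ ?_
        · change algebraMap W KW (ψ (x + y)) = algebraMap W KW (ψ x) + algebraMap W KW (ψ y)
          rw [map_add, map_add]
        · change algebraMap W KW d • J (D (x + y)) =
            algebraMap W KW d • J (D x) + algebraMap W KW d • J (D y)
          rw [hadd, hJadd, smul_add] }
  refine ⟨Φ, fun s => rfl, fun s => hint _ (hG' s), init_colen _ (fun i => ?_)⟩
  refine init_clear ((fun s => (Φ s).snd) '' (I : Set S)) _ ?_
  have hspan : ∀ u ∈ U, J u ∈ Submodule.span KW ((fun s => (Φ s).snd) '' (I : Set S)) := by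
    intro u hu
    rw [hU] at hu
    induction hu using Submodule.span_induction with
    | mem x hx =>
      obtain ⟨s, hs, rfl⟩ := hx
      have h1 : J (D s) = (algebraMap W KW d)⁻¹ • (Φ s).snd := by
        change J (D s) = (algebraMap W KW d)⁻¹ • (algebraMap W KW d • J (D s))
        rw [inv_smul_smul₀ hdK]
      rw [h1]
      exact Submodule.smul_mem _ _ (Submodule.subset_span ⟨s, hs, rfl⟩)
    | zero => rw [hJ0]; exact Submodule.zero_mem _
    | add x y _ _ hx hy => rw [hJadd]; exact Submodule.add_mem _ hx hy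
    | smul l x _ hx => rw [hJsmul]; exact Submodule.smul_mem _ _ hx
  have h2 : (Pi.single i 1 : Fin c → KW) = J (b i : V0) := by
    funext k
    have h3 : p (b i : V0) = b i := LinearMap.congr_fun hp (b i)
    have h4 : co (b i : V0) k = if i = k then 1 else 0 := by
      change b.equivFun (p (b i : V0)) k = _
      rw [h3]
      exact b.equivFun_self i k
    change _ = j (co (b i : V0) k)
    rw [h4]
    by_cases hik : k = i
    · subst hik; rw [Pi.single_eq_same, if_pos rfl, map_one]
    · rw [Pi.single_eq_of_ne hik, if_neg (Ne.symm hik), map_zero]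
  rw [h2]
  exact hspan _ (b i).2

theorem init_state {W KW : Type} [CommRing W] [IsDomain W] [IsDiscreteValuationRing W]
    [Field KW] [Algebra W KW] [IsFractionRing W KW] (S T : Type) [CommRing S]
    [IsRegularLocalRing S] [CommRing T] [IsLocalRing T]
    (π : S →+* T) (hπ : Function.Surjective π) (φ : T →+* W) (hφ : IsLocalHom φ)
    [(RingHom.ker φ).IsPrime] [(RingHom.ker (φ.comp π)).IsPrime]
    (hreg : IsRegularLocalRing (Localization.AtPrime (RingHom.ker φ)))
    (hbdd : BddDer S (RingHom.ker (φ.comp π))) :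
    ∃ (c : ℕ) (𝔟 : Ideal S) (_ : 𝔟.IsPrime), RingHom.ker π ≤ 𝔟 ∧
      𝔟 ≤ RingHom.ker (φ.comp π) ∧ 𝔟.height ≤ c ∧
      ∃ Φ : S →+* TrivSqZeroExt KW (Fin c → KW),
        (∀ s, (Φ s).fst = algebraMap W KW (φ (π s))) ∧
        (∀ s, (Φ s).snd ∈ L0 W KW c) ∧
        colen (Espan (RingHom.ker π) Φ : Submodule W (Fin c → KW)) ≠ ⊤ := by
  classical
  obtain ⟨D, hadd, hmul, hcan, G, hG, hG'⟩ := hbdd
  let 𝔔 : Ideal S := RingHom.ker (φ.comp π)
  let O : Type := Localization.AtPrime (RingHom.ker (φ.comp π))
  let TP : Type := Localization.AtPrime (RingHom.ker φ)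
  have hdomTP : IsDomain TP := isDomain_of_isRegularLocalRing TP
  have hnoeth : IsNoetherianRing O :=
    IsLocalization.isNoetherianRing (RingHom.ker (φ.comp π)).primeCompl O inferInstance
  have hcomap : RingHom.ker (φ.comp π) = (RingHom.ker φ).comap π := (RingHom.comap_ker φ π).symm
  let f : O →+* TP := Localization.localRingHom (RingHom.ker (φ.comp π)) (RingHom.ker φ) π hcomap
  have hfalg : ∀ s : S, f (algebraMap S O s) = algebraMap T TP (π s) := fun s =>
    Localization.localRingHom_to_map _ _ π hcomap s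
  have hf : Function.Surjective f := by
    intro z
    obtain ⟨⟨t, ⟨s, hs⟩⟩, hz⟩ := IsLocalization.surj (RingHom.ker φ).primeCompl z
    obtain ⟨a, rfl⟩ := hπ t
    obtain ⟨b, rfl⟩ := hπ s
    have hb : b ∈ (RingHom.ker (φ.comp π)).primeCompl := hs
    have hu : IsUnit (algebraMap S O b) := IsLocalization.map_units O ⟨b, hb⟩
    obtain ⟨u, hu⟩ := hu
    refine ⟨algebraMap S O a * ↑u⁻¹, ?_⟩
    have h1 : IsUnit (algebraMap T TP (π b)) := IsLocalization.map_units TP ⟨π b, hs⟩
    refine h1.mul_right_cancel ?_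
    change _ = z * algebraMap T TP (π b)
    have hz' : z * algebraMap T TP (π b) = algebraMap T TP (π a) := hz
    rw [hz', ← hfalg a, ← hfalg b, ← map_mul]
    congr 1
    rw [mul_assoc, ← hu, Units.inv_mul, mul_one]
  have hker : (RingHom.ker f).IsPrime := RingHom.ker_isPrime f
  -- the residue field
  let σ : S →+* ResidueField O := (residue O).comp (algebraMap S O)
  have hσ : ∀ (a : S) (v : CotangentSpace O), a • v = σ a • v := by
    intro a v
    change a • v = residue O (algebraMap S O a) • v
    rw [← algebraMap_smul O a v]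
    exact (IsScalarTower.algebraMap_smul (ResidueField O) (algebraMap S O a) v).symm
  let g0 : O →+* KW := IsLocalization.lift (M := (RingHom.ker (φ.comp π)).primeCompl)
    (g := (algebraMap W KW).comp (φ.comp π)) (by
      intro y
      rw [isUnit_iff_ne_zero, RingHom.comp_apply]
      intro h0
      exact y.2 ((RingHom.mem_ker).2 ((IsFractionRing.injective W KW) (by rw [h0, map_zero]))))
  have hg0 : ∀ s : S, g0 (algebraMap S O s) = algebraMap W KW (φ (π s)) := fun s =>
    IsLocalization.lift_eq _ s
  have hg0m : ∀ a ∈ maximalIdeal O, g0 a = 0 := by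
    have h1 : maximalIdeal O ≤ RingHom.ker g0 := by
      have h2 : Ideal.map (algebraMap S O) (RingHom.ker (φ.comp π)) = maximalIdeal O :=
        Localization.AtPrime.map_eq_maximalIdeal
      rw [← h2, Ideal.map_le_iff_le_comap]
      intro s hs
      rw [Ideal.mem_comap, RingHom.mem_ker, hg0]
      have h3 : φ (π s) = 0 := hs
      rw [h3, map_zero]
    exact fun a ha => h1 ha
  let j : ResidueField O →+* KW := Ideal.Quotient.lift (maximalIdeal O) g0 hg0m
  have hj : ∀ a : S, j (σ a) = algebraMap W KW ((φ.comp π) a) := fun a => hg0 a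
  let U : Submodule (ResidueField O) (CotangentSpace O) :=
    Submodule.span (ResidueField O) (D '' (RingHom.ker π : Set S))
  have hkerle : RingHom.ker π ≤ RingHom.ker (φ.comp π) := by
    intro s hs
    rw [RingHom.mem_ker] at hs ⊢
    rw [RingHom.comp_apply, hs, map_zero]
  have hmemmax : ∀ s ∈ RingHom.ker (φ.comp π), algebraMap S O s ∈ maximalIdeal O := by
    intro s hs
    have h2 : Ideal.map (algebraMap S O) (RingHom.ker (φ.comp π)) = maximalIdeal O :=
      Localization.AtPrime.map_eq_maximalIdeal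
    rw [← h2]
    exact Ideal.mem_map_of_mem _ hs
  have hU : ∀ (a : O) (_ : f a = 0) (ha : a ∈ maximalIdeal O),
      (maximalIdeal O).toCotangent ⟨a, ha⟩ ∈ U := by
    intro a hfa ha
    obtain ⟨⟨b, ⟨s, hs⟩⟩, hz⟩ := IsLocalization.surj (RingHom.ker (φ.comp π)).primeCompl a
    have hz' : a * algebraMap S O s = algebraMap S O b := hz
    have hb0 : algebraMap T TP (π b) = 0 := by
      rw [← hfalg, ← hz', map_mul, hfa, zero_mul]
    rw [IsLocalization.map_eq_zero_iff (RingHom.ker φ).primeCompl] at hb0
    obtain ⟨⟨t, ht⟩, htb⟩ := hb0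
    obtain ⟨t', rfl⟩ := hπ t
    have htb' : t' * b ∈ RingHom.ker π := by
      rw [RingHom.mem_ker, map_mul]; exact htb
    have ht' : t' ∈ (RingHom.ker (φ.comp π)).primeCompl := ht
    have hts : t' * s ∈ (RingHom.ker (φ.comp π)).primeCompl := mul_mem ht' hs
    have hunit : IsUnit (algebraMap S O (t' * s)) := IsLocalization.map_units O ⟨t' * s, hts⟩
    have hne : σ (t' * s) ≠ 0 := (hunit.map (residue O)).ne_zero
    have hDu : D (t' * b) = σ (t' * s) • (maximalIdeal O).toCotangent ⟨a, ha⟩ := by
      rw [hcan (t' * b) (hkerle htb') (hmemmax _ (hkerle htb')), ← hσ,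
        ← algebraMap_smul O (t' * s), ← map_smul]
      congr 1
      apply Subtype.ext
      change algebraMap S O (t' * b) = algebraMap S O (t' * s) * a
      rw [map_mul, map_mul, ← hz']
      ring
    have h5 : (maximalIdeal O).toCotangent ⟨a, ha⟩ = (σ (t' * s))⁻¹ • D (t' * b) := by
      rw [hDu, inv_smul_smul₀ hne]
    rw [h5]
    exact Submodule.smul_mem _ _ (Submodule.subset_span ⟨_, htb', rfl⟩)
  have hheight := init_height_le f hf U hU
  refine ⟨Module.finrank (ResidueField O) U, RingHom.ker ((algebraMap T TP).comp π),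
    RingHom.ker_isPrime _, ?_, ?_, ?_, ?_⟩
  · intro s hs
    rw [RingHom.mem_ker] at hs ⊢
    rw [RingHom.comp_apply, hs, map_zero]
  · intro s hs
    rw [RingHom.mem_ker, RingHom.comp_apply,
      IsLocalization.map_eq_zero_iff (RingHom.ker φ).primeCompl] at hs
    obtain ⟨⟨t, ht⟩, hts⟩ := hs
    have h1 : φ t * φ (π s) = 0 := by rw [← map_mul]; rw [show t * π s = 0 from hts, map_zero]
    rcases mul_eq_zero.1 h1 with h2 | h2
    · exact absurd h2 ht
    · exact h2
  · have h1 : RingHom.ker ((algebraMap T TP).comp π) = (RingHom.ker f).under S := by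
      ext s
      rw [RingHom.mem_ker, RingHom.comp_apply, ← hfalg]
      rfl
    rw [h1, IsLocalization.height_under (RingHom.ker (φ.comp π)).primeCompl]
    exact hheight
  · exact init_Phi σ hσ (φ.comp π) j hj D hadd hmul G hG hG' (RingHom.ker π) U rfl

end Pool.Agent.Lib.MP_3029eb_ag
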