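import Mathlib

/-! Module PS: power series rings and complete Nakayama. -/

set_option autoImplicit false

open IsLocalRing
open scoped PowerSeries

namespace Pool.Agent.Lib.MP_3029eb_ag

namespace PSaux

/-! ### complete Nakayama -/

lemma smul_top_pi_le {R : Type*} [CommRing R] (I : Ideal R) {n : ℕ} {a : Fin n → R}
    (ha : a ∈ (I • ⊤ : Submodule R (Fin n → R))) (i : Fin n) : a i ∈ I := by
  have h1 : (LinearMap.proj i : (Fin n → R) →ₗ[R] R) a ∈
      (I • (⊤ : Submodule R (Fin n → R))).map (LinearMap.proj i : (Fin n → R) →ₗ[R] R) :=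
    Submodule.mem_map_of_mem ha
  rw [Submodule.map_smul''] at h1
  have h2 : (LinearMap.proj i : (Fin n → R) →ₗ[R] R) a ∈ (I • ⊤ : Submodule R R) :=
    Submodule.smul_mono le_rfl le_top h1
  simpa using h2

lemma mem_smul_top_pi {R : Type*} [CommRing R] (I : Ideal R) {n : ℕ} {a : Fin n → R}
    (ha : ∀ i, a i ∈ I) : a ∈ (I • ⊤ : Submodule R (Fin n → R)) := by
  have : a = ∑ i, a i • (Pi.single i 1 : Fin n → R) := by
    funext j
    simp [Finset.sum_apply, Pi.single_apply]
  rw [this]
  exact Submodule.sum_mem _ fun i _ => Submodule.smul_mem_smul (ha i) Submodule.mem_top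

lemma isPrecomplete_pi {R : Type*} [CommRing R] (I : Ideal R) [hI : IsPrecomplete I R] (n : ℕ) :
    IsPrecomplete I (Fin n → R) := by
  refine ⟨fun f hf => ?_⟩
  have h1 : ∀ i : Fin n, ∃ L : R, ∀ k, (f k i) ≡ L [SMOD (I ^ k • ⊤ : Submodule R R)] := by
    intro i
    refine hI.prec' (fun k => f k i) ?_
    intro m k hmk
    have := hf hmk
    rw [SModEq.sub_mem] at this ⊢
    have h2 := smul_top_pi_le (I ^ m) this i
    simpa using h2
  choose L hL using h1
  refine ⟨L, fun k => ?_⟩
  rw [SModEq.sub_mem]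
  refine mem_smul_top_pi (I ^ k) fun i => ?_
  have := hL i k
  rw [SModEq.sub_mem] at this
  simpa using this

theorem finite_aux {R B : Type*} [CommRing R] [CommRing B] (I : Ideal R) [IsPrecomplete I R]
    (f : R →+* B) [hH : IsHausdorff (I.map f) B]
    (h : ((Ideal.Quotient.mk (I.map f)).comp f).Finite) : f.Finite := by
  let _ : Algebra R B := f.toAlgebra
  have hfin : Module.Finite R (B ⧸ I.map f) := RingHom.finite_algebraMap.1 h
  obtain ⟨n, s, hs⟩ := Module.Finite.exists_fin (R := R) (M := B ⧸ I.map f)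
  choose b hb using fun i => Ideal.Quotient.mk_surjective (s i)
  let F : (Fin n → R) →ₗ[R] B := Fintype.linearCombination R b
  have hI : (I • ⊤ : Submodule R B) = (I.map f).restrictScalars R := by
    rw [Ideal.smul_top_eq_map]
    rfl
  have _ : IsHausdorff I B := by
    have := IsHausdorff.map_algebraMap_iff (I := I) (S := B) (M := B)
    exact this.mp hH
  have _ := isPrecomplete_pi I n
  have hsurj : Function.Surjective F := by
    refine surjective_of_mkQ_comp_surjective (I := I) ?_
    intro z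
    obtain ⟨z, rfl⟩ := Submodule.Quotient.mk_surjective _ z
    have h1 : (Ideal.Quotient.mk (I.map f) z) ∈ (⊤ : Submodule R (B ⧸ I.map f)) :=
      Submodule.mem_top
    rw [← hs, Submodule.mem_span_range_iff_exists_fun] at h1
    obtain ⟨c, hc⟩ := h1
    refine ⟨c, ?_⟩
    simp only [LinearMap.comp_apply, Submodule.mkQ_apply]
    rw [Submodule.Quotient.eq, hI]
    change F c - z ∈ I.map f
    rw [← Ideal.Quotient.eq, ← hc]
    simp only [F, Fintype.linearCombination_apply, map_sum]
    refine Finset.sum_congr rfl fun i _ => ?_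
    rw [Algebra.smul_def, map_mul, hb]
    exact (Algebra.smul_def (c i) (s i)).symm
  exact Module.Finite.of_surjective F hsurj

lemma isHausdorff_quot {T : Type*} [CommRing T] [IsLocalRing T] [IsNoetherianRing T]
    (J : Ideal T) (I : Ideal (T ⧸ J)) (hI : I ≤ (maximalIdeal T).map (Ideal.Quotient.mk J)) :
    IsHausdorff I (T ⧸ J) := by
  refine IsHausdorff.of_le_jacobson _ _ (hI.trans ?_)
  rw [Ideal.map_le_iff_le_comap]
  intro x hx
  rw [Ideal.mem_comap, Ideal.mem_jacobson_bot]
  intro y
  obtain ⟨y, rfl⟩ := Ideal.Quotient.mk_surjective y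
  have h1 : IsUnit (x * y + 1) := by
    by_contra hc
    have h2 : x * y + 1 ∈ maximalIdeal T := hc
    have h3 : (1 : T) ∈ maximalIdeal T := by
      have := Ideal.sub_mem _ h2 (Ideal.mul_mem_right y _ hx)
      simpa using this
    exact (Ideal.ne_top_iff_one _).1 (maximalIdeal.isMaximal T).ne_top h3
  have := h1.map (Ideal.Quotient.mk J)
  simpa using this

lemma span_map_le {R T : Type*} [CommRing R] [CommRing T] [IsLocalRing T] (h : R →+* T)
    (J : Ideal T) (ϖ : R) (ht : h ϖ ∈ maximalIdeal T) :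
    (Ideal.span {ϖ}).map ((Ideal.Quotient.mk J).comp h) ≤
      (maximalIdeal T).map (Ideal.Quotient.mk J) := by
  rw [Ideal.map_span, Set.image_singleton, Ideal.span_le, Set.singleton_subset_iff]
  exact Ideal.mem_map_of_mem _ ht

/-- the general form of the finiteness statements -/
theorem finite_general {C R T : Type*} [CommRing C] [CommRing R] [CommRing T] [IsLocalRing T]
    [IsNoetherianRing T] (c : C →+* R) (h : R →+* T) (J : Ideal T) (ϖ : R)
    [IsPrecomplete (Ideal.span {ϖ}) R] (ht : h ϖ ∈ maximalIdeal T)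
    (hfin : ((Ideal.Quotient.mk (J ⊔ Ideal.span {h ϖ})).comp (h.comp c)).Finite) :
    ((Ideal.Quotient.mk J).comp h).Finite := by
  have _ := isHausdorff_quot J _ (span_map_le h J ϖ ht)
  refine finite_aux (Ideal.span {ϖ}) _ ?_
  have hle : J ⊔ Ideal.span {h ϖ} ≤ RingHom.ker
      ((Ideal.Quotient.mk ((Ideal.span {ϖ}).map ((Ideal.Quotient.mk J).comp h))).comp
        (Ideal.Quotient.mk J)) := by
    rw [sup_le_iff, Ideal.span_le, Set.singleton_subset_iff]
    constructor
    · intro x hx
      rw [RingHom.mem_ker, RingHom.comp_apply, Ideal.Quotient.eq_zero_iff_mem.2 hx, map_zero]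
    · change _ ∈ RingHom.ker _
      rw [RingHom.mem_ker, RingHom.comp_apply, Ideal.Quotient.eq_zero_iff_mem]
      exact Ideal.mem_map_of_mem _ (Ideal.mem_span_singleton_self ϖ)
  let q : T ⧸ (J ⊔ Ideal.span {h ϖ}) →+*
      (T ⧸ J) ⧸ (Ideal.span {ϖ}).map ((Ideal.Quotient.mk J).comp h) :=
    Ideal.Quotient.lift _ _ fun a ha => RingHom.mem_ker.1 (hle ha)
  have hq : Function.Surjective q := by
    intro z
    obtain ⟨z, rfl⟩ := Ideal.Quotient.mk_surjective z
    obtain ⟨z, rfl⟩ := Ideal.Quotient.mk_surjective z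
    exact ⟨Ideal.Quotient.mk _ z, by simp [q]⟩
  have h1 : (q.comp ((Ideal.Quotient.mk (J ⊔ Ideal.span {h ϖ})).comp (h.comp c))).Finite :=
    RingHom.Finite.comp (RingHom.Finite.of_surjective q hq) hfin
  have h2 : q.comp ((Ideal.Quotient.mk (J ⊔ Ideal.span {h ϖ})).comp (h.comp c)) =
      ((Ideal.Quotient.mk ((Ideal.span {ϖ}).map ((Ideal.Quotient.mk J).comp h))).comp
        ((Ideal.Quotient.mk J).comp h)).comp c := by
    ext x
    simp [q]
  rw [h2] at h1
  exact RingHom.Finite.of_comp_finite h1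

theorem surjective_general {C R T : Type*} [CommRing C] [CommRing R] [CommRing T] [IsLocalRing T]
    [IsNoetherianRing T] (c : C →+* R) (h : R →+* T) (J : Ideal T) (ϖ : R)
    [IsPrecomplete (Ideal.span {ϖ}) R] (ht : h ϖ ∈ maximalIdeal T)
    (hsurj : Function.Surjective ((Ideal.Quotient.mk (J ⊔ Ideal.span {h ϖ})).comp (h.comp c))) :
    Function.Surjective ((Ideal.Quotient.mk J).comp h) := by
  have _ := isHausdorff_quot J _ (span_map_le h J ϖ ht)
  refine surjective_of_mk_map_comp_surjective (I := Ideal.span {ϖ}) _ ?_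
  intro z
  obtain ⟨z, rfl⟩ := Ideal.Quotient.mk_surjective z
  obtain ⟨z, rfl⟩ := Ideal.Quotient.mk_surjective z
  obtain ⟨a, ha⟩ := hsurj (Ideal.Quotient.mk _ z)
  refine ⟨c a, ?_⟩
  simp only [RingHom.comp_apply] at ha ⊢
  rw [Ideal.Quotient.eq] at ha ⊢
  rw [Ideal.map_span, Set.image_singleton]
  rw [Submodule.mem_sup] at ha
  obtain ⟨u, hu, v, hv, huv⟩ := ha
  rw [← map_sub, ← huv, map_add, Ideal.Quotient.eq_zero_iff_mem.2 hu, zero_add]
  rw [Ideal.mem_span_singleton] at hv ⊢
  obtain ⟨w, rfl⟩ := hv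
  rw [map_mul]
  exact Dvd.intro _ rfl

/-! ### evaluation of power series -/

lemma eval_trunc {A T : Type*} [CommRing A] [CommRing T] (I : Ideal T) (g : A →+* T) (t : T)
    (ht : t ∈ I) (n : ℕ) (p : Polynomial A) :
    Ideal.Quotient.mk (I ^ n) (Polynomial.eval₂ g t (PowerSeries.trunc n (p : A⟦X⟧))) =
      Ideal.Quotient.mk (I ^ n) (Polynomial.eval₂ g t p) := by
  rw [eq_comm, Ideal.Quotient.eq, ← Polynomial.eval₂_sub]
  have : Polynomial.X ^ n ∣ p - PowerSeries.trunc n (p : A⟦X⟧) := by
    rw [Polynomial.X_pow_dvd_iff]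
    intro d hd
    rw [Polynomial.coeff_sub, PowerSeries.coeff_trunc, if_pos hd, Polynomial.coeff_coe, sub_self]
  obtain ⟨q, hq⟩ := this
  rw [hq, Polynomial.eval₂_mul, Polynomial.eval₂_pow, Polynomial.eval₂_X]
  exact Ideal.mul_mem_right _ _ (Ideal.pow_mem_pow ht n)

/-- evaluation modulo `I ^ n` -/
noncomputable def evn {A T : Type*} [CommRing A] [CommRing T] (I : Ideal T) (g : A →+* T) (t : T)
    (ht : t ∈ I) (n : ℕ) : A⟦X⟧ →+* T ⧸ I ^ n where
  toFun f := Ideal.Quotient.mk (I ^ n) (Polynomial.eval₂ g t (PowerSeries.trunc n f))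
  map_one' := by
    have := eval_trunc I g t ht n 1
    rw [Polynomial.coe_one, Polynomial.eval₂_one] at this
    rw [this, map_one]
  map_mul' f f' := by
    rw [← PowerSeries.trunc_trunc_mul_trunc, ← Polynomial.coe_mul, eval_trunc I g t ht,
      Polynomial.eval₂_mul, map_mul]
  map_zero' := by
    rw [map_zero, Polynomial.eval₂_zero, map_zero]
  map_add' f f' := by
    rw [map_add, Polynomial.eval₂_add, map_add]

end PSaux

open PSaux

theorem exists_powerSeries_map (A T : Type) [CommRing A] [CommRing T] [IsLocalRing T]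
    [IsAdicComplete (maximalIdeal T) T] (g : A →+* T) (t : T) (ht : t ∈ maximalIdeal T) :
    ∃ g' : A⟦X⟧ →+* T, g'.comp (PowerSeries.C (R := A)) = g ∧ g' PowerSeries.X = t := by
  have hf : ∀ {m n : ℕ} (hle : m ≤ n), (Ideal.Quotient.factorPow (maximalIdeal T) hle).comp
      (evn (maximalIdeal T) g t ht n) = evn (maximalIdeal T) g t ht m := by
    intro m n hle
    ext f
    change Ideal.Quotient.factorPow (maximalIdeal T) hle (Ideal.Quotient.mk _ _) =
      Ideal.Quotient.mk _ _
    rw [Ideal.Quotient.factor_mk, ← eval_trunc _ g t ht m (PowerSeries.trunc n f),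
      PowerSeries.trunc_trunc_of_le f hle]
  have key : ∀ p : Polynomial A, IsAdicComplete.liftRingHom (maximalIdeal T)
      (evn (maximalIdeal T) g t ht) hf (p : A⟦X⟧) = Polynomial.eval₂ g t p := by
    intro p
    refine IsHausdorff.eq_iff_smodEq (I := maximalIdeal T) |>.2 fun n => ?_
    rw [SModEq.sub_mem]
    have h1 := IsAdicComplete.mk_liftRingHom (maximalIdeal T) (evn (maximalIdeal T) g t ht) hf n
      (p : A⟦X⟧)
    have h2 := (eval_trunc (maximalIdeal T) g t ht n p)
    have h3 := h1.trans h2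
    rw [Ideal.Quotient.eq] at h3
    simpa using h3
  refine ⟨IsAdicComplete.liftRingHom (maximalIdeal T) (evn (maximalIdeal T) g t ht) hf, ?_, ?_⟩
  · ext a
    have := key (Polynomial.C a)
    rw [Polynomial.coe_C, Polynomial.eval₂_C] at this
    exact this
  · have := key Polynomial.X
    rw [Polynomial.coe_X, Polynomial.eval₂_X] at this
    exact this

theorem powerSeries_finite (A T : Type) [CommRing A] [CommRing T] [IsLocalRing T]
    [IsNoetherianRing T] (h : A⟦X⟧ →+* T) (J : Ideal T)
    (ht : h PowerSeries.X ∈ maximalIdeal T)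
    (hfin : ((Ideal.Quotient.mk (J ⊔ Ideal.span {h PowerSeries.X})).comp
      (h.comp (PowerSeries.C (R := A)))).Finite) :
    ((Ideal.Quotient.mk J).comp h).Finite :=
  finite_general (PowerSeries.C (R := A)) h J PowerSeries.X ht hfin

theorem powerSeries_surjective (A T : Type) [CommRing A] [CommRing T] [IsLocalRing T]
    [IsNoetherianRing T] (h : A⟦X⟧ →+* T) (J : Ideal T)
    (ht : h PowerSeries.X ∈ maximalIdeal T)
    (hsurj : Function.Surjective ((Ideal.Quotient.mk (J ⊔ Ideal.span {h PowerSeries.X})).comp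
      (h.comp (PowerSeries.C (R := A))))) :
    Function.Surjective ((Ideal.Quotient.mk J).comp h) :=
  surjective_general (PowerSeries.C (R := A)) h J PowerSeries.X ht hsurj

/-- finiteness for a complete discrete valuation ring -/
theorem dvr_finite (C T : Type) [CommRing C] [IsDomain C] [IsDiscreteValuationRing C]
    [hc : IsAdicComplete (maximalIdeal C) C] [CommRing T] [IsLocalRing T]
    [IsNoetherianRing T] (h : C →+* T) (J : Ideal T) (ϖ : C) (hϖ : maximalIdeal C = Ideal.span {ϖ})
    (ht : h ϖ ∈ maximalIdeal T)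
    (hfin : ((Ideal.Quotient.mk (J ⊔ Ideal.span {h ϖ})).comp h).Finite) :
    ((Ideal.Quotient.mk J).comp h).Finite := by
  have _ : IsPrecomplete (Ideal.span {ϖ}) C := by
    rw [← hϖ]
    infer_instance
  exact finite_general (RingHom.id C) h J ϖ ht (by rwa [RingHom.comp_id])

end Pool.Agent.Lib.MP_3029eb_ag
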