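import Mathlib

/-!
Module RP: power series over a regular local ring.
-/

open IsLocalRing
open scoped PowerSeries

namespace Pool.Agent.Lib.MP_3029eb_ag

theorem powerSeries_mem_maximalIdeal_iff (A : Type) [CommRing A] [IsLocalRing A] (f : A⟦X⟧) :
    f ∈ maximalIdeal A⟦X⟧ ↔ PowerSeries.constantCoeff f ∈ maximalIdeal A := by
  rw [mem_maximalIdeal, mem_maximalIdeal, mem_nonunits_iff, mem_nonunits_iff,
    PowerSeries.isUnit_iff_constantCoeff]

theorem powerSeries_ker_constantCoeff (A : Type) [CommRing A] :
    RingHom.ker (PowerSeries.constantCoeff (R := A)) = Ideal.span {(PowerSeries.X : A⟦X⟧)} := by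
  ext f
  rw [RingHom.mem_ker, Ideal.mem_span_singleton, PowerSeries.X_dvd_iff]

theorem powerSeries_dim (A : Type) [CommRing A] [IsLocalRing A] [IsNoetherianRing A] :
    ringKrullDim A⟦X⟧ = ringKrullDim A + 1 := by
  have hX : (PowerSeries.X : A⟦X⟧) ∈ maximalIdeal A⟦X⟧ := by
    rw [powerSeries_mem_maximalIdeal_iff, PowerSeries.constantCoeff_X]
    exact zero_mem _
  have h := ringKrullDim_quotient_span_singleton_succ_eq_ringKrullDim_of_mem_nonZeroDivisors
    (R := A⟦X⟧) MvPowerSeries.X_mem_nonzeroDivisors hX
  have hsurj : Function.Surjective (PowerSeries.constantCoeff (R := A)) :=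
    fun a => ⟨PowerSeries.C a, PowerSeries.constantCoeff_C a⟩
  have h2 := ringKrullDim_eq_of_ringEquiv (RingHom.quotientKerEquivOfSurjective hsurj)
  have h3 := ringKrullDim_eq_of_ringEquiv
    (Ideal.quotEquivOfEq (powerSeries_ker_constantCoeff A))
  rw [← h, ← h2, h3]
  rfl

theorem powerSeries_regular (A : Type) [CommRing A] [IsRegularLocalRing A] :
    IsRegularLocalRing A⟦X⟧ ∧ ringKrullDim A⟦X⟧ = ringKrullDim A + 1 := by
  classical
  refine ⟨?_, powerSeries_dim A⟩
  apply IsRegularLocalRing.of_spanFinrank_maximalIdeal_le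
  obtain ⟨s, hs, hspan⟩ := Submodule.FG.exists_span_finset_card_eq_spanFinrank
    ((isNoetherianRing_iff_ideal_fg A).1 inferInstance (maximalIdeal A))
  have hreg := (isRegularLocalRing_iff A).1 inferInstance
  have hmax : maximalIdeal A⟦X⟧ =
      Ideal.span (((insert PowerSeries.X (s.image PowerSeries.C) : Finset A⟦X⟧)) : Set A⟦X⟧) := by
    apply le_antisymm
    · intro f hf
      rw [powerSeries_mem_maximalIdeal_iff] at hf
      have h1 : f - PowerSeries.C (PowerSeries.constantCoeff f) ∈
          Ideal.span {(PowerSeries.X : A⟦X⟧)} := by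
        rw [← powerSeries_ker_constantCoeff, RingHom.mem_ker, map_sub,
          PowerSeries.constantCoeff_C, sub_self]
      have h2 : PowerSeries.C (PowerSeries.constantCoeff f) ∈
          (Ideal.span (s : Set A)).map (PowerSeries.C (R := A)) := by
        refine Ideal.mem_map_of_mem _ ?_
        have h3 : (Ideal.span (s : Set A)) = maximalIdeal A := hspan
        rw [h3]; exact hf
      rw [Ideal.map_span] at h2
      have h4 : f = (f - PowerSeries.C (PowerSeries.constantCoeff f)) +
        PowerSeries.C (PowerSeries.constantCoeff f) := by ring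
      rw [h4]
      refine Ideal.add_mem _ (Ideal.span_mono ?_ h1) (Ideal.span_mono ?_ h2)
      · rw [Set.singleton_subset_iff, Finset.mem_coe]
        exact Finset.mem_insert_self _ _
      · rintro _ ⟨a, ha, rfl⟩
        rw [Finset.mem_coe]
        exact Finset.mem_insert_of_mem (Finset.mem_image_of_mem _ (Finset.mem_coe.1 ha))
    · rw [Ideal.span_le]
      intro f hf
      rw [Finset.mem_coe, Finset.mem_insert, Finset.mem_image] at hf
      rw [SetLike.mem_coe, powerSeries_mem_maximalIdeal_iff]
      rcases hf with rfl | ⟨a, ha, rfl⟩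
      · rw [PowerSeries.constantCoeff_X]; exact zero_mem _
      · rw [PowerSeries.constantCoeff_C]
        have h3 : (Ideal.span (s : Set A)) = maximalIdeal A := hspan
        rw [← h3]
        exact Ideal.subset_span ha
  have hcard : (maximalIdeal A⟦X⟧).spanFinrank ≤ s.card + 1 := by
    rw [hmax]
    refine (Submodule.spanFinrank_span_le_ncard_of_finite (Finset.finite_toSet _)).trans ?_
    rw [Set.ncard_coe_finset]
    refine (Finset.card_insert_le _ _).trans ?_
    exact Nat.add_le_add_right Finset.card_image_le 1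
  rw [powerSeries_dim, ← hreg, ← hs]
  exact_mod_cast hcard

end Pool.Agent.Lib.MP_3029eb_ag
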