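import Pool.Agent.Lib.MP_3029eb_ag.H44Defs
import Pool.Agent.Lib.MP_3029eb_ag.RB

/-!
Module SP of the local uniformization project: systems of parameters.
-/

open IsLocalRing

namespace Pool.Agent.Lib.MP_3029eb_ag

theorem exists_sop (T : Type) [CommRing T] [IsLocalRing T] [IsNoetherianRing T] (P : Ideal T)
    (hP : P ≠ ⊤) (d : ℕ) (hd : ringKrullDim (T ⧸ P) = d) :
    ∃ (y : Fin d → T), (∀ i, y i ∈ maximalIdeal T) ∧
      ∃ n : ℕ, maximalIdeal T ^ n ≤ P ⊔ Ideal.span (Set.range y) := by
  have hnt : Nontrivial (T ⧸ P) := Ideal.Quotient.nontrivial_iff.2 hP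
  have hsurj : Function.Surjective (Ideal.Quotient.mk P) := Ideal.Quotient.mk_surjective
  have hloc : IsLocalRing (T ⧸ P) := IsLocalRing.of_surjective' _ hsurj
  have hPm : P ≤ maximalIdeal T := IsLocalRing.le_maximalIdeal hP
  -- elements over the maximal ideal of the quotient
  have hmem : ∀ t : T, Ideal.Quotient.mk P t ∈ maximalIdeal (T ⧸ P) → t ∈ maximalIdeal T := by
    intro t ht
    rw [IsLocalRing.mem_maximalIdeal, mem_nonunits_iff] at ht ⊢
    exact fun h => ht (h.map _)
  have hmem' : ∀ t ∈ maximalIdeal T, Ideal.Quotient.mk P t ∈ maximalIdeal (T ⧸ P) := by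
    intro t ht
    rw [IsLocalRing.mem_maximalIdeal, mem_nonunits_iff] at ht ⊢
    intro h
    obtain ⟨u, hu⟩ := h.exists_right_inv
    obtain ⟨s, rfl⟩ := hsurj u
    rw [← map_mul, ← map_one (Ideal.Quotient.mk P), Ideal.Quotient.eq] at hu
    have h1 : t * s ∈ maximalIdeal T := Ideal.mul_mem_right _ _ ht
    have h2 : (1 : T) ∈ maximalIdeal T := by
      have := Ideal.sub_mem _ h1 (hPm hu)
      simpa using this
    exact (Ideal.ne_top_iff_one _).1 (maximalIdeal.isMaximal T).ne_top h2
  obtain ⟨s, hs, hcard⟩ :=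
    Ideal.exists_finset_card_eq_height_of_isNoetherianRing (maximalIdeal (T ⧸ P))
  have hcd : s.card = d := by
    have h1 := IsLocalRing.maximalIdeal_height_eq_ringKrullDim (R := T ⧸ P)
    rw [hd, ← hcard] at h1
    exact_mod_cast h1
  obtain ⟨e⟩ : Nonempty (Fin d ≃ s) := ⟨(finCongr hcd.symm).trans s.equivFin.symm⟩
  choose lift hlift using hsurj
  refine ⟨fun i => lift (e i), fun i => hmem _ ?_, ?_⟩
  · rw [hlift]
    exact hs.1.2 (Ideal.subset_span (e i).2)
  · -- radical of the span is the maximal ideal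
    have hrad : maximalIdeal (T ⧸ P) ≤ (Ideal.span (s : Set (T ⧸ P))).radical := by
      rw [Ideal.radical_eq_sInf]
      refine le_sInf ?_
      rintro J ⟨hJ, hJp⟩
      have hJm : J ≤ maximalIdeal (T ⧸ P) := IsLocalRing.le_maximalIdeal hJp.ne_top
      exact hs.2 ⟨hJp, hJ⟩ hJm
    obtain ⟨n, hn⟩ := Ideal.exists_radical_pow_le_of_fg (Ideal.span (s : Set (T ⧸ P)))
      (IsNoetherian.noetherian _)
    refine ⟨n, ?_⟩
    have h1 : (maximalIdeal T ^ n).map (Ideal.Quotient.mk P) ≤
        (Ideal.span (Set.range fun i => lift (e i))).map (Ideal.Quotient.mk P) := by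
      have h2 : (Ideal.span (Set.range fun i => lift (e i))).map (Ideal.Quotient.mk P) =
          Ideal.span (s : Set (T ⧸ P)) := by
        rw [Ideal.map_span]
        congr 1
        ext b
        constructor
        · rintro ⟨_, ⟨i, rfl⟩, rfl⟩
          change Ideal.Quotient.mk P (lift (e i)) ∈ _
          rw [hlift]
          exact (e i).2
        · intro hb
          refine ⟨lift b, ⟨e.symm ⟨b, hb⟩, ?_⟩, hlift b⟩
          change lift (e (e.symm ⟨b, hb⟩)) = lift b
          rw [Equiv.apply_symm_apply]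
      rw [h2, Ideal.map_pow]
      refine (Ideal.pow_right_mono ?_ n).trans hn
      refine le_trans ?_ hrad
      rw [Ideal.map_le_iff_le_comap]
      exact hmem'
    rw [Ideal.map_le_iff_le_comap, Ideal.comap_map_of_surjective _ Ideal.Quotient.mk_surjective]
      at h1
    refine h1.trans ?_
    rw [sup_comm]
    refine sup_le_sup_right ?_ _
    intro t ht
    rw [Ideal.mem_comap, Ideal.mem_bot] at ht
    exact Ideal.Quotient.eq_zero_iff_mem.1 ht

theorem finite_of_artinian (C T : Type) [CommRing C] [CommRing T] [IsLocalRing T]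
    [IsNoetherianRing T] (h : C →+* T) (hres : Function.Surjective ((residue T).comp h))
    (J : Ideal T) (n : ℕ) (hn : maximalIdeal T ^ n ≤ J) :
    ((Ideal.Quotient.mk J).comp h).Finite := by
  classical
  let _ : Algebra C T := h.toAlgebra
  -- the powers of the maximal ideal as `C`-submodules
  have key : ∀ k : ℕ, ∃ G : Finset T, ∀ t : T, ∃ t' ∈ Submodule.span C (G : Set T),
      t - t' ∈ maximalIdeal T ^ k := by
    intro k
    induction k with
    | zero => exact ⟨∅, fun t => ⟨0, zero_mem _, by simp⟩⟩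
    | succ k ih =>
      obtain ⟨G, hG⟩ := ih
      obtain ⟨H, hH⟩ := (IsNoetherian.noetherian (maximalIdeal T ^ k) : Ideal.FG _)
      refine ⟨G ∪ H, fun t => ?_⟩
      obtain ⟨t', ht', h1⟩ := hG t
      -- decompose the remainder
      have h2 : ∀ r ∈ Ideal.span (H : Set T), ∃ r' ∈ Submodule.span C (H : Set T),
          r - r' ∈ maximalIdeal T ^ (k + 1) := by
        intro r hr
        refine Submodule.span_induction ?_ ?_ ?_ ?_ hr
        · intro x hx
          exact ⟨x, Submodule.subset_span hx, by simp⟩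
        · exact ⟨0, zero_mem _, by simp⟩
        · rintro x y - - ⟨x', hx', hx⟩ ⟨y', hy', hy⟩
          refine ⟨x' + y', add_mem hx' hy', ?_⟩
          have : x + y - (x' + y') = (x - x') + (y - y') := by ring
          rw [this]
          exact add_mem hx hy
        · rintro a x hxH ⟨x', hx', hx⟩
          obtain ⟨c, hc⟩ := hres (residue T a)
          have hac : a - h c ∈ maximalIdeal T := by
            rw [← Ideal.Quotient.eq_zero_iff_mem, map_sub, sub_eq_zero]
            exact hc.symm
          refine ⟨c • x', Submodule.smul_mem _ _ hx', ?_⟩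
          have hxk : x ∈ maximalIdeal T ^ k := by
            rw [← hH]; exact hxH
          have : a • x - c • x' = (a - h c) * x + h c * (x - x') := by
            rw [smul_eq_mul, Algebra.smul_def]
            change a * x - h c * x' = _
            ring
          rw [this]
          refine add_mem ?_ (Ideal.mul_mem_left _ _ hx)
          rw [pow_succ']
          exact Ideal.mul_mem_mul hac hxk
      rw [← hH] at h1
      obtain ⟨r', hr', h3⟩ := h2 _ h1
      refine ⟨t' + r', add_mem ?_ ?_, ?_⟩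
      · exact Submodule.span_mono (by simp) ht'
      · exact Submodule.span_mono (by simp) hr'
      · have : t - (t' + r') = t - t' - r' := by ring
        rw [this]
        exact h3
  obtain ⟨G, hG⟩ := key n
  let _ : Algebra C (T ⧸ J) := ((Ideal.Quotient.mk J).comp h).toAlgebra
  change Module.Finite C (T ⧸ J)
  refine ⟨⟨G.image (Ideal.Quotient.mk J), ?_⟩⟩
  rw [eq_top_iff]
  intro z _
  obtain ⟨t, rfl⟩ := Ideal.Quotient.mk_surjective z
  obtain ⟨t', ht', h1⟩ := hG t
  have h2 : Ideal.Quotient.mk J t = Ideal.Quotient.mk J t' :=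
    Ideal.Quotient.eq.2 (hn h1)
  rw [h2]
  refine Submodule.span_induction (p := fun t' _ => Ideal.Quotient.mk J t' ∈
    Submodule.span C (((G.image (Ideal.Quotient.mk J) : Finset (T ⧸ J)) : Set (T ⧸ J))))
    ?_ ?_ ?_ ?_ ht'
  · intro x hx
    refine Submodule.subset_span ?_
    simp only [Finset.coe_image]
    exact ⟨x, hx, rfl⟩
  · rw [map_zero]; exact zero_mem _
  · intro x y _ _ hx hy
    rw [map_add]; exact add_mem hx hy
  · intro c x _ hx
    have : Ideal.Quotient.mk J (c • x) = c • Ideal.Quotient.mk J x := rfl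
    rw [this]
    exact Submodule.smul_mem _ _ hx

/-- Version of `injective_of_dim` with the hypothesis that `Λ` is a domain. -/
theorem SP_injective_of_dim (Λ T : Type) [CommRing Λ] [IsDomain Λ] [CommRing T]
    (P : Ideal T) [P.IsPrime] (h : Λ →+* T)
    (hfin : ((Ideal.Quotient.mk P).comp h).Finite) (d : ℕ) (hd : ringKrullDim Λ = d)
    (hdim : ringKrullDim (T ⧸ P) = ringKrullDim Λ) :
    Function.Injective ((Ideal.Quotient.mk P).comp h) := by
  rw [injective_iff_map_eq_zero]
  intro r hr
  by_contra hr0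
  set ψ : Λ →+* T ⧸ P := (Ideal.Quotient.mk P).comp h with hψ
  -- `dim T/P ≤ dim (Λ / ker ψ)`
  have h1 : ringKrullDim (T ⧸ P) ≤ ringKrullDim (Λ ⧸ RingHom.ker ψ) := by
    let _ : Algebra Λ (T ⧸ P) := ψ.toAlgebra
    have : Module.Finite Λ (T ⧸ P) := hfin
    have hmap : ∀ I : PrimeSpectrum (T ⧸ P), RingHom.ker ψ ≤ I.asIdeal.comap ψ := by
      intro I x hx
      rw [Ideal.mem_comap]
      rw [RingHom.mem_ker] at hx
      rw [hx]; exact zero_mem _
    rw [ringKrullDim_quotient (RingHom.ker ψ)]
    refine Order.krullDim_le_of_strictMono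
      (fun I : PrimeSpectrum (T ⧸ P) =>
        (⟨PrimeSpectrum.comap ψ I, hmap I⟩ :
          PrimeSpectrum.zeroLocus (R := Λ) (RingHom.ker ψ : Set Λ))) ?_
    intro I J hIJ
    have h2 : I.asIdeal < J.asIdeal := hIJ
    have h3 := Ideal.IsIntegral.comap_lt_comap (R := Λ) h2
    exact h3
  have h2 : ringKrullDim (Λ ⧸ RingHom.ker ψ) + 1 ≤ ringKrullDim Λ :=
    ringKrullDim_succ_le_of_surjective (Ideal.Quotient.mk (RingHom.ker ψ))
      Ideal.Quotient.mk_surjective (mem_nonZeroDivisors_of_ne_zero hr0)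
      (Ideal.Quotient.eq_zero_iff_mem.2 (by rw [RingHom.mem_ker]; exact hr))
  rw [hdim, hd] at h1
  rw [hd] at h2
  have h3 : ((d : WithBot ℕ∞)) + 1 ≤ d := (add_le_add_left h1 1).trans h2
  have h4 : (d + 1 : ℕ) ≤ d := by exact_mod_cast h3
  omega

/-- If `Λ → T ⧸ P` is finite and the dimensions agree then it is injective. -/
theorem injective_of_dim (Λ T : Type) [CommRing Λ] [IsRegularLocalRing Λ] [CommRing T]
    [IsNoetherianRing T] (P : Ideal T) [P.IsPrime] (h : Λ →+* T)
    (hfin : ((Ideal.Quotient.mk P).comp h).Finite)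
    (hdim : ringKrullDim (T ⧸ P) = ringKrullDim Λ) :
    Function.Injective ((Ideal.Quotient.mk P).comp h) := by
  have hdom : IsDomain Λ := isDomain_of_isRegularLocalRing Λ
  have h1 : ringKrullDim Λ ≠ ⊥ := ringKrullDim_ne_bot
  have h2 : ringKrullDim Λ ≠ ⊤ := ringKrullDim_ne_top
  obtain ⟨e, he⟩ := WithBot.ne_bot_iff_exists.1 h1
  have he' : e ≠ ⊤ := by
    rintro rfl
    exact h2 (by rw [← he]; rfl)
  obtain ⟨d, rfl⟩ := ENat.ne_top_iff_exists.1 he'
  exact SP_injective_of_dim Λ T P h hfin d (by rw [← he]; rfl) hdim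

end Pool.Agent.Lib.MP_3029eb_ag
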