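import Pool.Agent.Lib.MP_3029eb_ag.RB
import Pool.Agent.Lib.MP_3029eb_ag.RP
import Pool.Agent.Lib.MP_3029eb_ag.HA
import Pool.Agent.Lib.MP_3029eb_ag.HB
import Pool.Agent.Lib.MP_3029eb_ag.HC
import Pool.Agent.Lib.MP_3029eb_ag.FS
import Pool.Agent.Lib.MP_3029eb_ag.CR
import Pool.Agent.Lib.MP_3029eb_ag.CL
import Pool.Agent.Lib.MP_3029eb_ag.PS
import Pool.Agent.Lib.MP_3029eb_ag.SP
import Pool.Agent.Lib.MP_3029eb_ag.GoodDef
import Pool.Agent.Lib.MP_3029eb_ag.G1
import Pool.Agent.Lib.MP_3029eb_ag.G2
import Pool.Agent.Lib.MP_3029eb_ag.BddDef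
import Pool.Agent.Lib.MP_3029eb_ag.BD0
import Pool.Agent.Lib.MP_3029eb_ag.BDP
import Pool.Agent.Lib.MP_3029eb_ag.J
import Pool.Agent.Lib.MP_3029eb_ag.H44Main
import Pool.Agent.Lib.MP_3029eb_ag.CompDefs

open IsLocalRing
open scoped TensorProduct PowerSeries

namespace Pool.Agent.Lib.MP_3029eb_ag

/-- adjoin power series variables, keeping finiteness modulo an ideal -/
theorem tower_finite (T : Type) [CommRing T] [IsLocalRing T] [IsNoetherianRing T]
    [IsAdicComplete (maximalIdeal T) T] (p : ℕ) [Fact p.Prime] :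
    ∀ (r : ℕ) (J : Ideal T) (y : Fin r → T) (_ : ∀ i, y i ∈ maximalIdeal T)
      (Λ : Type) [CommRing Λ] [IsRegularLocalRing Λ] (g : Λ →+* T)
      (_ : ((Ideal.Quotient.mk (J ⊔ Ideal.span (Set.range y))).comp g).Finite)
      (Pr : Prop) (_ : Pr → CharP Λ p ∧ Good p Λ),
      ∃ (Λ' : Type) (_ : CommRing Λ') (_ : IsRegularLocalRing Λ') (g' : Λ' →+* T) (e : Λ →+* Λ'),
        g'.comp e = g ∧ Function.Injective e ∧ ((Ideal.Quotient.mk J).comp g').Finite ∧
        ringKrullDim Λ' = ringKrullDim Λ + r ∧ (Pr → CharP Λ' p ∧ Good p Λ') := by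
  intro r
  induction r with
  | zero =>
    intro J y hy Λ _ _ g hfin Pr hPr
    refine ⟨Λ, inferInstance, inferInstance, g, RingHom.id _, by simp, Function.injective_id, ?_,
      by simp, hPr⟩
    have : Set.range y = ∅ := by simp
    rw [this, Ideal.span_empty, sup_bot_eq] at hfin
    exact hfin
  | succ r ih =>
    intro J y hy Λ _ _ g hfin Pr hPr
    obtain ⟨g', hg', hX⟩ := exists_powerSeries_map Λ T g (y 0) (hy 0)
    have hreg := powerSeries_regular Λ
    have h1 := hreg.1
    have hdom : IsDomain Λ := isDomain_of_isRegularLocalRing Λ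
    have key : ((Ideal.Quotient.mk (J ⊔ Ideal.span (Set.range (fun i : Fin r => y i.succ)))).comp
        g').Finite := by
      refine powerSeries_finite Λ T g' _ (by rw [hX]; exact hy 0) ?_
      rw [hg', hX]
      have : J ⊔ Ideal.span (Set.range (fun i : Fin r => y i.succ)) ⊔ Ideal.span {y 0} =
          J ⊔ Ideal.span (Set.range y) := by
        rw [sup_assoc, ← Ideal.span_union]
        congr 2
        ext z
        simp only [Set.mem_union, Set.mem_range, Set.mem_singleton_iff, Fin.exists_fin_succ]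
        tauto
      rw [this]
      exact hfin
    obtain ⟨Λ', i1, i2, g'', e, he, hinj, hfin', hdim, hgood⟩ := ih J (fun i => y i.succ)
      (fun i => hy _) Λ⟦X⟧ g' key Pr (fun h => ⟨by
        have := (hPr h).1
        exact charP_of_injective_ringHom (PowerSeries.C_injective (R := Λ)) p, by
        have := (hPr h).1
        exact good_powerSeries p Λ (hPr h).2⟩)
    refine ⟨Λ', i1, i2, g'', e.comp (PowerSeries.C (R := Λ)), ?_, ?_, hfin', ?_, hgood⟩
    · rw [← RingHom.comp_assoc, he, hg']
    · exact hinj.comp (PowerSeries.C_injective (R := Λ))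
    · rw [hdim, hreg.2, add_assoc]
      congr 1
      push_cast
      rw [add_comm]

/-- adjoin power series variables, keeping surjectivity modulo an ideal -/
theorem tower_surj (T : Type) [CommRing T] [IsLocalRing T] [IsNoetherianRing T]
    [IsAdicComplete (maximalIdeal T) T] :
    ∀ (r : ℕ) (J : Ideal T) (y : Fin r → T) (_ : ∀ i, y i ∈ maximalIdeal T)
      (Λ : Type) [CommRing Λ] [IsRegularLocalRing Λ] (g : Λ →+* T)
      (_ : Function.Surjective ((Ideal.Quotient.mk (J ⊔ Ideal.span (Set.range y))).comp g)),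
      ∃ (Λ' : Type) (_ : CommRing Λ') (_ : IsRegularLocalRing Λ') (g' : Λ' →+* T) (e : Λ →+* Λ'),
        g'.comp e = g ∧ Function.Surjective ((Ideal.Quotient.mk J).comp g') := by
  intro r
  induction r with
  | zero =>
    intro J y hy Λ _ _ g hfin
    refine ⟨Λ, inferInstance, inferInstance, g, RingHom.id _, by simp, ?_⟩
    have : Set.range y = ∅ := by simp
    rw [this, Ideal.span_empty, sup_bot_eq] at hfin
    exact hfin
  | succ r ih =>
    intro J y hy Λ _ _ g hfin
    obtain ⟨g', hg', hX⟩ := exists_powerSeries_map Λ T g (y 0) (hy 0)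
    have hreg := powerSeries_regular Λ
    have h1 := hreg.1
    have key : Function.Surjective
        ((Ideal.Quotient.mk (J ⊔ Ideal.span (Set.range (fun i : Fin r => y i.succ)))).comp
        g') := by
      refine powerSeries_surjective Λ T g' _ (by rw [hX]; exact hy 0) ?_
      rw [hg', hX]
      have : J ⊔ Ideal.span (Set.range (fun i : Fin r => y i.succ)) ⊔ Ideal.span {y 0} =
          J ⊔ Ideal.span (Set.range y) := by
        rw [sup_assoc, ← Ideal.span_union]
        congr 2
        ext z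
        simp only [Set.mem_union, Set.mem_range, Set.mem_singleton_iff, Fin.exists_fin_succ]
        tauto
      rw [this]
      exact hfin
    obtain ⟨Λ', i1, i2, g'', e, he, hsurj⟩ := ih J (fun i => y i.succ)
      (fun i => hy _) Λ⟦X⟧ g' key
    exact ⟨Λ', i1, i2, g'', e.comp (PowerSeries.C (R := Λ)),
      by rw [← RingHom.comp_assoc, he, hg'], hsurj⟩

theorem exists_cohen_noether (T : Type) [CommRing T] [IsLocalRing T] [IsNoetherianRing T]
    [IsAdicComplete (maximalIdeal T) T] (P : Ideal T) [P.IsPrime]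
    (C : Type) [CommRing C] [IsRegularLocalRing C] (g : C →+* T)
    (hres : Function.Surjective ((residue T).comp g)) (r : ℕ) (y : Fin r → T)
    (hy : ∀ i, y i ∈ maximalIdeal T)
    (hfin : ((Ideal.Quotient.mk (P ⊔ Ideal.span (Set.range y))).comp g).Finite)
    (hdim : ringKrullDim (T ⧸ P) = ringKrullDim C + r) (p : ℕ) [Fact p.Prime]
    (Pr : Prop) (hPr : Pr → CharP C p ∧ Good p C) :
    ∃ (Λ S : Type) (_ : CommRing Λ) (_ : IsDomain Λ) (_ : CommRing S) (_ : IsRegularLocalRing S)
      (i : Λ →+* S) (π : S →+* T) (e : C →+* Λ), Function.Surjective π ∧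
      Function.Injective ((Ideal.Quotient.mk P).comp (π.comp i)) ∧
      ((Ideal.Quotient.mk P).comp (π.comp i)).Finite ∧ Function.Injective e ∧
      (Pr → CharP Λ p ∧ Good p Λ) := by
  obtain ⟨Λ, iΛ, iΛr, gΛ, e, he, heinj, hΛfin, hΛdim, hΛgood⟩ :=
    tower_finite T p r P y hy C g hfin Pr hPr
  have hΛdom : IsDomain Λ := isDomain_of_isRegularLocalRing Λ
  have hΛinj := injective_of_dim Λ T P gΛ hΛfin (by rw [hdim, hΛdim])
  obtain ⟨s, hs⟩ : (maximalIdeal T).FG := (isNoetherianRing_iff_ideal_fg T).1 inferInstance _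
  obtain ⟨m, t, ht⟩ : ∃ (m : ℕ) (t : Fin m → T), Set.range t = (s : Set T) :=
    ⟨s.card, fun i => (s.equivFin.symm i : T), by
      ext z
      simp only [Set.mem_range, Finset.mem_coe]
      constructor
      · rintro ⟨i, rfl⟩; exact (s.equivFin.symm i).2
      · intro hz; exact ⟨s.equivFin ⟨z, hz⟩, by simp⟩⟩
  have hspan : Ideal.span (Set.range t) = maximalIdeal T := by rw [ht]; exact hs
  obtain ⟨S, iS, iSr, π, i, hi, hπ⟩ := tower_surj T m ⊥ t (fun i => by
    rw [← hspan]; exact Ideal.subset_span ⟨i, rfl⟩) Λ gΛ (by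
    rw [bot_sup_eq, hspan]
    intro z
    obtain ⟨c, hc⟩ := hres z
    refine ⟨e c, ?_⟩
    rw [← hc, ← he]
    rfl)
  refine ⟨Λ, S, iΛ, hΛdom, iS, iSr, i, π, e, ?_, ?_, ?_, heinj, hΛgood⟩
  · intro z
    obtain ⟨a, ha⟩ := hπ (Ideal.Quotient.mk ⊥ z)
    refine ⟨a, ?_⟩
    rw [RingHom.comp_apply, Ideal.Quotient.eq, Ideal.mem_bot, sub_eq_zero] at ha
    exact ha
  · rw [hi]; exact hΛinj
  · rw [hi]; exact hΛfin

theorem exists_nat_krullDim (T : Type) [CommRing T] [IsLocalRing T] [IsNoetherianRing T]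
    (P : Ideal T) (hP : P ≠ ⊤) : ∃ d : ℕ, ringKrullDim (T ⧸ P) = d := by
  have : Nontrivial (T ⧸ P) := Ideal.Quotient.nontrivial_iff.2 hP
  have : IsLocalRing (T ⧸ P) := IsLocalRing.of_surjective' _ Ideal.Quotient.mk_surjective
  have h1 := ringKrullDim_ne_top (R := T ⧸ P)
  have h2 := ringKrullDim_ne_bot (R := T ⧸ P)
  obtain ⟨a, ha⟩ := WithBot.ne_bot_iff_exists.1 h2
  rw [← ha] at h1 ⊢
  have h3 : a ≠ ⊤ := fun h => h1 (by rw [h]; rfl)
  obtain ⟨b, hb⟩ := ENat.ne_top_iff_exists.1 h3
  exact ⟨b, by rw [← hb]; rfl⟩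

/-- the case of a coefficient field -/
theorem exists_cohen_data_field (T : Type) [CommRing T] [IsLocalRing T] [IsNoetherianRing T]
    [IsAdicComplete (maximalIdeal T) T] (P : Ideal T) [P.IsPrime] (K0 : Type) [Field K0]
    [PerfectField K0] [Algebra K0 T] (p : ℕ) [Fact p.Prime]
    (Pr : Prop) (hPr : Pr → CharP (ResidueField T) p ∧ Good p (ResidueField T)) :
    ∃ (Λ S : Type) (_ : CommRing Λ) (_ : IsDomain Λ) (_ : CommRing S) (_ : IsRegularLocalRing S)
      (i : Λ →+* S) (π : S →+* T) (e : ResidueField T →+* Λ), Function.Surjective π ∧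
      Function.Injective ((Ideal.Quotient.mk P).comp (π.comp i)) ∧
      ((Ideal.Quotient.mk P).comp (π.comp i)).Finite ∧ Function.Injective e ∧
      (Pr → CharP Λ p ∧ Good p Λ) := by
  obtain ⟨d, hd⟩ := exists_nat_krullDim T P Ideal.IsPrime.ne_top'
  obtain ⟨g, hg⟩ := exists_coefficient_field K0 T
  obtain ⟨y, hy, n, hn⟩ := exists_sop T P Ideal.IsPrime.ne_top' d hd
  have hres : Function.Surjective ((residue T).comp g) := by
    rw [hg]; exact Function.surjective_id
  refine exists_cohen_noether T P (ResidueField T) g hres d y hy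
    (finite_of_artinian _ T g hres _ n hn) ?_ p Pr hPr
  rw [hd, ringKrullDim_eq_zero_of_field, zero_add]

/-- The hypothesis on characteristics. -/
theorem exists_cohen_data (T : Type) [CommRing T] [IsLocalRing T] [IsNoetherianRing T]
    [IsAdicComplete (maximalIdeal T) T] (P : Ideal T) [P.IsPrime]
    (hchar : (∃ p : ℕ, Fact p.Prime ∧ CharP T p) ∨
      (∃ p : ℕ, Fact p.Prime ∧ CharP (ResidueField T) p ∧ (p : T) ∉ P) ∨
      CharZero (ResidueField T)) :
    ∃ (Λ S : Type) (_ : CommRing Λ) (_ : IsDomain Λ) (_ : CommRing S) (_ : IsRegularLocalRing S)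
      (i : Λ →+* S) (π : S →+* T), Function.Surjective π ∧
      Function.Injective ((Ideal.Quotient.mk P).comp (π.comp i)) ∧
      ((Ideal.Quotient.mk P).comp (π.comp i)).Finite ∧
      (CharZero Λ ∨ ∃ p : ℕ, Fact p.Prime ∧ CharP Λ p ∧ Good p Λ) := by
  have hPtop : P ≠ ⊤ := Ideal.IsPrime.ne_top'
  rcases hchar with ⟨p, hp, hpT⟩ | ⟨p, hp, hpk, hpP⟩ | hk0
  · -- equal characteristic p
    let : Algebra (ZMod p) T := ZMod.algebra T p
    have hkp : CharP (ResidueField T) p := by
      let : Algebra (ZMod p) (ResidueField T) := ((residue T).comp (algebraMap (ZMod p) T)).toAlgebra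
      exact charP_of_injective_algebraMap (algebraMap (ZMod p) (ResidueField T)).injective p
    obtain ⟨Λ, S, iΛ, iΛd, iS, iSr, i, π, e, h1, h2, h3, h4, h5⟩ :=
      exists_cohen_data_field T P (ZMod p) p True (fun _ => ⟨hkp, good_field p _⟩)
    exact ⟨Λ, S, iΛ, iΛd, iS, iSr, i, π, h1, h2, h3, Or.inr ⟨p, hp, h5 trivial⟩⟩
  · -- mixed characteristic
    obtain ⟨C, iC, iCd, iCdvr, iCc, iC0, q, hCm, hq⟩ := exists_cohen_ring p (ResidueField T)
    have hpT : (p : T) ∈ maximalIdeal T := by
      rw [← residue_eq_zero_iff, map_natCast, CharP.cast_eq_zero]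
    obtain ⟨g, hg⟩ := exists_coefficient_map p T hpT C hCm q
    have hres : Function.Surjective ((residue T).comp g) := by rw [hg]; exact hq
    obtain ⟨d, hd⟩ := exists_nat_krullDim T P hPtop
    have hP' : P ⊔ Ideal.span {(p : T)} ≠ ⊤ := by
      intro h
      have : P ⊔ Ideal.span {(p : T)} ≤ maximalIdeal T :=
        sup_le (IsLocalRing.le_maximalIdeal hPtop) (by
          rw [Ideal.span_singleton_le_iff_mem]; exact hpT)
      rw [h, top_le_iff] at this
      exact Ideal.IsPrime.ne_top' this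
    obtain ⟨r, hr⟩ := exists_nat_krullDim T _ hP'
    have hdr : d = r + 1 := by
      have e1 : ringKrullDim ((T ⧸ P) ⧸ Ideal.span {(Ideal.Quotient.mk P) (p : T)}) + 1 =
          ringKrullDim (T ⧸ P) := by
        have : Nontrivial (T ⧸ P) := Ideal.Quotient.nontrivial_iff.2 hPtop
        have : IsLocalRing (T ⧸ P) :=
          IsLocalRing.of_surjective' _ Ideal.Quotient.mk_surjective
        refine ringKrullDim_quotient_span_singleton_succ_eq_ringKrullDim_of_mem_nonZeroDivisors
          ?_ ?_
        · rw [mem_nonZeroDivisors_iff_ne_zero, Ne, Ideal.Quotient.eq_zero_iff_mem]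
          exact hpP
        · rw [mem_maximalIdeal, mem_nonunits_iff]
          intro hu
          have hloc : IsLocalHom (Ideal.Quotient.mk P) :=
            Ideal.Quotient.mk_surjective.isLocalHom
          have := isUnit_of_map_unit (Ideal.Quotient.mk P) _ hu
          exact (mem_nonunits_iff.1 ((mem_maximalIdeal _).1 hpT)) this
      have e2 : ringKrullDim ((T ⧸ P) ⧸ Ideal.span {(Ideal.Quotient.mk P) (p : T)}) =
          ringKrullDim (T ⧸ (P ⊔ Ideal.span {(p : T)})) := by
        have : Ideal.span {(Ideal.Quotient.mk P) (p : T)} =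
            (Ideal.span {(p : T)}).map (Ideal.Quotient.mk P) := by
          rw [Ideal.map_span, Set.image_singleton]
        rw [this]
        exact ringKrullDim_eq_of_ringEquiv (DoubleQuot.quotQuotEquivQuotSup P _)
      rw [e2, hr, hd] at e1
      exact_mod_cast e1.symm
    obtain ⟨y, hy, n, hn⟩ := exists_sop T _ hP' r hr
    have hgp : g (p : C) = (p : T) := map_natCast g p
    have hfin : ((Ideal.Quotient.mk (P ⊔ Ideal.span (Set.range y))).comp g).Finite := by
      refine dvr_finite C T g _ (p : C) hCm (by rw [hgp]; exact hpT) ?_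
      rw [hgp]
      refine finite_of_artinian C T g hres _ n (hn.trans (le_of_eq ?_))
      rw [sup_assoc, sup_assoc, sup_comm (Ideal.span {(p : T)})]
    have hCdim : ringKrullDim C = 1 :=
      IsPrincipalIdealRing.ringKrullDim_eq_one C (IsDiscreteValuationRing.not_isField C)
    obtain ⟨Λ, S, iΛ, iΛd, iS, iSr, i, π, e, h1, h2, h3, h4, h5⟩ :=
      exists_cohen_noether T P C g hres r y hy hfin (by
        rw [hd, hdr, hCdim]; push_cast; rw [add_comm]) p False (fun h => h.elim)
    refine ⟨Λ, S, iΛ, iΛd, iS, iSr, i, π, h1, h2, h3, Or.inl ?_⟩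
    exact charZero_of_injective_ringHom h4
  · -- equal characteristic zero
    have hunit : ∀ n : ℕ, n ≠ 0 → IsUnit (n : T) := by
      intro n hn
      by_contra hcon
      have : (n : T) ∈ maximalIdeal T := (mem_maximalIdeal _).2 hcon
      rw [← residue_eq_zero_iff, map_natCast] at this
      exact hn (by exact_mod_cast this)
    have hT0 : ∀ I : Ideal T, I ≠ ⊤ → CharZero (T ⧸ I) := by
      intro I hI
      refine charZero_of_inj_zero (fun n hn => ?_)
      by_contra hn0
      have h1 := (hunit n hn0).map (Ideal.Quotient.mk I)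
      rw [map_natCast, hn] at h1
      have : Nontrivial (T ⧸ I) := Ideal.Quotient.nontrivial_iff.2 hI
      exact not_isUnit_zero h1
    let : Algebra ℚ T := (EqualCharZero.nonempty_algebraRat_iff T).2 hT0 |>.some
    obtain ⟨Λ, S, iΛ, iΛd, iS, iSr, i, π, e, h1, h2, h3, h4, h5⟩ :=
      exists_cohen_data_field T P ℚ 2 False (fun h => h.elim)
    refine ⟨Λ, S, iΛ, iΛd, iS, iSr, i, π, h1, h2, h3, Or.inl ?_⟩
    exact charZero_of_injective_ringHom h4

/-- conversion of `LU` to the form used in the frozen statement -/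
theorem LU_to_subalgebra {K : Type} [Field K] (V : ValuationSubring K) {R : Type} [CommRing R]
    [Algebra R K] (hRV : ∀ r : R, algebraMap R K r ∈ V) (h : LU V (algebraMap R K).range) :
    ∃ A : Subalgebra R K, A.FG ∧ (∀ a : A, (a : K) ∈ V) ∧
      ∃ P : Ideal A, ∃ (_ : P.IsPrime),
        (∀ a : A, a ∈ P ↔ V.valuation (a : K) < 1) ∧
        IsRegularLocalRing (Localization.AtPrime P) := by
  obtain ⟨s, hs, hreg⟩ := h
  let A : Subalgebra R K := Algebra.adjoin R (s : Set K)
  have hA : A.toSubring = Subring.closure (((algebraMap R K).range : Set K) ∪ (s : Set K)) := by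
    rw [Algebra.adjoin_eq_ring_closure]
    rfl
  have hAV : ∀ a : A, (a : K) ∈ V := by
    intro a
    have h1 : (a : K) ∈ A.toSubring := a.2
    rw [hA] at h1
    have h2 : Subring.closure (((algebraMap R K).range : Set K) ∪ (s : Set K)) ≤ V.toSubring := by
      rw [Subring.closure_le]
      rintro z (⟨r, rfl⟩ | hz)
      · exact hRV r
      · exact hs z hz
    exact h2 h1
  let P : Ideal A :=
    { carrier := {a | V.valuation (a : K) < 1}
      add_mem' := fun {a b} ha hb => by
        show V.valuation ((a : K) + (b : K)) < 1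
        exact Valuation.map_add_lt _ ha hb
      zero_mem' := by
        show V.valuation (0 : K) < 1
        rw [map_zero]; exact zero_lt_one
      smul_mem' := fun a b hb => by
        show V.valuation ((a : K) * (b : K)) < 1
        rw [map_mul]
        exact (mul_le_of_le_one_left' ((V.valuation_le_one_iff _).2 (hAV a))).trans_lt hb }
  have hP : ∀ a : A, a ∈ P ↔ V.valuation (a : K) < 1 := fun a => Iff.rfl
  have hval : ∀ a : A, a ∉ P ↔ V.valuation (a : K) = 1 := by
    intro a
    rw [hP, not_lt]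
    exact ⟨fun h => le_antisymm ((V.valuation_le_one_iff _).2 (hAV a)) h, fun h => h.ge⟩
  have hPp : P.IsPrime := by
    refine ⟨?_, ?_⟩
    · rw [Ne, Ideal.eq_top_iff_one, hP]
      simp
    · intro a b hab
      by_contra hcon
      push Not at hcon
      have h1 := (hval a).1 hcon.1
      have h2 := (hval b).1 hcon.2
      rw [hP] at hab
      have : V.valuation ((a * b : A) : K) = 1 := by
        rw [MulMemClass.coe_mul, map_mul, h1, h2, one_mul]
      rw [this] at hab
      exact lt_irrefl _ hab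
  refine ⟨A, ⟨s, rfl⟩, hAV, P, hPp, hP, ?_⟩
  set B : Subring K := locV V (Subring.closure (((algebraMap R K).range : Set K) ∪ (s : Set K)))
    with hB
  have hAB : ∀ a : A, (a : K) ∈ B := by
    intro a
    refine ⟨a, ?_, 1, one_mem _, map_one _, mul_one _⟩
    rw [← hA]; exact a.2
  let f : A →+* B := (A.subtype : A →+* K).codRestrict B hAB
  let : Algebra A B := f.toAlgebra
  have hf : ∀ a : A, ((algebraMap A B a : B) : K) = (a : K) := fun a => rfl
  have hloc : IsLocalization.AtPrime B P := by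
    refine ⟨?_, ?_, ?_⟩
    · intro y
      have hy : V.valuation ((y : A) : K) = 1 := (hval y).1 y.2
      have hy0 : ((y : A) : K) ≠ 0 := by
        intro h0; rw [h0, map_zero] at hy; exact zero_ne_one hy
      refine IsUnit.of_mul_eq_one ⟨((y : A) : K)⁻¹, 1, one_mem _, ((y : A) : K), ?_, hy, ?_⟩ ?_
      · rw [← hA]; exact (y : A).2
      · exact inv_mul_cancel₀ hy0
      · apply Subtype.ext
        show ((y : A) : K) * ((y : A) : K)⁻¹ = 1
        exact mul_inv_cancel₀ hy0
    · rintro ⟨z, a, ha, b, hb, hb1, hz⟩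
      rw [← hA] at ha hb
      refine ⟨(⟨a, ha⟩, ⟨⟨b, hb⟩, (hval _).2 hb1⟩), ?_⟩
      apply Subtype.ext
      exact hz
    · intro a b hab
      refine ⟨1, ?_⟩
      have : (a : K) = (b : K) := by
        have := congrArg (Subtype.val : B → K) hab
        exact this
      rw [Subtype.ext this]
  have e : B ≃+* Localization.AtPrime P :=
    (IsLocalization.algEquiv P.primeCompl B (Localization.AtPrime P)).toRingEquiv
  exact IsRegularLocalRing.of_ringEquiv e

theorem char_alternative (R : Type) [CommRing R] [IsDomain R] [IsLocalRing R] (T : Type)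
    [CommRing T] [IsLocalRing T] (ι : R →+* T) (P : Ideal T)
    [P.IsPrime] (hP : ∀ r : R, ι r ∈ P → r = 0) :
    (∃ p : ℕ, Fact p.Prime ∧ CharP T p) ∨
      (∃ p : ℕ, Fact p.Prime ∧ CharP (ResidueField T) p ∧ (p : T) ∉ P) ∨
      CharZero (ResidueField T) := by
  rcases CharP.exists' (ResidueField T) with h0 | ⟨p, hp, hpk⟩
  · exact Or.inr (Or.inr h0)
  · by_cases hR : (p : R) = 0
    · left
      refine ⟨p, hp, ?_⟩
      have : (p : T) = 0 := by
        rw [← map_natCast ι, hR, map_zero]
      exact (CharP.charP_iff_prime_eq_zero hp.out).2 this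
    · right; left
      refine ⟨p, hp, hpk, fun hmem => hR (hP _ ?_)⟩
      rw [map_natCast]; exact hmem

/-- **Local uniformization at discrete rank-one valuations.** -/
theorem lu_discrete_gfr (R : Type) [CommRing R] [IsDomain R] [IsNoetherianRing R] [IsLocalRing R]
    (K : Type) [Field K] [Algebra R K] [IsFractionRing R K] (H : GFR R)
    (V : ValuationSubring K) [IsDiscreteValuationRing V]
    (hRV : ∀ r : R, algebraMap R K r ∈ V)
    (hRm : ∀ r : R, r ∈ maximalIdeal R ↔ V.valuation (algebraMap R K r) < 1) :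
    LU V (algebraMap R K).range := by
  obtain ⟨W, iW, iWd, iWv, iWc, θ, hθl, hθi⟩ := exists_complete_dvr V
  let KW := FractionRing W
  let T := AdicCompletion (maximalIdeal R) R
  have iTn : IsNoetherianRing T := noetherian_adicCompletion R
  -- R → V
  let ρ : R →+* V := (algebraMap R K).codRestrict V.toSubring hRV
  have hρl : IsLocalHom ρ := by
    refine ⟨fun r hr => ?_⟩
    by_contra hcon
    have h1 := (hRm r).1 ((mem_maximalIdeal _).2 hcon)
    have h2 := (V.valuation_eq_one_iff (ρ r)).1 hr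
    exact h1.ne h2
  have hθρl : IsLocalHom (θ.comp ρ) := inferInstance
  obtain ⟨φ, hφl, hφ⟩ := exists_lift_completion R W (θ.comp ρ) hθρl
  have hinjR : Function.Injective (algebraMap R K) := IsFractionRing.injective R K
  have hρi : Function.Injective ρ := fun a b hab => hinjR (congrArg Subtype.val hab)
  have hPφ : (RingHom.ker φ).IsPrime := RingHom.ker_isPrime φ
  have hφi : ∀ r, φ (algebraMap R T r) = 0 → r = 0 := by
    intro r hr
    have : (θ.comp ρ) r = 0 := by rw [← hφ]; exact hr
    exact hρi (hθi (by rw [map_zero, map_zero]; exact this))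
  have hPR : (RingHom.ker φ).comap (algebraMap R T) = ⊥ := by
    rw [eq_bot_iff]
    intro r hr
    exact hφi r hr
  have hreg := H (RingHom.ker φ) hPR
  have hchar := char_alternative R T (algebraMap R T) (RingHom.ker φ) hφi
  obtain ⟨Λ, S, iΛ, iΛd, iS, iSr, i, π, hπ, hΛi, hΛf, hΛc⟩ := exists_cohen_data T _ hchar
  -- kernel of S → W
  have hQ : (RingHom.ker (φ.comp π)).IsPrime := RingHom.ker_isPrime _
  let q : S ⧸ RingHom.ker (φ.comp π) →+* T ⧸ RingHom.ker φ :=
    Ideal.quotientMap (RingHom.ker φ) π (fun s hs => hs)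
  have hqi : Function.Injective q := Ideal.quotientMap_injective' (fun s hs => hs)
  have hqs : Function.Surjective q := Ideal.quotientMap_surjective hπ
  have hqc : (q.comp ((Ideal.Quotient.mk (RingHom.ker (φ.comp π))).comp i)) =
      (Ideal.Quotient.mk (RingHom.ker φ)).comp (π.comp i) := by
    ext a; rfl
  have hi1 : Function.Injective ((Ideal.Quotient.mk (RingHom.ker (φ.comp π))).comp i) := by
    intro a b hab
    apply hΛi
    rw [← hqc]
    exact congrArg q hab
  have hf1 : ((Ideal.Quotient.mk (RingHom.ker (φ.comp π))).comp i).Finite := by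
    let e := RingEquiv.ofBijective q ⟨hqi, hqs⟩
    have he : (Ideal.Quotient.mk (RingHom.ker (φ.comp π))).comp i =
        (e.symm : _ →+* _).comp ((Ideal.Quotient.mk (RingHom.ker φ)).comp (π.comp i)) := by
      rw [← hqc]
      ext a
      exact (e.symm_apply_apply _).symm
    rw [he]
    exact RingHom.Finite.comp (RingHom.Finite.of_surjective _ e.symm.surjective) hΛf
  have hbdd : BddDer S (RingHom.ker (φ.comp π)) := by
    rcases hΛc with h0 | ⟨p, hp, hpΛ, hgood⟩
    · exact bddDer_charZero Λ S _ i hi1 hf1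
    · exact bddDer_charP p Λ S hgood _ i hi1 hf1
  obtain ⟨c, 𝔟, h𝔟, h1, h2, h3, Φ, hΦ1, hΦ2, hcol⟩ :=
    init_state (W := W) (KW := KW) S T π hπ φ hφl hreg hbdd
  -- K → KW
  have hτinj : Function.Injective ((algebraMap W KW).comp θ) :=
    (IsFractionRing.injective W KW).comp hθi
  let τ : K →+* KW := IsFractionRing.lift (A := V) (K := K) hτinj
  have hτ : ∀ v : V, τ (v : K) = algebraMap W KW (θ v) := fun v =>
    IsFractionRing.lift_algebraMap hτinj v
  have hV : ∀ z : K, z ∈ V ↔ τ z ∈ (algebraMap W KW).range := by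
    intro z
    constructor
    · intro hz
      exact ⟨θ ⟨z, hz⟩, (hτ ⟨z, hz⟩).symm⟩
    · rintro ⟨w, hw⟩
      by_contra hz
      have hz0 : z ≠ 0 := by rintro rfl; exact hz (zero_mem V)
      have hz' : z⁻¹ ∈ V := (V.mem_or_inv_mem z).resolve_left hz
      have h4 : θ ⟨z⁻¹, hz'⟩ * w = 1 := by
        apply IsFractionRing.injective W KW
        rw [map_mul, ← hτ, hw, ← map_mul, map_one]
        show τ (z⁻¹ * z) = 1
        rw [inv_mul_cancel₀ hz0, map_one]
      have h5 : IsUnit (⟨z⁻¹, hz'⟩ : V) :=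
        isUnit_of_map_unit θ _ (IsUnit.of_mul_eq_one _ h4)
      obtain ⟨u, hu⟩ := h5
      apply hz
      have h6 : z = ((u⁻¹ : Vˣ) : V) := by
        have h7 : ((u : V) * ((u⁻¹ : Vˣ) : V) : V) = 1 := Units.mul_inv u
        have h8 : z⁻¹ * (((u⁻¹ : Vˣ) : V) : K) = 1 := by
          have := congrArg (Subtype.val : V → K) h7
          rw [hu] at this
          exact this
        exact (eq_of_inv_mul_eq_one h8)
      rw [h6]
      exact SetLike.coe_mem _
  obtain ⟨n, hn⟩ := ENat.ne_top_iff_exists.1 hcol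
  refine main_induction V τ hV c n R T S (algebraMap R K) hinjR (algebraMap R T)
    (sameCompletion_adicCompletion R) π hπ φ hφl (fun r => ?_) 𝔟 h1 h2 h3 Φ hΦ1 hΦ2 hn.symm
  have : φ (algebraMap R T r) = θ (ρ r) := by
    rw [← RingHom.comp_apply, hφ]; rfl
  rw [this, ← hτ]
  rfl

theorem gfr_of_tensor (R : Type) [CommRing R] [IsDomain R] [IsNoetherianRing R] [IsLocalRing R]
    (K : Type) [Field K] [Algebra R K] [IsFractionRing R K]
    (H : ∀ (Q : Ideal (K ⊗[R] AdicCompletion (maximalIdeal R) R)) [Q.IsPrime],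
      IsRegularLocalRing (Localization.AtPrime Q)) : GFR R := by
  intro Q _ hQ
  exact regular_generic_fibre R K (AdicCompletion (maximalIdeal R) R) H Q hQ

/-- **Local uniformization at discrete rank-one valuations.** -/
theorem lu_discrete (R : Type) [CommRing R] [IsDomain R] [IsNoetherianRing R] [IsLocalRing R]
    (K : Type) [Field K] [Algebra R K] [IsFractionRing R K]
    (H : ∀ (Q : Ideal (K ⊗[R] AdicCompletion (maximalIdeal R) R)) [Q.IsPrime],
      IsRegularLocalRing (Localization.AtPrime Q))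
    (V : ValuationSubring K) [IsDiscreteValuationRing V]
    (hRV : ∀ r : R, algebraMap R K r ∈ V)
    (hRm : ∀ r : R, r ∈ maximalIdeal R ↔ V.valuation (algebraMap R K r) < 1) :
    LU V (algebraMap R K).range :=
  lu_discrete_gfr R K (gfr_of_tensor R K H) V hRV hRm

end Pool.Agent.Lib.MP_3029eb_ag
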