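import Pool.Agent.Lib.MP_3029eb_ag.CompDefs
import Pool.Agent.Lib.MP_3029eb_ag.H44Final
import Pool.Agent.Lib.MP_3029eb_ag.GRA6
import Pool.Agent.Lib.MP_3029eb_ag.GRB2
import Pool.Agent.Lib.MP_3029eb_ag.GRC3
import Pool.Agent.Lib.MP_3029eb_ag.GRD6
import Pool.Agent.Lib.MP_3029eb_ag.GRE1
import Pool.Agent.Lib.MP_3029eb_ag.GRE2

/-!
Module GE3 of Theorem G: formal fibres of local domains essentially of finite type.
-/

open IsLocalRing
open scoped TensorProduct

namespace Pool.Agent.Lib.MP_3029eb_ag.GR
open Pool.Agent.Lib.MP_3029eb_ag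

theorem ess_comp {A E T : Type} [CommRing A] [CommRing E] [CommRing T] (f : A →+* E) (g : E →+* T)
    (hf : f.EssFiniteType) (hg : g.EssFiniteType) : (g.comp f).EssFiniteType := by
  let _ := f.toAlgebra
  let _ := g.toAlgebra
  let _ := (g.comp f).toAlgebra
  have h0 : IsScalarTower A E T := IsScalarTower.of_algebraMap_eq fun _ => rfl
  have h1 : Algebra.EssFiniteType A E := hf
  have h2 : Algebra.EssFiniteType E T := hg
  exact Algebra.EssFiniteType.comp A E T

/-- Data for the last step of Theorem G: a local ring essentially of finite type over a complete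
local ring, flat over `B`. -/
theorem exists_flat_ext (R B : Type) [CommRing R] [IsNoetherianRing R] [IsLocalRing R]
    [CommRing B] [IsNoetherianRing B] [IsLocalRing B] [Algebra R B] [Algebra.EssFiniteType R B] :
    ∃ (T : Type) (_ : CommRing T) (_ : IsLocalRing T) (_ : IsNoetherianRing T)
      (_ : Algebra (B ⊗[R] AdicCompletion (maximalIdeal R) R) T) (f : B →+* T)
      (g : AdicCompletion (maximalIdeal R) R →+* T),
      f = (algebraMap (B ⊗[R] AdicCompletion (maximalIdeal R) R) T).comp
        Algebra.TensorProduct.includeLeftRingHom ∧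
      g = (algebraMap (B ⊗[R] AdicCompletion (maximalIdeal R) R) T).comp
        (Algebra.TensorProduct.includeRight : _ →ₐ[R] B ⊗[R] AdicCompletion (maximalIdeal R) R) ∧
      IsLocalHom f ∧ f.Flat ∧ g.EssFiniteType ∧
      ∃ M : Submonoid (B ⊗[R] AdicCompletion (maximalIdeal R) R), IsLocalization M T := by
  have hnR : IsNoetherianRing (AdicCompletion (maximalIdeal R) R) := noetherian_adicCompletion R
  let E := B ⊗[R] AdicCompletion (maximalIdeal R) R
  have hfl : Module.Flat R (AdicCompletion (maximalIdeal R) R) := inferInstance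
  have hff : Module.FaithfullyFlat R (AdicCompletion (maximalIdeal R) R) :=
    Module.FaithfullyFlat.of_flat_of_isLocalHom
  have hffE : Module.FaithfullyFlat B E := inferInstance
  -- the right structure
  have hess : ((Algebra.TensorProduct.includeRight :
      AdicCompletion (maximalIdeal R) R →ₐ[R] E) : AdicCompletion (maximalIdeal R) R →+* E).EssFiniteType := by
    have h1 : Algebra.EssFiniteType (AdicCompletion (maximalIdeal R) R)
      (AdicCompletion (maximalIdeal R) R ⊗[R] B) := inferInstance
    let _ : Algebra (AdicCompletion (maximalIdeal R) R) E :=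
      ((Algebra.TensorProduct.includeRight :
      AdicCompletion (maximalIdeal R) R →ₐ[R] E) : AdicCompletion (maximalIdeal R) R →+* E).toAlgebra
    let e : AdicCompletion (maximalIdeal R) R ⊗[R] B →ₐ[AdicCompletion (maximalIdeal R) R] E :=
      { (Algebra.TensorProduct.comm R (AdicCompletion (maximalIdeal R) R) B :
          AdicCompletion (maximalIdeal R) R ⊗[R] B →+* E) with
        commutes' := fun r => by
          show (Algebra.TensorProduct.comm R (AdicCompletion (maximalIdeal R) R) B)
            (r ⊗ₜ[R] 1) = _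
          rw [Algebra.TensorProduct.comm_tmul]
          rfl }
    exact Algebra.EssFiniteType.of_surjective e
      (Algebra.TensorProduct.comm R (AdicCompletion (maximalIdeal R) R) B).surjective
  have hnE : IsNoetherianRing E := by
    let _ : Algebra (AdicCompletion (maximalIdeal R) R) E :=
      ((Algebra.TensorProduct.includeRight :
      AdicCompletion (maximalIdeal R) R →ₐ[R] E) : AdicCompletion (maximalIdeal R) R →+* E).toAlgebra
    have : Algebra.EssFiniteType (AdicCompletion (maximalIdeal R) R) E := hess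
    exact Algebra.EssFiniteType.isNoetherianRing (AdicCompletion (maximalIdeal R) R) E
  obtain ⟨𝔓, h𝔓⟩ := PrimeSpectrum.comap_surjective_of_faithfullyFlat (A := B) (B := E)
    (⟨maximalIdeal B, inferInstance⟩ : PrimeSpectrum B)
  have h𝔓' : 𝔓.asIdeal.comap (algebraMap B E) = maximalIdeal B :=
    congrArg PrimeSpectrum.asIdeal h𝔓
  let T := Localization.AtPrime 𝔓.asIdeal
  have hnT : IsNoetherianRing T := IsLocalization.isNoetherianRing 𝔓.asIdeal.primeCompl T hnE
  refine ⟨T, inferInstance, inferInstance, hnT, inferInstance, _, _, rfl, rfl, ?_, ?_, ?_,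
    𝔓.asIdeal.primeCompl, inferInstance⟩
  · refine ⟨fun b hb => ?_⟩
    by_contra hcon
    have h1 : b ∈ 𝔓.asIdeal.comap (algebraMap B E) := by
      rw [h𝔓']
      exact (mem_maximalIdeal _).2 hcon
    have h2 : algebraMap E T (algebraMap B E b) ∈ maximalIdeal T :=
      (IsLocalization.AtPrime.to_map_mem_maximal_iff T 𝔓.asIdeal _).2 h1
    exact (mem_maximalIdeal _).1 h2 hb
  · have h1 : Module.Flat E T := IsLocalization.flat T 𝔓.asIdeal.primeCompl
    have h2 : Module.Flat B T := Module.Flat.trans B E T
    exact RingHom.flat_algebraMap_iff.2 h2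
  · refine ess_comp (E := E) (T := T) _ (algebraMap E T) hess ?_
    exact RingHom.essFiniteType_algebraMap.2
      (Algebra.EssFiniteType.of_isLocalization T 𝔓.asIdeal.primeCompl)

theorem ess_of_comp {A E T : Type} [CommRing A] [CommRing E] [CommRing T] (f : A →+* E)
    (g : E →+* T) (h : (g.comp f).EssFiniteType) : g.EssFiniteType := by
  let _ := f.toAlgebra
  let _ := g.toAlgebra
  let _ := (g.comp f).toAlgebra
  have h0 : IsScalarTower A E T := IsScalarTower.of_algebraMap_eq fun _ => rfl
  have h1 : Algebra.EssFiniteType A T := h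
  exact Algebra.EssFiniteType.of_comp A E T

/-- the fibre over the generic point of `B` is regular -/
theorem regular_fibre_step (R A B : Type) [CommRing R] [CommRing A] [Algebra R A]
    [CommRing B] [IsDomain B] [IsLocalRing B] [IsNoetherianRing B] [Algebra R B]
    (H : IsRegularRing (FractionRing B ⊗[R] A)) (T : Type) [CommRing T]
    [Algebra (B ⊗[R] A) T] (M : Submonoid (B ⊗[R] A)) [IsLocalization M T] (𝔮 : Ideal T)
    [𝔮.IsPrime] (h𝔮 : ∀ b : B, algebraMap (B ⊗[R] A) T (b ⊗ₜ 1) ∈ 𝔮 → b = 0) :
    IsRegularLocalRing (Localization.AtPrime 𝔮) := by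
  have h1 : IsRegularRing (FractionRing B ⊗[B] (B ⊗[R] A)) :=
    IsRegularRing.of_ringEquiv
      (Algebra.TensorProduct.cancelBaseChange R B B (FractionRing B) A).symm.toRingEquiv
  have h2 : (𝔮.comap (algebraMap (B ⊗[R] A) T)).comap (algebraMap B (B ⊗[R] A)) = ⊥ := by
    rw [eq_bot_iff]
    intro b hb
    exact h𝔮 b hb
  have h3 := regular_generic_fibre B (FractionRing B) (B ⊗[R] A)
    (fun Q _ => IsRegularRing.isRegularLocalRing_localization Q)
    (𝔮.comap (algebraMap (B ⊗[R] A) T)) h2
  have h4 : IsLocalization.AtPrime (Localization.AtPrime 𝔮)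
      (𝔮.comap (algebraMap (B ⊗[R] A) T)) :=
    IsLocalization.isLocalization_isLocalization_atPrime_isLocalization M
      (Localization.AtPrime 𝔮) 𝔮
  exact IsRegularLocalRing.of_ringEquiv
    (IsLocalization.algEquiv (𝔮.comap (algebraMap (B ⊗[R] A) T)).primeCompl
      (Localization.AtPrime (𝔮.comap (algebraMap (B ⊗[R] A) T)))
      (Localization.AtPrime 𝔮)).toRingEquiv

/-- `T` is essentially of finite type over the complete local ring `A`, and `q` is a prime of `T`
with regular localization whose contraction to `A` satisfies the condition on characteristics: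
the formal fibre of `T` over `q` is regular. -/
theorem formal_fibre_over_complete (A T : Type) [CommRing A] [IsLocalRing A] [IsNoetherianRing A]
    [IsAdicComplete (maximalIdeal A) A] [CommRing T] [IsLocalRing T] [IsNoetherianRing T]
    (g : A →+* T) (hg : g.EssFiniteType) (𝔮 : Ideal T) [𝔮.IsPrime]
    (hchar : (∃ p : ℕ, Fact p.Prime ∧ CharP A p) ∨
      (∃ p : ℕ, Fact p.Prime ∧ CharP (ResidueField A) p ∧ (p : A) ∉ 𝔮.comap g) ∨
      CharZero (ResidueField A))
    (hreg : IsRegularLocalRing (Localization.AtPrime 𝔮))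
    (Q : Ideal (AdicCompletion (maximalIdeal T) T)) [Q.IsPrime]
    (hQ : Q.comap (algebraMap T (AdicCompletion (maximalIdeal T) T)) = 𝔮) :
    IsRegularLocalRing (Localization.AtPrime Q) := by
  obtain ⟨Λ, S0, iΛ, iΛd, iS, iSr, i, π0, hπ0, hΛi, hΛf, hΛc⟩ :=
    exists_cohen_data A (𝔮.comap g) hchar
  let _ : Algebra S0 T := (g.comp π0).toAlgebra
  have hess : Algebra.EssFiniteType S0 T := by
    refine ess_comp π0 g ?_ hg
    exact (RingHom.FiniteType.of_surjective π0 hπ0).essFiniteType
  obtain ⟨S, iS1, iS2, iS3, iS4, π, hπ, hπc⟩ := exists_local_presentation S0 T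
  have hcomap : (𝔮.comap π).comap (algebraMap S0 S) = (𝔮.comap g).comap π0 := by
    rw [Ideal.comap_comap, hπc, Ideal.comap_comap]
    rfl
  have hmem : ∀ x : S0, algebraMap S0 S x ∈ 𝔮.comap π ↔ π0 x ∈ 𝔮.comap g := by
    intro x
    have : x ∈ (𝔮.comap π).comap (algebraMap S0 S) ↔ x ∈ (𝔮.comap g).comap π0 := by
      rw [hcomap]
    exact this
  have hinj : Function.Injective ((Ideal.Quotient.mk (𝔮.comap π)).comp
      ((algebraMap S0 S).comp i)) := by
    intro a b hab
    apply hΛi
    simp only [RingHom.comp_apply] at hab ⊢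
    rw [Ideal.Quotient.eq, ← map_sub, ← map_sub, hmem, map_sub, map_sub, ← Ideal.Quotient.eq] at hab
    exact hab
  have hfin : ((Ideal.Quotient.mk ((𝔮.comap π).comap (algebraMap S0 S))).comp i).Finite := by
    rw [hcomap]
    let q : S0 ⧸ (𝔮.comap g).comap π0 →+* A ⧸ 𝔮.comap g :=
      Ideal.quotientMap (𝔮.comap g) π0 le_rfl
    have hqi : Function.Injective q := Ideal.quotientMap_injective' le_rfl
    have hqs : Function.Surjective q := Ideal.quotientMap_surjective hπ0
    have hqc : (q.comp ((Ideal.Quotient.mk ((𝔮.comap g).comap π0)).comp i)) =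
        (Ideal.Quotient.mk (𝔮.comap g)).comp (π0.comp i) := by
      ext a; rfl
    let e := RingEquiv.ofBijective q ⟨hqi, hqs⟩
    have he : (Ideal.Quotient.mk ((𝔮.comap g).comap π0)).comp i =
        (e.symm : _ →+* _).comp ((Ideal.Quotient.mk (𝔮.comap g)).comp (π0.comp i)) := by
      rw [← hqc]
      ext a
      exact (e.symm_apply_apply _).symm
    rw [he]
    exact RingHom.Finite.comp (RingHom.Finite.of_surjective _ e.symm.surjective) hΛf
  have hbdd : BddDer S (𝔮.comap π) := bddDer_essFinite S0 S Λ i (𝔮.comap π) hinj hfin hΛc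
  exact regular_formal_fibre S T π hπ 𝔮 hreg hbdd Q hQ

/-- **Theorem G** (EGA IV 7.4.4): if the formal fibres of `R` are geometrically regular (for finite
extensions of the residue fields of `R`), then every local domain essentially of finite type
over `R` has regular generic formal fibre. -/
theorem gfr_of_essFinite (R : Type) [CommRing R] [IsNoetherianRing R] [IsLocalRing R]
    (H : ∀ (p : Ideal R) [p.IsPrime] (L : Type) [Field L] [Algebra R L]
      [Algebra p.ResidueField L] [IsScalarTower R p.ResidueField L]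
      [FiniteDimensional p.ResidueField L],
      IsRegularRing (L ⊗[R] AdicCompletion (maximalIdeal R) R))
    (B : Type) [CommRing B] [IsDomain B] [IsNoetherianRing B] [IsLocalRing B] [Algebra R B]
    [Algebra.EssFiniteType R B] : GFR B := by
  intro Q _ hQ
  have hnR : IsNoetherianRing (AdicCompletion (maximalIdeal R) R) := noetherian_adicCompletion R
  obtain ⟨T, iT, iTl, iTn, iET, f, g, hf, hg, hfl, hff, hgess, M, hM⟩ := exists_flat_ext R B
  let _ : Algebra B T := f.toAlgebra
  have hBT : Module.Flat B T := hff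
  have hBTl : IsLocalHom (algebraMap B T) := hfl
  obtain ⟨φ, hφ, hφl, hφf⟩ := exists_flat_completion B T
  -- a prime above Q
  obtain ⟨Qs, hQs, hQsφ⟩ : ∃ (Qs : Ideal (AdicCompletion (maximalIdeal T) T)),
      Qs.IsPrime ∧ Qs.comap φ = Q := by
    let _ : Algebra (AdicCompletion (maximalIdeal B) B) (AdicCompletion (maximalIdeal T) T) :=
      φ.toAlgebra
    have h1 : Module.Flat (AdicCompletion (maximalIdeal B) B)
      (AdicCompletion (maximalIdeal T) T) := hφf
    have h2 : IsLocalHom (algebraMap (AdicCompletion (maximalIdeal B) B)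
      (AdicCompletion (maximalIdeal T) T)) := hφl
    have h3 : Module.FaithfullyFlat (AdicCompletion (maximalIdeal B) B)
      (AdicCompletion (maximalIdeal T) T) := Module.FaithfullyFlat.of_flat_of_isLocalHom
    obtain ⟨Qs, h⟩ := PrimeSpectrum.comap_surjective_of_faithfullyFlat
      (A := AdicCompletion (maximalIdeal B) B) (B := AdicCompletion (maximalIdeal T) T)
      (⟨Q, inferInstance⟩ : PrimeSpectrum _)
    exact ⟨Qs.asIdeal, Qs.isPrime, congrArg PrimeSpectrum.asIdeal h⟩
  -- its contraction to T
  let 𝔮 : Ideal T := Qs.comap (algebraMap T (AdicCompletion (maximalIdeal T) T))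
  have h𝔮 : 𝔮.IsPrime := inferInstance
  have h𝔮B : ∀ b : B, f b ∈ 𝔮 → b = 0 := by
    intro b hb
    have h1 : φ (algebraMap B (AdicCompletion (maximalIdeal B) B) b) =
        algebraMap T (AdicCompletion (maximalIdeal T) T) (f b) := RingHom.congr_fun hφ b
    have h2 : b ∈ Q.comap (algebraMap B (AdicCompletion (maximalIdeal B) B)) := by
      rw [← hQsφ]
      show φ _ ∈ Qs
      rw [h1]
      exact hb
    rw [hQ, Ideal.mem_bot] at h2
    exact h2
  have hreg : IsRegularLocalRing (Localization.AtPrime 𝔮) := by
    have h1 : Algebra.EssFiniteType B (FractionRing B) :=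
      Algebra.EssFiniteType.of_isLocalization (FractionRing B) (nonZeroDivisors B)
    have h2 : Algebra.EssFiniteType R (FractionRing B) := Algebra.EssFiniteType.comp R B _
    refine regular_fibre_step R (AdicCompletion (maximalIdeal R) R) B
      (isRegularRing_tensor_fg R (AdicCompletion (maximalIdeal R) R) H (FractionRing B)) T M 𝔮 ?_
    intro b hb
    apply h𝔮B b
    rw [hf]
    exact hb
  -- the complete local ring
  let 𝔯 : Ideal R := RingHom.ker (algebraMap R B)
  have h𝔯 : 𝔯.IsPrime := RingHom.ker_isPrime _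
  let T0 := AdicCompletion (maximalIdeal R) R ⧸
    𝔯.map (algebraMap R (AdicCompletion (maximalIdeal R) R))
  have hgf : ∀ r : R, g (algebraMap R (AdicCompletion (maximalIdeal R) R) r) =
      f (algebraMap R B r) := by
    intro r
    rw [hf, hg]
    simp only [RingHom.comp_apply]
    congr 1
    show (1 : B) ⊗ₜ[R] algebraMap R (AdicCompletion (maximalIdeal R) R) r =
      (algebraMap R B r) ⊗ₜ[R] (1 : AdicCompletion (maximalIdeal R) R)
    rw [Algebra.algebraMap_eq_smul_one, Algebra.algebraMap_eq_smul_one, TensorProduct.smul_tmul]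
  let g0 : T0 →+* T := Ideal.Quotient.lift _ g (by
    intro a ha
    have h1 : 𝔯.map (algebraMap R (AdicCompletion (maximalIdeal R) R)) ≤ RingHom.ker g := by
      rw [Ideal.map_le_iff_le_comap]
      intro r hr
      show g _ = 0
      rw [hgf, show algebraMap R B r = 0 from hr, map_zero]
    exact h1 ha)
  have hg0 : g0.comp (Ideal.Quotient.mk _) = g := by
    ext a
    rfl
  have hT0nt : Nontrivial T0 := g0.domain_nontrivial
  have hT0l : IsLocalRing T0 := IsLocalRing.of_surjective' _ Ideal.Quotient.mk_surjective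
  obtain ⟨hT0n, hT0c⟩ := isAdicComplete_quotient (AdicCompletion (maximalIdeal R) R) T0
    (Ideal.Quotient.mk _) Ideal.Quotient.mk_surjective
  let ι0 : R ⧸ 𝔯 →+* T0 := Ideal.quotientMap _
    (algebraMap R (AdicCompletion (maximalIdeal R) R)) Ideal.le_comap_map
  have hRr : IsLocalRing (R ⧸ 𝔯) := IsLocalRing.of_surjective' _ Ideal.Quotient.mk_surjective
  have hchar := char_alternative (R ⧸ 𝔯) T0 ι0 (𝔮.comap g0) (by
    intro r hr
    obtain ⟨r, rfl⟩ := Ideal.Quotient.mk_surjective r
    have h1 : g0 (ι0 (Ideal.Quotient.mk 𝔯 r)) = f (algebraMap R B r) := hgf r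
    have h2 : f (algebraMap R B r) ∈ 𝔮 := by
      rw [← h1]
      exact hr
    exact Ideal.Quotient.eq_zero_iff_mem.2 (h𝔮B _ h2))
  have hfinal := formal_fibre_over_complete T0 T g0
    (ess_of_comp (Ideal.Quotient.mk _) g0 (by rw [hg0]; exact hgess)) 𝔮 hchar hreg Qs rfl
  -- descent
  let ψ := Localization.localRingHom Q Qs φ hQsφ.symm
  have hψf : ψ.Flat := hφf.localRingHom Qs Q hQsφ.symm
  have hψl : IsLocalHom ψ := Localization.isLocalHom_localRingHom _ _ _ _
  let _ : Algebra (Localization.AtPrime Q) (Localization.AtPrime Qs) := ψ.toAlgebra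
  have h1 : Module.Flat (Localization.AtPrime Q) (Localization.AtPrime Qs) := hψf
  have h2 : IsLocalHom (algebraMap (Localization.AtPrime Q) (Localization.AtPrime Qs)) := hψl
  have hnB : IsNoetherianRing (AdicCompletion (maximalIdeal B) B) := noetherian_adicCompletion B
  have h3 : IsNoetherianRing (Localization.AtPrime Q) :=
    IsLocalization.isNoetherianRing Q.primeCompl _ hnB
  exact regularLocal_of_flat (Localization.AtPrime Q) (Localization.AtPrime Qs)

/-- the hypothesis with regular local rings in the sense of Mathlib -/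
theorem isRegularRing_of_regular (R : Type) [CommRing R] [IsNoetherianRing R] [IsLocalRing R]
    (H : ∀ (p : Ideal R) [p.IsPrime] (L : Type) [Field L] [Algebra R L]
      [Algebra p.ResidueField L] [IsScalarTower R p.ResidueField L]
      [FiniteDimensional p.ResidueField L]
      (Q : Ideal (L ⊗[R] AdicCompletion (maximalIdeal R) R)) [Q.IsPrime],
      IsRegularLocalRing (Localization.AtPrime Q))
    (p : Ideal R) [p.IsPrime] (L : Type) [Field L] [Algebra R L]
    [Algebra p.ResidueField L] [IsScalarTower R p.ResidueField L]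
    [FiniteDimensional p.ResidueField L] :
    IsRegularRing (L ⊗[R] AdicCompletion (maximalIdeal R) R) := by
  refine isRegularRing_of_frozen R ?_ p L
  intro p _ L _ _ _ _ _ Q _
  have h := H p L Q
  have h1 : IsNoetherianRing (Localization.AtPrime Q) := h.toIsNoetherian
  exact ⟨h1, ((IsRegularLocalRing.iff_finrank_cotangentSpace _).1 h).symm⟩

end Pool.Agent.Lib.MP_3029eb_ag.GR
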