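import Mathlib

/-!
An archimedean valuation ring is the unit ball of an absolute value (Hoelder).
-/

namespace Pool.Agent.Lib.MP_3029eb_ag.Abh

open scoped NNReal

theorem C1_arch {K : Type} [Field K] (V : ValuationSubring K)
    (harch : ∀ a b : K, a ≠ 0 → V.valuation b < 1 →
      ∃ n : ℕ, V.valuation (b ^ n) ≤ V.valuation a) :
    MulArchimedean V.ValueGroup := by
  refine ⟨fun x {y} hy => ?_⟩
  obtain ⟨a, rfl⟩ := V.valuation_surjective x
  obtain ⟨c, rfl⟩ := V.valuation_surjective y
  by_cases ha : a = 0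
  · exact ⟨0, by simp [ha]⟩
  have hc : c ≠ 0 := by
    rintro rfl
    rw [map_zero] at hy
    exact absurd hy (not_lt.2 zero_le_one)
  have hb : V.valuation c⁻¹ < 1 := by
    rw [map_inv₀]
    exact inv_lt_one_of_one_lt₀ hy
  obtain ⟨n, hn⟩ := harch a⁻¹ c⁻¹ (inv_ne_zero ha) hb
  refine ⟨n, ?_⟩
  rw [map_pow, map_inv₀, map_inv₀, inv_pow] at hn
  have h1 : 0 < V.valuation a := by
    rw [zero_lt_iff]
    exact (Valuation.ne_zero_iff _).2 ha
  have h2 : 0 < V.valuation c ^ n := pow_pos (zero_lt_one.trans hy) n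
  exact (inv_le_inv₀ h2 h1).1 hn

theorem C1_hom (Γ : Type) [LinearOrderedCommGroupWithZero Γ] [MulArchimedean Γ] :
    ∃ f : Γ →*₀ ℝ≥0, StrictMono f := by
  obtain ⟨f, hf⟩ :=
    Archimedean.exists_orderAddMonoidHom_real_injective (Additive Γˣ)
  let e := AddMonoidHom.toMultiplicativeRight (α := Γˣ) (β := ℝ) f
  have he : StrictMono e := by
    simp only [AddMonoidHom.coe_toMultiplicativeRight, AddMonoidHom.coe_coe, e]
    exact StrictMono.comp strictMono_id (f.monotone'.strictMono_of_injective hf)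
  let rf : Multiplicative ℝ →* ℝ≥0ˣ := {
    toFun x := Units.mk0 (.mk ((2 : ℝ) ^ (Multiplicative.toAdd x)) (by positivity)) <| by
      simp only [ne_eq, NNReal.eq_iff, NNReal.coe_mk, NNReal.coe_zero]
      positivity
    map_one' := by ext; simp
    map_mul' _ _ := by ext; simp [Real.rpow_add]
    }
  have H : StrictMono (WithZero.map' (rf.comp e)) := by
    refine WithZero.map'_strictMono ?_
    intro a b h
    simpa [← Units.val_lt_val, ← NNReal.coe_lt_coe, rf] using he h
  exact ⟨WithZero.withZeroUnitsEquiv.toMonoidWithZeroHom.comp <|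
      (WithZero.map' (rf.comp e)).comp WithZero.withZeroUnitsEquiv.symm.toMonoidWithZeroHom,
    WithZero.withZeroUnitsEquiv_strictMono.comp <| H.comp
      WithZero.withZeroUnitsEquiv_symm_strictMono⟩

theorem exists_absval {K : Type} [Field K] (V : ValuationSubring K) (hV : V ≠ ⊤)
    (harch : ∀ a b : K, a ≠ 0 → V.valuation b < 1 →
      ∃ n : ℕ, V.valuation (b ^ n) ≤ V.valuation a) :
    ∃ v : AbsoluteValue K ℝ, (∀ a b, v (a + b) ≤ max (v a) (v b)) ∧ (∃ x, x ≠ 0 ∧ v x < 1) ∧
      ∀ z, z ∈ V ↔ v z ≤ 1 := by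
  haveI := C1_arch V harch
  obtain ⟨f, hf⟩ := C1_hom V.ValueGroup
  have hmax : ∀ a b : K, ((f (V.valuation (a + b)) : ℝ≥0) : ℝ) ≤
      max ((f (V.valuation a) : ℝ≥0) : ℝ) ((f (V.valuation b) : ℝ≥0) : ℝ) := by
    intro a b
    rcases le_max_iff.1 (V.valuation.map_add a b) with h | h
    · exact le_max_of_le_left (NNReal.coe_le_coe.2 (hf.monotone h))
    · exact le_max_of_le_right (NNReal.coe_le_coe.2 (hf.monotone h))
  let v : AbsoluteValue K ℝ :=
    { toFun := fun x => ((f (V.valuation x) : ℝ≥0) : ℝ)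
      map_mul' := fun a b => by simp
      nonneg' := fun a => NNReal.coe_nonneg _
      eq_zero' := fun a => by simp
      add_le' := fun a b => by
        refine (hmax a b).trans (max_le ?_ ?_)
        · exact le_add_of_nonneg_right (NNReal.coe_nonneg _)
        · exact le_add_of_nonneg_left (NNReal.coe_nonneg _) }
  have hv : ∀ x, v x = ((f (V.valuation x) : ℝ≥0) : ℝ) := fun x => rfl
  have hone : ∀ x : K, v x ≤ 1 ↔ V.valuation x ≤ 1 := by
    intro x
    rw [hv]
    constructor
    · intro h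
      have h1 : f (V.valuation x) ≤ f 1 := by
        rw [map_one]
        exact_mod_cast h
      exact hf.le_iff_le.1 h1
    · intro h
      have h1 : f (V.valuation x) ≤ f 1 := hf.monotone h
      rw [map_one] at h1
      exact_mod_cast h1
  refine ⟨v, hmax, ?_, ?_⟩
  · have hex : ∃ z : K, z ∉ V := by
      by_contra h
      push Not at h
      exact hV (SetLike.ext fun z => ⟨fun _ => ValuationSubring.mem_top z, fun _ => h z⟩)
    obtain ⟨z, hz⟩ := hex
    have hz0 : z ≠ 0 := by
      rintro rfl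
      exact hz V.zero_mem
    have hz1 : ¬ v z ≤ 1 := by
      rw [hone, V.valuation_le_one_iff]
      exact hz
    refine ⟨z⁻¹, inv_ne_zero hz0, ?_⟩
    rw [map_inv₀]
    exact inv_lt_one_of_one_lt₀ (not_le.1 hz1)
  · intro z
    rw [hone, V.valuation_le_one_iff]

end Pool.Agent.Lib.MP_3029eb_ag.Abh
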