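import Pool.Agent.Lib.MP_3029eb_ag.AbhE11
import Pool.Agent.Lib.MP_3029eb_ag.AbhResult

/-!
Module E12: embedded local uniformization in terms of subalgebras.
-/

open IsLocalRing

namespace Pool.Agent.Lib.MP_3029eb_ag.Abh
open Pool.Agent.Lib.MP_3029eb_ag

section

variable {K : Type} [Field K]

open Classical in
theorem emb_to_subalgebra (V : ValuationSubring K) {R : Type} [CommRing R] [IsNoetherianRing R]
    [Algebra R K] (hRV : ∀ r : R, algebraMap R K r ∈ V)
    (hfrac : ∀ z : K, ∃ a ∈ (algebraMap R K).range, ∃ b ∈ (algebraMap R K).range,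
      b ≠ 0 ∧ z * b = a) {r : ℕ} (h : EMB V (algebraMap R K).range r)
    (F : Finset K) (hF : ∀ f ∈ F, f ≠ 0) :
    ∃ A : Subalgebra R K, A.FG ∧ (∀ a : A, (a : K) ∈ V) ∧
      ∃ P : Ideal A, ∃ (_ : P.IsPrime),
        (∀ a : A, a ∈ P ↔ V.valuation (a : K) < 1) ∧
        IsRegularLocalRing (Localization.AtPrime P) ∧
        ringKrullDim (Localization.AtPrime P) = r ∧
        ∃ u : Fin r → A,
          maximalIdeal (Localization.AtPrime P) =
            Ideal.span (Set.range fun i => algebraMap A (Localization.AtPrime P) (u i)) ∧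
          (∀ m : Fin r → ℤ, V.valuation (∏ i, (u i : K) ^ m i) = 1 → m = 0) ∧
          (∀ f ∈ F, ∃ m : Fin r → ℤ, (∃ a b : A, a ∉ P ∧ b ∉ P ∧
            f * b = a * ∏ i, (u i : K) ^ m i) ∧ (f ∈ V → ∀ i, 0 ≤ m i)) ∧
          ∀ z : A, ∃ d e : R, algebraMap R K d * z = algebraMap R K e ∧ ∃ m : Fin r → ℤ,
            (∀ i, 0 ≤ m i) ∧ ∃ a b : A, a ∉ P ∧ b ∉ P ∧
              algebraMap R K d * b = a * ∏ i, (u i : K) ^ m i := by
  have hRle : (algebraMap R K).range ≤ V.toSubring := by
    rintro _ ⟨r, rfl⟩; exact hRV r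
  obtain ⟨g, u0, hgV, hG0, hM0⟩ := h (F.image fun f => if f ∈ V then f else f⁻¹) (by
    intro t ht
    obtain ⟨f, hf, rfl⟩ := Finset.mem_image.1 ht
    have hf0 := hF f hf
    refine ⟨?_, ?_, hfrac _⟩
    · split_ifs
      · exact hf0
      · exact inv_ne_zero hf0
    · split_ifs with hfV
      · exact hfV
      · exact (V.mem_or_inv_mem f).resolve_left hfV)
  let A : Subalgebra R K := Algebra.adjoin R (g : Set K)
  have hA : A.toSubring = Subring.closure (((algebraMap R K).range : Set K) ∪ (g : Set K)) := by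
    rw [Algebra.adjoin_eq_ring_closure]
    rfl
  have hclV : Subring.closure (((algebraMap R K).range : Set K) ∪ (g : Set K)) ≤ V.toSubring :=
    closure_le_val V _ hRle _ fun t ht => hgV t ht
  have hAV : ∀ a : A, (a : K) ∈ V := by
    intro a
    have h1 : (a : K) ∈ A.toSubring := a.2
    rw [hA] at h1
    exact hclV h1
  let P : Ideal A :=
    { carrier := {a | V.valuation (a : K) < 1}
      add_mem' := fun {a b} ha hb => by
        show V.valuation ((a : K) + (b : K)) < 1
        exact Valuation.map_add_lt _ ha hb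
      zero_mem' := by
        show V.valuation (0 : K) < 1
        rw [map_zero]; exact zero_lt_one
      smul_mem' := fun a b hb => by
        show V.valuation ((a : K) * (b : K)) < 1
        rw [map_mul]
        exact (mul_le_of_le_one_left' ((V.valuation_le_one_iff _).2 (hAV a))).trans_lt hb }
  have hP : ∀ a : A, a ∈ P ↔ V.valuation (a : K) < 1 := fun a => Iff.rfl
  have hval : ∀ a : A, a ∉ P ↔ V.valuation (a : K) = 1 := by
    intro a
    rw [hP, not_lt]
    exact ⟨fun h => le_antisymm ((V.valuation_le_one_iff _).2 (hAV a)) h, fun h => h.ge⟩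
  have hPp : P.IsPrime := by
    refine ⟨?_, ?_⟩
    · rw [Ne, Ideal.eq_top_iff_one, hP]
      simp
    · intro a b hab
      by_contra hcon
      push Not at hcon
      have h1 := (hval a).1 hcon.1
      have h2 := (hval b).1 hcon.2
      rw [hP] at hab
      have : V.valuation ((a * b : A) : K) = 1 := by
        rw [MulMemClass.coe_mul, map_mul, h1, h2, one_mul]
      rw [this] at hab
      exact lt_irrefl _ hab
  set B : Subring K := locV V (Subring.closure (((algebraMap R K).range : Set K) ∪ (g : Set K)))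
    with hB
  have hlocB : locV V B = B := locV_locV _ _
  have hAB : ∀ a : A, (a : K) ∈ B := by
    intro a
    refine ⟨a, ?_, 1, one_mem _, map_one _, mul_one _⟩
    rw [← hA]; exact a.2
  let f : A →+* B := (A.subtype : A →+* K).codRestrict B hAB
  let : Algebra A B := f.toAlgebra
  have hf : ∀ a : A, ((algebraMap A B a : B) : K) = (a : K) := fun a => rfl
  have hloc : IsLocalization.AtPrime B P := by
    refine ⟨?_, ?_, ?_⟩
    · intro y
      have hy : V.valuation ((y : A) : K) = 1 := (hval y).1 y.2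
      have hy0 : ((y : A) : K) ≠ 0 := by
        intro h0; rw [h0, map_zero] at hy; exact zero_ne_one hy
      refine IsUnit.of_mul_eq_one ⟨((y : A) : K)⁻¹, 1, one_mem _, ((y : A) : K), ?_, hy, ?_⟩ ?_
      · rw [← hA]; exact (y : A).2
      · exact inv_mul_cancel₀ hy0
      · apply Subtype.ext
        show ((y : A) : K) * ((y : A) : K)⁻¹ = 1
        exact mul_inv_cancel₀ hy0
    · rintro ⟨z, a, ha, b, hb, hb1, hz⟩
      rw [← hA] at ha hb
      refine ⟨(⟨a, ha⟩, ⟨⟨b, hb⟩, (hval _).2 hb1⟩), ?_⟩
      apply Subtype.ext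
      exact hz
    · intro a b hab
      refine ⟨1, ?_⟩
      have : (a : K) = (b : K) := by
        have := congrArg (Subtype.val : B → K) hab
        exact this
      rw [Subtype.ext this]
  -- clear the denominators of the parameters
  have hue : ∀ i, ∃ b : K, b ∈ B ∧ V.valuation b = 1 ∧ ∃ a : A, (a : K) = u0 i * b := by
    intro i
    obtain ⟨a, ha, b, hb, hb1, hab⟩ := hG0.mem i
    rw [← hA] at ha hb
    exact ⟨b, hAB ⟨b, hb⟩, hb1, ⟨a, ha⟩, hab.symm⟩
  choose b hbB hb1 u hub using hue
  obtain ⟨hG, hM⟩ := E6_scale hlocB hG0 b fun i => ⟨hbB i, hb1 i⟩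
  have hufun : (fun i => u0 i * b i) = fun i => (u i : K) := funext fun i => (hub i).symm
  rw [hufun] at hG hM
  -- the ring `B`
  have n1 : IsNoetherianRing (algebraMap R K).range :=
    isNoetherianRing_of_surjective _ _ _ (algebraMap R K).rangeRestrict_surjective
  have n2 : IsNoetherianRing (Subring.closure (((algebraMap R K).range : Set K) ∪ (g : Set K))) :=
    isNoetherianRing_closure g
  have n3 : IsNoetherianRing B := isNoetherianRing_locV _
  have n4 : IsLocalRing B := isLocalRing_locV _ hclV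
  have hBV : B ≤ V.toSubring := locV_le _ hclV
  have hunit : ∀ z : B, IsUnit z ↔ V.valuation (z : K) = 1 := fun z =>
    isUnit_locV_iff V hclV z
  let v : Fin r → B := fun i => ⟨u i, hAB (u i)⟩
  have hmaxB : maximalIdeal B = Ideal.span (Set.range v) := by
    apply le_antisymm
    · intro z hz
      have hz1 : V.valuation (z : K) < 1 := by
        rw [mem_maximalIdeal, mem_nonunits_iff, hunit] at hz
        exact lt_of_le_of_ne ((V.valuation_le_one_iff _).2 (hBV z.2)) hz
      obtain ⟨c, hc, hs⟩ := hG.gen z z.2 hz1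
      rw [Ideal.mem_span_range_iff_exists_fun]
      refine ⟨fun i => ⟨c i, hc i⟩, ?_⟩
      apply Subtype.ext
      rw [AddSubmonoidClass.coe_finsetSum, hs]
      rfl
    · rw [Ideal.span_le]
      rintro _ ⟨i, rfl⟩
      rw [SetLike.mem_coe, mem_maximalIdeal, mem_nonunits_iff, hunit]
      exact (hG.lt i).ne
  have hdim1 : (r : WithBot ℕ∞) ≤ ringKrullDim B := by
    refine ineq V B hBV hlocB (fun i => (u i : K)) hG.ind fun i => ?_
    exact ⟨(u i : K), hAB (u i), 1, one_mem _, one_ne_zero, mul_one _⟩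
  have hfr : (maximalIdeal B).spanFinrank ≤ r := by
    rw [hmaxB]
    have h1 : (Ideal.span (Set.range v) : Ideal B).spanFinrank ≤ (Set.range v).ncard :=
      Submodule.spanFinrank_span_le_ncard_of_finite (Set.finite_range v)
    have h2 : (Set.range v).ncard ≤ r := by
      have := Set.ncard_image_le (f := v) (s := Set.univ) Set.finite_univ
      rwa [Set.image_univ, Set.ncard_univ, Nat.card_eq_fintype_card, Fintype.card_fin] at this
    exact h1.trans h2
  have hfr' : ((maximalIdeal B).spanFinrank : WithBot ℕ∞) ≤ r := by exact_mod_cast hfr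
  have hregB : IsRegularLocalRing B :=
    IsRegularLocalRing.of_spanFinrank_maximalIdeal_le B (hfr'.trans hdim1)
  have hdimB : ringKrullDim B = r :=
    le_antisymm ((ringKrullDim_le_spanFinrank_maximalIdeal B).trans hfr') hdim1
  let e : B ≃ₐ[A] Localization.AtPrime P :=
    IsLocalization.algEquiv P.primeCompl B (Localization.AtPrime P)
  have hmon : ∀ t : K, MonV V B (fun i => (u i : K)) t → ∃ m : Fin r → ℤ, (∀ i, 0 ≤ m i) ∧
      ∃ a b : A, a ∉ P ∧ b ∉ P ∧ t * b = a * ∏ i, (u i : K) ^ m i := by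
    rintro t ⟨w, ⟨a, ha, b, hb, hb1, hab⟩, hw1, β, rfl⟩
    rw [← hA] at ha hb
    refine ⟨fun i => (β i : ℤ), fun i => Int.natCast_nonneg _, ⟨a, ha⟩, ⟨b, hb⟩, ?_, ?_, ?_⟩
    · rw [hval]
      show V.valuation a = 1
      rw [← hab, map_mul, hw1, hb1, one_mul]
    · rw [hval]; exact hb1
    · show w * monN (fun i => (u i : K)) β * b = a * ∏ i, (u i : K) ^ (β i : ℤ)
      rw [← hab]
      unfold monN
      simp only [zpow_natCast]
      ring
  refine ⟨A, ⟨g, rfl⟩, hAV, P, hPp, hP, IsRegularLocalRing.of_ringEquiv e.toRingEquiv, ?_, u, ?_,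
    ?_, ?_, ?_⟩
  · rw [← hdimB]
    exact (ringKrullDim_eq_of_ringEquiv e.toRingEquiv).symm
  · rw [← map_ringEquiv_maximalIdeal e.toRingEquiv, hmaxB, Ideal.map_span]
    congr 1
    ext z
    constructor
    · rintro ⟨_, ⟨i, rfl⟩, rfl⟩
      exact ⟨i, (e.commutes (u i)).symm⟩
    · rintro ⟨i, rfl⟩
      exact ⟨v i, ⟨i, rfl⟩, e.commutes (u i)⟩
  · intro m hm
    exact hG.ind.indep m hm
  · intro t ht
    have h1 := hM _ (hM0 _ (Finset.mem_image_of_mem _ ht))
    by_cases htV : t ∈ V
    · rw [if_pos htV] at h1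
      obtain ⟨m, hm0, hm⟩ := hmon t h1
      exact ⟨m, hm, fun _ => hm0⟩
    · rw [if_neg htV] at h1
      obtain ⟨m, hm0, a, b, ha, hb, hab⟩ := hmon _ h1
      refine ⟨fun i => -m i, ⟨b, a, hb, ha, ?_⟩, fun h => absurd h htV⟩
      have ht0 := hF t ht
      have hu0 : ∀ i, (u i : K) ≠ 0 := hG.ind.ne
      have hprod : ∏ i, (u i : K) ^ (-m i) = (∏ i, (u i : K) ^ m i)⁻¹ := by
        simp only [zpow_neg, Finset.prod_inv_distrib]
      have hp0 : ∏ i, (u i : K) ^ m i ≠ 0 :=
        Finset.prod_ne_zero_iff.2 fun i _ => zpow_ne_zero _ (hu0 i)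
      rw [hprod, ← div_eq_mul_inv, eq_div_iff hp0, mul_assoc, ← hab]
      field_simp
  · intro z
    obtain ⟨D, ⟨d, rfl⟩, hDm, ⟨e', he'⟩⟩ := hG.den z (hAB z)
    exact ⟨d, e', he'.symm, hmon _ hDm⟩

end

open Classical in
/-- Embedded local uniformization at Abhyankar valuations, in terms of a ring `R` with a
homomorphism to the field. -/
theorem emb_abhyankar (R : Type) [CommRing R] [IsDomain R] [IsNoetherianRing R] [IsLocalRing R]
    (K : Type) [Field K] [Algebra R K] [IsFractionRing R K]
    (H : ∀ (B : Type) [CommRing B] [IsDomain B] [IsNoetherianRing B] [IsLocalRing B] [Algebra R B]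
      [Algebra.EssFiniteType R B], AnUnr B)
    (V : ValuationSubring K) (hRV : ∀ a : R, algebraMap R K a ∈ V)
    (hRm : ∀ a : R, a ∈ maximalIdeal R ↔ V.valuation (algebraMap R K a) < 1)
    (r s : ℕ) (x : Fin r → K) (y : Fin s → K) (hx0 : ∀ i, x i ≠ 0)
    (hx : ∀ m : Fin r → ℤ, V.valuation (∏ i, x i ^ m i) = 1 → m = 0)
    (hyV : ∀ j, y j ∈ V)
    (hy : ∀ p : MvPolynomial (Fin s) R, V.valuation (MvPolynomial.aeval y p) < 1 →
      ∀ m, MvPolynomial.coeff m p ∈ maximalIdeal R)
    (hdim : ringKrullDim R ≤ r + s) : EMB V (algebraMap R K).range r := by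
  have hRb : ∀ (B : Type) [CommRing B] [IsDomain B] [IsLocalRing B] [IsNoetherianRing B]
      (f : R →+* B), EFT f → AnUnr B := by
    intro B _ _ _ _ f hf
    let := f.toAlgebra
    have : Algebra.EssFiniteType R B := hf
    exact H B
  have hinj : Function.Injective (algebraMap R K) := IsFractionRing.injective R K
  have hsurj : Function.Surjective (algebraMap R K).rangeRestrict :=
    (algebraMap R K).rangeRestrict_surjective
  have hle : (algebraMap R K).range ≤ V.toSubring := by
    rintro _ ⟨r, rfl⟩; exact hRV r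
  have hloc : locV V (algebraMap R K).range = (algebraMap R K).range := by
    apply le_antisymm
    · rintro z ⟨a, ⟨a', rfl⟩, b, ⟨b', rfl⟩, hb1, hz⟩
      have hu : IsUnit b' := by
        by_contra hcon
        have := (hRm b').1 ((mem_maximalIdeal _).2 hcon)
        exact this.ne hb1
      obtain ⟨u, rfl⟩ := hu
      refine ⟨a' * ((u⁻¹ : Rˣ) : R), ?_⟩
      rw [map_mul, ← hz, mul_assoc, ← map_mul, Units.mul_inv, map_one, mul_one]
    · exact le_locV V _
  have hid : EFT (RingHom.id R) := by
    have : Algebra.EssFiniteType R R := inferInstance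
    exact this
  have hf : EFT ((algebraMap R K).rangeRestrict.comp (RingHom.id R)) :=
    EFT_comp_surjective (RingHom.id R) (algebraMap R K).rangeRestrict hid hsurj
  have nA : IsNoetherianRing (algebraMap R K).range :=
    isNoetherianRing_of_surjective _ _ _ hsurj
  have hfrac : ∀ z : K, ∃ a ∈ (algebraMap R K).range, ∃ b ∈ (algebraMap R K).range,
      b ≠ 0 ∧ z * b = a := by
    intro z
    obtain ⟨⟨a, b⟩, hab⟩ := IsLocalization.surj (nonZeroDivisors R) z
    refine ⟨_, ⟨a, rfl⟩, _, ⟨b, rfl⟩, ?_, hab⟩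
    intro h0
    exact nonZeroDivisors.ne_zero b.2 (hinj (by rw [h0, map_zero]))
  have hres : ResIndep V (algebraMap R K).range y := by
    intro p hp m
    obtain ⟨p', rfl⟩ := MvPolynomial.map_surjective _ hsurj p
    have h1 : MvPolynomial.eval₂ (algebraMap R K).range.subtype y
        (MvPolynomial.map (algebraMap R K).rangeRestrict p') = MvPolynomial.aeval y p' := by
      rw [MvPolynomial.eval₂_map, MvPolynomial.aeval_def]
      rfl
    rw [h1] at hp
    rw [MvPolynomial.coeff_map]
    exact (hRm _).1 (hy p' hp m)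
  have hdimA : ringKrullDim (algebraMap R K).range = ringKrullDim R :=
    (ringKrullDim_eq_of_ringEquiv (RingEquiv.ofBijective (algebraMap R K).rangeRestrict
      ⟨fun a b h => hinj (congrArg Subtype.val h), hsurj⟩)).symm
  have hdrop := krullDim_resIndep V (algebraMap R K).range hle hloc y
    (fun i => ⟨hyV i, hfrac _⟩) hres
  have hset : (Set.range y) = ((Finset.univ.image y : Finset K) : Set K) := by
    rw [Finset.coe_image, Finset.coe_univ, Set.image_univ]
  rw [hset] at hdrop
  have hg : ∀ t ∈ Finset.univ.image y, t ∈ V ∧ ∃ a ∈ (algebraMap R K).range,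
      ∃ b ∈ (algebraMap R K).range, b ≠ 0 ∧ t * b = a := by
    intro t ht
    obtain ⟨i, -, rfl⟩ := Finset.mem_image.1 ht
    exact ⟨hyV i, hfrac _⟩
  refine EMB_trans V _ (Finset.univ.image y) hg ?_ hle
  have hcl : Subring.closure (((algebraMap R K).range : Set K) ∪
      ((Finset.univ.image y : Finset K) : Set K)) ≤ V.toSubring :=
    closure_le_val V _ hle _ fun t ht => (hg t ht).1
  have hAA' : (algebraMap R K).range ≤ locV V (Subring.closure (((algebraMap R K).range : Set K) ∪
      ((Finset.univ.image y : Finset K) : Set K))) :=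
    fun a ha => le_locV _ _ (Subring.subset_closure (Or.inl ha))
  have n1 : IsNoetherianRing (Subring.closure (((algebraMap R K).range : Set K) ∪
      ((Finset.univ.image y : Finset K) : Set K))) := isNoetherianRing_closure _
  have n2 : IsNoetherianRing (locV V (Subring.closure (((algebraMap R K).range : Set K) ∪
      ((Finset.univ.image y : Finset K) : Set K)))) := isNoetherianRing_locV _
  refine embAt R hRb r K V _ (locV_le _ hcl) (locV_locV _ _) _
    (EFT_locV V _ _ hf _ (Subring.inclusion hAA') (fun a => rfl)) x ⟨hx0, hx⟩ (fun i => ?_) ?_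
  · obtain ⟨a, ha, b, hb, hb0, h⟩ := hfrac (x i)
    exact ⟨a, hAA' ha, b, hAA' hb, hb0, h⟩
  · obtain ⟨n, hn⟩ := exists_nat_dim V (locV V (Subring.closure
      (((algebraMap R K).range : Set K) ∪ ((Finset.univ.image y : Finset K) : Set K))))
      (locV_le _ hcl) (locV_locV _ _)
    rw [hn, hdimA] at hdrop
    have h1 := hdrop.trans hdim
    rw [hn]
    have h2 : n + s ≤ r + s := by exact_mod_cast h1
    have h3 : n ≤ r := by omega
    exact_mod_cast h3

end Pool.Agent.Lib.MP_3029eb_ag.Abh
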