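import Pool.Agent.Lib.MP_3029eb_ag.ImpDefs
import Pool.Agent.Lib.MP_3029eb_ag.AbhE12

/-!
Embedded local uniformization with additional parameters in terms of subalgebras.
-/

open IsLocalRing

namespace Pool.Agent.Lib.MP_3029eb_ag.Imp
open Pool.Agent.Lib.MP_3029eb_ag
open Pool.Agent.Lib.MP_3029eb_ag.Abh

section

variable {K : Type} [Field K]

/-- changing the parameters by units -/
theorem scale2 {V : ValuationSubring K} {A0 A : Subring K} (hloc : locV V A = A) {r : ℕ}
    {u : Fin r → K} {gs : Finset K} (hG : GoodPar2 V A0 A u gs) (b : Fin r → K)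
    (hb : ∀ i, b i ∈ A ∧ V.valuation (b i) = 1) :
    GoodPar2 V A0 A (fun i => u i * b i) gs ∧
      ∀ f, MonV V A u f → MonV V A (fun i => u i * b i) f := by
  have hb0 : ∀ i, b i ≠ 0 := by
    intro i h0
    have := (hb i).2
    rw [h0, map_zero] at this
    exact zero_ne_one this
  have hbi : ∀ i, (b i)⁻¹ ∈ A := fun i => E5_inv hloc (hb i).1 (hb i).2
  have hbi1 : ∀ i, V.valuation (b i)⁻¹ = 1 := fun i => by rw [map_inv₀, (hb i).2, inv_one]
  have hmono : ∀ f, MonV V A u f → MonV V A (fun i => u i * b i) f := by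
    intro f hf
    refine hf.mono le_rfl fun i => ?_
    have h1 : u i = (b i)⁻¹ * (u i * b i) := by
      rw [mul_comm (u i), ← mul_assoc, inv_mul_cancel₀ (hb0 i), one_mul]
    rw [h1]
    exact (MonV.of_unit (hbi i) (hbi1 i)).mul (MonV.var (u := fun i => u i * b i) i)
  refine ⟨⟨⟨fun i => mul_ne_zero (hG.ind.ne i) (hb0 i), fun δ hδ => ?_⟩,
    fun i => mul_mem (hG.mem i) (hb i).1, fun i => ?_, hG.gmem, hG.glt, fun z hz hz1 => ?_,
    hG.reg, hG.dim, fun z hz => ?_⟩, hmono⟩
  · refine hG.ind.indep δ ?_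
    rw [← hδ]
    unfold mon
    rw [map_prod, map_prod]
    exact Finset.prod_congr rfl fun i _ => by
      rw [map_zpow₀, map_zpow₀, map_mul, (hb i).2, mul_one]
  · rw [map_mul, (hb i).2, mul_one]; exact hG.lt i
  · obtain ⟨c, d, hc, hd, hs⟩ := hG.gen z hz hz1
    refine ⟨fun i => c i * (b i)⁻¹, d, fun i => mul_mem (hc i) (hbi i), hd, ?_⟩
    rw [hs]
    congr 1
    refine Finset.sum_congr rfl fun i _ => ?_
    have := hb0 i
    field_simp
  · obtain ⟨D, hD, hDm, hDz⟩ := hG.den z hz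
    exact ⟨D, hD, hmono D hDm, hDz⟩

open Classical in
theorem emb2_to_subalgebra (V : ValuationSubring K) {R : Type} [CommRing R] [IsNoetherianRing R]
    [Algebra R K] (hRV : ∀ r : R, algebraMap R K r ∈ V)
    (hfrac : ∀ z : K, ∃ a ∈ (algebraMap R K).range, ∃ b ∈ (algebraMap R K).range,
      b ≠ 0 ∧ z * b = a) {r h : ℕ} (hE : EMB2 V (algebraMap R K).range r h)
    (F : Finset K) (hF : ∀ f ∈ F, f ≠ 0) :
    ∃ A : Subalgebra R K, A.FG ∧ (∀ a : A, (a : K) ∈ V) ∧
      ∃ P : Ideal A, ∃ (_ : P.IsPrime),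
        (∀ a : A, a ∈ P ↔ V.valuation (a : K) < 1) ∧
        IsRegularLocalRing (Localization.AtPrime P) ∧
        ringKrullDim (Localization.AtPrime P) = (((r + h : ℕ) : ℕ∞) : WithBot ℕ∞) ∧
        ∃ (u : Fin r → A) (w : Fin h → A),
          maximalIdeal (Localization.AtPrime P) =
            Ideal.span ((Set.range fun i => algebraMap A (Localization.AtPrime P) (u i)) ∪
              Set.range fun j => algebraMap A (Localization.AtPrime P) (w j)) ∧
          (∀ m : Fin r → ℤ, V.valuation (∏ i, (u i : K) ^ m i) = 1 → m = 0) ∧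
          (∀ f ∈ F, ∃ m : Fin r → ℤ, (∃ a b : A, a ∉ P ∧ b ∉ P ∧
            f * b = a * ∏ i, (u i : K) ^ m i) ∧ (f ∈ V → ∀ i, 0 ≤ m i)) ∧
          ∀ z : A, ∃ d e : R, algebraMap R K d * z = algebraMap R K e ∧ ∃ m : Fin r → ℤ,
            (∀ i, 0 ≤ m i) ∧ ∃ a b : A, a ∉ P ∧ b ∉ P ∧
              algebraMap R K d * b = a * ∏ i, (u i : K) ^ m i := by
  have hRle : (algebraMap R K).range ≤ V.toSubring := by
    rintro _ ⟨r, rfl⟩; exact hRV r
  obtain ⟨g, u0, gs, hgV, hgsc, hG0, hM0⟩ := hE (F.image fun f => if f ∈ V then f else f⁻¹) (by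
    intro t ht
    obtain ⟨f, hf, rfl⟩ := Finset.mem_image.1 ht
    have hf0 := hF f hf
    refine ⟨?_, ?_, hfrac _⟩
    · split_ifs
      · exact hf0
      · exact inv_ne_zero hf0
    · split_ifs with hfV
      · exact hfV
      · exact (V.mem_or_inv_mem f).resolve_left hfV)
  let A : Subalgebra R K := Algebra.adjoin R (g : Set K)
  have hA : A.toSubring = Subring.closure (((algebraMap R K).range : Set K) ∪ (g : Set K)) := by
    rw [Algebra.adjoin_eq_ring_closure]
    rfl
  have hclV : Subring.closure (((algebraMap R K).range : Set K) ∪ (g : Set K)) ≤ V.toSubring :=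
    closure_le_val V _ hRle _ fun t ht => hgV t ht
  have hAV : ∀ a : A, (a : K) ∈ V := by
    intro a
    have h1 : (a : K) ∈ A.toSubring := a.2
    rw [hA] at h1
    exact hclV h1
  let P : Ideal A :=
    { carrier := {a | V.valuation (a : K) < 1}
      add_mem' := fun {a b} ha hb => by
        show V.valuation ((a : K) + (b : K)) < 1
        exact Valuation.map_add_lt _ ha hb
      zero_mem' := by
        show V.valuation (0 : K) < 1
        rw [map_zero]; exact zero_lt_one
      smul_mem' := fun a b hb => by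
        show V.valuation ((a : K) * (b : K)) < 1
        rw [map_mul]
        exact (mul_le_of_le_one_left' ((V.valuation_le_one_iff _).2 (hAV a))).trans_lt hb }
  have hP : ∀ a : A, a ∈ P ↔ V.valuation (a : K) < 1 := fun a => Iff.rfl
  have hval : ∀ a : A, a ∉ P ↔ V.valuation (a : K) = 1 := by
    intro a
    rw [hP, not_lt]
    exact ⟨fun h => le_antisymm ((V.valuation_le_one_iff _).2 (hAV a)) h, fun h => h.ge⟩
  have hPp : P.IsPrime := by
    refine ⟨?_, ?_⟩
    · rw [Ne, Ideal.eq_top_iff_one, hP]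
      simp
    · intro a b hab
      by_contra hcon
      push Not at hcon
      have h1 := (hval a).1 hcon.1
      have h2 := (hval b).1 hcon.2
      rw [hP] at hab
      have : V.valuation ((a * b : A) : K) = 1 := by
        rw [MulMemClass.coe_mul, map_mul, h1, h2, one_mul]
      rw [this] at hab
      exact lt_irrefl _ hab
  set B : Subring K := locV V (Subring.closure (((algebraMap R K).range : Set K) ∪ (g : Set K)))
    with hB
  have hlocB : locV V B = B := locV_locV _ _
  have hAB : ∀ a : A, (a : K) ∈ B := by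
    intro a
    refine ⟨a, ?_, 1, one_mem _, map_one _, mul_one _⟩
    rw [← hA]; exact a.2
  let f : A →+* B := (A.subtype : A →+* K).codRestrict B hAB
  let : Algebra A B := f.toAlgebra
  have hf : ∀ a : A, ((algebraMap A B a : B) : K) = (a : K) := fun a => rfl
  have hloc : IsLocalization.AtPrime B P := by
    refine ⟨?_, ?_, ?_⟩
    · intro y
      have hy : V.valuation ((y : A) : K) = 1 := (hval y).1 y.2
      have hy0 : ((y : A) : K) ≠ 0 := by
        intro h0; rw [h0, map_zero] at hy; exact zero_ne_one hy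
      refine IsUnit.of_mul_eq_one ⟨((y : A) : K)⁻¹, 1, one_mem _, ((y : A) : K), ?_, hy, ?_⟩ ?_
      · rw [← hA]; exact (y : A).2
      · exact inv_mul_cancel₀ hy0
      · apply Subtype.ext
        show ((y : A) : K) * ((y : A) : K)⁻¹ = 1
        exact mul_inv_cancel₀ hy0
    · rintro ⟨z, a, ha, b, hb, hb1, hz⟩
      rw [← hA] at ha hb
      refine ⟨(⟨a, ha⟩, ⟨⟨b, hb⟩, (hval _).2 hb1⟩), ?_⟩
      apply Subtype.ext
      exact hz
    · intro a b hab
      refine ⟨1, ?_⟩
      have : (a : K) = (b : K) := by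
        have := congrArg (Subtype.val : B → K) hab
        exact this
      rw [Subtype.ext this]
  -- clear the denominators of the parameters
  have hue : ∀ i, ∃ b : K, b ∈ B ∧ V.valuation b = 1 ∧ ∃ a : A, (a : K) = u0 i * b := by
    intro i
    obtain ⟨a, ha, b, hb, hb1, hab⟩ := hG0.mem i
    rw [← hA] at ha hb
    exact ⟨b, hAB ⟨b, hb⟩, hb1, ⟨a, ha⟩, hab.symm⟩
  choose b hbB hb1 u hub using hue
  obtain ⟨hG, hM⟩ := scale2 hlocB hG0 b fun i => ⟨hbB i, hb1 i⟩
  have hufun : (fun i => u0 i * b i) = fun i => (u i : K) := funext fun i => (hub i).symm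
  rw [hufun] at hG hM
  -- the ring `B`
  have n1 : IsNoetherianRing (algebraMap R K).range :=
    isNoetherianRing_of_surjective _ _ _ (algebraMap R K).rangeRestrict_surjective
  have n2 : IsNoetherianRing (Subring.closure (((algebraMap R K).range : Set K) ∪ (g : Set K))) :=
    isNoetherianRing_closure g
  have n3 : IsNoetherianRing B := isNoetherianRing_locV _
  have n4 : IsLocalRing B := isLocalRing_locV _ hclV
  have hBV : B ≤ V.toSubring := locV_le _ hclV
  have hunit : ∀ z : B, IsUnit z ↔ V.valuation (z : K) = 1 := fun z =>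
    isUnit_locV_iff V hclV z
  let v : Fin r → B := fun i => ⟨u i, hAB (u i)⟩
  -- the additional parameters
  have eg : Fin h ≃ gs := (Fintype.equivFinOfCardEq (by rw [Fintype.card_coe, hgsc])).symm
  have hwe : ∀ j : Fin h, ∃ b : K, b ∈ B ∧ V.valuation b = 1 ∧ ∃ a : A, (a : K) = (eg j : K) * b := by
    intro j
    obtain ⟨a, ha, b, hb, hb1, hab⟩ := hG0.gmem (eg j) (eg j).2
    rw [← hA] at ha hb
    exact ⟨b, hAB ⟨b, hb⟩, hb1, ⟨a, ha⟩, hab.symm⟩
  choose b' hb'B hb'1 w hwb using hwe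
  let v' : Fin h → B := fun j => ⟨w j, hAB (w j)⟩
  have hb'0 : ∀ j, b' j ≠ 0 := by
    intro j h0
    have := hb'1 j
    rw [h0, map_zero] at this
    exact zero_ne_one this
  have hb'i : ∀ j, (b' j)⁻¹ ∈ B := fun j => E5_inv hlocB (hb'B j) (hb'1 j)
  have hmaxB : maximalIdeal B = Ideal.span (Set.range v ∪ Set.range v') := by
    apply le_antisymm
    · intro z hz
      have hz1 : V.valuation (z : K) < 1 := by
        rw [mem_maximalIdeal, mem_nonunits_iff, hunit] at hz
        exact lt_of_le_of_ne ((V.valuation_le_one_iff _).2 (hBV z.2)) hz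
      obtain ⟨c, d, hc, hd, hs⟩ := hG.gen z z.2 hz1
      have hsum : ∑ y ∈ gs, d y * y = ∑ j : Fin h, d (eg j) * (eg j : K) := by
        rw [← Finset.sum_coe_sort gs (fun y => d y * y)]
        exact (Equiv.sum_comp eg (fun y : gs => d y * (y : K))).symm
      have hz2 : z = ∑ i, (⟨c i, hc i⟩ : B) * v i +
          ∑ j, (⟨d (eg j) * (b' j)⁻¹, mul_mem (hd _) (hb'i j)⟩ : B) * v' j := by
        apply Subtype.ext
        rw [Subring.coe_add, AddSubmonoidClass.coe_finsetSum, AddSubmonoidClass.coe_finsetSum, hs,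
          hsum]
        congr 1
        refine Finset.sum_congr rfl fun j _ => ?_
        rw [Subring.coe_mul]
        show d (eg j) * (eg j : K) = d (eg j) * (b' j)⁻¹ * (w j : K)
        rw [hwb]
        have := hb'0 j
        field_simp
      rw [hz2]
      refine Ideal.add_mem _ (Ideal.sum_mem _ fun i _ => Ideal.mul_mem_left _ _ ?_)
        (Ideal.sum_mem _ fun j _ => Ideal.mul_mem_left _ _ ?_)
      · exact Ideal.subset_span (Or.inl ⟨i, rfl⟩)
      · exact Ideal.subset_span (Or.inr ⟨j, rfl⟩)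
    · rw [Ideal.span_le]
      rintro _ (⟨i, rfl⟩ | ⟨j, rfl⟩)
      · rw [SetLike.mem_coe, mem_maximalIdeal, mem_nonunits_iff, hunit]
        exact (hG.lt i).ne
      · rw [SetLike.mem_coe, mem_maximalIdeal, mem_nonunits_iff, hunit]
        show ¬ V.valuation (w j : K) = 1
        rw [hwb, map_mul, hb'1, mul_one]
        exact (hG0.glt _ (eg j).2).ne
  have hregB : IsRegularLocalRing B := hG0.reg
  have hdimB : ringKrullDim B = (((r + h : ℕ) : ℕ∞) : WithBot ℕ∞) := by
    rw [hG0.dim, hgsc, add_comm]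
  let e : B ≃ₐ[A] Localization.AtPrime P :=
    IsLocalization.algEquiv P.primeCompl B (Localization.AtPrime P)
  have hmon : ∀ t : K, MonV V B (fun i => (u i : K)) t → ∃ m : Fin r → ℤ, (∀ i, 0 ≤ m i) ∧
      ∃ a b : A, a ∉ P ∧ b ∉ P ∧ t * b = a * ∏ i, (u i : K) ^ m i := by
    rintro t ⟨w, ⟨a, ha, b, hb, hb1, hab⟩, hw1, β, rfl⟩
    rw [← hA] at ha hb
    refine ⟨fun i => (β i : ℤ), fun i => Int.natCast_nonneg _, ⟨a, ha⟩, ⟨b, hb⟩, ?_, ?_, ?_⟩
    · rw [hval]
      show V.valuation a = 1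
      rw [← hab, map_mul, hw1, hb1, one_mul]
    · rw [hval]; exact hb1
    · show w * monN (fun i => (u i : K)) β * b = a * ∏ i, (u i : K) ^ (β i : ℤ)
      rw [← hab]
      unfold monN
      simp only [zpow_natCast]
      ring
  refine ⟨A, ⟨g, rfl⟩, hAV, P, hPp, hP, IsRegularLocalRing.of_ringEquiv e.toRingEquiv, ?_, u, w,
    ?_, ?_, ?_, ?_⟩
  · rw [← hdimB]
    exact (ringKrullDim_eq_of_ringEquiv e.toRingEquiv).symm
  · rw [← map_ringEquiv_maximalIdeal e.toRingEquiv, hmaxB, Ideal.map_span]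
    congr 1
    ext z
    constructor
    · rintro ⟨_, (⟨i, rfl⟩ | ⟨j, rfl⟩), rfl⟩
      · exact Or.inl ⟨i, (e.commutes (u i)).symm⟩
      · exact Or.inr ⟨j, (e.commutes (w j)).symm⟩
    · rintro (⟨i, rfl⟩ | ⟨j, rfl⟩)
      · exact ⟨v i, Or.inl ⟨i, rfl⟩, e.commutes (u i)⟩
      · exact ⟨v' j, Or.inr ⟨j, rfl⟩, e.commutes (w j)⟩
  · intro m hm
    exact hG.ind.indep m hm
  · intro t ht
    have h1 := hM _ (hM0 _ (Finset.mem_image_of_mem _ ht))
    by_cases htV : t ∈ V
    · rw [if_pos htV] at h1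
      obtain ⟨m, hm0, hm⟩ := hmon t h1
      exact ⟨m, hm, fun _ => hm0⟩
    · rw [if_neg htV] at h1
      obtain ⟨m, hm0, a, b, ha, hb, hab⟩ := hmon _ h1
      refine ⟨fun i => -m i, ⟨b, a, hb, ha, ?_⟩, fun h => absurd h htV⟩
      have ht0 := hF t ht
      have hu0 : ∀ i, (u i : K) ≠ 0 := hG.ind.ne
      have hprod : ∏ i, (u i : K) ^ (-m i) = (∏ i, (u i : K) ^ m i)⁻¹ := by
        simp only [zpow_neg, Finset.prod_inv_distrib]
      have hp0 : ∏ i, (u i : K) ^ m i ≠ 0 :=
        Finset.prod_ne_zero_iff.2 fun i _ => zpow_ne_zero _ (hu0 i)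
      rw [hprod, ← div_eq_mul_inv, eq_div_iff hp0, mul_assoc, ← hab]
      field_simp
  · intro z
    obtain ⟨D, ⟨d, rfl⟩, hDm, ⟨e', he'⟩⟩ := hG.den z (hAB z)
    exact ⟨d, e', he'.symm, hmon _ hDm⟩

end

end Pool.Agent.Lib.MP_3029eb_ag.Imp
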