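import Pool.Agent.Lib.MP_3029eb_ag.AbhE3

/-!
Definitions for embedded local uniformization with additional parameters.
-/

open IsLocalRing

namespace Pool.Agent.Lib.MP_3029eb_ag.Imp
open Pool.Agent.Lib.MP_3029eb_ag
open Pool.Agent.Lib.MP_3029eb_ag.Abh

/-- `A` is regular of dimension `r + card gs`, its maximal ideal is generated by the `u i` and the
elements of `gs`, the values of the `u i` are rationally independent, and every element of `A` has
a denominator in `A0` which is a unit of `A` times a monomial in the `u i`. -/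
structure GoodPar2 {K : Type} [Field K] (V : ValuationSubring K) (A0 A : Subring K) {r : ℕ}
    (u : Fin r → K) (gs : Finset K) : Prop where
  ind : IndV V u
  mem : ∀ i, u i ∈ A
  lt : ∀ i, V.valuation (u i) < 1
  gmem : ∀ y ∈ gs, y ∈ A
  glt : ∀ y ∈ gs, V.valuation y < 1
  gen : ∀ z ∈ A, V.valuation z < 1 → ∃ (c : Fin r → K) (d : K → K), (∀ i, c i ∈ A) ∧
    (∀ y, d y ∈ A) ∧ z = ∑ i, c i * u i + ∑ y ∈ gs, d y * y
  reg : IsRegularLocalRing A
  dim : ringKrullDim A = (((gs.card + r : ℕ) : ℕ∞) : WithBot ℕ∞)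
  den : ∀ z ∈ A, ∃ D ∈ A0, MonV V A u D ∧ D * z ∈ A0

/-- Embedded local uniformization of `A0` along `V`, with `r` parameters of independent values and
`h` additional parameters. -/
def EMB2 {K : Type} [Field K] (V : ValuationSubring K) (A0 : Subring K) (r h : ℕ) : Prop :=
  ∀ s : Finset K, (∀ f ∈ s, f ≠ 0 ∧ f ∈ V ∧ ∃ a ∈ A0, ∃ b ∈ A0, b ≠ 0 ∧ f * b = a) →
    ∃ (g : Finset K) (u : Fin r → K) (gs : Finset K), (∀ t ∈ g, t ∈ V) ∧ gs.card = h ∧
      GoodPar2 V A0 (locV V (Subring.closure ((A0 : Set K) ∪ (g : Set K)))) u gs ∧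
      ∀ f ∈ s, MonV V (locV V (Subring.closure ((A0 : Set K) ∪ (g : Set K)))) u f

end Pool.Agent.Lib.MP_3029eb_ag.Imp
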