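import Pool.Agent.Lib.MP_3029eb_ag.Comp3

/-!
Module C4 of the Abhyankar part, all ranks: dimensions of `locV V1 A` and `im V1 A`.
-/

open IsLocalRing

namespace Pool.Agent.Lib.MP_3029eb_ag.Abh
open Pool.Agent.Lib.MP_3029eb_ag

theorem C4_dim_locV {K : Type} [Field K] (V1 : ValuationSubring K) {A : Subring K}
    (hA : A ≤ V1.toSubring) :
    ringKrullDim (locV V1 A) = ((C3.cen V1 hA).height : WithBot ℕ∞) := by
  let := (Subring.inclusion (C3.le_loc V1 A)).toAlgebra
  have := C3.isLocalization V1 hA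
  exact IsLocalization.AtPrime.ringKrullDim_eq_height (C3.cen V1 hA) (locV V1 A)

theorem C4_dim_im {K : Type} [Field K] (V1 : ValuationSubring K) {A : Subring K}
    (hA : A ≤ V1.toSubring) :
    ringKrullDim (A ⧸ C3.cen V1 hA) = ringKrullDim (im V1 A) := by
  let ψ : A →+* ResidueField V1 := (residue V1).comp (Subring.inclusion hA)
  have hker : RingHom.ker ψ = C3.cen V1 hA := by
    ext z
    rw [RingHom.mem_ker, C3.mem_cen]
    exact C3.residue_eq_zero (hA z.2)
  have hrange : ψ.range = im V1 A := by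
    refine le_antisymm ?_ ?_
    · rintro _ ⟨z, rfl⟩
      exact C3.residue_mem_im z.2 (hA z.2)
    · intro q hq
      obtain ⟨a, ha, ha1, rfl⟩ := C3.mem_im hq
      exact ⟨⟨a, ha⟩, rfl⟩
  have e1 : (A ⧸ C3.cen V1 hA) ≃+* ψ.range :=
    (Ideal.quotEquivOfEq hker.symm).trans (RingHom.quotientKerEquivRange ψ)
  rw [ringKrullDim_eq_of_ringEquiv e1, hrange]

theorem dim_split {K : Type} [Field K] {V V1 : ValuationSubring K} (h : V ≤ V1)
    (A : Subring K) (hA : A ≤ V.toSubring) :
    ringKrullDim (locV V1 A) + ringKrullDim (im V1 A) ≤ ringKrullDim A := by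
  have hA1 : A ≤ V1.toSubring := fun z hz => h (hA hz)
  rw [C4_dim_locV V1 hA1, ← C4_dim_im V1 hA1]
  exact C3.height_add_le (C3.cen V1 hA1)

theorem C4_isLocal {K : Type} [Field K] (V : ValuationSubring K) (A : Subring K)
    (hA : A ≤ V.toSubring) (hloc : locV V A = A) : IsLocalRing A := by
  have h := C3.isLocal V hA
  rw [hloc] at h
  exact h

theorem C4_isUnit_iff {K : Type} [Field K] (V : ValuationSubring K) (A : Subring K)
    (hA : A ≤ V.toSubring) (hloc : locV V A = A) (z : A) :
    IsUnit z ↔ V.valuation (z : K) = 1 := by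
  have h := C3.isUnit_iff V hA
  rw [hloc] at h
  exact h z

/-- a local ring dominated by `V` has positive dimension iff it has a nonzero element of positive
value -/
theorem one_le_dim_iff {K : Type} [Field K] (V : ValuationSubring K) (A : Subring K)
    (hA : A ≤ V.toSubring) (hloc : locV V A = A) :
    1 ≤ ringKrullDim A ↔ ∃ z ∈ A, z ≠ 0 ∧ V.valuation z < 1 := by
  have hL : IsLocalRing A := C4_isLocal V A hA hloc
  constructor
  · intro h
    by_contra hcon
    push Not at hcon
    have hF : IsField A := by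
      refine ⟨⟨0, 1, zero_ne_one⟩, mul_comm, fun {a} ha => ?_⟩
      have ha0 : (a : K) ≠ 0 := fun h0 => ha (Subtype.ext h0)
      have h1 : V.valuation (a : K) = 1 :=
        le_antisymm ((V.valuation_le_one_iff _).2 (hA a.2)) (hcon a a.2 ha0)
      exact ((C4_isUnit_iff V A hA hloc a).2 h1).exists_right_inv
    rw [ringKrullDim_eq_zero_of_isField hF] at h
    exact absurd h (by decide)
  · rintro ⟨z, hz, hz0, hz1⟩
    have h1 : ¬ ringKrullDim A ≤ 0 := by
      intro h0
      have : Ring.KrullDimLE 0 A := Ring.krullDimLE_iff.mpr h0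
      have hF : IsField A := Ring.KrullDimLE.isField_of_isDomain
      have h2 : (⟨z, hz⟩ : A) ≠ 0 := fun h3 => hz0 (congrArg Subtype.val h3)
      obtain ⟨w, hw⟩ := hF.mul_inv_cancel h2
      have h3 := (C4_isUnit_iff V A hA hloc ⟨z, hz⟩).1 (IsUnit.of_mul_eq_one w hw)
      exact absurd h3 (ne_of_lt hz1)
    exact Order.succ_le_of_lt (lt_of_not_ge h1)

theorem exists_nat_dim {K : Type} [Field K] (V : ValuationSubring K) (A : Subring K)
    [IsNoetherianRing A] (hA : A ≤ V.toSubring) (hloc : locV V A = A) :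
    ∃ n : ℕ, ringKrullDim A = n := by
  have hL : IsLocalRing A := C4_isLocal V A hA hloc
  have h1 := ringKrullDim_ne_top (R := A)
  have h2 := ringKrullDim_ne_bot (R := A)
  obtain ⟨a, ha⟩ := WithBot.ne_bot_iff_exists.1 h2
  rw [← ha] at h1 ⊢
  have h3 : a ≠ ⊤ := fun h => h1 (by rw [h]; rfl)
  obtain ⟨b, hb⟩ := ENat.ne_top_iff_exists.1 h3
  exact ⟨b, by rw [← hb]; rfl⟩

end Pool.Agent.Lib.MP_3029eb_ag.Abh
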