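import Pool.Agent.Lib.MP_3029eb_ag.H44Defs

/-!
Definitions for local uniformization along Abhyankar valuations of rank one.
`W` is a valuation ring of rank one (the completion of the given valuation ring).
-/

open IsLocalRing

namespace Pool.Agent.Lib.MP_3029eb_ag.Ab

/-- The archimedean property (rank at most one). -/
def Arch (W : Type) [CommRing W] [IsLocalRing W] : Prop :=
  ∀ x ∈ maximalIdeal W, ∀ y : W, y ≠ 0 → ∃ n : ℕ, y ∣ x ^ n

/-- Monomials. -/
def mon {W : Type} [CommMonoid W] {r : ℕ} (z : Fin r → W) (a : Fin r → ℕ) : W := ∏ i, z i ^ a i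

section

variable {W : Type} [CommRing W] [IsLocalRing W] {r : ℕ}

/-- The values of the elements `z i` of the maximal ideal form a basis of the value group. -/
structure IsBasis (z : Fin r → W) : Prop where
  mem : ∀ i, z i ∈ maximalIdeal W
  ne : ∀ i, z i ≠ 0
  span : ∀ w : W, w ≠ 0 → ∃ (a b : Fin r → ℕ) (u : W), IsUnit u ∧ w * mon z b = u * mon z a
  indep : ∀ a b : Fin r → ℕ, Associated (mon z a) (mon z b) → a = b

/-- `z'` is a (toric) refinement of `z`: the `z i` are monomials in `z'`, and the `z' j` are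
quotients of monomials in `z`. -/
structure Refines (z z' : Fin r → W) : Prop where
  basis : IsBasis z'
  mono : ∀ i, ∃ C : Fin r → ℕ, z i = mon z' C
  inv : ∀ j, ∃ A B : Fin r → ℕ, z' j * mon z B = mon z A

/-- `w` is the sum of the series `∑ c γ z ^ γ`. -/
def SumTo (z : Fin r → W) (c : (Fin r → ℕ) → W) (w : W) : Prop :=
  ∀ B : W, B ≠ 0 → ∃ F0 : Finset (Fin r → ℕ), ∀ F : Finset (Fin r → ℕ), F0 ⊆ F →
    B ∣ w - ∑ γ ∈ F, c γ * mon z γ

/-- The elements of `W` that are power series in `z` with coefficients in `Λ0`. -/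
def PSet (Λ0 : Subring W) (z : Fin r → W) : Set W :=
  {w | ∃ c : (Fin r → ℕ) → W, (∀ γ, c γ ∈ Λ0) ∧ SumTo z c w}

/-- The elements of `W` that are power series in `z` with coefficients in `Λ0` and without constant
term. -/
def IsPS (Λ0 : Subring W) (z : Fin r → W) (w : W) : Prop :=
  ∃ c : (Fin r → ℕ) → W, (∀ γ, c γ ∈ Λ0) ∧ c 0 = 0 ∧ SumTo z c w

/-- `S` is a local subring of `W` with maximal ideal generated by `z` and `w`, residue field that
of `W`, and `w ^ d ∈ (z)`. -/
structure Nice (Λ0 S : Subring W) (z : Fin r → W) (w : W) (d : ℕ) : Prop where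
  basis : IsBasis z
  le : Λ0 ≤ S
  z_mem : ∀ i, z i ∈ S
  w_mem : w ∈ S
  w_max : w ∈ maximalIdeal W
  unit : ∀ u ∈ S, IsUnit u → ∃ v ∈ S, u * v = 1
  max : ∀ x ∈ S, x ∈ maximalIdeal W → ∃ (a : Fin r → W) (b : W), (∀ i, a i ∈ S) ∧ b ∈ S ∧
    x = ∑ i, a i * z i + b * w
  pow : ∃ a : Fin r → W, (∀ i, a i ∈ S) ∧ w ^ d = ∑ i, a i * z i
  res : ∀ x : W, ∃ l ∈ Λ0, x - l ∈ maximalIdeal W

end

/-- A family of elements of `T` is valuation independent (over the residue field of `T`) with
respect to `φ : T → W`: the value of a combination with coefficients that are units or zero is at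
most the value of each term with a unit coefficient. -/
def ValInd {T W α : Type} [CommRing T] [CommRing W] (φ : T →+* W) (g : α → T) : Prop :=
  ∀ (F : Finset α) (s : α → T), (∀ i ∈ F, s i = 0 ∨ IsUnit (s i)) → ∀ k ∈ F, IsUnit (s k) →
    φ (∑ i ∈ F, s i * g i) ∣ φ (g k)

end Pool.Agent.Lib.MP_3029eb_ag.Ab
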