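import Pool.Agent.Lib.MP_3029eb_ag.AbDefs

/-!
The localization of a subring of a local domain `W` at the elements that are units of `W`.
-/

open IsLocalRing

namespace Pool.Agent.Lib.MP_3029eb_ag.Ab

/-- For a subring `A` of `W`: the fractions `a / b`, `a, b ∈ A`, `b` a unit of `W`. -/
def locW {W : Type} [CommRing W] (A : Subring W) : Subring W where
  carrier := {z | ∃ a ∈ A, ∃ b ∈ A, IsUnit b ∧ z * b = a}
  mul_mem' := by
    rintro z w ⟨a, ha, b, hb, hb1, h⟩ ⟨a', ha', b', hb', hb1', h'⟩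
    exact ⟨a * a', mul_mem ha ha', b * b', mul_mem hb hb', hb1.mul hb1',
      by rw [← h, ← h']; ring⟩
  one_mem' := ⟨1, one_mem _, 1, one_mem _, isUnit_one, by rw [one_mul]⟩
  add_mem' := by
    rintro z w ⟨a, ha, b, hb, hb1, h⟩ ⟨a', ha', b', hb', hb1', h'⟩
    exact ⟨a * b' + a' * b, add_mem (mul_mem ha hb') (mul_mem ha' hb), b * b', mul_mem hb hb',
      hb1.mul hb1', by rw [← h, ← h']; ring⟩
  zero_mem' := ⟨0, zero_mem _, 1, one_mem _, isUnit_one, by rw [zero_mul]⟩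
  neg_mem' := by
    rintro z ⟨a, ha, b, hb, hb1, h⟩
    exact ⟨-a, neg_mem ha, b, hb, hb1, by rw [← h]; ring⟩

section

variable {W : Type} [CommRing W]

theorem mem_locW {A : Subring W} {z : W} :
    z ∈ locW A ↔ ∃ a ∈ A, ∃ b ∈ A, IsUnit b ∧ z * b = a := Iff.rfl

theorem subring_le_locW (A : Subring W) : A ≤ locW A := fun a ha =>
  ⟨a, ha, 1, one_mem _, isUnit_one, by rw [mul_one]⟩

theorem locW_unit (A : Subring W) {u : W} (hu : u ∈ locW A) (h : IsUnit u) :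
    ∃ v ∈ locW A, u * v = 1 := by
  obtain ⟨a, ha, b, hb, hb1, h1⟩ := hu
  have ha1 : IsUnit a := by rw [← h1]; exact h.mul hb1
  obtain ⟨v, hv⟩ := h.exists_right_inv
  refine ⟨v, ⟨b, hb, a, ha, ha1, ?_⟩, hv⟩
  rw [← h1, ← mul_assoc, mul_comm v u, hv, one_mul]

end

end Pool.Agent.Lib.MP_3029eb_ag.Ab
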