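import Pool.Agent.Lib.MP_3029eb_ag.AbDefs

/-!
The local ring `S[X]_𝔠` where `𝔠` is the centre of `W` under `X ↦ x`.
-/

open IsLocalRing Polynomial

namespace Pool.Agent.Lib.MP_3029eb_ag.Ab

section

variable {S W : Type} [CommRing S] [CommRing W] [IsLocalRing W]

/-- The preimage of the maximal ideal of `W` under `S[X] → W`, `X ↦ x`. -/
noncomputable def cenX (θ : S →+* W) (x : W) : Ideal S[X] :=
  (maximalIdeal W).comap (eval₂RingHom θ x)

instance (θ : S →+* W) (x : W) : (cenX θ x).IsPrime := by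
  unfold cenX; infer_instance

/-- The localization of `S[X]` at the centre of `W`. -/
abbrev SX (θ : S →+* W) (x : W) : Type := Localization.AtPrime (cenX θ x)

theorem mem_cenX {θ : S →+* W} {x : W} {F : S[X]} :
    F ∈ cenX θ x ↔ eval₂ θ x F ∈ maximalIdeal W := Iff.rfl

/-- Homomorphisms from `SX θ x`. -/
noncomputable def SX.lift {A : Type} [CommRing A] (θ : S →+* W) (x : W) (f : S[X] →+* A)
    (hf : ∀ F : S[X], IsUnit (eval₂ θ x F) → IsUnit (f F)) : SX θ x →+* A :=
  IsLocalization.lift (M := (cenX θ x).primeCompl) (g := f) (fun y => hf y (by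
    have h := y.2
    by_contra hcon
    exact h ((mem_maximalIdeal _).2 hcon)))

theorem SX.lift_algebraMap {A : Type} [CommRing A] (θ : S →+* W) (x : W) (f : S[X] →+* A)
    (hf : ∀ F : S[X], IsUnit (eval₂ θ x F) → IsUnit (f F)) (F : S[X]) :
    SX.lift θ x f hf (algebraMap S[X] (SX θ x) F) = f F :=
  IsLocalization.lift_eq _ F

/-- The extension of `θ` to `SX θ x`. -/
noncomputable def SX.toW (θ : S →+* W) (x : W) : SX θ x →+* W :=
  SX.lift θ x (eval₂RingHom θ x) (fun _ h => h)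

theorem SX.toW_algebraMap (θ : S →+* W) (x : W) (F : S[X]) :
    SX.toW θ x (algebraMap S[X] (SX θ x) F) = eval₂ θ x F :=
  SX.lift_algebraMap θ x _ _ F

theorem SX.isUnit_algebraMap (θ : S →+* W) (x : W) {F : S[X]} (hF : IsUnit (eval₂ θ x F)) :
    IsUnit (algebraMap S[X] (SX θ x) F) := by
  refine IsLocalization.map_units (SX θ x) (⟨F, ?_⟩ : (cenX θ x).primeCompl)
  intro h
  exact (mem_maximalIdeal _).1 h hF

theorem SX.exists_rep (θ : S →+* W) (x : W) (z : SX θ x) :
    ∃ F G : S[X], IsUnit (eval₂ θ x G) ∧ z * algebraMap S[X] (SX θ x) G =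
      algebraMap S[X] (SX θ x) F := by
  obtain ⟨⟨F, ⟨G, hG⟩⟩, h⟩ := IsLocalization.surj (cenX θ x).primeCompl z
  refine ⟨F, G, ?_, h⟩
  by_contra hcon
  exact hG ((mem_maximalIdeal _).2 hcon)

instance SX.isLocalHom_toW (θ : S →+* W) (x : W) : IsLocalHom (SX.toW θ x) := by
  refine ⟨fun z hz => ?_⟩
  obtain ⟨F, G, hG, h⟩ := SX.exists_rep θ x z
  have h1 : IsUnit (eval₂ θ x F) := by
    have h2 := congrArg (SX.toW θ x) h
    rw [map_mul, SX.toW_algebraMap, SX.toW_algebraMap] at h2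
    rw [← h2]
    exact hz.mul hG
  have h3 := SX.isUnit_algebraMap θ x h1
  rw [← h] at h3
  exact isUnit_of_mul_isUnit_left h3

end

end Pool.Agent.Lib.MP_3029eb_ag.Ab
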