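import Pool.Agent.Lib.MP_3029eb_ag.AbhDefs

/-!
Module AB-S2: elementary facts on monomials, and the exchange lemma.
-/

open IsLocalRing

namespace Pool.Agent.Lib.MP_3029eb_ag.Abh

section

variable {L : Type} [NormedField L]

theorem mon_add {r : ℕ} (u : Fin r → L) (hu : ∀ i, u i ≠ 0) (a b : Fin r → ℤ) :
    mon u (a + b) = mon u a * mon u b := by
  simp only [mon, ← Finset.prod_mul_distrib]
  exact Finset.prod_congr rfl fun i _ => by rw [Pi.add_apply, zpow_add₀ (hu i)]

theorem mon_neg {r : ℕ} (u : Fin r → L) (a : Fin r → ℤ) :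
    mon u (-a) = (mon u a)⁻¹ := by
  simp only [mon, Pi.neg_apply, zpow_neg, Finset.prod_inv_distrib]

theorem mon_natCast {r : ℕ} (u : Fin r → L) (β : Fin r → ℕ) :
    mon u (fun i => (β i : ℤ)) = monN u β := by
  simp only [mon, monN, zpow_natCast]

theorem mon_ne_zero {r : ℕ} (u : Fin r → L) (hu : ∀ i, u i ≠ 0) (a : Fin r → ℤ) :
    mon u a ≠ 0 :=
  Finset.prod_ne_zero_iff.mpr fun i _ => zpow_ne_zero _ (hu i)

/-- distinct monomials have distinct norms -/
theorem Indep.inj {r : ℕ} {u : Fin r → L} (hu : Indep u) {a b : Fin r → ℤ}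
    (h : ‖mon u a‖ = ‖mon u b‖) : a = b := by
  have h1 : ‖mon u (a - b)‖ = 1 := by
    rw [sub_eq_add_neg, mon_add u hu.ne, mon_neg, norm_mul, norm_inv, h]
    exact mul_inv_cancel₀ (norm_ne_zero_iff.mpr (mon_ne_zero u hu.ne b))
  exact sub_eq_zero.mp (hu.indep _ h1)

theorem Indep.injN {r : ℕ} {u : Fin r → L} (hu : Indep u) {a b : Fin r → ℕ}
    (h : ‖monN u a‖ = ‖monN u b‖) : a = b := by
  rw [← mon_natCast, ← mon_natCast] at h
  have h2 := hu.inj h
  funext i
  have h3 := congrFun h2 i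
  simpa using h3

/-- the weight of a monomial -/
theorem norm_monN {r : ℕ} {u : Fin r → L} (hu : ∀ i, u i ≠ 0) (β : Fin r → ℕ) :
    ‖monN u β‖ = Real.exp (-(∑ i, (β i : ℝ) * wt u i)) := by
  rw [monN, norm_prod, ← Finset.sum_neg_distrib, Real.exp_sum]
  refine Finset.prod_congr rfl fun i _ => ?_
  rw [norm_pow, wt, mul_neg, neg_neg, ← Real.log_pow,
    Real.exp_log (pow_pos (norm_pos_iff.mpr (hu i)) _)]

theorem norm_mon {r : ℕ} {u : Fin r → L} (hu : ∀ i, u i ≠ 0) (δ : Fin r → ℤ) :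
    ‖mon u δ‖ = Real.exp (-(∑ i, (δ i : ℝ) * wt u i)) := by
  rw [mon, norm_prod, ← Finset.sum_neg_distrib, Real.exp_sum]
  refine Finset.prod_congr rfl fun i _ => ?_
  rw [norm_zpow, wt, mul_neg, neg_neg, ← Real.log_zpow,
    Real.exp_log (zpow_pos (norm_pos_iff.mpr (hu i)) _)]

theorem Indep.wt_pos {r : ℕ} {u : Fin r → L} (hu : Indep u) (i : Fin r) : 0 < wt u i := by
  rw [wt, neg_pos]
  exact Real.log_neg (norm_pos_iff.mpr (hu.ne i)) (hu.lt i)

private theorem S2_mon_update {r : ℕ} (x : Fin r → L) (p : L) (i : Fin r) (δ : Fin r → ℤ) :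
    mon (Function.update x i p) δ = p ^ δ i * mon x (Function.update δ i 0) := by
  rw [mon, mon, ← Finset.mul_prod_erase Finset.univ _ (Finset.mem_univ i),
    ← Finset.mul_prod_erase Finset.univ (fun j => x j ^ Function.update δ i 0 j)
      (Finset.mem_univ i), Function.update_self, Function.update_self, zpow_zero, one_mul]
  congr 1
  refine Finset.prod_congr rfl fun j hj => ?_
  have hji : j ≠ i := (Finset.mem_erase.mp hj).1
  rw [Function.update_of_ne hji, Function.update_of_ne hji]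

private theorem S2_mon_smul {r : ℕ} (x : Fin r → L) (k : ℤ) (δ : Fin r → ℤ) :
    mon x (fun i => k * δ i) = mon x δ ^ k := by
  rw [mon, mon, ← Finset.prod_zpow]
  exact Finset.prod_congr rfl fun j _ => by rw [mul_comm, zpow_mul]

theorem exchange {r : ℕ} (hr : 0 < r) {x : Fin r → L} (hx : Indep x) (p : L) (hp0 : p ≠ 0)
    (hp : ‖p‖ < 1) : ∃ i : Fin r, Indep (Function.update x i p) := by
  have hpn : ‖p‖ ≠ 0 := norm_ne_zero_iff.mpr hp0
  have hpk : ∀ k : ℤ, k ≠ 0 → ‖p‖ ^ k ≠ 1 := by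
    intro k hk h
    rcases lt_or_gt_of_ne hk with h1 | h1
    · have := one_lt_zpow_of_neg₀ (norm_pos_iff.mpr hp0) hp h1
      rw [h] at this
      exact lt_irrefl _ this
    · have := zpow_lt_one₀ (norm_pos_iff.mpr hp0) hp h1
      rw [h] at this
      exact lt_irrefl _ this
  have hne : ∀ (i j : Fin r), Function.update x i p j ≠ 0 := by
    intro i j
    by_cases h : j = i
    · subst h; rw [Function.update_self]; exact hp0
    · rw [Function.update_of_ne h]; exact hx.ne j
  have hlt : ∀ (i j : Fin r), ‖Function.update x i p j‖ < 1 := by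
    intro i j
    by_cases h : j = i
    · subst h; rw [Function.update_self]; exact hp
    · rw [Function.update_of_ne h]; exact hx.lt j
  -- if the exponent at `i` vanishes we are done
  have hfin : ∀ (i : Fin r) (δ : Fin r → ℤ), ‖mon (Function.update x i p) δ‖ = 1 → δ i = 0 →
      δ = 0 := by
    intro i δ h h0
    rw [S2_mon_update, h0, zpow_zero, one_mul] at h
    have h2 := hx.indep _ h
    funext j
    by_cases hj : j = i
    · subst hj; exact h0
    · have h3 := congrFun h2 j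
      rw [Function.update_of_ne hj] at h3
      exact h3
  by_cases hk : ∃ (k : ℤ) (m : Fin r → ℤ), k ≠ 0 ∧ ‖p‖ ^ k = ‖mon x m‖
  · obtain ⟨k, m, hk0, hkm⟩ := hk
    have hm : ∃ i, m i ≠ 0 := by
      by_contra hcon
      push Not at hcon
      have : mon x m = 1 := by
        rw [mon]
        exact Finset.prod_eq_one fun i _ => by rw [hcon i, zpow_zero]
      rw [this, norm_one] at hkm
      exact hpk k hk0 hkm
    obtain ⟨i, hi⟩ := hm
    refine ⟨i, ⟨hne i, hlt i, ?_⟩⟩
    intro δ h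
    refine hfin i δ h ?_
    rw [S2_mon_update, norm_mul, norm_zpow] at h
    have h4 : ‖mon x ((fun j => δ i * m j) + fun j => k * Function.update δ i 0 j)‖ = 1 := by
      rw [mon_add x hx.ne, S2_mon_smul, S2_mon_smul, norm_mul, norm_zpow, norm_zpow, ← hkm,
        ← zpow_mul, mul_comm k (δ i), zpow_mul, ← mul_zpow, h, one_zpow]
    have h5 := congrFun (hx.indep _ h4) i
    rw [Pi.add_apply, Function.update_self, mul_zero, add_zero, Pi.zero_apply] at h5
    exact (mul_eq_zero.mp h5).resolve_right hi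
  · push Not at hk
    refine ⟨⟨0, hr⟩, ⟨hne _, hlt _, ?_⟩⟩
    intro δ h
    refine hfin _ δ h ?_
    by_contra hδ
    refine hk (δ ⟨0, hr⟩) (-(Function.update δ ⟨0, hr⟩ 0)) hδ ?_
    rw [mon_neg, norm_inv]
    rw [S2_mon_update, norm_mul, norm_zpow] at h
    exact eq_inv_of_mul_eq_one_left h

end

end Pool.Agent.Lib.MP_3029eb_ag.Abh
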