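import Pool.Agent.Lib.MP_3029eb_ag.AbhS4

/-!
Abhyankar part, module S5: lower bound for `lenq`.
-/

open IsLocalRing

namespace Pool.Agent.Lib.MP_3029eb_ag.Abh

theorem S5_norm_monN {L : Type} [NormedField L] {r : ℕ} {u : Fin r → L} (hu : ∀ i, u i ≠ 0)
    (β : Fin r → ℕ) : ‖monN u β‖ = Real.exp (-(∑ i, (β i : ℝ) * wt u i)) := by
  rw [monN, norm_prod, ← Finset.sum_neg_distrib, Real.exp_sum]
  refine Finset.prod_congr rfl fun i _ => ?_
  rw [wt, norm_pow, mul_neg, neg_neg, Real.exp_nat_mul, Real.exp_log (norm_pos_iff.2 (hu i))]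

theorem S5_injN {L : Type} [NormedField L] {r : ℕ} {u : Fin r → L} (hu : Indep u)
    {a b : Fin r → ℕ} (h : ‖monN u a‖ = ‖monN u b‖) : a = b := by
  have h1 : mon u (fun i => (a i : ℤ) - (b i : ℤ)) = monN u a / monN u b := by
    rw [mon, monN, monN, ← Finset.prod_div_distrib]
    refine Finset.prod_congr rfl fun i _ => ?_
    rw [zpow_sub₀ (hu.ne i), zpow_natCast, zpow_natCast]
  have hb : monN u b ≠ 0 := Finset.prod_ne_zero_iff.2 fun i _ => pow_ne_zero _ (hu.ne i)
  have h2 : ‖mon u (fun i => (a i : ℤ) - (b i : ℤ))‖ = 1 := by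
    rw [h1, norm_div, h, div_self (norm_ne_zero_iff.2 hb)]
  have h3 := hu.indep _ h2
  funext i
  have := congrFun h3 i
  simp only [Pi.zero_apply] at this
  omega

theorem S5_one_le {R M : Type*} [Ring R] [AddCommGroup M] [Module R M] (p : Submodule R M)
    (h : p ≠ ⊤) : 1 ≤ Module.length R (M ⧸ p) := by
  rw [Order.one_le_iff_pos, Module.length_pos_iff, Submodule.Quotient.nontrivial_iff]
  exact h

section

variable (C : Type) {L : Type} [CommRing C] [NormedField L] [IsUltrametricDist L] [Algebra C L]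
  [Bdd C L]

theorem S5_chain {r : ℕ} (u : Fin r → L) (hu : Indep u) (X : Submodule C L) :
    ∀ (k : ℕ) (q : ℝ) (hq : 0 ≤ q) (S : Finset (Fin r → ℕ)), S.card = k →
      (∀ β ∈ S, monN u β ∈ X ∧ q < ‖monN u β‖) →
      (k : ℕ∞) ≤ Module.length C (X ⧸ S4_part C X q hq) := by
  classical
  intro k
  induction k with
  | zero =>
    intro q hq S _ _
    rw [Nat.cast_zero]
    exact zero_le
  | succ k ih =>
    intro q hq S hk hS
    have hne : S.Nonempty := by
      rw [← Finset.card_pos, hk]; omega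
    obtain ⟨β, hβ, hmin⟩ := S.exists_min_image (fun β => ‖monN u β‖) hne
    have hqg : q < ‖monN u β‖ := (hS β hβ).2
    have h1 := ih ‖monN u β‖ (norm_nonneg _) (S.erase β)
      (by rw [Finset.card_erase_of_mem hβ, hk]; rfl)
      (fun γ hγ => ⟨(hS γ (Finset.mem_of_mem_erase hγ)).1,
        lt_of_le_of_ne (hmin γ (Finset.mem_of_mem_erase hγ)) fun he =>
          Finset.ne_of_mem_erase hγ (S5_injN hu he).symm⟩)
    have hle : S4_part C X q hq ≤ S4_part C X ‖monN u β‖ (norm_nonneg _) :=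
      fun x hx => le_trans hx hqg.le
    rw [S4_length_quot _ _ hle, Nat.cast_succ, add_comm]
    refine add_le_add ?_ h1
    refine S5_one_le _ ?_
    intro htop
    have hmem : (⟨⟨monN u β, (hS β hβ).1⟩, le_refl ‖monN u β‖⟩ :
        S4_part C X ‖monN u β‖ (norm_nonneg _)) ∈ (⊤ : Submodule C _) := Submodule.mem_top
    rw [← htop] at hmem
    exact absurd (show ‖monN u β‖ ≤ q from hmem) (not_le.2 hqg)

end

theorem lenq_lower (C : Type) {L : Type} [CommRing C] [IsLocalRing C] [NormedField L]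
    [IsUltrametricDist L] [Algebra C L] [Bdd C L] (hdom : Dom (algebraMap C L)) {r : ℕ}
    (u : Fin r → L) (hu : Indep u) {n : ℕ} (b : Fin n → L) (c : ℝ)
    (hb : ∀ l : Fin n → L, (∀ i, l i ∈ Algebra.adjoin C (Set.range u)) →
      ∀ i, ‖l i‖ ≤ Real.exp c * ‖∑ j, l j * b j‖)
    (X : Submodule C L)
    (hX : ∀ l : Fin n → L, (∀ i, l i ∈ Algebra.adjoin C (Set.range u)) → ∑ j, l j * b j ∈ X)
    (N : ℝ) : ((n * Hc (wt u) (N - c) : ℕ) : ℕ∞) ≤ lenq C X N := by
  classical
  by_cases hfin : Finite {β : Fin r → ℕ // ∑ i, (β i : ℝ) * wt u i < N - c}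
  swap
  · have : Hc (wt u) (N - c) = 0 := by
      rw [Hc]
      exact Nat.card_eq_zero.2 (Or.inr (not_finite_iff_infinite.1 hfin))
    rw [this, mul_zero, Nat.cast_zero]
    exact zero_le
  set Λ : Submodule C L := Subalgebra.toSubmodule (Algebra.adjoin C (Set.range u)) with hΛ
  have hmon : ∀ β : Fin r → ℕ, monN u β ∈ Λ := by
    intro β
    rw [hΛ, Subalgebra.mem_toSubmodule]
    exact Subalgebra.prod_mem _ fun i _ =>
      Subalgebra.pow_mem _ (Algebra.subset_adjoin (Set.mem_range_self i)) _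
  have h1 : (Hc (wt u) (N - c) : ℕ∞) ≤
      Module.length C (Λ ⧸ S4_part C Λ (Real.exp (c - N)) (Real.exp_pos _).le) := by
    have hset : Set.Finite {β : Fin r → ℕ | ∑ i, (β i : ℝ) * wt u i < N - c} := hfin
    have hcard : hset.toFinset.card = Hc (wt u) (N - c) := by
      rw [Hc, ← Nat.card_eq_card_finite_toFinset]
      rfl
    refine S5_chain C u hu Λ _ _ _ hset.toFinset hcard fun β hβ => ⟨hmon β, ?_⟩
    rw [S5_norm_monN hu.ne, Real.exp_lt_exp]
    have : ∑ i, (β i : ℝ) * wt u i < N - c := by simpa using hβ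
    linarith
  let m : (Fin n → Λ) →ₗ[C] X :=
    { toFun := fun l => ⟨∑ j, (l j : L) * b j, hX _ fun i => (l i).2⟩
      map_add' := fun x y => by
        apply Subtype.ext
        show ∑ j, ((x j : L) + (y j : L)) * b j = ∑ j, (x j : L) * b j + ∑ j, (y j : L) * b j
        rw [← Finset.sum_add_distrib]
        exact Finset.sum_congr rfl fun j _ => add_mul _ _ _
      map_smul' := fun a x => by
        apply Subtype.ext
        show ∑ j, (a • (x j : L)) * b j = a • ∑ j, (x j : L) * b j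
        rw [Finset.smul_sum]
        exact Finset.sum_congr rfl fun j _ => smul_mul_assoc _ _ _ }
  set P := S4_part C Λ (Real.exp (c - N)) (Real.exp_pos _).le with hP
  set Q := S4_part C X (Real.exp (-N)) (Real.exp_pos _).le with hQ
  have h2 : Module.length C ((Fin n → Λ) ⧸ Q.comap m) ≤ Module.length C (X ⧸ Q) :=
    Module.length_le_of_injective _ (S4_mapQ_injective (Q.comap m) Q m rfl)
  let ψ : (Fin n → Λ) →ₗ[C] (Fin n → Λ ⧸ P) := LinearMap.pi fun i => P.mkQ.comp (LinearMap.proj i)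
  have hψ : Q.comap m ≤ LinearMap.ker ψ := by
    intro l hl
    rw [LinearMap.mem_ker]
    funext i
    show (Submodule.Quotient.mk (l i) : Λ ⧸ P) = 0
    rw [Submodule.Quotient.mk_eq_zero, hP, S4_mem_part]
    have h3 : ‖∑ j, (l j : L) * b j‖ ≤ Real.exp (-N) := hl
    refine (hb (fun j => (l j : L)) (fun j => (l j).2) i).trans ?_
    have h4 : Real.exp (c - N) = Real.exp c * Real.exp (-N) := by
      rw [← Real.exp_add]; congr 1
    rw [h4]
    exact mul_le_mul_of_nonneg_left h3 (Real.exp_pos _).le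
  have hsurj : Function.Surjective (Submodule.liftQ (Q.comap m) ψ hψ) := by
    intro y
    choose z hz using fun i => Submodule.Quotient.mk_surjective P (y i)
    refine ⟨Submodule.Quotient.mk z, ?_⟩
    funext i
    exact hz i
  have h3 := Module.length_le_of_surjective _ hsurj
  rw [Module.length_pi_of_fintype, Finset.sum_const, Finset.card_univ, Fintype.card_fin,
    nsmul_eq_mul] at h3
  refine le_trans ?_ (h3.trans h2)
  rw [Nat.cast_mul]
  exact mul_le_mul_right h1 _

end Pool.Agent.Lib.MP_3029eb_ag.Abh
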