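import Pool.Agent.Lib.MP_3029eb_ag.AbhDefs
import Pool.Agent.Lib.MP_3029eb_ag.SP

/-!
Module S6 of the Abhyankar part: polynomial bound for the lengths.
-/

open IsLocalRing

namespace Pool.Agent.Lib.MP_3029eb_ag.Abh

section

variable {C T : Type} [CommRing C] [CommRing T] [Algebra C T]

/-- one power of one element -/
theorem S6_step (J : Ideal T) (x : T) (n : ℕ) :
    Module.length C (T ⧸ (J ⊔ Ideal.span {x ^ n})) ≤
      (n : ℕ∞) * Module.length C (T ⧸ (J ⊔ Ideal.span {x})) := by
  induction n with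
  | zero =>
    have h : J ⊔ Ideal.span {x ^ 0} = ⊤ := by
      rw [pow_zero, Ideal.span_singleton_one, sup_top_eq]
    have : Subsingleton (T ⧸ (J ⊔ Ideal.span {x ^ 0})) := Ideal.Quotient.subsingleton_iff.2 h
    rw [Module.length_eq_zero]
    exact bot_le
  | succ n ih =>
    set I0 := J ⊔ Ideal.span {x} with hI0
    set I1 := J ⊔ Ideal.span {x ^ n} with hI1
    set I2 := J ⊔ Ideal.span {x ^ (n + 1)} with hI2
    have h21 : I2 ≤ I1 := by
      refine sup_le_sup_left ?_ J
      rw [Ideal.span_singleton_le_span_singleton]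
      exact pow_dvd_pow x (Nat.le_succ n)
    -- the projection
    let p : (T ⧸ I2) →ₗ[C] (T ⧸ I1) := (Submodule.factor h21).restrictScalars C
    have hp : Function.Surjective p := Submodule.factor_surjective h21
    -- multiplication by a power
    have hk : I0 ≤ LinearMap.ker ((I2.mkQ).comp (LinearMap.mulLeft T (x ^ n))) := by
      intro t ht
      rw [LinearMap.mem_ker, LinearMap.comp_apply, Submodule.mkQ_apply,
        Submodule.Quotient.mk_eq_zero, LinearMap.mulLeft_apply]
      rw [hI0] at ht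
      obtain ⟨j, hj, z, hz, rfl⟩ := Submodule.mem_sup.1 ht
      rw [Ideal.mem_span_singleton] at hz
      obtain ⟨w, rfl⟩ := hz
      rw [mul_add]
      refine add_mem (Ideal.mul_mem_left _ _ ?_) ?_
      · exact Submodule.mem_sup_left hj
      · refine Submodule.mem_sup_right ?_
        rw [Ideal.mem_span_singleton]
        exact ⟨w, by ring⟩
    let m : (T ⧸ I0) →ₗ[C] (T ⧸ I2) := (Submodule.liftQ I0 _ hk).restrictScalars C
    have hexact : LinearMap.ker p ≤ LinearMap.range m := by
      intro z hz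
      obtain ⟨t, rfl⟩ := Submodule.Quotient.mk_surjective _ z
      have h1 : (Submodule.Quotient.mk t : T ⧸ I1) = 0 := hz
      rw [Submodule.Quotient.mk_eq_zero, hI1] at h1
      obtain ⟨j, hj, z, hz, hjz⟩ := Submodule.mem_sup.1 h1
      rw [Ideal.mem_span_singleton] at hz
      obtain ⟨w, rfl⟩ := hz
      refine ⟨Submodule.Quotient.mk w, ?_⟩
      show (Submodule.Quotient.mk (x ^ n * w) : T ⧸ I2) = Submodule.Quotient.mk t
      rw [Submodule.Quotient.eq, ← hjz]
      have : x ^ n * w - (j + x ^ n * w) = -j := by ring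
      rw [this]
      exact neg_mem (Submodule.mem_sup_left hj)
    have hlen : Module.length C (T ⧸ I2) =
        Module.length C (LinearMap.ker p) + Module.length C (T ⧸ I1) :=
      Module.length_eq_add_of_exact (LinearMap.ker p).subtype p
        (Submodule.subtype_injective _) hp (LinearMap.exact_subtype_ker_map p)
    have hker : Module.length C (LinearMap.ker p) ≤ Module.length C (T ⧸ I0) :=
      (Module.length_le_of_injective (Submodule.inclusion hexact)
        (Submodule.inclusion_injective hexact)).trans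
        (Module.length_le_of_surjective m.rangeRestrict (LinearMap.surjective_rangeRestrict m))
    rw [hlen, Nat.cast_add, Nat.cast_one, add_mul, one_mul, add_comm]
    exact add_le_add ih hker

theorem S6_multi {ι : Type} [DecidableEq ι] (y : ι → T) (n : ℕ) (s : Finset ι) :
    ∀ J : Ideal T, Module.length C (T ⧸ (J ⊔ Ideal.span ((fun i => y i ^ n) '' (s : Set ι)))) ≤
      ((n ^ s.card : ℕ) : ℕ∞) *
        Module.length C (T ⧸ (J ⊔ Ideal.span (y '' (s : Set ι)))) := by
  induction s using Finset.induction_on with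
  | empty =>
    intro J
    have e : ((fun i => y i ^ n) '' ((∅ : Finset ι) : Set ι)) =
        y '' ((∅ : Finset ι) : Set ι) := by
      rw [Finset.coe_empty, Set.image_empty, Set.image_empty]
    rw [e, Finset.card_empty, pow_zero, Nat.cast_one, one_mul]
  | insert a s ha ih =>
    intro J
    have e1 : J ⊔ Ideal.span ((fun i => y i ^ n) '' ((insert a s : Finset ι) : Set ι)) =
        (J ⊔ Ideal.span ((fun i => y i ^ n) '' (s : Set ι))) ⊔ Ideal.span {y a ^ n} := by
      rw [Finset.coe_insert, Set.image_insert_eq, Ideal.span_insert, sup_comm (Ideal.span {_}),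
        sup_assoc]
    have e2 : (J ⊔ Ideal.span ((fun i => y i ^ n) '' (s : Set ι))) ⊔ Ideal.span {y a} =
        (J ⊔ Ideal.span {y a}) ⊔ Ideal.span ((fun i => y i ^ n) '' (s : Set ι)) := by
      rw [sup_assoc, sup_comm (Ideal.span _) (Ideal.span {y a}), ← sup_assoc]
    have e3 : (J ⊔ Ideal.span {y a}) ⊔ Ideal.span (y '' (s : Set ι)) =
        J ⊔ Ideal.span (y '' ((insert a s : Finset ι) : Set ι)) := by
      rw [Finset.coe_insert, Set.image_insert_eq, Ideal.span_insert, sup_assoc]
    have h1 := S6_step (C := C) (J ⊔ Ideal.span ((fun i => y i ^ n) '' (s : Set ι))) (y a) n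
    have h2 := ih (J ⊔ Ideal.span {y a})
    rw [e1]
    refine h1.trans ?_
    rw [e2]
    refine (mul_le_mul_right h2 _).trans ?_
    rw [e3, Finset.card_insert_of_notMem ha, ← mul_assoc, pow_succ', Nat.cast_mul]

/-- finite length over the coefficient ring -/
theorem S6_fl [IsLocalRing T]
    (hres : Function.Surjective ((residue T).comp (algebraMap C T)))
    {M : Type} [AddCommGroup M] [Module T M] (h : IsFiniteLength T M) :
    ∀ [Module C M] [IsScalarTower C T M], Module.length C M ≠ ⊤ := by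
  induction h with
  | of_subsingleton =>
    intro _ _
    rw [Module.length_eq_zero]
    exact ENat.zero_ne_top
  | @of_simple_quotient M _ _ N hsimple _ ih =>
    intro _ _
    have h1 := Module.length_eq_add_of_exact (R := C) (N.subtype.restrictScalars C)
      (N.mkQ.restrictScalars C) (Submodule.subtype_injective N) (Submodule.mkQ_surjective N)
      (fun x => by
        constructor
        · intro hx
          have hx' : (Submodule.Quotient.mk x : M ⧸ N) = 0 := hx
          rw [Submodule.Quotient.mk_eq_zero] at hx'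
          exact ⟨⟨x, hx'⟩, rfl⟩
        · rintro ⟨⟨z, hz⟩, rfl⟩
          show (Submodule.Quotient.mk z : M ⧸ N) = 0
          rwa [Submodule.Quotient.mk_eq_zero])
    rw [h1]
    have h2 : Module.length C (M ⧸ N) ≠ ⊤ := by
      obtain ⟨I, hI, ⟨e⟩⟩ := isSimpleModule_iff_quot_maximal.mp hsimple
      have hIm : I = maximalIdeal T := IsLocalRing.eq_maximalIdeal hI
      subst hIm
      rw [(e.restrictScalars C).length_eq]
      have hs : Function.Surjective (algebraMap C (T ⧸ maximalIdeal T)) := hres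
      rw [Module.length_eq_of_surjective (R := T ⧸ maximalIdeal T) hs]
      let _ : Field (T ⧸ maximalIdeal T) := Ideal.Quotient.field _
      have : IsSimpleModule (T ⧸ maximalIdeal T) (T ⧸ maximalIdeal T) := inferInstance
      rw [Module.length_eq_one]
      exact ENat.one_ne_top
    exact WithTop.add_ne_top.2 ⟨ih, h2⟩

theorem S6_finite [IsLocalRing T] [IsNoetherianRing T]
    (hres : Function.Surjective ((residue T).comp (algebraMap C T))) (I : Ideal T) (k : ℕ)
    (hI : maximalIdeal T ^ k ≤ I) : Module.length C (T ⧸ I) ≠ ⊤ := by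
  refine S6_fl hres ?_
  by_cases htop : I = ⊤
  · have : Subsingleton (T ⧸ I) := Ideal.Quotient.subsingleton_iff.2 htop
    exact IsFiniteLength.of_subsingleton
  have hnt : Nontrivial (T ⧸ I) := Ideal.Quotient.nontrivial_iff.2 htop
  have hsurj : Function.Surjective (Ideal.Quotient.mk I) := Ideal.Quotient.mk_surjective
  have hloc : IsLocalRing (T ⧸ I) := IsLocalRing.of_surjective' _ hsurj
  have hart : IsArtinianRing (T ⧸ I) := by
    rw [isArtinianRing_iff_isNilpotent_maximalIdeal]
    refine ⟨k, ?_⟩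
    have h1 : maximalIdeal (T ⧸ I) ≤ (maximalIdeal T).map (Ideal.Quotient.mk I) := by
      intro x hx
      obtain ⟨t, rfl⟩ := hsurj x
      refine Ideal.mem_map_of_mem _ ?_
      rw [IsLocalRing.mem_maximalIdeal, mem_nonunits_iff] at hx ⊢
      exact fun h => hx (h.map _)
    have h2 : maximalIdeal (T ⧸ I) ^ k ≤ ⊥ := by
      refine (Ideal.pow_right_mono h1 k).trans ?_
      rw [← Ideal.map_pow, Ideal.map_le_iff_le_comap]
      intro t ht
      rw [Ideal.mem_comap, Ideal.mem_bot, Ideal.Quotient.eq_zero_iff_mem]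
      exact hI ht
    exact le_bot_iff.1 h2
  rw [isFiniteLength_iff_isNoetherian_isArtinian]
  refine ⟨inferInstance, ?_⟩
  have : IsArtinian (T ⧸ I) (T ⧸ I) := hart
  exact isArtinian_of_surjective_algebraMap (R := T ⧸ I) (S := T) hsurj

end

theorem S6_bound {ι : Type} (f : ι → ℝ) (s : Finset ι) (hf : ∀ i ∈ s, f i < 1) :
    ∃ q : ℝ, 0 < q ∧ q < 1 ∧ ∀ i ∈ s, f i ≤ q := by
  classical
  induction s using Finset.induction_on with
  | empty => exact ⟨1 / 2, by norm_num, by norm_num, fun i hi => absurd hi (Finset.notMem_empty i)⟩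
  | insert a s ha ih =>
    obtain ⟨q, hq0, hq1, hq⟩ := ih (fun i hi => hf i (Finset.mem_insert_of_mem hi))
    refine ⟨max q (f a), lt_max_of_lt_left hq0, max_lt hq1 (hf a (Finset.mem_insert_self a s)), ?_⟩
    intro i hi
    rcases Finset.mem_insert.1 hi with rfl | hi
    · exact le_max_right _ _
    · exact (hq i hi).trans (le_max_left _ _)

theorem lenq_noetherian (T : Type) [CommRing T] [IsLocalRing T] [IsNoetherianRing T]
    {L : Type} [NormedField L] [IsUltrametricDist L] (φ : T →+* L) (hφ : Dom φ)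
    (C : Type) [CommRing C] [Algebra C L] [Bdd C L] (g : C →+* T)
    (hg : ∀ c, algebraMap C L c = φ (g c))
    (hres : Function.Surjective ((residue T).comp g)) (d : ℕ) (hd : ringKrullDim T ≤ d) :
    ∃ K0 : ℝ, ∀ X : Submodule C L, (∀ x ∈ X, ∃ t, φ t = x) → ∀ N : ℝ, 0 ≤ N →
      ∃ ℓ : ℕ, lenq C X N = ℓ ∧ (ℓ : ℝ) ≤ K0 * (N + 1) ^ d := by
  classical
  let _ : Algebra C T := g.toAlgebra
  -- the dimension
  obtain ⟨d', hd', hdd⟩ : ∃ d' : ℕ, ringKrullDim T = d' ∧ d' ≤ d := by
    have h0 : ringKrullDim T ≠ ⊥ := ringKrullDim_ne_bot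
    have h1 : ringKrullDim T ≠ ⊤ := by
      intro h
      rw [h] at hd
      have : ((d : WithBot ℕ∞)) = ⊤ := top_le_iff.1 hd
      exact absurd this (by exact WithBot.coe_injective.ne (ENat.natCast_ne_top d))
    obtain ⟨a, ha⟩ := WithBot.ne_bot_iff_exists.1 h0
    have ha' : a ≠ ⊤ := by
      rintro rfl
      exact h1 ha.symm
    obtain ⟨b, rfl⟩ := ENat.ne_top_iff_exists.1 ha'
    refine ⟨b, ha.symm, ?_⟩
    rw [← ha] at hd
    have h2 : ((b : ℕ∞)) ≤ (d : ℕ∞) := WithBot.coe_le_coe.1 hd
    exact_mod_cast h2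
  -- a system of parameters
  have hdq : ringKrullDim (T ⧸ (⊥ : Ideal T)) = d' := by
    rw [← hd']
    exact ringKrullDim_eq_of_ringEquiv (RingEquiv.quotientBot T)
  obtain ⟨y, hy, k, hk⟩ := exists_sop T ⊥ bot_ne_top d' hdq
  obtain ⟨q, hq0, hq1, hq⟩ := S6_bound (fun i => ‖φ (y i)‖) Finset.univ
    (fun i _ => ((hφ (y i)).2.1 (hy i)))
  set w := -Real.log q with hw
  have hwpos : 0 < w := by
    rw [hw, neg_pos]
    exact Real.log_neg hq0 hq1
  have hqw : q = Real.exp (-w) := by
    rw [hw, neg_neg, Real.exp_log hq0]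
  have hfin := S6_finite (C := C) (T := T) hres (⊥ ⊔ Ideal.span (Set.range y)) k hk
  obtain ⟨l0, hl0⟩ := ENat.ne_top_iff_exists.1 hfin
  refine ⟨(1 / w + 1) ^ d' * l0, ?_⟩
  intro X hX N hN
  set n := ⌈N / w⌉₊ with hn
  set I : Ideal T := ⊥ ⊔ Ideal.span ((fun i => y i ^ n) ''
    ((Finset.univ : Finset (Fin d')) : Set (Fin d'))) with hI
  set B : Submodule C L := ballLE C (Real.exp (-N)) (Real.exp_pos _).le with hB
  let φ' : T →ₗ[C] L :=
    { toFun := φ
      map_add' := map_add φ
      map_smul' := fun c t => by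
        rw [Algebra.smul_def, Algebra.smul_def, map_mul, RingHom.id_apply, hg]
        rfl }
  -- the ideal goes into the ball
  have hnN : N ≤ n * w := by
    have h1 : N / w ≤ n := Nat.le_ceil _
    rwa [div_le_iff₀ hwpos] at h1
  have hIB : ∀ t ∈ I, φ t ∈ B := by
    have hle : I ≤ (Ideal.span {a : T | ‖φ a‖ ≤ Real.exp (-N)} : Ideal T) := by
      rw [hI, bot_sup_eq, Ideal.span_le]
      rintro _ ⟨i, -, rfl⟩
      refine Ideal.subset_span ?_
      show ‖φ (y i ^ n)‖ ≤ Real.exp (-N)
      rw [map_pow, norm_pow]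
      have h1 : ‖φ (y i)‖ ≤ Real.exp (-w) := hqw ▸ hq i (Finset.mem_univ i)
      refine (pow_le_pow_left₀ (norm_nonneg _) h1 n).trans ?_
      rw [← Real.exp_nat_mul]
      refine Real.exp_le_exp.2 ?_
      rw [mul_neg]
      exact neg_le_neg hnN
    intro t ht
    refine Submodule.span_induction (p := fun t _ => φ t ∈ B) ?_ ?_ ?_ ?_ (hle ht)
    · intro a ha
      exact ha
    · rw [map_zero]; exact B.zero_mem
    · intro a b _ _ ha hb
      rw [map_add]; exact B.add_mem ha hb
    · intro a b _ hb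
      rw [smul_eq_mul, map_mul]
      show ‖φ a * φ b‖ ≤ Real.exp (-N)
      rw [norm_mul]
      exact (mul_le_of_le_one_left (norm_nonneg _) (hφ a).1).trans hb
  -- comparison
  let f1 : (X ⧸ B.comap X.subtype) →ₗ[C] (L ⧸ B) := Submodule.mapQ _ B X.subtype le_rfl
  have hf1 : Function.Injective f1 := by
    rw [← LinearMap.ker_eq_bot]
    rw [eq_bot_iff]
    intro z hz
    obtain ⟨x, rfl⟩ := Submodule.Quotient.mk_surjective _ z
    have h1 : (Submodule.Quotient.mk (x : L) : L ⧸ B) = 0 := hz
    rw [Submodule.Quotient.mk_eq_zero] at h1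
    rw [Submodule.mem_bot, Submodule.Quotient.mk_eq_zero]
    exact h1
  let f2 : (T ⧸ I) →ₗ[C] (L ⧸ B) :=
    (Submodule.liftQ (I.restrictScalars C) (B.mkQ.comp φ') (by
      intro t ht
      rw [LinearMap.mem_ker, LinearMap.comp_apply, Submodule.mkQ_apply,
        Submodule.Quotient.mk_eq_zero]
      exact hIB t ht)).comp (Submodule.Quotient.restrictScalarsEquiv C I).symm.toLinearMap
  have hf12 : LinearMap.range f1 ≤ LinearMap.range f2 := by
    rintro _ ⟨z, rfl⟩
    obtain ⟨x, rfl⟩ := Submodule.Quotient.mk_surjective _ z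
    obtain ⟨t, ht⟩ := hX x x.2
    refine ⟨Submodule.Quotient.mk t, ?_⟩
    show (Submodule.Quotient.mk (φ t) : L ⧸ B) = Submodule.Quotient.mk (x : L)
    rw [ht]
  have hlen : lenq C X N ≤ Module.length C (T ⧸ I) := by
    show Module.length C (X ⧸ B.comap X.subtype) ≤ _
    rw [(LinearEquiv.ofInjective f1 hf1).length_eq]
    exact (Module.length_le_of_injective (Submodule.inclusion hf12)
        (Submodule.inclusion_injective hf12)).trans
        (Module.length_le_of_surjective f2.rangeRestrict (LinearMap.surjective_rangeRestrict f2))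
  have hmulti := S6_multi (C := C) y n Finset.univ ⊥
  rw [Finset.coe_univ, Set.image_univ, Set.image_univ, ← hl0, Finset.card_univ,
    Fintype.card_fin, ← Nat.cast_mul] at hmulti
  have hlen' : lenq C X N ≤ ((n ^ d' * l0 : ℕ) : ℕ∞) := by
    refine hlen.trans ?_
    rw [hI, Finset.coe_univ, Set.image_univ]
    exact hmulti
  obtain ⟨ℓ, hℓ⟩ := ENat.ne_top_iff_exists.1 (ne_top_of_le_ne_top (ENat.natCast_ne_top _) hlen')
  refine ⟨ℓ, hℓ.symm, ?_⟩
  rw [← hℓ] at hlen'
  have hℓn : ℓ ≤ n ^ d' * l0 := by exact_mod_cast hlen'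
  have hℓr : (ℓ : ℝ) ≤ (n : ℝ) ^ d' * l0 := by exact_mod_cast hℓn
  refine hℓr.trans ?_
  have hn1 : (n : ℝ) ≤ (1 / w + 1) * (N + 1) := by
    have h1 : (n : ℝ) < N / w + 1 := Nat.ceil_lt_add_one (div_nonneg hN hwpos.le)
    have h2 : (0 : ℝ) < 1 / w := by positivity
    have h3 : (1 / w + 1) * (N + 1) = N / w + 1 + (1 / w + N) := by
      field_simp
      ring
    rw [h3]
    linarith
  have hb1 : (1 : ℝ) ≤ N + 1 := by linarith
  calc (n : ℝ) ^ d' * l0 ≤ ((1 / w + 1) * (N + 1)) ^ d' * l0 := by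
        refine mul_le_mul_of_nonneg_right ?_ (Nat.cast_nonneg _)
        exact pow_le_pow_left₀ (Nat.cast_nonneg _) hn1 d'
    _ = (1 / w + 1) ^ d' * l0 * (N + 1) ^ d' := by
        rw [mul_pow]; ring
    _ ≤ (1 / w + 1) ^ d' * l0 * (N + 1) ^ d := by
        refine mul_le_mul_of_nonneg_left (pow_le_pow_right₀ hb1 hdd) ?_
        positivity

end Pool.Agent.Lib.MP_3029eb_ag.Abh
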