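import Pool.Agent.Lib.MP_3029eb_ag.AbhS1
import Pool.Agent.Lib.MP_3029eb_ag.AbhS2
import Pool.Agent.Lib.MP_3029eb_ag.AbhS5
import Pool.Agent.Lib.MP_3029eb_ag.AbhS6

/-!
Module A1 : the inequality of Abhyankar in rank one.
-/

open IsLocalRing

namespace Pool.Agent.Lib.MP_3029eb_ag.Abh

theorem krullDim_ge (T : Type) [CommRing T] [IsLocalRing T] [IsNoetherianRing T] {L : Type}
    [NormedField L] [IsUltrametricDist L] (φ : T →+* L) (hφ : Dom φ) {r : ℕ} (x : Fin r → T)
    (hx : Indep (fun i => φ (x i))) : (r : WithBot ℕ∞) ≤ ringKrullDim T := by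
  letI : Algebra T L := φ.toAlgebra
  have halg : ∀ c : T, algebraMap T L c = φ c := fun c => rfl
  haveI : Bdd T L := ⟨fun c => (hφ c).1⟩
  have hfin : ringKrullDim T ≠ ⊤ := (ringKrullDim_lt_top (R := T)).ne
  have hbot : ringKrullDim T ≠ ⊥ := ringKrullDim_ne_bot
  obtain ⟨d, hd⟩ : ∃ d : ℕ, ringKrullDim T = (d : WithBot ℕ∞) := by
    obtain ⟨e, he⟩ := WithBot.ne_bot_iff_exists.1 hbot
    have hetop : e ≠ ⊤ := by
      rintro rfl
      exact hfin he.symm
    obtain ⟨d, hd⟩ := ENat.ne_top_iff_exists.1 hetop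
    refine ⟨d, ?_⟩
    rw [← he, ← hd]
    rfl
  have hres : Function.Surjective ((residue T).comp (RingHom.id T)) := by
    rw [RingHom.comp_id]
    exact residue_surjective
  obtain ⟨K0, hK0⟩ := lenq_noetherian T φ hφ T (RingHom.id T) (fun c => rfl) hres d hd.le
  have hrange : ∀ y : L, y ∈ Algebra.adjoin T (Set.range (fun i => φ (x i))) →
      y ∈ LinearMap.range (Algebra.linearMap T L) := by
    intro y hy
    induction hy using Algebra.adjoin_induction with
    | mem z hz =>
        obtain ⟨i, rfl⟩ := hz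
        exact ⟨x i, rfl⟩
    | algebraMap c => exact ⟨c, rfl⟩
    | add a b _ _ ha hb => exact Submodule.add_mem _ ha hb
    | mul a b _ _ ha hb =>
        obtain ⟨s, rfl⟩ := ha
        obtain ⟨t, rfl⟩ := hb
        refine ⟨s * t, ?_⟩
        simp [Algebra.linearMap_apply]
  have hrd : r ≤ d := by
    refine Hc_dim (wt (fun i => φ (x i))) (fun i => hx.wt_pos i) K0 d (fun N hN => ?_)
    obtain ⟨l, hl1, hl2⟩ := hK0 (LinearMap.range (Algebra.linearMap T L))
      (fun y hy => by
        obtain ⟨t, rfl⟩ := hy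
        exact ⟨t, rfl⟩) N hN
    have h1 := lenq_lower T hφ (fun i => φ (x i)) hx (n := 1) (fun _ => (1 : L)) 0
      (fun l hl i => by
        have hi : i = 0 := Subsingleton.elim _ _
        subst hi
        simp) (LinearMap.range (Algebra.linearMap T L))
      (fun l hl => by
        have : ∑ j : Fin 1, l j * (1 : L) = l 0 := by simp
        rw [this]
        exact hrange _ (hl 0)) N
    rw [hl1] at h1
    have h2 : 1 * Hc (wt fun i => φ (x i)) (N - 0) ≤ l := by exact_mod_cast h1
    rw [one_mul, sub_zero] at h2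
    calc ((Hc (wt fun i => φ (x i)) N : ℕ) : ℝ) ≤ (l : ℝ) := by exact_mod_cast h2
      _ ≤ K0 * (N + 1) ^ d := hl2
  rw [hd]
  exact_mod_cast hrd

end Pool.Agent.Lib.MP_3029eb_ag.Abh
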