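import Pool.Agent.Lib.MP_3029eb_ag.AbhDefs
import Pool.Agent.Lib.MP_3029eb_ag.Comp1

/-!
Module AB-A2 : the dimension inequality for localized extensions by elements of `V`.
-/

open IsLocalRing

namespace Pool.Agent.Lib.MP_3029eb_ag.Abh

open Pool.Agent.Lib.MP_3029eb_ag

theorem A2_eval_mem {K : Type} [Field K] (A : Subring K) (t : K) (p : Polynomial A) :
    Polynomial.eval₂ A.subtype t p ∈ Subring.closure ((A : Set K) ∪ {t}) := by
  induction p using Polynomial.induction_on' with
  | add p q hp hq => rw [Polynomial.eval₂_add]; exact add_mem hp hq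
  | monomial n a =>
    rw [Polynomial.eval₂_monomial]
    refine mul_mem ?_ (pow_mem ?_ n)
    · exact Subring.subset_closure (Or.inl a.2)
    · exact Subring.subset_closure (Or.inr (Set.mem_singleton t))

theorem A2_exists_eval {K : Type} [Field K] (A : Subring K) (t : K) {z : K}
    (hz : z ∈ Subring.closure ((A : Set K) ∪ {t})) :
    ∃ p : Polynomial A, Polynomial.eval₂ A.subtype t p = z := by
  induction hz using Subring.closure_induction with
  | mem x hx =>
    rcases hx with hx | hx
    · exact ⟨Polynomial.C ⟨x, hx⟩, by rw [Polynomial.eval₂_C]; rfl⟩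
    · exact ⟨Polynomial.X, by rw [Polynomial.eval₂_X]; exact hx.symm⟩
  | zero => exact ⟨0, Polynomial.eval₂_zero _ _⟩
  | one => exact ⟨1, Polynomial.eval₂_one _ _⟩
  | add x y _ _ hx hy =>
    obtain ⟨p, hp⟩ := hx
    obtain ⟨q, hq⟩ := hy
    exact ⟨p + q, by rw [Polynomial.eval₂_add, hp, hq]⟩
  | neg x _ hx =>
    obtain ⟨p, hp⟩ := hx
    exact ⟨-p, by rw [Polynomial.eval₂_neg, hp]⟩
  | mul x y _ _ hx hy =>
    obtain ⟨p, hp⟩ := hx
    obtain ⟨q, hq⟩ := hy
    exact ⟨p * q, by rw [Polynomial.eval₂_mul, hp, hq]⟩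

theorem A2_closure_le {K : Type} [Field K] (V : ValuationSubring K) {A : Subring K}
    (hA : A ≤ V.toSubring) {s : Set K} (hs : ∀ t ∈ s, t ∈ V) :
    Subring.closure ((A : Set K) ∪ s) ≤ V.toSubring := by
  rw [Subring.closure_le]
  rintro z (hz | hz)
  · exact hA hz
  · exact hs z hz

/-- The centre of `V` in the polynomial ring. -/
noncomputable def A2_cen {K : Type} [Field K] (V : ValuationSubring K) (A : Subring K)
    (hA : A ≤ V.toSubring) (t : K) (ht : t ∈ V) : Ideal (Polynomial A) :=
  (maximalIdeal V).comap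
    (Polynomial.eval₂RingHom (Subring.inclusion hA : A →+* V) (⟨t, ht⟩ : V))

theorem A2_mem_cen {K : Type} [Field K] (V : ValuationSubring K) (A : Subring K)
    (hA : A ≤ V.toSubring) (t : K) (ht : t ∈ V) (p : Polynomial A) :
    p ∈ A2_cen V A hA t ht ↔ V.valuation (Polynomial.eval₂ A.subtype t p) < 1 := by
  rw [A2_cen, Ideal.mem_comap, V.valuation_lt_one_iff]
  have : ((Polynomial.eval₂RingHom (Subring.inclusion hA : A →+* V) (⟨t, ht⟩ : V)) p : K) =
      Polynomial.eval₂ A.subtype t p := by
    rw [Polynomial.coe_eval₂RingHom]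
    exact Polynomial.hom_eval₂ p (Subring.inclusion hA : A →+* V) V.subtype (⟨t, ht⟩ : V)
  rw [this]

instance A2_cen_prime {K : Type} [Field K] (V : ValuationSubring K) (A : Subring K)
    (hA : A ≤ V.toSubring) (t : K) (ht : t ∈ V) : (A2_cen V A hA t ht).IsPrime :=
  Ideal.comap_isPrime _ _

theorem A2_quot {R S : Type} [CommRing R] [IsDomain R] [CommRing S] (l : R →+* S)
    (hl : Function.Surjective l) {r : R} (hr0 : r ≠ 0) (hlr : l r = 0) :
    ringKrullDim S + 1 ≤ ringKrullDim R := by
  have hquot : ∀ x ∈ Ideal.span {r}, l x = 0 := by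
    intro x hx
    obtain ⟨c, rfl⟩ := Ideal.mem_span_singleton'.1 hx
    rw [map_mul, hlr, mul_zero]
  have h1 : ringKrullDim S ≤ ringKrullDim (R ⧸ Ideal.span {r}) :=
    ringKrullDim_le_of_surjective (Ideal.Quotient.lift (Ideal.span {r}) l hquot)
      (Ideal.Quotient.lift_surjective_of_surjective _ hquot hl)
  have h2 := ringKrullDim_quotient_succ_le_of_nonZeroDivisor
    (mem_nonZeroDivisors_of_ne_zero hr0)
  exact (add_le_add_left h1 1).trans h2

/-- the dimension of the localized extension is less than the height of the centre in the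
polynomial ring -/
theorem A2_key {K : Type} [Field K] (V : ValuationSubring K) (A : Subring K)
    (hA : A ≤ V.toSubring) (t : K) (ht : t ∈ V)
    (hfr : ∃ a ∈ A, ∃ b ∈ A, b ≠ 0 ∧ t * b = a) :
    ringKrullDim (locV V (Subring.closure ((A : Set K) ∪ {t}))) + 1 ≤
      (A2_cen V A hA t ht).height := by
  set P := A2_cen V A hA t ht with hPdef
  set B := Subring.closure ((A : Set K) ∪ {t}) with hB
  have hBV : B ≤ V.toSubring := A2_closure_le V hA (by rintro z rfl; exact ht)
  rw [← IsLocalization.AtPrime.ringKrullDim_eq_height P (Localization.AtPrime P)]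
  let ψ : Polynomial A →+* locV V B :=
    (Polynomial.eval₂RingHom A.subtype t).codRestrict (locV V B)
      (fun p => le_locV V B (A2_eval_mem A t p))
  have hψ : ∀ p, (ψ p : K) = Polynomial.eval₂ A.subtype t p := fun p => rfl
  have hunit : ∀ y : P.primeCompl, IsUnit (ψ y) := by
    intro y
    rw [isUnit_locV_iff V hBV, hψ]
    refine le_antisymm ((V.valuation_le_one_iff _).2 (hBV (A2_eval_mem A t y))) ?_
    rw [← not_lt]
    intro h
    exact y.2 ((A2_mem_cen V A hA t ht _).2 h)
  let l : Localization.AtPrime P →+* locV V B := IsLocalization.lift (M := P.primeCompl) hunit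
  have hl : Function.Surjective l := by
    rintro ⟨z, a, ha, b, hb, hb1, hab⟩
    obtain ⟨p, hp⟩ := A2_exists_eval A t ha
    obtain ⟨q, hq⟩ := A2_exists_eval A t hb
    have hqP : q ∈ P.primeCompl := by
      intro h
      have h1 := (A2_mem_cen V A hA t ht q).1 h
      rw [hq, hb1] at h1
      exact lt_irrefl _ h1
    refine ⟨IsLocalization.mk' (Localization.AtPrime P) p ⟨q, hqP⟩, ?_⟩
    rw [IsLocalization.lift_mk'_spec]
    apply Subtype.ext
    rw [Subring.coe_mul, hψ, hψ]
    show _ = Polynomial.eval₂ A.subtype t q * z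
    rw [hp, hq, ← hab, mul_comm]
  obtain ⟨a, ha, b, hb, hb0, hab⟩ := hfr
  let f : Polynomial A := Polynomial.C ⟨b, hb⟩ * Polynomial.X - Polynomial.C ⟨a, ha⟩
  have hf0 : f ≠ 0 := by
    intro h
    have h1 : f.coeff 1 = ⟨b, hb⟩ := by
      simp only [f, Polynomial.coeff_sub, Polynomial.coeff_C_mul, Polynomial.coeff_X_one,
        Polynomial.coeff_C_succ, mul_one, sub_zero]
    rw [h, Polynomial.coeff_zero] at h1
    exact hb0 (congrArg Subtype.val h1).symm
  have hψf : ψ f = 0 := by
    apply Subtype.ext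
    rw [hψ, Polynomial.eval₂_sub, Polynomial.eval₂_mul, Polynomial.eval₂_C, Polynomial.eval₂_X,
      Polynomial.eval₂_C]
    show b * t - a = 0
    rw [← hab]; ring
  set r : Localization.AtPrime P := algebraMap _ _ f with hr
  have hr0 : r ≠ 0 := by
    intro h
    apply hf0
    apply IsLocalization.injective (Localization.AtPrime P) P.primeCompl_le_nonZeroDivisors
    rw [map_zero]
    exact h
  have hlr : l r = 0 := by
    rw [hr]
    show IsLocalization.lift (M := P.primeCompl) hunit (algebraMap _ _ f) = 0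
    rw [IsLocalization.lift_eq, hψf]
  exact A2_quot l hl hr0 hlr

theorem A2_isUnit_iff {K : Type} [Field K] (V : ValuationSubring K) {A : Subring K}
    (hA : A ≤ V.toSubring) (hloc : locV V A = A) (a : A) :
    IsUnit a ↔ V.valuation (a : K) = 1 := by
  have : ∀ B : Subring K, locV V A = B → ∀ a : B, IsUnit a ↔ V.valuation (a : K) = 1 := by
    rintro B rfl a
    exact isUnit_locV_iff V hA a
  exact this A hloc a

theorem A2_isLocal {K : Type} [Field K] (V : ValuationSubring K) {A : Subring K}
    (hA : A ≤ V.toSubring) (hloc : locV V A = A) : IsLocalRing A := by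
  have : ∀ B : Subring K, locV V A = B → IsLocalRing B := by
    rintro B rfl
    exact isLocalRing_locV V hA
  exact this A hloc

theorem A2_mem_maximalIdeal {K : Type} [Field K] (V : ValuationSubring K) {A : Subring K}
    (hA : A ≤ V.toSubring) (hloc : locV V A = A) [IsLocalRing A] (a : A) :
    a ∈ maximalIdeal A ↔ V.valuation (a : K) < 1 := by
  rw [mem_maximalIdeal, mem_nonunits_iff, A2_isUnit_iff V hA hloc]
  have h1 : V.valuation (a : K) ≤ 1 := (V.valuation_le_one_iff _).2 (hA a.2)
  exact ⟨fun h => lt_of_le_of_ne h1 h, fun h => h.ne⟩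

theorem A2_height_le {K : Type} [Field K] (V : ValuationSubring K) (A : Subring K)
    [IsNoetherianRing A] (hA : A ≤ V.toSubring) (hloc : locV V A = A) (t : K) (ht : t ∈ V) :
    ((A2_cen V A hA t ht).height : WithBot ℕ∞) ≤ ringKrullDim A + 1 := by
  have : IsLocalRing A := A2_isLocal V hA hloc
  obtain ⟨M, hM, hPM⟩ := Ideal.exists_le_maximal (A2_cen V A hA t ht) Ideal.IsPrime.ne_top'
  have hlies : M.LiesOver (maximalIdeal A) := by
    constructor
    apply Ideal.IsMaximal.eq_of_le inferInstance Ideal.IsPrime.ne_top'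
    intro a ha
    rw [Ideal.under, Ideal.mem_comap]
    apply hPM
    rw [A2_mem_cen]
    show V.valuation (Polynomial.eval₂ A.subtype t (Polynomial.C a)) < 1
    rw [Polynomial.eval₂_C]
    exact (A2_mem_maximalIdeal V hA hloc a).1 ha
  have h1 : (A2_cen V A hA t ht).height ≤ (maximalIdeal A).height + 1 := by
    rw [← Polynomial.height_eq_height_add_one (maximalIdeal A) M]
    exact Ideal.height_mono hPM
  rw [← IsLocalRing.maximalIdeal_height_eq_ringKrullDim]
  exact_mod_cast h1

/-- one element -/
theorem A2_one {K : Type} [Field K] (V : ValuationSubring K) (A : Subring K)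
    [IsNoetherianRing A] (hA : A ≤ V.toSubring) (hloc : locV V A = A) (t : K) (ht : t ∈ V)
    (hfr : ∃ a ∈ A, ∃ b ∈ A, b ≠ 0 ∧ t * b = a) :
    ringKrullDim (locV V (Subring.closure ((A : Set K) ∪ {t}))) ≤ ringKrullDim A := by
  have h := (A2_key V A hA t ht hfr).trans (A2_height_le V A hA hloc t ht)
  exact ENat.WithBot.add_le_add_one_right_iff.1 h

/-- one element with a transcendental residue -/
theorem A2_one_tr {K : Type} [Field K] (V : ValuationSubring K) (A : Subring K)
    [IsNoetherianRing A] (hA : A ≤ V.toSubring) (hloc : locV V A = A) (t : K) (ht : t ∈ V)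
    (hfr : ∃ a ∈ A, ∃ b ∈ A, b ≠ 0 ∧ t * b = a)
    (htr : ∀ p : Polynomial A, V.valuation (Polynomial.eval₂ A.subtype t p) < 1 →
      ∀ n, V.valuation ((p.coeff n : A) : K) < 1) :
    ringKrullDim (locV V (Subring.closure ((A : Set K) ∪ {t}))) + 1 ≤ ringKrullDim A := by
  have : IsLocalRing A := A2_isLocal V hA hloc
  have hle : A2_cen V A hA t ht ≤ (maximalIdeal A).map Polynomial.C := by
    intro p hp
    rw [Ideal.mem_map_C_iff]
    intro n
    rw [A2_mem_maximalIdeal V hA hloc]
    exact htr p ((A2_mem_cen V A hA t ht p).1 hp) n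
  have h1 : (A2_cen V A hA t ht).height ≤ (maximalIdeal A).height := by
    rw [← Polynomial.height_map_C (maximalIdeal A)]
    exact Ideal.height_mono hle
  have h2 : ((A2_cen V A hA t ht).height : WithBot ℕ∞) ≤ (maximalIdeal A).height := by
    exact_mod_cast h1
  rw [IsLocalRing.maximalIdeal_height_eq_ringKrullDim] at h2
  exact (A2_key V A hA t ht hfr).trans h2

theorem A2_closure_closure {K : Type} [Field K] (A : Subring K) (s t : Set K) :
    Subring.closure (((Subring.closure ((A : Set K) ∪ s) : Subring K) : Set K) ∪ t) =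
      Subring.closure ((A : Set K) ∪ (s ∪ t)) := by
  apply le_antisymm
  · rw [Subring.closure_le]
    rintro z (hz | hz)
    · exact Subring.closure_mono (Set.union_subset_union_right _ Set.subset_union_left) hz
    · exact Subring.subset_closure (Or.inr (Or.inr hz))
  · rw [Subring.closure_le]
    rintro z (hz | hz | hz)
    · exact Subring.subset_closure (Or.inl (Subring.subset_closure (Or.inl hz)))
    · exact Subring.subset_closure (Or.inl (Subring.subset_closure (Or.inr hz)))
    · exact Subring.subset_closure (Or.inr hz)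

theorem A2_frac_mono {K : Type} [Field K] {A B : Subring K} (h : A ≤ B) {t : K}
    (hfr : ∃ a ∈ A, ∃ b ∈ A, b ≠ 0 ∧ t * b = a) : ∃ a ∈ B, ∃ b ∈ B, b ≠ 0 ∧ t * b = a := by
  obtain ⟨a, ha, b, hb, h1, h2⟩ := hfr
  exact ⟨a, h ha, b, h hb, h1, h2⟩

theorem krullDim_adjoin {K : Type} [Field K] (V : ValuationSubring K) (A : Subring K)
    [IsNoetherianRing A] (hA : A ≤ V.toSubring) (hloc : locV V A = A) (g : Finset K)
    (hg : ∀ t ∈ g, t ∈ V ∧ ∃ a ∈ A, ∃ b ∈ A, b ≠ 0 ∧ t * b = a) :
    ringKrullDim (locV V (Subring.closure ((A : Set K) ∪ (g : Set K)))) ≤ ringKrullDim A := by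
  classical
  induction g using Finset.induction_on with
  | empty =>
    rw [Finset.coe_empty, locV_closure_of_subset V A ∅ (Set.empty_subset _), hloc]
  | insert t g ht ih =>
    have ih' := ih (fun x hx => hg x (Finset.mem_insert_of_mem hx))
    refine le_trans ?_ ih'
    set B := Subring.closure ((A : Set K) ∪ (g : Set K)) with hB
    have hBV : B ≤ V.toSubring :=
      A2_closure_le V hA (fun x hx => (hg x (Finset.mem_insert_of_mem hx)).1)
    have hBn : IsNoetherianRing B := isNoetherianRing_closure g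
    have hBn' : IsNoetherianRing (locV V B) := isNoetherianRing_locV V
    have hAB : A ≤ locV V B := le_trans (fun a ha => Subring.subset_closure (Or.inl ha))
      (le_locV V B)
    have h1 := A2_one V (locV V B) (locV_le V hBV) (locV_locV V B) t
      (hg t (Finset.mem_insert_self _ _)).1
      (A2_frac_mono hAB (hg t (Finset.mem_insert_self _ _)).2)
    rw [locV_closure_locV le_rfl B {t}, hB, A2_closure_closure] at h1
    rw [Finset.coe_insert, Set.insert_eq, Set.union_comm {t} (g : Set K)]
    exact h1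

/-- a value of a polynomial with coefficients of positive value has positive value -/
theorem A2_eval₂_lt {K : Type} [Field K] (V : ValuationSubring K) {A : Subring K}
    {s : ℕ} (y : Fin s → K) (hy : ∀ i, y i ∈ V) (p : MvPolynomial (Fin s) A)
    (h : ∀ m, V.valuation ((MvPolynomial.coeff m p : A) : K) < 1) :
    V.valuation (MvPolynomial.eval₂ A.subtype y p) < 1 := by
  rw [MvPolynomial.eval₂_eq]
  apply Valuation.map_sum_lt _ one_ne_zero
  intro m _
  rw [map_mul]
  have h1 : V.valuation (∏ i ∈ m.support, y i ^ m i) ≤ 1 := by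
    rw [V.valuation_le_one_iff]
    exact prod_mem fun i _ => pow_mem (hy i) _
  calc V.valuation (A.subtype (MvPolynomial.coeff m p)) * V.valuation (∏ i ∈ m.support, y i ^ m i)
      ≤ V.valuation (A.subtype (MvPolynomial.coeff m p)) * 1 := by gcongr
    _ < 1 := by rw [mul_one]; exact h m

theorem A2_exists_mvEval {K : Type} [Field K] (A : Subring K) {s : ℕ} (y : Fin s → K) {z : K}
    (hz : z ∈ Subring.closure ((A : Set K) ∪ Set.range y)) :
    ∃ p : MvPolynomial (Fin s) A, MvPolynomial.eval₂ A.subtype y p = z := by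
  induction hz using Subring.closure_induction with
  | mem x hx =>
    rcases hx with hx | ⟨i, hi⟩
    · exact ⟨MvPolynomial.C ⟨x, hx⟩, by rw [MvPolynomial.eval₂_C]; rfl⟩
    · exact ⟨MvPolynomial.X i, by rw [MvPolynomial.eval₂_X]; exact hi⟩
  | zero => exact ⟨0, MvPolynomial.eval₂_zero _ _⟩
  | one => exact ⟨1, MvPolynomial.eval₂_one _ _⟩
  | add x y _ _ hx hy =>
    obtain ⟨p, hp⟩ := hx
    obtain ⟨q, hq⟩ := hy
    exact ⟨p + q, by rw [MvPolynomial.eval₂_add, hp, hq]⟩
  | neg x _ hx =>
    obtain ⟨p, hp⟩ := hx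
    exact ⟨-p, by rw [← MvPolynomial.coe_eval₂Hom, map_neg, MvPolynomial.coe_eval₂Hom, hp]⟩
  | mul x y _ _ hx hy =>
    obtain ⟨p, hp⟩ := hx
    obtain ⟨q, hq⟩ := hy
    exact ⟨p * q, by rw [MvPolynomial.eval₂_mul, hp, hq]⟩

theorem A2_eval_finSucc {K : Type} [Field K] (A : Subring K) {s : ℕ} (y : Fin (s + 1) → K)
    (q : Polynomial (MvPolynomial (Fin s) A)) :
    MvPolynomial.eval₂ A.subtype y ((MvPolynomial.finSuccEquiv A s).symm q) =
      Polynomial.eval₂ (MvPolynomial.eval₂Hom A.subtype (fun i => y i.succ)) (y 0) q := by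
  have h : ∀ p : MvPolynomial (Fin (s + 1)) A, MvPolynomial.eval₂ A.subtype y p =
      Polynomial.eval₂ (MvPolynomial.eval₂Hom A.subtype (fun i => y i.succ)) (y 0)
        (MvPolynomial.finSuccEquiv A s p) := by
    intro p
    induction p using MvPolynomial.induction_on with
    | C a =>
      rw [MvPolynomial.eval₂_C]
      have : MvPolynomial.finSuccEquiv A s (MvPolynomial.C a) =
          Polynomial.C (MvPolynomial.C a) := by
        rw [MvPolynomial.finSuccEquiv_apply, MvPolynomial.eval₂Hom_C, RingHom.comp_apply]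
      rw [this, Polynomial.eval₂_C, MvPolynomial.coe_eval₂Hom, MvPolynomial.eval₂_C]
    | add p q hp hq => rw [MvPolynomial.eval₂_add, map_add, Polynomial.eval₂_add, hp, hq]
    | mul_X p i hp =>
      rw [MvPolynomial.eval₂_mul, map_mul, Polynomial.eval₂_mul, hp, MvPolynomial.eval₂_X]
      congr 1
      refine Fin.cases ?_ (fun j => ?_) i
      · rw [MvPolynomial.finSuccEquiv_X_zero, Polynomial.eval₂_X]
      · rw [MvPolynomial.finSuccEquiv_X_succ, Polynomial.eval₂_C, MvPolynomial.coe_eval₂Hom,
          MvPolynomial.eval₂_X]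
  rw [h, AlgEquiv.apply_symm_apply]

theorem A2_resIndep_tail {K : Type} [Field K] {V : ValuationSubring K} {A : Subring K} {s : ℕ}
    {y : Fin (s + 1) → K} (hres : ResIndep V A y) : ResIndep V A (fun i => y (Fin.succ i)) := by
  intro p hp m
  have h1 : MvPolynomial.eval₂ A.subtype y (MvPolynomial.rename Fin.succ p) =
      MvPolynomial.eval₂ A.subtype (fun i => y (Fin.succ i)) p := by
    rw [MvPolynomial.eval₂_rename]
    rfl
  have h2 := hres (MvPolynomial.rename Fin.succ p) (by rw [h1]; exact hp)
    (m.mapDomain Fin.succ)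
  rwa [MvPolynomial.coeff_rename_mapDomain _ (Fin.succ_injective s)] at h2

theorem A2_transcendental {K : Type} [Field K] (V : ValuationSubring K) (A : Subring K)
    {s : ℕ} (y : Fin (s + 1) → K) (hy : ∀ i, y i ∈ V) (hres : ResIndep V A y) (B : Subring K)
    (hB : B = Subring.closure ((A : Set K) ∪ Set.range (fun i => y (Fin.succ i))))
    (p : Polynomial (locV V B))
    (hp : V.valuation (Polynomial.eval₂ (locV V B).subtype (y 0) p) < 1) (n : ℕ) :
    V.valuation ((p.coeff n : locV V B) : K) < 1 := by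
  classical
  have hden : ∀ k : ℕ, ∃ b ∈ B, V.valuation b = 1 ∧ ((p.coeff k : locV V B) : K) * b ∈ B := by
    intro k
    obtain ⟨a, ha, b, hb, hb1, hab⟩ := (p.coeff k).2
    exact ⟨b, hb, hb1, by rw [hab]; exact ha⟩
  choose b hbB hb1 hbm using hden
  have hd : ∃ d ∈ B, V.valuation d = 1 ∧ ∀ k ∈ p.support, ((p.coeff k : locV V B) : K) * d ∈ B := by
    refine ⟨∏ k ∈ p.support, b k, prod_mem fun k _ => hbB k, ?_, ?_⟩
    · rw [map_prod]
      exact Finset.prod_eq_one fun k _ => hb1 k
    · intro k hk
      rw [← Finset.mul_prod_erase _ _ hk, ← mul_assoc]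
      exact mul_mem (hbm k) (prod_mem fun j _ => hbB j)
  obtain ⟨d, hdB, hd1, hdm⟩ := hd
  have hQ : ∀ k : ℕ, ∃ Q : MvPolynomial (Fin s) A,
      k ∈ p.support → MvPolynomial.eval₂ A.subtype (fun i => y (Fin.succ i)) Q =
        ((p.coeff k : locV V B) : K) * d := by
    intro k
    by_cases hk : k ∈ p.support
    · obtain ⟨Q, hQ⟩ := A2_exists_mvEval A (fun i => y (Fin.succ i))
        (show ((p.coeff k : locV V B) : K) * d ∈ _ by rw [← hB]; exact hdm k hk)
      exact ⟨Q, fun _ => hQ⟩
    · exact ⟨0, fun h => absurd h hk⟩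
  choose Q hQ using hQ
  let q : Polynomial (MvPolynomial (Fin s) A) := ∑ k ∈ p.support, Polynomial.monomial k (Q k)
  have hq : Polynomial.eval₂ (MvPolynomial.eval₂Hom A.subtype (fun i => y i.succ)) (y 0) q =
      Polynomial.eval₂ (Subring.subtype _) (y 0) p * d := by
    rw [Polynomial.eval₂_eq_sum (p := p), Polynomial.sum, Finset.sum_mul,
      Polynomial.eval₂_finsetSum]
    apply Finset.sum_congr rfl
    intro k hk
    rw [Polynomial.eval₂_monomial, MvPolynomial.coe_eval₂Hom, hQ k hk]
    show ((p.coeff k : locV V B) : K) * d * y 0 ^ k = ((p.coeff k : locV V B) : K) * y 0 ^ k * d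
    ring
  have h1 := hres ((MvPolynomial.finSuccEquiv A s).symm q) (by
    rw [A2_eval_finSucc, hq, map_mul, hd1, mul_one]
    exact hp)
  by_cases hn : n ∈ p.support
  · have h2 : ∀ m : Fin s →₀ ℕ, V.valuation ((MvPolynomial.coeff m (Q n) : A) : K) < 1 := by
      intro m
      have h3 := h1 (m.cons n)
      rw [← MvPolynomial.finSuccEquiv_coeff_coeff, AlgEquiv.apply_symm_apply] at h3
      have h4 : q.coeff n = Q n := by
        simp only [q, Polynomial.finsetSum_coeff, Polynomial.coeff_monomial]
        rw [Finset.sum_ite_eq' p.support n Q, if_pos hn]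
      rwa [h4] at h3
    have h5 := A2_eval₂_lt V (fun i => y (Fin.succ i)) (fun i => hy _) (Q n) h2
    rw [hQ n hn, map_mul, hd1, mul_one] at h5
    exact h5
  · rw [Polynomial.notMem_support_iff.1 hn]
    show V.valuation (0 : K) < 1
    rw [map_zero]
    exact zero_lt_one

theorem krullDim_resIndep {K : Type} [Field K] (V : ValuationSubring K) (A : Subring K)
    [IsNoetherianRing A] (hA : A ≤ V.toSubring) (hloc : locV V A = A) {s : ℕ} (y : Fin s → K)
    (hy : ∀ i, y i ∈ V ∧ ∃ a ∈ A, ∃ b ∈ A, b ≠ 0 ∧ y i * b = a) (hres : ResIndep V A y) :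
    ringKrullDim (locV V (Subring.closure ((A : Set K) ∪ Set.range y))) + s ≤ ringKrullDim A := by
  classical
  induction s with
  | zero =>
    have h0 : Set.range y = ∅ := Set.range_eq_empty y
    rw [h0, locV_closure_of_subset V A ∅ (Set.empty_subset _), hloc, Nat.cast_zero, add_zero]
  | succ s ih =>
    have ih' := ih (fun i => y (Fin.succ i)) (fun i => hy _) (A2_resIndep_tail hres)
    set B := Subring.closure ((A : Set K) ∪ Set.range (fun i => y (Fin.succ i))) with hB
    have hBV : B ≤ V.toSubring := A2_closure_le V hA (by rintro _ ⟨i, rfl⟩; exact (hy _).1)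
    have hBn : IsNoetherianRing B := by
      have h1 : (((Finset.univ : Finset (Fin s)).image (fun i => y (Fin.succ i)) : Finset K) :
          Set K) = Set.range (fun i => y (Fin.succ i)) := by
        rw [Finset.coe_image, Finset.coe_univ, Set.image_univ]
      rw [hB, ← h1]
      exact isNoetherianRing_closure _
    have hBn' : IsNoetherianRing (locV V B) := isNoetherianRing_locV V
    have hAB : A ≤ locV V B := le_trans (fun a ha => Subring.subset_closure (Or.inl ha))
      (le_locV V B)
    have h1 := A2_one_tr V (locV V B) (locV_le V hBV) (locV_locV V B) (y 0) (hy 0).1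
      (A2_frac_mono hAB (hy 0).2)
      (fun p hp n => A2_transcendental V A y (fun i => (hy i).1) hres B hB p hp n)
    rw [locV_closure_locV le_rfl B {y 0}, hB, A2_closure_closure] at h1
    have h2 : Set.range (fun i => y (Fin.succ i)) ∪ {y 0} = Set.range y := by
      ext z
      constructor
      · rintro (⟨i, rfl⟩ | rfl)
        · exact ⟨_, rfl⟩
        · exact ⟨0, rfl⟩
      · rintro ⟨i, rfl⟩
        refine Fin.cases ?_ (fun j => ?_) i
        · exact Or.inr rfl
        · exact Or.inl ⟨j, rfl⟩
    rw [h2] at h1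
    rw [Nat.cast_succ, add_comm (s : WithBot ℕ∞) 1, ← add_assoc]
    exact (add_le_add_left h1 _).trans ih'

end Pool.Agent.Lib.MP_3029eb_ag.Abh
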