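import Pool.Agent.Lib.MP_3029eb_ag.AbhIndV
import Pool.Agent.Lib.MP_3029eb_ag.Comp1

/-!
Module AC-2: coarsenings.  `V1 = {w | ∃ n, w * b ^ n ∈ V}`, `V2 = {w | ∀ n, w ^ n * b ∈ V}`.
-/

open IsLocalRing

namespace Pool.Agent.Lib.MP_3029eb_ag.Abh
open Pool.Agent.Lib.MP_3029eb_ag

/-- `{w | ∃ n, w * b ^ n ∈ V}` -/
def C2_S1 {K : Type} [Field K] (V : ValuationSubring K) (b : K) (hb : b ∈ V) : Subring K where
  carrier := {w | ∃ n : ℕ, w * b ^ n ∈ V}
  mul_mem' := by
    rintro x y ⟨n, hn⟩ ⟨m, hm⟩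
    refine ⟨n + m, ?_⟩
    have : x * y * b ^ (n + m) = (x * b ^ n) * (y * b ^ m) := by ring
    rw [this]; exact mul_mem hn hm
  one_mem' := ⟨0, by simp [one_mem]⟩
  add_mem' := by
    rintro x y ⟨n, hn⟩ ⟨m, hm⟩
    refine ⟨n + m, ?_⟩
    have : (x + y) * b ^ (n + m) = (x * b ^ n) * b ^ m + (y * b ^ m) * b ^ n := by ring
    rw [this]; exact add_mem (mul_mem hn (pow_mem hb m)) (mul_mem hm (pow_mem hb n))
  zero_mem' := ⟨0, by simp [zero_mem]⟩
  neg_mem' := by
    rintro x ⟨n, hn⟩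
    exact ⟨n, by rw [neg_mul]; exact neg_mem hn⟩

theorem C2_le_one_of_sq {G : Type*} [LinearOrderedCommGroupWithZero G] {x : G}
    (h : x * x ≤ 1) : x ≤ 1 := by
  by_contra hc
  push Not at hc
  have : 1 < x * x := by
    calc (1 : G) < x := hc
      _ = x * 1 := (mul_one _).symm
      _ ≤ x * x := by gcongr
  exact absurd h (not_le.2 this)

/-- `{w | ∀ n, w ^ n * b ∈ V}` -/
def C2_S2 {K : Type} [Field K] (V : ValuationSubring K) (b : K) (hb : b ∈ V) : Subring K where
  carrier := {w | ∀ n : ℕ, w ^ n * b ∈ V}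
  mul_mem' := by
    intro x y hx hy n
    rw [← V.valuation_le_one_iff]
    apply C2_le_one_of_sq
    have h1 := (V.valuation_le_one_iff _).2 (hx (2 * n))
    have h2 := (V.valuation_le_one_iff _).2 (hy (2 * n))
    calc V.valuation ((x * y) ^ n * b) * V.valuation ((x * y) ^ n * b)
        = V.valuation (x ^ (2 * n) * b) * V.valuation (y ^ (2 * n) * b) := by
          rw [← map_mul, ← map_mul]; congr 1; ring
      _ ≤ 1 * 1 := mul_le_mul' h1 h2
      _ = 1 := one_mul 1
  one_mem' := fun n => by rw [one_pow, one_mul]; exact hb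
  add_mem' := by
    intro x y hx hy n
    rw [← V.valuation_le_one_iff, map_mul, map_pow]
    rcases le_total (V.valuation x) (V.valuation y) with h | h
    · have h1 : V.valuation (x + y) ≤ V.valuation y :=
        (V.valuation.map_add x y).trans (max_le h le_rfl)
      have h2 := (V.valuation_le_one_iff _).2 (hy n)
      rw [map_mul, map_pow] at h2
      exact le_trans (mul_le_mul' (pow_le_pow_left' h1 n) le_rfl) h2
    · have h1 : V.valuation (x + y) ≤ V.valuation x :=
        (V.valuation.map_add x y).trans (max_le le_rfl h)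
      have h2 := (V.valuation_le_one_iff _).2 (hx n)
      rw [map_mul, map_pow] at h2
      exact le_trans (mul_le_mul' (pow_le_pow_left' h1 n) le_rfl) h2
  zero_mem' := by
    intro n
    rcases Nat.eq_zero_or_pos n with h | h
    · subst h; rw [pow_zero, one_mul]; exact hb
    · rw [zero_pow h.ne', zero_mul]; exact zero_mem _
  neg_mem' := by
    intro x hx n
    rcases Nat.even_or_odd n with h | h
    · rw [h.neg_pow]; exact hx n
    · rw [h.neg_pow, neg_mul]; exact neg_mem (hx n)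

theorem exists_coarse {K : Type} [Field K] (V : ValuationSubring K) (b : K) (hb0 : b ≠ 0)
    (hb : V.valuation b < 1) :
    ∃ V1 V2 : ValuationSubring K, V ≤ V2 ∧ V2 ≤ V1 ∧ V1.valuation b = 1 ∧ V2.valuation b < 1 ∧
      (∀ w, w ∈ V1 ↔ ∃ n : ℕ, w * b ^ n ∈ V) ∧
      (V1 = ⊤ → ∀ a c : K, a ≠ 0 → V2.valuation c < 1 →
        ∃ n : ℕ, V2.valuation (c ^ n) ≤ V2.valuation a) := by
  have hbV : b ∈ V := (V.valuation_le_one_iff b).1 hb.le
  have hbi : b⁻¹ ∉ V := by
    intro h
    have : V.valuation b = 1 := (C1_val_one_iff V b).2 ⟨hbV, h, hb0⟩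
    exact hb.ne this
  have hle1 : V.toSubring ≤ C2_S1 V b hbV := by
    intro w hw
    exact ⟨0, by rw [pow_zero, mul_one]; exact hw⟩
  have hle2 : V.toSubring ≤ C2_S2 V b hbV := by
    intro w hw n
    exact mul_mem (pow_mem hw n) hbV
  let V1 : ValuationSubring K := V.ofLE (C2_S1 V b hbV) hle1
  let V2 : ValuationSubring K := V.ofLE (C2_S2 V b hbV) hle2
  have hm1 : ∀ w, w ∈ V1 ↔ ∃ n : ℕ, w * b ^ n ∈ V := fun w => Iff.rfl
  have hm2 : ∀ w, w ∈ V2 ↔ ∀ n : ℕ, w ^ n * b ∈ V := fun w => Iff.rfl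
  have hVV2 : V ≤ V2 := hle2
  -- monotonicity of the comparison of values
  have hcomp : ∀ x y : K, y ≠ 0 → V.valuation x ≤ V.valuation y →
      V2.valuation x ≤ V2.valuation y := by
    intro x y hy h
    have h1 : V.valuation (x / y) ≤ 1 := by
      rw [map_div₀]
      exact div_le_one_of_le₀ h zero_le
    have h2 : V2.valuation (x / y) ≤ 1 :=
      (V2.valuation_le_one_iff _).2 (hVV2 ((V.valuation_le_one_iff _).1 h1))
    calc V2.valuation x = V2.valuation (x / y) * V2.valuation y := by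
          rw [← map_mul, div_mul_cancel₀ _ hy]
      _ ≤ 1 * V2.valuation y := by gcongr
      _ = _ := one_mul _
  refine ⟨V1, V2, hVV2, ?_, ?_, ?_, hm1, ?_⟩
  · intro w hw
    have := (hm2 w).1 hw 1
    exact (hm1 w).2 ⟨1, by rwa [pow_one] at this ⊢⟩
  · rw [C1_val_one_iff]
    refine ⟨hle1 hbV, (hm1 _).2 ⟨1, ?_⟩, hb0⟩
    rw [pow_one, inv_mul_cancel₀ hb0]; exact one_mem V
  · refine lt_of_le_of_ne ((V2.valuation_le_one_iff b).2 (hVV2 hbV)) ?_
    intro h
    rw [C1_val_one_iff] at h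
    have h2 := (hm2 _).1 h.2.1 2
    apply hbi
    have : b⁻¹ ^ 2 * b = b⁻¹ := by field_simp
    rwa [this] at h2
  · intro htop a c ha hc
    by_cases hc0 : c = 0
    · refine ⟨1, ?_⟩
      rw [hc0, pow_one, map_zero]; exact zero_le
    have hci : c⁻¹ ∉ V2 := by
      intro h
      have hcV : c ∈ V2 := (V2.valuation_le_one_iff c).1 hc.le
      exact hc.ne ((C1_val_one_iff V2 c).2 ⟨hcV, h, hc0⟩)
    have h1 : ∃ n : ℕ, c⁻¹ ^ n * b ∉ V := by
      by_contra hcon
      push Not at hcon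
      exact hci ((hm2 _).2 hcon)
    obtain ⟨n, hn⟩ := h1
    have hn1 : V.valuation (c ^ n) ≤ V.valuation b := by
      rw [← V.valuation_le_one_iff, not_le, map_mul, map_pow, map_inv₀] at hn
      have hcv : V.valuation (c ^ n) ≠ 0 := by
        rw [Ne, map_eq_zero]; exact pow_ne_zero _ hc0
      calc V.valuation (c ^ n) = V.valuation (c ^ n) * 1 := (mul_one _).symm
        _ ≤ V.valuation (c ^ n) * ((V.valuation c)⁻¹ ^ n * V.valuation b) := by gcongr
        _ = V.valuation b := by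
          rw [← mul_assoc, inv_pow, ← map_pow, mul_inv_cancel₀ hcv, one_mul]
    have ha1 : a⁻¹ ∈ V1 := by rw [htop]; exact ValuationSubring.mem_top _
    obtain ⟨m, hm⟩ := (hm1 _).1 ha1
    have hm3 : V.valuation (b ^ m) ≤ V.valuation a := by
      rw [← V.valuation_le_one_iff, map_mul, map_inv₀] at hm
      have hav : V.valuation a ≠ 0 := by rw [Ne, map_eq_zero]; exact ha
      calc V.valuation (b ^ m) = V.valuation a * ((V.valuation a)⁻¹ * V.valuation (b ^ m)) := by
            rw [← mul_assoc, mul_inv_cancel₀ hav, one_mul]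
        _ ≤ V.valuation a * 1 := by gcongr
        _ = _ := mul_one _
    refine ⟨n * m, ?_⟩
    calc V2.valuation (c ^ (n * m)) = (V2.valuation (c ^ n)) ^ m := by
          rw [pow_mul, map_pow]
      _ ≤ (V2.valuation b) ^ m := pow_le_pow_left' (hcomp _ _ hb0 hn1) m
      _ = V2.valuation (b ^ m) := (map_pow _ _ _).symm
      _ ≤ V2.valuation a := hcomp _ _ ha hm3

end Pool.Agent.Lib.MP_3029eb_ag.Abh
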