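import Pool.Agent.Lib.MP_3029eb_ag.AbhIndV
import Pool.Agent.Lib.MP_3029eb_ag.Comp1

/-!
Module AC-3: splitting independent families along `V ≤ V1`.
-/

open IsLocalRing

namespace Pool.Agent.Lib.MP_3029eb_ag.Abh
open Pool.Agent.Lib.MP_3029eb_ag

theorem C3_mon_neg {K : Type} [Field K] {r : ℕ} (u : Fin r → K) (a : Fin r → ℤ) :
    mon u (-a) = (mon u a)⁻¹ := by
  simp only [mon, Pi.neg_apply, zpow_neg, Finset.prod_inv_distrib]

theorem C3_mon_ne_zero {K : Type} [Field K] {r : ℕ} (u : Fin r → K) (hu : ∀ i, u i ≠ 0)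
    (a : Fin r → ℤ) : mon u a ≠ 0 :=
  Finset.prod_ne_zero_iff.mpr fun i _ => zpow_ne_zero _ (hu i)

theorem C3_zpow_sum {K : Type} [Field K] {n : ℕ} {a : K} (ha : a ≠ 0) (f : Fin n → ℤ)
    (s : Finset (Fin n)) : a ^ (∑ k ∈ s, f k) = ∏ k ∈ s, a ^ f k := by
  classical
  induction s using Finset.induction_on with
  | empty => simp
  | insert j s hj ih => rw [Finset.sum_insert hj, Finset.prod_insert hj, zpow_add₀ ha, ih]

theorem C3_mon_sum {K : Type} [Field K] {r n : ℕ} (u : Fin r → K) (hu : ∀ i, u i ≠ 0)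
    (D : Fin n → Fin r → ℤ) (γ : Fin n → ℤ) :
    mon (fun k => mon u (D k)) γ = mon u (fun i => ∑ k, γ k * D k i) := by
  simp only [mon]
  have h1 : ∀ i, u i ^ (∑ k, γ k * D k i) = ∏ k, (u i ^ D k i) ^ γ k := by
    intro i
    rw [C3_zpow_sum (hu i)]
    refine Finset.prod_congr rfl fun k _ => ?_
    rw [mul_comm, zpow_mul]
  simp only [h1]
  rw [Finset.prod_comm]
  refine Finset.prod_congr rfl fun k _ => ?_
  rw [Finset.prod_zpow]

theorem C3_pow_ne_one {G : Type*} [LinearOrderedCommGroupWithZero G] {v : G} (hv : v ≠ 1)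
    {k : ℤ} (h : v ^ k = 1) : k = 0 := by
  have key : ∀ n : ℕ, v ^ n = 1 → n = 0 := by
    intro n hn
    by_contra h0
    obtain ⟨m, rfl⟩ := Nat.exists_eq_succ_of_ne_zero h0
    rcases lt_or_gt_of_ne hv with h1 | h1
    · have h2 : v ^ (m + 1) ≤ v := by
        rw [pow_succ]
        calc v ^ m * v ≤ 1 * v := by
              gcongr
              exact pow_le_one' h1.le m
          _ = v := one_mul v
      rw [Nat.succ_eq_add_one] at hn
      rw [hn] at h2
      exact absurd h1 (not_lt.2 h2)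
    · have h2 : v ≤ v ^ (m + 1) := by
        rw [pow_succ]
        calc v = 1 * v := (one_mul v).symm
          _ ≤ v ^ m * v := by
              gcongr
              exact one_le_pow_of_one_le' h1.le m
      rw [Nat.succ_eq_add_one] at hn
      rw [hn] at h2
      exact absurd h1 (not_lt.2 h2)
  rcases Int.natAbs_eq k with hk | hk
  · rw [hk, zpow_natCast] at h
    rw [hk, key _ h]; rfl
  · rw [hk, zpow_neg, zpow_natCast, inv_eq_one] at h
    rw [hk, key _ h]; rfl

theorem IndV_cons {K : Type} [Field K] {V V1 : ValuationSubring K} (h : V ≤ V1) {r1 : ℕ}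
    {x1 : Fin r1 → K} (hx1 : IndV V1 x1) {w : K} (hw1 : V1.valuation w = 1)
    (hw : V.valuation w ≠ 1) : IndV V (Fin.cons w x1 : Fin (r1 + 1) → K) := by
  have hw0 : w ≠ 0 := by
    rintro rfl
    rw [map_zero] at hw1
    exact zero_ne_one hw1
  refine ⟨fun i => ?_, fun δ hδ => ?_⟩
  · refine Fin.cases ?_ (fun j => ?_) i
    · exact hw0
    · exact hx1.ne j
  · have hm : mon (Fin.cons w x1 : Fin (r1 + 1) → K) δ = w ^ δ 0 * mon x1 (fun j => δ j.succ) := by
      simp only [mon, Fin.prod_univ_succ, Fin.cons_zero, Fin.cons_succ]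
    rw [hm] at hδ
    have h1 := C1_val_one_of_le h hδ
    rw [map_mul, map_zpow₀, hw1, one_zpow, one_mul] at h1
    have h2 := hx1.indep _ h1
    have h3 : mon x1 (fun j => δ j.succ) = 1 := by
      rw [h2]; simp [mon]
    rw [h3, mul_one, map_zpow₀] at hδ
    have h4 := C3_pow_ne_one hw hδ
    funext i
    refine Fin.cases ?_ (fun j => ?_) i
    · exact h4
    · exact congrFun h2 j

set_option linter.unusedVariables false in
theorem IndV_split {K : Type} [Field K] {V V1 : ValuationSubring K} (h : V ≤ V1) {r : ℕ}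
    {x : Fin r → K} (hx : IndV V x) :
    ∃ (r1 r2 : ℕ) (x1 : Fin r1 → K) (x2 : Fin r2 → K), r1 + r2 = r ∧ IndV V1 x1 ∧ IndV V x2 ∧
      (∀ i, x2 i ∈ V) ∧ ∀ i, V1.valuation (x2 i) = 1 := by
  classical
  let Q : Finset (Fin r) → Prop := fun I =>
    ∀ δ : Fin r → ℤ, (∀ i, i ∉ I → δ i = 0) → V1.valuation (mon x δ) = 1 → δ = 0
  have hQ0 : Q ∅ := fun δ h0 _ => funext fun i => h0 i (Finset.notMem_empty i)
  obtain ⟨I, hI, hmax⟩ := (Finset.univ.filter Q).exists_max_image Finset.card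
    ⟨∅, by simp [hQ0]⟩
  have hQI : Q I := (Finset.mem_filter.1 hI).2
  -- relations for the elements outside `I`
  have hrel : ∀ j, j ∉ I → ∃ δ : Fin r → ℤ, (∀ i, i ∉ I → i ≠ j → δ i = 0) ∧ δ j ≠ 0 ∧
      V1.valuation (mon x δ) = 1 ∧ mon x δ ∈ V := by
    intro j hj
    have hnQ : ¬ Q (insert j I) := by
      intro hq
      have := hmax (insert j I) (by simp [hq])
      rw [Finset.card_insert_of_notMem hj] at this
      omega
    simp only [Q] at hnQ
    push Not at hnQ
    obtain ⟨δ, hδ1, hδ2, hδ3⟩ := hnQ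
    have hδj : δ j ≠ 0 := by
      intro h0
      apply hδ3
      apply hQI δ _ hδ2
      intro i hi
      by_cases hij : i = j
      · rw [hij]; exact h0
      · exact hδ1 i (by simp [hij, hi])
    have hsup : ∀ i, i ∉ I → i ≠ j → δ i = 0 := fun i hi hij => hδ1 i (by simp [hij, hi])
    rcases V.mem_or_inv_mem (mon x δ) with hm | hm
    · exact ⟨δ, hsup, hδj, hδ2, hm⟩
    · refine ⟨-δ, fun i hi hij => by rw [Pi.neg_apply, hsup i hi hij, neg_zero],
        by simpa using hδj, ?_, ?_⟩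
      · rw [C3_mon_neg, map_inv₀, hδ2, inv_one]
      · rw [C3_mon_neg]; exact hm
  choose! D hD1 hD2 hD3 hD4 using hrel
  let e1 := I.equivFin
  let e2 := (Iᶜ).equivFin
  refine ⟨I.card, (Iᶜ).card, fun k => x (e1.symm k), fun k => mon x (D (e2.symm k)), ?_, ?_, ?_,
    ?_, ?_⟩
  · rw [Finset.card_add_card_compl, Fintype.card_fin]
  · refine ⟨fun k => hx.ne _, fun γ hγ => ?_⟩
    let δ : Fin r → ℤ := fun i => if hi : i ∈ I then γ (e1 ⟨i, hi⟩) else 0
    have hm : mon x δ = mon (fun k => x (e1.symm k)) γ := by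
      simp only [mon]
      have h1 : ∏ i, x i ^ δ i = ∏ i ∈ I, x i ^ δ i := by
        symm
        apply Finset.prod_subset (Finset.subset_univ _)
        intro i _ hi
        simp only [δ, dif_neg hi, zpow_zero]
      rw [h1, ← Finset.prod_coe_sort, ← e1.symm.prod_comp]
      refine Finset.prod_congr rfl fun k _ => ?_
      simp only [δ, dif_pos (e1.symm k).2, Subtype.coe_eta, Equiv.apply_symm_apply]
    have h2 : δ = 0 := by
      apply hQI δ
      · intro i hi
        simp only [δ, dif_neg hi]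
      · rw [hm]; exact hγ
    funext k
    have h3 := congrFun h2 (e1.symm k)
    simp only [δ, dif_pos (e1.symm k).2, Subtype.coe_eta, Equiv.apply_symm_apply] at h3
    exact h3
  · refine ⟨fun k => C3_mon_ne_zero x hx.ne _, fun γ hγ => ?_⟩
    rw [C3_mon_sum x hx.ne] at hγ
    have h2 := hx.indep _ hγ
    funext k0
    have h3 := congrFun h2 (e2.symm k0 : Fin r)
    simp only [Pi.zero_apply] at h3
    have hnot : ∀ k : Fin (Iᶜ).card, ((e2.symm k : Fin r)) ∉ I := fun k =>
      Finset.mem_compl.1 (e2.symm k).2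
    rw [Finset.sum_eq_single k0] at h3
    · rcases mul_eq_zero.1 h3 with h4 | h4
      · exact h4
      · exact absurd h4 (hD2 _ (hnot k0))
    · intro k _ hk
      rw [hD1 _ (hnot k) _ (hnot k0), mul_zero]
      intro heq
      apply hk
      have h5 : e2.symm k0 = e2.symm k := Subtype.ext heq
      exact (e2.symm.injective h5).symm
    · intro hk; exact absurd (Finset.mem_univ _) hk
  · intro k
    exact hD4 _ (Finset.mem_compl.1 (e2.symm k).2)
  · intro k
    exact hD3 _ (Finset.mem_compl.1 (e2.symm k).2)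

/-- residues of units of `V1` with independent values in `V` -/
theorem IndV_res {K : Type} [Field K] {V V1 : ValuationSubring K} (h : V ≤ V1) {r : ℕ}
    {x : Fin r → K} (hx : IndV V x) (hx1 : ∀ i, V1.valuation (x i) = 1)
    (hxV : ∀ i, x i ∈ V1) :
    IndV (resV V V1 h) (fun i => residue V1 ⟨x i, hxV i⟩) := by
  have hunit : ∀ z : K, V1.valuation z = 1 → ∀ hz : z ∈ V1, residue V1 ⟨z, hz⟩ ≠ 0 := by
    intro z hz1 hz h0
    rw [residue_eq_zero_iff] at h0
    have h2 := (V1.valuation_lt_one_iff ⟨z, hz⟩).1 h0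
    exact absurd hz1 h2.ne
  refine ⟨fun i => hunit _ (hx1 i) _, fun δ hδ => ?_⟩
  have hm1 : V1.valuation (mon x δ) = 1 := by
    simp only [mon, map_prod, map_zpow₀, hx1, one_zpow, Finset.prod_const_one]
  have hmV : mon x δ ∈ V1 := (V1.valuation_le_one_iff _).1 hm1.le
  have hmon : mon (fun i => residue V1 ⟨x i, hxV i⟩) δ = residue V1 ⟨mon x δ, hmV⟩ := by
    let U : Fin r → V1ˣ := fun i =>
      { val := ⟨x i, hxV i⟩
        inv := ⟨(x i)⁻¹, ((C1_val_one_iff V1 _).1 (hx1 i)).2.1⟩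
        val_inv := Subtype.ext (mul_inv_cancel₀ (hx.ne i))
        inv_val := Subtype.ext (inv_mul_cancel₀ (hx.ne i)) }
    have h1 : (⟨mon x δ, hmV⟩ : V1) = ((∏ i, U i ^ δ i : V1ˣ) : V1) := by
      apply Subtype.ext
      have h2 : ((((∏ i, U i ^ δ i : V1ˣ) : V1)) : K) =
          ((Units.map (V1.subtype : V1 →* K) (∏ i, U i ^ δ i) : Kˣ) : K) := rfl
      rw [h2, map_prod]
      simp only [map_zpow, Units.coe_prod, Units.val_zpow_eq_zpow_val, mon]
      rfl
    rw [h1]
    have h3 : residue V1 (((∏ i, U i ^ δ i : V1ˣ) : V1)) =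
        ((Units.map (residue V1 : V1 →* ResidueField V1) (∏ i, U i ^ δ i) :
          (ResidueField V1)ˣ) : ResidueField V1) := rfl
    rw [h3, map_prod]
    simp only [map_zpow, Units.coe_prod, Units.val_zpow_eq_zpow_val, mon]
    rfl
  rw [hmon] at hδ
  apply hx.indep
  have hm0 : mon x δ ≠ 0 := C3_mon_ne_zero x hx.ne δ
  rcases V.mem_or_inv_mem (mon x δ) with hm | hm
  · exact (C1_resV_val h ⟨mon x δ, hmV⟩ hm).1 hδ
  · have h1 : (⟨mon x δ, hmV⟩ : V1) * ⟨(mon x δ)⁻¹, h hm⟩ = 1 :=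
      Subtype.ext (mul_inv_cancel₀ hm0)
    have h2 : residue V1 ⟨mon x δ, hmV⟩ * residue V1 ⟨(mon x δ)⁻¹, h hm⟩ = 1 := by
      rw [← map_mul, h1, map_one]
    have h3 : (resV V V1 h).valuation (residue V1 ⟨(mon x δ)⁻¹, h hm⟩) = 1 := by
      have h4 := congrArg (resV V V1 h).valuation h2
      rwa [map_mul, hδ, one_mul, map_one] at h4
    have h5 := (C1_resV_val h ⟨(mon x δ)⁻¹, h hm⟩ hm).1 h3
    have h6 : V.valuation (mon x δ)⁻¹ = 1 := h5
    rw [map_inv₀, inv_eq_one] at h6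
    exact h6

end Pool.Agent.Lib.MP_3029eb_ag.Abh
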