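import Pool.Agent.Lib.MP_3029eb_ag.Comp2

/-!
Module C5 of the Abhyankar part (all ranks): restriction to the field of fractions.
-/

open IsLocalRing

namespace Pool.Agent.Lib.MP_3029eb_ag.Abh

theorem exists_restrict {K : Type} [Field K] (V : ValuationSubring K) (A : Subring K)
    [IsNoetherianRing A] (hA : A ≤ V.toSubring) (hloc : locV V A = A) :
    ∃ (K0 : Type) (_ : Field K0) (φ : K0 →+* K) (V0 : ValuationSubring K0) (A0 : Subring K0)
      (e : A ≃+* A0),
      (∀ z, z ∈ V0 ↔ φ z ∈ V) ∧ (∀ z, V0.valuation z = 1 ↔ V.valuation (φ z) = 1) ∧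
      (∀ a : A, φ (e a : K0) = (a : K)) ∧
      (∀ z : K0, ∃ a ∈ A0, ∃ b ∈ A0, b ≠ 0 ∧ z * b = a) ∧
      (∀ z : K, (∃ a ∈ A, ∃ b ∈ A, b ≠ 0 ∧ z * b = a) → ∃ z0, φ z0 = z) ∧
      A0 ≤ V0.toSubring ∧ locV V0 A0 = A0 ∧ (LUF V0 A0 → LUF V A) := by
  classical
  have hj : Function.Injective (A.subtype) := Subtype.val_injective
  set φ : FractionRing A →+* K := IsFractionRing.lift hj with hφ
  have hφj : ∀ r : A, φ (algebraMap A _ r) = (r : K) :=
    fun r => IsFractionRing.lift_algebraMap hj r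
  have hinj : Function.Injective (algebraMap A (FractionRing A)) :=
    IsFractionRing.injective A (FractionRing A)
  set A0 : Subring (FractionRing A) := (algebraMap A (FractionRing A)).range with hA0
  let e : A ≃+* A0 := RingEquiv.ofBijective (algebraMap A (FractionRing A)).rangeRestrict
    ⟨fun x y hxy => hinj (congrArg Subtype.val hxy), RingHom.rangeRestrict_surjective _⟩
  have hval : ∀ z, (V.comap φ).valuation z = 1 ↔ V.valuation (φ z) = 1 :=
    fun z => C2_comap_val_one V φ z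
  have hmap : A0.map φ = A := by
    ext z
    constructor
    · rintro ⟨_, ⟨r, rfl⟩, rfl⟩
      rw [hφj]
      exact r.2
    · intro hz
      exact ⟨algebraMap A _ ⟨z, hz⟩, ⟨⟨z, hz⟩, rfl⟩, hφj _⟩
  refine ⟨FractionRing A, inferInstance, φ, V.comap φ, A0, e, fun z => Iff.rfl, hval, ?_, ?_, ?_,
    ?_, ?_, ?_⟩
  · intro a
    exact hφj a
  · intro z
    obtain ⟨⟨a, b⟩, hab⟩ := IsLocalization.surj (nonZeroDivisors A) z
    refine ⟨algebraMap A _ a, ⟨a, rfl⟩, algebraMap A _ b, ⟨b, rfl⟩, ?_, hab⟩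
    intro h0
    exact nonZeroDivisors.ne_zero b.2 (hinj (by rw [h0, map_zero]))
  · rintro z ⟨a, ha, b, hb, hb0, hz⟩
    refine ⟨algebraMap A _ ⟨a, ha⟩ / algebraMap A _ ⟨b, hb⟩, ?_⟩
    rw [map_div₀, hφj, hφj, div_eq_iff hb0]
    exact hz.symm
  · rintro _ ⟨r, rfl⟩
    show φ (algebraMap A _ r) ∈ V
    rw [hφj]
    exact hA r.2
  · have h1 := C2_locV_map V φ A0
    rw [hmap, hloc] at h1
    have h2 : (locV (V.comap φ) A0).map φ = A0.map φ := by rw [← h1, hmap]
    refine le_antisymm ?_ (C2_le_locV _ _)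
    intro z hz
    have h3 : φ z ∈ A0.map φ := by
      rw [← h2]
      exact ⟨z, hz, rfl⟩
    obtain ⟨w, hw, hwz⟩ := h3
    rwa [← φ.injective hwz]
  · rintro ⟨s, hs, hreg⟩
    have h := LUF_of_fractionRing V A A.subtype hj ⟨s, fun z hz => (hs z hz).1, hreg⟩
    rwa [Subring.range_subtype] at h

end Pool.Agent.Lib.MP_3029eb_ag.Abh
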