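import Pool.Agent.Lib.MP_3029eb_ag.AbhC1
import Pool.Agent.Lib.MP_3029eb_ag.AbhC2
import Pool.Agent.Lib.MP_3029eb_ag.AbhC3
import Pool.Agent.Lib.MP_3029eb_ag.AbhC4
import Pool.Agent.Lib.MP_3029eb_ag.AbhC5
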