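import Pool.Agent.Lib.MP_3029eb_ag.AbhRank1
import Pool.Agent.Lib.MP_3029eb_ag.AbhMods2

open IsLocalRing

namespace Pool.Agent.Lib.MP_3029eb_ag.Abh

/-! ### rank one, in terms of absolute values -/

section

variable {K : Type} [Field K]

theorem le_dim_absval (V : ValuationSubring K) (v : AbsoluteValue K ℝ)
    (hna : ∀ a b, v (a + b) ≤ max (v a) (v b)) (hnt : ∃ x, x ≠ 0 ∧ v x < 1)
    (hV : ∀ z, z ∈ V ↔ v z ≤ 1) (A : Subring K) [IsNoetherianRing A] (hA : A ≤ V.toSubring)
    (hloc : locV V A = A) (hfrac : ∀ z : K, ∃ a ∈ A, ∃ b ∈ A, b ≠ 0 ∧ z * b = a)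
    {r : ℕ} (x : Fin r → K) (hx : IndV V x) : (r : WithBot ℕ∞) ≤ ringKrullDim A := by
  let iN : NormedField K := v.toNormedField
  have hnorm : ∀ z : K, ‖z‖ = v z := fun z => rfl
  let iNN : NontriviallyNormedField K :=
    { v.toNormedField with
      non_trivial := by
        obtain ⟨y, hy0, hy⟩ := hnt
        refine ⟨y⁻¹, ?_⟩
        have h1 : v y⁻¹ = (v y)⁻¹ := map_inv₀ v y
        show 1 < v y⁻¹
        rw [h1]
        exact (one_lt_inv₀ (v.pos hy0)).2 hy }
  have iU : IsUltrametricDist K := IsUltrametricDist.isUltrametricDist_of_forall_norm_add_le_max_norm hna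
  have hVb : V = ball K := by
    ext z
    rw [hV, mem_ball]
    exact Iff.rfl
  subst hVb
  exact le_dim_ball A hA hloc hfrac x hx

end

section

variable (Rb : Type) [CommRing Rb] [IsNoetherianRing Rb]
  (hRb : ∀ (B : Type) [CommRing B] [IsDomain B] [IsLocalRing B] [IsNoetherianRing B]
    (f : Rb →+* B), EFT f → GFR B)

include hRb in
theorem LUF_absval {K : Type} [Field K] (V : ValuationSubring K) (v : AbsoluteValue K ℝ)
    (hna : ∀ a b, v (a + b) ≤ max (v a) (v b)) (hnt : ∃ x, x ≠ 0 ∧ v x < 1)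
    (hV : ∀ z, z ∈ V ↔ v z ≤ 1) (A : Subring K) (hA : A ≤ V.toSubring)
    (hloc : locV V A = A) (f : Rb →+* A) (hf : EFT f)
    (hfrac : ∀ z : K, ∃ a ∈ A, ∃ b ∈ A, b ≠ 0 ∧ z * b = a)
    {r : ℕ} (x : Fin r → K) (hx : IndV V x) (hdim : ringKrullDim A ≤ r) : LUF V A := by
  let iN : NormedField K := v.toNormedField
  have hnorm : ∀ z : K, ‖z‖ = v z := fun z => rfl
  let iNN : NontriviallyNormedField K :=
    { v.toNormedField with
      non_trivial := by
        obtain ⟨y, hy0, hy⟩ := hnt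
        refine ⟨y⁻¹, ?_⟩
        have h1 : v y⁻¹ = (v y)⁻¹ := map_inv₀ v y
        show 1 < v y⁻¹
        rw [h1]
        exact (one_lt_inv₀ (v.pos hy0)).2 hy }
  have iU : IsUltrametricDist K := IsUltrametricDist.isUltrametricDist_of_forall_norm_add_le_max_norm hna
  have hVb : V = ball K := by
    ext z
    rw [hV, mem_ball]
    exact Iff.rfl
  subst hVb
  exact LUF_ball Rb hRb A hA hloc f hf hfrac x hx hdim

end

/-! ### elementary steps -/

theorem map_monF {K L : Type} [Field K] [Field L] (f : K →+* L) {r : ℕ} (x : Fin r → K)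
    (δ : Fin r → ℤ) : f (mon x δ) = mon (fun i => f (x i)) δ := by
  simp only [mon, map_prod, map_zpow₀]

section

variable {K : Type} [Field K]

theorem im_le_resV {V V1 : ValuationSubring K} (h : V ≤ V1) (A : Subring K)
    (hA : A ≤ V.toSubring) : im V1 A ≤ (resV V V1 h).toSubring := by
  rintro _ ⟨⟨u, hu⟩, hu', rfl⟩
  exact ⟨⟨u, hA hu'⟩, rfl⟩

theorem locV_im {V V1 : ValuationSubring K} (h : V ≤ V1) (A : Subring K)
    (hA : A ≤ V.toSubring) (hloc : locV V A = A) :
    locV (resV V V1 h) (im V1 A) = im V1 A := by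
  rw [← im_locV h A hA, hloc]

theorem isNoetherianRing_im {V1 : ValuationSubring K} (A : Subring K) [IsNoetherianRing A]
    (hA : A ≤ V1.toSubring) : IsNoetherianRing (im V1 A) :=
  isNoetherianRing_of_surjective _ _ (toIm V1 A hA) (toIm_surjective V1 A hA)

theorem closure_le_val (V : ValuationSubring K) (A : Subring K) (hA : A ≤ V.toSubring)
    (s : Set K) (hs : ∀ z ∈ s, z ∈ V) : Subring.closure ((A : Set K) ∪ s) ≤ V.toSubring := by
  rw [Subring.closure_le]
  rintro z (hz | hz)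
  · exact hA hz
  · exact hs z hz

/-- a coarsening different from the field has an element of `A` in its maximal ideal -/
theorem exists_mem_of_ne_top (V1 : ValuationSubring K) (hV1 : V1 ≠ ⊤) (A : Subring K)
    (hA : A ≤ V1.toSubring) (hfrac : ∀ z : K, ∃ a ∈ A, ∃ b ∈ A, b ≠ 0 ∧ z * b = a) :
    ∃ z ∈ A, z ≠ 0 ∧ V1.valuation z < 1 := by
  by_contra hcon
  push Not at hcon
  apply hV1
  rw [eq_top_iff]
  intro w _
  obtain ⟨a, ha, b, hb, hb0, hw⟩ := hfrac w
  have h1 : V1.valuation b = 1 :=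
    le_antisymm ((V1.valuation_le_one_iff b).2 (hA hb)) (hcon b hb hb0)
  have h2 := (valuation_eq_one_iff_inv V1 b).1 h1
  have h3 : w = a * b⁻¹ := by rw [← hw, mul_inv_cancel_right₀ hb0]
  rw [h3]
  exact V1.mul_mem _ _ (hA ha) h2.2.1

theorem IndV.eq_zero_of_top {V : ValuationSubring K} (hV : V = ⊤) {r : ℕ} {x : Fin r → K}
    (hx : IndV V x) : r = 0 := by
  by_contra hr
  have hne : ∀ z : K, z ≠ 0 → V.valuation z = 1 := by
    intro z hz
    rw [valuation_eq_one_iff_inv]
    refine ⟨?_, ?_, hz⟩ <;> rw [hV] <;> exact ValuationSubring.mem_top _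
  have h1 := hx.indep (fun _ => 1) (hne _ (Finset.prod_ne_zero_iff.2 fun i _ =>
    zpow_ne_zero _ (hx.ne i)))
  have h2 := congrFun h1 ⟨0, Nat.pos_of_ne_zero hr⟩
  exact one_ne_zero h2

open Classical in
/-- splitting along a coarsening, after adjoining finitely many elements -/
theorem split_step {V V1 : ValuationSubring K} (h : V ≤ V1) (A : Subring K)
    (hfrac : ∀ z : K, ∃ a ∈ A, ∃ b ∈ A, b ≠ 0 ∧ z * b = a) {r : ℕ} (x : Fin r → K)
    (hx : IndV V x) :
    ∃ (g : Finset K) (r1 r2 : ℕ) (x1 : Fin r1 → K) (y2 : Fin r2 → ResidueField V1),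
      r1 + r2 = r ∧ (∀ z ∈ g, z ∈ V ∧ ∃ a ∈ A, ∃ b ∈ A, b ≠ 0 ∧ z * b = a) ∧ IndV V1 x1 ∧
      IndV (resV V V1 h) y2 ∧
      ∀ i, y2 i ∈ im V1 (locV V (Subring.closure ((A : Set K) ∪ (g : Set K)))) := by
  obtain ⟨r1, r2, x1, x2, hr, hx1, hx2, hx2V, hx2V1⟩ := IndV_split h hx
  refine ⟨Finset.univ.image x2, r1, r2, x1, fun i => residue V1 ⟨x2 i, h (hx2V i)⟩, hr, ?_, hx1,
    IndV_res h hx2 hx2V1 (fun i => h (hx2V i)), ?_⟩
  · intro z hz
    obtain ⟨i, -, rfl⟩ := Finset.mem_image.1 hz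
    exact ⟨hx2V i, hfrac _⟩
  · intro i
    refine ⟨⟨x2 i, h (hx2V i)⟩, ?_, rfl⟩
    exact le_locV _ _ (Subring.subset_closure (Or.inr
      (Finset.mem_coe.2 (Finset.mem_image_of_mem _ (Finset.mem_univ i)))))

end

/-! ### the inequality of Abhyankar -/

/-- The statement of the inequality for rings of dimension at most `d`. -/
def IneqAt (d : ℕ) : Prop :=
  ∀ (K : Type) [Field K] (V : ValuationSubring K) (A : Subring K) [IsNoetherianRing A]
    (_ : A ≤ V.toSubring) (_ : locV V A = A) (r : ℕ) (x : Fin r → K) (_ : IndV V x)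
    (_ : ∀ i, ∃ a ∈ A, ∃ b ∈ A, b ≠ 0 ∧ x i * b = a) (_ : ringKrullDim A ≤ d),
    (r : WithBot ℕ∞) ≤ ringKrullDim A

theorem add_le_of_nat {a b c : WithBot ℕ∞} {m n : ℕ} (ha : (m : WithBot ℕ∞) ≤ a)
    (hb : (n : WithBot ℕ∞) ≤ b) (h : a + b ≤ c) : ((m + n : ℕ) : WithBot ℕ∞) ≤ c := by
  rw [Nat.cast_add]
  exact (add_le_add ha hb).trans h

theorem ineq_frac (d : ℕ) (ih : ∀ d' < d, IneqAt d') {K : Type} [Field K]
    (V : ValuationSubring K) (A : Subring K) [IsNoetherianRing A]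
    (hA : A ≤ V.toSubring) (hloc : locV V A = A)
    (hfrac : ∀ z : K, ∃ a ∈ A, ∃ b ∈ A, b ≠ 0 ∧ z * b = a) {r : ℕ} (x : Fin r → K)
    (hx : IndV V x) (hd : ringKrullDim A ≤ d) : (r : WithBot ℕ∞) ≤ ringKrullDim A := by
  classical
  by_cases h1 : 1 ≤ ringKrullDim A
  swap
  · obtain ⟨n, hn⟩ := exists_nat_dim V A hA hloc
    have h2 : n = 0 := by
      rw [hn] at h1
      have h3 : ¬ (1 ≤ n) := fun h => h1 (by exact_mod_cast h)
      omega
    subst h2
    have h3 := hx.eq_zero_of_top (eq_top_of_dim_zero V A hA hfrac (by rw [hn]; exact le_rfl))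
    subst h3
    rw [hn]
  obtain ⟨z, hzA, hz0, hz⟩ := (one_le_dim_iff V A hA hloc).1 h1
  obtain ⟨V1, V2, hVV2, hV21, hV1z, hV2z, hV1, harch⟩ := exists_coarse V z hz0 hz
  have hd1 : 1 ≤ d := by
    have := h1.trans hd
    exact_mod_cast this
  -- the common argument
  have key : ∀ (W : ValuationSubring K) (hVW : V ≤ W) (hW : W ≠ ⊤),
      (∀ (B : Subring K) [IsNoetherianRing B], B ≤ W.toSubring → locV W B = B →
        (∀ z : K, ∃ a ∈ B, ∃ b ∈ B, b ≠ 0 ∧ z * b = a) →
        ∀ (C : Subring (ResidueField W)), z ∈ B →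
          (W.valuation z = 1 → residue W ⟨z, hVW (hA hzA)⟩ ∈ C) →
          C ≤ (resV V W hVW).toSubring → locV (resV V W hVW) C = C →
          ringKrullDim B + ringKrullDim C ≤ d →
          ∀ (r1 : ℕ) (x1 : Fin r1 → K), IndV W x1 → (r1 : WithBot ℕ∞) ≤ ringKrullDim B) →
      (r : WithBot ℕ∞) ≤ ringKrullDim A := by
    intro W hVW hW hB
    obtain ⟨g, r1, r2, x1, y2, hr, hg, hx1, hy2, hy2m⟩ := split_step hVW A hfrac x hx
    have hcl : Subring.closure ((A : Set K) ∪ (g : Set K)) ≤ V.toSubring :=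
      closure_le_val V A hA _ fun t ht => (hg t ht).1
    have hdim := krullDim_adjoin V A hA hloc g hg
    have hA' : locV V (Subring.closure ((A : Set K) ∪ (g : Set K))) ≤ V.toSubring :=
      locV_le _ hcl
    have hloc' := locV_locV V (Subring.closure ((A : Set K) ∪ (g : Set K)))
    have hAA' : A ≤ locV V (Subring.closure ((A : Set K) ∪ (g : Set K))) :=
      fun a ha => le_locV _ _ (Subring.subset_closure (Or.inl ha))
    have n1 : IsNoetherianRing (Subring.closure ((A : Set K) ∪ (g : Set K))) :=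
      isNoetherianRing_closure g
    have n2 : IsNoetherianRing (locV V (Subring.closure ((A : Set K) ∪ (g : Set K)))) :=
      isNoetherianRing_locV _
    generalize locV V (Subring.closure ((A : Set K) ∪ (g : Set K))) = A' at *
    have hsp := dim_split hVW A' hA'
    have hA'W : A' ≤ W.toSubring := hA'.trans hVW
    have hBle : locV W A' ≤ W.toSubring := locV_le _ hA'W
    have hAB : A ≤ locV W A' := hAA'.trans (le_locV _ _)
    have hfracB : ∀ z : K, ∃ a ∈ locV W A', ∃ b ∈ locV W A', b ≠ 0 ∧ z * b = a := by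
      intro z
      obtain ⟨a, ha, b, hb, hb0, h⟩ := hfrac z
      exact ⟨a, hAB ha, b, hAB hb, hb0, h⟩
    have n3 : IsNoetherianRing (locV W A') := isNoetherianRing_locV _
    have n4 : IsNoetherianRing (im W A') := isNoetherianRing_im A' hA'W
    have hC1 := im_le_resV hVW A' hA'
    have hC2 := locV_im hVW A' hA' hloc'
    have htot : ringKrullDim (locV W A') + ringKrullDim (im W A') ≤ d :=
      hsp.trans (hdim.trans hd)
    have hB1 : 1 ≤ ringKrullDim (locV W A') := by
      rw [one_le_dim_iff W _ hBle (locV_locV _ _)]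
      exact exists_mem_of_ne_top W hW _ hBle hfracB
    have hr1 := hB (locV W A') hBle (locV_locV _ _) hfracB (im W A') (hAB hzA)
      (fun _ => ⟨⟨z, hVW (hA hzA)⟩, hAA' hzA, rfl⟩) hC1 hC2 htot r1 x1 hx1
    obtain ⟨m, hm⟩ := exists_nat_dim (resV V W hVW) (im W A') hC1 hC2
    have hmd : m < d := by
      rw [hm] at htot
      have h5 := (add_le_add_left hB1 (m : WithBot ℕ∞)).trans htot
      have h6 : ((1 + m : ℕ) : WithBot ℕ∞) ≤ (d : ℕ) := by
        push_cast
        exact h5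
      have h7 : 1 + m ≤ d := by exact_mod_cast h6
      omega
    have hr2 := ih m hmd (ResidueField W) (resV V W hVW) (im W A') hC1 hC2 r2 y2 hy2
      (fun i => ⟨y2 i, hy2m i, 1, one_mem _, one_ne_zero, mul_one _⟩) (by rw [hm])
    rw [← hr]
    exact (add_le_of_nat hr1 hr2 hsp).trans hdim
  by_cases hV1top : V1 = ⊤
  · have hV2top : V2 ≠ ⊤ := by
      intro h
      have h2 := (valuation_eq_one_iff_inv V2 z).2 ⟨by rw [h]; exact ValuationSubring.mem_top _,
        by rw [h]; exact ValuationSubring.mem_top _, hz0⟩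
      exact hV2z.ne h2
    obtain ⟨v, hna, hnt, hv⟩ := exists_absval V2 hV2top (harch hV1top)
    exact key V2 hVV2 hV2top fun B _ hB hBl hBf C _ _ _ _ _ r1 x1 hx1 =>
      le_dim_absval V2 v hna hnt hv B hB hBl hBf x1 hx1
  · refine key V1 (hVV2.trans hV21) hV1top fun B _ hB hBl hBf C hzB hzC hC1 hC2 htot r1 x1 hx1 => ?_
    obtain ⟨m, hm⟩ := exists_nat_dim V1 B hB hBl
    have hzC' := hzC hV1z
    have hC3 : 1 ≤ ringKrullDim C := by
      rw [one_le_dim_iff (resV V V1 (hVV2.trans hV21)) C hC1 hC2]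
      refine ⟨_, hzC', ?_, ?_⟩
      · rw [Ne, residue_eq_zero_iff, ValuationSubring.valuation_lt_one_iff]
        exact fun h => h.ne hV1z
      · refine lt_of_le_of_ne ((ValuationSubring.valuation_le_one_iff _ _).2 (hC1 hzC')) ?_
        rw [Ne, C1_resV_val (hVV2.trans hV21) ⟨z, _⟩ (hA hzA)]
        exact hz.ne
    have hmd : m < d := by
      rw [hm] at htot
      have h5 := (add_le_add_right hC3 (m : WithBot ℕ∞)).trans htot
      have h6 : ((m + 1 : ℕ) : WithBot ℕ∞) ≤ (d : ℕ) := by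
        push_cast
        exact h5
      have h7 : m + 1 ≤ d := by exact_mod_cast h6
      omega
    exact ih m hmd K V1 B hB hBl r1 x1 hx1 (fun i => hBf _) (by rw [hm])

/-- **The inequality of Abhyankar** (rational rank at most the dimension). -/
theorem ineqAt (d : ℕ) : IneqAt d := by
  induction d using Nat.strong_induction_on with
  | _ d ih =>
    intro K _ V A _ hA hloc r x hx hxA hd
    obtain ⟨K0, _, φ, V0, A0, e, hV0, hV0u, he, hfrac, hsurj, hA0, hloc0, -⟩ :=
      exists_restrict V A hA hloc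
    have hx0 := fun i => hsurj (x i) (hxA i)
    choose x0 hx0 using hx0
    have n0 : IsNoetherianRing A0 := isNoetherianRing_of_ringEquiv A e
    have hdim0 : ringKrullDim A0 = ringKrullDim A := (ringKrullDim_eq_of_ringEquiv e).symm
    have hx0' : IndV V0 x0 := by
      refine ⟨fun i h => hx.ne i (by rw [← hx0, h, map_zero]), fun δ hδ => hx.indep δ ?_⟩
      rw [hV0u, map_monF] at hδ
      simpa only [hx0] using hδ
    rw [← hdim0] at hd ⊢
    exact ineq_frac d ih V0 A0 hA0 hloc0 hfrac x0 hx0' hd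

theorem ineq {K : Type} [Field K] (V : ValuationSubring K) (A : Subring K) [IsNoetherianRing A]
    (hA : A ≤ V.toSubring) (hloc : locV V A = A) {r : ℕ} (x : Fin r → K) (hx : IndV V x)
    (hxA : ∀ i, ∃ a ∈ A, ∃ b ∈ A, b ≠ 0 ∧ x i * b = a) :
    (r : WithBot ℕ∞) ≤ ringKrullDim A := by
  obtain ⟨n, hn⟩ := exists_nat_dim V A hA hloc
  exact ineqAt n K V A hA hloc r x hx hxA (by rw [hn])

/-! ### local uniformization -/

section

variable (Rb : Type) [CommRing Rb] [IsNoetherianRing Rb]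

/-- the statement of local uniformization for rational rank `r` -/
def LUFAt (r : ℕ) : Prop :=
  ∀ (K : Type) [Field K] (V : ValuationSubring K) (A : Subring K)
    (_ : A ≤ V.toSubring) (_ : locV V A = A) (f : Rb →+* A) (_ : EFT f) (x : Fin r → K)
    (_ : IndV V x) (_ : ∀ i, ∃ a ∈ A, ∃ b ∈ A, b ≠ 0 ∧ x i * b = a)
    (_ : ringKrullDim A ≤ r), LUF V A

variable (hRb : ∀ (B : Type) [CommRing B] [IsDomain B] [IsLocalRing B] [IsNoetherianRing B]
    (f : Rb →+* B), EFT f → GFR B)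

include hRb in
theorem lufAt_frac (r : ℕ) (ih : ∀ r' < r, LUFAt Rb r') {K : Type} [Field K]
    (V : ValuationSubring K) (A : Subring K)
    (hA : A ≤ V.toSubring) (hloc : locV V A = A) (f : Rb →+* A) (hf : EFT f)
    (hfrac : ∀ z : K, ∃ a ∈ A, ∃ b ∈ A, b ≠ 0 ∧ z * b = a) (x : Fin r → K)
    (hx : IndV V x) (hdim : ringKrullDim A ≤ r) : LUF V A := by
  classical
  by_cases hVtop : V = ⊤
  · exact LUF_top' V hVtop A hA hloc
  by_cases harch : ∀ a b : K, a ≠ 0 → V.valuation b < 1 →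
      ∃ n : ℕ, V.valuation (b ^ n) ≤ V.valuation a
  · obtain ⟨v, hna, hnt, hv⟩ := exists_absval V hVtop harch
    exact LUF_absval Rb hRb V v hna hnt hv A hA hloc f hf hfrac x hx hdim
  push Not at harch
  obtain ⟨a, b, ha0, hb, hab⟩ := harch
  have hb0 : b ≠ 0 := by
    rintro rfl
    have := hab 1
    rw [pow_one, map_zero] at this
    exact not_lt_zero this
  obtain ⟨V1, V2, hVV2, hV21, hV1b, -, hV1, -⟩ := exists_coarse V b hb0 hb
  have hVV1 := hVV2.trans hV21
  have hV1top : V1 ≠ ⊤ := by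
    intro h
    obtain ⟨n, hn⟩ := (hV1 a⁻¹).1 (by rw [h]; exact ValuationSubring.mem_top _)
    have h1 := (V.valuation_le_one_iff _).2 hn
    rw [map_mul, map_inv₀] at h1
    have h2 : V.valuation a ≠ 0 := by simpa using ha0
    have h3 : V.valuation (b ^ n) ≤ V.valuation a := by
      calc V.valuation (b ^ n) = V.valuation a * ((V.valuation a)⁻¹ * V.valuation (b ^ n)) := by
            rw [← mul_assoc, mul_inv_cancel₀ h2, one_mul]
        _ ≤ V.valuation a * 1 := by gcongr
        _ = V.valuation a := mul_one _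
    exact absurd (hab n) (not_lt.2 h3)
  -- adjoin elements to split the independent family
  obtain ⟨g, r1, r2, x1, y2, hr, hg, hx1, hy2, hy2m⟩ := split_step hVV1 A hfrac x hx
  refine LUF_trans V A g hg ?_
  have nA : IsNoetherianRing A := hf.isNoetherianRing
  have hcl : Subring.closure ((A : Set K) ∪ (g : Set K)) ≤ V.toSubring :=
    closure_le_val V A hA _ fun t ht => (hg t ht).1
  have hdim' := (krullDim_adjoin V A hA hloc g hg).trans hdim
  have hA' : locV V (Subring.closure ((A : Set K) ∪ (g : Set K))) ≤ V.toSubring :=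
    locV_le _ hcl
  have hloc' := locV_locV V (Subring.closure ((A : Set K) ∪ (g : Set K)))
  have hAA' : A ≤ locV V (Subring.closure ((A : Set K) ∪ (g : Set K))) :=
    fun a ha => le_locV _ _ (Subring.subset_closure (Or.inl ha))
  have hf' : ∃ f' : Rb →+* locV V (Subring.closure ((A : Set K) ∪ (g : Set K))), EFT f' :=
    ⟨_, EFT_locV V A f hf g (Subring.inclusion hAA') (fun a => rfl)⟩
  generalize locV V (Subring.closure ((A : Set K) ∪ (g : Set K))) = A' at *
  obtain ⟨f', hf'⟩ := hf'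
  have nA' : IsNoetherianRing A' := hf'.isNoetherianRing
  have hfrac' : ∀ z : K, ∃ a ∈ A', ∃ b ∈ A', b ≠ 0 ∧ z * b = a := by
    intro z
    obtain ⟨a, ha, b, hb, hb0, h⟩ := hfrac z
    exact ⟨a, hAA' ha, b, hAA' hb, hb0, h⟩
  -- the facts used for all rings containing `A'`
  have facts : ∀ B : Subring K, A' ≤ B → B ≤ V.toSubring → IsNoetherianRing B →
      ((r1 : WithBot ℕ∞) ≤ ringKrullDim (locV V1 B) ∧
        (r2 : WithBot ℕ∞) ≤ ringKrullDim (im V1 (locV V B))) := by
    intro B hA'B hBV nB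
    have n1 : IsNoetherianRing (locV V1 B) := isNoetherianRing_locV _
    have n2 : IsNoetherianRing (locV V B) := isNoetherianRing_locV _
    have hBV1 : B ≤ V1.toSubring := hBV.trans hVV1
    have hLB : locV V B ≤ V.toSubring := locV_le _ hBV
    have n3 : IsNoetherianRing (im V1 (locV V B)) := isNoetherianRing_im _ (hLB.trans hVV1)
    refine ⟨ineq V1 _ (locV_le _ hBV1) (locV_locV _ _) x1 hx1 fun i => ?_,
      ineq (resV V V1 hVV1) _ (im_le_resV hVV1 _ hLB) (locV_im hVV1 _ hLB (locV_locV _ _)) y2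
        hy2 fun i => ⟨y2 i, ?_, 1, one_mem _, one_ne_zero, mul_one _⟩⟩
    · obtain ⟨a, ha, b, hb, hb0, h⟩ := hfrac' (x1 i)
      exact ⟨a, le_locV _ _ (hA'B ha), b, le_locV _ _ (hA'B hb), hb0, h⟩
    · obtain ⟨u, hu, hu'⟩ := hy2m i
      exact ⟨u, le_locV _ _ (hA'B hu), hu'⟩
  have hr1r : r1 < r := by
    have h1 := ineq V A' hA' hloc' _ (IndV_cons hVV1 hx1 hV1b hb.ne) (fun i => hfrac' _)
    have h2 := h1.trans hdim'
    have h3 : r1 + 1 ≤ r := by exact_mod_cast h2
    omega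
  have hr2r : r2 < r := by
    obtain ⟨h1, h2⟩ := facts A' le_rfl hA' nA'
    rw [hloc'] at h2
    have n1 : IsNoetherianRing (locV V1 A') := isNoetherianRing_locV _
    have h3 : 1 ≤ ringKrullDim (locV V1 A') := by
      have hle : locV V1 A' ≤ V1.toSubring := locV_le _ (hA'.trans hVV1)
      rw [one_le_dim_iff V1 _ hle (locV_locV _ _)]
      refine exists_mem_of_ne_top V1 hV1top _ hle fun z => ?_
      obtain ⟨a, ha, b, hb, hb0, h⟩ := hfrac' z
      exact ⟨a, le_locV _ _ ha, b, le_locV _ _ hb, hb0, h⟩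
    have h4 := (add_le_of_nat (m := 1) (by exact_mod_cast h3) h2
      (dim_split hVV1 A' hA')).trans hdim'
    have h5 : 1 + r2 ≤ r := by exact_mod_cast h4
    omega
  -- dimensions
  have dims : ∀ B : Subring K, A' ≤ B → B ≤ V.toSubring → locV V B = B →
      IsNoetherianRing B → ringKrullDim B ≤ r →
      ringKrullDim (locV V1 B) ≤ r1 ∧ ringKrullDim (im V1 B) ≤ r2 := by
    intro B hA'B hBV hBl nB hBd
    obtain ⟨h1, h2⟩ := facts B hA'B hBV nB
    rw [hBl] at h2
    have n1 : IsNoetherianRing (locV V1 B) := isNoetherianRing_locV _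
    have n3 : IsNoetherianRing (im V1 B) := isNoetherianRing_im _ (hBV.trans hVV1)
    obtain ⟨m1, hm1⟩ := exists_nat_dim V1 (locV V1 B) (locV_le _ (hBV.trans hVV1))
      (locV_locV _ _)
    obtain ⟨m2, hm2⟩ := exists_nat_dim (resV V V1 hVV1) (im V1 B) (im_le_resV hVV1 _ hBV)
      (locV_im hVV1 _ hBV hBl)
    have h3 := (dim_split hVV1 B hBV).trans hBd
    rw [hm1, hm2] at h3
    rw [hm1] at h1 ⊢
    rw [hm2] at h2 ⊢
    have h4 : m1 + m2 ≤ r := by exact_mod_cast h3
    have h5 : r1 ≤ m1 := by exact_mod_cast h1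
    have h6 : r2 ≤ m2 := by exact_mod_cast h2
    constructor
    · have : m1 ≤ r1 := by omega
      exact_mod_cast this
    · have : m2 ≤ r2 := by omega
      exact_mod_cast this
  -- first part
  have hA'V1 : A' ≤ V1.toSubring := hA'.trans hVV1
  obtain ⟨s, hs, hsreg⟩ := ih r1 hr1r K V1 (locV V1 A') (locV_le _ hA'V1) (locV_locV _ _)
    _ (EFT_locV' V1 A' f' hf' (Subring.inclusion (le_locV V1 A')) (fun a => rfl)) x1 hx1
    (fun i => by
      obtain ⟨a, ha, b, hb, hb0, h⟩ := hfrac' (x1 i)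
      exact ⟨a, le_locV _ _ ha, b, le_locV _ _ hb, hb0, h⟩)
    (dims A' le_rfl hA' hloc' nA' hdim').1
  rw [locV_closure_locV le_rfl] at hsreg
  obtain ⟨s', hs'V, hs'reg⟩ := exists_replace hVV1 A' s hs
  rw [← hs'reg] at hsreg
  have hcl1 : Subring.closure ((A' : Set K) ∪ (s' : Set K)) ≤ V.toSubring :=
    closure_le_val V A' hA' _ fun t ht => (hs'V t ht).1
  refine LUF_trans V A' s' hs'V ?_
  have hA1V : locV V (Subring.closure ((A' : Set K) ∪ (s' : Set K))) ≤ V.toSubring :=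
    locV_le V hcl1
  have hAA1 : A' ≤ locV V (Subring.closure ((A' : Set K) ∪ (s' : Set K))) :=
    fun a ha => le_locV V _ (Subring.subset_closure (Or.inl ha))
  have hf1 : EFT ((Subring.inclusion hAA1).comp f') :=
    EFT_locV V A' f' hf' s' (Subring.inclusion hAA1) (fun a => rfl)
  have hA1n := hf1.isNoetherianRing
  have hA1d := (krullDim_adjoin V A' hA' hloc' s' hs'V).trans hdim'
  have hA1l := locV_locV V (Subring.closure ((A' : Set K) ∪ (s' : Set K)))
  refine LUF_of_im hVV1 _ hA1V (by rw [locV_locV_le hVV1]; exact hsreg) ?_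
  refine ih r2 hr2r (ResidueField V1) (resV V V1 hVV1) _ (im_le_resV hVV1 _ hA1V)
    (locV_im hVV1 _ hA1V hA1l)
    ((toIm V1 _ (hA1V.trans hVV1)).comp ((Subring.inclusion hAA1).comp f'))
    (EFT_comp_surjective _ _ hf1 (toIm_surjective V1 _ _)) y2 hy2 (fun i => ?_)
    (dims _ hAA1 hA1V hA1l hA1n hA1d).2
  obtain ⟨u, hu, hu'⟩ := hy2m i
  exact ⟨y2 i, ⟨u, hAA1 hu, hu'⟩, 1, one_mem _, one_ne_zero, mul_one _⟩

include hRb in
/-- **Local uniformization at Abhyankar valuations of arbitrary rank.** -/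
theorem lufAt (r : ℕ) : LUFAt Rb r := by
  induction r using Nat.strong_induction_on with
  | _ r ih =>
    intro K _ V A hA hloc f hf x hx hxA hdim
    have nA : IsNoetherianRing A := hf.isNoetherianRing
    obtain ⟨K0, _, φ, V0, A0, e, hV0, hV0u, he, hfrac, hsurj, hA0, hloc0, hLUF⟩ :=
      exists_restrict V A hA hloc
    apply hLUF
    have hx0 := fun i => hsurj (x i) (hxA i)
    choose x0 hx0 using hx0
    have hdim0 : ringKrullDim A0 = ringKrullDim A := (ringKrullDim_eq_of_ringEquiv e).symm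
    have hx0' : IndV V0 x0 := by
      refine ⟨fun i h => hx.ne i (by rw [← hx0, h, map_zero]), fun δ hδ => hx.indep δ ?_⟩
      rw [hV0u, map_monF] at hδ
      simpa only [hx0] using hδ
    exact lufAt_frac Rb hRb r ih V0 A0 hA0 hloc0 ((e : A →+* A0).comp f)
      (EFT_comp_surjective _ _ hf e.surjective) hfrac x0 hx0' (by rw [hdim0]; exact hdim)

end

end Pool.Agent.Lib.MP_3029eb_ag.Abh
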