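import Pool.Agent.Lib.MP_3029eb_ag.CompDefs

/-!
Definitions for the Abhyankar part (part 3).
-/

open IsLocalRing

namespace Pool.Agent.Lib.MP_3029eb_ag.Abh

/-- The closed unit ball of an ultrametric field, as a valuation ring. -/
def ball (K : Type) [NormedField K] [IsUltrametricDist K] : ValuationSubring K where
  carrier := {z | ‖z‖ ≤ 1}
  mul_mem' := fun {a b} ha hb => by
    show ‖a * b‖ ≤ 1
    rw [norm_mul]
    exact mul_le_one₀ ha (norm_nonneg _) hb
  one_mem' := by
    show ‖(1 : K)‖ ≤ 1
    rw [norm_one]
  add_mem' := fun {a b} ha hb => by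
    show ‖a + b‖ ≤ 1
    exact (IsUltrametricDist.norm_add_le_max a b).trans (max_le ha hb)
  zero_mem' := by
    show ‖(0 : K)‖ ≤ 1
    rw [norm_zero]; exact zero_le_one
  neg_mem' := fun {a} ha => by
    show ‖-a‖ ≤ 1
    rw [norm_neg]; exact ha
  mem_or_inv_mem' := fun x => by
    rcases le_total ‖x‖ 1 with h | h
    · exact Or.inl h
    · right
      show ‖x⁻¹‖ ≤ 1
      rw [norm_inv]
      exact inv_le_one_of_one_le₀ h

theorem mem_ball {K : Type} [NormedField K] [IsUltrametricDist K] (z : K) :
    z ∈ ball K ↔ ‖z‖ ≤ 1 := Iff.rfl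

/-- `φ` dominates: values of norm at most one, and the maximal ideal is the set of elements with
value of norm less than one. -/
def Dom {A L : Type} [CommRing A] [IsLocalRing A] [NormedField L] (φ : A →+* L) : Prop :=
  ∀ a : A, ‖φ a‖ ≤ 1 ∧ (a ∈ maximalIdeal A ↔ ‖φ a‖ < 1)

/-- monomials with integral exponents -/
def mon {L : Type} [Field L] {r : ℕ} (u : Fin r → L) (δ : Fin r → ℤ) : L := ∏ i, u i ^ δ i

/-- monomials with natural exponents -/
def monN {L : Type} [CommMonoid L] {r : ℕ} (u : Fin r → L) (β : Fin r → ℕ) : L := ∏ i, u i ^ β i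

/-- Elements of norm less than one whose norms are multiplicatively independent. -/
structure Indep {L : Type} [NormedField L] {r : ℕ} (u : Fin r → L) : Prop where
  ne : ∀ i, u i ≠ 0
  lt : ∀ i, ‖u i‖ < 1
  indep : ∀ δ : Fin r → ℤ, ‖mon u δ‖ = 1 → δ = 0

/-- The logarithmic weights. -/
noncomputable def wt {L : Type} [NormedField L] {r : ℕ} (u : Fin r → L) (i : Fin r) : ℝ :=
  -Real.log ‖u i‖

/-- The number of monomials of weight less than `N`. -/
noncomputable def Hc {r : ℕ} (g : Fin r → ℝ) (N : ℝ) : ℕ :=
  Nat.card {β : Fin r → ℕ // ∑ i, (β i : ℝ) * g i < N}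

/-- `C → L` has image in the unit ball. -/
class Bdd (C L : Type) [CommRing C] [NormedField L] [Algebra C L] : Prop where
  le_one : ∀ c : C, ‖algebraMap C L c‖ ≤ 1

section

variable (C : Type) {L : Type} [CommRing C] [NormedField L] [IsUltrametricDist L] [Algebra C L]
  [Bdd C L]

/-- closed balls as submodules -/
def ballLE (q : ℝ) (hq : 0 ≤ q) : Submodule C L where
  carrier := {x | ‖x‖ ≤ q}
  add_mem' := fun {a b} ha hb => (IsUltrametricDist.norm_add_le_max a b).trans (max_le ha hb)
  zero_mem' := by
    show ‖(0 : L)‖ ≤ q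
    rw [norm_zero]; exact hq
  smul_mem' := fun c x hx => by
    show ‖c • x‖ ≤ q
    rw [Algebra.smul_def, norm_mul]
    exact (mul_le_of_le_one_left (norm_nonneg _) (Bdd.le_one c)).trans hx

/-- The length over `C` of a submodule of `L` modulo the elements of norm at most `exp (-N)`. -/
noncomputable def lenq (X : Submodule C L) (N : ℝ) : ℕ∞ :=
  Module.length C (X ⧸ (ballLE C (Real.exp (-N)) (Real.exp_pos _).le : Submodule C L).comap
    X.subtype)

end

/-- Coefficient data: `C` is a local ring dominated by `L`, and every element of the algebra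
generated by the `u i` is a finite sum of monomials in the `u i` with units of `C` as
coefficients. -/
structure Coef (C : Type) {L : Type} [CommRing C] [IsLocalRing C] [NormedField L] [Algebra C L]
    {r : ℕ} (u : Fin r → L) : Prop where
  dom : Dom (algebraMap C L)
  indep : Indep u
  expand : ∀ x ∈ Algebra.adjoin C (Set.range u), ∃ (B : Finset (Fin r → ℕ))
    (c : (Fin r → ℕ) → Cˣ), x = ∑ β ∈ B, algebraMap C L (c β) * monN u β

/-- The closure of the field generated by `C` and the `u i`. -/
noncomputable def clF (C : Type) {L : Type} [CommRing C] [NormedField L] [Algebra C L]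
    {r : ℕ} (u : Fin r → L) : Subfield L :=
  (Subfield.closure (((algebraMap C L).range : Set L) ∪ Set.range u)).topologicalClosure

/-- The residues of the `y j` are algebraically independent over the residue field of `A`:
a polynomial with coefficients in `A` whose value at `y` has positive value has all its
coefficients of positive value. -/
def ResIndep {K : Type} [Field K] (V : ValuationSubring K) (A : Subring K) {s : ℕ}
    (y : Fin s → K) : Prop :=
  ∀ p : MvPolynomial (Fin s) A, V.valuation (MvPolynomial.eval₂ A.subtype y p) < 1 →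
    ∀ m, V.valuation ((MvPolynomial.coeff m p : A) : K) < 1

end Pool.Agent.Lib.MP_3029eb_ag.Abh
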