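import Pool.Agent.Lib.MP_3029eb_ag.AbhDefs

/-!
Module T1 of the Abhyankar part: Perron transforms.
-/

open IsLocalRing

namespace Pool.Agent.Lib.MP_3029eb_ag.Abh

section

variable {K : Type} [NormedField K] {r : ℕ}

theorem T1_mon_natCast {L : Type} [Field L] (u : Fin r → L) (β : Fin r → ℕ) :
    mon u (fun i => (β i : ℤ)) = monN u β := by
  unfold mon monN
  exact Finset.prod_congr rfl (fun i _ => zpow_natCast _ _)

theorem T1_zpow_sum {L : Type} [Field L] {ι : Type} (s : Finset ι) (x : L) (hx : x ≠ 0)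
    (f : ι → ℤ) : ∏ i ∈ s, x ^ f i = x ^ ∑ i ∈ s, f i := by
  classical
  induction s using Finset.induction_on with
  | empty => simp
  | insert a s ha ih => rw [Finset.prod_insert ha, Finset.sum_insert ha, zpow_add₀ hx, ih]

theorem T1_mon_mon {L : Type} [Field L] (u u' : Fin r → L) (hu : ∀ i, u i ≠ 0)
    (B : Matrix (Fin r) (Fin r) ℤ) (h : ∀ i, u' i = mon u (B i)) (δ : Fin r → ℤ) :
    mon u' δ = mon u (Matrix.vecMul δ B) := by
  unfold mon
  calc ∏ i, u' i ^ δ i = ∏ i, ∏ k, u k ^ (δ i * B i k) := by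
        refine Finset.prod_congr rfl (fun i _ => ?_)
        rw [h i]
        unfold mon
        rw [← Finset.prod_zpow]
        refine Finset.prod_congr rfl (fun k _ => ?_)
        rw [← zpow_mul, mul_comm]
    _ = ∏ k, ∏ i, u k ^ (δ i * B i k) := Finset.prod_comm
    _ = ∏ k, u k ^ (Matrix.vecMul δ B k) := by
        refine Finset.prod_congr rfl (fun k _ => ?_)
        rw [T1_zpow_sum _ _ (hu k)]
        rfl

theorem T1_monN_monN {L : Type} [Field L] (u u' : Fin r → L)
    (A : Matrix (Fin r) (Fin r) ℕ) (h : ∀ i, u i = monN u' (A i)) (β : Fin r → ℕ) :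
    monN u β = monN u' (Matrix.vecMul β A) := by
  unfold monN
  calc ∏ i, u i ^ β i = ∏ i, ∏ k, u' k ^ (β i * A i k) := by
        refine Finset.prod_congr rfl (fun i _ => ?_)
        rw [h i]
        unfold monN
        rw [← Finset.prod_pow]
        refine Finset.prod_congr rfl (fun k _ => ?_)
        rw [← pow_mul, mul_comm]
    _ = ∏ k, ∏ i, u' k ^ (β i * A i k) := Finset.prod_comm
    _ = ∏ k, u' k ^ (Matrix.vecMul β A k) := by
        refine Finset.prod_congr rfl (fun k _ => ?_)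
        rw [Finset.prod_pow_eq_pow_sum]
        rfl

/-- `u'` refines `u`. -/
structure T1_Ref (u u' : Fin r → K) (A : Matrix (Fin r) (Fin r) ℕ)
    (B : Matrix (Fin r) (Fin r) ℤ) : Prop where
  ind : Indep u'
  h1 : ∀ i, u i = monN u' (A i)
  h2 : ∀ i, u' i = mon u (B i)
  h3 : (A.map (fun n : ℕ => (n : ℤ))) * B = 1

theorem T1_Ref.mon_eq {u u' : Fin r → K} {A : Matrix (Fin r) (Fin r) ℕ}
    {B : Matrix (Fin r) (Fin r) ℤ} (h : T1_Ref u u' A B) (δ : Fin r → ℤ) :
    mon u δ = mon u' (Matrix.vecMul δ (A.map (fun n : ℕ => (n : ℤ)))) := by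
  refine T1_mon_mon u' u h.ind.ne _ (fun i => ?_) δ
  rw [h.h1 i, ← T1_mon_natCast]
  rfl

theorem T1_Ref.refl {u : Fin r → K} (hu : Indep u) : T1_Ref u u 1 1 where
  ind := hu
  h1 := fun i => by
    unfold monN
    rw [Finset.prod_eq_single i]
    · simp
    · intro b _ hb
      simp [Matrix.one_apply_ne (Ne.symm hb)]
    · intro h; exact absurd (Finset.mem_univ i) h
  h2 := fun i => by
    unfold mon
    rw [Finset.prod_eq_single i]
    · simp
    · intro b _ hb
      simp [Matrix.one_apply_ne (Ne.symm hb)]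
    · intro h; exact absurd (Finset.mem_univ i) h
  h3 := by
    rw [mul_one]
    ext i j
    simp [Matrix.map_apply, Matrix.one_apply]

theorem T1_Ref.trans {u u' u'' : Fin r → K} {A A' : Matrix (Fin r) (Fin r) ℕ}
    {B B' : Matrix (Fin r) (Fin r) ℤ} (hu : ∀ i, u i ≠ 0) (h : T1_Ref u u' A B)
    (h' : T1_Ref u' u'' A' B') : T1_Ref u u'' (A * A') (B' * B) where
  ind := h'.ind
  h1 := fun i => by
    rw [h.h1 i, T1_monN_monN u' u'' A' h'.h1]
    rfl
  h2 := fun i => by
    rw [h'.h2 i, T1_mon_mon u u' hu B h.h2]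
    rfl
  h3 := by
    have e : (A * A').map (fun n : ℕ => (n : ℤ)) =
        A.map (fun n : ℕ => (n : ℤ)) * A'.map (fun n : ℕ => (n : ℤ)) := by
      ext i j
      simp [Matrix.mul_apply, Matrix.map_apply]
    rw [e, Matrix.mul_assoc, ← Matrix.mul_assoc _ B' B, h'.h3, Matrix.one_mul, h.h3]

/-- The elementary step. -/
theorem T1_step {u : Fin r → K} (hu : Indep u) {i j : Fin r} (hij : i ≠ j)
    (hlt : ‖u i‖ < ‖u j‖) (δ : Fin r → ℤ) :
    ∃ (u' : Fin r → K) (A : Matrix (Fin r) (Fin r) ℕ) (B : Matrix (Fin r) (Fin r) ℤ),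
      T1_Ref u u' A B ∧ Matrix.vecMul δ (A.map (fun n : ℕ => (n : ℤ))) =
        Function.update δ j (δ i + δ j) := by
  classical
  set A : Matrix (Fin r) (Fin r) ℕ := 1 + Matrix.single i j 1 with hA
  set B : Matrix (Fin r) (Fin r) ℤ := 1 - Matrix.single i j 1 with hB
  set u' : Fin r → K := fun k => mon u (B k) with hu'
  have hAmap : A.map (fun n : ℕ => (n : ℤ)) = 1 + Matrix.single i j 1 := by
    ext a b
    simp only [hA, Matrix.map_apply, Matrix.add_apply, Matrix.one_apply, Matrix.single_apply]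
    push_cast
    rfl
  have hAB : A.map (fun n : ℕ => (n : ℤ)) * B = 1 := by
    have hz : (Matrix.single i j 1 : Matrix (Fin r) (Fin r) ℤ) * Matrix.single i j 1 = 0 :=
      Matrix.single_mul_single_of_ne _ _ _ _ (Ne.symm hij) _
    rw [hAmap, hB, Matrix.add_mul, Matrix.mul_sub, Matrix.mul_sub, Matrix.one_mul, Matrix.one_mul,
      Matrix.mul_one, hz]
    abel
  have hne : ∀ k, u' k ≠ 0 := fun k => by
    simp only [hu', mon]
    exact Finset.prod_ne_zero_iff.2 (fun l _ => zpow_ne_zero _ (hu.ne l))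
  have hui' : u' i = u i * (u j)⁻¹ := by
    simp only [hu', mon]
    rw [← Finset.mul_prod_erase Finset.univ _ (Finset.mem_univ i),
      ← Finset.mul_prod_erase (Finset.univ.erase i) _
        (Finset.mem_erase.2 ⟨Ne.symm hij, Finset.mem_univ j⟩)]
    rw [Finset.prod_eq_one]
    · simp [hB, Matrix.single_apply, Matrix.one_apply, hij, Ne.symm hij]
    · intro k hk
      rw [Finset.mem_erase, Finset.mem_erase] at hk
      simp [hB, Matrix.single_apply, Matrix.one_apply, Ne.symm hk.1, Ne.symm hk.2.1]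
  have huk' : ∀ k, k ≠ i → u' k = u k := by
    intro k hk
    simp only [hu', mon]
    rw [Finset.prod_eq_single k]
    · simp [hB, Matrix.single_apply, Ne.symm hk]
    · intro l _ hl
      simp [hB, Matrix.single_apply, Matrix.one_apply, Ne.symm hl, Ne.symm hk]
    · intro h; exact absurd (Finset.mem_univ k) h
  have hBmon : ∀ η : Fin r → ℤ, mon u' η = mon u (Matrix.vecMul η B) :=
    fun η => T1_mon_mon u u' hu.ne B (fun _ => rfl) η
  have hBA : B * A.map (fun n : ℕ => (n : ℤ)) = 1 := mul_eq_one_comm.1 hAB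
  have hind : Indep u' := by
    refine ⟨hne, fun k => ?_, fun η hη => ?_⟩
    · by_cases hk : k = i
      · subst hk
        rw [hui', norm_mul, norm_inv, ← div_eq_mul_inv, div_lt_one (norm_pos_iff.2 (hu.ne j))]
        exact hlt
      · rw [huk' k hk]; exact hu.lt k
    · rw [hBmon] at hη
      have h0 := hu.indep _ hη
      have h1 : Matrix.vecMul (Matrix.vecMul η B) (A.map (fun n : ℕ => (n : ℤ))) = 0 := by
        rw [h0, Matrix.zero_vecMul]
      rwa [Matrix.vecMul_vecMul, hBA, Matrix.vecMul_one] at h1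
  refine ⟨u', A, B, ⟨hind, fun k => ?_, fun k => rfl, hAB⟩, ?_⟩
  · rw [← T1_mon_natCast]
    have := hBmon (fun l => ((A k l : ℕ) : ℤ))
    rw [this]
    have e : Matrix.vecMul (fun l => ((A k l : ℕ) : ℤ)) B = (1 : Matrix (Fin r) (Fin r) ℤ) k := by
      rw [← hAB]; rfl
    rw [e]
    unfold mon
    rw [Finset.prod_eq_single k]
    · simp
    · intro b _ hb
      simp [Matrix.one_apply_ne (Ne.symm hb)]
    · intro h; exact absurd (Finset.mem_univ k) h
  · rw [hAmap, Matrix.vecMul_add, Matrix.vecMul_one]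
    ext k
    have e : Matrix.vecMul δ (Matrix.single i j 1) k = if k = j then δ i else 0 := by
      show ∑ l, δ l * (Matrix.single i j 1 : Matrix (Fin r) (Fin r) ℤ) l k = _
      rw [Finset.sum_eq_single i]
      · by_cases hk : k = j
        · simp [hk]
        · simp [hk, Matrix.single_apply, Ne.symm hk]
      · intro b _ hb
        simp [Matrix.single_apply, Ne.symm hb]
      · intro h; exact absurd (Finset.mem_univ i) h
    rw [Pi.add_apply, e]
    by_cases hk : k = j
    · subst hk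
      simp [add_comm]
    · simp [hk]

theorem T1_nonneg {u : Fin r → K} (δ : Fin r → ℤ) (h : ∀ k, 0 ≤ δ k) :
    mon u δ = monN u (fun k => (δ k).toNat) := by
  rw [← T1_mon_natCast]
  have e : (fun k => (((δ k).toNat : ℕ) : ℤ)) = δ := by
    ext k
    exact Int.toNat_of_nonneg (h k)
  rw [e]

theorem T1_nonpos {u : Fin r → K} (hu : Indep u) (δ : Fin r → ℤ) (h : ∀ k, δ k ≤ 0) :
    1 ≤ ‖mon u δ‖ := by
  have e : ‖mon u δ‖ = (∏ k, ‖u k‖ ^ (-δ k).toNat)⁻¹ := by
    unfold mon
    rw [norm_prod, ← Finset.prod_inv_distrib]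
    refine Finset.prod_congr rfl (fun k _ => ?_)
    rw [norm_zpow, ← zpow_natCast, Int.toNat_of_nonneg (by have := h k; omega), zpow_neg, inv_inv]
  rw [e]
  refine (one_le_inv₀ ?_).2 ?_
  · exact Finset.prod_pos (fun k _ => pow_pos (norm_pos_iff.2 (hu.ne k)) _)
  · exact Finset.prod_le_one (fun k _ => pow_nonneg (norm_nonneg _) _)
      (fun k _ => pow_le_one₀ (norm_nonneg _) (hu.lt k).le)

theorem T1_norm_ne {u : Fin r → K} (hu : Indep u) {i j : Fin r} (hij : i ≠ j) :
    ‖u i‖ ≠ ‖u j‖ := by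
  classical
  intro h
  have h1 : ‖mon u (Pi.single i 1 - Pi.single j 1)‖ = 1 := by
    unfold mon
    rw [norm_prod, ← Finset.mul_prod_erase Finset.univ _ (Finset.mem_univ i),
      ← Finset.mul_prod_erase (Finset.univ.erase i) _
        (Finset.mem_erase.2 ⟨Ne.symm hij, Finset.mem_univ j⟩)]
    rw [Finset.prod_eq_one]
    · simp [hij, Ne.symm hij, h, mul_inv_cancel₀ (norm_ne_zero_iff.2 (hu.ne j))]
    · intro k hk
      rw [Finset.mem_erase, Finset.mem_erase] at hk
      simp [hk.1, hk.2.1]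
  have h2 := congrFun (hu.indep _ h1) i
  simp [hij] at h2

theorem T1_one (n : ℕ) : ∀ (u : Fin r → K) (_ : Indep u) (δ : Fin r → ℤ) (_ : ‖mon u δ‖ < 1)
    (a b : ℤ) (_ : ∀ k, a ≤ δ k ∧ δ k ≤ b)
    (_ : (b - a).toNat * (r + 1) +
      (Finset.univ.filter (fun k => δ k = a ∨ δ k = b)).card ≤ n),
    ∃ (u' : Fin r → K) (A : Matrix (Fin r) (Fin r) ℕ) (B : Matrix (Fin r) (Fin r) ℤ),
      T1_Ref u u' A B ∧ ∃ β : Fin r → ℕ, mon u δ = monN u' β := by
  classical
  induction n with
  | zero =>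
    intro u hu δ hδ a b hab hn
    refine ⟨u, 1, 1, T1_Ref.refl hu, ?_⟩
    by_cases h0 : ∀ k, 0 ≤ δ k
    · exact ⟨_, T1_nonneg δ h0⟩
    · push Not at h0
      obtain ⟨k, hk⟩ := h0
      exfalso
      have h1 : (b - a).toNat = 0 := by
        rcases Nat.eq_zero_or_pos (b - a).toNat with h | h
        · exact h
        · exfalso
          have := Nat.mul_pos h (Nat.succ_pos r)
          simp only [Nat.succ_eq_add_one] at this
          omega
      have h2 : b - a ≤ 0 := by omega
      have h3 : (Finset.univ.filter (fun k => δ k = a ∨ δ k = b)).card = 0 := by omega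
      rw [Finset.card_eq_zero, Finset.filter_eq_empty_iff] at h3
      have h4 := h3 (Finset.mem_univ k)
      have := hab k
      apply h4
      left
      omega
  | succ n ih =>
    intro u hu δ hδ a b hab hn
    by_cases h0 : ∀ k, 0 ≤ δ k
    · exact ⟨u, 1, 1, T1_Ref.refl hu, _, T1_nonneg δ h0⟩
    push Not at h0
    obtain ⟨k0, hk0⟩ := h0
    have h1 : ∃ k, 0 < δ k := by
      by_contra hcon
      push Not at hcon
      exact absurd hδ (not_lt.2 (T1_nonpos hu δ hcon))
    obtain ⟨k1, hk1⟩ := h1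
    have ha0 : a < 0 := lt_of_le_of_lt (hab k0).1 hk0
    have hb0 : 0 < b := lt_of_lt_of_le hk1 (hab k1).2
    have hcard : ∀ p : Fin r → Prop, ∀ [DecidablePred p],
        (Finset.univ.filter p).card ≤ r := fun p _ => by
      refine (Finset.card_le_univ _).trans ?_
      rw [Fintype.card_fin]
    by_cases hexb : ∃ i, δ i = b
    swap
    · push Not at hexb
      refine ih u hu δ hδ a (b - 1) (fun k => ⟨(hab k).1, ?_⟩) ?_
      · have := (hab k).2
        have := hexb k
        omega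
      · have e1 : (b - a).toNat = (b - 1 - a).toNat + 1 := by omega
        rw [e1] at hn
        have e2 := hcard (fun k => δ k = a ∨ δ k = b - 1)
        have e3 : ((b - 1 - a).toNat + 1) * (r + 1) = (b - 1 - a).toNat * (r + 1) + (r + 1) := by
          ring
        rw [e3] at hn
        omega
    by_cases hexa : ∃ j, δ j = a
    swap
    · push Not at hexa
      refine ih u hu δ hδ (a + 1) b (fun k => ⟨?_, (hab k).2⟩) ?_
      · have := (hab k).1
        have := hexa k
        omega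
      · have e1 : (b - a).toNat = (b - (a + 1)).toNat + 1 := by omega
        rw [e1] at hn
        have e2 := hcard (fun k => δ k = a + 1 ∨ δ k = b)
        have e3 : ((b - (a + 1)).toNat + 1) * (r + 1) =
            (b - (a + 1)).toNat * (r + 1) + (r + 1) := by ring
        rw [e3] at hn
        omega
    obtain ⟨i, hi⟩ := hexb
    obtain ⟨j, hj⟩ := hexa
    have hij : i ≠ j := by
      intro h
      rw [h, hj] at hi
      omega
    -- the common end of the two cases
    have key : ∀ l : Fin r, (δ l = a ∨ δ l = b) →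
        (∃ (u' : Fin r → K) (A : Matrix (Fin r) (Fin r) ℕ) (B : Matrix (Fin r) (Fin r) ℤ),
          T1_Ref u u' A B ∧ Matrix.vecMul δ (A.map (fun n : ℕ => (n : ℤ))) =
            Function.update δ l (a + b)) →
        ∃ (u' : Fin r → K) (A : Matrix (Fin r) (Fin r) ℕ) (B : Matrix (Fin r) (Fin r) ℤ),
          T1_Ref u u' A B ∧ ∃ β : Fin r → ℕ, mon u δ = monN u' β := by
      intro l hl hex
      obtain ⟨u', A, B, hR, hv⟩ := hex
      have hmon := hR.mon_eq δ
      rw [hv] at hmon
      have hlt : ‖mon u' (Function.update δ l (a + b))‖ < 1 := by rw [← hmon]; exact hδ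
      have hab' : ∀ k, a ≤ Function.update δ l (a + b) k ∧
          Function.update δ l (a + b) k ≤ b := by
        intro k
        by_cases hk : k = l
        · subst hk
          rw [Function.update_self]
          omega
        · rw [Function.update_of_ne hk]
          exact hab k
      have hsub : (Finset.univ.filter (fun k => Function.update δ l (a + b) k = a ∨
          Function.update δ l (a + b) k = b)) ⊆
          (Finset.univ.filter (fun k => δ k = a ∨ δ k = b)).erase l := by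
        intro k hk
        rw [Finset.mem_filter] at hk
        rw [Finset.mem_erase, Finset.mem_filter]
        by_cases hkl : k = l
        · subst hkl
          rw [Function.update_self] at hk
          omega
        · rw [Function.update_of_ne hkl] at hk
          exact ⟨hkl, Finset.mem_univ _, hk.2⟩
      have hc := Finset.card_le_card hsub
      have hmem : l ∈ Finset.univ.filter (fun k => δ k = a ∨ δ k = b) :=
        Finset.mem_filter.2 ⟨Finset.mem_univ _, hl⟩
      rw [Finset.card_erase_of_mem hmem] at hc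
      have hpos : 0 < (Finset.univ.filter (fun k => δ k = a ∨ δ k = b)).card :=
        Finset.card_pos.2 ⟨l, Finset.mem_filter.2 ⟨Finset.mem_univ _, hl⟩⟩
      obtain ⟨u'', A', B', hR', β, hβ⟩ := ih u' hR.ind _ hlt a b hab' (by omega)
      exact ⟨u'', A * A', B' * B, hR.trans hu.ne hR', β, by rw [hmon, hβ]⟩
    rcases lt_or_gt_of_ne (T1_norm_ne hu hij) with hlt | hlt
    · obtain ⟨u', A, B, hR, hv⟩ := T1_step hu hij hlt δ
      refine key j (Or.inl hj) ⟨u', A, B, hR, ?_⟩
      rw [hv, hi, hj, add_comm]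
    · obtain ⟨u', A, B, hR, hv⟩ := T1_step hu (Ne.symm hij) hlt δ
      refine key i (Or.inr hi) ⟨u', A, B, hR, ?_⟩
      rw [hv, hi, hj]

theorem T1_all (u : Fin r → K) (hu : Indep u)
    (Δ : Finset (Fin r → ℤ)) : (∀ δ ∈ Δ, ‖mon u δ‖ < 1) →
    ∃ (u' : Fin r → K) (A : Matrix (Fin r) (Fin r) ℕ) (B : Matrix (Fin r) (Fin r) ℤ),
      T1_Ref u u' A B ∧ ∀ δ ∈ Δ, ∃ β : Fin r → ℕ, mon u δ = monN u' β := by
  classical
  induction Δ using Finset.induction_on with
  | empty => exact fun _ => ⟨u, 1, 1, T1_Ref.refl hu, fun δ hδ => absurd hδ (Finset.notMem_empty _)⟩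
  | insert δ Δ _ ih =>
    intro h
    obtain ⟨u', A, B, hR, hΔ⟩ := ih (fun δ' hδ' => h δ' (Finset.mem_insert_of_mem hδ'))
    have hmon := hR.mon_eq δ
    set δ1 := Matrix.vecMul δ (A.map (fun n : ℕ => (n : ℤ))) with hδ1
    have hlt : ‖mon u' δ1‖ < 1 := by
      rw [← hmon]; exact h δ (Finset.mem_insert_self _ _)
    obtain ⟨m, hm⟩ : ∃ m : ℤ, ∀ k, |δ1 k| ≤ m := by
      refine ⟨∑ k, |δ1 k|, fun k => ?_⟩
      exact Finset.single_le_sum (f := fun k => |δ1 k|) (fun l _ => abs_nonneg _)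
        (Finset.mem_univ k)
    obtain ⟨u'', A', B', hR', β, hβ⟩ := T1_one _ u' hR.ind δ1 hlt (-m) m
      (fun k => abs_le.1 (hm k)) le_rfl
    refine ⟨u'', A * A', B' * B, hR.trans hu.ne hR', fun δ' hδ' => ?_⟩
    rcases Finset.mem_insert.1 hδ' with rfl | hδ'
    · exact ⟨β, by rw [hmon, hβ]⟩
    · obtain ⟨β', hβ'⟩ := hΔ δ' hδ'
      exact ⟨_, by rw [hβ', T1_monN_monN u' u'' A' hR'.h1]⟩

theorem refine {K : Type} [NormedField K] {r : ℕ} (u : Fin r → K) (hu : Indep u)
    (Δ : Finset (Fin r → ℤ)) (hΔ : ∀ δ ∈ Δ, ‖mon u δ‖ < 1) :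
    ∃ (u' : Fin r → K) (A : Fin r → Fin r → ℕ) (B : Fin r → Fin r → ℤ), Indep u' ∧
      (∀ i, u i = monN u' (A i)) ∧ (∀ i, u' i = mon u (B i)) ∧
      (∀ i j, ∑ k, (A i k : ℤ) * B k j = if i = j then 1 else 0) ∧
      ∀ δ ∈ Δ, ∃ β : Fin r → ℕ, mon u δ = monN u' β := by
  obtain ⟨u', A, B, hR, h⟩ := T1_all u hu Δ hΔ
  refine ⟨u', A, B, hR.ind, hR.h1, hR.h2, fun i j => ?_, h⟩
  have := congrFun (congrFun hR.h3 i) j
  rw [Matrix.mul_apply] at this
  rw [← Matrix.one_apply, ← this]
  rfl

end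

end Pool.Agent.Lib.MP_3029eb_ag.Abh
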