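import Pool.Agent.Lib.MP_3029eb_ag.AbhIndV
import Pool.Agent.Lib.MP_3029eb_ag.Comp1
import Pool.Agent.Lib.MP_3029eb_ag.AbhT1

/-!
Definitions for embedded local uniformization, and elementary facts.
-/

open IsLocalRing

namespace Pool.Agent.Lib.MP_3029eb_ag.Abh
open Pool.Agent.Lib.MP_3029eb_ag

/-- `f` is a unit of `A` (an element of value one) times a monomial in the `u i`. -/
def MonV {K : Type} [Field K] (V : ValuationSubring K) (A : Subring K) {r : ℕ} (u : Fin r → K)
    (f : K) : Prop :=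
  ∃ w ∈ A, V.valuation w = 1 ∧ ∃ β : Fin r → ℕ, f = w * monN u β

/-- The `u i` generate the maximal ideal of `A`, their values are rationally independent, and
every element of `A` has a denominator in `A0` which is a unit of `A` times a monomial in the
`u i`. -/
structure GoodPar {K : Type} [Field K] (V : ValuationSubring K) (A0 A : Subring K) {r : ℕ}
    (u : Fin r → K) : Prop where
  ind : IndV V u
  mem : ∀ i, u i ∈ A
  lt : ∀ i, V.valuation (u i) < 1
  gen : ∀ z ∈ A, V.valuation z < 1 → ∃ c : Fin r → K, (∀ i, c i ∈ A) ∧ z = ∑ i, c i * u i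
  den : ∀ z ∈ A, ∃ D ∈ A0, MonV V A u D ∧ D * z ∈ A0

/-- Embedded local uniformization of `A0` along `V`, with `r` parameters. -/
def EMB {K : Type} [Field K] (V : ValuationSubring K) (A0 : Subring K) (r : ℕ) : Prop :=
  ∀ s : Finset K, (∀ f ∈ s, f ≠ 0 ∧ f ∈ V ∧ ∃ a ∈ A0, ∃ b ∈ A0, b ≠ 0 ∧ f * b = a) →
    ∃ (g : Finset K) (u : Fin r → K), (∀ t ∈ g, t ∈ V) ∧
      GoodPar V A0 (locV V (Subring.closure ((A0 : Set K) ∪ (g : Set K)))) u ∧
      ∀ f ∈ s, MonV V (locV V (Subring.closure ((A0 : Set K) ∪ (g : Set K)))) u f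

section

variable {K : Type} [Field K] {V : ValuationSubring K} {A0 A : Subring K} {r : ℕ} {u : Fin r → K}

theorem E0_monN_add {K : Type} [CommMonoid K] {r : ℕ} (u : Fin r → K) (β γ : Fin r → ℕ) :
    monN u (β + γ) = monN u β * monN u γ := by
  unfold monN
  rw [← Finset.prod_mul_distrib]
  exact Finset.prod_congr rfl fun i _ => pow_add _ _ _

theorem E0_monN_zero {K : Type} [CommMonoid K] {r : ℕ} (u : Fin r → K) :
    monN u (0 : Fin r → ℕ) = 1 := by
  unfold monN
  exact Finset.prod_eq_one fun i _ => pow_zero _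

theorem E0_monN_mem (A : Subring K) (hu : ∀ i, u i ∈ A) (β : Fin r → ℕ) : monN u β ∈ A := by
  unfold monN
  exact Subring.prod_mem _ fun i _ => Subring.pow_mem _ (hu i) _

theorem E0_monN_ne (hu : ∀ i, u i ≠ 0) (β : Fin r → ℕ) : monN u β ≠ 0 := by
  unfold monN
  exact Finset.prod_ne_zero_iff.2 fun i _ => pow_ne_zero _ (hu i)

theorem MonV.ne {f : K} (h : MonV V A u f) (hu : ∀ i, u i ≠ 0) : f ≠ 0 := by
  obtain ⟨w, _, hw, β, rfl⟩ := h
  refine mul_ne_zero ?_ (E0_monN_ne hu β)
  rintro rfl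
  rw [map_zero] at hw
  exact zero_ne_one hw

theorem MonV.mul {f f' : K} (h : MonV V A u f) (h' : MonV V A u f') :
    MonV V A u (f * f') := by
  obtain ⟨w, hwA, hw, β, rfl⟩ := h
  obtain ⟨w', hwA', hw', β', rfl⟩ := h'
  refine ⟨w * w', mul_mem hwA hwA', by rw [map_mul, hw, hw', one_mul], β + β', ?_⟩
  rw [E0_monN_add]; ring

theorem MonV.of_unit {f : K} (hf : f ∈ A) (h1 : V.valuation f = 1) : MonV V A u f :=
  ⟨f, hf, h1, 0, by rw [E0_monN_zero, mul_one]⟩

theorem MonV.one : MonV V A u 1 := MonV.of_unit A.one_mem (map_one _)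

theorem MonV.pow {f : K} (h : MonV V A u f) (n : ℕ) : MonV V A u (f ^ n) := by
  induction n with
  | zero => rw [pow_zero]; exact MonV.one
  | succ n ih => rw [pow_succ]; exact ih.mul h

theorem MonV.prod {ι : Type} (s : Finset ι) (f : ι → K) (h : ∀ i ∈ s, MonV V A u (f i)) :
    MonV V A u (∏ i ∈ s, f i) := by
  classical
  induction s using Finset.induction_on with
  | empty => rw [Finset.prod_empty]; exact MonV.one
  | insert a s ha ih =>
    rw [Finset.prod_insert ha]
    exact (h a (Finset.mem_insert_self _ _)).mul (ih fun i hi => h i (Finset.mem_insert_of_mem hi))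

theorem MonV.monN (β : Fin r → ℕ) : MonV V A u (monN u β) :=
  ⟨1, A.one_mem, map_one _, β, (one_mul _).symm⟩

theorem MonV.var (i : Fin r) : MonV V A u (u i) := by
  classical
  refine ⟨1, A.one_mem, map_one _, Pi.single i 1, ?_⟩
  rw [one_mul]
  unfold Abh.monN
  rw [Finset.prod_eq_single i]
  · rw [Pi.single_eq_same, pow_one]
  · intro j _ hj
    rw [Pi.single_eq_of_ne hj, pow_zero]
  · intro h; exact absurd (Finset.mem_univ i) h

theorem MonV.mem {f : K} (h : MonV V A u f) (hu : ∀ i, u i ∈ A) : f ∈ A := by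
  obtain ⟨w, hwA, _, β, rfl⟩ := h
  exact mul_mem hwA (E0_monN_mem A hu β)

theorem MonV.mono {A' : Subring K} (hA : A ≤ A') {r' : ℕ} {u' : Fin r' → K}
    (hu : ∀ i, MonV V A' u' (u i)) {f : K} (h : MonV V A u f) : MonV V A' u' f := by
  obtain ⟨w, hwA, hw, β, rfl⟩ := h
  refine (MonV.of_unit (hA hwA) hw).mul ?_
  unfold Abh.monN
  exact MonV.prod _ _ fun i _ => (hu i).pow _

variable (V A0 A u) in
/-- elements with a monomial denominator -/
def Den (z : K) : Prop := ∃ D ∈ A0, MonV V A u D ∧ D * z ∈ A0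

theorem Den.of_mem {z : K} (hz : z ∈ A0) : Den V A0 A u z :=
  ⟨1, A0.one_mem, MonV.one, by rw [one_mul]; exact hz⟩

theorem Den.mul {z z' : K} (h : Den V A0 A u z) (h' : Den V A0 A u z') :
    Den V A0 A u (z * z') := by
  obtain ⟨D, hD, hm, hz⟩ := h
  obtain ⟨D', hD', hm', hz'⟩ := h'
  refine ⟨D * D', mul_mem hD hD', hm.mul hm', ?_⟩
  have : D * D' * (z * z') = (D * z) * (D' * z') := by ring
  rw [this]
  exact mul_mem hz hz'

theorem Den.add {z z' : K} (h : Den V A0 A u z) (h' : Den V A0 A u z') :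
    Den V A0 A u (z + z') := by
  obtain ⟨D, hD, hm, hz⟩ := h
  obtain ⟨D', hD', hm', hz'⟩ := h'
  refine ⟨D * D', mul_mem hD hD', hm.mul hm', ?_⟩
  have : D * D' * (z + z') = D' * (D * z) + D * (D' * z') := by ring
  rw [this]
  exact add_mem (mul_mem hD' hz) (mul_mem hD hz')

theorem Den.neg {z : K} (h : Den V A0 A u z) : Den V A0 A u (-z) := by
  obtain ⟨D, hD, hm, hz⟩ := h
  exact ⟨D, hD, hm, by rw [mul_neg]; exact neg_mem hz⟩

/-- division by a monomial element -/
theorem Den.div {z d a : K} (ha : Den V A0 A u a) (hd : Den V A0 A u d)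
    (hm : MonV V A u d) (h : z * d = a) : Den V A0 A u z := by
  obtain ⟨D, hD, hDm, hDa⟩ := ha
  obtain ⟨D', hD', hDm', hDd⟩ := hd
  refine ⟨D * (D' * d), mul_mem hD hDd, hDm.mul (hDm'.mul hm), ?_⟩
  have : D * (D' * d) * z = D' * (D * a) := by rw [← h]; ring
  rw [this]
  exact mul_mem hD' hDa

variable (V A0 A u) in
/-- the subring of elements with a monomial denominator -/
def denRing : Subring K where
  carrier := {z | Den V A0 A u z}
  mul_mem' := fun h h' => Den.mul h h'
  one_mem' := Den.of_mem A0.one_mem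
  add_mem' := fun h h' => Den.add h h'
  zero_mem' := Den.of_mem A0.zero_mem
  neg_mem' := fun h => Den.neg h

theorem le_denRing : A0 ≤ denRing V A0 A u := fun _ hz => Den.of_mem hz

theorem locV_le_denRing {B : Subring K} (hB : B ≤ denRing V A0 A u) (hBA : B ≤ A) :
    locV V B ≤ denRing V A0 A u := by
  rintro z ⟨a, ha, b, hb, hb1, hab⟩
  exact Den.div (hB ha) (hB hb) (MonV.of_unit (hBA hb) hb1) hab

end

end Pool.Agent.Lib.MP_3029eb_ag.Abh
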