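import Pool.Agent.Lib.MP_3029eb_ag.AbhDefs
import Pool.Agent.Lib.MP_3029eb_ag.Comp1

/-!
Module J7 of the Abhyankar part: the maximal ideal after adjoining elements of positive value, and
descent from the completion.
-/

open IsLocalRing

namespace Pool.Agent.Lib.MP_3029eb_ag.Abh
open Pool.Agent.Lib.MP_3029eb_ag

theorem J7_val_one_iff {K : Type} [NormedField K] [IsUltrametricDist K] (z : K) :
    (ball K).valuation z = 1 ↔ ‖z‖ = 1 := by
  constructor
  · intro h
    have h0 : z ≠ 0 := by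
      rintro rfl
      rw [map_zero] at h
      exact zero_ne_one h
    have h1 : ‖z‖ ≤ 1 := (mem_ball z).1 (((ball K).valuation_le_one_iff z).1 h.le)
    have h2 : ‖z⁻¹‖ ≤ 1 := (mem_ball z⁻¹).1 (((ball K).valuation_le_one_iff z⁻¹).1
      (by rw [map_inv₀, h, inv_one]))
    rw [norm_inv] at h2
    have h3 : 0 < ‖z‖ := norm_pos_iff.2 h0
    exact le_antisymm h1 ((inv_le_one₀ h3).1 h2)
  · intro h
    have h0 : z ≠ 0 := by
      rintro rfl
      rw [norm_zero] at h
      exact zero_ne_one h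
    have h1 : (ball K).valuation z ≤ 1 :=
      ((ball K).valuation_le_one_iff z).2 ((mem_ball z).2 h.le)
    have h2 : (ball K).valuation z⁻¹ ≤ 1 :=
      ((ball K).valuation_le_one_iff z⁻¹).2 ((mem_ball z⁻¹).2 (by rw [norm_inv, h, inv_one]))
    rw [map_inv₀] at h2
    have h3 : 0 < (ball K).valuation z :=
      zero_lt_iff.2 ((Valuation.ne_zero_iff _).2 h0)
    exact le_antisymm h1 ((inv_le_one₀ h3).1 h2)

theorem maximalIdeal_locV {K : Type} [NormedField K] [IsUltrametricDist K] (A : Subring K)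
    (hA : A ≤ (ball K).toSubring) (hloc : locV (ball K) A = A) (g : Finset K)
    (hg : ∀ t ∈ g, ‖t‖ < 1)
    [IsLocalRing (locV (ball K) (Subring.closure ((A : Set K) ∪ (g : Set K))))] :
    maximalIdeal (locV (ball K) (Subring.closure ((A : Set K) ∪ (g : Set K)))) ≤
      Ideal.span {b : locV (ball K) (Subring.closure ((A : Set K) ∪ (g : Set K))) |
        (b : K) ∈ g ∨ ((b : K) ∈ A ∧ ‖(b : K)‖ < 1)} := by
  set B := Subring.closure ((A : Set K) ∪ (g : Set K)) with hB
  set J := Ideal.span {b : locV (ball K) B | (b : K) ∈ g ∨ ((b : K) ∈ A ∧ ‖(b : K)‖ < 1)} with hJ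
  have hAB : ∀ x ∈ A, x ∈ B := fun x hx => Subring.subset_closure (Or.inl hx)
  have hgB : ∀ x ∈ g, x ∈ B := fun x hx => Subring.subset_closure (Or.inr hx)
  have hBV : B ≤ (ball K).toSubring := by
    rw [hB, Subring.closure_le]
    rintro x (hx | hx)
    · exact hA hx
    · exact (hg x hx).le
  have hBL : ∀ x ∈ B, x ∈ locV (ball K) B := fun x hx => le_locV _ _ hx
  have hLV : ∀ z : locV (ball K) B, ‖(z : K)‖ ≤ 1 := fun z => locV_le (ball K) hBV z.2
  -- elements of the ideal have norm less than one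
  have hJlt : ∀ j ∈ J, ‖((j : locV (ball K) B) : K)‖ < 1 := by
    intro j hj
    refine Submodule.span_induction
      (p := fun (j : locV (ball K) B) _ => ‖(j : K)‖ < 1) ?_ ?_ ?_ ?_ hj
    · rintro b (hb | hb)
      · exact hg _ hb
      · exact hb.2
    · rw [Subring.coe_zero, norm_zero]; exact one_pos
    · intro a b _ _ ha hb
      rw [Subring.coe_add]
      exact (IsUltrametricDist.norm_add_le_max _ _).trans_lt (max_lt ha hb)
    · intro a b _ hb
      rw [smul_eq_mul, Subring.coe_mul, norm_mul]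
      exact (mul_le_of_le_one_left (norm_nonneg _) (hLV a)).trans_lt hb
  -- decomposition
  have hdec : ∀ x ∈ B, ∃ a ∈ A, ∃ j ∈ J, x = a + ((j : locV (ball K) B) : K) := by
    intro x hx
    refine Subring.closure_induction
      (p := fun x _ => ∃ a ∈ A, ∃ j ∈ J, x = a + ((j : locV (ball K) B) : K))
      ?_ ?_ ?_ ?_ ?_ ?_ hx
    · rintro x (hx | hx)
      · exact ⟨x, hx, 0, J.zero_mem, by rw [Subring.coe_zero, add_zero]⟩
      · exact ⟨0, A.zero_mem, ⟨x, hBL x (hgB x hx)⟩, Ideal.subset_span (Or.inl hx),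
          (zero_add x).symm⟩
    · exact ⟨0, A.zero_mem, 0, J.zero_mem, by rw [Subring.coe_zero, add_zero]⟩
    · exact ⟨1, A.one_mem, 0, J.zero_mem, by rw [Subring.coe_zero, add_zero]⟩
    · rintro x y _ _ ⟨a, ha, j, hj, rfl⟩ ⟨b, hb, k, hk, rfl⟩
      exact ⟨a + b, add_mem ha hb, j + k, add_mem hj hk, by rw [Subring.coe_add]; ring⟩
    · rintro x _ ⟨a, ha, j, hj, rfl⟩
      exact ⟨-a, neg_mem ha, -j, neg_mem hj, by rw [Subring.coe_neg]; ring⟩
    · rintro x y _ _ ⟨a, ha, j, hj, rfl⟩ ⟨b, hb, k, hk, rfl⟩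
      refine ⟨a * b, mul_mem ha hb,
        ⟨a, hBL a (hAB a ha)⟩ * k + (⟨b, hBL b (hAB b hb)⟩ * j + j * k), ?_, ?_⟩
      · exact add_mem (J.mul_mem_left _ hk) (add_mem (J.mul_mem_left _ hj) (J.mul_mem_left _ hk))
      · rw [Subring.coe_add, Subring.coe_add, Subring.coe_mul, Subring.coe_mul, Subring.coe_mul]
        ring
  intro z hz
  rw [IsLocalRing.mem_maximalIdeal, mem_nonunits_iff, isUnit_locV_iff (ball K) hBV,
    J7_val_one_iff] at hz
  have hz1 : ‖(z : K)‖ < 1 := lt_of_le_of_ne (hLV z) hz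
  obtain ⟨a, ha, b, hb, hb1, hab⟩ := z.2
  have hbu : IsUnit (⟨b, hBL b hb⟩ : locV (ball K) B) := (isUnit_locV_iff (ball K) hBV _).2 hb1
  have ha1 : ‖a‖ < 1 := by
    rw [← hab, norm_mul, (J7_val_one_iff b).1 hb1, mul_one]
    exact hz1
  have hmem : z * (⟨b, hBL b hb⟩ : locV (ball K) B) ∈ J := by
    obtain ⟨a0, ha0, j, hj, haj⟩ := hdec a ha
    have ha01 : ‖a0‖ < 1 := by
      have h1 : a0 = a + -((j : locV (ball K) B) : K) := by rw [haj]; ring
      rw [h1]
      refine (IsUltrametricDist.norm_add_le_max _ _).trans_lt (max_lt ha1 ?_)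
      rw [norm_neg]
      exact hJlt j hj
    have h2 : z * (⟨b, hBL b hb⟩ : locV (ball K) B) = ⟨a0, hBL a0 (hAB a0 ha0)⟩ + j := by
      apply Subtype.ext
      rw [Subring.coe_mul, Subring.coe_add]
      show (z : K) * b = a0 + (j : K)
      rw [hab, haj]
    rw [h2]
    exact add_mem (Ideal.subset_span (Or.inr ⟨ha0, ha01⟩)) hj
  obtain ⟨v, hv⟩ := hbu.exists_right_inv
  have h3 : z = (z * (⟨b, hBL b hb⟩ : locV (ball K) B)) * v := by
    rw [mul_assoc, hv, mul_one]
  rw [h3]
  exact J.mul_mem_right _ hmem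

theorem maximalIdeal_le_of_completion (R : Type) [CommRing R] [IsLocalRing R]
    [IsNoetherianRing R] (I : Ideal R) (hI : I ≤ maximalIdeal R)
    (h : (maximalIdeal R).map (algebraMap R (AdicCompletion (maximalIdeal R) R)) ≤
      I.map (algebraMap R (AdicCompletion (maximalIdeal R) R))) : maximalIdeal R ≤ I := by
  have key : maximalIdeal R ≤ I ⊔ maximalIdeal R ^ 2 := by
    intro x hx
    have h1 : algebraMap R (AdicCompletion (maximalIdeal R) R) x ∈
        I.map (algebraMap R (AdicCompletion (maximalIdeal R) R)) :=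
      h (Ideal.mem_map_of_mem _ hx)
    have h2 := Ideal.mem_map_of_mem
      (AdicCompletion.evalₐ (maximalIdeal R) 2 : AdicCompletion (maximalIdeal R) R →+*
        R ⧸ (maximalIdeal R ^ 2)) h1
    rw [Ideal.map_map] at h2
    have h3 : (AdicCompletion.evalₐ (maximalIdeal R) 2 : AdicCompletion (maximalIdeal R) R →+*
        R ⧸ (maximalIdeal R ^ 2)).comp (algebraMap R (AdicCompletion (maximalIdeal R) R)) =
        Ideal.Quotient.mk (maximalIdeal R ^ 2) := by
      ext r
      exact (AdicCompletion.evalₐ (maximalIdeal R) 2).commutes r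
    have h4 : (AdicCompletion.evalₐ (maximalIdeal R) 2 : AdicCompletion (maximalIdeal R) R →+*
        R ⧸ (maximalIdeal R ^ 2)) (algebraMap R (AdicCompletion (maximalIdeal R) R) x) =
        Ideal.Quotient.mk (maximalIdeal R ^ 2) x := RingHom.congr_fun h3 x
    rw [h3, h4] at h2
    rw [← Ideal.mem_comap, Ideal.comap_map_quotientMk] at h2
    rwa [sup_comm]
  refine Submodule.le_of_le_smul_of_le_jacobson_bot (I := maximalIdeal R)
    (IsNoetherian.noetherian _) ?_ ?_
  · exact (IsLocalRing.jacobson_eq_maximalIdeal (⊥ : Ideal R) bot_ne_top).ge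
  · rw [smul_eq_mul, ← pow_two]
    exact key

end Pool.Agent.Lib.MP_3029eb_ag.Abh
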