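import Pool.Agent.Lib.MP_3029eb_ag.AbhS1
import Pool.Agent.Lib.MP_3029eb_ag.AbhS2
import Pool.Agent.Lib.MP_3029eb_ag.AbhT1
import Pool.Agent.Lib.MP_3029eb_ag.AbhJ7

/-!
Module E1: in a local ring whose maximal ideal is generated by elements with independent values,
every nonzero element is a unit times a monomial plus smaller monomials.
-/

open IsLocalRing

namespace Pool.Agent.Lib.MP_3029eb_ag.Abh
open Pool.Agent.Lib.MP_3029eb_ag

/-- the submodule of `K` generated over `A` by the monomials satisfying `p` -/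
def E1_J {K : Type} [Field K] (A : Subring K) {r : ℕ} (u : Fin r → K) (p : (Fin r → ℕ) → Prop) :
    Submodule A K := Submodule.span A {x | ∃ β, p β ∧ x = monN u β}

theorem E1_norm_le {K : Type} [NormedField K] [IsUltrametricDist K] (A : Subring K)
    (hA : ∀ a ∈ A, ‖a‖ ≤ 1) {r : ℕ} (u : Fin r → K) (ρ : ℝ) (hρ : 0 ≤ ρ) (a : K)
    (ha : a ∈ E1_J A u (fun β => ‖monN u β‖ ≤ ρ)) : ‖a‖ ≤ ρ := by
  refine Submodule.span_induction (p := fun x _ => ‖x‖ ≤ ρ) ?_ ?_ ?_ ?_ ha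
  · rintro x ⟨β, hβ, rfl⟩; exact hβ
  · rw [norm_zero]; exact hρ
  · intro x y _ _ hx hy
    exact (IsUltrametricDist.norm_add_le_max _ _).trans (max_le hx hy)
  · intro c x _ hx
    rw [Subring.smul_def, smul_eq_mul, norm_mul]
    exact (mul_le_of_le_one_left (norm_nonneg _) (hA c c.2)).trans hx

theorem E1_lt {K : Type} [NormedField K] (A : Subring K) {r : ℕ} (u : Fin r → K) (ρ : ℝ) (a : K)
    (ha : a ∈ E1_J A u (fun β => ‖monN u β‖ < ρ)) : a = 0 ∨ ∃ β', ‖monN u β'‖ < ρ ∧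
      a ∈ E1_J A u (fun β => ‖monN u β‖ ≤ ‖monN u β'‖) := by
  refine Submodule.span_induction (p := fun x _ => x = 0 ∨ ∃ β', ‖monN u β'‖ < ρ ∧
      x ∈ E1_J A u (fun β => ‖monN u β‖ ≤ ‖monN u β'‖)) ?_ ?_ ?_ ?_ ha
  · rintro x ⟨β, hβ, rfl⟩
    exact Or.inr ⟨β, hβ, Submodule.subset_span ⟨β, le_rfl, rfl⟩⟩
  · exact Or.inl rfl
  · rintro x y _ _ (rfl | ⟨β, hβ, hx⟩) hy
    · rw [zero_add]; exact hy
    rcases hy with rfl | ⟨β', hβ', hy⟩
    · rw [add_zero]; exact Or.inr ⟨β, hβ, hx⟩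
    right
    rcases le_total ‖monN u β‖ ‖monN u β'‖ with h | h
    · refine ⟨β', hβ', add_mem (Submodule.span_mono ?_ hx) hy⟩
      rintro z ⟨γ, hγ, rfl⟩
      exact ⟨γ, hγ.trans h, rfl⟩
    · refine ⟨β, hβ, add_mem hx (Submodule.span_mono ?_ hy)⟩
      rintro z ⟨γ, hγ, rfl⟩
      exact ⟨γ, hγ.trans h, rfl⟩
  · rintro c x _ (rfl | ⟨β, hβ, hx⟩)
    · exact Or.inl (smul_zero _)
    · exact Or.inr ⟨β, hβ, Submodule.smul_mem _ _ hx⟩

theorem E1_split {K : Type} [NormedField K] (A : Subring K) {r : ℕ} (u : Fin r → K)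
    (hu : Indep u) (β0 : Fin r → ℕ) (a : K)
    (ha : a ∈ E1_J A u (fun β => ‖monN u β‖ ≤ ‖monN u β0‖)) :
    ∃ c ∈ A, a - c * monN u β0 ∈ E1_J A u (fun β => ‖monN u β‖ < ‖monN u β0‖) := by
  refine Submodule.span_induction (p := fun x _ => ∃ c ∈ A, x - c * monN u β0 ∈
    E1_J A u (fun β => ‖monN u β‖ < ‖monN u β0‖)) ?_ ?_ ?_ ?_ ha
  · rintro x ⟨β, hβ, rfl⟩
    rcases hβ.lt_or_eq with h | h
    · refine ⟨0, A.zero_mem, ?_⟩
      rw [zero_mul, sub_zero]
      exact Submodule.subset_span ⟨β, h, rfl⟩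
    · refine ⟨1, A.one_mem, ?_⟩
      rw [hu.injN h, one_mul, sub_self]
      exact zero_mem _
  · refine ⟨0, A.zero_mem, ?_⟩
    rw [zero_mul, sub_zero]
    exact zero_mem _
  · rintro x y _ _ ⟨c, hc, hx⟩ ⟨d, hd, hy⟩
    refine ⟨c + d, add_mem hc hd, ?_⟩
    have : x + y - (c + d) * monN u β0 = (x - c * monN u β0) + (y - d * monN u β0) := by ring
    rw [this]
    exact add_mem hx hy
  · rintro e x _ ⟨c, hc, hx⟩
    refine ⟨e * c, mul_mem e.2 hc, ?_⟩
    have : e • x - e * c * monN u β0 = e • (x - c * monN u β0) := by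
      rw [Subring.smul_def, Subring.smul_def, smul_eq_mul, smul_eq_mul]; ring
    rw [this]
    exact Submodule.smul_mem _ _ hx

theorem E1_monN_single {K : Type} [CommMonoid K] {r : ℕ} (u : Fin r → K) (β : Fin r → ℕ)
    (i : Fin r) : monN u (β + Pi.single i 1) = u i * monN u β := by
  unfold monN
  simp only [Pi.add_apply, pow_add]
  rw [Finset.prod_mul_distrib, mul_comm]
  congr 1
  rw [Finset.prod_eq_single i]
  · rw [Pi.single_eq_same, pow_one]
  · intro j _ hj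
    rw [Pi.single_eq_of_ne hj, pow_zero]
  · intro h; exact absurd (Finset.mem_univ i) h

theorem E1_finite {K : Type} [NormedField K] {r : ℕ} (u : Fin r → K) (hu : Indep u) (q : ℝ)
    (hq : 0 < q) : {β : Fin r → ℕ | q ≤ ‖monN u β‖}.Finite := by
  have h := Hc_finite (wt u) hu.wt_pos (-Real.log q + 1)
  have hf : {β : Fin r → ℕ | ∑ i, (β i : ℝ) * wt u i < -Real.log q + 1}.Finite := h
  refine hf.subset ?_
  intro β hβ
  have hβ' : q ≤ Real.exp (-(∑ i, (β i : ℝ) * wt u i)) := by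
    rw [← norm_monN hu.ne]; exact hβ
  show ∑ i, (β i : ℝ) * wt u i < -Real.log q + 1
  have h1 := (Real.log_le_iff_le_exp hq).2 hβ'
  linarith

/-- Expansion. -/
theorem E1_expand {K : Type} [NormedField K] [IsUltrametricDist K] (A : Subring K)
    (hA : ∀ a ∈ A, ‖a‖ ≤ 1) {r : ℕ} (u : Fin r → K) (hu : Indep u)
    (hm : ∀ a ∈ A, ‖a‖ < 1 → ∃ c : Fin r → K, (∀ i, c i ∈ A) ∧ a = ∑ i, c i * u i)
    (a : K) (ha : a ∈ A) (ha0 : a ≠ 0) :
    ∃ (β0 : Fin r → ℕ) (w : K), w ∈ A ∧ ‖w‖ = 1 ∧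
      a - w * monN u β0 ∈ E1_J A u (fun β => ‖monN u β‖ < ‖monN u β0‖) := by
  have hna : 0 < ‖a‖ := norm_pos_iff.2 ha0
  have hfin := E1_finite u hu ‖a‖ hna
  let S : Set (Fin r → ℕ) := {β | ‖a‖ ≤ ‖monN u β‖ ∧
    a ∈ E1_J A u (fun γ => ‖monN u γ‖ ≤ ‖monN u β‖)}
  have hSf : S.Finite := hfin.subset fun β hβ => hβ.1
  have h0 : monN u (0 : Fin r → ℕ) = 1 := by
    unfold monN
    exact Finset.prod_eq_one fun i _ => pow_zero _
  have hS0 : (0 : Fin r → ℕ) ∈ S := by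
    refine ⟨?_, ?_⟩
    · rw [h0, norm_one]; exact hA a ha
    · have h1 : (1 : K) ∈ E1_J A u (fun γ => ‖monN u γ‖ ≤ ‖monN u (0 : Fin r → ℕ)‖) :=
        Submodule.subset_span ⟨0, le_rfl, h0.symm⟩
      have h2 := Submodule.smul_mem _ (⟨a, ha⟩ : A) h1
      rw [Subring.smul_def, smul_eq_mul, mul_one] at h2
      exact h2
  obtain ⟨β0, hβ0, hmin⟩ := Set.exists_min_image S (fun β => ‖monN u β‖) hSf ⟨0, hS0⟩
  obtain ⟨c, hc, hac⟩ := E1_split A u hu β0 a hβ0.2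
  refine ⟨β0, c, hc, ?_, hac⟩
  by_contra hcn
  have hc1 : ‖c‖ < 1 := lt_of_le_of_ne (hA c hc) hcn
  obtain ⟨b, hb, hcb⟩ := hm c hc hc1
  have hin : a ∈ E1_J A u (fun β => ‖monN u β‖ < ‖monN u β0‖) := by
    have h1 : c * monN u β0 ∈ E1_J A u (fun β => ‖monN u β‖ < ‖monN u β0‖) := by
      rw [hcb, Finset.sum_mul]
      refine Submodule.sum_mem _ fun i _ => ?_
      have h2 : b i * u i * monN u β0 = (⟨b i, hb i⟩ : A) • monN u (β0 + Pi.single i 1) := by
        rw [E1_monN_single, Subring.smul_def, smul_eq_mul, mul_assoc]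
      rw [h2]
      refine Submodule.smul_mem _ _ (Submodule.subset_span ⟨_, ?_, rfl⟩)
      show ‖monN u (β0 + Pi.single i 1)‖ < ‖monN u β0‖
      rw [E1_monN_single, norm_mul]
      have h3 : 0 < ‖monN u β0‖ := hna.trans_le hβ0.1
      calc ‖u i‖ * ‖monN u β0‖ < 1 * ‖monN u β0‖ := mul_lt_mul_of_pos_right (hu.lt i) h3
        _ = _ := one_mul _
    have h4 : a = (a - c * monN u β0) + c * monN u β0 := by ring
    rw [h4]
    exact add_mem hac h1
  rcases E1_lt A u _ a hin with h | ⟨β', hβ', h⟩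
  · exact ha0 h
  · have h5 : β' ∈ S := ⟨E1_norm_le A hA u _ (norm_nonneg _) a h, h⟩
    exact absurd (hmin β' h5) (not_le.2 hβ')

theorem E1_finsum {K : Type} [Field K] (A : Subring K) {r : ℕ} (u : Fin r → K)
    (p : (Fin r → ℕ) → Prop) (a : K) (ha : a ∈ E1_J A u p) :
    ∃ c : (Fin r → ℕ) →₀ A, (∀ β ∈ c.support, p β) ∧
      a = c.sum fun β x => (x : K) * monN u β := by
  classical
  refine Submodule.span_induction (p := fun x _ => ∃ c : (Fin r → ℕ) →₀ A,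
    (∀ β ∈ c.support, p β) ∧ x = c.sum fun β y => (y : K) * monN u β) ?_ ?_ ?_ ?_ ha
  · rintro x ⟨β, hβ, rfl⟩
    refine ⟨Finsupp.single β 1, ?_, ?_⟩
    · intro γ hγ
      have := Finsupp.support_single_subset hγ
      rw [Finset.mem_singleton] at this
      rw [this]; exact hβ
    · rw [Finsupp.sum_single_index (by simp)]
      simp
  · exact ⟨0, by simp, by simp⟩
  · rintro x y _ _ ⟨c, hc, rfl⟩ ⟨d, hd, rfl⟩
    refine ⟨c + d, ?_, ?_⟩
    · intro γ hγ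
      rcases Finset.mem_union.1 (Finsupp.support_add hγ) with h | h
      · exact hc γ h
      · exact hd γ h
    · rw [Finsupp.sum_add_index' (by simp) (by intro β x y; push_cast; ring)]
  · rintro e x _ ⟨c, hc, rfl⟩
    refine ⟨e • c, ?_, ?_⟩
    · intro γ hγ
      exact hc γ (Finsupp.support_smul hγ)
    · rw [Finsupp.sum_smul_index (by simp), Subring.smul_def, smul_eq_mul, Finsupp.mul_sum]
      refine Finsupp.sum_congr fun β _ => ?_
      push_cast; ring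

end Pool.Agent.Lib.MP_3029eb_ag.Abh
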