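import Pool.Agent.Lib.MP_3029eb_ag.AbhE2
import Pool.Agent.Lib.MP_3029eb_ag.AbhA2

/-!
Module E3: embedded local uniformization in rank one.
-/

open IsLocalRing

namespace Pool.Agent.Lib.MP_3029eb_ag.Abh
open Pool.Agent.Lib.MP_3029eb_ag

theorem E3_emb {K : Type} [NormedField K] [IsUltrametricDist K] (A0 : Subring K)
    (hA0 : A0 ≤ (ball K).toSubring) (g : Finset K)
    (hg : ∀ t ∈ g, t ∈ ball K ∧ ∃ a ∈ A0, ∃ b ∈ A0, b ≠ 0 ∧ t * b = a) {r : ℕ}
    (u : Fin r → K) (hu : Indep u)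
    (huA : ∀ i, u i ∈ locV (ball K) (Subring.closure ((A0 : Set K) ∪ (g : Set K))))
    (hgen : ∀ z ∈ locV (ball K) (Subring.closure ((A0 : Set K) ∪ (g : Set K))), ‖z‖ < 1 →
      ∃ c : Fin r → K,
        (∀ i, c i ∈ locV (ball K) (Subring.closure ((A0 : Set K) ∪ (g : Set K)))) ∧
        z = ∑ i, c i * u i) : EMB (ball K) A0 r := by
  classical
  intro s hs
  have hsf : ∀ f : K, ∃ a b : K, f ∈ s → a ∈ A0 ∧ b ∈ A0 ∧ b ≠ 0 ∧ f * b = a := by
    intro f
    by_cases hf : f ∈ s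
    · obtain ⟨_, _, a, ha, b, hb, hb0, h⟩ := hs f hf
      exact ⟨a, b, fun _ => ⟨ha, hb, hb0, h⟩⟩
    · exact ⟨0, 0, fun h => absurd h hf⟩
  choose a b hab using hsf
  have hgf : ∀ f : K, ∃ a b : K, f ∈ g → a ∈ A0 ∧ b ∈ A0 ∧ b ≠ 0 ∧ f * b = a := by
    intro f
    by_cases hf : f ∈ g
    · obtain ⟨_, a, ha, b, hb, hb0, h⟩ := hg f hf
      exact ⟨a, b, fun _ => ⟨ha, hb, hb0, h⟩⟩
    · exact ⟨0, 0, fun h => absurd h hf⟩
  choose ag bg hag using hgf
  set B1 := Subring.closure ((A0 : Set K) ∪ (g : Set K)) with hB1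
  set A1 := locV (ball K) B1 with hA1
  have hA0B : A0 ≤ B1 := fun z hz => Subring.subset_closure (Or.inl hz)
  have hB1V : B1 ≤ (ball K).toSubring := by
    rw [hB1, Subring.closure_le]
    rintro x (hx | hx)
    · exact hA0 hx
    · exact (hg x hx).1
  have hB1A : B1 ≤ A1 := le_locV _ _
  have hA1V : A1 ≤ (ball K).toSubring := locV_le _ hB1V
  have hloc : locV (ball K) A1 = A1 := locV_locV _ _
  let T : Finset K := s.image a ∪ (s.image b ∪ g.image bg)
  have hT : ∀ h ∈ T, h ∈ A1 ∧ h ≠ 0 := by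
    intro h hh
    rcases Finset.mem_union.1 hh with hh | hh
    · obtain ⟨f, hf, rfl⟩ := Finset.mem_image.1 hh
      refine ⟨hB1A (hA0B (hab f hf).1), ?_⟩
      rw [← (hab f hf).2.2.2]
      exact mul_ne_zero (hs f hf).1 (hab f hf).2.2.1
    rcases Finset.mem_union.1 hh with hh | hh
    · obtain ⟨f, hf, rfl⟩ := Finset.mem_image.1 hh
      exact ⟨hB1A (hA0B (hab f hf).2.1), (hab f hf).2.2.1⟩
    · obtain ⟨f, hf, rfl⟩ := Finset.mem_image.1 hh
      exact ⟨hB1A (hA0B (hag f hf).2.1), (hag f hf).2.2.1⟩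
  obtain ⟨u', A2, hu', hA2, hMu, hpq, hgen2, hM, hMq⟩ :=
    E2_core A1 hA1V hloc u hu huA hgen T hT
  have hset : A2 = locV (ball K) (Subring.closure ((A0 : Set K) ∪
      ((g ∪ Finset.univ.image u' : Finset K) : Set K))) := by
    rw [hA2, hA1, locV_closure_locV (le_refl (ball K)), hB1, A2_closure_closure]
    congr 3
    simp
  have hA12 : A1 ≤ A2 := by
    rw [hA2]
    exact fun z hz => le_locV _ _ (Subring.subset_closure (Or.inl hz))
  have hu'A : ∀ i, u' i ∈ A2 := fun i => by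
    rw [hA2]
    exact le_locV _ _ (Subring.subset_closure (Or.inr ⟨i, rfl⟩))
  refine ⟨g ∪ Finset.univ.image u', u', ?_, ?_, ?_⟩
  · intro t ht
    rcases Finset.mem_union.1 ht with ht | ht
    · exact (hg t ht).1
    · obtain ⟨i, _, rfl⟩ := Finset.mem_image.1 ht
      exact (hu'.lt i).le
  · rw [← hset]
    refine ⟨E2_IndV hu', hu'A, fun i => (E2_lt_iff _).2 (hu'.lt i),
      fun z hz hz1 => hgen2 z hz ((E2_lt_iff z).1 hz1), ?_⟩
    have h1 : B1 ≤ denRing (ball K) A0 A2 u' := by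
      rw [hB1, Subring.closure_le]
      rintro x (hx | hx)
      · exact Den.of_mem hx
      · obtain ⟨h1, h2, h3, h4⟩ := hag x hx
        refine Den.div (Den.of_mem h1) (Den.of_mem h2) (hM _ ?_) h4
        exact Finset.mem_union_right _ (Finset.mem_union_right _ (Finset.mem_image_of_mem _ hx))
    have h2 : A1 ≤ denRing (ball K) A0 A2 u' := locV_le_denRing h1 (hB1A.trans hA12)
    have h3 : ∀ γ : Fin r → ℕ, MonV (ball K) A2 u' (monN u γ) := fun γ => by
      unfold monN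
      exact MonV.prod _ _ fun i _ => (hMu i).pow _
    have h4 : Subring.closure ((A1 : Set K) ∪ Set.range u') ≤ denRing (ball K) A0 A2 u' := by
      rw [Subring.closure_le]
      rintro x (hx | ⟨i, rfl⟩)
      · exact h2 hx
      · obtain ⟨p, q, hpq⟩ := hpq i
        exact Den.div (h2 (E0_monN_mem _ huA q)) (h2 (E0_monN_mem _ huA p)) (h3 p) hpq
    have h5 : A2 ≤ denRing (ball K) A0 A2 u' := by
      have h6 : locV (ball K) (Subring.closure ((A1 : Set K) ∪ Set.range u')) ≤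
          denRing (ball K) A0 A2 u' := by
        refine locV_le_denRing h4 ?_
        rw [hA2]
        exact le_locV _ _
      rw [← hA2] at h6
      exact h6
    exact fun z hz => h5 hz
  · rw [← hset]
    intro f hf
    obtain ⟨h1, h2, h3, h4⟩ := hab f hf
    have h5 : f = a f / b f := by rw [← h4, mul_div_cancel_right₀ _ h3]
    have h6 : ‖a f‖ ≤ ‖b f‖ := by
      rw [← h4, norm_mul]
      exact mul_le_of_le_one_left (norm_nonneg _) (hs f hf).2.1
    rw [h5]
    exact hMq _ (Finset.mem_union_left _ (Finset.mem_image_of_mem _ hf)) _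
      (Finset.mem_union_right _ (Finset.mem_union_left _ (Finset.mem_image_of_mem _ hf))) h6

end Pool.Agent.Lib.MP_3029eb_ag.Abh
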