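import Pool.Agent.Lib.MP_3029eb_ag.AbhE6

/-!
Module E7: composition of embedded local uniformizations.
-/

open IsLocalRing

namespace Pool.Agent.Lib.MP_3029eb_ag.Abh
open Pool.Agent.Lib.MP_3029eb_ag

section

variable {K : Type} [Field K]

/-- the part of the composition starting from good parameters for the coarser valuation -/
theorem E7_comp {V V1 : ValuationSubring K} (h : V ≤ V1) (A A1 : Subring K)
    (hA1V : A1 ≤ V.toSubring) [IsNoetherianRing A1] {r1 r2 : ℕ}
    (x : Fin r1 → K) (hG : GoodPar V1 (locV V1 A) (locV V1 A1) x) (hxA : ∀ i, x i ∈ A1)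
    (h2 : EMB (resV V V1 h) (im V1 A1) r2)
    (L : Finset K) (hL : ∀ f ∈ L, f ∈ V ∧ MonV V1 (locV V1 A1) x f) :
    ∃ (g : Finset K) (u : Fin (r1 + r2) → K) (A3 : Subring K), (∀ t ∈ g, t ∈ V) ∧
      A3 = locV V (Subring.closure ((A1 : Set K) ∪ (g : Set K))) ∧
      (∀ k, u k ∈ A3) ∧ (∀ k, V.valuation (u k) < 1) ∧ IndV V u ∧
      (∀ z ∈ A3, V.valuation z < 1 → ∃ c : Fin (r1 + r2) → K, (∀ k, c k ∈ A3) ∧
        z = ∑ k, c k * u k) ∧
      (∀ f ∈ L, MonV V A3 u f) ∧
      (A1 ≤ denRing V A A3 u → ∀ z ∈ A3, Den V A A3 u z) := by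
  classical
  have hA1V1 : A1 ≤ V1.toSubring := fun z hz => h (hA1V hz)
  have hne : ∀ {w : K}, V1.valuation w = 1 → w ≠ 0 := by
    rintro w hw rfl
    rw [map_zero] at hw
    exact zero_ne_one hw
  have hxne := hG.ind.ne
  -- the units appearing in the elements of `L`
  have hLe : ∀ f : K, ∃ (w1 w2 : K) (α : Fin r1 → ℕ), f ∈ L → w1 ∈ A1 ∧ w2 ∈ A1 ∧
      V1.valuation w1 = 1 ∧ V1.valuation w2 = 1 ∧ f * w2 = w1 * monN x α := by
    intro f
    by_cases hf : f ∈ L
    · obtain ⟨_, w, ⟨a, ha, b, hb, hb1, hab⟩, hw1, α, hfe⟩ := hL f hf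
      refine ⟨a, b, α, fun _ => ⟨ha, hb, ?_, hb1, ?_⟩⟩
      · rw [← hab, map_mul, hw1, hb1, one_mul]
      · rw [hfe, ← hab]; ring
    · exact ⟨0, 0, 0, fun h' => absurd h' hf⟩
  choose w1 w2 α hLe using hLe
  -- a denominator for the centre of `V1`
  obtain ⟨b, ⟨hbA, hb1⟩, hbP⟩ := E6_bound A1 (C3.cen V1 hA1V1) (Submodule.span A1 (Set.range x))
    (fun b => b ∈ A1 ∧ V1.valuation b = 1) ⟨A1.one_mem, map_one _⟩
    (fun a b ha hb => ⟨mul_mem ha.1 hb.1, by rw [map_mul, ha.2, hb.2, one_mul]⟩)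
    (fun a ha => ha.1) (by
      intro z hz
      rw [C3.mem_cen] at hz
      obtain ⟨c, hc, hzc⟩ := hG.gen z (le_locV _ _ z.2) hz
      obtain ⟨b, hb, hb1, hbc⟩ := C3.exists_denom V1 A1 (Finset.univ.image c) (by
        intro t ht
        obtain ⟨i, _, rfl⟩ := Finset.mem_image.1 ht
        exact hc i)
      refine ⟨b, ⟨hb, hb1⟩, (E6_mem_span _ _ _).2 ⟨fun i => c i * b,
        fun i => hbc _ (Finset.mem_image_of_mem _ (Finset.mem_univ i)), ?_⟩⟩
      rw [hzc, Finset.mul_sum]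
      exact Finset.sum_congr rfl fun i _ => by ring)
  let W1 : Finset K := L.image w1 ∪ (L.image w2 ∪ {b})
  have hW1 : ∀ w ∈ W1, w ∈ A1 ∧ V1.valuation w = 1 := by
    intro w hw
    rcases Finset.mem_union.1 hw with hw | hw
    · obtain ⟨f, hf, rfl⟩ := Finset.mem_image.1 hw
      exact ⟨(hLe f hf).1, (hLe f hf).2.2.1⟩
    rcases Finset.mem_union.1 hw with hw | hw
    · obtain ⟨f, hf, rfl⟩ := Finset.mem_image.1 hw
      exact ⟨(hLe f hf).2.1, (hLe f hf).2.2.2.1⟩
    · rw [Finset.mem_singleton.1 hw]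
      exact ⟨hbA, hb1⟩
  let L0 : Finset K := L.filter fun f => V1.valuation f = 1
  have hα0 : ∀ f ∈ L, V1.valuation f = 1 → α f = 0 := by
    intro f hf hf1
    obtain ⟨_, _, h3, h4, h5⟩ := hLe f hf
    refine E5_monN_inj hG.ind ?_
    rw [E0_monN_zero, map_one]
    have h6 := congrArg V1.valuation h5
    rw [map_mul, map_mul, hf1, h3, h4, one_mul, one_mul] at h6
    exact h6.symm
  -- apply the hypothesis on the residue field
  obtain ⟨g3, ub, hg3V, hG3, hM3⟩ := h2 ((W1 ∪ L0).image (rs V1)) (by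
    intro t ht
    obtain ⟨w, hw, rfl⟩ := Finset.mem_image.1 ht
    rcases Finset.mem_union.1 hw with hw | hw
    · obtain ⟨hwA, hw1⟩ := hW1 w hw
      have h1 : rs V1 w ∈ im V1 A1 := (mem_im_iff hA1V1 _).2 ⟨w, hwA, rfl⟩
      exact ⟨rs_ne_zero hw1, (rs_mem_resV h (hA1V1 hwA)).2 (hA1V hwA), _, h1, 1,
        (im V1 A1).one_mem, one_ne_zero, mul_one _⟩
    · obtain ⟨hfL, hf1⟩ := Finset.mem_filter.1 hw
      obtain ⟨h1, h2, h3, h4, h5⟩ := hLe w hfL
      have hfV := (hL w hfL).1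
      refine ⟨rs_ne_zero hf1, (rs_mem_resV h (h hfV)).2 hfV, rs V1 (w1 w),
        (mem_im_iff hA1V1 _).2 ⟨_, h1, rfl⟩, rs V1 (w2 w), (mem_im_iff hA1V1 _).2 ⟨_, h2, rfl⟩,
        rs_ne_zero h4, ?_⟩
      rw [← rs_mul (h hfV) (hA1V1 h2), h5, hα0 w hfL hf1, E0_monN_zero, mul_one])
  set B3 := locV (resV V V1 h) (Subring.closure ((im V1 A1 : Set (ResidueField V1)) ∪
    (g3 : Set (ResidueField V1)))) with hB3
  -- lifts of the elements of `g3`
  have hlift : ∀ t : ResidueField V1, ∃ t' d a : K, t ∈ g3 → d ∈ A1 ∧ a ∈ A1 ∧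
      V1.valuation d = 1 ∧ MonV (resV V V1 h) B3 ub (rs V1 d) ∧ t' * d = a ∧ t' ∈ V ∧
      rs V1 t' = t := by
    intro t
    by_cases ht : t ∈ g3
    · have htB : t ∈ B3 := le_locV _ _ (Subring.subset_closure (Or.inr ht))
      obtain ⟨D, hD, hDm, hDt⟩ := hG3.den t htB
      obtain ⟨t', d, a, h1, h2, h3, h4, h5, h6, h7⟩ := E6_lift h A1 hA1V t (hg3V t ht) D hD
        (hDm.ne hG3.ind.ne) hDt
      exact ⟨t', d, a, fun _ => ⟨h1, h2, h3, by rw [h4]; exact hDm, h5, h6, h7⟩⟩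
    · exact ⟨0, 0, 0, fun h' => absurd h' ht⟩
  choose lt ld la hlift using hlift
  let g3' : Finset K := g3.image lt
  have hg3'V : ∀ t ∈ g3', t ∈ V := by
    intro t ht
    obtain ⟨s, hs, rfl⟩ := Finset.mem_image.1 ht
    exact (hlift s hs).2.2.2.2.2.1
  set B2 := Subring.closure ((A1 : Set K) ∪ (g3' : Set K)) with hB2
  set A2 := locV V B2 with hA2
  have hA1B2 : A1 ≤ B2 := fun z hz => Subring.subset_closure (Or.inl hz)
  have hB2V : B2 ≤ V.toSubring := by
    rw [hB2, Subring.closure_le]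
    rintro z (hz | hz)
    · exact hA1V hz
    · exact hg3'V z hz
  have hB2A2 : B2 ≤ A2 := le_locV _ _
  have hA2V : A2 ≤ V.toSubring := locV_le _ hB2V
  have hA2V1 : A2 ≤ V1.toSubring := fun z hz => h (hA2V hz)
  have hloc2 : locV V A2 = A2 := locV_locV _ _
  have hA12 : A1 ≤ A2 := hA1B2.trans hB2A2
  have : IsNoetherianRing B2 := isNoetherianRing_closure g3'
  have : IsNoetherianRing A2 := isNoetherianRing_locV V
  have him : im V1 A2 = B3 := by
    rw [hA2, im_locV h B2 hB2V, hB2, im_closure V1 A1 hA1V1 _ (fun z hz => h (hg3'V z hz)), hB3]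
    congr 3
    ext w
    constructor
    · rintro ⟨z, hz, rfl⟩
      obtain ⟨s, hs, rfl⟩ := Finset.mem_image.1 hz
      rw [← rs_eq, (hlift s hs).2.2.2.2.2.2]
      exact hs
    · intro hw
      refine ⟨lt w, Finset.mem_image_of_mem _ hw, ?_⟩
      rw [← rs_eq, (hlift w hw).2.2.2.2.2.2]
  have hlB3 : ∀ t ∈ B3, ∃ z ∈ A2, rs V1 z = t := by
    intro t ht
    rw [← him] at ht
    exact (mem_im_iff hA2V1 _).1 ht
  -- lift the parameters
  have hub : ∀ j, ∃ z ∈ A2, rs V1 z = ub j := fun j => hlB3 _ (hG3.mem j)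
  choose u huA hub using hub
  have hu1 : ∀ j, V1.valuation (u j) = 1 := fun j =>
    rs_val_one (hA2V1 (huA j)) (by rw [hub]; exact hG3.ind.ne j)
  have hult : ∀ j, V.valuation (u j) < 1 := fun j => by
    rw [← rs_resV_lt h (hA2V (huA j)), hub]
    exact hG3.lt j
  have hubf : (fun j => rs V1 (u j)) = ub := funext hub
  have hui : IndV V u := by
    refine ⟨fun j => hne (hu1 j), fun δ hδ => hG3.ind.indep δ ?_⟩
    have h1 : mon u δ ∈ V := (V.valuation_le_one_iff _).1 hδ.le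
    rw [← hubf, ← rs_mon u hu1, rs_resV_val h h1]
    exact hδ
  have hgen : ∀ z ∈ A2, V.valuation z < 1 → ∃ c : Fin r2 → K, (∀ j, c j ∈ A2) ∧
      V1.valuation (z - ∑ j, c j * u j) < 1 := by
    intro z hz hz1
    have h1 : rs V1 z ∈ B3 := by
      rw [← him]; exact (mem_im_iff hA2V1 _).2 ⟨z, hz, rfl⟩
    obtain ⟨cb, hcb, hs⟩ := hG3.gen _ h1 ((rs_resV_lt h (hA2V hz)).2 hz1)
    have h2 : ∀ j, ∃ z ∈ A2, rs V1 z = cb j := fun j => hlB3 _ (hcb j)
    choose c hc hcr using h2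
    refine ⟨c, hc, ?_⟩
    have h3 := rs_sum (V1 := V1) Finset.univ (fun j => c j * u j) fun j _ =>
      V1.mul_mem _ _ (hA2V1 (hc j)) (hA2V1 (huA j))
    rw [← rs_eq_zero (V1.sub_mem (hA2V1 hz) h3.2), rs_sub (hA2V1 hz) h3.2, h3.1, hs,
      sub_eq_zero]
    refine Finset.sum_congr rfl fun j _ => ?_
    rw [rs_mul (hA2V1 (hc j)) (hA2V1 (huA j)), hcr, hub]
  -- monomial residues
  have hmonres : ∀ w ∈ A2, MonV (resV V V1 h) B3 ub (rs V1 w) → ∃ ε ∈ A2, V.valuation ε = 1 ∧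
      ∃ β : Fin r2 → ℕ, V1.valuation (w - ε * monN u β) < 1 := by
    intro w hw hm
    obtain ⟨eb, heb, heb1, β, he⟩ := hm
    obtain ⟨ε, hε, hεr⟩ := hlB3 eb heb
    refine ⟨ε, hε, ?_, β, ?_⟩
    · rw [← rs_resV_val h (hA2V hε), hεr]; exact heb1
    · have h1 : monN u β ∈ V1 := hA2V1 (E0_monN_mem _ huA β)
      have h2 : ε * monN u β ∈ V1 := V1.mul_mem _ _ (hA2V1 hε) h1
      rw [← rs_eq_zero (V1.sub_mem (hA2V1 hw) h2), rs_sub (hA2V1 hw) h2,
        rs_mul (hA2V1 hε) h1, hεr, rs_monN u (fun j => hA2V1 (huA j)), hubf, ← he, sub_self]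
  -- a uniform denominator for the centre of `V1` in `A2`
  let Good : K → Prop := fun b => b ∈ A2 ∧ V1.valuation b = 1 ∧
    MonV (resV V V1 h) B3 ub (rs V1 b)
  have hGood1 : Good 1 := ⟨A2.one_mem, map_one _, by rw [rs_one]; exact MonV.one⟩
  have hGoodm : ∀ a b, Good a → Good b → Good (a * b) := by
    rintro a b ⟨ha, ha1, ham⟩ ⟨hb, hb1, hbm⟩
    exact ⟨mul_mem ha hb, by rw [map_mul, ha1, hb1, one_mul],
      by rw [rs_mul (hA2V1 ha) (hA2V1 hb)]; exact ham.mul hbm⟩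
  have hGoodW : ∀ w ∈ W1, Good w := by
    intro w hw
    exact ⟨hA12 (hW1 w hw).1, (hW1 w hw).2,
      hM3 _ (Finset.mem_image_of_mem _ (Finset.mem_union_left _ hw))⟩
  have hbW1 : b ∈ W1 :=
    Finset.mem_union_right _ (Finset.mem_union_right _ (Finset.mem_singleton_self b))
  have hdB2 : ∀ a ∈ B2, ∃ d, Good d ∧ d ∈ A1 ∧ d * a ∈ A1 := by
    intro a ha
    refine Subring.closure_induction (p := fun a _ => ∃ d, Good d ∧ d ∈ A1 ∧ d * a ∈ A1)
      ?_ ?_ ?_ ?_ ?_ ?_ ha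
    · rintro a (ha | ha)
      · exact ⟨1, hGood1, A1.one_mem, by rw [one_mul]; exact ha⟩
      · obtain ⟨s, hs, rfl⟩ := Finset.mem_image.1 ha
        obtain ⟨h1, h2, h3, h4, h5, h6, h7⟩ := hlift s hs
        exact ⟨ld s, ⟨hA12 h1, h3, h4⟩, h1, by rw [mul_comm, h5]; exact h2⟩
    · exact ⟨1, hGood1, A1.one_mem, by rw [mul_zero]; exact A1.zero_mem⟩
    · exact ⟨1, hGood1, A1.one_mem, by rw [mul_one]; exact A1.one_mem⟩
    · rintro a c _ _ ⟨d, hd, hdA, hda⟩ ⟨e, he, heA, hec⟩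
      refine ⟨d * e, hGoodm _ _ hd he, mul_mem hdA heA, ?_⟩
      have : d * e * (a + c) = e * (d * a) + d * (e * c) := by ring
      rw [this]
      exact add_mem (mul_mem heA hda) (mul_mem hdA hec)
    · rintro a _ ⟨d, hd, hdA, hda⟩
      exact ⟨d, hd, hdA, by rw [mul_neg]; exact neg_mem hda⟩
    · rintro a c _ _ ⟨d, hd, hdA, hda⟩ ⟨e, he, heA, hec⟩
      refine ⟨d * e, hGoodm _ _ hd he, mul_mem hdA heA, ?_⟩
      have : d * e * (a * c) = (d * a) * (e * c) := by ring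
      rw [this]
      exact mul_mem hda hec
  obtain ⟨b2, hb2, hb2P⟩ := E6_bound A2 (C3.cen V1 hA2V1) (Submodule.span A2 (Set.range x))
    Good hGood1 hGoodm (fun a ha => ha.1) (by
      intro z hz
      rw [C3.mem_cen] at hz
      obtain ⟨a, ha, c, hc, hc1, hzc⟩ := z.2
      obtain ⟨d, hd, hdA, hda⟩ := hdB2 a ha
      have hc0 : c ≠ 0 := hne (C1_val_one_of_le h hc1)
      have hci : c⁻¹ ∈ A2 := E5_inv hloc2 (hB2A2 hc) hc1
      have hda1 : V1.valuation (d * a) < 1 := by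
        rw [map_mul, hd.2.1, one_mul, ← hzc, map_mul, C1_val_one_of_le h hc1, mul_one]
        exact hz
      have h1 := hbP ⟨d * a, hda⟩ (by rw [C3.mem_cen]; exact hda1)
      obtain ⟨e, he, hes⟩ := (E6_mem_span _ _ _).1 h1
      refine ⟨b * d, hGoodm _ _ (hGoodW b hbW1) hd, (E6_mem_span _ _ _).2
        ⟨fun i => e i * c⁻¹, fun i => mul_mem (hA12 (he i)) hci, ?_⟩⟩
      have h2 : (z : K) = a * c⁻¹ := by rw [← hzc, mul_assoc, mul_inv_cancel₀ hc0, mul_one]
      have h3 : ∑ i, e i * c⁻¹ * x i = (∑ i, e i * x i) * c⁻¹ := by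
        rw [Finset.sum_mul]
        exact Finset.sum_congr rfl fun i _ => by ring
      rw [h3, ← hes, h2]
      show b * d * (a * c⁻¹) = b * (d * a) * c⁻¹
      ring)
  -- apply the last step
  obtain ⟨y, A3, hA3, hy1, hye, hind, hmem, hlt, hgen3, hWm, hLm⟩ := E5_final h A2 hA2V hloc2 x
    hG.ind (fun i => hA12 (hxA i)) hG.lt u huA hu1 hui hult hgen b2 hb2.2.1 (by
      intro z hz hz1
      exact (E6_mem_span _ _ _).1 (hb2P ⟨z, hz⟩ (by rw [C3.mem_cen]; exact hz1)))
    (insert b2 (W1 ∪ g3.image ld)) (Finset.mem_insert_self _ _) (by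
      intro w hw
      rcases Finset.mem_insert.1 hw with rfl | hw
      · exact ⟨hb2.1, hmonres _ hb2.1 hb2.2.2⟩
      rcases Finset.mem_union.1 hw with hw | hw
      · exact ⟨(hGoodW w hw).1, hmonres _ (hGoodW w hw).1 (hGoodW w hw).2.2⟩
      · obtain ⟨s, hs, rfl⟩ := Finset.mem_image.1 hw
        obtain ⟨h1, h2, h3, h4, h5, h6, h7⟩ := hlift s hs
        exact ⟨hA12 h1, hmonres _ (hA12 h1) h4⟩)
    L (by
      intro f hf
      obtain ⟨h1, h2, h3, h4, h5⟩ := hLe f hf
      refine ⟨(hL f hf).1, w1 f, ?_, w2 f, ?_, α f, h5, ?_⟩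
      · exact Finset.mem_insert_of_mem (Finset.mem_union_left _
          (Finset.mem_union_left _ (Finset.mem_image_of_mem _ hf)))
      · exact Finset.mem_insert_of_mem (Finset.mem_union_left _
          (Finset.mem_union_right _ (Finset.mem_union_left _ (Finset.mem_image_of_mem _ hf))))
      · intro h0
        rw [h0, E0_monN_zero, mul_one] at h5
        have hf1 : V1.valuation f = 1 := by
          have h6 := congrArg V1.valuation h5
          rw [map_mul, h3, h4, mul_one] at h6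
          exact h6
        obtain ⟨eb, heb, heb1, γ, he⟩ := hM3 _ (Finset.mem_image_of_mem _
          (Finset.mem_union_right _ (Finset.mem_filter.2 ⟨hf, hf1⟩)))
        obtain ⟨ε, hε, hεr⟩ := hlB3 eb heb
        have hε1 : V.valuation ε = 1 := by
          rw [← rs_resV_val h (hA2V hε), hεr]; exact heb1
        refine ⟨γ, ?_⟩
        have hfV := (hL f hf).1
        have h7 : monN u γ ∈ V1 := hA2V1 (E0_monN_mem _ huA γ)
        have h8 : ε * monN u γ ∈ V1 := V1.mul_mem _ _ (hA2V1 hε) h7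
        have h9 : V1.valuation (f - ε * monN u γ) < 1 := by
          rw [← rs_eq_zero (V1.sub_mem (h hfV) h8), rs_sub (h hfV) h8,
            rs_mul (hA2V1 hε) h7, hεr, rs_monN u (fun j => hA2V1 (huA j)), hubf, ← he, sub_self]
        have h10 : V1.valuation (ε * monN u γ) = 1 := by
          rw [map_mul, C1_val_one_of_le h hε1, one_mul]
          unfold monN
          rw [map_prod]
          exact Finset.prod_eq_one fun j _ => by rw [map_pow, hu1, one_pow]
        have h11 : V.valuation ((f - ε * monN u γ) / (ε * monN u γ)) < 1 := by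
          refine C1_lt_of_lt h ?_
          rw [map_div₀, h10, div_one]
          exact h9
        have h12 : f = (1 + (f - ε * monN u γ) / (ε * monN u γ)) * (ε * monN u γ) := by
          rw [add_mul, one_mul, div_mul_cancel₀ _ (hne h10)]
          ring
        rw [h12, map_mul, E5_val_add (map_one _) h11, one_mul, map_mul, hε1, one_mul])
  have hset : A3 = locV V (Subring.closure ((A1 : Set K) ∪
      ((g3' ∪ Finset.univ.image y : Finset K) : Set K))) := by
    rw [hA3, hA2, locV_closure_locV (le_refl V), hB2, A2_closure_closure]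
    congr 3
    simp
  have hA23 : A2 ≤ A3 := by
    rw [hA3]
    exact fun z hz => le_locV _ _ (Subring.subset_closure (Or.inl hz))
  refine ⟨g3' ∪ Finset.univ.image y, Fin.append y u, A3, ?_, hset, hmem, hlt, hind, hgen3, hLm,
    ?_⟩
  · intro t ht
    rcases Finset.mem_union.1 ht with ht | ht
    · exact hg3'V t ht
    · obtain ⟨i, _, rfl⟩ := Finset.mem_image.1 ht
      exact (V.valuation_le_one_iff _).1 (C1_lt_of_lt h (hy1 i)).le
  · intro hden z hz
    have h1 : B2 ≤ denRing V A A3 (Fin.append y u) := by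
      rw [hB2, Subring.closure_le]
      rintro a (ha | ha)
      · exact hden ha
      · obtain ⟨s, hs, rfl⟩ := Finset.mem_image.1 ha
        obtain ⟨h1, h2, h3, h4, h5, h6, h7⟩ := hlift s hs
        refine Den.div (hden h2) (hden h1) (hWm _ ?_) h5
        exact Finset.mem_insert_of_mem (Finset.mem_union_right _ (Finset.mem_image_of_mem _ hs))
    have h2 : A2 ≤ denRing V A A3 (Fin.append y u) := locV_le_denRing h1 (hB2A2.trans hA23)
    have h3 : Subring.closure ((A2 : Set K) ∪ Set.range y) ≤ denRing V A A3 (Fin.append y u) := by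
      rw [Subring.closure_le]
      rintro a (ha | ⟨i, rfl⟩)
      · exact h2 ha
      · obtain ⟨e, he, hem, hex⟩ := hye i
        exact Den.div (h2 (hA12 (hxA i))) (h2 he) hem hex
    have h4 : A3 ≤ denRing V A A3 (Fin.append y u) := by
      have h5 : locV V (Subring.closure ((A2 : Set K) ∪ Set.range y)) ≤
          denRing V A A3 (Fin.append y u) := by
        refine locV_le_denRing h3 ?_
        rw [hA3]
        exact le_locV _ _
      rw [← hA3] at h5
      exact h5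
    exact h4 hz

end

end Pool.Agent.Lib.MP_3029eb_ag.Abh
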