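import Pool.Agent.Lib.MP_3029eb_ag.AbhE9
import Pool.Agent.Lib.MP_3029eb_ag.AbhE3
import Pool.Agent.Lib.MP_3029eb_ag.AbhE7
import Pool.Agent.Lib.MP_3029eb_ag.AbhAll

/-!
Module E10: embedded local uniformization in rank one, and elementary reductions.
-/

open IsLocalRing

namespace Pool.Agent.Lib.MP_3029eb_ag.Abh
open Pool.Agent.Lib.MP_3029eb_ag

open Classical in
theorem EMB_trans {K : Type} [Field K] (V : ValuationSubring K) (A : Subring K) (g : Finset K)
    (hg : ∀ t ∈ g, t ∈ V ∧ ∃ a ∈ A, ∃ b ∈ A, b ≠ 0 ∧ t * b = a) {r : ℕ}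
    (h : EMB V (locV V (Subring.closure ((A : Set K) ∪ (g : Set K)))) r)
    (hA : A ≤ V.toSubring) : EMB V A r := by
  intro s hs
  have hgf : ∀ f : K, ∃ a b : K, f ∈ g → a ∈ A ∧ b ∈ A ∧ b ≠ 0 ∧ f * b = a := by
    intro f
    by_cases hf : f ∈ g
    · obtain ⟨_, a, ha, b, hb, hb0, h⟩ := hg f hf
      exact ⟨a, b, fun _ => ⟨ha, hb, hb0, h⟩⟩
    · exact ⟨0, 0, fun h => absurd h hf⟩
  choose ag bg hag using hgf
  set B1 := Subring.closure ((A : Set K) ∪ (g : Set K)) with hB1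
  set A1 := locV V B1 with hA1
  have hAB : A ≤ B1 := fun z hz => Subring.subset_closure (Or.inl hz)
  have hB1A : B1 ≤ A1 := le_locV _ _
  have hAA1 : A ≤ A1 := hAB.trans hB1A
  obtain ⟨g', u, hg', hG, hM⟩ := h (s ∪ g.image bg) (by
    intro f hf
    rcases Finset.mem_union.1 hf with hf | hf
    · obtain ⟨h1, h2, a, ha, b, hb, hb0, h3⟩ := hs f hf
      exact ⟨h1, h2, a, hAA1 ha, b, hAA1 hb, hb0, h3⟩
    · obtain ⟨t, ht, rfl⟩ := Finset.mem_image.1 hf
      obtain ⟨h1, h2, h3, h4⟩ := hag t ht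
      exact ⟨h3, hA h2, bg t, hAA1 h2, 1, A1.one_mem, one_ne_zero, mul_one _⟩)
  have hset : locV V (Subring.closure ((A1 : Set K) ∪ (g' : Set K))) =
      locV V (Subring.closure ((A : Set K) ∪ ((g ∪ g' : Finset K) : Set K))) := by
    rw [hA1, locV_closure_locV (le_refl V), hB1, A2_closure_closure, Finset.coe_union]
  rw [hset] at hG hM
  set A2 := locV V (Subring.closure ((A : Set K) ∪ ((g ∪ g' : Finset K) : Set K))) with hA2
  have hA12 : A1 ≤ A2 := by
    rw [← hset]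
    exact fun z hz => le_locV _ _ (Subring.subset_closure (Or.inl hz))
  refine ⟨g ∪ g', u, ?_, ?_, ?_⟩
  · intro t ht
    rcases Finset.mem_union.1 ht with ht | ht
    · exact (hg t ht).1
    · exact hg' t ht
  · refine ⟨hG.ind, hG.mem, hG.lt, hG.gen, fun z hz => ?_⟩
    have h1 : B1 ≤ denRing V A A2 u := by
      rw [hB1, Subring.closure_le]
      rintro x (hx | hx)
      · exact Den.of_mem hx
      · obtain ⟨h1, h2, h3, h4⟩ := hag x hx
        exact Den.div (Den.of_mem h1) (Den.of_mem h2)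
          (hM _ (Finset.mem_union_right _ (Finset.mem_image_of_mem _ hx))) h4
    have h2 : A1 ≤ denRing V A A2 u := locV_le_denRing h1 (hB1A.trans hA12)
    obtain ⟨D, hD, hDm, hDz⟩ := hG.den z hz
    exact Den.div (h2 hDz) (h2 hD) hDm (mul_comm _ _)
  · intro f hf
    exact hM f (Finset.mem_union_left _ hf)

theorem E10_locV_map {K0 K : Type} [Field K0] [Field K] (φ : K0 →+* K)
    (V : ValuationSubring K) (V0 : ValuationSubring K0)
    (hV0u : ∀ z, V0.valuation z = 1 ↔ V.valuation (φ z) = 1) (C : Subring K0) (z : K) :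
    z ∈ locV V (C.map φ) ↔ ∃ z0 ∈ locV V0 C, φ z0 = z := by
  constructor
  · rintro ⟨_, ⟨a, ha, rfl⟩, _, ⟨b, hb, rfl⟩, hb1, hz⟩
    have hb1' : V0.valuation b = 1 := (hV0u b).2 hb1
    have hb0 : b ≠ 0 := by
      rintro rfl
      rw [map_zero] at hb1'
      exact zero_ne_one hb1'
    refine ⟨a / b, ⟨a, ha, b, hb, hb1', div_mul_cancel₀ _ hb0⟩, ?_⟩
    rw [map_div₀, ← hz, mul_div_assoc, div_self, mul_one]
    rwa [Ne, map_eq_zero]
  · rintro ⟨z0, ⟨a, ha, b, hb, hb1, hz⟩, rfl⟩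
    exact ⟨φ a, ⟨a, ha, rfl⟩, φ b, ⟨b, hb, rfl⟩, (hV0u b).1 hb1, by rw [← hz, map_mul]⟩

theorem E10_MonV_map {K0 K : Type} [Field K0] [Field K] (φ : K0 →+* K)
    (V : ValuationSubring K) (V0 : ValuationSubring K0)
    (hV0u : ∀ z, V0.valuation z = 1 ↔ V.valuation (φ z) = 1) {B : Subring K} {B0 : Subring K0}
    (hB : ∀ z ∈ B0, φ z ∈ B) {r : ℕ} {u : Fin r → K0} {f : K0} (h : MonV V0 B0 u f) :
    MonV V B (fun i => φ (u i)) (φ f) := by
  obtain ⟨w, hw, hw1, β, rfl⟩ := h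
  refine ⟨φ w, hB w hw, (hV0u w).1 hw1, β, ?_⟩
  rw [map_mul]
  congr 1
  unfold monN
  rw [map_prod]
  exact Finset.prod_congr rfl fun i _ => map_pow _ _ _

open Classical in
theorem EMB_map {K0 K : Type} [Field K0] [Field K] (φ : K0 →+* K)
    (V : ValuationSubring K) (V0 : ValuationSubring K0) (hV0 : ∀ z, z ∈ V0 ↔ φ z ∈ V)
    (hV0u : ∀ z, V0.valuation z = 1 ↔ V.valuation (φ z) = 1) (A : Subring K)
    (A0 : Subring K0) (hmap : A0.map φ = A) {r : ℕ}
    (hfrac : ∀ z : K0, ∃ a ∈ A0, ∃ b ∈ A0, b ≠ 0 ∧ z * b = a)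
    (hsurj : ∀ z : K, (∃ a ∈ A, ∃ b ∈ A, b ≠ 0 ∧ z * b = a) → ∃ z0, φ z0 = z)
    (h : EMB V0 A0 r) : EMB V A r := by
  intro s hs
  have hlift : ∀ f : K, ∃ f0 : K0, f ∈ s → φ f0 = f := by
    intro f
    by_cases hf : f ∈ s
    · obtain ⟨f0, hf0⟩ := hsurj f (hs f hf).2.2
      exact ⟨f0, fun _ => hf0⟩
    · exact ⟨0, fun h => absurd h hf⟩
  choose l hl using hlift
  obtain ⟨g0, u0, hg0, hG, hM⟩ := h (s.image l) (by
    intro f0 hf0
    obtain ⟨f, hf, rfl⟩ := Finset.mem_image.1 hf0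
    obtain ⟨h1, h2, _⟩ := hs f hf
    refine ⟨?_, ?_, hfrac _⟩
    · intro h0
      rw [← hl f hf, h0, map_zero] at h1
      exact h1 rfl
    · rw [hV0, hl f hf]; exact h2)
  have hcl : Subring.closure ((A : Set K) ∪ ((g0.image φ : Finset K) : Set K)) =
      (Subring.closure ((A0 : Set K0) ∪ (g0 : Set K0))).map φ := by
    rw [RingHom.map_closure, Set.image_union, Finset.coe_image, ← hmap]
    rfl
  have hmem : ∀ z : K, z ∈ locV V (Subring.closure ((A : Set K) ∪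
      ((g0.image φ : Finset K) : Set K))) ↔
      ∃ z0 ∈ locV V0 (Subring.closure ((A0 : Set K0) ∪ (g0 : Set K0))), φ z0 = z := by
    intro z
    rw [hcl]
    exact E10_locV_map φ V V0 hV0u _ z
  set B := locV V (Subring.closure ((A : Set K) ∪ ((g0.image φ : Finset K) : Set K)))
  set B0 := locV V0 (Subring.closure ((A0 : Set K0) ∪ (g0 : Set K0)))
  have hB : ∀ z ∈ B0, φ z ∈ B := fun z hz => (hmem _).2 ⟨z, hz, rfl⟩
  have hlt : ∀ z, V0.valuation z < 1 ↔ V.valuation (φ z) < 1 := by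
    intro z
    constructor
    · intro h1
      have h2 : φ z ∈ V := (hV0 z).1 ((V0.valuation_le_one_iff z).1 h1.le)
      exact lt_of_le_of_ne ((V.valuation_le_one_iff _).2 h2) fun h3 => h1.ne ((hV0u z).2 h3)
    · intro h1
      have h2 : z ∈ V0 := (hV0 z).2 ((V.valuation_le_one_iff _).1 h1.le)
      exact lt_of_le_of_ne ((V0.valuation_le_one_iff _).2 h2) fun h3 => h1.ne ((hV0u z).1 h3)
  refine ⟨g0.image φ, fun i => φ (u0 i), ?_, ?_, ?_⟩
  · intro t ht
    obtain ⟨t0, ht0, rfl⟩ := Finset.mem_image.1 ht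
    exact (hV0 t0).1 (hg0 t0 ht0)
  · refine ⟨⟨fun i => ?_, fun δ hδ => ?_⟩, fun i => hB _ (hG.mem i), fun i => (hlt _).1 (hG.lt i),
      ?_, ?_⟩
    · rw [Ne, map_eq_zero]; exact hG.ind.ne i
    · refine hG.ind.indep δ ?_
      rw [hV0u, map_monF]
      exact hδ
    · intro z hz hz1
      obtain ⟨z0, hz0, rfl⟩ := (hmem z).1 hz
      obtain ⟨c, hc, hs⟩ := hG.gen z0 hz0 ((hlt z0).2 hz1)
      refine ⟨fun i => φ (c i), fun i => hB _ (hc i), ?_⟩
      rw [hs, map_sum]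
      exact Finset.sum_congr rfl fun i _ => map_mul _ _ _
    · intro z hz
      obtain ⟨z0, hz0, rfl⟩ := (hmem z).1 hz
      obtain ⟨D, hD, hDm, hDz⟩ := hG.den z0 hz0
      refine ⟨φ D, ?_, E10_MonV_map φ V V0 hV0u hB hDm, ?_⟩
      · rw [← hmap]; exact ⟨D, hD, rfl⟩
      · rw [← hmap, ← map_mul]; exact ⟨_, hDz, rfl⟩
  · intro f hf
    have h1 := E10_MonV_map φ V V0 hV0u hB (hM _ (Finset.mem_image_of_mem l hf))
    rw [hl f hf] at h1
    exact h1

theorem EMB_top {K : Type} [Field K] (V : ValuationSubring K) (hV : V = ⊤) (A : Subring K)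
    (hloc : locV V A = A) : EMB V A 0 := by
  have hval : ∀ z : K, z ≠ 0 → V.valuation z = 1 := by
    intro z hz
    rw [C1_val_one_iff]
    refine ⟨?_, ?_, hz⟩ <;> rw [hV] <;> exact ValuationSubring.mem_top _
  intro s hs
  have hset : locV V (Subring.closure ((A : Set K) ∪ ((∅ : Finset K) : Set K))) = A := by
    rw [Finset.coe_empty, Set.union_empty, Subring.closure_eq, hloc]
  refine ⟨∅, Fin.elim0, fun t ht => absurd ht (Finset.notMem_empty t), ?_, ?_⟩
  · rw [hset]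
    refine ⟨⟨fun i => i.elim0, fun δ _ => funext fun i => i.elim0⟩, fun i => i.elim0,
      fun i => i.elim0, fun z _ hz1 => ⟨Fin.elim0, fun i => i.elim0, ?_⟩,
      fun z hz => ⟨1, A.one_mem, MonV.one, by rw [one_mul]; exact hz⟩⟩
    by_contra hne
    have h0 : z ≠ 0 := by
      intro h0
      apply hne
      rw [h0]
      simp
    rw [hval z h0] at hz1
    exact lt_irrefl _ hz1
  · rw [hset]
    intro f hf
    obtain ⟨hf0, _, a, ha, b, hb, hb0, hab⟩ := hs f hf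
    refine MonV.of_unit ?_ (hval f hf0)
    rw [← hloc]
    exact ⟨a, ha, b, hb, hval b hb0, hab⟩

section

variable (Rb : Type) [CommRing Rb] [IsNoetherianRing Rb]
  (hRb : ∀ (B : Type) [CommRing B] [IsDomain B] [IsLocalRing B] [IsNoetherianRing B]
    (f : Rb →+* B), EFT f → AnUnr B)

include hRb in
theorem EMB_ball_aux2 {K : Type} [NontriviallyNormedField K] [IsUltrametricDist K] (A : Subring K)
    (hA : A ≤ (ball K).toSubring) (hloc : locV (ball K) A = A)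
    (f : Rb →+* A) (hf : EFT f) (hfrac : ∀ z : K, ∃ a ∈ A, ∃ b ∈ A, b ≠ 0 ∧ z * b = a)
    {r : ℕ} (hr : 0 < r) (u : Fin r → K) (hu : Indep u) (huA : ∀ i, u i ∈ A)
    (hdim : ringKrullDim A ≤ r)
    (hstab : ∀ z : K, ‖z‖ < 1 → ∀ ε : ℝ, 0 < ε → ∃ (n : ℕ) (ρ : Fin n → K)
      (δ : Fin n → (Fin r → ℤ)), (∀ l, ρ l ∈ A) ∧ (∀ l, ‖mon u (δ l)‖ < 1) ∧
        ‖z - ∑ l, ρ l * mon u (δ l)‖ < ε) :
    EMB (ball K) A r := by
  have j1 : IsNoetherianRing A := hf.isNoetherianRing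
  have j2 : IsLocalRing A := by
    have h1 := isLocalRing_locV (ball K) hA
    rwa [hloc] at h1
  have hG : AnUnr A := hRb _ _ hf
  obtain ⟨g3, u2, hg3, hu2, hu2A, hgen⟩ := abh_final_par A hA hloc hG hr hdim u hu huA hstab
  exact E3_emb A hA g3 (fun t ht => ⟨(hg3 t ht).le, hfrac t⟩) u2 hu2 hu2A hgen

include hRb in
theorem EMB_ball_aux1 {K : Type} [NontriviallyNormedField K] [IsUltrametricDist K] (A : Subring K)
    (hA : A ≤ (ball K).toSubring) (hloc : locV (ball K) A = A)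
    (f : Rb →+* A) (hf : EFT f) (hfrac : ∀ z : K, ∃ a ∈ A, ∃ b ∈ A, b ≠ 0 ∧ z * b = a)
    {r : ℕ} (hr : 0 < r) (x : Fin r → K) (hx : Indep x) (hxA : ∀ i, x i ∈ A)
    (hdim : ringKrullDim A ≤ r) : EMB (ball K) A r := by
  have i1 : IsNoetherianRing A := hf.isNoetherianRing
  have i2 : IsLocalRing A := by
    have h1 := isLocalRing_locV (ball K) hA
    rwa [hloc] at h1
  have hdom1 := dom_subtype A hA hloc
  obtain ⟨r', u, g, hrr', hu, hug, hg1, hstab⟩ := stability' A hdom1 (fun z => by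
    obtain ⟨a, ha, b, hb, hb0, hz⟩ := hfrac z
    exact ⟨a, ha, b, hb, hb0, by rw [← hz, mul_div_cancel_right₀ _ hb0]⟩) hr hdim x hx hxA
  have hg : ∀ t ∈ g, t ∈ ball K ∧ ∃ a ∈ A, ∃ b ∈ A, b ≠ 0 ∧ t * b = a :=
    fun t ht => ⟨hg1 t ht, hfrac t⟩
  refine EMB_trans (ball K) A g hg ?_ hA
  have hB2 : Subring.closure ((A : Set K) ∪ (g : Set K)) ≤ (ball K).toSubring :=
    closure_le_ball A hA _ fun t ht => (hg t ht).1
  have hdim2 := (krullDim_adjoin (ball K) A hA hloc g hg).trans hdim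
  have hcl : Subring.closure ((A : Set K) ∪ (g : Set K)) ≤
      locV (ball K) (Subring.closure ((A : Set K) ∪ (g : Set K))) := le_locV _ _
  have humem : ∀ i, u i ∈ locV (ball K) (Subring.closure ((A : Set K) ∪ (g : Set K))) := fun i =>
    hcl (Subring.subset_closure (Or.inr (hug i)))
  have hAA2 : A ≤ locV (ball K) (Subring.closure ((A : Set K) ∪ (g : Set K))) :=
    fun a ha => le_locV _ _ (Subring.subset_closure (Or.inl ha))
  have hf2 : EFT ((Subring.inclusion hAA2).comp f) :=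
    EFT_locV (ball K) A _ hf g (Subring.inclusion hAA2) (fun a => rfl)
  have hA2 : locV (ball K) (Subring.closure ((A : Set K) ∪ (g : Set K))) ≤ (ball K).toSubring :=
    locV_le _ hB2
  have hloc2 : locV (ball K) (locV (ball K) (Subring.closure ((A : Set K) ∪ (g : Set K)))) =
      locV (ball K) (Subring.closure ((A : Set K) ∪ (g : Set K))) := locV_locV _ _
  have hfrac2 : ∀ z : K, ∃ a ∈ locV (ball K) (Subring.closure ((A : Set K) ∪ (g : Set K))),
      ∃ b ∈ locV (ball K) (Subring.closure ((A : Set K) ∪ (g : Set K))), b ≠ 0 ∧ z * b = a := by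
    intro z
    obtain ⟨a, ha, b, hb, hb0, hz⟩ := hfrac z
    exact ⟨a, hAA2 ha, b, hAA2 hb, hb0, hz⟩
  have hstab2 : ∀ z : K, ‖z‖ < 1 → ∀ ε : ℝ, 0 < ε → ∃ (n : ℕ) (ρ : Fin n → K)
      (δ : Fin n → (Fin r' → ℤ)),
        (∀ l, ρ l ∈ locV (ball K) (Subring.closure ((A : Set K) ∪ (g : Set K)))) ∧
        (∀ l, ‖mon u (δ l)‖ < 1) ∧ ‖z - ∑ l, ρ l * mon u (δ l)‖ < ε := by
    intro z hz ε hε
    obtain ⟨n, ρ, δ, h1, h2, h3⟩ := hstab z hz ε hε
    exact ⟨n, ρ, δ, fun l => hcl (h1 l), h2, h3⟩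
  have hn2 := hf2.isNoetherianRing
  have hr' : r' = r := by
    have h1 := le_dim_ball _ hA2 hloc2 hfrac2 u (E2_IndV hu)
    have h2 : (r' : WithBot ℕ∞) ≤ (r : WithBot ℕ∞) := h1.trans hdim2
    have h3 : r' ≤ r := by exact_mod_cast h2
    omega
  subst hr'
  exact EMB_ball_aux2 Rb hRb _ hA2 hloc2 _ hf2 hfrac2 hr u hu humem hdim2 hstab2

include hRb in
open Classical in
theorem EMB_ball {K : Type} [NontriviallyNormedField K] [IsUltrametricDist K] (A : Subring K)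
    (hA : A ≤ (ball K).toSubring) (hloc : locV (ball K) A = A)
    (f : Rb →+* A) (hf : EFT f) (hfrac : ∀ z : K, ∃ a ∈ A, ∃ b ∈ A, b ≠ 0 ∧ z * b = a)
    {r : ℕ} (x : Fin r → K) (hx : IndV (ball K) x) (hdim : ringKrullDim A ≤ r) :
    EMB (ball K) A r := by
  have hAn : IsNoetherianRing A := hf.isNoetherianRing
  rcases Nat.eq_zero_or_pos r with rfl | hr
  · exact EMB_top _ (eq_top_of_dim_zero _ A hA hfrac (by simpa using hdim)) A hloc
  obtain ⟨x', -, hx', hlt⟩ := hx.exists_inv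
  have hind := hx'.indep_ball hlt
  have hg0 : ∀ t ∈ Finset.univ.image x', t ∈ ball K ∧ ∃ a ∈ A, ∃ b ∈ A, b ≠ 0 ∧ t * b = a := by
    intro t ht
    obtain ⟨i, -, rfl⟩ := Finset.mem_image.1 ht
    exact ⟨((ball_val_lt_one _).1 (hlt i)).le, hfrac _⟩
  refine EMB_trans (ball K) A (Finset.univ.image x') hg0 ?_ hA
  have hB : Subring.closure ((A : Set K) ∪ (Finset.univ.image x' : Finset K)) ≤
      (ball K).toSubring :=
    closure_le_ball A hA _ fun t ht => (hg0 t ht).1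
  have hdim1 := (krullDim_adjoin (ball K) A hA hloc (Finset.univ.image x') hg0).trans hdim
  have hAA1 : A ≤ locV (ball K) (Subring.closure ((A : Set K) ∪ (Finset.univ.image x' : Finset K))) :=
    fun a ha => le_locV _ _ (Subring.subset_closure (Or.inl ha))
  refine EMB_ball_aux1 Rb hRb _ (locV_le _ hB) (locV_locV _ _) _
    (EFT_locV (ball K) A f hf (Finset.univ.image x') (Subring.inclusion hAA1) (fun a => rfl))
    ?_ hr x' hind ?_ hdim1
  · intro z
    obtain ⟨a, ha, b, hb, hb0, hz⟩ := hfrac z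
    exact ⟨a, hAA1 ha, b, hAA1 hb, hb0, hz⟩
  · intro i
    exact le_locV _ _ (Subring.subset_closure (Or.inr
      (Finset.mem_coe.2 (Finset.mem_image_of_mem _ (Finset.mem_univ i)))))

include hRb in
theorem EMB_absval {K : Type} [Field K] (V : ValuationSubring K) (v : AbsoluteValue K ℝ)
    (hna : ∀ a b, v (a + b) ≤ max (v a) (v b)) (hnt : ∃ x, x ≠ 0 ∧ v x < 1)
    (hV : ∀ z, z ∈ V ↔ v z ≤ 1) (A : Subring K) (hA : A ≤ V.toSubring)
    (hloc : locV V A = A) (f : Rb →+* A) (hf : EFT f)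
    (hfrac : ∀ z : K, ∃ a ∈ A, ∃ b ∈ A, b ≠ 0 ∧ z * b = a)
    {r : ℕ} (x : Fin r → K) (hx : IndV V x) (hdim : ringKrullDim A ≤ r) : EMB V A r := by
  let iN : NormedField K := v.toNormedField
  have hnorm : ∀ z : K, ‖z‖ = v z := fun z => rfl
  let iNN : NontriviallyNormedField K :=
    { v.toNormedField with
      non_trivial := by
        obtain ⟨y, hy0, hy⟩ := hnt
        refine ⟨y⁻¹, ?_⟩
        have h1 : v y⁻¹ = (v y)⁻¹ := map_inv₀ v y
        show 1 < v y⁻¹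
        rw [h1]
        exact (one_lt_inv₀ (v.pos hy0)).2 hy }
  have iU : IsUltrametricDist K := IsUltrametricDist.isUltrametricDist_of_forall_norm_add_le_max_norm hna
  have hVb : V = ball K := by
    ext z
    rw [hV, mem_ball]
    exact Iff.rfl
  subst hVb
  exact EMB_ball Rb hRb A hA hloc f hf hfrac x hx hdim

end

end Pool.Agent.Lib.MP_3029eb_ag.Abh
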