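import Pool.Agent.Lib.MP_3029eb_ag.AbhE8
import Pool.Agent.Lib.MP_3029eb_ag.AbhMain
import Pool.Agent.Lib.MP_3029eb_ag.Comp3

/-!
Module E13: for analytically unramified rings the Jacobian condition is automatic at an Abhyankar
valuation.
-/

open IsLocalRing

namespace Pool.Agent.Lib.MP_3029eb_ag.Abh
open Pool.Agent.Lib.MP_3029eb_ag

/-- `B` is analytically unramified: its completion is reduced. -/
def AnUnr (B : Type) [CommRing B] [IsLocalRing B] : Prop :=
  IsReduced (AdicCompletion (maximalIdeal B) B)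

theorem regular_of_reduced (T : Type) [CommRing T] [IsLocalRing T] [IsNoetherianRing T]
    [IsReduced T] {L : Type} [NormedField L] [IsUltrametricDist L] (φ : T →+* L) (hφ : Dom φ)
    [(RingHom.ker φ).IsPrime] {r : ℕ} (hdim : ringKrullDim T ≤ r) (x : Fin r → T)
    (hx : Indep (fun i => φ (x i))) :
    IsRegularLocalRing (Localization.AtPrime (RingHom.ker φ)) := by
  set P := RingHom.ker φ with hP
  have hsurj : Function.Surjective (Ideal.Quotient.mk P) := Ideal.Quotient.mk_surjective
  have : IsLocalRing (T ⧸ P) := IsLocalRing.of_surjective' _ hsurj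
  let φ' : T ⧸ P →+* L := Ideal.Quotient.lift P φ fun a ha => ha
  have hφ'm : ∀ a, φ' (Ideal.Quotient.mk P a) = φ a := fun a => Ideal.Quotient.lift_mk _ _ _
  have hlocal : IsLocalHom (Ideal.Quotient.mk P) := hsurj.isLocalHom
  have hφ' : Dom φ' := by
    intro a
    obtain ⟨a, rfl⟩ := hsurj a
    rw [hφ'm]
    refine ⟨(hφ a).1, ?_⟩
    rw [← (hφ a).2, mem_maximalIdeal, mem_maximalIdeal, mem_nonunits_iff, mem_nonunits_iff,
      isUnit_map_iff]
  have h1 : (r : WithBot ℕ∞) ≤ ringKrullDim (T ⧸ P) :=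
    krullDim_ge (T ⧸ P) φ' hφ' (fun i => Ideal.Quotient.mk P (x i)) (by
      simp only [hφ'm]
      exact hx)
  have h2 : (P.height : WithBot ℕ∞) + r ≤ r :=
    (add_le_add le_rfl h1).trans ((C3.height_add_le P).trans hdim)
  have h3 : P.height = 0 := by
    have h4 : ((P.height + (r : ℕ∞) : ℕ∞) : WithBot ℕ∞) ≤ ((r : ℕ∞) : WithBot ℕ∞) := by
      push_cast
      exact h2
    have h5 : P.height + (r : ℕ∞) ≤ (r : ℕ∞) := by exact_mod_cast h4
    by_contra hne
    have h6 : (1 : ℕ∞) ≤ P.height := Order.one_le_iff_pos.2 (pos_iff_ne_zero.2 hne)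
    have h7 : (1 : ℕ∞) + r ≤ r := (add_le_add h6 le_rfl).trans h5
    have h8 : ((1 + r : ℕ) : ℕ∞) ≤ (r : ℕ∞) := by push_cast; exact h7
    have h9 : 1 + r ≤ r := by exact_mod_cast h8
    omega
  have h4 : ringKrullDim (Localization.AtPrime P) = 0 := by
    rw [IsLocalization.AtPrime.ringKrullDim_eq_height P, h3]
    rfl
  have h5 : Ring.KrullDimLE 0 (Localization.AtPrime P) :=
    (Ring.krullDimLE_iff (n := 0) (R := Localization.AtPrime P)).2 (by rw [h4]; exact le_rfl)
  have h6 : IsReduced (Localization.AtPrime P) :=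
    isReduced_localizationPreserves P.primeCompl (Localization.AtPrime P) inferInstance
  have h7 : IsField (Localization.AtPrime P) := Ring.KrullDimLE.isField_of_isReduced
  let := h7.toField
  infer_instance

end Pool.Agent.Lib.MP_3029eb_ag.Abh
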