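import Pool.Agent.Lib.MP_3029eb_ag.AbhE0
import Pool.Agent.Lib.MP_3029eb_ag.AbhE1

/-!
Module E2: monomialization by one Perron transform.
-/

open IsLocalRing

namespace Pool.Agent.Lib.MP_3029eb_ag.Abh
open Pool.Agent.Lib.MP_3029eb_ag

section

variable {K : Type} [NormedField K] [IsUltrametricDist K] {r : ℕ}

theorem E2_ball (V : Subring K) : V ≤ (ball K).toSubring ↔ ∀ z ∈ V, ‖z‖ ≤ 1 := Iff.rfl

theorem E2_lt_iff (z : K) : (ball K).valuation z < 1 ↔ ‖z‖ < 1 := by
  constructor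
  · intro h
    have h1 : ‖z‖ ≤ 1 := (mem_ball z).1 (((ball K).valuation_le_one_iff z).1 h.le)
    refine lt_of_le_of_ne h1 fun h2 => ?_
    rw [(J7_val_one_iff z).2 h2] at h
    exact lt_irrefl _ h
  · intro h
    have h1 : (ball K).valuation z ≤ 1 := ((ball K).valuation_le_one_iff z).2 h.le
    refine lt_of_le_of_ne h1 fun h2 => ?_
    rw [(J7_val_one_iff z).1 h2] at h
    exact lt_irrefl _ h

theorem E2_IndV {u : Fin r → K} (hu : Indep u) : IndV (ball K) u :=
  ⟨hu.ne, fun δ h => hu.indep δ ((J7_val_one_iff _).1 h)⟩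

omit [IsUltrametricDist K] in
theorem E2_norm_pos {u : Fin r → K} (hu : Indep u) (β : Fin r → ℕ) : 0 < ‖monN u β‖ :=
  norm_pos_iff.2 (E0_monN_ne hu.ne β)

omit [IsUltrametricDist K] in
theorem E2_sub {u : Fin r → K} (hu : Indep u) (β γ : Fin r → ℕ) :
    mon u (fun i => (β i : ℤ) - (γ i : ℤ)) = monN u β / monN u γ := by
  have h1 : (fun i => (β i : ℤ) - (γ i : ℤ)) = (fun i => (β i : ℤ)) + -(fun i => (γ i : ℤ)) := by
    funext i
    exact sub_eq_add_neg _ _
  rw [h1, mon_add u hu.ne, mon_neg, mon_natCast, mon_natCast, div_eq_mul_inv]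

/-- the new maximal ideal -/
theorem E2_gen (A1 : Subring K) (hA1 : A1 ≤ (ball K).toSubring) (hloc : locV (ball K) A1 = A1)
    (u : Fin r → K) (hu : Indep u)
    (hgen : ∀ z ∈ A1, ‖z‖ < 1 → ∃ c : Fin r → K, (∀ i, c i ∈ A1) ∧ z = ∑ i, c i * u i)
    (u' : Fin r → K) (hu' : Indep u') (Am : Fin r → Fin r → ℕ) (hAm : ∀ i, u i = monN u' (Am i))
    (A2 : Subring K)
    (hA2 : A2 = locV (ball K) (Subring.closure ((A1 : Set K) ∪ Set.range u'))) :
    ∀ z ∈ A2, ‖z‖ < 1 → ∃ c : Fin r → K, (∀ i, c i ∈ A2) ∧ z = ∑ i, c i * u' i := by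
  classical
  have hgr : Set.range u' = ((Finset.univ.image u' : Finset K) : Set K) := by simp
  rw [hgr] at hA2
  subst hA2
  set g : Finset K := Finset.univ.image u' with hg
  set B := Subring.closure ((A1 : Set K) ∪ (g : Set K)) with hB
  have hg1 : ∀ t ∈ g, ‖t‖ < 1 := by
    intro t ht
    obtain ⟨i, _, rfl⟩ := Finset.mem_image.1 ht
    exact hu'.lt i
  have hBV : B ≤ (ball K).toSubring := by
    rw [hB, Subring.closure_le]
    rintro x (hx | hx)
    · exact hA1 hx
    · exact (hg1 x hx).le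
  have : IsLocalRing (locV (ball K) B) := isLocalRing_locV _ hBV
  have hgi : ∀ i, u' i ∈ B := fun i =>
    Subring.subset_closure (Or.inr (Finset.mem_image_of_mem _ (Finset.mem_univ i)))
  have hgL : ∀ i, u' i ∈ locV (ball K) B := fun i => le_locV _ _ (hgi i)
  -- the ideal generated by the `u' i`, as a set of elements of `K`
  have key : ∀ z : locV (ball K) B, z ∈ maximalIdeal (locV (ball K) B) →
      z ∈ Ideal.span (Set.range fun i => (⟨u' i, hgL i⟩ : locV (ball K) B)) := by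
    have h1 := maximalIdeal_locV A1 hA1 hloc g hg1
    refine le_trans h1 ?_
    rw [Ideal.span_le]
    rintro b (hb | ⟨hb, hb1⟩)
    · obtain ⟨i, _, hi⟩ := Finset.mem_image.1 hb
      exact Ideal.subset_span ⟨i, Subtype.ext hi⟩
    · obtain ⟨c, hc, hbc⟩ := hgen b hb hb1
      have hui : ∀ i, ∃ y : locV (ball K) B, (y : K) = u i ∧
          y ∈ Ideal.span (Set.range fun i => (⟨u' i, hgL i⟩ : locV (ball K) B)) := by
        intro i
        have h2 : Am i ≠ 0 := by
          intro h0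
          have h3 := hu.lt i
          rw [hAm i, h0, E0_monN_zero, norm_one] at h3
          exact lt_irrefl _ h3
        obtain ⟨k, hk⟩ := Function.ne_iff.1 h2
        have hk1 : Am i = (Am i - Pi.single k 1) + Pi.single k 1 := by
          funext j
          by_cases hj : j = k
          · subst hj
            have : Am i j ≠ 0 := hk
            simp only [Pi.add_apply, Pi.sub_apply, Pi.single_eq_same]
            omega
          · simp [Pi.single_eq_of_ne hj]
        refine ⟨⟨u i, ?_⟩, rfl, ?_⟩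
        · rw [hAm i]; exact E0_monN_mem _ hgL _
        · have h4 : (⟨u i, by rw [hAm i]; exact E0_monN_mem _ hgL _⟩ : locV (ball K) B) =
              ⟨monN u' (Am i - Pi.single k 1), E0_monN_mem _ hgL _⟩ * ⟨u' k, hgL k⟩ := by
            apply Subtype.ext
            rw [Subring.coe_mul]
            show u i = monN u' (Am i - Pi.single k 1) * u' k
            rw [mul_comm, ← E1_monN_single, ← hk1, ← hAm i]
          rw [h4]
          exact Ideal.mul_mem_left _ _ (Ideal.subset_span ⟨k, rfl⟩)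
      choose y hy1 hy2 using hui
      have h5 : b = ∑ i, (⟨c i, le_locV _ _ (Subring.subset_closure (Or.inl (hc i)))⟩ :
          locV (ball K) B) * y i := by
        apply Subtype.ext
        rw [hbc, AddSubmonoidClass.coe_finsetSum]
        exact Finset.sum_congr rfl fun i _ => by rw [Subring.coe_mul, hy1]
      rw [h5]
      exact Ideal.sum_mem _ fun i _ => Ideal.mul_mem_left _ _ (hy2 i)
  intro z hz hz1
  have hzm : (⟨z, hz⟩ : locV (ball K) B) ∈ maximalIdeal (locV (ball K) B) := by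
    rw [IsLocalRing.mem_maximalIdeal, mem_nonunits_iff, isUnit_locV_iff (ball K) hBV,
      J7_val_one_iff]
    exact hz1.ne
  obtain ⟨c, hc⟩ := (Ideal.mem_span_range_iff_exists_fun).1 (key _ hzm)
  refine ⟨fun i => (c i : K), fun i => (c i).2, ?_⟩
  have h6 := congrArg (Subtype.val) hc
  rw [AddSubmonoidClass.coe_finsetSum] at h6
  exact h6.symm

theorem E2_core (A1 : Subring K) (hA1 : A1 ≤ (ball K).toSubring)
    (hloc : locV (ball K) A1 = A1) (u : Fin r → K) (hu : Indep u) (_ : ∀ i, u i ∈ A1)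
    (hgen : ∀ z ∈ A1, ‖z‖ < 1 → ∃ c : Fin r → K, (∀ i, c i ∈ A1) ∧ z = ∑ i, c i * u i)
    (T : Finset K) (hT : ∀ h ∈ T, h ∈ A1 ∧ h ≠ 0) :
    ∃ (u' : Fin r → K) (A2 : Subring K), Indep u' ∧
      A2 = locV (ball K) (Subring.closure ((A1 : Set K) ∪ Set.range u')) ∧
      (∀ i, MonV (ball K) A2 u' (u i)) ∧
      (∀ i, ∃ p q : Fin r → ℕ, u' i * monN u p = monN u q) ∧
      (∀ z ∈ A2, ‖z‖ < 1 → ∃ c : Fin r → K, (∀ i, c i ∈ A2) ∧ z = ∑ i, c i * u' i) ∧
      (∀ h ∈ T, MonV (ball K) A2 u' h) ∧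
      (∀ h ∈ T, ∀ h' ∈ T, ‖h‖ ≤ ‖h'‖ → MonV (ball K) A2 u' (h / h')) := by
  classical
  have hex : ∀ h : K, ∃ (β : Fin r → ℕ) (w : K) (c : (Fin r → ℕ) →₀ A1), h ∈ T → w ∈ A1 ∧
      ‖w‖ = 1 ∧ (∀ γ ∈ c.support, ‖monN u γ‖ < ‖monN u β‖) ∧
      h = w * monN u β + c.sum fun γ x => (x : K) * monN u γ := by
    intro h
    by_cases hh : h ∈ T
    · obtain ⟨β, w, hw, hw1, hJ⟩ := E1_expand A1 (fun a ha => hA1 ha) u hu hgen h (hT h hh).1
        (hT h hh).2
      obtain ⟨c, hc, hs⟩ := E1_finsum A1 u _ _ hJ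
      exact ⟨β, w, c, fun _ => ⟨hw, hw1, hc, by rw [← hs]; ring⟩⟩
    · exact ⟨0, 0, 0, fun h' => absurd h' hh⟩
  choose β w c hex using hex
  let Δ1 : Finset (Fin r → ℤ) := T.biUnion fun h =>
    (c h).support.image fun γ i => (γ i : ℤ) - (β h i : ℤ)
  let Δ2 : Finset (Fin r → ℤ) := ((T ×ˢ T).image fun h =>
    (fun i => (β h.1 i : ℤ) - (β h.2 i : ℤ))).filter fun δ => ‖mon u δ‖ < 1
  have hΔ : ∀ δ ∈ Δ1 ∪ Δ2, ‖mon u δ‖ < 1 := by
    intro δ hδ
    rcases Finset.mem_union.1 hδ with hδ | hδ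
    · obtain ⟨h, hh, hδ⟩ := Finset.mem_biUnion.1 hδ
      obtain ⟨γ, hγ, rfl⟩ := Finset.mem_image.1 hδ
      rw [E2_sub hu, norm_div, div_lt_one (E2_norm_pos hu _)]
      exact (hex h hh).2.2.1 γ hγ
    · exact (Finset.mem_filter.1 hδ).2
  obtain ⟨u', Am, Bm, hu', hAm, hBm, hAB, hΔ'⟩ := refine u hu _ hΔ
  set A2 := locV (ball K) (Subring.closure ((A1 : Set K) ∪ Set.range u')) with hA2
  have hA12 : ∀ z ∈ A1, z ∈ A2 := fun z hz => le_locV _ _ (Subring.subset_closure (Or.inl hz))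
  have hu'A : ∀ i, u' i ∈ A2 := fun i => le_locV _ _
    (Subring.subset_closure (Or.inr ⟨i, rfl⟩))
  have hA2V : A2 ≤ (ball K).toSubring := by
    refine locV_le _ ?_
    rw [Subring.closure_le]
    rintro x (hx | hx)
    · exact hA1 hx
    · obtain ⟨i, rfl⟩ := hx
      exact (hu'.lt i).le
  have hMu : ∀ i, MonV (ball K) A2 u' (u i) := fun i => by
    rw [hAm i]; exact MonV.monN _
  have hMN : ∀ γ : Fin r → ℕ, MonV (ball K) A2 u' (monN u γ) := fun γ => by
    unfold monN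
    exact MonV.prod _ _ fun i _ => (hMu i).pow _
  -- each element of `T` is a unit times `monN u (β h)`
  have hTu : ∀ h ∈ T, ∃ w' ∈ A2, ‖w'‖ = 1 ∧ h = w' * monN u (β h) := by
    intro h hh
    obtain ⟨hwA, hw1, hc, hsum⟩ := hex h hh
    have hne := E0_monN_ne hu.ne (β h)
    let S : K := (c h).sum fun γ x => (x : K) * (monN u γ / monN u (β h))
    have hterm : ∀ γ ∈ (c h).support, monN u γ / monN u (β h) ∈ A2 ∧
        ‖monN u γ / monN u (β h)‖ < 1 := by
      intro γ hγ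
      have h1 : (fun i => (γ i : ℤ) - (β h i : ℤ)) ∈ Δ1 ∪ Δ2 :=
        Finset.mem_union_left _ (Finset.mem_biUnion.2 ⟨h, hh, Finset.mem_image_of_mem _ hγ⟩)
      obtain ⟨η, hη⟩ := hΔ' _ h1
      rw [E2_sub hu] at hη
      refine ⟨?_, ?_⟩
      · rw [hη]; exact E0_monN_mem _ hu'A _
      · rw [norm_div, div_lt_one (E2_norm_pos hu _)]
        exact hc γ hγ
    have hSA : S ∈ A2 := by
      refine Subring.sum_mem _ fun γ hγ => ?_
      exact mul_mem (hA12 _ ((c h) γ).2) (hterm γ hγ).1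
    have hS1 : ‖S‖ < 1 := by
      refine lt_of_le_of_lt (b := (0 : ℝ) ⊔ ‖S‖) le_sup_right ?_
      refine max_lt one_pos ?_
      have h2 : ∀ (s : Finset (Fin r → ℕ)) (f : (Fin r → ℕ) → K), (∀ γ ∈ s, ‖f γ‖ < 1) →
          ‖∑ γ ∈ s, f γ‖ < 1 := by
        intro s f
        induction s using Finset.induction_on with
        | empty => intro _; rw [Finset.sum_empty, norm_zero]; exact one_pos
        | insert a s ha ih =>
          intro hf
          rw [Finset.sum_insert ha]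
          exact (IsUltrametricDist.norm_add_le_max _ _).trans_lt
            (max_lt (hf a (Finset.mem_insert_self _ _))
              (ih fun γ hγ => hf γ (Finset.mem_insert_of_mem hγ)))
      refine h2 _ _ fun γ hγ => ?_
      rw [norm_mul]
      exact (mul_le_of_le_one_left (norm_nonneg _) (hA1 ((c h) γ).2)).trans_lt (hterm γ hγ).2
    refine ⟨w h + S, add_mem (hA12 _ hwA) hSA, ?_, ?_⟩
    · have h3 : ‖S‖ < ‖w h‖ := by rw [hw1]; exact hS1
      rw [IsUltrametricDist.norm_add_eq_max_of_norm_ne_norm h3.ne', hw1]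
      exact max_eq_left hS1.le
    · have h4 : S * monN u (β h) = (c h).sum fun γ x => (x : K) * monN u γ := by
        show ((c h).sum fun γ x => (x : K) * (monN u γ / monN u (β h))) * monN u (β h) = _
        rw [Finsupp.sum_mul]
        refine Finsupp.sum_congr fun γ _ => ?_
        rw [mul_assoc, div_mul_cancel₀ _ hne]
      rw [add_mul, h4]
      exact hsum
  refine ⟨u', A2, hu', rfl, hMu, ?_, E2_gen A1 hA1 hloc u hu hgen u' hu' Am hAm A2 hA2, ?_, ?_⟩
  · intro i
    refine ⟨fun k => (-(Bm i k)).toNat, fun k => (Bm i k).toNat, ?_⟩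
    rw [hBm i, ← mon_natCast, ← mon_natCast, ← mon_add u hu.ne]
    congr 1
    funext k
    rw [Pi.add_apply]
    omega
  · intro h hh
    obtain ⟨w', hw', hw1, hhw⟩ := hTu h hh
    rw [hhw]
    exact (MonV.of_unit hw' ((J7_val_one_iff _).2 hw1)).mul (hMN _)
  · intro h hh h' hh' hle
    obtain ⟨w1, hw1, hn1, hh1⟩ := hTu h hh
    obtain ⟨w2, hw2, hn2, hh2⟩ := hTu h' hh'
    have hw20 : w2 ≠ 0 := by
      rw [← norm_ne_zero_iff, hn2]; exact one_ne_zero
    have hw2i : w2⁻¹ ∈ A2 := by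
      have h5 : locV (ball K) A2 = A2 := locV_locV _ _
      rw [← h5]
      exact ⟨1, A2.one_mem, w2, hw2, (J7_val_one_iff _).2 hn2, inv_mul_cancel₀ hw20⟩
    have hn : ‖monN u (β h)‖ ≤ ‖monN u (β h')‖ := by
      rw [hh1, hh2, norm_mul, norm_mul, hn1, hn2, one_mul, one_mul] at hle
      exact hle
    have hq : MonV (ball K) A2 u' (monN u (β h) / monN u (β h')) := by
      rcases hn.lt_or_eq with hlt | heq
      · have h6 : (fun i => (β h i : ℤ) - (β h' i : ℤ)) ∈ Δ1 ∪ Δ2 := by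
          refine Finset.mem_union_right _ (Finset.mem_filter.2
            ⟨Finset.mem_image.2 ⟨(h, h'), Finset.mem_product.2 ⟨hh, hh'⟩, rfl⟩, ?_⟩)
          rw [E2_sub hu, norm_div, div_lt_one (E2_norm_pos hu _)]
          exact hlt
        obtain ⟨η, hη⟩ := hΔ' _ h6
        rw [E2_sub hu] at hη
        rw [hη]
        exact MonV.monN _
      · rw [hu.injN heq, div_self (E0_monN_ne hu.ne _)]
        exact MonV.one
    have h7 : h / h' = (w1 * w2⁻¹) * (monN u (β h) / monN u (β h')) := by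
      calc h / h' = (w1 * monN u (β h)) / (w2 * monN u (β h')) := by rw [← hh1, ← hh2]
        _ = _ := by rw [mul_div_mul_comm, div_eq_mul_inv w1 w2]
    rw [h7]
    refine MonV.mul (MonV.of_unit (mul_mem hw1 hw2i) ?_) hq
    rw [J7_val_one_iff, norm_mul, norm_inv, hn1, hn2, inv_one, mul_one]

end

end Pool.Agent.Lib.MP_3029eb_ag.Abh
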