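import Pool.Agent.Lib.MP_3029eb_ag.AbhE0
import Pool.Agent.Lib.MP_3029eb_ag.AbhC3
import Pool.Agent.Lib.MP_3029eb_ag.AbhA2

/-!
Module E4: the residue map as a total function.
-/

open IsLocalRing

namespace Pool.Agent.Lib.MP_3029eb_ag.Abh
open Pool.Agent.Lib.MP_3029eb_ag

open Classical in
/-- the residue of `w`, zero if `w` is not in `V1` -/
noncomputable def rs {K : Type} [Field K] (V1 : ValuationSubring K) (w : K) : ResidueField V1 :=
  if h : w ∈ V1 then residue V1 ⟨w, h⟩ else 0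

section

variable {K : Type} [Field K] {V1 : ValuationSubring K}

theorem rs_eq {w : K} (h : w ∈ V1) : rs V1 w = residue V1 ⟨w, h⟩ := by
  unfold rs
  rw [dif_pos h]

theorem rs_coe (w : V1) : rs V1 (w : K) = residue V1 w := rs_eq w.2

theorem rs_mul {a b : K} (ha : a ∈ V1) (hb : b ∈ V1) : rs V1 (a * b) = rs V1 a * rs V1 b := by
  rw [rs_eq ha, rs_eq hb, rs_eq (V1.mul_mem _ _ ha hb), ← map_mul]
  rfl

theorem rs_add {a b : K} (ha : a ∈ V1) (hb : b ∈ V1) : rs V1 (a + b) = rs V1 a + rs V1 b := by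
  rw [rs_eq ha, rs_eq hb, rs_eq (V1.add_mem _ _ ha hb), ← map_add]
  rfl

theorem rs_neg {a : K} (ha : a ∈ V1) : rs V1 (-a) = -rs V1 a := by
  rw [rs_eq ha, rs_eq (V1.neg_mem _ ha), ← map_neg]
  rfl

theorem rs_sub {a b : K} (ha : a ∈ V1) (hb : b ∈ V1) : rs V1 (a - b) = rs V1 a - rs V1 b := by
  rw [sub_eq_add_neg, rs_add ha (V1.neg_mem _ hb), rs_neg hb, sub_eq_add_neg]

theorem rs_one : rs V1 (1 : K) = 1 := by
  rw [rs_eq V1.one_mem]
  exact map_one _

theorem rs_zero : rs V1 (0 : K) = 0 := by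
  rw [rs_eq V1.zero_mem]
  exact map_zero _

theorem rs_sum {ι : Type} (s : Finset ι) (f : ι → K) (h : ∀ i ∈ s, f i ∈ V1) :
    rs V1 (∑ i ∈ s, f i) = ∑ i ∈ s, rs V1 (f i) ∧ ∑ i ∈ s, f i ∈ V1 := by
  classical
  induction s using Finset.induction_on with
  | empty => exact ⟨by rw [Finset.sum_empty, Finset.sum_empty]; exact rs_zero,
      by rw [Finset.sum_empty]; exact V1.zero_mem⟩
  | insert a s ha ih =>
    obtain ⟨h1, h2⟩ := ih fun i hi => h i (Finset.mem_insert_of_mem hi)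
    have h3 := h a (Finset.mem_insert_self _ _)
    rw [Finset.sum_insert ha, Finset.sum_insert ha]
    exact ⟨by rw [rs_add h3 h2, h1], V1.add_mem _ _ h3 h2⟩

theorem rs_prod {ι : Type} (s : Finset ι) (f : ι → K) (h : ∀ i ∈ s, f i ∈ V1) :
    rs V1 (∏ i ∈ s, f i) = ∏ i ∈ s, rs V1 (f i) ∧ ∏ i ∈ s, f i ∈ V1 := by
  classical
  induction s using Finset.induction_on with
  | empty => exact ⟨by rw [Finset.prod_empty, Finset.prod_empty]; exact rs_one,
      by rw [Finset.prod_empty]; exact V1.one_mem⟩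
  | insert a s ha ih =>
    obtain ⟨h1, h2⟩ := ih fun i hi => h i (Finset.mem_insert_of_mem hi)
    have h3 := h a (Finset.mem_insert_self _ _)
    rw [Finset.prod_insert ha, Finset.prod_insert ha]
    exact ⟨by rw [rs_mul h3 h2, h1], V1.mul_mem _ _ h3 h2⟩

theorem rs_pow {a : K} (ha : a ∈ V1) (n : ℕ) : rs V1 (a ^ n) = rs V1 a ^ n := by
  induction n with
  | zero => rw [pow_zero, pow_zero]; exact rs_one
  | succ n ih => rw [pow_succ, pow_succ, rs_mul (pow_mem ha n) ha, ih]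

theorem rs_monN {r : ℕ} (u : Fin r → K) (hu : ∀ i, u i ∈ V1) (β : Fin r → ℕ) :
    rs V1 (monN u β) = monN (fun i => rs V1 (u i)) β := by
  unfold monN
  rw [(rs_prod _ _ fun i _ => pow_mem (hu i) _).1]
  exact Finset.prod_congr rfl fun i _ => rs_pow (hu i) _

theorem rs_eq_zero {a : K} (ha : a ∈ V1) : rs V1 a = 0 ↔ V1.valuation a < 1 := by
  rw [rs_eq ha, residue_eq_zero_iff]
  exact ValuationSubring.valuation_lt_one_iff V1 _

theorem rs_ne_zero {a : K} (ha : V1.valuation a = 1) : rs V1 a ≠ 0 := by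
  intro h
  rw [rs_eq_zero ((V1.valuation_le_one_iff a).1 ha.le), ha] at h
  exact lt_irrefl _ h

theorem rs_val_one {a : K} (ha : a ∈ V1) (h : rs V1 a ≠ 0) : V1.valuation a = 1 := by
  refine le_antisymm ((V1.valuation_le_one_iff a).2 ha) ?_
  by_contra hc
  exact h ((rs_eq_zero ha).2 (not_le.1 hc))

theorem mem_im_iff {A : Subring K} (hA : A ≤ V1.toSubring) (w : ResidueField V1) :
    w ∈ im V1 A ↔ ∃ a ∈ A, rs V1 a = w := by
  rw [C1_mem_im]
  constructor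
  · rintro ⟨u, hu, rfl⟩
    exact ⟨u, hu, rs_coe u⟩
  · rintro ⟨a, ha, rfl⟩
    exact ⟨⟨a, hA ha⟩, ha, (rs_eq (hA ha)).symm⟩

variable {V : ValuationSubring K} (h : V ≤ V1)

include h

theorem rs_mem_resV {a : K} (ha : a ∈ V1) : rs V1 a ∈ resV V V1 h ↔ a ∈ V := by
  rw [C1_mem_resV h]
  constructor
  · rintro ⟨u, hu, hr⟩
    rw [rs_eq ha] at hr
    have h1 : residue V1 (⟨a, ha⟩ - u) = 0 := by rw [map_sub, hr, sub_self]
    rw [residue_eq_zero_iff] at h1
    have h2 : V1.valuation ((⟨a, ha⟩ - u : V1) : K) < 1 :=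
      (ValuationSubring.valuation_lt_one_iff V1 _).1 h1
    have h3 : ((⟨a, ha⟩ - u : V1) : K) ∈ V := (V.valuation_le_one_iff _).1 (C1_lt_of_lt h h2).le
    have h4 : a = ((⟨a, ha⟩ - u : V1) : K) + (u : K) := by
      push_cast; ring
    rw [h4]
    exact V.add_mem _ _ h3 hu
  · intro haV
    exact ⟨⟨a, ha⟩, haV, (rs_eq ha).symm⟩

theorem rs_resV_val {a : K} (ha : a ∈ V) :
    (resV V V1 h).valuation (rs V1 a) = 1 ↔ V.valuation a = 1 := by
  rw [rs_eq (h ha)]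
  exact C1_resV_val h ⟨a, h ha⟩ ha

theorem rs_resV_lt {a : K} (ha : a ∈ V) :
    (resV V V1 h).valuation (rs V1 a) < 1 ↔ V.valuation a < 1 := by
  have h1 : (resV V V1 h).valuation (rs V1 a) ≤ 1 :=
    ((resV V V1 h).valuation_le_one_iff _).2 ((rs_mem_resV h (h ha)).2 ha)
  have h2 : V.valuation a ≤ 1 := (V.valuation_le_one_iff a).2 ha
  rw [h1.lt_iff_ne, h2.lt_iff_ne]
  exact not_congr (rs_resV_val h ha)

omit h in
theorem rs_inv {a : K} (ha : V1.valuation a = 1) : rs V1 a⁻¹ = (rs V1 a)⁻¹ := by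
  obtain ⟨h1, h2, h3⟩ := (C1_val_one_iff V1 a).1 ha
  have h4 : rs V1 a * rs V1 a⁻¹ = 1 := by
    rw [← rs_mul h1 h2, mul_inv_cancel₀ h3, rs_one]
  exact (inv_eq_of_mul_eq_one_right h4).symm

omit h in
theorem rs_zpow {a : K} (ha : V1.valuation a = 1) (n : ℤ) : rs V1 (a ^ n) = rs V1 a ^ n := by
  have h1 := ((C1_val_one_iff V1 a).1 ha).1
  rcases Int.eq_nat_or_neg n with ⟨m, rfl | rfl⟩
  · rw [zpow_natCast, zpow_natCast, rs_pow h1]
  · rw [zpow_neg, zpow_neg, zpow_natCast, zpow_natCast, rs_inv (by rw [map_pow, ha, one_pow]),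
      rs_pow h1]

omit h in
theorem rs_mon {r : ℕ} (u : Fin r → K) (hu : ∀ i, V1.valuation (u i) = 1) (δ : Fin r → ℤ) :
    rs V1 (mon u δ) = mon (fun i => rs V1 (u i)) δ := by
  unfold mon
  rw [(rs_prod _ _ fun i _ => ?_).1]
  · exact Finset.prod_congr rfl fun i _ => rs_zpow (hu i) _
  · refine (V1.valuation_le_one_iff _).1 ?_
    rw [map_zpow₀, hu i, one_zpow]

end

end Pool.Agent.Lib.MP_3029eb_ag.Abh
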