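import Pool.Agent.Lib.MP_3029eb_ag.AbhE5
import Pool.Agent.Lib.MP_3029eb_ag.H44Comp

/-!
Module E6: composition of embedded local uniformizations.
-/

open IsLocalRing

namespace Pool.Agent.Lib.MP_3029eb_ag.Abh
open Pool.Agent.Lib.MP_3029eb_ag

section

variable {K : Type} [Field K]

/-- changing the parameters by units -/
theorem E6_scale {V : ValuationSubring K} {A0 A : Subring K} (hloc : locV V A = A) {r : ℕ}
    {u : Fin r → K} (hG : GoodPar V A0 A u) (b : Fin r → K)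
    (hb : ∀ i, b i ∈ A ∧ V.valuation (b i) = 1) :
    GoodPar V A0 A (fun i => u i * b i) ∧
      ∀ f, MonV V A u f → MonV V A (fun i => u i * b i) f := by
  have hb0 : ∀ i, b i ≠ 0 := by
    intro i h0
    have := (hb i).2
    rw [h0, map_zero] at this
    exact zero_ne_one this
  have hbi : ∀ i, (b i)⁻¹ ∈ A := fun i => E5_inv hloc (hb i).1 (hb i).2
  have hbi1 : ∀ i, V.valuation (b i)⁻¹ = 1 := fun i => by rw [map_inv₀, (hb i).2, inv_one]
  have hmono : ∀ f, MonV V A u f → MonV V A (fun i => u i * b i) f := by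
    intro f hf
    refine hf.mono le_rfl fun i => ?_
    have h1 : u i = (b i)⁻¹ * (u i * b i) := by
      rw [mul_comm (u i), ← mul_assoc, inv_mul_cancel₀ (hb0 i), one_mul]
    rw [h1]
    exact (MonV.of_unit (hbi i) (hbi1 i)).mul (MonV.var (u := fun i => u i * b i) i)
  refine ⟨⟨⟨fun i => mul_ne_zero (hG.ind.ne i) (hb0 i), fun δ hδ => ?_⟩,
    fun i => mul_mem (hG.mem i) (hb i).1, fun i => ?_, fun z hz hz1 => ?_, fun z hz => ?_⟩, hmono⟩
  · refine hG.ind.indep δ ?_
    rw [← hδ]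
    unfold mon
    rw [map_prod, map_prod]
    exact Finset.prod_congr rfl fun i _ => by
      rw [map_zpow₀, map_zpow₀, map_mul, (hb i).2, mul_one]
  · rw [map_mul, (hb i).2, mul_one]; exact hG.lt i
  · obtain ⟨c, hc, hs⟩ := hG.gen z hz hz1
    refine ⟨fun i => c i * (b i)⁻¹, fun i => mul_mem (hc i) (hbi i), ?_⟩
    rw [hs]
    refine Finset.sum_congr rfl fun i _ => ?_
    have := hb0 i
    field_simp
  · obtain ⟨D, hD, hDm, hDz⟩ := hG.den z hz
    exact ⟨D, hD, hmono D hDm, hDz⟩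

/-- a uniform denominator for a finitely generated ideal -/
theorem E6_bound (A : Subring K) [IsNoetherianRing A] (P : Ideal A) (X : Submodule A K)
    (Good : K → Prop) (hG1 : Good 1) (hGm : ∀ a b, Good a → Good b → Good (a * b))
    (hGA : ∀ a, Good a → a ∈ A) (hex : ∀ z ∈ P, ∃ b, Good b ∧ b * (z : K) ∈ X) :
    ∃ b, Good b ∧ ∀ z ∈ P, b * (z : K) ∈ X := by
  classical
  obtain ⟨S, hS⟩ : P.FG := IsNoetherian.noetherian P
  have hfin : ∀ T : Finset A, (∀ z ∈ T, z ∈ P) → ∃ b, Good b ∧ ∀ z ∈ T, b * (z : K) ∈ X := by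
    intro T
    induction T using Finset.induction_on with
    | empty => intro _; exact ⟨1, hG1, fun z hz => absurd hz (Finset.notMem_empty z)⟩
    | insert a T ha ih =>
      intro hT
      obtain ⟨b, hb, hbT⟩ := ih fun z hz => hT z (Finset.mem_insert_of_mem hz)
      obtain ⟨c, hc, hca⟩ := hex a (hT a (Finset.mem_insert_self _ _))
      refine ⟨b * c, hGm _ _ hb hc, fun z hz => ?_⟩
      rcases Finset.mem_insert.1 hz with rfl | hz
      · have h1 : b * c * (z : K) = (⟨b, hGA b hb⟩ : A) • (c * (z : K)) := by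
          rw [Subring.smul_def, smul_eq_mul, mul_assoc]
        rw [h1]
        exact Submodule.smul_mem _ _ hca
      · have h1 : b * c * (z : K) = (⟨c, hGA c hc⟩ : A) • (b * (z : K)) := by
          rw [Subring.smul_def, smul_eq_mul]; ring
        rw [h1]
        exact Submodule.smul_mem _ _ (hbT z hz)
  obtain ⟨b, hb, hbS⟩ := hfin S fun z hz => by rw [← hS]; exact Submodule.subset_span hz
  refine ⟨b, hb, fun z hz => ?_⟩
  rw [← hS] at hz
  refine Submodule.span_induction (p := fun (z : A) _ => b * (z : K) ∈ X) ?_ ?_ ?_ ?_ hz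
  · intro z hz; exact hbS z hz
  · rw [Subring.coe_zero, mul_zero]; exact X.zero_mem
  · intro z w _ _ h1 h2
    rw [Subring.coe_add, mul_add]
    exact add_mem h1 h2
  · intro c z _ h1
    have h2 : b * ((c • z : A) : K) = c • (b * (z : K)) := by
      rw [Subring.smul_def, smul_eq_mul, smul_eq_mul, Subring.coe_mul]; ring
    rw [h2]
    exact Submodule.smul_mem _ _ h1

theorem E6_mem_span (A : Subring K) {r : ℕ} (x : Fin r → K) (z : K) :
    z ∈ Submodule.span A (Set.range x) ↔ ∃ c : Fin r → K, (∀ i, c i ∈ A) ∧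
      z = ∑ i, c i * x i := by
  rw [Submodule.mem_span_range_iff_exists_fun]
  constructor
  · rintro ⟨c, rfl⟩
    exact ⟨fun i => (c i : K), fun i => (c i).2, Finset.sum_congr rfl fun i _ => by
      rw [Subring.smul_def, smul_eq_mul]⟩
  · rintro ⟨c, hc, rfl⟩
    exact ⟨fun i => ⟨c i, hc i⟩, Finset.sum_congr rfl fun i _ => by
      rw [Subring.smul_def, smul_eq_mul]⟩

/-- lifting data from the residue field -/
theorem E6_lift {V V1 : ValuationSubring K} (h : V ≤ V1) (A1 : Subring K)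
    (hA1 : A1 ≤ V.toSubring) (t : ResidueField V1) (htV : t ∈ resV V V1 h)
    (D : ResidueField V1) (hD : D ∈ im V1 A1) (hD0 : D ≠ 0) (hDt : D * t ∈ im V1 A1) :
    ∃ t' d a : K, d ∈ A1 ∧ a ∈ A1 ∧ V1.valuation d = 1 ∧ rs V1 d = D ∧ t' * d = a ∧ t' ∈ V ∧
      rs V1 t' = t := by
  have hA1V1 : A1 ≤ V1.toSubring := fun z hz => h (hA1 hz)
  obtain ⟨d, hd, hdD⟩ := (mem_im_iff hA1V1 _).1 hD
  obtain ⟨a, ha, hat⟩ := (mem_im_iff hA1V1 _).1 hDt
  have hd1 : V1.valuation d = 1 := rs_val_one (hA1V1 hd) (by rw [hdD]; exact hD0)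
  obtain ⟨h1, h2, h3⟩ := (C1_val_one_iff V1 d).1 hd1
  have h4 : a * d⁻¹ * d = a := by rw [mul_assoc, inv_mul_cancel₀ h3, mul_one]
  have h5 : a * d⁻¹ ∈ V1 := V1.mul_mem _ _ (hA1V1 ha) h2
  have h6 : rs V1 (a * d⁻¹) = t := by
    rw [rs_mul (hA1V1 ha) h2, rs_inv hd1, hat, hdD]
    field_simp
  refine ⟨a * d⁻¹, d, a, hd, ha, hd1, hdD, h4, ?_, h6⟩
  rw [← rs_mem_resV h h5, h6]
  exact htV

end

end Pool.Agent.Lib.MP_3029eb_ag.Abh
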