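import Pool.Agent.Lib.MP_3029eb_ag.AbhE13

open IsLocalRing

namespace Pool.Agent.Lib.MP_3029eb_ag.Abh

open Classical in
/-- **Local uniformization from approximation by monomials.** -/
theorem abh_final_par {K : Type} [NontriviallyNormedField K] [IsUltrametricDist K] (A : Subring K)
    [IsLocalRing A] [IsNoetherianRing A] (hA : A ≤ (ball K).toSubring)
    (hloc : locV (ball K) A = A) (hG : AnUnr A) {r : ℕ} (hr : 0 < r) (hdim : ringKrullDim A ≤ r)
    (u : Fin r → K) (hu : Indep u) (huA : ∀ i, u i ∈ A)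
    (hstab : ∀ z : K, ‖z‖ < 1 → ∀ ε : ℝ, 0 < ε → ∃ (n : ℕ) (ρ : Fin n → K)
      (δ : Fin n → (Fin r → ℤ)), (∀ l, ρ l ∈ A) ∧ (∀ l, ‖mon u (δ l)‖ < 1) ∧
        ‖z - ∑ l, ρ l * mon u (δ l)‖ < ε) :
    ∃ (g : Finset K) (u2 : Fin r → K), (∀ t ∈ g, ‖t‖ < 1) ∧ Indep u2 ∧
      (∀ i, u2 i ∈ locV (ball K) (Subring.closure ((A : Set K) ∪ (g : Set K)))) ∧
      ∀ z ∈ locV (ball K) (Subring.closure ((A : Set K) ∪ (g : Set K))), ‖z‖ < 1 →
        ∃ c : Fin r → K,
          (∀ i, c i ∈ locV (ball K) (Subring.closure ((A : Set K) ∪ (g : Set K)))) ∧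
          z = ∑ i, c i * u2 i := by
  obtain ⟨L, iL1, iL2, iL3, κ, hκ, -⟩ := exists_completion_field K
  have hdomA := dom_subtype A hA hloc
  have hAdom : IsDomain A := inferInstance
  let T := AdicCompletion (maximalIdeal A) A
  let alA : A →+* T := algebraMap A T
  have iTn : IsNoetherianRing T := noetherian_adicCompletion A
  have hρ : Dom (κ.comp A.subtype) := by
    intro a
    have h1 := hdomA a
    rw [RingHom.comp_apply, hκ]
    exact h1
  obtain ⟨φ, hφ, hφA⟩ := exists_lift_ball A (κ.comp A.subtype) hρ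
  have hφa : ∀ a : A, φ (alA a) = κ (a : K) := fun a => by
    rw [← RingHom.comp_apply, hφA]; rfl
  have hPp : (RingHom.ker φ).IsPrime := RingHom.ker_isPrime φ
  have hPc : (RingHom.ker φ).comap alA = ⊥ := by
    rw [eq_bot_iff]
    intro a ha
    rw [Ideal.mem_comap, RingHom.mem_ker, hφa, map_eq_zero] at ha
    exact Subtype.ext ha
  have hchar : ∀ n : ℕ, φ (n : T) = 0 → (n : T) = 0 := by
    intro n hn
    have h1 : (n : T) = alA n := (map_natCast alA n).symm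
    have h2 : (n : A) ∈ (RingHom.ker φ).comap alA := by
      rw [Ideal.mem_comap, RingHom.mem_ker, ← h1]; exact hn
    rw [hPc, Ideal.mem_bot] at h2
    rw [h1, h2, map_zero]
  have hdimT : ringKrullDim T ≤ r := (ringKrullDim_adicCompletion_le A).trans hdim
  have huL : Indep (fun i => φ (alA ⟨u i, huA i⟩)) := by
    have h1 : (fun i => φ (alA ⟨u i, huA i⟩)) = fun i => κ (u i) := funext fun i => hφa _
    rw [h1]; exact hu.map κ hκ
  have iTred : IsReduced T := hG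
  have hreg := regular_of_reduced T φ hφ hdimT (fun i => alA ⟨u i, huA i⟩) huL
  obtain ⟨S, iS, iSr, π, c, Φ0, f, hπ, hΦ01, hΦ02, hf, hdet, hcard⟩ :=
    exists_state T φ hφ hchar hreg hdimT (fun i => alA ⟨u i, huA i⟩) huL
  obtain ⟨Z, z, hZ, hZz⟩ := adjust_gens A S π hπ (Fin c ⊕ Fin r) (by
    rw [Fintype.card_sum, Fintype.card_fin, Fintype.card_fin]; exact hcard)
  have hlocπ : IsLocalHom π := hπ.isLocalHom
  have hψ : Dom (φ.comp π) := by
    intro s
    refine ⟨(hφ (π s)).1, ?_⟩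
    rw [RingHom.comp_apply, ← (hφ (π s)).2, mem_maximalIdeal, mem_maximalIdeal,
      mem_nonunits_iff, mem_nonunits_iff, isUnit_map_iff]
  have hz1 : ∀ j, ‖((z j : A) : K)‖ < 1 := by
    intro j
    have h1 : Z j ∈ maximalIdeal S := by rw [← hZ]; exact Ideal.subset_span ⟨j, rfl⟩
    have h2 := ((hψ (Z j)).2).1 h1
    rw [RingHom.comp_apply, hZz] at h2
    have h3 := hφa (z j)
    change ‖φ (alA (z j))‖ < 1 at h2
    rwa [h3, hκ] at h2
  have hυ := fun i => hπ (alA ⟨u i, huA i⟩)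
  choose υ hυ using hυ
  -- the constants
  let d0 : ℝ := ‖(Matrix.of fun i j => (Φ0 (f i)).snd j).det‖ * ∏ i, ‖u i‖
  have hunorm : ∀ i, 0 < ‖u i‖ := fun i => norm_pos_iff.2 (hu.ne i)
  have hd0 : 0 < d0 := mul_pos (norm_pos_iff.2 hdet) (Finset.prod_pos fun i _ => hunorm i)
  let i0 : Fin r := ⟨0, hr⟩
  let q : ℝ := min (d0 / 2) (d0 * d0 * ‖u i0‖ / 2)
  have hq0 : 0 < q := lt_min (by positivity) (div_pos (mul_pos (mul_pos hd0 hd0) (hunorm i0)) two_pos)
  have hqd : q < d0 := (min_le_left _ _).trans_lt (half_lt_self hd0)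
  have hqd2 : q < d0 * d0 * ‖u i0‖ :=
    (min_le_right _ _).trans_lt (half_lt_self (mul_pos (mul_pos hd0 hd0) (hunorm i0)))
  -- approximations of the generators
  have happ := fun j => hstab ((z j : A) : K) (hz1 j) q hq0
  choose n ρ δ hρA hδ happ using happ
  obtain ⟨u1, A1, B1, hu1, hA1, -, hAB, hΔ⟩ := refine u hu
    ((Finset.univ : Finset (Fin c ⊕ Fin r)).biUnion fun j => Finset.univ.image (δ j)) (by
      intro η hη
      obtain ⟨j, -, h⟩ := Finset.mem_biUnion.1 hη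
      obtain ⟨l, -, rfl⟩ := Finset.mem_image.1 h
      exact hδ j l)
  have hΔ' := fun (j : Fin c ⊕ Fin r) (l : Fin (n j)) => hΔ (δ j l)
    (Finset.mem_biUnion.2 ⟨j, Finset.mem_univ _, Finset.mem_image_of_mem _ (Finset.mem_univ l)⟩)
  choose β hβ using hΔ'
  have hβ0 : ∀ j l, β j l ≠ 0 := fun j l => mon_eq_monN_ne_zero (hβ j l) (hδ j l)
  have hσ := fun (j : Fin c ⊕ Fin r) (l : Fin (n j)) => hπ (alA ⟨ρ j l, hρA j l⟩)
  choose σ hσ using hσ
  have hza : ∀ j, ‖((z j : A) : K) -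
      ∑ l, (((⟨ρ j l, hρA j l⟩ : A)) : K) * monN u1 (β j l)‖ ≤ q := by
    intro j
    have h1 : ∑ l, (((⟨ρ j l, hρA j l⟩ : A)) : K) * monN u1 (β j l) =
        ∑ l, ρ j l * mon u (δ j l) := Finset.sum_congr rfl fun l _ => by rw [hβ j l]
    rw [h1]
    exact (happ j).le
  -- the Jacobian step
  let uL : Fin r → L := fun i => κ (u1 i)
  have huL1 : Indep uL := hu1.map κ hκ
  have hmonL : ∀ γ : Fin r → ℕ, monN uL γ = κ (monN u1 γ) := fun γ => (map_monN κ u1 γ).symm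
  let Aj : Fin c ⊕ Fin r → MvPolynomial (Fin r) S := fun j =>
    ∑ l, MvPolynomial.C (σ j l) * monN MvPolynomial.X (β j l)
  let F : Fin c ⊕ Fin r → MvPolynomial (Fin r) S :=
    Sum.elim (fun i => MvPolynomial.C (f i))
      (fun i => monN MvPolynomial.X (A1 i) - MvPolynomial.C (υ i))
  obtain ⟨Φ, hΦ1, hΦ2, hΦ3, hΦd⟩ := exists_Phi_ext (φ.comp π) Φ0 hΦ01
    (fun s => (hψ s).1) hΦ02 f (fun i => κ (u i)) uL huL1.ne huL1.lt A1 B1
    (fun i => by rw [hmonL, ← hA1]) hAB υ (fun i => by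
      rw [RingHom.comp_apply, hυ, hφa])
  have hdetF : ‖(Matrix.of fun i j => (Φ (F i)).snd j).det‖ = d0 := by
    refine hΦd.trans ?_
    congr 1
    exact Finset.prod_congr rfl fun i _ => hκ _
  have hev : ∀ p : S, MvPolynomial.eval₂Hom (φ.comp π) uL (MvPolynomial.C p) = φ (π p) :=
    fun p => MvPolynomial.eval₂Hom_C _ _ p
  have hevm : ∀ γ : Fin r → ℕ, MvPolynomial.eval₂Hom (φ.comp π) uL
      (monN MvPolynomial.X γ) = κ (monN u1 γ) := by
    intro γ
    rw [map_monN, ← hmonL]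
    congr 1
    funext k
    exact MvPolynomial.eval₂Hom_X' _ _ k
  have hAjX : ∀ j, Aj j ∈ Ideal.span
      (Set.range (MvPolynomial.X : Fin r → MvPolynomial (Fin r) S)) := fun j =>
    Ideal.sum_mem _ fun l _ => Ideal.mul_mem_left _ _ (monN_mem _ _ (hβ0 j l))
  have hZA : ∀ j, ‖MvPolynomial.eval₂Hom (φ.comp π) uL (MvPolynomial.C (Z j) - Aj j)‖ ≤ q := by
    intro j
    have h1 : MvPolynomial.eval₂Hom (φ.comp π) uL (MvPolynomial.C (Z j) - Aj j) =
        κ (((z j : A) : K) - ∑ l, (((⟨ρ j l, hρA j l⟩ : A)) : K) * monN u1 (β j l)) := by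
      rw [map_sub, map_sum, hev, hZz, map_sub κ, map_sum κ]
      congr 1
      · exact hφa _
      · refine Finset.sum_congr rfl fun l _ => ?_
        rw [map_mul, hev, hσ, hevm, hφa, map_mul]
    rw [h1, hκ]
    exact hza j
  have hF0 : ∀ i, MvPolynomial.eval₂Hom (φ.comp π) uL (F i) = 0 := by
    rintro (i | i)
    · change MvPolynomial.eval₂Hom (φ.comp π) uL (MvPolynomial.C (f i)) = 0
      rw [hev, hf, map_zero]
    · change MvPolynomial.eval₂Hom (φ.comp π) uL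
        (monN MvPolynomial.X (A1 i) - MvPolynomial.C (υ i)) = 0
      rw [map_sub, hev, hevm, hυ, hφa, ← hA1, sub_self]
  obtain ⟨μ, b, cb, hb, hμ1, hμ2⟩ := jac_core uL huL1 (φ.comp π) hψ Z hZ Aj hAjX q hq0 hZA F hF0 Φ
    hΦ1 hΦ2 hΦ3 (by rw [hdetF]; exact hqd)
  rw [hdetF, hmonL, hκ] at hb
  have hnn : ∀ γ : Fin r → ℕ, ‖monN uL γ‖ = ‖monN u1 γ‖ := fun γ => by rw [hmonL, hκ]
  simp only [hnn] at hμ1 hμ2
  have hui0 : ‖monN u1 (A1 i0)‖ = ‖u i0‖ := by rw [← hA1]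
  refine final_step_par A hA hloc S π hπ Z z hZ hZz u1 hu1 n (fun j l => ⟨ρ j l, hρA j l⟩) σ hσ β hβ0 q
    hza F ?_ μ b cb hμ1 hμ2 (A1 i0) ?_ (by rw [hui0]; exact hu.lt i0) ?_
  · intro T3 _ χT w hw i
    rcases i with i | i
    · change MvPolynomial.eval₂Hom (χT.comp π) w (MvPolynomial.C (f i)) = 0
      rw [MvPolynomial.eval₂Hom_C, RingHom.comp_apply, hf, map_zero]
    · change MvPolynomial.eval₂Hom (χT.comp π) w
        (monN MvPolynomial.X (A1 i) - MvPolynomial.C (υ i)) = 0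
      rw [map_sub, MvPolynomial.eval₂Hom_C, RingHom.comp_apply, hυ, map_monN,
        hw ⟨u i, huA i⟩ (A1 i) (hA1 i), sub_eq_zero]
      congr 1
      funext k
      exact MvPolynomial.eval₂Hom_X' _ _ k
  · exact monN_mem_of_norm (u := u1) (by rw [hui0]; exact hu.lt i0)
  · rw [monN_add, monN_add, norm_mul, norm_mul, hui0, ← mul_assoc]
    refine hqd2.trans_le ?_
    gcongr

end Pool.Agent.Lib.MP_3029eb_ag.Abh
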