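import Pool.Agent.Lib.MP_3029eb_ag.AbhDefs
import Pool.Agent.Lib.MP_3029eb_ag.H6Lift

/-!
Module J1: completeness of the closed unit ball, extension of a dominating map to the completion.
-/

open IsLocalRing

namespace Pool.Agent.Lib.MP_3029eb_ag.Abh
open Pool.Agent.Lib.MP_3029eb_ag

theorem J1_mem_span {L : Type} [NormedField L] [IsUltrametricDist L]
    (a x : ball L) (ha : a ≠ 0) : x ∈ Ideal.span {a} ↔ ‖(x : L)‖ ≤ ‖(a : L)‖ := by
  have ha' : (a : L) ≠ 0 := fun h => ha (Subtype.ext h)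
  rw [Ideal.mem_span_singleton']
  constructor
  · rintro ⟨c, rfl⟩
    have hc : ‖(c : L)‖ ≤ 1 := c.2
    show ‖((c * a : ball L) : L)‖ ≤ _
    rw [show ((c * a : ball L) : L) = (c : L) * (a : L) from rfl, norm_mul]
    exact mul_le_of_le_one_left (norm_nonneg _) hc
  · intro h
    refine ⟨⟨(x : L) / (a : L), ?_⟩, ?_⟩
    · rw [mem_ball, norm_div]
      exact div_le_one_of_le₀ h (norm_nonneg _)
    · apply Subtype.ext
      show (x : L) / (a : L) * (a : L) = x
      exact div_mul_cancel₀ _ ha'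

theorem J1_mem_pow {L : Type} [NormedField L] [IsUltrametricDist L]
    (a x : ball L) (ha : a ≠ 0) (n : ℕ) :
    x ∈ Ideal.span {a} ^ n ↔ ‖(x : L)‖ ≤ ‖(a : L)‖ ^ n := by
  rw [Ideal.span_singleton_pow, J1_mem_span _ _ (pow_ne_zero n ha),
    show ((a ^ n : ball L) : L) = (a : L) ^ n from rfl, norm_pow]

theorem isAdicComplete_ball (L : Type) [NontriviallyNormedField L] [IsUltrametricDist L]
    [CompleteSpace L] (ϖ : ball L) (h0 : ϖ ≠ 0) (h1 : ‖(ϖ : L)‖ < 1) :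
    IsAdicComplete (Ideal.span {ϖ}) (ball L) := by
  have hsmod : ∀ (n : ℕ) (x y : ball L), (x ≡ y [SMOD (Ideal.span {ϖ} ^ n • ⊤ : Submodule (ball L) (ball L))]) ↔
      ‖(x : L) - (y : L)‖ ≤ ‖(ϖ : L)‖ ^ n := by
    intro n x y
    rw [SModEq.sub_mem, smul_eq_mul, Ideal.mul_top, J1_mem_pow _ _ h0]
    rfl
  have hpow : Filter.Tendsto (fun n : ℕ => ‖(ϖ : L)‖ ^ n) Filter.atTop (nhds 0) :=
    tendsto_pow_atTop_nhds_zero_of_lt_one (norm_nonneg _) h1
  refine { haus' := ?_, prec' := ?_ }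
  · intro x hx
    have h2 : ∀ n : ℕ, ‖(x : L)‖ ≤ ‖(ϖ : L)‖ ^ n := by
      intro n
      have := (hsmod n x 0).1 (hx n)
      simpa using this
    have h3 : ‖(x : L)‖ ≤ 0 := ge_of_tendsto' hpow h2
    exact Subtype.ext (norm_le_zero_iff.1 h3)
  · intro f hf
    have h2 : ∀ m n : ℕ, m ≤ n → ‖(f m : L) - (f n : L)‖ ≤ ‖(ϖ : L)‖ ^ m :=
      fun m n hmn => (hsmod m _ _).1 (hf hmn)
    have hc : CauchySeq (fun n => (f n : L)) := by
      refine cauchySeq_of_le_tendsto_0 (fun n : ℕ => ‖(ϖ : L)‖ ^ n) ?_ hpow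
      intro n m N hn hm
      rw [dist_eq_norm]
      have e : (f n : L) - (f m : L) = ((f n : L) - (f N : L)) + ((f N : L) - (f m : L)) := by ring
      rw [e]
      refine (IsUltrametricDist.norm_add_le_max _ _).trans (max_le ?_ (h2 N m hm))
      rw [norm_sub_rev]
      exact h2 N n hn
    obtain ⟨y, hy⟩ := cauchySeq_tendsto_of_complete hc
    have hy1 : ‖y‖ ≤ 1 := le_of_tendsto' hy.norm fun n => (f n).2
    refine ⟨⟨y, hy1⟩, fun n => (hsmod n _ _).2 ?_⟩
    have h3 : Filter.Tendsto (fun m => ‖(f n : L) - (f m : L)‖) Filter.atTop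
        (nhds ‖(f n : L) - y‖) := (hy.const_sub _).norm
    exact le_of_tendsto h3 (Filter.eventually_atTop.2 ⟨n, fun m hm => h2 n m hm⟩)

theorem J1_isUnit {L : Type} [NormedField L] [IsUltrametricDist L] (x : ball L) :
    IsUnit x ↔ ‖(x : L)‖ = 1 := by
  constructor
  · rintro ⟨u, rfl⟩
    have h1 : ‖((u : ball L) : L)‖ ≤ 1 := (u : ball L).2
    have h2 : ‖((u⁻¹ : (ball L)ˣ) : L)‖ ≤ 1 := ((u⁻¹ : (ball L)ˣ) : ball L).2
    have h3 : ‖((u : ball L) : L)‖ * ‖(((u⁻¹ : (ball L)ˣ) : ball L) : L)‖ = 1 := by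
      rw [← norm_mul]
      have : (((u : ball L) * ((u⁻¹ : (ball L)ˣ) : ball L) : ball L) : L) = 1 := by
        rw [Units.mul_inv]; rfl
      have e : ((u : ball L) : L) * (((u⁻¹ : (ball L)ˣ) : ball L) : L) = 1 := this
      rw [e, norm_one]
    refine le_antisymm h1 ?_
    by_contra hlt
    push Not at hlt
    have : ‖((u : ball L) : L)‖ * ‖(((u⁻¹ : (ball L)ˣ) : ball L) : L)‖ < 1 := by
      calc _ ≤ ‖((u : ball L) : L)‖ * 1 := by gcongr
        _ < 1 := by simpa using hlt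
    linarith
  · intro h
    have h0 : (x : L) ≠ 0 := by
      intro h'
      rw [h', norm_zero] at h
      exact zero_ne_one h
    refine IsUnit.of_mul_eq_one ⟨(x : L)⁻¹, ?_⟩ ?_
    · rw [mem_ball, norm_inv, h, inv_one]
    · apply Subtype.ext
      show (x : L) * (x : L)⁻¹ = 1
      exact mul_inv_cancel₀ h0

theorem exists_lift_ball (R : Type) [CommRing R] [IsLocalRing R] [IsNoetherianRing R]
    {L : Type} [NontriviallyNormedField L] [IsUltrametricDist L] [CompleteSpace L]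
    (ρ : R →+* L) (hρ : Dom ρ) :
    ∃ φ : AdicCompletion (maximalIdeal R) R →+* L, Dom φ ∧
      φ.comp (algebraMap R (AdicCompletion (maximalIdeal R) R)) = ρ := by
  let θ : R →+* ball L := ρ.codRestrict (ball L).toSubring (fun a => (hρ a).1)
  have hθ : ∀ a, ((θ a : ball L) : L) = ρ a := fun a => rfl
  obtain ⟨s, hs⟩ := IsNoetherian.noetherian (maximalIdeal R)
  -- an element of norm at least the norms of the generators
  have hex : ∃ ϖ : ball L, ϖ ≠ 0 ∧ ‖(ϖ : L)‖ < 1 ∧ ∀ a ∈ s, ‖ρ a‖ ≤ ‖(ϖ : L)‖ := by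
    obtain ⟨z, hz0, hz1⟩ := NormedField.exists_norm_lt_one L
    have hsm : ∀ a ∈ s, ‖ρ a‖ < 1 := fun a ha =>
      (hρ a).2.1 (by rw [← hs]; exact Submodule.subset_span ha)
    by_cases hmax : ∃ a ∈ s, ‖z‖ < ‖ρ a‖
    · have hne : (s.filter fun a => ‖z‖ < ‖ρ a‖).Nonempty := by
        obtain ⟨a, ha, ha'⟩ := hmax
        exact ⟨a, Finset.mem_filter.2 ⟨ha, ha'⟩⟩
      obtain ⟨a, ha, hamax⟩ := Finset.exists_max_image (s.filter fun a => ‖z‖ < ‖ρ a‖)
        (fun a => ‖ρ a‖) hne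
      rw [Finset.mem_filter] at ha
      refine ⟨θ a, ?_, ?_, ?_⟩
      · intro h
        have : ρ a = 0 := by rw [← hθ, h]; rfl
        rw [this, norm_zero] at ha
        linarith [ha.2, norm_nonneg z]
      · rw [hθ]; exact hsm a ha.1
      · intro b hb
        rw [hθ]
        by_cases hb' : ‖z‖ < ‖ρ b‖
        · exact hamax b (Finset.mem_filter.2 ⟨hb, hb'⟩)
        · push Not at hb'
          exact hb'.trans ha.2.le
    · push Not at hmax
      refine ⟨⟨z, hz1.le⟩, ?_, hz1, hmax⟩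
      intro h
      have : z = 0 := congrArg Subtype.val h
      rw [this, norm_zero] at hz0
      exact lt_irrefl _ hz0
  obtain ⟨ϖ, h0, h1, hgen⟩ := hex
  haveI := isAdicComplete_ball L ϖ h0 h1
  have hJ : Ideal.span {ϖ} ≤ maximalIdeal (ball L) := by
    rw [Ideal.span_singleton_le_iff_mem, mem_maximalIdeal, mem_nonunits_iff, J1_isUnit]
    exact ne_of_lt h1
  have hle : maximalIdeal R ≤ (Ideal.span {ϖ}).comap θ := by
    rw [← hs, Submodule.span_le]
    intro a ha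
    show θ a ∈ Ideal.span {ϖ}
    rw [J1_mem_span _ _ h0, hθ]
    exact hgen a ha
  obtain ⟨φ, hφ, hφc⟩ := exists_lift_completion' R (ball L) (Ideal.span {ϖ}) hJ θ hle
  refine ⟨(ball L).subtype.comp φ, ?_, ?_⟩
  · intro a
    have e : ((ball L).subtype.comp φ) a = ((φ a : ball L) : L) := rfl
    rw [e]
    refine ⟨(φ a).2, ?_⟩
    rw [mem_maximalIdeal, mem_nonunits_iff]
    have h2 : IsUnit a ↔ ‖((φ a : ball L) : L)‖ = 1 := by
      rw [← J1_isUnit]
      exact ⟨fun h => h.map φ, fun h => isUnit_of_map_unit φ a h⟩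
    rw [h2]
    have h3 : ‖((φ a : ball L) : L)‖ ≤ 1 := (φ a).2
    exact ⟨fun h => lt_of_le_of_ne h3 h, fun h => ne_of_lt h⟩
  · ext r
    have : φ (algebraMap R _ r) = θ r := congrArg (fun g => g r) hφc
    show ((φ (algebraMap R _ r) : ball L) : L) = ρ r
    rw [this, hθ]

end Pool.Agent.Lib.MP_3029eb_ag.Abh
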