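import Pool.Agent.Lib.MP_3029eb_ag.H44Final
import Pool.Agent.Lib.MP_3029eb_ag.AbhDefs

/-!
Module AB-J2: presentations of complete local rings with control of the dimension.
-/

open IsLocalRing
open scoped PowerSeries

namespace Pool.Agent.Lib.MP_3029eb_ag.Abh

/-- power series with all the coefficients in an ideal -/
noncomputable def J2_ext {A : Type} [CommRing A] (p : Ideal A) : Ideal A⟦X⟧ :=
  RingHom.ker (PowerSeries.map (Ideal.Quotient.mk p))

theorem J2_mem_ext {A : Type} [CommRing A] (p : Ideal A) (f : A⟦X⟧) :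
    f ∈ J2_ext p ↔ ∀ n, PowerSeries.coeff n f ∈ p := by
  rw [J2_ext, RingHom.mem_ker, PowerSeries.ext_iff]
  refine forall_congr' fun n => ?_
  rw [PowerSeries.coeff_map, map_zero, Ideal.Quotient.eq_zero_iff_mem]

theorem J2_ext_prime {A : Type} [CommRing A] (p : Ideal A) [p.IsPrime] : (J2_ext p).IsPrime :=
  RingHom.ker_isPrime _

theorem J2_ext_comap {A : Type} [CommRing A] (p : Ideal A) :
    (J2_ext p).comap (PowerSeries.C (R := A)) = p := by
  ext a
  rw [Ideal.mem_comap, J2_mem_ext]
  constructor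
  · intro h
    have := h 0
    rwa [PowerSeries.coeff_zero_C] at this
  · intro h n
    rw [PowerSeries.coeff_C]
    split_ifs
    · exact h
    · exact zero_mem _

theorem J2_ext_mono {A : Type} [CommRing A] {p q : Ideal A} (h : p ≤ q) :
    J2_ext p ≤ J2_ext q := by
  intro f hf
  rw [J2_mem_ext] at hf ⊢
  exact fun n => h (hf n)

theorem J2_ext_le {A : Type} [CommRing A] (p : Ideal A) (hfg : p.FG) (Q : Ideal A⟦X⟧)
    (h : p ≤ Q.comap (PowerSeries.C (R := A))) : J2_ext p ≤ Q := by
  classical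
  intro f hf
  rw [J2_mem_ext] at hf
  obtain ⟨s, hs⟩ := hfg
  have hc : ∀ n, ∃ c : A → A, ∑ a ∈ s, c a * a = PowerSeries.coeff n f := by
    intro n
    have h1 := hf n
    rw [← hs] at h1
    obtain ⟨c, hc1, hc2⟩ := Submodule.mem_span_finset.1 h1
    exact ⟨c, hc2⟩
  choose c hc using hc
  have e : f = ∑ a ∈ s, PowerSeries.mk (fun n => c n a) * PowerSeries.C (R := A) a := by
    ext n
    rw [map_sum, ← hc n]
    refine Finset.sum_congr rfl fun a _ => ?_
    rw [PowerSeries.coeff_mul_C, PowerSeries.coeff_mk]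
  rw [e]
  refine Ideal.sum_mem _ fun a ha => Ideal.mul_mem_left _ _ ?_
  have h2 : a ∈ p := by rw [← hs]; exact Ideal.subset_span ha
  exact h h2

theorem J2_height_ext {A : Type} [CommRing A] (p : Ideal A) [p.IsPrime] :
    p.height ≤ (@Ideal.height A⟦X⟧ _ (J2_ext p)) := by
  have := J2_ext_prime p
  let F : PrimeSpectrum A → PrimeSpectrum A⟦X⟧ := fun q => ⟨J2_ext q.asIdeal, J2_ext_prime _⟩
  have hF : StrictMono F := by
    intro q q' hqq
    refine lt_of_le_of_ne (J2_ext_mono hqq.le) fun hcon => hqq.ne ?_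
    have h1 : J2_ext q.asIdeal = J2_ext q'.asIdeal := congrArg PrimeSpectrum.asIdeal hcon
    apply PrimeSpectrum.ext
    rw [← J2_ext_comap q.asIdeal, h1, J2_ext_comap]
  have h1 := Order.height_le_height_apply_of_strictMono F hF ⟨p, inferInstance⟩
  rw [← PrimeSpectrum.height_eq_orderHeight, ← PrimeSpectrum.height_eq_orderHeight] at h1
  exact h1

theorem J2_height {A : Type} [CommRing A] [IsNoetherianRing A] (Q : Ideal A⟦X⟧) [Q.IsPrime]
    (f : Polynomial A) (hf : f.Monic)
    (hfQ : Polynomial.eval₂ (PowerSeries.C (R := A)) PowerSeries.X f ∈ Q) :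
    (Q.comap (PowerSeries.C (R := A))).height + 1 ≤ Q.height := by
  set p := Q.comap (PowerSeries.C (R := A)) with hp
  have hpp : p.IsPrime := Ideal.IsPrime.comap _
  have h1 : J2_ext p ≤ Q := J2_ext_le p ((isNoetherianRing_iff_ideal_fg A).1 inferInstance p) Q
    le_rfl
  have h2 : J2_ext p ≠ Q := by
    intro hcon
    rw [← hcon, J2_mem_ext] at hfQ
    have h3 : Polynomial.eval₂ (PowerSeries.C (R := A)) PowerSeries.X f = (f : A⟦X⟧) := by
      rw [Polynomial.eval₂_C_X_eq_coe]
    have h4 := hfQ f.natDegree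
    rw [h3, Polynomial.coeff_coe, hf.coeff_natDegree] at h4
    exact hpp.ne_top ((Ideal.eq_top_iff_one _).2 h4)
  have := J2_ext_prime p
  have h5 := Ideal.height_add_one_le_of_lt_of_isPrime (lt_of_le_of_ne h1 h2)
  exact (add_le_add_left (J2_height_ext p) 1).trans h5

/-- adjoin power series variables, keeping surjectivity modulo an ideal, with heights -/
theorem J2_tower_surj (T : Type) [CommRing T] [IsLocalRing T] [IsNoetherianRing T]
    [IsAdicComplete (maximalIdeal T) T] (P : Ideal T) [P.IsPrime] :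
    ∀ (r : ℕ) (J : Ideal T) (y : Fin r → T) (_ : ∀ i, y i ∈ maximalIdeal T)
      (Λ : Type) [CommRing Λ] [IsRegularLocalRing Λ] (g : Λ →+* T)
      (_ : ((Ideal.Quotient.mk P).comp g).IsIntegral)
      (_ : Function.Surjective ((Ideal.Quotient.mk (J ⊔ Ideal.span (Set.range y))).comp g)),
      ∃ (Λ' : Type) (_ : CommRing Λ') (_ : IsRegularLocalRing Λ') (g' : Λ' →+* T) (e : Λ →+* Λ'),
        g'.comp e = g ∧ Function.Surjective ((Ideal.Quotient.mk J).comp g') ∧
        ringKrullDim Λ' = ringKrullDim Λ + r ∧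
        (P.comap g).height + r ≤ (P.comap g').height := by
  intro r
  induction r with
  | zero =>
    intro J y hy Λ _ _ g hint hfin
    refine ⟨Λ, inferInstance, inferInstance, g, RingHom.id _, by simp, ?_, by simp, by simp⟩
    have : Set.range y = ∅ := by simp
    rw [this, Ideal.span_empty, sup_bot_eq] at hfin
    exact hfin
  | succ r ih =>
    intro J y hy Λ _ _ g hint hfin
    obtain ⟨g', hg', hX⟩ := exists_powerSeries_map Λ T g (y 0) (hy 0)
    have hreg := powerSeries_regular Λ
    have h1 := hreg.1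
    have key : Function.Surjective
        ((Ideal.Quotient.mk (J ⊔ Ideal.span (Set.range (fun i : Fin r => y i.succ)))).comp
        g') := by
      refine powerSeries_surjective Λ T g' _ (by rw [hX]; exact hy 0) ?_
      rw [hg', hX]
      have : J ⊔ Ideal.span (Set.range (fun i : Fin r => y i.succ)) ⊔ Ideal.span {y 0} =
          J ⊔ Ideal.span (Set.range y) := by
        rw [sup_assoc, ← Ideal.span_union]
        congr 2
        ext z
        simp only [Set.mem_union, Set.mem_range, Set.mem_singleton_iff, Fin.exists_fin_succ]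
        tauto
      rw [this]
      exact hfin
    have hint' : ((Ideal.Quotient.mk P).comp g').IsIntegral := by
      have e1 : ((Ideal.Quotient.mk P).comp g').comp (PowerSeries.C (R := Λ)) =
          (Ideal.Quotient.mk P).comp g := by
        rw [RingHom.comp_assoc, hg']
      rw [← e1] at hint
      exact RingHom.IsIntegral.tower_top _ _ hint
    obtain ⟨Λ', i1, i2, g'', e, he, hsurj, hdim, hht⟩ := ih J (fun i => y i.succ)
      (fun i => hy _) Λ⟦X⟧ g' hint' key
    refine ⟨Λ', i1, i2, g'', e.comp (PowerSeries.C (R := Λ)),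
      by rw [← RingHom.comp_assoc, he, hg'], hsurj, ?_, ?_⟩
    · rw [hdim, hreg.2, add_assoc]
      congr 1
      push_cast
      rw [add_comm]
    · obtain ⟨f, hf, hf0⟩ := hint (Ideal.Quotient.mk P (y 0))
      have hmem : Polynomial.eval₂ (PowerSeries.C (R := Λ)) PowerSeries.X f ∈ P.comap g' := by
        rw [Ideal.mem_comap, Polynomial.hom_eval₂, hg', hX, ← Ideal.Quotient.eq_zero_iff_mem,
          Polynomial.hom_eval₂]
        exact hf0
      have h2 := J2_height (P.comap g') f hf hmem
      have h3 : (P.comap g').comap (PowerSeries.C (R := Λ)) = P.comap g := by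
        rw [Ideal.comap_comap, hg']
      rw [h3] at h2
      have h4 := (add_le_add_left h2 (r : ℕ∞)).trans hht
      refine le_trans (le_of_eq ?_) h4
      push_cast
      rw [add_assoc, add_comm (r : ℕ∞) 1]

theorem J2_cohen_noether (T : Type) [CommRing T] [IsLocalRing T] [IsNoetherianRing T]
    [IsAdicComplete (maximalIdeal T) T] (P : Ideal T) [P.IsPrime]
    (C : Type) [CommRing C] [IsRegularLocalRing C] (g : C →+* T)
    (hres : Function.Surjective ((residue T).comp g)) (r : ℕ) (y : Fin r → T)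
    (hy : ∀ i, y i ∈ maximalIdeal T)
    (hfin : ((Ideal.Quotient.mk (P ⊔ Ideal.span (Set.range y))).comp g).Finite)
    (hdim : ringKrullDim (T ⧸ P) = ringKrullDim C + r) (p : ℕ) [Fact p.Prime]
    (Pr : Prop) (hPr : Pr → CharP C p ∧ Good p C) :
    ∃ (Λ S : Type) (_ : CommRing Λ) (_ : IsDomain Λ) (_ : CommRing S) (_ : IsRegularLocalRing S)
      (i : Λ →+* S) (π : S →+* T) (e : C →+* Λ), Function.Surjective π ∧
      Function.Injective ((Ideal.Quotient.mk P).comp (π.comp i)) ∧
      ((Ideal.Quotient.mk P).comp (π.comp i)).Finite ∧ Function.Injective e ∧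
      (Pr → CharP Λ p ∧ Good p Λ) ∧
      ringKrullDim S ≤ ((P.comap π).height : WithBot ℕ∞) + ringKrullDim (T ⧸ P) := by
  obtain ⟨Λ, iΛ, iΛr, gΛ, e, he, heinj, hΛfin, hΛdim, hΛgood⟩ :=
    tower_finite T p r P y hy C g hfin Pr hPr
  have hΛdom : IsDomain Λ := isDomain_of_isRegularLocalRing Λ
  have hΛinj := injective_of_dim Λ T P gΛ hΛfin (by rw [hdim, hΛdim])
  obtain ⟨s, hs⟩ : (maximalIdeal T).FG := (isNoetherianRing_iff_ideal_fg T).1 inferInstance _
  obtain ⟨m, t, ht⟩ : ∃ (m : ℕ) (t : Fin m → T), Set.range t = (s : Set T) :=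
    ⟨s.card, fun i => (s.equivFin.symm i : T), by
      ext z
      simp only [Set.mem_range, Finset.mem_coe]
      constructor
      · rintro ⟨i, rfl⟩; exact (s.equivFin.symm i).2
      · intro hz; exact ⟨s.equivFin ⟨z, hz⟩, by simp⟩⟩
  have hspan : Ideal.span (Set.range t) = maximalIdeal T := by rw [ht]; exact hs
  obtain ⟨S, iS, iSr, π, i, hi, hπ, hSdim, hSht⟩ := J2_tower_surj T P m ⊥ t (fun i => by
    rw [← hspan]; exact Ideal.subset_span ⟨i, rfl⟩) Λ gΛ hΛfin.to_isIntegral (by
    rw [bot_sup_eq, hspan]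
    intro z
    obtain ⟨c, hc⟩ := hres z
    refine ⟨e c, ?_⟩
    rw [← hc, ← he]
    rfl)
  refine ⟨Λ, S, iΛ, hΛdom, iS, iSr, i, π, e, ?_, ?_, ?_, heinj, hΛgood, ?_⟩
  · intro z
    obtain ⟨a, ha⟩ := hπ (Ideal.Quotient.mk ⊥ z)
    refine ⟨a, ?_⟩
    rw [RingHom.comp_apply, Ideal.Quotient.eq, Ideal.mem_bot, sub_eq_zero] at ha
    exact ha
  · rw [hi]; exact hΛinj
  · rw [hi]; exact hΛfin
  · rw [hSdim, hdim, ← hΛdim, add_comm]
    refine add_le_add_left ?_ _
    have h1 : (m : ℕ∞) ≤ (P.comap π).height := le_trans le_add_self hSht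
    have h2 : ((m : ℕ∞) : WithBot ℕ∞) ≤ ((P.comap π).height : WithBot ℕ∞) :=
      WithBot.coe_le_coe.2 h1
    exact h2

/-- the case of a coefficient field -/
theorem J2_cohen_data_field (T : Type) [CommRing T] [IsLocalRing T] [IsNoetherianRing T]
    [IsAdicComplete (maximalIdeal T) T] (P : Ideal T) [P.IsPrime] (K0 : Type) [Field K0]
    [PerfectField K0] [Algebra K0 T] (p : ℕ) [Fact p.Prime]
    (Pr : Prop) (hPr : Pr → CharP (ResidueField T) p ∧ Good p (ResidueField T)) :
    ∃ (Λ S : Type) (_ : CommRing Λ) (_ : IsDomain Λ) (_ : CommRing S) (_ : IsRegularLocalRing S)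
      (i : Λ →+* S) (π : S →+* T) (e : ResidueField T →+* Λ), Function.Surjective π ∧
      Function.Injective ((Ideal.Quotient.mk P).comp (π.comp i)) ∧
      ((Ideal.Quotient.mk P).comp (π.comp i)).Finite ∧ Function.Injective e ∧
      (Pr → CharP Λ p ∧ Good p Λ) ∧
      ringKrullDim S ≤ ((P.comap π).height : WithBot ℕ∞) + ringKrullDim (T ⧸ P) := by
  obtain ⟨d, hd⟩ := exists_nat_krullDim T P Ideal.IsPrime.ne_top'
  obtain ⟨g, hg⟩ := exists_coefficient_field K0 T
  obtain ⟨y, hy, n, hn⟩ := exists_sop T P Ideal.IsPrime.ne_top' d hd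
  have hres : Function.Surjective ((residue T).comp g) := by
    rw [hg]; exact Function.surjective_id
  refine J2_cohen_noether T P (ResidueField T) g hres d y hy
    (finite_of_artinian _ T g hres _ n hn) ?_ p Pr hPr
  rw [hd, ringKrullDim_eq_zero_of_field, zero_add]

/-- The hypothesis on characteristics. -/
theorem J2_cohen_data (T : Type) [CommRing T] [IsLocalRing T] [IsNoetherianRing T]
    [IsAdicComplete (maximalIdeal T) T] (P : Ideal T) [P.IsPrime]
    (hchar : (∃ p : ℕ, Fact p.Prime ∧ CharP T p) ∨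
      (∃ p : ℕ, Fact p.Prime ∧ CharP (ResidueField T) p ∧ (p : T) ∉ P) ∨
      CharZero (ResidueField T)) :
    ∃ (Λ S : Type) (_ : CommRing Λ) (_ : IsDomain Λ) (_ : CommRing S) (_ : IsRegularLocalRing S)
      (i : Λ →+* S) (π : S →+* T), Function.Surjective π ∧
      Function.Injective ((Ideal.Quotient.mk P).comp (π.comp i)) ∧
      ((Ideal.Quotient.mk P).comp (π.comp i)).Finite ∧
      (CharZero Λ ∨ ∃ p : ℕ, Fact p.Prime ∧ CharP Λ p ∧ Good p Λ) ∧
      ringKrullDim S ≤ ((P.comap π).height : WithBot ℕ∞) + ringKrullDim (T ⧸ P) := by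
  have hPtop : P ≠ ⊤ := Ideal.IsPrime.ne_top'
  rcases hchar with ⟨p, hp, hpT⟩ | ⟨p, hp, hpk, hpP⟩ | hk0
  · -- equal characteristic p
    let : Algebra (ZMod p) T := ZMod.algebra T p
    have hkp : CharP (ResidueField T) p := by
      let : Algebra (ZMod p) (ResidueField T) := ((residue T).comp (algebraMap (ZMod p) T)).toAlgebra
      exact charP_of_injective_algebraMap (algebraMap (ZMod p) (ResidueField T)).injective p
    obtain ⟨Λ, S, iΛ, iΛd, iS, iSr, i, π, e, h1, h2, h3, h4, h5, h6⟩ :=
      J2_cohen_data_field T P (ZMod p) p True (fun _ => ⟨hkp, good_field p _⟩)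
    exact ⟨Λ, S, iΛ, iΛd, iS, iSr, i, π, h1, h2, h3, Or.inr ⟨p, hp, h5 trivial⟩, h6⟩
  · -- mixed characteristic
    obtain ⟨C, iC, iCd, iCdvr, iCc, iC0, q, hCm, hq⟩ := exists_cohen_ring p (ResidueField T)
    have hpT : (p : T) ∈ maximalIdeal T := by
      rw [← residue_eq_zero_iff, map_natCast, CharP.cast_eq_zero]
    obtain ⟨g, hg⟩ := exists_coefficient_map p T hpT C hCm q
    have hres : Function.Surjective ((residue T).comp g) := by rw [hg]; exact hq
    obtain ⟨d, hd⟩ := exists_nat_krullDim T P hPtop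
    have hP' : P ⊔ Ideal.span {(p : T)} ≠ ⊤ := by
      intro h
      have : P ⊔ Ideal.span {(p : T)} ≤ maximalIdeal T :=
        sup_le (IsLocalRing.le_maximalIdeal hPtop) (by
          rw [Ideal.span_singleton_le_iff_mem]; exact hpT)
      rw [h, top_le_iff] at this
      exact Ideal.IsPrime.ne_top' this
    obtain ⟨r, hr⟩ := exists_nat_krullDim T _ hP'
    have hdr : d = r + 1 := by
      have e1 : ringKrullDim ((T ⧸ P) ⧸ Ideal.span {(Ideal.Quotient.mk P) (p : T)}) + 1 =
          ringKrullDim (T ⧸ P) := by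
        have : Nontrivial (T ⧸ P) := Ideal.Quotient.nontrivial_iff.2 hPtop
        have : IsLocalRing (T ⧸ P) :=
          IsLocalRing.of_surjective' _ Ideal.Quotient.mk_surjective
        refine ringKrullDim_quotient_span_singleton_succ_eq_ringKrullDim_of_mem_nonZeroDivisors
          ?_ ?_
        · rw [mem_nonZeroDivisors_iff_ne_zero, Ne, Ideal.Quotient.eq_zero_iff_mem]
          exact hpP
        · rw [mem_maximalIdeal, mem_nonunits_iff]
          intro hu
          have hloc : IsLocalHom (Ideal.Quotient.mk P) :=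
            Ideal.Quotient.mk_surjective.isLocalHom
          have := isUnit_of_map_unit (Ideal.Quotient.mk P) _ hu
          exact (mem_nonunits_iff.1 ((mem_maximalIdeal _).1 hpT)) this
      have e2 : ringKrullDim ((T ⧸ P) ⧸ Ideal.span {(Ideal.Quotient.mk P) (p : T)}) =
          ringKrullDim (T ⧸ (P ⊔ Ideal.span {(p : T)})) := by
        have : Ideal.span {(Ideal.Quotient.mk P) (p : T)} =
            (Ideal.span {(p : T)}).map (Ideal.Quotient.mk P) := by
          rw [Ideal.map_span, Set.image_singleton]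
        rw [this]
        exact ringKrullDim_eq_of_ringEquiv (DoubleQuot.quotQuotEquivQuotSup P _)
      rw [e2, hr, hd] at e1
      exact_mod_cast e1.symm
    obtain ⟨y, hy, n, hn⟩ := exists_sop T _ hP' r hr
    have hgp : g (p : C) = (p : T) := map_natCast g p
    have hfin : ((Ideal.Quotient.mk (P ⊔ Ideal.span (Set.range y))).comp g).Finite := by
      refine dvr_finite C T g _ (p : C) hCm (by rw [hgp]; exact hpT) ?_
      rw [hgp]
      refine finite_of_artinian C T g hres _ n (hn.trans (le_of_eq ?_))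
      rw [sup_assoc, sup_assoc, sup_comm (Ideal.span {(p : T)})]
    have hCdim : ringKrullDim C = 1 :=
      IsPrincipalIdealRing.ringKrullDim_eq_one C (IsDiscreteValuationRing.not_isField C)
    obtain ⟨Λ, S, iΛ, iΛd, iS, iSr, i, π, e, h1, h2, h3, h4, h5, h6⟩ :=
      J2_cohen_noether T P C g hres r y hy hfin (by
        rw [hd, hdr, hCdim]; push_cast; rw [add_comm]) p False (fun h => h.elim)
    refine ⟨Λ, S, iΛ, iΛd, iS, iSr, i, π, h1, h2, h3, Or.inl ?_, h6⟩
    exact charZero_of_injective_ringHom h4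
  · -- equal characteristic zero
    have hunit : ∀ n : ℕ, n ≠ 0 → IsUnit (n : T) := by
      intro n hn
      by_contra hcon
      have : (n : T) ∈ maximalIdeal T := (mem_maximalIdeal _).2 hcon
      rw [← residue_eq_zero_iff, map_natCast] at this
      exact hn (by exact_mod_cast this)
    have hT0 : ∀ I : Ideal T, I ≠ ⊤ → CharZero (T ⧸ I) := by
      intro I hI
      refine charZero_of_inj_zero (fun n hn => ?_)
      by_contra hn0
      have h1 := (hunit n hn0).map (Ideal.Quotient.mk I)
      rw [map_natCast, hn] at h1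
      have : Nontrivial (T ⧸ I) := Ideal.Quotient.nontrivial_iff.2 hI
      exact not_isUnit_zero h1
    let : Algebra ℚ T := (EqualCharZero.nonempty_algebraRat_iff T).2 hT0 |>.some
    obtain ⟨Λ, S, iΛ, iΛd, iS, iSr, i, π, e, h1, h2, h3, h4, h5, h6⟩ :=
      J2_cohen_data_field T P ℚ 2 False (fun h => h.elim)
    refine ⟨Λ, S, iΛ, iΛd, iS, iSr, i, π, h1, h2, h3, Or.inl ?_, h6⟩
    exact charZero_of_injective_ringHom h4

theorem exists_presentation_dim (T : Type) [CommRing T] [IsLocalRing T] [IsNoetherianRing T]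
    [IsAdicComplete (maximalIdeal T) T] (P : Ideal T) [P.IsPrime]
    (hP : ∀ n : ℕ, (n : T) ∈ P → (n : T) = 0) :
    ∃ (S : Type) (_ : CommRing S) (_ : IsRegularLocalRing S) (π : S →+* T),
      Function.Surjective π ∧ BddDer S (P.comap π) ∧
      ringKrullDim S ≤ ((P.comap π).height : WithBot ℕ∞) + ringKrullDim (T ⧸ P) := by
  have hchar : (∃ p : ℕ, Fact p.Prime ∧ CharP T p) ∨
      (∃ p : ℕ, Fact p.Prime ∧ CharP (ResidueField T) p ∧ (p : T) ∉ P) ∨
      CharZero (ResidueField T) := by
    rcases CharP.exists' (ResidueField T) with h0 | ⟨p, hp, hpk⟩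
    · exact Or.inr (Or.inr h0)
    · by_cases hR : (p : T) = 0
      · left
        exact ⟨p, hp, (CharP.charP_iff_prime_eq_zero hp.out).2 hR⟩
      · right; left
        exact ⟨p, hp, hpk, fun hmem => hR (hP _ hmem)⟩
  obtain ⟨Λ, S, iΛ, iΛd, iS, iSr, i, π, hπ, hΛi, hΛf, hΛc, hdim⟩ := J2_cohen_data T P hchar
  let q : S ⧸ P.comap π →+* T ⧸ P := Ideal.quotientMap P π le_rfl
  have hqi : Function.Injective q := Ideal.quotientMap_injective' le_rfl
  have hqs : Function.Surjective q := Ideal.quotientMap_surjective hπ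
  have hqc : (q.comp ((Ideal.Quotient.mk (P.comap π)).comp i)) =
      (Ideal.Quotient.mk P).comp (π.comp i) := by
    ext a; rfl
  have hi1 : Function.Injective ((Ideal.Quotient.mk (P.comap π)).comp i) := by
    intro a b hab
    apply hΛi
    rw [← hqc]
    exact congrArg q hab
  have hf1 : ((Ideal.Quotient.mk (P.comap π)).comp i).Finite := by
    let e := RingEquiv.ofBijective q ⟨hqi, hqs⟩
    have he : (Ideal.Quotient.mk (P.comap π)).comp i =
        (e.symm : _ →+* _).comp ((Ideal.Quotient.mk P).comp (π.comp i)) := by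
      rw [← hqc]
      ext a
      exact (e.symm_apply_apply _).symm
    rw [he]
    exact RingHom.Finite.comp (RingHom.Finite.of_surjective _ e.symm.surjective) hΛf
  refine ⟨S, iS, iSr, π, hπ, ?_, hdim⟩
  rcases hΛc with h0 | ⟨p, hp, hpΛ, hgood⟩
  · exact bddDer_charZero Λ S _ i hi1 hf1
  · exact bddDer_charP p Λ S hgood _ i hi1 hf1

end Pool.Agent.Lib.MP_3029eb_ag.Abh
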