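import Pool.Agent.Lib.MP_3029eb_ag.H6J
import Pool.Agent.Lib.MP_3029eb_ag.AbhJ2
import Pool.Agent.Lib.MP_3029eb_ag.AbhA1

/-!
Module AB-J3: the initial state.
-/

open IsLocalRing

namespace Pool.Agent.Lib.MP_3029eb_ag.Abh

theorem J3_dim_lt {S : Type} [CommRing S] (b Q : Ideal S) [b.IsPrime] (h : b ≤ Q) (hne : b ≠ Q) :
    ringKrullDim (S ⧸ Q) + 1 ≤ ringKrullDim (S ⧸ b) := by
  obtain ⟨s, hsQ, hsb⟩ : ∃ s ∈ Q, s ∉ b := by
    by_contra hcon
    push Not at hcon
    exact hne (le_antisymm h hcon)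
  have hs0 : Ideal.Quotient.mk b s ∈ nonZeroDivisors (S ⧸ b) := by
    rw [mem_nonZeroDivisors_iff_ne_zero, Ne, Ideal.Quotient.eq_zero_iff_mem]
    exact hsb
  have h1 := ringKrullDim_quotient_succ_le_of_nonZeroDivisor hs0
  refine le_trans ?_ h1
  refine add_le_add_left ?_ 1
  let f : (S ⧸ b) ⧸ Ideal.span {Ideal.Quotient.mk b s} →+* S ⧸ Q :=
    Ideal.Quotient.lift _ (Ideal.Quotient.factor h) (by
      intro a ha
      rw [Ideal.mem_span_singleton] at ha
      obtain ⟨c, rfl⟩ := ha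
      rw [map_mul, Ideal.Quotient.factor_mk, Ideal.Quotient.eq_zero_iff_mem.2 hsQ, zero_mul])
  refine ringKrullDim_le_of_surjective f ?_
  intro z
  obtain ⟨z, rfl⟩ := Ideal.Quotient.mk_surjective z
  exact ⟨Ideal.Quotient.mk _ (Ideal.Quotient.mk b z), rfl⟩

theorem J3_transport {T : Type} [CommRing T] (P Q : Ideal T) [P.IsPrime] [Q.IsPrime] (h : P = Q)
    (h1 : IsRegularLocalRing (Localization.AtPrime P)) :
    IsRegularLocalRing (Localization.AtPrime Q) := by
  subst h; exact h1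

theorem J3_transport' {T : Type} [CommRing T] (P Q : Ideal T) [P.IsPrime] [Q.IsPrime] (h : P = Q)
    (h1 : BddDer T P) : BddDer T Q := by
  subst h; exact h1

theorem exists_state (T : Type) [CommRing T] [IsLocalRing T] [IsNoetherianRing T]
    [IsAdicComplete (maximalIdeal T) T] {L : Type} [NontriviallyNormedField L]
    [IsUltrametricDist L] (φ : T →+* L) (hφ : Dom φ)
    (hchar : ∀ n : ℕ, φ (n : T) = 0 → (n : T) = 0)
    [(RingHom.ker φ).IsPrime] (hreg : IsRegularLocalRing (Localization.AtPrime (RingHom.ker φ)))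
    {r : ℕ} (hdim : ringKrullDim T ≤ r) (x : Fin r → T) (hx : Indep (fun i => φ (x i))) :
    ∃ (S : Type) (_ : CommRing S) (_ : IsRegularLocalRing S) (π : S →+* T) (c : ℕ)
      (Φ : S →+* TrivSqZeroExt L (Fin c → L)) (f : Fin c → S),
      Function.Surjective π ∧ (∀ s, (Φ s).fst = φ (π s)) ∧ (∀ s i, ‖(Φ s).snd i‖ ≤ 1) ∧
      (∀ i, π (f i) = 0) ∧ (Matrix.of fun i j => (Φ (f i)).snd j).det ≠ 0 ∧
      (maximalIdeal S).spanFinrank ≤ c + r := by
  classical
  obtain ⟨S, iS, iSr, π, hπ, hbdd, hSdim⟩ := exists_presentation_dim T (RingHom.ker φ)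
    (fun n hn => hchar n hn)
  let ψ : T →+* ball L := φ.codRestrict (ball L).toSubring (fun t => (hφ t).1)
  have hψ : ∀ t, ((ψ t : ball L) : L) = φ t := fun t => rfl
  have hker : RingHom.ker ψ = RingHom.ker φ := by
    ext t
    rw [RingHom.mem_ker, RingHom.mem_ker, ← hψ t]
    exact ⟨fun h => by rw [h]; rfl, fun h => Subtype.ext h⟩
  have hP1 : (RingHom.ker ψ).IsPrime := RingHom.ker_isPrime ψ
  have hP2 : (RingHom.ker (ψ.comp π)).IsPrime := RingHom.ker_isPrime _
  have hP3 : ((RingHom.ker φ).comap π).IsPrime := inferInstance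
  have hker2 : (RingHom.ker φ).comap π = RingHom.ker (ψ.comp π) := by
    rw [← RingHom.comap_ker, hker]
  obtain ⟨c, b, hb, h1, h2, h3, Φ, hΦ1, hΦ2, f, hf, hdet⟩ :=
    init_state' (W := ball L) (KW := L) S T π hπ ψ (J3_transport _ _ hker.symm hreg)
      (J3_transport' _ _ hker2 hbdd)
  refine ⟨S, iS, iSr, π, c, Φ, f, hπ, hΦ1, ?_, hf, ?_, ?_⟩
  · intro s i
    obtain ⟨w, hw⟩ := hΦ2 s i
    rw [← hw]
    exact w.2
  · intro h0
    apply hdet
    rw [← Matrix.det_transpose]
    exact h0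
  · -- the dimension
    rw [← hker2] at h2
    have hlocq : IsLocalRing (T ⧸ RingHom.ker φ) := by
      have : Nontrivial (T ⧸ RingHom.ker φ) := Ideal.Quotient.nontrivial_iff.2 Ideal.IsPrime.ne_top'
      exact IsLocalRing.of_surjective' _ Ideal.Quotient.mk_surjective
    have hA1 : (r : WithBot ℕ∞) ≤ ringKrullDim (T ⧸ RingHom.ker φ) := by
      let φ' : T ⧸ RingHom.ker φ →+* L := Ideal.Quotient.lift _ φ (fun a ha => ha)
      have hφ' : ∀ t, φ' (Ideal.Quotient.mk _ t) = φ t := fun t => rfl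
      have hloch : IsLocalHom (Ideal.Quotient.mk (RingHom.ker φ)) :=
        Ideal.Quotient.mk_surjective.isLocalHom
      refine krullDim_ge (T ⧸ RingHom.ker φ) φ' ?_ (fun i => Ideal.Quotient.mk _ (x i)) hx
      intro a
      obtain ⟨t, rfl⟩ := Ideal.Quotient.mk_surjective a
      rw [hφ']
      refine ⟨(hφ t).1, ?_⟩
      rw [← (hφ t).2, mem_maximalIdeal, mem_maximalIdeal, mem_nonunits_iff, mem_nonunits_iff]
      exact not_congr ⟨fun h => isUnit_of_map_unit _ _ h, fun h => h.map _⟩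
    have hbQ : b = (RingHom.ker φ).comap π := by
      by_contra hne
      have h4 := J3_dim_lt b _ h2 hne
      have h5 : ringKrullDim (T ⧸ RingHom.ker φ) ≤ ringKrullDim (S ⧸ (RingHom.ker φ).comap π) :=
        ringKrullDim_le_of_surjective (Ideal.quotientMap (RingHom.ker φ) π le_rfl)
          (Ideal.quotientMap_surjective hπ)
      have h6 : ringKrullDim (S ⧸ b) ≤ ringKrullDim T := by
        have e1 : ringKrullDim (S ⧸ RingHom.ker π) = ringKrullDim T :=
          ringKrullDim_eq_of_ringEquiv (RingHom.quotientKerEquivOfSurjective hπ)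
        rw [← e1]
        exact ringKrullDim_le_of_surjective (Ideal.Quotient.factor h1)
          (Ideal.Quotient.factor_surjective h1)
      have h7 : ((r : ℕ) : WithBot ℕ∞) + 1 ≤ (r : ℕ) :=
        (add_le_add_left (hA1.trans h5) 1).trans (h4.trans (h6.trans hdim))
      have h8 : r + 1 ≤ r := by exact_mod_cast h7
      omega
    rw [← hbQ] at hSdim
    have h4 : ringKrullDim (T ⧸ RingHom.ker φ) ≤ r :=
      (ringKrullDim_le_of_surjective _ Ideal.Quotient.mk_surjective).trans hdim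
    have h5 : (b.height : WithBot ℕ∞) ≤ (c : ℕ) := WithBot.coe_le_coe.2 h3
    have h6 : ringKrullDim S ≤ ((c + r : ℕ) : WithBot ℕ∞) := by
      push_cast
      exact hSdim.trans (add_le_add h5 h4)
    rw [← IsRegularLocalRing.spanFinrank_maximalIdeal] at h6
    exact_mod_cast h6

end Pool.Agent.Lib.MP_3029eb_ag.Abh
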