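import Pool.Agent.Lib.MP_3029eb_ag.AbhDefs
import Pool.Agent.Lib.MP_3029eb_ag.HB
import Pool.Agent.Lib.MP_3029eb_ag.K4

/-!
Module J4 of the Abhyankar part: choice of generators.
-/

open IsLocalRing

namespace Pool.Agent.Lib.MP_3029eb_ag.Abh

/-- generators indexed by a finite type that is large enough -/
theorem J4_exists_gens (S : Type) [CommRing S] [IsLocalRing S] [IsNoetherianRing S]
    (ι : Type) [Fintype ι] (hι : (maximalIdeal S).spanFinrank ≤ Fintype.card ι) :
    ∃ Z : ι → S, Ideal.span (Set.range Z) = maximalIdeal S := by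
  classical
  obtain ⟨s, hs, hspan⟩ := Submodule.FG.exists_span_finset_card_eq_spanFinrank
    (IsNoetherian.noetherian (maximalIdeal S))
  have hcard : Fintype.card s ≤ Fintype.card ι := by
    rw [Fintype.card_coe, hs]; exact hι
  obtain ⟨e⟩ := Function.Embedding.nonempty_of_card_le hcard
  refine ⟨fun i => if h : ∃ t : s, e t = i then ((h.choose : s) : S) else 0, ?_⟩
  apply le_antisymm
  · rw [Ideal.span_le]
    rintro _ ⟨i, rfl⟩
    show (if h : ∃ t : s, e t = i then ((h.choose : s) : S) else 0) ∈ maximalIdeal S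
    split_ifs with h
    · rw [← hspan]
      exact Submodule.subset_span h.choose.2
    · exact zero_mem _
  · rw [← hspan]
    refine Submodule.span_le.2 ?_
    intro t ht
    refine Ideal.subset_span ⟨e ⟨t, ht⟩, ?_⟩
    have h : ∃ t' : s, e t' = e ⟨t, ht⟩ := ⟨⟨t, ht⟩, rfl⟩
    show (if h : ∃ t' : s, e t' = e ⟨t, ht⟩ then ((h.choose : s) : S) else 0) = t
    rw [dif_pos h]
    have := e.injective h.choose_spec
    rw [this]

theorem adjust_gens (A : Type) [CommRing A] [IsLocalRing A] [IsNoetherianRing A]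
    (S : Type) [CommRing S] [IsLocalRing S] [IsNoetherianRing S]
    (π : S →+* AdicCompletion (maximalIdeal A) A) (hπ : Function.Surjective π)
    (ι : Type) [Fintype ι] (hι : (maximalIdeal S).spanFinrank ≤ Fintype.card ι) :
    ∃ (Z : ι → S) (z : ι → A), Ideal.span (Set.range Z) = maximalIdeal S ∧
      ∀ j, π (Z j) = algebraMap A (AdicCompletion (maximalIdeal A) A) (z j) := by
  classical
  obtain ⟨Z0, hZ0⟩ := J4_exists_gens S ι hι
  have hZm : ∀ j, Z0 j ∈ maximalIdeal S := fun j => by
    rw [← hZ0]; exact Ideal.subset_span ⟨j, rfl⟩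
  have hloc : IsLocalHom π := hπ.isLocalHom
  have hex : ∀ j, ∃ (z : A) (s : S), s ∈ maximalIdeal S ^ 2 ∧
      π (Z0 j) - algebraMap A (AdicCompletion (maximalIdeal A) A) z = π s := by
    intro j
    have h1 : π (Z0 j) ∈ maximalIdeal (AdicCompletion (maximalIdeal A) A) ^ 1 := by
      rw [pow_one, mem_maximalIdeal, mem_nonunits_iff]
      exact fun hu => ((mem_maximalIdeal _).1 (hZm j)) (isUnit_of_map_unit π _ hu)
    obtain ⟨z, -, hz⟩ := (sameCompletion_adicCompletion A).approx 1 _ h1
    obtain ⟨s, hs, hs'⟩ := exists_lift_pow hπ 2 hz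
    exact ⟨z, s, hs, hs'.symm⟩
  choose z s hs hz using hex
  refine ⟨fun j => Z0 j - s j, z, ?_, fun j => ?_⟩
  · apply le_antisymm
    · rw [Ideal.span_le]
      rintro _ ⟨j, rfl⟩
      exact sub_mem (hZm j) (Ideal.pow_le_self two_ne_zero (hs j))
    · refine Submodule.le_of_le_smul_of_le_jacobson_bot (I := maximalIdeal S)
        (IsNoetherian.noetherian (maximalIdeal S)) (IsLocalRing.maximalIdeal_le_jacobson _) ?_
      conv_lhs => rw [← hZ0]
      refine Ideal.span_le.2 ?_
      rintro _ ⟨j, rfl⟩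
      have e3 : Z0 j = (Z0 j - s j) + s j := by ring
      rw [e3]
      refine Submodule.add_mem_sup (Ideal.subset_span ⟨j, rfl⟩) ?_
      have h3 := hs j
      rw [pow_two] at h3
      exact h3
  · rw [map_sub, ← hz j, sub_sub_cancel]

end Pool.Agent.Lib.MP_3029eb_ag.Abh
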