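import Pool.Agent.Lib.MP_3029eb_ag.AbhDefs

/-!
Module AB-J5 : the Jacobian step.
-/

open IsLocalRing

namespace Pool.Agent.Lib.MP_3029eb_ag.Abh

/-! ### ultrametric helpers -/

private theorem J5_sum_le {L : Type} [NormedField L] [IsUltrametricDist L] {κ : Type*}
    (s : Finset κ) (f : κ → L) (q : ℝ) (hq : 0 ≤ q) (h : ∀ i ∈ s, ‖f i‖ ≤ q) :
    ‖∑ i ∈ s, f i‖ ≤ q := by
  classical
  induction s using Finset.induction_on with
  | empty => simpa using hq
  | insert a s ha ih =>
    rw [Finset.sum_insert ha]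
    refine (IsUltrametricDist.norm_add_le_max _ _).trans (max_le (h a (by simp)) (ih ?_))
    exact fun i hi => h i (by simp [hi])

private theorem J5_sum_lt {L : Type} [NormedField L] [IsUltrametricDist L] {κ : Type*}
    (s : Finset κ) (f : κ → L) (q : ℝ) (hq : 0 < q) (h : ∀ i ∈ s, ‖f i‖ < q) :
    ‖∑ i ∈ s, f i‖ < q := by
  classical
  induction s using Finset.induction_on with
  | empty => simpa using hq
  | insert a s ha ih =>
    rw [Finset.sum_insert ha]
    refine (IsUltrametricDist.norm_add_le_max _ _).trans_lt (max_lt (h a (by simp)) (ih ?_))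
    exact fun i hi => h i (by simp [hi])

/-- if `‖y‖ < ‖x‖` then `‖x + y‖ = ‖x‖` -/
private theorem J5_add_eq {L : Type} [NormedField L] [IsUltrametricDist L] (x y : L)
    (h : ‖y‖ < ‖x‖) : ‖x + y‖ = ‖x‖ := by
  apply le_antisymm
  · exact (IsUltrametricDist.norm_add_le_max _ _).trans (max_le le_rfl h.le)
  · by_contra hlt
    push Not at hlt
    have h1 : ‖x‖ ≤ max ‖x + y‖ ‖-y‖ := by
      have := IsUltrametricDist.norm_add_le_max (x + y) (-y)
      rwa [add_neg_cancel_right] at this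
    rw [norm_neg] at h1
    exact absurd h1 (not_le.mpr (max_lt hlt h))

/-- a finite sum of elements of pairwise distinct norms -/
private theorem J5_sum_max {L : Type} [NormedField L] [IsUltrametricDist L] {κ : Type*}
    (s : Finset κ) (hs : s.Nonempty) (f : κ → L) (h0 : ∀ i ∈ s, f i ≠ 0)
    (h : ∀ i ∈ s, ∀ j ∈ s, ‖f i‖ = ‖f j‖ → i = j) :
    ∃ b ∈ s, ‖∑ i ∈ s, f i‖ = ‖f b‖ ∧ ∀ i ∈ s, i ≠ b → ‖f i‖ < ‖f b‖ := by
  classical
  obtain ⟨b, hb, hmax⟩ := s.exists_max_image (fun i => ‖f i‖) hs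
  have hlt : ∀ i ∈ s, i ≠ b → ‖f i‖ < ‖f b‖ := fun i hi hne =>
    lt_of_le_of_ne (hmax i hi) (fun he => hne (h i hi b hb he))
  refine ⟨b, hb, ?_, hlt⟩
  rw [← Finset.add_sum_erase s f hb]
  apply J5_add_eq
  apply J5_sum_lt _ _ _ (norm_pos_iff.mpr (h0 b hb))
  intro i hi
  exact hlt i (Finset.mem_of_mem_erase hi) (Finset.ne_of_mem_erase hi)

private theorem J5_prod_sub {L : Type} [NormedField L] [IsUltrametricDist L] {κ : Type*}
    (s : Finset κ) (f g : κ → L) (q : ℝ) (hq : 0 ≤ q) (hf : ∀ i ∈ s, ‖f i‖ ≤ 1)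
    (hg : ∀ i ∈ s, ‖g i‖ ≤ 1) (h : ∀ i ∈ s, ‖f i - g i‖ ≤ q) :
    ‖∏ i ∈ s, f i - ∏ i ∈ s, g i‖ ≤ q := by
  classical
  induction s using Finset.induction_on with
  | empty => simpa using hq
  | insert a s ha ih =>
    rw [Finset.prod_insert ha, Finset.prod_insert ha]
    have e : f a * ∏ i ∈ s, f i - g a * ∏ i ∈ s, g i =
        f a * (∏ i ∈ s, f i - ∏ i ∈ s, g i) + (f a - g a) * ∏ i ∈ s, g i := by ring
    rw [e]
    refine (IsUltrametricDist.norm_add_le_max _ _).trans (max_le ?_ ?_)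
    · rw [norm_mul]
      calc ‖f a‖ * ‖∏ i ∈ s, f i - ∏ i ∈ s, g i‖ ≤ 1 * q := by
            apply mul_le_mul (hf a (by simp)) _ (norm_nonneg _) zero_le_one
            exact ih (fun i hi => hf i (by simp [hi])) (fun i hi => hg i (by simp [hi]))
              (fun i hi => h i (by simp [hi]))
        _ = q := one_mul q
    · rw [norm_mul]
      calc ‖f a - g a‖ * ‖∏ i ∈ s, g i‖ ≤ q * 1 := by
            apply mul_le_mul (h a (by simp)) _ (norm_nonneg _) hq
            rw [norm_prod]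
            exact Finset.prod_le_one (fun i _ => norm_nonneg _) (fun i hi => hg i (by simp [hi]))
        _ = q := mul_one q

private theorem J5_det_sub {L : Type} [NormedField L] [IsUltrametricDist L] {ι : Type}
    [Fintype ι] [DecidableEq ι] (A B : Matrix ι ι L) (q : ℝ) (hq : 0 ≤ q)
    (hA : ∀ i j, ‖A i j‖ ≤ 1) (hB : ∀ i j, ‖B i j‖ ≤ 1) (h : ∀ i j, ‖A i j - B i j‖ ≤ q) :
    ‖A.det - B.det‖ ≤ q := by
  rw [Matrix.det_apply, Matrix.det_apply, ← Finset.sum_sub_distrib]
  apply J5_sum_le _ _ _ hq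
  intro σ _
  rw [← smul_sub]
  have h1 := J5_prod_sub Finset.univ (fun i => A (σ i) i) (fun i => B (σ i) i) q hq
    (fun i _ => hA _ _) (fun i _ => hB _ _) (fun i _ => h _ _)
  rcases Int.units_eq_one_or (Equiv.Perm.sign σ) with hσ | hσ
  · rw [hσ, one_smul]; exact h1
  · rw [hσ, Units.neg_smul, one_smul, norm_neg]; exact h1

private theorem J5_det_le_one {L : Type} [NormedField L] [IsUltrametricDist L] {ι : Type}
    [Fintype ι] [DecidableEq ι] (A : Matrix ι ι L) (hA : ∀ i j, ‖A i j‖ ≤ 1) :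
    ‖A.det‖ ≤ 1 := by
  rw [Matrix.det_apply]
  apply J5_sum_le _ _ _ zero_le_one
  intro σ _
  have h1 : ‖∏ i, A (σ i) i‖ ≤ 1 := by
    rw [norm_prod]
    exact Finset.prod_le_one (fun i _ => norm_nonneg _) (fun i _ => hA _ _)
  rcases Int.units_eq_one_or (Equiv.Perm.sign σ) with hσ | hσ
  · rw [hσ, one_smul]; exact h1
  · rw [hσ, Units.neg_smul, one_smul, norm_neg]; exact h1

/-! ### monomials -/

private theorem J5_monN_eq {S : Type} [CommRing S] {r : ℕ} (β : Fin r →₀ ℕ) :
    (monN MvPolynomial.X β : MvPolynomial (Fin r) S) = MvPolynomial.monomial β 1 := by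
  rw [MvPolynomial.monomial_eq, monN, Finsupp.prod_fintype _ _ (fun i => pow_zero _), map_one,
    one_mul]

private theorem J5_map_monN {R L : Type} [CommRing R] [CommRing L] (ψ : R →+* L) {r : ℕ}
    (x : Fin r → R) (β : Fin r → ℕ) : ψ (monN x β) = monN (fun i => ψ (x i)) β := by
  simp [monN]

private theorem J5_injN {L : Type} [NormedField L] {r : ℕ} {u : Fin r → L} (hu : Indep u)
    {a b : Fin r → ℕ} (h : ‖monN u a‖ = ‖monN u b‖) : a = b := by
  have hb0 : ∀ b : Fin r → ℕ, monN u b ≠ 0 := fun b =>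
    Finset.prod_ne_zero_iff.mpr (fun i _ => pow_ne_zero _ (hu.ne i))
  have h1 : mon u (fun i => (a i : ℤ) - b i) = monN u a / monN u b := by
    rw [mon, monN, monN, ← Finset.prod_div_distrib]
    apply Finset.prod_congr rfl
    intro i _
    rw [zpow_sub₀ (hu.ne i), zpow_natCast, zpow_natCast]
  have h2 := hu.indep (fun i => (a i : ℤ) - b i) (by
    rw [h1, norm_div, h, div_self]
    exact norm_ne_zero_iff.mpr (hb0 b))
  funext i
  have h3 := congrFun h2 i
  simp only [Pi.zero_apply] at h3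
  omega

/-! ### reduction modulo `(Z')` and powers of `(X)` -/

private theorem J5_a1 {S : Type} [CommRing S] [IsLocalRing S] {r : ℕ} {ι : Type} [Fintype ι]
    (Z : ι → S) (hZ : Ideal.span (Set.range Z) = maximalIdeal S)
    (A : ι → MvPolynomial (Fin r) S) (hA : ∀ j, A j ∈ MvPolynomial.idealOfVars (Fin r) S)
    (s : S) (hs : s ∈ maximalIdeal S) :
    ∃ a ∈ MvPolynomial.idealOfVars (Fin r) S, MvPolynomial.C s - a ∈
      Ideal.span (Set.range fun j => MvPolynomial.C (Z j) - A j) := by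
  rw [← hZ] at hs
  induction hs using Submodule.span_induction with
  | mem x hx =>
    obtain ⟨j, rfl⟩ := hx
    exact ⟨A j, hA j, Ideal.subset_span ⟨j, rfl⟩⟩
  | zero => exact ⟨0, Submodule.zero_mem _, by simp⟩
  | add x y _ _ hx hy =>
    obtain ⟨a, ha, ha'⟩ := hx
    obtain ⟨b, hb, hb'⟩ := hy
    refine ⟨a + b, Submodule.add_mem _ ha hb, ?_⟩
    have e : MvPolynomial.C (x + y) - (a + b) =
        (MvPolynomial.C x - a) + (MvPolynomial.C y - b) := by rw [map_add]; ring
    rw [e]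
    exact Submodule.add_mem _ ha' hb'
  | smul t x _ hx =>
    obtain ⟨a, ha, ha'⟩ := hx
    refine ⟨MvPolynomial.C t * a, Ideal.mul_mem_left _ _ ha, ?_⟩
    have e : MvPolynomial.C (t • x) - MvPolynomial.C t * a =
        MvPolynomial.C t * (MvPolynomial.C x - a) := by
      rw [smul_eq_mul, map_mul]; ring
    rw [e]
    exact Ideal.mul_mem_left _ _ ha'

private theorem J5_a2 {S : Type} [CommRing S] [IsLocalRing S] {r : ℕ} {ι : Type} [Fintype ι]
    (Z : ι → S) (hZ : Ideal.span (Set.range Z) = maximalIdeal S)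
    (A : ι → MvPolynomial (Fin r) S) (hA : ∀ j, A j ∈ MvPolynomial.idealOfVars (Fin r) S)
    (p : MvPolynomial (Fin r) S) (k : ℕ) :
    ∃ (B : Finset (Fin r →₀ ℕ)) (c : (Fin r →₀ ℕ) → Sˣ), (∀ β ∈ B, β.degree < k) ∧
      p - ∑ β ∈ B, MvPolynomial.C (c β : S) * monN MvPolynomial.X β ∈
        Ideal.span (Set.range fun j => MvPolynomial.C (Z j) - A j) ⊔
          MvPolynomial.idealOfVars (Fin r) S ^ k := by
  classical
  set I1 := Ideal.span (Set.range fun j => MvPolynomial.C (Z j) - A j) with hI1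
  set m0 := MvPolynomial.idealOfVars (Fin r) S with hm0
  induction k with
  | zero =>
    refine ⟨∅, fun _ => 1, by simp, ?_⟩
    rw [pow_zero, Ideal.one_eq_top, sup_top_eq]
    trivial
  | succ k ih =>
    obtain ⟨B, c, hB, hp⟩ := ih
    obtain ⟨z, hz, w, hw, hzw⟩ := Submodule.mem_sup.mp hp
    set B1 : Finset (Fin r →₀ ℕ) :=
      w.support.filter (fun β => β.degree = k ∧ IsUnit (w.coeff β)) with hB1
    let c' : (Fin r →₀ ℕ) → Sˣ := fun β =>
      if β.degree < k then c β else if h : IsUnit (w.coeff β) then h.unit else 1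
    have hc1 : ∀ β ∈ B, c' β = c β := fun β hβ => by simp [c', hB β hβ]
    have hc2 : ∀ β ∈ B1, (c' β : S) = w.coeff β := fun β hβ => by
      rw [hB1, Finset.mem_filter] at hβ
      simp [c', hβ.2.1, hβ.2.2]
    have hdisj : Disjoint B B1 := by
      rw [Finset.disjoint_left]
      intro β hβ hβ1
      rw [hB1, Finset.mem_filter] at hβ1
      have := hB β hβ
      omega
    refine ⟨B ∪ B1, c', ?_, ?_⟩
    · intro β hβ
      rcases Finset.mem_union.mp hβ with h | h
      · exact (hB β h).trans (Nat.lt_succ_self k)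
      · rw [hB1, Finset.mem_filter] at h
        omega
    · rw [Finset.sum_union hdisj]
      have e1 : ∑ β ∈ B, MvPolynomial.C (c' β : S) * monN MvPolynomial.X β =
          ∑ β ∈ B, MvPolynomial.C (c β : S) * monN MvPolynomial.X β :=
        Finset.sum_congr rfl (fun β hβ => by rw [hc1 β hβ])
      have e2 : ∑ β ∈ B1, MvPolynomial.C (c' β : S) * monN MvPolynomial.X β =
          ∑ β ∈ B1, MvPolynomial.monomial β (w.coeff β) :=
        Finset.sum_congr rfl (fun β hβ => by
          rw [hc2 β hβ, J5_monN_eq, MvPolynomial.C_mul_monomial, mul_one])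
      rw [e1, e2]
      have e3 : p - (∑ β ∈ B, MvPolynomial.C (c β : S) * monN MvPolynomial.X β +
          ∑ β ∈ B1, MvPolynomial.monomial β (w.coeff β)) =
          z + (w - ∑ β ∈ B1, MvPolynomial.monomial β (w.coeff β)) := by
        linear_combination -hzw
      rw [e3]
      refine Submodule.add_mem _ (Submodule.mem_sup_left hz) ?_
      have e4 : w - ∑ β ∈ B1, MvPolynomial.monomial β (w.coeff β) =
          ∑ β ∈ w.support \ B1, MvPolynomial.monomial β (w.coeff β) := by
        have e6 : w = ∑ β ∈ w.support, MvPolynomial.monomial β (w.coeff β) :=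
          MvPolynomial.as_sum w
        rw [sub_eq_iff_eq_add, Finset.sum_sdiff (Finset.filter_subset _ _)]
        exact e6
      rw [e4]
      refine Submodule.sum_mem _ (fun β hβ => ?_)
      rw [Finset.mem_sdiff] at hβ
      have hβk : k ≤ β.degree :=
        (MvPolynomial.mem_pow_idealOfVars_iff k w).mp hw β hβ.1
      have hmon : (MvPolynomial.monomial β (1 : S)) ∈ m0 ^ k := by
        rw [hm0, MvPolynomial.mem_pow_idealOfVars_iff]
        intro x hx
        have hx' := MvPolynomial.support_monomial_subset hx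
        rw [Finset.mem_singleton] at hx'
        rw [hx']; exact hβk
      rcases Nat.lt_or_ge k β.degree with hlt | hge
      · apply Submodule.mem_sup_right
        rw [hm0, MvPolynomial.mem_pow_idealOfVars_iff]
        intro x hx
        have hx' := MvPolynomial.support_monomial_subset hx
        rw [Finset.mem_singleton] at hx'
        rw [hx']; exact hlt
      · have hdeg : β.degree = k := le_antisymm hge hβk
        have hnu : ¬ IsUnit (w.coeff β) := fun hun =>
          hβ.2 (by rw [hB1, Finset.mem_filter]; exact ⟨hβ.1, hdeg, hun⟩)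
        obtain ⟨a, ha, ha'⟩ := J5_a1 Z hZ A hA (w.coeff β)
          ((mem_maximalIdeal _).mpr hnu)
        have e5 : MvPolynomial.monomial β (w.coeff β) =
            (MvPolynomial.C (w.coeff β) - a) * MvPolynomial.monomial β 1 +
              MvPolynomial.monomial β 1 * a := by
          rw [sub_mul, MvPolynomial.C_mul_monomial, mul_one]; ring
        rw [e5]
        refine Submodule.add_mem _ (Submodule.mem_sup_left (Ideal.mul_mem_right _ _ ha')) ?_
        apply Submodule.mem_sup_right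
        rw [pow_succ]
        exact Ideal.mul_mem_mul hmon ha

private theorem J5_a3 {S L : Type} [CommRing S] [NormedField L] {r : ℕ} (u : Fin r → L)
    (hu : Indep u) (q : ℝ) (hq : 0 < q) :
    ∃ k : ℕ, MvPolynomial.idealOfVars (Fin r) S ^ k ≤
      Ideal.span {m | ∃ β : Fin r → ℕ, m = monN MvPolynomial.X β ∧ ‖monN u β‖ ≤ q} := by
  obtain ⟨ρ, hρ0, hρ1, hρ⟩ : ∃ ρ : ℝ, 0 < ρ ∧ ρ < 1 ∧ ∀ i, ‖u i‖ ≤ ρ := by
    have hne : (insert (1/2 : ℝ) (Finset.univ.image fun i => ‖u i‖)).Nonempty :=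
      Finset.insert_nonempty _ _
    refine ⟨(insert (1/2 : ℝ) (Finset.univ.image fun i => ‖u i‖)).max' hne, ?_, ?_, ?_⟩
    · exact lt_of_lt_of_le (by norm_num) (Finset.le_max' _ (1/2 : ℝ) (by simp))
    · rw [Finset.max'_lt_iff]
      intro y hy
      rw [Finset.mem_insert, Finset.mem_image] at hy
      rcases hy with rfl | ⟨i, _, rfl⟩
      · norm_num
      · exact hu.lt i
    · intro i
      exact Finset.le_max' _ _ (by simp)
  obtain ⟨k, hk⟩ := exists_pow_lt_of_lt_one hq hρ1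
  refine ⟨k, ?_⟩
  rw [MvPolynomial.pow_idealOfVars_eq_span, Ideal.span_le]
  rintro _ ⟨β, hβ, rfl⟩
  apply Ideal.subset_span
  refine ⟨β, (J5_monN_eq β).symm, ?_⟩
  have hβ' : β.degree = k := hβ
  rw [monN, norm_prod]
  calc ∏ i, ‖u i ^ β i‖ ≤ ∏ i, ρ ^ β i := by
        apply Finset.prod_le_prod (fun i _ => norm_nonneg _)
        intro i _
        rw [norm_pow]
        exact pow_le_pow_left₀ (norm_nonneg _) (hρ i) _
    _ = ρ ^ k := by
        rw [Finset.prod_pow_eq_pow_sum, ← hβ', Finsupp.degree_eq_sum]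
    _ ≤ q := hk.le

/-- The ideal of elements with small value and small derivative. -/
private def J5_J {R L : Type} [CommRing R] [NormedField L] [IsUltrametricDist L] {ι : Type}
    (Φ : R →+* TrivSqZeroExt L (ι → L)) (h1 : ∀ p, ‖(Φ p).fst‖ ≤ 1)
    (h2 : ∀ p i, ‖(Φ p).snd i‖ ≤ 1) (q : ℝ) (hq : 0 ≤ q) : Ideal R where
  carrier := {p | ‖(Φ p).fst‖ ≤ q ∧ ∀ i, ‖(Φ p).snd i‖ ≤ q}
  add_mem' := fun {a b} ha hb => by
    refine ⟨?_, fun i => ?_⟩
    · rw [map_add, TrivSqZeroExt.fst_add]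
      exact (IsUltrametricDist.norm_add_le_max _ _).trans (max_le ha.1 hb.1)
    · rw [map_add, TrivSqZeroExt.snd_add, Pi.add_apply]
      exact (IsUltrametricDist.norm_add_le_max _ _).trans (max_le (ha.2 i) (hb.2 i))
  zero_mem' := by
    refine ⟨?_, fun i => ?_⟩
    · rw [map_zero, TrivSqZeroExt.fst_zero, norm_zero]; exact hq
    · rw [map_zero, TrivSqZeroExt.snd_zero, Pi.zero_apply, norm_zero]; exact hq
  smul_mem' := fun c x hx => by
    refine ⟨?_, fun i => ?_⟩
    · rw [smul_eq_mul, map_mul, TrivSqZeroExt.fst_mul, norm_mul]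
      calc ‖(Φ c).fst‖ * ‖(Φ x).fst‖ ≤ 1 * q :=
            mul_le_mul (h1 c) hx.1 (norm_nonneg _) zero_le_one
        _ = q := one_mul q
    · rw [smul_eq_mul, map_mul, TrivSqZeroExt.snd_mul, Pi.add_apply, Pi.smul_apply,
        Pi.smul_apply, smul_eq_mul, op_smul_eq_smul, smul_eq_mul]
      refine (IsUltrametricDist.norm_add_le_max _ _).trans (max_le ?_ ?_)
      · rw [norm_mul]
        calc ‖(Φ c).fst‖ * ‖(Φ x).snd i‖ ≤ 1 * q :=
              mul_le_mul (h1 c) (hx.2 i) (norm_nonneg _) zero_le_one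
          _ = q := one_mul q
      · rw [norm_mul]
        calc ‖(Φ x).fst‖ * ‖(Φ c).snd i‖ ≤ q * 1 :=
              mul_le_mul hx.1 (h2 c i) (norm_nonneg _) hq
          _ = q := mul_one q

private theorem J5_deriv_mul {R L : Type} [CommRing R] [NormedField L] {ι : Type}
    (Φ : R →+* TrivSqZeroExt L (ι → L)) (a b : R) (i : ι) :
    (Φ (a * b)).snd i = (Φ a).fst * (Φ b).snd i + (Φ b).fst * (Φ a).snd i := by
  rw [map_mul, TrivSqZeroExt.snd_mul, Pi.add_apply, Pi.smul_apply,
    Pi.smul_apply, smul_eq_mul, op_smul_eq_smul, smul_eq_mul]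

private theorem J5_deriv_monN {S L : Type} [CommRing S] [NormedField L] [IsUltrametricDist L]
    {r : ℕ} {ι : Type} (Φ : MvPolynomial (Fin r) S →+* TrivSqZeroExt L (ι → L))
    (h : ∀ k i, ‖(Φ (MvPolynomial.X k)).snd i‖ ≤ ‖(Φ (MvPolynomial.X k)).fst‖)
    (β : Fin r → ℕ) (i : ι) :
    ‖(Φ (monN MvPolynomial.X β)).snd i‖ ≤ ‖(Φ (monN MvPolynomial.X β)).fst‖ := by
  let M : Submonoid (MvPolynomial (Fin r) S) :=
    { carrier := {p | ∀ i, ‖(Φ p).snd i‖ ≤ ‖(Φ p).fst‖}
      one_mem' := fun i => by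
        rw [map_one, TrivSqZeroExt.snd_one, Pi.zero_apply, norm_zero]
        exact norm_nonneg _
      mul_mem' := fun {a b} ha hb i => by
        rw [J5_deriv_mul, map_mul, TrivSqZeroExt.fst_mul, norm_mul]
        refine (IsUltrametricDist.norm_add_le_max _ _).trans (max_le ?_ ?_)
        · rw [norm_mul]
          exact mul_le_mul_of_nonneg_left (hb i) (norm_nonneg _)
        · rw [norm_mul, mul_comm ‖(Φ a).fst‖]
          exact mul_le_mul_of_nonneg_left (ha i) (norm_nonneg _) }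
  have : monN MvPolynomial.X β ∈ M := by
    rw [monN]
    refine Submonoid.prod_mem M (fun k _ => Submonoid.pow_mem M ?_ _)
    exact fun i => h k i
  exact this i

theorem jac_core {S L : Type} [CommRing S] [IsLocalRing S] [NormedField L]
    [IsUltrametricDist L] {r : ℕ} {ι : Type} [Fintype ι] [DecidableEq ι] (u : Fin r → L)
    (hu : Indep u) (ψ0 : S →+* L) (hψ0 : Dom ψ0) (Z : ι → S)
    (hZ : Ideal.span (Set.range Z) = maximalIdeal S) (A : ι → MvPolynomial (Fin r) S)
    (hA : ∀ j, A j ∈ Ideal.span (Set.range (MvPolynomial.X : Fin r → MvPolynomial (Fin r) S)))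
    (q : ℝ) (hq : 0 < q)
    (hZA : ∀ j, ‖MvPolynomial.eval₂Hom ψ0 u (MvPolynomial.C (Z j) - A j)‖ ≤ q)
    (F : ι → MvPolynomial (Fin r) S) (hF : ∀ i, MvPolynomial.eval₂Hom ψ0 u (F i) = 0)
    (Φ : MvPolynomial (Fin r) S →+* TrivSqZeroExt L (ι → L))
    (hΦ1 : ∀ p, (Φ p).fst = MvPolynomial.eval₂Hom ψ0 u p)
    (hΦ2 : ∀ p i, ‖(Φ p).snd i‖ ≤ 1)
    (hΦ3 : ∀ k i, ‖(Φ (MvPolynomial.X k)).snd i‖ ≤ ‖u k‖)
    (hd : q < ‖(Matrix.of fun i j => (Φ (F i)).snd j).det‖) :
    ∃ (μ : MvPolynomial (Fin r) S) (b : Fin r → ℕ) (cb : Sˣ),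
      ‖(Matrix.of fun i j => (Φ (F i)).snd j).det‖ ≤ ‖monN u b‖ ∧
      (∀ i, μ * (MvPolynomial.C (Z i) - A i) ∈
        Ideal.span (Set.range F) ⊔
          Ideal.span {m | ∃ β : Fin r → ℕ, m = monN MvPolynomial.X β ∧ ‖monN u β‖ ≤ q}) ∧
      μ - MvPolynomial.C (cb : S) * monN MvPolynomial.X b ∈
        Ideal.span (Set.range fun j => MvPolynomial.C (Z j) - A j) ⊔
          Ideal.span {m | ∃ β : Fin r → ℕ, m = monN MvPolynomial.X β ∧
            ‖monN u β‖ < ‖monN u b‖} := by
  classical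
  set Z' : ι → MvPolynomial (Fin r) S := fun j => MvPolynomial.C (Z j) - A j with hZ'
  set I1 := Ideal.span (Set.range Z') with hI1
  set Iq : Ideal (MvPolynomial (Fin r) S) :=
    Ideal.span {m | ∃ β : Fin r → ℕ, m = monN MvPolynomial.X β ∧ ‖monN u β‖ ≤ q} with hIq
  set ψ := MvPolynomial.eval₂Hom ψ0 u with hψ
  -- values have norm at most one
  have hψX : ∀ k, ψ (MvPolynomial.X k) = u k := fun k => by simp [hψ]
  have hψC : ∀ s, ψ (MvPolynomial.C s) = ψ0 s := fun s => by simp [hψ]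
  have hψ1 : ∀ p, ‖ψ p‖ ≤ 1 := by
    intro p
    induction p using MvPolynomial.induction_on with
    | C a => rw [hψC]; exact (hψ0 a).1
    | add p q hp hq =>
      rw [map_add]
      exact (IsUltrametricDist.norm_add_le_max _ _).trans (max_le hp hq)
    | mul_X p k hp =>
      rw [map_mul, hψX, norm_mul]
      exact mul_le_one₀ hp (norm_nonneg _) (hu.lt k).le
  have hψM : ∀ β : Fin r → ℕ, ψ (monN MvPolynomial.X β) = monN u β := fun β => by
    rw [J5_map_monN]
    congr 1
    funext i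
    exact hψX i
  have hq1 : q < 1 := hd.trans_le (J5_det_le_one _ (fun i j => hΦ2 _ _))
  -- the ideal of elements with small value and derivative
  have hΦf : ∀ p, ‖(Φ p).fst‖ ≤ 1 := fun p => by rw [hΦ1]; exact hψ1 p
  have hIqJ : Iq ≤ J5_J Φ hΦf hΦ2 q hq.le := by
    rw [hIq, Ideal.span_le]
    rintro _ ⟨β, rfl, hβ⟩
    have h1 : ‖(Φ (monN MvPolynomial.X β)).fst‖ ≤ q := by
      rw [hΦ1, hψM]; exact hβ
    refine ⟨h1, fun i => ?_⟩
    refine le_trans (J5_deriv_monN Φ (fun k i => ?_) β i) h1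
    rw [hΦ1, hψX]; exact hΦ3 k i
  -- an ideal for the values alone
  have hval : ∀ x ∈ I1 ⊔ Iq, ‖ψ x‖ ≤ q := by
    let J0 : Ideal (MvPolynomial (Fin r) S) :=
      { carrier := {p | ‖ψ p‖ ≤ q}
        add_mem' := fun {a b} ha hb => by
          show ‖ψ (a + b)‖ ≤ q
          rw [map_add]
          exact (IsUltrametricDist.norm_add_le_max _ _).trans (max_le ha hb)
        zero_mem' := by
          show ‖ψ 0‖ ≤ q
          rw [map_zero, norm_zero]; exact hq.le
        smul_mem' := fun c x hx => by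
          show ‖ψ (c • x)‖ ≤ q
          rw [smul_eq_mul, map_mul, norm_mul]
          calc ‖ψ c‖ * ‖ψ x‖ ≤ 1 * q := mul_le_mul (hψ1 c) hx (norm_nonneg _) zero_le_one
            _ = q := one_mul q }
    have h1 : I1 ⊔ Iq ≤ J0 := by
      apply sup_le
      · rw [hI1, Ideal.span_le]
        rintro _ ⟨j, rfl⟩
        exact hZA j
      · intro x hx
        have := (hIqJ hx).1
        rw [hΦ1] at this
        exact this
    exact fun x hx => h1 hx
  obtain ⟨k, hk⟩ := J5_a3 (S := S) u hu q hq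
  have hunit : ∀ c : Sˣ, ‖ψ0 (c : S)‖ = 1 := fun c => by
    apply le_antisymm (hψ0 _).1
    by_contra hlt
    push Not at hlt
    exact (mem_maximalIdeal _).mp ((hψ0 (c : S)).2.mpr hlt) c.isUnit
  -- the expansion of a polynomial
  have hexp : ∀ p : MvPolynomial (Fin r) S, ∃ (B : Finset (Fin r →₀ ℕ))
      (c : (Fin r →₀ ℕ) → Sˣ),
      p - ∑ β ∈ B, MvPolynomial.C (c β : S) * monN MvPolynomial.X β ∈ I1 ⊔ Iq := by
    intro p
    obtain ⟨B, c, _, h⟩ := J5_a2 Z hZ A hA p k
    exact ⟨B, c, (sup_le_sup_left hk _) h⟩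
  have hterm : ∀ (c : Sˣ) (β : Fin r → ℕ),
      ‖ψ (MvPolynomial.C (c : S) * monN MvPolynomial.X β)‖ = ‖monN u β‖ := fun c β => by
    rw [map_mul, hψC, hψM, norm_mul, hunit, one_mul]
  have hmonne : ∀ β : Fin r → ℕ, monN u β ≠ 0 := fun β =>
    Finset.prod_ne_zero_iff.mpr (fun i _ => pow_ne_zero _ (hu.ne i))
  -- every polynomial: either in `I1 ⊔ Iq`, or with a dominant monomial
  have hdich : ∀ p : MvPolynomial (Fin r) S, q < ‖ψ p‖ →
      ∃ (b : Fin r → ℕ) (cb : Sˣ), ‖ψ p‖ = ‖monN u b‖ ∧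
        p - MvPolynomial.C (cb : S) * monN MvPolynomial.X b ∈
          I1 ⊔ Ideal.span {m | ∃ β : Fin r → ℕ, m = monN MvPolynomial.X β ∧
            ‖monN u β‖ < ‖monN u b‖} := by
    intro p hp
    obtain ⟨B, c, h⟩ := hexp p
    have h1 := hval _ h
    rw [map_sub] at h1
    have h2 : ‖ψ (∑ β ∈ B, MvPolynomial.C (c β : S) * monN MvPolynomial.X β)‖ = ‖ψ p‖ := by
      have e : ψ (∑ β ∈ B, MvPolynomial.C (c β : S) * monN MvPolynomial.X β) =
          ψ p + -(ψ p - ψ (∑ β ∈ B, MvPolynomial.C (c β : S) * monN MvPolynomial.X β)) := by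
        ring
      rw [e]
      apply J5_add_eq
      rw [norm_neg]
      exact h1.trans_lt hp
    have hBne : B.Nonempty := by
      rw [Finset.nonempty_iff_ne_empty]
      rintro rfl
      rw [Finset.sum_empty, map_zero, norm_zero] at h2
      rw [← h2] at hp
      exact absurd hp (not_lt.mpr hq.le)
    obtain ⟨b, hb, hb1, hb2⟩ := J5_sum_max B hBne
      (fun β => ψ (MvPolynomial.C (c β : S) * monN MvPolynomial.X β))
      (fun β _ => by
        rw [← norm_ne_zero_iff, hterm]
        exact norm_ne_zero_iff.mpr (hmonne β))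
      (fun β _ β' _ hh => by
        rw [hterm, hterm] at hh
        exact DFunLike.coe_injective (J5_injN hu hh))
    rw [map_sum] at h2
    rw [hb1, hterm] at h2
    refine ⟨b, c b, h2.symm, ?_⟩
    have e : p - MvPolynomial.C (c b : S) * monN MvPolynomial.X b =
        (p - ∑ β ∈ B, MvPolynomial.C (c β : S) * monN MvPolynomial.X β) +
          ∑ β ∈ B.erase b, MvPolynomial.C (c β : S) * monN MvPolynomial.X β := by
      rw [← Finset.add_sum_erase B _ hb]; ring
    rw [e]
    refine Submodule.add_mem _ ?_ ?_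
    · have hle : Iq ≤ Ideal.span {m | ∃ β : Fin r → ℕ, m = monN MvPolynomial.X β ∧
          ‖monN u β‖ < ‖monN u b‖} := by
        rw [hIq]
        apply Ideal.span_mono
        rintro m ⟨β, hm, hβ⟩
        exact ⟨β, hm, hβ.trans_lt (h2 ▸ hp)⟩
      exact (sup_le_sup_left hle I1) h
    · apply Submodule.mem_sup_right
      refine Submodule.sum_mem _ (fun β hβ => Ideal.mul_mem_left _ _ (Ideal.subset_span ?_))
      refine ⟨β, rfl, ?_⟩
      have := hb2 β (Finset.mem_of_mem_erase hβ) (Finset.ne_of_mem_erase hβ)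
      simpa only [hterm] using this
  -- `F i` lies in `I1 ⊔ Iq`
  have hFI : ∀ i, F i ∈ I1 ⊔ Iq := by
    intro i
    obtain ⟨B, c, h⟩ := hexp (F i)
    have h1 := hval _ h
    rw [map_sub, hF, zero_sub, norm_neg, map_sum] at h1
    have h2 : ∀ β ∈ B, ‖monN u β‖ ≤ q := by
      intro β hβ
      obtain ⟨b, hb, hb1, hb2⟩ := J5_sum_max B ⟨β, hβ⟩
        (fun β => ψ (MvPolynomial.C (c β : S) * monN MvPolynomial.X β))
        (fun β _ => by
          rw [← norm_ne_zero_iff, hterm]
          exact norm_ne_zero_iff.mpr (hmonne β))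
        (fun β _ β' _ hh => by
          rw [hterm, hterm] at hh
          exact DFunLike.coe_injective (J5_injN hu hh))
      rw [hb1] at h1
      by_cases hβb : β = b
      · rw [hβb]
        rw [hterm] at h1
        exact h1
      · have := hb2 β hβ hβb
        simp only [hterm] at this h1
        exact this.le.trans h1
    have e : F i = (F i - ∑ β ∈ B, MvPolynomial.C (c β : S) * monN MvPolynomial.X β) +
        ∑ β ∈ B, MvPolynomial.C (c β : S) * monN MvPolynomial.X β := by ring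
    rw [e]
    refine Submodule.add_mem _ h (Submodule.mem_sup_right ?_)
    exact Submodule.sum_mem _ (fun β hβ => Ideal.mul_mem_left _ _
      (Ideal.subset_span ⟨β, rfl, h2 β hβ⟩))
  have hFr : ∀ i, ∃ (f : ι → MvPolynomial (Fin r) S) (g : MvPolynomial (Fin r) S), g ∈ Iq ∧
      F i = ∑ j, f j * Z' j + g := by
    intro i
    obtain ⟨z, hz, g, hg, hzg⟩ := Submodule.mem_sup.mp (hFI i)
    rw [hI1, Ideal.span, Submodule.mem_span_range_iff_exists_fun] at hz
    obtain ⟨f, hf⟩ := hz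
    refine ⟨f, g, hg, ?_⟩
    rw [← hzg, ← hf]
    simp only [smul_eq_mul]
  choose f g hg hFfg using hFr
  let M : Matrix ι ι (MvPolynomial (Fin r) S) := Matrix.of f
  -- the Jacobian matrices
  let DF : Matrix ι ι L := Matrix.of fun i j => (Φ (F i)).snd j
  let DZ : Matrix ι ι L := Matrix.of fun i j => (Φ (Z' i)).snd j
  have hDF : ∀ i l, ‖DF i l - (ψ.mapMatrix M * DZ) i l‖ ≤ q := by
    intro i l
    have h1 : DF i l = ∑ j, (Φ (f i j * Z' j)).snd l + (Φ (g i)).snd l := by
      show (Φ (F i)).snd l = _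
      rw [hFfg i, map_add, TrivSqZeroExt.snd_add, Pi.add_apply, map_sum]
      congr 1
      rw [TrivSqZeroExt.snd_sum, Finset.sum_apply]
    have h2 : (ψ.mapMatrix M * DZ) i l = ∑ j, (Φ (f i j)).fst * (Φ (Z' j)).snd l := by
      rw [Matrix.mul_apply]
      apply Finset.sum_congr rfl
      intro j _
      rw [hΦ1]
      rfl
    have h3 : DF i l - (ψ.mapMatrix M * DZ) i l =
        ∑ j, (Φ (Z' j)).fst * (Φ (f i j)).snd l + (Φ (g i)).snd l := by
      rw [h1, h2]
      have : ∑ j, (Φ (f i j * Z' j)).snd l = ∑ j, (Φ (f i j)).fst * (Φ (Z' j)).snd l +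
          ∑ j, (Φ (Z' j)).fst * (Φ (f i j)).snd l := by
        rw [← Finset.sum_add_distrib]
        exact Finset.sum_congr rfl (fun j _ => J5_deriv_mul Φ _ _ _)
      rw [this]; ring
    rw [h3]
    refine (IsUltrametricDist.norm_add_le_max _ _).trans (max_le ?_ ((hIqJ (hg i)).2 l))
    apply J5_sum_le _ _ _ hq.le
    intro j _
    rw [norm_mul]
    calc ‖(Φ (Z' j)).fst‖ * ‖(Φ (f i j)).snd l‖ ≤ q * 1 := by
          apply mul_le_mul _ (hΦ2 _ _) (norm_nonneg _) hq.le
          rw [hΦ1]; exact hZA j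
      _ = q := mul_one q
  have hMZ1 : ∀ i l, ‖(ψ.mapMatrix M * DZ) i l‖ ≤ 1 := by
    intro i l
    rw [Matrix.mul_apply]
    apply J5_sum_le _ _ _ zero_le_one
    intro j _
    rw [norm_mul]
    exact mul_le_one₀ (hψ1 _) (norm_nonneg _) (hΦ2 _ _)
  have hdet := J5_det_sub DF (ψ.mapMatrix M * DZ) q hq.le (fun i j => hΦ2 _ _) hMZ1 hDF
  rw [Matrix.det_mul, ← RingHom.map_det] at hdet
  have hdetM : ‖DF.det‖ ≤ ‖ψ M.det‖ := by
    have h1 : ‖ψ M.det * DZ.det‖ = ‖DF.det‖ := by
      have e : ψ M.det * DZ.det = DF.det + -(DF.det - ψ M.det * DZ.det) := by ring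
      rw [e]
      apply J5_add_eq
      rw [norm_neg]
      exact hdet.trans_lt hd
    rw [← h1, norm_mul]
    exact mul_le_of_le_one_right (norm_nonneg _) (J5_det_le_one _ (fun i j => hΦ2 _ _))
  obtain ⟨b, cb, hb1, hb2⟩ := hdich M.det (lt_of_lt_of_le hd hdetM)
  refine ⟨M.det, b, cb, ?_, ?_, hb2⟩
  · rw [← hb1]; exact hdetM
  · intro l
    -- the adjugate
    have h1 : ∑ i, M.adjugate l i * F i = M.det * Z' l + ∑ i, M.adjugate l i * g i := by
      have h2 : ∑ i, M.adjugate l i * F i =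
          ∑ i, M.adjugate l i * (∑ j, M i j * Z' j) + ∑ i, M.adjugate l i * g i := by
        rw [← Finset.sum_add_distrib]
        apply Finset.sum_congr rfl
        intro i _
        rw [← mul_add, hFfg i]
        rfl
      rw [h2]
      congr 1
      have h3 : ∑ i, M.adjugate l i * (∑ j, M i j * Z' j) =
          ((M.adjugate * M).mulVec Z') l := by
        rw [← Matrix.mulVec_mulVec]
        rfl
      rw [h3, Matrix.adjugate_mul, Matrix.smul_mulVec, Matrix.one_mulVec, Pi.smul_apply,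
        smul_eq_mul]
    have h4 : M.det * Z' l = ∑ i, M.adjugate l i * F i - ∑ i, M.adjugate l i * g i := by
      rw [h1]; ring
    show M.det * Z' l ∈ _
    rw [h4]
    refine Submodule.sub_mem _ (Submodule.mem_sup_left ?_) (Submodule.mem_sup_right ?_)
    · exact Submodule.sum_mem _ (fun i _ => Ideal.mul_mem_left _ _
        (Ideal.subset_span ⟨i, rfl⟩))
    · exact Submodule.sum_mem _ (fun i _ => Ideal.mul_mem_left _ _ (hg i))

end Pool.Agent.Lib.MP_3029eb_ag.Abh
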