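import Pool.Agent.Lib.MP_3029eb_ag.AbhDefs
import Pool.Agent.Lib.MP_3029eb_ag.HB
import Pool.Agent.Lib.MP_3029eb_ag.K2b

/-!
Module J8: completion of an ultrametric field, and the dimension of the completion.
-/

open IsLocalRing

namespace Pool.Agent.Lib.MP_3029eb_ag.Abh
open Pool.Agent.Lib.MP_3029eb_ag

theorem exists_completion_field (K : Type) [NontriviallyNormedField K] [IsUltrametricDist K] :
    ∃ (L : Type) (_ : NontriviallyNormedField L) (_ : IsUltrametricDist L) (_ : CompleteSpace L)
      (ι : K →+* L), (∀ z, ‖ι z‖ = ‖z‖) ∧ DenseRange ι := by
  letI inst : NontriviallyNormedField (UniformSpace.Completion K) :=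
    { (inferInstance : NormedField (UniformSpace.Completion K)) with
      non_trivial := by
        obtain ⟨x, hx⟩ := NontriviallyNormedField.non_trivial (α := K)
        exact ⟨(x : UniformSpace.Completion K), by
          rw [UniformSpace.Completion.norm_coe]; exact hx⟩ }
  refine ⟨UniformSpace.Completion K, inst, ?_, inferInstance,
    UniformSpace.Completion.coeRingHom, ?_, ?_⟩
  · refine IsUltrametricDist.isUltrametricDist_of_forall_norm_add_le_max_norm fun x y => ?_
    induction x, y using UniformSpace.Completion.induction_on₂ with
    | hp =>
      exact isClosed_le (by fun_prop) (by fun_prop)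
    | ih x y =>
      rw [← UniformSpace.Completion.coe_add]
      have h := IsUltrametricDist.norm_add_le_max x y
      simpa only [UniformSpace.Completion.norm_coe] using h
  · intro z
    exact UniformSpace.Completion.norm_coe z
  · exact UniformSpace.Completion.denseRange_coe

theorem ringKrullDim_adicCompletion_le (A : Type) [CommRing A] [IsLocalRing A]
    [IsNoetherianRing A] :
    ringKrullDim (AdicCompletion (maximalIdeal A) A) ≤ ringKrullDim A := by
  have := noetherian_adicCompletion A
  exact ringKrullDim_le_of_sameCompletion (sameCompletion_adicCompletion A)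

end Pool.Agent.Lib.MP_3029eb_ag.Abh
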