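import Pool.Agent.Lib.MP_3029eb_ag.AbhS2

/-!
Module AB-S14, first part: a basis of the value group.
-/

open IsLocalRing

namespace Pool.Agent.Lib.MP_3029eb_ag.Abh

theorem S14_log_mon {K : Type} [NormedField K] {k : ℕ} (h : Fin k → K) (hne : ∀ i, h i ≠ 0)
    (δ : Fin k → ℤ) : Real.log ‖mon h δ‖ = ∑ i, (δ i : ℝ) * Real.log ‖h i‖ := by
  rw [norm_mon hne, Real.log_exp, ← Finset.sum_neg_distrib]
  refine Finset.sum_congr rfl fun i _ => ?_
  rw [wt]; ring

theorem exists_basis_norms {K : Type} [NormedField K] {k : ℕ} (h : Fin k → K)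
    (hne : ∀ i, h i ≠ 0) : ∃ (r : ℕ) (u : Fin r → K), Indep u ∧
      ∀ i, ∃ δ : Fin r → ℤ, ‖h i‖ = ‖mon u δ‖ := by
  classical
  let v : Fin k → ℝ := fun i => Real.log ‖h i‖
  let G : Submodule ℤ ℝ := Submodule.span ℤ (Set.range v)
  have : Module.Finite ℤ G := Module.Finite.span_of_finite ℤ (Set.finite_range v)
  have : Module.Free ℤ G := inferInstance
  let bs := Module.finBasis ℤ G
  let r := Module.finrank ℤ G
  have hm : ∀ j : Fin r, ∃ m : Fin k → ℤ, ∑ i, m i • v i = (bs j : ℝ) := fun j =>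
    (Submodule.mem_span_range_iff_exists_fun ℤ).mp (bs j).2
  choose m hm using hm
  let ε : Fin r → ℤ := fun j => if (bs j : ℝ) < 0 then 1 else -1
  have hε2 : ∀ j, ε j * ε j = 1 := by
    intro j
    show (if (bs j : ℝ) < 0 then (1 : ℤ) else -1) * (if (bs j : ℝ) < 0 then (1 : ℤ) else -1) = 1
    split_ifs <;> norm_num
  let u : Fin r → K := fun j => mon h (fun i => ε j * m j i)
  have hu0 : ∀ j, u j ≠ 0 := fun j => mon_ne_zero h hne _
  have hlog : ∀ j, Real.log ‖u j‖ = (ε j : ℝ) * (bs j : ℝ) := by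
    intro j
    rw [S14_log_mon h hne, ← hm j, Finset.mul_sum]
    refine Finset.sum_congr rfl fun i _ => ?_
    rw [zsmul_eq_mul, Int.cast_mul]
    show (ε j : ℝ) * (m j i : ℝ) * v i = _
    ring
  have hlog0 : ∀ j, Real.log ‖u j‖ < 0 := by
    intro j
    have hb0 : (bs j : ℝ) ≠ 0 := by
      intro h0
      exact bs.ne_zero j (Subtype.ext h0)
    rw [hlog]
    show (((if (bs j : ℝ) < 0 then (1 : ℤ) else -1 : ℤ)) : ℝ) * (bs j : ℝ) < 0
    split_ifs with h1
    · rw [Int.cast_one, one_mul]; exact h1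
    · rw [Int.cast_neg, Int.cast_one, neg_one_mul, neg_lt_zero]
      exact lt_of_le_of_ne (not_lt.mp h1) hb0.symm
  refine ⟨r, u, ⟨hu0, ?_, ?_⟩, ?_⟩
  · intro j
    by_contra hcon
    exact absurd (Real.log_nonneg (not_lt.mp hcon)) (not_le.mpr (hlog0 j))
  · intro δ hδ
    have h1 : ∑ j, (δ j : ℝ) * Real.log ‖u j‖ = 0 := by
      rw [← S14_log_mon u hu0, hδ, Real.log_one]
    have h2 : ∑ j, (δ j * ε j) • bs j = 0 := by
      apply Subtype.ext
      rw [Submodule.coe_sum, Submodule.coe_zero]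
      rw [← h1]
      refine Finset.sum_congr rfl fun j _ => ?_
      rw [Submodule.coe_smul, zsmul_eq_mul, hlog, Int.cast_mul]
      ring
    have h3 := Fintype.linearIndependent_iff.mp bs.linearIndependent _ h2
    funext j
    have h4 := h3 j
    have h5 : δ j = (δ j * ε j) * ε j := by rw [mul_assoc, hε2, mul_one]
    rw [h5, h4, zero_mul]; rfl
  · intro i
    have hmem : v i ∈ G := Submodule.subset_span ⟨i, rfl⟩
    refine ⟨fun j => (bs.repr ⟨v i, hmem⟩ j) * ε j, ?_⟩
    have h1 : ∑ j, (bs.repr ⟨v i, hmem⟩ j) • (bs j : ℝ) = v i := by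
      have h2 := congrArg (Subtype.val) (bs.sum_repr ⟨v i, hmem⟩)
      rw [Submodule.coe_sum] at h2
      exact h2
    have h2 : Real.log ‖mon u (fun j => (bs.repr ⟨v i, hmem⟩ j) * ε j)‖ = Real.log ‖h i‖ := by
      rw [S14_log_mon u hu0]
      show _ = v i
      refine Eq.trans ?_ h1
      refine Finset.sum_congr rfl fun j _ => ?_
      have h3 : ((ε j : ℤ) : ℝ) * (ε j : ℝ) = 1 := by exact_mod_cast hε2 j
      rw [hlog, zsmul_eq_mul, Int.cast_mul]
      calc ((bs.repr ⟨v i, hmem⟩ j : ℤ) : ℝ) * (ε j : ℝ) * ((ε j : ℝ) * (bs j : ℝ))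
          = ((bs.repr ⟨v i, hmem⟩ j : ℤ) : ℝ) * (bs j : ℝ) * ((ε j : ℝ) * (ε j : ℝ)) := by ring
        _ = _ := by rw [h3, mul_one]
    exact (Real.log_injOn_pos (norm_pos_iff.mpr (mon_ne_zero u hu0 _))
      (norm_pos_iff.mpr (hne i)) h2).symm

theorem card_le_of_indep {K : Type} [NormedField K] {r r' : ℕ} (u : Fin r → K) (hu : Indep u)
    (u' : Fin r' → K) (hu' : Indep u')
    (h : ∀ i, ∃ δ : Fin r' → ℤ, ‖u i‖ = ‖mon u' δ‖) : r ≤ r' := by
  choose δ hδ using h
  have hli : LinearIndependent ℤ δ := by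
    rw [Fintype.linearIndependent_iff]
    intro c hc
    have h1 : Real.log ‖mon u c‖ = 0 := by
      rw [S14_log_mon u hu.ne]
      have h2 : ∀ i, (c i : ℝ) * Real.log ‖u i‖ =
          ∑ j, ((c i * δ i j : ℤ) : ℝ) * Real.log ‖u' j‖ := by
        intro i
        rw [hδ i, S14_log_mon u' hu'.ne, Finset.mul_sum]
        refine Finset.sum_congr rfl fun j _ => ?_
        rw [Int.cast_mul]; ring
      rw [Finset.sum_congr rfl fun i _ => h2 i, Finset.sum_comm]
      refine Finset.sum_eq_zero fun j _ => ?_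
      rw [← Finset.sum_mul]
      have h3 : ∑ i, c i * δ i j = 0 := by
        have h4 := congrFun hc j
        rw [Finset.sum_apply] at h4
        simpa [smul_eq_mul] using h4
      have h5 : ∑ i, ((c i * δ i j : ℤ) : ℝ) = 0 := by exact_mod_cast h3
      rw [h5, zero_mul]
    have h2 : ‖mon u c‖ = 1 :=
      Real.eq_one_of_pos_of_log_eq_zero (norm_pos_iff.mpr (mon_ne_zero u hu.ne c)) h1
    have h3 := hu.indep c h2
    intro i
    rw [h3]; rfl
  have h1 := hli.fintype_card_le_finrank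
  rw [Fintype.card_fin, Module.finrank_fin_fun] at h1
  exact h1

theorem S14_mon_mul {K : Type} [NormedField K] {k r : ℕ} (e : Fin k → K) (u : Fin r → K)
    (A : Fin k → Fin r → ℤ) (hu : ∀ i, u i ≠ 0) (δ : Fin k → ℤ) :
    mon (fun i => mon u (A i) * e i) δ = mon u (fun j => ∑ i, δ i * A i j) * mon e δ := by
  rw [mon, mon, mon]
  rw [Finset.prod_congr rfl fun i (_ : i ∈ Finset.univ) => mul_zpow (mon u (A i)) (e i) (δ i),
    Finset.prod_mul_distrib]
  congr 1
  rw [Finset.prod_congr rfl fun i (_ : i ∈ Finset.univ) =>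
    (show mon u (A i) ^ δ i = ∏ j, u j ^ (δ i * A i j) by
      rw [mon, ← Finset.prod_zpow]
      exact Finset.prod_congr rfl fun j _ => by rw [mul_comm, zpow_mul])]
  rw [Finset.prod_comm]
  refine Finset.prod_congr rfl fun j _ => ?_
  induction (Finset.univ : Finset (Fin k)) using Finset.cons_induction with
  | empty => rw [Finset.prod_empty, Finset.sum_empty, zpow_zero]
  | cons a s ha ih => rw [Finset.prod_cons, Finset.sum_cons, zpow_add₀ (hu j), ih]

end Pool.Agent.Lib.MP_3029eb_ag.Abh
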