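import Pool.Agent.Lib.MP_3029eb_ag.AbhS13
import Pool.Agent.Lib.MP_3029eb_ag.AbhS14a

/-!
Module AB-S14, second part: stability in terms of a basis of the value group.
-/

open IsLocalRing

namespace Pool.Agent.Lib.MP_3029eb_ag.Abh

theorem stability' {K : Type} [NontriviallyNormedField K] [IsUltrametricDist K] (R0 : Subring K)
    [IsLocalRing R0] [IsNoetherianRing R0] (hdom : Dom R0.subtype)
    (hfrac : ∀ z : K, ∃ a ∈ R0, ∃ b ∈ R0, b ≠ 0 ∧ z = a / b) {r : ℕ} (hr : 0 < r)
    (hdim : ringKrullDim R0 ≤ r) (x : Fin r → K) (hx : Indep x) (hxR : ∀ i, x i ∈ R0) :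
    ∃ (r' : ℕ) (u : Fin r' → K) (g : Finset K), r ≤ r' ∧ Indep u ∧ (∀ i, u i ∈ g) ∧
      (∀ z ∈ g, ‖z‖ ≤ 1) ∧
      ∀ z : K, ‖z‖ < 1 → ∀ ε : ℝ, 0 < ε → ∃ (n : ℕ) (ρ : Fin n → K) (δ : Fin n → (Fin r' → ℤ)),
        (∀ l, ρ l ∈ Subring.closure ((R0 : Set K) ∪ (g : Set K))) ∧
        (∀ l, ‖mon u (δ l)‖ < 1) ∧ ‖z - ∑ l, ρ l * mon u (δ l)‖ < ε := by
  classical
  obtain ⟨u, k, h, f, w, hu, huh, hne, hw, hst⟩ := stability R0 hdom hfrac hr hdim x hx hxR
  obtain ⟨r', u', hu', hA⟩ := exists_basis_norms h hne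
  choose A hA using hA
  let e : Fin k → K := fun i => h i / mon u' (A i)
  have hmne : ∀ δ, mon u' δ ≠ 0 := mon_ne_zero u' hu'.ne
  have he1 : ∀ i, ‖e i‖ = 1 := by
    intro i
    show ‖h i / mon u' (A i)‖ = 1
    rw [norm_div, hA i]
    exact div_self (norm_ne_zero_iff.mpr (hmne _))
  have he0 : ∀ i, e i ≠ 0 := fun i => by
    rw [← norm_ne_zero_iff, he1]; exact one_ne_zero
  have hhe : h = fun i => mon u' (A i) * e i := by
    funext i
    show h i = mon u' (A i) * (h i / mon u' (A i))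
    rw [mul_div_cancel₀ _ (hmne _)]
  let g : Finset K := Finset.univ.image u' ∪ (Finset.univ.image e ∪
    (Finset.univ.image (fun i => (e i)⁻¹) ∪ Finset.univ.image w))
  have hgu : ∀ i, u' i ∈ g := fun i =>
    Finset.mem_union_left _ (Finset.mem_image_of_mem _ (Finset.mem_univ i))
  have hge : ∀ i, e i ∈ g := fun i =>
    Finset.mem_union_right _ (Finset.mem_union_left _
      (Finset.mem_image_of_mem _ (Finset.mem_univ i)))
  have hgi : ∀ i, (e i)⁻¹ ∈ g := fun i =>
    Finset.mem_union_right _ (Finset.mem_union_right _ (Finset.mem_union_left _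
      (Finset.mem_image_of_mem (fun i => (e i)⁻¹) (Finset.mem_univ i))))
  have hgw : ∀ b, w b ∈ g := fun b =>
    Finset.mem_union_right _ (Finset.mem_union_right _ (Finset.mem_union_right _
      (Finset.mem_image_of_mem _ (Finset.mem_univ b))))
  refine ⟨r', u', g, ?_, hu', hgu, ?_, ?_⟩
  · refine card_le_of_indep u hu u' hu' fun i => ?_
    obtain ⟨j, hj⟩ := huh i
    exact ⟨A j, by rw [← hj]; exact hA j⟩
  · intro z hz
    rcases Finset.mem_union.mp hz with hz | hz
    · obtain ⟨i, _, rfl⟩ := Finset.mem_image.mp hz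
      exact (hu'.lt i).le
    rcases Finset.mem_union.mp hz with hz | hz
    · obtain ⟨i, _, rfl⟩ := Finset.mem_image.mp hz
      exact (he1 i).le
    rcases Finset.mem_union.mp hz with hz | hz
    · obtain ⟨i, _, rfl⟩ := Finset.mem_image.mp hz
      rw [norm_inv, he1, inv_one]
    · obtain ⟨i, _, rfl⟩ := Finset.mem_image.mp hz
      exact hw i
  · intro z hz ε hε
    obtain ⟨n, ρ, b, δ, hρ, hδ, hsum⟩ := hst z hz ε hε
    have hR : ∀ y ∈ R0, y ∈ Subring.closure ((R0 : Set K) ∪ (g : Set K)) := fun y hy =>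
      Subring.subset_closure (Or.inl hy)
    have hG : ∀ y ∈ g, y ∈ Subring.closure ((R0 : Set K) ∪ (g : Set K)) := fun y hy =>
      Subring.subset_closure (Or.inr hy)
    have hzp : ∀ i (t : ℤ), e i ^ t ∈ Subring.closure ((R0 : Set K) ∪ (g : Set K)) := by
      intro i t
      rcases Int.eq_nat_or_neg t with ⟨s, rfl | rfl⟩
      · rw [zpow_natCast]; exact Subring.pow_mem _ (hG _ (hge i)) _
      · rw [zpow_neg, zpow_natCast, ← inv_pow]; exact Subring.pow_mem _ (hG _ (hgi i)) _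
    have hen : ∀ δ : Fin k → ℤ, ‖mon e δ‖ = 1 := by
      intro δ
      rw [mon, norm_prod]
      exact Finset.prod_eq_one fun i _ => by rw [norm_zpow, he1, one_zpow]
    have hsplit : ∀ δ : Fin k → ℤ,
        mon h δ = mon u' (fun j => ∑ i, δ i * A i j) * mon e δ := by
      intro δ
      rw [hhe]
      exact S14_mon_mul e u' A hu'.ne δ
    refine ⟨n, fun l => ρ l * w (b l) * mon e (δ l), fun l j => ∑ i, δ l i * A i j, ?_, ?_, ?_⟩
    · intro l
      exact Subring.mul_mem _ (Subring.mul_mem _ (hR _ (hρ l)) (hG _ (hgw _)))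
        (Subring.prod_mem _ fun i _ => hzp i _)
    · intro l
      have h1 := hδ l
      rw [hsplit, norm_mul, hen, mul_one] at h1
      exact h1
    · have h1 : ∑ l, ρ l * w (b l) * mon e (δ l) * mon u' (fun j => ∑ i, δ l i * A i j) =
          ∑ l, ρ l * w (b l) * mon h (δ l) := by
        refine Finset.sum_congr rfl fun l _ => ?_
        rw [hsplit (δ l)]; ring
      rw [h1]
      exact hsum

end Pool.Agent.Lib.MP_3029eb_ag.Abh
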