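import Pool.Agent.Lib.MP_3029eb_ag.AbhS2
import Pool.Agent.Lib.MP_3029eb_ag.AbhS14
import Pool.Agent.Lib.MP_3029eb_ag.AbhT1
import Pool.Agent.Lib.MP_3029eb_ag.AbhA1
import Pool.Agent.Lib.MP_3029eb_ag.AbhA2
import Pool.Agent.Lib.MP_3029eb_ag.AbhJ1
import Pool.Agent.Lib.MP_3029eb_ag.AbhJ3
import Pool.Agent.Lib.MP_3029eb_ag.AbhJ4
import Pool.Agent.Lib.MP_3029eb_ag.AbhJ5
import Pool.Agent.Lib.MP_3029eb_ag.AbhJ6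
import Pool.Agent.Lib.MP_3029eb_ag.AbhJ7
import Pool.Agent.Lib.MP_3029eb_ag.AbhJ8
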