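import Pool.Agent.Lib.MP_3029eb_ag.AbhBase
import Pool.Agent.Lib.MP_3029eb_ag.AbhMods
import Pool.Agent.Lib.MP_3029eb_ag.H6Lift
import Pool.Agent.Lib.MP_3029eb_ag.HB

open IsLocalRing

namespace Pool.Agent.Lib.MP_3029eb_ag.Abh

/-- elements of a span of a set of monomials need only finitely many of them -/
theorem exists_finset_of_mem_sup {R : Type} [CommRing R] {r : ℕ} (I : Ideal R)
    (m : (Fin r → ℕ) → R) (p : (Fin r → ℕ) → Prop) (x : R)
    (hx : x ∈ I ⊔ Ideal.span {y | ∃ β, y = m β ∧ p β}) :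
    ∃ B : Finset (Fin r → ℕ), (∀ β ∈ B, p β) ∧ x ∈ I ⊔ Ideal.span (m '' (B : Set (Fin r → ℕ))) := by
  classical
  obtain ⟨a, ha, b, hb, rfl⟩ := Submodule.mem_sup.1 hx
  have key : ∀ b ∈ Ideal.span {y | ∃ β, y = m β ∧ p β}, ∃ B : Finset (Fin r → ℕ),
      (∀ β ∈ B, p β) ∧ b ∈ Ideal.span (m '' (B : Set (Fin r → ℕ))) := by
    intro b hb
    refine Submodule.span_induction ?_ ?_ ?_ ?_ hb
    · rintro y ⟨β, rfl, hβ⟩
      refine ⟨{β}, by simpa using hβ, Ideal.subset_span ⟨β, by simp, rfl⟩⟩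
    · exact ⟨∅, by simp, zero_mem _⟩
    · rintro y z - - ⟨B, hB, hy⟩ ⟨B', hB', hz⟩
      refine ⟨B ∪ B', ?_, ?_⟩
      · intro β hβ
        rcases Finset.mem_union.1 hβ with h | h
        · exact hB β h
        · exact hB' β h
      · refine add_mem (Ideal.span_mono (Set.image_mono ?_) hy)
          (Ideal.span_mono (Set.image_mono ?_) hz)
        · exact Finset.coe_subset.2 Finset.subset_union_left
        · exact Finset.coe_subset.2 Finset.subset_union_right
    · rintro a y - ⟨B, hB, hy⟩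
      exact ⟨B, hB, Submodule.smul_mem _ _ hy⟩
  obtain ⟨B, hB, hb'⟩ := key b hb
  exact ⟨B, hB, add_mem (Submodule.mem_sup_left ha) (Submodule.mem_sup_right hb')⟩

/-- if a monomial of norm less than one is a monomial with natural exponents, it lies in the ideal
of the variables -/
theorem monN_mem_of_norm {K : Type} [NormedField K] {r : ℕ} {u : Fin r → K} {β : Fin r → ℕ}
    (h : ‖monN u β‖ < 1) : β ≠ 0 := by
  rintro rfl
  rw [monN_zero, norm_one] at h
  exact lt_irrefl _ h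

theorem norm_monN_le_one {K : Type} [NormedField K] {r : ℕ} {u : Fin r → K}
    (hu : ∀ i, ‖u i‖ ≤ 1) (β : Fin r → ℕ) : ‖monN u β‖ ≤ 1 := by
  rw [monN, norm_prod]
  refine Finset.prod_le_one (fun i _ => norm_nonneg _) (fun i _ => ?_)
  rw [norm_pow]
  exact pow_le_one₀ (norm_nonneg _) (hu i)

theorem monN_mem_subring {K : Type} [Field K] (R : Subring K) {r : ℕ} {u : Fin r → K}
    (hu : ∀ i, u i ∈ R) (β : Fin r → ℕ) : monN u β ∈ R :=
  Subring.prod_mem _ (fun i _ => pow_mem (hu i) _)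

theorem coe_monN {K : Type} [Field K] (R : Subring K) {r : ℕ} (w : Fin r → R) (β : Fin r → ℕ) :
    ((monN w β : R) : K) = monN (fun i => (w i : K)) β := map_monN R.subtype w β

/-- multiplication by a monomial is injective on the completion -/
theorem cancel_completion (R : Type) [CommRing R] [IsDomain R] [IsLocalRing R]
    [IsNoetherianRing R] (c : R) (hc : c ≠ 0)
    {a b : AdicCompletion (maximalIdeal R) R}
    (h : algebraMap R (AdicCompletion (maximalIdeal R) R) c * a =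
      algebraMap R (AdicCompletion (maximalIdeal R) R) c * b) : a = b := by
  have h1 : IsSMulRegular R c := by
    intro x y hxy
    exact mul_left_cancel₀ hc hxy
  have h2 : IsSMulRegular (AdicCompletion (maximalIdeal R) R)
      (algebraMap R (AdicCompletion (maximalIdeal R) R) c) := IsSMulRegular.of_flat h1
  exact h2 h

section

variable {K : Type} [NormedField K] [IsUltrametricDist K] {r : ℕ}

/-- the algebra in the completion -/
theorem final_algebra (R3 : Subring K) [IsLocalRing R3] [IsNoetherianRing R3]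
    (w : Fin r → R3) (hw0 : ∀ k, (w k : K) ≠ 0) (I : Ideal R3) (hI : I ≤ maximalIdeal R3)
    {P : Type} [CommRing P] (χ : P →+* AdicCompletion (maximalIdeal R3) R3)
    (X : Fin r → P) (hX : ∀ k, χ (X k) = algebraMap R3 _ (w k))
    {ι : Type} (Z' : ι → P) (ζ : ι → R3) (F : ι → P) (hF : ∀ i, χ (F i) = 0)
    (b γ0 : Fin r → ℕ) (hZ' : ∀ j, χ (Z' j) = algebraMap R3 _ (monN w (b + γ0) * ζ j))
    (hγ0 : monN w γ0 ∈ I) (B1 B2 : Finset (Fin r → ℕ))
    (hB1 : ∀ β ∈ B1, ∃ t ∈ I, monN w β = monN w (b + (b + γ0)) * t)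
    (hB2 : ∀ β ∈ B2, ∃ t ∈ I, monN w β = monN w b * t)
    (μ c : P) (hc : IsUnit (χ c)) (i : ι)
    (hμ1 : μ * Z' i ∈ Ideal.span (Set.range F) ⊔
      Ideal.span (monN X '' (B1 : Set (Fin r → ℕ))))
    (hμ2 : μ - c * monN X b ∈ Ideal.span (Set.range Z') ⊔
      Ideal.span (monN X '' (B2 : Set (Fin r → ℕ)))) :
    algebraMap R3 (AdicCompletion (maximalIdeal R3) R3) (ζ i) ∈
      I.map (algebraMap R3 (AdicCompletion (maximalIdeal R3) R3)) := by
  set T3 := AdicCompletion (maximalIdeal R3) R3 with hT3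
  set al : R3 →+* T3 := algebraMap R3 T3 with hal
  set IT : Ideal T3 := I.map al with hIT
  have hmono : ∀ β : Fin r → ℕ, χ (monN X β) = al (monN w β) := by
    intro β
    rw [map_monN, map_monN]
    congr 1
    funext k
    exact hX k
  have hITm : IT ≤ maximalIdeal T3 := by
    rw [hIT, Ideal.map_le_iff_le_comap]
    intro x hx
    have h1 : maximalIdeal T3 = (maximalIdeal R3).map al := AdicCompletion.maximalIdeal_eq_map
    rw [h1, Ideal.mem_comap]
    exact Ideal.mem_map_of_mem _ (hI hx)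
  have hne : ∀ β : Fin r → ℕ, monN w β ≠ 0 := by
    intro β
    rw [monN, Finset.prod_ne_zero_iff]
    intro k _
    refine pow_ne_zero _ (fun h => hw0 k ?_)
    rw [h]; rfl
  -- χ μ = M b * η
  have h2 : ∃ t ∈ IT, χ (μ - c * monN X b) = al (monN w b) * t := by
    have h3 : χ (μ - c * monN X b) ∈ Ideal.span {al (monN w b)} * IT := by
      have h4 := Ideal.mem_map_of_mem χ hμ2
      rw [Ideal.map_sup, Ideal.map_span, Ideal.map_span] at h4
      refine (sup_le ?_ ?_ : _ ≤ Ideal.span {al (monN w b)} * IT) h4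
      · rw [Ideal.span_le]
        rintro _ ⟨_, ⟨j, rfl⟩, rfl⟩
        rw [SetLike.mem_coe, hZ', monN_add, mul_assoc, map_mul, Ideal.mem_span_singleton_mul]
        refine ⟨_, Ideal.mem_map_of_mem al (Ideal.mul_mem_right (ζ j) I hγ0), rfl⟩
      · rw [Ideal.span_le]
        rintro _ ⟨_, ⟨β, hβ, rfl⟩, rfl⟩
        obtain ⟨t, ht, hβt⟩ := hB2 β (Finset.mem_coe.1 hβ)
        rw [SetLike.mem_coe, hmono, hβt, map_mul, Ideal.mem_span_singleton_mul]
        exact ⟨_, Ideal.mem_map_of_mem al ht, rfl⟩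
    rw [Ideal.mem_span_singleton_mul] at h3
    obtain ⟨t, ht, h5⟩ := h3
    exact ⟨t, ht, h5.symm⟩
  obtain ⟨t, ht, hμt⟩ := h2
  have hχμ : χ μ = al (monN w b) * (χ c + t) := by
    have h6 : χ μ = χ (μ - c * monN X b) + χ c * χ (monN X b) := by
      rw [map_sub, map_mul]; ring
    rw [h6, hμt, hmono]; ring
  have hη : IsUnit (χ c + t) := by
    by_contra hn
    have h7 : χ c + t ∈ maximalIdeal T3 := (mem_maximalIdeal _).2 hn
    have h8 : χ c ∈ maximalIdeal T3 := by
      have := Ideal.sub_mem _ h7 (hITm ht)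
      rwa [add_sub_cancel_right] at this
    exact (mem_nonunits_iff.1 ((mem_maximalIdeal _).1 h8)) hc
  have h9 : ∃ t' ∈ IT, χ (μ * Z' i) = al (monN w (b + (b + γ0))) * t' := by
    have h3 : χ (μ * Z' i) ∈ Ideal.span {al (monN w (b + (b + γ0)))} * IT := by
      have h4 := Ideal.mem_map_of_mem χ hμ1
      rw [Ideal.map_sup, Ideal.map_span, Ideal.map_span] at h4
      refine (sup_le ?_ ?_ : _ ≤ Ideal.span {al (monN w (b + (b + γ0)))} * IT) h4
      · rw [Ideal.span_le]
        rintro _ ⟨_, ⟨j, rfl⟩, rfl⟩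
        rw [SetLike.mem_coe, hF]
        exact zero_mem _
      · rw [Ideal.span_le]
        rintro _ ⟨_, ⟨β, hβ, rfl⟩, rfl⟩
        obtain ⟨t, ht, hβt⟩ := hB1 β (Finset.mem_coe.1 hβ)
        rw [SetLike.mem_coe, hmono, hβt, map_mul, Ideal.mem_span_singleton_mul]
        exact ⟨_, Ideal.mem_map_of_mem al ht, rfl⟩
    rw [Ideal.mem_span_singleton_mul] at h3
    obtain ⟨t, ht, h5⟩ := h3
    exact ⟨t, ht, h5.symm⟩
  obtain ⟨t', ht', hμt'⟩ := h9
  have h10 : al (monN w (b + (b + γ0))) * ((χ c + t) * al (ζ i)) =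
      al (monN w (b + (b + γ0))) * t' := by
    rw [← hμt', map_mul χ, hχμ, hZ', map_mul al, monN_add w b (b + γ0), map_mul al]; ring
  have h11 := cancel_completion R3 _ (hne _) h10
  obtain ⟨η, hη'⟩ := hη
  have h12 : al (ζ i) = ((η⁻¹ : T3ˣ) : T3) * t' := by
    rw [← h11, ← hη', ← mul_assoc, Units.inv_mul, one_mul]
  rw [h12]
  exact Ideal.mul_mem_left _ _ ht'

end

end Pool.Agent.Lib.MP_3029eb_ag.Abh
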