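import Pool.Agent.Lib.MP_3029eb_ag.AbhDefs

/-!
Rationally independent values for arbitrary valuation rings.
-/

namespace Pool.Agent.Lib.MP_3029eb_ag.Abh

/-- The values of the `x i` are rationally independent in the value group of `V`. -/
structure IndV {K : Type} [Field K] (V : ValuationSubring K) {r : ℕ} (x : Fin r → K) :
    Prop where
  ne : ∀ i, x i ≠ 0
  indep : ∀ δ : Fin r → ℤ, V.valuation (mon x δ) = 1 → δ = 0

end Pool.Agent.Lib.MP_3029eb_ag.Abh
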