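import Pool.Agent.Lib.MP_3029eb_ag.AbhDefs
import Mathlib.Algebra.TrivSqZeroExt.Basic
import Mathlib.Analysis.Normed.Field.Ultra
import Mathlib.LinearAlgebra.Matrix.SchurComplement

/-!
Module J6 : the derivation on the polynomial ring.
-/

open IsLocalRing

namespace Pool.Agent.Lib.MP_3029eb_ag.Abh

theorem J6_norm_int {L : Type} [NormedField L] [IsUltrametricDist L] (n : ℤ) :
    ‖(n : L)‖ ≤ 1 := by
  have hnat : ∀ m : ℕ, ‖(m : L)‖ ≤ 1 := fun m => IsUltrametricDist.norm_natCast_le_one L m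
  obtain ⟨m, rfl | rfl⟩ := n.eq_nat_or_neg
  · rw [Int.cast_natCast]; exact hnat m
  · rw [Int.cast_neg, norm_neg, Int.cast_natCast]; exact hnat m

theorem J6_snd_mul {L ι : Type} [NormedField L] (x y : TrivSqZeroExt L (ι → L)) (i : ι) :
    (x * y).snd i = x.fst * y.snd i + y.fst * x.snd i := by
  rw [TrivSqZeroExt.snd_mul, Pi.add_apply, Pi.smul_apply, Pi.smul_apply, smul_eq_mul,
    op_smul_eq_smul, smul_eq_mul]

/-- logarithmic derivatives of powers -/
theorem J6_pow {L ι : Type} [NormedField L] (x : TrivSqZeroExt L (ι → L)) (i : ι) (b : L)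
    (h : x.snd i = x.fst * b) (n : ℕ) : (x ^ n).snd i = x.fst ^ n * ((n : L) * b) := by
  induction n with
  | zero =>
      rw [pow_zero, TrivSqZeroExt.snd_one]
      simp
  | succ n ih =>
      rw [pow_succ, J6_snd_mul, ih, h, TrivSqZeroExt.fst_pow]
      push_cast
      ring

/-- logarithmic derivatives of products -/
theorem J6_prod {L ι κ : Type} [NormedField L] (s : Finset κ)
    (x : κ → TrivSqZeroExt L (ι → L)) (i : ι) (b : κ → L)
    (h : ∀ k ∈ s, (x k).snd i = (x k).fst * b k) :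
    (∏ k ∈ s, x k).snd i = (∏ k ∈ s, (x k).fst) * ∑ k ∈ s, b k := by
  classical
  induction s using Finset.induction_on with
  | empty => simp
  | insert a s ha ih =>
      have hfst : (∏ k ∈ s, x k).fst = ∏ k ∈ s, (x k).fst :=
        map_prod (TrivSqZeroExt.fstHom L L (ι → L)) x s
      rw [Finset.prod_insert ha, Finset.prod_insert ha, Finset.sum_insert ha, J6_snd_mul,
        ih (fun k hk => h k (Finset.mem_insert_of_mem hk)),
        h a (Finset.mem_insert_self a s), hfst]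
      ring

theorem J6_monN {L ι : Type} [NormedField L] {r : ℕ} (x : Fin r → TrivSqZeroExt L (ι → L))
    (i : ι) (b : Fin r → L) (h : ∀ k, (x k).snd i = (x k).fst * b k) (a : Fin r → ℕ) :
    (monN x a).snd i = monN (fun k => (x k).fst) a * ∑ k, (a k : L) * b k := by
  unfold monN
  rw [J6_prod Finset.univ (fun k => x k ^ a k) i (fun k => (a k : L) * b k)
    (fun k _ => by rw [J6_pow (x k) i (b k) (h k), TrivSqZeroExt.fst_pow])]
  simp only [TrivSqZeroExt.fst_pow]

theorem exists_Phi_ext {S L : Type} [CommRing S] [NormedField L] [IsUltrametricDist L]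
    {c r : ℕ} (ψ0 : S →+* L) (Φ0 : S →+* TrivSqZeroExt L (Fin c → L))
    (hΦ01 : ∀ s, (Φ0 s).fst = ψ0 s) (hψ : ∀ s, ‖ψ0 s‖ ≤ 1) (hΦ02 : ∀ s i, ‖(Φ0 s).snd i‖ ≤ 1)
    (f : Fin c → S) (u' u : Fin r → L) (hu : ∀ i, u i ≠ 0) (hu1 : ∀ i, ‖u i‖ < 1)
    (A : Fin r → Fin r → ℕ) (B : Fin r → Fin r → ℤ) (hA : ∀ i, u' i = monN u (A i))
    (hAB : ∀ i j, ∑ k, (A i k : ℤ) * B k j = if i = j then 1 else 0) (υ : Fin r → S)
    (hυ : ∀ i, ψ0 (υ i) = u' i) :
    ∃ Φ : MvPolynomial (Fin r) S →+* TrivSqZeroExt L (Fin c ⊕ Fin r → L),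
      (∀ p, (Φ p).fst = MvPolynomial.eval₂Hom ψ0 u p) ∧
      (∀ p i, ‖(Φ p).snd i‖ ≤ 1) ∧
      (∀ k i, ‖(Φ (MvPolynomial.X k)).snd i‖ ≤ ‖u k‖) ∧
      ‖(Matrix.of fun i j => (Φ (Sum.elim (fun i => MvPolynomial.C (f i))
        (fun i => monN MvPolynomial.X (A i) - MvPolynomial.C (υ i)) i)).snd j).det‖ =
        ‖(Matrix.of fun i j => (Φ0 (f i)).snd j).det‖ * ∏ i, ‖u' i‖ := by
  classical
  let ext : (Fin c → L) →ₗ[L] (Fin c ⊕ Fin r → L) :=
    { toFun := fun v => Sum.elim v (fun _ => 0)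
      map_add' := by
        intro v w
        funext i
        rcases i with i | i <;> simp
      map_smul' := by
        intro a v
        funext i
        rcases i with i | i <;> simp }
  let θ : S →+* TrivSqZeroExt L (Fin c ⊕ Fin r → L) :=
    ((TrivSqZeroExt.map ext : TrivSqZeroExt L (Fin c → L) →ₐ[L]
      TrivSqZeroExt L (Fin c ⊕ Fin r → L)) : TrivSqZeroExt L (Fin c → L) →+*
      TrivSqZeroExt L (Fin c ⊕ Fin r → L)).comp Φ0
  have hθ1 : ∀ s, (θ s).fst = ψ0 s := by
    intro s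
    show (TrivSqZeroExt.map ext (Φ0 s)).fst = ψ0 s
    rw [TrivSqZeroExt.fst_map, hΦ01]
  have hθl : ∀ s i, (θ s).snd (Sum.inl i) = (Φ0 s).snd i := by
    intro s i
    show (TrivSqZeroExt.map ext (Φ0 s)).snd (Sum.inl i) = _
    rw [TrivSqZeroExt.snd_map]
    rfl
  have hθr : ∀ s i, (θ s).snd (Sum.inr i) = 0 := by
    intro s i
    show (TrivSqZeroExt.map ext (Φ0 s)).snd (Sum.inr i) = _
    rw [TrivSqZeroExt.snd_map]
    rfl
  let U : Fin r → TrivSqZeroExt L (Fin c ⊕ Fin r → L) := fun k =>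
    TrivSqZeroExt.inl (u k) +
      TrivSqZeroExt.inr (Sum.elim (fun _ => 0) (fun i => u k * (B k i : L)))
  have hU1 : ∀ k, (U k).fst = u k := by
    intro k
    simp [U]
  have hUl : ∀ k i, (U k).snd (Sum.inl i) = 0 := by
    intro k i
    simp [U]
  have hUr : ∀ k i, (U k).snd (Sum.inr i) = u k * (B k i : L) := by
    intro k i
    simp [U]
  let Φ : MvPolynomial (Fin r) S →+* TrivSqZeroExt L (Fin c ⊕ Fin r → L) :=
    MvPolynomial.eval₂Hom θ U
  have hΦC : ∀ s, Φ (MvPolynomial.C s) = θ s := fun s => MvPolynomial.eval₂Hom_C θ U s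
  have hΦX : ∀ k, Φ (MvPolynomial.X k) = U k := fun k => MvPolynomial.eval₂Hom_X' θ U k
  have hfst : ∀ p, (Φ p).fst = MvPolynomial.eval₂Hom ψ0 u p := by
    intro p
    induction p using MvPolynomial.induction_on with
    | C s => rw [hΦC, hθ1, MvPolynomial.eval₂Hom_C]
    | add p q hp hq => rw [map_add, map_add, TrivSqZeroExt.fst_add, hp, hq]
    | mul_X p k hp =>
        rw [map_mul, map_mul, TrivSqZeroExt.fst_mul, hp, hΦX, hU1, MvPolynomial.eval₂Hom_X']
  have hnorm1 : ∀ p, ‖MvPolynomial.eval₂Hom ψ0 u p‖ ≤ 1 := by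
    intro p
    induction p using MvPolynomial.induction_on with
    | C s => rw [MvPolynomial.eval₂Hom_C]; exact hψ s
    | add p q hp hq =>
        rw [map_add]
        exact (IsUltrametricDist.norm_add_le_max _ _).trans (max_le hp hq)
    | mul_X p k hp =>
        rw [map_mul, MvPolynomial.eval₂Hom_X', norm_mul]
        exact mul_le_one₀ hp (norm_nonneg _) (hu1 k).le
  have hUs : ∀ k i, ‖(U k).snd i‖ ≤ ‖u k‖ := by
    intro k i
    rcases i with i | i
    · rw [hUl, norm_zero]; exact norm_nonneg _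
    · rw [hUr, norm_mul]
      exact mul_le_of_le_one_right (norm_nonneg _) (J6_norm_int _)
  have hsnd : ∀ p i, ‖(Φ p).snd i‖ ≤ 1 := by
    intro p i
    induction p using MvPolynomial.induction_on with
    | C s =>
        rw [hΦC]
        rcases i with i | i
        · rw [hθl]; exact hΦ02 s i
        · rw [hθr, norm_zero]; exact zero_le_one
    | add p q hp hq =>
        rw [map_add, TrivSqZeroExt.snd_add, Pi.add_apply]
        exact (IsUltrametricDist.norm_add_le_max _ _).trans (max_le hp hq)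
    | mul_X p k hp =>
        rw [map_mul, J6_snd_mul, hfst, hΦX, hU1]
        refine (IsUltrametricDist.norm_add_le_max _ _).trans (max_le ?_ ?_)
        · rw [norm_mul]
          exact mul_le_one₀ (hnorm1 p) (norm_nonneg _) ((hUs k i).trans (hu1 k).le)
        · rw [norm_mul]
          exact mul_le_one₀ (hu1 k).le (norm_nonneg _) hp
  have hmon : ∀ a : Fin r → ℕ, Φ (monN MvPolynomial.X a) = monN U a := by
    intro a
    unfold monN
    rw [map_prod]
    refine Finset.prod_congr rfl (fun k _ => ?_)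
    rw [map_pow, hΦX]
  have hmonl : ∀ (a : Fin r → ℕ) (j : Fin c), (monN U a).snd (Sum.inl j) = 0 := by
    intro a j
    rw [J6_monN U (Sum.inl j) (fun _ => 0) (fun k => by rw [hUl, mul_zero])]
    simp
  have hmonr : ∀ (i j : Fin r), (monN U (A i)).snd (Sum.inr j) =
      if i = j then u' i else 0 := by
    intro i j
    rw [J6_monN U (Sum.inr j) (fun k => (B k j : L)) (fun k => by rw [hUr, hU1])]
    have h1 : (fun k => (U k).fst) = u := funext hU1
    rw [h1, ← hA]
    have h2 : ∑ k, ((A i k : ℕ) : L) * (B k j : L) =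
        ((∑ k, (A i k : ℤ) * B k j : ℤ) : L) := by
      push_cast
      rfl
    rw [h2, hAB]
    split_ifs <;> simp
  refine ⟨Φ, hfst, hsnd, fun k i => by rw [hΦX]; exact hUs k i, ?_⟩
  have hmat : (Matrix.of fun i j => (Φ (Sum.elim (fun i => MvPolynomial.C (f i))
        (fun i => monN MvPolynomial.X (A i) - MvPolynomial.C (υ i)) i)).snd j) =
      Matrix.fromBlocks (Matrix.of fun i j => (Φ0 (f i)).snd j) 0
        (Matrix.of fun i j => -(Φ0 (υ i)).snd j) (Matrix.diagonal u') := by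
    ext i j
    rcases i with i | i <;> rcases j with j | j
    · rw [Matrix.fromBlocks_apply₁₁, Matrix.of_apply, Matrix.of_apply, Sum.elim_inl, hΦC, hθl]
    · rw [Matrix.fromBlocks_apply₁₂, Matrix.of_apply, Sum.elim_inl, hΦC, hθr]
      rfl
    · rw [Matrix.fromBlocks_apply₂₁, Matrix.of_apply, Matrix.of_apply, Sum.elim_inr, map_sub,
        TrivSqZeroExt.snd_sub, Pi.sub_apply, hmon, hmonl, hΦC, hθl, zero_sub]
    · rw [Matrix.fromBlocks_apply₂₂, Matrix.of_apply, Sum.elim_inr, map_sub,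
        TrivSqZeroExt.snd_sub, Pi.sub_apply, hmon, hmonr, hΦC, hθr, sub_zero,
        Matrix.diagonal_apply]
  rw [hmat, Matrix.det_fromBlocks_zero₁₂, Matrix.det_diagonal, norm_mul, norm_prod]

end Pool.Agent.Lib.MP_3029eb_ag.Abh
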