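import Pool.Agent.Lib.MP_3029eb_ag.AbhMain
import Pool.Agent.Lib.MP_3029eb_ag.AbhIndV
import Pool.Agent.Lib.MP_3029eb_ag.Comp4
import Pool.Agent.Lib.MP_3029eb_ag.H44Comp

open IsLocalRing

namespace Pool.Agent.Lib.MP_3029eb_ag.Abh

section

variable {K : Type} [Field K]

open Classical in
/-- replace elements by their inverses to get values at most one -/
theorem IndV.exists_inv {V : ValuationSubring K} {r : ℕ} {x : Fin r → K} (hx : IndV V x) :
    ∃ x' : Fin r → K, (∀ i, x' i = x i ∨ x' i = (x i)⁻¹) ∧ IndV V x' ∧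
      ∀ i, V.valuation (x' i) < 1 := by
  have hne1 : ∀ i, V.valuation (x i) ≠ 1 := by
    intro i h
    have h1 := hx.indep (Pi.single i 1) (by
      rw [mon, Finset.prod_eq_single i]
      · rw [Pi.single_eq_same, zpow_one, h]
      · intro j _ hj
        rw [Pi.single_eq_of_ne hj, zpow_zero]
      · intro h; exact absurd (Finset.mem_univ i) h)
    have h2 := congrFun h1 i
    rw [Pi.single_eq_same, Pi.zero_apply] at h2
    exact one_ne_zero h2
  let e : Fin r → ℤ := fun i => if V.valuation (x i) < 1 then 1 else -1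
  have hee : ∀ i, e i * e i = 1 := by
    intro i
    simp only [e]
    split_ifs <;> norm_num
  refine ⟨fun i => x i ^ e i, fun i => ?_, ⟨fun i => zpow_ne_zero _ (hx.ne i), ?_⟩, fun i => ?_⟩
  · by_cases h : V.valuation (x i) < 1
    · left; simp only [e, if_pos h, zpow_one]
    · right; simp only [e, if_neg h, zpow_neg, zpow_one]
  · intro δ hδ
    have h1 := hx.indep (fun i => e i * δ i) (by
      rw [← hδ]
      congr 1
      rw [mon, mon]
      exact Finset.prod_congr rfl fun i _ => zpow_mul _ _ _)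
    funext i
    have h2 := congrFun h1 i
    rw [Pi.zero_apply] at h2 ⊢
    have h3 : e i * (e i * δ i) = 0 := by rw [h2, mul_zero]
    rwa [← mul_assoc, hee, one_mul] at h3
  · by_cases h : V.valuation (x i) < 1
    · simp only [e, if_pos h, zpow_one]; exact h
    · simp only [e, if_neg h, zpow_neg, zpow_one, map_inv₀]
      have h2 : 1 < V.valuation (x i) := lt_of_le_of_ne (not_lt.1 h) (Ne.symm (hne1 i))
      exact inv_lt_one_of_one_lt₀ h2

/-- `IndV` in terms of norms -/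
theorem IndV.indep_ball {K : Type} [NormedField K] [IsUltrametricDist K] {r : ℕ} {x : Fin r → K}
    (hx : IndV (ball K) x) (hx1 : ∀ i, (ball K).valuation (x i) < 1) : Indep x :=
  ⟨hx.ne, fun i => (ball_val_lt_one _).1 (hx1 i), fun δ hδ =>
    hx.indep δ ((ball_val_eq_one _).2 hδ)⟩

end

section

variable {K : Type} [NontriviallyNormedField K] [IsUltrametricDist K]

/-- the inequality of Abhyankar for the unit ball -/
theorem le_dim_ball (A : Subring K) [IsNoetherianRing A] (hA : A ≤ (ball K).toSubring)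
    (hloc : locV (ball K) A = A) (hfrac : ∀ z : K, ∃ a ∈ A, ∃ b ∈ A, b ≠ 0 ∧ z * b = a)
    {r : ℕ} (x : Fin r → K) (hx : IndV (ball K) x) : (r : WithBot ℕ∞) ≤ ringKrullDim A := by
  classical
  obtain ⟨x', -, hx', hlt⟩ := hx.exists_inv
  have hind := hx'.indep_ball hlt
  let g : Finset K := Finset.univ.image x'
  have hg : ∀ t ∈ g, t ∈ ball K ∧ ∃ a ∈ A, ∃ b ∈ A, b ≠ 0 ∧ t * b = a := by
    intro t ht
    obtain ⟨i, -, rfl⟩ := Finset.mem_image.1 ht
    exact ⟨((ball_val_lt_one _).1 (hlt i)).le, hfrac _⟩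
  have hB : Subring.closure ((A : Set K) ∪ (g : Set K)) ≤ (ball K).toSubring :=
    closure_le_ball A hA _ fun t ht => (hg t ht).1
  refine le_trans ?_ (krullDim_adjoin (ball K) A hA hloc g hg)
  have i1 : IsLocalRing (locV (ball K) (Subring.closure ((A : Set K) ∪ (g : Set K)))) :=
    isLocalRing_locV _ hB
  have i2 : IsNoetherianRing (Subring.closure ((A : Set K) ∪ (g : Set K))) :=
    isNoetherianRing_closure g
  have i3 : IsNoetherianRing (locV (ball K) (Subring.closure ((A : Set K) ∪ (g : Set K)))) :=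
    isNoetherianRing_locV _
  exact krullDim_ge _ (locV (ball K) (Subring.closure ((A : Set K) ∪ (g : Set K)))).subtype
    (dom_locV _ hB)
    (fun i => ⟨x' i, le_locV _ _ (Subring.subset_closure (Or.inr
      (Finset.mem_image_of_mem _ (Finset.mem_univ i))))⟩) hind

end

section

variable (Rb : Type) [CommRing Rb] [IsNoetherianRing Rb]
  (hRb : ∀ (B : Type) [CommRing B] [IsDomain B] [IsLocalRing B] [IsNoetherianRing B]
    (f : Rb →+* B), EFT f → GFR B)

/-- a local ring with dimension zero and the whole field as field of fractions -/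
theorem eq_top_of_dim_zero {K : Type} [Field K] (V : ValuationSubring K) (A : Subring K)
    (hA : A ≤ V.toSubring) (hfrac : ∀ z : K, ∃ a ∈ A, ∃ b ∈ A, b ≠ 0 ∧ z * b = a)
    (hdim : ringKrullDim A ≤ 0) : V = ⊤ := by
  have h1 : Ring.KrullDimLE 0 A := (Ring.krullDimLE_iff (n := 0) (R := A)).2 hdim
  have hfield : IsField A := Ring.KrullDimLE.isField_of_isDomain
  rw [eq_top_iff]
  intro z _
  obtain ⟨a, ha, b, hb, hb0, hz⟩ := hfrac z
  obtain ⟨⟨b', hb'⟩, hbb⟩ := hfield.mul_inv_cancel (a := (⟨b, hb⟩ : A)) (by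
    intro h; exact hb0 (congrArg Subtype.val h))
  have h2 : b * b' = 1 := congrArg Subtype.val hbb
  have h3 : z = a * b' := by rw [← hz, mul_assoc, h2, mul_one]
  rw [h3]
  exact hA (A.mul_mem ha hb')

include hRb in
theorem LUF_ball_aux2 {K : Type} [NontriviallyNormedField K] [IsUltrametricDist K] (A : Subring K)
    (hA : A ≤ (ball K).toSubring) (hloc : locV (ball K) A = A)
    (f : Rb →+* A) (hf : EFT f) (hfrac : ∀ z : K, ∃ a ∈ A, ∃ b ∈ A, b ≠ 0 ∧ z * b = a)
    {r : ℕ} (hr : 0 < r) (u : Fin r → K) (hu : Indep u) (huA : ∀ i, u i ∈ A)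
    (hdim : ringKrullDim A ≤ r)
    (hstab : ∀ z : K, ‖z‖ < 1 → ∀ ε : ℝ, 0 < ε → ∃ (n : ℕ) (ρ : Fin n → K)
      (δ : Fin n → (Fin r → ℤ)), (∀ l, ρ l ∈ A) ∧ (∀ l, ‖mon u (δ l)‖ < 1) ∧
        ‖z - ∑ l, ρ l * mon u (δ l)‖ < ε) :
    LUF (ball K) A := by
  have j1 : IsNoetherianRing A := hf.isNoetherianRing
  have j2 : IsLocalRing A := by
    have h1 := isLocalRing_locV (ball K) hA
    rwa [hloc] at h1
  have hG : GFR A := hRb _ _ hf
  obtain ⟨g3, hg3, hreg⟩ := abh_final A hA hloc hG hr hdim u hu huA hstab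
  exact ⟨g3, fun t ht => ⟨(hg3 t ht).le, hfrac t⟩, hreg⟩

include hRb in
theorem LUF_ball_aux1 {K : Type} [NontriviallyNormedField K] [IsUltrametricDist K] (A : Subring K)
    (hA : A ≤ (ball K).toSubring) (hloc : locV (ball K) A = A)
    (f : Rb →+* A) (hf : EFT f) (hfrac : ∀ z : K, ∃ a ∈ A, ∃ b ∈ A, b ≠ 0 ∧ z * b = a)
    {r : ℕ} (hr : 0 < r) (x : Fin r → K) (hx : Indep x) (hxA : ∀ i, x i ∈ A)
    (hdim : ringKrullDim A ≤ r) : LUF (ball K) A := by
  have i1 : IsNoetherianRing A := hf.isNoetherianRing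
  have i2 : IsLocalRing A := by
    have h1 := isLocalRing_locV (ball K) hA
    rwa [hloc] at h1
  have hdom1 := dom_subtype A hA hloc
  obtain ⟨r', u, g, hrr', hu, hug, hg1, hstab⟩ := stability' A hdom1 (fun z => by
    obtain ⟨a, ha, b, hb, hb0, hz⟩ := hfrac z
    exact ⟨a, ha, b, hb, hb0, by rw [← hz, mul_div_cancel_right₀ _ hb0]⟩) hr hdim x hx hxA
  have hg : ∀ t ∈ g, t ∈ ball K ∧ ∃ a ∈ A, ∃ b ∈ A, b ≠ 0 ∧ t * b = a :=
    fun t ht => ⟨hg1 t ht, hfrac t⟩
  refine LUF_trans (ball K) A g hg ?_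
  have hB2 : Subring.closure ((A : Set K) ∪ (g : Set K)) ≤ (ball K).toSubring :=
    closure_le_ball A hA _ fun t ht => (hg t ht).1
  have hdim2 := (krullDim_adjoin (ball K) A hA hloc g hg).trans hdim
  have hcl : Subring.closure ((A : Set K) ∪ (g : Set K)) ≤
      locV (ball K) (Subring.closure ((A : Set K) ∪ (g : Set K))) := le_locV _ _
  have humem : ∀ i, u i ∈ locV (ball K) (Subring.closure ((A : Set K) ∪ (g : Set K))) := fun i =>
    hcl (Subring.subset_closure (Or.inr (hug i)))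
  have hAA2 : A ≤ locV (ball K) (Subring.closure ((A : Set K) ∪ (g : Set K))) :=
    fun a ha => le_locV _ _ (Subring.subset_closure (Or.inl ha))
  have hf2 : EFT ((Subring.inclusion hAA2).comp f) :=
    EFT_locV (ball K) A _ hf g (Subring.inclusion hAA2) (fun a => rfl)
  have hA2 : locV (ball K) (Subring.closure ((A : Set K) ∪ (g : Set K))) ≤ (ball K).toSubring :=
    locV_le _ hB2
  have hloc2 : locV (ball K) (locV (ball K) (Subring.closure ((A : Set K) ∪ (g : Set K)))) =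
      locV (ball K) (Subring.closure ((A : Set K) ∪ (g : Set K))) := locV_locV _ _
  have hfrac2 : ∀ z : K, ∃ a ∈ locV (ball K) (Subring.closure ((A : Set K) ∪ (g : Set K))),
      ∃ b ∈ locV (ball K) (Subring.closure ((A : Set K) ∪ (g : Set K))), b ≠ 0 ∧ z * b = a := by
    intro z
    obtain ⟨a, ha, b, hb, hb0, hz⟩ := hfrac z
    exact ⟨a, hAA2 ha, b, hAA2 hb, hb0, hz⟩
  have hstab2 : ∀ z : K, ‖z‖ < 1 → ∀ ε : ℝ, 0 < ε → ∃ (n : ℕ) (ρ : Fin n → K)
      (δ : Fin n → (Fin r' → ℤ)),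
        (∀ l, ρ l ∈ locV (ball K) (Subring.closure ((A : Set K) ∪ (g : Set K)))) ∧
        (∀ l, ‖mon u (δ l)‖ < 1) ∧ ‖z - ∑ l, ρ l * mon u (δ l)‖ < ε := by
    intro z hz ε hε
    obtain ⟨n, ρ, δ, h1, h2, h3⟩ := hstab z hz ε hε
    exact ⟨n, ρ, δ, fun l => hcl (h1 l), h2, h3⟩
  have hdim3 : ringKrullDim (locV (ball K) (Subring.closure ((A : Set K) ∪ (g : Set K)))) ≤ r' :=
    hdim2.trans (Nat.cast_le.2 hrr')
  exact LUF_ball_aux2 Rb hRb _ hA2 hloc2 _ hf2 hfrac2 (hr.trans_le hrr') u hu humem hdim3 hstab2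

include hRb in
open Classical in
theorem LUF_ball {K : Type} [NontriviallyNormedField K] [IsUltrametricDist K] (A : Subring K)
    (hA : A ≤ (ball K).toSubring) (hloc : locV (ball K) A = A)
    (f : Rb →+* A) (hf : EFT f) (hfrac : ∀ z : K, ∃ a ∈ A, ∃ b ∈ A, b ≠ 0 ∧ z * b = a)
    {r : ℕ} (x : Fin r → K) (hx : IndV (ball K) x) (hdim : ringKrullDim A ≤ r) :
    LUF (ball K) A := by
  have hAn : IsNoetherianRing A := hf.isNoetherianRing
  rcases Nat.eq_zero_or_pos r with rfl | hr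
  · exact LUF_top' _ (eq_top_of_dim_zero _ A hA hfrac (by simpa using hdim)) A hA hloc
  obtain ⟨x', -, hx', hlt⟩ := hx.exists_inv
  have hind := hx'.indep_ball hlt
  have hg0 : ∀ t ∈ Finset.univ.image x', t ∈ ball K ∧ ∃ a ∈ A, ∃ b ∈ A, b ≠ 0 ∧ t * b = a := by
    intro t ht
    obtain ⟨i, -, rfl⟩ := Finset.mem_image.1 ht
    exact ⟨((ball_val_lt_one _).1 (hlt i)).le, hfrac _⟩
  refine LUF_trans (ball K) A (Finset.univ.image x') hg0 ?_
  have hB : Subring.closure ((A : Set K) ∪ (Finset.univ.image x' : Finset K)) ≤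
      (ball K).toSubring :=
    closure_le_ball A hA _ fun t ht => (hg0 t ht).1
  have hdim1 := (krullDim_adjoin (ball K) A hA hloc (Finset.univ.image x') hg0).trans hdim
  have hAA1 : A ≤ locV (ball K) (Subring.closure ((A : Set K) ∪ (Finset.univ.image x' : Finset K))) :=
    fun a ha => le_locV _ _ (Subring.subset_closure (Or.inl ha))
  refine LUF_ball_aux1 Rb hRb _ (locV_le _ hB) (locV_locV _ _) _
    (EFT_locV (ball K) A f hf (Finset.univ.image x') (Subring.inclusion hAA1) (fun a => rfl))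
    ?_ hr x' hind ?_ hdim1
  · intro z
    obtain ⟨a, ha, b, hb, hb0, hz⟩ := hfrac z
    exact ⟨a, hAA1 ha, b, hAA1 hb, hb0, hz⟩
  · intro i
    exact le_locV _ _ (Subring.subset_closure (Or.inr
      (Finset.mem_coe.2 (Finset.mem_image_of_mem _ (Finset.mem_univ i)))))

end

end Pool.Agent.Lib.MP_3029eb_ag.Abh
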