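import Pool.Agent.Lib.MP_3029eb_ag.AbhDefs

/-!
# Module S1: counting lattice points
-/

set_option autoImplicit false

open Finset Filter Topology

namespace Pool.Agent.Lib.MP_3029eb_ag.Abh

theorem S1_coord {r : ℕ} (g : Fin r → ℝ) (hg : ∀ i, 0 < g i) (N : ℝ) (β : Fin r → ℕ)
    (h : ∑ i, (β i : ℝ) * g i < N) (i : Fin r) : (β i : ℝ) * g i < N := by
  refine lt_of_le_of_lt ?_ h
  exact single_le_sum (f := fun i => (β i : ℝ) * g i)
    (fun j _ => mul_nonneg (Nat.cast_nonneg _) (hg j).le) (mem_univ i)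

theorem Hc_finite {r : ℕ} (g : Fin r → ℝ) (hg : ∀ i, 0 < g i) (N : ℝ) :
    Finite {β : Fin r → ℕ // ∑ i, (β i : ℝ) * g i < N} := by
  have h1 : ({β : Fin r → ℕ | ∑ i, (β i : ℝ) * g i < N}).Finite := by
    refine (Set.finite_Icc (0 : Fin r → ℕ) (fun i => ⌈N / g i⌉₊)).subset ?_
    intro β hβ
    refine ⟨fun i => Nat.zero_le _, fun i => ?_⟩
    have h2 := S1_coord g hg N β hβ i
    have h3 : (β i : ℝ) < N / g i := by
      rw [lt_div_iff₀ (hg i)]; exact h2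
    have h4 : (β i : ℝ) ≤ (⌈N / g i⌉₊ : ℝ) := h3.le.trans (Nat.le_ceil _)
    exact_mod_cast h4
  exact h1.to_subtype

theorem Hc_mono {r : ℕ} (g : Fin r → ℝ) (hg : ∀ i, 0 < g i) {N M : ℝ} (h : N ≤ M) :
    Hc g N ≤ Hc g M := by
  haveI := Hc_finite g hg M
  unfold Hc
  refine Nat.card_le_card_of_injective (fun β => ⟨β.1, lt_of_lt_of_le β.2 h⟩) ?_
  intro a b hab
  exact Subtype.ext (congrArg (fun z => z.1) hab)

/-- upper box bound -/
theorem S1_upper {r : ℕ} (g : Fin r → ℝ) (hg : ∀ i, 0 < g i) (δ : ℝ) (hδ : 0 < δ)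
    (hδg : ∀ i, δ ≤ g i) (M : ℝ) (hM : 0 ≤ M) : (Hc g M : ℝ) ≤ (M / δ + 1) ^ r := by
  have h1 : Hc g M ≤ (⌊M / δ⌋₊ + 1) ^ r := by
    unfold Hc
    have h2 : Nat.card (Fin r → Fin (⌊M / δ⌋₊ + 1)) = (⌊M / δ⌋₊ + 1) ^ r := by
      rw [Nat.card_eq_fintype_card, Fintype.card_fun, Fintype.card_fin, Fintype.card_fin]
    rw [← h2]
    have key : ∀ (β : {β : Fin r → ℕ // ∑ i, (β i : ℝ) * g i < M}) (i : Fin r),
        β.1 i < ⌊M / δ⌋₊ + 1 := by
      intro β i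
      have h3 := S1_coord g hg M β.1 β.2 i
      have h4 : (β.1 i : ℝ) * δ ≤ (β.1 i : ℝ) * g i :=
        mul_le_mul_of_nonneg_left (hδg i) (Nat.cast_nonneg _)
      have h5 : (β.1 i : ℝ) ≤ M / δ := by
        rw [le_div_iff₀ hδ]; linarith
      have h6 : β.1 i ≤ ⌊M / δ⌋₊ := Nat.le_floor h5
      omega
    refine Nat.card_le_card_of_injective (fun β i => ⟨β.1 i, key β i⟩) ?_
    intro a b hab
    refine Subtype.ext (funext fun i => ?_)
    have := congrFun hab i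
    exact congrArg (fun z : Fin (⌊M / δ⌋₊ + 1) => (z : ℕ)) this
  calc (Hc g M : ℝ) ≤ (((⌊M / δ⌋₊ + 1) ^ r : ℕ) : ℝ) := by exact_mod_cast h1
    _ = ((⌊M / δ⌋₊ : ℝ) + 1) ^ r := by push_cast; ring
    _ ≤ (M / δ + 1) ^ r := by
      refine pow_le_pow_left₀ (by positivity) ?_ r
      have := Nat.floor_le (div_nonneg hM hδ.le)
      linarith

/-- lower box bound -/
theorem S1_lower {r : ℕ} (g : Fin r → ℝ) (hg : ∀ i, 0 < g i) (D : ℝ) (hD : 0 < D)
    (hgD : ∀ i, r * g i ≤ D) (M : ℝ) (hM : 0 < M) : (M / D) ^ r ≤ (Hc g M : ℝ) := by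
  haveI := Hc_finite g hg M
  have h1 : (⌈M / D⌉₊) ^ r ≤ Hc g M := by
    unfold Hc
    have h2 : Nat.card (Fin r → Fin ⌈M / D⌉₊) = ⌈M / D⌉₊ ^ r := by
      rw [Nat.card_eq_fintype_card, Fintype.card_fun, Fintype.card_fin, Fintype.card_fin]
    rw [← h2]
    have key : ∀ (β : Fin r → Fin ⌈M / D⌉₊), ∑ i, (((β i : ℕ) : ℕ) : ℝ) * g i < M := by
      intro β
      rcases Nat.eq_zero_or_pos r with hr | hr
      · subst hr
        simpa using hM
      · have hr0 : (0 : ℝ) < r := by exact_mod_cast hr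
        have h3 : ∀ i, ((β i : ℕ) : ℝ) * g i < M / r := by
          intro i
          have h4 : ((β i : ℕ) : ℝ) < M / D := Nat.lt_ceil.1 (β i).2
          have h5 : g i ≤ D / r := by
            rw [le_div_iff₀ hr0]
            have := hgD i
            linarith
          calc ((β i : ℕ) : ℝ) * g i ≤ ((β i : ℕ) : ℝ) * (D / r) :=
                mul_le_mul_of_nonneg_left h5 (Nat.cast_nonneg _)
            _ < M / D * (D / r) := mul_lt_mul_of_pos_right h4 (div_pos hD hr0)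
            _ = M / r := by field_simp
        haveI : Nonempty (Fin r) := ⟨⟨0, hr⟩⟩
        calc ∑ i, (((β i : ℕ) : ℕ) : ℝ) * g i < ∑ _i : Fin r, M / r :=
              sum_lt_sum_of_nonempty univ_nonempty fun i _ => h3 i
          _ = M := by
            rw [sum_const, card_univ, Fintype.card_fin, nsmul_eq_mul]
            field_simp
    refine Nat.card_le_card_of_injective (fun β => ⟨fun i => (β i : ℕ), key β⟩) ?_
    intro a b hab
    refine funext fun i => Fin.ext ?_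
    have := congrArg (fun z => z.1 i) hab
    exact this
  calc (M / D) ^ r ≤ (⌈M / D⌉₊ : ℝ) ^ r :=
        pow_le_pow_left₀ (div_pos hM hD).le (Nat.le_ceil _) r
    _ = ((⌈M / D⌉₊ ^ r : ℕ) : ℝ) := by push_cast; ring
    _ ≤ _ := by exact_mod_cast h1

theorem S1_exists_D {r : ℕ} (g : Fin r → ℝ) : ∃ D : ℝ, 0 < D ∧ ∀ i, r * g i ≤ D := by
  refine ⟨∑ i, |(r : ℝ) * g i| + 1, ?_, fun i => ?_⟩
  · have : 0 ≤ ∑ i, |(r : ℝ) * g i| := sum_nonneg fun i _ => abs_nonneg _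
    linarith
  · have := single_le_sum (f := fun i => |(r : ℝ) * g i|) (fun j _ => abs_nonneg _) (mem_univ i)
    have h2 := le_abs_self ((r : ℝ) * g i)
    linarith

theorem S1_exists_δ {r : ℕ} (g : Fin r → ℝ) (hg : ∀ i, 0 < g i) :
    ∃ δ : ℝ, 0 < δ ∧ ∀ i, δ ≤ g i := by
  rcases Nat.eq_zero_or_pos r with hr | hr
  · subst hr
    exact ⟨1, one_pos, fun i => Fin.elim0 i⟩
  · haveI : Nonempty (Fin r) := ⟨⟨0, hr⟩⟩
    obtain ⟨m, -, hm⟩ := exists_min_image univ g univ_nonempty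
    exact ⟨g m, hg m, fun i => hm i (mem_univ i)⟩

theorem S1_one_le {r : ℕ} (g : Fin r → ℝ) (hg : ∀ i, 0 < g i) {M : ℝ} (hM : 0 < M) :
    1 ≤ Hc g M := by
  haveI := Hc_finite g hg M
  unfold Hc
  haveI : Nonempty {β : Fin r → ℕ // ∑ i, (β i : ℝ) * g i < M} := ⟨⟨fun _ => 0, by simpa using hM⟩⟩
  exact Nat.card_pos

theorem Hc_growth {r : ℕ} (g : Fin r → ℝ) (hg : ∀ i, 0 < g i) (n m : ℕ) (c : ℝ)
    (h : ∀ N : ℝ, 0 ≤ N → n * Hc g (N - c) ≤ m * Hc g (N + c)) : n ≤ m := by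
  by_contra hne
  push Not at hne
  -- reduce to `c ≥ 0`
  have h0 : ∀ N : ℝ, 0 ≤ N → n * Hc g (N - |c|) ≤ m * Hc g (N + |c|) := by
    intro N hN
    calc n * Hc g (N - |c|) ≤ n * Hc g (N - c) :=
          Nat.mul_le_mul_left _ (Hc_mono g hg (by linarith [le_abs_self c]))
      _ ≤ m * Hc g (N + c) := h N hN
      _ ≤ m * Hc g (N + |c|) :=
          Nat.mul_le_mul_left _ (Hc_mono g hg (by linarith [le_abs_self c]))
  set d : ℝ := |c| with hd
  have hd0 : 0 ≤ d := abs_nonneg c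
  have h1 : ∀ M : ℝ, 0 ≤ M → (m + 1) * Hc g M ≤ m * Hc g (M + 2 * d) := by
    intro M hM
    have h2 := h0 (M + d) (by linarith)
    have e1 : M + d - d = M := by ring
    have e2 : M + d + d = M + 2 * d := by ring
    rw [e1, e2] at h2
    exact (Nat.mul_le_mul_right _ hne).trans h2
  have hm : 0 < m := by
    rcases Nat.eq_zero_or_pos m with hm | hm
    · exfalso
      have h2 := h1 1 zero_le_one
      have h3 := S1_one_le g hg (M := 1) one_pos
      rw [hm] at h2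
      omega
    · exact hm
  have hmR : (0 : ℝ) < m := by exact_mod_cast hm
  set q : ℝ := ((m : ℝ) + 1) / m with hq
  have hq1 : 1 < q := by rw [hq, lt_div_iff₀ hmR]; linarith
  have h3 : ∀ j : ℕ, q ^ j ≤ (Hc g (1 + 2 * d * j) : ℝ) := by
    intro j
    induction j with
    | zero =>
      have := S1_one_le g hg (M := 1 + 2 * d * ((0 : ℕ) : ℝ)) (by simp)
      rw [pow_zero]
      exact_mod_cast this
    | succ j ih =>
      have hM : 0 ≤ 1 + 2 * d * (j : ℝ) := by positivity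
      have h4 := h1 _ hM
      have h5 : ((m : ℝ) + 1) * Hc g (1 + 2 * d * j) ≤ m * Hc g (1 + 2 * d * j + 2 * d) := by
        exact_mod_cast h4
      have e : 1 + 2 * d * ((j + 1 : ℕ) : ℝ) = 1 + 2 * d * j + 2 * d := by push_cast; ring
      rw [e, pow_succ]
      have h6 : q * Hc g (1 + 2 * d * j) ≤ Hc g (1 + 2 * d * j + 2 * d) := by
        rw [hq, div_mul_eq_mul_div, div_le_iff₀ hmR]
        linarith
      calc q ^ j * q ≤ (Hc g (1 + 2 * d * j) : ℝ) * q :=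
            mul_le_mul_of_nonneg_right ih (by linarith)
        _ = q * Hc g (1 + 2 * d * j) := mul_comm _ _
        _ ≤ _ := h6
  obtain ⟨δ, hδ, hδg⟩ := S1_exists_δ g hg
  -- polynomial upper bound
  set K : ℝ := (1 + 2 * d) / δ + 1 with hK
  have hK0 : 0 < K := by positivity
  have h4 : ∀ j : ℕ, 1 ≤ j → q ^ j ≤ (K * j) ^ r := by
    intro j hj
    have hj' : (1 : ℝ) ≤ j := by exact_mod_cast hj
    refine (h3 j).trans ((S1_upper g hg δ hδ hδg _ (by positivity)).trans ?_)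
    refine pow_le_pow_left₀ (by positivity) ?_ r
    rw [hK, add_mul, div_mul_eq_mul_div]
    have h5 : (1 + 2 * d * j) / δ ≤ (1 + 2 * d) * j / δ := by
      refine div_le_div_of_nonneg_right ?_ hδ.le
      nlinarith
    linarith
  have h5 : Tendsto (fun j : ℕ => K ^ r * ((j : ℝ) ^ r / q ^ j)) atTop (𝓝 (K ^ r * 0)) :=
    (tendsto_pow_const_div_const_pow_of_one_lt r hq1).const_mul _
  rw [mul_zero] at h5
  obtain ⟨j, hj1, hj2⟩ := (((tendsto_order.1 h5).2 1 one_pos).and (eventually_ge_atTop 1)).exists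
  have h6 := h4 j hj2
  have h7 : 0 < q ^ j := pow_pos (by linarith) j
  have h8 : K ^ r * ((j : ℝ) ^ r / q ^ j) = (K * j) ^ r / q ^ j := by
    rw [mul_pow]; ring
  rw [h8, div_lt_one h7] at hj1
  linarith

theorem Hc_bound {r : ℕ} (g : Fin r → ℝ) (hg : ∀ i, 0 < g i) (K0 : ℝ) :
    ∃ n0 : ℕ, ∀ (n : ℕ) (c : ℝ),
      (∀ N : ℝ, 0 ≤ N → (n : ℝ) * Hc g (N - c) ≤ K0 * (N + 1) ^ r) → n ≤ n0 := by
  obtain ⟨D, hD, hgD⟩ := S1_exists_D g
  refine ⟨⌈K0 * D ^ r⌉₊, fun n c h => ?_⟩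
  have h1 : ∀ᶠ N : ℝ in atTop, (n : ℝ) ≤ K0 * D ^ r * ((N + 1) / (N - c)) ^ r := by
    filter_upwards [eventually_gt_atTop c, eventually_ge_atTop (0 : ℝ)] with N hN1 hN2
    have h2 := h N hN2
    have h3 := S1_lower g hg D hD hgD (N - c) (by linarith)
    have h4 : (n : ℝ) * ((N - c) / D) ^ r ≤ K0 * (N + 1) ^ r :=
      (mul_le_mul_of_nonneg_left h3 (Nat.cast_nonneg _)).trans h2
    have h5 : 0 < (N - c) ^ r := pow_pos (by linarith) r
    have h6 : 0 < D ^ r := pow_pos hD r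
    rw [div_pow] at h4 ⊢
    have h7 : (n : ℝ) * (N - c) ^ r ≤ K0 * D ^ r * (N + 1) ^ r := by
      have h8 : (n : ℝ) * ((N - c) ^ r / D ^ r) = (n : ℝ) * (N - c) ^ r / D ^ r := by ring
      rw [h8, div_le_iff₀ h6] at h4
      linarith
    rw [← mul_div_assoc, le_div_iff₀ h5]
    exact h7
  have h2 : Tendsto (fun N : ℝ => K0 * D ^ r * ((N + 1) / (N - c)) ^ r) atTop
      (𝓝 (K0 * D ^ r * 1 ^ r)) := by
    refine Tendsto.const_mul _ (Tendsto.pow ?_ r)
    have h3 : Tendsto (fun N : ℝ => 1 + (1 + c) / (N - c)) atTop (𝓝 (1 + 0)) := by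
      refine Tendsto.const_add _ ?_
      exact Tendsto.div_atTop tendsto_const_nhds (tendsto_atTop_add_const_right _ (-c) tendsto_id)
    rw [add_zero] at h3
    refine h3.congr' ?_
    filter_upwards [eventually_gt_atTop c] with N hN
    have : N - c ≠ 0 := by intro h0; linarith
    field_simp
    ring
  rw [one_pow, mul_one] at h2
  have h3 : (n : ℝ) ≤ K0 * D ^ r := ge_of_tendsto h2 h1
  have h4 : (n : ℝ) ≤ (⌈K0 * D ^ r⌉₊ : ℝ) := h3.trans (Nat.le_ceil _)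
  exact_mod_cast h4

theorem Hc_dim {r : ℕ} (g : Fin r → ℝ) (hg : ∀ i, 0 < g i) (K0 : ℝ) (d : ℕ)
    (h : ∀ N : ℝ, 0 ≤ N → (Hc g N : ℝ) ≤ K0 * (N + 1) ^ d) : r ≤ d := by
  by_contra hne
  push Not at hne
  obtain ⟨D, hD, hgD⟩ := S1_exists_D g
  have hD' : 0 < D ^ r := pow_pos hD r
  have h1 : ∀ N : ℝ, 1 ≤ N → N ≤ |K0| * 2 ^ d * D ^ r := by
    intro N hN
    have hN0 : 0 < N := by linarith
    have h2 := h N hN0.le
    have h3 := S1_lower g hg D hD hgD N hN0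
    have h4 : K0 * (N + 1) ^ d ≤ |K0| * (2 * N) ^ d := by
      refine mul_le_mul (le_abs_self _) (pow_le_pow_left₀ (by linarith) (by linarith) d)
        (by positivity) (abs_nonneg _)
    have h5 : N ^ r ≤ |K0| * 2 ^ d * D ^ r * N ^ d := by
      have h6 : (N / D) ^ r ≤ |K0| * (2 * N) ^ d := h3.trans (h2.trans h4)
      rw [div_pow, div_le_iff₀ hD', mul_pow] at h6
      linarith
    obtain ⟨k, rfl⟩ : ∃ k, r = d + 1 + k := ⟨r - (d + 1), by omega⟩
    have h6 : N ^ d * N ≤ N ^ (d + 1 + k) := by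
      have h7 : N ^ (d + 1 + k) = N ^ d * N * N ^ k := by ring
      rw [h7]
      have h8 : 1 ≤ N ^ k := one_le_pow₀ hN
      have h9 : 0 ≤ N ^ d * N := by positivity
      calc N ^ d * N = N ^ d * N * 1 := by ring
        _ ≤ _ := mul_le_mul_of_nonneg_left h8 h9
    have h7 : N ^ d * N ≤ N ^ d * (|K0| * 2 ^ d * D ^ (d + 1 + k)) := by
      refine h6.trans (h5.trans (le_of_eq ?_))
      ring
    exact le_of_mul_le_mul_left h7 (pow_pos hN0 d)
  have h2 := h1 (|K0| * 2 ^ d * D ^ r + 1) (by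
    have : 0 ≤ |K0| * 2 ^ d * D ^ r := by positivity
    linarith)
  linarith

end Pool.Agent.Lib.MP_3029eb_ag.Abh
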