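import Pool.Agent.Lib.MP_3029eb_ag.AbhS2

/-!
Module AB-S8: the closure of the field generated by the coefficient data.
-/

open IsLocalRing

namespace Pool.Agent.Lib.MP_3029eb_ag.Abh

theorem S8_sub_le {L : Type} [NormedField L] [IsUltrametricDist L] (a b : L) :
    ‖a - b‖ ≤ max ‖a‖ ‖b‖ := by
  rw [sub_eq_add_neg, ← norm_neg b]
  exact IsUltrametricDist.norm_add_le_max a (-b)

/-- terms with pairwise distinct norms are bounded by the norm of the sum -/
theorem S8_le_sum {L ι : Type} [NormedField L] [IsUltrametricDist L] (s : Finset ι) (f : ι → L)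
    (h : ∀ i ∈ s, ∀ j ∈ s, f i ≠ 0 → ‖f i‖ = ‖f j‖ → i = j) :
    ∀ i ∈ s, ‖f i‖ ≤ ‖∑ j ∈ s, f j‖ := by
  classical
  intro i hi
  obtain ⟨i0, hi0, hmax⟩ := Finset.exists_max_image s (fun j => ‖f j‖) ⟨i, hi⟩
  by_cases h0 : f i0 = 0
  · have h1 := hmax i hi
    rw [h0, norm_zero] at h1
    exact h1.trans (norm_nonneg _)
  · have hpos : 0 < ‖f i0‖ := norm_pos_iff.mpr h0
    have hlt : ‖∑ j ∈ s.erase i0, f j‖ < ‖f i0‖ := by
      rcases (s.erase i0).eq_empty_or_nonempty with he | hne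
      · rw [he, Finset.sum_empty, norm_zero]; exact hpos
      · obtain ⟨j, hj, hle⟩ := IsUltrametricDist.exists_norm_finsetSum_le_of_nonempty hne f
        refine lt_of_le_of_lt hle ?_
        have hjs := Finset.mem_of_mem_erase hj
        have hjne := Finset.ne_of_mem_erase hj
        exact lt_of_le_of_ne (hmax j hjs) fun heq => hjne (h i0 hi0 j hjs h0 heq.symm).symm
    have hsum : ‖∑ j ∈ s, f j‖ = ‖f i0‖ := by
      rw [← Finset.add_sum_erase s f hi0,
        IsUltrametricDist.norm_add_eq_max_of_norm_ne_norm hlt.ne', max_eq_left hlt.le]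
    rw [hsum]
    exact hmax i hi

/-- a sum with pairwise distinct norms has the norm of one of its terms -/
theorem S8_sum_eq {L ι : Type} [NormedField L] [IsUltrametricDist L] (s : Finset ι) (f : ι → L)
    (h : ∀ i ∈ s, ∀ j ∈ s, f i ≠ 0 → ‖f i‖ = ‖f j‖ → i = j) (hs : s.Nonempty) :
    ∃ i ∈ s, ‖∑ j ∈ s, f j‖ = ‖f i‖ := by
  obtain ⟨j, hj, hle⟩ := IsUltrametricDist.exists_norm_finsetSum_le_of_nonempty hs f
  exact ⟨j, hj, le_antisymm hle (S8_le_sum s f h j hj)⟩

theorem S8_unit {C L : Type} [CommRing C] [IsLocalRing C] [NormedField L] [Algebra C L]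
    (hd : Dom (algebraMap C L)) (c : Cˣ) : ‖algebraMap C L c‖ = 1 := by
  refine le_antisymm (hd c).1 ?_
  by_contra h
  exact (mem_maximalIdeal _).mp ((hd c).2.mpr (not_le.mp h)) c.isUnit

theorem S8_isUnit {C L : Type} [CommRing C] [IsLocalRing C] [NormedField L] [Algebra C L]
    (hd : Dom (algebraMap C L)) (c : C) (hc : ‖algebraMap C L c‖ = 1) : IsUnit c := by
  by_contra h
  exact absurd ((hd c).2.mp ((mem_maximalIdeal _).mpr h)) (by rw [hc]; exact lt_irrefl _)

theorem S8_monN_add {r : ℕ} {M : Type} [CommMonoid M] (u : Fin r → M) (a b : Fin r → ℕ) :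
    monN u (a + b) = monN u a * monN u b := by
  simp only [monN, ← Finset.prod_mul_distrib]
  exact Finset.prod_congr rfl fun i _ => by rw [Pi.add_apply, pow_add]

theorem S8_monN_smul {r : ℕ} {M : Type} [CommMonoid M] (u : Fin r → M) (k : ℕ) (a : Fin r → ℕ) :
    monN u (fun i => k * a i) = monN u a ^ k := by
  simp only [monN, ← Finset.prod_pow]
  exact Finset.prod_congr rfl fun i _ => by rw [mul_comm, pow_mul]

theorem S8_monN_mem {C L : Type} [CommRing C] [NormedField L] [Algebra C L] {r : ℕ}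
    (u : Fin r → L) (a : Fin r → ℕ) : monN u a ∈ Algebra.adjoin C (Set.range u) :=
  Subalgebra.prod_mem _ fun i _ => Subalgebra.pow_mem _ (Algebra.subset_adjoin (Set.mem_range_self i)) _

section

variable (C : Type) {L : Type} [CommRing C] [IsLocalRing C] [NontriviallyNormedField L]
  [IsUltrametricDist L] [CompleteSpace L] [Algebra C L] [Bdd C L] {r : ℕ} (u : Fin r → L)
  (hC : Coef C u)

include hC

theorem S8_distinct (B : Finset (Fin r → ℤ)) (c : (Fin r → ℤ) → Cˣ) :
    ∀ i ∈ B, ∀ j ∈ B, algebraMap C L (c i) * mon u i ≠ 0 →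
      ‖algebraMap C L (c i) * mon u i‖ = ‖algebraMap C L (c j) * mon u j‖ → i = j := by
  intro i _ j _ _ h
  rw [norm_mul, norm_mul, S8_unit hC.dom, S8_unit hC.dom, one_mul, one_mul] at h
  exact hC.indep.inj h

theorem S8_distinctN (B : Finset (Fin r → ℕ)) (c : (Fin r → ℕ) → Cˣ) :
    ∀ i ∈ B, ∀ j ∈ B, algebraMap C L (c i) * monN u i ≠ 0 →
      ‖algebraMap C L (c i) * monN u i‖ = ‖algebraMap C L (c j) * monN u j‖ → i = j := by
  intro i _ j _ _ h
  rw [norm_mul, norm_mul, S8_unit hC.dom, S8_unit hC.dom, one_mul, one_mul] at h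
  exact hC.indep.injN h

/-- norms of nonzero elements of `C[u]` -/
theorem adjoin_norm (x : L) (hx : x ∈ Algebra.adjoin C (Set.range u)) (hx0 : x ≠ 0) :
    ∃ β : Fin r → ℕ, ‖x‖ = ‖monN u β‖ := by
  obtain ⟨B, c, hBc⟩ := hC.expand x hx
  have hB : B.Nonempty := by
    rcases B.eq_empty_or_nonempty with h | h
    · rw [h, Finset.sum_empty] at hBc
      exact absurd hBc hx0
    · exact h
  obtain ⟨β, _, h⟩ := S8_sum_eq B _ (S8_distinctN C u hC B c) hB
  refine ⟨β, ?_⟩
  rw [hBc, h, norm_mul, S8_unit hC.dom, one_mul]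

/-- a nonzero element of `C[u]` is a unit times a monomial times one minus something small -/
theorem S8_lead (x : L) (hx : x ∈ Algebra.adjoin C (Set.range u)) (hx0 : x ≠ 0) :
    ∃ (c : Cˣ) (β : Fin r → ℕ), ‖x - algebraMap C L c * monN u β‖ < ‖monN u β‖ := by
  classical
  obtain ⟨B, c, hBc⟩ := hC.expand x hx
  have hB : B.Nonempty := by
    rcases B.eq_empty_or_nonempty with h | h
    · rw [h, Finset.sum_empty] at hBc
      exact absurd hBc hx0
    · exact h
  have hmne : ∀ β : Fin r → ℕ, monN u β ≠ 0 := fun β =>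
    Finset.prod_ne_zero_iff.mpr fun i _ => pow_ne_zero _ (hC.indep.ne i)
  obtain ⟨β0, hβ0, hmax⟩ := Finset.exists_max_image B (fun β => ‖monN u β‖) hB
  refine ⟨c β0, β0, ?_⟩
  have hrest : x - algebraMap C L (c β0) * monN u β0 =
      ∑ β ∈ B.erase β0, algebraMap C L (c β) * monN u β := by
    rw [hBc, ← Finset.add_sum_erase B _ hβ0]
    ring
  rw [hrest]
  rcases (B.erase β0).eq_empty_or_nonempty with he | hne
  · rw [he, Finset.sum_empty, norm_zero]
    exact norm_pos_iff.mpr (hmne β0)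
  · obtain ⟨j, hj, hle⟩ := IsUltrametricDist.exists_norm_finsetSum_le_of_nonempty hne
      (fun β => algebraMap C L (c β) * monN u β)
    refine lt_of_le_of_lt hle ?_
    have hjs := Finset.mem_of_mem_erase hj
    have hjne := Finset.ne_of_mem_erase hj
    rw [norm_mul, S8_unit hC.dom, one_mul]
    exact lt_of_le_of_ne (hmax j hjs) fun heq => hjne (hC.indep.injN heq)

/-- approximation of a fraction -/
theorem S8_approx0 (x : L)
    (hx : x ∈ Subfield.closure (((algebraMap C L).range : Set L) ∪ Set.range u)) (ε : ℝ)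
    (hε : 0 < ε) : ∃ (z : L) (β : Fin r → ℕ), ‖x - z‖ < ε ∧
      monN u β * z ∈ Algebra.adjoin C (Set.range u) := by
  have hmne : ∀ β : Fin r → ℕ, monN u β ≠ 0 := fun β =>
    Finset.prod_ne_zero_iff.mpr fun i _ => pow_ne_zero _ (hC.indep.ne i)
  have hring : ∀ y : L, y ∈ Subring.closure (((algebraMap C L).range : Set L) ∪ Set.range u) →
      y ∈ Algebra.adjoin C (Set.range u) := by
    intro y hy
    refine Subring.closure_induction (p := fun y _ => y ∈ Algebra.adjoin C (Set.range u))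
      ?_ ?_ ?_ ?_ ?_ ?_ hy
    · rintro y (hy | hy)
      · obtain ⟨c, rfl⟩ := hy
        exact Subalgebra.algebraMap_mem _ c
      · exact Algebra.subset_adjoin hy
    · exact Subalgebra.zero_mem _
    · exact Subalgebra.one_mem _
    · intro a b _ _ ha hb; exact Subalgebra.add_mem _ ha hb
    · intro a _ ha; exact Subalgebra.neg_mem _ ha
    · intro a b _ _ ha hb; exact Subalgebra.mul_mem _ ha hb
  obtain ⟨l1, h1, l2, h2, rfl⟩ := Subfield.mem_closure_iff.mp hx
  have h1' := hring l1 h1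
  have h2' := hring l2 h2
  by_cases hl2 : l2 = 0
  · refine ⟨0, 0, ?_, ?_⟩
    · rw [hl2, div_zero, sub_zero, norm_zero]; exact hε
    · rw [mul_zero]; exact Subalgebra.zero_mem _
  obtain ⟨c, β, hlead⟩ := S8_lead C u hC l2 h2' hl2
  have hcne : algebraMap C L (c : C) ≠ 0 := by
    rw [← norm_pos_iff, S8_unit hC.dom]; exact zero_lt_one
  set w : L := algebraMap C L c * monN u β with hw
  have hwne : w ≠ 0 := mul_ne_zero hcne (hmne β)
  have hwn : ‖w‖ = ‖monN u β‖ := by rw [hw, norm_mul, S8_unit hC.dom, one_mul]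
  -- the small element
  set m : L := 1 - l2 / w with hm
  have hmlt : ‖m‖ < 1 := by
    have : m = -((l2 - w) / w) := by
      rw [hm, sub_div, div_self hwne]; ring
    rw [this, norm_neg, norm_div, hwn, div_lt_one (norm_pos_iff.mpr (hmne β))]
    exact hlead
  have hl2w : l2 = w * (1 - m) := by
    rw [hm]; field_simp; ring
  have h1m : (1 : L) - m ≠ 0 := by
    intro h
    rw [h, mul_zero] at hl2w
    exact hl2 hl2w
  -- the truncation
  have hlim : Filter.Tendsto (fun k : ℕ => ‖l1 / l2‖ * ‖m‖ ^ k) Filter.atTop (nhds 0) := by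
    have := (tendsto_pow_atTop_nhds_zero_of_lt_one (norm_nonneg m) hmlt).const_mul ‖l1 / l2‖
    rwa [mul_zero] at this
  obtain ⟨k, hk⟩ := (hlim.eventually (gt_mem_nhds hε)).exists
  refine ⟨l1 / w * ∑ j ∈ Finset.range k, m ^ j, fun i => (k + 1) * β i, ?_, ?_⟩
  · have hgeom : (∑ j ∈ Finset.range k, m ^ j) * (1 - m) = 1 - m ^ k := by
      have := geom_sum_mul_neg m k
      exact this
    have hgeom' : (∑ j ∈ Finset.range k, m ^ j) = (1 - m ^ k) / (1 - m) := by
      rw [eq_div_iff h1m, hgeom]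
    have : l1 / l2 - l1 / w * ∑ j ∈ Finset.range k, m ^ j = l1 / l2 * m ^ k := by
      rw [hgeom', hl2w]
      field_simp
      ring
    rw [this, norm_mul, norm_pow]
    exact hk
  · rw [S8_monN_smul, Finset.mul_sum, Finset.mul_sum]
    refine Subalgebra.sum_mem _ fun j hj => ?_
    have hjk : j < k := Finset.mem_range.mp hj
    -- `u ^ β * m` is in the algebra
    have hum : monN u β * m ∈ Algebra.adjoin C (Set.range u) := by
      have h3 : monN u β * m = monN u β - algebraMap C L ((c⁻¹ : Cˣ) : C) * l2 := by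
        have h4 : algebraMap C L ((c⁻¹ : Cˣ) : C) = (algebraMap C L (c : C))⁻¹ := by
          refine eq_inv_of_mul_eq_one_left ?_
          rw [← map_mul, Units.inv_mul, map_one]
        rw [h4, hm, hw]
        have := hmne β
        field_simp
      rw [h3]
      exact Subalgebra.sub_mem _ (S8_monN_mem u β)
        (Subalgebra.mul_mem _ (Subalgebra.algebraMap_mem _ _) h2')
    have hsplit : monN u β ^ (k + 1) * (l1 / w * m ^ j) =
        algebraMap C L ((c⁻¹ : Cˣ) : C) * l1 * (monN u β * m) ^ j * monN u β ^ (k - j) := by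
      have h4 : algebraMap C L ((c⁻¹ : Cˣ) : C) = (algebraMap C L (c : C))⁻¹ := by
        refine eq_inv_of_mul_eq_one_left ?_
        rw [← map_mul, Units.inv_mul, map_one]
      have h5 : monN u β ^ (k + 1) = monN u β * (monN u β ^ j * monN u β ^ (k - j)) := by
        rw [← pow_add, Nat.add_sub_cancel' hjk.le, pow_succ, mul_comm]
      rw [h4, h5, hw, mul_pow]
      have := hmne β
      field_simp
    rw [hsplit]
    exact Subalgebra.mul_mem _ (Subalgebra.mul_mem _ (Subalgebra.mul_mem _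
      (Subalgebra.algebraMap_mem _ _) h1') (Subalgebra.pow_mem _ hum _))
      (Subalgebra.pow_mem _ (S8_monN_mem u β) _)

/-- approximation of an element of the closure -/
theorem S8_approx1 (x : L) (hx : x ∈ clF C u) (ε : ℝ) (hε : 0 < ε) :
    ∃ (z : L) (β : Fin r → ℕ), ‖x - z‖ < ε ∧
      monN u β * z ∈ Algebra.adjoin C (Set.range u) := by
  have hx' : x ∈ closure
      ((Subfield.closure (((algebraMap C L).range : Set L) ∪ Set.range u) : Subfield L) :
        Set L) := hx
  obtain ⟨y, hy, hxy⟩ := Metric.mem_closure_iff.mp hx' ε hε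
  obtain ⟨z, β, hz, hβ⟩ := S8_approx0 C u hC y hy ε hε
  refine ⟨z, β, ?_, hβ⟩
  have : x - z = (x - y) + (y - z) := by ring
  rw [this]
  refine lt_of_le_of_lt (IsUltrametricDist.norm_add_le_max _ _) (max_lt ?_ hz)
  rw [← dist_eq_norm]; exact hxy

/-- a finite sum of Laurent monomials from a denominator -/
theorem S8_laurent (z : L) (β : Fin r → ℕ)
    (h : monN u β * z ∈ Algebra.adjoin C (Set.range u)) :
    ∃ (B : Finset (Fin r → ℤ)) (c : (Fin r → ℤ) → Cˣ),
      z = ∑ δ ∈ B, algebraMap C L (c δ) * mon u δ := by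
  classical
  have hmne : ∀ β : Fin r → ℕ, monN u β ≠ 0 := fun β =>
    Finset.prod_ne_zero_iff.mpr fun i _ => pow_ne_zero _ (hC.indep.ne i)
  obtain ⟨B, c, hBc⟩ := hC.expand _ h
  let F : (Fin r → ℕ) → (Fin r → ℤ) := fun γ i => (γ i : ℤ) - β i
  have hF : Function.Injective F := by
    intro a b hab
    funext i
    have h1 := congrFun hab i
    have h2 : (a i : ℤ) - β i = (b i : ℤ) - β i := h1
    have h3 : (a i : ℤ) = b i := by linarith
    exact_mod_cast h3
  refine ⟨B.image F, fun δ => c (fun i => (δ i + β i).toNat), ?_⟩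
  rw [Finset.sum_image (fun a _ b _ hab => hF hab)]
  have hz : z = (monN u β)⁻¹ * (monN u β * z) := by
    rw [← mul_assoc, inv_mul_cancel₀ (hmne β), one_mul]
  rw [hz, hBc, Finset.mul_sum]
  refine Finset.sum_congr rfl fun γ _ => ?_
  have h1 : (fun i => (F γ i + β i).toNat) = γ := by
    funext i
    show ((γ i : ℤ) - β i + β i).toNat = γ i
    rw [sub_add_cancel, Int.toNat_natCast]
  show (monN u β)⁻¹ * (algebraMap C L (c γ) * monN u γ) =
    algebraMap C L (c (fun i => (F γ i + (β i : ℤ)).toNat)) * mon u (F γ)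
  rw [h1]
  have h2 : F γ = (fun i => (γ i : ℤ)) + -(fun i => (β i : ℤ)) := by
    funext i
    show (γ i : ℤ) - β i = (γ i : ℤ) + -(β i : ℤ)
    ring
  rw [h2, mon_add u hC.indep.ne, mon_neg, mon_natCast, mon_natCast]
  ring

/-- finite sums of Laurent monomials are dense in the field generated by `C` and `u`, with control
of the size of the terms -/
theorem clF_approx (x : L) (hx : x ∈ clF C u) (ε : ℝ) (hε : 0 < ε) :
    ∃ (B : Finset (Fin r → ℤ)) (c : (Fin r → ℤ) → Cˣ),
      ‖x - ∑ δ ∈ B, algebraMap C L (c δ) * mon u δ‖ < ε ∧ ∀ δ ∈ B, ‖mon u δ‖ ≤ ‖x‖ := by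
  by_cases hx0 : x = 0
  · refine ⟨∅, fun _ => 1, ?_, ?_⟩
    · rw [Finset.sum_empty, sub_zero, hx0, norm_zero]; exact hε
    · intro δ hδ; exact absurd hδ (Finset.notMem_empty _)
  have hxpos : 0 < ‖x‖ := norm_pos_iff.mpr hx0
  obtain ⟨z, β, hz, hβ⟩ := S8_approx1 C u hC x hx (min ε ‖x‖) (lt_min hε hxpos)
  obtain ⟨B, c, hBc⟩ := S8_laurent C u hC z β hβ
  refine ⟨B, c, ?_, ?_⟩
  · rw [← hBc]; exact lt_of_lt_of_le hz (min_le_left _ _)
  · intro δ hδ
    have h1 := S8_le_sum B _ (S8_distinct C u hC B c) δ hδ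
    rw [norm_mul, S8_unit hC.dom, one_mul, ← hBc] at h1
    refine h1.trans ?_
    have h2 : z = x - (x - z) := by ring
    rw [h2]
    refine (S8_sub_le _ _).trans (max_le le_rfl ?_)
    exact (lt_of_lt_of_le hz (min_le_right _ _)).le

theorem S8_norm_eq (x z : L) (h : ‖x - z‖ < ‖x‖) : ‖x‖ = ‖z‖ := by
  have h1 : ‖z‖ ≤ ‖x‖ := by
    have h2 : z = x - (x - z) := by ring
    rw [h2]
    exact (S8_sub_le _ _).trans (max_le le_rfl h.le)
  refine le_antisymm ?_ h1
  have h3 : ‖x‖ ≤ max ‖x - z‖ ‖z‖ := by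
    have h4 : x = (x - z) + z := by ring
    calc ‖x‖ = ‖(x - z) + z‖ := by rw [← h4]
      _ ≤ _ := IsUltrametricDist.norm_add_le_max _ _
  rcases le_max_iff.mp h3 with h5 | h5
  · exact absurd h (not_lt.mpr h5)
  · exact h5

/-- norms of elements of the closure -/
theorem clF_norm (x : L) (hx : x ∈ clF C u) (hx0 : x ≠ 0) :
    ∃ δ : Fin r → ℤ, ‖x‖ = ‖mon u δ‖ := by
  have hxpos : 0 < ‖x‖ := norm_pos_iff.mpr hx0
  obtain ⟨B, c, hB, _⟩ := clF_approx C u hC x hx ‖x‖ hxpos
  have hBne : B.Nonempty := by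
    rcases B.eq_empty_or_nonempty with h | h
    · rw [h, Finset.sum_empty, sub_zero] at hB
      exact absurd hB (lt_irrefl _)
    · exact h
  obtain ⟨δ, _, hδ⟩ := S8_sum_eq B _ (S8_distinct C u hC B c) hBne
  refine ⟨δ, ?_⟩
  rw [S8_norm_eq C u hC x _ hB, hδ, norm_mul, S8_unit hC.dom, one_mul]

/-- residues of elements of the closure -/
theorem clF_residue (x : L) (hx : x ∈ clF C u) (hx1 : ‖x‖ ≤ 1) :
    ∃ c : C, ‖x - algebraMap C L c‖ < 1 := by
  classical
  obtain ⟨B, c, hB, hle⟩ := clF_approx C u hC x hx 1 zero_lt_one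
  have hmon0 : mon u (0 : Fin r → ℤ) = 1 := by
    rw [mon]
    exact Finset.prod_eq_one fun i _ => by rw [Pi.zero_apply, zpow_zero]
  -- the rest of the sum is small
  have hrest : ‖∑ δ ∈ B.erase 0, algebraMap C L (c δ) * mon u δ‖ < 1 := by
    rcases (B.erase 0).eq_empty_or_nonempty with he | hne
    · rw [he, Finset.sum_empty, norm_zero]; exact zero_lt_one
    · obtain ⟨j, hj, hjle⟩ := IsUltrametricDist.exists_norm_finsetSum_le_of_nonempty hne
        (fun β => algebraMap C L (c β) * mon u β)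
      refine lt_of_le_of_lt hjle ?_
      rw [norm_mul, S8_unit hC.dom, one_mul]
      refine lt_of_le_of_ne ((hle j (Finset.mem_of_mem_erase hj)).trans hx1) fun heq => ?_
      exact Finset.ne_of_mem_erase hj (hC.indep.indep j heq)
  by_cases h0 : (0 : Fin r → ℤ) ∈ B
  · refine ⟨c 0, ?_⟩
    have h1 : x - algebraMap C L (c 0) = (x - ∑ δ ∈ B, algebraMap C L (c δ) * mon u δ) +
        ∑ δ ∈ B.erase 0, algebraMap C L (c δ) * mon u δ := by
      rw [← Finset.add_sum_erase B _ h0, hmon0]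
      ring
    rw [h1]
    exact lt_of_le_of_lt (IsUltrametricDist.norm_add_le_max _ _) (max_lt hB hrest)
  · refine ⟨0, ?_⟩
    rw [Finset.erase_eq_of_notMem h0] at hrest
    have h1 : x - algebraMap C L (0 : C) = (x - ∑ δ ∈ B, algebraMap C L (c δ) * mon u δ) +
        ∑ δ ∈ B, algebraMap C L (c δ) * mon u δ := by
      rw [map_zero]; ring
    rw [h1]
    exact lt_of_le_of_lt (IsUltrametricDist.norm_add_le_max _ _) (max_lt hB hrest)

/-- common denominators for approximations -/
theorem clF_approx_denom {ι : Type} [Finite ι] (x : ι → L) (hx : ∀ i, x i ∈ clF C u) (ε : ℝ)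
    (hε : 0 < ε) : ∃ (y : ι → L) (β : Fin r → ℕ), (∀ i, ‖x i - y i‖ < ε) ∧
      ∀ i, monN u β * y i ∈ Algebra.adjoin C (Set.range u) := by
  classical
  have := Fintype.ofFinite ι
  choose z β hz hβ using fun i => S8_approx1 C u hC (x i) (hx i) ε hε
  refine ⟨z, ∑ i, β i, hz, fun i => ?_⟩
  rw [← Finset.add_sum_erase Finset.univ β (Finset.mem_univ i), S8_monN_add,
    mul_comm (monN u (β i)), mul_assoc]
  exact Subalgebra.mul_mem _ (S8_monN_mem u _) (hβ i)

/-- orthogonality -/
theorem orthogonal {e f : ℕ} (y : Fin e → L) (hy : ∀ a, y a ≠ 0)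
    (hy1 : ∀ a a' : Fin e, ∀ δ : Fin r → ℤ, ‖y a‖ = ‖y a'‖ * ‖mon u δ‖ → a = a')
    (w : Fin f → L) (hw : ∀ b, ‖w b‖ ≤ 1)
    (hw1 : ∀ c : Fin f → C, ‖∑ b, algebraMap C L (c b) * w b‖ < 1 → ∀ b, ¬ IsUnit (c b))
    (x : Fin e → Fin f → L) (hx : ∀ a b, x a b ∈ clF C u) (a : Fin e) (b : Fin f) :
    ‖x a b * y a‖ ≤ ‖∑ a, ∑ b, x a b * (y a * w b)‖ := by
  classical
  -- the inner sums
  have key : ∀ a : Fin e, ∃ b0 : Fin f, (∀ b, ‖x a b‖ ≤ ‖x a b0‖) ∧
      ‖∑ b, x a b * w b‖ = ‖x a b0‖ := by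
    intro a
    obtain ⟨b0, _, hb0⟩ := Finset.exists_max_image Finset.univ (fun b => ‖x a b‖)
      ⟨b, Finset.mem_univ b⟩
    refine ⟨b0, fun b => hb0 b (Finset.mem_univ b), ?_⟩
    refine le_antisymm ?_ ?_
    · refine IsUltrametricDist.norm_sum_le_of_forall_le_of_nonneg (norm_nonneg _) fun b _ => ?_
      rw [norm_mul]
      exact (mul_le_of_le_one_right (norm_nonneg _) (hw b)).trans (hb0 b (Finset.mem_univ b))
    · by_contra hlt
      rw [not_le] at hlt
      have hx0 : x a b0 ≠ 0 := by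
        intro h
        rw [h, norm_zero] at hlt
        exact absurd hlt (not_lt.mpr (norm_nonneg _))
      have hq : ∀ b, ∃ c : C, ‖x a b / x a b0 - algebraMap C L c‖ < 1 := by
        intro b
        refine clF_residue C u hC _ (Subfield.div_mem _ (hx a b) (hx a b0)) ?_
        rw [norm_div]
        exact div_le_one_of_le₀ (hb0 b (Finset.mem_univ b)) (norm_nonneg _)
      choose c hc using hq
      have hsmall : ‖∑ b, algebraMap C L (c b) * w b‖ < 1 := by
        have h1 : ∑ b, algebraMap C L (c b) * w b = (∑ b, x a b * w b) / x a b0 -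
            ∑ b, (x a b / x a b0 - algebraMap C L (c b)) * w b := by
          rw [Finset.sum_div, ← Finset.sum_sub_distrib]
          exact Finset.sum_congr rfl fun b _ => by ring
        rw [h1]
        refine lt_of_le_of_lt (S8_sub_le _ _) (max_lt ?_ ?_)
        · rw [norm_div]
          exact (div_lt_one (norm_pos_iff.mpr hx0)).mpr hlt
        · obtain ⟨b', _, hb'⟩ := IsUltrametricDist.exists_norm_finsetSum_le_of_nonempty
            (⟨b, Finset.mem_univ b⟩ : (Finset.univ : Finset (Fin f)).Nonempty)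
            (fun b => (x a b / x a b0 - algebraMap C L (c b)) * w b)
          refine lt_of_le_of_lt hb' ?_
          rw [norm_mul]
          exact lt_of_le_of_lt (mul_le_of_le_one_right (norm_nonneg _) (hw b')) (hc b')
      refine hw1 c hsmall b0 (S8_isUnit hC.dom _ ?_)
      have h2 := hc b0
      rw [div_self hx0] at h2
      have h3 := S8_norm_eq C u hC (1 : L) (algebraMap C L (c b0)) (by rw [norm_one]; exact h2)
      rw [← h3, norm_one]
  -- the outer sum
  have hfact : ∀ a : Fin e, ∑ b, x a b * (y a * w b) = y a * ∑ b, x a b * w b := by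
    intro a
    rw [Finset.mul_sum]
    exact Finset.sum_congr rfl fun b _ => by ring
  have hdist : ∀ i ∈ (Finset.univ : Finset (Fin e)), ∀ j ∈ (Finset.univ : Finset (Fin e)),
      ∑ b, x i b * (y i * w b) ≠ 0 →
      ‖∑ b, x i b * (y i * w b)‖ = ‖∑ b, x j b * (y j * w b)‖ → i = j := by
    intro i _ j _ hne heq
    rw [hfact] at hne
    rw [hfact, hfact, norm_mul, norm_mul] at heq
    obtain ⟨bi, _, hbi⟩ := key i
    obtain ⟨bj, _, hbj⟩ := key j
    have hxi : x i bi ≠ 0 := by
      intro h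
      rw [h, norm_zero, norm_eq_zero] at hbi
      rw [hbi, mul_zero] at hne
      exact hne rfl
    rw [hbi, hbj] at heq
    have hxj : x j bj ≠ 0 := by
      intro h
      rw [h, norm_zero, mul_zero] at heq
      exact mul_ne_zero (norm_ne_zero_iff.mpr (hy i)) (norm_ne_zero_iff.mpr hxi) heq
    obtain ⟨δi, hδi⟩ := clF_norm C u hC _ (hx i bi) hxi
    obtain ⟨δj, hδj⟩ := clF_norm C u hC _ (hx j bj) hxj
    refine hy1 i j (δj + -δi) ?_
    rw [mon_add u hC.indep.ne, mon_neg, norm_mul, norm_inv, ← hδi, ← hδj]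
    have hi := norm_ne_zero_iff.mpr hxi
    rw [← mul_assoc, ← heq, mul_assoc, mul_inv_cancel₀ hi, mul_one]
  have h1 := S8_le_sum Finset.univ (fun a => ∑ b, x a b * (y a * w b)) hdist a
    (Finset.mem_univ a)
  refine le_trans ?_ h1
  show ‖x a b * y a‖ ≤ ‖∑ b, x a b * (y a * w b)‖
  obtain ⟨b0, hb0, hb0'⟩ := key a
  rw [hfact, norm_mul, norm_mul, hb0', mul_comm]
  exact mul_le_mul_of_nonneg_left (hb0 b) (norm_nonneg _)

end

end Pool.Agent.Lib.MP_3029eb_ag.Abh
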