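import Pool.Agent.Lib.MP_3029eb_ag.AbhS7
import Pool.Agent.Lib.MP_3029eb_ag.AbhS8

/-!
Module S10: the values of the sums of `l i * b i` with `l i` in the algebra generated by `u`.
-/

open IsLocalRing

namespace Pool.Agent.Lib.MP_3029eb_ag.Abh
open Pool.Agent.Lib.MP_3029eb_ag

theorem S10_prod_sub {L : Type} [NormedField L] [IsUltrametricDist L] {ι : Type}
    (s : Finset ι) (a b : ι → L) (R δ : ℝ) (hR : 0 ≤ R) (hδ : 0 ≤ δ) (ha : ∀ i, ‖a i‖ ≤ R)
    (hb : ∀ i, ‖b i‖ ≤ R) (hab : ∀ i, ‖a i - b i‖ ≤ δ) :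
    ‖∏ i ∈ s, a i - ∏ i ∈ s, b i‖ * R ≤ R ^ s.card * δ := by
  classical
  induction s using Finset.induction_on with
  | empty => simpa using hδ
  | insert i s hi ih =>
    rw [Finset.prod_insert hi, Finset.prod_insert hi, Finset.card_insert_of_notMem hi]
    have h1 : a i * ∏ i ∈ s, a i - b i * ∏ i ∈ s, b i =
        a i * (∏ i ∈ s, a i - ∏ i ∈ s, b i) + (a i - b i) * ∏ i ∈ s, b i := by ring
    have hQ : ‖∏ i ∈ s, b i‖ ≤ R ^ s.card := by
      rw [norm_prod]
      calc ∏ i ∈ s, ‖b i‖ ≤ ∏ i ∈ s, R :=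
            Finset.prod_le_prod (fun i _ => norm_nonneg _) (fun i _ => hb i)
        _ = R ^ s.card := Finset.prod_const R
    have h2 : ‖a i * (∏ i ∈ s, a i - ∏ i ∈ s, b i)‖ * R ≤ R ^ (s.card + 1) * δ := by
      rw [norm_mul, mul_assoc, pow_succ']
      calc ‖a i‖ * (‖∏ i ∈ s, a i - ∏ i ∈ s, b i‖ * R) ≤ R * (R ^ s.card * δ) :=
            mul_le_mul (ha i) ih (by positivity) hR
        _ = R * R ^ s.card * δ := by ring
    have h3 : ‖(a i - b i) * ∏ i ∈ s, b i‖ * R ≤ R ^ (s.card + 1) * δ := by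
      rw [norm_mul]
      calc ‖a i - b i‖ * ‖∏ i ∈ s, b i‖ * R ≤ δ * R ^ s.card * R :=
            mul_le_mul_of_nonneg_right (mul_le_mul (hab i) hQ (norm_nonneg _) hδ) hR
        _ = R ^ (s.card + 1) * δ := by ring
    rw [h1]
    calc ‖a i * (∏ i ∈ s, a i - ∏ i ∈ s, b i) + (a i - b i) * ∏ i ∈ s, b i‖ * R
        ≤ max ‖a i * (∏ i ∈ s, a i - ∏ i ∈ s, b i)‖ ‖(a i - b i) * ∏ i ∈ s, b i‖ * R :=
          mul_le_mul_of_nonneg_right (IsUltrametricDist.norm_add_le_max _ _) hR
      _ = max (‖a i * (∏ i ∈ s, a i - ∏ i ∈ s, b i)‖ * R) (‖(a i - b i) * ∏ i ∈ s, b i‖ * R) :=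
          max_mul_of_nonneg _ _ hR
      _ ≤ R ^ (s.card + 1) * δ := max_le h2 h3

theorem S10_det_sub {L : Type} [NormedField L] [IsUltrametricDist L] {n : ℕ}
    (A A' : Matrix (Fin n) (Fin n) L) (R δ : ℝ) (hR : 0 ≤ R) (hδ : 0 ≤ δ)
    (ha : ∀ i j, ‖A i j‖ ≤ R) (hb : ∀ i j, ‖A' i j‖ ≤ R) (hab : ∀ i j, ‖A i j - A' i j‖ ≤ δ) :
    ‖A.det - A'.det‖ * R ≤ R ^ n * δ := by
  rcases hR.eq_or_lt with h0 | h0
  · rw [← h0, mul_zero]
    positivity
  rw [← le_div_iff₀ h0, Matrix.det_apply, Matrix.det_apply, ← Finset.sum_sub_distrib]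
  refine IsUltrametricDist.norm_sum_le_of_forall_le_of_nonneg (by positivity) ?_
  intro σ _
  rw [← smul_sub]
  have h1 : ‖Equiv.Perm.sign σ • (∏ i, A (σ i) i - ∏ i, A' (σ i) i)‖ =
      ‖∏ i, A (σ i) i - ∏ i, A' (σ i) i‖ := by
    rcases Int.units_eq_one_or (Equiv.Perm.sign σ) with h | h
    · rw [h, one_smul]
    · rw [h, Units.neg_smul, one_smul, norm_neg]
  rw [h1, le_div_iff₀ h0]
  have h2 := S10_prod_sub Finset.univ (fun i => A (σ i) i) (fun i => A' (σ i) i) R δ hR hδ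
    (fun i => ha _ _) (fun i => hb _ _) (fun i => hab _ _)
  simpa using h2

theorem S10_det_mem {L : Type} [Field L] {C : Type} [CommRing C] [Algebra C L]
    (S : Subalgebra C L) {n : ℕ}
    (A : Matrix (Fin n) (Fin n) L) (h : ∀ i j, A i j ∈ S) : A.det ∈ S := by
  rw [Matrix.det_apply]
  refine sum_mem fun σ _ => ?_
  have h1 : ∏ i, A (σ i) i ∈ S := prod_mem fun i _ => h _ _
  rcases Int.units_eq_one_or (Equiv.Perm.sign σ) with h | h
  · rw [h, one_smul]; exact h1
  · rw [h, Units.neg_smul, one_smul]; exact neg_mem h1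

theorem S10_monN_nsmul {L : Type} [CommMonoid L] {r : ℕ} (u : Fin r → L) (β : Fin r → ℕ) (n : ℕ) :
    monN u (fun i => n * β i) = monN u β ^ n := by
  unfold monN
  rw [← Finset.prod_pow]
  refine Finset.prod_congr rfl fun i _ => ?_
  show u i ^ (n * β i) = _
  rw [mul_comm, pow_mul]

theorem value_structure (C : Type) {L : Type} [CommRing C] [IsLocalRing C]
    [NontriviallyNormedField L] [IsUltrametricDist L] [CompleteSpace L] [Algebra C L] [Bdd C L]
    {r : ℕ} (hr : 0 < r) (u : Fin r → L) (hC : Coef C u) {n : ℕ}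
    (b : Module.Basis (Fin n) (clF C u) L) :
    ∃ β0 : Fin r → ℕ, ∀ l : Fin n → L, (∀ i, l i ∈ Algebra.adjoin C (Set.range u)) →
      ∑ j, l j * b j ≠ 0 →
      ∃ β : Fin r → ℕ, ‖∑ j, l j * b j‖ ^ n * ‖monN u β0‖ = ‖monN u β‖ := by
  classical
  have hind : Indep u := hC.indep
  -- the closed subfield
  have hF : IsClosed (clF C u : Set L) := Subfield.isClosed_topologicalClosure _
  have huF : ∀ i, u i ∈ clF C u := fun i =>
    Subfield.le_topologicalClosure _ (Subfield.subset_closure (Or.inr ⟨i, rfl⟩))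
  have hCF : ∀ c, algebraMap C L c ∈ clF C u := fun c =>
    Subfield.le_topologicalClosure _ (Subfield.subset_closure (Or.inl ⟨c, rfl⟩))
  have hadF : ∀ x ∈ Algebra.adjoin C (Set.range u), x ∈ clF C u := by
    intro x hx
    induction hx using Algebra.adjoin_induction with
    | mem x hx => obtain ⟨i, rfl⟩ := hx; exact huF i
    | algebraMap c => exact hCF c
    | add x y _ _ hx hy => exact (clF C u).add_mem hx hy
    | mul x y _ _ hx hy => exact (clF C u).mul_mem hx hy
  have hF1 : ∃ x ∈ clF C u, x ≠ 0 ∧ ‖x‖ < 1 := ⟨u ⟨0, hr⟩, huF _, hind.ne _, hind.lt _⟩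
  have : Module.Finite (clF C u) L := Module.Finite.of_basis b
  have hrank : Module.finrank (clF C u) L = n := by
    rw [Module.finrank_eq_card_basis b, Fintype.card_fin]
  obtain ⟨c1, hc1⟩ := exists_norm_bound (clF C u) hF hF1 (fun i => b i) b.linearIndependent
  -- the matrices
  let M : Fin n × Fin n × Fin n → L := fun t =>
    ((Algebra.leftMulMatrix b (b t.1) t.2.1 t.2.2 : clF C u) : L)
  have hM : ∀ t, M t ∈ clF C u := fun t => (Algebra.leftMulMatrix b (b t.1) t.2.1 t.2.2).2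
  obtain ⟨B, hB1, hB⟩ : ∃ B : ℝ, 1 ≤ B ∧ ∀ t, ‖M t‖ ≤ B := by
    obtain ⟨B, hB⟩ := (Set.finite_range (fun t => ‖M t‖)).bddAbove
    exact ⟨max 1 B, le_max_left _ _, fun t => (hB ⟨t, rfl⟩).trans (le_max_right _ _)⟩
  have hB0 : 0 < B := lt_of_lt_of_le one_pos hB1
  set ε : ℝ := min 1 (Real.exp (-(c1 * n)) * B / B ^ n / 2) with hε
  have hq : 0 < Real.exp (-(c1 * n)) * B / B ^ n := by positivity
  have hεpos : 0 < ε := lt_min one_pos (by positivity)
  have hε1 : ε ≤ 1 := min_le_left _ _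
  have hε2 : ε < Real.exp (-(c1 * n)) * B / B ^ n :=
    (min_le_right _ _).trans_lt (by linarith)
  obtain ⟨y, β, hy1, hy2⟩ := clF_approx_denom C u hC M hM ε hεpos
  have hyB : ∀ t, ‖y t‖ ≤ B := by
    intro t
    have h1 : y t = M t - (M t - y t) := by ring
    rw [h1, sub_eq_add_neg]
    refine (IsUltrametricDist.norm_add_le_max _ _).trans (max_le (hB t) ?_)
    rw [norm_neg]
    exact (hy1 t).le.trans (hε1.trans hB1)
  refine ⟨fun i => n * β i, ?_⟩
  intro l hl hz
  set z : L := ∑ j, l j * b j with hzdef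
  have hlF : ∀ i, l i ∈ clF C u := fun i => hadF _ (hl i)
  -- the size of `l`
  have hne : Nonempty (Fin n) := by
    by_contra hemp
    rw [not_nonempty_iff] at hemp
    apply hz
    rw [hzdef]
    exact Finset.sum_of_isEmpty _
  obtain ⟨i0, _, hi0⟩ := Finset.exists_max_image Finset.univ (fun i => ‖l i‖)
    Finset.univ_nonempty
  set m : ℝ := ‖l i0‖ with hm
  have hlm : ∀ i, ‖l i‖ ≤ m := fun i => hi0 i (Finset.mem_univ _)
  have hmpos : 0 < m := by
    rw [hm, norm_pos_iff]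
    intro h0
    apply hz
    rw [hzdef]
    refine Finset.sum_eq_zero fun j _ => ?_
    have h1 : ‖l j‖ ≤ 0 := by
      have := hlm j
      rw [hm, h0, norm_zero] at this
      exact this
    rw [norm_le_zero_iff.1 h1, zero_mul]
  have hmz : m ≤ Real.exp c1 * ‖z‖ := hc1 (fun i => ⟨l i, hlF i⟩) i0
  -- the norm as a determinant
  let A : Matrix (Fin n) (Fin n) L := Matrix.of fun j k => ∑ i, l i * M (i, j, k)
  let A' : Matrix (Fin n) (Fin n) L := Matrix.of fun j k => ∑ i, l i * y (i, j, k)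
  have hdetA : ((Algebra.norm (clF C u) z : clF C u) : L) = A.det := by
    rw [Algebra.norm_eq_matrix_det b z]
    have h1 : (Matrix.det (Algebra.leftMulMatrix b z) : clF C u) =
        Matrix.det (Algebra.leftMulMatrix b z) := rfl
    have h2 := RingHom.map_det (clF C u).subtype (Algebra.leftMulMatrix b z)
    refine Eq.trans h2 ?_
    congr 1
    ext j k
    have hz' : z = ∑ i, (⟨l i, hlF i⟩ : clF C u) • b i := rfl
    rw [RingHom.mapMatrix_apply, Matrix.map_apply, hz', map_sum, Matrix.sum_apply, map_sum]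
    refine Finset.sum_congr rfl fun i _ => ?_
    rw [map_smul, Matrix.smul_apply, smul_eq_mul, map_mul]
    rfl
  have hnormA : ‖A.det‖ = ‖z‖ ^ n := by
    rw [← hdetA, norm_norm (clF C u) hF hF1 z, hrank]
  have hAent : ∀ j k, ‖A j k‖ ≤ m * B := by
    intro j k
    show ‖∑ i, l i * M (i, j, k)‖ ≤ _
    refine IsUltrametricDist.norm_sum_le_of_forall_le_of_nonneg (by positivity) ?_
    intro i _
    rw [norm_mul]
    exact mul_le_mul (hlm i) (hB _) (norm_nonneg _) hmpos.le
  have hA'ent : ∀ j k, ‖A' j k‖ ≤ m * B := by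
    intro j k
    show ‖∑ i, l i * y (i, j, k)‖ ≤ _
    refine IsUltrametricDist.norm_sum_le_of_forall_le_of_nonneg (by positivity) ?_
    intro i _
    rw [norm_mul]
    exact mul_le_mul (hlm i) (hyB _) (norm_nonneg _) hmpos.le
  have hdiff : ∀ j k, ‖A j k - A' j k‖ ≤ m * ε := by
    intro j k
    have h1 : A j k - A' j k = ∑ i, l i * (M (i, j, k) - y (i, j, k)) := by
      show ∑ i, l i * M (i, j, k) - ∑ i, l i * y (i, j, k) = _
      rw [← Finset.sum_sub_distrib]
      exact Finset.sum_congr rfl fun i _ => by ring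
    rw [h1]
    refine IsUltrametricDist.norm_sum_le_of_forall_le_of_nonneg (by positivity) ?_
    intro i _
    rw [norm_mul]
    exact mul_le_mul (hlm i) (hy1 _).le (norm_nonneg _) hmpos.le
  have hdd := S10_det_sub A A' (m * B) (m * ε) (by positivity) (by positivity) hAent hA'ent hdiff
  have hlt : ‖A.det - A'.det‖ < ‖A.det‖ := by
    have h1 : ‖A.det - A'.det‖ ≤ m ^ n * (B ^ n * ε / B) := by
      have h2 : ‖A.det - A'.det‖ * (m * B) ≤ (m ^ n * (B ^ n * ε / B)) * (m * B) := by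
        refine hdd.trans (le_of_eq ?_)
        rw [mul_pow]
        field_simp
      exact le_of_mul_le_mul_right h2 (by positivity)
    have h3 : B ^ n * ε / B < Real.exp (-(c1 * n)) := by
      rw [div_lt_iff₀ hB0]
      have h4 := mul_lt_mul_of_pos_left hε2 (pow_pos hB0 n)
      refine h4.trans_le (le_of_eq ?_)
      field_simp
    have h5 : m ^ n * Real.exp (-(c1 * n)) ≤ ‖A.det‖ := by
      rw [hnormA]
      have h6 : m * Real.exp (-c1) ≤ ‖z‖ := by
        calc m * Real.exp (-c1) ≤ (Real.exp c1 * ‖z‖) * Real.exp (-c1) :=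
              mul_le_mul_of_nonneg_right hmz (Real.exp_pos _).le
          _ = (Real.exp c1 * Real.exp (-c1)) * ‖z‖ := by ring
          _ = ‖z‖ := by rw [← Real.exp_add, add_neg_cancel, Real.exp_zero, one_mul]
      have h7 := pow_le_pow_left₀ (by positivity) h6 n
      have h8 : Real.exp (-(c1 * n)) = Real.exp (-c1) ^ n := by
        rw [← Real.exp_nat_mul]
        congr 1
        ring
      rw [h8, ← mul_pow]
      exact h7
    calc ‖A.det - A'.det‖ ≤ m ^ n * (B ^ n * ε / B) := h1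
      _ < m ^ n * Real.exp (-(c1 * n)) := mul_lt_mul_of_pos_left h3 (by positivity)
      _ ≤ ‖A.det‖ := h5
  have hdet' : ‖A'.det‖ = ‖A.det‖ := by
    have h1 : A'.det = -(A.det - A'.det) + A.det := by ring
    rw [h1, IsUltrametricDist.norm_add_eq_max_of_norm_ne_norm]
    · rw [norm_neg]; exact max_eq_right hlt.le
    · rw [norm_neg]; exact ne_of_lt hlt
  -- multiply by the denominator
  have hmem : monN u (fun i => n * β i) * A'.det ∈ Algebra.adjoin C (Set.range u) := by
    rw [S10_monN_nsmul]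
    have h1 : monN u β ^ n * A'.det = (monN u β • A').det := by
      rw [Matrix.det_smul, Fintype.card_fin]
    rw [h1]
    refine S10_det_mem _ _ fun j k => ?_
    have h2 : (monN u β • A') j k = ∑ i, l i * (monN u β * y (i, j, k)) := by
      rw [Matrix.smul_apply, smul_eq_mul]
      show monN u β * ∑ i, l i * y (i, j, k) = _
      rw [Finset.mul_sum]
      exact Finset.sum_congr rfl fun i _ => by ring
    rw [h2]
    exact sum_mem fun i _ => mul_mem (hl i) (hy2 _)
  have hznorm : 0 < ‖z‖ := norm_pos_iff.2 hz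
  have hmonpos : monN u (fun i => n * β i) ≠ 0 := by
    unfold monN
    exact Finset.prod_ne_zero_iff.2 fun i _ => pow_ne_zero _ (hind.ne i)
  have hA'ne : A'.det ≠ 0 := by
    rw [← norm_ne_zero_iff, hdet', hnormA]
    positivity
  obtain ⟨β', hβ'⟩ := adjoin_norm C u hC _ hmem (mul_ne_zero hmonpos hA'ne)
  refine ⟨β', ?_⟩
  rw [← hβ', norm_mul, hdet', hnormA, mul_comm]

end Pool.Agent.Lib.MP_3029eb_ag.Abh
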