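import Pool.Agent.Lib.MP_3029eb_ag.AbhS1
import Pool.Agent.Lib.MP_3029eb_ag.AbhS2

/-!
Module AB-S11: counting values.
-/

open IsLocalRing

namespace Pool.Agent.Lib.MP_3029eb_ag.Abh

theorem S11_norm_pow_eq {L : Type} [NormedField L] {r : ℕ} (u : Fin r → L) (hu : Indep u)
    {n : ℕ} (β0 β : Fin r → ℕ) (d : Fin r → ℤ) (x y : L)
    (h1 : ‖x‖ = ‖y‖ * ‖mon u d‖) (h2 : ‖x‖ ^ n * ‖monN u β0‖ = ‖monN u β‖) :
    ‖y‖ ^ n = ‖mon u (fun i => (β i : ℤ) - β0 i - n * d i)‖ := by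
  have hd : ‖mon u d‖ ≠ 0 := norm_ne_zero_iff.mpr (mon_ne_zero u hu.ne d)
  have h0 : ‖monN u β0‖ ≠ 0 := by
    rw [← mon_natCast]; exact norm_ne_zero_iff.mpr (mon_ne_zero u hu.ne _)
  have hfun : (fun i => (β i : ℤ) - β0 i - n * d i) =
      (fun i => (β i : ℤ)) + (-(fun i => (β0 i : ℤ)) + -(fun i => (n : ℤ) * d i)) := by
    funext i
    show (β i : ℤ) - β0 i - n * d i = (β i : ℤ) + (-(β0 i : ℤ) + -((n : ℤ) * d i))
    ring
  have hsm : mon u (fun i => (n : ℤ) * d i) = mon u d ^ n := by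
    rw [mon, mon, ← Finset.prod_pow]
    exact Finset.prod_congr rfl fun j _ => by rw [mul_comm, zpow_mul, zpow_natCast]
  rw [hfun, mon_add u hu.ne, mon_add u hu.ne, mon_neg, mon_neg, mon_natCast, mon_natCast, hsm,
    norm_mul, norm_mul, norm_inv, norm_inv, norm_pow, ← h2, h1, mul_pow]
  have hdn : ‖mon u d‖ ^ n ≠ 0 := pow_ne_zero _ hd
  field_simp

theorem value_count {L : Type} [NormedField L] {r : ℕ} (u : Fin r → L) (hu : Indep u)
    {n : ℕ} (hn : 0 < n) (β0 : Fin r → ℕ) {e : ℕ} (y : Fin e → L) (hy : ∀ a, y a ≠ 0)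
    (hcl : ∀ x : L, x ≠ 0 → ∃ a, ∃ δ : Fin r → ℤ, ‖x‖ = ‖y a‖ * ‖mon u δ‖) :
    ∃ c : ℝ, ∀ N : ℝ, 0 ≤ N → ∃ s : Finset ℝ, s.card ≤ e * Hc (wt u) (N + c) ∧
      ∀ x : L, Real.exp (-N) < ‖x‖ → (∃ β : Fin r → ℕ, ‖x‖ ^ n * ‖monN u β0‖ = ‖monN u β‖) →
        ‖x‖ ∈ s := by
  classical
  -- the exponents of the `n`-th powers
  let η : Fin e → Fin r → ℤ := fun a =>
    if h : ∃ η : Fin r → ℤ, ‖y a‖ ^ n = ‖mon u η‖ then h.choose else 0
  have hη : ∀ (a : Fin e) (ζ : Fin r → ℤ), ‖y a‖ ^ n = ‖mon u ζ‖ → ζ = η a := by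
    intro a ζ h
    have hex : ∃ η : Fin r → ℤ, ‖y a‖ ^ n = ‖mon u η‖ := ⟨ζ, h⟩
    have h1 : η a = hex.choose := dif_pos hex
    rw [h1]
    exact hu.inj (h.symm.trans hex.choose_spec)
  let M : ℕ := ∑ i, β0 i + ∑ a, ∑ i, (η a i).natAbs
  let μ : ℝ := ‖monN u (fun _ => M)‖
  have hmpos : ∀ β : Fin r → ℕ, 0 < ‖monN u β‖ := fun β => by
    rw [← mon_natCast]; exact norm_pos_iff.mpr (mon_ne_zero u hu.ne _)
  have hμ : 0 < μ := hmpos _
  let c : ℝ := ∑ a, |Real.log ‖y a‖| - Real.log μ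
  refine ⟨c, fun N _ => ?_⟩
  have hfin : {β : Fin r → ℕ | ∑ i, (β i : ℝ) * wt u i < N + c}.Finite :=
    Set.finite_coe_iff.mp (Hc_finite (wt u) hu.wt_pos (N + c))
  let s : Finset ℝ := ((Finset.univ : Finset (Fin e)) ×ˢ hfin.toFinset).image
    fun p => ‖y p.1‖ * ‖monN u p.2‖ / μ
  refine ⟨s, ?_, ?_⟩
  · refine Finset.card_image_le.trans ?_
    rw [Finset.card_product, Finset.card_univ, Fintype.card_fin, Hc,
      ← Nat.card_eq_card_finite_toFinset hfin]
    exact le_rfl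
  · rintro x hx ⟨β, hβ⟩
    have hx0 : x ≠ 0 := by
      rintro rfl
      rw [norm_zero] at hx
      exact absurd hx (not_lt.mpr (Real.exp_pos _).le)
    obtain ⟨a, d, had⟩ := hcl x hx0
    have h1 := hη a _ (S11_norm_pow_eq u hu β0 β d x (y a) had hβ)
    -- the shifted exponent
    have hd : ∀ i, 0 ≤ d i + M := by
      intro i
      have h2 := congrFun h1 i
      have h2' : (β i : ℤ) - β0 i - n * d i = η a i := h2
      have h3 : ((β0 i : ℤ) + (η a i).natAbs) ≤ M := by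
        have h4 : β0 i ≤ ∑ i, β0 i := Finset.single_le_sum (fun _ _ => Nat.zero_le _)
          (Finset.mem_univ i)
        have h5 : (η a i).natAbs ≤ ∑ i, (η a i).natAbs :=
          Finset.single_le_sum (f := fun i => (η a i).natAbs) (fun _ _ => Nat.zero_le _)
            (Finset.mem_univ i)
        have h6 : ∑ i, (η a i).natAbs ≤ ∑ a, ∑ i, (η a i).natAbs :=
          Finset.single_le_sum (f := fun a => ∑ i, (η a i).natAbs) (fun _ _ => Nat.zero_le _)
            (Finset.mem_univ a)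
        have h7 : β0 i + (η a i).natAbs ≤ M := Nat.add_le_add h4 (h5.trans h6)
        exact_mod_cast h7
      have h4 : η a i ≤ (η a i).natAbs := Int.le_natAbs
      have h5 : (0 : ℤ) ≤ β i := Int.natCast_nonneg _
      have hn1 : (1 : ℤ) ≤ n := by exact_mod_cast hn
      by_contra hneg
      rw [not_le] at hneg
      have h6 : d i < -M := by linarith
      have h7 : (n : ℤ) * d i ≤ d i := by nlinarith
      have h8 : (n : ℤ) * d i = β i - β0 i - η a i := by linarith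
      linarith
    let γ : Fin r → ℕ := fun i => (d i + M).toNat
    have hγ : d = (fun i => (γ i : ℤ)) + -(fun _ => (M : ℤ)) := by
      funext i
      show d i = ((d i + M).toNat : ℤ) + -(M : ℤ)
      rw [Int.toNat_of_nonneg (hd i)]
      ring
    have hxγ : ‖x‖ = ‖y a‖ * ‖monN u γ‖ / μ := by
      have hM : mon u (fun _ : Fin r => (M : ℤ)) = monN u (fun _ => M) :=
        mon_natCast u (fun _ => M)
      rw [had, hγ, mon_add u hu.ne, mon_neg, mon_natCast, hM, norm_mul, norm_inv,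
        div_eq_mul_inv, mul_assoc]
    refine Finset.mem_image.mpr ⟨(a, γ), ?_, hxγ.symm⟩
    rw [Finset.mem_product]
    refine ⟨Finset.mem_univ a, ?_⟩
    rw [Set.Finite.mem_toFinset]
    show ∑ i, (γ i : ℝ) * wt u i < N + c
    have hya : 0 < ‖y a‖ := norm_pos_iff.mpr (hy a)
    have h2 : -N < Real.log ‖x‖ := by
      rw [← Real.log_exp (-N)]
      exact Real.log_lt_log (Real.exp_pos _) hx
    have h3 : Real.log ‖x‖ = Real.log ‖y a‖ + Real.log ‖monN u γ‖ - Real.log μ := by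
      rw [hxγ, Real.log_div (mul_ne_zero hya.ne' (hmpos γ).ne') hμ.ne',
        Real.log_mul hya.ne' (hmpos γ).ne']
    have h4 : Real.log ‖monN u γ‖ = -∑ i, (γ i : ℝ) * wt u i := by
      rw [norm_monN hu.ne, Real.log_exp]
    have h5 : Real.log ‖y a‖ ≤ ∑ a, |Real.log ‖y a‖| :=
      (le_abs_self _).trans (Finset.single_le_sum (f := fun a => |Real.log ‖y a‖|)
        (fun _ _ => abs_nonneg _) (Finset.mem_univ a))
    have h6 : c = ∑ a, |Real.log ‖y a‖| - Real.log μ := rfl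
    rw [h6]
    linarith

end Pool.Agent.Lib.MP_3029eb_ag.Abh
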