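import Pool.Agent.Lib.MP_3029eb_ag.AbhDefs

/-!
Abhyankar part, module S4: basics on `lenq`.
-/

open IsLocalRing

namespace Pool.Agent.Lib.MP_3029eb_ag.Abh

/-- additivity of the length for `A ≤ B ≤ M` -/
theorem S4_length_quot {R M : Type*} [Ring R] [AddCommGroup M] [Module R M]
    (A B : Submodule R M) (h : A ≤ B) :
    Module.length R (M ⧸ A) =
      Module.length R (B ⧸ A.comap B.subtype) + Module.length R (M ⧸ B) := by
  refine Module.length_eq_add_of_exact
    (Submodule.mapQ (A.comap B.subtype) A B.subtype le_rfl)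
    (Submodule.mapQ A B LinearMap.id h) ?_ ?_ ?_
  · rw [← LinearMap.ker_eq_bot, Submodule.ker_mapQ]
    · rw [Submodule.eq_bot_iff]
      rintro x ⟨y, hy, rfl⟩
      rw [Submodule.mkQ_apply, Submodule.Quotient.mk_eq_zero]
      exact hy
  · intro x
    obtain ⟨y, rfl⟩ := Submodule.Quotient.mk_surjective _ x
    exact ⟨Submodule.Quotient.mk y, rfl⟩
  · intro x
    obtain ⟨y, rfl⟩ := Submodule.Quotient.mk_surjective _ x
    constructor
    · intro hy
      rw [Submodule.mapQ_apply, LinearMap.id_apply, Submodule.Quotient.mk_eq_zero] at hy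
      exact ⟨Submodule.Quotient.mk ⟨y, hy⟩, rfl⟩
    · rintro ⟨z, hz⟩
      obtain ⟨w, rfl⟩ := Submodule.Quotient.mk_surjective _ z
      rw [Submodule.mapQ_apply] at hz
      rw [← hz, Submodule.mapQ_apply, LinearMap.id_apply, Submodule.Quotient.mk_eq_zero]
      exact w.2

theorem S4_mapQ_injective {R M M' : Type*} [Ring R] [AddCommGroup M] [Module R M]
    [AddCommGroup M'] [Module R M'] (p : Submodule R M) (q : Submodule R M') (m : M →ₗ[R] M')
    (h : p = q.comap m) : Function.Injective (Submodule.mapQ p q m h.le) := by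
  intro x y hxy
  obtain ⟨x, rfl⟩ := Submodule.Quotient.mk_surjective _ x
  obtain ⟨y, rfl⟩ := Submodule.Quotient.mk_surjective _ y
  rw [Submodule.mapQ_apply, Submodule.mapQ_apply, Submodule.Quotient.eq, ← map_sub] at hxy
  rw [Submodule.Quotient.eq, h]
  exact hxy

section

variable (C : Type) {L : Type} [CommRing C] [NormedField L] [IsUltrametricDist L] [Algebra C L]
  [Bdd C L]

/-- the part of `X` of norm at most `q` -/
abbrev S4_part (X : Submodule C L) (q : ℝ) (hq : 0 ≤ q) : Submodule C X :=
  (ballLE C q hq : Submodule C L).comap X.subtype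

theorem S4_mem_part (X : Submodule C L) (q : ℝ) (hq : 0 ≤ q) (x : X) :
    x ∈ S4_part C X q hq ↔ ‖(x : L)‖ ≤ q := Iff.rfl

theorem lenq_mono {X Y : Submodule C L} (h : X ≤ Y) (N : ℝ) : lenq C X N ≤ lenq C Y N := by
  exact Module.length_le_of_injective _
    (S4_mapQ_injective (S4_part C X _ (Real.exp_pos (-N)).le)
      (S4_part C Y _ (Real.exp_pos (-N)).le) (Submodule.inclusion h) rfl)

theorem S4_len_mono_right (X : Submodule C L) {q g : ℝ} (hq : 0 ≤ q) (hg : 0 ≤ g) (h : q ≤ g) :
    Module.length C (X ⧸ S4_part C X g hg) ≤ Module.length C (X ⧸ S4_part C X q hq) := by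
  have hle : S4_part C X q hq ≤ S4_part C X g hg := fun x hx => le_trans hx h
  rw [S4_length_quot _ _ hle]
  exact le_add_self

theorem lenq_mono_right (X : Submodule C L) {N M : ℝ} (h : N ≤ M) :
    lenq C X N ≤ lenq C X M :=
  S4_len_mono_right C X _ _ (Real.exp_le_exp.2 (by linarith))

/-- the open unit ball inside the closed one -/
def S4_open : Submodule C (ballLE C 1 zero_le_one : Submodule C L) where
  carrier := {x | ‖(x : L)‖ < 1}
  add_mem' := fun {a b} ha hb =>
    lt_of_le_of_lt (IsUltrametricDist.norm_add_le_max (a : L) (b : L)) (max_lt ha hb)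
  zero_mem' := by
    show ‖((0 : (ballLE C 1 zero_le_one : Submodule C L)) : L)‖ < 1
    rw [ZeroMemClass.coe_zero, norm_zero]; exact zero_lt_one
  smul_mem' := fun c x hx => by
    show ‖((c • x : (ballLE C 1 zero_le_one : Submodule C L)) : L)‖ < 1
    rw [Submodule.coe_smul, Algebra.smul_def, norm_mul]
    exact lt_of_le_of_lt (mul_le_of_le_one_left (norm_nonneg _) (Bdd.le_one c)) hx

theorem S4_residue [IsLocalRing C] (hdom : Dom (algebraMap C L)) (f : ℕ) (w : Fin f → L)
    (hw : ∀ b, ‖w b‖ ≤ 1)
    (hspan : ∀ x : L, ‖x‖ ≤ 1 → ∃ c : Fin f → C, ‖x - ∑ b, algebraMap C L (c b) * w b‖ < 1) :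
    Module.length C ((ballLE C 1 zero_le_one : Submodule C L) ⧸ (S4_open C (L := L))) ≤ (f : ℕ∞) := by
  classical
  set B : Submodule C L := ballLE C 1 zero_le_one with hB
  set O : Submodule C B := S4_open C (L := L) with hO
  have hker : ∀ b : Fin f, maximalIdeal C ≤
      LinearMap.ker ((O.mkQ).comp (LinearMap.toSpanSingleton C B ⟨w b, hw b⟩)) := by
    intro b c hc
    rw [LinearMap.mem_ker, LinearMap.comp_apply, LinearMap.toSpanSingleton_apply,
      Submodule.mkQ_apply, Submodule.Quotient.mk_eq_zero]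
    show ‖((c • (⟨w b, hw b⟩ : B) : B) : L)‖ < 1
    rw [Submodule.coe_smul, Algebra.smul_def, norm_mul]
    exact lt_of_le_of_lt (mul_le_of_le_one_right (norm_nonneg _) (hw b)) ((hdom c).2.1 hc)
  let ψ : Fin f → (C ⧸ maximalIdeal C →ₗ[C] (B ⧸ O)) := fun b =>
    Submodule.liftQ (maximalIdeal C) ((O.mkQ).comp
      (LinearMap.toSpanSingleton C B ⟨w b, hw b⟩)) (hker b)
  have hψ : ∀ (b : Fin f) (c : C), ψ b (Submodule.Quotient.mk c) =
      Submodule.Quotient.mk (c • (⟨w b, hw b⟩ : B)) := fun b c => rfl
  let Ψ : (Fin f → C ⧸ maximalIdeal C) →ₗ[C] (B ⧸ O) :=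
    ∑ b, (ψ b).comp (LinearMap.proj b)
  have hsurj : Function.Surjective Ψ := by
    intro x
    obtain ⟨y, rfl⟩ := Submodule.Quotient.mk_surjective _ x
    obtain ⟨c, hc⟩ := hspan y y.2
    refine ⟨fun b => Submodule.Quotient.mk (c b), ?_⟩
    have h1 : Ψ (fun b => Submodule.Quotient.mk (c b)) =
        Submodule.Quotient.mk (∑ b, c b • (⟨w b, hw b⟩ : B)) := by
      show (∑ b, (ψ b).comp (LinearMap.proj b)) _ = _
      rw [LinearMap.sum_apply, ← Submodule.mkQ_apply, map_sum]
      rfl
    rw [h1, Submodule.Quotient.eq]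
    show ‖((∑ b, c b • (⟨w b, hw b⟩ : B) - y : B) : L)‖ < 1
    rw [Submodule.coe_sub, Submodule.coe_sum, norm_sub_rev]
    simp only [Submodule.coe_smul, Algebra.smul_def]
    exact hc
  refine (Module.length_le_of_surjective Ψ hsurj).trans ?_
  rw [Module.length_pi_of_fintype]
  have h1 : Module.length C (C ⧸ maximalIdeal C) = 1 := by
    rw [Module.length_eq_one_iff]
    exact isSimpleModule_iff_quot_maximal.2 ⟨maximalIdeal C, inferInstance, ⟨LinearEquiv.refl _ _⟩⟩
  simp [h1]

/-- upper bound by the number of values -/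
theorem lenq_upper [IsLocalRing C] (hdom : Dom (algebraMap C L)) (X : Submodule C L) (N : ℝ)
    (s : Finset ℝ)
    (hs : ∀ x ∈ X, Real.exp (-N) < ‖x‖ → ‖x‖ ∈ s) (f : ℕ) (w : Fin f → L)
    (hw : ∀ b, ‖w b‖ ≤ 1)
    (hspan : ∀ x : L, ‖x‖ ≤ 1 → ∃ c : Fin f → C, ‖x - ∑ b, algebraMap C L (c b) * w b‖ < 1) :
    lenq C X N ≤ ((s.card * f : ℕ) : ℕ∞) := by
  have key : ∀ (k : ℕ) (q : ℝ) (hq : 0 ≤ q) (s : Finset ℝ), s.card = k → (∀ g ∈ s, q < g) →
      (∀ x ∈ X, q < ‖x‖ → ‖x‖ ∈ s) →
      Module.length C (X ⧸ S4_part C X q hq) ≤ ((k * f : ℕ) : ℕ∞) := by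
    intro k
    induction k with
    | zero =>
      intro q hq s hk _ hs
      have hs0 : s = ∅ := Finset.card_eq_zero.1 hk
      have htop : S4_part C X q hq = ⊤ := by
        rw [eq_top_iff]
        intro x _
        rw [S4_mem_part]
        by_contra hx
        have := hs x x.2 (not_le.1 hx)
        rw [hs0] at this
        exact absurd this (Finset.notMem_empty _)
      rw [htop]
      have : Subsingleton (X ⧸ (⊤ : Submodule C X)) := inferInstance
      rw [Module.length_eq_zero]
      exact zero_le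
    | succ k ih =>
      intro q hq s hk hsq hs
      have hne : s.Nonempty := by
        rw [← Finset.card_pos, hk]; omega
      set g := s.min' hne with hg
      have hgs : g ∈ s := s.min'_mem hne
      have hqg : q < g := hsq g hgs
      have hg0 : 0 < g := lt_of_le_of_lt hq hqg
      have h1 := ih g hg0.le (s.erase g) (by rw [Finset.card_erase_of_mem hgs, hk]; rfl)
        (fun g' hg' => lt_of_le_of_ne (s.min'_le g' (Finset.mem_of_mem_erase hg'))
          (Finset.ne_of_mem_erase hg').symm)
        (fun x hx hgx => Finset.mem_erase.2 ⟨hgx.ne', hs x hx (hqg.trans hgx)⟩)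
      have hle : S4_part C X q hq ≤ S4_part C X g hg0.le := fun x hx => le_trans hx hqg.le
      rw [S4_length_quot _ _ hle]
      have h3 : (f : ℕ∞) + ((k * f : ℕ) : ℕ∞) = (((k + 1) * f : ℕ) : ℕ∞) := by
        push_cast
        ring
      rw [← h3]
      refine add_le_add ?_ h1
      · show _ ≤ (f : ℕ∞)
        by_cases hex : ∃ x0 : L, ‖x0‖ = g
        · obtain ⟨x0, hx0⟩ := hex
          have hx0' : x0 ≠ 0 := by
            rintro rfl
            rw [norm_zero] at hx0
            exact hg0.ne hx0
          refine le_trans ?_ (S4_residue C hdom f w hw hspan)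
          let m : S4_part C X g hg0.le →ₗ[C] (ballLE C 1 zero_le_one : Submodule C L) :=
            { toFun := fun x => ⟨x0⁻¹ * ((x : X) : L), by
                show ‖x0⁻¹ * ((x : X) : L)‖ ≤ 1
                rw [norm_mul, norm_inv, hx0, inv_mul_le_one₀ hg0]
                exact x.2⟩
              map_add' := fun x y => by
                apply Subtype.ext
                show x0⁻¹ * (((x : X) : L) + ((y : X) : L)) = x0⁻¹ * ((x : X) : L) + x0⁻¹ * ((y : X) : L)
                rw [mul_add]
              map_smul' := fun c x => by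
                apply Subtype.ext
                show x0⁻¹ * (c • ((x : X) : L)) = c • (x0⁻¹ * ((x : X) : L))
                rw [mul_smul_comm] }
          have hm : ∀ x, ((m x : (ballLE C 1 zero_le_one : Submodule C L)) : L) =
              x0⁻¹ * ((x : X) : L) := fun x => rfl
          have hmem : ∀ x : S4_part C X g hg0.le,
              x ∈ (S4_part C X q hq).comap (S4_part C X g hg0.le).subtype ↔
                m x ∈ (S4_open C (L := L)) := by
            intro x
            have e1 : x ∈ (S4_part C X q hq).comap (S4_part C X g hg0.le).subtype ↔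
                ‖((x : X) : L)‖ ≤ q := Iff.rfl
            have e2 : m x ∈ (S4_open C (L := L)) ↔ ‖x0⁻¹ * ((x : X) : L)‖ < 1 := Iff.rfl
            rw [e1, e2, norm_mul, norm_inv, hx0, inv_mul_lt_one₀ hg0]
            constructor
            · intro h; exact lt_of_le_of_lt h hqg
            · intro h
              by_contra hn
              have h3 := hs ((x : X) : L) (x : X).2 (not_le.1 hn)
              exact absurd (s.min'_le _ h3) (not_le.2 h)
          exact Module.length_le_of_injective _
            (S4_mapQ_injective _ (S4_open C (L := L)) m (Submodule.ext hmem))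
        · have htop : (S4_part C X q hq).comap (S4_part C X g hg0.le).subtype = ⊤ := by
            rw [eq_top_iff]
            intro x _
            show ‖((x : X) : L)‖ ≤ q
            by_contra hn
            have h3 := hs ((x : X) : L) (x : X).2 (not_le.1 hn)
            have h4 : g ≤ ‖((x : X) : L)‖ := s.min'_le _ h3
            have h5 : ‖((x : X) : L)‖ ≤ g := x.2
            exact hex ⟨_, le_antisymm h5 h4⟩
          rw [htop, Module.length_eq_zero]
          exact zero_le
  have hs' : ∀ x ∈ X, Real.exp (-N) < ‖x‖ → ‖x‖ ∈ s.filter (fun g => Real.exp (-N) < g) :=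
    fun x hx h => Finset.mem_filter.2 ⟨hs x hx h, h⟩
  refine (key _ (Real.exp (-N)) (Real.exp_pos _).le (s.filter (fun g => Real.exp (-N) < g)) rfl
    (fun g hg => (Finset.mem_filter.1 hg).2) hs').trans ?_
  have : (s.filter (fun g => Real.exp (-N) < g)).card ≤ s.card := Finset.card_filter_le _ _
  exact_mod_cast Nat.mul_le_mul_right f this

end

end Pool.Agent.Lib.MP_3029eb_ag.Abh
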