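import Pool.Agent.Lib.MP_3029eb_ag.AbhDefs

/-!
# Module S7: the norm equivalence over a closed subfield
-/

set_option autoImplicit false

open Filter Topology

namespace Pool.Agent.Lib.MP_3029eb_ag.Abh

section

variable {L : Type} [NontriviallyNormedField L]

/-- a subfield with a small element is a nontrivially normed field -/
@[reducible] def S7_nnf (F : Subfield L) (hF1 : ∃ x ∈ F, x ≠ 0 ∧ ‖x‖ < 1) :
    NontriviallyNormedField F :=
  { (inferInstance : NormedField F) with
    non_trivial := by
      obtain ⟨x, hx, h0, h1⟩ := hF1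
      refine ⟨⟨x⁻¹, F.inv_mem hx⟩, ?_⟩
      show 1 < ‖x⁻¹‖
      rw [norm_inv]
      exact (one_lt_inv₀ (norm_pos_iff.2 h0)).2 h1 }

/-- `L` is a normed space over a subfield -/
@[reducible] def S7_ns (F : Subfield L) : NormedSpace F L :=
  { (inferInstance : Module F L) with
    norm_smul_le := fun a x => by
      show ‖(a : L) * x‖ ≤ ‖(a : L)‖ * ‖x‖
      rw [norm_mul] }

theorem S7_complete [CompleteSpace L] (F : Subfield L) (hF : IsClosed (F : Set L)) :
    CompleteSpace F := hF.completeSpace_coe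

end

theorem exists_norm_bound {L : Type} [NontriviallyNormedField L] [IsUltrametricDist L]
    [CompleteSpace L] (F : Subfield L) (hF : IsClosed (F : Set L))
    (hF1 : ∃ x ∈ F, x ≠ 0 ∧ ‖x‖ < 1) {n : ℕ} (b : Fin n → L) (hb : LinearIndependent F b) :
    ∃ c : ℝ, ∀ l : Fin n → F, ∀ i, ‖(l i : L)‖ ≤ Real.exp c * ‖∑ j, (l j : L) * b j‖ := by
  let _i := S7_nnf F hF1
  let _i := S7_ns F
  have _c : CompleteSpace F := S7_complete F hF
  let f : (Fin n → F) →ₗ[F] L := Fintype.linearCombination F b
  have hf : LinearMap.ker f = ⊥ := by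
    rw [LinearMap.ker_eq_bot]
    exact linearIndependent_iff_injective_fintypeLinearCombination.1 hb
  obtain ⟨K, hK0, hK⟩ := f.exists_antilipschitzWith hf
  refine ⟨Real.log K, fun l i => ?_⟩
  have h1 := hK.le_mul_dist l 0
  rw [dist_zero_right, map_zero, dist_zero_right] at h1
  have h2 : ‖(l i : L)‖ ≤ ‖l‖ := norm_le_pi_norm l i
  have h3 : f l = ∑ j, (l j : L) * b j := by
    simp only [f, Fintype.linearCombination_apply]
    rfl
  have h4 : Real.exp (Real.log K) = (K : ℝ) := Real.exp_log (by exact_mod_cast hK0)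
  rw [h4, ← h3]
  exact h2.trans h1

theorem isClosed_span {L : Type} [NontriviallyNormedField L] [IsUltrametricDist L]
    [CompleteSpace L] (F : Subfield L) (hF : IsClosed (F : Set L))
    (hF1 : ∃ x ∈ F, x ≠ 0 ∧ ‖x‖ < 1) (X : Submodule F L) [Module.Finite F X] :
    IsClosed (X : Set L) := by
  let _i := S7_nnf F hF1
  let _i := S7_ns F
  have _c : CompleteSpace F := S7_complete F hF
  exact Submodule.closed_of_finiteDimensional X

/-- the norm formula -/
theorem norm_norm {L : Type} [NontriviallyNormedField L] [IsUltrametricDist L]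
    [CompleteSpace L] (F : Subfield L) (hF : IsClosed (F : Set L))
    (hF1 : ∃ x ∈ F, x ≠ 0 ∧ ‖x‖ < 1) [Module.Finite F L] (z : L) :
    ‖((Algebra.norm F z : F) : L)‖ = ‖z‖ ^ Module.finrank F L := by
  let _i := S7_nnf F hF1
  let _i := S7_ns F
  have _c : CompleteSpace F := S7_complete F hF
  have hn : 0 < Module.finrank F L := Module.finrank_pos
  -- continuity of the norm
  have hcont : Continuous (fun z : L => Algebra.norm F z) := by
    let b := Module.finBasis F L
    have h1 : (fun z : L => Algebra.norm F z) = fun z => (Algebra.leftMulMatrix b z).det := by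
      funext z
      exact Algebra.norm_eq_matrix_det b z
    rw [h1]
    refine Continuous.matrix_det ?_
    let g : L →ₗ[F] Matrix (Fin (Module.finrank F L)) (Fin (Module.finrank F L)) F :=
      (Algebra.leftMulMatrix b).toLinearMap
    refine continuous_matrix fun i j => ?_
    let gij : L →ₗ[F] F :=
      { toFun := fun z => Algebra.leftMulMatrix b z i j
        map_add' := fun x y => by rw [map_add]; rfl
        map_smul' := fun c x => by rw [map_smul]; rfl }
    exact gij.continuous_of_finiteDimensional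
  have key : ∀ c : L, Algebra.norm F c = 1 → ¬ ‖c‖ < 1 := by
    intro c hc hlt
    have h1 : Tendsto (fun j : ℕ => c ^ j) atTop (𝓝 0) := tendsto_pow_atTop_nhds_zero_of_norm_lt_one hlt
    have h2 : Tendsto (fun j : ℕ => Algebra.norm F (c ^ j)) atTop (𝓝 (Algebra.norm F (0 : L))) :=
      (hcont.tendsto 0).comp h1
    have h3 : (fun j : ℕ => Algebra.norm F (c ^ j)) = fun _ => 1 := by
      funext j
      rw [map_pow, hc, one_pow]
    rw [h3] at h2
    have h4 : Algebra.norm F (0 : L) = 0 := Algebra.norm_zero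
    rw [h4] at h2
    exact one_ne_zero (tendsto_nhds_unique tendsto_const_nhds h2)
  by_cases hz : z = 0
  · subst hz
    rw [Algebra.norm_zero, norm_zero, zero_pow hn.ne']
    exact norm_zero
  have hN : Algebra.norm F z ≠ 0 := Algebra.norm_ne_zero_iff.2 hz
  set n := Module.finrank F L with hnd
  set a : F := Algebra.norm F z with ha
  have hc : Algebra.norm F (z ^ n * ((a⁻¹ : F) : L)) = 1 := by
    have h1 : ((a⁻¹ : F) : L) = algebraMap F L (a⁻¹) := rfl
    rw [map_mul, map_pow, h1, Algebra.norm_algebraMap, ← ha, ← hnd, inv_pow]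
    exact mul_inv_cancel₀ (pow_ne_zero _ hN)
  have h1 := key _ hc
  have hc2 : Algebra.norm F ((z ^ n * ((a⁻¹ : F) : L))⁻¹) = 1 := by
    have h7 : Algebra.norm F ((z ^ n * ((a⁻¹ : F) : L)) * (z ^ n * ((a⁻¹ : F) : L))⁻¹) = 1 := by
      rw [mul_inv_cancel₀, map_one]
      intro h0
      rw [h0, Algebra.norm_zero] at hc
      exact zero_ne_one hc
    rw [map_mul, hc, one_mul] at h7
    exact h7
  have h2 := key _ hc2
  have hne : z ^ n * ((a⁻¹ : F) : L) ≠ 0 := by
    intro h0
    rw [h0, Algebra.norm_zero] at hc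
    exact zero_ne_one hc
  have h3 : ‖z ^ n * ((a⁻¹ : F) : L)‖ = 1 := by
    refine le_antisymm ?_ (not_lt.1 h1)
    by_contra h4
    push Not at h4
    apply h2
    rw [norm_inv]
    exact inv_lt_one_of_one_lt₀ h4
  have h5 : ((a⁻¹ : F) : L) = ((a : L))⁻¹ := rfl
  rw [h5, norm_mul, norm_inv, norm_pow] at h3
  have h6 : ‖(a : L)‖ ≠ 0 := by
    rw [norm_ne_zero_iff]
    exact fun h => hN (Subtype.ext h)
  field_simp at h3
  exact h3.symm

end Pool.Agent.Lib.MP_3029eb_ag.Abh
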