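import Pool.Agent.Lib.MP_3029eb_ag.AbhDefs
import Pool.Agent.Lib.MP_3029eb_ag.AbhS1
import Pool.Agent.Lib.MP_3029eb_ag.AbhS2
import Pool.Agent.Lib.MP_3029eb_ag.AbhS5
import Pool.Agent.Lib.MP_3029eb_ag.AbhS7

/-!
# Module S9: finiteness of `L` over the closure
-/

set_option autoImplicit false

open Filter Topology

namespace Pool.Agent.Lib.MP_3029eb_ag.Abh

theorem S9_mem_clF (C : Type) {L : Type} [CommRing C] [NormedField L] [Algebra C L]
    {r : ℕ} (u : Fin r → L) (i : Fin r) : u i ∈ clF C u := by
  have h1 : u i ∈ Subfield.closure (((algebraMap C L).range : Set L) ∪ Set.range u) :=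
    Subfield.subset_closure (Or.inr ⟨i, rfl⟩)
  exact Subfield.le_topologicalClosure _ h1

theorem S9_algebraMap_mem_clF (C : Type) {L : Type} [CommRing C] [NormedField L] [Algebra C L]
    {r : ℕ} (u : Fin r → L) (c : C) : algebraMap C L c ∈ clF C u := by
  have h1 : algebraMap C L c ∈
      Subfield.closure (((algebraMap C L).range : Set L) ∪ Set.range u) :=
    Subfield.subset_closure (Or.inl ⟨c, rfl⟩)
  exact Subfield.le_topologicalClosure _ h1

theorem S9_adjoin_le_clF (C : Type) {L : Type} [CommRing C] [NormedField L] [Algebra C L]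
    {r : ℕ} (u : Fin r → L) (x : L) (hx : x ∈ Algebra.adjoin C (Set.range u)) :
    x ∈ clF C u := by
  induction hx using Algebra.adjoin_induction with
  | mem x hx => obtain ⟨i, rfl⟩ := hx; exact S9_mem_clF C u i
  | algebraMap c => exact S9_algebraMap_mem_clF C u c
  | add x y _ _ hx hy => exact (clF C u).add_mem hx hy
  | mul x y _ _ hx hy => exact (clF C u).mul_mem hx hy

theorem S9_isClosed (C : Type) {L : Type} [CommRing C] [NormedField L] [Algebra C L]
    {r : ℕ} (u : Fin r → L) : IsClosed ((clF C u : Subfield L) : Set L) :=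
  Subfield.isClosed_topologicalClosure _

theorem finite_clF (C : Type) {L : Type} [CommRing C] [IsLocalRing C] [NontriviallyNormedField L]
    [IsUltrametricDist L] [CompleteSpace L] [Algebra C L] [Bdd C L] {r : ℕ} (hr : 0 < r)
    (u : Fin r → L)
    (hC : Coef C u) (D : Subring L) (hCD : ∀ c, algebraMap C L c ∈ D) (huD : ∀ i, u i ∈ D)
    (K0 : ℝ) (hK0 : ∀ X : Submodule C L, (∀ x ∈ X, x ∈ D) → ∀ N : ℝ, 0 ≤ N →
      ∃ ℓ : ℕ, lenq C X N = ℓ ∧ (ℓ : ℝ) ≤ K0 * (N + 1) ^ r)
    (hdense : ∀ (z : L) (ε : ℝ), 0 < ε → ∃ a ∈ D, ∃ b ∈ D, b ≠ 0 ∧ ‖z - a / b‖ < ε) :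
    Module.Finite (clF C u) L ∧ Submodule.span (clF C u) (D : Set L) = ⊤ := by
  classical
  have hclosed : IsClosed ((clF C u : Subfield L) : Set L) := S9_isClosed C u
  have hF1 : ∃ x ∈ clF C u, x ≠ 0 ∧ ‖x‖ < 1 :=
    ⟨u ⟨0, hr⟩, S9_mem_clF C u _, hC.indep.ne _, hC.indep.lt _⟩
  -- `D` as a module over `C`
  let X : Submodule C L :=
    { carrier := D
      add_mem' := fun ha hb => D.add_mem ha hb
      zero_mem' := D.zero_mem
      smul_mem' := fun c x hx => by
        rw [Algebra.smul_def]
        exact D.mul_mem (hCD c) hx }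
  have hadjD : ∀ x ∈ Algebra.adjoin C (Set.range u), x ∈ D := by
    intro x hx
    induction hx using Algebra.adjoin_induction with
    | mem x hx => obtain ⟨i, rfl⟩ := hx; exact huD i
    | algebraMap c => exact hCD c
    | add x y _ _ hx hy => exact D.add_mem hx hy
    | mul x y _ _ hx hy => exact D.mul_mem hx hy
  obtain ⟨n0, hn0⟩ := Hc_bound (wt u) (fun i => hC.indep.wt_pos i) K0
  -- independent families in `D` are bounded
  have hbd : ∀ (n : ℕ) (b : Fin n → L), (∀ i, b i ∈ D) → LinearIndependent (clF C u) b →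
      n ≤ n0 := by
    intro n b hbD hb
    obtain ⟨c, hc⟩ := exists_norm_bound (clF C u) hclosed hF1 b hb
    refine hn0 n c fun N hN => ?_
    obtain ⟨ℓ, h1, h2⟩ := hK0 X (fun x hx => hx) N hN
    have h3 := lenq_lower C hC.dom u hC.indep b c (fun l hl i => by
      have := hc (fun j => ⟨l j, S9_adjoin_le_clF C u _ (hl j)⟩) i
      exact this) X (fun l hl => D.sum_mem fun j _ => D.mul_mem (hadjD _ (hl j)) (hbD j)) N
    rw [h1] at h3
    have h4 : n * Hc (wt u) (N - c) ≤ ℓ := by exact_mod_cast h3
    have h5 : ((n * Hc (wt u) (N - c) : ℕ) : ℝ) ≤ (ℓ : ℝ) := by exact_mod_cast h4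
    push_cast at h5
    linarith
  -- the algebra generated by `D`
  let W : Subalgebra (clF C u) L := Algebra.adjoin (clF C u) (D : Set L)
  have hWspan : Subalgebra.toSubmodule W = Submodule.span (clF C u) (D : Set L) := by
    have h1 : (Submonoid.closure (D : Set L) : Set L) = D := by
      have h2 : Submonoid.closure (D : Set L) = D.toSubmonoid :=
        le_antisymm (Submonoid.closure_le.2 fun x hx => hx) Submonoid.subset_closure
      rw [h2]; rfl
    rw [Algebra.adjoin_eq_span, h1]
  have hfin : Module.Finite (clF C u) (Submodule.span (clF C u) (D : Set L)) := by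
    obtain ⟨s, hsD, hspan, hli⟩ := exists_linearIndependent (clF C u) (D : Set L)
    have hsfin : s.Finite := by
      by_contra hinf
      have hinf' : s.Infinite := hinf
      obtain ⟨t, hts, htc⟩ := hinf'.exists_subset_card_eq (n0 + 1)
      let e : Fin (n0 + 1) ≃ t := (t.equivFinOfCardEq htc).symm
      have h1 : LinearIndependent (clF C u) (fun i : Fin (n0 + 1) => ((e i : t) : L)) := by
        have h2 : LinearIndependent (clF C u) (fun x : t => (x : L)) :=
          hli.comp (fun x : t => (⟨x.1, hts x.2⟩ : s)) (fun a b h => by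
            have := congrArg (fun z : s => z.1) h
            exact Subtype.ext this)
        exact h2.comp e e.injective
      have h3 := hbd (n0 + 1) _ (fun i => hsD (hts (e i).2)) h1
      omega
    rw [← hspan]
    exact Module.Finite.span_of_finite (clF C u) hsfin
  have hfinW : Module.Finite (clF C u) (Subalgebra.toSubmodule W) := by
    rw [hWspan]; exact hfin
  have hWclosed : IsClosed ((Subalgebra.toSubmodule W : Submodule (clF C u) L) : Set L) :=
    isClosed_span (clF C u) hclosed hF1 _
  have hDW : ∀ x ∈ D, x ∈ W := fun x hx => Algebra.subset_adjoin hx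
  haveI : Module.Finite (clF C u) W := hfinW
  haveI : Algebra.IsAlgebraic (clF C u) W := Algebra.IsAlgebraic.of_finite _ _
  have hinv : ∀ x ∈ D, x⁻¹ ∈ W := by
    intro x hx
    have h1 : IsAlgebraic (clF C u) x := by
      have h2 : IsAlgebraic (clF C u) (⟨x, hDW x hx⟩ : W) :=
        Algebra.IsAlgebraic.isAlgebraic _
      exact (isAlgebraic_algHom_iff W.val Subtype.val_injective).2 h2
    exact W.inv_mem_of_algebraic (x := ⟨x, hDW x hx⟩) h1
  have htop : W = ⊤ := by
    refine eq_top_iff.2 fun z _ => ?_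
    have h1 : z ∈ closure ((Subalgebra.toSubmodule W : Submodule (clF C u) L) : Set L) := by
      rw [Metric.mem_closure_iff]
      intro ε hε
      obtain ⟨a, ha, b, hb, hb0, hab⟩ := hdense z ε hε
      refine ⟨a / b, ?_, ?_⟩
      · rw [div_eq_mul_inv]
        exact W.mul_mem (hDW a ha) (hinv b hb)
      · rw [dist_eq_norm]; exact hab
    rw [hWclosed.closure_eq] at h1
    exact h1
  have hspan_top : Submodule.span (clF C u) (D : Set L) = ⊤ := by
    rw [← hWspan, htop]
    exact Algebra.top_toSubmodule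
  refine ⟨?_, hspan_top⟩
  rw [hspan_top] at hfin
  exact Module.Finite.equiv (Submodule.topEquiv (R := clF C u) (M := L))

end Pool.Agent.Lib.MP_3029eb_ag.Abh
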