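import Pool.Agent.Lib.MP_3029eb_ag.AbhS1
import Pool.Agent.Lib.MP_3029eb_ag.AbhS4
import Pool.Agent.Lib.MP_3029eb_ag.AbhS5
import Pool.Agent.Lib.MP_3029eb_ag.AbhS7
import Pool.Agent.Lib.MP_3029eb_ag.AbhS8
import Pool.Agent.Lib.MP_3029eb_ag.AbhS9
import Pool.Agent.Lib.MP_3029eb_ag.AbhS10
import Pool.Agent.Lib.MP_3029eb_ag.AbhS11

/-!
Module S12: the structure theorem.
-/

open IsLocalRing

namespace Pool.Agent.Lib.MP_3029eb_ag.Abh
open Pool.Agent.Lib.MP_3029eb_ag

/-- representatives of distinct classes of values -/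
def S12_ValY {L : Type} [NormedField L] {r : ℕ} (u : Fin r → L) {e : ℕ} (y : Fin e → L) : Prop :=
  (∀ a, y a ≠ 0) ∧ ∀ a a' : Fin e, ∀ δ : Fin r → ℤ, ‖y a‖ = ‖y a'‖ * ‖mon u δ‖ → a = a'

/-- elements with independent residues -/
def S12_ValW (C : Type) {L : Type} [CommRing C] [NormedField L] [Algebra C L] {f : ℕ}
    (w : Fin f → L) : Prop :=
  (∀ b, ‖w b‖ ≤ 1) ∧
    ∀ c : Fin f → C, ‖∑ b, algebraMap C L (c b) * w b‖ < 1 → ∀ b, ¬ IsUnit (c b)

theorem S12_norm_sub_le {L : Type} [NormedField L] [IsUltrametricDist L] (a b : L) :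
    ‖a - b‖ ≤ max ‖a‖ ‖b‖ := by
  rw [sub_eq_add_neg, ← norm_neg b]
  exact IsUltrametricDist.norm_add_le_max _ _

theorem S12_norm_sum_lt {L : Type} [NormedField L] [IsUltrametricDist L] {ι : Type}
    (s : Finset ι) (g : ι → L) (q : ℝ) (hq : 0 < q) (h : ∀ i ∈ s, ‖g i‖ < q) :
    ‖∑ i ∈ s, g i‖ < q := by
  classical
  induction s using Finset.induction_on with
  | empty => simpa using hq
  | insert a s ha ih =>
    rw [Finset.sum_insert ha]
    exact (IsUltrametricDist.norm_add_le_max _ _).trans_lt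
      (max_lt (h a (Finset.mem_insert_self _ _))
        (ih fun i hi => h i (Finset.mem_insert_of_mem hi)))

theorem S12_norm_unit {C L : Type} [CommRing C] [IsLocalRing C] [NormedField L] [Algebra C L]
    (hdom : Dom (algebraMap C L)) {c : C} (hc : IsUnit c) : ‖algebraMap C L c‖ = 1 := by
  refine le_antisymm (hdom c).1 ?_
  by_contra h
  have h1 := ((hdom c).2).2 (lt_of_not_ge h)
  exact (IsLocalRing.notMem_maximalIdeal.2 hc) h1

theorem S12_norm_nonunit {C L : Type} [CommRing C] [IsLocalRing C] [NormedField L] [Algebra C L]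
    (hdom : Dom (algebraMap C L)) {c : C} (hc : ¬ IsUnit c) : ‖algebraMap C L c‖ < 1 :=
  ((hdom c).2).1 ((IsLocalRing.mem_maximalIdeal c).2 hc)

/-- a family that cannot be extended meets all classes of values -/
theorem S12_hcl {L : Type} [NormedField L] {r : ℕ} (u : Fin r → L) (hu : ∀ i, u i ≠ 0) {e : ℕ}
    (y : Fin e → L) (hy : S12_ValY u y) (hmax : ∀ y' : Fin (e + 1) → L, ¬ S12_ValY u y') (x : L)
    (hx : x ≠ 0) : ∃ a, ∃ δ : Fin r → ℤ, ‖x‖ = ‖y a‖ * ‖mon u δ‖ := by
  by_contra hcon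
  push Not at hcon
  apply hmax (Fin.snoc y x)
  constructor
  · intro a
    refine Fin.lastCases ?_ (fun a => ?_) a
    · simpa using hx
    · simpa using hy.1 a
  · intro a a' δ
    refine Fin.lastCases ?_ (fun a => ?_) a
    · refine Fin.lastCases ?_ (fun a' => ?_) a'
      · intro _; rfl
      · intro h
        simp only [Fin.snoc_last, Fin.snoc_castSucc] at h
        exact absurd h (hcon a' δ)
    · refine Fin.lastCases ?_ (fun a' => ?_) a'
      · intro h
        simp only [Fin.snoc_last, Fin.snoc_castSucc] at h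
        exfalso
        apply hcon a (-δ)
        rw [mon_neg, norm_inv, h, mul_assoc, mul_inv_cancel₀, mul_one]
        exact norm_ne_zero_iff.2 (mon_ne_zero u hu δ)
      · intro h
        simp only [Fin.snoc_castSucc] at h
        rw [hy.2 a a' δ h]

/-- a family that cannot be extended spans the residue field -/
theorem S12_hspan {C L : Type} [CommRing C] [IsLocalRing C] [NormedField L] [IsUltrametricDist L]
    [Algebra C L] (hdom : Dom (algebraMap C L)) {f : ℕ}
    (w : Fin f → L) (hw : S12_ValW C w) (hmax : ∀ w' : Fin (f + 1) → L, ¬ S12_ValW C w') (x : L)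
    (hx : ‖x‖ ≤ 1) : ∃ c : Fin f → C, ‖x - ∑ b, algebraMap C L (c b) * w b‖ < 1 := by
  by_contra hcon
  push Not at hcon
  apply hmax (Fin.snoc w x)
  constructor
  · intro a
    refine Fin.lastCases ?_ (fun a => ?_) a
    · simpa using hx
    · simpa using hw.1 a
  · intro c hc
    rw [Fin.sum_univ_castSucc] at hc
    simp only [Fin.snoc_last, Fin.snoc_castSucc] at hc
    have hlast : ¬ IsUnit (c (Fin.last f)) := by
      intro hun
      obtain ⟨v, hv⟩ := hun
      have h1 := hcon (fun b => -((v⁻¹ : Cˣ) : C) * c b.castSucc)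
      have hv1 : ‖algebraMap C L ((v⁻¹ : Cˣ) : C)‖ = 1 := S12_norm_unit hdom (Units.isUnit _)
      have hvv : algebraMap C L ((v⁻¹ : Cˣ) : C) * algebraMap C L (c (Fin.last f)) = 1 := by
        rw [← map_mul, ← hv, Units.inv_mul, map_one]
      have h2 : x - ∑ b : Fin f, algebraMap C L (-((v⁻¹ : Cˣ) : C) * c b.castSucc) * w b =
          algebraMap C L ((v⁻¹ : Cˣ) : C) *
            (∑ b : Fin f, algebraMap C L (c b.castSucc) * w b +
              algebraMap C L (c (Fin.last f)) * x) := by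
        rw [mul_add, ← mul_assoc, hvv, one_mul, Finset.mul_sum]
        have : ∑ b : Fin f, algebraMap C L (-((v⁻¹ : Cˣ) : C) * c b.castSucc) * w b =
            - ∑ b : Fin f, algebraMap C L ((v⁻¹ : Cˣ) : C) *
              (algebraMap C L (c b.castSucc) * w b) := by
          rw [← Finset.sum_neg_distrib]
          refine Finset.sum_congr rfl fun b _ => ?_
          rw [map_mul, map_neg]; ring
        rw [this]; ring
      rw [h2, norm_mul, hv1, one_mul] at h1
      exact absurd hc (not_lt.2 h1)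
    have h3 : ‖algebraMap C L (c (Fin.last f)) * x‖ < 1 := by
      rw [norm_mul]
      exact mul_lt_one_of_nonneg_of_lt_one_left (norm_nonneg _) (S12_norm_nonunit hdom hlast) hx
    have h4 : ‖∑ b : Fin f, algebraMap C L (c b.castSucc) * w b‖ < 1 := by
      have h5 : ∑ b : Fin f, algebraMap C L (c b.castSucc) * w b =
          (∑ b : Fin f, algebraMap C L (c b.castSucc) * w b +
              algebraMap C L (c (Fin.last f)) * x) - algebraMap C L (c (Fin.last f)) * x := by
        ring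
      rw [h5]
      exact (S12_norm_sub_le _ _).trans_lt (max_lt hc h3)
    intro b
    refine Fin.lastCases hlast (fun b => ?_) b
    exact hw.2 (fun b => c b.castSucc) h4 b

section

variable (C : Type) {L : Type} [CommRing C] [IsLocalRing C] [NontriviallyNormedField L]
  [IsUltrametricDist L] [CompleteSpace L] [Algebra C L] [Bdd C L] {r : ℕ} (u : Fin r → L)
  (hC : Coef C u)

include hC

theorem S12_linearIndependent {e f : ℕ} (y : Fin e → L) (hy : S12_ValY u y) (w : Fin f → L)
    (hw : S12_ValW C w) :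
    LinearIndependent (clF C u) (fun p : Fin e × Fin f => y p.1 * w p.2) := by
  rw [Fintype.linearIndependent_iff]
  intro g hg p
  have h1 := orthogonal C u hC y hy.1 hy.2 w hw.1 hw.2 (fun a b => (g (a, b) : L))
    (fun a b => (g (a, b)).2) p.1 p.2
  have h2 : ∑ a, ∑ b, ((g (a, b) : clF C u) : L) * (y a * w b) = 0 := by
    rw [← Fintype.sum_prod_type']
    rw [← hg]
    rfl
  rw [h2, norm_zero] at h1
  have h3 : ((g (p.1, p.2) : clF C u) : L) * y p.1 = 0 := norm_le_zero_iff.1 h1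
  rcases mul_eq_zero.1 h3 with h | h
  · exact Subtype.ext h
  · exact absurd h (hy.1 _)

theorem S12_card_le [Module.Finite (clF C u) L] {e f : ℕ} (y : Fin e → L) (hy : S12_ValY u y)
    (w : Fin f → L) (hw : S12_ValW C w) : e * f ≤ Module.finrank (clF C u) L := by
  have h := (S12_linearIndependent C u hC y hy w hw).fintype_card_le_finrank
  simpa using h

end

theorem S12_valY_one {L : Type} [NormedField L] {r : ℕ} (u : Fin r → L) :
    S12_ValY u (fun _ : Fin 1 => (1 : L)) :=
  ⟨fun _ => one_ne_zero, fun a a' _ _ => Subsingleton.elim a a'⟩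

theorem S12_valW_one {C L : Type} [CommRing C] [IsLocalRing C] [NormedField L] [Algebra C L]
    (hdom : Dom (algebraMap C L)) : S12_ValW C (fun _ : Fin 1 => (1 : L)) := by
  refine ⟨fun _ => by rw [norm_one], fun c hc b hb => ?_⟩
  rw [Fin.sum_univ_one, mul_one] at hc
  rw [Subsingleton.elim b 0] at hb
  rw [S12_norm_unit hdom hb] at hc
  exact lt_irrefl _ hc

/-- a bounded nonempty property of natural numbers has a largest element -/
theorem S12_exists_max (P : ℕ → Prop) (n0 : ℕ) (hb : ∀ n, P n → n ≤ n0) (k : ℕ) (hk : P k) :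
    ∃ e, P e ∧ ¬ P (e + 1) := by
  by_contra hcon
  push Not at hcon
  have h : ∀ n, P (k + n) := by
    intro n
    induction n with
    | zero => simpa using hk
    | succ n ih => exact hcon _ ih
  have := hb _ (h (n0 + 1))
  omega

theorem structure_theorem (C : Type) {L : Type} [CommRing C] [IsLocalRing C]
    [NontriviallyNormedField L] [IsUltrametricDist L] [CompleteSpace L] [Algebra C L] [Bdd C L]
    {r : ℕ} (hr : 0 < r) (u : Fin r → L) (hC : Coef C u) (D : Subring L)
    (hCD : ∀ c, algebraMap C L c ∈ D) (huD : ∀ i, u i ∈ D)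
    (K0 : ℝ) (hK0 : ∀ X : Submodule C L, (∀ x ∈ X, x ∈ D) → ∀ N : ℝ, 0 ≤ N →
      ∃ ℓ : ℕ, lenq C X N = ℓ ∧ (ℓ : ℝ) ≤ K0 * (N + 1) ^ r)
    (hdense : ∀ (z : L) (ε : ℝ), 0 < ε → ∃ a ∈ D, ∃ b ∈ D, b ≠ 0 ∧ ‖z - a / b‖ < ε)
    (hD1 : ∀ x ∈ D, ‖x‖ ≤ 1) (K : Set L) (hK : Dense K) :
    ∃ (e f : ℕ) (y : Fin e → L) (w : Fin f → L), (∀ a, y a ∈ K ∧ y a ≠ 0) ∧
      (∀ b, w b ∈ K ∧ ‖w b‖ ≤ 1) ∧
      ∀ z : L, ∃ x : Fin e → Fin f → L, (∀ a b, x a b ∈ clF C u) ∧
        z = ∑ a, ∑ b, x a b * (y a * w b) ∧ ∀ a b, ‖x a b * y a‖ ≤ ‖z‖ := by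
  classical
  have hdom : Dom (algebraMap C L) := hC.dom
  have hind : Indep u := hC.indep
  obtain ⟨hfin, hspanD⟩ := finite_clF C hr u hC D hCD huD K0 hK0 hdense
  have := hfin
  set n0 : ℕ := Module.finrank (clF C u) L with hn0
  have hn0pos : 0 < n0 := Module.finrank_pos
  -- maximal families
  obtain ⟨e, ⟨y, hy⟩, hemax⟩ := S12_exists_max (fun e => ∃ y : Fin e → L, S12_ValY u y) n0
    (fun n hn => by
      obtain ⟨y, hy⟩ := hn
      have := S12_card_le C u hC y hy _ (S12_valW_one hdom)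
      simpa using this) 1 ⟨_, S12_valY_one u⟩
  obtain ⟨f, ⟨w, hw⟩, hfmax⟩ := S12_exists_max (fun f => ∃ w : Fin f → L, S12_ValW C w) n0
    (fun n hn => by
      obtain ⟨w, hw⟩ := hn
      have := S12_card_le C u hC _ (S12_valY_one u) w hw
      simpa using this) 1 ⟨_, S12_valW_one hdom⟩
  have hcl : ∀ x : L, x ≠ 0 → ∃ a, ∃ δ : Fin r → ℤ, ‖x‖ = ‖y a‖ * ‖mon u δ‖ :=
    fun x hx => S12_hcl u hind.ne y hy (fun y' h => hemax ⟨y', h⟩) x hx
  have hspan : ∀ x : L, ‖x‖ ≤ 1 → ∃ c : Fin f → C, ‖x - ∑ b, algebraMap C L (c b) * w b‖ < 1 :=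
    fun x hx => S12_hspan hdom w hw (fun w' h => hfmax ⟨w', h⟩) x hx
  have hef : e * f ≤ n0 := S12_card_le C u hC y hy w hw
  -- a basis in D
  obtain ⟨b, hbD⟩ : ∃ b : Module.Basis (Fin n0) (clF C u) L, ∀ i, b i ∈ D := by
    have hsp : (⊤ : Submodule (clF C u) L) ≤ Submodule.span (clF C u) (D : Set L) := hspanD.ge
    let b0 := Module.Basis.ofSpan hsp
    have h0 : ∀ i, b0 i ∈ (D : Set L) := by
      intro i
      exact Module.Basis.ofSpan_subset hsp ⟨i, rfl⟩
    have : Fintype ((linearIndepOn_empty (clF C u) id).extend (Set.empty_subset (D : Set L))) :=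
      FiniteDimensional.fintypeBasisIndex b0
    have hcard := Module.finrank_eq_card_basis b0
    let eqv := Fintype.equivFinOfCardEq hcard.symm
    refine ⟨b0.reindex eqv, fun i => ?_⟩
    rw [Module.Basis.reindex_apply]
    exact h0 _
  -- the module X
  have hadD : ∀ x ∈ Algebra.adjoin C (Set.range u), x ∈ D := by
    intro x hx
    induction hx using Algebra.adjoin_induction with
    | mem x hx => obtain ⟨i, rfl⟩ := hx; exact huD i
    | algebraMap c => exact hCD c
    | add x y _ _ hx hy => exact D.add_mem hx hy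
    | mul x y _ _ hx hy => exact D.mul_mem hx hy
  let X : Submodule C L :=
    { carrier := {x | ∃ l : Fin n0 → L, (∀ i, l i ∈ Algebra.adjoin C (Set.range u)) ∧
        x = ∑ j, l j * b j}
      add_mem' := by
        rintro _ _ ⟨l, hl, rfl⟩ ⟨l', hl', rfl⟩
        refine ⟨fun i => l i + l' i, fun i => add_mem (hl i) (hl' i), ?_⟩
        rw [← Finset.sum_add_distrib]
        exact Finset.sum_congr rfl fun j _ => (add_mul _ _ _).symm
      zero_mem' := ⟨fun _ => 0, fun _ => zero_mem _, by simp⟩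
      smul_mem' := by
        rintro c _ ⟨l, hl, rfl⟩
        refine ⟨fun i => c • l i, fun i => Subalgebra.smul_mem _ (hl i) c, ?_⟩
        rw [Finset.smul_sum]
        exact Finset.sum_congr rfl fun j _ => (smul_mul_assoc _ _ _).symm }
  have hXmem : ∀ x, x ∈ X ↔ ∃ l : Fin n0 → L, (∀ i, l i ∈ Algebra.adjoin C (Set.range u)) ∧
        x = ∑ j, l j * b j := fun x => Iff.rfl
  -- the closed subfield
  have hF : IsClosed (clF C u : Set L) := Subfield.isClosed_topologicalClosure _
  have huF : ∀ i, u i ∈ clF C u := fun i =>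
    Subfield.le_topologicalClosure _ (Subfield.subset_closure (Or.inr ⟨i, rfl⟩))
  have hCF : ∀ c, algebraMap C L c ∈ clF C u := fun c =>
    Subfield.le_topologicalClosure _ (Subfield.subset_closure (Or.inl ⟨c, rfl⟩))
  have hadF : ∀ x ∈ Algebra.adjoin C (Set.range u), x ∈ clF C u := by
    intro x hx
    induction hx using Algebra.adjoin_induction with
    | mem x hx => obtain ⟨i, rfl⟩ := hx; exact huF i
    | algebraMap c => exact hCF c
    | add x y _ _ hx hy => exact (clF C u).add_mem hx hy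
    | mul x y _ _ hx hy => exact (clF C u).mul_mem hx hy
  have hF1 : ∃ x ∈ clF C u, x ≠ 0 ∧ ‖x‖ < 1 := ⟨u ⟨0, hr⟩, huF _, hind.ne _, hind.lt _⟩
  obtain ⟨c1, hc1⟩ := exists_norm_bound (clF C u) hF hF1 (fun i => b i) b.linearIndependent
  obtain ⟨β0, hβ0⟩ := value_structure C hr u hC b
  obtain ⟨c2, hc2⟩ := value_count u hind hn0pos β0 y hy.1 hcl
  have hg : ∀ i, 0 < wt u i := Indep.wt_pos hind
  have key : ∀ N : ℝ, 0 ≤ N → n0 * Hc (wt u) (N - max c1 c2) ≤
      (e * f) * Hc (wt u) (N + max c1 c2) := by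
    intro N hN
    have hlow := lenq_lower C hdom u hind (fun i => b i) c1 (fun l hl i =>
      hc1 (fun i => ⟨l i, hadF _ (hl i)⟩) i) X (fun l hl => ⟨l, hl, rfl⟩) N
    obtain ⟨s, hs1, hs2⟩ := hc2 N hN
    have hup := lenq_upper C hdom X N s (by
      rintro x ⟨l, hl, rfl⟩ hx
      have hne : ∑ j, l j * b j ≠ 0 := by
        intro h0
        rw [h0, norm_zero] at hx
        exact absurd hx (not_lt.2 (Real.exp_pos _).le)
      exact hs2 _ hx (hβ0 l hl hne)) f w hw.1 hspan
    have h1 : n0 * Hc (wt u) (N - c1) ≤ s.card * f := by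
      exact_mod_cast hlow.trans hup
    calc n0 * Hc (wt u) (N - max c1 c2) ≤ n0 * Hc (wt u) (N - c1) :=
          Nat.mul_le_mul_left _ (Hc_mono _ hg (by linarith [le_max_left c1 c2]))
      _ ≤ s.card * f := h1
      _ ≤ (e * Hc (wt u) (N + c2)) * f := Nat.mul_le_mul_right _ hs1
      _ = (e * f) * Hc (wt u) (N + c2) := by ring
      _ ≤ (e * f) * Hc (wt u) (N + max c1 c2) :=
          Nat.mul_le_mul_left _ (Hc_mono _ hg (by linarith [le_max_right c1 c2]))
  have hge : n0 ≤ e * f := Hc_growth _ hg n0 (e * f) _ key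
  have heq : e * f = n0 := le_antisymm hef hge
  -- replace the families by nearby elements of K
  have hyK : ∀ a, ∃ y' ∈ K, ‖y' - y a‖ < ‖y a‖ := by
    intro a
    obtain ⟨y', hy'K, hy'⟩ := hK.exists_dist_lt (y a) (norm_pos_iff.2 (hy.1 a))
    refine ⟨y', hy'K, ?_⟩
    rwa [dist_comm, dist_eq_norm] at hy'
  have hwK : ∀ b, ∃ w' ∈ K, ‖w' - w b‖ < 1 := by
    intro b
    obtain ⟨w', hw'K, hw'⟩ := hK.exists_dist_lt (w b) one_pos
    refine ⟨w', hw'K, ?_⟩
    rwa [dist_comm, dist_eq_norm] at hw'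
  choose y' hy'K hy' using hyK
  choose w' hw'K hw' using hwK
  have hny : ∀ a, ‖y' a‖ = ‖y a‖ := by
    intro a
    have h1 : y' a = (y' a - y a) + y a := by ring
    rw [h1, IsUltrametricDist.norm_add_eq_max_of_norm_ne_norm (ne_of_lt (hy' a))]
    exact max_eq_right (hy' a).le
  have hy2 : S12_ValY u y' := by
    refine ⟨fun a => ?_, fun a a' δ h => ?_⟩
    · rw [← norm_ne_zero_iff, hny, norm_ne_zero_iff]
      exact hy.1 a
    · rw [hny, hny] at h
      exact hy.2 a a' δ h
  have hw2 : S12_ValW C w' := by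
    refine ⟨fun b => ?_, fun c hc => ?_⟩
    · have h1 : w' b = (w' b - w b) + w b := by ring
      rw [h1]
      exact (IsUltrametricDist.norm_add_le_max _ _).trans (max_le (hw' b).le (hw.1 b))
    · apply hw.2 c
      have h1 : ∑ b, algebraMap C L (c b) * w b = ∑ b, algebraMap C L (c b) * w' b -
          ∑ b, algebraMap C L (c b) * (w' b - w b) := by
        rw [← Finset.sum_sub_distrib]
        exact Finset.sum_congr rfl fun b _ => by ring
      rw [h1]
      refine (S12_norm_sub_le _ _).trans_lt (max_lt hc ?_)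
      refine S12_norm_sum_lt _ _ _ one_pos ?_
      intro b _
      rw [norm_mul]
      exact mul_lt_one_of_nonneg_of_lt_one_right (hdom _).1 (norm_nonneg _) (hw' b)
  have hli := S12_linearIndependent C u hC y' hy2 w' hw2
  have hsp := hli.span_eq_top_of_card_eq_finrank' (by
    rw [Fintype.card_prod, Fintype.card_fin, Fintype.card_fin, heq])
  refine ⟨e, f, y', w', fun a => ⟨hy'K a, hy2.1 a⟩, fun b => ⟨hw'K b, hw2.1 b⟩, fun z => ?_⟩
  have hz : z ∈ Submodule.span (clF C u) (Set.range fun p : Fin e × Fin f => y' p.1 * w' p.2) := by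
    rw [hsp]; trivial
  obtain ⟨g, hgz⟩ := (Submodule.mem_span_range_iff_exists_fun (clF C u)).1 hz
  have hsum : z = ∑ a, ∑ b, ((g (a, b) : clF C u) : L) * (y' a * w' b) := by
    rw [← Fintype.sum_prod_type', ← hgz]
    rfl
  refine ⟨fun a b => (g (a, b) : L), fun a b => (g (a, b)).2, hsum, fun a b => ?_⟩
  have h1 := orthogonal C u hC y' hy2.1 hy2.2 w' hw2.1 hw2.2 (fun a b => (g (a, b) : L))
    (fun a b => (g (a, b)).2) a b
  rw [← hsum] at h1
  exact h1

end Pool.Agent.Lib.MP_3029eb_ag.Abh
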