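import Pool.Agent.Lib.MP_3029eb_ag.AbhS3
import Pool.Agent.Lib.MP_3029eb_ag.AbhS6
import Pool.Agent.Lib.MP_3029eb_ag.AbhS12
import Pool.Agent.Lib.MP_3029eb_ag.AbhJ1
import Pool.Agent.Lib.MP_3029eb_ag.HB
import Pool.Agent.Lib.MP_3029eb_ag.K2
import Pool.Agent.Lib.MP_3029eb_ag.K2b

/-!
Module S13: stability.
-/

open IsLocalRing

namespace Pool.Agent.Lib.MP_3029eb_ag.Abh
open Pool.Agent.Lib.MP_3029eb_ag

theorem S13_norm_sum_lt {L : Type} [NormedField L] [IsUltrametricDist L] {ι : Type}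
    (s : Finset ι) (g : ι → L) (q : ℝ) (hq : 0 < q) (h : ∀ i ∈ s, ‖g i‖ < q) :
    ‖∑ i ∈ s, g i‖ < q := by
  classical
  induction s using Finset.induction_on with
  | empty => simpa using hq
  | insert a s ha ih =>
    rw [Finset.sum_insert ha]
    exact (IsUltrametricDist.norm_add_le_max _ _).trans_lt
      (max_lt (h a (Finset.mem_insert_self _ _))
        (ih fun i hi => h i (Finset.mem_insert_of_mem hi)))

/-- the ideal of elements with value of norm at most `q` -/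
def S13_ballIdeal {T L : Type} [CommRing T] [IsLocalRing T] [NormedField L]
    [IsUltrametricDist L] (φ : T →+* L) (hφ : Dom φ) (q : ℝ) (hq : 0 ≤ q) : Ideal T where
  carrier := {t | ‖φ t‖ ≤ q}
  add_mem' := fun {a b} ha hb => by
    show ‖φ (a + b)‖ ≤ q
    rw [map_add]
    exact (IsUltrametricDist.norm_add_le_max _ _).trans (max_le ha hb)
  zero_mem' := by
    show ‖φ 0‖ ≤ q
    rw [map_zero, norm_zero]; exact hq
  smul_mem' := fun c x hx => by
    show ‖φ (c * x)‖ ≤ q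
    rw [map_mul, norm_mul]
    exact (mul_le_of_le_one_left (norm_nonneg _) (hφ c).1).trans hx

theorem S13_pow_norm {T L : Type} [CommRing T] [IsLocalRing T] [IsNoetherianRing T]
    [NormedField L] [IsUltrametricDist L] (φ : T →+* L) (hφ : Dom φ) :
    ∃ q : ℝ, 0 ≤ q ∧ q < 1 ∧ ∀ (k : ℕ) (t : T), t ∈ maximalIdeal T ^ k → ‖φ t‖ ≤ q ^ k := by
  obtain ⟨n, x, hx⟩ := Submodule.fg_iff_exists_fin_generating_family.1
    (maximalIdeal T).fg_of_isNoetherianRing
  have hxm : ∀ i, x i ∈ maximalIdeal T := fun i => by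
    rw [← hx]; exact Submodule.subset_span ⟨i, rfl⟩
  obtain ⟨q, hq0, hq1, hq⟩ : ∃ q : ℝ, 0 ≤ q ∧ q < 1 ∧ ∀ i, ‖φ (x i)‖ ≤ q := by
    rcases isEmpty_or_nonempty (Fin n) with he | he
    · exact ⟨0, le_rfl, one_pos, fun i => he.elim i⟩
    · obtain ⟨i0, hi0⟩ := Finite.exists_max (fun i => ‖φ (x i)‖)
      exact ⟨‖φ (x i0)‖, norm_nonneg _, ((hφ _).2).1 (hxm i0), hi0⟩
  refine ⟨q, hq0, hq1, ?_⟩
  have hmain : ∀ k, maximalIdeal T ^ k ≤ S13_ballIdeal φ hφ (q ^ k) (pow_nonneg hq0 k) := by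
    intro k
    induction k with
    | zero =>
      intro t _
      show ‖φ t‖ ≤ q ^ 0
      rw [pow_zero]
      exact (hφ t).1
    | succ k ih =>
      rw [pow_succ, Ideal.mul_le]
      intro a ha b hb
      have h1 : ‖φ a‖ ≤ q ^ k := ih ha
      have h2 : b ∈ S13_ballIdeal φ hφ q hq0 := by
        have h3 : maximalIdeal T ≤ S13_ballIdeal φ hφ q hq0 := by
          rw [← hx]
          refine Submodule.span_le.2 ?_
          rintro _ ⟨i, rfl⟩
          exact hq i
        exact h3 hb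
      have h4 : ‖φ b‖ ≤ q := h2
      show ‖φ (a * b)‖ ≤ q ^ (k + 1)
      rw [map_mul, norm_mul, pow_succ]
      exact mul_le_mul h1 h4 (norm_nonneg _) (pow_nonneg hq0 k)
  exact fun k t ht => hmain k ht

theorem S13_map_mon {K L : Type} [Field K] [Field L] (τ : K →+* L) {r : ℕ} (u : Fin r → K)
    (δ : Fin r → ℤ) : τ (mon u δ) = mon (fun i => τ (u i)) δ := by
  unfold mon
  rw [map_prod]
  exact Finset.prod_congr rfl fun i _ => map_zpow₀ _ _ _

theorem S13_mon_append {K : Type} [Field K] {r e : ℕ} (u : Fin r → K) (y : Fin e → K)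
    (δ : Fin r → ℤ) (a : Fin e) :
    mon (Fin.append u y) (Fin.append δ (Pi.single a (1 : ℤ))) = mon u δ * y a := by
  unfold mon
  rw [Fin.prod_univ_add]
  congr 1
  · refine Finset.prod_congr rfl fun i _ => ?_
    rw [Fin.append_left, Fin.append_left]
  · rw [Finset.prod_eq_single a]
    · rw [Fin.append_right, Fin.append_right, Pi.single_eq_same, zpow_one]
    · intro i _ hi
      rw [Fin.append_right, Fin.append_right, Pi.single_eq_of_ne hi, zpow_zero]
    · intro h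
      exact absurd (Finset.mem_univ a) h

/-- stability, with a bound on the dimension of the image of the completion only -/
theorem stability_core {K L : Type} [NormedField K] [NontriviallyNormedField L]
    [IsUltrametricDist L] [CompleteSpace L] (τ : K →+* L) (hτ : ∀ z, ‖τ z‖ = ‖z‖)
    (hτd : DenseRange τ) (R0 : Subring K) [IsLocalRing R0]
    (hfrac : ∀ z : K, ∃ a ∈ R0, ∃ b ∈ R0, b ≠ 0 ∧ z = a / b) (T : Type) [CommRing T]
    [IsLocalRing T] [IsNoetherianRing T] [IsAdicComplete (maximalIdeal T) T] (ι : R0 →+* T)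
    (hι : SameCompletion ι) (φ : T →+* L) (hφ : Dom φ) (hφι : ∀ a : R0, φ (ι a) = τ a)
    {r : ℕ} (hr : 0 < r) (hdim : ringKrullDim (T ⧸ RingHom.ker φ) ≤ r) (x : Fin r → K)
    (hx : Indep x) (hxR : ∀ i, x i ∈ R0) :
    ∃ (u : Fin r → K) (k : ℕ) (h : Fin k → K) (f : ℕ) (w : Fin f → K), Indep u ∧
      (∀ i, ∃ j, h j = u i) ∧ (∀ i, h i ≠ 0) ∧ (∀ b, ‖w b‖ ≤ 1) ∧
      ∀ z : K, ‖z‖ < 1 → ∀ ε : ℝ, 0 < ε → ∃ (n : ℕ) (ρ : Fin n → K) (b : Fin n → Fin f)
        (δ : Fin n → (Fin k → ℤ)), (∀ l, ρ l ∈ R0) ∧ (∀ l, ‖mon h (δ l)‖ < 1) ∧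
        ‖z - ∑ l, ρ l * w (b l) * mon h (δ l)‖ < ε := by
  classical
  have hτinj : Function.Injective τ := τ.injective
  -- independence in `L`
  have hindL : ∀ v : Fin r → K, Indep v → Indep (fun i => τ (v i)) := by
    intro v hv
    refine ⟨fun i => ?_, fun i => ?_, fun δ hδ => ?_⟩
    · rw [Ne, map_eq_zero]; exact hv.ne i
    · rw [hτ]; exact hv.lt i
    · rw [← S13_map_mon, hτ] at hδ
      exact hv.indep δ hδ
  have hindK : ∀ v : Fin r → K, Indep (fun i => τ (v i)) → Indep v := by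
    intro v hv
    refine ⟨fun i => ?_, fun i => ?_, fun δ hδ => ?_⟩
    · have := hv.ne i
      rwa [Ne, map_eq_zero] at this
    · have := hv.lt i
      rwa [hτ] at this
    · apply hv.indep δ
      rw [← S13_map_mon, hτ, hδ]
  -- coefficient data
  have hchar : ∀ n : ℕ, φ (n : T) = 0 → (n : T) = 0 := by
    intro n hn
    rw [map_natCast] at hn
    have h1 : ((n : ℕ) : K) = 0 := by
      apply hτinj
      rw [map_natCast, hn, map_zero]
    have h2 : ((n : ℕ) : R0) = 0 := Subtype.ext (by push_cast; exact h1)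
    rw [← map_natCast ι n, h2, map_zero]
  obtain ⟨C, iC, iCl, g, u, hres, hu, hC⟩ := exists_coef T φ hφ hchar hr (fun i => τ (x i))
    (hindL x hx)
  let iAlg : Algebra C L := (φ.comp g).toAlgebra
  have halg : ∀ c : C, algebraMap C L c = φ (g c) := fun c => rfl
  have hC' : Coef C u := hC
  have hBdd : Bdd C L := ⟨fun c => (hφ (g c)).1⟩
  -- lifts of `u`
  have hu' : ∀ i, ∃ v : K, τ v = u i ∧ v ∈ R0 := by
    intro i
    rcases hu i with ⟨j, hj⟩ | ⟨p, hp⟩
    · exact ⟨x j, hj.symm, hxR j⟩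
    · exact ⟨(p : K), by rw [map_natCast, hp], natCast_mem _ _⟩
  choose v hv hvR using hu'
  have huv : u = fun i => τ (v i) := funext fun i => (hv i).symm
  have hindv : Indep v := hindK v (by rw [← huv]; exact hC'.indep)
  -- the image of the completion
  let D : Subring L := φ.range
  have hCD : ∀ c, algebraMap C L c ∈ D := fun c => ⟨g c, rfl⟩
  have hR0D : ∀ a : R0, τ a ∈ D := fun a => ⟨ι a, hφι a⟩
  have huD : ∀ i, u i ∈ D := by
    intro i
    rw [← hv i]
    exact hR0D ⟨v i, hvR i⟩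
  have hD1 : ∀ z ∈ D, ‖z‖ ≤ 1 := by
    rintro _ ⟨t, rfl⟩
    exact (hφ t).1
  have hdense : ∀ (z : L) (ε : ℝ), 0 < ε → ∃ a ∈ D, ∃ b ∈ D, b ≠ 0 ∧ ‖z - a / b‖ < ε := by
    intro z ε hε
    obtain ⟨z', hz'⟩ := hτd.exists_dist_lt z hε
    obtain ⟨a, ha, b, hb, hb0, rfl⟩ := hfrac z'
    refine ⟨τ a, hR0D ⟨a, ha⟩, τ b, hR0D ⟨b, hb⟩, ?_, ?_⟩
    · rwa [Ne, map_eq_zero]
    · rwa [dist_eq_norm, map_div₀] at hz'
  -- the quotient of the completion
  have hker : RingHom.ker φ ≠ ⊤ := RingHom.ker_ne_top φ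
  have : Nontrivial (T ⧸ RingHom.ker φ) := Ideal.Quotient.nontrivial_iff.2 hker
  have : IsLocalRing (T ⧸ RingHom.ker φ) :=
    IsLocalRing.of_surjective' _ Ideal.Quotient.mk_surjective
  have hlocmk : IsLocalHom (Ideal.Quotient.mk (RingHom.ker φ)) :=
    Ideal.Quotient.mk_surjective.isLocalHom
  have hmax : ∀ t : T, Ideal.Quotient.mk (RingHom.ker φ) t ∈ maximalIdeal (T ⧸ RingHom.ker φ) ↔
      t ∈ maximalIdeal T := by
    intro t
    rw [mem_maximalIdeal, mem_maximalIdeal, map_mem_nonunits_iff]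
  have hφ' : Dom (RingHom.kerLift φ) := by
    intro a
    obtain ⟨t, rfl⟩ := Ideal.Quotient.mk_surjective a
    refine ⟨?_, ?_⟩
    · rw [RingHom.kerLift_mk]
      exact (hφ t).1
    · rw [RingHom.kerLift_mk, hmax]
      exact (hφ t).2
  have hres' : Function.Surjective ((residue (T ⧸ RingHom.ker φ)).comp
      ((Ideal.Quotient.mk (RingHom.ker φ)).comp g)) := by
    intro y
    obtain ⟨y', rfl⟩ := residue_surjective y
    obtain ⟨t, rfl⟩ := Ideal.Quotient.mk_surjective y'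
    obtain ⟨c, hc⟩ := hres (residue T t)
    refine ⟨c, ?_⟩
    rw [RingHom.comp_apply, RingHom.comp_apply, ← sub_eq_zero, ← map_sub, ← map_sub,
      residue_eq_zero_iff, hmax, ← residue_eq_zero_iff, map_sub, sub_eq_zero]
    exact hc
  obtain ⟨K0, hK0⟩ := lenq_noetherian (T ⧸ RingHom.ker φ) (RingHom.kerLift φ) hφ' C
    ((Ideal.Quotient.mk (RingHom.ker φ)).comp g)
    (fun c => by rw [RingHom.comp_apply, RingHom.kerLift_mk]; exact halg c) hres' r hdim
  have hK0' : ∀ X : Submodule C L, (∀ x ∈ X, x ∈ D) → ∀ N : ℝ, 0 ≤ N →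
      ∃ ℓ : ℕ, lenq C X N = ℓ ∧ (ℓ : ℝ) ≤ K0 * (N + 1) ^ r := by
    intro X hX N hN
    refine hK0 X (fun z hz => ?_) N hN
    obtain ⟨t, ht⟩ := hX z hz
    exact ⟨Ideal.Quotient.mk _ t, by rw [RingHom.kerLift_mk]; exact ht⟩
  -- the structure theorem
  obtain ⟨e, f, y, w, hy, hw, hstr⟩ := structure_theorem C hr u hC' D hCD huD K0 hK0' hdense hD1
    (Set.range τ) hτd
  choose hyK hy0 using hy
  choose hwK hw1 using hw
  choose y' hy' using hyK
  choose w' hw' using hwK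
  have hy'0 : ∀ a, y' a ≠ 0 := by
    intro a h0
    apply hy0 a
    rw [← hy' a, h0, map_zero]
  refine ⟨v, r + e, Fin.append v y', f, w', hindv, fun i => ⟨Fin.castAdd e i, ?_⟩, ?_, ?_, ?_⟩
  · rw [Fin.append_left]
  · intro i
    refine Fin.addCases (fun i => ?_) (fun i => ?_) i
    · rw [Fin.append_left]; exact hindv.ne i
    · rw [Fin.append_right]; exact hy'0 i
  · intro b
    rw [← hτ, hw']
    exact hw1 b
  intro z hz ε hε
  obtain ⟨X, hX, hzX, hXn⟩ := hstr (τ z)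
  obtain ⟨Y, hY0, hY⟩ : ∃ Y : ℝ, 0 < Y ∧ ∀ a, ‖y a‖ < Y := by
    obtain ⟨B, hB⟩ := (Set.finite_range (fun a => ‖y a‖)).bddAbove
    refine ⟨max B 0 + 1, by positivity, fun a => ?_⟩
    have h1 : ‖y a‖ ≤ B := hB ⟨a, rfl⟩
    have h2 := le_max_left B 0
    linarith
  have hεY : 0 < ε / Y := div_pos hε hY0
  have happ : ∀ a b, ∃ (B : Finset (Fin r → ℤ)) (c : (Fin r → ℤ) → Cˣ),
      ‖X a b - ∑ δ ∈ B, algebraMap C L (c δ) * mon u δ‖ < ε / Y ∧
        ∀ δ ∈ B, ‖mon u δ‖ ≤ ‖X a b‖ := fun a b => clF_approx C u hC' _ (hX a b) _ hεY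
  choose B c hBc hBn using happ
  obtain ⟨q, hq0, hq1, hq⟩ := S13_pow_norm φ hφ
  obtain ⟨k, hk⟩ := exists_pow_lt_of_lt_one hε hq1
  have hρ : ∀ t : T, ∃ ρ : R0, ‖φ t - τ ρ‖ < ε := by
    intro t
    obtain ⟨ρ, -, hρ⟩ := hι.approxN 0 k (t := t) (by simp)
    refine ⟨ρ, ?_⟩
    rw [← hφι, ← map_sub]
    rw [zero_add] at hρ
    exact (hq k _ hρ).trans_lt hk
  choose ρ hρ using hρ
  let I : Type := Σ p : Fin e × Fin f, ↥(B p.1 p.2)
  let eqv : I ≃ Fin (Fintype.card I) := Fintype.equivFin I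
  have hmonv : ∀ δ, τ (mon v δ) = mon u δ := by
    intro δ
    rw [S13_map_mon, ← huv]
  have hmonn : ∀ (a : Fin e) (b : Fin f), ∀ δ ∈ B a b, ‖mon u δ * y a‖ < 1 := by
    intro a b δ hδ
    rw [norm_mul]
    calc ‖mon u δ‖ * ‖y a‖ ≤ ‖X a b‖ * ‖y a‖ :=
          mul_le_mul_of_nonneg_right (hBn a b δ hδ) (norm_nonneg _)
      _ = ‖X a b * y a‖ := (norm_mul _ _).symm
      _ ≤ ‖τ z‖ := hXn a b
      _ < 1 := by rw [hτ]; exact hz
  refine ⟨Fintype.card I, fun l => (ρ (g (c (eqv.symm l).1.1 (eqv.symm l).1.2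
    (eqv.symm l).2)) : K), fun l => (eqv.symm l).1.2,
    fun l => Fin.append ((eqv.symm l).2 : Fin r → ℤ) (Pi.single (eqv.symm l).1.1 (1 : ℤ)),
    fun l => (ρ _).2, fun l => ?_, ?_⟩
  · rw [S13_mon_append, ← hτ, map_mul, hmonv, hy']
    exact hmonn _ (eqv.symm l).1.2 _ (eqv.symm l).2.2
  · rw [← hτ, map_sub, hzX, map_sum]
    have hsum : ∑ l : Fin (Fintype.card I), τ ((ρ (g (c (eqv.symm l).1.1 (eqv.symm l).1.2
        (eqv.symm l).2)) : K) * w' (eqv.symm l).1.2 *
        mon (Fin.append v y') (Fin.append ((eqv.symm l).2 : Fin r → ℤ)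
          (Pi.single (eqv.symm l).1.1 (1 : ℤ)))) =
        ∑ a, ∑ b, ∑ δ ∈ B a b, τ (ρ (g (c a b δ)) : K) * w b * (mon u δ * y a) := by
      rw [Equiv.sum_comp eqv.symm (fun i : I => τ ((ρ (g (c i.1.1 i.1.2 i.2)) : K) * w' i.1.2 *
        mon (Fin.append v y') (Fin.append (i.2 : Fin r → ℤ) (Pi.single i.1.1 (1 : ℤ))))),
        Fintype.sum_sigma, Fintype.sum_prod_type]
      refine Finset.sum_congr rfl fun a _ => Finset.sum_congr rfl fun b _ => ?_
      rw [← Finset.sum_coe_sort (B a b)]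
      refine Finset.sum_congr rfl fun δ _ => ?_
      rw [S13_mon_append, map_mul, map_mul, map_mul, hmonv, hy', hw']
    rw [hsum, ← Finset.sum_sub_distrib]
    refine S13_norm_sum_lt _ _ _ hε fun a _ => ?_
    rw [← Finset.sum_sub_distrib]
    refine S13_norm_sum_lt _ _ _ hε fun b _ => ?_
    have hsplit : X a b * (y a * w b) -
        ∑ δ ∈ B a b, τ (ρ (g (c a b δ)) : K) * w b * (mon u δ * y a) =
        (X a b - ∑ δ ∈ B a b, algebraMap C L (c a b δ) * mon u δ) * (y a * w b) +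
          ∑ δ ∈ B a b, (algebraMap C L (c a b δ) - τ (ρ (g (c a b δ)) : K)) *
            ((mon u δ * y a) * w b) := by
      rw [sub_mul, Finset.sum_mul, sub_add, sub_right_inj, ← Finset.sum_sub_distrib]
      refine Finset.sum_congr rfl fun δ _ => ?_
      ring
    rw [hsplit]
    refine (IsUltrametricDist.norm_add_le_max _ _).trans_lt (max_lt ?_ ?_)
    · rw [norm_mul, norm_mul]
      calc ‖X a b - ∑ δ ∈ B a b, algebraMap C L (c a b δ) * mon u δ‖ * (‖y a‖ * ‖w b‖)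
          ≤ (ε / Y) * (‖y a‖ * 1) := by
            refine mul_le_mul (hBc a b).le ?_ (by positivity) hεY.le
            exact mul_le_mul_of_nonneg_left (hw1 b) (norm_nonneg _)
        _ = (ε / Y) * ‖y a‖ := by rw [mul_one]
        _ < (ε / Y) * Y := mul_lt_mul_of_pos_left (hY a) hεY
        _ = ε := div_mul_cancel₀ _ hY0.ne'
    · refine S13_norm_sum_lt _ _ _ hε fun δ hδ => ?_
      rw [norm_mul, norm_mul (mon u δ * y a)]
      have h1 : ‖algebraMap C L (c a b δ) - τ (ρ (g (c a b δ)) : K)‖ < ε := hρ _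
      have h2 : ‖mon u δ * y a‖ * ‖w b‖ ≤ 1 :=
        mul_le_one₀ (hmonn a b δ hδ).le (norm_nonneg _) (hw1 b)
      exact (mul_le_of_le_one_right (norm_nonneg _) h2).trans_lt h1

/-- The completion of an ultrametric normed field is ultrametric. -/
theorem S13_ultra (K : Type) [NormedField K] [IsUltrametricDist K] :
    IsUltrametricDist (UniformSpace.Completion K) := by
  refine ⟨fun x y z => ?_⟩
  induction x, y, z using UniformSpace.Completion.induction_on₃ with
  | hp => apply isClosed_le <;> fun_prop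
  | ih x y z =>
    rw [UniformSpace.Completion.dist_eq, UniformSpace.Completion.dist_eq,
      UniformSpace.Completion.dist_eq]
    exact IsUltrametricDist.dist_triangle_max x y z

/-- The completion of a nontrivially normed field. -/
noncomputable abbrev S13_nnf (K : Type) [NontriviallyNormedField K] :
    NontriviallyNormedField (UniformSpace.Completion K) :=
  { (inferInstance : NormedField (UniformSpace.Completion K)) with
    non_trivial := by
      obtain ⟨x, hx⟩ := NontriviallyNormedField.non_trivial (α := K)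
      refine ⟨(x : UniformSpace.Completion K), ?_⟩
      rw [UniformSpace.Completion.norm_coe]
      exact hx }

/-- `K` is the fraction field of the local ring `R0` of dimension at most `r`. -/
theorem stability {K : Type} [NontriviallyNormedField K] [IsUltrametricDist K] (R0 : Subring K)
    [IsLocalRing R0] [IsNoetherianRing R0] (hdom : Dom R0.subtype)
    (hfrac : ∀ z : K, ∃ a ∈ R0, ∃ b ∈ R0, b ≠ 0 ∧ z = a / b) {r : ℕ} (hr : 0 < r)
    (hdim : ringKrullDim R0 ≤ r) (x : Fin r → K) (hx : Indep x) (hxR : ∀ i, x i ∈ R0) :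
    ∃ (u : Fin r → K) (k : ℕ) (h : Fin k → K) (f : ℕ) (w : Fin f → K), Indep u ∧
      (∀ i, ∃ j, h j = u i) ∧ (∀ i, h i ≠ 0) ∧ (∀ b, ‖w b‖ ≤ 1) ∧
      ∀ z : K, ‖z‖ < 1 → ∀ ε : ℝ, 0 < ε → ∃ (n : ℕ) (ρ : Fin n → K) (b : Fin n → Fin f)
        (δ : Fin n → (Fin k → ℤ)), (∀ l, ρ l ∈ R0) ∧ (∀ l, ‖mon h (δ l)‖ < 1) ∧
        ‖z - ∑ l, ρ l * w (b l) * mon h (δ l)‖ < ε := by
  let L : Type := UniformSpace.Completion K
  let iL : NontriviallyNormedField L := S13_nnf K
  have iLu : IsUltrametricDist L := S13_ultra K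
  have iLc : CompleteSpace L := inferInstanceAs (CompleteSpace (UniformSpace.Completion K))
  let τ : K →+* L := UniformSpace.Completion.coeRingHom
  have hτ : ∀ z, ‖τ z‖ = ‖z‖ := fun z => UniformSpace.Completion.norm_coe z
  have hτd : DenseRange τ := UniformSpace.Completion.denseRange_coe
  have hdomL : Dom (τ.comp R0.subtype) := by
    intro a
    rw [RingHom.comp_apply, hτ]
    exact hdom a
  obtain ⟨φ, hφ, hφι⟩ := exists_lift_ball R0 (τ.comp R0.subtype) hdomL
  have hTn := noetherian_adicCompletion R0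
  have hSC := sameCompletion_adicCompletion R0
  have hdim' : ringKrullDim (AdicCompletion (maximalIdeal R0) R0 ⧸ RingHom.ker φ) ≤ r :=
    (ringKrullDim_quotient_le _).trans ((ringKrullDim_le_of_sameCompletion hSC).trans hdim)
  exact stability_core τ hτ hτd R0 hfrac (AdicCompletion (maximalIdeal R0) R0)
    (algebraMap R0 (AdicCompletion (maximalIdeal R0) R0)) hSC φ hφ
    (fun a => by rw [← RingHom.comp_apply, hφι]; rfl) hr hdim' x hx hxR

end Pool.Agent.Lib.MP_3029eb_ag.Abh
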