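import Pool.Agent.Lib.MP_3029eb_ag.AbhS2
import Pool.Agent.Lib.MP_3029eb_ag.CR
import Pool.Agent.Lib.MP_3029eb_ag.CL

/-!
Module AB-S3: coefficient rings.
-/

open IsLocalRing

namespace Pool.Agent.Lib.MP_3029eb_ag.Abh

/-- expansion over a field of coefficients -/
private theorem S3_expand_field {C L : Type} [Field C] [NormedField L] [Algebra C L] {r : ℕ}
    (u : Fin r → L) (x : L) (hx : x ∈ Algebra.adjoin C (Set.range u)) :
    ∃ (B : Finset (Fin r → ℕ)) (c : (Fin r → ℕ) → Cˣ),
      x = ∑ β ∈ B, algebraMap C L (c β) * monN u β := by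
  classical
  rw [Algebra.adjoin_range_eq_range_aeval] at hx
  obtain ⟨P, rfl⟩ := hx
  let e : (Fin r →₀ ℕ) → (Fin r → ℕ) := fun m => m
  have he : Function.Injective e := DFunLike.coe_injective
  refine ⟨P.support.image e, fun β => if h : P.coeff (Finsupp.equivFunOnFinite.symm β) = 0 then 1
    else Units.mk0 _ h, ?_⟩
  rw [Finset.sum_image fun _ _ _ _ h => he h]
  change MvPolynomial.aeval u P = _
  rw [MvPolynomial.aeval_def, MvPolynomial.eval₂_eq']
  refine Finset.sum_congr rfl fun m hm => ?_
  have h1 : Finsupp.equivFunOnFinite.symm (e m) = m := by ext i; rfl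
  have h2 : P.coeff m ≠ 0 := MvPolynomial.mem_support_iff.1 hm
  simp only [h1, dif_neg h2, Units.val_mk0]
  rfl

/-- expansion over a discrete valuation ring whose uniformizer is one of the parameters -/
private theorem S3_expand_dvr {C L : Type} [CommRing C] [NormedField L] [Algebra C L] {r : ℕ}
    (u : Fin r → L) (i : Fin r) (p : C) (hp : algebraMap C L p = u i)
    (hfac : ∀ c : C, c ≠ 0 → ∃ (a : ℕ) (w : Cˣ), c = p ^ a * w)
    (x : L) (hx : x ∈ Algebra.adjoin C (Set.range u)) :
    ∃ (B : Finset (Fin r → ℕ)) (c : (Fin r → ℕ) → Cˣ),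
      x = ∑ β ∈ B, algebraMap C L (c β) * monN u β := by
  classical
  rw [Algebra.adjoin_range_eq_range_aeval] at hx
  obtain ⟨P, rfl⟩ := hx
  -- zero out the coordinate `i`
  let z : (Fin r → ℕ) → (Fin r → ℕ) := fun β => Function.update β i 0
  have hmon : ∀ β : Fin r → ℕ, monN u β = u i ^ β i * monN u (z β) := by
    intro β
    rw [monN, monN, ← Finset.mul_prod_erase Finset.univ _ (Finset.mem_univ i),
      ← Finset.mul_prod_erase Finset.univ (fun j => u j ^ z β j) (Finset.mem_univ i)]
    simp only [z, Function.update_self, pow_zero, one_mul]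
    congr 1
    refine Finset.prod_congr rfl fun j hj => ?_
    rw [Function.update_of_ne (Finset.mem_erase.mp hj).1]
  let z' : (Fin r →₀ ℕ) → (Fin r → ℕ) := fun m => z m
  let B0 : Finset (Fin r → ℕ) := P.support.image z'
  let d : (Fin r → ℕ) → C := fun γ =>
    ∑ m ∈ P.support.filter (fun m => z' m = γ), P.coeff m * p ^ (m i)
  have h1 : MvPolynomial.aeval u P = ∑ γ ∈ B0, algebraMap C L (d γ) * monN u γ := by
    rw [MvPolynomial.aeval_def, MvPolynomial.eval₂_eq']
    rw [← Finset.sum_fiberwise_of_maps_to (s := P.support) (t := B0)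
      (g := z') (fun m hm => Finset.mem_image_of_mem _ hm)]
    refine Finset.sum_congr rfl fun γ _ => ?_
    rw [map_sum, Finset.sum_mul]
    refine Finset.sum_congr rfl fun m hm => ?_
    have hγ : z m = γ := (Finset.mem_filter.1 hm).2
    have h3 : ∏ j, u j ^ m j = u i ^ m i * monN u γ := by
      rw [← hγ]; exact hmon m
    rw [h3, map_mul, map_pow, hp, mul_assoc]
  -- write the nonzero coefficients as powers of `p` times units
  have h2 : ∀ γ : Fin r → ℕ, ∃ (a : ℕ) (w : Cˣ), d γ ≠ 0 → d γ = p ^ a * w := by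
    intro γ
    by_cases h : d γ = 0
    · exact ⟨0, 1, fun h' => absurd h h'⟩
    · obtain ⟨a, w, haw⟩ := hfac _ h
      exact ⟨a, w, fun _ => haw⟩
  choose a w haw using h2
  let s : (Fin r → ℕ) → (Fin r → ℕ) := fun γ => Function.update γ i (a γ)
  let B1 : Finset (Fin r → ℕ) := B0.filter (fun γ => d γ ≠ 0)
  have hz : ∀ γ ∈ B1, z (s γ) = γ := by
    intro γ hγ
    obtain ⟨m, _, hm⟩ := Finset.mem_image.1 (Finset.mem_filter.1 hγ).1
    have h0 : γ i = 0 := by
      rw [← hm]
      exact Function.update_self _ _ _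
    show Function.update (Function.update γ i (a γ)) i 0 = γ
    rw [Function.update_idem, ← h0, Function.update_eq_self]
  refine ⟨B1.image s, fun β => w (z β), ?_⟩
  rw [Finset.sum_image (fun γ hγ γ' hγ' h => by rw [← hz γ hγ, ← hz γ' hγ', h])]
  change MvPolynomial.aeval u P = _
  rw [h1, ← Finset.sum_filter_of_ne (p := fun γ => d γ ≠ 0)]
  · refine Finset.sum_congr rfl fun γ hγ => ?_
    have h0 := haw γ (Finset.mem_filter.1 hγ).2
    have h4 : s γ i = a γ := Function.update_self _ _ _
    have h5 : algebraMap C L (d γ) = u i ^ a γ * algebraMap C L (w γ) := by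
      rw [h0, map_mul, map_pow, hp]
    rw [hmon (s γ), hz γ hγ, h4, h5]
    simp only [hz γ hγ]
    ring
  · intro γ _ h h0
    apply h
    rw [h0, map_zero, zero_mul]

theorem exists_coef (T : Type) [CommRing T] [IsLocalRing T] [IsNoetherianRing T]
    [IsAdicComplete (maximalIdeal T) T] {L : Type} [NormedField L] [IsUltrametricDist L]
    (φ : T →+* L) (hφ : Dom φ) (hchar : ∀ n : ℕ, φ (n : T) = 0 → (n : T) = 0)
    {r : ℕ} (hr : 0 < r) (x : Fin r → L) (hx : Indep x) :
    ∃ (C : Type) (_ : CommRing C) (_ : IsLocalRing C) (g : C →+* T) (u : Fin r → L),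
      Function.Surjective ((residue T).comp g) ∧
      (∀ i, (∃ j, u i = x j) ∨ ∃ p : ℕ, u i = (p : L)) ∧
      @Coef C L _ _ _ (φ.comp g).toAlgebra r u := by
  -- the case of a coefficient field
  have hfield : ∀ (g : ResidueField T →+* T), (residue T).comp g = RingHom.id _ →
      ∃ (C : Type) (_ : CommRing C) (_ : IsLocalRing C) (g : C →+* T) (u : Fin r → L),
      Function.Surjective ((residue T).comp g) ∧
      (∀ i, (∃ j, u i = x j) ∨ ∃ p : ℕ, u i = (p : L)) ∧
      @Coef C L _ _ _ (φ.comp g).toAlgebra r u := by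
    intro g hg
    refine ⟨ResidueField T, inferInstance, inferInstance, g, x, ?_, fun i => Or.inl ⟨i, rfl⟩, ?_⟩
    · rw [hg]; exact Function.surjective_id
    · let : Algebra (ResidueField T) L := (φ.comp g).toAlgebra
      refine ⟨fun c => ⟨(hφ (g c)).1, ?_⟩, hx, fun y hy => S3_expand_field x y hy⟩
      constructor
      · intro hc
        have hc0 : c = 0 := by
          by_contra h
          exact (mem_maximalIdeal _).1 hc (isUnit_iff_ne_zero.2 h)
        rw [hc0, map_zero, norm_zero]; exact zero_lt_one
      · intro hc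
        rw [mem_maximalIdeal, mem_nonunits_iff]
        intro hu
        have h1 : g c ∈ maximalIdeal T := (hφ (g c)).2.2 hc
        exact (mem_maximalIdeal _).1 h1 (hu.map g)
  obtain ⟨p, hp⟩ := CharP.exists (ResidueField T)
  rcases CharP.char_is_prime_or_zero (ResidueField T) p with hprime | rfl
  · have hpF : Fact p.Prime := ⟨hprime⟩
    have hpT : (p : T) ∈ maximalIdeal T := by
      rw [← residue_eq_zero_iff, map_natCast, CharP.cast_eq_zero]
    by_cases hp0 : (p : T) = 0
    · -- equal characteristic `p`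
      have hcp : CharP T p := (CharP.charP_iff_prime_eq_zero hprime).2 hp0
      let : Algebra (ZMod p) T := ZMod.algebra T p
      obtain ⟨g, hg⟩ := exists_coefficient_field (ZMod p) T
      exact hfield g hg
    · -- mixed characteristic
      obtain ⟨C, iC, iCd, iCdvr, iCc, iC0, q, hCm, hq⟩ := exists_cohen_ring p (ResidueField T)
      obtain ⟨g, hg⟩ := exists_coefficient_map p T hpT C hCm q
      have hφp : φ (p : T) ≠ 0 := fun h => hp0 (hchar p h)
      rw [map_natCast] at hφp
      have hφp1 : ‖(p : L)‖ < 1 := by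
        rw [← map_natCast φ]; exact (hφ _).2.1 hpT
      obtain ⟨i, hi⟩ := exchange hr hx (p : L) hφp hφp1
      refine ⟨C, iC, inferInstance, g, Function.update x i (p : L), ?_, ?_, ?_⟩
      · rw [hg]; exact hq
      · intro j
        by_cases hj : j = i
        · subst hj
          exact Or.inr ⟨p, Function.update_self _ _ _⟩
        · exact Or.inl ⟨j, Function.update_of_ne hj _ _⟩
      · let : Algebra C L := (φ.comp g).toAlgebra
        refine ⟨fun c => ⟨(hφ (g c)).1, ?_⟩, hi, fun y hy => S3_expand_dvr _ i (p : C) ?_ ?_ y hy⟩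
        · constructor
          · intro hc
            rw [hCm, Ideal.mem_span_singleton] at hc
            obtain ⟨c', rfl⟩ := hc
            refine (hφ (g _)).2.1 ?_
            rw [map_mul, map_natCast]
            exact Ideal.mul_mem_right _ _ hpT
          · intro hc
            rw [mem_maximalIdeal, mem_nonunits_iff]
            intro hu
            have h1 : g c ∈ maximalIdeal T := (hφ (g c)).2.2 hc
            exact (mem_maximalIdeal _).1 h1 (hu.map g)
        · rw [Function.update_self]
          exact map_natCast _ _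
        · intro c hc
          have hirr : Irreducible (p : C) :=
            (IsDiscreteValuationRing.irreducible_iff_uniformizer _).2 hCm
          obtain ⟨n, w, hw⟩ := IsDiscreteValuationRing.eq_unit_mul_pow_irreducible hc hirr
          exact ⟨n, w, by rw [hw, mul_comm]⟩
  · -- equal characteristic `0`
    have hk0 : CharZero (ResidueField T) := CharP.charP_to_charZero _
    have hQ : ∀ n : ℕ, n ≠ 0 → IsUnit (n : T) := by
      intro n hn
      by_contra h
      have h1 : (n : T) ∈ maximalIdeal T := (mem_maximalIdeal _).2 h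
      rw [← residue_eq_zero_iff, map_natCast, Nat.cast_eq_zero] at h1
      exact hn h1
    have : Nonempty (Algebra ℚ T) := by
      have hz : ∀ z : nonZeroDivisors ℤ, IsUnit ((algebraMap ℤ T) z) := by
        intro z
        have hz0 : (z : ℤ) ≠ 0 := nonZeroDivisors.ne_zero z.2
        have h2 : IsUnit (((z : ℤ).natAbs : ℕ) : T) := hQ _ (Int.natAbs_ne_zero.2 hz0)
        rw [eq_intCast]
        rcases Int.natAbs_eq (z : ℤ) with h3 | h3
        · rw [h3, Int.cast_natCast]; exact h2
        · rw [h3, Int.cast_neg, Int.cast_natCast]; exact h2.neg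
      exact ⟨(IsLocalization.lift (M := nonZeroDivisors ℤ) (S := ℚ) hz).toAlgebra⟩
    obtain ⟨iQ⟩ := this
    obtain ⟨g, hg⟩ := exists_coefficient_field ℚ T
    exact hfield g hg

end Pool.Agent.Lib.MP_3029eb_ag.Abh
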