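import Pool.Agent.Lib.MP_3029eb_ag.AbhFinal

open IsLocalRing

namespace Pool.Agent.Lib.MP_3029eb_ag.Abh

open Classical in
theorem final_step {K : Type} [NormedField K] [IsUltrametricDist K] (A : Subring K)
    [IsLocalRing A] [IsNoetherianRing A] (hA : A ≤ (ball K).toSubring)
    (hloc : locV (ball K) A = A) (S : Type) [CommRing S] [IsLocalRing S]
    (π : S →+* AdicCompletion (maximalIdeal A) A) (hπ : Function.Surjective π)
    {ι : Type} [Fintype ι] (Z : ι → S) (z : ι → A)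
    (hZ : Ideal.span (Set.range Z) = maximalIdeal S)
    (hZz : ∀ j, π (Z j) = algebraMap A (AdicCompletion (maximalIdeal A) A) (z j))
    {r : ℕ} (u1 : Fin r → K) (hu1 : Indep u1)
    (n : ι → ℕ) (ρ : ∀ j, Fin (n j) → A) (σ : ∀ j, Fin (n j) → S)
    (hσ : ∀ j l, π (σ j l) = algebraMap A (AdicCompletion (maximalIdeal A) A) (ρ j l))
    (β : ∀ j, Fin (n j) → Fin r → ℕ) (hβ : ∀ j l, β j l ≠ 0)
    (q : ℝ) (hza : ∀ j, ‖((z j : A) : K) - ∑ l, ((ρ j l : A) : K) * monN u1 (β j l)‖ ≤ q)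
    (F : ι → MvPolynomial (Fin r) S)
    (hF : ∀ (T3 : Type) [CommRing T3] (χT : AdicCompletion (maximalIdeal A) A →+* T3)
      (w : Fin r → T3), (∀ (a : A) (γ : Fin r → ℕ), (a : K) = monN u1 γ →
        χT (algebraMap A (AdicCompletion (maximalIdeal A) A) a) = monN w γ) →
      ∀ i, MvPolynomial.eval₂Hom (χT.comp π) w (F i) = 0)
    (μ : MvPolynomial (Fin r) S) (b : Fin r → ℕ) (cb : Sˣ)
    (hμ1 : ∀ i, μ * (MvPolynomial.C (Z i) -
        ∑ l, MvPolynomial.C (σ i l) * monN MvPolynomial.X (β i l)) ∈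
        Ideal.span (Set.range F) ⊔
          Ideal.span {m | ∃ β : Fin r → ℕ, m = monN MvPolynomial.X β ∧ ‖monN u1 β‖ ≤ q})
    (hμ2 : μ - MvPolynomial.C (cb : S) * monN MvPolynomial.X b ∈
        Ideal.span (Set.range fun j => MvPolynomial.C (Z j) -
          ∑ l, MvPolynomial.C (σ j l) * monN MvPolynomial.X (β j l)) ⊔
          Ideal.span {m | ∃ β : Fin r → ℕ, m = monN MvPolynomial.X β ∧
            ‖monN u1 β‖ < ‖monN u1 b‖})
    (γ0 : Fin r → ℕ) (hγ0 : γ0 ≠ 0) (hγ1 : ‖monN u1 γ0‖ < 1)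
    (hq : q < ‖monN u1 (b + (b + γ0))‖) :
    ∃ g : Finset K, (∀ t ∈ g, ‖t‖ < 1) ∧
      IsRegularLocalRing (locV (ball K) (Subring.closure ((A : Set K) ∪ (g : Set K)))) := by
  have hu0 : ∀ i, u1 i ≠ 0 := hu1.ne
  have hne : ∀ β : Fin r → ℕ, monN u1 β ≠ 0 := by
    intro β
    rw [← mon_natCast]
    exact mon_ne_zero u1 hu0 _
  have hpos : ∀ β : Fin r → ℕ, 0 < ‖monN u1 β‖ := fun β => norm_pos_iff.2 (hne β)
  have hle1 : ∀ β : Fin r → ℕ, ‖monN u1 β‖ ≤ 1 :=
    fun β => norm_monN_le_one (fun i => (hu1.lt i).le) β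
  -- finitely many monomials
  have hB1 := fun i => exists_finset_of_mem_sup (Ideal.span (Set.range F)) (monN MvPolynomial.X)
    (fun β => ‖monN u1 β‖ ≤ q) _ (hμ1 i)
  choose B1 hB1 hB1' using hB1
  obtain ⟨B2, hB2, hB2'⟩ := exists_finset_of_mem_sup _ (monN MvPolynomial.X)
    (fun β => ‖monN u1 β‖ < ‖monN u1 b‖) _ hμ2
  -- differences of exponents
  let cast : (Fin r → ℕ) → (Fin r → ℤ) := fun β i => (β i : ℤ)
  have hcast : ∀ β γ : Fin r → ℕ, mon u1 (cast β - cast γ) = monN u1 β / monN u1 γ := by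
    intro β γ
    rw [sub_eq_add_neg, mon_add u1 hu0, mon_neg, mon_natCast, mon_natCast, div_eq_mul_inv]
  let Δ : Finset (Fin r → ℤ) :=
    ((Finset.univ : Finset ι).biUnion fun i => (B1 i).image
      fun β => cast β - cast (b + (b + γ0))) ∪ (B2.image fun β => cast β - cast b) ∪
      {cast γ0 - cast 0}
  have hΔ : ∀ δ ∈ Δ, ‖mon u1 δ‖ < 1 := by
    intro δ hδ
    rw [Finset.mem_union, Finset.mem_union, Finset.mem_biUnion, Finset.mem_singleton] at hδ
    rcases hδ with (⟨i, -, hδ⟩ | hδ) | hδ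
    · obtain ⟨β, hβ, rfl⟩ := Finset.mem_image.1 hδ
      rw [hcast, norm_div, div_lt_one (hpos _)]
      exact (hB1 i β hβ).trans_lt hq
    · obtain ⟨β, hβ, rfl⟩ := Finset.mem_image.1 hδ
      rw [hcast, norm_div, div_lt_one (hpos _)]
      exact hB2 β hβ
    · rw [hδ, hcast, norm_div, div_lt_one (hpos _), monN_zero, norm_one]
      exact hγ1
  obtain ⟨u2, A2, B', hu2, hA2, -, -, hΔ2⟩ := refine u1 hu1 Δ hΔ
  have hdiv : ∀ β γ : Fin r → ℕ, cast β - cast γ ∈ Δ →
      ∃ η : Fin r → ℕ, η ≠ 0 ∧ monN u1 β = monN u1 γ * monN u2 η := by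
    intro β γ h
    obtain ⟨η, hη⟩ := hΔ2 _ h
    refine ⟨η, monN_mem_of_norm (u := u2) ?_, ?_⟩
    · rw [← hη]; exact hΔ _ h
    · rw [← hη, hcast, mul_div_cancel₀ _ (hne γ)]
  -- the new elements
  let al : Fin r → ℕ := b + γ0
  let zz : ι → K := fun j => (((z j : A) : K) - ∑ l, ((ρ j l : A) : K) * monN u1 (β j l)) /
    monN u1 al
  have hzz : ∀ j, ‖zz j‖ < 1 := by
    intro j
    have h1 : ‖zz j‖ = ‖((z j : A) : K) - ∑ l, ((ρ j l : A) : K) * monN u1 (β j l)‖ /
        ‖monN u1 al‖ := norm_div _ _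
    rw [h1, div_lt_one (hpos _)]
    refine (hza j).trans_lt (hq.trans_le ?_)
    rw [monN_add, norm_mul]
    exact mul_le_of_le_one_left (norm_nonneg _) (hle1 b)
  let g : Finset K := Finset.univ.image u2 ∪ Finset.univ.image zz
  have hgu : ∀ k, u2 k ∈ g := fun k =>
    Finset.mem_union_left _ (Finset.mem_image_of_mem _ (Finset.mem_univ k))
  have hgz : ∀ j, zz j ∈ g := fun j =>
    Finset.mem_union_right _ (Finset.mem_image_of_mem _ (Finset.mem_univ j))
  have hg : ∀ t ∈ g, ‖t‖ < 1 := by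
    intro t ht
    rcases Finset.mem_union.1 ht with h | h
    · obtain ⟨k, -, rfl⟩ := Finset.mem_image.1 h
      exact hu2.lt k
    · obtain ⟨j, -, rfl⟩ := Finset.mem_image.1 h
      exact hzz j
  refine ⟨g, hg, ?_⟩
  have hclb : Subring.closure ((A : Set K) ∪ (g : Set K)) ≤ (ball K).toSubring :=
    closure_le_ball A hA _ (fun t ht => (hg t (Finset.mem_coe.1 ht)).le)
  have iL : IsLocalRing (locV (ball K) (Subring.closure ((A : Set K) ∪ (g : Set K)))) :=
    isLocalRing_locV _ hclb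
  have iN0 : IsNoetherianRing (Subring.closure ((A : Set K) ∪ (g : Set K))) :=
    isNoetherianRing_closure g
  have iN : IsNoetherianRing (locV (ball K) (Subring.closure ((A : Set K) ∪ (g : Set K)))) :=
    isNoetherianRing_locV _
  have hmax := maximalIdeal_locV A hA hloc g hg
  have hdom3 := dom_locV _ hclb
  have hAR : A ≤ locV (ball K) (Subring.closure ((A : Set K) ∪ (g : Set K))) :=
    fun a ha => le_locV _ _ (Subring.subset_closure (Or.inl ha))
  have hgR : ∀ t ∈ g, t ∈ locV (ball K) (Subring.closure ((A : Set K) ∪ (g : Set K))) :=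
    fun t ht => le_locV _ _ (Subring.subset_closure (Or.inr (Finset.mem_coe.2 ht)))
  generalize hR3 : locV (ball K) (Subring.closure ((A : Set K) ∪ (g : Set K))) = R3 at *
  have hu2R : ∀ k, u2 k ∈ R3 := fun k => hgR _ (hgu k)
  have hu1R : ∀ k, u1 k ∈ R3 := fun k => by
    rw [hA2 k]; exact monN_mem_subring R3 hu2R _
  let v : Fin r → R3 := fun k => ⟨u2 k, hu2R k⟩
  let w : Fin r → R3 := fun k => ⟨u1 k, hu1R k⟩
  let ζ : ι → R3 := fun j => ⟨zz j, hgR _ (hgz j)⟩
  have hcw : ∀ γ : Fin r → ℕ, ((monN w γ : R3) : K) = monN u1 γ := fun γ => coe_monN R3 w γ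
  have hcv : ∀ γ : Fin r → ℕ, ((monN v γ : R3) : K) = monN u2 γ := fun γ => coe_monN R3 v γ
  let I : Ideal R3 := Ideal.span (Set.range v)
  have hI : I ≤ maximalIdeal R3 := by
    rw [Ideal.span_le]
    rintro _ ⟨k, rfl⟩
    exact ((hdom3 (v k)).2).2 (hu2.lt k)
  have hvI : ∀ η : Fin r → ℕ, η ≠ 0 → monN v η ∈ I := fun η hη => monN_mem v η hη
  have hwk : ∀ k, w k ∈ I := by
    intro k
    have h1 : w k = monN v (A2 k) := Subtype.ext (by rw [hcv]; exact hA2 k)
    rw [h1]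
    refine hvI _ (monN_mem_of_norm (u := u2) ?_)
    rw [← hA2 k]; exact hu1.lt k
  have hwI : ∀ γ : Fin r → ℕ, γ ≠ 0 → monN w γ ∈ I := by
    intro γ hγ
    exact (Ideal.span_le.2 (by rintro _ ⟨k, rfl⟩; exact hwk k) :
      Ideal.span (Set.range w) ≤ I) (monN_mem w γ hγ)
  -- the homomorphisms
  let T3 := AdicCompletion (maximalIdeal R3) R3
  let al3 : R3 →+* T3 := algebraMap R3 T3
  let j3 : A →+* R3 := Subring.inclusion hAR
  have hdomA := dom_subtype A hA hloc
  have hle : maximalIdeal A ≤ (maximalIdeal T3).comap (al3.comp j3) := by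
    intro a ha
    have h1 : maximalIdeal T3 = (maximalIdeal R3).map al3 := AdicCompletion.maximalIdeal_eq_map
    rw [Ideal.mem_comap, h1, RingHom.comp_apply]
    refine Ideal.mem_map_of_mem _ (((hdom3 (j3 a)).2).2 ?_)
    exact ((hdomA a).2).1 ha
  obtain ⟨χT, hχTl, hχT⟩ := exists_lift_completion' A T3 (maximalIdeal T3) le_rfl
    (al3.comp j3) hle
  have hχTa : ∀ a : A, χT (algebraMap A (AdicCompletion (maximalIdeal A) A) a) = al3 (j3 a) :=
    fun a => by rw [← RingHom.comp_apply, hχT]; rfl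
  let W : Fin r → T3 := fun k => al3 (w k)
  have hWm : ∀ γ : Fin r → ℕ, monN W γ = al3 (monN w γ) := fun γ => (map_monN al3 w γ).symm
  let χ : MvPolynomial (Fin r) S →+* T3 := MvPolynomial.eval₂Hom (χT.comp π) W
  have hχC : ∀ s : S, χ (MvPolynomial.C s) = χT (π s) := fun s => MvPolynomial.eval₂Hom_C _ _ s
  have hχX : ∀ k, χ (MvPolynomial.X k) = al3 (w k) := fun k => MvPolynomial.eval₂Hom_X' _ _ k
  have hχmon : ∀ γ : Fin r → ℕ, χ (monN MvPolynomial.X γ) = al3 (monN w γ) := by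
    intro γ
    rw [map_monN, map_monN]
    congr 1
    funext k
    exact hχX k
  have hχF : ∀ i, χ (F i) = 0 := by
    refine hF T3 χT W (fun a γ haγ => ?_)
    rw [hχTa, hWm]
    congr 1
    exact Subtype.ext (by rw [hcw]; exact haγ)
  have hχZ : ∀ j, χ (MvPolynomial.C (Z j) -
      ∑ l, MvPolynomial.C (σ j l) * monN MvPolynomial.X (β j l)) =
        al3 (monN w (b + γ0) * ζ j) := by
    intro j
    rw [map_sub, map_sum, hχC, hZz, hχTa]
    have h1 : ∀ l, χ (MvPolynomial.C (σ j l) * monN MvPolynomial.X (β j l)) =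
        al3 (j3 (ρ j l) * monN w (β j l)) := by
      intro l
      rw [map_mul, hχC, hσ, hχTa, hχmon, map_mul]
    rw [Finset.sum_congr rfl (fun l _ => h1 l), ← map_sum, ← map_sub]
    congr 1
    apply Subtype.ext
    rw [Subring.coe_mul, hcw, AddSubgroupClass.coe_sub]
    have h2 : ((∑ l, j3 (ρ j l) * monN w (β j l) : R3) : K) =
        ∑ l, ((ρ j l : A) : K) * monN u1 (β j l) := by
      have h3 := map_sum R3.subtype (fun l => j3 (ρ j l) * monN w (β j l)) Finset.univ
      refine h3.trans (Finset.sum_congr rfl fun l _ => ?_)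
      rw [map_mul]
      exact congrArg _ (hcw _)
    rw [h2]
    exact (mul_div_cancel₀ _ (hne al)).symm
  have hcu : IsUnit (χ (MvPolynomial.C (cb : S))) := (cb.isUnit.map MvPolynomial.C).map χ
  have hfin : ∀ i, al3 (ζ i) ∈ I.map al3 := by
    intro i
    refine final_algebra R3 w hu0 I hI χ MvPolynomial.X hχX _ ζ F hχF b γ0 hχZ (hwI γ0 hγ0)
      (B1 i) B2 ?_ ?_ μ _ hcu i (hB1' i) hB2'
    · intro β hβ
      obtain ⟨η, hη, h1⟩ := hdiv β (b + (b + γ0)) (Finset.mem_union_left _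
        (Finset.mem_union_left _ (Finset.mem_biUnion.2 ⟨i, Finset.mem_univ _,
          Finset.mem_image_of_mem _ hβ⟩)))
      refine ⟨monN v η, hvI η hη, Subtype.ext ?_⟩
      rw [Subring.coe_mul, hcw, hcw, hcv]; exact h1
    · intro β hβ
      obtain ⟨η, hη, h1⟩ := hdiv β b (Finset.mem_union_left _
        (Finset.mem_union_right _ (Finset.mem_image_of_mem _ hβ)))
      refine ⟨monN v η, hvI η hη, Subtype.ext ?_⟩
      rw [Subring.coe_mul, hcw, hcw, hcv]; exact h1
  -- the maximal ideal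
  have hzI : ∀ j, al3 (j3 (z j)) ∈ I.map al3 := by
    intro j
    have h1 := hχZ j
    rw [map_sub, map_sum, hχC, hZz, hχTa, sub_eq_iff_eq_add] at h1
    rw [h1]
    refine Ideal.add_mem _ ?_ (Ideal.sum_mem _ fun l _ => ?_)
    · rw [map_mul]; exact Ideal.mul_mem_left _ _ (hfin j)
    · rw [map_mul, hχmon]
      exact Ideal.mul_mem_left _ _ (Ideal.mem_map_of_mem _ (hwI _ (hβ j l)))
  have hmap : (maximalIdeal R3).map al3 ≤ I.map al3 := by
    refine (Ideal.map_mono hmax).trans ?_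
    rw [Ideal.map_span, Ideal.span_le]
    rintro _ ⟨x, hx, rfl⟩
    rw [SetLike.mem_coe]
    rcases hx with hx | ⟨hxA, hx1⟩
    · rcases Finset.mem_union.1 hx with h | h
      · obtain ⟨k, -, hk⟩ := Finset.mem_image.1 h
        have h1 : x = v k := Subtype.ext hk.symm
        rw [h1]
        exact Ideal.mem_map_of_mem _ (Ideal.subset_span ⟨k, rfl⟩)
      · obtain ⟨j, -, hj⟩ := Finset.mem_image.1 h
        have h1 : x = ζ j := Subtype.ext hj.symm
        rw [h1]
        exact hfin j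
    · have h1 : x = j3 ⟨x, hxA⟩ := Subtype.ext rfl
      obtain ⟨s, hs⟩ := hπ (algebraMap A (AdicCompletion (maximalIdeal A) A) ⟨x, hxA⟩)
      have h2 : s ∈ maximalIdeal S := by
        rw [mem_maximalIdeal, mem_nonunits_iff]
        intro hu
        have h3 := (hu.map π).map χT
        rw [hs, hχTa] at h3
        have h4 : al3 (j3 ⟨x, hxA⟩) ∈ maximalIdeal T3 := by
          have h5 : maximalIdeal T3 = (maximalIdeal R3).map al3 :=
            AdicCompletion.maximalIdeal_eq_map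
          rw [h5]
          refine Ideal.mem_map_of_mem _ ?_
          rw [← h1]
          exact ((hdom3 x).2).2 hx1
        exact (mem_nonunits_iff.1 ((mem_maximalIdeal _).1 h4)) h3
      rw [h1, ← hχTa, ← hs]
      rw [← hZ] at h2
      have h6 := Ideal.mem_map_of_mem (χT.comp π) h2
      rw [Ideal.map_span] at h6
      refine (Ideal.span_le.2 ?_ : Ideal.span ((χT.comp π) '' Set.range Z) ≤ I.map al3) h6
      rintro _ ⟨_, ⟨j, rfl⟩, rfl⟩
      rw [SetLike.mem_coe, RingHom.comp_apply, hZz, hχTa]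
      exact hzI j
  have hIeq : maximalIdeal R3 = I :=
    le_antisymm (maximalIdeal_le_of_completion R3 I hI hmap) hI
  have hdim : (r : WithBot ℕ∞) ≤ ringKrullDim R3 := krullDim_ge R3 R3.subtype hdom3 v hu2
  refine IsRegularLocalRing.of_spanFinrank_maximalIdeal_le R3 ?_
  refine le_trans ?_ hdim
  rw [hIeq]
  have h1 : (Ideal.span (Set.range v) : Ideal R3).spanFinrank ≤ (Set.range v).ncard :=
    Submodule.spanFinrank_span_le_ncard_of_finite (Set.finite_range v)
  have h2 : (Set.range v).ncard ≤ r := by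
    have := Set.ncard_image_le (f := v) (s := Set.univ) Set.finite_univ
    rwa [Set.image_univ, Set.ncard_univ, Nat.card_eq_fintype_card, Fintype.card_fin] at this
  exact_mod_cast h1.trans h2

end Pool.Agent.Lib.MP_3029eb_ag.Abh
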