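import Pool.Agent.Lib.MP_3029eb_ag.H44Final

open IsLocalRing

namespace Pool.Agent.Lib.MP_3029eb_ag

/-- **Presentation lemma.** A complete noetherian local ring `T` with a prime `P` that contains no
nonzero integer is a quotient of a regular local ring `S` such that the preimage of `P` has a
bounded derivation. -/
theorem exists_presentation (T : Type) [CommRing T] [IsLocalRing T] [IsNoetherianRing T]
    [IsAdicComplete (maximalIdeal T) T] (P : Ideal T) [P.IsPrime]
    (hP : ∀ n : ℕ, (n : T) ∈ P → (n : T) = 0) :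
    ∃ (S : Type) (_ : CommRing S) (_ : IsRegularLocalRing S) (π : S →+* T),
      Function.Surjective π ∧ BddDer S (P.comap π) := by
  have hchar : (∃ p : ℕ, Fact p.Prime ∧ CharP T p) ∨
      (∃ p : ℕ, Fact p.Prime ∧ CharP (ResidueField T) p ∧ (p : T) ∉ P) ∨
      CharZero (ResidueField T) := by
    rcases CharP.exists' (ResidueField T) with h0 | ⟨p, hp, hpk⟩
    · exact Or.inr (Or.inr h0)
    · by_cases hR : (p : T) = 0
      · left
        exact ⟨p, hp, (CharP.charP_iff_prime_eq_zero hp.out).2 hR⟩
      · right; left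
        exact ⟨p, hp, hpk, fun hmem => hR (hP _ hmem)⟩
  obtain ⟨Λ, S, iΛ, iΛd, iS, iSr, i, π, hπ, hΛi, hΛf, hΛc⟩ := exists_cohen_data T P hchar
  let q : S ⧸ P.comap π →+* T ⧸ P := Ideal.quotientMap P π le_rfl
  have hqi : Function.Injective q := Ideal.quotientMap_injective' le_rfl
  have hqs : Function.Surjective q := Ideal.quotientMap_surjective hπ
  have hqc : (q.comp ((Ideal.Quotient.mk (P.comap π)).comp i)) =
      (Ideal.Quotient.mk P).comp (π.comp i) := by
    ext a; rfl
  have hi1 : Function.Injective ((Ideal.Quotient.mk (P.comap π)).comp i) := by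
    intro a b hab
    apply hΛi
    rw [← hqc]
    exact congrArg q hab
  have hf1 : ((Ideal.Quotient.mk (P.comap π)).comp i).Finite := by
    let e := RingEquiv.ofBijective q ⟨hqi, hqs⟩
    have he : (Ideal.Quotient.mk (P.comap π)).comp i =
        (e.symm : _ →+* _).comp ((Ideal.Quotient.mk P).comp (π.comp i)) := by
      rw [← hqc]
      ext a
      exact (e.symm_apply_apply _).symm
    rw [he]
    exact RingHom.Finite.comp (RingHom.Finite.of_surjective _ e.symm.surjective) hΛf
  refine ⟨S, iS, iSr, π, hπ, ?_⟩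
  rcases hΛc with h0 | ⟨p, hp, hpΛ, hgood⟩
  · exact bddDer_charZero Λ S _ i hi1 hf1
  · exact bddDer_charP p Λ S hgood _ i hi1 hf1

end Pool.Agent.Lib.MP_3029eb_ag
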