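import Mathlib

/-!
Quadratic transforms along a homomorphism to a discrete valuation ring, as subrings of a
localization.  `QT φ x` is the set of fractions `b / s` with `b, s ∈ M ^ N` and `φ s ~ (φ x) ^ N`.
-/

open IsLocalRing

namespace Pool.Agent.Lib.MP_3029eb_ag

section Basic

variable {A : Type} [CommRing A] [IsLocalRing A] {W : Type} [CommRing W]

/-- The denominators: `s ∈ M ^ N` with `φ s ~ (φ x) ^ N`. -/
def sig (φ : A →+* W) (x : A) : Submonoid A where
  carrier := {s | ∃ N : ℕ, s ∈ maximalIdeal A ^ N ∧ Associated (φ s) (φ x ^ N)}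
  mul_mem' := by
    rintro a b ⟨N, ha, ha'⟩ ⟨N', hb, hb'⟩
    refine ⟨N + N', ?_, ?_⟩
    · rw [pow_add]; exact Ideal.mul_mem_mul ha hb
    · rw [map_mul, pow_add]; exact ha'.mul_mul hb'
  one_mem' := ⟨0, by simp, by simp⟩

/-- The quadratic transform, as a subring of the localization at `sig φ x`. -/
def QTsub (φ : A →+* W) (x : A) : Subring (Localization (sig φ x)) where
  carrier := {z | ∃ (N : ℕ) (b : A) (s : sig φ x), b ∈ maximalIdeal A ^ N ∧
    (s : A) ∈ maximalIdeal A ^ N ∧ Associated (φ s) (φ x ^ N) ∧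
    z = IsLocalization.mk' (Localization (sig φ x)) b s}
  mul_mem' := by
    rintro _ _ ⟨N, b, s, hb, hs, hs', rfl⟩ ⟨N', b', s', hb', ht, ht', rfl⟩
    refine ⟨N + N', b * b', s * s', ?_, ?_, ?_, ?_⟩
    · rw [pow_add]; exact Ideal.mul_mem_mul hb hb'
    · rw [pow_add]; exact Ideal.mul_mem_mul hs ht
    · rw [Submonoid.coe_mul, map_mul, pow_add]; exact hs'.mul_mul ht'
    · rw [IsLocalization.mk'_mul]
  one_mem' := ⟨0, 1, 1, by simp, by simp, by simp, by rw [IsLocalization.mk'_one, map_one]⟩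
  add_mem' := by
    rintro _ _ ⟨N, b, s, hb, hs, hs', rfl⟩ ⟨N', b', s', hb', ht, ht', rfl⟩
    refine ⟨N + N', b * s' + b' * s, s * s', ?_, ?_, ?_, ?_⟩
    · rw [pow_add]
      refine Ideal.add_mem _ (Ideal.mul_mem_mul hb ht) ?_
      rw [mul_comm b']
      exact Ideal.mul_mem_mul hs hb'
    · rw [pow_add]; exact Ideal.mul_mem_mul hs ht
    · rw [Submonoid.coe_mul, map_mul, pow_add]; exact hs'.mul_mul ht'
    · rw [IsLocalization.mk'_add]
  zero_mem' := ⟨0, 0, 1, by simp, by simp, by simp, by rw [IsLocalization.mk'_one, map_zero]⟩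
  neg_mem' := by
    rintro _ ⟨N, b, s, hb, hs, hs', rfl⟩
    refine ⟨N, -b, s, neg_mem hb, hs, hs', ?_⟩
    rw [eq_comm, ← sub_eq_zero, sub_neg_eq_add, ← IsLocalization.mk'_add]
    rw [IsLocalization.mk'_eq_zero_iff]
    exact ⟨1, by ring⟩

/-- The quadratic transform of `A` along `φ` (with respect to an element `x` of the maximal ideal
with `φ x` of minimal value). -/
abbrev QT (φ : A →+* W) (x : A) : Type := QTsub φ x

/-- The standing hypotheses. -/
structure QTData (φ : A →+* W) (x : A) : Prop where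
  local_hom : IsLocalHom φ
  x_mem : x ∈ maximalIdeal A
  x_ne : φ x ≠ 0
  x_dvd : ∀ y ∈ maximalIdeal A, φ x ∣ φ y

/-- The fraction `b / s` in the quadratic transform. -/
noncomputable def QT.mk (φ : A →+* W) (x : A) (N : ℕ) (b s : A) (hb : b ∈ maximalIdeal A ^ N)
    (hs : s ∈ maximalIdeal A ^ N) (hs' : Associated (φ s) (φ x ^ N)) : QT φ x :=
  ⟨IsLocalization.mk' (Localization (sig φ x)) b (⟨s, N, hs, hs'⟩ : sig φ x),
    N, b, ⟨s, N, hs, hs'⟩, hb, hs, hs', rfl⟩

theorem QT.exists_rep {φ : A →+* W} {x : A} (z : QT φ x) :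
    ∃ (N : ℕ) (b s : A) (hb : b ∈ maximalIdeal A ^ N) (hs : s ∈ maximalIdeal A ^ N)
      (hs' : Associated (φ s) (φ x ^ N)), z = QT.mk φ x N b s hb hs hs' := by
  obtain ⟨z, N, b, s, hb, hs, hs', hz⟩ := z
  exact ⟨N, b, s, hb, hs, hs', Subtype.ext hz⟩

/-- The structure map `A → QT`. -/
noncomputable def QT.of (φ : A →+* W) (x : A) : A →+* QT φ x :=
  (algebraMap A (Localization (sig φ x))).codRestrict (QTsub φ x) (fun a =>
    ⟨0, a, 1, by simp, by simp, by simp, by rw [IsLocalization.mk'_one]⟩)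

theorem QT.coe_of (φ : A →+* W) (x : A) (a : A) :
    ((QT.of φ x a : QT φ x) : Localization (sig φ x)) = algebraMap A _ a := rfl

theorem QT.coe_mk (φ : A →+* W) (x : A) (N : ℕ) (b s : A) (hb : b ∈ maximalIdeal A ^ N)
    (hs : s ∈ maximalIdeal A ^ N) (hs' : Associated (φ s) (φ x ^ N)) :
    ((QT.mk φ x N b s hb hs hs' : QT φ x) : Localization (sig φ x)) =
      IsLocalization.mk' (Localization (sig φ x)) b (⟨s, N, hs, hs'⟩ : sig φ x) := rfl

theorem QT.of_mul_mk (φ : A →+* W) (x : A) (N : ℕ) (b s : A) (hb : b ∈ maximalIdeal A ^ N)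
    (hs : s ∈ maximalIdeal A ^ N) (hs' : Associated (φ s) (φ x ^ N)) :
    QT.of φ x s * QT.mk φ x N b s hb hs hs' = QT.of φ x b := by
  apply Subtype.ext
  rw [Subring.coe_mul, QT.coe_of, QT.coe_of, QT.coe_mk, mul_comm]
  exact IsLocalization.mk'_spec (Localization (sig φ x)) b (⟨s, N, hs, hs'⟩ : sig φ x)

/-- Elements of `sig` act injectively on the quadratic transform. -/
theorem QT.of_mul_cancel {φ : A →+* W} {x : A} {s : A} (hs : s ∈ sig φ x) {z w : QT φ x}
    (h : QT.of φ x s * z = QT.of φ x s * w) : z = w := by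
  apply Subtype.ext
  have h' := congrArg Subtype.val h
  rw [Subring.coe_mul, Subring.coe_mul, QT.coe_of] at h'
  exact (IsLocalization.map_units (Localization (sig φ x)) ⟨s, hs⟩).mul_left_cancel h'

theorem QT.mk_eq_iff {φ : A →+* W} {x : A} {N : ℕ} {b s : A} {hb : b ∈ maximalIdeal A ^ N}
    {hs : s ∈ maximalIdeal A ^ N} {hs' : Associated (φ s) (φ x ^ N)} {z : QT φ x} :
    z = QT.mk φ x N b s hb hs hs' ↔ QT.of φ x s * z = QT.of φ x b := by
  constructor
  · rintro rfl; exact QT.of_mul_mk ..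
  · intro h
    refine QT.of_mul_cancel (s := s) ⟨N, hs, hs'⟩ ?_
    rw [h, QT.of_mul_mk]

theorem QT.of_eq_of_iff {φ : A →+* W} {x : A} {a b : A} :
    QT.of φ x a = QT.of φ x b ↔ ∃ c ∈ sig φ x, c * a = c * b := by
  rw [← Subtype.coe_inj, QT.coe_of, QT.coe_of,
    IsLocalization.eq_iff_exists (sig φ x) (Localization (sig φ x))]
  constructor
  · rintro ⟨c, hc⟩; exact ⟨c, c.2, hc⟩
  · rintro ⟨c, hc, h⟩; exact ⟨⟨c, hc⟩, h⟩

theorem QT.mk_eq_mk_iff {φ : A →+* W} {x : A} {N : ℕ} {b s : A} {hb : b ∈ maximalIdeal A ^ N}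
    {hs : s ∈ maximalIdeal A ^ N} {hs' : Associated (φ s) (φ x ^ N)} {N' : ℕ} {b' s' : A}
    {hb' : b' ∈ maximalIdeal A ^ N'} {ht : s' ∈ maximalIdeal A ^ N'}
    {ht' : Associated (φ s') (φ x ^ N')} :
    QT.mk φ x N b s hb hs hs' = QT.mk φ x N' b' s' hb' ht ht' ↔
      ∃ c ∈ sig φ x, c * (s' * b) = c * (s * b') := by
  rw [QT.mk_eq_iff, ← QT.of_eq_of_iff, map_mul, map_mul, ← QT.of_mul_mk φ x N b s hb hs hs']
  constructor
  · intro h
    rw [← h]; ring
  · intro h
    refine QT.of_mul_cancel (s := s) ⟨N, hs, hs'⟩ ?_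
    rw [← h]; ring

end Basic

section ToW

variable {A : Type} [CommRing A] [IsLocalRing A] {W : Type} [CommRing W] [IsDomain W]

theorem QTData.dvd_pow {φ : A →+* W} {x : A} (h : QTData φ x) (N : ℕ) {b : A}
    (hb : b ∈ maximalIdeal A ^ N) : φ x ^ N ∣ φ b := by
  have h1 : (maximalIdeal A).map φ ≤ Ideal.span {φ x} := by
    rw [Ideal.map_le_iff_le_comap]
    intro y hy
    rw [Ideal.mem_comap, Ideal.mem_span_singleton]
    exact h.x_dvd y hy
  have h2 : φ b ∈ Ideal.span {φ x} ^ N :=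
    (Ideal.pow_right_mono h1 N) (by rw [← Ideal.map_pow]; exact Ideal.mem_map_of_mem _ hb)
  rw [Ideal.span_singleton_pow, Ideal.mem_span_singleton] at h2
  exact h2

theorem QTData.sig_ne {φ : A →+* W} {x : A} (h : QTData φ x) {s : A} (hs : s ∈ sig φ x) :
    φ s ≠ 0 := by
  obtain ⟨N, -, hs'⟩ := hs
  intro h0
  rw [h0] at hs'
  exact pow_ne_zero N h.x_ne (hs'.eq_zero_iff.1 rfl)

/-- The homomorphism to the fraction field. -/
noncomputable def QTData.toFrac {φ : A →+* W} {x : A} (h : QTData φ x) :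
    Localization (sig φ x) →+* FractionRing W :=
  IsLocalization.lift (M := sig φ x) (g := (algebraMap W (FractionRing W)).comp φ) (by
    intro y
    rw [isUnit_iff_ne_zero, RingHom.comp_apply]
    intro h0
    exact h.sig_ne y.2 ((IsFractionRing.injective W (FractionRing W)) (by rw [h0, map_zero])))

theorem QTData.toFrac_algebraMap {φ : A →+* W} {x : A} (h : QTData φ x) (a : A) :
    h.toFrac (algebraMap A _ a) = algebraMap W (FractionRing W) (φ a) := by
  rw [QTData.toFrac, IsLocalization.lift_eq]; rfl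

theorem QTData.toFrac_mem {φ : A →+* W} {x : A} (h : QTData φ x) (z : QT φ x) :
    h.toFrac (z : Localization (sig φ x)) ∈ (algebraMap W (FractionRing W)).range := by
  obtain ⟨N, b, s, hb, hs, hs', rfl⟩ := z.exists_rep
  obtain ⟨c, hc⟩ := hs'.symm.dvd.trans (dvd_refl _) |>.mul_right 1 |> fun _ => h.dvd_pow N hb
  obtain ⟨u, hu⟩ := hs'
  refine ⟨↑u * c, ?_⟩
  have h1 := congrArg h.toFrac (congrArg Subtype.val (QT.of_mul_mk φ x N b s hb hs ⟨u, hu⟩))
  rw [Subring.coe_mul, QT.coe_of, QT.coe_of, map_mul, h.toFrac_algebraMap,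
    h.toFrac_algebraMap] at h1
  have h2 : algebraMap W (FractionRing W) (φ s) ≠ 0 := by
    intro h0
    exact h.sig_ne (s := s) ⟨N, hs, ⟨u, hu⟩⟩
      ((IsFractionRing.injective W (FractionRing W)) (by rw [h0, map_zero]))
  apply mul_left_cancel₀ h2
  rw [h1, hc, ← hu, ← map_mul]
  congr 1
  ring

/-- The induced homomorphism from the quadratic transform to `W`. -/
noncomputable def QTData.toW {φ : A →+* W} {x : A} (h : QTData φ x) : QT φ x →+* W :=
  ((RingEquiv.ofBijective (algebraMap W (FractionRing W)).rangeRestrict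
    ⟨fun _ _ hab => IsFractionRing.injective W (FractionRing W) (congrArg Subtype.val hab),
      RingHom.rangeRestrict_surjective _⟩).symm : _ →+* W).comp
    ((h.toFrac.comp (QTsub φ x).subtype).codRestrict (algebraMap W (FractionRing W)).range
      (fun z => h.toFrac_mem z))

theorem QTData.algebraMap_toW {φ : A →+* W} {x : A} (h : QTData φ x) (z : QT φ x) :
    algebraMap W (FractionRing W) (h.toW z) = h.toFrac (z : Localization (sig φ x)) := by
  have := (RingEquiv.ofBijective (algebraMap W (FractionRing W)).rangeRestrict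
    ⟨fun _ _ hab => IsFractionRing.injective W (FractionRing W) (congrArg Subtype.val hab),
      RingHom.rangeRestrict_surjective _⟩).apply_symm_apply
    (((h.toFrac.comp (QTsub φ x).subtype).codRestrict (algebraMap W (FractionRing W)).range
      (fun z => h.toFrac_mem z)) z)
  exact congrArg Subtype.val this

@[simp]
theorem QTData.toW_of {φ : A →+* W} {x : A} (h : QTData φ x) (a : A) :
    h.toW (QT.of φ x a) = φ a := by
  apply IsFractionRing.injective W (FractionRing W)
  rw [h.algebraMap_toW, QT.coe_of, h.toFrac_algebraMap]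

theorem QTData.toW_mk {φ : A →+* W} {x : A} (h : QTData φ x) {N : ℕ} {b s : A}
    (hb : b ∈ maximalIdeal A ^ N) (hs : s ∈ maximalIdeal A ^ N)
    (hs' : Associated (φ s) (φ x ^ N)) :
    φ s * h.toW (QT.mk φ x N b s hb hs hs') = φ b := by
  rw [← h.toW_of s, ← map_mul, QT.of_mul_mk, h.toW_of]

theorem QTData.isUnit_iff {φ : A →+* W} {x : A} (h : QTData φ x) (z : QT φ x) :
    IsUnit z ↔ IsUnit (h.toW z) := by
  constructor
  · exact fun hz => hz.map _
  · intro hz
    obtain ⟨N, b, s, hb, hs, hs', rfl⟩ := z.exists_rep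
    have h1 := h.toW_mk hb hs hs'
    have hb' : Associated (φ b) (φ x ^ N) := by
      refine Associated.trans ?_ hs'
      rw [← h1]
      exact (associated_mul_unit_left (φ s) _ hz)
    refine IsUnit.of_mul_eq_one (QT.mk φ x N s b hs hb hb') ?_
    refine QT.of_mul_cancel (s := s * b) ?_ ?_
    · exact mul_mem ⟨N, hs, hs'⟩ ⟨N, hb, hb'⟩
    · rw [mul_one, map_mul]
      calc _ = (QT.of φ x s * QT.mk φ x N b s hb hs hs') *
          (QT.of φ x b * QT.mk φ x N s b hs hb hb') := by ring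
        _ = _ := by rw [QT.of_mul_mk, QT.of_mul_mk]; ring

theorem QTData.isLocalRing {φ : A →+* W} {x : A} [IsLocalRing W] (h : QTData φ x) :
    IsLocalRing (QT φ x) := by
  have : Nontrivial (QT φ x) := by
    refine ⟨⟨0, 1, fun h0 => ?_⟩⟩
    have := congrArg h.toW h0
    rw [map_zero, map_one] at this
    exact zero_ne_one this
  refine IsLocalRing.of_nonunits_add (fun a b ha hb => ?_)
  rw [mem_nonunits_iff, h.isUnit_iff] at ha hb ⊢
  rw [map_add]
  exact IsLocalRing.nonunits_add ha hb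

theorem QTData.isLocalHom {φ : A →+* W} {x : A} (h : QTData φ x) : IsLocalHom h.toW :=
  ⟨fun z hz => (h.isUnit_iff z).2 hz⟩

theorem QTData.isLocalHom_of {φ : A →+* W} {x : A} (h : QTData φ x) : IsLocalHom (QT.of φ x) := by
  refine ⟨fun a ha => ?_⟩
  have h1 := (h.isUnit_iff _).1 ha
  rw [h.toW_of] at h1
  have := h.local_hom
  exact isUnit_of_map_unit φ a h1

end ToW

section Map

variable {A B : Type} [CommRing A] [IsLocalRing A] [CommRing B] [IsLocalRing B]
  {W : Type} [CommRing W]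

theorem sig_map {φ : A →+* W} {x : A} {ψ : B →+* W} {y : B} (f : A →+* B)
    (hf : ∀ a ∈ maximalIdeal A, f a ∈ maximalIdeal B) (hφ : ψ.comp f = φ) (hx : f x = y) :
    sig φ x ≤ (sig ψ y).comap f := by
  rintro s ⟨N, hs, hs'⟩
  refine ⟨N, ?_, ?_⟩
  · have : (maximalIdeal A).map f ≤ maximalIdeal B := by
      rw [Ideal.map_le_iff_le_comap]; exact hf
    exact Ideal.pow_right_mono this N (by rw [← Ideal.map_pow]; exact Ideal.mem_map_of_mem _ hs)
  · subst hφ; subst hx; exact hs'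

theorem pow_map {f : A →+* B} (hf : ∀ a ∈ maximalIdeal A, f a ∈ maximalIdeal B) {N : ℕ} {b : A}
    (hb : b ∈ maximalIdeal A ^ N) : f b ∈ maximalIdeal B ^ N := by
  have : (maximalIdeal A).map f ≤ maximalIdeal B := by
    rw [Ideal.map_le_iff_le_comap]; exact hf
  exact Ideal.pow_right_mono this N (by rw [← Ideal.map_pow]; exact Ideal.mem_map_of_mem _ hb)

/-- Functoriality of the quadratic transform. -/
noncomputable def QT.map {φ : A →+* W} {x : A} {ψ : B →+* W} {y : B} (f : A →+* B)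
    (hf : ∀ a ∈ maximalIdeal A, f a ∈ maximalIdeal B) (hφ : ψ.comp f = φ) (hx : f x = y) :
    QT φ x →+* QT ψ y :=
  ((IsLocalization.map (Localization (sig ψ y)) f (sig_map f hf hφ hx)).comp
    (QTsub φ x).subtype).codRestrict (QTsub ψ y) (fun z => by
      obtain ⟨N, b, s, hb, hs, hs', rfl⟩ := QT.exists_rep z
      refine ⟨N, f b, ⟨f s, N, pow_map hf hs, ?_⟩, pow_map hf hb, pow_map hf hs, ?_, ?_⟩
      · subst hφ; subst hx; exact hs'
      · subst hφ; subst hx; exact hs'
      · exact IsLocalization.map_mk' (sig_map f hf hφ hx) _ _)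

theorem QT.map_of {φ : A →+* W} {x : A} {ψ : B →+* W} {y : B} (f : A →+* B)
    (hf : ∀ a ∈ maximalIdeal A, f a ∈ maximalIdeal B) (hφ : ψ.comp f = φ) (hx : f x = y) (a : A) :
    QT.map f hf hφ hx (QT.of φ x a) = QT.of ψ y (f a) := by
  apply Subtype.ext
  exact IsLocalization.map_eq (sig_map f hf hφ hx) a

theorem QT.map_mk {φ : A →+* W} {x : A} {ψ : B →+* W} {y : B} (f : A →+* B)
    (hf : ∀ a ∈ maximalIdeal A, f a ∈ maximalIdeal B) (hφ : ψ.comp f = φ) (hx : f x = y)
    {N : ℕ} {b s : A} (hb : b ∈ maximalIdeal A ^ N) (hs : s ∈ maximalIdeal A ^ N)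
    (hs' : Associated (φ s) (φ x ^ N)) (hs'' : Associated (ψ (f s)) (ψ y ^ N)) :
    QT.map f hf hφ hx (QT.mk φ x N b s hb hs hs') =
      QT.mk ψ y N (f b) (f s) (pow_map hf hb) (pow_map hf hs) hs'' := by
  rw [QT.mk_eq_iff, ← QT.map_of f hf hφ hx, ← map_mul, QT.of_mul_mk, QT.map_of]

/-- A ring homomorphism under which all denominators become units extends to the quadratic
transform. -/
noncomputable def QT.lift {φ : A →+* W} {x : A} {C : Type} [CommRing C] (g : A →+* C)
    (hg : ∀ s ∈ sig φ x, IsUnit (g s)) : QT φ x →+* C :=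
  (IsLocalization.lift (M := sig φ x) (S := Localization (sig φ x)) (g := g)
    (fun y => hg y y.2)).comp (QTsub φ x).subtype

@[simp]
theorem QT.lift_of {φ : A →+* W} {x : A} {C : Type} [CommRing C] (g : A →+* C)
    (hg : ∀ s ∈ sig φ x, IsUnit (g s)) (a : A) : QT.lift g hg (QT.of φ x a) = g a := by
  exact IsLocalization.lift_eq _ a

theorem QT.lift_mk {φ : A →+* W} {x : A} {C : Type} [CommRing C] (g : A →+* C)
    (hg : ∀ s ∈ sig φ x, IsUnit (g s)) {N : ℕ} {b s : A} (hb : b ∈ maximalIdeal A ^ N)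
    (hs : s ∈ maximalIdeal A ^ N) (hs' : Associated (φ s) (φ x ^ N)) :
    g s * QT.lift g hg (QT.mk φ x N b s hb hs hs') = g b := by
  rw [← QT.lift_of g hg s, ← map_mul, QT.of_mul_mk, QT.lift_of]

end Map

section MapW

variable {A B : Type} [CommRing A] [IsLocalRing A] [CommRing B] [IsLocalRing B]
  {W : Type} [CommRing W] [IsDomain W]

theorem QT.toW_map {φ : A →+* W} {x : A} {ψ : B →+* W} {y : B} (f : A →+* B)
    (hf : ∀ a ∈ maximalIdeal A, f a ∈ maximalIdeal B) (hφ : ψ.comp f = φ) (hx : f x = y)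
    (hA : QTData φ x) (hB : QTData ψ y) (z : QT φ x) :
    hB.toW (QT.map f hf hφ hx z) = hA.toW z := by
  obtain ⟨N, b, s, hb, hs, hs', rfl⟩ := z.exists_rep
  have h1 := hA.toW_mk hb hs hs'
  have hs0 : φ s ≠ 0 := hA.sig_ne (s := s) ⟨N, hs, hs'⟩
  apply mul_left_cancel₀ hs0
  rw [h1]
  have hs'' : Associated (ψ (f s)) (ψ y ^ N) := by subst hφ; subst hx; exact hs'
  rw [QT.map_mk f hf hφ hx hb hs hs' hs'']
  have h2 := hB.toW_mk (pow_map hf hb) (pow_map hf hs) hs''
  subst hφ
  exact h2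

end MapW

end Pool.Agent.Lib.MP_3029eb_ag
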