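import Mathlib
import Pool.Agent.Lib.MP_1ce8ed_ag.RL4

/-!
Quotients of regular local rings by ideals that are generically generated by few elements.
-/

namespace Pool.Agent.Lib.MP_3029eb_ag

open IsLocalRing

universe u v

variable {K : Type v} [Field K]

/-- The kernel of `φ` is generated by the `f l` at the kernel. -/
def GenGen {S : Type u} [CommRing S] (φ : S →+* K) {h : ℕ} (f : Fin h → S) : Prop :=
  ∀ g, φ g = 0 → ∃ s, φ s ≠ 0 ∧ s * g ∈ Ideal.span (Set.range f)

theorem mem_maximalIdeal_of_map_eq_zero {S : Type u} [CommRing S] [IsLocalRing S] (φ : S →+* K)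
    {g : S} (hg : φ g = 0) : g ∈ maximalIdeal S := by
  rw [mem_maximalIdeal, mem_nonunits_iff]
  intro hu
  have := hu.map φ
  rw [hg] at this
  exact not_isUnit_zero this

theorem map_mk_maximalIdeal {S : Type u} [CommRing S] [IsLocalRing S] (x : S)
    [IsLocalRing (S ⧸ Ideal.span {x})] :
    (maximalIdeal S).map (Ideal.Quotient.mk (Ideal.span {x})) =
      maximalIdeal (S ⧸ Ideal.span {x}) :=
  IsLocalRing.map_maximalIdeal_of_surjective _ Ideal.Quotient.mk_surjective

theorem regular_or_mem_sq (h : ℕ) : ∀ (S : Type u) [CommRing S] [IsRegularLocalRing S]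
    (φ : S →+* K) (f : Fin h → S), (∀ l, φ (f l) = 0) → GenGen φ f →
    IsRegularLocalRing φ.range ∨
      ∃ (c : Fin h → S) (l : Fin h), IsUnit (c l) ∧ ∑ i, c i * f i ∈ maximalIdeal S ^ 2 := by
  induction h with
  | zero =>
    intro S _ _ φ f hf hgen
    left
    have hdom := Pool.Agent.Lib.MP_1ce8ed_ag.isDomain_of_regular S
    have hinj : Function.Injective φ := by
      rw [injective_iff_map_eq_zero]
      intro g hg
      obtain ⟨s, hs, hsg⟩ := hgen g hg
      rw [Set.range_eq_empty, Ideal.span_empty, Ideal.mem_bot, mul_eq_zero] at hsg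
      rcases hsg with h0 | h0
      · exact absurd (by rw [h0, map_zero]) hs
      · exact h0
    exact IsRegularLocalRing.of_ringEquiv
      (RingEquiv.ofBijective φ.rangeRestrict
        ⟨fun a b hab => hinj (congrArg Subtype.val hab), φ.rangeRestrict_surjective⟩)
  | succ h ih =>
    intro S _ _ φ f hf hgen
    by_cases h2 : f 0 ∈ maximalIdeal S ^ 2
    · right
      refine ⟨Pi.single 0 1, 0, by simp, ?_⟩
      simpa [Fin.sum_univ_succ] using h2
    have h1 : f 0 ∈ maximalIdeal S := mem_maximalIdeal_of_map_eq_zero φ (hf 0)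
    obtain ⟨hreg, -⟩ := Pool.Agent.Lib.MP_1ce8ed_ag.regular_quotient h1 h2
    set ψ : S ⧸ Ideal.span {f 0} →+* K := Ideal.Quotient.lift (Ideal.span {f 0}) φ (by
      intro a ha
      obtain ⟨b, rfl⟩ := Ideal.mem_span_singleton'.1 ha
      rw [map_mul, hf 0, mul_zero]) with hψ
    have hψm : ∀ a, ψ (Ideal.Quotient.mk _ a) = φ a := fun a => rfl
    set fb : Fin h → S ⧸ Ideal.span {f 0} := fun l => Ideal.Quotient.mk _ (f l.succ) with hfb
    have key := ih (S ⧸ Ideal.span {f 0}) ψ fb (fun l => by rw [hfb]; exact hf l.succ) (by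
      intro g hg
      obtain ⟨g, rfl⟩ := Ideal.Quotient.mk_surjective g
      obtain ⟨s, hs, hsg⟩ := hgen g hg
      refine ⟨Ideal.Quotient.mk _ s, hs, ?_⟩
      rw [← map_mul]
      have h3 := Ideal.mem_map_of_mem (Ideal.Quotient.mk (Ideal.span {f 0})) hsg
      rw [Ideal.map_span] at h3
      refine (Ideal.span_le.2 ?_) h3
      rintro _ ⟨_, ⟨l, rfl⟩, rfl⟩
      rcases Fin.eq_zero_or_eq_succ l with rfl | ⟨l, rfl⟩
      · have : Ideal.Quotient.mk (Ideal.span {f 0}) (f 0) = 0 :=
          Ideal.Quotient.eq_zero_iff_mem.2 (Ideal.mem_span_singleton_self _)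
        rw [this]
        exact Ideal.zero_mem _
      · exact Ideal.subset_span ⟨l, rfl⟩)
    rcases key with key | ⟨c, l, hc, hsum⟩
    · left
      have hr : ψ.range = φ.range := by
        ext y
        constructor
        · rintro ⟨a, rfl⟩
          obtain ⟨a, rfl⟩ := Ideal.Quotient.mk_surjective a
          exact ⟨a, rfl⟩
        · rintro ⟨a, rfl⟩
          exact ⟨Ideal.Quotient.mk _ a, rfl⟩
      rw [← hr]
      exact key
    · right
      have hsur : Function.Surjective (Ideal.Quotient.mk (Ideal.span {f 0})) :=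
        Ideal.Quotient.mk_surjective
      choose c' hc' using fun i => hsur (c i)
      rw [← map_mk_maximalIdeal, ← Ideal.map_pow, Ideal.mem_map_iff_of_surjective _ hsur] at hsum
      obtain ⟨m, hm, hmeq⟩ := hsum
      have h4 : Ideal.Quotient.mk (Ideal.span {f 0}) (∑ i, c' i * f i.succ) =
          Ideal.Quotient.mk (Ideal.span {f 0}) m := by
        rw [hmeq, map_sum]
        refine Finset.sum_congr rfl fun i _ => ?_
        rw [map_mul, hc']
      rw [Ideal.Quotient.eq] at h4
      obtain ⟨a, ha⟩ := Ideal.mem_span_singleton'.1 h4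
      refine ⟨Fin.cons (-a) c', l.succ, ?_, ?_⟩
      · rw [Fin.cons_succ]
        by_contra hnu
        have h5 : c' l ∈ maximalIdeal S := (mem_maximalIdeal _).2 hnu
        have h6 := Ideal.mem_map_of_mem (Ideal.Quotient.mk (Ideal.span {f 0})) h5
        rw [map_mk_maximalIdeal, hc'] at h6
        exact (mem_maximalIdeal _).1 h6 hc
      · rw [Fin.sum_univ_succ]
        simp only [Fin.cons_zero, Fin.cons_succ]
        have : -a * f 0 + ∑ i, c' i * f i.succ = m := by
          rw [neg_mul, ha]
          ring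
        rw [this]
        exact hm

end Pool.Agent.Lib.MP_3029eb_ag
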