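import Mathlib
import Pool.Agent.Lib.MP_3029eb_ag.H6Quot

/-!
Regularity of the local quadratic transform of a regular local ring.
-/

namespace Pool.Agent.Lib.MP_3029eb_ag

open IsLocalRing

universe u v

/-- Few generators at a prime with regular localization. -/
theorem exists_gens_at {D : Type u} [CommRing D] (q : Ideal D) [q.IsPrime]
    [IsRegularLocalRing (Localization.AtPrime q)] :
    ∃ G : Set D, G.Finite ∧ (G.ncard : ℕ∞) ≤ q.height ∧ G ⊆ q ∧
      ∀ a ∈ q, ∃ s ∉ q, s * a ∈ Ideal.span G := by
  classical
  set A := Localization.AtPrime q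
  have hfg : (maximalIdeal A).FG := (maximalIdeal A).fg_of_isNoetherianRing
  set g := (maximalIdeal A).generators with hg
  have hgfin : g.Finite := Submodule.FG.finite_generators hfg
  have hcard : g.ncard = (maximalIdeal A).spanFinrank := Submodule.FG.generators_ncard hfg
  have hspan : Ideal.span g = maximalIdeal A := (maximalIdeal A).span_generators
  have hht : ((maximalIdeal A).spanFinrank : WithBot ℕ∞) = (q.height : WithBot ℕ∞) := by
    rw [IsRegularLocalRing.spanFinrank_maximalIdeal,
      IsLocalization.AtPrime.ringKrullDim_eq_height q A]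
  have hz : ∀ z : A, ∃ a : D, z ∈ g → a ∈ q ∧ ∃ s : q.primeCompl,
      algebraMap D A a = z * algebraMap D A s := by
    intro z
    obtain ⟨⟨a, s⟩, has⟩ := IsLocalization.surj q.primeCompl z
    refine ⟨a, fun hz => ⟨?_, s, has.symm⟩⟩
    have h1 : z ∈ maximalIdeal A := by
      rw [← hspan]
      exact Ideal.subset_span hz
    have h2 : algebraMap D A a ∈ maximalIdeal A := by
      rw [← has]
      exact Ideal.mul_mem_right _ _ h1
    exact (IsLocalization.AtPrime.to_map_mem_maximal_iff A q a).1 h2
  choose num hnum using hz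
  refine ⟨num '' g, hgfin.image _, ?_, ?_, ?_⟩
  · have h1 : (num '' g).ncard ≤ g.ncard := Set.ncard_image_le hgfin
    have h2 : ((maximalIdeal A).spanFinrank : ℕ∞) = q.height := by exact_mod_cast hht
    rw [← h2, ← hcard]
    exact_mod_cast h1
  · rintro _ ⟨z, hz, rfl⟩
    exact (hnum z hz).1
  · intro a ha
    have h1 : algebraMap D A a ∈ (Ideal.span (num '' g)).map (algebraMap D A) := by
      have h2 : algebraMap D A a ∈ maximalIdeal A :=
        (IsLocalization.AtPrime.to_map_mem_maximal_iff A q a).2 ha
      rw [← hspan] at h2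
      refine (Ideal.span_le.2 ?_) h2
      intro z hz
      obtain ⟨-, s, hs⟩ := hnum z hz
      have h3 : algebraMap D A (num z) ∈ (Ideal.span (num '' g)).map (algebraMap D A) :=
        Ideal.mem_map_of_mem _ (Ideal.subset_span ⟨z, hz, rfl⟩)
      rw [hs] at h3
      have hu : IsUnit (algebraMap D A s) := IsLocalization.map_units A s
      exact (Ideal.mul_unit_mem_iff_mem _ hu).1 h3
    obtain ⟨m, hm, hma⟩ := (IsLocalization.algebraMap_mem_map_algebraMap_iff q.primeCompl A
      (Ideal.span (num '' g)) a).1 h1
    exact ⟨m, hm, hma⟩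

section

variable {K : Type v} [Field K] {V : ValuationSubring K}

/-- The blow-up algebra chart. -/
noncomputable abbrev Chart (S : Type u) [CommRing S] (X : S) (s : Set S) : Type u :=
  MvPolynomial s S ⧸ Ideal.span (Set.range fun i : s =>
    (MvPolynomial.C X * MvPolynomial.X i - MvPolynomial.C (i : S) : MvPolynomial s S))

theorem chart_regular {S : Type u} [CommRing S] [IsRegularLocalRing S] (X : S) (s : Set S)
    (hs : s.Finite) (hcard : s.ncard + 1 ≤ (maximalIdeal S).spanFinrank)
    (hspan : Ideal.span (insert X s) = maximalIdeal S)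
    (Q : Ideal (MvPolynomial s S)) [hQ : Q.IsPrime] (hQM : Q.comap MvPolynomial.C = maximalIdeal S)
    (q : Ideal (Chart S X s)) [hq : q.IsPrime]
    (hqQ : q.comap (Ideal.Quotient.mk _) = Q) :
    IsRegularLocalRing (Localization.AtPrime q) := by
  classical
  have hfin : Finite s := hs
  set T := MvPolynomial s S
  set J : Ideal T := Ideal.span (Set.range fun i : s =>
    (MvPolynomial.C X * MvPolynomial.X i - MvPolynomial.C (i : S) : T)) with hJ
  set M := maximalIdeal S
  have hJQ : J ≤ Q := by
    rw [← hqQ]
    intro a ha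
    rw [Ideal.mem_comap, Ideal.Quotient.eq_zero_iff_mem.2 ha]
    exact Ideal.zero_mem _
  have hqmap : Q.map (Ideal.Quotient.mk J) = q := by
    rw [← hqQ]
    exact Ideal.map_comap_of_surjective _ Ideal.Quotient.mk_surjective q
  have hlies : Q.LiesOver M := ⟨hQM.symm⟩
  -- the fibre
  have hMQ : M.map (algebraMap S T) ≤ Q := by
    rw [Ideal.map_le_iff_le_comap]
    exact hQM.ge
  set D := T ⧸ M.map (algebraMap S T) with hD
  set Qb : Ideal D := Q.map (Ideal.Quotient.mk (M.map (algebraMap S T))) with hQb
  have hQbp : Qb.IsPrime := Ideal.isPrime_map_quotientMk_of_isPrime hMQ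
  have hDreg : IsRegularRing D := by
    let _ : Field (S ⧸ M) := Ideal.Quotient.field M
    have h1 : IsRegularRing (S ⧸ M) := inferInstance
    have h2 : IsRegularRing (MvPolynomial s (S ⧸ M)) := inferInstance
    exact IsRegularRing.of_ringEquiv
      (MvPolynomial.quotientEquivQuotientMvPolynomial (σ := s) M).toRingEquiv
  have hQbreg : IsRegularLocalRing (Localization.AtPrime Qb) := inferInstance
  obtain ⟨G, hGfin, hGcard, hGq, hG⟩ := exists_gens_at Qb
  -- heights
  have hht1 : Q.height = M.height + Qb.height :=
    Ideal.height_eq_height_add_of_liesOver_of_hasGoingDown M Q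
  have hht2 : Q.height ≤ q.height + s.ncard := by
    have h1 := Ideal.height_le_height_add_spanFinrank_of_le hJQ
    rw [hqmap] at h1
    refine h1.trans ?_
    have h2 : J.spanFinrank ≤ s.ncard := by
      rw [hJ]
      refine (Submodule.spanFinrank_span_le_ncard_of_finite (Set.finite_range _)).trans ?_
      rw [← Set.image_univ]
      refine (Set.ncard_image_le Set.finite_univ).trans ?_
      rw [Set.ncard_univ]
      exact le_of_eq (Nat.card_coe_set_eq s)
    gcongr
  have hMh : (M.height : WithBot ℕ∞) = ((M.spanFinrank : ℕ) : WithBot ℕ∞) := by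
    rw [maximalIdeal_height_eq_ringKrullDim, IsRegularLocalRing.spanFinrank_maximalIdeal]
  have hMh' : M.height = ((M.spanFinrank : ℕ) : ℕ∞) := by exact_mod_cast hMh
  have hqh : (1 : ℕ∞) + Qb.height ≤ q.height := by
    have h1 : ((s.ncard + 1 : ℕ) : ℕ∞) + Qb.height ≤ q.height + s.ncard := by
      refine le_trans ?_ hht2
      rw [hht1, hMh']
      gcongr
    have h2 : (1 + Qb.height) + (s.ncard : ℕ∞) ≤ q.height + s.ncard := by
      refine le_trans (le_of_eq ?_) h1
      push_cast
      ring
    exact (ENat.add_le_add_iff_right (ENat.natCast_ne_top _)).1 h2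
  -- the local ring
  set A := Localization.AtPrime q
  have hnoe : IsNoetherianRing (Chart S X s) := inferInstance
  have hnoeA : IsNoetherianRing A := IsLocalization.isNoetherianRing q.primeCompl A hnoe
  apply IsRegularLocalRing.of_spanFinrank_maximalIdeal_le
  rw [IsLocalization.AtPrime.ringKrullDim_eq_height q A]
  -- generators of the maximal ideal
  have hsurD : Function.Surjective (Ideal.Quotient.mk (M.map (algebraMap S T))) :=
    Ideal.Quotient.mk_surjective
  choose lift hlift using hsurD
  set π : T →+* A := (algebraMap (Chart S X s) A).comp (Ideal.Quotient.mk J) with hπ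
  have hπmem : ∀ t ∈ Q, π t ∈ maximalIdeal A := by
    intro t ht
    rw [hπ, RingHom.comp_apply, IsLocalization.AtPrime.to_map_mem_maximal_iff A q]
    rw [← hqmap]
    exact Ideal.mem_map_of_mem _ ht
  have hπunit : ∀ t ∉ Q, IsUnit (π t) := by
    intro t ht
    have h1 : Ideal.Quotient.mk J t ∉ q := by
      intro h2
      apply ht
      rw [← hqQ]
      exact h2
    exact IsLocalization.map_units A (⟨_, h1⟩ : q.primeCompl)
  have hliftQ : ∀ d ∈ Qb, lift d ∈ Q := by
    intro d hd
    rw [← hlift d, hQb, Ideal.mem_map_iff_of_surjective _ Ideal.Quotient.mk_surjective] at hd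
    obtain ⟨t, ht, hte⟩ := hd
    rw [Ideal.Quotient.eq] at hte
    have : lift d = t - (t - lift d) := by ring
    rw [this]
    exact Ideal.sub_mem _ ht (hMQ hte)
  set G2 : Set A := insert (π (MvPolynomial.C X)) ((fun d => π (lift d)) '' G) with hG2
  have hXi : ∀ i : s, π (MvPolynomial.C (i : S)) = π (MvPolynomial.C X) * π (MvPolynomial.X i) := by
    intro i
    rw [← map_mul, hπ, RingHom.comp_apply, RingHom.comp_apply]
    congr 1
    symm
    rw [Ideal.Quotient.eq]
    exact Ideal.subset_span ⟨i, rfl⟩
  have hMT : ∀ t ∈ M.map (algebraMap S T), π t ∈ Ideal.span G2 := by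
    intro t ht
    have h1 : M.map (algebraMap S T) ≤ (Ideal.span G2).comap π := by
      rw [Ideal.map_le_iff_le_comap]
      rw [← hspan, Ideal.span_le]
      intro z hz
      rw [SetLike.mem_coe, Ideal.mem_comap, Ideal.mem_comap]
      change π (MvPolynomial.C z) ∈ _
      rcases Set.mem_insert_iff.1 hz with rfl | hz
      · exact Ideal.subset_span (Set.mem_insert _ _)
      · rw [hXi ⟨z, hz⟩]
        exact Ideal.mul_mem_right _ _ (Ideal.subset_span (Set.mem_insert _ _))
    exact h1 ht
  have hmax : maximalIdeal A = Ideal.span G2 := by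
    apply le_antisymm
    · rw [← Localization.AtPrime.map_eq_maximalIdeal, Ideal.map_le_iff_le_comap]
      intro a ha
      obtain ⟨t, rfl⟩ := Ideal.Quotient.mk_surjective a
      have ht : t ∈ Q := by
        rw [← hqQ]
        exact ha
      change π t ∈ Ideal.span G2
      obtain ⟨sb, hsb, hsbt⟩ := hG (Ideal.Quotient.mk _ t) (Ideal.mem_map_of_mem _ ht)
      have h1 : lift sb ∉ Q := by
        intro h2
        apply hsb
        rw [← hlift sb]
        exact Ideal.mem_map_of_mem _ h2
      have h2 : π (lift sb * t) ∈ Ideal.span G2 := by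
        have h3 : Ideal.span G ≤ (((Ideal.span G2).comap π).map
            (Ideal.Quotient.mk (M.map (algebraMap S T)))) := by
          rw [Ideal.span_le]
          intro d hd
          rw [← hlift d]
          apply Ideal.mem_map_of_mem
          rw [Ideal.mem_comap]
          exact Ideal.subset_span (Set.mem_insert_of_mem _ ⟨d, hd, rfl⟩)
        have h4 := h3 hsbt
        rw [← hlift sb, ← map_mul,
          Ideal.mem_map_iff_of_surjective _ Ideal.Quotient.mk_surjective] at h4
        obtain ⟨t', ht', hte⟩ := h4
        rw [Ideal.Quotient.eq] at hte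
        have h5 : t' - lift sb * t ∈ (Ideal.span G2).comap π := hMT _ hte
        have h6 : t' - (t' - lift sb * t) = lift sb * t := by ring
        have h8 := Ideal.sub_mem ((Ideal.span G2).comap π) ht' h5
        rw [h6] at h8
        exact h8
      rw [map_mul] at h2
      exact (Ideal.unit_mul_mem_iff_mem _ (hπunit _ h1)).1 h2
    · rw [Ideal.span_le]
      intro z hz
      rcases Set.mem_insert_iff.1 hz with rfl | ⟨d, hd, rfl⟩
      · apply hπmem
        apply hMQ
        apply Ideal.mem_map_of_mem
        rw [← hspan]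
        exact Ideal.subset_span (Set.mem_insert _ _)
      · exact hπmem _ (hliftQ _ (hGq hd))
  have hfinG2 : G2.Finite := (hGfin.image _).insert _
  have hc1 : (maximalIdeal A).spanFinrank ≤ G.ncard + 1 := by
    rw [hmax]
    refine (Submodule.spanFinrank_span_le_ncard_of_finite hfinG2).trans ?_
    refine (Set.ncard_insert_le _ _).trans ?_
    gcongr
    exact Set.ncard_image_le hGfin
  have hc2 : ((maximalIdeal A).spanFinrank : ℕ∞) ≤ q.height := by
    refine le_trans ?_ hqh
    have : ((maximalIdeal A).spanFinrank : ℕ∞) ≤ ((G.ncard + 1 : ℕ) : ℕ∞) := by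
      exact_mod_cast hc1
    refine this.trans ?_
    push_cast
    rw [add_comm]
    gcongr
  exact_mod_cast hc2

end

end Pool.Agent.Lib.MP_3029eb_ag
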