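import Pool.Agent.Lib.MP_3029eb_ag.H44Defs

/-!
The completion of a valuation ring with respect to a nonzero element `ϖ` such that every nonzero
element divides a power of `ϖ` (rank one).
-/

open IsLocalRing

namespace Pool.Agent.Lib.MP_3029eb_ag

section

variable {K : Type} [Field K] {V : ValuationSubring K}

theorem comp_mem_pow_iff {V : Type} [CommRing V] (I : Ideal V) (hI : I.FG) (k : ℕ)
    (t : AdicCompletion I V) :
    t ∈ (I.map (algebraMap V (AdicCompletion I V))) ^ k ↔ t.val k = 0 := by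
  have h := AdicCompletion.pow_smul_top_eq_ker_eval (M := V) (n := k) hI
  rw [← Ideal.map_pow, ← Submodule.restrictScalars_mem V,
    ← Ideal.smul_top_eq_map, h]
  rfl

theorem comp_algebraMap_val {V : Type} [CommRing V] (I : Ideal V) (k : ℕ) (r : V) :
    (algebraMap V (AdicCompletion I V) r).val k = 0 ↔ r ∈ I ^ k := by
  rw [AdicCompletion.algebraMap_apply]
  constructor
  · intro h
    have h' : Submodule.Quotient.mk (p := (I ^ k • ⊤ : Submodule V V)) r = 0 := by
      simpa using h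
    rw [Submodule.Quotient.mk_eq_zero] at h'
    simpa using h'
  · intro h
    have h' : Submodule.Quotient.mk (p := (I ^ k • ⊤ : Submodule V V)) r = 0 := by
      rw [Submodule.Quotient.mk_eq_zero]
      simpa using h
    simpa using h'

/-- Properties of the completion of a valuation ring. -/
theorem exists_completion (ϖ : V) (hϖ : ϖ ∈ maximalIdeal V)
    (h0 : ϖ ≠ 0) (harch : ∀ z : V, z ≠ 0 → ∃ n : ℕ, z ∣ ϖ ^ n) :
    ∃ (W KW : Type) (_ : CommRing W) (_ : IsDomain W) (_ : IsLocalRing W) (_ : Field KW)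
      (_ : Algebra W KW) (_ : IsFractionRing W KW) (τ : K →+* KW) (θ : V →+* W),
      IsAdicComplete (Ideal.span {θ ϖ}) W ∧ (∀ v : V, algebraMap W KW (θ v) = τ v) ∧
      IsLocalHom θ ∧ (∀ z, z ∈ V ↔ τ z ∈ (algebraMap W KW).range) ∧
      (∀ d : W, d ≠ 0 → ∃ n, d ∣ θ ϖ ^ n) := by
  classical
  set I : Ideal V := Ideal.span {ϖ} with hI
  have hfg : I.FG := ⟨{ϖ}, by rw [Finset.coe_singleton]⟩
  set W := AdicCompletion I V with hW
  set θ : V →+* W := algebraMap V W with hθ
  have hmapI : I.map θ = Ideal.span {θ ϖ} :=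
    (Ideal.map_span θ {ϖ}).trans (congrArg Ideal.span (Set.image_singleton))
  have hcomplete : IsAdicComplete (Ideal.span {θ ϖ}) W := by
    rw [← hmapI]
    exact AdicCompletion.isAdicComplete_self I hfg
  have hpow : ∀ k, Ideal.span {θ ϖ} ^ k = Ideal.span {θ ϖ ^ k} := fun k =>
    Ideal.span_singleton_pow _ _
  -- approximation
  have happ : ∀ (k : ℕ) (d : W), ∃ v : V, θ ϖ ^ k ∣ d - θ v := by
    intro k d
    obtain ⟨r, hr⟩ := Submodule.Quotient.mk_surjective _ (d.val k)
    refine ⟨r, ?_⟩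
    rw [← Ideal.mem_span_singleton, ← hpow, ← hmapI, comp_mem_pow_iff I hfg]
    have : (d - θ r).val k = d.val k - (θ r).val k := rfl
    rw [this, ← hr]
    exact sub_self _
  have hdvd : ∀ (k : ℕ) (v : V), θ ϖ ^ k ∣ θ v ↔ ϖ ^ k ∣ v := by
    intro k v
    rw [← Ideal.mem_span_singleton, ← hpow, ← hmapI, comp_mem_pow_iff I hfg,
      comp_algebraMap_val, hI, Ideal.span_singleton_pow, Ideal.mem_span_singleton]
  have hjac : ∀ w : W, IsUnit (1 + θ ϖ * w) := by
    intro w
    have h1 : θ ϖ ∈ (⊥ : Ideal W).jacobson :=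
      IsAdicComplete.le_jacobson_bot (Ideal.span {θ ϖ}) (Ideal.mem_span_singleton_self _)
    have h2 := (Ideal.mem_jacobson_bot.1 h1) w
    rwa [add_comm] at h2
  have hϖu : ¬ IsUnit ϖ := (mem_maximalIdeal _).1 hϖ
  -- units
  have hunit1 : ∀ v : V, IsUnit (θ v) → IsUnit v := by
    intro v hv
    by_contra hn
    obtain ⟨w, hw⟩ := hv.exists_right_inv
    obtain ⟨v', hv'⟩ := happ 1 w
    obtain ⟨c, hc⟩ := hv'
    have h1 : θ ϖ ^ 1 ∣ θ (v * v' - 1) := by
      refine ⟨-(θ v * c), ?_⟩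
      rw [map_sub, map_mul, map_one, ← hw]
      have h2 : θ v' = w - θ ϖ ^ 1 * c := by rw [← hc]; ring
      rw [h2]
      ring
    rw [hdvd, pow_one] at h1
    obtain ⟨e, he⟩ := h1
    have h3 : (1 : V) ∈ maximalIdeal V := by
      have h4 : (1 : V) = v * v' - ϖ * e := by rw [← he]; ring
      rw [h4]
      exact sub_mem (Ideal.mul_mem_right _ _ ((mem_maximalIdeal _).2 hn))
        (Ideal.mul_mem_right _ _ hϖ)
    exact (mem_maximalIdeal _).1 h3 isUnit_one
  have hunit2 : ∀ (w : W) (v : V), θ ϖ ^ 1 ∣ w - θ v → (IsUnit w ↔ IsUnit v) := by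
    rintro w v ⟨c, hc⟩
    constructor
    · rintro hw
      by_contra hn
      obtain ⟨u, hu⟩ := hw.exists_right_inv
      obtain ⟨v', c', hv'⟩ := happ 1 u
      have h1 : θ ϖ ^ 1 ∣ θ (v * v' - 1) := by
        refine ⟨-(θ v * c' + u * c), ?_⟩
        have e1 : θ v' = u - θ ϖ ^ 1 * c' := by rw [← hv']; ring
        have e2 : θ v = w - θ ϖ ^ 1 * c := by rw [← hc]; ring
        rw [map_sub, map_mul, map_one, e1, ← hu]
        rw [e2]
        ring
      rw [hdvd, pow_one] at h1
      obtain ⟨e, he⟩ := h1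
      have h3 : (1 : V) ∈ maximalIdeal V := by
        have h4 : (1 : V) = v * v' - ϖ * e := by rw [← he]; ring
        rw [h4]
        exact sub_mem (Ideal.mul_mem_right _ _ ((mem_maximalIdeal _).2 hn))
          (Ideal.mul_mem_right _ _ hϖ)
      exact (mem_maximalIdeal _).1 h3 isUnit_one
    · rintro hv
      obtain ⟨u, hu⟩ := hv.exists_right_inv
      have h1 : w * θ u = 1 + θ ϖ * (c * θ u) := by
        have e2 : w = θ v + θ ϖ ^ 1 * c := by rw [← hc]; ring
        rw [e2, add_mul, ← map_mul, hu, map_one]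
        ring
      exact isUnit_of_mul_isUnit_left (by rw [h1]; exact hjac _)
  have hnt : Nontrivial W := by
    refine ⟨⟨0, 1, fun h01 => ?_⟩⟩
    have h1 : θ ϖ ^ 1 ∣ θ 1 := by rw [map_one, ← h01]; exact dvd_zero _
    rw [hdvd, pow_one] at h1
    exact hϖu (isUnit_of_dvd_one h1)
  have hlocal : IsLocalRing W := by
    refine IsLocalRing.of_nonunits_add (fun a b ha hb => ?_)
    obtain ⟨va, ha'⟩ := happ 1 a
    obtain ⟨vb, hb'⟩ := happ 1 b
    rw [mem_nonunits_iff, hunit2 a va ha'] at ha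
    rw [mem_nonunits_iff, hunit2 b vb hb'] at hb
    have hab : θ ϖ ^ 1 ∣ (a + b) - θ (va + vb) := by
      have e1 : (a + b) - θ (va + vb) = (a - θ va) + (b - θ vb) := by rw [map_add]; ring
      rw [e1]
      exact dvd_add ha' hb'
    rw [mem_nonunits_iff, hunit2 _ _ hab]
    exact IsLocalRing.nonunits_add ha hb
  -- factorization
  have hfac : ∀ d : W, d ≠ 0 → ∃ (v : V) (u : W), v ≠ 0 ∧ IsUnit u ∧ d = θ v * u := by
    intro d hd
    have h1 : ∃ n : ℕ, ¬ θ ϖ ^ n ∣ d := by
      by_contra hcon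
      push Not at hcon
      apply hd
      refine IsHausdorff.haus' (I := Ideal.span {θ ϖ}) d fun n => ?_
      rw [SModEq.sub_mem, sub_zero, smul_eq_mul, Ideal.mul_top, hpow,
        Ideal.mem_span_singleton]
      exact hcon n
    obtain ⟨n, hn⟩ := h1
    obtain ⟨v, e, he⟩ := happ (n + 1) d
    have hvn : ¬ ϖ ^ n ∣ v := by
      intro h2
      apply hn
      have h3 := (hdvd n v).2 h2
      have h4 : d = θ v + θ ϖ ^ (n + 1) * e := by rw [← he]; ring
      rw [h4]
      exact dvd_add h3 (Dvd.dvd.mul_right (pow_dvd_pow _ (Nat.le_succ n)) _)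
    have hv0 : v ≠ 0 := by
      rintro rfl
      exact hvn (dvd_zero _)
    have h5 : v ∣ ϖ ^ n := by
      rcases ValuationRing.dvd_total v (ϖ ^ n) with h | h
      · exact h
      · exact absurd h hvn
    obtain ⟨c, hc⟩ := h5
    refine ⟨v, 1 + θ ϖ * (θ c * e), hv0, hjac _, ?_⟩
    have h4 : d = θ v + θ ϖ ^ (n + 1) * e := by rw [← he]; ring
    rw [h4, pow_succ, ← map_pow, hc, map_mul]
    ring
  have hHaus : ∀ v : V, (∀ n : ℕ, ϖ ^ n ∣ v) → v = 0 := by
    intro v hv
    by_contra hv0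
    obtain ⟨n, hn⟩ := harch v hv0
    have h1 : ϖ ^ (n + 1) ∣ ϖ ^ n := (hv (n + 1)).trans hn
    obtain ⟨c, hc⟩ := h1
    have h2 : ϖ ^ n * (ϖ * c) = ϖ ^ n * 1 := by rw [mul_one]; nth_rw 2 [hc]; ring
    have h3 := mul_left_cancel₀ (pow_ne_zero n h0) h2
    exact hϖu (IsUnit.of_mul_eq_one _ h3)
  have hinj : Function.Injective θ := by
    rw [injective_iff_map_eq_zero]
    intro v hv
    apply hHaus
    intro n
    rw [← hdvd, hv]
    exact dvd_zero _
  have hdom : IsDomain W := by
    have : NoZeroDivisors W := by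
      refine ⟨fun {a b} hab => ?_⟩
      by_contra hcon
      push Not at hcon
      obtain ⟨v, u, hv, hu, ha⟩ := hfac a hcon.1
      obtain ⟨v', u', hv', hu', hb⟩ := hfac b hcon.2
      have h1 : θ (v * v') * (u * u') = 0 := by
        rw [← hab, ha, hb, map_mul]; ring
      have h2 : θ (v * v') = 0 := ((hu.mul hu').mul_left_eq_zero).1 h1
      rw [map_eq_zero_iff θ hinj] at h2
      exact mul_ne_zero hv hv' h2
    exact NoZeroDivisors.to_isDomain W
  have hinj2 : Function.Injective ((algebraMap W (FractionRing W)).comp θ) :=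
    (IsFractionRing.injective W (FractionRing W)).comp hinj
  let τ : K →+* FractionRing W := IsFractionRing.lift (A := V) (K := K) hinj2
  have hτ : ∀ v : V, τ v = algebraMap W (FractionRing W) (θ v) := fun v =>
    IsFractionRing.lift_algebraMap hinj2 v
  refine ⟨W, FractionRing W, inferInstance, hdom, hlocal, inferInstance, inferInstance,
    inferInstance, τ, θ, hcomplete, fun v => (hτ v).symm, ⟨hunit1⟩, ?_, ?_⟩
  · intro z
    constructor
    · intro hz
      exact ⟨θ ⟨z, hz⟩, (hτ ⟨z, hz⟩).symm⟩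
    · rintro ⟨w, hw⟩
      by_contra hz
      have hz1 : z⁻¹ ∈ V := (V.mem_or_inv_mem z).resolve_left hz
      have hz0 : z ≠ 0 := by
        rintro rfl
        exact hz (zero_mem V)
      have h1 : θ ⟨z⁻¹, hz1⟩ * w = 1 := by
        apply IsFractionRing.injective W (FractionRing W)
        rw [map_mul, ← hτ, hw, map_one, ← map_mul]
        change τ (z⁻¹ * z) = 1
        rw [inv_mul_cancel₀ hz0, map_one]
      have h2 := hunit1 _ (IsUnit.of_mul_eq_one _ h1)
      obtain ⟨u, hu⟩ := h2.exists_right_inv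
      apply hz
      have h3 : z = (u : K) := by
        have h4 := congrArg Subtype.val hu
        change z⁻¹ * (u : K) = 1 at h4
        field_simp at h4
        exact h4.symm
      rw [h3]
      exact u.2
  · intro d hd
    obtain ⟨v, u, hv, hu, rfl⟩ := hfac d hd
    obtain ⟨n, hn⟩ := harch v hv
    refine ⟨n, ?_⟩
    rw [hu.mul_right_dvd, ← map_pow]
    exact map_dvd θ hn

end

end Pool.Agent.Lib.MP_3029eb_ag
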