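import Pool.Agent.Lib.MP_3029eb_ag.K1a
import Pool.Agent.Lib.MP_3029eb_ag.K1b
import Pool.Agent.Lib.MP_3029eb_ag.K2
import Pool.Agent.Lib.MP_3029eb_ag.K2b
import Pool.Agent.Lib.MP_3029eb_ag.K3
import Pool.Agent.Lib.MP_3029eb_ag.K4
import Pool.Agent.Lib.MP_3029eb_ag.K5
import Pool.Agent.Lib.MP_3029eb_ag.RB

/-!
The drop of the Jacobian determinant along a sequence of quadratic transforms, for an arbitrary
local domain `W` (in particular for the completion of an arbitrary valuation ring of rank one).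
-/

open IsLocalRing

namespace Pool.Agent.Lib.MP_3029eb_ag

/-- `A'` is the quadratic transform (blow-up of the maximal ideal, localized at the centre) of the
local subring `A` of `K` along the valuation ring `V`, computed with the element `x` of the maximal
ideal of `A` of largest valuation (multiplicatively written). -/
def IsQuadTransform {K : Type} [Field K] (V : ValuationSubring K) (A A' : Subring K) (x : K) :
    Prop :=
  x ∈ A ∧ x ≠ 0 ∧ V.valuation x < 1 ∧
    (∀ y ∈ A, V.valuation y < 1 → V.valuation y ≤ V.valuation x) ∧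
    A' = locV V (Subring.closure ((A : Set K) ∪ {z | ∃ y ∈ A, V.valuation y < 1 ∧ z = y / x}))

theorem reg_or {S T : Type} [CommRing S] [IsRegularLocalRing S] [CommRing T] [IsLocalRing T]
    (π : S →+* T) (hπ : Function.Surjective π) {c : ℕ}
    (𝔟 : Ideal S) [𝔟.IsPrime] (h1 : RingHom.ker π ≤ 𝔟) (h3 : 𝔟.height ≤ c)
    (f : Fin c → S) (hf : ∀ l, f l ∈ RingHom.ker π) :
    IsRegularLocalRing T ∨
      ∃ (a : Fin c → S) (l : Fin c), IsUnit (a l) ∧ ∑ i, a i * f i ∈ maximalIdeal S ^ 2 := by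
  by_cases hind : ∀ a : Fin c → S, (∑ i, a i * f i) ∈ maximalIdeal S ^ 2 →
      ∀ i, a i ∈ maximalIdeal S
  · left
    have hkm : RingHom.ker π ≤ maximalIdeal S := IsLocalRing.le_maximalIdeal (by
      rw [Ne, Ideal.eq_top_iff_one, RingHom.mem_ker, map_one]
      exact one_ne_zero)
    obtain ⟨hp, hc, hreg⟩ := reg_quot f (fun l => hkm (hf l)) hind
    have hle : Ideal.span (Set.range f) ≤ RingHom.ker π := by
      rw [Ideal.span_le]
      rintro _ ⟨l, rfl⟩
      exact hf l
    have heq : Ideal.span (Set.range f) = 𝔟 :=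
      Ideal.eq_of_le_of_height_le _ (hle.trans h1) (h3.trans hc)
    have heq2 : Ideal.span (Set.range f) = RingHom.ker π :=
      le_antisymm hle (by rw [heq]; exact h1)
    rw [heq2] at hreg
    exact IsRegularLocalRing.of_ringEquiv (RingHom.quotientKerEquivOfSurjective hπ)
  · right
    push Not at hind
    obtain ⟨a, ha, l, hl⟩ := hind
    refine ⟨a, l, ?_, ha⟩
    by_contra hu
    exact hl ((mem_maximalIdeal _).2 hu)

theorem QTData_of_sameCompletion' {R T W : Type} [CommRing R] [CommRing T] [IsLocalRing R]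
    [IsLocalRing T] [IsNoetherianRing T] [CommRing W] {ι : R →+* T} (hι : SameCompletion ι)
    (φ : T →+* W) (hφ : IsLocalHom φ) {x : R} (h : QTData (φ.comp ι) x) : QTData φ (ι x) := by
  refine ⟨hφ, hι.map_mem x h.x_mem, h.x_ne, fun t ht => ?_⟩
  have h1 : maximalIdeal T ≤ (maximalIdeal R).map ι ⊔ maximalIdeal T • maximalIdeal T := by
    intro y hy
    obtain ⟨r, hr, hr'⟩ := hι.approx 1 y (by rwa [pow_one])
    rw [pow_one] at hr
    have h2 : y = ι r + (y - ι r) := by ring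
    rw [h2]
    refine Submodule.add_mem_sup (Ideal.mem_map_of_mem ι hr) ?_
    rw [smul_eq_mul, ← pow_two]
    exact hr'
  have h2 : maximalIdeal T ≤ (maximalIdeal R).map ι := by
    refine Submodule.le_of_le_smul_of_le_jacobson_bot ?_ ?_ h1
    · exact IsNoetherian.noetherian _
    · exact IsLocalRing.maximalIdeal_le_jacobson _
  have h3 : (maximalIdeal R).map ι ≤ (Ideal.span {φ (ι x)}).comap φ := by
    rw [Ideal.map_le_iff_le_comap]
    intro r hr
    rw [Ideal.mem_comap, Ideal.mem_comap, Ideal.mem_span_singleton]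
    exact h.x_dvd r hr
  have h4 := h3 (h2 ht)
  rwa [Ideal.mem_comap, Ideal.mem_span_singleton] at h4

theorem range_QT {K : Type} [Field K] (V : ValuationSubring K) {R W : Type} [CommRing R]
    [IsLocalRing R] [CommRing W] [IsDomain W] [IsLocalRing W]
    {φ : R →+* W} {x : R} (h : QTData φ x) (j : R →+* K) (hj : Function.Injective j)
    (j1 : QT φ x →+* K) (hj1 : ∀ r, j1 (QT.of φ x r) = j r)
    (hV : ∀ z : QT φ x, j1 z ∈ V) (hV1 : ∀ z : QT φ x, V.valuation (j1 z) = 1 ↔ IsUnit z) :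
    j1.range = locV V (Subring.closure ((j.range : Set K) ∪
      {z | ∃ y ∈ j.range, V.valuation y < 1 ∧ z = y / j x})) := by
  set B := Subring.closure ((j.range : Set K) ∪
      {z | ∃ y ∈ j.range, V.valuation y < 1 ∧ z = y / j x}) with hBdef
  have hx0 : j x ≠ 0 := by
    intro h0
    have : x = 0 := hj (by rw [h0, map_zero])
    exact h.x_ne (by rw [this, map_zero])
  have hof := h.isLocalHom_of
  have hval : ∀ r : R, V.valuation (j r) < 1 ↔ r ∈ maximalIdeal R := by
    intro r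
    have h1 : V.valuation (j r) ≤ 1 := by
      rw [V.valuation_le_one_iff, ← hj1]
      exact hV _
    have h2 : V.valuation (j r) = 1 ↔ IsUnit r := by
      rw [← hj1, hV1]
      exact isUnit_map_iff _ _
    rw [mem_maximalIdeal, mem_nonunits_iff, ← h2]
    exact ⟨fun h3 h4 => h3.ne h4, fun h3 => lt_of_le_of_ne h1 h3⟩
  have hxx : Associated (φ x) (φ x ^ 1) := by rw [pow_one]
  have hx1 : x ∈ maximalIdeal R ^ 1 := by rw [pow_one]; exact h.x_mem
  have hjj : j.range ≤ j1.range := by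
    rintro _ ⟨r, rfl⟩
    exact ⟨QT.of φ x r, hj1 r⟩
  have hjB : j.range ≤ B := fun z hz => Subring.subset_closure (Or.inl hz)
  apply le_antisymm
  · have hM : maximalIdeal R ≤ ratioIdeal j B hjB x 1 := by
      intro y hy
      refine ⟨j y / j x, Subring.subset_closure (Or.inr ⟨j y, ⟨y, rfl⟩, (hval y).2 hy, rfl⟩), ?_⟩
      rw [pow_one, div_mul_cancel₀ _ hx0]
    have hpow := ratioIdeal_pow j B hjB x (maximalIdeal R) hM
    rintro _ ⟨z, rfl⟩
    obtain ⟨N, b, s0, hb, hs0, hs0', rfl⟩ := z.exists_rep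
    obtain ⟨β, hβ, hβ'⟩ := hpow N hb
    obtain ⟨σ, hσ, hσ'⟩ := hpow N hs0
    have hxN : x ^ N ∈ maximalIdeal R ^ N := Ideal.pow_mem_pow h.x_mem N
    have hxN' : Associated (φ (x ^ N)) (φ x ^ N) := by rw [map_pow]
    have hz' : j1 (QT.mk φ x N s0 (x ^ N) hs0 hxN hxN') = σ := by
      have h1 : j1 (QT.mk φ x N s0 (x ^ N) hs0 hxN hxN') * j (x ^ N) = j s0 := by
        rw [← hj1 (x ^ N), ← map_mul, mul_comm, QT.of_mul_mk, hj1]
      rw [hσ', map_pow] at h1
      exact mul_right_cancel₀ (pow_ne_zero N hx0) h1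
    have hunit : IsUnit (QT.mk φ x N s0 (x ^ N) hs0 hxN hxN') := by
      rw [h.isUnit_iff]
      have h1 := h.toW_mk hs0 hxN hxN'
      rw [map_pow] at h1
      obtain ⟨u, hu⟩ := hs0'
      have h2 : h.toW (QT.mk φ x N s0 (x ^ N) hs0 hxN hxN') * u = 1 := by
        apply mul_left_cancel₀ (pow_ne_zero N h.x_ne)
        rw [← mul_assoc, h1, hu, mul_one]
      exact IsUnit.of_mul_eq_one _ h2
    refine ⟨β, hβ, σ, hσ, ?_, ?_⟩
    · rw [← hz']; exact (hV1 _).2 hunit
    · have h1 : j1 (QT.mk φ x N b s0 hb hs0 hs0') * j s0 = j b := by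
        rw [← hj1 s0, ← map_mul, mul_comm, QT.of_mul_mk, hj1]
      rw [hβ', hσ', ← mul_assoc] at h1
      exact mul_right_cancel₀ (pow_ne_zero N hx0) h1
  · have hB1 : B ≤ j1.range := by
      rw [hBdef, Subring.closure_le]
      rintro z (hz | ⟨_, ⟨y, rfl⟩, hy, rfl⟩)
      · exact hjj hz
      · have hy1 : y ∈ maximalIdeal R ^ 1 := by rw [pow_one]; exact (hval y).1 hy
        refine ⟨QT.mk φ x 1 y x hy1 hx1 hxx, ?_⟩
        rw [eq_div_iff hx0, ← hj1 x, ← map_mul, mul_comm, QT.of_mul_mk, hj1]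
    rintro z ⟨a, ha, b, hb, hb1, hz⟩
    obtain ⟨a', rfl⟩ := hB1 ha
    obtain ⟨b', rfl⟩ := hB1 hb
    obtain ⟨u, rfl⟩ := (hV1 b').1 hb1
    refine ⟨a' * (↑u⁻¹ : QT φ x), ?_⟩
    rw [map_mul, ← hz, mul_assoc, ← map_mul, Units.mul_inv, map_one, mul_one]

section Det

variable {W KW : Type} [CommRing W] [IsDomain W] [Field KW] [Algebra W KW] [IsFractionRing W KW]
  {c : ℕ}

/-- The Jacobian matrix. -/
def jac {S : Type} [CommRing S] (Φ : S →+* TrivSqZeroExt KW (Fin c → KW)) (f : Fin c → S) :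
    Matrix (Fin c) (Fin c) KW :=
  Matrix.of fun i l => (Φ (f l)).snd i

theorem det_jac_mem {S : Type} [CommRing S] (Φ : S →+* TrivSqZeroExt KW (Fin c → KW))
    (hΦ2 : ∀ s, (Φ s).snd ∈ L0 W KW c) (f : Fin c → S) :
    ∃ d : W, algebraMap W KW d = (jac Φ f).det := by
  have h : ∀ i l, ∃ w : W, algebraMap W KW w = (Φ (f l)).snd i := fun i l => hΦ2 (f l) i
  choose N hN using h
  refine ⟨(Matrix.of N).det, ?_⟩
  rw [RingHom.map_det]
  congr 1
  ext i l
  rw [RingHom.mapMatrix_apply, Matrix.map_apply, Matrix.of_apply, hN]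
  rfl

end Det

section Main

variable {K : Type} [Field K] (V : ValuationSubring K)
  {W KW : Type} [CommRing W] [IsDomain W]
  [Field KW] [Algebra W KW] [IsFractionRing W KW] (τ : K →+* KW)

theorem val_eq_one_iff (hV : ∀ z : K, z ∈ V ↔ τ z ∈ (algebraMap W KW).range)
    {z : K} {w : W} (h : algebraMap W KW w = τ z) : V.valuation z = 1 ↔ IsUnit w := by
  have hinj := IsFractionRing.injective W KW
  have hz : z ∈ V := (hV z).2 ⟨w, h⟩
  constructor
  · intro h1
    have hz0 : z ≠ 0 := by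
      intro h0; rw [h0, map_zero] at h1; exact zero_ne_one h1
    have h2 : z⁻¹ ∈ V := by
      rw [← V.valuation_le_one_iff, map_inv₀, h1, inv_one]
    obtain ⟨w', hw'⟩ := (hV _).1 h2
    refine IsUnit.of_mul_eq_one w' (hinj ?_)
    rw [map_mul, h, hw', ← map_mul, mul_inv_cancel₀ hz0, map_one, map_one]
  · rintro ⟨u, rfl⟩
    have h3 : τ z⁻¹ = algebraMap W KW (↑u⁻¹) := by
      rw [map_inv₀, ← h]
      refine inv_eq_of_mul_eq_one_right ?_
      rw [← map_mul, Units.mul_inv, map_one]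
    have h2 : z⁻¹ ∈ V := (hV _).2 ⟨_, h3.symm⟩
    have hz0 : z ≠ 0 := by
      rintro rfl
      rw [map_zero] at h
      exact u.ne_zero (hinj (by rw [h, map_zero]))
    have h4 := (V.valuation_le_one_iff z).2 hz
    have h5 := (V.valuation_le_one_iff _).2 h2
    rw [map_inv₀] at h5
    refine le_antisymm h4 ?_
    have h6 : V.valuation z ≠ 0 := by simpa using hz0
    calc (1 : _) = V.valuation z * (V.valuation z)⁻¹ := (mul_inv_cancel₀ h6).symm
      _ ≤ V.valuation z * 1 := by gcongr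
      _ = _ := mul_one _

variable [IsLocalRing W]

theorem seq_main (hV : ∀ z : K, z ∈ V ↔ τ z ∈ (algebraMap W KW).range) (c : ℕ) :
    ∀ (n : ℕ) (R T S : Type) [CommRing R] [CommRing T] [CommRing S] [IsNoetherianRing R]
      [IsLocalRing R] [IsLocalRing T] [IsRegularLocalRing S]
      (j : R →+* K) (_hj : Function.Injective j) (ι : R →+* T) (_hι : SameCompletion ι)
      (π : S →+* T) (_hπ : Function.Surjective π) (φ : T →+* W) (_hφ : IsLocalHom φ)
      (_hcomp : ∀ r, algebraMap W KW (φ (ι r)) = τ (j r))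
      (𝔟 : Ideal S) [𝔟.IsPrime] (_h1 : RingHom.ker π ≤ 𝔟) (_h2 : 𝔟 ≤ RingHom.ker (φ.comp π))
      (_h3 : 𝔟.height ≤ c) (Φ : S →+* TrivSqZeroExt KW (Fin c → KW))
      (_hΦ1 : ∀ s, (Φ s).fst = algebraMap W KW (φ (π s)))
      (_hΦ2 : ∀ s, (Φ s).snd ∈ L0 W KW c)
      (f : Fin c → S) (_hf : ∀ l, f l ∈ RingHom.ker π) (d : W)
      (_hd : algebraMap W KW d = (jac Φ f).det)
      (A : ℕ → Subring K) (x : ℕ → K) (_hA : A 0 = j.range)
      (_hQ : ∀ i, IsQuadTransform V (A i) (A (i + 1)) (x i))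
      (_hreg : ∀ i < n, ¬ IsRegularLocalRing (A i)),
      ∃ w : W, algebraMap W KW w = τ (∏ i ∈ Finset.range n, x i) ∧ w ∣ d := by
  intro n
  induction n with
  | zero =>
    intros
    refine ⟨1, ?_, one_dvd _⟩
    rw [Finset.range_zero, Finset.prod_empty, map_one, map_one]
  | succ n IH =>
  intro R T S _ _ _ _ _ _ _ j hj ι hι π hπ φ hφ hcomp 𝔟 _ h1 h2 h3 Φ hΦ1 hΦ2 f hf d hd A x hA hQ
    hreg
  have hinj := IsFractionRing.injective W KW
  have hTn : IsNoetherianRing T := isNoetherianRing_of_surjective S T π hπ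
  have hιloc : ∀ r, r ∈ maximalIdeal R ↔ ¬ IsUnit (φ (ι r)) := by
    intro r
    constructor
    · intro hr hu
      have := hι.map_mem r hr
      rw [mem_maximalIdeal, mem_nonunits_iff] at this
      exact this (isUnit_of_map_unit φ _ hu)
    · intro hr
      rw [mem_maximalIdeal, mem_nonunits_iff]
      exact fun hu => hr ((hu.map ι).map φ)
  have hjV : ∀ r, j r ∈ V := fun r => (hV _).2 ⟨_, hcomp r⟩
  have hval : ∀ r : R, V.valuation (j r) < 1 ↔ r ∈ maximalIdeal R := by
    intro r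
    have e1 : V.valuation (j r) ≤ 1 := (V.valuation_le_one_iff _).2 (hjV r)
    rw [hιloc, ← val_eq_one_iff V τ hV (hcomp r)]
    exact ⟨fun h3 h4 => h3.ne h4, fun h3 => lt_of_le_of_ne e1 h3⟩
  -- the first quadratic transform
  have hR0 : ¬ IsRegularLocalRing R := by
    intro h0
    apply hreg 0 (Nat.succ_pos n)
    rw [hA]
    exact IsRegularLocalRing.of_ringEquiv
      (RingEquiv.ofBijective j.rangeRestrict ⟨fun _ _ hab => hj (congrArg Subtype.val hab),
        RingHom.rangeRestrict_surjective _⟩)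
  have hT0 : ¬ IsRegularLocalRing T := fun h0 => hR0 (regular_of_sameCompletion hι)
  obtain ⟨hx1, hx2, hx3, hx4, hx5⟩ := hQ 0
  rw [hA] at hx1 hx4 hx5
  obtain ⟨r, hr⟩ := hx1
  rw [← hr] at hx2 hx3 hx4 hx5
  have hφι : IsLocalHom (φ.comp ι) := by
    refine ⟨fun r hr => ?_⟩
    by_contra hn
    exact (hιloc r).1 ((mem_maximalIdeal r).2 hn) hr
  have hR : QTData (φ.comp ι) r := by
    refine ⟨hφι, (hval r).1 hx3, ?_, fun y hy => ?_⟩
    · intro h0
      rw [RingHom.comp_apply] at h0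
      have e1 := hcomp r
      rw [h0, map_zero, eq_comm, map_eq_zero] at e1
      exact hx2 e1
    · have e1 := hx4 (j y) ⟨y, rfl⟩ ((hval y).2 hy)
      have e2 : j y / j r ∈ V := by
        rw [← V.valuation_le_one_iff, map_div₀]
        exact div_le_one_of_le₀ e1 zero_le
      obtain ⟨w, hw⟩ := (hV _).1 e2
      refine ⟨w, hinj ?_⟩
      rw [map_mul, RingHom.comp_apply, RingHom.comp_apply, hcomp, hcomp, hw, ← map_mul,
        mul_div_cancel₀ _ hx2]
  have hT : QTData φ (ι r) := QTData_of_sameCompletion' hι φ hφ hR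
  obtain ⟨y, hy⟩ := hπ (ι r)
  have hπloc : IsLocalHom π := hπ.isLocalHom
  have hπm : ∀ a ∈ maximalIdeal S, π a ∈ maximalIdeal T := by
    intro a ha
    rw [mem_maximalIdeal, mem_nonunits_iff] at ha ⊢
    exact fun hu => ha (isUnit_of_map_unit π a hu)
  have hS : QTData (φ.comp π) y := by
    refine ⟨inferInstance, ?_, ?_, ?_⟩
    · rw [mem_maximalIdeal, mem_nonunits_iff]
      intro hu
      have := hu.map π
      rw [hy] at this
      exact (mem_nonunits_iff.1 ((mem_maximalIdeal _).1 hT.x_mem)) this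
    · rw [RingHom.comp_apply, hy]; exact hT.x_ne
    · intro a ha
      rw [RingHom.comp_apply, hy]
      exact hT.x_dvd _ (hπm a ha)
  have hkerm : RingHom.ker π ≤ maximalIdeal S := IsLocalRing.le_maximalIdeal (by
    rw [Ne, Ideal.eq_top_iff_one, RingHom.mem_ker, map_one]
    exact one_ne_zero)
  obtain ⟨a, l, hal, hsum⟩ := (reg_or π hπ 𝔟 h1 h3 f hf).resolve_left hT0
  -- the quadratic transforms
  have iR := hR.isLocalRing
  have iT := hT.isLocalRing
  have iS := hS.isLocalRing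
  have iRn : IsNoetherianRing (QT (φ.comp ι) r) := QT_noetherian hR
  have iSr : IsRegularLocalRing (QT (φ.comp π) y) := QT_regular hS
  obtain ⟨Φ1, hΦ11, hΦ12, hΦ13⟩ := exists_Phi1 (c := c) (KW := KW) hS Φ (fun s => by
    rw [hΦ1]; rfl) hΦ2
  let ι1 := QT.map (y := ι r) ι hι.map_mem (rfl : φ.comp ι = φ.comp ι) (rfl : ι r = ι r)
  let π1 := QT.map (y := ι r) π hπm (rfl : φ.comp π = φ.comp π) hy
  have hjs : ∀ s ∈ sig (φ.comp ι) r, IsUnit (j s) := by
    intro s hs
    rw [isUnit_iff_ne_zero]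
    intro h0
    have := hcomp s
    rw [h0, map_zero] at this
    exact hR.sig_ne hs (hinj (by rw [map_zero]; exact this))
  let j1 : QT (φ.comp ι) r →+* K := QT.lift j hjs
  have hj1 : ∀ r', j1 (QT.of _ _ r') = j r' := fun r' => QT.lift_of j hjs r'
  have hcomp1' : ∀ z, algebraMap W KW (hR.toW z) = τ (j1 z) := by
    intro z
    obtain ⟨N, b, s, hb, hs, hs', rfl⟩ := QT.exists_rep z
    have e1 := hR.toW_mk hb hs hs'
    have e2 := QT.lift_mk j hjs hb hs hs'
    have e3 : algebraMap W KW ((φ.comp ι) s) ≠ 0 := by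
      intro h0
      exact hR.sig_ne (s := s) ⟨N, hs, hs'⟩ (hinj (by rw [map_zero]; exact h0))
    apply mul_left_cancel₀ e3
    rw [← map_mul, e1, RingHom.comp_apply, RingHom.comp_apply, hcomp, hcomp, ← map_mul, ← e2]
  have hι1W : ∀ z, hT.toW (ι1 z) = hR.toW z := fun z =>
    QT.toW_map (y := ι r) ι hι.map_mem rfl rfl hR hT z
  have hπ1W : ∀ z, hT.toW (π1 z) = hS.toW z := fun z =>
    QT.toW_map (y := ι r) π hπm rfl hy hS hT z
  have hj1inj : Function.Injective j1 := by
    rw [injective_iff_map_eq_zero]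
    intro z hz
    obtain ⟨N, b, s, hb, hs, hs', rfl⟩ := QT.exists_rep z
    have e2 := QT.lift_mk j hjs hb hs hs'
    have e3 : j b = 0 := by rw [← e2]; exact mul_eq_zero_of_right _ hz
    have e4 : b = 0 := hj (by rw [e3, map_zero])
    symm
    rw [QT.mk_eq_iff, e4, map_zero, mul_zero]
  have hcomp1 : ∀ z, algebraMap W KW (hT.toW (ι1 z)) = τ (j1 z) := fun z => by
    rw [hι1W, hcomp1']
  have hker1 : RingHom.ker π1 ≤ tr (φ.comp π) y 𝔟 :=
    ker_map_le_tr hπ hπm rfl hy hS hT 𝔟 h2 h1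
  have hπ1 : Function.Surjective π1 := QT_map_surjective hπ hπm rfl hy
  have htr2 : tr (φ.comp π) y 𝔟 ≤ RingHom.ker (hT.toW.comp π1) := by
    intro z hz
    have := tr_le_ker hS 𝔟 h2 hz
    rw [RingHom.mem_ker] at this ⊢
    rw [RingHom.comp_apply, hπ1W, this]
  have iP : (tr (φ.comp π) y 𝔟).IsPrime := tr_isPrime hS 𝔟 h2
  have hΦ11' : ∀ s, (Φ1 s).fst = algebraMap W KW (hT.toW (π1 s)) := fun s => by
    rw [hΦ11, hπ1W]
  have hsmall : ∀ f ∈ RingHom.ker π, ∀ N : ℕ, 1 ≤ N → f ∈ maximalIdeal S ^ N →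
      ∃ z ∈ RingHom.ker π1, (φ (ι r)) ^ (N - 1) • (Φ1 z).snd = (Φ f).snd := by
    intro f hf N hN hfN
    have hy' : Associated ((φ.comp π) (y ^ N)) ((φ.comp π) y ^ N) := by rw [map_pow]
    refine ⟨QT.mk _ _ N f (y ^ N) hfN (Ideal.pow_mem_pow hS.x_mem N) hy', ?_, ?_⟩
    · rw [RingHom.mem_ker]
      refine QT.of_mul_cancel (s := ι r ^ N) (x := ι r) (φ := φ) ?_ ?_
      · exact ⟨N, Ideal.pow_mem_pow hT.x_mem N, by rw [map_pow]⟩
      · have e5 : QT.of φ (ι r) (ι r ^ N) = π1 (QT.of _ _ (y ^ N)) := by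
          rw [QT.map_of, map_pow π, hy]
        rw [mul_zero, e5, ← map_mul, QT.of_mul_mk, QT.map_of, RingHom.mem_ker.1 hf, map_zero]
    · have e6 := hΦ13 N f hN (by rw [RingHom.comp_apply, RingHom.mem_ker.1 hf, map_zero])
        (QT.mk _ _ N f (y ^ N) hfN (Ideal.pow_mem_pow hS.x_mem N) hy') (QT.of_mul_mk ..)
      rw [RingHom.comp_apply, hy] at e6
      exact e6
  -- the new elements
  set g : S := ∑ i, a i * f i with hg
  have hgk : g ∈ RingHom.ker π := Ideal.sum_mem _ fun i _ => Ideal.mul_mem_left _ _ (hf i)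
  have hf1 : ∀ i, ∃ z ∈ RingHom.ker π1, (Φ1 z).snd = (Φ (f i)).snd := by
    intro i
    obtain ⟨z, hz, hz'⟩ := hsmall (f i) (hf i) 1 le_rfl (by rw [pow_one]; exact hkerm (hf i))
    rw [Nat.sub_self, pow_zero, one_smul] at hz'
    exact ⟨z, hz, hz'⟩
  choose F hF hF' using hf1
  obtain ⟨G, hG, hG'⟩ := hsmall g hgk 2 (by omega) hsum
  rw [show 2 - 1 = 1 from rfl, pow_one] at hG'
  set f1 : Fin c → QT (φ.comp π) y := Function.update F l G with hf1def
  have hf1k : ∀ i, f1 i ∈ RingHom.ker π1 := by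
    intro i
    by_cases hi : i = l
    · rw [hi, hf1def, Function.update_self]; exact hG
    · rw [hf1def, Function.update_of_ne hi]; exact hF i
  obtain ⟨d1, hd1⟩ := det_jac_mem Φ1 hΦ12 f1
  -- determinants
  have hdet1 : algebraMap W KW (φ (ι r)) * (jac Φ1 f1).det =
      algebraMap W KW (φ (π (a l))) * (jac Φ f).det := by
    have e1 : (jac Φ f).updateCol l (fun k => ∑ i, (algebraMap W KW (φ (π (a i)))) • jac Φ f k i) =
        (jac Φ1 f1).updateCol l ((algebraMap W KW (φ (ι r))) • fun k => jac Φ1 f1 k l) := by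
      ext k i
      by_cases hi : i = l
      · rw [hi, Matrix.updateCol_self, Matrix.updateCol_self]
        have e2 : (Φ g).snd = ∑ i, (algebraMap W KW (φ (π (a i)))) • (Φ (f i)).snd := by
          rw [hg, map_sum, TrivSqZeroExt.snd_sum]
          refine Finset.sum_congr rfl fun i _ => ?_
          rw [map_mul, TrivSqZeroExt.snd_mul, hΦ1, hΦ1, RingHom.mem_ker.1 (hf i), map_zero,
            map_zero, MulOpposite.op_zero, zero_smul, add_zero]
        have e3 := congrFun (hG'.trans e2) k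
        rw [Pi.smul_apply, Finset.sum_apply] at e3
        simp only [Pi.smul_apply, jac, Matrix.of_apply]
        rw [hf1def, Function.update_self]
        rw [← algebraMap_smul KW (φ (ι r))] at e3
        exact e3.symm
      · rw [Matrix.updateCol_ne hi, Matrix.updateCol_ne hi, jac, jac, Matrix.of_apply,
          Matrix.of_apply, hf1def, Function.update_of_ne hi, hF']
    have e4 := congrArg Matrix.det e1
    rw [Matrix.det_updateCol_sum, Matrix.det_updateCol_smul, Matrix.updateCol_eq_self,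
      smul_eq_mul] at e4
    exact e4.symm
  have hdvd : φ (ι r) * d1 ∣ d := by
    have e1 : φ (ι r) * d1 = φ (π (a l)) * d := by
      apply hinj
      rw [map_mul, map_mul, hd1, hd, hdet1]
    rw [e1]
    have hu : IsUnit (φ (π (a l))) := (hal.map π).map φ
    exact hu.mul_left_dvd.2 dvd_rfl
  have hA1 : A 1 = j1.range := by
    rw [hx5]
    refine (range_QT V hR j hj j1 hj1 (fun z => (hV _).2 ⟨_, hcomp1' z⟩) (fun z => ?_)).symm
    rw [val_eq_one_iff V τ hV (hcomp1' z), hR.isUnit_iff]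
  obtain ⟨w, hw, hwd⟩ := IH (QT (φ.comp ι) r) (QT φ (ι r)) (QT (φ.comp π) y) j1 hj1inj ι1
      (QT_sameCompletion hι rfl hR hT) π1 hπ1 hT.toW hT.isLocalHom hcomp1
      (tr (φ.comp π) y 𝔟) hker1 htr2 (by rw [tr_height hS 𝔟 h2]; exact h3) Φ1 hΦ11' hΦ12 f1 hf1k
      d1 hd1 (fun i => A (i + 1)) (fun i => x (i + 1)) hA1 (fun i => hQ (i + 1))
      (fun i hi => hreg (i + 1) (by omega))
  refine ⟨φ (ι r) * w, ?_, (mul_dvd_mul_left _ hwd).trans hdvd⟩
  rw [Finset.prod_range_succ', map_mul, map_mul, hw, mul_comm, hcomp, hr]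

end Main

end Pool.Agent.Lib.MP_3029eb_ag
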