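import Pool.Agent.Lib.MP_3029eb_ag.J
import Pool.Agent.Lib.MP_3029eb_ag.H6Seq

/-!
The initial state for an arbitrary domain `W` (adapted from module J): instead of a lattice of
finite colength we find elements of the kernel with nonzero Jacobian determinant.
-/

open IsLocalRing

namespace Pool.Agent.Lib.MP_3029eb_ag

theorem exists_jac_ne_zero {KW S : Type} [Field KW] [CommRing S] {c : ℕ}
    (Φ : S →+* TrivSqZeroExt KW (Fin c → KW)) (I : Ideal S)
    (h : ∀ i : Fin c, (Pi.single i 1 : Fin c → KW) ∈
      Submodule.span KW ((fun s => (Φ s).snd) '' (I : Set S))) :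
    ∃ f : Fin c → S, (∀ l, f l ∈ I) ∧ (jac Φ f).det ≠ 0 := by
  classical
  set X : Set (Fin c → KW) := (fun s => (Φ s).snd) '' (I : Set S) with hX
  have htop : Submodule.span KW X = ⊤ := by
    rw [eq_top_iff]
    intro v _
    have e1 : v = ∑ i, v i • (Pi.single i 1 : Fin c → KW) := by
      funext j
      rw [Finset.sum_apply, Finset.sum_eq_single j]
      · rw [Pi.smul_apply, Pi.single_eq_same, smul_eq_mul, mul_one]
      · intro i _ hij
        rw [Pi.smul_apply, Pi.single_eq_of_ne (Ne.symm hij), smul_zero]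
      · intro hj; exact absurd (Finset.mem_univ j) hj
    rw [e1]
    exact Submodule.sum_mem _ fun i _ => Submodule.smul_mem _ _ (h i)
  obtain ⟨b, hbX, hbspan, hbli⟩ := exists_linearIndependent KW X
  have hbfin : b.Finite := hbli.setFinite
  have : Fintype b := hbfin.fintype
  have hcard : Fintype.card b = c := by
    have e1 := finrank_span_set_eq_card hbli
    rw [hbspan, htop, finrank_top, Module.finrank_fin_fun] at e1
    rw [Set.toFinset_card] at e1
    exact e1.symm
  let e : Fin c ≃ b := (Fintype.equivFinOfCardEq hcard).symm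
  have hex : ∀ l : Fin c, ∃ s ∈ I, (Φ s).snd = (e l : Fin c → KW) := fun l => by
    obtain ⟨s, hs, hs'⟩ := hbX (e l).2
    exact ⟨s, hs, hs'⟩
  choose f hf hf' using hex
  refine ⟨f, hf, ?_⟩
  have hli : LinearIndependent KW (fun l : Fin c => (Φ (f l)).snd) := by
    have e1 : (fun l : Fin c => (Φ (f l)).snd) = (fun z : b => (z : Fin c → KW)) ∘ e := by
      funext l
      exact hf' l
    rw [e1]
    exact hbli.comp _ e.injective
  have hu : IsUnit (jac Φ f).transpose := by
    rw [← Matrix.linearIndependent_rows_iff_isUnit]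
    exact hli
  have hu2 := (Matrix.isUnit_iff_isUnit_det _).1 hu
  rw [Matrix.det_transpose] at hu2
  exact hu2.ne_zero

theorem init_Phi' {W KW S L V0 : Type} [CommRing W] [IsDomain W]
    [Field KW] [Algebra W KW] [IsFractionRing W KW] [CommRing S] [Field L] [AddCommGroup V0]
    [Module L V0] [FiniteDimensional L V0] [Module S V0] (σ : S →+* L)
    (hσ : ∀ (a : S) (v : V0), a • v = σ a • v) (ψ : S →+* W) (j : L →+* KW)
    (hj : ∀ a, j (σ a) = algebraMap W KW (ψ a)) (D : S → V0)
    (hadd : ∀ a b, D (a + b) = D a + D b) (hmul : ∀ a b, D (a * b) = a • D b + b • D a)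
    (G : Set V0) (hG : G.Finite) (hG' : ∀ s, D s ∈ Submodule.span S G) (I : Ideal S)
    (U : Submodule L V0) (hU : U = Submodule.span L (D '' (I : Set S))) :
    ∃ Φ : S →+* TrivSqZeroExt KW (Fin (Module.finrank L U) → KW),
      (∀ s, (Φ s).fst = algebraMap W KW (ψ s)) ∧
      (∀ s, (Φ s).snd ∈ L0 W KW (Module.finrank L U)) ∧
      ∃ f : Fin (Module.finrank L U) → S, (∀ l, f l ∈ I) ∧ (jac Φ f).det ≠ 0 := by
  classical
  obtain ⟨c, hc⟩ : ∃ c : ℕ, Module.finrank L U = c := ⟨_, rfl⟩
  rw [hc]
  let b : Module.Basis (Fin c) L U := Module.finBasisOfFinrankEq L U hc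
  obtain ⟨p, hp⟩ := U.subtype.exists_leftInverse_of_injective
    (LinearMap.ker_eq_bot.2 U.injective_subtype)
  let co : V0 →ₗ[L] (Fin c → L) := b.equivFun.toLinearMap ∘ₗ p
  let J : V0 → (Fin c → KW) := fun v i => j (co v i)
  have hJadd : ∀ v w, J (v + w) = J v + J w := by
    intro v w; funext i; simp only [J, map_add, Pi.add_apply]
  have hJsmul : ∀ (l : L) (v : V0), J (l • v) = j l • J v := by
    intro l v; funext i; simp only [J, map_smul, Pi.smul_apply, smul_eq_mul, map_mul]
  have hJ0 : J 0 = 0 := by funext i; simp only [J, map_zero, Pi.zero_apply]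
  -- common denominator
  let Y : Finset KW := (hG.toFinset ×ˢ (Finset.univ : Finset (Fin c))).image
    (fun q : V0 × Fin c => J q.1 q.2)
  obtain ⟨⟨d, hd⟩, hdY⟩ := IsLocalization.exist_integer_multiples_of_finset
    (nonZeroDivisors W) Y
  have hd0 : d ≠ 0 := nonZeroDivisors.ne_zero hd
  have hdK : algebraMap W KW d ≠ 0 := by
    rw [Ne, IsFractionRing.to_map_eq_zero_iff]; exact hd0
  have hint : ∀ v ∈ Submodule.span S G, algebraMap W KW d • J v ∈ L0 W KW c := by
    intro v hv
    induction hv using Submodule.span_induction with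
    | mem x hx =>
      intro i
      obtain ⟨y, hy⟩ := hdY (J x i) (Finset.mem_image.2 ⟨(x, i),
        Finset.mem_product.2 ⟨hG.mem_toFinset.2 hx, Finset.mem_univ _⟩, rfl⟩)
      refine ⟨y, ?_⟩
      rw [hy, Pi.smul_apply, smul_eq_mul]
      exact Algebra.smul_def _ _
    | zero => rw [hJ0, smul_zero]; exact Submodule.zero_mem _
    | add x y _ _ hx hy => rw [hJadd, smul_add]; exact Submodule.add_mem _ hx hy
    | smul a x _ hx =>
      rw [hσ, hJsmul, hj, smul_comm, algebraMap_smul]
      exact Submodule.smul_mem _ _ hx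
  have hD0 : D 0 = 0 := by
    have := hadd 0 0
    rw [add_zero] at this
    exact left_eq_add.1 this
  have hD1 : D 1 = 0 := by
    have := hmul 1 1
    rw [mul_one, one_smul] at this
    exact left_eq_add.1 this
  let Φ : S →+* TrivSqZeroExt KW (Fin c → KW) :=
    { toFun := fun s => (algebraMap W KW (ψ s), algebraMap W KW d • J (D s))
      map_one' := by
        refine TrivSqZeroExt.ext ?_ ?_
        · change algebraMap W KW (ψ 1) = 1
          rw [map_one, map_one]
        · change algebraMap W KW d • J (D 1) = 0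
          rw [hD1, hJ0, smul_zero]
      map_mul' := fun x y => by
        refine TrivSqZeroExt.ext ?_ ?_
        · change algebraMap W KW (ψ (x * y)) = algebraMap W KW (ψ x) * algebraMap W KW (ψ y)
          rw [map_mul, map_mul]
        · change algebraMap W KW d • J (D (x * y)) =
            algebraMap W KW (ψ x) • (algebraMap W KW d • J (D y)) +
            MulOpposite.op (algebraMap W KW (ψ y)) • (algebraMap W KW d • J (D x))
          rw [op_smul_eq_smul, hmul, hJadd, hσ, hσ, hJsmul, hJsmul, hj, hj, smul_add,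
            smul_comm (algebraMap W KW d), smul_comm (algebraMap W KW d)]
      map_zero' := by
        refine TrivSqZeroExt.ext ?_ ?_
        · change algebraMap W KW (ψ 0) = 0
          rw [map_zero, map_zero]
        · change algebraMap W KW d • J (D 0) = 0
          rw [hD0, hJ0, smul_zero]
      map_add' := fun x y => by
        refine TrivSqZeroExt.ext ?_ ?_
        · change algebraMap W KW (ψ (x + y)) = algebraMap W KW (ψ x) + algebraMap W KW (ψ y)
          rw [map_add, map_add]
        · change algebraMap W KW d • J (D (x + y)) =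
            algebraMap W KW d • J (D x) + algebraMap W KW d • J (D y)
          rw [hadd, hJadd, smul_add] }
  refine ⟨Φ, fun s => rfl, fun s => hint _ (hG' s), exists_jac_ne_zero Φ I (fun i => ?_)⟩
  have hspan : ∀ u ∈ U, J u ∈ Submodule.span KW ((fun s => (Φ s).snd) '' (I : Set S)) := by
    intro u hu
    rw [hU] at hu
    induction hu using Submodule.span_induction with
    | mem x hx =>
      obtain ⟨s, hs, rfl⟩ := hx
      have h1 : J (D s) = (algebraMap W KW d)⁻¹ • (Φ s).snd := by
        change J (D s) = (algebraMap W KW d)⁻¹ • (algebraMap W KW d • J (D s))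
        rw [inv_smul_smul₀ hdK]
      rw [h1]
      exact Submodule.smul_mem _ _ (Submodule.subset_span ⟨s, hs, rfl⟩)
    | zero => rw [hJ0]; exact Submodule.zero_mem _
    | add x y _ _ hx hy => rw [hJadd]; exact Submodule.add_mem _ hx hy
    | smul l x _ hx => rw [hJsmul]; exact Submodule.smul_mem _ _ hx
  have h2 : (Pi.single i 1 : Fin c → KW) = J (b i : V0) := by
    funext k
    have h3 : p (b i : V0) = b i := LinearMap.congr_fun hp (b i)
    have h4 : co (b i : V0) k = if i = k then 1 else 0 := by
      change b.equivFun (p (b i : V0)) k = _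
      rw [h3]
      exact b.equivFun_self i k
    change _ = j (co (b i : V0) k)
    rw [h4]
    by_cases hik : k = i
    · subst hik; rw [Pi.single_eq_same, if_pos rfl, map_one]
    · rw [Pi.single_eq_of_ne hik, if_neg (Ne.symm hik), map_zero]
  rw [h2]
  exact hspan _ (b i).2

theorem init_state' {W KW : Type} [CommRing W] [IsDomain W]
    [Field KW] [Algebra W KW] [IsFractionRing W KW] (S T : Type) [CommRing S]
    [IsRegularLocalRing S] [CommRing T] [IsLocalRing T]
    (π : S →+* T) (hπ : Function.Surjective π) (φ : T →+* W)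
    [(RingHom.ker φ).IsPrime] [(RingHom.ker (φ.comp π)).IsPrime]
    (hreg : IsRegularLocalRing (Localization.AtPrime (RingHom.ker φ)))
    (hbdd : BddDer S (RingHom.ker (φ.comp π))) :
    ∃ (c : ℕ) (𝔟 : Ideal S) (_ : 𝔟.IsPrime), RingHom.ker π ≤ 𝔟 ∧
      𝔟 ≤ RingHom.ker (φ.comp π) ∧ 𝔟.height ≤ c ∧
      ∃ Φ : S →+* TrivSqZeroExt KW (Fin c → KW),
        (∀ s, (Φ s).fst = algebraMap W KW (φ (π s))) ∧
        (∀ s, (Φ s).snd ∈ L0 W KW c) ∧
        ∃ f : Fin c → S, (∀ l, f l ∈ RingHom.ker π) ∧ (jac Φ f).det ≠ 0 := by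
  classical
  obtain ⟨D, hadd, hmul, hcan, G, hG, hG'⟩ := hbdd
  let 𝔔 : Ideal S := RingHom.ker (φ.comp π)
  let O : Type := Localization.AtPrime (RingHom.ker (φ.comp π))
  let TP : Type := Localization.AtPrime (RingHom.ker φ)
  have hdomTP : IsDomain TP := isDomain_of_isRegularLocalRing TP
  have hnoeth : IsNoetherianRing O :=
    IsLocalization.isNoetherianRing (RingHom.ker (φ.comp π)).primeCompl O inferInstance
  have hcomap : RingHom.ker (φ.comp π) = (RingHom.ker φ).comap π := (RingHom.comap_ker φ π).symm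
  let f : O →+* TP := Localization.localRingHom (RingHom.ker (φ.comp π)) (RingHom.ker φ) π hcomap
  have hfalg : ∀ s : S, f (algebraMap S O s) = algebraMap T TP (π s) := fun s =>
    Localization.localRingHom_to_map _ _ π hcomap s
  have hf : Function.Surjective f := by
    intro z
    obtain ⟨⟨t, ⟨s, hs⟩⟩, hz⟩ := IsLocalization.surj (RingHom.ker φ).primeCompl z
    obtain ⟨a, rfl⟩ := hπ t
    obtain ⟨b, rfl⟩ := hπ s
    have hb : b ∈ (RingHom.ker (φ.comp π)).primeCompl := hs
    have hu : IsUnit (algebraMap S O b) := IsLocalization.map_units O ⟨b, hb⟩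
    obtain ⟨u, hu⟩ := hu
    refine ⟨algebraMap S O a * ↑u⁻¹, ?_⟩
    have h1 : IsUnit (algebraMap T TP (π b)) := IsLocalization.map_units TP ⟨π b, hs⟩
    refine h1.mul_right_cancel ?_
    change _ = z * algebraMap T TP (π b)
    have hz' : z * algebraMap T TP (π b) = algebraMap T TP (π a) := hz
    rw [hz', ← hfalg a, ← hfalg b, ← map_mul]
    congr 1
    rw [mul_assoc, ← hu, Units.inv_mul, mul_one]
  have hker : (RingHom.ker f).IsPrime := RingHom.ker_isPrime f
  -- the residue field
  let σ : S →+* ResidueField O := (residue O).comp (algebraMap S O)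
  have hσ : ∀ (a : S) (v : CotangentSpace O), a • v = σ a • v := by
    intro a v
    change a • v = residue O (algebraMap S O a) • v
    rw [← algebraMap_smul O a v]
    exact (IsScalarTower.algebraMap_smul (ResidueField O) (algebraMap S O a) v).symm
  let g0 : O →+* KW := IsLocalization.lift (M := (RingHom.ker (φ.comp π)).primeCompl)
    (g := (algebraMap W KW).comp (φ.comp π)) (by
      intro y
      rw [isUnit_iff_ne_zero, RingHom.comp_apply]
      intro h0
      exact y.2 ((RingHom.mem_ker).2 ((IsFractionRing.injective W KW) (by rw [h0, map_zero]))))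
  have hg0 : ∀ s : S, g0 (algebraMap S O s) = algebraMap W KW (φ (π s)) := fun s =>
    IsLocalization.lift_eq _ s
  have hg0m : ∀ a ∈ maximalIdeal O, g0 a = 0 := by
    have h1 : maximalIdeal O ≤ RingHom.ker g0 := by
      have h2 : Ideal.map (algebraMap S O) (RingHom.ker (φ.comp π)) = maximalIdeal O :=
        Localization.AtPrime.map_eq_maximalIdeal
      rw [← h2, Ideal.map_le_iff_le_comap]
      intro s hs
      rw [Ideal.mem_comap, RingHom.mem_ker, hg0]
      have h3 : φ (π s) = 0 := hs
      rw [h3, map_zero]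
    exact fun a ha => h1 ha
  let j : ResidueField O →+* KW := Ideal.Quotient.lift (maximalIdeal O) g0 hg0m
  have hj : ∀ a : S, j (σ a) = algebraMap W KW ((φ.comp π) a) := fun a => hg0 a
  let U : Submodule (ResidueField O) (CotangentSpace O) :=
    Submodule.span (ResidueField O) (D '' (RingHom.ker π : Set S))
  have hkerle : RingHom.ker π ≤ RingHom.ker (φ.comp π) := by
    intro s hs
    rw [RingHom.mem_ker] at hs ⊢
    rw [RingHom.comp_apply, hs, map_zero]
  have hmemmax : ∀ s ∈ RingHom.ker (φ.comp π), algebraMap S O s ∈ maximalIdeal O := by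
    intro s hs
    have h2 : Ideal.map (algebraMap S O) (RingHom.ker (φ.comp π)) = maximalIdeal O :=
      Localization.AtPrime.map_eq_maximalIdeal
    rw [← h2]
    exact Ideal.mem_map_of_mem _ hs
  have hU : ∀ (a : O) (_ : f a = 0) (ha : a ∈ maximalIdeal O),
      (maximalIdeal O).toCotangent ⟨a, ha⟩ ∈ U := by
    intro a hfa ha
    obtain ⟨⟨b, ⟨s, hs⟩⟩, hz⟩ := IsLocalization.surj (RingHom.ker (φ.comp π)).primeCompl a
    have hz' : a * algebraMap S O s = algebraMap S O b := hz
    have hb0 : algebraMap T TP (π b) = 0 := by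
      rw [← hfalg, ← hz', map_mul, hfa, zero_mul]
    rw [IsLocalization.map_eq_zero_iff (RingHom.ker φ).primeCompl] at hb0
    obtain ⟨⟨t, ht⟩, htb⟩ := hb0
    obtain ⟨t', rfl⟩ := hπ t
    have htb' : t' * b ∈ RingHom.ker π := by
      rw [RingHom.mem_ker, map_mul]; exact htb
    have ht' : t' ∈ (RingHom.ker (φ.comp π)).primeCompl := ht
    have hts : t' * s ∈ (RingHom.ker (φ.comp π)).primeCompl := mul_mem ht' hs
    have hunit : IsUnit (algebraMap S O (t' * s)) := IsLocalization.map_units O ⟨t' * s, hts⟩
    have hne : σ (t' * s) ≠ 0 := (hunit.map (residue O)).ne_zero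
    have hDu : D (t' * b) = σ (t' * s) • (maximalIdeal O).toCotangent ⟨a, ha⟩ := by
      rw [hcan (t' * b) (hkerle htb') (hmemmax _ (hkerle htb')), ← hσ,
        ← algebraMap_smul O (t' * s), ← map_smul]
      congr 1
      apply Subtype.ext
      change algebraMap S O (t' * b) = algebraMap S O (t' * s) * a
      rw [map_mul, map_mul, ← hz']
      ring
    have h5 : (maximalIdeal O).toCotangent ⟨a, ha⟩ = (σ (t' * s))⁻¹ • D (t' * b) := by
      rw [hDu, inv_smul_smul₀ hne]
    rw [h5]
    exact Submodule.smul_mem _ _ (Submodule.subset_span ⟨_, htb', rfl⟩)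
  have hheight := init_height_le f hf U hU
  refine ⟨Module.finrank (ResidueField O) U, RingHom.ker ((algebraMap T TP).comp π),
    RingHom.ker_isPrime _, ?_, ?_, ?_, ?_⟩
  · intro s hs
    rw [RingHom.mem_ker] at hs ⊢
    rw [RingHom.comp_apply, hs, map_zero]
  · intro s hs
    rw [RingHom.mem_ker, RingHom.comp_apply,
      IsLocalization.map_eq_zero_iff (RingHom.ker φ).primeCompl] at hs
    obtain ⟨⟨t, ht⟩, hts⟩ := hs
    have h1 : φ t * φ (π s) = 0 := by rw [← map_mul]; rw [show t * π s = 0 from hts, map_zero]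
    rcases mul_eq_zero.1 h1 with h2 | h2
    · exact absurd h2 ht
    · exact h2
  · have h1 : RingHom.ker ((algebraMap T TP).comp π) = (RingHom.ker f).under S := by
      ext s
      rw [RingHom.mem_ker, RingHom.comp_apply, ← hfalg]
      rfl
    rw [h1, IsLocalization.height_under (RingHom.ker (φ.comp π)).primeCompl]
    exact hheight
  · exact init_Phi' σ hσ (φ.comp π) j hj D hadd hmul G hG hG' (RingHom.ker π) U rfl

end Pool.Agent.Lib.MP_3029eb_ag
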