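import Pool.Agent.Lib.MP_3029eb_ag.H6Seq

/-!
If a member of a sequence of quadratic transforms is regular then the first ring admits local
uniformization along the valuation, and all later members are regular.
-/

open IsLocalRing

namespace Pool.Agent.Lib.MP_3029eb_ag

/-- One quadratic transform of a local ring dominated by `V`. -/
theorem quad_step {K : Type} [Field K] (V : ValuationSubring K) {R : Type} [CommRing R]
    [IsLocalRing R] (φ : R →+* V) (hφ : IsLocalHom φ) (hj : Function.Injective φ)
    {A A' : Subring K} {x : K} (hA : A = (V.subtype.comp φ).range)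
    (hQ : IsQuadTransform V A A' x) :
    ∃ (r : R) (h : QTData φ r), Function.Injective h.toW ∧
      A' = (V.subtype.comp h.toW).range ∧
      (∀ z : QT φ r, V.valuation (V.subtype.comp h.toW z) = 1 ↔ IsUnit z) := by
  set j : R →+* K := V.subtype.comp φ with hjdef
  have hjinj : Function.Injective j := Subtype.val_injective.comp hj
  have hjφ : ∀ r, j r = ((φ r : V) : K) := fun r => rfl
  have hval : ∀ r : R, V.valuation (j r) < 1 ↔ r ∈ maximalIdeal R := by
    intro r
    rw [hjφ, ← ValuationSubring.valuation_lt_one_iff, mem_maximalIdeal, mem_maximalIdeal,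
      mem_nonunits_iff, mem_nonunits_iff, isUnit_map_iff]
  obtain ⟨hx1, hx2, hx3, hx4, hx5⟩ := hQ
  rw [hA] at hx1 hx4 hx5
  obtain ⟨r, hr⟩ := hx1
  rw [← hr] at hx2 hx3 hx4 hx5
  have hR : QTData φ r := by
    refine ⟨hφ, (hval r).1 hx3, ?_, fun y hy => ?_⟩
    · intro h0
      apply hx2
      rw [hjφ, h0]
      rfl
    · have e1 := hx4 (j y) ⟨y, rfl⟩ ((hval y).2 hy)
      rw [ValuationSubring.valuation_le_iff] at e1
      obtain ⟨a, ha⟩ := e1
      refine ⟨a, Subtype.ext ?_⟩
      rw [mul_comm]
      exact ha.symm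
  set j1 : QT φ r →+* K := V.subtype.comp hR.toW with hj1def
  have hj1 : ∀ s, j1 (QT.of _ _ s) = j s := fun s => by
    rw [hj1def, RingHom.comp_apply, hR.toW_of]
    rfl
  have hV1 : ∀ z : QT φ r, V.valuation (j1 z) = 1 ↔ IsUnit z := by
    intro z
    have h1 := (ValuationSubring.valuation_eq_one_iff V (hR.toW z))
    rw [show V.valuation (j1 z) = V.valuation ((hR.toW z : V) : K) from rfl, ← h1]
    exact (hR.isUnit_iff z).symm
  refine ⟨r, hR, ?_, ?_, hV1⟩
  · rw [injective_iff_map_eq_zero]
    intro z hz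
    obtain ⟨N, b, s, hb, hs, hs', rfl⟩ := QT.exists_rep z
    have e2 := hR.toW_mk hb hs hs'
    have e3 : φ b = 0 := by rw [← e2]; exact mul_eq_zero_of_right _ hz
    have e4 : b = 0 := hj (by rw [e3, map_zero])
    symm
    rw [QT.mk_eq_iff, e4, map_zero, mul_zero]
  · rw [hx5]
    exact (range_QT V hR j hjinj j1 hj1 (fun z => (hR.toW z).2) hV1).symm

theorem regular_iff_range {K : Type} [Field K] (V : ValuationSubring K) {R : Type} [CommRing R]
    (φ : R →+* V) (hj : Function.Injective φ) :
    IsRegularLocalRing R ↔ IsRegularLocalRing (V.subtype.comp φ).range := by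
  have hinj : Function.Injective (V.subtype.comp φ).rangeRestrict := by
    intro a b hab
    have h2 : (((V.subtype.comp φ).rangeRestrict a : (V.subtype.comp φ).range) : K) =
        ((V.subtype.comp φ).rangeRestrict b : (V.subtype.comp φ).range) := by rw [hab]
    exact hj (Subtype.ext h2)
  let e := RingEquiv.ofBijective (V.subtype.comp φ).rangeRestrict
    ⟨hinj, RingHom.rangeRestrict_surjective _⟩
  exact ⟨fun h => IsRegularLocalRing.of_ringEquiv e,
    fun h => IsRegularLocalRing.of_ringEquiv e.symm⟩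

/-- The members of a sequence of quadratic transforms are noetherian local rings dominated
by `V`. -/
theorem seq_dom {K : Type} [Field K] (V : ValuationSubring K) (A : ℕ → Subring K) (x : ℕ → K)
    (hQ : ∀ i, IsQuadTransform V (A i) (A (i + 1)) (x i))
    (h0 : ∃ (R : Type) (_ : CommRing R) (_ : IsNoetherianRing R) (_ : IsLocalRing R)
      (φ : R →+* V), IsLocalHom φ ∧ Function.Injective φ ∧ A 0 = (V.subtype.comp φ).range)
    (n : ℕ) :
    ∃ (R : Type) (_ : CommRing R) (_ : IsNoetherianRing R) (_ : IsLocalRing R)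
      (φ : R →+* V), IsLocalHom φ ∧ Function.Injective φ ∧ A n = (V.subtype.comp φ).range := by
  induction n with
  | zero => exact h0
  | succ n ih =>
    obtain ⟨R, _, _, _, φ, hφ, hj, hA⟩ := ih
    obtain ⟨r, hR, hinj, hA', -⟩ := quad_step V φ hφ hj hA (hQ n)
    have iR := hR.isLocalRing
    exact ⟨QT φ r, inferInstance, QT_noetherian hR, iR, hR.toW, hR.isLocalHom, hinj, hA'⟩

/-- Once regular, always regular. -/
theorem seq_reg {K : Type} [Field K] (V : ValuationSubring K) (A : ℕ → Subring K) (x : ℕ → K)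
    (hQ : ∀ i, IsQuadTransform V (A i) (A (i + 1)) (x i))
    (h0 : ∃ (R : Type) (_ : CommRing R) (_ : IsNoetherianRing R) (_ : IsLocalRing R)
      (φ : R →+* V), IsLocalHom φ ∧ Function.Injective φ ∧ A 0 = (V.subtype.comp φ).range)
    (N : ℕ) (hN : IsRegularLocalRing (A N)) (n : ℕ) (hn : N ≤ n) : IsRegularLocalRing (A n) := by
  induction n, hn using Nat.le_induction with
  | base => exact hN
  | succ n hn ih =>
    obtain ⟨R, _, _, _, φ, hφ, hj, hA⟩ := seq_dom V A x hQ h0 n
    rw [hA, ← regular_iff_range V φ hj] at ih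
    obtain ⟨r, hR, hinj, hA', -⟩ := quad_step V φ hφ hj hA (hQ n)
    rw [hA', ← regular_iff_range V hR.toW hinj]
    exact QT_regular hR

theorem LU_of_seq {K : Type} [Field K] (V : ValuationSubring K) (A : ℕ → Subring K) (x : ℕ → K)
    (hQ : ∀ i, IsQuadTransform V (A i) (A (i + 1)) (x i))
    (h0 : ∃ (R : Type) (_ : CommRing R) (_ : IsNoetherianRing R) (_ : IsLocalRing R)
      (φ : R →+* V), IsLocalHom φ ∧ Function.Injective φ ∧ A 0 = (V.subtype.comp φ).range)
    (n : ℕ) (hn : IsRegularLocalRing (A n)) : LU V (A 0) := by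
  have key : ∀ k, k ≤ n → LU V (A (n - k)) := by
    intro k
    induction k with
    | zero =>
      intro _
      obtain ⟨R, _, _, _, φ, hφ, hj, hA⟩ := seq_dom V A x hQ h0 n
      rw [Nat.sub_zero]
      rw [hA, ← regular_iff_range V φ hj] at hn
      rw [hA]
      refine LU_of_regular V _ (Subtype.val_injective.comp hj) (fun r => (φ r).2) (fun r => ?_)
      have h1 := (ValuationSubring.valuation_eq_one_iff V (φ r))
      rw [show V.valuation ((V.subtype.comp φ) r) = V.valuation ((φ r : V) : K) from rfl, ← h1]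
      exact isUnit_map_iff _ _
    | succ k ih =>
      intro hk
      have h1 := ih (by omega)
      obtain ⟨m, hm⟩ : ∃ m, n - (k + 1) = m := ⟨_, rfl⟩
      have hm1 : n - k = m + 1 := by omega
      rw [hm1] at h1
      rw [hm]
      obtain ⟨R, _, _, _, φ, hφ, hj, hA⟩ := seq_dom V A x hQ h0 m
      obtain ⟨r, hR, hinj, hA', hV1⟩ := quad_step V φ hφ hj hA (hQ m)
      rw [hA]
      refine LU_of_QT V hR _ (Subtype.val_injective.comp hj) (V.subtype.comp hR.toW)
        (fun s => ?_) (fun z => (hR.toW z).2) hV1 ?_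
      · rw [RingHom.comp_apply, hR.toW_of]
        rfl
      · rw [← hA']
        exact h1
  have := key n le_rfl
  rwa [Nat.sub_self] at this

end Pool.Agent.Lib.MP_3029eb_ag
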