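import Pool.Agent.Lib.MP_3029eb_ag.H44Final

/-!
Presentations of complete local rings with bounded derivations (assembled from helper44's
`exists_cohen_data`).
-/

open IsLocalRing
open scoped TensorProduct

namespace Pool.Agent.Lib.MP_3029eb_ag

theorem exists_presentation (T : Type) [CommRing T] [IsLocalRing T] [IsNoetherianRing T]
    [IsAdicComplete (maximalIdeal T) T] (W : Type) [CommRing W] [IsDomain W] (φ : T →+* W)
    (hchar : (∃ p : ℕ, Fact p.Prime ∧ CharP T p) ∨
      (∃ p : ℕ, Fact p.Prime ∧ CharP (ResidueField T) p ∧ (p : T) ∉ RingHom.ker φ) ∨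
      CharZero (ResidueField T)) :
    ∃ (S : Type) (_ : CommRing S) (_ : IsRegularLocalRing S) (π : S →+* T),
      Function.Surjective π ∧
      ∀ (_ : (RingHom.ker (φ.comp π)).IsPrime), BddDer S (RingHom.ker (φ.comp π)) := by
  have hPφ : (RingHom.ker φ).IsPrime := RingHom.ker_isPrime φ
  obtain ⟨Λ, S, iΛ, iΛd, iS, iSr, i, π, hπ, hΛi, hΛf, hΛc⟩ := exists_cohen_data T _ hchar
  refine ⟨S, iS, iSr, π, hπ, fun hQ => ?_⟩
  let q : S ⧸ RingHom.ker (φ.comp π) →+* T ⧸ RingHom.ker φ :=
    Ideal.quotientMap (RingHom.ker φ) π (fun s hs => hs)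
  have hqi : Function.Injective q := Ideal.quotientMap_injective' (fun s hs => hs)
  have hqs : Function.Surjective q := Ideal.quotientMap_surjective hπ
  have hqc : (q.comp ((Ideal.Quotient.mk (RingHom.ker (φ.comp π))).comp i)) =
      (Ideal.Quotient.mk (RingHom.ker φ)).comp (π.comp i) := by
    ext a; rfl
  have hi1 : Function.Injective ((Ideal.Quotient.mk (RingHom.ker (φ.comp π))).comp i) := by
    intro a b hab
    apply hΛi
    rw [← hqc]
    exact congrArg q hab
  have hf1 : ((Ideal.Quotient.mk (RingHom.ker (φ.comp π))).comp i).Finite := by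
    let e := RingEquiv.ofBijective q ⟨hqi, hqs⟩
    have he : (Ideal.Quotient.mk (RingHom.ker (φ.comp π))).comp i =
        (e.symm : _ →+* _).comp ((Ideal.Quotient.mk (RingHom.ker φ)).comp (π.comp i)) := by
      rw [← hqc]
      ext a
      exact (e.symm_apply_apply _).symm
    rw [he]
    exact RingHom.Finite.comp (RingHom.Finite.of_surjective _ e.symm.surjective) hΛf
  rcases hΛc with h0 | ⟨p, hp, hpΛ, hgood⟩
  · exact bddDer_charZero Λ S _ i hi1 hf1
  · exact bddDer_charP p Λ S hgood _ i hi1 hf1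

end Pool.Agent.Lib.MP_3029eb_ag
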