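import Pool.Agent.Lib.MP_3029eb_ag.H6Seq
import Pool.Agent.Lib.MP_3029eb_ag.H6J
import Pool.Agent.Lib.MP_3029eb_ag.H6Comp
import Pool.Agent.Lib.MP_3029eb_ag.H6Lift
import Pool.Agent.Lib.MP_3029eb_ag.HB
import Pool.Agent.Lib.MP_3029eb_ag.HC
import Pool.Agent.Lib.MP_3029eb_ag.H6Pres
import Pool.Agent.Lib.MP_3029eb_ag.H6LU

/-!
Divergent sequences of quadratic transforms reach a regular local ring.
-/

open IsLocalRing
open scoped TensorProduct

namespace Pool.Agent.Lib.MP_3029eb_ag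

theorem quadratic_mono {K : Type} [Field K] (V : ValuationSubring K)
    (A : ℕ → Subring K) (x : ℕ → K) (hA : ∀ n, IsQuadTransform V (A n) (A (n + 1)) (x n)) (n : ℕ) :
    V.valuation (x 0) ^ n ≤ V.valuation (∏ i ∈ Finset.range n, x i) := by
  have h1 : ∀ i, V.valuation (x i) ≤ V.valuation (x (i + 1)) := by
    intro i
    obtain ⟨h1, h2, h3, h4, h5⟩ := hA i
    refine (hA (i + 1)).2.2.2.1 (x i) ?_ h3
    rw [h5]
    exact le_locV V _ (Subring.subset_closure (Or.inl h1))
  have h2 : ∀ i, V.valuation (x 0) ≤ V.valuation (x i) := by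
    intro i
    induction i with
    | zero => exact le_rfl
    | succ i ih => exact ih.trans (h1 i)
  rw [map_prod]
  calc V.valuation (x 0) ^ n = ∏ _i ∈ Finset.range n, V.valuation (x 0) := by
        rw [Finset.prod_const, Finset.card_range]
    _ ≤ ∏ i ∈ Finset.range n, V.valuation (x i) :=
        Finset.prod_le_prod' fun i _ => h2 i

theorem divergent_aux (R : Type) [CommRing R] [IsDomain R]
    [IsNoetherianRing R] [IsLocalRing R]
    (K : Type) [Field K] [Algebra R K] [IsFractionRing R K]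
    (hG : ∀ (Q : Ideal (K ⊗[R] AdicCompletion (maximalIdeal R) R)) [Q.IsPrime],
      IsRegularLocalRing (Localization.AtPrime Q))
    (V : ValuationSubring K) (hRV : ∀ r : R, algebraMap R K r ∈ V)
    (hdom : ∀ r : R, r ∈ maximalIdeal R ↔ V.valuation (algebraMap R K r) < 1)
    (A : ℕ → Subring K) (x : ℕ → K) (hA0 : A 0 = (algebraMap R K).range)
    (hA : ∀ n, IsQuadTransform V (A n) (A (n + 1)) (x n))
    (hdiv : ∀ z : K, z ≠ 0 → ∃ n, V.valuation (∏ i ∈ Finset.range n, x i) < V.valuation z) :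
    ∃ n, IsRegularLocalRing (A n) := by
  classical
  by_contra hcon
  push Not at hcon
  obtain ⟨hx1, hx2, hx3, hx4, -⟩ := hA 0
  have hxV : x 0 ∈ V := (V.valuation_le_one_iff _).1 hx3.le
  let ϖ : V := ⟨x 0, hxV⟩
  have hϖ : ϖ ∈ maximalIdeal V := (ValuationSubring.valuation_lt_one_iff V ϖ).2 hx3
  have hϖ0 : ϖ ≠ 0 := fun h0 => hx2 (congrArg Subtype.val h0)
  have harch : ∀ z : V, z ≠ 0 → ∃ n : ℕ, z ∣ ϖ ^ n := by
    intro z hz
    have hz0 : (z : K) ≠ 0 := fun h0 => hz (Subtype.ext h0)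
    obtain ⟨n, hn⟩ := hdiv z hz0
    have h1 := (quadratic_mono V A x hA n).trans hn.le
    rw [← map_pow, ValuationSubring.valuation_le_iff] at h1
    obtain ⟨a, ha⟩ := h1
    exact ⟨n, a, Subtype.ext (by rw [mul_comm]; exact ha.symm)⟩
  obtain ⟨W, KW, _, _, _, _, _, _, τ, θ, hcomplete, hθτ, hθloc, hV, hWarch⟩ :=
    exists_completion ϖ hϖ hϖ0 harch
  -- the homomorphism to the completion
  let ρ : R →+* V := (algebraMap R K).codRestrict V.toSubring hRV
  have hρ : ∀ r, (ρ r : K) = algebraMap R K r := fun r => rfl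
  have hle : maximalIdeal R ≤ (Ideal.span {θ ϖ}).comap (θ.comp ρ) := by
    intro r hr
    have h1 := hx4 (algebraMap R K r) (by rw [hA0]; exact ⟨r, rfl⟩) ((hdom r).1 hr)
    rw [ValuationSubring.valuation_le_iff] at h1
    obtain ⟨a, ha⟩ := h1
    rw [Ideal.mem_comap, Ideal.mem_span_singleton, RingHom.comp_apply]
    refine map_dvd θ ⟨a, Subtype.ext ?_⟩
    rw [mul_comm]
    exact ha.symm
  have hJ : Ideal.span {θ ϖ} ≤ maximalIdeal W := by
    rw [Ideal.span_singleton_le_iff_mem, mem_maximalIdeal, mem_nonunits_iff]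
    intro hu
    exact (mem_maximalIdeal _).1 hϖ (isUnit_of_map_unit θ _ hu)
  obtain ⟨φ, hφ, hφι⟩ := exists_lift_completion' R W (Ideal.span {θ ϖ}) hJ (θ.comp ρ) hle
  set T := AdicCompletion (maximalIdeal R) R with hT
  have hTn : IsNoetherianRing T := noetherian_adicCompletion R
  set ι : R →+* T := algebraMap R T with hι
  have hsame : SameCompletion ι := sameCompletion_adicCompletion R
  have hcomp : ∀ r, algebraMap W KW (φ (ι r)) = τ (algebraMap R K r) := by
    intro r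
    have h1 : φ (ι r) = θ (ρ r) := RingHom.congr_fun hφι r
    rw [h1, hθτ, hρ]
  have hinjRK : Function.Injective (algebraMap R K) := IsFractionRing.injective R K
  have hPprime : (RingHom.ker φ).IsPrime := RingHom.ker_isPrime φ
  have hP0 : (RingHom.ker φ).comap (algebraMap R T) = ⊥ := by
    rw [eq_bot_iff]
    intro r hr
    rw [Ideal.mem_comap, RingHom.mem_ker] at hr
    have h1 := hcomp r
    rw [hr, map_zero, eq_comm, map_eq_zero, map_eq_zero_iff _ hinjRK] at h1
    exact h1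
  have hchar := char_alternative R T (algebraMap R T) (RingHom.ker φ) (fun r hr => by
    have h1 : r ∈ (RingHom.ker φ).comap (algebraMap R T) := hr
    rw [hP0] at h1
    exact h1)
  have hreg : IsRegularLocalRing (Localization.AtPrime (RingHom.ker φ)) :=
    regular_generic_fibre R K T (fun Q _ => hG Q) (RingHom.ker φ) hP0
  obtain ⟨S, _, _, π, hπ, hB⟩ := exists_presentation T W φ hchar
  have hQprime : (RingHom.ker (φ.comp π)).IsPrime := RingHom.ker_isPrime _
  have hB' : BddDer S (RingHom.ker (φ.comp π)) := hB hQprime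
  obtain ⟨c, 𝔟, h𝔟, h1, h2, h3, Φ, hΦ1, hΦ2, f, hf, hdet⟩ :=
    init_state' (W := W) (KW := KW) S T π hπ φ hreg hB'
  obtain ⟨d, hd⟩ := det_jac_mem Φ hΦ2 f
  have hd0 : d ≠ 0 := by
    intro h0
    rw [h0, map_zero] at hd
    exact hdet hd.symm
  obtain ⟨N, hN⟩ := hWarch d hd0
  obtain ⟨n, hn⟩ := hdiv (x 0 ^ N) (pow_ne_zero _ hx2)
  obtain ⟨w, hw, hwd⟩ := seq_main V τ hV c n R T S (algebraMap R K) hinjRK ι hsame π hπ φ hφ
    hcomp 𝔟 h1 h2 h3 Φ hΦ1 hΦ2 f hf d hd A x hA0 hA (fun i _ => hcon i)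
  obtain ⟨e, he⟩ := hwd.trans hN
  have hprod : (∏ i ∈ Finset.range n, x i) ≠ 0 :=
    Finset.prod_ne_zero_iff.2 fun i _ => (hA i).2.1
  have h4 : x 0 ^ N / (∏ i ∈ Finset.range n, x i) ∈ V := by
    rw [hV]
    refine ⟨e, ?_⟩
    rw [map_div₀, eq_div_iff (by rw [Ne, map_eq_zero]; exact hprod), ← hw, ← map_mul, mul_comm e,
      ← he, map_pow, hθτ, map_pow]
  rw [← V.valuation_le_one_iff, map_div₀] at h4
  have h5 : V.valuation (∏ i ∈ Finset.range n, x i) ≠ 0 :=
    (Valuation.ne_zero_iff _).2 hprod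
  have h6 : V.valuation (x 0 ^ N) ≤ V.valuation (∏ i ∈ Finset.range n, x i) := by
    have := mul_le_mul_left h4 (V.valuation (∏ i ∈ Finset.range n, x i))
    rwa [div_mul_cancel₀ _ h5, one_mul] at this
  exact absurd hn (not_lt.2 h6)

end Pool.Agent.Lib.MP_3029eb_ag
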