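import Pool.Agent.Lib.MP_3029eb_ag.H6LU

/-!
Existence of the sequence of quadratic transforms along a nontrivial valuation ring, and its
divergence for discrete valuation rings.
-/

open IsLocalRing

namespace Pool.Agent.Lib.MP_3029eb_ag

/-- `A` is (the image of) a noetherian local ring dominated by `V`. -/
def DomBy {K : Type} [Field K] (V : ValuationSubring K) (A : Subring K) : Prop :=
  ∃ (R : Type) (_ : CommRing R) (_ : IsNoetherianRing R) (_ : IsLocalRing R)
      (φ : R →+* V), IsLocalHom φ ∧ Function.Injective φ ∧ A = (V.subtype.comp φ).range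

theorem exists_quad {K : Type} [Field K] (V : ValuationSubring K) (hV : V ≠ ⊤) (A0 : Subring K)
    (hfrac : ∀ z : K, ∃ a ∈ A0, ∃ b ∈ A0, b ≠ 0 ∧ z = a / b)
    (A : Subring K) (hA : DomBy V A) (h0 : A0 ≤ A) :
    ∃ (A' : Subring K) (x : K), DomBy V A' ∧ A0 ≤ A' ∧ IsQuadTransform V A A' x := by
  classical
  obtain ⟨R, _, _, _, φ, hφ, hj, hA⟩ := hA
  have hval : ∀ r : R, V.valuation (φ r : K) < 1 ↔ r ∈ maximalIdeal R := by
    intro r
    rw [← ValuationSubring.valuation_lt_one_iff, mem_maximalIdeal, mem_maximalIdeal,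
      mem_nonunits_iff, mem_nonunits_iff, isUnit_map_iff]
  obtain ⟨Y, hY⟩ := (isNoetherianRing_iff_ideal_fg R).1 inferInstance (maximalIdeal R)
  have hne : ∃ y ∈ Y, y ≠ 0 := by
    by_contra hcon
    push Not at hcon
    have hbot : maximalIdeal R = ⊥ := by
      rw [← hY, Ideal.span_eq_bot]
      exact hcon
    apply hV
    rw [eq_top_iff]
    intro z _
    obtain ⟨a, ha, b, hb, hb0, rfl⟩ := hfrac z
    have ha' := h0 ha
    have hb' := h0 hb
    rw [hA] at ha' hb'
    obtain ⟨a', rfl⟩ := ha'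
    obtain ⟨b', rfl⟩ := hb'
    have hb'0 : b' ∉ maximalIdeal R := by
      rw [hbot, Ideal.mem_bot]
      rintro rfl
      exact hb0 (map_zero _)
    have hu : IsUnit b' := by
      by_contra hn
      exact hb'0 ((mem_maximalIdeal _).2 hn)
    obtain ⟨c, hc⟩ := hu.exists_right_inv
    have h1 : (V.subtype.comp φ) a' / (V.subtype.comp φ) b' = (φ (a' * c) : K) := by
      rw [div_eq_iff hb0]
      have h2 : (V.subtype.comp φ) (a' * c) * (V.subtype.comp φ) b' = (V.subtype.comp φ) a' := by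
        rw [← map_mul, mul_assoc, mul_comm c, hc, mul_one]
      exact h2.symm
    rw [h1]
    exact (φ (a' * c)).2
  obtain ⟨y0, hy0, hy00⟩ := hne
  obtain ⟨y, hy, hmax⟩ := Finset.exists_max_image Y (fun y => V.valuation (φ y : K)) ⟨y0, hy0⟩
  have hyne : (φ y : K) ≠ 0 := by
    intro hz
    have h1 := hmax y0 hy0
    rw [hz, map_zero] at h1
    have h2 : V.valuation (φ y0 : K) = 0 := le_antisymm h1 zero_le
    rw [map_eq_zero] at h2
    exact hy00 (hj (by rw [map_zero]; exact Subtype.ext h2))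
  have hym : y ∈ maximalIdeal R := by
    rw [← hY]
    exact Ideal.subset_span hy
  have hmax' : ∀ r ∈ maximalIdeal R, V.valuation (φ r : K) ≤ V.valuation (φ y : K) := by
    intro r hr
    rw [← hY] at hr
    refine Submodule.span_induction ?_ ?_ ?_ ?_ hr
    · exact fun z hz => hmax z hz
    · rw [map_zero]
      change V.valuation (0 : K) ≤ _
      rw [map_zero]
      exact zero_le
    · intro a b _ _ ha hb
      rw [map_add]
      change V.valuation ((φ a : K) + (φ b : K)) ≤ _
      exact (Valuation.map_add _ _ _).trans (max_le ha hb)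
    · intro a b _ hb
      rw [smul_eq_mul, map_mul]
      change V.valuation ((φ a : K) * (φ b : K)) ≤ _
      rw [map_mul]
      exact (mul_le_of_le_one_left' ((V.valuation_le_one_iff _).2 (φ a).2)).trans hb
  set A' := locV V (Subring.closure ((A : Set K) ∪
    {z | ∃ w ∈ A, V.valuation w < 1 ∧ z = w / (φ y : K)})) with hA'
  have hQ : IsQuadTransform V A A' (φ y : K) := by
    refine ⟨by rw [hA]; exact ⟨y, rfl⟩, hyne, (hval y).2 hym, ?_, rfl⟩
    intro w hw hw1
    rw [hA] at hw
    obtain ⟨r, rfl⟩ := hw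
    exact hmax' r ((hval r).1 hw1)
  refine ⟨A', φ y, ?_, ?_, hQ⟩
  · obtain ⟨r, hR, hinj, hA'', -⟩ := quad_step V φ hφ hj hA hQ
    have iR := hR.isLocalRing
    exact ⟨QT φ r, inferInstance, QT_noetherian hR, iR, hR.toW, hR.isLocalHom, hinj, hA''⟩
  · exact h0.trans (fun z hz => le_locV V _ (Subring.subset_closure (Or.inl hz)))

theorem exists_quad_sequence {K : Type} [Field K] (V : ValuationSubring K) (hV : V ≠ ⊤)
    (A0 : Subring K) (hfrac : ∀ z : K, ∃ a ∈ A0, ∃ b ∈ A0, b ≠ 0 ∧ z = a / b)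
    (hA0 : DomBy V A0) :
    ∃ (A : ℕ → Subring K) (x : ℕ → K), A 0 = A0 ∧
      ∀ n, IsQuadTransform V (A n) (A (n + 1)) (x n) := by
  classical
  have step : ∀ A : {A : Subring K // DomBy V A ∧ A0 ≤ A},
      ∃ (A' : {A : Subring K // DomBy V A ∧ A0 ≤ A}) (x : K),
        IsQuadTransform V A.1 A'.1 x := by
    rintro ⟨A, hA, h0⟩
    obtain ⟨A', x, h1, h2, h3⟩ := exists_quad V hV A0 hfrac A hA h0
    exact ⟨⟨A', h1, h2⟩, x, h3⟩
  choose nxt xx h using step
  refine ⟨fun n => (nxt^[n] ⟨A0, hA0, le_rfl⟩).1, fun n => xx (nxt^[n] ⟨A0, hA0, le_rfl⟩), rfl,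
    fun n => ?_⟩
  simp only [Function.iterate_succ_apply']
  exact h _

theorem dvr_divergent {K : Type} [Field K] (V : ValuationSubring K) [IsDiscreteValuationRing V]
    (A : ℕ → Subring K) (x : ℕ → K) (hA : ∀ n, IsQuadTransform V (A n) (A (n + 1)) (x n))
    (z : K) (hz : z ≠ 0) : ∃ n, V.valuation (∏ i ∈ Finset.range n, x i) < V.valuation z := by
  obtain ⟨ϖ, hϖ⟩ := IsDiscreteValuationRing.exists_irreducible V
  have hmax := hϖ.maximalIdeal_eq
  have hϖ1 : V.valuation (ϖ : K) < 1 := by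
    rw [← ValuationSubring.valuation_lt_one_iff, hmax]
    exact Ideal.mem_span_singleton_self ϖ
  have hϖ0 : V.valuation (ϖ : K) ≠ 0 := by
    rw [Ne, map_eq_zero]
    intro h0
    exact hϖ.ne_zero (Subtype.ext h0)
  have hx : ∀ i, V.valuation (x i) ≤ V.valuation (ϖ : K) := by
    intro i
    have h1 := (hA i).2.2.1
    have h2 : x i ∈ V := (V.valuation_le_one_iff _).1 h1.le
    have h3 : (⟨x i, h2⟩ : V) ∈ maximalIdeal V :=
      (ValuationSubring.valuation_lt_one_iff V ⟨x i, h2⟩).2 h1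
    rw [hmax, Ideal.mem_span_singleton] at h3
    obtain ⟨c, hc⟩ := h3
    rw [ValuationSubring.valuation_le_iff]
    refine ⟨c, ?_⟩
    have h4 := congrArg Subtype.val hc
    change x i = (ϖ : K) * (c : K) at h4
    rw [h4, mul_comm]
  have hprod : ∀ n, V.valuation (∏ i ∈ Finset.range n, x i) ≤ V.valuation (ϖ : K) ^ n := by
    intro n
    rw [map_prod]
    calc ∏ i ∈ Finset.range n, V.valuation (x i) ≤ ∏ _i ∈ Finset.range n, V.valuation (ϖ : K) :=
          Finset.prod_le_prod' fun i _ => hx i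
      _ = V.valuation (ϖ : K) ^ n := by rw [Finset.prod_const, Finset.card_range]
  by_cases hzV : z ∈ V
  · have hz0 : (⟨z, hzV⟩ : V) ≠ 0 := fun h0 => hz (congrArg Subtype.val h0)
    obtain ⟨n, u, hu⟩ := IsDiscreteValuationRing.associated_pow_irreducible hz0 hϖ
    refine ⟨n + 1, (hprod (n + 1)).trans_lt ?_⟩
    have h1 : V.valuation z = V.valuation (ϖ : K) ^ n := by
      have h2 := congrArg Subtype.val hu
      change z * ((u : V) : K) = (ϖ : K) ^ n at h2
      rw [← map_pow, ← h2, map_mul, ValuationSubring.valuation_unit, mul_one]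
    rw [h1, pow_succ]
    exact mul_lt_of_lt_one_right (zero_lt_iff.2 (pow_ne_zero _ hϖ0)) hϖ1
  · refine ⟨0, ?_⟩
    rw [Finset.range_zero, Finset.prod_empty, map_one]
    rw [← V.valuation_le_one_iff, not_le] at hzV
    exact hzV

end Pool.Agent.Lib.MP_3029eb_ag
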