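import Pool.Agent.Lib.MP_3029eb_ag.AbhA1
import Pool.Agent.Lib.MP_3029eb_ag.AbhJ7
import Pool.Agent.Lib.MP_3029eb_ag.Comp3

/-!
Module IMP-DIM : the lower bound for the dimension of `locV (A[g])` in the presence of an implicit
prime.
-/

open IsLocalRing

namespace Pool.Agent.Lib.MP_3029eb_ag.Imp

open Pool.Agent.Lib.MP_3029eb_ag Pool.Agent.Lib.MP_3029eb_ag.Abh

/-- if the maximal ideal of `S` is generated by the maximal ideal of `R` then
`dim S ≤ dim R` -/
theorem ID_dim_le {R S : Type} [CommRing R] [CommRing S] [IsLocalRing R] [IsLocalRing S]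
    [IsNoetherianRing R] [IsNoetherianRing S] (j : R →+* S)
    (h : (maximalIdeal R).map j = maximalIdeal S) : ringKrullDim S ≤ ringKrullDim R := by
  let : Algebra R S := j.toAlgebra
  have hcomap : maximalIdeal R ≤ (maximalIdeal S).comap j := by
    rw [← Ideal.map_le_iff_le_comap, h]
  have hover : (maximalIdeal S).LiesOver (maximalIdeal R) := by
    refine ⟨?_⟩
    refine (maximalIdeal.isMaximal R).eq_of_le ?_ hcomap
    exact (Ideal.comap_isPrime j (maximalIdeal S)).ne_top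
  have h1 := Ideal.height_le_height_add_of_liesOver (maximalIdeal R) (maximalIdeal S)
  have h2 : (maximalIdeal R).map (algebraMap R S) = maximalIdeal S := h
  have h3 : (maximalIdeal S).map
      (Ideal.Quotient.mk ((maximalIdeal R).map (algebraMap R S))) = ⊥ := by
    rw [h2, Ideal.map_quotient_self]
  have hnt : Nontrivial (S ⧸ (maximalIdeal R).map (algebraMap R S)) := by
    rw [Ideal.Quotient.nontrivial_iff, h2]
    exact (maximalIdeal.isMaximal S).ne_top
  rw [h3, Ideal.height_bot, add_zero] at h1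
  rw [← IsLocalRing.maximalIdeal_height_eq_ringKrullDim,
    ← IsLocalRing.maximalIdeal_height_eq_ringKrullDim]
  exact_mod_cast h1

theorem ID_lt_iff {K : Type} [NormedField K] [IsUltrametricDist K] (z : K) :
    (ball K).valuation z < 1 ↔ ‖z‖ < 1 := by
  constructor
  · intro h
    refine lt_of_le_of_ne ((mem_ball z).1 (((ball K).valuation_le_one_iff z).1 h.le)) fun h1 => ?_
    exact h.ne ((J7_val_one_iff z).2 h1)
  · intro h
    refine lt_of_le_of_ne (((ball K).valuation_le_one_iff z).2 ((mem_ball z).2 h.le)) fun h1 => ?_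
    exact h.ne ((J7_val_one_iff z).1 h1)

/-- the norm of a unit is one, for a dominating homomorphism -/
theorem ID_isUnit_iff {A L : Type} [CommRing A] [IsLocalRing A] [NormedField L] {φ : A →+* L}
    (hφ : Dom φ) (a : A) : IsUnit a ↔ ‖φ a‖ = 1 := by
  have h1 := hφ a
  rw [mem_maximalIdeal, mem_nonunits_iff] at h1
  constructor
  · intro h
    exact le_antisymm h1.1 (not_lt.1 fun h2 => h1.2.2 h2 h)
  · intro h
    by_contra h2
    exact absurd (h1.2.1 h2) (by rw [h]; exact lt_irrefl _)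

theorem ID_max_le {A T : Type} [CommRing A] [IsLocalRing A] [CommRing T] [IsLocalRing T]
    [IsNoetherianRing T] (ι : A →+* T) (hι : SameCompletion ι) :
    maximalIdeal T ≤ (maximalIdeal A).map ι := by
  have h1 : maximalIdeal T ≤ (maximalIdeal A).map ι ⊔ maximalIdeal T • maximalIdeal T := by
    intro t ht
    obtain ⟨r, hr, hrt⟩ := hι.approx 1 t (by rwa [pow_one])
    rw [pow_one] at hr
    have h2 : t = ι r + (t - ι r) := by ring
    rw [h2]
    refine add_mem (Ideal.mem_sup_left (Ideal.mem_map_of_mem _ hr)) (Ideal.mem_sup_right ?_)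
    rw [smul_eq_mul, ← pow_two]
    exact hrt
  refine Submodule.le_of_le_smul_of_le_jacobson_bot (I := maximalIdeal T)
    (IsNoetherian.noetherian _) ?_ h1
  exact (IsLocalRing.jacobson_eq_maximalIdeal (⊥ : Ideal T) bot_ne_top).ge

/-- every element of `T` is an element of `A` up to the ideal generated by the maximal ideal of
`A` -/
theorem ID_approx {A T : Type} [CommRing A] [IsLocalRing A] [CommRing T] [IsLocalRing T]
    [IsNoetherianRing T] (ι : A →+* T) (hι : SameCompletion ι) (t : T) :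
    ∃ a : A, t - ι a ∈ (maximalIdeal A).map ι := by
  obtain ⟨r, _, hrt⟩ := hι.approx 0 t (by rw [pow_zero, Ideal.one_eq_top]; trivial)
  rw [zero_add, pow_one] at hrt
  exact ⟨r, ID_max_le ι hι hrt⟩

theorem ID_indep {K L : Type} [NormedField K] [NormedField L] (τ : K →+* L)
    (hτ : ∀ z, ‖τ z‖ = ‖z‖) {r : ℕ} {x : Fin r → K} (hx : Indep x) :
    Indep (fun i => τ (x i)) := by
  refine ⟨fun i => (map_ne_zero τ).2 (hx.ne i), fun i => by rw [hτ]; exact hx.lt i, ?_⟩
  intro δ hδ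
  apply hx.indep
  rw [← hδ, ← hτ]
  congr 1
  simp only [mon, map_prod, map_zpow₀]

/-- a ring dominated by `L` modulo the kernel -/
theorem ID_quot {C L : Type} [CommRing C] [IsLocalRing C] [IsNoetherianRing C] [NormedField L]
    [IsUltrametricDist L] (Ψ : C →+* L) (hΨ : Dom Ψ) {r : ℕ} (x : Fin r → C)
    (hx : Indep (fun i => Ψ (x i))) :
    (r : WithBot ℕ∞) ≤ ringKrullDim (C ⧸ RingHom.ker Ψ) := by
  have hpr : (RingHom.ker Ψ).IsPrime := RingHom.ker_isPrime Ψ
  have hnt : Nontrivial (C ⧸ RingHom.ker Ψ) := Ideal.Quotient.nontrivial_iff.2 hpr.ne_top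
  have hloc : IsLocalRing (C ⧸ RingHom.ker Ψ) :=
    IsLocalRing.of_surjective' (Ideal.Quotient.mk _) Ideal.Quotient.mk_surjective
  let Ψ' : C ⧸ RingHom.ker Ψ →+* L := RingHom.kerLift Ψ
  have hΨ' : ∀ c, Ψ' (Ideal.Quotient.mk _ c) = Ψ c := fun c => RingHom.kerLift_mk Ψ c
  have hdom : Dom Ψ' := by
    intro q
    obtain ⟨c, rfl⟩ := Ideal.Quotient.mk_surjective q
    rw [hΨ', mem_maximalIdeal, mem_nonunits_iff]
    refine ⟨(hΨ c).1, ?_, ?_⟩
    · intro h
      rw [← (hΨ c).2, mem_maximalIdeal, mem_nonunits_iff]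
      exact fun h1 => h (h1.map _)
    · intro h h1
      obtain ⟨d, hd⟩ := h1.exists_right_inv
      obtain ⟨d, rfl⟩ := Ideal.Quotient.mk_surjective d
      have h2 := congrArg Ψ' hd
      rw [map_mul, hΨ', hΨ', map_one] at h2
      have h3 : ‖Ψ c‖ * ‖Ψ d‖ = 1 := by rw [← norm_mul, h2, norm_one]
      have h4 : ‖Ψ c‖ * ‖Ψ d‖ < 1 :=
        (mul_le_of_le_one_right (norm_nonneg _) (hΨ d).1).trans_lt h
      exact absurd h3 h4.ne
  exact krullDim_ge (C ⧸ RingHom.ker Ψ) Ψ' hdom (fun i => Ideal.Quotient.mk _ (x i)) hx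

section Abs

set_option linter.unusedSectionVars false

variable {K L : Type} [NormedField K] [IsUltrametricDist K] [NormedField L] [IsUltrametricDist L]
  (τ : K →+* L) (hτ : ∀ z, ‖τ z‖ = ‖z‖)
  {T TP : Type} [CommRing T] [IsLocalRing T] [IsNoetherianRing T] [CommRing TP] [IsLocalRing TP]
  (Φ : TP →+* L) (θ : T →+* TP) (κ : K →+* TP) (g : Finset K)

/-- the ring `T[g]` inside `TP` -/
noncomputable def ID_B : Subring TP :=
  (MvPolynomial.eval₂Hom θ (fun z : {z // z ∈ g} => κ z)).range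

theorem ID_B_noeth : IsNoetherianRing (ID_B θ κ g) :=
  isNoetherianRing_of_surjective (MvPolynomial {z // z ∈ g} T) (ID_B θ κ g)
    (RingHom.rangeRestrict _) (RingHom.rangeRestrict_surjective _)

theorem ID_θ_mem (t : T) : θ t ∈ ID_B θ κ g :=
  ⟨MvPolynomial.C t, by rw [MvPolynomial.coe_eval₂Hom, MvPolynomial.eval₂_C]⟩

theorem ID_κ_mem {z : K} (hz : z ∈ g) : κ z ∈ ID_B θ κ g :=
  ⟨MvPolynomial.X ⟨z, hz⟩, by rw [MvPolynomial.coe_eval₂Hom, MvPolynomial.eval₂_X]⟩

theorem ID_κ_closure (A : Subring K) (hA : ∀ a ∈ A, ∃ t, κ a = θ t) {z : K}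
    (hz : z ∈ Subring.closure ((A : Set K) ∪ (g : Set K))) : κ z ∈ ID_B θ κ g := by
  induction hz using Subring.closure_induction with
  | mem x hx =>
    rcases hx with hx | hx
    · obtain ⟨t, ht⟩ := hA x hx
      rw [ht]
      exact ID_θ_mem θ κ g t
    · exact ID_κ_mem θ κ g hx
  | zero => rw [map_zero]; exact zero_mem _
  | one => rw [map_one]; exact one_mem _
  | add x y _ _ hx hy => rw [map_add]; exact add_mem hx hy
  | neg x _ hx => rw [map_neg]; exact neg_mem hx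
  | mul x y _ _ hx hy => rw [map_mul]; exact mul_mem hx hy

variable {θ κ g Φ τ}

/-- induction principle -/
theorem ID_B_induction {p : TP → Prop} (hT : ∀ t, p (θ t)) (hadd : ∀ a b, a ∈ ID_B θ κ g →
    b ∈ ID_B θ κ g → p a → p b → p (a + b)) (hmul : ∀ a, ∀ z ∈ g, a ∈ ID_B θ κ g → p a → p (a * κ z)) {b : TP} (hb : b ∈ ID_B θ κ g) :
    p b := by
  obtain ⟨q, rfl⟩ := hb
  induction q using MvPolynomial.induction_on with
  | C a => rw [MvPolynomial.coe_eval₂Hom, MvPolynomial.eval₂_C]; exact hT a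
  | add p q hp hq => rw [map_add]; exact hadd _ _ ⟨p, rfl⟩ ⟨q, rfl⟩ hp hq
  | mul_X p i hp =>
    rw [map_mul, MvPolynomial.eval₂Hom_X']
    exact hmul _ i i.2 ⟨p, rfl⟩ hp

include hτ in
theorem ID_B_norm (φ : T →+* L) (hφ : Dom φ) (hθφ : ∀ t, Φ (θ t) = φ t)
    (hκ : ∀ z, Φ (κ z) = τ z) (hg : ∀ z ∈ g, ‖z‖ ≤ 1) {b : TP} (hb : b ∈ ID_B θ κ g) :
    ‖Φ b‖ ≤ 1 := by
  refine ID_B_induction (p := fun b => ‖Φ b‖ ≤ 1) ?_ ?_ ?_ hb
  · intro t
    rw [hθφ]
    exact (hφ t).1
  · intro a b _ _ ha hb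
    rw [map_add]
    exact (IsUltrametricDist.norm_add_le_max _ _).trans (max_le ha hb)
  · intro a z hz _ ha
    rw [map_mul, norm_mul, hκ, hτ]
    exact mul_le_one₀ ha (norm_nonneg _) (hg z hz)

end Abs

/-- the abstract form -/
theorem ID_abs {K : Type} [NormedField K] [IsUltrametricDist K] (A : Subring K)
    [IsLocalRing A] [IsNoetherianRing A] (hA : Dom A.subtype) {L : Type} [NormedField L]
    [IsUltrametricDist L] (τ : K →+* L) (hτ : ∀ z, ‖τ z‖ = ‖z‖) (T : Type) [CommRing T]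
    [IsLocalRing T] [IsNoetherianRing T] (ι : A →+* T) (hι : SameCompletion ι) (φ : T →+* L)
    (hφ : Dom φ) (TP : Type) [CommRing TP] [IsLocalRing TP] (Φ : TP →+* L)
    (hΦ : ∀ z, z ∈ maximalIdeal TP ↔ Φ z = 0) (θ : T →+* TP) (hθφ : ∀ t, Φ (θ t) = φ t)
    (hθ : ∀ z, ∃ t s, θ s ∉ maximalIdeal TP ∧ z * θ s = θ t) (κ : K →+* TP)
    (hκ : ∀ z, Φ (κ z) = τ z) (hκι : ∀ a : A, κ a = θ (ι a))
    (g : Finset K) (hg : ∀ z ∈ g, ‖z‖ ≤ 1) {r : ℕ} (x : Fin r → K) (hx : Indep x)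
    (hxA : ∀ i, x i ∈ locV (ball K) (Subring.closure ((A : Set K) ∪ (g : Set K)))) :
    ringKrullDim TP + r ≤
      ringKrullDim (locV (ball K) (Subring.closure ((A : Set K) ∪ (g : Set K)))) := by
  set B := Subring.closure ((A : Set K) ∪ (g : Set K)) with hB
  have hAball : ∀ a ∈ A, ‖a‖ ≤ 1 := fun a ha => (hA ⟨a, ha⟩).1
  have hBV : B ≤ (ball K).toSubring := by
    rw [hB, Subring.closure_le]
    rintro z (hz | hz)
    · exact hAball z hz
    · exact hg z hz
  have hAB : ∀ a ∈ A, a ∈ B := fun a ha => Subring.subset_closure (Or.inl ha)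
  have hgB : ∀ a ∈ g, a ∈ B := fun a ha => Subring.subset_closure (Or.inr ha)
  have hBn : IsNoetherianRing B := isNoetherianRing_closure g
  have hA'n : IsNoetherianRing (locV (ball K) B) := isNoetherianRing_locV (ball K)
  have hA'l : IsLocalRing (locV (ball K) B) := isLocalRing_locV (ball K) hBV
  -- the ring `B0 = T[g]` in `TP`
  set B0 := ID_B θ κ g with hB0
  have hB0n : IsNoetherianRing B0 := ID_B_noeth θ κ g
  have hB0norm : ∀ b ∈ B0, ‖Φ b‖ ≤ 1 := fun b hb => ID_B_norm hτ φ hφ hθφ hκ hg hb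
  have hκB : ∀ z ∈ B, κ z ∈ B0 := fun z hz =>
    ID_κ_closure θ κ g A (fun a ha => ⟨ι ⟨a, ha⟩, hκι ⟨a, ha⟩⟩) hz
  -- the centre
  let ψ : B0 →+* L := Φ.comp B0.subtype
  have hψ : ∀ b : B0, ψ b = Φ b := fun b => rfl
  let ψb : B0 →+* (ball L).toSubring :=
    ψ.codRestrict (ball L).toSubring (fun b => hB0norm b b.2)
  let N : Ideal B0 := (maximalIdeal (ball L)).comap ψb
  have hNp : N.IsPrime := Ideal.comap_isPrime _ _
  have hmemN : ∀ b : B0, b ∈ N ↔ ‖Φ b‖ < 1 := by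
    intro b
    rw [← ID_lt_iff]
    exact (ball L).valuation_lt_one_iff (ψb b)
  have hcompl : ∀ b : N.primeCompl, ‖Φ (b : B0)‖ = 1 := by
    intro b
    refine le_antisymm (hB0norm _ (b : B0).2) (not_lt.1 fun h => b.2 ((hmemN _).2 h))
  -- the kernel
  let p0 : Ideal B0 := RingHom.ker ψ
  have hp0 : p0.IsPrime := RingHom.ker_isPrime ψ
  have hmem0 : ∀ b : B0, b ∈ p0 ↔ Φ b = 0 := fun b => RingHom.mem_ker
  have hloc0 : IsLocalization.AtPrime TP p0 := by
    refine ⟨⟨fun y => ?_, fun z => ?_, fun {a b} hab => ⟨1, ?_⟩⟩⟩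
    · by_contra hu
      have h1 : algebraMap B0 TP y ∈ maximalIdeal TP := hu
      exact y.2 ((hmem0 _).2 ((hΦ _).1 h1))
    · obtain ⟨t, s, hs, hz⟩ := hθ z
      refine ⟨(⟨θ t, ID_θ_mem θ κ g t⟩, ⟨⟨θ s, ID_θ_mem θ κ g s⟩, ?_⟩), hz⟩
      intro h
      exact hs ((hΦ _).2 ((hmem0 _).1 h))
    · rw [Subtype.ext (show (a : TP) = b from hab)]
  have hdimTP : ringKrullDim TP = p0.height := IsLocalization.AtPrime.ringKrullDim_eq_height p0 TP
  -- the localization at the centre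
  let C := Localization.AtPrime N
  have hCn : IsNoetherianRing C :=
    IsLocalization.isNoetherianRing N.primeCompl C hB0n
  have hunit : ∀ y : N.primeCompl, IsUnit (ψ y) := by
    intro y
    refine isUnit_iff_ne_zero.2 fun h => ?_
    have h1 := hcompl y
    rw [hψ] at h
    rw [h, norm_zero] at h1
    exact zero_ne_one h1
  let Ψ : C →+* L := IsLocalization.lift (M := N.primeCompl) hunit
  have hΨ : ∀ b : B0, Ψ (algebraMap B0 C b) = Φ b := fun b => IsLocalization.lift_eq hunit b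
  have hΨdom : Dom Ψ := by
    intro c
    obtain ⟨b, s, rfl⟩ := IsLocalization.exists_mk'_eq N.primeCompl c
    have h1 : ‖Ψ (IsLocalization.mk' C b s)‖ = ‖Φ b‖ := by
      have h2 := congrArg Ψ (IsLocalization.mk'_spec C b s)
      rw [map_mul, hΨ, hΨ] at h2
      rw [← h2, norm_mul, hcompl s, mul_one]
    rw [h1, IsLocalization.AtPrime.mk'_mem_maximal_iff C N b s, hmemN]
    exact ⟨hB0norm b b.2, Iff.rfl⟩
  -- heights
  have hΨp : (RingHom.ker Ψ).IsPrime := RingHom.ker_isPrime Ψ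
  have hheight : (RingHom.ker Ψ).height = p0.height := by
    rw [← IsLocalization.height_under N.primeCompl (RingHom.ker Ψ)]
    congr 1
    ext b
    rw [Ideal.mem_comap, RingHom.mem_ker, hΨ, hmem0]
  have hsum := C3.height_add_le (RingHom.ker Ψ)
  -- the map from `A'`
  let u : B →+* C := (algebraMap B0 C).comp
    ((κ.comp B.subtype).codRestrict B0 (fun b => hκB b b.2))
  have hu : ∀ b : B, Ψ (u b) = τ b := by
    intro b
    show Ψ (algebraMap B0 C ⟨κ b, hκB b b.2⟩) = τ b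
    rw [hΨ]
    exact hκ b
  let := (Subring.inclusion (C3.le_loc (ball K) B)).toAlgebra
  have hlocB := C3.isLocalization (ball K) hBV
  have hunitB : ∀ y : (C3.cen (ball K) hBV).primeCompl, IsUnit (u y) := by
    intro y
    rw [ID_isUnit_iff hΨdom, hu, hτ]
    exact le_antisymm (hBV (y : B).2)
      (not_lt.1 fun h => y.2 ((C3.mem_cen (ball K) hBV y).2 ((ID_lt_iff _).2 h)))
  let j : locV (ball K) B →+* C := IsLocalization.lift (M := (C3.cen (ball K) hBV).primeCompl) hunitB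
  have hju : ∀ b : B, j ⟨b, C3.le_loc (ball K) B b.2⟩ = u b := fun b => IsLocalization.lift_eq hunitB b
  have hjτ : ∀ z : locV (ball K) B, Ψ (j z) = τ z := by
    intro z
    obtain ⟨a, ha, b, hb, hb1, hab⟩ := z.2
    have h1 : z * ⟨b, C3.le_loc (ball K) B hb⟩ = ⟨a, C3.le_loc (ball K) B ha⟩ := Subtype.ext hab
    have h2 := congrArg (fun w => Ψ (j w)) h1
    simp only [map_mul] at h2
    rw [hju ⟨b, hb⟩, hju ⟨a, ha⟩, hu, hu] at h2
    have h3 : τ b ≠ 0 := by
      rw [map_ne_zero]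
      rintro rfl
      rw [map_zero] at hb1
      exact zero_ne_one hb1
    apply mul_right_cancel₀ h3
    rw [← map_mul τ, hab]
    exact h2
  have hjmax : (maximalIdeal (locV (ball K) B)).map j ≤ maximalIdeal C := by
    rw [Ideal.map_le_iff_le_comap]
    intro z hz
    rw [Ideal.mem_comap, (hΨdom _).2, hjτ, hτ]
    rw [mem_maximalIdeal, mem_nonunits_iff, isUnit_locV_iff (ball K) hBV, J7_val_one_iff] at hz
    exact lt_of_le_of_ne (locV_le (ball K) hBV z.2) hz
  have hmemA' : ∀ z : locV (ball K) B, ‖(z : K)‖ < 1 → z ∈ maximalIdeal (locV (ball K) B) := by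
    intro z hz
    rw [mem_maximalIdeal, mem_nonunits_iff, isUnit_locV_iff (ball K) hBV, J7_val_one_iff]
    exact hz.ne
  set J := (maximalIdeal (locV (ball K) B)).map j with hJ
  -- the elements of `m_A T` are in `J`
  have hTJ : ∀ t ∈ (maximalIdeal A).map ι,
      algebraMap B0 C ⟨θ t, ID_θ_mem θ κ g t⟩ ∈ J := by
    let θ' : T →+* C := (algebraMap B0 C).comp (θ.codRestrict B0 (ID_θ_mem θ κ g))
    have h1 : (maximalIdeal A).map ι ≤ J.comap θ' := by
      rw [Ideal.map_le_iff_le_comap]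
      intro a ha
      rw [Ideal.mem_comap, Ideal.mem_comap]
      have h2 : θ' (ι a) = j ⟨a, C3.le_loc (ball K) B (hAB a a.2)⟩ := by
        rw [hju ⟨a, hAB a a.2⟩]
        show algebraMap B0 C _ = algebraMap B0 C _
        congr 1
        exact Subtype.ext (hκι a).symm
      rw [h2]
      refine Ideal.mem_map_of_mem _ (hmemA' _ ?_)
      exact (hA a).2.1 ha
    exact fun t ht => h1 ht
  have happrox : ∀ b ∈ B0, ∀ hb : b ∈ B0, ∃ a : B, algebraMap B0 C ⟨b, hb⟩ - u a ∈ J := by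
    intro b hb
    refine ID_B_induction (θ := θ) (κ := κ) (g := g)
      (p := fun b => ∀ hb : b ∈ B0, ∃ a : B, algebraMap B0 C ⟨b, hb⟩ - u a ∈ J) ?_ ?_ ?_ hb
    · intro t ht
      obtain ⟨a, ha⟩ := ID_approx ι hι t
      refine ⟨⟨a, hAB a a.2⟩, ?_⟩
      have h1 := hTJ _ ha
      have h2 : (⟨θ (t - ι a), ID_θ_mem θ κ g _⟩ : B0) =
          ⟨θ t, ht⟩ - ⟨κ a, hκB a (hAB a a.2)⟩ := by
        apply Subtype.ext
        show θ (t - ι a) = θ t - κ a
        rw [map_sub, hκι]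
      rw [h2, map_sub] at h1
      exact h1
    · intro a b haB hbB ha hb hab
      obtain ⟨v, hv⟩ := ha haB
      obtain ⟨w, hw⟩ := hb hbB
      refine ⟨v + w, ?_⟩
      have h2 : (⟨a + b, hab⟩ : B0) = ⟨a, haB⟩ + ⟨b, hbB⟩ := rfl
      rw [h2, map_add, map_add]
      have h3 : algebraMap B0 C ⟨a, haB⟩ + algebraMap B0 C ⟨b, hbB⟩ - (u v + u w) =
          (algebraMap B0 C ⟨a, haB⟩ - u v) + (algebraMap B0 C ⟨b, hbB⟩ - u w) := by ring
      rw [h3]
      exact add_mem hv hw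
    · intro a z hz haB ha haz
      obtain ⟨w, hw⟩ := ha haB
      refine ⟨w * ⟨z, hgB z hz⟩, ?_⟩
      have h2 : (⟨a * κ z, haz⟩ : B0) = ⟨a, haB⟩ * ⟨κ z, ID_κ_mem θ κ g hz⟩ := rfl
      have h3 : u ⟨z, hgB z hz⟩ = algebraMap B0 C ⟨κ z, ID_κ_mem θ κ g hz⟩ := rfl
      rw [h2, map_mul, map_mul, h3, ← sub_mul]
      exact J.mul_mem_right _ hw
  have hmax : J = maximalIdeal C := by
    refine le_antisymm hjmax ?_
    rw [← IsLocalization.AtPrime.map_eq_maximalIdeal N C, Ideal.map_le_iff_le_comap]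
    intro b hb
    obtain ⟨a, ha⟩ := happrox b b.2 b.2
    rw [Ideal.mem_comap]
    have h1 : algebraMap B0 C b = (algebraMap B0 C b - u a) + u a := by ring
    rw [h1]
    refine add_mem ha ?_
    rw [← hju a]
    refine Ideal.mem_map_of_mem _ (hmemA' _ ?_)
    show ‖(a : K)‖ < 1
    rw [← hτ, ← hu a]
    have h2 : u a = algebraMap B0 C b - (algebraMap B0 C b - u a) := by ring
    rw [h2, map_sub]
    have h3 : ‖Ψ (algebraMap B0 C b)‖ < 1 := by rw [hΨ]; exact (hmemN b).1 hb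
    have h4 : ‖Ψ (algebraMap B0 C b - u a)‖ < 1 := (hΨdom _).2.1 (hjmax ha)
    rw [sub_eq_add_neg]
    refine (IsUltrametricDist.norm_add_le_max _ _).trans_lt (max_lt h3 ?_)
    rw [norm_neg]
    exact h4
  have hdimC : ringKrullDim C ≤ ringKrullDim (locV (ball K) B) := ID_dim_le j hmax
  have hr : (r : WithBot ℕ∞) ≤ ringKrullDim (C ⧸ RingHom.ker Ψ) := by
    refine ID_quot Ψ hΨdom (fun i => j ⟨x i, hxA i⟩) ?_
    have h1 : (fun i => Ψ (j ⟨x i, hxA i⟩)) = fun i => τ (x i) := funext fun i => hjτ _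
    rw [h1]
    exact ID_indep τ hτ hx
  rw [hdimTP, ← hheight]
  exact ((add_le_add_right hr _).trans hsum).trans hdimC

theorem ID_frac {K : Type} [Field K] (A : Subring K)
    (hfrac : ∀ z : K, ∃ a ∈ A, ∃ b ∈ A, b ≠ 0 ∧ z = a / b) : IsFractionRing A K := by
  refine ⟨⟨fun y => ?_, fun z => ?_, fun {a b} hab => ⟨1, ?_⟩⟩⟩
  · refine isUnit_iff_ne_zero.2 fun h => ?_
    exact nonZeroDivisors.coe_ne_zero y (Subtype.ext h)
  · obtain ⟨a, ha, b, hb, hb0, hz⟩ := hfrac z
    refine ⟨(⟨a, ha⟩, ⟨⟨b, hb⟩, mem_nonZeroDivisors_of_ne_zero fun h => hb0 ?_⟩), ?_⟩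
    · exact congrArg Subtype.val h
    · show z * b = a
      rw [hz, div_mul_cancel₀ _ hb0]
  · rw [Subtype.ext (show (a : K) = b from hab)]

/-- IMP-DIM -/
theorem dim_lower {K : Type} [NormedField K] [IsUltrametricDist K] (A : Subring K)
    [IsLocalRing A] [IsNoetherianRing A] (hA : Dom A.subtype)
    (hfrac : ∀ z : K, ∃ a ∈ A, ∃ b ∈ A, b ≠ 0 ∧ z = a / b) {L : Type} [NormedField L]
    [IsUltrametricDist L] (τ : K →+* L) (hτ : ∀ z, ‖τ z‖ = ‖z‖) (T : Type) [CommRing T]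
    [IsLocalRing T] [IsNoetherianRing T] (ι : A →+* T) (hι : SameCompletion ι) (φ : T →+* L)
    (hφ : Dom φ) (hφι : ∀ a : A, φ (ι a) = τ a) [(RingHom.ker φ).IsPrime]
    (g : Finset K) (hg : ∀ z ∈ g, ‖z‖ ≤ 1) {r : ℕ} (x : Fin r → K) (hx : Indep x)
    (hxA : ∀ i, x i ∈ locV (ball K) (Subring.closure ((A : Set K) ∪ (g : Set K)))) :
    ringKrullDim (Localization.AtPrime (RingHom.ker φ)) + r ≤
      ringKrullDim (locV (ball K) (Subring.closure ((A : Set K) ∪ (g : Set K)))) := by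
  let TP := Localization.AtPrime (RingHom.ker φ)
  have hunit : ∀ y : (RingHom.ker φ).primeCompl, IsUnit (φ y) := fun y =>
    isUnit_iff_ne_zero.2 fun h => y.2 h
  let Φ : TP →+* L := IsLocalization.lift (M := (RingHom.ker φ).primeCompl) hunit
  have hΦ : ∀ t, Φ (algebraMap T TP t) = φ t := fun t => IsLocalization.lift_eq hunit t
  have hmax : ∀ z, z ∈ maximalIdeal TP ↔ Φ z = 0 := by
    intro z
    obtain ⟨t, s, rfl⟩ := IsLocalization.exists_mk'_eq (RingHom.ker φ).primeCompl z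
    rw [IsLocalization.AtPrime.mk'_mem_maximal_iff TP (RingHom.ker φ) t s, RingHom.mem_ker]
    have h2 := congrArg Φ (IsLocalization.mk'_spec TP t s)
    rw [map_mul, hΦ, hΦ] at h2
    rw [← h2, mul_eq_zero, or_iff_left (hunit s).ne_zero]
  have hθ : ∀ z : TP, ∃ t s, algebraMap T TP s ∉ maximalIdeal TP ∧
      z * algebraMap T TP s = algebraMap T TP t := by
    intro z
    obtain ⟨t, s, rfl⟩ := IsLocalization.exists_mk'_eq (RingHom.ker φ).primeCompl z
    refine ⟨t, s, ?_, IsLocalization.mk'_spec TP t s⟩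
    rw [hmax, hΦ]
    exact (hunit s).ne_zero
  have hfr := ID_frac A hfrac
  have hunitA : ∀ y : nonZeroDivisors A, IsUnit (((algebraMap T TP).comp ι) y) := by
    intro y
    by_contra hu
    have h1 : algebraMap T TP (ι y) ∈ maximalIdeal TP := hu
    rw [hmax, hΦ, hφι, map_eq_zero] at h1
    exact nonZeroDivisors.coe_ne_zero y (Subtype.ext h1)
  let κ : K →+* TP := IsLocalization.lift (M := nonZeroDivisors A) hunitA
  have hκι : ∀ a : A, κ a = algebraMap T TP (ι a) := fun a => IsLocalization.lift_eq hunitA a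
  have hκ : ∀ z, Φ (κ z) = τ z := by
    have h1 : Φ.comp κ = τ := by
      refine IsLocalization.ringHom_ext (nonZeroDivisors A) ?_
      ext a
      show Φ (κ a) = τ a
      rw [hκι, hΦ, hφι]
    exact fun z => RingHom.congr_fun h1 z
  exact ID_abs A hA τ hτ T ι hι φ hφ TP Φ hmax (algebraMap T TP) hΦ hθ κ hκ hκι g hg x hx hxA

end Pool.Agent.Lib.MP_3029eb_ag.Imp
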