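import Pool.Agent.Lib.MP_3029eb_ag.ImpEmb2
import Pool.Agent.Lib.MP_3029eb_ag.AbhFinal

/-!
Embedded local uniformization from one regular model, with additional parameters.
-/

open IsLocalRing

namespace Pool.Agent.Lib.MP_3029eb_ag.Imp
open Pool.Agent.Lib.MP_3029eb_ag
open Pool.Agent.Lib.MP_3029eb_ag.Abh

/-- a nontrivial monomial is in the module generated by the variables -/
theorem monN_mem_span {K : Type} [NormedField K] (A : Subring K) {r : ℕ} (u : Fin r → K)
    (huA : ∀ i, u i ∈ A) (β : Fin r → ℕ) (hβ : β ≠ 0) :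
    monN u β ∈ Submodule.span A (Set.range u) := by
  obtain ⟨k, hk⟩ := Function.ne_iff.1 hβ
  have hk1 : β = (β - Pi.single k 1) + Pi.single k 1 := by
    funext j
    by_cases hj : j = k
    · subst hj
      have : β j ≠ 0 := hk
      simp only [Pi.add_apply, Pi.sub_apply, Pi.single_eq_same]
      omega
    · simp [Pi.single_eq_of_ne hj]
  have h1 : monN u β = (⟨monN u (β - Pi.single k 1), E0_monN_mem A huA _⟩ : A) • u k := by
    rw [Subring.smul_def, smul_eq_mul]
    show monN u β = monN u (β - Pi.single k 1) * u k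
    rw [mul_comm, ← E1_monN_single, ← hk1]
  rw [h1]
  exact Submodule.smul_mem _ _ (Submodule.subset_span ⟨k, rfl⟩)

/-- small additional parameters -/
theorem small_par {K : Type} [NormedField K] [IsUltrametricDist K] {r h : ℕ} (A1 : Subring K)
    (hA1 : A1 ≤ (ball K).toSubring) (hloc : locV (ball K) A1 = A1) (u : Fin r → K)
    (hu : Indep u) (Y : Fin h → K) (hYA : ∀ j, Y j ∈ A1) (hY1 : ∀ j, ‖Y j‖ < 1)
    (hgen : Gen A1 u Y)
    (hstab : ∀ z : K, ‖z‖ < 1 → ∀ ε : ℝ, 0 < ε → ∃ (n : ℕ) (ρ : Fin n → K)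
      (δ : Fin n → (Fin r → ℤ)), (∀ l, ρ l ∈ A1) ∧ (∀ l, ‖mon u (δ l)‖ < 1) ∧
        ‖z - ∑ l, ρ l * mon u (δ l)‖ < ε) (η : ℝ) (hη0 : 0 < η) (hη1 : η ≤ 1) :
    ∃ (u' : Fin r → K) (Y' : Fin h → K) (A2 : Subring K), Indep u' ∧ (∀ j, ‖Y' j‖ < η) ∧
      A2 = locV (ball K) (Subring.closure ((A1 : Set K) ∪ (Set.range u' ∪ Set.range Y'))) ∧
      (∀ i, ∃ p : Fin r → ℕ, u i = monN u' p) ∧
      (∀ i, ∃ p q : Fin r → ℕ, u' i * monN u p = monN u q) ∧
      (∀ j, Y' j ∈ Subring.closure ((A1 : Set K) ∪ Set.range u')) ∧ Gen A2 u' Y' := by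
  classical
  have happ := fun j => hstab (Y j) (hY1 j) η hη0
  choose n ρ δ hρ hδ happ using happ
  obtain ⟨u', Am, Bm, hu', hAm, hBm, hAB, hΔ'⟩ := refine u hu
    ((Finset.univ : Finset (Fin h)).biUnion fun j => Finset.univ.image (δ j)) (by
      intro η hη
      obtain ⟨j, -, h⟩ := Finset.mem_biUnion.1 hη
      obtain ⟨l, -, rfl⟩ := Finset.mem_image.1 h
      exact hδ j l)
  have hΔ2 := fun (j : Fin h) (l : Fin (n j)) => hΔ' (δ j l)
    (Finset.mem_biUnion.2 ⟨j, Finset.mem_univ _, Finset.mem_image_of_mem _ (Finset.mem_univ l)⟩)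
  choose β hβ using hΔ2
  have hβ0 : ∀ j l, β j l ≠ 0 := fun j l => monN_mem_of_norm (u := u') (by rw [← hβ j l]; exact hδ j l)
  let Y' : Fin h → K := fun j => Y j - ∑ l, ρ j l * monN u' (β j l)
  have hY' : ∀ j, Y j = Y' j + ∑ l, ρ j l * monN u' (β j l) := fun j => (sub_add_cancel _ _).symm
  have hY'n : ∀ j, ‖Y' j‖ < η := by
    intro j
    have h1 : Y' j = Y j - ∑ l, ρ j l * mon u (δ j l) := by
      show Y j - ∑ l, ρ j l * monN u' (β j l) = _
      congr 1
      exact Finset.sum_congr rfl fun l _ => by rw [hβ j l]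
    rw [h1]
    exact happ j
  set A2 := locV (ball K) (Subring.closure ((A1 : Set K) ∪ (Set.range u' ∪ Set.range Y')))
    with hA2
  have hA12 : ∀ z ∈ A1, z ∈ A2 := fun z hz => le_locV _ _ (Subring.subset_closure (Or.inl hz))
  have hu'A : ∀ i, u' i ∈ A2 := fun i => le_locV _ _
    (Subring.subset_closure (Or.inr (Or.inl ⟨i, rfl⟩)))
  refine ⟨u', Y', A2, hu', hY'n, rfl, fun i => ⟨_, hAm i⟩, ?_, ?_,
    gen_adjoin A1 hA1 hloc u hu Y hgen u' hu' Am hAm Y' (fun j => (hY'n j).trans_le hη1) A2 hA2 ?_⟩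
  · intro i
    refine ⟨fun k => (-(Bm i k)).toNat, fun k => (Bm i k).toNat, ?_⟩
    rw [hBm i, ← mon_natCast, ← mon_natCast, ← mon_add u hu.ne]
    congr 1
    funext k
    rw [Pi.add_apply]
    omega
  · intro j
    have h1 : ∀ a ∈ A1, a ∈ Subring.closure ((A1 : Set K) ∪ Set.range u') :=
      fun a ha => Subring.subset_closure (Or.inl ha)
    have h2 : ∀ i, u' i ∈ Subring.closure ((A1 : Set K) ∪ Set.range u') :=
      fun i => Subring.subset_closure (Or.inr ⟨i, rfl⟩)
    exact sub_mem (h1 _ (hYA j)) (Subring.sum_mem _ fun l _ =>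
      mul_mem (h1 _ (hρ j l)) (E0_monN_mem _ h2 _))
  · intro j
    have h1 : Y j ∈ Submodule.span A2 (Set.range u') ⊔ Submodule.span A2 (Set.range Y') := by
      rw [hY' j, add_comm]
      refine Submodule.add_mem_sup (Submodule.sum_mem _ fun l _ => ?_)
        (Submodule.subset_span ⟨j, rfl⟩)
      exact Submodule.smul_mem _ (⟨ρ j l, hA12 _ (hρ j l)⟩ : A2)
        (monN_mem_span A2 u' hu'A (β j l) (hβ0 j l))
    obtain ⟨z1, hz1, z2, hz2, hzz⟩ := Submodule.mem_sup.1 h1
    obtain ⟨c, hc⟩ := (Submodule.mem_span_range_iff_exists_fun A2).1 hz1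
    obtain ⟨d, hd⟩ := (Submodule.mem_span_range_iff_exists_fun A2).1 hz2
    refine ⟨fun i => (c i : K), fun k => (d k : K), fun i => (c i).2, fun k => (d k).2, ?_⟩
    rw [← hzz, ← hc, ← hd]
    congr 1

theorem imp_emb {K : Type} [NormedField K] [IsUltrametricDist K] (A0 : Subring K)
    [IsNoetherianRing A0] (hA0 : A0 ≤ (ball K).toSubring) (g : Finset K)
    (hg : ∀ t ∈ g, t ∈ ball K ∧ ∃ a ∈ A0, ∃ b ∈ A0, b ≠ 0 ∧ t * b = a) {r : ℕ}
    (u : Fin r → K) (hu : Indep u)
    (huA : ∀ i, u i ∈ locV (ball K) (Subring.closure ((A0 : Set K) ∪ (g : Set K))))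
    (gs : Finset K)
    (hgsA : ∀ y ∈ gs, y ∈ locV (ball K) (Subring.closure ((A0 : Set K) ∪ (g : Set K))))
    (hgs1 : ∀ y ∈ gs, ‖y‖ < 1)
    (hgen : ∀ z ∈ locV (ball K) (Subring.closure ((A0 : Set K) ∪ (g : Set K))), ‖z‖ < 1 →
      ∃ (c : Fin r → K) (d : K → K),
        (∀ i, c i ∈ locV (ball K) (Subring.closure ((A0 : Set K) ∪ (g : Set K)))) ∧
        (∀ y, d y ∈ locV (ball K) (Subring.closure ((A0 : Set K) ∪ (g : Set K)))) ∧
        z = ∑ i, c i * u i + ∑ y ∈ gs, d y * y)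
    (hlow : ∀ g' : Finset K, g ⊆ g' → (∀ t ∈ g', ‖t‖ ≤ 1) → (((gs.card + r : ℕ) : ℕ∞) : WithBot ℕ∞) ≤
      ringKrullDim (locV (ball K) (Subring.closure ((A0 : Set K) ∪ (g' : Set K)))))
    (hstab : ∀ z : K, ‖z‖ < 1 → ∀ ε : ℝ, 0 < ε → ∃ (n : ℕ) (ρ : Fin n → K)
      (δ : Fin n → (Fin r → ℤ)),
        (∀ l, ρ l ∈ locV (ball K) (Subring.closure ((A0 : Set K) ∪ (g : Set K)))) ∧
        (∀ l, ‖mon u (δ l)‖ < 1) ∧ ‖z - ∑ l, ρ l * mon u (δ l)‖ < ε) :
    EMB2 (ball K) A0 r gs.card := by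
  classical
  intro s hs
  have hsf : ∀ f : K, ∃ a b : K, f ∈ s → a ∈ A0 ∧ b ∈ A0 ∧ b ≠ 0 ∧ f * b = a := by
    intro f
    by_cases hf : f ∈ s
    · obtain ⟨_, _, a, ha, b, hb, hb0, h⟩ := hs f hf
      exact ⟨a, b, fun _ => ⟨ha, hb, hb0, h⟩⟩
    · exact ⟨0, 0, fun h => absurd h hf⟩
  choose a b hab using hsf
  have hgf : ∀ f : K, ∃ a b : K, f ∈ g → a ∈ A0 ∧ b ∈ A0 ∧ b ≠ 0 ∧ f * b = a := by
    intro f
    by_cases hf : f ∈ g
    · obtain ⟨_, a, ha, b, hb, hb0, h⟩ := hg f hf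
      exact ⟨a, b, fun _ => ⟨ha, hb, hb0, h⟩⟩
    · exact ⟨0, 0, fun h => absurd h hf⟩
  choose ag bg hag using hgf
  set B1 := Subring.closure ((A0 : Set K) ∪ (g : Set K)) with hB1
  set A1 := locV (ball K) B1 with hA1
  have hA0B : A0 ≤ B1 := fun z hz => Subring.subset_closure (Or.inl hz)
  have hB1V : B1 ≤ (ball K).toSubring := by
    rw [hB1, Subring.closure_le]
    rintro x (hx | hx)
    · exact hA0 hx
    · exact (hg x hx).1
  have hB1A : B1 ≤ A1 := le_locV _ _
  have hA1V : A1 ≤ (ball K).toSubring := locV_le _ hB1V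
  have hloc : locV (ball K) A1 = A1 := locV_locV _ _
  let T : Finset K := s.image a ∪ (s.image b ∪ g.image bg)
  have hT : ∀ t ∈ T, t ∈ A1 ∧ t ≠ 0 := by
    intro t hh
    rcases Finset.mem_union.1 hh with hh | hh
    · obtain ⟨f, hf, rfl⟩ := Finset.mem_image.1 hh
      refine ⟨hB1A (hA0B (hab f hf).1), ?_⟩
      rw [← (hab f hf).2.2.2]
      exact mul_ne_zero (hs f hf).1 (hab f hf).2.2.1
    rcases Finset.mem_union.1 hh with hh | hh
    · obtain ⟨f, hf, rfl⟩ := Finset.mem_image.1 hh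
      exact ⟨hB1A (hA0B (hab f hf).2.1), (hab f hf).2.2.1⟩
    · obtain ⟨f, hf, rfl⟩ := Finset.mem_image.1 hh
      exact ⟨hB1A (hA0B (hag f hf).2.1), (hag f hf).2.2.1⟩
  -- enumerate the additional parameters
  let e : Fin gs.card ≃ gs := gs.equivFin.symm
  let Y : Fin gs.card → K := fun j => (e j : K)
  have hYA : ∀ j, Y j ∈ A1 := fun j => hgsA _ (e j).2
  have hY1 : ∀ j, ‖Y j‖ < 1 := fun j => hgs1 _ (e j).2
  have hGen : Gen A1 u Y := by
    intro z hz hz1
    obtain ⟨c, d, hc, hd, hzz⟩ := hgen z hz hz1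
    refine ⟨c, fun j => d (e j), hc, fun j => hd _, ?_⟩
    rw [hzz]
    congr 1
    rw [← Finset.sum_coe_sort gs (fun y => d y * y)]
    exact (Equiv.sum_comp e (fun y : gs => d y * (y : K))).symm
  -- first step
  have hη0 : 0 < ∏ t ∈ T, ‖t‖ := Finset.prod_pos fun t ht => norm_pos_iff.2 (hT t ht).2
  have hη1 : ∏ t ∈ T, ‖t‖ ≤ 1 := Finset.prod_le_one (fun i _ => norm_nonneg _)
    fun t ht => hA1V (hT t ht).1
  obtain ⟨u1, Y1, A1b, hu1, hY1n, hA1b, hMu1, hpq1, hY1cl, hGen1⟩ :=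
    small_par A1 hA1V hloc u hu Y hYA hY1 hGen hstab _ hη0 hη1
  have hcl1b : Subring.closure ((A1 : Set K) ∪ (Set.range u1 ∪ Set.range Y1)) ≤
      (ball K).toSubring := by
    rw [Subring.closure_le]
    rintro x (hx | hx)
    · exact hA1V hx
    · rcases hx with ⟨i, rfl⟩ | ⟨j, rfl⟩
      · exact (hu1.lt i).le
      · exact ((hY1n j).trans_le hη1).le
  have hA1bV : A1b ≤ (ball K).toSubring := by rw [hA1b]; exact locV_le _ hcl1b
  have hloc1b : locV (ball K) A1b = A1b := by rw [hA1b]; exact locV_locV _ _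
  have hA1A1b : A1 ≤ A1b := by
    rw [hA1b]; exact fun z hz => le_locV _ _ (Subring.subset_closure (Or.inl hz))
  have hu1A : ∀ i, u1 i ∈ A1b := fun i => by
    rw [hA1b]; exact le_locV _ _ (Subring.subset_closure (Or.inr (Or.inl ⟨i, rfl⟩)))
  have hY1A : ∀ j, Y1 j ∈ A1b := fun j => by
    rw [hA1b]; exact le_locV _ _ (Subring.subset_closure (Or.inr (Or.inr ⟨j, rfl⟩)))
  -- second step
  obtain ⟨u2, Y2, A2, hu2, hY2n, hA2, hMu2, hpq2, hY2p, hGen2, hM, hMq⟩ :=
    core2 A1b hA1bV hloc1b u1 hu1 hu1A Y1 hY1A hGen1 T (fun t ht => ⟨hA1A1b (hT t ht).1,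
      (hT t ht).2⟩) hY1n
  have hA1bA2 : A1b ≤ A2 := by
    rw [hA2]; exact fun z hz => le_locV _ _ (Subring.subset_closure (Or.inl hz))
  have hu2A : ∀ i, u2 i ∈ A2 := fun i => by
    rw [hA2]; exact le_locV _ _ (Subring.subset_closure (Or.inr (Or.inl ⟨i, rfl⟩)))
  have hY2A : ∀ j, Y2 j ∈ A2 := fun j => by
    rw [hA2]; exact le_locV _ _ (Subring.subset_closure (Or.inr (Or.inr ⟨j, rfl⟩)))
  let g2 : Finset K := (Finset.univ.image u1 ∪ Finset.univ.image Y1) ∪
    (Finset.univ.image u2 ∪ Finset.univ.image Y2)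
  have hg2s : (g2 : Set K) = (Set.range u1 ∪ Set.range Y1) ∪ (Set.range u2 ∪ Set.range Y2) := by
    simp [g2, Set.union_assoc]
  have hset : A2 = locV (ball K) (Subring.closure ((A0 : Set K) ∪
      ((g ∪ g2 : Finset K) : Set K))) := by
    rw [hA2, hA1b, locV_closure_locV (le_refl (ball K)), A2_closure_closure, hA1,
      locV_closure_locV (le_refl (ball K)), hB1, A2_closure_closure, Finset.coe_union, hg2s]
  have hgn : ∀ t ∈ g ∪ g2, ‖t‖ ≤ 1 := by
    intro t ht
    rcases Finset.mem_union.1 ht with ht | ht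
    · exact (hg t ht).1
    rcases Finset.mem_union.1 ht with ht | ht
    · rcases Finset.mem_union.1 ht with ht | ht
      · obtain ⟨i, _, rfl⟩ := Finset.mem_image.1 ht
        exact (hu1.lt i).le
      · obtain ⟨i, _, rfl⟩ := Finset.mem_image.1 ht
        exact ((hY1n i).trans_le hη1).le
    · rcases Finset.mem_union.1 ht with ht | ht
      · obtain ⟨i, _, rfl⟩ := Finset.mem_image.1 ht
        exact (hu2.lt i).le
      · obtain ⟨i, _, rfl⟩ := Finset.mem_image.1 ht
        exact (hY2n i).le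
  have hclf : Subring.closure ((A0 : Set K) ∪ ((g ∪ g2 : Finset K) : Set K)) ≤
      (ball K).toSubring := by
    rw [Subring.closure_le]
    rintro x (hx | hx)
    · exact hA0 hx
    · exact hgn x hx
  -- the final ring
  have n1 : IsNoetherianRing (Subring.closure ((A0 : Set K) ∪ ((g ∪ g2 : Finset K) : Set K))) :=
    isNoetherianRing_closure _
  have n2 : IsNoetherianRing A2 := by rw [hset]; exact isNoetherianRing_locV _
  have n3 : IsLocalRing A2 := by rw [hset]; exact isLocalRing_locV _ hclf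
  have hlowA : (((gs.card + r : ℕ) : ℕ∞) : WithBot ℕ∞) ≤ ringKrullDim A2 := by
    rw [hset]
    exact hlow _ Finset.subset_union_left hgn
  let gs2 : Finset K := Finset.univ.image Y2
  have hgs2c : gs2.card ≤ gs.card := by
    refine Finset.card_image_le.trans ?_
    rw [Finset.card_univ, Fintype.card_fin]
  have hA2V : A2 ≤ (ball K).toSubring := by rw [hset]; exact locV_le _ hclf
  have hloc2 : locV (ball K) A2 = A2 := by rw [hset]; exact locV_locV _ _
  have hdom2 : Dom A2.subtype := dom_subtype A2 hA2V hloc2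
  have hmax : maximalIdeal A2 ≤ Ideal.span ((Set.range fun i => (⟨u2 i, hu2A i⟩ : A2)) ∪
      {y : A2 | (y : K) ∈ gs2}) := by
    intro z hz
    obtain ⟨c, d, hc, hd, hzz⟩ := hGen2 z z.2 (((hdom2 z).2).1 hz)
    have h1 : z = ∑ i, (⟨c i, hc i⟩ : A2) * ⟨u2 i, hu2A i⟩ +
        ∑ j, (⟨d j, hd j⟩ : A2) * ⟨Y2 j, hY2A j⟩ := by
      apply Subtype.ext
      rw [Subring.coe_add, AddSubmonoidClass.coe_finsetSum, AddSubmonoidClass.coe_finsetSum, hzz]
      rfl
    rw [h1]
    exact Ideal.add_mem _ (Ideal.sum_mem _ fun i _ => Ideal.mul_mem_left _ _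
      (Ideal.subset_span (Or.inl ⟨i, rfl⟩))) (Ideal.sum_mem _ fun k _ => Ideal.mul_mem_left _ _
      (Ideal.subset_span (Or.inr (Finset.mem_image_of_mem _ (Finset.mem_univ k)))))
  have hmax' : maximalIdeal A2 = Ideal.span ((Set.range fun i => (⟨u2 i, hu2A i⟩ : A2)) ∪
      {y : A2 | (y : K) ∈ gs2}) := by
    refine le_antisymm hmax ?_
    rw [Ideal.span_le]
    rintro y (⟨i, rfl⟩ | hy)
    · exact ((hdom2 _).2).2 (hu2.lt i)
    · obtain ⟨j, _, hj⟩ := Finset.mem_image.1 (show (y : K) ∈ gs2 from hy)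
      refine ((hdom2 _).2).2 ?_
      show ‖(y : K)‖ < 1
      rw [← hj]
      exact hY2n j
  have hfinset : ({y : A2 | (y : K) ∈ gs2} : Set A2).Finite :=
    Set.Finite.preimage (Subtype.val_injective.injOn) gs2.finite_toSet
  have hncard : ({y : A2 | (y : K) ∈ gs2} : Set A2).ncard ≤ gs2.card := by
    rw [← Set.ncard_coe_finset gs2]
    exact Set.ncard_le_ncard_of_injOn (fun y : A2 => (y : K)) (fun y hy => hy)
      (Subtype.val_injective.injOn) gs2.finite_toSet
  have hspan : (maximalIdeal A2).spanFinrank ≤ gs2.card + r := by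
    rw [hmax']
    refine (Submodule.spanFinrank_span_le_ncard_of_finite
      ((Set.finite_range _).union hfinset)).trans ?_
    refine (Set.ncard_union_le _ _).trans ?_
    rw [add_comm]
    refine Nat.add_le_add hncard ?_
    have := Set.ncard_image_le (f := fun i => (⟨u2 i, hu2A i⟩ : A2)) (s := Set.univ)
      Set.finite_univ
    rwa [Set.image_univ, Set.ncard_univ, Nat.card_eq_fintype_card, Fintype.card_fin] at this
  have hdimle : ringKrullDim A2 ≤ ((gs2.card + r : ℕ) : WithBot ℕ∞) :=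
    (ringKrullDim_le_spanFinrank_maximalIdeal A2).trans (by exact_mod_cast hspan)
  have hceq : gs2.card = gs.card := by
    refine le_antisymm hgs2c ?_
    have h1 := hlowA.trans hdimle
    have h2 : gs.card + r ≤ gs2.card + r := by exact_mod_cast h1
    omega
  have hreg : IsRegularLocalRing A2 := by
    refine IsRegularLocalRing.of_spanFinrank_maximalIdeal_le A2 ?_
    refine le_trans ?_ hlowA
    rw [← hceq]
    exact_mod_cast hspan
  -- monomials
  have hMN2 : ∀ γ : Fin r → ℕ, MonV (ball K) A2 u2 (monN u1 γ) := fun γ => by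
    unfold monN
    exact MonV.prod _ _ fun i _ => (hMu2 i).pow _
  have hMuu : ∀ i, MonV (ball K) A2 u2 (u i) := fun i => by
    obtain ⟨p, hp⟩ := hMu1 i
    rw [hp]; exact hMN2 p
  have hMN : ∀ γ : Fin r → ℕ, MonV (ball K) A2 u2 (monN u γ) := fun γ => by
    unfold monN
    exact MonV.prod _ _ fun i _ => (hMuu i).pow _
  refine ⟨g ∪ g2, u2, gs2, fun t ht => hgn t ht, hceq, ?_, ?_⟩
  · rw [← hset]
    refine ⟨E2_IndV hu2, hu2A, fun i => (E2_lt_iff _).2 (hu2.lt i), ?_, ?_, ?_, hreg, ?_, ?_⟩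
    · intro y hy
      obtain ⟨j, _, rfl⟩ := Finset.mem_image.1 hy
      exact hY2A j
    · intro y hy
      obtain ⟨j, _, rfl⟩ := Finset.mem_image.1 hy
      exact (E2_lt_iff _).2 (hY2n j)
    · intro z hz hz1
      obtain ⟨c, d, hc, hd, hzz⟩ := hGen2 z hz ((E2_lt_iff z).1 hz1)
      refine ⟨c, fun y => ∑ j ∈ Finset.univ.filter (fun j => Y2 j = y), d j, hc,
        fun y => Subring.sum_mem _ fun j _ => hd j, ?_⟩
      rw [hzz]
      congr 1
      rw [← Finset.sum_fiberwise_of_maps_to (s := Finset.univ) (t := gs2) (g := Y2)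
        (fun j _ => Finset.mem_image_of_mem _ (Finset.mem_univ j))]
      refine Finset.sum_congr rfl fun y _ => ?_
      rw [Finset.sum_mul]
      refine Finset.sum_congr rfl fun j hj => ?_
      rw [(Finset.mem_filter.1 hj).2]
    · refine le_antisymm ?_ ?_
      · exact_mod_cast hdimle
      · rw [hceq]; exact hlowA
    · -- denominators
      have h1 : B1 ≤ denRing (ball K) A0 A2 u2 := by
        rw [hB1, Subring.closure_le]
        rintro x (hx | hx)
        · exact Den.of_mem hx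
        · obtain ⟨h1, h2, h3, h4⟩ := hag x hx
          refine Den.div (Den.of_mem h1) (Den.of_mem h2) (hM _ ?_) h4
          exact Finset.mem_union_right _ (Finset.mem_union_right _ (Finset.mem_image_of_mem _ hx))
      have h2 : A1 ≤ denRing (ball K) A0 A2 u2 :=
        locV_le_denRing h1 (hB1A.trans (hA1A1b.trans hA1bA2))
      have hu1d : ∀ i, u1 i ∈ denRing (ball K) A0 A2 u2 := by
        intro i
        obtain ⟨p, q, hpq⟩ := hpq1 i
        exact Den.div (h2 (E0_monN_mem _ huA q)) (h2 (E0_monN_mem _ huA p)) (hMN p) hpq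
      have hcl2 : Subring.closure ((A1 : Set K) ∪ Set.range u1) ≤
          denRing (ball K) A0 A2 u2 := by
        rw [Subring.closure_le]
        rintro x (hx | ⟨i, rfl⟩)
        · exact h2 hx
        · exact hu1d i
      have h3 : Subring.closure ((A1 : Set K) ∪ (Set.range u1 ∪ Set.range Y1)) ≤
          denRing (ball K) A0 A2 u2 := by
        rw [Subring.closure_le]
        rintro x (hx | hx)
        · exact h2 hx
        · rcases hx with ⟨i, rfl⟩ | ⟨j, rfl⟩
          · exact hu1d i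
          · exact hcl2 (hY1cl j)
      have h4 : A1b ≤ denRing (ball K) A0 A2 u2 := by
        have h5 : locV (ball K) (Subring.closure ((A1 : Set K) ∪
            (Set.range u1 ∪ Set.range Y1))) ≤ denRing (ball K) A0 A2 u2 := by
          refine locV_le_denRing h3 ?_
          refine le_trans ?_ hA1bA2
          rw [hA1b]
          exact le_locV _ _
        rw [← hA1b] at h5
        exact h5
      have h6 : Subring.closure ((A1b : Set K) ∪ (Set.range u2 ∪ Set.range Y2)) ≤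
          denRing (ball K) A0 A2 u2 := by
        rw [Subring.closure_le]
        rintro x (hx | hx)
        · exact h4 hx
        · rcases hx with ⟨i, rfl⟩ | ⟨j, rfl⟩
          · obtain ⟨p, q, hpq⟩ := hpq2 i
            exact Den.div (h4 (E0_monN_mem _ hu1A q)) (h4 (E0_monN_mem _ hu1A p)) (hMN2 p) hpq
          · obtain ⟨p, hp⟩ := hY2p j
            exact Den.div (h4 (hY1A j)) (h4 (E0_monN_mem _ hu1A p)) (hMN2 p) hp
      have h7 : A2 ≤ denRing (ball K) A0 A2 u2 := by
        have h8 : locV (ball K) (Subring.closure ((A1b : Set K) ∪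
            (Set.range u2 ∪ Set.range Y2))) ≤ denRing (ball K) A0 A2 u2 := by
          refine locV_le_denRing h6 ?_
          rw [hA2]
          exact le_locV _ _
        rw [← hA2] at h8
        exact h8
      exact fun z hz => h7 hz
  · rw [← hset]
    intro f hf
    obtain ⟨h1, h2, h3, h4⟩ := hab f hf
    have h5 : f = a f / b f := by rw [← h4, mul_div_cancel_right₀ _ h3]
    have h6 : ‖a f‖ ≤ ‖b f‖ := by
      rw [← h4, norm_mul]
      exact mul_le_of_le_one_left (norm_nonneg _) (hs f hf).2.1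
    rw [h5]
    exact hMq _ (Finset.mem_union_left _ (Finset.mem_image_of_mem _ hf)) _
      (Finset.mem_union_right _ (Finset.mem_union_left _ (Finset.mem_image_of_mem _ hf))) h6

end Pool.Agent.Lib.MP_3029eb_ag.Imp
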