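import Pool.Agent.Lib.MP_3029eb_ag.ImpDefs

/-!
Expansions in a local ring whose maximal ideal is generated by elements with independent values
and by elements of small values.
-/

open IsLocalRing

namespace Pool.Agent.Lib.MP_3029eb_ag.Imp
open Pool.Agent.Lib.MP_3029eb_ag
open Pool.Agent.Lib.MP_3029eb_ag.Abh

section

variable {K : Type} [NormedField K] [IsUltrametricDist K] {r h : ℕ}

/-- the maximal ideal of `A` is generated by the `u i` and the `Y j` -/
def Gen (A : Subring K) (u : Fin r → K) (Y : Fin h → K) : Prop :=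
  ∀ z ∈ A, ‖z‖ < 1 → ∃ (c : Fin r → K) (d : Fin h → K), (∀ i, c i ∈ A) ∧ (∀ j, d j ∈ A) ∧
    z = ∑ i, c i * u i + ∑ j, d j * Y j

theorem expand2 (A : Subring K) (hA : ∀ a ∈ A, ‖a‖ ≤ 1) (u : Fin r → K) (hu : Indep u)
    (huA : ∀ i, u i ∈ A) (Y : Fin h → K) (hm : Gen A u Y) (θ : ℝ) (hθ : ∀ j, ‖Y j‖ ≤ θ)
    (a : K) (ha : a ∈ A) (hθa : θ < ‖a‖) (ha0 : a ≠ 0) :
    ∃ (β0 : Fin r → ℕ) (w : K), w ∈ A ∧ ‖w‖ = 1 ∧
      a - w * monN u β0 ∈ E1_J A u (fun β => ‖monN u β‖ < ‖monN u β0‖) ⊔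
        Submodule.span A (Set.range Y) := by
  have hna : 0 < ‖a‖ := norm_pos_iff.2 ha0
  set N : Submodule A K := Submodule.span A (Set.range Y) with hN
  have hNn : ∀ n ∈ N, ‖n‖ < ‖a‖ := by
    intro n hn
    refine Submodule.span_induction (p := fun x _ => ‖x‖ < ‖a‖) ?_ ?_ ?_ ?_ hn
    · rintro x ⟨j, rfl⟩; exact (hθ j).trans_lt hθa
    · rw [norm_zero]; exact hna
    · intro x y _ _ hx hy
      exact (IsUltrametricDist.norm_add_le_max _ _).trans_lt (max_lt hx hy)
    · intro c x _ hx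
      rw [Subring.smul_def, smul_eq_mul, norm_mul]
      exact (mul_le_of_le_one_left (norm_nonneg _) (hA c c.2)).trans_lt hx
  have hYN : ∀ j, ∀ b ∈ A, b * Y j ∈ N := fun j b hb =>
    Submodule.smul_mem N (⟨b, hb⟩ : A) (Submodule.subset_span ⟨j, rfl⟩)
  have hfin := E1_finite u hu ‖a‖ hna
  let S : Set (Fin r → ℕ) := {β | ‖a‖ ≤ ‖monN u β‖ ∧
    a ∈ E1_J A u (fun γ => ‖monN u γ‖ ≤ ‖monN u β‖) ⊔ N}
  have hSf : S.Finite := hfin.subset fun β hβ => hβ.1
  have h0 : monN u (0 : Fin r → ℕ) = 1 := by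
    unfold monN
    exact Finset.prod_eq_one fun i _ => pow_zero _
  have hS0 : (0 : Fin r → ℕ) ∈ S := by
    refine ⟨?_, ?_⟩
    · rw [h0, norm_one]; exact hA a ha
    · have h1 : (1 : K) ∈ E1_J A u (fun γ => ‖monN u γ‖ ≤ ‖monN u (0 : Fin r → ℕ)‖) :=
        Submodule.subset_span ⟨0, le_rfl, h0.symm⟩
      have h2 := Submodule.smul_mem _ (⟨a, ha⟩ : A) h1
      rw [Subring.smul_def, smul_eq_mul, mul_one] at h2
      exact Submodule.mem_sup_left h2
  obtain ⟨β0, hβ0, hmin⟩ := Set.exists_min_image S (fun β => ‖monN u β‖) hSf ⟨0, hS0⟩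
  obtain ⟨j0, hj0, n0, hn0, hjn⟩ := Submodule.mem_sup.1 hβ0.2
  obtain ⟨c, hc, hac⟩ := E1_split A u hu β0 j0 hj0
  have hac' : a - c * monN u β0 ∈ E1_J A u (fun β => ‖monN u β‖ < ‖monN u β0‖) ⊔ N := by
    have h1 : a - c * monN u β0 = (j0 - c * monN u β0) + n0 := by rw [← hjn]; ring
    rw [h1]
    exact Submodule.add_mem_sup hac hn0
  refine ⟨β0, c, hc, ?_, hac'⟩
  by_contra hcn
  have hc1 : ‖c‖ < 1 := lt_of_le_of_ne (hA c hc) hcn
  obtain ⟨b, d, hb, hd, hcb⟩ := hm c hc hc1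
  have hin : a ∈ E1_J A u (fun β => ‖monN u β‖ < ‖monN u β0‖) ⊔ N := by
    have h1 : c * monN u β0 ∈ E1_J A u (fun β => ‖monN u β‖ < ‖monN u β0‖) ⊔ N := by
      rw [hcb, add_mul, Finset.sum_mul, Finset.sum_mul]
      refine Submodule.add_mem_sup (Submodule.sum_mem _ fun i _ => ?_)
        (Submodule.sum_mem _ fun j _ => ?_)
      · have h2 : b i * u i * monN u β0 = (⟨b i, hb i⟩ : A) • monN u (β0 + Pi.single i 1) := by
          rw [E1_monN_single, Subring.smul_def, smul_eq_mul, mul_assoc]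
        rw [h2]
        refine Submodule.smul_mem _ _ (Submodule.subset_span ⟨_, ?_, rfl⟩)
        show ‖monN u (β0 + Pi.single i 1)‖ < ‖monN u β0‖
        rw [E1_monN_single, norm_mul]
        have h3 : 0 < ‖monN u β0‖ := hna.trans_le hβ0.1
        calc ‖u i‖ * ‖monN u β0‖ < 1 * ‖monN u β0‖ := mul_lt_mul_of_pos_right (hu.lt i) h3
          _ = _ := one_mul _
      · have h2 : d j * Y j * monN u β0 = (d j * monN u β0) * Y j := by ring
        rw [h2]
        exact hYN j _ (mul_mem (hd j) (E0_monN_mem A huA β0))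
    have h4 : a = (a - c * monN u β0) + c * monN u β0 := by ring
    rw [h4]
    exact add_mem hac' h1
  obtain ⟨j1, hj1, n1, hn1, hjn1⟩ := Submodule.mem_sup.1 hin
  rcases E1_lt A u _ j1 hj1 with h | ⟨β', hβ', h⟩
  · rw [h, zero_add] at hjn1
    have := hNn n1 hn1
    rw [hjn1] at this
    exact lt_irrefl _ this
  · have h6 : ‖a‖ ≤ ‖monN u β'‖ := by
      by_contra hcon
      rw [not_le] at hcon
      have h7 := E1_norm_le A hA u _ (norm_nonneg _) j1 h
      have h8 : ‖a‖ < ‖a‖ := by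
        conv_lhs => rw [← hjn1]
        exact (IsUltrametricDist.norm_add_le_max _ _).trans_lt
          (max_lt (h7.trans_lt hcon) (hNn n1 hn1))
      exact lt_irrefl _ h8
    have h5 : β' ∈ S := ⟨h6, by rw [← hjn1]; exact Submodule.add_mem_sup h hn1⟩
    exact absurd (hmin β' h5) (not_le.2 hβ')

/-- new generators of the maximal ideal -/
theorem gen_adjoin (A1 : Subring K) (hA1 : A1 ≤ (ball K).toSubring) (hloc : locV (ball K) A1 = A1)
    (u : Fin r → K) (hu : Indep u) (Y : Fin h → K) (hgen : Gen A1 u Y)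
    (u' : Fin r → K) (hu' : Indep u') (Am : Fin r → Fin r → ℕ) (hAm : ∀ i, u i = monN u' (Am i))
    (Y' : Fin h → K) (hY'1 : ∀ j, ‖Y' j‖ < 1) (A2 : Subring K)
    (hA2 : A2 = locV (ball K) (Subring.closure ((A1 : Set K) ∪ (Set.range u' ∪ Set.range Y'))))
    (hY : ∀ j, ∃ (c : Fin r → K) (d : Fin h → K), (∀ i, c i ∈ A2) ∧ (∀ j, d j ∈ A2) ∧
      Y j = ∑ i, c i * u' i + ∑ k, d k * Y' k) :
    Gen A2 u' Y' := by
  classical
  have hgr : Set.range u' ∪ Set.range Y' =
      ((Finset.univ.image u' ∪ Finset.univ.image Y' : Finset K) : Set K) := by simp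
  rw [hgr] at hA2
  subst hA2
  set g : Finset K := Finset.univ.image u' ∪ Finset.univ.image Y' with hg
  set B := Subring.closure ((A1 : Set K) ∪ (g : Set K)) with hB
  have hg1 : ∀ t ∈ g, ‖t‖ < 1 := by
    intro t ht
    rcases Finset.mem_union.1 ht with ht | ht
    · obtain ⟨i, _, rfl⟩ := Finset.mem_image.1 ht
      exact hu'.lt i
    · obtain ⟨i, _, rfl⟩ := Finset.mem_image.1 ht
      exact hY'1 i
  have hBV : B ≤ (ball K).toSubring := by
    rw [hB, Subring.closure_le]
    rintro x (hx | hx)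
    · exact hA1 hx
    · exact (hg1 x hx).le
  have : IsLocalRing (locV (ball K) B) := isLocalRing_locV _ hBV
  have hgL : ∀ i, u' i ∈ locV (ball K) B := fun i => le_locV _ _ (Subring.subset_closure
    (Or.inr (Finset.mem_union_left _ (Finset.mem_image_of_mem _ (Finset.mem_univ i)))))
  have hgY : ∀ j, Y' j ∈ locV (ball K) B := fun j => le_locV _ _ (Subring.subset_closure
    (Or.inr (Finset.mem_union_right _ (Finset.mem_image_of_mem _ (Finset.mem_univ j)))))
  let J : Ideal (locV (ball K) B) := Ideal.span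
    ((Set.range fun i => (⟨u' i, hgL i⟩ : locV (ball K) B)) ∪
      (Set.range fun j => (⟨Y' j, hgY j⟩ : locV (ball K) B)))
  have hcomb : ∀ (c : Fin r → K) (d : Fin h → K) (hc : ∀ i, c i ∈ locV (ball K) B)
      (hd : ∀ j, d j ∈ locV (ball K) B) (z : locV (ball K) B),
      (z : K) = ∑ i, c i * u' i + ∑ k, d k * Y' k → z ∈ J := by
    intro c d hc hd z hz
    have h1 : z = ∑ i, (⟨c i, hc i⟩ : locV (ball K) B) * ⟨u' i, hgL i⟩ +
        ∑ k, (⟨d k, hd k⟩ : locV (ball K) B) * ⟨Y' k, hgY k⟩ := by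
      apply Subtype.ext
      rw [Subring.coe_add, AddSubmonoidClass.coe_finsetSum, AddSubmonoidClass.coe_finsetSum, hz]
      rfl
    rw [h1]
    exact Ideal.add_mem _ (Ideal.sum_mem _ fun i _ => Ideal.mul_mem_left _ _
      (Ideal.subset_span (Or.inl ⟨i, rfl⟩))) (Ideal.sum_mem _ fun k _ => Ideal.mul_mem_left _ _
      (Ideal.subset_span (Or.inr ⟨k, rfl⟩)))
  have key : ∀ z : locV (ball K) B, z ∈ maximalIdeal (locV (ball K) B) → z ∈ J := by
    have h1 := maximalIdeal_locV A1 hA1 hloc g hg1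
    refine le_trans h1 ?_
    rw [Ideal.span_le]
    rintro b (hb | ⟨hb, hb1⟩)
    · rcases Finset.mem_union.1 hb with hb | hb
      · obtain ⟨i, _, hi⟩ := Finset.mem_image.1 hb
        exact Ideal.subset_span (Or.inl ⟨i, Subtype.ext hi⟩)
      · obtain ⟨i, _, hi⟩ := Finset.mem_image.1 hb
        exact Ideal.subset_span (Or.inr ⟨i, Subtype.ext hi⟩)
    · obtain ⟨c, d, hc, hd, hbc⟩ := hgen b hb hb1
      have hA1L : ∀ a ∈ A1, a ∈ locV (ball K) B := fun a ha =>
        le_locV _ _ (Subring.subset_closure (Or.inl ha))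
      have hui : ∀ i, ∃ y : locV (ball K) B, (y : K) = u i ∧ y ∈ J := by
        intro i
        have h2 : Am i ≠ 0 := by
          intro h0
          have h3 := hu.lt i
          rw [hAm i, h0, E0_monN_zero, norm_one] at h3
          exact lt_irrefl _ h3
        obtain ⟨k, hk⟩ := Function.ne_iff.1 h2
        have hk1 : Am i = (Am i - Pi.single k 1) + Pi.single k 1 := by
          funext j
          by_cases hj : j = k
          · subst hj
            have : Am i j ≠ 0 := hk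
            simp only [Pi.add_apply, Pi.sub_apply, Pi.single_eq_same]
            omega
          · simp [Pi.single_eq_of_ne hj]
        refine ⟨⟨u i, ?_⟩, rfl, ?_⟩
        · rw [hAm i]; exact E0_monN_mem _ hgL _
        · have h4 : (⟨u i, by rw [hAm i]; exact E0_monN_mem _ hgL _⟩ : locV (ball K) B) =
              ⟨monN u' (Am i - Pi.single k 1), E0_monN_mem _ hgL _⟩ * ⟨u' k, hgL k⟩ := by
            apply Subtype.ext
            rw [Subring.coe_mul]
            show u i = monN u' (Am i - Pi.single k 1) * u' k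
            rw [mul_comm, ← E1_monN_single, ← hk1, ← hAm i]
          rw [h4]
          exact Ideal.mul_mem_left _ _ (Ideal.subset_span (Or.inl ⟨k, rfl⟩))
      have hYj : ∀ j, ∃ y : locV (ball K) B, (y : K) = Y j ∧ y ∈ J := by
        intro j
        obtain ⟨c, d, hc, hd, hj⟩ := hY j
        refine ⟨⟨Y j, ?_⟩, rfl, hcomb c d hc hd _ hj⟩
        rw [hj]
        exact add_mem (Subring.sum_mem _ fun i _ => mul_mem (hc i) (hgL i))
          (Subring.sum_mem _ fun k _ => mul_mem (hd k) (hgY k))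
      choose y hy1 hy2 using hui
      choose y' hy'1 hy'2 using hYj
      have h5 : b = ∑ i, (⟨c i, hA1L _ (hc i)⟩ : locV (ball K) B) * y i +
          ∑ j, (⟨d j, hA1L _ (hd j)⟩ : locV (ball K) B) * y' j := by
        apply Subtype.ext
        rw [Subring.coe_add, AddSubmonoidClass.coe_finsetSum, AddSubmonoidClass.coe_finsetSum,
          hbc]
        congr 1
        · exact Finset.sum_congr rfl fun i _ => by rw [Subring.coe_mul, hy1]
        · exact Finset.sum_congr rfl fun i _ => by rw [Subring.coe_mul, hy'1]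
      rw [h5]
      exact Ideal.add_mem _ (Ideal.sum_mem _ fun i _ => Ideal.mul_mem_left _ _ (hy2 i))
        (Ideal.sum_mem _ fun i _ => Ideal.mul_mem_left _ _ (hy'2 i))
  intro z hz hz1
  have hzm : (⟨z, hz⟩ : locV (ball K) B) ∈ maximalIdeal (locV (ball K) B) := by
    rw [IsLocalRing.mem_maximalIdeal, mem_nonunits_iff, isUnit_locV_iff (ball K) hBV,
      J7_val_one_iff]
    exact hz1.ne
  have h1 : (⟨z, hz⟩ : locV (ball K) B) ∈
      Ideal.span (Set.range fun i => (⟨u' i, hgL i⟩ : locV (ball K) B)) ⊔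
        Ideal.span (Set.range fun j => (⟨Y' j, hgY j⟩ : locV (ball K) B)) := by
    rw [← Ideal.span_union]
    exact key _ hzm
  rw [Submodule.mem_sup] at h1
  obtain ⟨z1, hz1', z2, hz2', hzz⟩ := h1
  obtain ⟨c, hc⟩ := (Ideal.mem_span_range_iff_exists_fun).1 hz1'
  obtain ⟨d, hd⟩ := (Ideal.mem_span_range_iff_exists_fun).1 hz2'
  refine ⟨fun i => (c i : K), fun j => (d j : K), fun i => (c i).2, fun j => (d j).2, ?_⟩
  have h6 := congrArg (Subtype.val) hzz
  rw [← hc, ← hd, Subring.coe_add, AddSubmonoidClass.coe_finsetSum,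
    AddSubmonoidClass.coe_finsetSum] at h6
  exact h6.symm

end

end Pool.Agent.Lib.MP_3029eb_ag.Imp
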