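import Pool.Agent.Lib.MP_3029eb_ag.ImpEmb1

/-!
Monomialization by one Perron transform, with additional parameters.
-/

open IsLocalRing

namespace Pool.Agent.Lib.MP_3029eb_ag.Imp
open Pool.Agent.Lib.MP_3029eb_ag
open Pool.Agent.Lib.MP_3029eb_ag.Abh

section

variable {K : Type} [NormedField K] [IsUltrametricDist K] {r h : ℕ}

theorem norm_sum_lt_one {ι : Type} (s : Finset ι) (f : ι → K) (hf : ∀ i ∈ s, ‖f i‖ < 1) :
    ‖∑ i ∈ s, f i‖ < 1 := by
  classical
  induction s using Finset.induction_on with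
  | empty => rw [Finset.sum_empty, norm_zero]; exact one_pos
  | insert a s ha ih =>
    rw [Finset.sum_insert ha]
    exact (IsUltrametricDist.norm_add_le_max _ _).trans_lt
      (max_lt (hf a (Finset.mem_insert_self _ _))
        (ih fun γ hγ => hf γ (Finset.mem_insert_of_mem hγ)))

theorem core2 (A1 : Subring K) (hA1 : A1 ≤ (ball K).toSubring)
    (hloc : locV (ball K) A1 = A1) (u : Fin r → K) (hu : Indep u) (huA : ∀ i, u i ∈ A1)
    (Y : Fin h → K) (hYA : ∀ j, Y j ∈ A1) (hgen : Gen A1 u Y)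
    (T : Finset K) (hT : ∀ t ∈ T, t ∈ A1 ∧ t ≠ 0) (hYT : ∀ j, ‖Y j‖ < ∏ t ∈ T, ‖t‖) :
    ∃ (u' : Fin r → K) (Y' : Fin h → K) (A2 : Subring K), Indep u' ∧ (∀ j, ‖Y' j‖ < 1) ∧
      A2 = locV (ball K) (Subring.closure ((A1 : Set K) ∪ (Set.range u' ∪ Set.range Y'))) ∧
      (∀ i, MonV (ball K) A2 u' (u i)) ∧
      (∀ i, ∃ p q : Fin r → ℕ, u' i * monN u p = monN u q) ∧
      (∀ j, ∃ p : Fin r → ℕ, Y' j * monN u p = Y j) ∧
      Gen A2 u' Y' ∧
      (∀ t ∈ T, MonV (ball K) A2 u' t) ∧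
      (∀ t ∈ T, ∀ t' ∈ T, ‖t‖ ≤ ‖t'‖ → MonV (ball K) A2 u' (t / t')) := by
  classical
  have hA1n : ∀ a ∈ A1, ‖a‖ ≤ 1 := fun a ha => hA1 ha
  -- the bound
  have hTn : ∀ t ∈ T, ‖t‖ ≤ 1 := fun t ht => hA1 (hT t ht).1
  have hprodle : ∀ t ∈ T, ∏ t ∈ T, ‖t‖ ≤ ‖t‖ := by
    intro t ht
    rw [← Finset.mul_prod_erase T _ ht]
    refine mul_le_of_le_one_right (norm_nonneg _) (Finset.prod_le_one (fun i _ => norm_nonneg _)
      fun i hi => hTn i (Finset.mem_of_mem_erase hi))
  obtain ⟨θ, hθ, hθT⟩ : ∃ θ : ℝ, (∀ j, ‖Y j‖ ≤ θ) ∧ ∀ t ∈ T, θ < ‖t‖ := by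
    rcases isEmpty_or_nonempty (Fin h) with hempty | hne
    · by_cases hT0 : T.Nonempty
      · obtain ⟨t0, ht0, hmin⟩ := Finset.exists_min_image T (fun t => ‖t‖) hT0
        refine ⟨‖t0‖ / 2, fun j => (hempty.false j).elim, fun t ht => ?_⟩
        have h1 : 0 < ‖t0‖ := norm_pos_iff.2 (hT t0 ht0).2
        exact (half_lt_self h1).trans_le (hmin t ht)
      · rw [Finset.not_nonempty_iff_eq_empty] at hT0
        exact ⟨0, fun j => (hempty.false j).elim, fun t ht => by simp [hT0] at ht⟩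
    · obtain ⟨j0, hj0⟩ := Finite.exists_max (fun j : Fin h => ‖Y j‖)
      exact ⟨‖Y j0‖, hj0, fun t ht => (hYT j0).trans_le (hprodle t ht)⟩
  -- expansions
  have hex : ∀ t : K, ∃ (β : Fin r → ℕ) (w : K) (c : (Fin r → ℕ) →₀ A1) (d : Fin h → A1),
      t ∈ T → w ∈ A1 ∧ ‖w‖ = 1 ∧ (∀ γ ∈ c.support, ‖monN u γ‖ < ‖monN u β‖) ∧
      t = w * monN u β + (c.sum fun γ x => (x : K) * monN u γ) + ∑ j, (d j : K) * Y j := by
    intro t
    by_cases ht : t ∈ T
    · obtain ⟨β, w, hw, hw1, hJ⟩ := expand2 A1 hA1n u hu huA Y hgen θ hθ t (hT t ht).1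
        (hθT t ht) (hT t ht).2
      obtain ⟨j0, hj0, n0, hn0, hjn⟩ := Submodule.mem_sup.1 hJ
      obtain ⟨c, hc, hs⟩ := E1_finsum A1 u _ _ hj0
      obtain ⟨d, hd⟩ := (Submodule.mem_span_range_iff_exists_fun A1).1 hn0
      refine ⟨β, w, c, d, fun _ => ⟨hw, hw1, hc, ?_⟩⟩
      have h1 : n0 = ∑ j, (d j : K) * Y j := by
        rw [← hd]
        exact Finset.sum_congr rfl fun j _ => by rw [Subring.smul_def, smul_eq_mul]
      rw [← hs, ← h1, add_assoc, hjn]; ring
    · exact ⟨0, 0, 0, 0, fun h' => absurd h' ht⟩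
  choose β w c d hex using hex
  -- the values of the elements of `T`
  have hval : ∀ t ∈ T, ‖monN u (β t)‖ = ‖t‖ := by
    intro t ht
    obtain ⟨hwA, hw1, hc, hsum⟩ := hex t ht
    have h0 : ‖t‖ ≤ ‖t‖ := le_rfl
    -- the rest is smaller than the leading term or than `t`
    set S1 := (c t).sum fun γ x => (x : K) * monN u γ with hS1
    set S2 := ∑ j, (d t j : K) * Y j with hS2
    have hS1n : ‖S1‖ < ‖monN u (β t)‖ := by
      have hne := E2_norm_pos hu (β t)
      have h1 : S1 = monN u (β t) *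
          ∑ γ ∈ (c t).support, (((c t) γ : A1) : K) * (monN u γ / monN u (β t)) := by
        rw [hS1, Finsupp.sum, Finset.mul_sum]
        refine Finset.sum_congr rfl fun γ _ => ?_
        have := E0_monN_ne hu.ne (β t)
        field_simp
      rw [h1, norm_mul]
      refine mul_lt_of_lt_one_right hne (norm_sum_lt_one _ _ fun γ hγ => ?_)
      rw [norm_mul, norm_div]
      refine (mul_le_of_le_one_left (by positivity) (hA1n _ ((c t) γ).2)).trans_lt ?_
      rw [div_lt_one hne]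
      exact hc γ hγ
    have hS2n : ‖S2‖ < ‖t‖ := by
      have hpos : 0 < ‖t‖ := norm_pos_iff.2 (hT t ht).2
      have h2 : ∀ s : Finset (Fin h), ‖∑ j ∈ s, (d t j : K) * Y j‖ < ‖t‖ := by
        intro s
        induction s using Finset.induction_on with
        | empty => rw [Finset.sum_empty, norm_zero]; exact hpos
        | insert a s ha ih =>
          rw [Finset.sum_insert ha]
          refine (IsUltrametricDist.norm_add_le_max _ _).trans_lt (max_lt ?_ ih)
          rw [norm_mul]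
          exact (mul_le_of_le_one_left (norm_nonneg _) (hA1n _ (d t a).2)).trans_lt
            ((hθ a).trans_lt (hθT t ht))
      exact h2 _
    have h1 : t - S2 = w t * monN u (β t) + S1 := by
      rw [eq_sub_of_add_eq hsum.symm]
    have h3 : ‖t - S2‖ = ‖t‖ := by
      rw [sub_eq_add_neg, IsUltrametricDist.norm_add_eq_max_of_norm_ne_norm
        (by rw [norm_neg]; exact hS2n.ne'), norm_neg, max_eq_left hS2n.le]
    have h4 : ‖w t * monN u (β t) + S1‖ = ‖monN u (β t)‖ := by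
      have h5 : ‖w t * monN u (β t)‖ = ‖monN u (β t)‖ := by rw [norm_mul, hw1, one_mul]
      rw [IsUltrametricDist.norm_add_eq_max_of_norm_ne_norm (by rw [h5]; exact hS1n.ne'), h5,
        max_eq_left hS1n.le]
    rw [← h4, ← h1, h3]
  -- the refinement
  let Δ1 : Finset (Fin r → ℤ) := T.biUnion fun t =>
    (c t).support.image fun γ i => (γ i : ℤ) - (β t i : ℤ)
  let Δ2 : Finset (Fin r → ℤ) := ((T ×ˢ T).image fun t =>
    (fun i => (β t.1 i : ℤ) - (β t.2 i : ℤ))).filter fun δ => ‖mon u δ‖ < 1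
  have hΔ : ∀ δ ∈ Δ1 ∪ Δ2, ‖mon u δ‖ < 1 := by
    intro δ hδ
    rcases Finset.mem_union.1 hδ with hδ | hδ
    · obtain ⟨t, ht, hδ⟩ := Finset.mem_biUnion.1 hδ
      obtain ⟨γ, hγ, rfl⟩ := Finset.mem_image.1 hδ
      rw [E2_sub hu, norm_div, div_lt_one (E2_norm_pos hu _)]
      exact (hex t ht).2.2.1 γ hγ
    · exact (Finset.mem_filter.1 hδ).2
  obtain ⟨u', Am, Bm, hu', hAm, hBm, hAB, hΔ'⟩ := refine u hu _ hΔ
  -- the new additional parameters
  let p0 : Fin r → ℕ := ∑ t ∈ T, β t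
  have hp0 : monN u p0 = ∏ t ∈ T, monN u (β t) := by
    have h1 : ∀ s : Finset K, monN u (∑ t ∈ s, β t) = ∏ t ∈ s, monN u (β t) := by
      intro s
      induction s using Finset.induction_on with
      | empty => rw [Finset.sum_empty, Finset.prod_empty, E0_monN_zero]
      | insert a s ha ih => rw [Finset.sum_insert ha, Finset.prod_insert ha, E0_monN_add, ih]
    exact h1 T
  have hp0n : ‖monN u p0‖ = ∏ t ∈ T, ‖t‖ := by
    rw [hp0, norm_prod]
    exact Finset.prod_congr rfl fun t ht => hval t ht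
  have hp0ne : monN u p0 ≠ 0 := E0_monN_ne hu.ne p0
  let Y' : Fin h → K := fun j => Y j / monN u p0
  have hY' : ∀ j, Y' j * monN u p0 = Y j := fun j => div_mul_cancel₀ _ hp0ne
  have hY'1 : ∀ j, ‖Y' j‖ < 1 := by
    intro j
    show ‖Y j / monN u p0‖ < 1
    rw [norm_div, div_lt_one (norm_pos_iff.2 hp0ne), hp0n]
    exact hYT j
  set A2 := locV (ball K) (Subring.closure ((A1 : Set K) ∪ (Set.range u' ∪ Set.range Y')))
    with hA2
  have hA12 : ∀ z ∈ A1, z ∈ A2 := fun z hz => le_locV _ _ (Subring.subset_closure (Or.inl hz))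
  have hu'A : ∀ i, u' i ∈ A2 := fun i => le_locV _ _
    (Subring.subset_closure (Or.inr (Or.inl ⟨i, rfl⟩)))
  have hY'A : ∀ j, Y' j ∈ A2 := fun j => le_locV _ _
    (Subring.subset_closure (Or.inr (Or.inr ⟨j, rfl⟩)))
  have hA2V : A2 ≤ (ball K).toSubring := by
    refine locV_le _ ?_
    rw [Subring.closure_le]
    rintro x (hx | hx)
    · exact hA1 hx
    · rcases hx with ⟨i, rfl⟩ | ⟨j, rfl⟩
      · exact (hu'.lt i).le
      · exact (hY'1 j).le
  have hMu : ∀ i, MonV (ball K) A2 u' (u i) := fun i => by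
    rw [hAm i]; exact MonV.monN _
  have hMN : ∀ γ : Fin r → ℕ, MonV (ball K) A2 u' (monN u γ) := fun γ => by
    unfold monN
    exact MonV.prod _ _ fun i _ => (hMu i).pow _
  -- each element of `T` is a unit times `monN u (β t)`
  have hTu : ∀ t ∈ T, ∃ w' ∈ A2, ‖w'‖ = 1 ∧ t = w' * monN u (β t) := by
    intro t ht
    obtain ⟨hwA, hw1, hc, hsum⟩ := hex t ht
    have hne := E0_monN_ne hu.ne (β t)
    let S : K := (c t).sum fun γ x => (x : K) * (monN u γ / monN u (β t))
    -- the quotients of the additional parameters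
    have hYq : ∀ j, Y j / monN u (β t) ∈ A2 ∧ ‖Y j / monN u (β t)‖ < 1 := by
      intro j
      refine ⟨?_, ?_⟩
      · have h1 : Y j / monN u (β t) = Y' j * monN u (∑ t' ∈ T.erase t, β t') := by
          rw [div_eq_iff hne, mul_assoc, ← E0_monN_add]
          have h2 : ∑ t' ∈ T.erase t, β t' + β t = p0 := Finset.sum_erase_add T _ ht
          rw [h2, hY']
        rw [h1]
        exact mul_mem (hY'A j) (MonV.mem (hMN _) hu'A)
      · rw [norm_div, div_lt_one (E2_norm_pos hu _), hval t ht]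
        exact (hθ j).trans_lt (hθT t ht)
    let S' : K := ∑ j, (d t j : K) * (Y j / monN u (β t))
    have hterm : ∀ γ ∈ (c t).support, monN u γ / monN u (β t) ∈ A2 ∧
        ‖monN u γ / monN u (β t)‖ < 1 := by
      intro γ hγ
      have h1 : (fun i => (γ i : ℤ) - (β t i : ℤ)) ∈ Δ1 ∪ Δ2 :=
        Finset.mem_union_left _ (Finset.mem_biUnion.2 ⟨t, ht, Finset.mem_image_of_mem _ hγ⟩)
      obtain ⟨η, hη⟩ := hΔ' _ h1
      rw [E2_sub hu] at hη
      refine ⟨?_, ?_⟩
      · rw [hη]; exact E0_monN_mem _ hu'A _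
      · rw [norm_div, div_lt_one (E2_norm_pos hu _)]
        exact hc γ hγ
    have hSA : S ∈ A2 := by
      refine Subring.sum_mem _ fun γ hγ => ?_
      exact mul_mem (hA12 _ ((c t) γ).2) (hterm γ hγ).1
    have hS'A : S' ∈ A2 :=
      Subring.sum_mem _ fun j _ => mul_mem (hA12 _ (d t j).2) (hYq j).1
    have hS1 : ‖S‖ < 1 := by
      refine norm_sum_lt_one _ _ fun γ hγ => ?_
      rw [norm_mul]
      exact (mul_le_of_le_one_left (norm_nonneg _) (hA1 ((c t) γ).2)).trans_lt (hterm γ hγ).2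
    have hS'1 : ‖S'‖ < 1 := by
      refine norm_sum_lt_one _ _ fun j _ => ?_
      rw [norm_mul]
      exact (mul_le_of_le_one_left (norm_nonneg _) (hA1 (d t j).2)).trans_lt (hYq j).2
    have hSS : ‖S + S'‖ < 1 := (IsUltrametricDist.norm_add_le_max _ _).trans_lt (max_lt hS1 hS'1)
    refine ⟨w t + (S + S'), add_mem (hA12 _ hwA) (add_mem hSA hS'A), ?_, ?_⟩
    · have h3 : ‖S + S'‖ < ‖w t‖ := by rw [hw1]; exact hSS
      rw [IsUltrametricDist.norm_add_eq_max_of_norm_ne_norm h3.ne', hw1]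
      exact max_eq_left hSS.le
    · have h4 : S * monN u (β t) = (c t).sum fun γ x => (x : K) * monN u γ := by
        show ((c t).sum fun γ x => (x : K) * (monN u γ / monN u (β t))) * monN u (β t) = _
        rw [Finsupp.sum_mul]
        refine Finsupp.sum_congr fun γ _ => ?_
        rw [mul_assoc, div_mul_cancel₀ _ hne]
      have h5 : S' * monN u (β t) = ∑ j, (d t j : K) * Y j := by
        show (∑ j, (d t j : K) * (Y j / monN u (β t))) * monN u (β t) = _
        rw [Finset.sum_mul]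
        refine Finset.sum_congr rfl fun j _ => ?_
        rw [mul_assoc, div_mul_cancel₀ _ hne]
      rw [add_mul, add_mul, h4, h5, ← add_assoc]
      exact hsum
  refine ⟨u', Y', A2, hu', hY'1, rfl, hMu, ?_, fun j => ⟨p0, hY' j⟩,
    gen_adjoin A1 hA1 hloc u hu Y hgen u' hu' Am hAm Y' hY'1 A2 hA2 ?_, ?_, ?_⟩
  · intro i
    refine ⟨fun k => (-(Bm i k)).toNat, fun k => (Bm i k).toNat, ?_⟩
    rw [hBm i, ← mon_natCast, ← mon_natCast, ← mon_add u hu.ne]
    congr 1
    funext k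
    rw [Pi.add_apply]
    omega
  · intro j
    refine ⟨0, Pi.single j (monN u p0), fun i => A2.zero_mem, fun k => ?_, ?_⟩
    · by_cases hk : k = j
      · rw [hk, Pi.single_eq_same]; exact MonV.mem (hMN _) hu'A
      · rw [Pi.single_eq_of_ne hk]; exact A2.zero_mem
    · rw [Finset.sum_eq_single j, Pi.single_eq_same, mul_comm, hY']
      · simp
      · intro k _ hk
        rw [Pi.single_eq_of_ne hk, zero_mul]
      · intro hj; exact absurd (Finset.mem_univ j) hj
  · intro t ht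
    obtain ⟨w', hw', hw1, hhw⟩ := hTu t ht
    rw [hhw]
    exact (MonV.of_unit hw' ((J7_val_one_iff _).2 hw1)).mul (hMN _)
  · intro t ht t' ht' hle
    obtain ⟨w1, hw1, hn1, hh1⟩ := hTu t ht
    obtain ⟨w2, hw2, hn2, hh2⟩ := hTu t' ht'
    have hw20 : w2 ≠ 0 := by
      rw [← norm_ne_zero_iff, hn2]; exact one_ne_zero
    have hw2i : w2⁻¹ ∈ A2 := by
      have h5 : locV (ball K) A2 = A2 := locV_locV _ _
      rw [← h5]
      exact ⟨1, A2.one_mem, w2, hw2, (J7_val_one_iff _).2 hn2, inv_mul_cancel₀ hw20⟩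
    have hn : ‖monN u (β t)‖ ≤ ‖monN u (β t')‖ := by
      rw [hval t ht, hval t' ht']
      exact hle
    have hq : MonV (ball K) A2 u' (monN u (β t) / monN u (β t')) := by
      rcases hn.lt_or_eq with hlt | heq
      · have h6 : (fun i => (β t i : ℤ) - (β t' i : ℤ)) ∈ Δ1 ∪ Δ2 := by
          refine Finset.mem_union_right _ (Finset.mem_filter.2
            ⟨Finset.mem_image.2 ⟨(t, t'), Finset.mem_product.2 ⟨ht, ht'⟩, rfl⟩, ?_⟩)
          rw [E2_sub hu, norm_div, div_lt_one (E2_norm_pos hu _)]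
          exact hlt
        obtain ⟨η, hη⟩ := hΔ' _ h6
        rw [E2_sub hu] at hη
        rw [hη]
        exact MonV.monN _
      · rw [hu.injN heq, div_self (E0_monN_ne hu.ne _)]
        exact MonV.one
    have h7 : t / t' = (w1 * w2⁻¹) * (monN u (β t) / monN u (β t')) := by
      calc t / t' = (w1 * monN u (β t)) / (w2 * monN u (β t')) := by rw [← hh1, ← hh2]
        _ = _ := by rw [mul_div_mul_comm, div_eq_mul_inv w1 w2]
    rw [h7]
    refine MonV.mul (MonV.of_unit (mul_mem hw1 hw2i) ?_) hq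
    rw [J7_val_one_iff, norm_mul, norm_inv, hn1, hn2, inv_one, mul_one]

end

end Pool.Agent.Lib.MP_3029eb_ag.Imp
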