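import Pool.Agent.Lib.MP_3029eb_ag.AbhStep

/-!
The final step for an arbitrary implicit prime (adapted from `AbhFinal`, `AbhStep`).
-/

open IsLocalRing

namespace Pool.Agent.Lib.MP_3029eb_ag.Imp

open Pool.Agent.Lib.MP_3029eb_ag Pool.Agent.Lib.MP_3029eb_ag.Abh

variable {K : Type} [NormedField K] [IsUltrametricDist K] {r : ℕ}

/-- the algebra in the completion -/
theorem final_algebra_imp (R3 : Subring K) [IsLocalRing R3] [IsNoetherianRing R3]
    (w : Fin r → R3) (hw0 : ∀ k, (w k : K) ≠ 0) (I : Ideal R3) (hI : I ≤ maximalIdeal R3)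
    {P : Type} [CommRing P] (χ : P →+* AdicCompletion (maximalIdeal R3) R3)
    (X : Fin r → P) (hX : ∀ k, χ (X k) = algebraMap R3 _ (w k))
    {ι : Type} (Z' : ι → P) (ζ : ι → R3) (F : ι → P) (b γ0 : Fin r → ℕ)
    (hF : ∀ i, ∃ t ∈ I.map (algebraMap R3 (AdicCompletion (maximalIdeal R3) R3)),
      χ (F i) = algebraMap R3 _ (monN w (b + (b + γ0))) * t)
    (hZ' : ∀ j, χ (Z' j) = algebraMap R3 _ (monN w (b + γ0) * ζ j))
    (hγ0 : monN w γ0 ∈ I) (B1 B2 : Finset (Fin r → ℕ))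
    (hB1 : ∀ β ∈ B1, ∃ t ∈ I, monN w β = monN w (b + (b + γ0)) * t)
    (hB2 : ∀ β ∈ B2, ∃ t ∈ I, monN w β = monN w b * t)
    (μ c : P) (hc : IsUnit (χ c)) (i : ι)
    (hμ1 : μ * Z' i ∈ Ideal.span (Set.range F) ⊔
      Ideal.span (monN X '' (B1 : Set (Fin r → ℕ))))
    (hμ2 : μ - c * monN X b ∈ Ideal.span (Set.range Z') ⊔
      Ideal.span (monN X '' (B2 : Set (Fin r → ℕ)))) :
    algebraMap R3 (AdicCompletion (maximalIdeal R3) R3) (ζ i) ∈
      I.map (algebraMap R3 (AdicCompletion (maximalIdeal R3) R3)) := by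
  set T3 := AdicCompletion (maximalIdeal R3) R3 with hT3
  set al : R3 →+* T3 := algebraMap R3 T3 with hal
  set IT : Ideal T3 := I.map al with hIT
  have hmono : ∀ β : Fin r → ℕ, χ (monN X β) = al (monN w β) := by
    intro β
    rw [map_monN, map_monN]
    congr 1
    funext k
    exact hX k
  have hITm : IT ≤ maximalIdeal T3 := by
    rw [hIT, Ideal.map_le_iff_le_comap]
    intro x hx
    have h1 : maximalIdeal T3 = (maximalIdeal R3).map al := AdicCompletion.maximalIdeal_eq_map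
    rw [h1, Ideal.mem_comap]
    exact Ideal.mem_map_of_mem _ (hI hx)
  have hne : ∀ β : Fin r → ℕ, monN w β ≠ 0 := by
    intro β
    rw [monN, Finset.prod_ne_zero_iff]
    intro k _
    refine pow_ne_zero _ (fun h => hw0 k ?_)
    rw [h]; rfl
  -- χ μ = M b * η
  have h2 : ∃ t ∈ IT, χ (μ - c * monN X b) = al (monN w b) * t := by
    have h3 : χ (μ - c * monN X b) ∈ Ideal.span {al (monN w b)} * IT := by
      have h4 := Ideal.mem_map_of_mem χ hμ2
      rw [Ideal.map_sup, Ideal.map_span, Ideal.map_span] at h4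
      refine (sup_le ?_ ?_ : _ ≤ Ideal.span {al (monN w b)} * IT) h4
      · rw [Ideal.span_le]
        rintro _ ⟨_, ⟨j, rfl⟩, rfl⟩
        rw [SetLike.mem_coe, hZ', monN_add, mul_assoc, map_mul, Ideal.mem_span_singleton_mul]
        refine ⟨_, Ideal.mem_map_of_mem al (Ideal.mul_mem_right (ζ j) I hγ0), rfl⟩
      · rw [Ideal.span_le]
        rintro _ ⟨_, ⟨β, hβ, rfl⟩, rfl⟩
        obtain ⟨t, ht, hβt⟩ := hB2 β (Finset.mem_coe.1 hβ)
        rw [SetLike.mem_coe, hmono, hβt, map_mul, Ideal.mem_span_singleton_mul]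
        exact ⟨_, Ideal.mem_map_of_mem al ht, rfl⟩
    rw [Ideal.mem_span_singleton_mul] at h3
    obtain ⟨t, ht, h5⟩ := h3
    exact ⟨t, ht, h5.symm⟩
  obtain ⟨t, ht, hμt⟩ := h2
  have hχμ : χ μ = al (monN w b) * (χ c + t) := by
    have h6 : χ μ = χ (μ - c * monN X b) + χ c * χ (monN X b) := by
      rw [map_sub, map_mul]; ring
    rw [h6, hμt, hmono]; ring
  have hη : IsUnit (χ c + t) := by
    by_contra hn
    have h7 : χ c + t ∈ maximalIdeal T3 := (mem_maximalIdeal _).2 hn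
    have h8 : χ c ∈ maximalIdeal T3 := by
      have := Ideal.sub_mem _ h7 (hITm ht)
      rwa [add_sub_cancel_right] at this
    exact (mem_nonunits_iff.1 ((mem_maximalIdeal _).1 h8)) hc
  have h9 : ∃ t' ∈ IT, χ (μ * Z' i) = al (monN w (b + (b + γ0))) * t' := by
    have h3 : χ (μ * Z' i) ∈ Ideal.span {al (monN w (b + (b + γ0)))} * IT := by
      have h4 := Ideal.mem_map_of_mem χ hμ1
      rw [Ideal.map_sup, Ideal.map_span, Ideal.map_span] at h4
      refine (sup_le ?_ ?_ : _ ≤ Ideal.span {al (monN w (b + (b + γ0)))} * IT) h4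
      · rw [Ideal.span_le]
        rintro _ ⟨_, ⟨j, rfl⟩, rfl⟩
        obtain ⟨t, ht, hFt⟩ := hF j
        rw [SetLike.mem_coe, hFt, Ideal.mem_span_singleton_mul]
        exact ⟨t, ht, rfl⟩
      · rw [Ideal.span_le]
        rintro _ ⟨_, ⟨β, hβ, rfl⟩, rfl⟩
        obtain ⟨t, ht, hβt⟩ := hB1 β (Finset.mem_coe.1 hβ)
        rw [SetLike.mem_coe, hmono, hβt, map_mul, Ideal.mem_span_singleton_mul]
        exact ⟨_, Ideal.mem_map_of_mem al ht, rfl⟩
    rw [Ideal.mem_span_singleton_mul] at h3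
    obtain ⟨t, ht, h5⟩ := h3
    exact ⟨t, ht, h5.symm⟩
  obtain ⟨t', ht', hμt'⟩ := h9
  have h10 : al (monN w (b + (b + γ0))) * ((χ c + t) * al (ζ i)) =
      al (monN w (b + (b + γ0))) * t' := by
    rw [← hμt', map_mul χ, hχμ, hZ', map_mul al, monN_add w b (b + γ0), map_mul al]; ring
  have h11 := cancel_completion R3 _ (hne _) h10
  obtain ⟨η, hη'⟩ := hη
  have h12 : al (ζ i) = ((η⁻¹ : T3ˣ) : T3) * t' := by
    rw [← h11, ← hη', ← mul_assoc, Units.inv_mul, one_mul]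
  rw [h12]
  exact Ideal.mul_mem_left _ _ ht'

omit [IsUltrametricDist K] in
/-- powers of the ideal of the variables -/
theorem Fin_span_pow {R : Type} [CommRing R] (w : Fin r → R) (N : ℕ) :
    (Ideal.span (Set.range w)) ^ N ≤
      Ideal.span {m | ∃ β : Fin r → ℕ, ∑ i, β i = N ∧ m = monN w β} := by
  classical
  induction N with
  | zero =>
    rw [pow_zero, Ideal.one_eq_top, top_le_iff, Ideal.eq_top_iff_one]
    exact Ideal.subset_span ⟨0, by simp, (monN_zero w).symm⟩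
  | succ N ih =>
    rw [pow_succ]
    refine (Ideal.mul_mono_left ih).trans ?_
    rw [Ideal.span_mul_span', Ideal.span_le]
    rintro _ ⟨_, ⟨β, hβ, rfl⟩, _, ⟨i, rfl⟩, rfl⟩
    refine Ideal.subset_span ⟨β + Pi.single i 1, ?_, ?_⟩
    · simp only [Pi.add_apply, Finset.sum_add_distrib, hβ, Finset.sum_pi_single',
        Finset.mem_univ, if_true]
    · rw [monN_add]
      congr 1
      rw [monN, Finset.prod_eq_single i]
      · rw [Pi.single_eq_same, pow_one]
      · intro j _ hj; rw [Pi.single_eq_of_ne hj, pow_zero]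
      · intro h; exact absurd (Finset.mem_univ i) h

/-- elements of a power of an ideal generated by elements of small norm -/
theorem Fin_norm_pow {T L : Type} [CommRing T] [NormedField L] [IsUltrametricDist L]
    (φ : T →+* L) (hφ : ∀ t, ‖φ t‖ ≤ 1) {ι : Type} (x : ι → T) (ρ : ℝ) (hρ : 0 ≤ ρ)
    (hx : ∀ j, ‖φ (x j)‖ ≤ ρ) (N : ℕ) (t : T) (ht : t ∈ (Ideal.span (Set.range x)) ^ N) :
    ‖φ t‖ ≤ ρ ^ N := by
  let J : ℕ → Ideal T := fun n =>
    { carrier := {t | ‖φ t‖ ≤ ρ ^ n}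
      add_mem' := fun {a b} ha hb => by
        show ‖φ (a + b)‖ ≤ ρ ^ n
        rw [map_add]
        exact (IsUltrametricDist.norm_add_le_max _ _).trans (max_le ha hb)
      zero_mem' := by
        show ‖φ 0‖ ≤ ρ ^ n
        rw [map_zero, norm_zero]; positivity
      smul_mem' := fun c a ha => by
        show ‖φ (c * a)‖ ≤ ρ ^ n
        rw [map_mul, norm_mul]
        exact (mul_le_of_le_one_left (norm_nonneg _) (hφ c)).trans ha }
  have h1 : Ideal.span (Set.range x) ≤ J 1 := by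
    rw [Ideal.span_le]
    rintro _ ⟨j, rfl⟩
    show ‖φ (x j)‖ ≤ ρ ^ 1
    rw [pow_one]; exact hx j
  have h2 : ∀ n, (Ideal.span (Set.range x)) ^ n ≤ J n := by
    intro n
    induction n with
    | zero =>
      intro t _
      show ‖φ t‖ ≤ ρ ^ 0
      rw [pow_zero]; exact hφ t
    | succ n ih =>
      rw [pow_succ, Ideal.mul_le]
      intro a ha b hb
      show ‖φ (a * b)‖ ≤ ρ ^ (n + 1)
      rw [map_mul, norm_mul, pow_succ]
      have hb1 : ‖φ b‖ ≤ ρ ^ 1 := h1 hb
      rw [pow_one] at hb1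
      exact mul_le_mul (ih ha) hb1 (norm_nonneg _) (pow_nonneg hρ n)
  exact h2 N ht

end Pool.Agent.Lib.MP_3029eb_ag.Imp
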