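import Pool.Agent.Lib.MP_3029eb_ag.ImpSt
import Pool.Agent.Lib.MP_3029eb_ag.ImpFinal
import Pool.Agent.Lib.MP_3029eb_ag.AbhJ6
import Pool.Agent.Lib.MP_3029eb_ag.ImpDim

/-!
Extension of presentation data to a birational extension generated by one element.
-/

open IsLocalRing

namespace Pool.Agent.Lib.MP_3029eb_ag.Imp
open Pool.Agent.Lib.MP_3029eb_ag
open Pool.Agent.Lib.MP_3029eb_ag.Abh

/-- presentation data indexed by an arbitrary finite type -/
theorem HasState.of_fintype {K L : Type} [NormedField K] [NormedField L] (A : Subring K)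
    [IsLocalRing A] (φ : AdicCompletion (maximalIdeal A) A →+* L) (H : WithBot ℕ∞) (ρ : ℕ)
    (S : Type) [CommRing S] [IsLocalRing S] [IsNoetherianRing S]
    (π : S →+* AdicCompletion (maximalIdeal A) A) (ι : Type) [Fintype ι] [DecidableEq ι]
    (Φ : S →+* TrivSqZeroExt L (ι → L)) (f : ι → S) (I : Finset ι)
    (h1 : ∀ s, s ∈ maximalIdeal S ↔ ‖φ (π s)‖ < 1)
    (h2 : ∀ a : A, ∃ s, π s = algebraMap A (AdicCompletion (maximalIdeal A) A) a)
    (h3 : ∀ s : S, ∃ a : A, ∃ s' ∈ maximalIdeal S ^ 2,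
      π s = algebraMap A (AdicCompletion (maximalIdeal A) A) a + π s')
    (h4 : ∀ s, (Φ s).fst = φ (π s)) (h5 : ∀ s i, ‖(Φ s).snd i‖ ≤ 1)
    (h6 : ∀ i, φ (π (f i)) = 0) (h7 : ∀ i, i ∉ I → π (f i) = 0)
    (h8 : (Matrix.of fun i j => (Φ (f i)).snd j).det ≠ 0)
    (h9 : (maximalIdeal S).spanFinrank ≤ Fintype.card ι + ρ) (h10 : (I.card : WithBot ℕ∞) ≤ H) :
    HasState A φ H ρ := by
  let e : ι ≃ Fin (Fintype.card ι) := Fintype.equivFin ι
  let ext : (ι → L) →ₗ[L] (Fin (Fintype.card ι) → L) := LinearMap.funLeft L L e.symm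
  let Φ' : S →+* TrivSqZeroExt L (Fin (Fintype.card ι) → L) :=
    ((TrivSqZeroExt.map ext : TrivSqZeroExt L (ι → L) →ₐ[L]
      TrivSqZeroExt L (Fin (Fintype.card ι) → L)) : TrivSqZeroExt L (ι → L) →+*
      TrivSqZeroExt L (Fin (Fintype.card ι) → L)).comp Φ
  have hs1 : ∀ s, (Φ' s).fst = (Φ s).fst := fun s => TrivSqZeroExt.fst_map _ _
  have hs2 : ∀ s i, (Φ' s).snd i = (Φ s).snd (e.symm i) := by
    intro s i
    show (TrivSqZeroExt.map ext (Φ s)).snd i = _
    rw [TrivSqZeroExt.snd_map]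
    rfl
  refine ⟨S, inferInstance, inferInstance, inferInstance, π, Fintype.card ι, Φ',
    fun i => f (e.symm i), I.map e.toEmbedding, h1, h2, h3, ?_, ?_, fun i => h6 _, ?_, ?_, h9, ?_⟩
  · intro s; rw [hs1, h4]
  · intro s i; rw [hs2]; exact h5 _ _
  · intro i hi
    refine h7 _ fun h => hi ?_
    rw [Finset.mem_map]
    exact ⟨e.symm i, h, e.apply_symm_apply i⟩
  · have h : (Matrix.of fun i j => (Φ' (f (e.symm i))).snd j) =
        (Matrix.of fun i j => (Φ (f i)).snd j).submatrix e.symm e.symm := by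
      ext i j
      rw [Matrix.of_apply, Matrix.submatrix_apply, Matrix.of_apply, hs2]
    rw [h, Matrix.det_submatrix_equiv_self]
    exact h8
  · rw [Finset.card_map]; exact h10

/-- homomorphisms on a completion are determined by the ring -/
theorem completion_hom_ext {L : Type} [NormedField L] [IsUltrametricDist L] (A : Type)
    [CommRing A] [IsLocalRing A] [IsNoetherianRing A]
    (φ1 φ2 : AdicCompletion (maximalIdeal A) A →+* L) (h1 : ∀ t, ‖φ1 t‖ ≤ 1)
    (h2 : ∀ t, ‖φ2 t‖ ≤ 1)
    (hm : ∀ a ∈ maximalIdeal A, ‖φ1 (algebraMap A (AdicCompletion (maximalIdeal A) A) a)‖ < 1)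
    (h : ∀ a, φ1 (algebraMap A (AdicCompletion (maximalIdeal A) A) a) =
      φ2 (algebraMap A (AdicCompletion (maximalIdeal A) A) a)) : φ1 = φ2 := by
  classical
  obtain ⟨Z, hZ⟩ := J4_exists_gens A (Fin (maximalIdeal A).spanFinrank)
    (by rw [Fintype.card_fin])
  have hmT : maximalIdeal (AdicCompletion (maximalIdeal A) A) =
      Ideal.span (Set.range fun j => algebraMap A (AdicCompletion (maximalIdeal A) A) (Z j)) := by
    have h0 : maximalIdeal (AdicCompletion (maximalIdeal A) A) =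
        (maximalIdeal A).map (algebraMap A (AdicCompletion (maximalIdeal A) A)) :=
      AdicCompletion.maximalIdeal_eq_map
    have h1 : (maximalIdeal A).map (algebraMap A (AdicCompletion (maximalIdeal A) A)) =
        (Ideal.span (Set.range Z)).map (algebraMap A (AdicCompletion (maximalIdeal A) A)) :=
      congrArg _ hZ.symm
    rw [h0, h1, Ideal.map_span, ← Set.range_comp]
    rfl
  obtain ⟨ϱ, hϱ0, hϱ1, hϱ⟩ : ∃ ϱ : ℝ, 0 ≤ ϱ ∧ ϱ < 1 ∧ ∀ j,
      ‖φ1 (algebraMap A (AdicCompletion (maximalIdeal A) A) (Z j))‖ ≤ ϱ := by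
    have hne : (insert (0 : ℝ) (Finset.univ.image fun j =>
        ‖φ1 (algebraMap A (AdicCompletion (maximalIdeal A) A) (Z j))‖)).Nonempty :=
      Finset.insert_nonempty _ _
    refine ⟨Finset.max' _ hne, Finset.le_max' _ _ (Finset.mem_insert_self _ _), ?_, fun j =>
      Finset.le_max' _ _ (Finset.mem_insert_of_mem (Finset.mem_image_of_mem
        (fun j => ‖φ1 (algebraMap A (AdicCompletion (maximalIdeal A) A) (Z j))‖)
        (Finset.mem_univ j)))⟩
    rw [Finset.max'_lt_iff]
    intro y hy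
    rcases Finset.mem_insert.1 hy with rfl | hy
    · exact zero_lt_one
    · obtain ⟨j, -, rfl⟩ := Finset.mem_image.1 hy
      exact hm _ (by rw [← hZ]; exact Ideal.subset_span ⟨j, rfl⟩)
  refine RingHom.ext fun t => ?_
  by_contra hne
  have hpos : 0 < ‖φ1 t - φ2 t‖ := norm_pos_iff.2 (sub_ne_zero.2 hne)
  obtain ⟨N, hN⟩ := exists_pow_lt_of_lt_one hpos hϱ1
  obtain ⟨a, -, ha⟩ := (sameCompletion_adicCompletion A).approxN 0 N (t := t) (by
    rw [pow_zero, Ideal.one_eq_top]; trivial)
  rw [Nat.zero_add, hmT] at ha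
  have e1 := Fin_norm_pow φ1 h1 _ ϱ hϱ0 hϱ N _ ha
  have e2 := Fin_norm_pow φ2 h2 _ ϱ hϱ0 (fun j => by rw [← h]; exact hϱ j) N _ ha
  have e3 : φ1 t - φ2 t =
      φ1 (t - algebraMap A (AdicCompletion (maximalIdeal A) A) a) -
        φ2 (t - algebraMap A (AdicCompletion (maximalIdeal A) A) a) := by
    rw [map_sub, map_sub, h a]; ring
  have e4 : ‖φ1 t - φ2 t‖ ≤ ϱ ^ N := by
    rw [e3, sub_eq_add_neg]
    refine (IsUltrametricDist.norm_add_le_max _ _).trans (max_le e1 ?_)
    rw [norm_neg]; exact e2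
  exact absurd e4 (not_le.2 hN)

/-- generators of the maximal ideal of a local ring of a polynomial ring -/
theorem ext_gens_tr (S : Type) [CommRing S] [IsLocalRing S] [IsNoetherianRing S]
    (𝔫 : Ideal (Polynomial S)) [𝔫.IsPrime] (htr : 𝔫 = (maximalIdeal S).map Polynomial.C) :
    (maximalIdeal (Localization.AtPrime 𝔫)).spanFinrank ≤ (maximalIdeal S).spanFinrank := by
  classical
  obtain ⟨s, hs, hspan⟩ := Submodule.FG.exists_span_finset_card_eq_spanFinrank
    (IsNoetherian.noetherian (maximalIdeal S))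
  have h1 : maximalIdeal (Localization.AtPrime 𝔫) = Ideal.span
      ((fun t : S => algebraMap (Polynomial S) (Localization.AtPrime 𝔫) (Polynomial.C t)) '' s) := by
    rw [← Localization.AtPrime.map_eq_maximalIdeal]
    have h2 : (maximalIdeal S) = Ideal.span (s : Set S) := hspan.symm
    calc 𝔫.map (algebraMap (Polynomial S) (Localization.AtPrime 𝔫))
        = ((maximalIdeal S).map Polynomial.C).map
            (algebraMap (Polynomial S) (Localization.AtPrime 𝔫)) := congrArg _ htr
      _ = _ := by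
        rw [h2, Ideal.map_span, Ideal.map_span, ← Set.image_comp]
        rfl
  rw [h1, ← hs]
  refine (Submodule.spanFinrank_span_le_ncard_of_finite
    (s.finite_toSet.image _)).trans ?_
  refine (Set.ncard_image_le s.finite_toSet).trans ?_
  rw [Set.ncard_coe_finset]

theorem ext_gens (S : Type) [CommRing S] [IsLocalRing S] [IsNoetherianRing S]
    (𝔫 : Ideal (Polynomial S)) [𝔫.IsPrime] (hm : (maximalIdeal S).map Polynomial.C ≤ 𝔫) :
    (maximalIdeal (Localization.AtPrime 𝔫)).spanFinrank ≤ (maximalIdeal S).spanFinrank + 1 := by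
  classical
  obtain ⟨s, hs, hspan⟩ := Submodule.FG.exists_span_finset_card_eq_spanFinrank
    (IsNoetherian.noetherian (maximalIdeal S))
  let q : Polynomial S →+* Polynomial (ResidueField S) := Polynomial.mapRingHom (residue S)
  have hq : Function.Surjective q := Polynomial.map_surjective _ residue_surjective
  have hker : RingHom.ker q = (maximalIdeal S).map Polynomial.C := by
    have h1 : RingHom.ker q = (RingHom.ker (residue S)).map Polynomial.C :=
      Polynomial.ker_mapRingHom _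
    rw [h1, IsLocalRing.ker_residue]
  obtain ⟨gb, hgb⟩ := (IsPrincipalIdealRing.principal (𝔫.map q)).principal
  have hgb1 : gb ∈ 𝔫.map q := by rw [hgb]; exact Submodule.mem_span_singleton_self gb
  obtain ⟨g, hg, hgq⟩ := (Ideal.mem_map_iff_of_surjective q hq).1 hgb1
  have h𝔫 : 𝔫 = (maximalIdeal S).map Polynomial.C ⊔ Ideal.span {g} := by
    apply le_antisymm
    · intro p hp
      have h1 : q p ∈ 𝔫.map q := Ideal.mem_map_of_mem q hp
      rw [hgb] at h1
      obtain ⟨hb, hhb⟩ := Submodule.mem_span_singleton.1 h1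
      obtain ⟨h, rfl⟩ := hq hb
      have h2 : p - h * g ∈ (maximalIdeal S).map Polynomial.C := by
        rw [← hker, RingHom.mem_ker, map_sub, map_mul, hgq, ← hhb, smul_eq_mul, sub_self]
      have h3 : p = (p - h * g) + h * g := by ring
      rw [h3]
      exact Submodule.add_mem_sup h2 (Ideal.mul_mem_left _ _ (Ideal.mem_span_singleton_self g))
    · refine sup_le hm ?_
      rw [Ideal.span_singleton_le_iff_mem]
      exact hg
  have h1 : maximalIdeal (Localization.AtPrime 𝔫) = Ideal.span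
      ((fun t : S => algebraMap (Polynomial S) (Localization.AtPrime 𝔫) (Polynomial.C t)) '' s ∪
        {algebraMap (Polynomial S) (Localization.AtPrime 𝔫) g}) := by
    rw [← Localization.AtPrime.map_eq_maximalIdeal]
    have h2 : (maximalIdeal S) = Ideal.span (s : Set S) := hspan.symm
    calc 𝔫.map (algebraMap (Polynomial S) (Localization.AtPrime 𝔫))
        = ((maximalIdeal S).map Polynomial.C ⊔ Ideal.span {g}).map
            (algebraMap (Polynomial S) (Localization.AtPrime 𝔫)) := congrArg _ h𝔫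
      _ = _ := by
        rw [h2, Ideal.map_sup, Ideal.map_span, Ideal.map_span, Ideal.map_span, ← Set.image_comp,
          Set.image_singleton, Ideal.span_union]
        rfl
  rw [h1, ← hs]
  refine (Submodule.spanFinrank_span_le_ncard_of_finite
    ((s.finite_toSet.image _).union (Set.finite_singleton _))).trans ?_
  refine (Set.ncard_union_le _ _).trans ?_
  rw [Set.ncard_singleton]
  refine Nat.add_le_add_right ?_ 1
  refine (Set.ncard_image_le s.finite_toSet).trans ?_
  rw [Set.ncard_coe_finset]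

/-- extension of bounded derivations to a polynomial ring -/
theorem ext_Phi {S L : Type} [CommRing S] [NormedField L] [IsUltrametricDist L] {c : ℕ}
    (ψ : S →+* L) (Φ : S →+* TrivSqZeroExt L (Fin c → L)) (hΦ1 : ∀ s, (Φ s).fst = ψ s)
    (hψ : ∀ s, ‖ψ s‖ ≤ 1) (hΦ2 : ∀ s i, ‖(Φ s).snd i‖ ≤ 1) (z : L) (hz : ‖z‖ ≤ 1) :
    ∃ Θ : Polynomial S →+* TrivSqZeroExt L (Fin c ⊕ Fin 1 → L),
      (∀ p, (Θ p).fst = Polynomial.eval₂ ψ z p) ∧ (∀ p i, ‖(Θ p).snd i‖ ≤ 1) ∧
      (∀ s i, (Θ (Polynomial.C s)).snd (Sum.inl i) = (Φ s).snd i) ∧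
      (∀ s i, (Θ (Polynomial.C s)).snd (Sum.inr i) = 0) ∧
      (∀ i, (Θ Polynomial.X).snd (Sum.inl i) = 0) ∧
      (∀ i, (Θ Polynomial.X).snd (Sum.inr i) = 1) := by
  classical
  let ext : (Fin c → L) →ₗ[L] (Fin c ⊕ Fin 1 → L) :=
    { toFun := fun v => Sum.elim v (fun _ => 0)
      map_add' := by
        intro v w
        funext i
        rcases i with i | i <;> simp
      map_smul' := by
        intro a v
        funext i
        rcases i with i | i <;> simp }
  let θ : S →+* TrivSqZeroExt L (Fin c ⊕ Fin 1 → L) :=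
    ((TrivSqZeroExt.map ext : TrivSqZeroExt L (Fin c → L) →ₐ[L]
      TrivSqZeroExt L (Fin c ⊕ Fin 1 → L)) : TrivSqZeroExt L (Fin c → L) →+*
      TrivSqZeroExt L (Fin c ⊕ Fin 1 → L)).comp Φ
  have hθ1 : ∀ s, (θ s).fst = ψ s := by
    intro s
    show (TrivSqZeroExt.map ext (Φ s)).fst = ψ s
    rw [TrivSqZeroExt.fst_map, hΦ1]
  have hθl : ∀ s i, (θ s).snd (Sum.inl i) = (Φ s).snd i := by
    intro s i
    show (TrivSqZeroExt.map ext (Φ s)).snd (Sum.inl i) = _
    rw [TrivSqZeroExt.snd_map]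
    rfl
  have hθr : ∀ s i, (θ s).snd (Sum.inr i) = 0 := by
    intro s i
    show (TrivSqZeroExt.map ext (Φ s)).snd (Sum.inr i) = _
    rw [TrivSqZeroExt.snd_map]
    rfl
  let U : TrivSqZeroExt L (Fin c ⊕ Fin 1 → L) :=
    TrivSqZeroExt.inl z + TrivSqZeroExt.inr (Sum.elim (fun _ => 0) (fun _ => 1))
  have hU1 : U.fst = z := by simp [U]
  have hUl : ∀ i, U.snd (Sum.inl i) = 0 := by intro i; simp [U]
  have hUr : ∀ i, U.snd (Sum.inr i) = 1 := by intro i; simp [U]
  let Θ : Polynomial S →+* TrivSqZeroExt L (Fin c ⊕ Fin 1 → L) := Polynomial.eval₂RingHom θ U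
  have hΘC : ∀ s, Θ (Polynomial.C s) = θ s := fun s => Polynomial.eval₂_C _ _
  have hΘX : Θ Polynomial.X = U := Polynomial.eval₂_X _ _
  have hfst : ∀ p, (Θ p).fst = Polynomial.eval₂ ψ z p := by
    intro p
    have h1 : ((TrivSqZeroExt.fstHom L L (Fin c ⊕ Fin 1 → L) : TrivSqZeroExt L
        (Fin c ⊕ Fin 1 → L) →ₐ[L] L) : TrivSqZeroExt L (Fin c ⊕ Fin 1 → L) →+* L).comp Θ =
        Polynomial.eval₂RingHom ψ z := by
      refine Polynomial.ringHom_ext (fun s => ?_) ?_
      · show (Θ (Polynomial.C s)).fst = _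
        rw [hΘC, hθ1, Polynomial.coe_eval₂RingHom, Polynomial.eval₂_C]
      · show (Θ Polynomial.X).fst = _
        rw [hΘX, hU1, Polynomial.coe_eval₂RingHom, Polynomial.eval₂_X]
    exact RingHom.congr_fun h1 p
  have hev : ∀ p, ‖Polynomial.eval₂ ψ z p‖ ≤ 1 := by
    intro p
    induction p using Polynomial.induction_on' with
    | add p q hp hq =>
      rw [Polynomial.eval₂_add]
      exact (IsUltrametricDist.norm_add_le_max _ _).trans (max_le hp hq)
    | monomial n a =>
      rw [Polynomial.eval₂_monomial, norm_mul, norm_pow]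
      exact mul_le_one₀ (hψ a) (by positivity) (pow_le_one₀ (norm_nonneg _) hz)
  have hXn : ∀ (n : ℕ) i, ‖(Θ (Polynomial.X ^ n)).snd i‖ ≤ 1 := by
    intro n i
    induction n with
    | zero =>
      rw [pow_zero, map_one, TrivSqZeroExt.snd_one, Pi.zero_apply, norm_zero]
      exact zero_le_one
    | succ n ih =>
      rw [pow_succ, map_mul, J6_snd_mul]
      refine (IsUltrametricDist.norm_add_le_max _ _).trans (max_le ?_ ?_)
      · rw [norm_mul, hfst]
        refine mul_le_one₀ (hev _) (norm_nonneg _) ?_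
        rw [hΘX]
        rcases i with i | i
        · rw [hUl, norm_zero]; exact zero_le_one
        · rw [hUr, norm_one]
      · rw [norm_mul, hfst]
        exact mul_le_one₀ (hev _) (norm_nonneg _) ih
  refine ⟨Θ, hfst, ?_, ?_, ?_, ?_, ?_⟩
  · intro p i
    induction p using Polynomial.induction_on' with
    | add p q hp hq =>
      rw [map_add, TrivSqZeroExt.snd_add, Pi.add_apply]
      exact (IsUltrametricDist.norm_add_le_max _ _).trans (max_le hp hq)
    | monomial n a =>
      rw [← Polynomial.C_mul_X_pow_eq_monomial, map_mul, J6_snd_mul]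
      refine (IsUltrametricDist.norm_add_le_max _ _).trans (max_le ?_ ?_)
      · rw [norm_mul, hfst]
        exact mul_le_one₀ (hev _) (norm_nonneg _) (hXn n i)
      · rw [norm_mul, hfst]
        refine mul_le_one₀ (hev _) (norm_nonneg _) ?_
        rw [hΘC]
        rcases i with i | i
        · rw [hθl]; exact hΦ2 _ _
        · rw [hθr, norm_zero]; exact zero_le_one
  · intro s i; rw [hΘC, hθl]
  · intro s i; rw [hΘC, hθr]
  · intro i; rw [hΘX, hUl]
  · intro i; rw [hΘX, hUr]

end Pool.Agent.Lib.MP_3029eb_ag.Imp
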