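import Pool.Agent.Lib.MP_3029eb_ag.ImpExt
import Pool.Agent.Lib.MP_3029eb_ag.AbhA2

/-!
Extension of presentation data to a birational extension generated by one element.
-/

open IsLocalRing

namespace Pool.Agent.Lib.MP_3029eb_ag.Imp
open Pool.Agent.Lib.MP_3029eb_ag
open Pool.Agent.Lib.MP_3029eb_ag.Abh

theorem hasState_ext {K L : Type} [NormedField K] [IsUltrametricDist K] [NormedField L]
    [IsUltrametricDist L] (κ : K →+* L) (hκ : ∀ z, ‖κ z‖ = ‖z‖)
    (A : Subring K) [IsLocalRing A] [IsNoetherianRing A] (hA : A ≤ (ball K).toSubring)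
    (hloc : locV (ball K) A = A)
    (φ : AdicCompletion (maximalIdeal A) A →+* L) (hφ : Dom φ)
    (hφA : ∀ a : A, φ (algebraMap A (AdicCompletion (maximalIdeal A) A) a) = κ (a : K))
    (z : K) (hz : ‖z‖ ≤ 1) (hfr : ∃ a ∈ A, ∃ b ∈ A, b ≠ 0 ∧ z * b = a)
    (A' : Subring K) (hA' : A' = locV (ball K) (Subring.closure ((A : Set K) ∪ {z})))
    [IsLocalRing A'] [IsNoetherianRing A']
    (φ' : AdicCompletion (maximalIdeal A') A' →+* L) (hφ' : Dom φ')
    (hφA' : ∀ a : A', φ' (algebraMap A' (AdicCompletion (maximalIdeal A') A') a) = κ (a : K))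
    (H : WithBot ℕ∞) (ρ ρ' : ℕ)
    (hρ : ρ' = ρ ∨ (ρ = ρ' + 1 ∧ ∀ p : Polynomial A, ‖Polynomial.eval₂ A.subtype z p‖ < 1 →
      ∀ n, ‖((p.coeff n : A) : K)‖ < 1))
    (hst : HasState A φ H ρ) : HasState A' φ' H ρ' := by
  classical
  obtain ⟨S, iS, iSl, iSn, π, c, Φ, f, I, hdomπ, hcov, hdense, hΦ1, hΦ2, hf, hfI, hdet, hcard,
    hI⟩ := hst
  obtain ⟨a0, ha0, b0, hb0, hb00, hzab⟩ := hfr
  have hcl : Subring.closure ((A : Set K) ∪ {z}) ≤ (ball K).toSubring := by
    rw [Subring.closure_le]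
    rintro x (hx | hx)
    · exact hA hx
    · rw [Set.mem_singleton_iff.1 hx]; exact hz
  have hclA' : Subring.closure ((A : Set K) ∪ {z}) ≤ A' := by rw [hA']; exact le_locV _ _
  have hAA' : A ≤ A' := fun a ha => hclA' (Subring.subset_closure (Or.inl ha))
  have hA'b : A' ≤ (ball K).toSubring := by rw [hA']; exact locV_le _ hcl
  have hloc' : locV (ball K) A' = A' := by rw [hA']; exact locV_locV _ _
  have hdomA := dom_subtype A hA hloc
  have hdomA' := dom_subtype A' hA'b hloc'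
  let j : A →+* A' := Subring.inclusion hAA'
  let z' : A' := ⟨z, hclA' (Subring.subset_closure (Or.inr rfl))⟩
  -- the homomorphism of the completions
  let T := AdicCompletion (maximalIdeal A) A
  let T' := AdicCompletion (maximalIdeal A') A'
  let al : A →+* T := algebraMap A T
  let al' : A' →+* T' := algebraMap A' T'
  have hle : maximalIdeal A ≤ (maximalIdeal T').comap (al'.comp j) := by
    intro a ha
    rw [Ideal.mem_comap, (hφ' _).2]
    show ‖φ' (al' (j a))‖ < 1
    rw [hφA', hκ]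
    exact ((hdomA a).2).1 ha
  obtain ⟨τ, -, hτ⟩ := exists_lift_completion' A T' (maximalIdeal T') le_rfl (al'.comp j) hle
  have hτa : ∀ a : A, τ (al a) = al' (j a) := fun a => by rw [← RingHom.comp_apply, hτ]; rfl
  have hφτ : φ'.comp τ = φ := by
    refine completion_hom_ext A _ _ (fun t => (hφ' _).1) (fun t => (hφ t).1) ?_ ?_
    · intro a ha
      show ‖φ' (τ (al a))‖ < 1
      rw [hτa, hφA', hκ]
      exact ((hdomA a).2).1 ha
    · intro a
      show φ' (τ (al a)) = φ (al a)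
      rw [hτa, hφA', hφA]
      rfl
  have hφτ' : ∀ t, φ' (τ t) = φ t := fun t => RingHom.congr_fun hφτ t
  -- the polynomial ring
  let ev : Polynomial S →+* T' := Polynomial.eval₂RingHom (τ.comp π) (al' z')
  have hevC : ∀ s, ev (Polynomial.C s) = τ (π s) := fun s => Polynomial.eval₂_C _ _
  have hevX : ev Polynomial.X = al' z' := Polynomial.eval₂_X _ _
  let 𝔫 : Ideal (Polynomial S) := (maximalIdeal T').comap ev
  have i𝔫 : 𝔫.IsPrime := Ideal.comap_isPrime ev _
  have hmem𝔫 : ∀ p, p ∈ 𝔫 ↔ ‖φ' (ev p)‖ < 1 := fun p => (hφ' (ev p)).2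
  let S' := Localization.AtPrime 𝔫
  have iS'n : IsNoetherianRing S' := IsLocalization.isNoetherianRing 𝔫.primeCompl S' inferInstance
  let lam : Polynomial S →+* S' := algebraMap (Polynomial S) S'
  have hunit : ∀ y : 𝔫.primeCompl, IsUnit (ev y) := by
    intro y
    by_contra hcon
    exact y.2 hcon
  let π' : S' →+* T' := IsLocalization.lift hunit
  have hπ'lam : ∀ p, π' (lam p) = ev p := fun p => IsLocalization.lift_eq hunit p
  have hsurj : ∀ s : S', ∃ (p : Polynomial S) (q : 𝔫.primeCompl), s * lam q = lam p := by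
    intro s
    obtain ⟨⟨p, q⟩, hpq⟩ := IsLocalization.surj 𝔫.primeCompl s
    exact ⟨p, q, hpq⟩
  have hqn : ∀ q : 𝔫.primeCompl, ‖φ' (ev q)‖ = 1 := by
    intro q
    refine le_antisymm (hφ' _).1 (not_lt.1 fun h => ?_)
    exact q.2 ((hmem𝔫 _).2 h)
  have hlamu : ∀ q : 𝔫.primeCompl, IsUnit (lam q) := fun q => IsLocalization.map_units S' q
  have hdom' : ∀ s, s ∈ maximalIdeal S' ↔ ‖φ' (π' s)‖ < 1 := by
    intro s
    obtain ⟨p, q, hpq⟩ := hsurj s
    have h1 : ‖φ' (π' s)‖ = ‖φ' (ev p)‖ := by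
      rw [← hπ'lam p, ← hpq, map_mul, map_mul, norm_mul, hπ'lam, hqn, mul_one]
    have h2 : s ∈ maximalIdeal S' ↔ lam p ∈ maximalIdeal S' := by
      rw [← hpq]
      exact (Ideal.mul_unit_mem_iff_mem _ (hlamu q)).symm
    rw [h2, h1, ← hmem𝔫]
    exact IsLocalization.AtPrime.to_map_mem_maximal_iff S' 𝔫 p
  have hlamn : ∀ q : 𝔫.primeCompl, ‖φ' (π' (lam q))‖ = 1 := fun q => by rw [hπ'lam]; exact hqn q
  -- the image contains `A'`
  have hclp : ∀ x ∈ Subring.closure ((A : Set K) ∪ {z}), ∃ p : Polynomial S,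
      ∀ hx : x ∈ A', ev p = al' ⟨x, hx⟩ := by
    intro x hx
    induction hx using Subring.closure_induction with
    | mem x hx =>
      rcases hx with hx | hx
      · obtain ⟨s, hs⟩ := hcov ⟨x, hx⟩
        refine ⟨Polynomial.C s, fun hx' => ?_⟩
        rw [hevC, hs]
        exact hτa ⟨x, hx⟩
      · refine ⟨Polynomial.X, fun hx' => ?_⟩
        rw [hevX]
        congr 1
        exact Subtype.ext (Set.mem_singleton_iff.1 hx).symm
    | zero => exact ⟨0, fun hx => by rw [map_zero]; exact (map_zero al').symm⟩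
    | one => exact ⟨1, fun hx => by rw [map_one]; exact (map_one al').symm⟩
    | add x y hx hy ihx ihy =>
      obtain ⟨p, hp⟩ := ihx
      obtain ⟨q, hq⟩ := ihy
      refine ⟨p + q, fun hxy => ?_⟩
      rw [map_add, hp (hclA' hx), hq (hclA' hy), ← map_add]
      rfl
    | neg x hx ihx =>
      obtain ⟨p, hp⟩ := ihx
      refine ⟨-p, fun hxy => ?_⟩
      rw [map_neg, hp (hclA' hx), ← map_neg]
      rfl
    | mul x y hx hy ihx ihy =>
      obtain ⟨p, hp⟩ := ihx
      obtain ⟨q, hq⟩ := ihy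
      refine ⟨p * q, fun hxy => ?_⟩
      rw [map_mul, hp (hclA' hx), hq (hclA' hy), ← map_mul]
      rfl
  have hcov' : ∀ a : A', ∃ s, π' s = al' a := by
    rintro ⟨a, ha⟩
    have ha1 : a ∈ locV (ball K) (Subring.closure ((A : Set K) ∪ {z})) := by rw [← hA']; exact ha
    obtain ⟨x, hx, y, hy, hy1, hay⟩ := ha1
    obtain ⟨p, hp⟩ := hclp x hx
    obtain ⟨q, hq⟩ := hclp y hy
    have hyn : ‖y‖ = 1 := (ball_val_eq_one y).1 hy1
    have hqn' : q ∉ 𝔫 := by
      rw [hmem𝔫, hq (hclA' hy), hφA', hκ, not_lt]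
      exact hyn.ge
    obtain ⟨w, hw⟩ := (hlamu ⟨q, hqn'⟩).exists_right_inv
    refine ⟨lam p * w, ?_⟩
    have h1 : al' ⟨y, hclA' hy⟩ * π' w = 1 := by
      rw [← hq (hclA' hy), ← hπ'lam, ← map_mul, hw, map_one]
    have h2 : al' ⟨x, hclA' hx⟩ = al' ⟨a, ha⟩ * al' ⟨y, hclA' hy⟩ := by
      rw [← map_mul]
      congr 1
      exact Subtype.ext hay.symm
    rw [map_mul, hπ'lam, hp (hclA' hx), h2, mul_assoc, h1, mul_one]
  -- density
  have hmapm : (maximalIdeal S).map (lam.comp Polynomial.C) ≤ maximalIdeal S' := by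
    rw [Ideal.map_le_iff_le_comap]
    intro s hs
    rw [Ideal.mem_comap, hdom', RingHom.comp_apply, hπ'lam, hevC, hφτ']
    exact (hdomπ s).1 hs
  have hmapm2 : ∀ s ∈ maximalIdeal S ^ 2, lam (Polynomial.C s) ∈ maximalIdeal S' ^ 2 := by
    intro s hs
    have h1 := Ideal.mem_map_of_mem (lam.comp Polynomial.C) hs
    rw [Ideal.map_pow] at h1
    exact Ideal.pow_right_mono hmapm 2 h1
  let D : T' → Prop := fun t => ∃ a : A', ∃ s' ∈ maximalIdeal S' ^ 2, t = al' a + π' s'
  have hDadd : ∀ t1 t2, D t1 → D t2 → D (t1 + t2) := by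
    rintro t1 t2 ⟨a1, s1, hs1, rfl⟩ ⟨a2, s2, hs2, rfl⟩
    refine ⟨a1 + a2, s1 + s2, add_mem hs1 hs2, ?_⟩
    rw [map_add, map_add]; ring
  have hDmul : ∀ t1 t2, D t1 → D t2 → D (t1 * t2) := by
    rintro t1 t2 ⟨a1, s1, hs1, rfl⟩ ⟨a2, s2, hs2, rfl⟩
    obtain ⟨b1, hb1⟩ := hcov' a1
    obtain ⟨b2, hb2⟩ := hcov' a2
    refine ⟨a1 * a2, b1 * s2 + b2 * s1 + s1 * s2, add_mem (add_mem (Ideal.mul_mem_left _ _ hs2)
      (Ideal.mul_mem_left _ _ hs1)) (Ideal.mul_mem_left _ _ hs2), ?_⟩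
    rw [map_add, map_add, map_mul, map_mul, map_mul, map_mul, hb1, hb2]; ring
  have hDal : ∀ a : A', D (al' a) := fun a => ⟨a, 0, zero_mem _, by rw [map_zero, add_zero]⟩
  have hDC : ∀ s, D (τ (π s)) := by
    intro s
    obtain ⟨a, s', hs', hs⟩ := hdense s
    refine ⟨j a, lam (Polynomial.C s'), hmapm2 s' hs', ?_⟩
    rw [hs, map_add, hπ'lam, hevC]
    congr 1
    exact hτa a
  have hDev : ∀ p, D (ev p) := by
    intro p
    induction p using Polynomial.induction_on' with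
    | add p q hp hq => rw [map_add]; exact hDadd _ _ hp hq
    | monomial n a =>
      rw [← Polynomial.C_mul_X_pow_eq_monomial, map_mul, hevC, map_pow, hevX, ← map_pow]
      exact hDmul _ _ (hDC a) (hDal _)
  have hdense' : ∀ s : S', ∃ a : A', ∃ s' ∈ maximalIdeal S' ^ 2, π' s = al' a + π' s' := by
    intro s
    obtain ⟨p, q, hpq⟩ := hsurj s
    obtain ⟨w, hw⟩ := (hlamu q).exists_right_inv
    have h1 : s = lam p * w := by rw [← hpq, mul_assoc, hw, mul_one]
    obtain ⟨a, e, he, hae⟩ := hDev (q : Polynomial S)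
    have hem : ‖φ' (π' e)‖ < 1 := (hdom' e).1 (Ideal.pow_le_self two_ne_zero he)
    have han : ‖(a : K)‖ = 1 := by
      have h2 : φ' (al' a) = φ' (ev q) - φ' (π' e) := by rw [hae, map_add]; ring
      have h3 : ‖φ' (al' a)‖ = 1 := by
        rw [h2, sub_eq_add_neg, IsUltrametricDist.norm_add_eq_max_of_norm_ne_norm, norm_neg, hqn,
          max_eq_left hem.le]
        rw [norm_neg, hqn]
        exact hem.ne'
      rw [hφA', hκ] at h3
      exact h3
    have ha0 : (a : K) ≠ 0 := by rw [← norm_ne_zero_iff, han]; exact one_ne_zero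
    have hai : (a : K)⁻¹ ∈ A' := by
      have h0 : (a : K)⁻¹ ∈ locV (ball K) A' :=
        ⟨1, A'.one_mem, a, a.2, (ball_val_eq_one _).2 han, inv_mul_cancel₀ ha0⟩
      rw [hloc'] at h0
      exact h0
    obtain ⟨b, hb⟩ := hcov' ⟨_, hai⟩
    have h4 : al' ⟨_, hai⟩ * al' a = 1 := by
      rw [← map_mul, ← map_one al']
      congr 1
      exact Subtype.ext (inv_mul_cancel₀ ha0)
    have h5 : ev q * π' w = 1 := by rw [← hπ'lam, ← map_mul, hw, map_one]
    have hDw : D (π' w) := by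
      refine ⟨⟨_, hai⟩, -(b * w) * e, Ideal.mul_mem_left _ _ he, ?_⟩
      rw [map_mul, map_neg, map_mul, hb]
      have h6 : (al' a + π' e) * π' w = 1 := by rw [← hae]; exact h5
      have h7 : al' ⟨_, hai⟩ = al' ⟨_, hai⟩ * ((al' a + π' e) * π' w) := by rw [h6, mul_one]
      have h8 : π' w = (al' ⟨_, hai⟩ * al' a) * π' w := by rw [h4, one_mul]
      calc π' w = (al' ⟨_, hai⟩ * al' a) * π' w := h8
        _ = al' ⟨_, hai⟩ * ((al' a + π' e) * π' w) + -(al' ⟨_, hai⟩ * π' w) * π' e := by ring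
        _ = _ := by rw [← h7]
    rw [h1, map_mul, hπ'lam]
    exact hDmul _ _ (hDev p) hDw
  -- the derivations
  have hψ1 : ∀ s, ‖(φ.comp π) s‖ ≤ 1 := fun s => (hφ (π s)).1
  obtain ⟨Θ, hΘ1, hΘ2, hΘCl, hΘCr, hΘXl, hΘXr⟩ := ext_Phi (φ.comp π) Φ hΦ1 hψ1 hΦ2 (κ z)
    (by rw [hκ]; exact hz)
  have hΘev : ∀ p, (Θ p).fst = φ' (ev p) := by
    intro p
    rw [hΘ1]
    show _ = φ' (Polynomial.eval₂ (τ.comp π) (al' z') p)
    rw [Polynomial.hom_eval₂, hφA', ← RingHom.comp_assoc, hφτ]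
  have hΘu : ∀ y : 𝔫.primeCompl, IsUnit (Θ y) := by
    intro y
    rw [TrivSqZeroExt.isUnit_iff_isUnit_fst, isUnit_iff_ne_zero, hΘev, ← norm_ne_zero_iff, hqn]
    exact one_ne_zero
  let Φ' : S' →+* TrivSqZeroExt L (Fin c ⊕ Fin 1 → L) := IsLocalization.lift hΘu
  have hΦ'lam : ∀ p, Φ' (lam p) = Θ p := fun p => IsLocalization.lift_eq hΘu p
  have hΦ'1 : ∀ s, (Φ' s).fst = φ' (π' s) := by
    intro s
    obtain ⟨p, q, hpq⟩ := hsurj s
    have h1 : (Φ' s).fst * (Θ q).fst = (Θ p).fst := by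
      rw [← TrivSqZeroExt.fst_mul, ← hΦ'lam, ← map_mul, hpq, hΦ'lam]
    have h2 : φ' (π' s) * φ' (ev q) = φ' (ev p) := by
      rw [← map_mul, ← hπ'lam, ← map_mul, hpq, hπ'lam]
    have h3 : φ' (ev q) ≠ 0 := by rw [← norm_ne_zero_iff, hqn]; exact one_ne_zero
    rw [hΘev, hΘev, ← h2] at h1
    exact mul_right_cancel₀ h3 h1
  have hΦ'2 : ∀ s i, ‖(Φ' s).snd i‖ ≤ 1 := by
    intro s i
    obtain ⟨p, q, hpq⟩ := hsurj s
    have h1 : Φ' s * Θ q = Θ p := by rw [← hΦ'lam, ← map_mul, hpq, hΦ'lam]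
    have h2 : (Φ' s * Θ q).snd i = (Θ p).snd i := by rw [h1]
    rw [J6_snd_mul] at h2
    have h3 : (Θ q).fst * (Φ' s).snd i = (Θ p).snd i - (Φ' s).fst * (Θ q).snd i := by
      rw [← h2]; ring
    have h4 : ‖(Φ' s).snd i‖ = ‖(Θ q).fst * (Φ' s).snd i‖ := by
      rw [norm_mul, hΘev, hqn, one_mul]
    rw [h4, h3, sub_eq_add_neg]
    refine (IsUltrametricDist.norm_add_le_max _ _).trans (max_le (hΘ2 _ _) ?_)
    rw [norm_neg, norm_mul, hΦ'1]
    exact mul_le_one₀ (hφ' _).1 (norm_nonneg _) (hΘ2 _ _)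
  -- the new relation
  obtain ⟨sa, hsa⟩ := hcov ⟨a0, ha0⟩
  obtain ⟨sb, hsb⟩ := hcov ⟨b0, hb0⟩
  let f' : Fin c ⊕ Fin 1 → S' := Sum.elim (fun i => lam (Polynomial.C (f i)))
    (fun _ => lam (Polynomial.C sb * Polynomial.X - Polynomial.C sa))
  have hπf : ∀ i, π' (f' (Sum.inl i)) = τ (π (f i)) := by
    intro i
    show π' (lam (Polynomial.C (f i))) = _
    rw [hπ'lam, hevC]
  have hπf2 : ∀ i, π' (f' (Sum.inr i)) = 0 := by
    intro i
    show π' (lam (Polynomial.C sb * Polynomial.X - Polynomial.C sa)) = 0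
    rw [hπ'lam, map_sub, map_mul, hevC, hevC, hevX, hsa, hsb, hτa, hτa, ← map_mul, ← map_sub]
    have h1 : j ⟨b0, hb0⟩ * z' - j ⟨a0, ha0⟩ = 0 := by
      apply Subtype.ext
      show b0 * z - a0 = 0
      rw [← hzab]; ring
    rw [h1, map_zero]
  refine HasState.of_fintype A' φ' H ρ' S' π' (Fin c ⊕ Fin 1) Φ' f'
    (I.map Function.Embedding.inl) hdom' hcov' hdense' hΦ'1 hΦ'2 ?_ ?_ ?_ ?_ ?_
  · rintro (i | i)
    · rw [hπf, hφτ']; exact hf i
    · rw [hπf2, map_zero]
  · rintro (i | i) hi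
    · rw [hπf, hfI i (fun h => hi (Finset.mem_map_of_mem _ h)), map_zero]
    · exact hπf2 i
  · have hmat : (Matrix.of fun i j => (Φ' (f' i)).snd j) =
        Matrix.fromBlocks (Matrix.of fun i j => (Φ (f i)).snd j) 0
          (Matrix.of fun (i : Fin 1) j => (Φ' (f' (Sum.inr i))).snd (Sum.inl j))
          (Matrix.of fun (_ _ : Fin 1) => κ b0) := by
      ext i k
      rcases i with i | i
      · have h1 : Φ' (f' (Sum.inl i)) = Θ (Polynomial.C (f i)) := hΦ'lam _
        rcases k with k | k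
        · rw [Matrix.of_apply, h1, hΘCl, Matrix.fromBlocks_apply₁₁, Matrix.of_apply]
        · rw [Matrix.of_apply, h1, hΘCr, Matrix.fromBlocks_apply₁₂, Matrix.zero_apply]
      · rcases k with k | k
        · rw [Matrix.of_apply, Matrix.fromBlocks_apply₂₁, Matrix.of_apply]
        · have h1 : Φ' (f' (Sum.inr i)) =
              Θ (Polynomial.C sb * Polynomial.X - Polynomial.C sa) := hΦ'lam _
          have h2 : (Θ (Polynomial.C sb)).fst = κ b0 := by
            rw [hΘ1, Polynomial.eval₂_C, RingHom.comp_apply, hsb, hφA]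
          rw [Matrix.of_apply, h1, Matrix.fromBlocks_apply₂₂, Matrix.of_apply, map_sub, map_mul,
            TrivSqZeroExt.snd_sub, Pi.sub_apply, J6_snd_mul, hΘCr, hΘCr, hΘXr, h2]
          ring
    rw [hmat, Matrix.det_fromBlocks_zero₁₂]
    refine mul_ne_zero hdet ?_
    rw [Matrix.det_fin_one, Matrix.of_apply, Ne, map_eq_zero]
    exact hb00
  · have hle𝔫 : (maximalIdeal S).map Polynomial.C ≤ 𝔫 := by
      rw [Ideal.map_le_iff_le_comap]
      intro s hs
      rw [Ideal.mem_comap, hmem𝔫, hevC, hφτ']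
      exact (hdomπ s).1 hs
    rw [Fintype.card_sum, Fintype.card_fin, Fintype.card_fin]
    rcases hρ with rfl | ⟨rfl, htr⟩
    · have h1 := ext_gens S 𝔫 hle𝔫
      change (maximalIdeal S').spanFinrank ≤ _ at h1
      omega
    · have h1 : 𝔫 = (maximalIdeal S).map Polynomial.C := by
        refine le_antisymm ?_ hle𝔫
        intro p hp
        rw [Ideal.mem_map_C_iff]
        intro n
        -- approximate the coefficients
        choose a s' hs' has using fun n => hdense (p.coeff n)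
        let pa : Polynomial A := ∑ n ∈ p.support, Polynomial.monomial n (a n)
        have h2 : Polynomial.eval₂ A.subtype z pa = ∑ n ∈ p.support, (a n : K) * z ^ n := by
          rw [Polynomial.eval₂_finsetSum]
          exact Finset.sum_congr rfl fun n _ => Polynomial.eval₂_monomial _ _
        have h3 : φ' (ev p) = ∑ n ∈ p.support, φ (π (p.coeff n)) * κ z ^ n := by
          rw [← hΘev, hΘ1, Polynomial.eval₂_eq_sum, Polynomial.sum]
          rfl
        have h4 : ∀ n, ‖φ (π (s' n))‖ < 1 := fun n =>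
          (hdomπ _).1 (Ideal.pow_le_self two_ne_zero (hs' n))
        have h5 : κ (Polynomial.eval₂ A.subtype z pa) = φ' (ev p) +
            -∑ n ∈ p.support, φ (π (s' n)) * κ z ^ n := by
          rw [h2, h3, map_sum, ← sub_eq_add_neg, ← Finset.sum_sub_distrib]
          refine Finset.sum_congr rfl fun n _ => ?_
          rw [has n, map_add, hφA, map_mul, map_pow]
          ring
        have h6 : ‖Polynomial.eval₂ A.subtype z pa‖ < 1 := by
          rw [← hκ, h5]
          refine (IsUltrametricDist.norm_add_le_max _ _).trans_lt (max_lt ((hmem𝔫 p).1 hp) ?_)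
          rw [norm_neg]
          have h7 : ∀ (s : Finset ℕ) (g : ℕ → L), (∀ n, ‖g n‖ < 1) → ‖∑ n ∈ s, g n‖ < 1 := by
            intro s g hg
            induction s using Finset.induction_on with
            | empty => rw [Finset.sum_empty, norm_zero]; exact one_pos
            | insert n s hn ih =>
              rw [Finset.sum_insert hn]
              exact (IsUltrametricDist.norm_add_le_max _ _).trans_lt (max_lt (hg n) ih)
          refine h7 _ _ fun n => ?_
          rw [norm_mul, norm_pow, hκ]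
          exact (mul_le_of_le_one_right (norm_nonneg _)
            (pow_le_one₀ (norm_nonneg _) hz)).trans_lt (h4 n)
        have h8 := htr pa h6 n
        by_cases hn : n ∈ p.support
        · have h9 : pa.coeff n = a n := by
            simp only [pa, Polynomial.finsetSum_coeff, Polynomial.coeff_monomial]
            rw [Finset.sum_ite_eq' p.support n a, if_pos hn]
          rw [h9] at h8
          rw [hdomπ, has n, map_add, hφA]
          refine (IsUltrametricDist.norm_add_le_max _ _).trans_lt (max_lt ?_ (h4 n))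
          rw [hκ]; exact h8
        · rw [Polynomial.notMem_support_iff.1 hn]
          exact zero_mem _
      have h2 := ext_gens_tr S 𝔫 h1
      change (maximalIdeal S').spanFinrank ≤ _ at h2
      omega
  · rw [Finset.card_map]; exact hI

end Pool.Agent.Lib.MP_3029eb_ag.Imp
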