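import Pool.Agent.Lib.MP_3029eb_ag.ImpState
import Pool.Agent.Lib.MP_3029eb_ag.AbhJ4

/-!
Presentation data for a local ring and an embedding of (a quotient of) its completion in a
complete field.
-/

open IsLocalRing

namespace Pool.Agent.Lib.MP_3029eb_ag.Imp
open Pool.Agent.Lib.MP_3029eb_ag
open Pool.Agent.Lib.MP_3029eb_ag.Abh

/-- Presentation data: a noetherian local ring `S` over the completion of `A` with dense image
containing `A`, bounded derivations of `S` (given by `Φ`), elements `f i` of the kernel of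
`S → L` with nonzero Jacobian determinant, all of which but at most `H` are in the kernel of
`S → A^`, and the maximal ideal of `S` has `c + ρ` generators. -/
def HasState {K L : Type} [NormedField K] [NormedField L] (A : Subring K) [IsLocalRing A]
    (φ : AdicCompletion (maximalIdeal A) A →+* L) (H : WithBot ℕ∞) (ρ : ℕ) : Prop :=
  ∃ (S : Type) (_ : CommRing S) (_ : IsLocalRing S) (_ : IsNoetherianRing S)
    (π : S →+* AdicCompletion (maximalIdeal A) A) (c : ℕ)
    (Φ : S →+* TrivSqZeroExt L (Fin c → L)) (f : Fin c → S) (I : Finset (Fin c)),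
    (∀ s, s ∈ maximalIdeal S ↔ ‖φ (π s)‖ < 1) ∧
    (∀ a : A, ∃ s, π s = algebraMap A (AdicCompletion (maximalIdeal A) A) a) ∧
    (∀ s : S, ∃ a : A, ∃ s' ∈ maximalIdeal S ^ 2,
      π s = algebraMap A (AdicCompletion (maximalIdeal A) A) a + π s') ∧
    (∀ s, (Φ s).fst = φ (π s)) ∧ (∀ s i, ‖(Φ s).snd i‖ ≤ 1) ∧
    (∀ i, φ (π (f i)) = 0) ∧ (∀ i, i ∉ I → π (f i) = 0) ∧
    (Matrix.of fun i j => (Φ (f i)).snd j).det ≠ 0 ∧
    (maximalIdeal S).spanFinrank ≤ c + ρ ∧ (I.card : WithBot ℕ∞) ≤ H

/-- the initial presentation -/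
theorem hasState_init {K L : Type} [NormedField K] [NontriviallyNormedField L]
    [IsUltrametricDist L] (A : Subring K) [IsLocalRing A] [IsNoetherianRing A]
    (φ : AdicCompletion (maximalIdeal A) A →+* L) (hφ : Dom φ)
    (hchar : ∀ n : ℕ, φ (n : AdicCompletion (maximalIdeal A) A) = 0 →
      (n : AdicCompletion (maximalIdeal A) A) = 0)
    [(RingHom.ker φ).IsPrime] (hreg : IsRegularLocalRing (Localization.AtPrime (RingHom.ker φ)))
    {r : ℕ}
    (hdim : ringKrullDim (AdicCompletion (maximalIdeal A) A ⧸ RingHom.ker φ) ≤ r) :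
    HasState A φ (ringKrullDim (Localization.AtPrime (RingHom.ker φ))) r := by
  have iTn : IsNoetherianRing (AdicCompletion (maximalIdeal A) A) := noetherian_adicCompletion A
  obtain ⟨S, iS, iSr, π, c, Φ, f, I, hπ, h1, h2, h3, h4, h5, h6, h7⟩ :=
    exists_state_gen (AdicCompletion (maximalIdeal A) A) φ hφ hchar hreg hdim
  have hlocπ : IsLocalHom π := hπ.isLocalHom
  refine ⟨S, iS, inferInstance, inferInstance, π, c, Φ, f, I, ?_, fun a => hπ _, ?_, h1, h2, h3,
    h4, h5, h6, h7⟩
  · intro s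
    rw [← (hφ (π s)).2, mem_maximalIdeal, mem_maximalIdeal, mem_nonunits_iff, mem_nonunits_iff,
      isUnit_map_iff]
  · intro s
    obtain ⟨a, -, ha⟩ := (sameCompletion_adicCompletion A).approxN 0 2 (t := π s) (by
      rw [pow_zero, Ideal.one_eq_top]; trivial)
    rw [Nat.zero_add] at ha
    obtain ⟨s', hs', hs''⟩ := exists_lift_pow hπ 2 ha
    exact ⟨a, s', hs', by rw [hs'']; ring⟩

/-- choice of generators -/
theorem adjust_gens_st (A : Type) [CommRing A] [IsLocalRing A] [IsNoetherianRing A]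
    (S : Type) [CommRing S] [IsLocalRing S] [IsNoetherianRing S]
    (π : S →+* AdicCompletion (maximalIdeal A) A)
    (hπ : ∀ s : S, ∃ a : A, ∃ s' ∈ maximalIdeal S ^ 2,
      π s = algebraMap A (AdicCompletion (maximalIdeal A) A) a + π s')
    (ι : Type) [Fintype ι] (hι : (maximalIdeal S).spanFinrank ≤ Fintype.card ι) :
    ∃ (Z : ι → S) (z : ι → A), Ideal.span (Set.range Z) = maximalIdeal S ∧
      ∀ j, π (Z j) = algebraMap A (AdicCompletion (maximalIdeal A) A) (z j) := by
  classical
  obtain ⟨Z0, hZ0⟩ := J4_exists_gens S ι hι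
  have hZm : ∀ j, Z0 j ∈ maximalIdeal S := fun j => by
    rw [← hZ0]; exact Ideal.subset_span ⟨j, rfl⟩
  choose z s hs hz using fun j => hπ (Z0 j)
  refine ⟨fun j => Z0 j - s j, z, ?_, fun j => ?_⟩
  · apply le_antisymm
    · rw [Ideal.span_le]
      rintro _ ⟨j, rfl⟩
      exact sub_mem (hZm j) (Ideal.pow_le_self two_ne_zero (hs j))
    · refine Submodule.le_of_le_smul_of_le_jacobson_bot (I := maximalIdeal S)
        (IsNoetherian.noetherian (maximalIdeal S)) (IsLocalRing.maximalIdeal_le_jacobson _) ?_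
      conv_lhs => rw [← hZ0]
      refine Ideal.span_le.2 ?_
      rintro _ ⟨j, rfl⟩
      have e3 : Z0 j = (Z0 j - s j) + s j := by ring
      rw [e3]
      refine Submodule.add_mem_sup (Ideal.subset_span ⟨j, rfl⟩) ?_
      have h3 := hs j
      rw [pow_two] at h3
      exact h3
  · rw [map_sub, hz j, add_sub_cancel_right]

end Pool.Agent.Lib.MP_3029eb_ag.Imp
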