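import Pool.Agent.Lib.MP_3029eb_ag.AbhA2
import Pool.Agent.Lib.MP_3029eb_ag.AbhS13
import Pool.Agent.Lib.MP_3029eb_ag.ImpDim

/-!
Module IMP-RED : the dimension of the completion modulo the implicit prime after adjoining
finitely many elements, among them elements with independent residues.
-/

open IsLocalRing

namespace Pool.Agent.Lib.MP_3029eb_ag.Imp

open Pool.Agent.Lib.MP_3029eb_ag Pool.Agent.Lib.MP_3029eb_ag.Abh

theorem IR_sub_lt {L : Type} [NormedField L] [IsUltrametricDist L] {a b : L} {q : ℝ}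
    (ha : ‖a‖ < q) (hb : ‖b‖ < q) : ‖a - b‖ < q := by
  rw [sub_eq_add_neg]
  refine (IsUltrametricDist.norm_add_le_max _ _).trans_lt (max_lt ha ?_)
  rwa [norm_neg]

section Range

variable {T L : Type} [CommRing T] [IsLocalRing T] [NormedField L] [IsUltrametricDist L]
  (φ : T →+* L) (hφ : Dom φ)

include hφ

theorem IR_range_le : φ.range ≤ (ball L).toSubring := by
  rintro _ ⟨t, rfl⟩
  exact (hφ t).1

omit [IsUltrametricDist L] in
theorem IR_inv_mem {z : L} (hz : z ∈ φ.range) (h : ‖z‖ = 1) : z⁻¹ ∈ φ.range := by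
  obtain ⟨t, rfl⟩ := hz
  obtain ⟨v, hv⟩ := ((ID_isUnit_iff hφ t).2 h).exists_right_inv
  refine ⟨v, ?_⟩
  have h1 : φ t * φ v = 1 := by rw [← map_mul, hv, map_one]
  exact eq_inv_of_mul_eq_one_right h1

theorem IR_locV_le {B : Subring L} (hB : B ≤ φ.range) : locV (ball L) B ≤ φ.range := by
  rintro z ⟨a, ha, b, hb, hb1, hz⟩
  have h1 : ‖b‖ = 1 := (J7_val_one_iff b).1 hb1
  have hb0 : b ≠ 0 := by
    rintro rfl
    rw [norm_zero] at h1
    exact zero_ne_one h1
  have h2 : z = a * b⁻¹ := by rw [← hz, mul_assoc, mul_inv_cancel₀ hb0, mul_one]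
  rw [h2]
  exact mul_mem (hB ha) (IR_inv_mem φ hφ (hB hb) h1)

theorem IR_locV_eq : locV (ball L) φ.range = φ.range :=
  le_antisymm (IR_locV_le φ hφ le_rfl) (le_locV _ _)

end Range

/-- approximation by elements of `A` -/
theorem IR_approx {A T : Type} [CommRing A] [IsLocalRing A] [CommRing T] [IsLocalRing T]
    (ι : A →+* T) (hι : SameCompletion ι) (t : T) (k : ℕ) :
    ∃ a : A, t - ι a ∈ maximalIdeal T ^ k := by
  induction k with
  | zero => exact ⟨0, by rw [pow_zero, Ideal.one_eq_top]; trivial⟩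
  | succ k ih =>
    obtain ⟨a, ha⟩ := ih
    obtain ⟨r, _, hr⟩ := hι.approx k _ ha
    refine ⟨a + r, ?_⟩
    have h1 : t - ι (a + r) = t - ι a - ι r := by rw [map_add]; ring
    rw [h1]
    exact hr

/-- the values of the completion of `A` are values of a complete ring over `A` -/
theorem IR_range_mono {A T T' L : Type} [CommRing A] [IsLocalRing A]
    [CommRing T] [IsLocalRing T] [IsNoetherianRing T] [CommRing T']
    [IsLocalRing T'] [IsNoetherianRing T'] [IsAdicComplete (maximalIdeal T') T']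
    [NormedField L] [IsUltrametricDist L] (ι : A →+* T) (hι : SameCompletion ι)
    (κ : A →+* T') (hκ : ∀ a ∈ maximalIdeal A, κ a ∈ maximalIdeal T')
    (φ : T →+* L) (hφ : Dom φ) (φ' : T' →+* L) (hφ' : Dom φ')
    (h : ∀ a, φ (ι a) = φ' (κ a)) : φ.range ≤ φ'.range := by
  rintro _ ⟨t, rfl⟩
  choose f hf using fun k => IR_approx ι hι t k
  have hκk : ∀ k, ∀ a ∈ maximalIdeal A ^ k, κ a ∈ maximalIdeal T' ^ k := by
    intro k a ha
    have h1 : (maximalIdeal A ^ k).map κ ≤ maximalIdeal T' ^ k := by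
      rw [Ideal.map_pow]
      exact Ideal.pow_right_mono (Ideal.map_le_iff_le_comap.2 hκ) k
    exact h1 (Ideal.mem_map_of_mem _ ha)
  have hcauchy : ∀ {m n : ℕ}, m ≤ n → κ (f m) ≡ κ (f n)
      [SMOD (maximalIdeal T' ^ m • ⊤ : Submodule T' T')] := by
    intro m n hmn
    rw [SModEq.sub_mem, smul_eq_mul, Ideal.mul_top, ← map_sub]
    apply hκk
    apply hι.comap_pow
    have h1 : ι (f m - f n) = (t - ι (f n)) - (t - ι (f m)) := by rw [map_sub]; ring
    rw [h1]
    exact sub_mem (Ideal.pow_le_pow_right hmn (hf n)) (hf m)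
  obtain ⟨t', ht'⟩ := IsPrecomplete.prec' (I := maximalIdeal T') (M := T') (fun k => κ (f k))
    hcauchy
  refine ⟨t', ?_⟩
  obtain ⟨q, hq0, hq1, hq⟩ := S13_pow_norm φ hφ
  obtain ⟨p, hp0, hp1, hp⟩ := S13_pow_norm φ' hφ'
  by_contra hne
  have hd : 0 < ‖φ' t' - φ t‖ := norm_pos_iff.2 (sub_ne_zero.2 hne)
  obtain ⟨k1, hk1⟩ := exists_pow_lt_of_lt_one hd hq1
  obtain ⟨k2, hk2⟩ := exists_pow_lt_of_lt_one hd hp1
  have e1 : ‖φ (t - ι (f (max k1 k2)))‖ < ‖φ' t' - φ t‖ :=
    ((hq _ _ (hf _)).trans (pow_le_pow_of_le_one hq0 hq1.le (le_max_left _ _))).trans_lt hk1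
  have e2 : ‖φ' (t' - κ (f (max k1 k2)))‖ < ‖φ' t' - φ t‖ := by
    have h1 := ht' (max k1 k2)
    rw [SModEq.sub_mem, smul_eq_mul, Ideal.mul_top] at h1
    have h2 : t' - κ (f (max k1 k2)) ∈ maximalIdeal T' ^ (max k1 k2) := by
      rw [← neg_sub]
      exact neg_mem h1
    exact ((hp _ _ h2).trans (pow_le_pow_of_le_one hp0 hp1.le (le_max_right _ _))).trans_lt hk2
  have e3 := IR_sub_lt e2 e1
  rw [map_sub, map_sub, h] at e3
  have e4 : φ' t' - φ' (κ (f (max k1 k2))) - (φ t - φ' (κ (f (max k1 k2)))) = φ' t' - φ t := by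
    ring
  rw [e4] at e3
  exact lt_irrefl _ e3

/-- residual independence passes to the completion -/
theorem IR_resIndep {K : Type} [NormedField K] [IsUltrametricDist K] (A : Subring K)
    [IsLocalRing A] {L : Type} [NormedField L] [IsUltrametricDist L] (τ : K →+* L)
    (hτ : ∀ z, ‖τ z‖ = ‖z‖) (T : Type) [CommRing T] [IsLocalRing T] [IsNoetherianRing T]
    (ι : A →+* T) (hι : SameCompletion ι) (φ : T →+* L) (hφ : Dom φ)
    (hφι : ∀ a : A, φ (ι a) = τ a) {s : ℕ} (y : Fin s → K) (hy : ∀ i, ‖y i‖ ≤ 1)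
    (hres : ResIndep (ball K) A y) : ResIndep (ball L) φ.range (fun i => τ (y i)) := by
  classical
  intro p hp m
  rw [ID_lt_iff] at hp ⊢
  have happ : ∀ d : φ.range, ∃ a : A, ‖(d : L) - τ a‖ < 1 := by
    rintro ⟨_, t, rfl⟩
    obtain ⟨a, ha⟩ := ID_approx ι hι t
    refine ⟨a, ?_⟩
    have h1 : t - ι a ∈ maximalIdeal T := (Ideal.map_le_iff_le_comap.2 hι.map_mem) ha
    have h2 := ((hφ _).2).1 h1
    rwa [map_sub, hφι] at h2
  choose α hα using happ
  let q : MvPolynomial (Fin s) A :=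
    ∑ n ∈ p.support, MvPolynomial.monomial n (α (MvPolynomial.coeff n p))
  have hq : ∀ n ∈ p.support, MvPolynomial.coeff n q = α (MvPolynomial.coeff n p) := by
    intro n hn
    simp only [q, MvPolynomial.coeff_sum, MvPolynomial.coeff_monomial]
    rw [Finset.sum_ite_eq' p.support n, if_pos hn]
  have hqe : MvPolynomial.eval₂ A.subtype y q =
      ∑ n ∈ p.support, ((α (MvPolynomial.coeff n p) : A) : K) * ∏ i, y i ^ n i := by
    simp only [q, MvPolynomial.eval₂_sum, MvPolynomial.eval₂_monomial]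
    refine Finset.sum_congr rfl fun n _ => ?_
    rw [Finsupp.prod_fintype _ _ (fun i => pow_zero _)]
    rfl
  have heval : ‖MvPolynomial.eval₂ φ.range.subtype (fun i => τ (y i)) p -
      τ (MvPolynomial.eval₂ A.subtype y q)‖ < 1 := by
    rw [MvPolynomial.eval₂_eq', hqe, map_sum, ← Finset.sum_sub_distrib]
    apply S12_norm_sum_lt _ _ _ zero_lt_one
    intro n _
    have h1 : φ.range.subtype (MvPolynomial.coeff n p) * ∏ i, τ (y i) ^ n i -
        τ (((α (MvPolynomial.coeff n p) : A) : K) * ∏ i, y i ^ n i) =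
        (((MvPolynomial.coeff n p : φ.range) : L) - τ (α (MvPolynomial.coeff n p))) *
          ∏ i, τ (y i) ^ n i := by
      rw [map_mul, map_prod]
      simp only [map_pow, Subring.subtype_apply]
      ring
    rw [h1, norm_mul]
    have h2 : ‖∏ i, τ (y i) ^ n i‖ ≤ 1 := by
      rw [norm_prod]
      refine Finset.prod_le_one (fun i _ => norm_nonneg _) fun i _ => ?_
      rw [norm_pow, hτ]
      exact pow_le_one₀ (norm_nonneg _) (hy i)
    exact (mul_le_of_le_one_right (norm_nonneg _) h2).trans_lt (hα _)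
  have h3 : ‖MvPolynomial.eval₂ A.subtype y q‖ < 1 := by
    rw [← hτ]
    have h4 := IR_sub_lt hp heval
    rwa [sub_sub_cancel] at h4
  by_cases hm : m ∈ p.support
  · have h5 := hres q ((ID_lt_iff _).2 h3) m
    rw [ID_lt_iff, hq m hm, ← hτ] at h5
    have h6 := IR_sub_lt (hα (MvPolynomial.coeff m p)) (b := -τ (α (MvPolynomial.coeff m p)))
      (by rwa [norm_neg])
    rwa [sub_neg_eq_add, sub_add_cancel] at h6
  · rw [MvPolynomial.notMem_support_iff.1 hm]
    simp

/-- IMP-RED -/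
theorem dim_reduce {K : Type} [NormedField K] [IsUltrametricDist K] (A : Subring K)
    [IsLocalRing A] [IsNoetherianRing A] (hA : Dom A.subtype)
    (hfrac : ∀ z : K, ∃ a ∈ A, ∃ b ∈ A, b ≠ 0 ∧ z = a / b) {L : Type}
    [NontriviallyNormedField L] [IsUltrametricDist L] [CompleteSpace L] (τ : K →+* L)
    (hτ : ∀ z, ‖τ z‖ = ‖z‖) (T : Type) [CommRing T] [IsLocalRing T] [IsNoetherianRing T]
    (ι : A →+* T) (hι : SameCompletion ι) (φ : T →+* L) (hφ : Dom φ)
    (hφι : ∀ a : A, φ (ι a) = τ a) {r s : ℕ}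
    (hdim : ringKrullDim (T ⧸ RingHom.ker φ) ≤ ((r + s : ℕ) : WithBot ℕ∞))
    (y : Fin s → K) (hy : ∀ i, ‖y i‖ ≤ 1) (hres : ResIndep (ball K) A y)
    (g : Finset K) (hg : ∀ z ∈ g, ‖z‖ ≤ 1) (hyg : ∀ i, y i ∈ g)
    [IsLocalRing (locV (ball K) (Subring.closure ((A : Set K) ∪ (g : Set K))))]
    (T' : Type) [CommRing T'] [IsLocalRing T'] [IsNoetherianRing T']
    [IsAdicComplete (maximalIdeal T') T']
    (ι' : locV (ball K) (Subring.closure ((A : Set K) ∪ (g : Set K))) →+* T')
    (hι' : SameCompletion ι') (φ' : T' →+* L) (hφ' : Dom φ') (hφι' : ∀ a, φ' (ι' a) = τ a) :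
    ringKrullDim (T' ⧸ RingHom.ker φ') ≤ r := by
  classical
  have hDle := IR_range_le φ hφ
  have hDloc := IR_locV_eq φ hφ
  have hτA : ∀ a ∈ A, τ a ∈ φ.range := fun a ha => ⟨ι ⟨a, ha⟩, hφι ⟨a, ha⟩⟩
  have hfr : ∀ z : K, ∃ a ∈ φ.range, ∃ b ∈ φ.range, b ≠ 0 ∧ τ z * b = a := by
    intro z
    obtain ⟨a, ha, b, hb, hb0, hz⟩ := hfrac z
    refine ⟨τ a, hτA a ha, τ b, hτA b hb, (map_ne_zero τ).2 hb0, ?_⟩
    rw [← map_mul, hz, div_mul_cancel₀ _ hb0]
  have hdimD : ringKrullDim φ.range ≤ ((r + s : ℕ) : WithBot ℕ∞) := by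
    rw [← ringKrullDim_eq_of_ringEquiv (RingHom.quotientKerEquivRange φ)]
    exact hdim
  have hyV : ∀ i, τ (y i) ∈ ball L := fun i => by rw [mem_ball, hτ]; exact hy i
  have h1 := krullDim_resIndep (ball L) φ.range hDle hDloc (fun i => τ (y i))
    (fun i => ⟨hyV i, hfr (y i)⟩) (IR_resIndep A τ hτ T ι hι φ hφ hφι y hy hres)
  set B1 := Subring.closure ((φ.range : Set L) ∪ Set.range fun i => τ (y i)) with hB1
  have hB1V : B1 ≤ (ball L).toSubring :=
    A2_closure_le (ball L) hDle (by rintro _ ⟨i, rfl⟩; exact hyV i)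
  have hB1n : IsNoetherianRing B1 := by
    have e : (((Finset.univ : Finset (Fin s)).image (fun i => τ (y i)) : Finset L) :
        Set L) = Set.range (fun i => τ (y i)) := by
      rw [Finset.coe_image, Finset.coe_univ, Set.image_univ]
    rw [hB1, ← e]
    exact isNoetherianRing_closure _
  have hD1n : IsNoetherianRing (locV (ball L) B1) := isNoetherianRing_locV _
  have hDB1 : φ.range ≤ locV (ball L) B1 := le_trans
    (fun a ha => Subring.subset_closure (Or.inl ha)) (le_locV _ B1)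
  have h2 := krullDim_adjoin (ball L) (locV (ball L) B1) (locV_le _ hB1V) (locV_locV _ _)
    (g.image τ) (fun t ht => by
      obtain ⟨z, hz, rfl⟩ := Finset.mem_image.1 ht
      refine ⟨by rw [mem_ball, hτ]; exact hg z hz, A2_frac_mono hDB1 (hfr z)⟩)
  have hun : (Set.range fun i => τ (y i)) ∪ ((g.image τ : Finset L) : Set L) =
      ((g.image τ : Finset L) : Set L) := by
    apply Set.union_eq_self_of_subset_left
    rintro _ ⟨i, rfl⟩
    exact Finset.mem_coe.2 (Finset.mem_image_of_mem τ (hyg i))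
  rw [locV_closure_locV le_rfl B1 _, hB1, A2_closure_closure, hun, ← hB1] at h2
  set B2 := Subring.closure ((φ.range : Set L) ∪ ((g.image τ : Finset L) : Set L)) with hB2
  have h3 : ringKrullDim (locV (ball L) B2) ≤ (r : WithBot ℕ∞) := by
    have h4 : ringKrullDim (locV (ball L) B2) + (s : WithBot ℕ∞) ≤
        (r : WithBot ℕ∞) + (s : WithBot ℕ∞) := by
      calc ringKrullDim (locV (ball L) B2) + (s : WithBot ℕ∞)
          ≤ ringKrullDim (locV (ball L) B1) + (s : WithBot ℕ∞) := by gcongr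
        _ ≤ ringKrullDim φ.range := h1
        _ ≤ _ := by exact_mod_cast hdimD
    exact (ENat.WithBot.add_le_add_natCast_right_iff).1 h4
  -- the second part
  have hB2V : B2 ≤ (ball L).toSubring := A2_closure_le (ball L) hDle (by
    intro t ht
    obtain ⟨z, hz, rfl⟩ := Finset.mem_image.1 (Finset.mem_coe.1 ht)
    rw [mem_ball, hτ]; exact hg z hz)
  have hB2n : IsNoetherianRing B2 := isNoetherianRing_closure _
  have hD2n : IsNoetherianRing (locV (ball L) B2) := isNoetherianRing_locV _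
  have hD2l : IsLocalRing (locV (ball L) B2) := isLocalRing_locV _ hB2V
  have hEl : IsLocalRing φ'.range :=
    IsLocalRing.of_surjective' φ'.rangeRestrict φ'.rangeRestrict_surjective
  have hAB : A ≤ locV (ball K) (Subring.closure ((A : Set K) ∪ (g : Set K))) :=
    fun a ha => le_locV _ _ (Subring.subset_closure (Or.inl ha))
  have hgB : ∀ z ∈ g, z ∈ locV (ball K) (Subring.closure ((A : Set K) ∪ (g : Set K))) :=
    fun z hz => le_locV _ _ (Subring.subset_closure (Or.inr hz))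
  have hτB2 : ∀ z ∈ Subring.closure ((A : Set K) ∪ (g : Set K)), τ z ∈ B2 := by
    intro z hz
    have e : Subring.closure ((A : Set K) ∪ (g : Set K)) ≤ B2.comap τ := by
      rw [Subring.closure_le]
      rintro w (hw | hw)
      · exact Subring.subset_closure (Or.inl (hτA w hw))
      · exact Subring.subset_closure (Or.inr (Finset.mem_coe.2 (Finset.mem_image_of_mem τ hw)))
    exact e hz
  have hτD2 : ∀ z ∈ locV (ball K) (Subring.closure ((A : Set K) ∪ (g : Set K))),
      τ z ∈ locV (ball L) B2 := by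
    rintro z ⟨a, ha, b, hb, hb1, hz⟩
    refine ⟨τ a, hτB2 a ha, τ b, hτB2 b hb, ?_, by rw [← map_mul, hz]⟩
    rw [J7_val_one_iff, hτ]
    exact (J7_val_one_iff b).1 hb1
  have hDE : φ.range ≤ φ'.range := by
    refine IR_range_mono ι hι (ι'.comp (Subring.inclusion hAB)) ?_ φ hφ φ' hφ' ?_
    · intro a ha
      refine ((hφ' _).2).2 ?_
      rw [RingHom.comp_apply, hφι']
      show ‖τ (a : K)‖ < 1
      rw [hτ]
      exact ((hA a).2).1 ha
    · intro a
      rw [hφι, RingHom.comp_apply, hφι']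
      rfl
  have hB2E : B2 ≤ φ'.range := by
    rw [hB2, Subring.closure_le]
    rintro w (hw | hw)
    · exact hDE hw
    · obtain ⟨z, hz, rfl⟩ := Finset.mem_image.1 (Finset.mem_coe.1 hw)
      exact ⟨ι' ⟨z, hgB z hz⟩, hφι' _⟩
  have hD2E : locV (ball L) B2 ≤ φ'.range := IR_locV_le φ' hφ' hB2E
  have hmemD2 : ∀ x : locV (ball L) B2, x ∈ maximalIdeal (locV (ball L) B2) ↔ ‖(x : L)‖ < 1 := by
    intro x
    rw [A2_mem_maximalIdeal (ball L) (locV_le _ hB2V) (locV_locV _ _), ID_lt_iff]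
  have hmemE : ∀ x : φ'.range, x ∈ maximalIdeal φ'.range ↔ ‖(x : L)‖ < 1 := by
    intro x
    rw [A2_mem_maximalIdeal (ball L) (IR_range_le φ' hφ') (IR_locV_eq φ' hφ'), ID_lt_iff]
  have hmap : (maximalIdeal (locV (ball L) B2)).map (Subring.inclusion hD2E) =
      maximalIdeal φ'.range := by
    apply le_antisymm
    · rw [Ideal.map_le_iff_le_comap]
      intro x hx
      rw [Ideal.mem_comap, hmemE]
      exact (hmemD2 x).1 hx
    · rintro ⟨_, t', rfl⟩ ht
      have h5 : t' ∈ maximalIdeal T' := ((hφ' t').2).2 ((hmemE _).1 ht)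
      have h6 := Ideal.mem_map_of_mem φ'.rangeRestrict (ID_max_le ι' hι' h5)
      rw [Ideal.map_map] at h6
      have h7 : (maximalIdeal (locV (ball K) (Subring.closure ((A : Set K) ∪ (g : Set K))))).map
          (φ'.rangeRestrict.comp ι') ≤
          (maximalIdeal (locV (ball L) B2)).map (Subring.inclusion hD2E) := by
        rw [Ideal.map_le_iff_le_comap]
        intro a ha
        have h8 : (⟨τ a, hτD2 a a.2⟩ : locV (ball L) B2) ∈ maximalIdeal (locV (ball L) B2) := by
          rw [hmemD2]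
          show ‖τ (a : K)‖ < 1
          rw [← hφι']
          exact ((hφ' _).2).1 (hι'.map_mem a ha)
        have h9 := Ideal.mem_map_of_mem (Subring.inclusion hD2E) h8
        have h10 : (φ'.rangeRestrict.comp ι') a =
            Subring.inclusion hD2E ⟨τ a, hτD2 a a.2⟩ := Subtype.ext (hφι' a)
        rw [Ideal.mem_comap, h10]
        exact h9
      exact h7 h6
  have h11 := ID_dim_le (Subring.inclusion hD2E) hmap
  rw [ringKrullDim_eq_of_ringEquiv (RingHom.quotientKerEquivRange φ')]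
  exact h11.trans h3

end Pool.Agent.Lib.MP_3029eb_ag.Imp
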