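import Pool.Agent.Lib.MP_3029eb_ag.ImpEmb
import Pool.Agent.Lib.MP_3029eb_ag.ImpMain
import Pool.Agent.Lib.MP_3029eb_ag.ImpStab
import Pool.Agent.Lib.MP_3029eb_ag.ImpExt2
import Pool.Agent.Lib.MP_3029eb_ag.ImpRed
import Pool.Agent.Lib.MP_3029eb_ag.AbhRank1
import Pool.Agent.Lib.MP_3029eb_ag.AbhA1

/-!
The rank one theorem with the implicit prime: assembly.
-/

open IsLocalRing

namespace Pool.Agent.Lib.MP_3029eb_ag.Imp
open Pool.Agent.Lib.MP_3029eb_ag
open Pool.Agent.Lib.MP_3029eb_ag.Abh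

/-- adjoining a second finite set -/
theorem locV_locV_union {K : Type} [Field K] (V : ValuationSubring K) (A : Subring K)
    (s t : Set K) :
    locV V (Subring.closure ((locV V (Subring.closure ((A : Set K) ∪ s)) : Set K) ∪ t)) =
      locV V (Subring.closure ((A : Set K) ∪ (s ∪ t))) := by
  rw [locV_closure_locV (le_refl V), A2_closure_closure]

theorem locV_locV_union' {K : Type} [Field K] [DecidableEq K] (V : ValuationSubring K)
    (A0 A : Subring K) (s t : Finset K)
    (hA : A = locV V (Subring.closure ((A0 : Set K) ∪ (s : Set K)))) :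
    locV V (Subring.closure ((A0 : Set K) ∪ ((s ∪ t : Finset K) : Set K))) =
      locV V (Subring.closure ((A : Set K) ∪ (t : Set K))) := by
  rw [hA, locV_locV_union, Finset.coe_union]

/-- no residues -/
theorem resIndep_zero {K : Type} [NormedField K] [IsUltrametricDist K] (A : Subring K)
    (y : Fin 0 → K) : ResIndep (ball K) A y := by
  intro p hp m
  obtain ⟨a, rfl⟩ := MvPolynomial.C_surjective (Fin 0) p
  rw [MvPolynomial.eval₂_C] at hp
  rw [MvPolynomial.coeff_C]
  split_ifs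
  · exact hp
  · rw [Subring.coe_zero, map_zero]; exact zero_lt_one

theorem mon_zpow_mul {K : Type} [Field K] {r : ℕ} (u u2 : Fin r → K) (hu2 : ∀ i, u2 i ≠ 0)
    (A2 : Fin r → Fin r → ℕ) (h : ∀ i, u i = monN u2 (A2 i)) (δ : Fin r → ℤ) :
    mon u δ = mon u2 (fun k => ∑ i, δ i * (A2 i k : ℤ)) := by
  unfold mon
  have h1 : ∀ i, u i ^ δ i = ∏ k, u2 k ^ (δ i * (A2 i k : ℤ)) := by
    intro i
    rw [h i, monN, ← Finset.prod_zpow]
    refine Finset.prod_congr rfl fun k _ => ?_
    rw [← zpow_natCast, ← zpow_mul, mul_comm]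
  rw [Finset.prod_congr rfl fun i _ => h1 i, Finset.prod_comm]
  refine Finset.prod_congr rfl fun k _ => ?_
  have h2 : ∀ (s : Finset (Fin r)) (f : Fin r → ℤ), ∏ i ∈ s, u2 k ^ f i = u2 k ^ ∑ i ∈ s, f i := by
    classical
    intro s f
    induction s using Finset.induction_on with
    | empty => simp
    | insert a s ha ih => rw [Finset.prod_insert ha, Finset.sum_insert ha, zpow_add₀ (hu2 k), ih]
  exact h2 _ _

section

variable {K : Type} [NontriviallyNormedField K] [IsUltrametricDist K] {L : Type}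
  [NontriviallyNormedField L] [IsUltrametricDist L] [CompleteSpace L] (κ : K →+* L)
  (hκ : ∀ z, ‖κ z‖ = ‖z‖)

include hκ in
theorem exists_lift_subring (A : Subring K) [IsLocalRing A] [IsNoetherianRing A]
    (hA : Dom A.subtype) : ∃ φ : AdicCompletion (maximalIdeal A) A →+* L, Dom φ ∧
      ∀ a : A, φ (algebraMap A (AdicCompletion (maximalIdeal A) A) a) = κ (a : K) := by
  obtain ⟨φ, hφ, h⟩ := exists_lift_ball A (κ.comp A.subtype) (by
    intro a
    have h1 := hA a
    rw [RingHom.comp_apply, hκ]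
    exact h1)
  exact ⟨φ, hφ, fun a => by rw [← RingHom.comp_apply, h]; rfl⟩

omit [CompleteSpace L] in
include hκ in
/-- uniqueness of the lift -/
theorem lift_unique (A : Subring K) [IsLocalRing A] [IsNoetherianRing A] (hA : Dom A.subtype)
    (φ φ' : AdicCompletion (maximalIdeal A) A →+* L) (hφ : Dom φ) (hφ' : Dom φ')
    (h : ∀ a : A, φ (algebraMap A (AdicCompletion (maximalIdeal A) A) a) = κ (a : K))
    (h' : ∀ a : A, φ' (algebraMap A (AdicCompletion (maximalIdeal A) A) a) = κ (a : K)) :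
    φ = φ' := by
  refine completion_hom_ext A _ _ (fun t => (hφ t).1) (fun t => (hφ' t).1) ?_ ?_
  · intro a ha
    rw [h, hκ]
    exact ((hA a).2).1 ha
  · intro a
    rw [h, h']

include hκ in
/-- adjoining a finite set -/
theorem st_adjoin (A : Subring K) [IsLocalRing A] [IsNoetherianRing A]
    (hA : A ≤ (ball K).toSubring) (hloc : locV (ball K) A = A)
    (hfrac : ∀ z : K, ∃ a ∈ A, ∃ b ∈ A, b ≠ 0 ∧ z * b = a)
    (φ : AdicCompletion (maximalIdeal A) A →+* L) (hφ : Dom φ)
    (hφA : ∀ a : A, φ (algebraMap A (AdicCompletion (maximalIdeal A) A) a) = κ (a : K))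
    (H : WithBot ℕ∞) (ρ : ℕ) (hst : HasState A φ H ρ) (g : Finset K) (hg : ∀ t ∈ g, ‖t‖ ≤ 1) :
    ∀ (A' : Subring K) (_ : A' = locV (ball K) (Subring.closure ((A : Set K) ∪ (g : Set K))))
      [IsLocalRing A'] [IsNoetherianRing A']
      (φ' : AdicCompletion (maximalIdeal A') A' →+* L) (_ : Dom φ')
      (_ : ∀ a : A', φ' (algebraMap A' (AdicCompletion (maximalIdeal A') A') a) = κ (a : K)),
      HasState A' φ' H ρ := by
  classical
  have hdomA := dom_subtype A hA hloc
  induction g using Finset.induction_on with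
  | empty =>
    intro A' hA' _ _ φ' hφ' hφA'
    rw [Finset.coe_empty, locV_closure_of_subset (ball K) A ∅ (Set.empty_subset _), hloc] at hA'
    subst hA'
    rw [← lift_unique κ hκ A' hdomA φ φ' hφ hφ' hφA hφA']
    exact hst
  | insert t g ht ih =>
    intro A' hA' _ _ φ' hφ' hφA'
    have hg' : ∀ x ∈ g, ‖x‖ ≤ 1 := fun x hx => hg x (Finset.mem_insert_of_mem hx)
    have hcl : Subring.closure ((A : Set K) ∪ (g : Set K)) ≤ (ball K).toSubring :=
      closure_le_ball A hA _ hg'
    have n1 : IsNoetherianRing (Subring.closure ((A : Set K) ∪ (g : Set K))) :=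
      isNoetherianRing_closure g
    have n2 : IsNoetherianRing
        (locV (ball K) (Subring.closure ((A : Set K) ∪ (g : Set K)))) := isNoetherianRing_locV _
    have n3 : IsLocalRing (locV (ball K) (Subring.closure ((A : Set K) ∪ (g : Set K)))) :=
      isLocalRing_locV _ hcl
    have hdom1 := dom_locV _ hcl
    obtain ⟨φ1, hφ1, hφA1⟩ := exists_lift_subring κ hκ _ hdom1
    have ih1 := ih hg' _ rfl φ1 hφ1 hφA1
    obtain ⟨a, ha, b, hb, hb0, hab⟩ := hfrac t
    have hAA1 : A ≤ locV (ball K) (Subring.closure ((A : Set K) ∪ (g : Set K))) :=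
      fun a ha => le_locV _ _ (Subring.subset_closure (Or.inl ha))
    refine hasState_ext κ hκ _ (locV_le _ hcl) (locV_locV _ _) φ1 hφ1 hφA1 t
      (hg t (Finset.mem_insert_self _ _)) ⟨a, hAA1 ha, b, hAA1 hb, hb0, hab⟩ A' ?_ φ' hφ' hφA' H ρ ρ
      (Or.inl rfl) ih1
    rw [hA', locV_locV_union, Finset.coe_insert, Set.insert_eq, Set.union_comm {t} (g : Set K)]

include hκ in
/-- adjoining elements with algebraically independent residues -/
theorem st_res (A : Subring K) [IsLocalRing A] [IsNoetherianRing A]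
    (hA : A ≤ (ball K).toSubring) (hloc : locV (ball K) A = A)
    (hfrac : ∀ z : K, ∃ a ∈ A, ∃ b ∈ A, b ≠ 0 ∧ z * b = a)
    (φ : AdicCompletion (maximalIdeal A) A →+* L) (hφ : Dom φ)
    (hφA : ∀ a : A, φ (algebraMap A (AdicCompletion (maximalIdeal A) A) a) = κ (a : K))
    (H : WithBot ℕ∞) {s : ℕ} (y : Fin s → K) (hy : ∀ i, ‖y i‖ ≤ 1)
    (hres : ResIndep (ball K) A y) :
    ∀ (ρ : ℕ) (_ : HasState A φ H (ρ + s)) (A' : Subring K)
      (_ : A' = locV (ball K) (Subring.closure ((A : Set K) ∪ Set.range y)))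
      [IsLocalRing A'] [IsNoetherianRing A']
      (φ' : AdicCompletion (maximalIdeal A') A' →+* L) (_ : Dom φ')
      (_ : ∀ a : A', φ' (algebraMap A' (AdicCompletion (maximalIdeal A') A') a) = κ (a : K)),
      HasState A' φ' H ρ := by
  classical
  have hdomA := dom_subtype A hA hloc
  induction s with
  | zero =>
    intro ρ hst A' hA' _ _ φ' hφ' hφA'
    have h0 : Set.range y = ∅ := Set.range_eq_empty y
    rw [h0, locV_closure_of_subset (ball K) A ∅ (Set.empty_subset _), hloc] at hA'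
    subst hA'
    rw [← lift_unique κ hκ A' hdomA φ φ' hφ hφ' hφA hφA']
    exact hst
  | succ s ih =>
    intro ρ hst A' hA' _ _ φ' hφ' hφA'
    have hyV : ∀ i, y i ∈ ball K := hy
    set B := Subring.closure ((A : Set K) ∪ Set.range (fun i => y (Fin.succ i))) with hB
    have hset : (((Finset.univ : Finset (Fin s)).image (fun i => y (Fin.succ i)) : Finset K) :
        Set K) = Set.range (fun i => y (Fin.succ i)) := by
      rw [Finset.coe_image, Finset.coe_univ, Set.image_univ]
    have hBV : B ≤ (ball K).toSubring :=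
      closure_le_ball A hA _ (by rintro _ ⟨i, rfl⟩; exact hy _)
    have n1 : IsNoetherianRing B := by
      rw [hB, ← hset]
      exact isNoetherianRing_closure _
    have n2 : IsNoetherianRing (locV (ball K) B) := isNoetherianRing_locV _
    have n3 : IsLocalRing (locV (ball K) B) := isLocalRing_locV _ hBV
    have hdom1 := dom_locV _ hBV
    obtain ⟨φ1, hφ1, hφA1⟩ := exists_lift_subring κ hκ _ hdom1
    have ih1 := ih (fun i => y (Fin.succ i)) (fun i => hy _) (A2_resIndep_tail hres) (ρ + 1)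
      (by rw [add_assoc, add_comm 1 s]; exact hst) _ rfl φ1 hφ1 hφA1
    obtain ⟨a, ha, b, hb, hb0, hab⟩ := hfrac (y 0)
    have hAA1 : A ≤ locV (ball K) B :=
      fun a ha => le_locV _ _ (Subring.subset_closure (Or.inl ha))
    refine hasState_ext κ hκ _ (locV_le _ hBV) (locV_locV _ _) φ1 hφ1 hφA1 (y 0)
      (hy 0) ⟨a, hAA1 ha, b, hAA1 hb, hb0, hab⟩ A' ?_ φ' hφ' hφA' H (ρ + 1) ρ
      (Or.inr ⟨rfl, ?_⟩) ih1
    · rw [hA', hB, locV_locV_union]
      congr 3
      ext z
      constructor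
      · rintro ⟨i, rfl⟩
        refine Fin.cases ?_ (fun j => ?_) i
        · exact Or.inr rfl
        · exact Or.inl ⟨j, rfl⟩
      · rintro (⟨i, rfl⟩ | rfl)
        · exact ⟨_, rfl⟩
        · exact ⟨0, rfl⟩
    · intro p hp n
      rw [← ball_val_lt_one] at hp ⊢
      exact A2_transcendental (ball K) A y hyV hres B hB p hp n

end

theorem imp_aux3 {K : Type} [NontriviallyNormedField K] [IsUltrametricDist K] (A0 : Subring K)
    [IsNoetherianRing A0] (hA0 : A0 ≤ (ball K).toSubring)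
    (hfrac0 : ∀ z : K, ∃ a ∈ A0, ∃ b ∈ A0, b ≠ 0 ∧ z * b = a) (g0 : Finset K)
    (hg0 : ∀ t ∈ g0, ‖t‖ ≤ 1) (A : Subring K)
    (hAeq : A = locV (ball K) (Subring.closure ((A0 : Set K) ∪ (g0 : Set K))))
    [IsLocalRing A] [IsNoetherianRing A] {r : ℕ} (hr : 0 < r)
    {L : Type} [NontriviallyNormedField L] [IsUltrametricDist L] [CompleteSpace L] (κ : K →+* L)
    (hκ : ∀ z, ‖κ z‖ = ‖z‖) (φ : AdicCompletion (maximalIdeal A) A →+* L) (hφ : Dom φ)
    (hφA : ∀ a : A, φ (algebraMap A (AdicCompletion (maximalIdeal A) A) a) = κ (a : K))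
    (H : WithBot ℕ∞) (hst : HasState A φ H r)
    (hH : ∀ (g : Finset K) (_ : ∀ t ∈ g, ‖t‖ ≤ 1) (x : Fin r → K) (_ : Indep x)
      (_ : ∀ i, x i ∈ locV (ball K) (Subring.closure ((A0 : Set K) ∪ (g : Set K)))),
      H + r ≤ ringKrullDim (locV (ball K) (Subring.closure ((A0 : Set K) ∪ (g : Set K)))))
    (u : Fin r → K) (hu : Indep u) (huA : ∀ i, u i ∈ A)
    (hstab : ∀ z : K, ‖z‖ < 1 → ∀ ε : ℝ, 0 < ε → ∃ (n : ℕ) (ρ : Fin n → K)
      (δ : Fin n → (Fin r → ℤ)), (∀ l, ρ l ∈ A) ∧ (∀ l, ‖mon u (δ l)‖ < 1) ∧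
        ‖z - ∑ l, ρ l * mon u (δ l)‖ < ε) :
    ∃ h, EMB2 (ball K) A0 r h := by
  classical
  have hA : A ≤ (ball K).toSubring := by
    rw [hAeq]; exact locV_le _ (closure_le_ball A0 hA0 _ hg0)
  have hloc : locV (ball K) A = A := by rw [hAeq]; exact locV_locV _ _
  have hφA' : φ.comp (algebraMap A (AdicCompletion (maximalIdeal A) A)) = κ.comp A.subtype :=
    RingHom.ext fun a => hφA a
  have heq : ∀ t : Finset K, locV (ball K) (Subring.closure ((A0 : Set K) ∪
      ((g0 ∪ t : Finset K) : Set K))) = locV (ball K) (Subring.closure ((A : Set K) ∪ (t : Set K))) :=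
    fun t => locV_locV_union' (ball K) A0 A g0 t hAeq
  obtain ⟨g, hg1, -, u2, gs, hu2, hu2g, hgsg, -, hlow, hgen, A2, hA2⟩ :=
    imp_final A hA hloc hr κ hκ φ hφ hφA' H hst (fun g' hg' => by
      rw [← heq g']
      refine hH _ ?_ u hu ?_
      · intro t ht
        rcases Finset.mem_union.1 ht with h | h
        · exact hg0 t h
        · exact hg' t h
      · intro i
        rw [heq g']
        exact le_locV _ _ (Subring.subset_closure (Or.inl (huA i)))) u hu huA hstab 1 one_pos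
  have hB : Subring.closure ((A : Set K) ∪ (g : Set K)) ≤
      locV (ball K) (Subring.closure ((A : Set K) ∪ (g : Set K))) := le_locV _ _
  refine ⟨gs.card, imp_emb A0 hA0 (g0 ∪ g) ?_ u2 hu2 ?_ gs ?_ ?_ ?_ ?_ ?_⟩
  · intro t ht
    refine ⟨?_, hfrac0 t⟩
    rcases Finset.mem_union.1 ht with h | h
    · exact hg0 t h
    · exact (hg1 t h).le
  · intro i
    rw [heq g]
    exact hB (Subring.subset_closure (Or.inr (hu2g i)))
  · intro y hy
    rw [heq g]
    exact hB (Subring.subset_closure (Or.inr (hgsg hy)))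
  · exact fun y hy => hg1 y (hgsg hy)
  · rw [heq g]
    exact hgen
  · intro g' hgg' hg'
    have h1 : g' = g0 ∪ g' := by
      rw [Finset.union_eq_right.2]
      exact fun z hz => hgg' (Finset.mem_union_left _ hz)
    rw [h1, heq g']
    exact hlow g' hg'
  · intro z hz ε hε
    obtain ⟨n, ρ, δ, h1, h2, h3⟩ := hstab z hz ε hε
    refine ⟨n, ρ, fun l k => ∑ i, δ l i * (A2 i k : ℤ), ?_, ?_, ?_⟩
    · intro l
      rw [heq g]
      exact hB (Subring.subset_closure (Or.inl (h1 l)))
    · intro l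
      rw [← mon_zpow_mul u u2 hu2.ne A2 hA2]
      exact h2 l
    · have h4 : ∑ l, ρ l * mon u2 (fun k => ∑ i, δ l i * (A2 i k : ℤ)) =
          ∑ l, ρ l * mon u (δ l) :=
        Finset.sum_congr rfl fun l _ => by rw [← mon_zpow_mul u u2 hu2.ne A2 hA2]
      rw [h4]
      exact h3

theorem imp_aux2 {K : Type} [NontriviallyNormedField K] [IsUltrametricDist K] (A0 : Subring K)
    [IsNoetherianRing A0] (hA0 : A0 ≤ (ball K).toSubring)
    (hfrac0 : ∀ z : K, ∃ a ∈ A0, ∃ b ∈ A0, b ≠ 0 ∧ z * b = a) (g0 : Finset K)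
    (hg0 : ∀ t ∈ g0, ‖t‖ ≤ 1) (A : Subring K)
    (hAeq : A = locV (ball K) (Subring.closure ((A0 : Set K) ∪ (g0 : Set K))))
    [IsLocalRing A] [IsNoetherianRing A] {r : ℕ} (hr : 0 < r)
    {L : Type} [NontriviallyNormedField L] [IsUltrametricDist L] [CompleteSpace L] (κ : K →+* L)
    (hκ : ∀ z, ‖κ z‖ = ‖z‖) (hκd : DenseRange κ)
    (φ : AdicCompletion (maximalIdeal A) A →+* L) (hφ : Dom φ)
    (hφA : ∀ a : A, φ (algebraMap A (AdicCompletion (maximalIdeal A) A) a) = κ (a : K))
    (hdim : ringKrullDim (AdicCompletion (maximalIdeal A) A ⧸ RingHom.ker φ) ≤ r)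
    (H : WithBot ℕ∞) (hst : HasState A φ H r)
    (hH : ∀ (g : Finset K) (_ : ∀ t ∈ g, ‖t‖ ≤ 1) (x : Fin r → K) (_ : Indep x)
      (_ : ∀ i, x i ∈ locV (ball K) (Subring.closure ((A0 : Set K) ∪ (g : Set K)))),
      H + r ≤ ringKrullDim (locV (ball K) (Subring.closure ((A0 : Set K) ∪ (g : Set K)))))
    (x : Fin r → K) (hx : Indep x) (hxA : ∀ i, x i ∈ A) :
    ∃ h, EMB2 (ball K) A0 r h := by
  classical
  have hA : A ≤ (ball K).toSubring := by
    rw [hAeq]; exact locV_le _ (closure_le_ball A0 hA0 _ hg0)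
  have hloc : locV (ball K) A = A := by rw [hAeq]; exact locV_locV _ _
  have hA0A : A0 ≤ A := by
    rw [hAeq]; exact fun z hz => le_locV _ _ (Subring.subset_closure (Or.inl hz))
  have hfracm : ∀ z : K, ∃ a ∈ A, ∃ b ∈ A, b ≠ 0 ∧ z * b = a := by
    intro z
    obtain ⟨a, ha, b, hb, hb0, hz⟩ := hfrac0 z
    exact ⟨a, hA0A ha, b, hA0A hb, hb0, hz⟩
  have hfrac : ∀ z : K, ∃ a ∈ A, ∃ b ∈ A, b ≠ 0 ∧ z = a / b := by
    intro z
    obtain ⟨a, ha, b, hb, hb0, hz⟩ := hfracm z
    exact ⟨a, ha, b, hb, hb0, by rw [← hz, mul_div_cancel_right₀ _ hb0]⟩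
  have hdomA := dom_subtype A hA hloc
  have hι : SameCompletion (algebraMap A (AdicCompletion (maximalIdeal A) A)) :=
    sameCompletion_adicCompletion A
  have iTn : IsNoetherianRing (AdicCompletion (maximalIdeal A) A) := noetherian_adicCompletion A
  obtain ⟨r', u, g, hrr', hu, hug, hg1, hstab⟩ :=
    stab_imp κ hκ hκd A hfrac (AdicCompletion (maximalIdeal A) A)
      (algebraMap A (AdicCompletion (maximalIdeal A) A)) hι φ hφ hφA hr hdim x hx hxA
  -- the next ring
  let A' := locV (ball K) (Subring.closure ((A : Set K) ∪ (g : Set K)))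
  have heq : locV (ball K) (Subring.closure ((A0 : Set K) ∪
      ((g0 ∪ g : Finset K) : Set K))) = A' := locV_locV_union' (ball K) A0 A g0 g hAeq
  have hB' : Subring.closure ((A : Set K) ∪ (g : Set K)) ≤ (ball K).toSubring :=
    closure_le_ball A hA _ hg1
  have hcl : Subring.closure ((A : Set K) ∪ (g : Set K)) ≤ A' := le_locV _ _
  have iN0 : IsNoetherianRing (Subring.closure ((A : Set K) ∪ (g : Set K))) :=
    isNoetherianRing_closure g
  have iN : IsNoetherianRing A' := isNoetherianRing_locV _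
  have iL : IsLocalRing A' := isLocalRing_locV _ hB'
  have hdomA' : Dom A'.subtype := dom_locV _ hB'
  obtain ⟨φ', hφ', hφA'⟩ := exists_lift_subring κ hκ A' hdomA'
  have iTn' : IsNoetherianRing (AdicCompletion (maximalIdeal A') A') :=
    noetherian_adicCompletion A'
  have hdim' : ringKrullDim (AdicCompletion (maximalIdeal A') A' ⧸ RingHom.ker φ') ≤ r :=
    dim_reduce A hdomA hfrac κ hκ (AdicCompletion (maximalIdeal A) A)
      (algebraMap A (AdicCompletion (maximalIdeal A) A)) hι φ hφ hφA (r := r) (s := 0)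
      (by simpa using hdim) (fun i => i.elim0) (fun i => i.elim0) (resIndep_zero A _) g hg1
      (fun i => i.elim0) (AdicCompletion (maximalIdeal A') A')
      (algebraMap A' (AdicCompletion (maximalIdeal A') A')) (sameCompletion_adicCompletion A')
      φ' hφ' hφA'
  have huA' : ∀ i, u i ∈ A' := fun i => hcl (Subring.subset_closure (Or.inr (hug i)))
  have hr' : (r' : WithBot ℕ∞) ≤ r := by
    refine le_trans (ID_quot φ' hφ' (fun i => algebraMap A' _ ⟨u i, huA' i⟩) ?_) hdim'
    have h1 : (fun i => φ' (algebraMap A' (AdicCompletion (maximalIdeal A') A') ⟨u i, huA' i⟩)) =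
        fun i => κ (u i) := funext fun i => hφA' _
    rw [h1]; exact hu.map κ hκ
  have hrr : r' = r := le_antisymm (by exact_mod_cast hr') hrr'
  subst hrr
  have hst' : HasState A' φ' H r' :=
    st_adjoin κ hκ A hA hloc hfracm φ hφ hφA H r' hst g hg1 A' rfl φ' hφ' hφA'
  refine imp_aux3 A0 hA0 hfrac0 (g0 ∪ g) ?_ A' heq.symm hr κ hκ φ' hφ' hφA' H hst' hH u hu huA'
    ?_
  · intro t ht
    rcases Finset.mem_union.1 ht with h | h
    · exact hg0 t h
    · exact hg1 t h
  · intro z hz ε hε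
    obtain ⟨n, ρ, δ, h1, h2, h3⟩ := hstab z hz ε hε
    exact ⟨n, ρ, δ, fun l => hcl (h1 l), h2, h3⟩

/-- the rank one theorem, in a normed field -/
theorem imp_ball {K : Type} [NontriviallyNormedField K] [IsUltrametricDist K] (A : Subring K)
    (hA : A ≤ (ball K).toSubring) (hloc : locV (ball K) A = A)
    (hfrac0 : ∀ z : K, ∃ a ∈ A, ∃ b ∈ A, b ≠ 0 ∧ z * b = a)
    [IsLocalRing A] [IsNoetherianRing A] {r s : ℕ} (hr : 0 < r)
    {L : Type} [NontriviallyNormedField L] [IsUltrametricDist L] [CompleteSpace L] (κ : K →+* L)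
    (hκ : ∀ z, ‖κ z‖ = ‖z‖) (hκd : DenseRange κ)
    (φ : AdicCompletion (maximalIdeal A) A →+* L) (hφ : Dom φ)
    (hφA : ∀ a : A, φ (algebraMap A (AdicCompletion (maximalIdeal A) A) a) = κ (a : K))
    [(RingHom.ker φ).IsPrime] (hreg : IsRegularLocalRing (Localization.AtPrime (RingHom.ker φ)))
    (hdim : ringKrullDim (AdicCompletion (maximalIdeal A) A ⧸ RingHom.ker φ) ≤
      ((r + s : ℕ) : WithBot ℕ∞))
    (x : Fin r → K) (hx : IndV (ball K) x) (y : Fin s → K) (hy : ∀ i, ‖y i‖ ≤ 1)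
    (hres : ResIndep (ball K) A y) :
    ∃ h, EMB2 (ball K) A r h := by
  classical
  obtain ⟨x', -, hx', hlt⟩ := hx.exists_inv
  have hind := hx'.indep_ball hlt
  have hfrac : ∀ z : K, ∃ a ∈ A, ∃ b ∈ A, b ≠ 0 ∧ z = a / b := by
    intro z
    obtain ⟨a, ha, b, hb, hb0, hz⟩ := hfrac0 z
    exact ⟨a, ha, b, hb, hb0, by rw [← hz, mul_div_cancel_right₀ _ hb0]⟩
  have hdomA := dom_subtype A hA hloc
  have hι : SameCompletion (algebraMap A (AdicCompletion (maximalIdeal A) A)) :=
    sameCompletion_adicCompletion A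
  have iTn : IsNoetherianRing (AdicCompletion (maximalIdeal A) A) := noetherian_adicCompletion A
  have hchar : ∀ n : ℕ, φ (n : AdicCompletion (maximalIdeal A) A) = 0 →
      (n : AdicCompletion (maximalIdeal A) A) = 0 := by
    intro n hn
    have h1 : (n : AdicCompletion (maximalIdeal A) A) =
        algebraMap A (AdicCompletion (maximalIdeal A) A) n :=
      (map_natCast (algebraMap A (AdicCompletion (maximalIdeal A) A)) n).symm
    rw [h1, hφA, map_eq_zero] at hn
    have h2 : (n : A) = 0 := Subtype.ext hn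
    rw [h1, h2, map_zero]
  set H := ringKrullDim (Localization.AtPrime (RingHom.ker φ)) with hHdef
  have hst0 : HasState A φ H (r + s) := hasState_init A φ hφ hchar hreg hdim
  -- adjoin the residues
  let gy : Finset K := Finset.univ.image y
  have hgyset : (gy : Set K) = Set.range y := by
    rw [Finset.coe_image, Finset.coe_univ, Set.image_univ]
  have hgy1 : ∀ t ∈ gy, ‖t‖ ≤ 1 := by
    intro t ht
    obtain ⟨i, -, rfl⟩ := Finset.mem_image.1 ht
    exact hy i
  let A1 := locV (ball K) (Subring.closure ((A : Set K) ∪ (gy : Set K)))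
  have hB1 : Subring.closure ((A : Set K) ∪ (gy : Set K)) ≤ (ball K).toSubring :=
    closure_le_ball A hA _ hgy1
  have hcl1 : Subring.closure ((A : Set K) ∪ (gy : Set K)) ≤ A1 := le_locV _ _
  have iN10 : IsNoetherianRing (Subring.closure ((A : Set K) ∪ (gy : Set K))) :=
    isNoetherianRing_closure gy
  have iN1 : IsNoetherianRing A1 := isNoetherianRing_locV _
  have iL1 : IsLocalRing A1 := isLocalRing_locV _ hB1
  have hdomA1 : Dom A1.subtype := dom_locV _ hB1
  obtain ⟨φ1, hφ1, hφA1⟩ := exists_lift_subring κ hκ A1 hdomA1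
  have hst1 : HasState A1 φ1 H r :=
    st_res κ hκ A hA hloc hfrac0 φ hφ hφA H y hy hres r hst0 A1 (by rw [← hgyset]) φ1 hφ1 hφA1
  have hAA1 : A ≤ A1 := fun z hz => hcl1 (Subring.subset_closure (Or.inl hz))
  -- adjoin the elements of independent values
  let gx : Finset K := Finset.univ.image x'
  have hgx1 : ∀ t ∈ gx, ‖t‖ ≤ 1 := by
    intro t ht
    obtain ⟨i, -, rfl⟩ := Finset.mem_image.1 ht
    exact (hind.lt i).le
  let A' := locV (ball K) (Subring.closure ((A1 : Set K) ∪ (gx : Set K)))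
  have heq : A' = locV (ball K) (Subring.closure ((A : Set K) ∪ ((gy ∪ gx : Finset K) : Set K))) :=
    (locV_locV_union' (ball K) A A1 gy gx rfl).symm
  have hA1b : A1 ≤ (ball K).toSubring := locV_le _ hB1
  have hB' : Subring.closure ((A1 : Set K) ∪ (gx : Set K)) ≤ (ball K).toSubring :=
    closure_le_ball A1 hA1b _ hgx1
  have hcl : Subring.closure ((A1 : Set K) ∪ (gx : Set K)) ≤ A' := le_locV _ _
  have iN0 : IsNoetherianRing (Subring.closure ((A1 : Set K) ∪ (gx : Set K))) :=
    isNoetherianRing_closure gx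
  have iN : IsNoetherianRing A' := isNoetherianRing_locV _
  have iL : IsLocalRing A' := isLocalRing_locV _ hB'
  have hdomA' : Dom A'.subtype := dom_locV _ hB'
  obtain ⟨φ', hφ', hφA'⟩ := exists_lift_subring κ hκ A' hdomA'
  have hst' : HasState A' φ' H r :=
    st_adjoin κ hκ A1 hA1b (locV_locV _ _) (fun z => by
      obtain ⟨a, ha, b, hb, hb0, hz⟩ := hfrac0 z
      exact ⟨a, hAA1 ha, b, hAA1 hb, hb0, hz⟩) φ1 hφ1 hφA1 H r hst1 gx hgx1 A' rfl φ' hφ' hφA'
  have hg1 : ∀ t ∈ gy ∪ gx, ‖t‖ ≤ 1 := by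
    intro t ht
    rcases Finset.mem_union.1 ht with h | h
    · exact hgy1 t h
    · exact hgx1 t h
  have hdim' : ringKrullDim (AdicCompletion (maximalIdeal A') A' ⧸ RingHom.ker φ') ≤ r := by
    clear_value A'
    subst heq
    have iTn' : IsNoetherianRing (AdicCompletion (maximalIdeal
        (locV (ball K) (Subring.closure ((A : Set K) ∪ ((gy ∪ gx : Finset K) : Set K)))))
        (locV (ball K) (Subring.closure ((A : Set K) ∪ ((gy ∪ gx : Finset K) : Set K))))) :=
      noetherian_adicCompletion _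
    exact dim_reduce A hdomA hfrac κ hκ (AdicCompletion (maximalIdeal A) A)
      (algebraMap A (AdicCompletion (maximalIdeal A) A)) hι φ hφ hφA (r := r) (s := s)
      hdim y hy hres (gy ∪ gx) hg1
      (fun i => Finset.mem_union_left _ (Finset.mem_image_of_mem _ (Finset.mem_univ i)))
      (AdicCompletion _ _) (algebraMap _ (AdicCompletion _ _)) (sameCompletion_adicCompletion _)
      φ' hφ' hφA'
  refine imp_aux2 A hA hfrac0 (gy ∪ gx) hg1 A' heq hr κ hκ hκd φ' hφ' hφA' hdim' H hst' ?_ x' hind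
    (fun i => hcl (Subring.subset_closure (Or.inr (Finset.mem_coe.2
      (Finset.mem_image_of_mem _ (Finset.mem_univ i))))))
  intro g hg w hw hwA
  exact dim_lower A hdomA hfrac κ hκ (AdicCompletion (maximalIdeal A) A)
    (algebraMap A (AdicCompletion (maximalIdeal A) A)) hι φ hφ hφA g hg w hw hwA

end Pool.Agent.Lib.MP_3029eb_ag.Imp
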