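import Pool.Agent.Lib.MP_3029eb_ag.H6J
import Pool.Agent.Lib.MP_3029eb_ag.AbhJ2
import Pool.Agent.Lib.MP_3029eb_ag.AbhJ3

/-!
Module IMP-STATE: the initial state for an arbitrary implicit prime.
-/

open IsLocalRing

namespace Pool.Agent.Lib.MP_3029eb_ag.Imp

open Pool.Agent.Lib.MP_3029eb_ag Pool.Agent.Lib.MP_3029eb_ag.Abh

/-- The dimension of the cotangent space of a quotient. -/
theorem State_cot {O T' : Type} [CommRing O] [IsLocalRing O] [IsNoetherianRing O]
    [CommRing T'] [IsRegularLocalRing T'] (f : O →+* T') (hf : Function.Surjective f)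
    (U : Submodule (ResidueField O) (CotangentSpace O))
    (hU : ∀ (a : O) (_ : f a = 0) (ha : a ∈ maximalIdeal O),
      (maximalIdeal O).toCotangent ⟨a, ha⟩ ∈ U) :
    ((Module.finrank (ResidueField O) (CotangentSpace O) : ℕ) : WithBot ℕ∞) ≤
      ((Module.finrank (ResidueField O) U : ℕ) : WithBot ℕ∞) + ringKrullDim T' := by
  classical
  have hloc : IsLocalHom f := IsLocalHom.of_surjective f hf
  obtain ⟨d, hd⟩ : ∃ d : ℕ, (maximalIdeal T').spanFinrank = d := ⟨_, rfl⟩
  have hdim : ringKrullDim T' = (d : WithBot ℕ∞) := by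
    rw [← hd, IsRegularLocalRing.spanFinrank_maximalIdeal]
  have hfg : (maximalIdeal T').FG := (maximalIdeal T').fg_of_isNoetherianRing
  obtain ⟨s, hs, hs'⟩ : ∃ s : Finset T', s.card = d ∧ Ideal.span (s : Set T') = maximalIdeal T' := by
    have := Submodule.FG.exists_span_finset_card_eq_spanFinrank hfg
    obtain ⟨s, hs, hs'⟩ := this
    exact ⟨s, hs.trans hd, hs'⟩
  choose g hg using hf
  have hgm : ∀ t ∈ s, g t ∈ maximalIdeal O := by
    intro t ht
    rw [mem_maximalIdeal, mem_nonunits_iff]
    intro hu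
    have h1 : t ∈ maximalIdeal T' := by rw [← hs']; exact Ideal.subset_span ht
    rw [mem_maximalIdeal, mem_nonunits_iff] at h1
    exact h1 (by rw [← hg t]; exact hu.map f)
  let Y : Finset (CotangentSpace O) :=
    s.attach.image (fun t : {t // t ∈ s} => (maximalIdeal O).toCotangent ⟨g t, hgm t t.2⟩)
  have hYcard : Y.card ≤ d := by
    refine Finset.card_image_le.trans ?_
    rw [Finset.card_attach, hs]
  have htop : (⊤ : Submodule (ResidueField O) (CotangentSpace O)) ≤
      U ⊔ Submodule.span (ResidueField O) (Y : Set (CotangentSpace O)) := by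
    intro w _
    obtain ⟨⟨x, hx⟩, rfl⟩ := (maximalIdeal O).toCotangent_surjective w
    have hfx : f x ∈ Ideal.span (s : Set T') := by
      rw [hs', mem_maximalIdeal, mem_nonunits_iff]
      intro hu
      exact (mem_nonunits_iff.1 ((mem_maximalIdeal _).1 hx)) (isUnit_of_map_unit f x hu)
    rw [Ideal.span, Submodule.mem_span_finset'] at hfx
    obtain ⟨c, hc⟩ := hfx
    have hsum : (∑ t : s, g (c t) * g t) ∈ maximalIdeal O :=
      Ideal.sum_mem _ (fun t _ => Ideal.mul_mem_left _ _ (hgm t t.2))
    have hz : x - ∑ t : s, g (c t) * g t ∈ maximalIdeal O := Ideal.sub_mem _ hx hsum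
    have hz0 : f (x - ∑ t : s, g (c t) * g t) = 0 := by
      rw [map_sub, map_sum, ← hc, sub_eq_zero]
      refine Finset.sum_congr rfl (fun t _ => ?_)
      rw [map_mul, hg, hg, smul_eq_mul]
    have heq : (maximalIdeal O).toCotangent ⟨x, hx⟩ =
        (maximalIdeal O).toCotangent ⟨x - ∑ t : s, g (c t) * g t, hz⟩ +
          ∑ t : s, g (c t) • (maximalIdeal O).toCotangent ⟨g t, hgm t t.2⟩ := by
      rw [← sub_eq_iff_eq_add']
      have h1 : ∑ t : s, g (c t) • (maximalIdeal O).toCotangent ⟨g t, hgm t t.2⟩ =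
          (maximalIdeal O).toCotangent (∑ t : s, g (c t) • (⟨g t, hgm t t.2⟩ : maximalIdeal O)) := by
        rw [map_sum]
        refine Finset.sum_congr rfl (fun t _ => ?_)
        rw [map_smul]
      rw [h1, ← map_sub]
      congr 1
      apply Subtype.ext
      simp
    rw [heq]
    refine Submodule.add_mem_sup (hU _ hz0 hz) ?_
    refine Submodule.sum_mem _ (fun t _ => ?_)
    rw [← IsScalarTower.algebraMap_smul (ResidueField O) (g (c t))]
    refine Submodule.smul_mem _ _ (Submodule.subset_span ?_)
    exact Finset.mem_coe.2 (Finset.mem_image.2 ⟨t, Finset.mem_attach _ _, rfl⟩)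
  have hfin : Module.finrank (ResidueField O) (CotangentSpace O) ≤
      Module.finrank (ResidueField O) U + d := by
    rw [← finrank_top (ResidueField O) (CotangentSpace O)]
    refine (Submodule.finrank_mono htop).trans ?_
    refine (Submodule.finrank_add_le_finrank_add_finrank _ _).trans ?_
    exact Nat.add_le_add_left ((finrank_span_finset_le_card Y).trans hYcard) _
  rw [hdim]
  exact_mod_cast hfin

/-- An adapted basis: first from `A`, then from `B`. -/
theorem State_basis {F V : Type} [Field F] [AddCommGroup V] [Module F V] [FiniteDimensional F V]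
    {S : Type} (D : S → V) (A B : Set S) (hAB : A ⊆ B) (hB : Submodule.span F (D '' B) = ⊤) :
    ∃ (b : Module.Basis (Fin (Module.finrank F V)) F V) (f : Fin (Module.finrank F V) → S)
      (I : Finset (Fin (Module.finrank F V))), (∀ i, b i = D (f i)) ∧ (∀ i, f i ∈ B) ∧
      (∀ i, i ∉ I → f i ∈ A) ∧ I.card + Module.finrank F (Submodule.span F (D '' A)) ≤
        Module.finrank F V := by
  classical
  obtain ⟨s, hsA, hsspan, hsli⟩ := exists_linearIndependent F (D '' A)
  have hsB : s ⊆ D '' B := hsA.trans (Set.image_mono hAB)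
  have hsli' : LinearIndepOn F id s := hsli
  obtain ⟨b, hb2, hb1, hb3, hb4⟩ := exists_linearIndepOn_id_extension hsli' hsB
  have hli : LinearIndependent F (fun z : b => (z : V)) := hb4
  have hbfin : b.Finite := hli.setFinite
  have : Fintype b := hbfin.fintype
  have hspan : ⊤ ≤ Submodule.span F (Set.range (fun z : b => (z : V))) := by
    rw [Subtype.range_coe, ← hB]
    exact Submodule.span_le.2 hb3
  have hcard : Fintype.card b = Module.finrank F V := by
    rw [← Module.finrank_eq_card_basis (Module.Basis.mk hli hspan)]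
  let e : Fin (Module.finrank F V) ≃ b := (Fintype.equivFinOfCardEq hcard).symm
  let bs : Module.Basis (Fin (Module.finrank F V)) F V := (Module.Basis.mk hli hspan).reindex e.symm
  have hbs : ∀ i, bs i = (e i : V) := by
    intro i
    rw [Module.Basis.reindex_apply, Module.Basis.mk_apply, Equiv.symm_symm]
  have hex : ∀ i : Fin (Module.finrank F V), ∃ x : S, x ∈ B ∧ ((e i : V) ∈ s → x ∈ A) ∧
      D x = (e i : V) := by
    intro i
    by_cases h : (e i : V) ∈ s
    · obtain ⟨x, hx, hx'⟩ := hsA h
      exact ⟨x, hAB hx, fun _ => hx, hx'⟩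
    · obtain ⟨x, hx, hx'⟩ := hb2 (e i).2
      exact ⟨x, hx, fun h' => absurd h' h, hx'⟩
  choose f hf1 hf2 hf3 using hex
  refine ⟨bs, f, Finset.univ.filter (fun i => (e i : V) ∉ s), fun i => by rw [hbs, hf3], hf1,
    fun i hi => hf2 i ?_, ?_⟩
  · by_contra h
    exact hi (Finset.mem_filter.2 ⟨Finset.mem_univ _, h⟩)
  · have hsfin : s.Finite := hbfin.subset hb1
    have : Fintype s := hsfin.fintype
    have h1 : Module.finrank F (Submodule.span F (D '' A)) = Fintype.card s := by
      rw [← hsspan, finrank_span_set_eq_card hsli, Set.toFinset_card]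
    have h2 : Fintype.card s = (Finset.univ.filter
        (fun i : Fin (Module.finrank F V) => (e i : V) ∈ s)).card := by
      rw [← Fintype.card_subtype]
      refine Fintype.card_congr ?_
      refine
        { toFun := fun z => ⟨e.symm ⟨z, hb1 z.2⟩, by rw [Equiv.apply_symm_apply]; exact z.2⟩
          invFun := fun i => ⟨(e i.1 : V), i.2⟩
          left_inv := fun z => by simp
          right_inv := fun i => by simp }
    rw [h1, h2, add_comm]
    have h3 := Finset.card_filter_add_card_filter_not
      (s := (Finset.univ : Finset (Fin (Module.finrank F V)))) (fun i => (e i : V) ∈ s)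
    rw [Finset.card_univ, Fintype.card_fin] at h3
    exact h3.le

theorem exists_state_gen (T : Type) [CommRing T] [IsLocalRing T] [IsNoetherianRing T]
    [IsAdicComplete (maximalIdeal T) T] {L : Type} [NontriviallyNormedField L]
    [IsUltrametricDist L] (φ : T →+* L) (hφ : Dom φ)
    (hchar : ∀ n : ℕ, φ (n : T) = 0 → (n : T) = 0)
    [(RingHom.ker φ).IsPrime] (hreg : IsRegularLocalRing (Localization.AtPrime (RingHom.ker φ)))
    {r : ℕ} (hdim : ringKrullDim (T ⧸ RingHom.ker φ) ≤ r) :
    ∃ (S : Type) (_ : CommRing S) (_ : IsRegularLocalRing S) (π : S →+* T) (c : ℕ)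
      (Φ : S →+* TrivSqZeroExt L (Fin c → L)) (f : Fin c → S) (I : Finset (Fin c)),
      Function.Surjective π ∧ (∀ s, (Φ s).fst = φ (π s)) ∧ (∀ s i, ‖(Φ s).snd i‖ ≤ 1) ∧
      (∀ i, φ (π (f i)) = 0) ∧ (∀ i, i ∉ I → π (f i) = 0) ∧
      (Matrix.of fun i j => (Φ (f i)).snd j).det ≠ 0 ∧
      (maximalIdeal S).spanFinrank ≤ c + r ∧
      (I.card : WithBot ℕ∞) ≤ ringKrullDim (Localization.AtPrime (RingHom.ker φ)) := by
  classical
  obtain ⟨S, iS, iSr, π, hπ, hbdd, hSdim⟩ := exists_presentation_dim T (RingHom.ker φ)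
    (fun n hn => hchar n hn)
  have hP3 : ((RingHom.ker φ).comap π).IsPrime := inferInstance
  have hP2 : (RingHom.ker (φ.comp π)).IsPrime := RingHom.ker_isPrime _
  have hcomap0 : (RingHom.ker φ).comap π = RingHom.ker (φ.comp π) := RingHom.comap_ker φ π
  replace hbdd : BddDer S (RingHom.ker (φ.comp π)) := J3_transport' _ _ hcomap0 hbdd
  rw [hcomap0] at hSdim
  obtain ⟨D, hadd, hmul, hcan, G, hG, hG'⟩ := hbdd
  let O : Type := Localization.AtPrime (RingHom.ker (φ.comp π))
  let TP : Type := Localization.AtPrime (RingHom.ker φ)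
  have hnoeth : IsNoetherianRing O :=
    IsLocalization.isNoetherianRing (RingHom.ker (φ.comp π)).primeCompl O inferInstance
  let f : O →+* TP := Localization.localRingHom (RingHom.ker (φ.comp π)) (RingHom.ker φ) π
    hcomap0.symm
  have hfalg : ∀ s : S, f (algebraMap S O s) = algebraMap T TP (π s) := fun s =>
    Localization.localRingHom_to_map _ _ π hcomap0.symm s
  have hf : Function.Surjective f := by
    intro z
    obtain ⟨⟨t, ⟨s, hs⟩⟩, hz⟩ := IsLocalization.surj (RingHom.ker φ).primeCompl z
    obtain ⟨a, rfl⟩ := hπ t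
    obtain ⟨b, rfl⟩ := hπ s
    have hb : b ∈ (RingHom.ker (φ.comp π)).primeCompl := hs
    have hu : IsUnit (algebraMap S O b) := IsLocalization.map_units O ⟨b, hb⟩
    obtain ⟨u, hu⟩ := hu
    refine ⟨algebraMap S O a * ↑u⁻¹, ?_⟩
    have h1 : IsUnit (algebraMap T TP (π b)) := IsLocalization.map_units TP ⟨π b, hs⟩
    refine h1.mul_right_cancel ?_
    change _ = z * algebraMap T TP (π b)
    have hz' : z * algebraMap T TP (π b) = algebraMap T TP (π a) := hz
    rw [hz', ← hfalg a, ← hfalg b, ← map_mul]
    congr 1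
    rw [mul_assoc, ← hu, Units.inv_mul, mul_one]
  -- the residue field
  let σ : S →+* ResidueField O := (residue O).comp (algebraMap S O)
  have hσ : ∀ (a : S) (v : CotangentSpace O), a • v = σ a • v := by
    intro a v
    change a • v = residue O (algebraMap S O a) • v
    rw [← algebraMap_smul O a v]
    exact (IsScalarTower.algebraMap_smul (ResidueField O) (algebraMap S O a) v).symm
  let g0 : O →+* L := IsLocalization.lift (M := (RingHom.ker (φ.comp π)).primeCompl)
    (g := φ.comp π) (by
      intro y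
      rw [isUnit_iff_ne_zero]
      intro h0
      exact y.2 ((RingHom.mem_ker).2 h0))
  have hg0 : ∀ s : S, g0 (algebraMap S O s) = φ (π s) := fun s =>
    IsLocalization.lift_eq _ s
  have hmapmax : Ideal.map (algebraMap S O) (RingHom.ker (φ.comp π)) = maximalIdeal O :=
    Localization.AtPrime.map_eq_maximalIdeal
  have hg0m : ∀ a ∈ maximalIdeal O, g0 a = 0 := by
    have h1 : maximalIdeal O ≤ RingHom.ker g0 := by
      rw [← hmapmax, Ideal.map_le_iff_le_comap]
      intro s hs
      rw [Ideal.mem_comap, RingHom.mem_ker, hg0]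
      exact hs
    exact fun a ha => h1 ha
  let j : ResidueField O →+* L := Ideal.Quotient.lift (maximalIdeal O) g0 hg0m
  have hj : ∀ a : S, j (σ a) = φ (π a) := fun a => hg0 a
  have hmemmax : ∀ s ∈ RingHom.ker (φ.comp π), algebraMap S O s ∈ maximalIdeal O := by
    intro s hs
    rw [← hmapmax]
    exact Ideal.mem_map_of_mem _ hs
  have hkerle : RingHom.ker π ≤ RingHom.ker (φ.comp π) := by
    intro s hs
    rw [RingHom.mem_ker] at hs ⊢
    rw [RingHom.comp_apply, hs, map_zero]
  let U : Submodule (ResidueField O) (CotangentSpace O) :=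
    Submodule.span (ResidueField O) (D '' (RingHom.ker π : Set S))
  have hU : ∀ (a : O) (_ : f a = 0) (ha : a ∈ maximalIdeal O),
      (maximalIdeal O).toCotangent ⟨a, ha⟩ ∈ U := by
    intro a hfa ha
    obtain ⟨⟨b, ⟨s, hs⟩⟩, hz⟩ := IsLocalization.surj (RingHom.ker (φ.comp π)).primeCompl a
    have hz' : a * algebraMap S O s = algebraMap S O b := hz
    have hb0 : algebraMap T TP (π b) = 0 := by
      rw [← hfalg, ← hz', map_mul, hfa, zero_mul]
    rw [IsLocalization.map_eq_zero_iff (RingHom.ker φ).primeCompl] at hb0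
    obtain ⟨⟨t, ht⟩, htb⟩ := hb0
    obtain ⟨t', rfl⟩ := hπ t
    have htb' : t' * b ∈ RingHom.ker π := by
      rw [RingHom.mem_ker, map_mul]; exact htb
    have ht' : t' ∈ (RingHom.ker (φ.comp π)).primeCompl := ht
    have hts : t' * s ∈ (RingHom.ker (φ.comp π)).primeCompl := mul_mem ht' hs
    have hunit : IsUnit (algebraMap S O (t' * s)) := IsLocalization.map_units O ⟨t' * s, hts⟩
    have hne : σ (t' * s) ≠ 0 := (hunit.map (residue O)).ne_zero
    have hDu : D (t' * b) = σ (t' * s) • (maximalIdeal O).toCotangent ⟨a, ha⟩ := by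
      rw [hcan (t' * b) (hkerle htb') (hmemmax _ (hkerle htb')), ← hσ,
        ← algebraMap_smul O (t' * s), ← map_smul]
      congr 1
      apply Subtype.ext
      change algebraMap S O (t' * b) = algebraMap S O (t' * s) * a
      rw [map_mul, map_mul, ← hz']
      ring
    have h5 : (maximalIdeal O).toCotangent ⟨a, ha⟩ = (σ (t' * s))⁻¹ • D (t' * b) := by
      rw [hDu, inv_smul_smul₀ hne]
    rw [h5]
    exact Submodule.smul_mem _ _ (Submodule.subset_span ⟨_, htb', rfl⟩)
  -- the whole cotangent space
  have hB : Submodule.span (ResidueField O) (D '' (RingHom.ker (φ.comp π) : Set S)) = ⊤ := by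
    rw [eq_top_iff]
    intro w _
    obtain ⟨⟨a, ha⟩, rfl⟩ := (maximalIdeal O).toCotangent_surjective w
    obtain ⟨⟨b, ⟨s, hs⟩⟩, hz⟩ := IsLocalization.surj (RingHom.ker (φ.comp π)).primeCompl a
    have hz' : a * algebraMap S O s = algebraMap S O b := hz
    have hb : b ∈ RingHom.ker (φ.comp π) := by
      have h1 : g0 (algebraMap S O b) = 0 := by rw [← hz', map_mul, hg0m a ha, zero_mul]
      rw [hg0] at h1
      exact h1
    have hunit : IsUnit (algebraMap S O s) := IsLocalization.map_units O ⟨s, hs⟩
    have hne : σ s ≠ 0 := (hunit.map (residue O)).ne_zero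
    have hDb : D b = σ s • (maximalIdeal O).toCotangent ⟨a, ha⟩ := by
      rw [hcan b hb (hmemmax _ hb), ← hσ, ← algebraMap_smul O s, ← map_smul]
      congr 1
      apply Subtype.ext
      change algebraMap S O b = algebraMap S O s * a
      rw [← hz', mul_comm]
    have h5 : (maximalIdeal O).toCotangent ⟨a, ha⟩ = (σ s)⁻¹ • D b := by
      rw [hDb, inv_smul_smul₀ hne]
    rw [h5]
    exact Submodule.smul_mem _ _ (Submodule.subset_span ⟨_, hb, rfl⟩)
  have hfd : FiniteDimensional (ResidueField O) (CotangentSpace O) := inferInstance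
  obtain ⟨bs, F, I, hbs, hF, hFI, hI⟩ := State_basis (F := ResidueField O)
    (V := CotangentSpace O) D (RingHom.ker π : Set S) (RingHom.ker (φ.comp π) : Set S) hkerle hB
  have hcot := State_cot f hf U hU
  obtain ⟨c, hc⟩ : ∃ c : ℕ, Module.finrank (ResidueField O) (CotangentSpace O) = c := ⟨_, rfl⟩
  change I.card + Module.finrank (ResidueField O) U ≤ _ at hI
  revert bs F I
  rw [hc] at hcot ⊢
  intro bs F I hbs hF hFI hI
  -- the derivation
  let J : CotangentSpace O → (Fin c → L) := fun v i => j (bs.repr v i)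
  have hJadd : ∀ v w, J (v + w) = J v + J w := by
    intro v w; funext i; simp only [J, map_add, Pi.add_apply, Finsupp.add_apply]
  have hJsmul : ∀ (l : ResidueField O) (v : CotangentSpace O), J (l • v) = j l • J v := by
    intro l v; funext i
    simp only [J, map_smul, Pi.smul_apply, smul_eq_mul, map_mul, Finsupp.smul_apply]
  have hJ0 : J 0 = 0 := by
    funext i; simp only [J, map_zero, Pi.zero_apply, Finsupp.coe_zero]
  obtain ⟨M, hM⟩ : ∃ M : ℝ, ∀ x ∈ G, ∀ i, ‖J x i‖ ≤ M := by
    have hfin : (Set.range fun q : G × Fin c => ‖J q.1 q.2‖).Finite := by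
      have : Finite G := hG.to_subtype
      exact Set.finite_range _
    obtain ⟨M, hM⟩ := hfin.bddAbove
    exact ⟨M, fun x hx i => hM ⟨(⟨x, hx⟩, i), rfl⟩⟩
  obtain ⟨d, hd0, hd1⟩ := NormedField.exists_norm_lt L (r := 1 / (max M 1))
    (one_div_pos.2 (lt_of_lt_of_le one_pos (le_max_right _ _)))
  have hdne : d ≠ 0 := norm_pos_iff.1 hd0
  have hM1 : (0 : ℝ) < max M 1 := lt_of_lt_of_le one_pos (le_max_right _ _)
  have hint : ∀ v ∈ Submodule.span S G, ∀ i, ‖(d • J v) i‖ ≤ 1 := by
    intro v hv
    induction hv using Submodule.span_induction with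
    | mem x hx =>
      intro i
      rw [Pi.smul_apply, smul_eq_mul, norm_mul]
      calc ‖d‖ * ‖J x i‖ ≤ (1 / max M 1) * max M 1 :=
            mul_le_mul hd1.le ((hM x hx i).trans (le_max_left _ _)) (norm_nonneg _)
              (one_div_pos.2 hM1).le
        _ = 1 := one_div_mul_cancel hM1.ne'
    | zero => intro i; rw [hJ0, smul_zero, Pi.zero_apply, norm_zero]; exact zero_le_one
    | add x y _ _ hx hy =>
      intro i
      rw [hJadd, smul_add, Pi.add_apply]
      exact (IsUltrametricDist.norm_add_le_max _ _).trans (max_le (hx i) (hy i))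
    | smul a x _ hx =>
      intro i
      rw [hσ, hJsmul, hj, smul_comm, Pi.smul_apply, smul_eq_mul, norm_mul]
      exact mul_le_one₀ (hφ _).1 (norm_nonneg _) (hx i)
  have hD0 : D 0 = 0 := by
    have := hadd 0 0
    rw [add_zero] at this
    exact left_eq_add.1 this
  have hD1 : D 1 = 0 := by
    have := hmul 1 1
    rw [mul_one, one_smul] at this
    exact left_eq_add.1 this
  let Φ : S →+* TrivSqZeroExt L (Fin c → L) :=
    { toFun := fun s => (φ (π s), d • J (D s))
      map_one' := by
        refine TrivSqZeroExt.ext ?_ ?_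
        · change φ (π 1) = 1
          rw [map_one, map_one]
        · change d • J (D 1) = 0
          rw [hD1, hJ0, smul_zero]
      map_mul' := fun x y => by
        refine TrivSqZeroExt.ext ?_ ?_
        · change φ (π (x * y)) = φ (π x) * φ (π y)
          rw [map_mul, map_mul]
        · change d • J (D (x * y)) =
            φ (π x) • (d • J (D y)) + MulOpposite.op (φ (π y)) • (d • J (D x))
          rw [op_smul_eq_smul, hmul, hJadd, hσ, hσ, hJsmul, hJsmul, hj, hj, smul_add,
            smul_comm d, smul_comm d]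
      map_zero' := by
        refine TrivSqZeroExt.ext ?_ ?_
        · change φ (π 0) = 0
          rw [map_zero, map_zero]
        · change d • J (D 0) = 0
          rw [hD0, hJ0, smul_zero]
      map_add' := fun x y => by
        refine TrivSqZeroExt.ext ?_ ?_
        · change φ (π (x + y)) = φ (π x) + φ (π y)
          rw [map_add, map_add]
        · change d • J (D (x + y)) = d • J (D x) + d • J (D y)
          rw [hadd, hJadd, smul_add] }
  refine ⟨S, iS, iSr, π, c, Φ, F, I, hπ, fun s => rfl, fun s i => hint _ (hG' s) i,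
    fun i => hF i, fun i hi => hFI i hi, ?_, ?_, ?_⟩
  · have h1 : (Matrix.of fun i j => (Φ (F i)).snd j) = d • (1 : Matrix (Fin c) (Fin c) L) := by
      ext i k
      change (d • J (D (F i))) k = d * (1 : Matrix (Fin c) (Fin c) L) i k
      rw [← hbs i, Pi.smul_apply, smul_eq_mul]
      congr 1
      change j (bs.repr (bs i) k) = _
      rw [Module.Basis.repr_self, Finsupp.single_apply, Matrix.one_apply]
      split_ifs
      · rw [map_one]
      · rw [map_zero]
    rw [h1, Matrix.det_smul, Matrix.det_one, mul_one]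
    exact pow_ne_zero _ hdne
  · -- the dimension
    have h3 : ringKrullDim O ≤ ((c : ℕ) : WithBot ℕ∞) := by
      rw [← hc, ← spanFinrank_maximalIdeal_eq_finrank_cotangentSpace]
      exact ringKrullDim_le_spanFinrank_maximalIdeal O
    have h4 : (((RingHom.ker (φ.comp π)).height : ℕ∞) : WithBot ℕ∞) ≤ ((c : ℕ) : WithBot ℕ∞) := by
      rw [← IsLocalization.AtPrime.ringKrullDim_eq_height (RingHom.ker (φ.comp π)) O]
      exact h3
    have h6 : ringKrullDim S ≤ ((c + r : ℕ) : WithBot ℕ∞) := by
      push_cast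
      exact hSdim.trans (add_le_add h4 hdim)
    rw [← IsRegularLocalRing.spanFinrank_maximalIdeal] at h6
    exact_mod_cast h6
  · -- the number of equations which are not in the kernel
    change (I.card : WithBot ℕ∞) ≤ ringKrullDim TP
    have h1 : ((I.card + Module.finrank (ResidueField O) U : ℕ) : WithBot ℕ∞) ≤ ((c : ℕ) : WithBot ℕ∞) := by
      exact_mod_cast hI
    have h2 := h1.trans hcot
    push_cast at h2
    rw [add_comm] at h2
    have hne : ringKrullDim TP ≠ ⊥ := ringKrullDim_ne_bot
    obtain ⟨e, he⟩ := WithBot.ne_bot_iff_exists.1 hne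
    rw [← he] at h2 ⊢
    have h7 : ((Module.finrank (ResidueField O) U : ℕ∞) + (I.card : ℕ∞)) ≤
        (Module.finrank (ResidueField O) U : ℕ∞) + e := by
      exact_mod_cast h2
    have h8 := (ENat.add_le_add_iff_left (ENat.natCast_ne_top _)).1 h7
    exact_mod_cast h8

end Pool.Agent.Lib.MP_3029eb_ag.Imp
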