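import Pool.Agent.Lib.MP_3029eb_ag.ImpFinal

/-!
The final step for an arbitrary implicit prime (adapted from `AbhStep`).
-/

open IsLocalRing

namespace Pool.Agent.Lib.MP_3029eb_ag.Imp

open Pool.Agent.Lib.MP_3029eb_ag Pool.Agent.Lib.MP_3029eb_ag.Abh

open Classical in
theorem final_step_imp {K : Type} [NormedField K] [IsUltrametricDist K] (A : Subring K)
    [IsLocalRing A] [IsNoetherianRing A] (hA : A ≤ (ball K).toSubring)
    (hloc : locV (ball K) A = A) (S : Type) [CommRing S] [IsLocalRing S]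
    (π : S →+* AdicCompletion (maximalIdeal A) A)
    (hcov : ∀ a : A, ∃ s, π s = algebraMap A (AdicCompletion (maximalIdeal A) A) a)
    {ι : Type} [Fintype ι] (Z : ι → S) (z : ι → A)
    (hZ : Ideal.span (Set.range Z) = maximalIdeal S)
    (hZz : ∀ j, π (Z j) = algebraMap A (AdicCompletion (maximalIdeal A) A) (z j))
    {r : ℕ} (u1 : Fin r → K) (hu1 : Indep u1)
    (n : ι → ℕ) (ρ : ∀ j, Fin (n j) → A) (σ : ∀ j, Fin (n j) → S)
    (hσ : ∀ j l, π (σ j l) = algebraMap A (AdicCompletion (maximalIdeal A) A) (ρ j l))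
    (β : ∀ j, Fin (n j) → Fin r → ℕ) (hβ : ∀ j l, β j l ≠ 0)
    (q : ℝ) (hza : ∀ j, ‖((z j : A) : K) - ∑ l, ((ρ j l : A) : K) * monN u1 (β j l)‖ ≤ q)
    {L : Type} [NormedField L] [IsUltrametricDist L] (κ : K →+* L) (hκ : ∀ z, ‖κ z‖ = ‖z‖)
    (φ : AdicCompletion (maximalIdeal A) A →+* L) (hφ : Dom φ)
    (hφa : ∀ a : A, φ (algebraMap A (AdicCompletion (maximalIdeal A) A) a) = κ (a : K))
    (hdomπ : ∀ s, s ∈ maximalIdeal S ↔ ‖φ (π s)‖ < 1)
    (G : ι → AdicCompletion (maximalIdeal A) A) (hGφ : ∀ i, φ (G i) = 0)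
    (Ib : Finset ι) (hGI : ∀ i, i ∉ Ib → G i = 0) (h : ℕ) (hIb : Ib.card ≤ h)
    (F : ι → MvPolynomial (Fin r) S)
    (hF : ∀ (T3 : Type) [CommRing T3] (χT : AdicCompletion (maximalIdeal A) A →+* T3)
      (w : Fin r → T3), (∀ (a : A) (γ : Fin r → ℕ), (a : K) = monN u1 γ →
        χT (algebraMap A (AdicCompletion (maximalIdeal A) A) a) = monN w γ) →
      ∀ i, MvPolynomial.eval₂Hom (χT.comp π) w (F i) = χT (G i))
    (μ : MvPolynomial (Fin r) S) (b : Fin r → ℕ) (cb : Sˣ)
    (hμ1 : ∀ i, μ * (MvPolynomial.C (Z i) -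
        ∑ l, MvPolynomial.C (σ i l) * monN MvPolynomial.X (β i l)) ∈
        Ideal.span (Set.range F) ⊔
          Ideal.span {m | ∃ β : Fin r → ℕ, m = monN MvPolynomial.X β ∧ ‖monN u1 β‖ ≤ q})
    (hμ2 : μ - MvPolynomial.C (cb : S) * monN MvPolynomial.X b ∈
        Ideal.span (Set.range fun j => MvPolynomial.C (Z j) -
          ∑ l, MvPolynomial.C (σ j l) * monN MvPolynomial.X (β j l)) ⊔
          Ideal.span {m | ∃ β : Fin r → ℕ, m = monN MvPolynomial.X β ∧
            ‖monN u1 β‖ < ‖monN u1 b‖})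
    (γ0 : Fin r → ℕ) (hγ0 : γ0 ≠ 0) (hγ1 : ‖monN u1 γ0‖ < 1)
    (hq : q < ‖monN u1 (b + (b + γ0))‖)
    (hlow : ∀ g : Finset K, (∀ t ∈ g, ‖t‖ ≤ 1) → (((h + r : ℕ) : ℕ∞) : WithBot ℕ∞) ≤
      ringKrullDim (locV (ball K) (Subring.closure ((A : Set K) ∪ (g : Set K)))))
    (ε : ℝ) (hε : 0 < ε) :
    ∃ g : Finset K, (∀ t ∈ g, ‖t‖ < 1) ∧
      IsRegularLocalRing (locV (ball K) (Subring.closure ((A : Set K) ∪ (g : Set K)))) ∧
      ∃ (u2 : Fin r → K) (gs : Finset K), Indep u2 ∧ (∀ k, u2 k ∈ g) ∧ gs ⊆ g ∧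
        (∀ y ∈ gs, ‖y‖ < ε) ∧ gs.card ≤ h ∧
        (∀ x ∈ locV (ball K) (Subring.closure ((A : Set K) ∪ (g : Set K))), ‖x‖ < 1 →
          ∃ (cc : Fin r → K) (dd : K → K),
            (∀ k, cc k ∈ locV (ball K) (Subring.closure ((A : Set K) ∪ (g : Set K)))) ∧
            (∀ y, dd y ∈ locV (ball K) (Subring.closure ((A : Set K) ∪ (g : Set K)))) ∧
            x = ∑ k, cc k * u2 k + ∑ y ∈ gs, dd y * y) ∧
        ∃ A2 : Fin r → Fin r → ℕ, ∀ i, u1 i = monN u2 (A2 i) := by
  have hu0 : ∀ i, u1 i ≠ 0 := hu1.ne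
  have hne : ∀ β : Fin r → ℕ, monN u1 β ≠ 0 := by
    intro β
    rw [← mon_natCast]
    exact mon_ne_zero u1 hu0 _
  have hpos : ∀ β : Fin r → ℕ, 0 < ‖monN u1 β‖ := fun β => norm_pos_iff.2 (hne β)
  have hle1 : ∀ β : Fin r → ℕ, ‖monN u1 β‖ ≤ 1 :=
    fun β => norm_monN_le_one (fun i => (hu1.lt i).le) β
  -- finitely many monomials
  have hB1 := fun i => exists_finset_of_mem_sup (Ideal.span (Set.range F)) (monN MvPolynomial.X)
    (fun β => ‖monN u1 β‖ ≤ q) _ (hμ1 i)
  choose B1 hB1 hB1' using hB1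
  obtain ⟨B2, hB2, hB2'⟩ := exists_finset_of_mem_sup _ (monN MvPolynomial.X)
    (fun β => ‖monN u1 β‖ < ‖monN u1 b‖) _ hμ2
  -- the precision
  have hw1 : ‖monN u1 (b + (b + γ0))‖ ≤ 1 := hle1 _
  have hw0 : 0 < ‖monN u1 (b + (b + γ0))‖ := hpos _
  have hdomA := dom_subtype A hA hloc
  have hz1 : ∀ j, ‖((z j : A) : K)‖ < 1 := by
    intro j
    have h1 : Z j ∈ maximalIdeal S := by rw [← hZ]; exact Ideal.subset_span ⟨j, rfl⟩
    have h3 := (hdomπ _).1 h1
    rw [hZz, hφa, hκ] at h3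
    exact h3
  obtain ⟨ϱ, hϱ0, hϱ1, hϱz, hϱu⟩ : ∃ ϱ : ℝ, 0 ≤ ϱ ∧ ϱ < 1 ∧ (∀ j, ‖((z j : A) : K)‖ ≤ ϱ) ∧
      ∀ k, ‖u1 k‖ ≤ ϱ := by
    have hne' : (insert (0 : ℝ) ((Finset.univ.image fun j => ‖((z j : A) : K)‖) ∪
        (Finset.univ.image fun k => ‖u1 k‖))).Nonempty := Finset.insert_nonempty _ _
    refine ⟨(insert (0 : ℝ) ((Finset.univ.image fun j => ‖((z j : A) : K)‖) ∪
        (Finset.univ.image fun k => ‖u1 k‖))).max' hne', ?_, ?_, ?_, ?_⟩
    · exact Finset.le_max' _ _ (Finset.mem_insert_self _ _)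
    · rw [Finset.max'_lt_iff]
      intro y hy
      rcases Finset.mem_insert.1 hy with rfl | hy
      · exact zero_lt_one
      rcases Finset.mem_union.1 hy with hy | hy
      · obtain ⟨j, -, rfl⟩ := Finset.mem_image.1 hy
        exact hz1 j
      · obtain ⟨k, -, rfl⟩ := Finset.mem_image.1 hy
        exact hu1.lt k
    · intro j
      exact Finset.le_max' _ _ (Finset.mem_insert_of_mem (Finset.mem_union_left _
        (Finset.mem_image_of_mem (fun j => ‖((z j : A) : K)‖) (Finset.mem_univ j))))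
    · intro k
      exact Finset.le_max' _ _ (Finset.mem_insert_of_mem (Finset.mem_union_right _
        (Finset.mem_image_of_mem (fun k => ‖u1 k‖) (Finset.mem_univ k))))
  obtain ⟨N, hN⟩ : ∃ N : ℕ, ϱ ^ N < ‖monN u1 (b + (b + γ0))‖ * min ε 1 :=
    exists_pow_lt_of_lt_one (mul_pos hw0 (lt_min hε one_pos)) hϱ1
  have hN1 : ϱ ^ N < ‖monN u1 (b + (b + γ0))‖ :=
    hN.trans_le (mul_le_of_le_one_right hw0.le (min_le_right _ _))
  have hmT : maximalIdeal (AdicCompletion (maximalIdeal A) A) =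
      Ideal.span (Set.range fun j => algebraMap A (AdicCompletion (maximalIdeal A) A) (z j)) := by
    refine le_antisymm ?_ ?_
    · have h0 : maximalIdeal (AdicCompletion (maximalIdeal A) A) =
          (maximalIdeal A).map (algebraMap A (AdicCompletion (maximalIdeal A) A)) :=
        AdicCompletion.maximalIdeal_eq_map
      rw [h0, Ideal.map_le_iff_le_comap]
      intro a ha
      rw [Ideal.mem_comap]
      obtain ⟨s, hs⟩ := hcov a
      have h2 : s ∈ maximalIdeal S := by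
        rw [hdomπ, hs, hφa, hκ]
        exact ((hdomA a).2).1 ha
      rw [← hs]
      rw [← hZ] at h2
      have h6 := Ideal.mem_map_of_mem π h2
      rw [Ideal.map_span] at h6
      refine (Ideal.span_le.2 ?_ : Ideal.span (π '' Set.range Z) ≤ _) h6
      rintro _ ⟨_, ⟨j, rfl⟩, rfl⟩
      rw [SetLike.mem_coe, hZz]
      exact Ideal.subset_span ⟨j, rfl⟩
    · rw [Ideal.span_le]
      rintro _ ⟨j, rfl⟩
      rw [SetLike.mem_coe, (hφ _).2]
      change ‖φ (algebraMap A (AdicCompletion (maximalIdeal A) A) (z j))‖ < 1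
      rw [hφa, hκ]
      exact hz1 j
  have happ : ∀ i, ∃ a : A, G i - algebraMap A (AdicCompletion (maximalIdeal A) A) a ∈
      maximalIdeal (AdicCompletion (maximalIdeal A) A) ^ N ∧ (i ∉ Ib → a = 0) := by
    intro i
    by_cases hi : i ∈ Ib
    · obtain ⟨a, -, ha⟩ := (sameCompletion_adicCompletion A).approxN 0 N (t := G i) (by
        rw [pow_zero, Ideal.one_eq_top]; trivial)
      rw [Nat.zero_add] at ha
      exact ⟨a, ha, fun h => absurd hi h⟩
    · refine ⟨0, ?_, fun _ => rfl⟩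
      rw [hGI i hi, map_zero, sub_zero]
      exact zero_mem _
  choose gs0 hgs0 hgs0' using happ
  have hgsn : ∀ i, ‖((gs0 i : A) : K)‖ ≤ ϱ ^ N := by
    intro i
    have h1 := hgs0 i
    rw [hmT] at h1
    have h2 := Fin_norm_pow φ (fun t => (hφ t).1) _ ϱ hϱ0 (fun j => by
      rw [hφa, hκ]; exact hϱz j) N _ h1
    rw [map_sub, hGφ, zero_sub, norm_neg, hφa, hκ] at h2
    exact h2
  let Bn : Finset (Fin r → ℕ) := (Fintype.piFinset fun _ => Finset.range (N + 1)).filter
    (fun β => ∑ i, β i = N)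
  have hBn : ∀ β : Fin r → ℕ, ∑ i, β i = N → β ∈ Bn := by
    intro β hβN
    refine Finset.mem_filter.2 ⟨Fintype.mem_piFinset.2 fun i => ?_, hβN⟩
    rw [Finset.mem_range, Nat.lt_succ_iff, ← hβN]
    exact Finset.single_le_sum (fun j _ => Nat.zero_le _) (Finset.mem_univ i)
  have hBn1 : ∀ β ∈ Bn, ‖monN u1 β‖ < ‖monN u1 (b + (b + γ0))‖ := by
    intro β hβ
    refine lt_of_le_of_lt ?_ hN1
    rw [← (Finset.mem_filter.1 hβ).2, monN, norm_prod, ← Finset.prod_pow_eq_pow_sum]
    refine Finset.prod_le_prod (fun i _ => norm_nonneg _) fun i _ => ?_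
    rw [norm_pow]
    exact pow_le_pow_left₀ (norm_nonneg _) (hϱu i) _
  -- differences of exponents
  let cast : (Fin r → ℕ) → (Fin r → ℤ) := fun β i => (β i : ℤ)
  have hcast : ∀ β γ : Fin r → ℕ, mon u1 (cast β - cast γ) = monN u1 β / monN u1 γ := by
    intro β γ
    rw [sub_eq_add_neg, mon_add u1 hu0, mon_neg, mon_natCast, mon_natCast, div_eq_mul_inv]
  let Δ : Finset (Fin r → ℤ) :=
    ((Finset.univ : Finset ι).biUnion fun i => (B1 i).image
      fun β => cast β - cast (b + (b + γ0))) ∪ (B2.image fun β => cast β - cast b) ∪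
      {cast γ0 - cast 0} ∪ (Bn.image fun β => cast β - cast (b + (b + γ0)))
  have hΔ : ∀ δ ∈ Δ, ‖mon u1 δ‖ < 1 := by
    intro δ hδ
    rw [Finset.mem_union, Finset.mem_union, Finset.mem_union, Finset.mem_biUnion,
      Finset.mem_singleton] at hδ
    rcases hδ with ((⟨i, -, hδ⟩ | hδ) | hδ) | hδ
    · obtain ⟨β, hβ, rfl⟩ := Finset.mem_image.1 hδ
      rw [hcast, norm_div, div_lt_one (hpos _)]
      exact (hB1 i β hβ).trans_lt hq
    · obtain ⟨β, hβ, rfl⟩ := Finset.mem_image.1 hδ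
      rw [hcast, norm_div, div_lt_one (hpos _)]
      exact hB2 β hβ
    · rw [hδ, hcast, norm_div, div_lt_one (hpos _), monN_zero, norm_one]
      exact hγ1
    · obtain ⟨β, hβ, rfl⟩ := Finset.mem_image.1 hδ
      rw [hcast, norm_div, div_lt_one (hpos _)]
      exact hBn1 β hβ
  obtain ⟨u2, A2, B', hu2, hA2, -, -, hΔ2⟩ := refine u1 hu1 Δ hΔ
  have hdiv : ∀ β γ : Fin r → ℕ, cast β - cast γ ∈ Δ →
      ∃ η : Fin r → ℕ, η ≠ 0 ∧ monN u1 β = monN u1 γ * monN u2 η := by
    intro β γ h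
    obtain ⟨η, hη⟩ := hΔ2 _ h
    refine ⟨η, monN_mem_of_norm (u := u2) ?_, ?_⟩
    · rw [← hη]; exact hΔ _ h
    · rw [← hη, hcast, mul_div_cancel₀ _ (hne γ)]
  -- the new elements
  let al : Fin r → ℕ := b + γ0
  let zz : ι → K := fun j => (((z j : A) : K) - ∑ l, ((ρ j l : A) : K) * monN u1 (β j l)) /
    monN u1 al
  have hzz : ∀ j, ‖zz j‖ < 1 := by
    intro j
    have h1 : ‖zz j‖ = ‖((z j : A) : K) - ∑ l, ((ρ j l : A) : K) * monN u1 (β j l)‖ /
        ‖monN u1 al‖ := norm_div _ _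
    rw [h1, div_lt_one (hpos _)]
    refine (hza j).trans_lt (hq.trans_le ?_)
    rw [monN_add, norm_mul]
    exact mul_le_of_le_one_left (norm_nonneg _) (hle1 b)
  let yy : ι → K := fun i => ((gs0 i : A) : K) / monN u1 (b + (b + γ0))
  have hyy : ∀ i, ‖yy i‖ < min ε 1 := by
    intro i
    have h1 : ‖yy i‖ = ‖((gs0 i : A) : K)‖ / ‖monN u1 (b + (b + γ0))‖ := norm_div _ _
    rw [h1, div_lt_iff₀ (hpos _), mul_comm]
    exact (hgsn i).trans_lt hN
  let gs : Finset K := Ib.image yy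
  let g : Finset K := (Finset.univ.image u2 ∪ Finset.univ.image zz) ∪ gs
  have hgu : ∀ k, u2 k ∈ g := fun k => Finset.mem_union_left _
    (Finset.mem_union_left _ (Finset.mem_image_of_mem _ (Finset.mem_univ k)))
  have hgz : ∀ j, zz j ∈ g := fun j => Finset.mem_union_left _
    (Finset.mem_union_right _ (Finset.mem_image_of_mem _ (Finset.mem_univ j)))
  have hg : ∀ t ∈ g, ‖t‖ < 1 := by
    intro t ht
    rcases Finset.mem_union.1 ht with ht | h
    · rcases Finset.mem_union.1 ht with h | h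
      · obtain ⟨k, -, rfl⟩ := Finset.mem_image.1 h
        exact hu2.lt k
      · obtain ⟨j, -, rfl⟩ := Finset.mem_image.1 h
        exact hzz j
    · obtain ⟨i, -, rfl⟩ := Finset.mem_image.1 h
      exact (hyy i).trans_le (min_le_right _ _)
  have hlowg := hlow g (fun t ht => (hg t ht).le)
  refine ⟨g, hg, ?_⟩
  have hclb : Subring.closure ((A : Set K) ∪ (g : Set K)) ≤ (ball K).toSubring :=
    closure_le_ball A hA _ (fun t ht => (hg t (Finset.mem_coe.1 ht)).le)
  have iL : IsLocalRing (locV (ball K) (Subring.closure ((A : Set K) ∪ (g : Set K)))) :=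
    isLocalRing_locV _ hclb
  have iN0 : IsNoetherianRing (Subring.closure ((A : Set K) ∪ (g : Set K))) :=
    isNoetherianRing_closure g
  have iN : IsNoetherianRing (locV (ball K) (Subring.closure ((A : Set K) ∪ (g : Set K)))) :=
    isNoetherianRing_locV _
  have hmax := maximalIdeal_locV A hA hloc g hg
  have hdom3 := dom_locV _ hclb
  have hAR : A ≤ locV (ball K) (Subring.closure ((A : Set K) ∪ (g : Set K))) :=
    fun a ha => le_locV _ _ (Subring.subset_closure (Or.inl ha))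
  have hgR : ∀ t ∈ g, t ∈ locV (ball K) (Subring.closure ((A : Set K) ∪ (g : Set K))) :=
    fun t ht => le_locV _ _ (Subring.subset_closure (Or.inr (Finset.mem_coe.2 ht)))
  generalize hR3 : locV (ball K) (Subring.closure ((A : Set K) ∪ (g : Set K))) = R3 at *
  have hu2R : ∀ k, u2 k ∈ R3 := fun k => hgR _ (hgu k)
  have hu1R : ∀ k, u1 k ∈ R3 := fun k => by
    rw [hA2 k]; exact monN_mem_subring R3 hu2R _
  let v : Fin r → R3 := fun k => ⟨u2 k, hu2R k⟩
  let w : Fin r → R3 := fun k => ⟨u1 k, hu1R k⟩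
  let ζ : ι → R3 := fun j => ⟨zz j, hgR _ (hgz j)⟩
  have hcw : ∀ γ : Fin r → ℕ, ((monN w γ : R3) : K) = monN u1 γ := fun γ => coe_monN R3 w γ
  have hcv : ∀ γ : Fin r → ℕ, ((monN v γ : R3) : K) = monN u2 γ := fun γ => coe_monN R3 v γ
  let Y : Set R3 := {y | (y : K) ∈ gs}
  let I : Ideal R3 := Ideal.span (Set.range v ∪ Y)
  have hI : I ≤ maximalIdeal R3 := by
    rw [Ideal.span_le]
    rintro y (⟨k, rfl⟩ | hy)
    · exact ((hdom3 (v k)).2).2 (hu2.lt k)
    · exact ((hdom3 y).2).2 (hg _ (Finset.mem_union_right _ hy))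
  have hvI : ∀ η : Fin r → ℕ, η ≠ 0 → monN v η ∈ I := fun η hη =>
    Ideal.span_mono Set.subset_union_left (monN_mem v η hη)
  have hwk : ∀ k, w k ∈ I := by
    intro k
    have h1 : w k = monN v (A2 k) := Subtype.ext (by rw [hcv]; exact hA2 k)
    rw [h1]
    refine hvI _ (monN_mem_of_norm (u := u2) ?_)
    rw [← hA2 k]; exact hu1.lt k
  have hwI : ∀ γ : Fin r → ℕ, γ ≠ 0 → monN w γ ∈ I := by
    intro γ hγ
    exact (Ideal.span_le.2 (by rintro _ ⟨k, rfl⟩; exact hwk k) :
      Ideal.span (Set.range w) ≤ I) (monN_mem w γ hγ)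
  -- the homomorphisms
  let T3 := AdicCompletion (maximalIdeal R3) R3
  let al3 : R3 →+* T3 := algebraMap R3 T3
  let j3 : A →+* R3 := Subring.inclusion hAR
  have hle : maximalIdeal A ≤ (maximalIdeal T3).comap (al3.comp j3) := by
    intro a ha
    have h1 : maximalIdeal T3 = (maximalIdeal R3).map al3 := AdicCompletion.maximalIdeal_eq_map
    rw [Ideal.mem_comap, h1, RingHom.comp_apply]
    refine Ideal.mem_map_of_mem _ (((hdom3 (j3 a)).2).2 ?_)
    exact ((hdomA a).2).1 ha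
  obtain ⟨χT, hχTl, hχT⟩ := exists_lift_completion' A T3 (maximalIdeal T3) le_rfl
    (al3.comp j3) hle
  have hχTa : ∀ a : A, χT (algebraMap A (AdicCompletion (maximalIdeal A) A) a) = al3 (j3 a) :=
    fun a => by rw [← RingHom.comp_apply, hχT]; rfl
  let W : Fin r → T3 := fun k => al3 (w k)
  have hWm : ∀ γ : Fin r → ℕ, monN W γ = al3 (monN w γ) := fun γ => (map_monN al3 w γ).symm
  let χ : MvPolynomial (Fin r) S →+* T3 := MvPolynomial.eval₂Hom (χT.comp π) W
  have hχC : ∀ s : S, χ (MvPolynomial.C s) = χT (π s) := fun s => MvPolynomial.eval₂Hom_C _ _ s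
  have hχX : ∀ k, χ (MvPolynomial.X k) = al3 (w k) := fun k => MvPolynomial.eval₂Hom_X' _ _ k
  have hχmon : ∀ γ : Fin r → ℕ, χ (monN MvPolynomial.X γ) = al3 (monN w γ) := by
    intro γ
    rw [map_monN, map_monN]
    congr 1
    funext k
    exact hχX k
  have hχF0 : ∀ i, χ (F i) = χT (G i) := by
    refine hF T3 χT W (fun a γ haγ => ?_)
    rw [hχTa, hWm]
    congr 1
    exact Subtype.ext (by rw [hcw]; exact haγ)
  have hχZ : ∀ j, χ (MvPolynomial.C (Z j) -
      ∑ l, MvPolynomial.C (σ j l) * monN MvPolynomial.X (β j l)) =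
        al3 (monN w (b + γ0) * ζ j) := by
    intro j
    rw [map_sub, map_sum, hχC, hZz, hχTa]
    have h1 : ∀ l, χ (MvPolynomial.C (σ j l) * monN MvPolynomial.X (β j l)) =
        al3 (j3 (ρ j l) * monN w (β j l)) := by
      intro l
      rw [map_mul, hχC, hσ, hχTa, hχmon, map_mul]
    rw [Finset.sum_congr rfl (fun l _ => h1 l), ← map_sum, ← map_sub]
    congr 1
    apply Subtype.ext
    rw [Subring.coe_mul, hcw, AddSubgroupClass.coe_sub]
    have h2 : ((∑ l, j3 (ρ j l) * monN w (β j l) : R3) : K) =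
        ∑ l, ((ρ j l : A) : K) * monN u1 (β j l) := by
      have h3 := map_sum R3.subtype (fun l => j3 (ρ j l) * monN w (β j l)) Finset.univ
      refine h3.trans (Finset.sum_congr rfl fun l _ => ?_)
      rw [map_mul]
      exact congrArg _ (hcw _)
    rw [h2]
    exact (mul_div_cancel₀ _ (hne al)).symm
  -- the elements of the maximal ideal of `A` lie in the ideal of the `w k`
  have hbγ : b + γ0 ≠ 0 := by
    intro h0
    apply hγ0
    funext k
    have h1 := congrFun h0 k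
    rw [Pi.add_apply, Pi.zero_apply] at h1
    rw [Pi.zero_apply]; omega
  have hWmem : ∀ γ : Fin r → ℕ, γ ≠ 0 → al3 (monN w γ) ∈ Ideal.span (Set.range W) := by
    intro γ hγ
    rw [← hWm]; exact monN_mem W γ hγ
  have hzW : ∀ j, al3 (j3 (z j)) ∈ Ideal.span (Set.range W) := by
    intro j
    have h1 := hχZ j
    rw [map_sub, map_sum, hχC, hZz, hχTa, sub_eq_iff_eq_add] at h1
    rw [h1]
    refine Ideal.add_mem _ ?_ (Ideal.sum_mem _ fun l _ => ?_)
    · rw [map_mul]; exact Ideal.mul_mem_right _ _ (hWmem _ hbγ)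
    · rw [map_mul, hχmon]
      exact Ideal.mul_mem_left _ _ (hWmem _ (hβ j l))
  have hmN : ∀ t ∈ maximalIdeal (AdicCompletion (maximalIdeal A) A) ^ N,
      ∃ t' ∈ I.map al3, χT t = al3 (monN w (b + (b + γ0))) * t' := by
    intro t ht
    have h1 : χT t ∈ Ideal.span (Set.range W) ^ N := by
      have h2 := Ideal.mem_map_of_mem χT ht
      rw [Ideal.map_pow] at h2
      refine Ideal.pow_right_mono ?_ N h2
      rw [hmT, Ideal.map_span, Ideal.span_le]
      rintro _ ⟨_, ⟨j, rfl⟩, rfl⟩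
      rw [SetLike.mem_coe, hχTa]
      exact hzW j
    have h3 : χT t ∈ Ideal.span {al3 (monN w (b + (b + γ0)))} * I.map al3 := by
      refine ((Fin_span_pow W N).trans ?_) h1
      rw [Ideal.span_le]
      rintro _ ⟨β, hβN, rfl⟩
      obtain ⟨η, hη, h4⟩ := hdiv β (b + (b + γ0)) (Finset.mem_union_right _
        (Finset.mem_image_of_mem _ (hBn β hβN)))
      have h5 : monN w β = monN w (b + (b + γ0)) * monN v η := Subtype.ext (by
        rw [Subring.coe_mul, hcw, hcw, hcv]; exact h4)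
      rw [SetLike.mem_coe, hWm, h5, map_mul, Ideal.mem_span_singleton_mul]
      exact ⟨_, Ideal.mem_map_of_mem al3 (hvI η hη), rfl⟩
    rw [Ideal.mem_span_singleton_mul] at h3
    obtain ⟨t', ht', h6⟩ := h3
    exact ⟨t', ht', h6.symm⟩
  have hχF : ∀ i, ∃ t ∈ I.map al3, χ (F i) = al3 (monN w (b + (b + γ0))) * t := by
    intro i
    rw [hχF0]
    by_cases hi : i ∈ Ib
    · obtain ⟨t', ht', h1⟩ := hmN _ (hgs0 i)
      have hyR : yy i ∈ R3 := hgR _ (Finset.mem_union_right _ (Finset.mem_image_of_mem _ hi))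
      have hyY : (⟨yy i, hyR⟩ : R3) ∈ Y := by
        show yy i ∈ gs
        exact Finset.mem_image_of_mem _ hi
      have hyI : (⟨yy i, hyR⟩ : R3) ∈ I := Ideal.subset_span (Or.inr hyY)
      refine ⟨t' + al3 ⟨yy i, hyR⟩, Ideal.add_mem _ ht' (Ideal.mem_map_of_mem al3 hyI), ?_⟩
      have h2 : χT (G i) = χT (G i - algebraMap A (AdicCompletion (maximalIdeal A) A) (gs0 i)) +
          al3 (j3 (gs0 i)) := by
        rw [map_sub, hχTa, sub_add_cancel]
      have h3 : j3 (gs0 i) = monN w (b + (b + γ0)) * ⟨yy i, hyR⟩ := by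
        apply Subtype.ext
        rw [Subring.coe_mul, hcw]
        exact (mul_div_cancel₀ _ (hne _)).symm
      rw [h2, h1, h3, map_mul, mul_add]
    · exact ⟨0, zero_mem _, by rw [hGI i hi, map_zero, mul_zero]⟩
  have hcu : IsUnit (χ (MvPolynomial.C (cb : S))) := (cb.isUnit.map MvPolynomial.C).map χ
  have hfin : ∀ i, al3 (ζ i) ∈ I.map al3 := by
    intro i
    refine final_algebra_imp R3 w hu0 I hI χ MvPolynomial.X hχX _ ζ F b γ0 hχF hχZ (hwI γ0 hγ0)
      (B1 i) B2 ?_ ?_ μ _ hcu i (hB1' i) hB2'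
    · intro β hβ
      obtain ⟨η, hη, h1⟩ := hdiv β (b + (b + γ0)) (Finset.mem_union_left _
        (Finset.mem_union_left _ (Finset.mem_union_left _ (Finset.mem_biUnion.2
          ⟨i, Finset.mem_univ _, Finset.mem_image_of_mem _ hβ⟩))))
      refine ⟨monN v η, hvI η hη, Subtype.ext ?_⟩
      rw [Subring.coe_mul, hcw, hcw, hcv]; exact h1
    · intro β hβ
      obtain ⟨η, hη, h1⟩ := hdiv β b (Finset.mem_union_left _ (Finset.mem_union_left _
        (Finset.mem_union_right _ (Finset.mem_image_of_mem _ hβ))))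
      refine ⟨monN v η, hvI η hη, Subtype.ext ?_⟩
      rw [Subring.coe_mul, hcw, hcw, hcv]; exact h1
  -- the maximal ideal
  have hzI : ∀ j, al3 (j3 (z j)) ∈ I.map al3 := by
    intro j
    have h1 := hχZ j
    rw [map_sub, map_sum, hχC, hZz, hχTa, sub_eq_iff_eq_add] at h1
    rw [h1]
    refine Ideal.add_mem _ ?_ (Ideal.sum_mem _ fun l _ => ?_)
    · rw [map_mul]; exact Ideal.mul_mem_left _ _ (hfin j)
    · rw [map_mul, hχmon]
      exact Ideal.mul_mem_left _ _ (Ideal.mem_map_of_mem _ (hwI _ (hβ j l)))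
  have hmap : (maximalIdeal R3).map al3 ≤ I.map al3 := by
    refine (Ideal.map_mono hmax).trans ?_
    rw [Ideal.map_span, Ideal.span_le]
    rintro _ ⟨x, hx, rfl⟩
    rw [SetLike.mem_coe]
    rcases hx with hx | ⟨hxA, hx1⟩
    · rcases Finset.mem_union.1 hx with hx | h
      · rcases Finset.mem_union.1 hx with h | h
        · obtain ⟨k, -, hk⟩ := Finset.mem_image.1 h
          have h1 : x = v k := Subtype.ext hk.symm
          rw [h1]
          exact Ideal.mem_map_of_mem _ (Ideal.subset_span (Or.inl ⟨k, rfl⟩))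
        · obtain ⟨j, -, hj⟩ := Finset.mem_image.1 h
          have h1 : x = ζ j := Subtype.ext hj.symm
          rw [h1]
          exact hfin j
      · exact Ideal.mem_map_of_mem _ (Ideal.subset_span (Or.inr h))
    · have h1 : x = j3 ⟨x, hxA⟩ := Subtype.ext rfl
      obtain ⟨s, hs⟩ := hcov ⟨x, hxA⟩
      have h2 : s ∈ maximalIdeal S := by
        rw [mem_maximalIdeal, mem_nonunits_iff]
        intro hu
        have h3 := (hu.map π).map χT
        rw [hs, hχTa] at h3
        have h4 : al3 (j3 ⟨x, hxA⟩) ∈ maximalIdeal T3 := by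
          have h5 : maximalIdeal T3 = (maximalIdeal R3).map al3 :=
            AdicCompletion.maximalIdeal_eq_map
          rw [h5]
          refine Ideal.mem_map_of_mem _ ?_
          rw [← h1]
          exact ((hdom3 x).2).2 hx1
        exact (mem_nonunits_iff.1 ((mem_maximalIdeal _).1 h4)) h3
      rw [h1, ← hχTa, ← hs]
      rw [← hZ] at h2
      have h6 := Ideal.mem_map_of_mem (χT.comp π) h2
      rw [Ideal.map_span] at h6
      refine (Ideal.span_le.2 ?_ : Ideal.span ((χT.comp π) '' Set.range Z) ≤ I.map al3) h6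
      rintro _ ⟨_, ⟨j, rfl⟩, rfl⟩
      rw [SetLike.mem_coe, RingHom.comp_apply, hZz, hχTa]
      exact hzI j
  have hIeq : maximalIdeal R3 = I :=
    le_antisymm (maximalIdeal_le_of_completion R3 I hI hmap) hI
  refine ⟨?_, u2, gs, hu2, hgu, Finset.subset_union_right, ?_, ?_, ?_, A2, hA2⟩
  · refine IsRegularLocalRing.of_spanFinrank_maximalIdeal_le R3 ?_
    refine le_trans ?_ hlowg
    rw [hIeq]
    have hYfin : Y.Finite := by
      have h1 : Y = Subtype.val ⁻¹' (gs : Set K) := rfl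
      rw [h1]
      exact Set.Finite.preimage Subtype.val_injective.injOn gs.finite_toSet
    have h1 : (Ideal.span (Set.range v ∪ Y) : Ideal R3).spanFinrank ≤ (Set.range v ∪ Y).ncard :=
      Submodule.spanFinrank_span_le_ncard_of_finite ((Set.finite_range v).union hYfin)
    have h2 : (Set.range v).ncard ≤ r := by
      have := Set.ncard_image_le (f := v) (s := Set.univ) Set.finite_univ
      rwa [Set.image_univ, Set.ncard_univ, Nat.card_eq_fintype_card, Fintype.card_fin] at this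
    have h3 : Y.ncard ≤ h := by
      have h4 : Y.ncard ≤ (gs : Set K).ncard :=
        Set.ncard_le_ncard_of_injOn Subtype.val (fun y hy => hy)
          Subtype.val_injective.injOn gs.finite_toSet
      rw [Set.ncard_coe_finset] at h4
      exact h4.trans (Finset.card_image_le.trans hIb)
    have h5 := Set.ncard_union_le (Set.range v) Y
    have h6 : (Ideal.span (Set.range v ∪ Y) : Ideal R3).spanFinrank ≤ h + r := by omega
    exact_mod_cast h6
  · intro y hy
    obtain ⟨i, -, rfl⟩ := Finset.mem_image.1 hy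
    exact (hyy i).trans_le (min_le_left _ _)
  · exact Finset.card_image_le.trans hIb
  · intro x hx hx1
    have h1 : (⟨x, hx⟩ : R3) ∈ I := by
      rw [← hIeq]
      exact ((hdom3 ⟨x, hx⟩).2).2 hx1
    have h2 : I = Ideal.span (Set.range v) ⊔ Ideal.span Y := Ideal.span_union _ _
    rw [h2] at h1
    obtain ⟨a, ha, d, hd, had⟩ := Submodule.mem_sup.1 h1
    obtain ⟨cc, hcc⟩ := (Ideal.mem_span_range_iff_exists_fun).1 ha
    have hd' : ∃ dd : K → K, (∀ y, dd y ∈ R3) ∧ (d : K) = ∑ y ∈ gs, dd y * y := by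
      have hgsR : ∀ y ∈ gs, y ∈ R3 := fun y hy => hgR y (Finset.mem_union_right _ hy)
      let D0 : Ideal R3 :=
        { carrier := {t | ∃ dd : K → K, (∀ y, dd y ∈ R3) ∧ (t : K) = ∑ y ∈ gs, dd y * y}
          add_mem' := by
            rintro t t' ⟨e, he, h⟩ ⟨e', he', h'⟩
            refine ⟨fun y => e y + e' y, fun y => add_mem (he y) (he' y), ?_⟩
            rw [Subring.coe_add, h, h', ← Finset.sum_add_distrib]
            exact Finset.sum_congr rfl fun y _ => by ring
          zero_mem' := ⟨fun _ => 0, fun _ => zero_mem _, by simp⟩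
          smul_mem' := by
            rintro t t' ⟨e, he, h⟩
            refine ⟨fun y => t * e y, fun y => mul_mem t.2 (he y), ?_⟩
            rw [smul_eq_mul, Subring.coe_mul, h, Finset.mul_sum]
            exact Finset.sum_congr rfl fun y _ => by ring }
      have h3 : Ideal.span Y ≤ D0 := by
        rw [Ideal.span_le]
        intro t ht
        refine ⟨fun y => if y = (t : K) then 1 else 0, fun y => ?_, ?_⟩
        · show (if y = (t : K) then (1 : K) else 0) ∈ R3
          by_cases hy : y = (t : K)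
          · rw [if_pos hy]; exact one_mem _
          · rw [if_neg hy]; exact zero_mem _
        · show (t : K) = ∑ y ∈ gs, (if y = (t : K) then (1 : K) else 0) * y
          rw [Finset.sum_eq_single (t : K)]
          · rw [if_pos rfl, one_mul]
          · intro y _ hy; rw [if_neg hy, zero_mul]
          · intro h; exact absurd ht h
      exact h3 hd
    obtain ⟨dd, hdd, hd2⟩ := hd'
    refine ⟨fun k => (cc k : K), dd, fun k => (cc k).2, hdd, ?_⟩
    have h3 : x = (a : K) + (d : K) := (congrArg Subtype.val had).symm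
    rw [h3, hd2]
    congr 1
    rw [← hcc]
    exact (map_sum R3.subtype (fun k => cc k * v k) Finset.univ).trans
      (Finset.sum_congr rfl fun k _ => rfl)

end Pool.Agent.Lib.MP_3029eb_ag.Imp
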