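import Pool.Agent.Lib.MP_3029eb_ag.H44Defs

/-!
Quadratic transforms of noetherian local rings are noetherian.
-/

open IsLocalRing

namespace Pool.Agent.Lib.MP_3029eb_ag

section

variable {A W : Type} [CommRing A] [IsLocalRing A] [CommRing W]

theorem x_mem_sig {φ : A →+* W} {x : A} (hx : x ∈ maximalIdeal A) : x ∈ sig φ x :=
  ⟨1, by rwa [pow_one], by rw [pow_one]⟩

/-- If `M = (y_i)` and `v_i = y_i / x` are in the subring `C`, then `b / x ^ N` is in `C` for
every `b` in `M ^ N`. -/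
theorem QT.exists_frac {ι : Type} {φ : A →+* W} {x : A} (y : ι → A)
    (hy : maximalIdeal A ≤ Ideal.span (Set.range y)) (v : ι → QT φ x)
    (hv : ∀ i, QT.of φ x x * v i = QT.of φ x (y i)) (C : Subring (QT φ x))
    (hC : ∀ a, QT.of φ x a ∈ C) (hvC : ∀ i, v i ∈ C) (N : ℕ) :
    ∀ b ∈ maximalIdeal A ^ N, ∃ F ∈ C, QT.of φ x b = QT.of φ x x ^ N * F := by
  have key : ∀ b ∈ maximalIdeal A, ∃ F ∈ C, QT.of φ x b = QT.of φ x x * F := by
    intro b hb
    refine Submodule.span_induction (p := fun b _ => ∃ F ∈ C, QT.of φ x b = QT.of φ x x * F)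
      ?_ ?_ ?_ ?_ (hy hb)
    · rintro _ ⟨i, rfl⟩
      exact ⟨v i, hvC i, (hv i).symm⟩
    · exact ⟨0, zero_mem _, by rw [map_zero, mul_zero]⟩
    · rintro b c - - ⟨F, hF, hF'⟩ ⟨G, hG, hG'⟩
      exact ⟨F + G, add_mem hF hG, by rw [map_add, hF', hG']; ring⟩
    · rintro a b - ⟨F, hF, hF'⟩
      exact ⟨QT.of φ x a * F, mul_mem (hC a) hF, by rw [smul_eq_mul, map_mul, hF']; ring⟩
  induction N with
  | zero =>
    intro b _
    exact ⟨QT.of φ x b, hC b, by rw [pow_zero, one_mul]⟩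
  | succ N ih =>
    intro b hb
    rw [pow_succ] at hb
    refine Submodule.mul_induction_on hb ?_ ?_
    · intro c hc d hd
      obtain ⟨F, hF, hF'⟩ := ih c hc
      obtain ⟨G, hG, hG'⟩ := key d hd
      exact ⟨F * G, mul_mem hF hG, by rw [map_mul, hF', hG']; ring⟩
    · rintro b c ⟨F, hF, hF'⟩ ⟨G, hG, hG'⟩
      exact ⟨F + G, add_mem hF hG, by rw [map_add, hF', hG']; ring⟩

/-- Every element of the quadratic transform is a fraction of elements of `C`. -/
theorem QT.exists_quot [IsDomain W] [IsLocalRing W] {ι : Type} {φ : A →+* W} {x : A}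
    (h : QTData φ x) (y : ι → A)
    (hy : maximalIdeal A ≤ Ideal.span (Set.range y)) (v : ι → QT φ x)
    (hv : ∀ i, QT.of φ x x * v i = QT.of φ x (y i)) (C : Subring (QT φ x))
    (hC : ∀ a, QT.of φ x a ∈ C) (hvC : ∀ i, v i ∈ C) (z : QT φ x) :
    ∃ F ∈ C, ∃ G ∈ C, IsUnit G ∧ G * z = F := by
  obtain ⟨N, b, s, hb, hs, hs', rfl⟩ := z.exists_rep
  obtain ⟨F, hF, hF'⟩ := QT.exists_frac y hy v hv C hC hvC N b hb
  obtain ⟨G, hG, hG'⟩ := QT.exists_frac y hy v hv C hC hvC N s hs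
  refine ⟨F, hF, G, hG, ?_, ?_⟩
  · rw [h.isUnit_iff]
    have h1 := congrArg h.toW hG'
    rw [map_mul, map_pow, h.toW_of, h.toW_of] at h1
    obtain ⟨u, hu⟩ := hs'
    have h2 : h.toW G * u = 1 := by
      apply mul_left_cancel₀ (pow_ne_zero N h.x_ne)
      rw [mul_one, ← mul_assoc, ← h1, hu]
    exact IsUnit.of_mul_eq_one _ h2
  · have hxs : x ^ N ∈ sig φ x := pow_mem (x_mem_sig h.x_mem) N
    refine QT.of_mul_cancel hxs ?_
    rw [← mul_assoc, map_pow, ← hG', QT.of_mul_mk, hF']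

end

theorem QT_noetherian {A W : Type} [CommRing A] [IsLocalRing A] [IsNoetherianRing A]
    [CommRing W] [IsDomain W] [IsLocalRing W] {φ : A →+* W} {x : A} (h : QTData φ x) :
    IsNoetherianRing (QT φ x) := by
  obtain ⟨S, hS⟩ := (isNoetherianRing_iff_ideal_fg A).1 inferInstance (maximalIdeal A)
  have hSM : ∀ i : S, (i : A) ∈ maximalIdeal A := fun i => by
    rw [← hS]; exact Ideal.subset_span i.2
  have hx1 : Associated (φ x) (φ x ^ 1) := by rw [pow_one]
  let v : S → QT φ x := fun i => QT.mk φ x 1 (i : A) x (by rw [pow_one]; exact hSM i)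
    (by rw [pow_one]; exact h.x_mem) hx1
  have hv : ∀ i, QT.of φ x x * v i = QT.of φ x (i : A) := fun i => QT.of_mul_mk ..
  let Ψ : MvPolynomial S A →+* QT φ x := MvPolynomial.eval₂Hom (QT.of φ x) v
  let C : Subring (QT φ x) := Ψ.range
  have hC : ∀ a, QT.of φ x a ∈ C := fun a => ⟨MvPolynomial.C a, MvPolynomial.eval₂Hom_C _ _ _⟩
  have hvC : ∀ i, v i ∈ C := fun i => ⟨MvPolynomial.X i, MvPolynomial.eval₂Hom_X' _ _ _⟩
  have hy : maximalIdeal A ≤ Ideal.span (Set.range (fun i : S => (i : A))) := by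
    rw [← hS]
    exact Ideal.span_mono (fun a ha => ⟨⟨a, ha⟩, rfl⟩)
  have hfrac := QT.exists_quot h (fun i : S => (i : A)) hy v hv C hC hvC
  have hnoeth : IsNoetherianRing C := isNoetherianRing_of_surjective _ _ Ψ.rangeRestrict
    Ψ.rangeRestrict_surjective
  let Sm : Submonoid C := (IsUnit.submonoid (QT φ x)).comap (C.subtype : C →* QT φ x)
  have hloc : IsLocalization Sm (QT φ x) := by
    refine ⟨fun s => s.2, fun z => ?_, fun {a b} hab => ⟨1, ?_⟩⟩
    · obtain ⟨F, hF, G, hG, hGu, hz⟩ := hfrac z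
      refine ⟨⟨⟨F, hF⟩, ⟨⟨G, hG⟩, hGu⟩⟩, ?_⟩
      change z * G = F
      rw [mul_comm]
      exact hz
    · have : a = b := Subtype.ext hab
      rw [this]
  exact IsLocalization.isNoetherianRing Sm (QT φ x) hnoeth

end Pool.Agent.Lib.MP_3029eb_ag
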