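import Pool.Agent.Lib.MP_3029eb_ag.K1a

/-!
Regularity of quadratic transforms, part 1: towers of localized polynomial rings.
-/

open IsLocalRing Polynomial

namespace Pool.Agent.Lib.MP_3029eb_ag

theorem one_step {C : Type} [CommRing C] [IsLocalRing C] [IsNoetherianRing C]
    (q : Ideal C[X]) [q.IsPrime] (hq : q.comap Polynomial.C = maximalIdeal C) :
    ∃ (m : ℕ) (g : Fin m → Localization.AtPrime q),
      maximalIdeal (Localization.AtPrime q) =
        (maximalIdeal C).map ((algebraMap C[X] (Localization.AtPrime q)).comp Polynomial.C) ⊔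
          Ideal.span (Set.range g) ∧
      ringKrullDim C + m ≤ ringKrullDim (Localization.AtPrime q) := by
  have hdimL : ringKrullDim (Localization.AtPrime q) = (q.height : WithBot ℕ∞) :=
    IsLocalization.AtPrime.ringKrullDim_eq_height q (Localization.AtPrime q)
  have hdimC : ringKrullDim C = ((maximalIdeal C).height : WithBot ℕ∞) :=
    maximalIdeal_height_eq_ringKrullDim.symm
  have ht : ((maximalIdeal C).map Polynomial.C).height = (maximalIdeal C).height :=
    height_map_C (maximalIdeal C)
  have hle : (maximalIdeal C).map Polynomial.C ≤ q := by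
    rw [← hq]; exact Ideal.map_comap_le
  have hmap : maximalIdeal (Localization.AtPrime q) =
      q.map (algebraMap C[X] (Localization.AtPrime q)) :=
    (Localization.AtPrime.map_eq_maximalIdeal).symm
  by_cases heq : q = (maximalIdeal C).map Polynomial.C
  · refine ⟨0, Fin.elim0, ?_, ?_⟩
    · rw [hmap, congrArg (Ideal.map (algebraMap C[X] (Localization.AtPrime q))) heq,
        Ideal.map_map, Set.range_eq_empty, Ideal.span_empty, sup_bot_eq]
    · rw [hdimL, hdimC, Nat.cast_zero, add_zero, congrArg Ideal.height heq, ht]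
  · have hmax : (q.comap Polynomial.C).IsMaximal := by
      rw [hq]; exact maximalIdeal.isMaximal C
    obtain ⟨y, -, hy⟩ := Polynomial.exists_monic_span_sup_map_eq C q hmax (by rwa [hq])
    rw [hq] at hy
    refine ⟨1, fun _ => algebraMap C[X] (Localization.AtPrime q) y, ?_, ?_⟩
    · rw [hmap, congrArg (Ideal.map (algebraMap C[X] (Localization.AtPrime q))) hy,
        Ideal.map_sup, Ideal.map_map, Ideal.map_span, Set.image_singleton, Set.range_const]
    · have hlt : (maximalIdeal C).map Polynomial.C < q := lt_of_le_of_ne hle (Ne.symm heq)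
      have h1 := Ideal.height_add_one_le_of_lt_of_isPrime hlt
      rw [ht] at h1
      rw [hdimL, hdimC]
      exact WithBot.coe_le_coe.mpr h1

theorem tower {A Q : Type} [CommRing A] [IsLocalRing A] [IsNoetherianRing A] [CommRing Q]
    [IsLocalRing Q] (h0 : A →+* Q) [IsLocalHom h0] (n : ℕ) (v : Fin n → Q) :
    ∃ (C : Type) (_ : CommRing C) (_ : IsLocalRing C) (_ : IsNoetherianRing C) (f : A →+* C)
      (h : C →+* Q) (t : Fin n → C), IsLocalHom h ∧ h.comp f = h0 ∧ (∀ i, h (t i) = v i) ∧
      (∃ (m : ℕ) (g : Fin m → C),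
        maximalIdeal C = (maximalIdeal A).map f ⊔ Ideal.span (Set.range g) ∧
        ringKrullDim A + m ≤ ringKrullDim C) ∧
      ∀ a : C, ∃ u ∈ Subring.closure (Set.range f ∪ Set.range t), IsUnit u ∧
        u * a ∈ Subring.closure (Set.range f ∪ Set.range t) := by
  induction n with
  | zero =>
    refine ⟨A, inferInstance, inferInstance, inferInstance, RingHom.id A, h0, Fin.elim0,
      inferInstance, RingHom.comp_id h0, fun i => i.elim0, ⟨0, Fin.elim0, ?_, ?_⟩, ?_⟩
    · rw [Ideal.map_id, Set.range_eq_empty, Ideal.span_empty, sup_bot_eq]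
    · rw [Nat.cast_zero, add_zero]
    · intro a
      refine ⟨1, one_mem _, isUnit_one, ?_⟩
      rw [one_mul]
      exact Subring.subset_closure (Or.inl ⟨a, rfl⟩)
  | succ n ih =>
    obtain ⟨C, _, _, _, f, h, t, hloc, hcomp, ht, ⟨m, g, hg, hdim⟩, hfrac⟩ := ih (Fin.init v)
    let e : C[X] →+* Q := Polynomial.eval₂RingHom h (v (Fin.last n))
    have heC : ∀ c, e (Polynomial.C c) = h c := fun c => Polynomial.eval₂_C _ _
    have heX : e Polynomial.X = v (Fin.last n) := Polynomial.eval₂_X _ _
    let q : Ideal C[X] := (maximalIdeal Q).comap e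
    have hqp : q.IsPrime := Ideal.comap_isPrime e (maximalIdeal Q)
    have hmemq : ∀ p, p ∈ q ↔ ¬ IsUnit (e p) := fun p => Iff.rfl
    have hq : q.comap Polynomial.C = maximalIdeal C := by
      ext c
      rw [Ideal.mem_comap, hmemq, heC, mem_maximalIdeal, mem_nonunits_iff, isUnit_map_iff]
    obtain ⟨m', g', hg', hdim'⟩ := one_step q hq
    let L := Localization.AtPrime q
    let ψ : C[X] →+* L := algebraMap C[X] L
    have hunits : ∀ y : q.primeCompl, IsUnit (e y) := by
      intro y
      by_contra hy
      exact y.2 ((hmemq _).2 hy)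
    let h' : L →+* Q := IsLocalization.lift (M := q.primeCompl) (g := e) hunits
    have hh' : ∀ p, h' (ψ p) = e p := fun p => IsLocalization.lift_eq _ p
    have hψu : ∀ p, p ∉ q → IsUnit (ψ p) := fun p hp =>
      IsLocalization.map_units L (⟨p, hp⟩ : q.primeCompl)
    let t' : Fin (n + 1) → L := Fin.snoc (fun i => ψ (Polynomial.C (t i))) (ψ Polynomial.X)
    have ht'c : ∀ i : Fin n, t' i.castSucc = ψ (Polynomial.C (t i)) := fun i => by
      simp only [t', Fin.snoc_castSucc]
    have ht'l : t' (Fin.last n) = ψ Polynomial.X := by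
      simp only [t', Fin.snoc_last]
    refine ⟨L, inferInstance, inferInstance, inferInstance, (ψ.comp Polynomial.C).comp f, h', t',
      ?_, ?_, ?_, ⟨m + m', Fin.append (fun i => ψ (Polynomial.C (g i))) g', ?_, ?_⟩, ?_⟩
    · refine ⟨fun z hz => ?_⟩
      obtain ⟨p, s, rfl⟩ := IsLocalization.exists_mk'_eq q.primeCompl z
      have h1 : h' (IsLocalization.mk' L p s) * e s = e p := by
        rw [← hh' s, ← hh' p, ← map_mul]
        congr 1
        exact IsLocalization.mk'_spec L p s
      have h2 : IsUnit (e p) := by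
        rw [← h1]; exact hz.mul (hunits s)
      have h3 : p ∉ q := fun h3 => ((hmemq p).1 h3) h2
      have h4 : IsLocalization.mk' L p s * ψ s = ψ p := IsLocalization.mk'_spec L p s
      have h5 := hψu p h3
      rw [← h4] at h5
      exact isUnit_of_mul_isUnit_left h5
    · rw [← hcomp]
      ext a
      change h' (ψ (Polynomial.C (f a))) = h (f a)
      rw [hh', heC]
    · intro i
      refine Fin.lastCases ?_ (fun i => ?_) i
      · rw [ht'l, hh', heX]
      · rw [ht'c, hh', heC, ht]
        rfl
    · rw [hg', hg, Ideal.map_sup, Ideal.map_map, sup_assoc, Ideal.map_span, ← Ideal.span_union]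
      congr 2
      ext z
      constructor
      · rintro (⟨_, ⟨i, rfl⟩, rfl⟩ | ⟨i, rfl⟩)
        · exact ⟨Fin.castAdd m' i, Fin.append_left _ _ i⟩
        · exact ⟨Fin.natAdd m i, Fin.append_right _ _ i⟩
      · rintro ⟨i, rfl⟩
        refine Fin.addCases (fun i => ?_) (fun i => ?_) i
        · left
          exact ⟨g i, ⟨i, rfl⟩,
            (Fin.append_left (fun i => ψ (Polynomial.C (g i))) g' i).symm⟩
        · right
          exact ⟨i, (Fin.append_right _ _ i).symm⟩
    · rw [Nat.cast_add, ← add_assoc]
      exact (add_le_add_left hdim _).trans hdim'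
    · set S := Subring.closure (Set.range f ∪ Set.range t) with hS
      set S' := Subring.closure (Set.range ((ψ.comp Polynomial.C).comp f) ∪ Set.range t') with hS'
      have fact1 : ∀ c ∈ S, ψ (Polynomial.C c) ∈ S' := by
        have : S ≤ S'.comap (ψ.comp Polynomial.C) := by
          rw [hS, Subring.closure_le]
          rintro _ (⟨a, rfl⟩ | ⟨i, rfl⟩)
          · exact Subring.subset_closure (Or.inl ⟨a, rfl⟩)
          · exact Subring.subset_closure (Or.inr ⟨i.castSucc, ht'c i⟩)
        exact fun c hc => this hc
      have factX : ψ Polynomial.X ∈ S' := Subring.subset_closure (Or.inr ⟨Fin.last n, ht'l⟩)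
      have fact2 : ∀ p : C[X], ∃ u ∈ S, IsUnit u ∧ ψ (Polynomial.C u * p) ∈ S' := by
        intro p
        induction p using Polynomial.induction_on' with
        | add p r hp hr =>
          obtain ⟨u, hu, huu, hu'⟩ := hp
          obtain ⟨w, hw, hww, hw'⟩ := hr
          refine ⟨u * w, mul_mem hu hw, huu.mul hww, ?_⟩
          have : ψ (Polynomial.C (u * w) * (p + r)) =
              ψ (Polynomial.C w) * ψ (Polynomial.C u * p) +
              ψ (Polynomial.C u) * ψ (Polynomial.C w * r) := by
            rw [← map_mul, ← map_mul, ← map_add, Polynomial.C_mul]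
            congr 1
            ring
          rw [this]
          exact add_mem (mul_mem (fact1 w hw) hu') (mul_mem (fact1 u hu) hw')
        | monomial k c =>
          obtain ⟨u, hu, huu, hu'⟩ := hfrac c
          refine ⟨u, hu, huu, ?_⟩
          have : ψ (Polynomial.C u * Polynomial.monomial k c) =
              ψ (Polynomial.C (u * c)) * ψ Polynomial.X ^ k := by
            rw [← map_pow, ← map_mul, Polynomial.C_mul_monomial, Polynomial.C_mul_X_pow_eq_monomial]
          rw [this]
          exact mul_mem (fact1 _ hu') (pow_mem factX k)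
      intro a
      obtain ⟨p, s, rfl⟩ := IsLocalization.exists_mk'_eq q.primeCompl a
      obtain ⟨u, hu, huu, hu'⟩ := fact2 p
      obtain ⟨w, hw, hww, hw'⟩ := fact2 s
      have hspec : ψ s * IsLocalization.mk' L p s = ψ p := IsLocalization.mk'_spec' L p s
      refine ⟨ψ (Polynomial.C u) * ψ (Polynomial.C w * s), mul_mem (fact1 u hu) hw', ?_, ?_⟩
      · rw [map_mul]
        exact (huu.map (ψ.comp Polynomial.C)).mul
          ((hww.map (ψ.comp Polynomial.C)).mul (hψu _ s.2))
      · have : ψ (Polynomial.C u) * ψ (Polynomial.C w * s) * IsLocalization.mk' L p s =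
            ψ (Polynomial.C w) * ψ (Polynomial.C u * p) := by
          rw [map_mul, map_mul, ← hspec]
          ring
        rw [this]
        exact mul_mem (fact1 w hw) hu'

end Pool.Agent.Lib.MP_3029eb_ag
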