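import Pool.Agent.Lib.MP_3029eb_ag.H44Lex
import Pool.Agent.Lib.MP_3029eb_ag.GRE3

/-!
Local uniformization of quasi-excellent local domains along every valuation with value group
`ℤ ^ r` ordered lexicographically.
-/

open scoped TensorProduct

namespace Pool.Agent.Results.MP_3029eb_ag.LexValueGroup

/-- The noetherian local ring `R` is quasi-excellent: its formal fibres are geometrically regular,
that is, for every prime `p` of `R`, every finite extension field `L` of the residue field of `p`
and every prime `Q` of the tensor product of `L` with the completion of `R`, the localization at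
`Q` is a regular local ring. -/
def QuasiExcellent (R : Type) [CommRing R] [IsLocalRing R] : Prop :=
  ∀ (p : Ideal R) [p.IsPrime] (L : Type) [Field L] [Algebra R L]
      [Algebra p.ResidueField L] [IsScalarTower R p.ResidueField L]
      [FiniteDimensional p.ResidueField L]
      (Q : Ideal (L ⊗[R] AdicCompletion (IsLocalRing.maximalIdeal R) R)) [Q.IsPrime],
      IsRegularLocalRing (Localization.AtPrime Q)

/-- Let `R` be a quasi-excellent local domain with fraction field `K`.  Let `V` be the valuation
ring of a valuation `φ` of `K` with values in `ℤ ^ r` ordered lexicographically (written so that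
`V` is the set of elements of value at most zero), and suppose that `V` dominates `R`.  Then there
is a finitely generated subalgebra `A` of `K` in `V` whose localization at the centre of `V` is
regular. -/
theorem result :
    ∀ (R : Type) [CommRing R] [IsDomain R] [IsNoetherianRing R] [IsLocalRing R],
      QuasiExcellent R →
      ∀ (K : Type) [Field K] [Algebra R K] [IsFractionRing R K]
        (V : ValuationSubring K) (r : ℕ) (φ : Kˣ →* Multiplicative (Lex (Fin r → ℤ))),
        (∀ z : Kˣ, (z : K) ∈ V ↔ (φ z).toAdd ≤ 0) →
        (∀ a : R, algebraMap R K a ∈ V) →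
        (∀ a : R, a ∈ IsLocalRing.maximalIdeal R ↔ V.valuation (algebraMap R K a) < 1) →
        ∃ A : Subalgebra R K, A.FG ∧ (∀ a : A, (a : K) ∈ V) ∧
          ∃ P : Ideal A, ∃ (_ : P.IsPrime),
            (∀ a : A, a ∈ P ↔ V.valuation (a : K) < 1) ∧
            IsRegularLocalRing (Localization.AtPrime P) := by
  intro R _ _ _ _ H K _ _ _ V r φ hφ hRV hRm
  exact Pool.Agent.Lib.MP_3029eb_ag.LU_to_subalgebra V hRV
    (Pool.Agent.Lib.MP_3029eb_ag.lu_discRank R K (IsFractionRing.injective R K)
      (fun B _ _ _ _ _ _ => Pool.Agent.Lib.MP_3029eb_ag.GR.gfr_of_essFinite R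
        (Pool.Agent.Lib.MP_3029eb_ag.GR.isRegularRing_of_regular R H) B) r V (Pool.Agent.Lib.MP_3029eb_ag.C6.main r K V φ hφ) hRV hRm)

end Pool.Agent.Results.MP_3029eb_ag.LexValueGroup
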